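import Pool.Agent.Lib.MP_d0323d_co.Defs
/-! Module WEIGHTS (4.1). -/
set_option autoImplicit false
namespace Pool.Agent.SC
open Finset

theorem wt_le_one (J t : ℕ) : wt J t ≤ 1 := by
  unfold wt
  have : (0 : ℝ) ≤ (Nat.log 2 t : ℝ) / (2 * J) := by positivity
  linarith

theorem wt_ge_half {N t : ℕ} (ht : t ≤ N) : 1 / 2 ≤ wt (Nat.log 2 N + 1) t := by
  unfold wt
  have h1 : Nat.log 2 t ≤ Nat.log 2 N := Nat.log_mono_right ht
  have h2 : ((Nat.log 2 t : ℕ) : ℝ) ≤ (Nat.log 2 N : ℕ) := by exact_mod_cast h1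
  have h3 : ((Nat.log 2 t : ℕ) : ℝ) / (2 * ((Nat.log 2 N + 1 : ℕ) : ℝ)) ≤ 1 / 2 := by
    rw [div_le_iff₀ (by positivity)]
    push_cast
    linarith
  linarith

theorem wt_anti (J : ℕ) {s t : ℕ} (h : s ≤ t) : wt J t ≤ wt J s := by
  unfold wt
  have h1 : Nat.log 2 s ≤ Nat.log 2 t := Nat.log_mono_right h
  have h2 : ((Nat.log 2 s : ℕ) : ℝ) ≤ (Nat.log 2 t : ℕ) := by exact_mod_cast h1
  have h3 : ((Nat.log 2 s : ℕ) : ℝ) / (2 * J) ≤ (Nat.log 2 t : ℕ) / (2 * J) :=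
    div_le_div_of_nonneg_right h2 (by positivity)
  linarith

theorem Wt_succ (J m : ℕ) : Wt J (m + 1) = Wt J m + wt J (m + 1) := by
  unfold Wt
  rw [Finset.sum_Icc_succ_top (by omega)]

theorem Wt_zero (J : ℕ) : Wt J 0 = 0 := by
  unfold Wt; simp

theorem ut_one (J : ℕ) : ut J 1 = 1 := by
  unfold ut Wt wt
  simp

theorem ut_le_one (J m : ℕ) : ut J m ≤ 1 := by
  unfold ut
  rcases Nat.eq_zero_or_pos m with rfl | hm
  · simp
  · rw [div_le_one (by exact_mod_cast hm)]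
    unfold Wt
    calc ∑ t ∈ Icc 1 m, wt J t ≤ ∑ t ∈ Icc 1 m, (1 : ℝ) := sum_le_sum fun t _ => wt_le_one J t
      _ = m := by simp

theorem ut_ge_half {N m : ℕ} (h1 : 1 ≤ m) (hm : m ≤ N) : 1 / 2 ≤ ut (Nat.log 2 N + 1) m := by
  unfold ut
  rw [le_div_iff₀ (by exact_mod_cast h1)]
  unfold Wt
  calc (1 : ℝ) / 2 * m = ∑ t ∈ Icc 1 m, (1 / 2 : ℝ) := by
        rw [sum_const, Nat.card_Icc]; simp [mul_comm]
    _ ≤ _ := sum_le_sum fun t ht => wt_ge_half ((mem_Icc.1 ht).2.trans hm)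

theorem Wt_eq (J m : ℕ) : Wt J m = m * ut J m := by
  unfold ut
  rcases Nat.eq_zero_or_pos m with rfl | hm
  · simp [Wt_zero]
  · have : (m : ℝ) ≠ 0 := by exact_mod_cast hm.ne'
    field_simp

/-- the main estimate behind (W1) -/
theorem Wt_sub_ge (J m : ℕ) (hJ : 1 ≤ J) (hm : 1 ≤ m) :
    (m : ℝ) / (4 * J) ≤ Wt J m - m * wt J (m + 1) := by
  have hJ' : (0 : ℝ) < J := by exact_mod_cast hJ
  set k := Nat.log 2 (m + 1) with hk
  have hk1 : 2 ^ k ≤ m + 1 := Nat.pow_log_le_self 2 (by omega)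
  have hk2 : m + 1 < 2 ^ (k + 1) := Nat.lt_pow_succ_log_self (by norm_num) _
  have hcount : (m : ℝ) / 2 ≤ ((2 ^ k - 1 : ℕ) : ℝ) := by
    have : m ≤ 2 * (2 ^ k - 1) := by
      have h1 : 1 ≤ 2 ^ k := Nat.one_le_two_pow
      rw [pow_succ] at hk2
      omega
    have h2 : (m : ℝ) ≤ 2 * ((2 ^ k - 1 : ℕ) : ℝ) := by exact_mod_cast this
    linarith
  have hsub : Ico 1 (2 ^ k) ⊆ Icc 1 m := by
    intro t ht
    rw [mem_Ico] at ht
    rw [mem_Icc]
    omega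
  have e1 : Wt J m - m * wt J (m + 1) = ∑ t ∈ Icc 1 m, (wt J t - wt J (m + 1)) := by
    unfold Wt
    rw [sum_sub_distrib, sum_const, Nat.card_Icc]
    simp
  rw [e1]
  have e2 : ∑ t ∈ Ico 1 (2 ^ k), (1 / (2 * (J : ℝ))) ≤ ∑ t ∈ Icc 1 m, (wt J t - wt J (m + 1)) := by
    refine (sum_le_sum fun t ht => ?_).trans (sum_le_sum_of_subset_of_nonneg hsub fun t ht _ =>
      sub_nonneg.2 (wt_anti J (by rw [mem_Icc] at ht; omega)))
    rw [mem_Ico] at ht
    have h3 : Nat.log 2 t < k := Nat.log_lt_of_lt_pow (by omega) ht.2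
    have h4 : ((Nat.log 2 t : ℕ) : ℝ) + 1 ≤ (k : ℝ) := by exact_mod_cast h3
    unfold wt
    rw [← hk]
    have : 1 - (Nat.log 2 t : ℝ) / (2 * J) - (1 - (k : ℝ) / (2 * J)) = ((k : ℝ) - Nat.log 2 t) / (2 * J) := by
      ring
    rw [this]
    exact div_le_div_of_nonneg_right (by linarith) (by positivity)
  refine le_trans ?_ e2
  rw [sum_const, Nat.card_Ico, nsmul_eq_mul]
  calc (m : ℝ) / (4 * J) = (m / 2) * (1 / (2 * J)) := by field_simp; ring
    _ ≤ _ := mul_le_mul_of_nonneg_right hcount (by positivity)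

/-- (W1) -/
theorem ut_sub (J m : ℕ) (hJ : 1 ≤ J) (hm : 1 ≤ m) :
    1 / (4 * (J : ℝ) * (m + 1)) ≤ ut J m - ut J (m + 1) := by
  have hJ' : (0 : ℝ) < J := by exact_mod_cast hJ
  have hm' : (0 : ℝ) < m := by exact_mod_cast hm
  have h := Wt_sub_ge J m hJ hm
  have e : ut J m - ut J (m + 1) = (Wt J m - m * wt J (m + 1)) / (m * (m + 1)) := by
    unfold ut
    rw [Wt_succ]
    push_cast
    field_simp
    ring
  rw [e, le_div_iff₀ (by positivity)]
  refine le_trans (le_of_eq ?_) h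
  field_simp

theorem ut_anti (J : ℕ) {a b : ℕ} (ha : 1 ≤ a) (h : a ≤ b) : ut J b ≤ ut J a := by
  induction b, h using Nat.le_induction with
  | base => exact le_rfl
  | succ b hab ih =>
    refine le_trans ?_ ih
    rcases Nat.eq_zero_or_pos J with rfl | hJ
    · have : ∀ m, 1 ≤ m → ut 0 m = 1 := by
        intro m hm
        unfold ut Wt wt
        have : (m : ℝ) ≠ 0 := by exact_mod_cast (by omega : m ≠ 0)
        simp [this]
      rw [this _ (by omega), this _ (by omega)]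
    · have h1 := ut_sub J b hJ (by omega)
      have h2 : (0 : ℝ) ≤ 1 / (4 * (J : ℝ) * (b + 1)) := by positivity
      linarith

/-- (W2) -/
theorem sum_inv_le (J a b : ℕ) (hJ : 1 ≤ J) (ha : 1 ≤ a) (h : a ≤ b) :
    ∑ t ∈ Ioc a b, (1 : ℝ) / t ≤ 4 * J * (ut J a - ut J b) := by
  have hJ' : (0 : ℝ) < J := by exact_mod_cast hJ
  induction b, h using Nat.le_induction with
  | base => simp
  | succ b hab ih =>
    rw [← Finset.insert_Ioc_right_eq_Ioc_add_one hab, sum_insert (by simp)]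
    have h1 := ut_sub J b hJ (by omega)
    have hb : (0 : ℝ) < (b : ℝ) + 1 := by positivity
    rw [div_le_iff₀ (by positivity)] at h1
    have h2 : (1 : ℝ) / ((b + 1 : ℕ) : ℝ) ≤ 4 * J * (ut J b - ut J (b + 1)) := by
      push_cast
      rw [div_le_iff₀ hb]
      linarith
    linarith

theorem ut_gap (J a b : ℕ) (hJ : 1 ≤ J) (ha : 1 ≤ a) (h : a ≤ b) :
    ((b : ℝ) - a) / (4 * J * b) ≤ ut J a - ut J b := by
  have hJ' : (0 : ℝ) < J := by exact_mod_cast hJ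
  have hb' : (0 : ℝ) < b := by exact_mod_cast (by omega : 0 < b)
  have h1 := sum_inv_le J a b hJ ha h
  have h2 : ((b : ℝ) - a) / b ≤ ∑ t ∈ Ioc a b, (1 : ℝ) / t := by
    calc ((b : ℝ) - a) / b = ∑ t ∈ Ioc a b, (1 : ℝ) / b := by
          rw [sum_const, Nat.card_Ioc, nsmul_eq_mul, Nat.cast_sub h]
          ring
      _ ≤ _ := sum_le_sum fun t ht => by
          rw [mem_Ioc] at ht
          have h3 : (0 : ℝ) < t := by exact_mod_cast (by omega : 0 < t)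
          have h4 : (t : ℝ) ≤ b := by exact_mod_cast ht.2
          exact one_div_le_one_div_of_le h3 h4
  have h3 := h2.trans h1
  rw [div_le_iff₀ hb'] at h3
  rw [div_le_iff₀ (by positivity)]
  linarith

theorem sum_inv_N (N : ℕ) (hN : 1 ≤ N) :
    ∑ t ∈ Icc 1 N, (1 : ℝ) / t ≤ 2 * ((Nat.log 2 N + 1 : ℕ) : ℝ) := by
  have h1 : ∑ t ∈ Icc 1 N, (1 : ℝ) / t ≤ 1 + Real.log N := by
    have h := harmonic_le_one_add_log N
    have e : ((harmonic N : ℚ) : ℝ) = ∑ t ∈ Icc 1 N, (1 : ℝ) / t := by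
      rw [harmonic_eq_sum_Icc]
      push_cast
      exact sum_congr rfl fun t _ => by rw [one_div]
    rwa [e] at h
  refine h1.trans ?_
  have h2 : N < 2 ^ (Nat.log 2 N + 1) := Nat.lt_pow_succ_log_self (by norm_num) _
  have h3 : Real.log N ≤ ((Nat.log 2 N + 1 : ℕ) : ℝ) := by
    have h4 : (N : ℝ) ≤ 2 ^ (Nat.log 2 N + 1) := by exact_mod_cast h2.le
    have h5 : Real.log N ≤ Real.log (2 ^ (Nat.log 2 N + 1)) :=
      Real.log_le_log (by exact_mod_cast hN) h4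
    rw [Real.log_pow] at h5
    have h6 : Real.log 2 ≤ 1 := by linarith [Real.log_two_lt_d9]
    calc Real.log N ≤ ((Nat.log 2 N + 1 : ℕ) : ℝ) * Real.log 2 := h5
      _ ≤ ((Nat.log 2 N + 1 : ℕ) : ℝ) * 1 := mul_le_mul_of_nonneg_left h6 (by positivity)
      _ = _ := mul_one _
  have h7 : (1 : ℝ) ≤ ((Nat.log 2 N + 1 : ℕ) : ℝ) := by
    exact_mod_cast Nat.succ_le_succ (Nat.zero_le _)
  linarith

/-- layer weights -/
theorem am_nonneg {N tm m : ℕ} (h1 : 1 ≤ m) (hm : m ≤ tm) (ht : tm ≤ N) :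
    0 ≤ am (Nat.log 2 N + 1) tm m := by
  unfold am
  split_ifs with h
  · exact sub_nonneg.2 (ut_anti _ h1 (by omega))
  · have := ut_ge_half h1 (hm.trans ht)
    linarith

/-- `Σ_{a ≤ m < b} a_m = u(a) - u(b)` for `b ≤ tm` -/
theorem sum_am_Ico (J tm a b : ℕ) (h1 : 1 ≤ a) (hab : a ≤ b) (hb : b ≤ tm) :
    ∑ m ∈ Ico a b, am J tm m = ut J a - ut J b := by
  induction b, hab using Nat.le_induction with
  | base => simp
  | succ b hab ih =>
    rw [Finset.sum_Ico_succ_top hab, ih (by omega)]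
    unfold am
    rw [if_pos (by omega)]
    ring

/-- `Σ_{m ≥ j} a_m = u(j)` -/
theorem sum_am (J tm j : ℕ) (h1 : 1 ≤ j) (hj : j ≤ tm) : ∑ m ∈ Icc j tm, am J tm m = ut J j := by
  have e : Icc j tm = insert tm (Ico j tm) := by
    ext m; rw [mem_insert, mem_Icc, mem_Ico]; omega
  rw [e, sum_insert (by simp), sum_am_Ico J tm j tm h1 hj le_rfl]
  unfold am
  rw [if_neg (lt_irrefl _)]
  ring

theorem Wt_mono {N a b : ℕ} (h : a ≤ b) (hb : b ≤ N) :
    Wt (Nat.log 2 N + 1) a ≤ Wt (Nat.log 2 N + 1) b := by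
  unfold Wt
  refine sum_le_sum_of_subset_of_nonneg (Icc_subset_Icc_right h) fun t ht _ => ?_
  have := wt_ge_half (N := N) (t := t) ((mem_Icc.1 ht).2.trans hb)
  linarith

end Pool.Agent.SC
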