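import Pool.Agent.Lib.MP_d0323d_co.LemmaA
import Pool.Agent.Lib.MP_d0323d_co.Weights
/-! Module ABEL (4.2, 4.3). -/
set_option autoImplicit false
namespace Pool.Agent.SC
open Finset
variable {V : Type} [Fintype V] [DecidableEq V] {n : ℕ} (Q : Imm V n)

/-! immersion facts -/

theorem Imm.pair_mem_E {s : Finset V} (hs : s ∈ Q.F) {a b : V} (ha : a ∈ s) (hb : b ∈ s)
    (hab : a ≠ b) : ({a, b} : Finset V) ∈ Q.E := by
  apply Q.F_E s hs
  rw [mem_powersetCard]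
  refine ⟨?_, card_pair hab⟩
  intro z hz
  rw [mem_insert, mem_singleton] at hz
  rcases hz with rfl | rfl
  · exact ha
  · exact hb

theorem Imm.lab_injOn_face {s : Finset V} (hs : s ∈ Q.F) : Set.InjOn Q.lab (s : Set V) := by
  intro a ha b hb hab
  by_contra hne
  have h1 := Q.E_lab _ (Q.pair_mem_E hs ha hb hne)
  exact hne (h1 (by simp) (by simp) hab)

/-- distinct faces of `F'` over the same triple are disjoint -/
theorem Imm.disjoint_of_same {s s' : Finset V} (hs : s ∈ Q.Fp) (hs' : s' ∈ Q.Fp) (hne : s ≠ s')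
    (h : s.image Q.lab = s'.image Q.lab) : Disjoint s s' := by
  rw [Finset.disjoint_left]
  intro y hy hy'
  apply hne
  have hsF := Q.Fp_sub hs
  have hsF' := Q.Fp_sub hs'
  apply Finset.eq_of_subset_of_card_le
  · intro z hz
    by_cases hzy : z = y
    · rw [hzy]; exact hy'
    have h1 : Q.lab z ∈ s'.image Q.lab := by
      rw [← h]; exact mem_image_of_mem _ hz
    obtain ⟨z', hz', hl⟩ := mem_image.mp h1
    have hz'y : z' ≠ y := by
      rintro rfl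
      exact hzy (Q.lab_injOn_face hsF (mem_coe.mpr hz) (mem_coe.mpr hy) hl.symm)
    have h2 := Q.imm y z z' (Q.pair_mem_E hsF hy hz (Ne.symm hzy))
      (Q.pair_mem_E hsF' hy' hz' (Ne.symm hz'y)) hl.symm
    rw [h2]; exact hz'
  · rw [Q.F_card s hsF, Q.F_card s' hsF']

theorem Imm.image_card {s : Finset V} (hs : s ∈ Q.F) : (s.image Q.lab).card = 3 := by
  rw [card_image_of_injOn (Q.lab_injOn_face hs), Q.F_card s hs]

/-- faces at an ordinary vertex are in `F'` -/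
theorem Imm.star_ord {y : V} (hy : Q.lab y ∉ Q.Ts) : star Q.F y = star Q.Fp y := by
  unfold star Imm.Fp
  ext s
  rw [mem_filter, mem_filter, mem_filter]
  constructor
  · rintro ⟨h1, h2⟩
    refine ⟨⟨h1, fun h3 => ?_⟩, h2⟩
    exact hy (Q.T_sub (h3 (mem_image_of_mem _ h2)))
  · rintro ⟨⟨h1, _⟩, h2⟩
    exact ⟨h1, h2⟩

/-- `m(σ)` = number of copies of `x` (in `F'`) lying in a face over `σ ∋ x` -/
theorem Imm.mult_eq {σ : Finset (Fin n)} {x : Fin n} (hx : x ∈ σ) :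
    Q.mult σ = ((Q.copies x).filter (fun y => ∃ s ∈ Q.Fp, y ∈ s ∧ s.image Q.lab = σ)).card := by
  classical
  unfold Imm.mult
  symm
  apply Finset.card_bij
    (fun y hy => (mem_filter.mp hy).2.choose)
  · intro y hy
    have h := (mem_filter.mp hy).2.choose_spec
    exact mem_filter.mpr ⟨h.1, h.2.2⟩
  · intro y hy y' hy' heq
    have h := (mem_filter.mp hy).2.choose_spec
    have h' := (mem_filter.mp hy').2.choose_spec
    have hl := (mem_filter.mp (mem_filter.mp hy).1).2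
    have hl' := (mem_filter.mp (mem_filter.mp hy').1).2
    have hys := h.2.1
    have hys' := h'.2.1
    rw [← heq] at hys'
    exact Q.lab_injOn_face (Q.Fp_sub h.1) (mem_coe.mpr hys) (mem_coe.mpr hys') (hl.trans hl'.symm)
  · intro s hs
    rw [mem_filter] at hs
    have h1 : x ∈ s.image Q.lab := by rw [hs.2]; exact hx
    obtain ⟨y, hy, hyx⟩ := mem_image.mp h1
    have hyv : y ∈ verts Q.Fp := mem_verts.mpr ⟨s, hs.1, hy⟩
    have hmem : y ∈ (Q.copies x).filter (fun y => ∃ s ∈ Q.Fp, y ∈ s ∧ s.image Q.lab = σ) := by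
      rw [mem_filter]
      refine ⟨?_, s, hs.1, hy, hs.2⟩
      unfold Imm.copies
      exact mem_filter.mpr ⟨hyv, hyx⟩
    refine ⟨y, hmem, ?_⟩
    have h := (mem_filter.mp hmem).2.choose_spec
    by_contra hne
    have hd := Q.disjoint_of_same h.1 hs.1 hne (h.2.2.trans hs.2.symm)
    exact Finset.disjoint_left.mp hd h.2.1 hy

theorem Imm.Mx_le {x : Fin n} : Q.Mx x ≤ (Q.copies x).card := by
  unfold Imm.Mx
  apply Finset.sup_le
  intro s hs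
  rw [mem_filter] at hs
  unfold Imm.mf
  rw [Q.mult_eq hs.2]
  exact card_filter_le _ _

theorem Imm.mult_le (σ : Finset (Fin n)) : Q.mult σ ≤ Q.Fp.card := card_filter_le _ _

theorem Imm.tm_le : Q.tm ≤ Q.Fp.card := by
  unfold Imm.tm
  apply Finset.sup_le
  intro s _
  exact Q.mult_le _

theorem Imm.mf_pos {s : Finset V} (hs : s ∈ Q.Fp) : 1 ≤ Q.mf s ∧ Q.mf s ≤ Q.tm := by
  constructor
  · unfold Imm.mf Imm.mult
    exact card_pos.mpr ⟨s, mem_filter.mpr ⟨hs, rfl⟩⟩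
  · exact Finset.le_sup (f := Q.mf) hs

theorem Imm.mem_Z {t : ℕ} (ht : 1 ≤ t) {σ : Finset (Fin n)} : σ ∈ Q.Z t ↔ t ≤ Q.mult σ := by
  unfold Imm.Z
  rw [mem_filter, mem_image]
  constructor
  · rintro ⟨_, h⟩; exact h
  · intro h
    refine ⟨?_, h⟩
    have h1 : 0 < Q.mult σ := by omega
    unfold Imm.mult at h1
    obtain ⟨s, hs⟩ := card_pos.mp h1
    rw [mem_filter] at hs
    exact ⟨s, hs.1, hs.2⟩

theorem Imm.Z_one : ∀ t, Q.Z t ⊆ Q.Z 1 ∨ t = 0 := by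
  intro t
  rcases Nat.eq_zero_or_pos t with h | h
  · exact Or.inr h
  · left
    intro σ hσ
    rw [Q.mem_Z h] at hσ
    rw [Q.mem_Z le_rfl]
    omega

theorem Imm.mult_le_tm {σ : Finset (Fin n)} : Q.mult σ ≤ Q.tm := by
  rcases Nat.eq_zero_or_pos (Q.mult σ) with h | h
  · omega
  · obtain ⟨s, hs⟩ := card_pos.mp (show 0 < (Q.Fp.filter (fun s => s.image Q.lab = σ)).card from h)
    rw [mem_filter] at hs
    have := (Q.mf_pos hs.1).2
    unfold Imm.mf at this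
    rwa [hs.2] at this

/-- `x` is a vertex of `Z_t` iff `t ≤ M(x)` -/
theorem Imm.mem_verts_Z {t : ℕ} (ht : 1 ≤ t) {x : Fin n} : x ∈ verts (Q.Z t) ↔ t ≤ Q.Mx x := by
  rw [mem_verts]
  constructor
  · rintro ⟨σ, hσ, hx⟩
    rw [Q.mem_Z ht] at hσ
    have h1 : 0 < Q.mult σ := by omega
    obtain ⟨s, hs⟩ := card_pos.mp (show 0 < (Q.Fp.filter (fun s => s.image Q.lab = σ)).card from h1)
    rw [mem_filter] at hs
    have h2 : Q.mf s ≤ Q.Mx x := by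
      unfold Imm.Mx
      exact Finset.le_sup (f := Q.mf) (mem_filter.mpr ⟨hs.1, by rw [hs.2]; exact hx⟩)
    unfold Imm.mf at h2
    rw [hs.2] at h2
    omega
  · intro h
    unfold Imm.Mx at h
    obtain ⟨s, hs, h2⟩ := (Finset.le_sup_iff (show (0 : ℕ) < t from ht)).mp h
    rw [mem_filter] at hs
    exact ⟨s.image Q.lab, (Q.mem_Z ht).mpr h2, hs.2⟩

theorem Imm.Mx_le_tm {x : Fin n} : Q.Mx x ≤ Q.tm := by
  unfold Imm.Mx
  apply Finset.sup_le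
  intro s hs
  exact (Q.mf_pos (mem_filter.mp hs).1).2

/-- the maximal multiplicity at a copy is between `1` and `M(x)` -/
theorem Imm.star_sup_pos {y : V} (hy : y ∈ verts Q.Fp) : 1 ≤ (star Q.Fp y).sup Q.mf := by
  obtain ⟨s, hs, hys⟩ := mem_verts.mp hy
  exact le_trans (Q.mf_pos hs).1 (Finset.le_sup (f := Q.mf) (mem_filter.mpr ⟨hs, hys⟩))

theorem Imm.star_sup_le_Mx {y : V} : (star Q.Fp y).sup Q.mf ≤ Q.Mx (Q.lab y) := by
  unfold Imm.Mx star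
  apply Finset.sup_mono
  intro s hs
  rw [mem_filter] at hs ⊢
  exact ⟨hs.1, mem_image_of_mem _ hs.2⟩

theorem Imm.star_sup_le_tm {y : V} : (star Q.Fp y).sup Q.mf ≤ Q.tm := by
  unfold Imm.tm star
  exact Finset.sup_mono (filter_subset _ _)

theorem Imm.Gx_nonneg {N : ℕ} (hN : Q.Fp.card ≤ N) (x : Fin n) : 0 ≤ Q.Gx (Nat.log 2 N + 1) x := by
  unfold Imm.Gx
  have htm : Q.tm ≤ N := Q.tm_le.trans hN
  rcases Nat.eq_zero_or_pos (Q.Mx x) with h | h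
  · rw [h]
    have h1 : Wt (Nat.log 2 N + 1) 0 = 0 := by unfold Wt; simp
    rw [h1, sub_zero]
    apply Finset.sum_nonneg
    intro y hy
    have hy' := (mem_filter.mp hy).1
    unfold Imm.uu
    have := ut_ge_half (N := N) (Q.star_sup_pos hy') (Q.star_sup_le_tm.trans htm)
    linarith
  · have hM : Q.Mx x ≤ N := Q.Mx_le_tm.trans htm
    have h0 := ut_ge_half (N := N) h hM
    have h1 : ∀ y ∈ Q.copies x, ut (Nat.log 2 N + 1) (Q.Mx x) ≤ Q.uu (Nat.log 2 N + 1) y := by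
      intro y hy
      have hy' := mem_filter.mp hy
      unfold Imm.uu
      apply ut_anti _ (Q.star_sup_pos hy'.1)
      rw [← hy'.2]
      exact Q.star_sup_le_Mx
    have h2 := Finset.card_nsmul_le_sum _ _ _ h1
    rw [nsmul_eq_mul] at h2
    rw [Wt_eq]
    have h3 : (Q.Mx x : ℝ) ≤ ((Q.copies x).card : ℝ) := by exact_mod_cast Q.Mx_le
    have h4 : (Q.Mx x : ℝ) * ut (Nat.log 2 N + 1) (Q.Mx x) ≤
        ((Q.copies x).card : ℝ) * ut (Nat.log 2 N + 1) (Q.Mx x) :=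
      mul_le_mul_of_nonneg_right h3 (by linarith)
    linarith

theorem Imm.R_sub (m : ℕ) : Q.R m ⊆ Q.Fp := filter_subset _ _

theorem Imm.cost_nonneg {N : ℕ} (hN : Q.Fp.card ≤ N) (y : V) : 0 ≤ Q.cost (Nat.log 2 N + 1) y := by
  unfold Imm.cost
  apply Finset.sum_nonneg
  intro m hm
  rw [mem_Icc] at hm
  exact mul_nonneg (am_nonneg hm.1 hm.2 (Q.tm_le.trans hN)) (Q.dR_nonneg (Q.R_sub m) y)

theorem ABEL_sum_indicator (J m tm : ℕ) (h : m ≤ tm) :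
    ∑ t ∈ Icc 1 tm, wt J t * (if t ≤ m then (1 : ℝ) else 0) = Wt J m := by
  unfold Wt
  rw [← Finset.sum_filter_add_sum_filter_not (Icc 1 tm) (fun t => t ≤ m)]
  have h1 : (Icc 1 tm).filter (fun t => t ≤ m) = Icc 1 m := by
    ext t; rw [mem_filter, mem_Icc, mem_Icc]; omega
  rw [h1]
  have h2 : ∑ t ∈ (Icc 1 tm).filter (fun t => ¬ t ≤ m), wt J t * (if t ≤ m then (1 : ℝ) else 0) = 0 := by
    apply Finset.sum_eq_zero
    intro t ht
    rw [mem_filter] at ht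
    rw [if_neg ht.2, mul_zero]
  rw [h2, add_zero]
  apply Finset.sum_congr rfl
  intro t ht
  rw [mem_Icc] at ht
  rw [if_pos ht.2, mul_one]

/-- `Σ_{m} a_m [j ≤ m] = u(j)` -/
theorem ABEL_sum_am (J tm j : ℕ) (h1 : 1 ≤ j) (hj : j ≤ tm) :
    ∑ m ∈ Icc 1 tm, am J tm m * (if j ≤ m then (1 : ℝ) else 0) = ut J j := by
  rw [← sum_am J tm j h1 hj]
  rw [← Finset.sum_filter_add_sum_filter_not (Icc 1 tm) (fun m => j ≤ m)]
  have h3 : (Icc 1 tm).filter (fun t => j ≤ t) = Icc j tm := by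
    ext t; rw [mem_filter, mem_Icc, mem_Icc]; omega
  rw [h3]
  have h2 : ∑ t ∈ (Icc 1 tm).filter (fun t => ¬ j ≤ t), am J tm t * (if j ≤ t then (1 : ℝ) else 0) = 0 := by
    apply Finset.sum_eq_zero
    intro t ht
    rw [mem_filter] at ht
    rw [if_neg ht.2, mul_zero]
  rw [h2, add_zero]
  apply Finset.sum_congr rfl
  intro t ht
  rw [mem_Icc] at ht
  rw [if_pos ht.1, mul_one]

/-- `Σ_t w_t |Z_t| = Σ_{s ∈ F'} u(m(s))` -/
theorem Imm.sum_wt_Z (J : ℕ) :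
    ∑ t ∈ Icc 1 Q.tm, wt J t * ((Q.Z t).card : ℝ) = ∑ s ∈ Q.Fp, ut J (Q.mf s) := by
  have h1 : ∀ t ∈ Icc 1 Q.tm, wt J t * ((Q.Z t).card : ℝ) =
      ∑ σ ∈ Q.Z 1, wt J t * (if t ≤ Q.mult σ then (1 : ℝ) else 0) := by
    intro t ht
    rw [mem_Icc] at ht
    rw [← Finset.mul_sum, Finset.sum_boole]
    congr 2
    congr 1
    ext σ
    rw [mem_filter, Q.mem_Z ht.1, Q.mem_Z le_rfl]
    omega
  rw [Finset.sum_congr rfl h1, Finset.sum_comm]
  have h2 : ∀ σ ∈ Q.Z 1, ∑ t ∈ Icc 1 Q.tm, wt J t * (if t ≤ Q.mult σ then (1 : ℝ) else 0) =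
      ∑ s ∈ Q.Fp.filter (fun s => s.image Q.lab = σ), ut J (Q.mf s) := by
    intro σ _
    rw [ABEL_sum_indicator J _ _ Q.mult_le_tm, Wt_eq]
    have h3 : ∀ s ∈ Q.Fp.filter (fun s => s.image Q.lab = σ), ut J (Q.mf s) = ut J (Q.mult σ) := by
      intro s hs
      unfold Imm.mf
      rw [(mem_filter.mp hs).2]
    rw [Finset.sum_congr rfl h3, Finset.sum_const, nsmul_eq_mul]
    rfl
  rw [Finset.sum_congr rfl h2]
  apply Finset.sum_fiberwise_of_maps_to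
  intro s hs
  rw [Q.mem_Z le_rfl]
  exact (Q.mf_pos hs).1

theorem Imm.sum_card_Z {N : ℕ} (hN : Q.Fp.card ≤ N) :
    (Q.Fp.card : ℝ) / 2 ≤ ∑ t ∈ Icc 1 Q.tm, wt (Nat.log 2 N + 1) t * ((Q.Z t).card : ℝ) := by
  rw [Q.sum_wt_Z]
  have h1 : ∀ s ∈ Q.Fp, (1 / 2 : ℝ) ≤ ut (Nat.log 2 N + 1) (Q.mf s) := by
    intro s hs
    exact ut_ge_half (Q.mf_pos hs).1 ((Q.mf_pos hs).2.trans (Q.tm_le.trans hN))
  have h2 := Finset.card_nsmul_le_sum _ _ _ h1
  rw [nsmul_eq_mul] at h2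
  linarith

/-- `Σ_t w_t #(V(Z_t) - T*) = Σ_{x ∉ T*} W(M(x))` -/
theorem Imm.sum_wt_verts (J : ℕ) :
    ∑ t ∈ Icc 1 Q.tm, wt J t * ((verts (Q.Z t) \ Q.Ts).card : ℝ) =
      ∑ x ∈ univ.filter (fun x => x ∉ Q.Ts), Wt J (Q.Mx x) := by
  have h1 : ∀ t ∈ Icc 1 Q.tm, wt J t * ((verts (Q.Z t) \ Q.Ts).card : ℝ) =
      ∑ x ∈ univ.filter (fun x => x ∉ Q.Ts), wt J t * (if t ≤ Q.Mx x then (1 : ℝ) else 0) := by
    intro t ht
    rw [mem_Icc] at ht
    rw [← Finset.mul_sum, Finset.sum_boole]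
    congr 2
    congr 1
    ext x
    rw [mem_sdiff, Q.mem_verts_Z ht.1, mem_filter, mem_filter]
    constructor
    · rintro ⟨h1, h2⟩; exact ⟨⟨mem_univ _, h2⟩, h1⟩
    · rintro ⟨⟨_, h2⟩, h1⟩; exact ⟨h1, h2⟩
  rw [Finset.sum_congr rfl h1, Finset.sum_comm]
  apply Finset.sum_congr rfl
  intro x _
  exact ABEL_sum_indicator J _ _ Q.Mx_le_tm

theorem Imm.sum_uu (J : ℕ) :
    ∑ x ∈ univ.filter (fun x => x ∉ Q.Ts), ∑ y ∈ Q.copies x, Q.uu J y =
      ∑ m ∈ Icc 1 Q.tm, am J Q.tm m * (Q.vint (Q.R m) : ℝ) := by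
  classical
  have h1 : ∑ x ∈ univ.filter (fun x => x ∉ Q.Ts), ∑ y ∈ Q.copies x, Q.uu J y =
      ∑ y ∈ (verts Q.Fp).filter (fun y => Q.lab y ∉ Q.Ts), Q.uu J y := by
    rw [← Finset.sum_fiberwise_of_maps_to (s := (verts Q.Fp).filter (fun y => Q.lab y ∉ Q.Ts))
      (t := univ.filter (fun x => x ∉ Q.Ts)) (g := Q.lab) (fun y hy => by
        rw [mem_filter] at hy ⊢; exact ⟨mem_univ _, hy.2⟩)]
    apply Finset.sum_congr rfl
    intro x hx
    apply Finset.sum_congr _ (fun _ _ => rfl)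
    unfold Imm.copies
    ext y
    rw [mem_filter, mem_filter, mem_filter]
    constructor
    · rintro ⟨h1, h2⟩
      refine ⟨⟨h1, ?_⟩, h2⟩
      rw [h2]; exact (mem_filter.mp hx).2
    · rintro ⟨⟨h1, _⟩, h2⟩; exact ⟨h1, h2⟩
  rw [h1]
  have h2 : ∀ y ∈ (verts Q.Fp).filter (fun y => Q.lab y ∉ Q.Ts), Q.uu J y =
      ∑ m ∈ Icc 1 Q.tm, am J Q.tm m * (if (star Q.Fp y).sup Q.mf ≤ m then (1 : ℝ) else 0) := by
    intro y hy
    rw [mem_filter] at hy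
    rw [ABEL_sum_am J _ _ (Q.star_sup_pos hy.1) Q.star_sup_le_tm]
    rfl
  rw [Finset.sum_congr rfl h2, Finset.sum_comm]
  apply Finset.sum_congr rfl
  intro m hm
  rw [← Finset.mul_sum, Finset.sum_boole]
  congr 2
  unfold Imm.vint
  congr 1
  ext y
  rw [mem_filter, mem_filter, mem_filter]
  constructor
  · rintro ⟨⟨hy, hl⟩, hsup⟩
    refine ⟨mem_univ _, hl, ?_, ?_⟩
    · rw [Q.star_ord hl]
      obtain ⟨s, hs, hys⟩ := mem_verts.mp hy
      exact ⟨s, mem_filter.mpr ⟨hs, hys⟩⟩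
    · rw [Q.star_ord hl]
      intro s hs
      unfold Imm.R
      exact mem_filter.mpr ⟨(mem_filter.mp hs).1, (Finset.le_sup (f := Q.mf) hs).trans hsup⟩
  · rintro ⟨_, hl, hne, hsub⟩
    have hl' : Q.lab y ∉ Q.Ts := hl
    rw [Q.star_ord hl'] at hne hsub
    obtain ⟨s, hs⟩ := hne
    refine ⟨⟨mem_verts.mpr ⟨s, (mem_filter.mp hs).1, (mem_filter.mp hs).2⟩, hl'⟩, ?_⟩
    apply Finset.sup_le
    intro s' hs'
    exact (mem_filter.mp (hsub hs')).2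

theorem Imm.sum_uf (J : ℕ) :
    ∑ s ∈ Q.Fp, ut J (Q.mf s) = ∑ m ∈ Icc 1 Q.tm, am J Q.tm m * ((Q.R m).card : ℝ) := by
  have h2 : ∀ s ∈ Q.Fp, ut J (Q.mf s) =
      ∑ m ∈ Icc 1 Q.tm, am J Q.tm m * (if Q.mf s ≤ m then (1 : ℝ) else 0) := by
    intro s hs
    rw [ABEL_sum_am J _ _ (Q.mf_pos hs).1 (Q.mf_pos hs).2]
  rw [Finset.sum_congr rfl h2, Finset.sum_comm]
  apply Finset.sum_congr rfl
  intro m _
  rw [← Finset.mul_sum, Finset.sum_boole]
  rfl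

theorem Imm.sum_cost (J : ℕ) :
    ∑ y ∈ verts Q.Fp, Q.cost J y =
      ∑ m ∈ Icc 1 Q.tm, am J Q.tm m * ∑ y ∈ verts (Q.R m), Q.dR (Q.R m) y := by
  unfold Imm.cost
  rw [Finset.sum_comm]
  apply Finset.sum_congr rfl
  intro m _
  rw [← Finset.mul_sum]
  congr 1
  symm
  apply Finset.sum_subset (verts_mono (Q.R_sub m))
  intro y _ hy
  unfold Imm.dR
  rw [if_neg hy]

/-- 4.3 -/
theorem Imm.abel {N : ℕ} (hN : Q.Fp.card ≤ N) :
    ∑ t ∈ Icc 1 Q.tm, wt (Nat.log 2 N + 1) t * ((PhT2 Q.Ts (Q.Z t) : ℝ) / 2)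
      ≤ (Q.ls : ℝ) - Q.GG (Nat.log 2 N + 1) := by
  set J := Nat.log 2 N + 1 with hJ
  have e1 : ∑ t ∈ Icc 1 Q.tm, wt J t * ((PhT2 Q.Ts (Q.Z t) : ℝ) / 2) =
      ∑ t ∈ Icc 1 Q.tm, wt J t * ((verts (Q.Z t) \ Q.Ts).card : ℝ) -
        (∑ t ∈ Icc 1 Q.tm, wt J t * ((Q.Z t).card : ℝ)) / 2 := by
    rw [Finset.sum_div, ← Finset.sum_sub_distrib]
    apply Finset.sum_congr rfl
    intro t _
    unfold PhT2
    push_cast
    ring
  have e2 : ∑ x ∈ univ.filter (fun x => x ∉ Q.Ts), Wt J (Q.Mx x) =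
      ∑ x ∈ univ.filter (fun x => x ∉ Q.Ts), ∑ y ∈ Q.copies x, Q.uu J y -
      ∑ x ∈ univ.filter (fun x => x ∉ Q.Ts), Q.Gx J x := by
    rw [← Finset.sum_sub_distrib]
    apply Finset.sum_congr rfl
    intro x _
    unfold Imm.Gx
    ring
  rw [e1, Q.sum_wt_verts, Q.sum_wt_Z, e2, Q.sum_uu, Q.sum_uf]
  unfold Imm.GG
  rw [Q.sum_cost]
  have h1 : ∀ m ∈ Icc 1 Q.tm, am J Q.tm m * (Q.vint (Q.R m) : ℝ) -
      am J Q.tm m * ((Q.R m).card : ℝ) / 2 ≤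
      am J Q.tm m * (Q.ls : ℝ) -
        (1 / 3) * (am J Q.tm m * ∑ y ∈ verts (Q.R m), Q.dR (Q.R m) y) := by
    intro m hm
    rw [mem_Icc] at hm
    have ha : 0 ≤ am J Q.tm m := am_nonneg hm.1 hm.2 (Q.tm_le.trans hN)
    have hA := mul_le_mul_of_nonneg_left (Q.lemmaA (Q.R_sub m)) ha
    linarith
  have h2 := Finset.sum_le_sum h1
  rw [Finset.sum_sub_distrib, Finset.sum_sub_distrib, ← Finset.sum_div, ← Finset.mul_sum,
    ← Finset.sum_mul] at h2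
  have h3 : (∑ m ∈ Icc 1 Q.tm, am J Q.tm m) * (Q.ls : ℝ) = (Q.ls : ℝ) := by
    rcases Nat.eq_zero_or_pos Q.tm with h | h
    · have hFp : Q.Fp = ∅ := by
        by_contra hne
        obtain ⟨s, hs⟩ := Finset.nonempty_iff_ne_empty.mpr hne
        have := Q.mf_pos hs
        omega
      have hls : Q.ls = 0 := by
        unfold Imm.ls
        rw [hFp]
        simp [verts]
      rw [hls]; simp
    · rw [sum_am J Q.tm 1 le_rfl h, ut_one, one_mul]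
  rw [h3] at h2
  linarith

end Pool.Agent.SC
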