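import Pool.Agent.Lib.MP_d0323d_co.Defs
/-! Module FAM: elementary facts about families (used everywhere). -/
set_option autoImplicit false
namespace Pool.Agent.SC
open Finset
variable {α β : Type*} [DecidableEq α] [DecidableEq β]

theorem mem_verts {Z : Finset (Finset α)} {x : α} : x ∈ verts Z ↔ ∃ s ∈ Z, x ∈ s := by
  simp [verts]
theorem mem_edgs {Z : Finset (Finset α)} {e : Finset α} :
    e ∈ edgs Z ↔ e.card = 2 ∧ ∃ s ∈ Z, e ⊆ s := by
  simp only [edgs, mem_biUnion, mem_powersetCard]
  constructor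
  · rintro ⟨s, hs, h1, h2⟩; exact ⟨h2, s, hs, h1⟩
  · rintro ⟨h2, s, hs, h1⟩; exact ⟨s, hs, h1, h2⟩
theorem verts_mono {Z Z' : Finset (Finset α)} (h : Z ⊆ Z') : verts Z ⊆ verts Z' := by
  intro x hx
  rw [mem_verts] at *
  obtain ⟨s, hs, hx⟩ := hx
  exact ⟨s, h hs, hx⟩
theorem edgs_mono {Z Z' : Finset (Finset α)} (h : Z ⊆ Z') : edgs Z ⊆ edgs Z' := by
  intro x hx
  rw [mem_edgs] at *
  obtain ⟨h2, s, hs, hx⟩ := hx
  exact ⟨h2, s, h hs, hx⟩
theorem edeg_pos {Z : Finset (Finset α)} {e : Finset α} : 0 < edeg Z e ↔ ∃ s ∈ Z, e ⊆ s := by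
  rw [edeg, card_pos]
  constructor
  · rintro ⟨s, hs⟩
    rw [mem_filter] at hs
    exact ⟨s, hs.1, hs.2⟩
  · rintro ⟨s, hs, he⟩
    exact ⟨s, mem_filter.mpr ⟨hs, he⟩⟩
theorem edeg_mono {Z Z' : Finset (Finset α)} (h : Z ⊆ Z') (e : Finset α) : edeg Z e ≤ edeg Z' e := by
  exact card_le_card (filter_subset_filter _ h)

/-- double counting for a relation -/
theorem dcount {ι κ : Type*} (A : Finset ι) (B : Finset κ) (R : ι → κ → Prop)
    [∀ i, DecidablePred (R i)] [∀ k, DecidablePred (fun i => R i k)] :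
    ∑ a ∈ A, (B.filter (fun b => R a b)).card = ∑ b ∈ B, (A.filter (fun a => R a b)).card :=
  Finset.sum_card_bipartiteAbove_eq_sum_card_bipartiteBelow R

/-- `3|Z| = Σ_e deg e` -/
theorem sum_edeg {Z : Finset (Finset α)} (hZ : IsFam Z) : ∑ e ∈ edgs Z, edeg Z e = 3 * Z.card := by
  unfold edeg
  rw [dcount (edgs Z) Z (fun e s => e ⊆ s)]
  have : ∀ s ∈ Z, ((edgs Z).filter (fun e => e ⊆ s)).card = 3 := by
    intro s hs
    have h1 : (edgs Z).filter (fun e => e ⊆ s) = s.powersetCard 2 := by
      ext e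
      rw [mem_filter, mem_edgs, mem_powersetCard]
      constructor
      · rintro ⟨⟨h2, _⟩, h⟩; exact ⟨h, h2⟩
      · rintro ⟨h, h2⟩; exact ⟨⟨h2, s, hs, h⟩, h⟩
    rw [h1, card_powersetCard, hZ s hs]
    rfl
  rw [sum_congr rfl this, sum_const, smul_eq_mul, mul_comm]
/-- `3|Z| = Σ_x |star x|` -/
theorem sum_star {Z : Finset (Finset α)} (hZ : IsFam Z) : ∑ x ∈ verts Z, (star Z x).card = 3 * Z.card := by
  unfold star
  rw [dcount (verts Z) Z (fun x s => x ∈ s)]
  have : ∀ s ∈ Z, ((verts Z).filter (fun x => x ∈ s)).card = 3 := by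
    intro s hs
    have h1 : (verts Z).filter (fun x => x ∈ s) = s := by
      ext x
      rw [mem_filter, mem_verts]
      constructor
      · rintro ⟨_, h⟩; exact h
      · intro h; exact ⟨⟨s, hs, h⟩, h⟩
    rw [h1, hZ s hs]
  rw [sum_congr rfl this, sum_const, smul_eq_mul, mul_comm]
/-- every pair has two ends -/
theorem sum_Ey {Z : Finset (Finset α)} :
    ∑ x ∈ verts Z, ((edgs Z).filter (fun e => x ∈ e)).card = 2 * (edgs Z).card := by
  rw [dcount (verts Z) (edgs Z) (fun x e => x ∈ e)]
  have : ∀ e ∈ edgs Z, ((verts Z).filter (fun x => x ∈ e)).card = 2 := by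
    intro e he
    rw [mem_edgs] at he
    obtain ⟨h2, s, hs, hes⟩ := he
    have h1 : (verts Z).filter (fun x => x ∈ e) = e := by
      ext x
      rw [mem_filter, mem_verts]
      constructor
      · rintro ⟨_, h⟩; exact h
      · intro h; exact ⟨⟨s, hs, hes h⟩, h⟩
    rw [h1, h2]
  rw [sum_congr rfl this, sum_const, smul_eq_mul, mul_comm]

/-- a triple containing `x` has exactly two pairs at `x` -/
theorem pairs_at {s : Finset α} (hs : s.card = 3) {x : α} (hx : x ∈ s) :
    ((s.powersetCard 2).filter (fun e => x ∈ e)).card = 2 := by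
  have h1 : (s.powersetCard 2).filter (fun e => x ∈ e) = (s.erase x).image (fun y => {x, y}) := by
    ext e
    rw [mem_filter, mem_powersetCard, mem_image]
    constructor
    · rintro ⟨⟨h1, h2⟩, h3⟩
      have h4 : (e.erase x).card = 1 := by rw [card_erase_of_mem h3, h2]
      obtain ⟨y, hy⟩ := card_eq_one.mp h4
      have hy' : y ∈ e.erase x := by rw [hy]; exact mem_singleton_self y
      refine ⟨y, mem_erase.mpr ⟨(mem_erase.mp hy').1, h1 (mem_erase.mp hy').2⟩, ?_⟩
      rw [← insert_erase h3, hy]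
    · rintro ⟨y, hy, rfl⟩
      rw [mem_erase] at hy
      refine ⟨⟨?_, ?_⟩, by simp⟩
      · intro z hz
        rw [mem_insert, mem_singleton] at hz
        rcases hz with rfl | rfl
        · exact hx
        · exact hy.2
      · exact card_pair (Ne.symm hy.1)
  rw [h1, card_image_of_injOn, card_erase_of_mem hx, hs]
  intro a ha b hb hab
  rw [coe_erase] at ha hb
  have h2 : a ∈ ({x, b} : Finset α) := by
    have h4 : a ∈ ({x, a} : Finset α) := by simp
    have h5 : ({x, a} : Finset α) = {x, b} := hab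
    rwa [h5] at h4
  rw [mem_insert, mem_singleton] at h2
  rcases h2 with h2 | h2
  · exact absurd h2 ha.2
  · exact h2

/-- at a vertex: `Σ_{e∋x} deg e = 2 |star x|` -/
theorem sum_edeg_at {Z : Finset (Finset α)} (hZ : IsFam Z) (x : α) :
    ∑ e ∈ (edgs Z).filter (fun e => x ∈ e), edeg Z e = 2 * (star Z x).card := by
  unfold edeg
  rw [dcount ((edgs Z).filter (fun e => x ∈ e)) Z (fun e s => e ⊆ s)]
  have : ∀ s ∈ Z, (((edgs Z).filter (fun e => x ∈ e)).filter (fun e => e ⊆ s)).card
      = if x ∈ s then 2 else 0 := by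
    intro s hs
    have h1 : ((edgs Z).filter (fun e => x ∈ e)).filter (fun e => e ⊆ s)
        = (s.powersetCard 2).filter (fun e => x ∈ e) := by
      ext e
      rw [mem_filter, mem_filter, mem_filter, mem_edgs, mem_powersetCard]
      constructor
      · rintro ⟨⟨⟨h2, _⟩, h3⟩, h⟩; exact ⟨⟨h, h2⟩, h3⟩
      · rintro ⟨⟨h, h2⟩, h3⟩; exact ⟨⟨⟨h2, s, hs, h⟩, h3⟩, h⟩
    rw [h1]
    split_ifs with hx
    · exact pairs_at (hZ s hs) hx
    · rw [card_eq_zero, filter_eq_empty_iff]
      intro e he hxe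
      rw [mem_powersetCard] at he
      exact hx (he.1 hxe)
  rw [sum_congr rfl this, ← sum_filter, sum_const, smul_eq_mul, mul_comm]
  rfl

/-- the boundary is contained in the pairs -/
theorem bdF_subset {Z : Finset (Finset α)} : bdF Z ⊆ edgs Z := filter_subset _ _

/-- membership in the boundary -/
theorem mem_bdF {Z : Finset (Finset α)} {e : Finset α} : e ∈ bdF Z ↔ e.card = 2 ∧ Odd (edeg Z e) := by
  rw [bdF, mem_filter, mem_edgs]
  constructor
  · rintro ⟨⟨h, _⟩, h2⟩; exact ⟨h, h2⟩
  · rintro ⟨h, h2⟩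
    exact ⟨⟨h, edeg_pos.mp h2.pos⟩, h2⟩

/-- parity of a sum: number of odd terms -/
theorem card_odd_parity {ι : Type*} (A : Finset ι) (f : ι → ℕ) :
    (Even (A.filter (fun a => Odd (f a))).card ↔ Even (∑ a ∈ A, f a)) := by
  classical
  induction A using Finset.induction_on with
  | empty => simp
  | insert a A ha ih =>
    rw [sum_insert ha, filter_insert]
    split_ifs with h
    · rw [card_insert_of_notMem (by simp [ha]), Nat.even_add_one, Nat.even_add, ih]
      have : ¬ Even (f a) := by rwa [Nat.not_even_iff_odd]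
      tauto
    · rw [Nat.even_add, ih]
      have : Even (f a) := by rwa [Nat.not_odd_iff_even] at h
      tauto

/-- the boundary is an even set -/
theorem bdF_even {Z : Finset (Finset α)} (hZ : IsFam Z) : EvenSet (bdF Z) := by
  refine ⟨fun e he => (mem_bdF.mp he).1, fun x => ?_⟩
  have h1 : (bdF Z).filter (fun e => x ∈ e)
      = ((edgs Z).filter (fun e => x ∈ e)).filter (fun e => Odd (edeg Z e)) := by
    rw [bdF, filter_filter, filter_filter]
    apply filter_congr
    intro e _
    tauto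
  rw [h1, card_odd_parity, sum_edeg_at hZ]
  exact even_two_mul _

/-- cardinality of a symmetric difference -/
theorem card_symmDiff_add {ι : Type*} [DecidableEq ι] (A B : Finset ι) :
    (symmDiff A B).card + 2 * (A ∩ B).card = A.card + B.card := by
  have h1 : symmDiff A B = (A \ B) ∪ (B \ A) := rfl
  have h2 : Disjoint (A \ B) (B \ A) := disjoint_sdiff_sdiff
  have h3 := card_sdiff_add_card_inter A B
  have h4 := card_sdiff_add_card_inter B A
  rw [inter_comm B A] at h4
  rw [h1, card_union_of_disjoint h2]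
  omega

theorem even_card_symmDiff {ι : Type*} [DecidableEq ι] (A B : Finset ι) :
    Even (symmDiff A B).card ↔ (Even A.card ↔ Even B.card) := by
  have := card_symmDiff_add A B
  rw [← Nat.even_add, ← this, Nat.even_add]
  simp

theorem filter_symmDiff' {ι : Type*} [DecidableEq ι] (A B : Finset ι) (p : ι → Prop) [DecidablePred p] :
    (symmDiff A B).filter p = symmDiff (A.filter p) (B.filter p) := by
  ext a
  simp only [mem_filter, mem_symmDiff]
  tauto

/-- boundary of a symmetric difference -/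
theorem bdF_symmDiff (Z Z' : Finset (Finset α)) : bdF (symmDiff Z Z') = symmDiff (bdF Z) (bdF Z') := by
  ext e
  rw [mem_symmDiff, mem_bdF, mem_bdF, mem_bdF]
  have h1 : edeg (symmDiff Z Z') e
      = (symmDiff (Z.filter (fun s => e ⊆ s)) (Z'.filter (fun s => e ⊆ s))).card := by
    rw [edeg, filter_symmDiff']
  have h2 := even_card_symmDiff (Z.filter (fun s => e ⊆ s)) (Z'.filter (fun s => e ⊆ s))
  rw [← h1] at h2
  have h3 : ∀ W : Finset (Finset α), edeg W e = (W.filter (fun s => e ⊆ s)).card := fun _ => rfl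
  rw [← h3, ← h3] at h2
  simp only [← Nat.not_even_iff_odd]
  tauto

/-- a nonempty even set has at least three members -/
theorem EvenSet.three_le {A : Finset (Finset α)} (hA : EvenSet A) (hne : A.Nonempty) : 3 ≤ A.card := by
  obtain ⟨e, he⟩ := hne
  have h2 := hA.1 e he
  obtain ⟨a, b, hab, rfl⟩ := card_eq_two.mp h2
  have key : ∀ x ∈ ({a, b} : Finset α), ∃ e1 ∈ A, e1 ≠ ({a, b} : Finset α) ∧ x ∈ e1 := by
    intro x hx
    have h3 := hA.2 x
    have h4 : ({a, b} : Finset α) ∈ A.filter (fun e => x ∈ e) := mem_filter.mpr ⟨he, hx⟩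
    have h5 : 1 < (A.filter (fun e => x ∈ e)).card := by
      have h6 : 0 < (A.filter (fun e => x ∈ e)).card := card_pos.mpr ⟨_, h4⟩
      rcases h3 with ⟨k, hk⟩
      omega
    obtain ⟨e1, he1, hne1⟩ := exists_mem_ne h5 ({a, b} : Finset α)
    rw [mem_filter] at he1
    exact ⟨e1, he1.1, hne1, he1.2⟩
  obtain ⟨e1, he1, hn1, hx1⟩ := key a (by simp)
  obtain ⟨e2, he2, hn2, hx2⟩ := key b (by simp)
  have hne12 : e1 ≠ e2 := by
    rintro rfl
    apply hn1
    symm
    apply eq_of_subset_of_card_le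
    · intro z hz
      rw [mem_insert, mem_singleton] at hz
      rcases hz with rfl | rfl
      · exact hx1
      · exact hx2
    · rw [hA.1 e1 he1, h2]
  have h7 : ({{a, b}, e1, e2} : Finset (Finset α)) ⊆ A := by
    intro z hz
    rw [mem_insert, mem_insert, mem_singleton] at hz
    rcases hz with rfl | rfl | rfl
    · exact he
    · exact he1
    · exact he2
  calc 3 = ({{a, b}, e1, e2} : Finset (Finset α)).card := by
        rw [card_insert_of_notMem, card_pair hne12]
        rw [mem_insert, mem_singleton]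
        rintro (h | h)
        · exact hn1 h.symm
        · exact hn2 h.symm
    _ ≤ A.card := card_le_card h7

theorem EvenSet.symmDiff {A B : Finset (Finset α)} (hA : EvenSet A) (hB : EvenSet B) :
    EvenSet (symmDiff A B) := by
  refine ⟨?_, fun x => ?_⟩
  · intro e he
    rw [mem_symmDiff] at he
    rcases he with h | h
    · exact hA.1 e h.1
    · exact hB.1 e h.1
  · rw [filter_symmDiff', even_card_symmDiff]
    exact iff_of_true (hA.2 x) (hB.2 x)

/-! API for `ncl` -/
theorem ncl_le_card {A : Finset β} {r : β → β → Prop} : ncl A r ≤ A.card := by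
  have h : Function.Surjective (Quot.mk (fun a b : {x // x ∈ A} => r a.1 b.1)) := Quot.mk_surjective
  have h2 := Nat.card_le_card_of_surjective _ h
  rw [Nat.card_eq_fintype_card (α := {x // x ∈ A}), Fintype.card_coe] at h2
  exact h2

omit [DecidableEq β] in
theorem ncl_finite {A : Finset β} {r : β → β → Prop} :
    Finite (Quot (fun a b : {x // x ∈ A} => r a.1 b.1)) :=
  Finite.of_surjective _ (Quot.mk_surjective)

theorem ncl_pos {A : Finset β} {r : β → β → Prop} (h : A.Nonempty) : 1 ≤ ncl A r := by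
  obtain ⟨a, ha⟩ := h
  haveI := ncl_finite (A := A) (r := r)
  haveI : Nonempty (Quot (fun a b : {x // x ∈ A} => r a.1 b.1)) := ⟨Quot.mk _ ⟨a, ha⟩⟩
  exact Nat.card_pos

theorem ncl_empty {r : β → β → Prop} : ncl (∅ : Finset β) r = 0 := by
  have := ncl_le_card (A := (∅ : Finset β)) (r := r)
  simpa using this

theorem kap_pos {Z : Finset (Finset α)} {x : α} (hx : x ∈ verts Z) : 1 ≤ kap Z x := by
  apply ncl_pos
  obtain ⟨s, hs, hx⟩ := mem_verts.mp hx
  exact ⟨s, mem_filter.mpr ⟨hs, hx⟩⟩
theorem kap_le {Z : Finset (Finset α)} {x : α} : kap Z x ≤ (star Z x).card := ncl_le_card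

theorem rtg_symm {γ : Type*} {R : γ → γ → Prop} (h : ∀ a b, R a b → R b a) {a b : γ}
    (hab : Relation.ReflTransGen R a b) : Relation.ReflTransGen R b a := by
  induction hab with
  | refl => exact Relation.ReflTransGen.refl
  | tail _ h2 ih => exact Relation.ReflTransGen.head (h _ _ h2) ih

/-- for a symmetric relation, equality in the quotient is the same as a chain inside `A` -/
theorem quot_eq_iff {A : Finset β} {r : β → β → Prop} (hs : ∀ a b, r a b → r b a)
    (a b : {x // x ∈ A}) :
    Quot.mk (fun a b : {x // x ∈ A} => r a.1 b.1) a = Quot.mk _ b ↔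
      Relation.ReflTransGen (fun a b => a ∈ A ∧ b ∈ A ∧ r a b) a.1 b.1 := by
  rw [Quot.eq]
  constructor
  · intro h
    induction h with
    | rel x y h => exact Relation.ReflTransGen.single ⟨x.2, y.2, h⟩
    | refl x => exact Relation.ReflTransGen.refl
    | symm x y _ ih =>
      exact rtg_symm (fun u v huv => ⟨huv.2.1, huv.1, hs _ _ huv.2.2⟩) ih
    | trans x y z _ _ ih1 ih2 => exact ih1.trans ih2
  · obtain ⟨a, ha⟩ := a
    obtain ⟨b, hb⟩ := b
    intro h
    simp only at h
    induction h with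
    | refl => exact Relation.EqvGen.refl _
    | tail h1 h2 ih => exact (ih h2.1).trans _ _ _ (Relation.EqvGen.rel _ _ h2.2.2)

/-- one class iff connected (symmetric relation) -/
theorem ncl_eq_one_iff {A : Finset β} {r : β → β → Prop} (hs : ∀ a b, r a b → r b a) (h : A.Nonempty) :
    ncl A r = 1 ↔ ∀ a ∈ A, ∀ b ∈ A, Relation.ReflTransGen (fun a b => a ∈ A ∧ b ∈ A ∧ r a b) a b := by
  rw [ncl, Nat.card_eq_one_iff_unique]
  constructor
  · rintro ⟨h1, _⟩ a ha b hb
    exact (quot_eq_iff hs ⟨a, ha⟩ ⟨b, hb⟩).mp (Subsingleton.elim _ _)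
  · intro h1
    obtain ⟨a, ha⟩ := h
    refine ⟨⟨?_⟩, ⟨Quot.mk _ ⟨a, ha⟩⟩⟩
    intro p q
    induction p using Quot.inductionOn with | _ p => ?_
    induction q using Quot.inductionOn with | _ q => ?_
    exact (quot_eq_iff hs p q).mpr (h1 _ p.2 _ q.2)

/-- removing one element: the number of classes goes down by at most one and ... -/
theorem ncl_erase_ge {A : Finset β} {r : β → β → Prop} (a : β) (ha : a ∈ A) :
    ncl A r ≤ ncl (A.erase a) r + 1 := by
  haveI := ncl_finite (A := A.erase a) (r := r)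
  let f : Option (Quot (fun u v : {x // x ∈ A.erase a} => r u.1 v.1)) →
      Quot (fun u v : {x // x ∈ A} => r u.1 v.1) := fun o =>
    match o with
    | none => Quot.mk _ ⟨a, ha⟩
    | some q => Quot.lift (fun x : {x // x ∈ A.erase a} =>
          (Quot.mk (fun u v : {x // x ∈ A} => r u.1 v.1) ⟨x.1, mem_of_mem_erase x.2⟩))
        (fun x y hxy => Quot.sound hxy) q
  have hf : Function.Surjective f := by
    intro q
    induction q using Quot.inductionOn with | _ q => ?_
    by_cases hq : q.1 = a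
    · refine ⟨none, ?_⟩
      simp only [f]
      congr 1
      exact Subtype.ext hq.symm
    · exact ⟨some (Quot.mk _ ⟨q.1, mem_erase.mpr ⟨hq, q.2⟩⟩), rfl⟩
  have h2 := Nat.card_le_card_of_surjective _ hf
  rw [Finite.card_option] at h2
  exact h2

/-- a class function: if `f` is constant on adjacent elements, the number of values is at most the
number of classes -/
theorem ncl_ge_image {A : Finset β} {r : β → β → Prop} (f : β → α)
    (hf : ∀ a ∈ A, ∀ b ∈ A, r a b → f a = f b) : (A.image f).card ≤ ncl A r := by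
  haveI := ncl_finite (A := A) (r := r)
  let g : Quot (fun a b : {x // x ∈ A} => r a.1 b.1) → {x // x ∈ A.image f} :=
    Quot.lift (fun x => ⟨f x.1, mem_image_of_mem f x.2⟩)
      (fun x y hxy => Subtype.ext (hf x.1 x.2 y.1 y.2 hxy))
  have hg : Function.Surjective g := by
    rintro ⟨y, hy⟩
    obtain ⟨x, hx, rfl⟩ := mem_image.mp hy
    exact ⟨Quot.mk _ ⟨x, hx⟩, rfl⟩
  have h2 := Nat.card_le_card_of_surjective _ hg
  rw [Nat.card_eq_fintype_card (α := {x // x ∈ A.image f}), Fintype.card_coe] at h2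
  exact h2

/-- number of classes ≤ size of a set of representatives -/
theorem ncl_le_reps {A B : Finset β} {r : β → β → Prop} (hs : ∀ a b, r a b → r b a) (hB : B ⊆ A)
    (h : ∀ a ∈ A, ∃ b ∈ B, Relation.ReflTransGen (fun a b => a ∈ A ∧ b ∈ A ∧ r a b) a b) :
    ncl A r ≤ B.card := by
  let g : {x // x ∈ B} → Quot (fun a b : {x // x ∈ A} => r a.1 b.1) :=
    fun x => Quot.mk _ ⟨x.1, hB x.2⟩
  have hg : Function.Surjective g := by
    intro q
    induction q using Quot.inductionOn with | _ q => ?_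
    obtain ⟨b, hb, hqb⟩ := h q.1 q.2
    refine ⟨⟨b, hb⟩, ?_⟩
    exact ((quot_eq_iff hs q ⟨b, hB hb⟩).mpr hqb).symm
  have h2 := Nat.card_le_card_of_surjective _ hg
  rw [Nat.card_eq_fintype_card (α := {x // x ∈ B}), Fintype.card_coe] at h2
  exact h2

end Pool.Agent.SC
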