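import Pool.Agent.Lib.MP_d0323d_co.Rank
import Pool.Agent.Lib.MP_d0323d_co.FamBasic
/-! Module CLOSED (1.2, 1.3): closed dual-connected families; subfamily lemma. -/
set_option autoImplicit false
set_option linter.unusedSectionVars false
namespace Pool.Agent.SC
open Finset
variable {α : Type*} [DecidableEq α]

theorem EAdj.symm {s t : Finset α} (h : EAdj s t) : EAdj t s := by
  unfold EAdj at *
  rwa [inter_comm]

section LA
variable (Z : Finset (Finset α))

noncomputable def ep1 (e : {e // e ∈ edgs Z}) : α := (card_eq_two.mp (mem_edgs.mp e.2).1).choose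
noncomputable def ep2 (e : {e // e ∈ edgs Z}) : α :=
  (card_eq_two.mp (mem_edgs.mp e.2).1).choose_spec.choose
theorem ep_ne (e : {e // e ∈ edgs Z}) : ep1 Z e ≠ ep2 Z e :=
  (card_eq_two.mp (mem_edgs.mp e.2).1).choose_spec.choose_spec.1
theorem ep_eq (e : {e // e ∈ edgs Z}) : e.1 = {ep1 Z e, ep2 Z e} :=
  (card_eq_two.mp (mem_edgs.mp e.2).1).choose_spec.choose_spec.2
noncomputable def fce (e : {e // e ∈ edgs Z}) : Finset α := (mem_edgs.mp e.2).2.choose
theorem fce_mem (e : {e // e ∈ edgs Z}) : fce Z e ∈ Z := (mem_edgs.mp e.2).2.choose_spec.1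
theorem fce_sub (e : {e // e ∈ edgs Z}) : e.1 ⊆ fce Z e := (mem_edgs.mp e.2).2.choose_spec.2

/-- source and target for a corner function -/
noncomputable def srcc {W : Type*} (cf : α → Finset α → W) (e : {e // e ∈ edgs Z}) : W :=
  cf (ep1 Z e) (fce Z e)
noncomputable def tgtc {W : Type*} (cf : α → Finset α → W) (e : {e // e ∈ edgs Z}) : W :=
  cf (ep2 Z e) (fce Z e)

/-- admissible corner function -/
def Cor {W : Type*} (cf : α → Finset α → W) : Prop :=
  ∀ s ∈ Z, ∀ t ∈ Z, ∀ e : Finset α, e.card = 2 → e ⊆ s → e ⊆ t → ∀ x ∈ e, cf x s = cf x t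

theorem bdM_split {W : Type*} [DecidableEq W] (cf : α → Finset α → W)
    (c : {e // e ∈ edgs Z} → ZMod 2) (v : W) :
    bdM (srcc Z cf) (tgtc Z cf) c v
      = ∑ e, c e * ∑ x ∈ e.1, (if cf x (fce Z e) = v then 1 else 0) := by
  show ∑ e, c e * ((if srcc Z cf e = v then 1 else 0) + (if tgtc Z cf e = v then 1 else 0)) = _
  apply sum_congr rfl
  intro e _
  have h : ∀ f : α → ZMod 2, ∑ x ∈ e.1, f x = f (ep1 Z e) + f (ep2 Z e) := by
    intro f
    have h1 : ∑ x ∈ e.1, f x = ∑ x ∈ ({ep1 Z e, ep2 Z e} : Finset α), f x := by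
      rw [← ep_eq]
    rw [h1, sum_pair (ep_ne Z e)]
  rw [h]
  rfl

/-- indicator of the pairs of a face -/
def fi (s : Finset α) (e : {e // e ∈ edgs Z}) : ZMod 2 := if e.1 ⊆ s then 1 else 0

theorem bdM_face {W : Type*} [DecidableEq W] (hZ : IsFam Z) (cf : α → Finset α → W)
    (hcf : Cor Z cf) {s : Finset α} (hs : s ∈ Z) :
    bdM (srcc Z cf) (tgtc Z cf) (fi Z s) = 0 := by
  ext v
  rw [bdM_split, Pi.zero_apply]
  let h : α → ZMod 2 := fun x => if cf x s = v then 1 else 0
  let g : Finset α → ZMod 2 := fun e => if e ⊆ s then ∑ x ∈ e, h x else 0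
  have h1 : ∀ e : {e // e ∈ edgs Z},
      fi Z s e * ∑ x ∈ e.1, (if cf x (fce Z e) = v then (1 : ZMod 2) else 0) = g e.1 := by
    intro e
    simp only [fi, g, h]
    by_cases he : e.1 ⊆ s
    · rw [if_pos he, if_pos he, one_mul]
      apply sum_congr rfl
      intro x hx
      rw [hcf (fce Z e) (fce_mem Z e) s hs e.1 (mem_edgs.mp e.2).1 (fce_sub Z e) he x hx]
    · rw [if_neg he, if_neg he, zero_mul]
  rw [sum_congr rfl (fun e _ => h1 e)]
  rw [sum_coe_sort (edgs Z) g]
  have h2 : ∑ e ∈ edgs Z, g e = ∑ e ∈ s.powersetCard 2, ∑ x ∈ e, h x := by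
    simp only [g]
    rw [← sum_filter]
    apply sum_congr _ (fun _ _ => rfl)
    ext e
    rw [mem_filter, mem_edgs, mem_powersetCard]
    constructor
    · rintro ⟨⟨h2, _⟩, h⟩; exact ⟨h, h2⟩
    · rintro ⟨h, h2⟩; exact ⟨⟨h2, s, hs, h⟩, h⟩
  rw [h2]
  have h3 : ∑ e ∈ s.powersetCard 2, ∑ x ∈ e, h x
      = ∑ x ∈ s, ∑ _e ∈ (s.powersetCard 2).filter (fun e => x ∈ e), h x := by
    apply sum_comm'
    intro e x
    rw [mem_filter]
    constructor
    · rintro ⟨he, hx⟩
      exact ⟨⟨he, hx⟩, (mem_powersetCard.mp he).1 hx⟩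
    · rintro ⟨⟨he, hx⟩, _⟩
      exact ⟨he, hx⟩
  rw [h3]
  apply sum_eq_zero
  intro x hx
  rw [sum_const, pairs_at (hZ s hs) hx, two_nsmul]
  exact CharTwo.add_self_eq_zero _

/-- `∂_2` -/
noncomputable def d2 : ({s // s ∈ Z} → ZMod 2) →ₗ[ZMod 2] ({e // e ∈ edgs Z} → ZMod 2) where
  toFun a e := ∑ s, a s * (if e.1 ⊆ s.1 then 1 else 0)
  map_add' a b := by ext v; simp only [Pi.add_apply, add_mul, Finset.sum_add_distrib]
  map_smul' a b := by
    ext v
    simp only [Pi.smul_apply, smul_eq_mul, RingHom.id_apply, mul_sum, mul_assoc]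

theorem d2_apply (a : {s // s ∈ Z} → ZMod 2) (e : {e // e ∈ edgs Z}) :
    d2 Z a e = ∑ s, a s * (if e.1 ⊆ s.1 then 1 else 0) := rfl

theorem d2_eq (a : {s // s ∈ Z} → ZMod 2) : d2 Z a = ∑ s, a s • fi Z s.1 := by
  ext e
  rw [Finset.sum_apply]
  rfl

theorem d2_le {W : Type*} [DecidableEq W] (hZ : IsFam Z) (cf : α → Finset α → W) (hcf : Cor Z cf) :
    LinearMap.range (d2 Z) ≤ LinearMap.ker (bdM (srcc Z cf) (tgtc Z cf)) := by
  rintro _ ⟨a, rfl⟩
  rw [LinearMap.mem_ker, d2_eq, map_sum]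
  apply sum_eq_zero
  intro s _
  rw [map_smul, bdM_face Z hZ cf hcf s.2, smul_zero]

/-- indicator functions -/
def ind {β : Type*} [DecidableEq β] (Z B : Finset β) (s : {s // s ∈ Z}) : ZMod 2 :=
  if s.1 ∈ B then 1 else 0

theorem d2_ind {B : Finset (Finset α)} (hB : B ⊆ Z) (e : {e // e ∈ edgs Z}) :
    d2 Z (ind Z B) e = ((edeg B e.1 : ℕ) : ZMod 2) := by
  rw [d2_apply]
  have h1 : ∀ s : {s // s ∈ Z}, ind Z B s * (if e.1 ⊆ s.1 then (1 : ZMod 2) else 0)
      = (fun s : Finset α => if s ∈ B ∧ e.1 ⊆ s then (1 : ZMod 2) else 0) s.1 := by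
    intro s
    simp only [ind]
    by_cases h1 : s.1 ∈ B <;> by_cases h2 : e.1 ⊆ s.1 <;> simp [h1, h2]
  rw [sum_congr rfl (fun s _ => h1 s),
    sum_coe_sort Z (fun s : Finset α => if s ∈ B ∧ e.1 ⊆ s then (1 : ZMod 2) else 0),
    sum_boole]
  have h2 : edeg B e.1 = (Z.filter (fun s => s ∈ B ∧ e.1 ⊆ s)).card := by
    unfold edeg
    congr 1
    ext s
    rw [mem_filter, mem_filter]
    constructor
    · rintro h; exact ⟨hB h.1, h⟩
    · rintro ⟨_, h⟩; exact h
  rw [h2]

theorem zmod2_cases (x : ZMod 2) : x = 0 ∨ x = 1 := by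
  revert x
  decide

theorem zmod2_nat_one (k : ℕ) : ((k : ℕ) : ZMod 2) = 1 ↔ Odd k := by
  rw [← Nat.not_even_iff_odd, ← ZMod.natCast_eq_zero_iff_even]
  rcases zmod2_cases (k : ZMod 2) with h | h
  · rw [h]; simp
  · rw [h]; simp

/-- support of a chain -/
noncomputable def supp {β : Type*} [DecidableEq β] (Z : Finset β) (a : {s // s ∈ Z} → ZMod 2) :
    Finset β := Z.filter (fun s => ∃ h : s ∈ Z, a ⟨s, h⟩ = 1)

theorem supp_sub {β : Type*} [DecidableEq β] (Z : Finset β) (a : {s // s ∈ Z} → ZMod 2) :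
    supp Z a ⊆ Z := by
  classical
  intro s hs
  unfold supp at hs
  exact (mem_filter.mp hs).1

theorem ind_supp {β : Type*} [DecidableEq β] (Z : Finset β) (a : {s // s ∈ Z} → ZMod 2) :
    ind Z (supp Z a) = a := by
  classical
  ext s
  have h1 : s.1 ∈ supp Z a ↔ a s = 1 := by
    unfold supp
    rw [mem_filter]
    constructor
    · rintro ⟨_, _, h⟩; exact h
    · intro h; exact ⟨s.2, s.2, h⟩
  unfold ind
  rcases zmod2_cases (a s) with h | h
  · rw [if_neg, h]
    rw [h1, h]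
    decide
  · rw [if_pos, h]
    rw [h1, h]

theorem supp_ind {β : Type*} [DecidableEq β] {Z B : Finset β} (hB : B ⊆ Z) :
    supp Z (ind Z B) = B := by
  classical
  ext s
  unfold supp ind
  rw [mem_filter]
  constructor
  · rintro ⟨_, _, h⟩
    by_contra hs
    rw [if_neg hs] at h
    revert h
    decide
  · intro hs
    exact ⟨hB hs, hB hs, if_pos hs⟩

/-- `∂_2` and `bdF` -/
theorem d2_ind_eq {B : Finset (Finset α)} (hB : B ⊆ Z) : d2 Z (ind Z B) = ind (edgs Z) (bdF B) := by
  ext e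
  rw [d2_ind Z hB]
  unfold ind
  by_cases h : e.1 ∈ bdF B
  · rw [if_pos h, zmod2_nat_one]
    exact (mem_bdF.mp h).2
  · rw [if_neg h, ZMod.natCast_eq_zero_iff_even, ← Nat.not_odd_iff_even]
    intro h1
    exact h (mem_bdF.mpr ⟨(mem_edgs.mp e.2).1, h1⟩)

theorem ind_inj {β : Type*} [DecidableEq β] {Z B B' : Finset β} (hB : B ⊆ Z) (hB' : B' ⊆ Z)
    (h : ind Z B = ind Z B') : B = B' := by
  rw [← supp_ind hB, h, supp_ind hB']

/-- `V` one class for the corner graph -/
theorem comp_one {W : Type*} [DecidableEq W] (hZ : IsFam Z) (cf : α → Finset α → W)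
    (hcf : Cor Z cf) (hsurj : ∀ v, ∃ s ∈ Z, ∃ x ∈ s, cf x s = v) (hd : DualConn Z)
    (hne : Z.Nonempty) : Nat.card (Quot (adjM (srcc Z cf) (tgtc Z cf))) = 1 := by
  set q := Quot.mk (adjM (srcc Z cf) (tgtc Z cf)) with hq
  have h1 : ∀ s ∈ Z, ∀ x ∈ s, ∀ y ∈ s, q (cf x s) = q (cf y s) := by
    intro s hs x hx y hy
    by_cases hxy : x = y
    · rw [hxy]
    have hc : ({x, y} : Finset α).card = 2 := card_pair hxy
    have hsub : ({x, y} : Finset α) ⊆ s := by
      intro z hz
      rw [mem_insert, mem_singleton] at hz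
      rcases hz with rfl | rfl
      · exact hx
      · exact hy
    let e : {e // e ∈ edgs Z} := ⟨{x, y}, mem_edgs.mpr ⟨hc, s, hs, hsub⟩⟩
    have h2 : q (srcc Z cf e) = q (tgtc Z cf e) := Quot.sound ⟨e, rfl, rfl⟩
    have h3 : ∀ z ∈ e.1, cf z (fce Z e) = cf z s := fun z hz =>
      hcf (fce Z e) (fce_mem Z e) s hs e.1 hc (fce_sub Z e) hsub z hz
    have h4 := ep_eq Z e
    have h5 := ep_ne Z e
    have h6 : ep1 Z e ∈ e.1 := by rw [h4]; exact mem_insert_self _ _
    have h7 : ep2 Z e ∈ e.1 := by rw [h4]; exact mem_insert_of_mem (mem_singleton_self _)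
    unfold srcc tgtc at h2
    rw [h3 _ h6, h3 _ h7] at h2
    have h8 : ep1 Z e = x ∨ ep1 Z e = y := by simpa [e] using h6
    have h9 : ep2 Z e = x ∨ ep2 Z e = y := by simpa [e] using h7
    rcases h8 with h8 | h8 <;> rcases h9 with h9 | h9
    · exact absurd (h8.trans h9.symm) h5
    · rw [h8, h9] at h2; exact h2
    · rw [h8, h9] at h2; exact h2.symm
    · exact absurd (h8.trans h9.symm) h5
  obtain ⟨s0, hs0⟩ := hne
  have hn0 : s0.Nonempty := card_pos.mp (by rw [hZ s0 hs0]; norm_num)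
  obtain ⟨x0, hx0⟩ := hn0
  have h2 : ∀ t ∈ Z, ∀ y ∈ t, q (cf x0 s0) = q (cf y t) := by
    intro t ht
    have h3 := hd s0 hs0 t ht
    induction h3 with
    | refl => intro y hy; exact h1 s0 hs0 x0 hx0 y hy
    | @tail u w h4 h5 ih =>
      intro y hy
      obtain ⟨hu, hw, hadj⟩ := h5
      have hn1 : (u ∩ w).Nonempty := card_pos.mp (by rw [hadj]; norm_num)
      obtain ⟨z, hz⟩ := hn1
      rw [mem_inter] at hz
      rw [ih hu z hz.1, hcf u hu w hw (u ∩ w) hadj inter_subset_left inter_subset_right z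
        (mem_inter.mpr hz)]
      exact h1 w hw z hz.2 y hy
  rw [Nat.card_eq_one_iff_unique]
  refine ⟨⟨?_⟩, ⟨q (cf x0 s0)⟩⟩
  have h3 : ∀ p : Quot (adjM (srcc Z cf) (tgtc Z cf)), p = q (cf x0 s0) := by
    intro p
    induction p using Quot.inductionOn with | _ p => ?_
    obtain ⟨t, ht, y, hy, rfl⟩ := hsurj p
    exact (h2 t ht y hy).symm
  intro p p'
  rw [h3 p, h3 p']

/-- plain vertices -/
noncomputable def cfp {Z : Finset (Finset α)} (x0 : {x // x ∈ verts Z}) (x : α) (_s : Finset α) :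
    {x // x ∈ verts Z} :=
  if h : x ∈ verts Z then ⟨x, h⟩ else x0

theorem cfp_cor {Z : Finset (Finset α)} (x0 : {x // x ∈ verts Z}) : Cor Z (cfp x0) := by
  intro s _ t _ e _ _ _ x _
  rfl

theorem cfp_surj {Z : Finset (Finset α)} (x0 : {x // x ∈ verts Z}) :
    ∀ v, ∃ s ∈ Z, ∃ x ∈ s, cfp x0 x s = v := by
  rintro ⟨v, hv⟩
  obtain ⟨s, hs, hx⟩ := mem_verts.mp hv
  exact ⟨s, hs, v, hx, by unfold cfp; rw [dif_pos hv]⟩

/-- even sets are the cycles of the plain graph -/
theorem even_ker {Z : Finset (Finset α)} (x0 : {x // x ∈ verts Z}) {A : Finset (Finset α)}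
    (hA : A ⊆ edgs Z) :
    ind (edgs Z) A ∈ LinearMap.ker (bdM (srcc Z (cfp x0)) (tgtc Z (cfp x0))) ↔ EvenSet A := by
  have hval : ∀ v : {x // x ∈ verts Z}, bdM (srcc Z (cfp x0)) (tgtc Z (cfp x0)) (ind (edgs Z) A) v
      = (((A.filter (fun e => v.1 ∈ e)).card : ℕ) : ZMod 2) := by
    intro v
    rw [bdM_split]
    have h1 : ∀ e : {e // e ∈ edgs Z}, ind (edgs Z) A e *
        ∑ x ∈ e.1, (if cfp x0 x (fce Z e) = v then (1 : ZMod 2) else 0)
        = (fun e : Finset α => if e ∈ A ∧ v.1 ∈ e then (1 : ZMod 2) else 0) e.1 := by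
      intro e
      have h2 : ∀ x ∈ e.1, (if cfp x0 x (fce Z e) = v then (1 : ZMod 2) else 0)
          = if x = v.1 then 1 else 0 := by
        intro x hx
        have hxv : x ∈ verts Z := mem_verts.mpr ⟨fce Z e, fce_mem Z e, fce_sub Z e hx⟩
        unfold cfp
        rw [dif_pos hxv]
        congr 1
        rw [Subtype.ext_iff]
      rw [sum_congr rfl h2, sum_ite_eq']
      simp only [ind]
      by_cases h1 : e.1 ∈ A <;> by_cases h2 : v.1 ∈ e.1 <;> simp [h1, h2]
    rw [sum_congr rfl (fun e _ => h1 e),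
      sum_coe_sort (edgs Z) (fun e : Finset α => if e ∈ A ∧ v.1 ∈ e then (1 : ZMod 2) else 0),
      sum_boole]
    congr 2
    ext s
    rw [mem_filter, mem_filter]
    constructor
    · rintro ⟨_, h⟩; exact h
    · rintro h; exact ⟨hA h.1, h⟩
  rw [LinearMap.mem_ker]
  constructor
  · intro h
    refine ⟨fun e he => (mem_edgs.mp (hA he)).1, fun x => ?_⟩
    by_cases hx : x ∈ verts Z
    · have h1 := congrFun h ⟨x, hx⟩
      rw [hval, Pi.zero_apply, ZMod.natCast_eq_zero_iff_even] at h1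
      exact h1
    · have : A.filter (fun e => x ∈ e) = ∅ := by
        rw [filter_eq_empty_iff]
        intro e he hxe
        obtain ⟨_, s, hs, hes⟩ := mem_edgs.mp (hA he)
        exact hx (mem_verts.mpr ⟨s, hs, hes hxe⟩)
      rw [this]
      simp
  · intro h
    ext v
    rw [hval, Pi.zero_apply, ZMod.natCast_eq_zero_iff_even]
    exact h.2 v.1

end LA

/-- in a closed family every pair of the family has degree two -/
theorem Closed.two {Z : Finset (Finset α)} (hc : Closed Z) {e : Finset α} (he : e ∈ edgs Z) :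
    edeg Z e = 2 := by
  obtain ⟨h2, s, hs, hes⟩ := mem_edgs.mp he
  rcases hc e h2 with h | h
  · have := edeg_pos.mpr ⟨s, hs, hes⟩
    omega
  · exact h

theorem Closed.bd {Z : Finset (Finset α)} (hc : Closed Z) : bdF Z = ∅ := by
  rw [eq_empty_iff_forall_notMem]
  intro e he
  obtain ⟨h2, ho⟩ := mem_bdF.mp he
  rcases hc e h2 with h | h <;> rw [h] at ho <;> revert ho <;> decide

theorem Closed.edgs_card {Z : Finset (Finset α)} (hZ : IsFam Z) (hc : Closed Z) :
    2 * (edgs Z).card = 3 * Z.card := by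
  rw [← sum_edeg hZ, sum_congr rfl (fun e he => hc.two he), sum_const, smul_eq_mul, mul_comm]

theorem inter_pair {s t e : Finset α} (hs : s.card = 3) (ht : t.card = 3) (he : e.card = 2)
    (hes : e ⊆ s) (het : e ⊆ t) (hne : s ≠ t) : s ∩ t = e := by
  symm
  apply eq_of_subset_of_card_le (subset_inter hes het)
  rw [he]
  by_contra h
  have h1 : 3 ≤ (s ∩ t).card := by omega
  have h2 : s ∩ t = s := eq_of_subset_of_card_le inter_subset_left (by omega)
  have h3 : s ∩ t = t := eq_of_subset_of_card_le inter_subset_right (by omega)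
  exact hne (h2.symm.trans h3)

/-- 1.2(a) -/
theorem closed_bd_empty {Z B : Finset (Finset α)} (hZ : IsFam Z) (hc : Closed Z) (hd : DualConn Z)
    (hB : B ⊆ Z) (hbd : bdF B = ∅) : B = ∅ ∨ B = Z := by
  by_cases hBe : B = ∅
  · exact Or.inl hBe
  right
  obtain ⟨s0, hs0⟩ := nonempty_iff_ne_empty.mpr hBe
  have key : ∀ u ∈ B, ∀ w ∈ Z, EAdj u w → w ∈ B := by
    intro u hu w hw hadj
    by_contra hwB
    have h1 : (u ∩ w) ∉ bdF B := by rw [hbd]; exact notMem_empty _
    rw [mem_bdF] at h1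
    have h2 : ¬ Odd (edeg B (u ∩ w)) := fun h => h1 ⟨hadj, h⟩
    rw [Nat.not_odd_iff_even] at h2
    have h3 : 0 < edeg B (u ∩ w) := edeg_pos.mpr ⟨u, hu, inter_subset_left⟩
    have h4 : edeg B (u ∩ w) < edeg Z (u ∩ w) := by
      apply card_lt_card
      rw [ssubset_iff_of_subset (filter_subset_filter _ hB)]
      exact ⟨w, mem_filter.mpr ⟨hw, inter_subset_right⟩, fun h => hwB (mem_filter.mp h).1⟩
    have h5 : edeg Z (u ∩ w) = 2 := hc.two (mem_edgs.mpr ⟨hadj, w, hw, inter_subset_right⟩)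
    rcases h2 with ⟨k, hk⟩
    omega
  apply Subset.antisymm hB
  intro t ht
  have h3 := hd s0 (hB hs0) t ht
  induction h3 with
  | refl => exact hs0
  | @tail u w h4 h5 ih => exact key u (ih h5.1) w h5.2.1 h5.2.2

theorem vne {Z : Finset (Finset α)} (hZ : IsFam Z) (hne : Z.Nonempty) : ∃ x, x ∈ verts Z := by
  obtain ⟨s0, hs0⟩ := hne
  have hn0 : s0.Nonempty := card_pos.mp (by rw [hZ s0 hs0]; norm_num)
  obtain ⟨x0, hx0⟩ := hn0
  exact ⟨x0, mem_verts.mpr ⟨s0, hs0, hx0⟩⟩

/-- no zero-sum subsets except the trivial ones -/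
theorem face_indep {Z : Finset (Finset α)} (hZ : IsFam Z) (hc : Closed Z) (hd : DualConn Z)
    (A : Finset {s // s ∈ Z}) (hA : A.Nonempty) (hAu : A ≠ univ) : ∑ i ∈ A, fi Z i.1 ≠ 0 := by
  intro h
  set B : Finset (Finset α) := A.map (Function.Embedding.subtype _) with hBdef
  have hB : B ⊆ Z := by
    intro s hs
    rw [hBdef, mem_map] at hs
    obtain ⟨x, _, rfl⟩ := hs
    exact x.2
  have hmem : ∀ s : {s // s ∈ Z}, s.1 ∈ B ↔ s ∈ A := by
    intro s
    rw [hBdef, mem_map]
    constructor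
    · rintro ⟨x, hx, hxs⟩
      have : x = s := Subtype.ext hxs
      rwa [← this]
    · intro hs
      exact ⟨s, hs, rfl⟩
  have h1 : d2 Z (ind Z B) = 0 := by
    rw [d2_eq, ← h, ← sum_filter_add_sum_filter_not univ (fun s => s ∈ A)]
    have h2 : ∑ x with x ∉ A, ind Z B x • fi Z x.1 = 0 := by
      apply sum_eq_zero
      intro x hx
      rw [mem_filter] at hx
      unfold ind
      rw [if_neg (fun h => hx.2 ((hmem x).mp h)), zero_smul]
    rw [h2, add_zero, filter_mem_eq_inter, univ_inter]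
    apply sum_congr rfl
    intro x hx
    unfold ind
    rw [if_pos ((hmem x).mpr hx), one_smul]
  rw [d2_ind_eq Z hB] at h1
  have h2 : bdF B = ∅ := by
    apply ind_inj (Z := edgs Z) (bdF_subset.trans (edgs_mono hB)) (empty_subset _)
    rw [h1]
    ext e
    unfold ind
    rw [if_neg (notMem_empty _)]
    rfl
  rcases closed_bd_empty hZ hc hd hB h2 with h3 | h3
  · obtain ⟨s, hs⟩ := hA
    have := (hmem s).mpr hs
    rw [h3] at this
    exact notMem_empty _ this
  · apply hAu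
    rw [eq_univ_iff_forall]
    intro s
    rw [← hmem, h3]
    exact s.2

/-- kernel of `∂_2` -/
theorem ker_d2 {Z : Finset (Finset α)} (hZ : IsFam Z) (hc : Closed Z) (hd : DualConn Z)
    (hne : Z.Nonempty) : Module.finrank (ZMod 2) (LinearMap.ker (d2 Z)) = 1 := by
  have h1 : LinearMap.ker (d2 Z) = Submodule.span (ZMod 2) {ind Z Z} := by
    apply le_antisymm
    · intro a ha
      rw [LinearMap.mem_ker, ← ind_supp Z a, d2_ind_eq Z (supp_sub Z a)] at ha
      have h2 : bdF (supp Z a) = ∅ := by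
        apply ind_inj (Z := edgs Z) (bdF_subset.trans (edgs_mono (supp_sub Z a))) (empty_subset _)
        rw [ha]
        ext e
        unfold ind
        rw [if_neg (notMem_empty _)]
        rfl
      rw [Submodule.mem_span_singleton]
      rcases closed_bd_empty hZ hc hd (supp_sub Z a) h2 with h3 | h3
      · refine ⟨0, ?_⟩
        rw [zero_smul, ← ind_supp Z a, h3]
        ext e
        unfold ind
        rw [if_neg (notMem_empty _)]
        rfl
      · refine ⟨1, ?_⟩
        rw [one_smul, ← ind_supp Z a, h3]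
    · rw [Submodule.span_singleton_le_iff_mem, LinearMap.mem_ker, d2_ind_eq Z (Subset.refl Z), hc.bd]
      ext e
      unfold ind
      rw [if_neg (notMem_empty _)]
      rfl
  rw [h1]
  apply finrank_span_singleton
  intro h
  obtain ⟨s, hs⟩ := hne
  have h2 := congrFun h ⟨s, hs⟩
  unfold ind at h2
  rw [if_pos hs] at h2
  exact one_ne_zero h2

theorem finrank_range_d2 {Z : Finset (Finset α)} (hZ : IsFam Z) (hc : Closed Z) (hd : DualConn Z)
    (hne : Z.Nonempty) : Module.finrank (ZMod 2) (LinearMap.range (d2 Z)) + 1 = Z.card := by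
  have h1 := LinearMap.finrank_range_add_finrank_ker (d2 Z)
  rw [ker_d2 hZ hc hd hne, Module.finrank_fintype_fun_eq_card, Fintype.card_coe] at h1
  exact h1

/-- dimension of the cycle space of the plain graph -/
theorem finrank_cyc_closed {Z : Finset (Finset α)} (hZ : IsFam Z) (hd : DualConn Z)
    (hne : Z.Nonempty) (x0 : {x // x ∈ verts Z}) :
    Module.finrank (ZMod 2) (LinearMap.ker (bdM (srcc Z (cfp x0)) (tgtc Z (cfp x0)))) + (verts Z).card
      = (edgs Z).card + 1 := by
  have h1 := rank_cyc (srcc Z (cfp x0)) (tgtc Z (cfp x0))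
  rw [comp_one Z hZ (cfp x0) (cfp_cor x0) (cfp_surj x0) hd hne, Fintype.card_coe,
    Fintype.card_coe] at h1
  exact h1

/-! split graph -/

/-- corners -/
abbrev SpV (Z : Finset (Finset α)) : Type _ :=
  (x : {x // x ∈ verts Z}) × Quot (fun a b : {s // s ∈ star Z x.1} => EAdj a.1 b.1)

open Classical in
noncomputable def cfs {Z : Finset (Finset α)} (v0 : SpV Z) (x : α) (s : Finset α) : SpV Z :=
  if h : s ∈ star Z x then
    ⟨⟨x, mem_verts.mpr ⟨s, (mem_filter.mp h).1, (mem_filter.mp h).2⟩⟩, Quot.mk _ ⟨s, h⟩⟩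
  else v0

theorem cfs_cor {Z : Finset (Finset α)} (hZ : IsFam Z) (v0 : SpV Z) : Cor Z (cfs v0) := by
  intro s hs t ht e he hes het x hx
  have h1 : s ∈ star Z x := mem_filter.mpr ⟨hs, hes hx⟩
  have h2 : t ∈ star Z x := mem_filter.mpr ⟨ht, het hx⟩
  unfold cfs
  rw [dif_pos h1, dif_pos h2]
  congr 1
  by_cases hst : s = t
  · subst hst
    rfl
  · apply Quot.sound
    show EAdj s t
    unfold EAdj
    rw [inter_pair (hZ s hs) (hZ t ht) he hes het hst, he]

theorem cfs_surj {Z : Finset (Finset α)} (v0 : SpV Z) :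
    ∀ v, ∃ s ∈ Z, ∃ x ∈ s, cfs v0 x s = v := by
  rintro ⟨x, q⟩
  induction q using Quot.inductionOn with | _ s => ?_
  refine ⟨s.1, (mem_filter.mp s.2).1, x.1, (mem_filter.mp s.2).2, ?_⟩
  unfold cfs
  rw [dif_pos s.2]

theorem spV_card (Z : Finset (Finset α)) : Nat.card (SpV Z) = ∑ x ∈ verts Z, kap Z x := by
  have : ∀ x : {x // x ∈ verts Z}, Finite (Quot (fun a b : {s // s ∈ star Z x.1} => EAdj a.1 b.1)) :=
    fun x => Finite.of_surjective _ (Quot.mk_surjective)
  rw [Nat.card_sigma]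
  exact sum_coe_sort (verts Z) (fun x => kap Z x)

/-- 1.2(b) -/
theorem closed_kap {Z : Finset (Finset α)} (hZ : IsFam Z) (hc : Closed Z) (hd : DualConn Z)
    (hne : Z.Nonempty) : 2 * ((∑ x ∈ verts Z, kap Z x : ℕ) : ℤ) - (Z.card : ℤ) ≤ 4 := by
  classical
  have hfin : ∀ x : {x // x ∈ verts Z},
      Finite (Quot (fun a b : {s // s ∈ star Z x.1} => EAdj a.1 b.1)) :=
    fun x => Finite.of_surjective _ (Quot.mk_surjective)
  have hfin2 : Finite (SpV Z) := inferInstance
  letI : Fintype (SpV Z) := Fintype.ofFinite _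
  obtain ⟨s0, hs0⟩ := hne
  have hn0 : s0.Nonempty := card_pos.mp (by rw [hZ s0 hs0]; norm_num)
  obtain ⟨x0, hx0⟩ := hn0
  let v0 : SpV Z := ⟨⟨x0, mem_verts.mpr ⟨s0, hs0, hx0⟩⟩, Quot.mk _ ⟨s0, mem_filter.mpr ⟨hs0, hx0⟩⟩⟩
  haveI : Nonempty {s // s ∈ Z} := ⟨⟨s0, hs0⟩⟩
  have h1 := rank_closed (srcc Z (cfs v0)) (tgtc Z (cfs v0)) (ι := {s // s ∈ Z}) (fun s => fi Z s.1)
    (fun s => bdM_face Z hZ _ (cfs_cor hZ v0) s.2) (face_indep hZ hc hd)
  rw [comp_one Z hZ (cfs v0) (cfs_cor hZ v0) (cfs_surj v0) hd ⟨s0, hs0⟩, Fintype.card_coe,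
    Fintype.card_coe, ← Nat.card_eq_fintype_card, spV_card] at h1
  have h2 := hc.edgs_card hZ
  omega

theorem closed_Ph2_le {Z : Finset (Finset α)} (hZ : IsFam Z) (hc : Closed Z) (hd : DualConn Z)
    (hne : Z.Nonempty) : Ph2 Z ≤ 4 := by
  have h1 := closed_kap hZ hc hd hne
  have h2 : (verts Z).card ≤ ∑ x ∈ verts Z, kap Z x := by
    rw [card_eq_sum_ones]
    exact sum_le_sum (fun x hx => kap_pos hx)
  unfold Ph2
  omega

theorem sphere_kap {S : Finset (Finset α)} (hS : IsSphere S) : ∀ x ∈ verts S, kap S x = 1 := by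
  obtain ⟨hZ, hc, hd, hne, hP⟩ := hS
  have h1 := closed_kap hZ hc hd hne
  unfold Ph2 at hP
  have h2 : (verts S).card = ∑ x ∈ verts S, 1 := card_eq_sum_ones _
  have h3 : ∑ x ∈ verts S, kap S x ≤ ∑ x ∈ verts S, 1 := by omega
  intro x hx
  by_contra hx1
  have h4 : ∑ x ∈ verts S, 1 < ∑ x ∈ verts S, kap S x := by
    apply sum_lt_sum (fun x hx => kap_pos hx)
    refine ⟨x, hx, ?_⟩
    have := kap_pos hx
    omega
  omega

/-- from the linear statement to the combinatorial one -/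
theorem span_of_le {S : Finset (Finset α)} (x0 : {x // x ∈ verts S})
    (h : LinearMap.ker (bdM (srcc S (cfp x0)) (tgtc S (cfp x0))) ≤ LinearMap.range (d2 S))
    (A : Finset (Finset α)) (hA : EvenSet A) (hAS : A ⊆ edgs S) : ∃ B ⊆ S, bdF B = A := by
  obtain ⟨a, ha⟩ := h ((even_ker x0 hAS).mpr hA)
  refine ⟨supp S a, supp_sub S a, ?_⟩
  apply ind_inj (Z := edgs S) (bdF_subset.trans (edgs_mono (supp_sub S a))) hAS
  rw [← d2_ind_eq S (supp_sub S a), ind_supp, ha]

/-- every cycle of a sphere is a boundary -/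
theorem sphere_span {S : Finset (Finset α)} (hS : IsSphere S) (A : Finset (Finset α))
    (hA : EvenSet A) (hAS : A ⊆ edgs S) : ∃ B ⊆ S, bdF B = A := by
  obtain ⟨hZ, hc, hd, hne, hP⟩ := hS
  obtain ⟨x, hx⟩ := vne hZ hne
  apply span_of_le ⟨x, hx⟩ _ A hA hAS
  apply le_of_eq
  symm
  apply Submodule.eq_of_le_of_finrank_eq (d2_le S hZ _ (cfp_cor _))
  have h1 := finrank_cyc_closed hZ hd hne ⟨x, hx⟩
  have h2 := finrank_range_d2 hZ hc hd hne
  have h3 := hc.edgs_card hZ
  unfold Ph2 at hP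
  omega

/-- converse: a closed dual-connected family in which every cycle is a boundary is a sphere -/
theorem sphere_of_span {S : Finset (Finset α)} (hZ : IsFam S) (hc : Closed S) (hd : DualConn S)
    (hne : S.Nonempty) (h : ∀ A, EvenSet A → A ⊆ edgs S → ∃ B ⊆ S, bdF B = A) : IsSphere S := by
  refine ⟨hZ, hc, hd, hne, ?_⟩
  obtain ⟨x, hx⟩ := vne hZ hne
  have h0 : LinearMap.ker (bdM (srcc S (cfp ⟨x, hx⟩)) (tgtc S (cfp ⟨x, hx⟩)))
      = LinearMap.range (d2 S) := by
    apply le_antisymm _ (d2_le S hZ _ (cfp_cor _))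
    intro c hcc
    rw [← ind_supp (edgs S) c] at hcc ⊢
    have h1 := (even_ker ⟨x, hx⟩ (supp_sub (edgs S) c)).mp hcc
    obtain ⟨B, hB, hBc⟩ := h _ h1 (supp_sub (edgs S) c)
    exact ⟨ind S B, by rw [d2_ind_eq S hB, hBc]⟩
  have h1 := finrank_cyc_closed hZ hd hne ⟨x, hx⟩
  have h2 := finrank_range_d2 hZ hc hd hne
  have h3 := hc.edgs_card hZ
  rw [h0] at h1
  unfold Ph2
  omega

/-! ### 1.3 the subfamily lemma -/

/-- adjacency across a pair not in `E(R)` -/
def relR (R : Finset (Finset α)) (s t : Finset α) : Prop := EAdj s t ∧ s ∩ t ∉ edgs R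

/-- chains supported on `E(R)` -/
def subU (Z R : Finset (Finset α)) : Submodule (ZMod 2) ({e // e ∈ edgs Z} → ZMod 2) where
  carrier := {c | ∀ e, e.1 ∉ edgs R → c e = 0}
  add_mem' := by
    intro a b ha hb e he
    rw [Pi.add_apply, ha e he, hb e he, add_zero]
  zero_mem' := fun _ _ => rfl
  smul_mem' := by
    intro c a ha e he
    rw [Pi.smul_apply, ha e he, smul_zero]

/-- extension by zero -/
noncomputable def extz (Z R : Finset (Finset α)) :
    ({e // e ∈ edgs R} → ZMod 2) →ₗ[ZMod 2] ({e // e ∈ edgs Z} → ZMod 2) where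
  toFun c e := if h : e.1 ∈ edgs R then c ⟨e.1, h⟩ else 0
  map_add' a b := by
    ext e
    by_cases h : e.1 ∈ edgs R
    · simp only [Pi.add_apply, dif_pos h]
    · simp only [Pi.add_apply, dif_neg h, add_zero]
  map_smul' a b := by
    ext e
    by_cases h : e.1 ∈ edgs R
    · simp only [Pi.smul_apply, dif_pos h, RingHom.id_apply]
    · simp only [Pi.smul_apply, dif_neg h, RingHom.id_apply, smul_zero]

theorem extz_ind {Z R A : Finset (Finset α)} (hA : A ⊆ edgs R) :
    extz Z R (ind (edgs R) A) = ind (edgs Z) A := by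
  ext e
  show (if h : e.1 ∈ edgs R then ind (edgs R) A ⟨e.1, h⟩ else 0) = _
  by_cases h : e.1 ∈ edgs R
  · rw [dif_pos h]
    rfl
  · rw [dif_neg h]
    unfold ind
    rw [if_neg (fun h1 => h (hA h1))]

theorem finrank_cyc_sub {Z R : Finset (Finset α)} (hZ : IsFam Z) (hR : R ⊆ Z) (hne : R.Nonempty)
    (x0 : {x // x ∈ verts Z}) :
    (edgs R).card + 1 ≤ (verts R).card +
      Module.finrank (ZMod 2)
        ((LinearMap.ker (bdM (srcc Z (cfp x0)) (tgtc Z (cfp x0))) ⊓ subU Z R :
          Submodule (ZMod 2) ({e // e ∈ edgs Z} → ZMod 2))) := by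
  have hRf : IsFam R := fun s hs => hZ s (hR hs)
  obtain ⟨y, hy⟩ := vne hRf hne
  let y0 : {x // x ∈ verts R} := ⟨y, hy⟩
  have h1 := rank_cyc (srcc R (cfp y0)) (tgtc R (cfp y0))
  rw [Fintype.card_coe, Fintype.card_coe] at h1
  have h2 : 1 ≤ Nat.card (Quot (adjM (srcc R (cfp y0)) (tgtc R (cfp y0)))) := by
    haveI : Finite (Quot (adjM (srcc R (cfp y0)) (tgtc R (cfp y0)))) :=
      Finite.of_surjective _ (Quot.mk_surjective)
    haveI : Nonempty (Quot (adjM (srcc R (cfp y0)) (tgtc R (cfp y0)))) := ⟨Quot.mk _ y0⟩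
    exact Nat.card_pos
  have h3 : Function.Injective (extz Z R) := by
    intro a b hab
    ext e
    have h := congrFun hab ⟨e.1, edgs_mono hR e.2⟩
    have h4 : ∀ c : {e // e ∈ edgs R} → ZMod 2, extz Z R c ⟨e.1, edgs_mono hR e.2⟩ = c e := by
      intro c
      show (if h : e.1 ∈ edgs R then c ⟨e.1, h⟩ else 0) = _
      rw [dif_pos e.2]
    rwa [h4, h4] at h
  have h4 : (LinearMap.ker (bdM (srcc R (cfp y0)) (tgtc R (cfp y0)))).map (extz Z R) ≤
      LinearMap.ker (bdM (srcc Z (cfp x0)) (tgtc Z (cfp x0))) ⊓ subU Z R := by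
    rintro _ ⟨c, hc, rfl⟩
    have hc' : c ∈ LinearMap.ker (bdM (srcc R (cfp y0)) (tgtc R (cfp y0))) := hc
    rw [← ind_supp (edgs R) c] at hc' ⊢
    have h5 := (even_ker y0 (supp_sub (edgs R) c)).mp hc'
    rw [extz_ind (supp_sub (edgs R) c)]
    refine ⟨(even_ker x0 ((supp_sub (edgs R) c).trans (edgs_mono hR))).mpr h5, ?_⟩
    intro e he
    unfold ind
    rw [if_neg (fun h1 => he (supp_sub (edgs R) c h1))]
  have h5 := Submodule.finrank_mono h4
  have h6 := LinearEquiv.finrank_eq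
    (Submodule.equivMapOfInjective (extz Z R) h3 (LinearMap.ker (bdM (srcc R (cfp y0)) (tgtc R (cfp y0)))))
  omega

/-- class function space -/
theorem const_on_classes {Z R : Finset (Finset α)} (hZ : IsFam Z) (hc : Closed Z)
    {a : {s // s ∈ Z} → ZMod 2} (ha : d2 Z a ∈ subU Z R) (s t : {s // s ∈ Z})
    (hst : relR R s.1 t.1) : a s = a t := by
  obtain ⟨h1, h2⟩ := hst
  have hne : s.1 ≠ t.1 := by
    intro h
    unfold EAdj at h1
    rw [h, inter_self, hZ t.1 t.2] at h1
    omega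
  let e : {e // e ∈ edgs Z} := ⟨s.1 ∩ t.1, mem_edgs.mpr ⟨h1, s.1, s.2, inter_subset_left⟩⟩
  have h3 : d2 Z a e = 0 := ha e h2
  rw [d2_apply] at h3
  have h4 : ∑ u : {s // s ∈ Z}, a u * (if e.1 ⊆ u.1 then (1 : ZMod 2) else 0) = a s + a t := by
    have h5 : ∀ u : {s // s ∈ Z}, a u * (if e.1 ⊆ u.1 then (1 : ZMod 2) else 0)
        = if e.1 ⊆ u.1 then a u else 0 := by
      intro u
      split_ifs <;> simp
    rw [sum_congr rfl (fun u _ => h5 u), ← sum_filter]
    have h6 : (univ.filter (fun u : {s // s ∈ Z} => e.1 ⊆ u.1)) = {s, t} := by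
      symm
      apply eq_of_subset_of_card_le
      · intro u hu
        rw [mem_insert, mem_singleton] at hu
        rw [mem_filter]
        rcases hu with rfl | rfl
        · exact ⟨mem_univ _, inter_subset_left⟩
        · exact ⟨mem_univ _, inter_subset_right⟩
      · rw [card_pair (fun h => hne (congrArg Subtype.val h))]
        have h7 : (univ.filter (fun u : {s // s ∈ Z} => e.1 ⊆ u.1)).card = edeg Z e.1 := by
          unfold edeg
          rw [← card_map (Function.Embedding.subtype _)]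
          congr 1
          ext u
          rw [mem_map, mem_filter]
          constructor
          · rintro ⟨x, hx, rfl⟩
            exact ⟨x.2, (mem_filter.mp hx).2⟩
          · rintro ⟨hu, hu2⟩
            exact ⟨⟨u, hu⟩, mem_filter.mpr ⟨mem_univ _, hu2⟩, rfl⟩
        rw [h7, hc.two e.2]
    rw [h6, sum_pair (fun h => hne (congrArg Subtype.val h))]
  rw [h4] at h3
  exact CharTwo.add_eq_zero.mp h3

theorem finrank_im_sub {Z R : Finset (Finset α)} (hZ : IsFam Z) (hc : Closed Z) (hne : Z.Nonempty) :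
    Module.finrank (ZMod 2)
      ((LinearMap.range (d2 Z) ⊓ subU Z R : Submodule (ZMod 2) ({e // e ∈ edgs Z} → ZMod 2))) + 1
      ≤ ncl Z (relR R) := by
  set P : Submodule (ZMod 2) ({s // s ∈ Z} → ZMod 2) := (subU Z R).comap (d2 Z) with hP
  -- the class functions
  have hfin : Finite (Quot (fun a b : {x // x ∈ Z} => relR R a.1 b.1)) := ncl_finite
  letI : Fintype (Quot (fun a b : {x // x ∈ Z} => relR R a.1 b.1)) := Fintype.ofFinite _
  let ψ : P →ₗ[ZMod 2] (Quot (fun a b : {x // x ∈ Z} => relR R a.1 b.1) → ZMod 2) :=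
    { toFun := fun a => Quot.lift a.1 (fun s t hst => const_on_classes hZ hc a.2 s t hst)
      map_add' := by
        intro a b
        ext q
        induction q using Quot.inductionOn with | _ q => ?_
        rfl
      map_smul' := by
        intro a b
        ext q
        induction q using Quot.inductionOn with | _ q => ?_
        rfl }
  have hψ : Function.Injective ψ := by
    intro a b hab
    apply Subtype.ext
    ext s
    exact congrFun hab (Quot.mk _ s)
  have h1 : Module.finrank (ZMod 2) P ≤ ncl Z (relR R) := by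
    have := LinearMap.finrank_le_finrank_of_injective hψ
    rw [Module.finrank_fintype_fun_eq_card, ← Nat.card_eq_fintype_card] at this
    exact this
  let δ : P →ₗ[ZMod 2] ({e // e ∈ edgs Z} → ZMod 2) := (d2 Z).domRestrict P
  have h2 : LinearMap.range (d2 Z) ⊓ subU Z R ≤ LinearMap.range δ := by
    rintro c ⟨⟨a, ha⟩, hc2⟩
    refine ⟨⟨a, ?_⟩, ha⟩
    show d2 Z a ∈ subU Z R
    rw [ha]
    exact hc2
  have h3 := Submodule.finrank_mono h2
  have h4 := LinearMap.finrank_range_add_finrank_ker δ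
  have h5 : 1 ≤ Module.finrank (ZMod 2) (LinearMap.ker δ) := by
    rw [Nat.one_le_iff_ne_zero]
    intro h0
    rw [Submodule.finrank_eq_zero] at h0
    have h6 : d2 Z (ind Z Z) = 0 := by
      rw [d2_ind_eq Z (Subset.refl Z), hc.bd]
      ext e
      unfold ind
      rw [if_neg (notMem_empty _)]
      rfl
    have h7 : (⟨ind Z Z, by
        show d2 Z (ind Z Z) ∈ subU Z R
        rw [h6]; exact Submodule.zero_mem _⟩ : P) ∈ LinearMap.ker δ := by
      rw [LinearMap.mem_ker]
      exact h6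
    rw [h0, Submodule.mem_bot] at h7
    have h8 : ind Z Z = 0 := congrArg Subtype.val h7
    obtain ⟨s, hs⟩ := hne
    have h9 := congrFun h8 ⟨s, hs⟩
    unfold ind at h9
    rw [if_pos hs] at h9
    exact one_ne_zero h9
  omega

/-- every class has at least three boundary pairs in `E(R)` -/
theorem three_ncl {Z R : Finset (Finset α)} (hZ : IsFam Z) (hc : Closed Z) (hd : DualConn Z)
    (hR : R ⊆ Z) (hne : R.Nonempty) (hRZ : R ≠ Z) : 3 * ncl Z (relR R) ≤ 2 * (edgs R).card := by
  classical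
  haveI hfin : Finite (Quot (fun a b : {x // x ∈ Z} => relR R a.1 b.1)) := ncl_finite
  letI : Fintype (Quot (fun a b : {x // x ∈ Z} => relR R a.1 b.1)) := Fintype.ofFinite _
  set q := Quot.mk (fun a b : {x // x ∈ Z} => relR R a.1 b.1) with hq
  -- class as a finset
  let cls : Quot (fun a b : {x // x ∈ Z} => relR R a.1 b.1) → Finset (Finset α) :=
    fun p => Z.filter (fun s => ∃ h : s ∈ Z, q ⟨s, h⟩ = p)
  have hcls : ∀ p, cls p ⊆ Z := fun p => filter_subset _ _
  have hmem : ∀ p s (h : s ∈ Z), s ∈ cls p ↔ q ⟨s, h⟩ = p := by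
    intro p s h
    show s ∈ Z.filter _ ↔ _
    rw [mem_filter]
    constructor
    · rintro ⟨_, _, h2⟩; exact h2
    · intro h2; exact ⟨h, h, h2⟩
  -- a member of `R` and a member outside
  obtain ⟨s0, hs0⟩ := hne
  have ht : ∃ t0 ∈ Z, t0 ∉ R := by
    by_contra hcon
    push Not at hcon
    exact hRZ (Subset.antisymm hR hcon)
  obtain ⟨t0, ht0, ht0R⟩ := ht
  have hs0t0 : q ⟨s0, hR hs0⟩ ≠ q ⟨t0, ht0⟩ := by
    intro h
    have h1 : ∀ x y : {x // x ∈ Z}, relR R x.1 y.1 → (x.1 = s0) = (y.1 = s0) := by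
      intro x y hxy
      have h2 : ∀ u w : Finset α, w ∈ Z → relR R u w → u ∈ R → False := by
        intro u w hw huw hu
        exact huw.2 (mem_edgs.mpr ⟨huw.1, u, hu, inter_subset_left⟩)
      have h3 : x.1 ≠ s0 := fun h4 => h2 x.1 y.1 y.2 hxy (h4 ▸ hs0)
      have h4 : y.1 ≠ s0 := by
        intro h4
        refine h2 y.1 x.1 x.2 ⟨hxy.1.symm, ?_⟩ (h4 ▸ hs0)
        rw [inter_comm]
        exact hxy.2
      simp [h3, h4]
    have h2 := congrArg (Quot.lift (fun x : {x // x ∈ Z} => (x.1 = s0)) h1) h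
    have h3 : (s0 = s0) = (t0 = s0) := h2
    have h4 : t0 = s0 := by rw [← h3]
    exact ht0R (h4 ▸ hs0)
  have hbd1 : ∀ p, bdF (cls p) ⊆ edgs R := by
    intro p e he
    obtain ⟨he2, hodd⟩ := mem_bdF.mp he
    by_contra heR
    obtain ⟨s, hs, hes⟩ := edeg_pos.mp hodd.pos
    have hsZ := hcls p hs
    have hdeg : edeg Z e = 2 := hc.two (mem_edgs.mpr ⟨he2, s, hsZ, hes⟩)
    have h3 : edeg (cls p) e = 2 := by
      apply le_antisymm
      · rw [← hdeg]; exact edeg_mono (hcls p) e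
      · rw [← hdeg]
        apply card_le_card
        intro t ht
        rw [mem_filter] at ht ⊢
        refine ⟨?_, ht.2⟩
        by_cases hst : s = t
        · rw [← hst]; exact hs
        · rw [hmem p t ht.1]
          rw [hmem p s hsZ] at hs
          rw [← hs]
          symm
          apply Quot.sound
          have h4 : s ∩ t = e := inter_pair (hZ s hsZ) (hZ t ht.1) he2 hes ht.2 hst
          refine ⟨?_, ?_⟩
          · show (s ∩ t).card = 2
            rw [h4, he2]
          · show s ∩ t ∉ edgs R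
            rw [h4]
            exact heR
    rw [h3] at hodd
    revert hodd
    decide
  have hbd2 : ∀ p, 3 ≤ (bdF (cls p)).card := by
    intro p
    apply (bdF_even (fun s hs => hZ s (hcls p hs))).three_le
    rw [nonempty_iff_ne_empty]
    intro h0
    rcases closed_bd_empty hZ hc hd (hcls p) h0 with h1 | h1
    · induction p using Quot.inductionOn with | _ s => ?_
      have : s.1 ∈ cls (q s) := (hmem _ s.1 s.2).mpr rfl
      rw [h1] at this
      exact notMem_empty _ this
    · have h2 := (hmem p s0 (hR hs0)).mp (h1 ▸ hR hs0)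
      have h3 := (hmem p t0 ht0).mp (h1 ▸ ht0)
      exact hs0t0 (h2.trans h3.symm)
  have hcard : ncl Z (relR R) = Fintype.card (Quot (fun a b : {x // x ∈ Z} => relR R a.1 b.1)) :=
    Nat.card_eq_fintype_card
  calc 3 * ncl Z (relR R)
      = ∑ _p : Quot (fun a b : {x // x ∈ Z} => relR R a.1 b.1), 3 := by
        rw [hcard, sum_const, smul_eq_mul, card_univ, mul_comm]
    _ ≤ ∑ p : Quot (fun a b : {x // x ∈ Z} => relR R a.1 b.1), (bdF (cls p)).card :=
        sum_le_sum (fun p _ => hbd2 p)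
    _ = ∑ p : Quot (fun a b : {x // x ∈ Z} => relR R a.1 b.1),
          ((edgs R).filter (fun e => e ∈ bdF (cls p))).card := by
        apply sum_congr rfl
        intro p _
        congr 1
        rw [filter_mem_eq_inter, inter_eq_right.mpr (hbd1 p)]
    _ = ∑ e ∈ edgs R, (univ.filter (fun p : Quot (fun a b : {x // x ∈ Z} => relR R a.1 b.1) =>
          e ∈ bdF (cls p))).card :=
        dcount univ (edgs R) (fun p e => e ∈ bdF (cls p))
    _ ≤ ∑ _e ∈ edgs R, 2 := by
        apply sum_le_sum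
        intro e he
        have h1 : (univ.filter (fun p : Quot (fun a b : {x // x ∈ Z} => relR R a.1 b.1) =>
            e ∈ bdF (cls p))) ⊆ ((Z.filter (fun s => e ⊆ s)).attach.image
              (fun s => q ⟨s.1, (mem_filter.mp s.2).1⟩)) := by
          intro p hp
          rw [mem_filter] at hp
          obtain ⟨s, hs, hes⟩ := edeg_pos.mp (mem_bdF.mp hp.2).2.pos
          have hsZ := hcls p hs
          rw [mem_image]
          exact ⟨⟨s, mem_filter.mpr ⟨hsZ, hes⟩⟩, mem_attach _ _, (hmem p s hsZ).mp hs⟩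
        refine (card_le_card h1).trans (card_image_le.trans ?_)
        rw [card_attach]
        exact le_of_eq (hc.two (edgs_mono hR he))
    _ = 2 * (edgs R).card := by rw [sum_const, smul_eq_mul, mul_comm]

/-- 1.3 subfamily lemma -/
theorem subfam {Z R : Finset (Finset α)} (hZ : IsFam Z) (hc : Closed Z) (hd : DualConn Z)
    (hR : R ⊆ Z) (hne : R.Nonempty) (hRZ : R ≠ Z) : Ph2 Z + 1 ≤ Ph2 R := by
  classical
  have hneZ : Z.Nonempty := hne.mono hR
  obtain ⟨x, hx⟩ := vne hZ hneZ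
  have h1 := finrank_cyc_sub hZ hR hne ⟨x, hx⟩
  have h2 := finrank_im_sub (R := R) hZ hc hneZ
  have h3 := three_ncl hZ hc hd hR hne hRZ
  have h4 := finrank_cyc_closed hZ hd hneZ ⟨x, hx⟩
  have h5 := finrank_range_d2 hZ hc hd hneZ
  have h6 := hc.edgs_card hZ
  set K := LinearMap.ker (bdM (srcc Z (cfp ⟨x, hx⟩)) (tgtc Z (cfp ⟨x, hx⟩))) with hK
  have h7 := Submodule.finrank_sup_add_finrank_inf_eq (K ⊓ subU Z R) (LinearMap.range (d2 Z))
  have h8 : (K ⊓ subU Z R) ⊔ LinearMap.range (d2 Z) ≤ K :=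
    sup_le inf_le_left (d2_le Z hZ _ (cfp_cor _))
  have h9 : (K ⊓ subU Z R) ⊓ LinearMap.range (d2 Z) ≤ LinearMap.range (d2 Z) ⊓ subU Z R := by
    intro c hcc
    exact ⟨hcc.2, hcc.1.2⟩
  have h10 := Submodule.finrank_mono h8
  have h11 := Submodule.finrank_mono h9
  have h12 : R.card + 1 ≤ ncl Z (relR R) := by
    have h13 := ncl_ge_image (A := Z) (r := relR R)
      (fun s => if s ∈ R then some s else (none : Option (Finset α))) (by
        intro a ha b hb hab
        have ha' : a ∉ R := fun h => hab.2 (mem_edgs.mpr ⟨hab.1, a, h, inter_subset_left⟩)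
        have hb' : b ∉ R := fun h => hab.2 (mem_edgs.mpr ⟨hab.1, b, h, inter_subset_right⟩)
        rw [if_neg ha', if_neg hb'])
    refine le_trans ?_ h13
    have ht : ∃ t0 ∈ Z, t0 ∉ R := by
      by_contra hcon
      push Not at hcon
      exact hRZ (Subset.antisymm hR hcon)
    obtain ⟨t0, ht0, ht0R⟩ := ht
    have h14 : insert none (R.image (fun s => some s))
        ⊆ Z.image (fun s => if s ∈ R then some s else (none : Option (Finset α))) := by
      intro o ho
      rw [mem_insert, mem_image] at ho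
      rw [mem_image]
      rcases ho with rfl | ⟨s, hs, rfl⟩
      · exact ⟨t0, ht0, if_neg ht0R⟩
      · exact ⟨s, hR hs, if_pos hs⟩
    refine le_trans ?_ (card_le_card h14)
    rw [card_insert_of_notMem, card_image_of_injective _ (Option.some_injective _)]
    rw [mem_image]
    rintro ⟨s, _, h⟩
    exact Option.some_ne_none _ h
  unfold Ph2
  omega

/-- a connected family of complexity zero is closed and dual-connected -/
theorem compl_zero {Z : Finset (Finset α)} (hZ : IsFam Z) (hconn : Conn Z) (h0 : compl Z = 0) :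
    Closed Z ∧ DualConn Z := by
  unfold compl at h0
  rw [Nat.add_eq_zero_iff, sum_eq_zero_iff, sum_eq_zero_iff] at h0
  obtain ⟨h1, h2⟩ := h0
  constructor
  · intro e he
    by_cases hpos : 0 < edeg Z e
    · right
      have h3 := h1 e (mem_edgs.mpr ⟨he, edeg_pos.mp hpos⟩)
      unfold edef at h3
      omega
    · left; omega
  · intro s hs t ht
    have h3 := hconn s hs t ht
    induction h3 with
    | refl => exact Relation.ReflTransGen.refl
    | @tail u w h4 h5 ih =>
      obtain ⟨hu, hw, x, hx⟩ := h5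
      rw [mem_inter] at hx
      refine (ih hu).trans ?_
      have hxv : x ∈ verts Z := mem_verts.mpr ⟨u, hu, hx.1⟩
      have h6 : kap Z x = 1 := by
        have := kap_pos hxv
        have := h2 x hxv
        omega
      have h7 := (ncl_eq_one_iff (fun a b => EAdj.symm) (A := star Z x)
        ⟨u, mem_filter.mpr ⟨hu, hx.1⟩⟩).mp h6 u (mem_filter.mpr ⟨hu, hx.1⟩) w
          (mem_filter.mpr ⟨hw, hx.2⟩)
      exact Relation.ReflTransGen.mono (r := fun a b => a ∈ star Z x ∧ b ∈ star Z x ∧ EAdj a b)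
        (p := fun a b => a ∈ Z ∧ b ∈ Z ∧ EAdj a b)
        (fun a b h => ⟨(mem_filter.mp h.1).1, (mem_filter.mp h.2.1).1, h.2.2⟩) u w h7

/-- 1.3 corollary for discs -/
theorem disc_sub5 {D F' : Finset (Finset α)} {b V' : Finset α} (hD : IsDisc b D) (hF : F' ⊆ D)
    (hV : verts F' ⊆ V') (h3 : 3 ≤ V'.card) : (5 : ℤ) ≤ 2 * (V'.card : ℤ) - (F'.card : ℤ) := by
  obtain ⟨hb, hZ, hc, hd, hne, hP⟩ := hD
  rcases F'.eq_empty_or_nonempty with h | h
  · rw [h, card_empty]
    omega
  · have h1 := subfam (Z := insert b D) hZ hc hd (hF.trans (subset_insert _ _)) h (by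
      intro h2
      apply hb
      apply hF
      rw [h2]
      exact mem_insert_self _ _)
    have h2 := card_le_card hV
    rw [hP] at h1
    unfold Ph2 at h1
    omega
theorem disc_sub6 {D F' : Finset (Finset α)} {b V' : Finset α} (hD : IsDisc b D) (hF : F' ⊆ D)
    (hV : verts F' ⊆ V') (hb : b ⊆ V') (hne : F' ≠ D) :
    (6 : ℤ) ≤ 2 * (V'.card : ℤ) - (F'.card : ℤ) := by
  obtain ⟨hbD, hZ, hc, hd, hneS, hP⟩ := hD
  have hbF : b ∉ F' := fun h => hbD (hF h)
  have h1 := subfam (Z := insert b D) (R := insert b F') hZ hc hd (insert_subset_insert _ hF)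
    (insert_nonempty _ _) (by
      intro h2
      apply hne
      have h3 := congrArg (fun S => S.erase b) h2
      simp only [erase_insert hbF, erase_insert hbD] at h3
      exact h3)
  have h2 : verts (insert b F') ⊆ V' := by
    intro x hx
    obtain ⟨s, hs, hxs⟩ := mem_verts.mp hx
    rw [mem_insert] at hs
    rcases hs with rfl | hs
    · exact hb hxs
    · exact hV (mem_verts.mpr ⟨s, hs, hxs⟩)
  have h3 := card_le_card h2
  rw [hP] at h1
  unfold Ph2 at h1
  rw [card_insert_of_notMem hbF] at h1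
  push_cast at h1
  omega
/-- 1.3 corollary for tori -/
theorem torus_sub {Z F' : Finset (Finset α)} {V' : Finset α} (hZ : IsFam Z) (hc : Closed Z)
    (hd : DualConn Z) (h0 : Ph2 Z = 0) (hF : F' ⊆ Z) (hV : verts F' ⊆ V') (hV2 : V' ⊆ verts Z) :
    (0 : ℤ) ≤ 2 * (V'.card : ℤ) - (F'.card : ℤ) := by
  have h2 := card_le_card hV
  rcases F'.eq_empty_or_nonempty with h | h
  · rw [h, card_empty]
    omega
  · by_cases hFZ : F' = Z
    · subst hFZ
      unfold Ph2 at h0
      omega
    · have h1 := subfam hZ hc hd hF h hFZ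
      unfold Ph2 at h1 h0
      omega
/-- number of members and vertices of a disc -/
theorem disc_card {D : Finset (Finset α)} {b : Finset α} (hD : IsDisc b D) :
    (D.card : ℤ) = 2 * ((verts (insert b D)).card : ℤ) - 5 := by
  obtain ⟨hbD, hZ, hc, hd, hneS, hP⟩ := hD
  unfold Ph2 at hP
  rw [card_insert_of_notMem hbD] at hP
  push_cast at hP
  omega
/-- boundary pairs of a disc are exactly the pairs of `b`; `b` is determined by `D` -/
theorem disc_bd {D : Finset (Finset α)} {b : Finset α} (hD : IsDisc b D) : bdF D = b.powersetCard 2 := by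
  obtain ⟨hbD, hZ, hc, hd, hneS, hP⟩ := hD
  have h1 : D = symmDiff (insert b D) {b} := by
    ext s
    rw [mem_symmDiff, mem_insert, mem_singleton]
    constructor
    · intro hs
      left
      refine ⟨Or.inr hs, ?_⟩
      rintro rfl
      exact hbD hs
    · rintro (⟨h | h, h2⟩ | ⟨h, h2⟩)
      · exact absurd h h2
      · exact h
      · exact absurd (Or.inl h) h2
  have h2 : bdF ({b} : Finset (Finset α)) = b.powersetCard 2 := by
    ext e
    rw [mem_bdF, mem_powersetCard]
    have h3 : edeg ({b} : Finset (Finset α)) e = if e ⊆ b then 1 else 0 := by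
      unfold edeg
      rw [filter_singleton]
      split_ifs <;> simp
    rw [h3]
    split_ifs with h
    · simp [h]
    · simp [h]
  rw [h1, bdF_symmDiff, hc.bd, h2]
  ext e
  rw [mem_symmDiff]
  simp

end Pool.Agent.SC
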