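import Pool.Agent.Lib.MP_d0323d_co.CutCap
import Pool.Agent.Lib.MP_d0323d_co.ClosedFam
/-! Module PHASE2B, part 1 (9.7): a dual component of the capped cut surface is a sphere. -/
set_option autoImplicit false
set_option linter.unusedSectionVars false
namespace Pool.Agent.SC
open Finset

namespace Ph2

variable {α β : Type} [DecidableEq α] [DecidableEq β]

/-- degree mod 2 is additive -/
theorem edeg_sd (B B' : Finset (Finset α)) (e : Finset α) :
    ((edeg (symmDiff B B') e : ℕ) : ZMod 2) = (edeg B e : ZMod 2) + (edeg B' e : ZMod 2) := by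
  have h := card_symmDiff_add (B.filter (fun s => e ⊆ s)) (B'.filter (fun s => e ⊆ s))
  rw [← filter_symmDiff'] at h
  have h2 := congrArg (fun k : ℕ => (k : ZMod 2)) h
  simp only [Nat.cast_add, Nat.cast_mul] at h2
  have h3 : ((2 : ℕ) : ZMod 2) = 0 := rfl
  rw [h3, zero_mul, add_zero] at h2
  exact h2

theorem edeg_empty (e : Finset α) : edeg (∅ : Finset (Finset α)) e = 0 := by
  unfold edeg
  rw [filter_empty, card_empty]

theorem edeg_singleton (s e : Finset α) : edeg ({s} : Finset (Finset α)) e = if e ⊆ s then 1 else 0 := by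
  unfold edeg
  rw [filter_singleton]
  split_ifs <;> simp

theorem mem_bdF1 {B : Finset (Finset α)} {e : Finset α} :
    e ∈ bdF B ↔ e.card = 2 ∧ ((edeg B e : ℕ) : ZMod 2) = 1 := by
  rw [mem_bdF, zmod2_nat_one]

/-- pairs at `y` in a triple -/
theorem pair_cases {y : α} {t e e' g : Finset α} (ht : t.card = 3) (hy : y ∈ t) (he : e.card = 2)
    (he' : e'.card = 2) (hye : y ∈ e) (hye' : y ∈ e') (het : e ⊆ t) (het' : e' ⊆ t) (hne : e ≠ e')
    (hg : g.card = 2) (hyg : y ∈ g) :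
    (if g ⊆ t then (1 : ZMod 2) else 0) = (if g = e then 1 else 0) + (if g = e' then 1 else 0) := by
  have h1 : ({e, e'} : Finset (Finset α)) = (t.powersetCard 2).filter (fun e => y ∈ e) := by
    apply eq_of_subset_of_card_le
    · intro u hu
      rw [mem_insert, mem_singleton] at hu
      rw [mem_filter, mem_powersetCard]
      rcases hu with rfl | rfl
      · exact ⟨⟨het, he⟩, hye⟩
      · exact ⟨⟨het', he'⟩, hye'⟩
    · rw [pairs_at ht hy, card_pair hne]
  have h2 : g ⊆ t ↔ g = e ∨ g = e' := by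
    have h3 : g ∈ ({e, e'} : Finset (Finset α)) ↔ g = e ∨ g = e' := by
      rw [mem_insert, mem_singleton]
    rw [← h3, h1, mem_filter, mem_powersetCard]
    tauto
  by_cases h3 : g = e
  · rw [if_pos (h2.mpr (Or.inl h3)), if_pos h3, if_neg (by rw [h3]; exact hne), add_zero]
  · by_cases h4 : g = e'
    · rw [if_pos (h2.mpr (Or.inr h4)), if_neg h3, if_pos h4, zero_add]
    · rw [if_neg (fun h => by rcases h2.mp h with h | h; exacts [h3 h, h4 h]), if_neg h3, if_neg h4,
        add_zero]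

/-- one face -/
theorem tjoin_one {y : α} {G : Finset (Finset α)} (hG : ∀ s ∈ G, s.card = 3 ∧ y ∈ s) {s : Finset α}
    (hs : s ∈ G) {e e' : Finset α} (he : e.card = 2) (hye : y ∈ e) (hes : e ⊆ s)
    (he' : e'.card = 2) (hye' : y ∈ e') (hes' : e' ⊆ s) :
    ∃ J ⊆ G, ∀ g : Finset α, g.card = 2 → y ∈ g →
      ((edeg J g : ℕ) : ZMod 2) = (if g = e then 1 else 0) + (if g = e' then 1 else 0) := by
  by_cases hne : e = e'
  · subst hne
    refine ⟨∅, empty_subset _, fun g _ _ => ?_⟩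
    rw [edeg_empty, Nat.cast_zero, CharTwo.add_self_eq_zero]
  · refine ⟨{s}, singleton_subset_iff.mpr hs, fun g hg hyg => ?_⟩
    rw [edeg_singleton, ← pair_cases (hG s hs).1 (hG s hs).2 he he' hye hye' hes hes' hne hg hyg]
    split_ifs <;> simp

/-- T-join along a chain of faces at `y` -/
theorem tjoin {y : α} {G : Finset (Finset α)} (hG : ∀ s ∈ G, s.card = 3 ∧ y ∈ s) {s t : Finset α}
    (hs : s ∈ G) (hst : Relation.ReflTransGen (fun a b => a ∈ G ∧ b ∈ G ∧ EAdj a b) s t)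
    {e : Finset α} (he : e.card = 2) (hye : y ∈ e) (hes : e ⊆ s) :
    ∀ e' : Finset α, e'.card = 2 → y ∈ e' → e' ⊆ t →
    ∃ J ⊆ G, ∀ g : Finset α, g.card = 2 → y ∈ g →
      ((edeg J g : ℕ) : ZMod 2) = (if g = e then 1 else 0) + (if g = e' then 1 else 0) := by
  induction hst with
  | refl =>
    intro e' he' hye' hes'
    exact tjoin_one hG hs he hye hes he' hye' hes'
  | @tail u w h4 h5 ih =>
    intro e' he' hye' hes'
    obtain ⟨hu, hw, hadj⟩ := h5
    have hy2 : y ∈ u ∩ w := mem_inter.mpr ⟨(hG u hu).2, (hG w hw).2⟩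
    obtain ⟨J1, hJ1, h6⟩ := ih (u ∩ w) hadj hy2 inter_subset_left
    obtain ⟨J2, hJ2, h7⟩ := tjoin_one hG hw hadj hy2 inter_subset_right he' hye' hes'
    refine ⟨symmDiff J1 J2, ?_, fun g hg hyg => ?_⟩
    · intro v hv
      rw [mem_symmDiff] at hv
      rcases hv with hv | hv
      · exact hJ1 hv.1
      · exact hJ2 hv.1
    · rw [edeg_sd, h6 g hg hyg, h7 g hg hyg]
      generalize (if g = e then (1 : ZMod 2) else 0) = p
      generalize (if g = u ∩ w then (1 : ZMod 2) else 0) = q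
      generalize (if g = e' then (1 : ZMod 2) else 0) = r
      have : q + q = 0 := CharTwo.add_self_eq_zero q
      linear_combination this

/-- in a surface the star of a vertex has no proper nonempty subset even at all pairs of `y` -/
theorem star_all {T : Finset (Finset α)} (hT : IsSurf T) {y : α} {B : Finset (Finset α)}
    (hB : B ⊆ star T y) (hne : B.Nonempty)
    (hev : ∀ g : Finset α, g.card = 2 → y ∈ g → ((edeg B g : ℕ) : ZMod 2) = 0) : B = star T y := by
  obtain ⟨s0, hs0⟩ := hne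
  have hsT := mem_filter.mp (hB hs0)
  have hy : y ∈ verts T := mem_verts.mpr ⟨s0, hsT.1, hsT.2⟩
  have hk := (ncl_eq_one_iff (fun a b => EAdj.symm) (A := star T y) ⟨s0, hB hs0⟩).mp (hT.2.2 y hy)
  have key : ∀ u ∈ B, ∀ w ∈ star T y, EAdj u w → w ∈ B := by
    intro u hu w hw hadj
    by_contra hwB
    have hu' := mem_filter.mp (hB hu)
    have hw' := mem_filter.mp hw
    have h1 := hev (u ∩ w) hadj (mem_inter.mpr ⟨hu'.2, hw'.2⟩)
    rw [ZMod.natCast_eq_zero_iff_even] at h1
    have h3 : 0 < edeg B (u ∩ w) := edeg_pos.mpr ⟨u, hu, inter_subset_left⟩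
    have hBT : B ⊆ T := hB.trans (filter_subset _ _)
    have h4 : edeg B (u ∩ w) < edeg T (u ∩ w) := by
      apply card_lt_card
      rw [ssubset_iff_of_subset (filter_subset_filter _ hBT)]
      exact ⟨w, mem_filter.mpr ⟨hw'.1, inter_subset_right⟩, fun h => hwB (mem_filter.mp h).1⟩
    have h5 : edeg T (u ∩ w) = 2 := hT.2.1.two (mem_edgs.mpr ⟨hadj, w, hw'.1, inter_subset_right⟩)
    rcases h1 with ⟨k, hk⟩
    omega
  apply Subset.antisymm hB
  intro t ht
  have h3 := hk s0 (hB hs0) t ht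
  induction h3 with
  | refl => exact hs0
  | @tail u w h4 h5 ih => exact key u (ih h5.1) w h5.2.1 h5.2.2

/-- the data of a cut-and-cap -/
structure CC (Z C : Finset (Finset α)) (T : Finset (Finset β)) (P : β → Option α)
    (f : Finset α → Finset β) : Prop where
  fam : IsFam Z
  surf : IsSurf T
  f_mem : ∀ s ∈ Z, f s ∈ T ∧ (∀ w ∈ f s, (P w).isSome) ∧ ∀ x, x ∈ s ↔ ∃ w ∈ f s, P w = some x
  f_inj : ∀ s ∈ Z, ∀ t ∈ Z, f s = f t → s = t
  f_surj : ∀ t ∈ T, (∀ w ∈ t, (P w).isSome) → ∃ s ∈ Z, f s = t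
  f_adj : ∀ s ∈ Z, ∀ t ∈ Z, s ≠ t → (EAdj (f s) (f t) ↔ CAdj C s t)
  cap_adj : ∀ t ∈ T, ∀ t' ∈ T, t ≠ t' → (∃ w ∈ t, P w = none) → (∃ w ∈ t', P w = none) →
    EAdj t t' → ∃ w ∈ t ∩ t', P w = none
  one_cap : ∀ t ∈ T, (t.filter (fun w => P w = none)).card ≤ 1
  fib : ∀ x ∈ verts Z, ((verts T).filter (fun w => P w = some x)).card = kapC Z C x
  b0_eq : b0 T = ncl Z (CAdj C)

theorem CAdj.symm {C : Finset (Finset α)} {s t : Finset α} (h : CAdj C s t) : CAdj C t s := by
  unfold CAdj at *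
  rwa [inter_comm]

variable {Z C : Finset (Finset α)} {T : Finset (Finset β)} {P : β → Option α}
  {f : Finset α → Finset β}

theorem CC.img (h : CC Z C T P f) {s : Finset α} (hs : s ∈ Z) : (f s).image P = s.image some := by
  obtain ⟨_, h2, h3⟩ := h.f_mem s hs
  ext o
  rw [mem_image, mem_image]
  constructor
  · rintro ⟨w, hw, rfl⟩
    obtain ⟨x, hx⟩ := Option.isSome_iff_exists.mp (h2 w hw)
    exact ⟨x, (h3 x).mpr ⟨w, hw, hx⟩, hx.symm⟩
  · rintro ⟨x, hx, rfl⟩
    obtain ⟨w, hw, hwx⟩ := (h3 x).mp hx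
    exact ⟨w, hw, hwx⟩

theorem CC.inj_on (h : CC Z C T P f) {s : Finset α} (hs : s ∈ Z) : Set.InjOn P (f s : Set β) := by
  rw [← card_image_iff, h.img hs, card_image_of_injective _ (Option.some_injective _), h.fam s hs,
    h.surf.1 _ (h.f_mem s hs).1]

theorem CC.adj_vx (h : CC Z C T P f) {s t : Finset α} (hs : s ∈ Z) (ht : t ∈ Z) (hst : CAdj C s t)
    {x : α} (hx : x ∈ s ∩ t) {w : β} (hw : w ∈ f s) (hwx : P w = some x) : w ∈ f t := by
  have hne : s ≠ t := by
    intro h1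
    have h2 := hst.1
    rw [h1, inter_self, h.fam t ht] at h2
    omega
  have hadj : EAdj (f s) (f t) := (h.f_adj s hs t ht hne).mpr hst
  have h1 : (f s ∩ f t).image P ⊆ (s ∩ t).image some := by
    intro o ho
    obtain ⟨v, hv, rfl⟩ := mem_image.mp ho
    rw [mem_inter] at hv
    have h2 : P v ∈ s.image some := by rw [← h.img hs]; exact mem_image_of_mem _ hv.1
    have h3 : P v ∈ t.image some := by rw [← h.img ht]; exact mem_image_of_mem _ hv.2
    obtain ⟨a, ha, hav⟩ := mem_image.mp h2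
    obtain ⟨b, hb, hbv⟩ := mem_image.mp h3
    have hab : a = b := Option.some_injective _ (hav.trans hbv.symm)
    rw [← hav]
    exact mem_image_of_mem _ (mem_inter.mpr ⟨ha, hab ▸ hb⟩)
  have h2 : (f s ∩ f t).image P = (s ∩ t).image some := by
    apply eq_of_subset_of_card_le h1
    rw [card_image_of_injective _ (Option.some_injective _), hst.1,
      card_image_of_injOn ((h.inj_on hs).mono (by
        intro v hv
        rw [mem_coe, mem_inter] at hv
        exact hv.1)), hadj]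
  have h3 : some x ∈ (f s ∩ f t).image P := by
    rw [h2]
    exact mem_image_of_mem _ hx
  obtain ⟨v, hv, hvx⟩ := mem_image.mp h3
  rw [mem_inter] at hv
  have h4 : v = w := h.inj_on hs hv.1 hw (hvx.trans hwx.symm)
  rw [← h4]
  exact hv.2

theorem two_faces {T : Finset (Finset β)} (hT : IsSurf T) {t e : Finset β} (ht : t ∈ T)
    (he : e.card = 2) (het : e ⊆ t) : ∃ t' ∈ T, t' ≠ t ∧ e ⊆ t' ∧ EAdj t t' ∧ t ∩ t' = e := by
  have h1 : edeg T e = 2 := hT.2.1.two (mem_edgs.mpr ⟨he, t, ht, het⟩)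
  obtain ⟨t', ht', hne⟩ := exists_mem_ne (s := T.filter (fun s => e ⊆ s)) (by
    have : (T.filter (fun s => e ⊆ s)).card = 2 := h1
    omega) t
  rw [mem_filter] at ht'
  have h2 := inter_pair (hT.1 t ht) (hT.1 t' ht'.1) he het ht'.2 (Ne.symm hne)
  exact ⟨t', ht'.1, hne, ht'.2, by unfold EAdj; rw [h2, he], h2⟩

theorem CC.other (h : CC Z C T P f) {t e : Finset β} (ht : t ∈ T) (hcap : ∃ w ∈ t, P w = none)
    (he : e.card = 2) (het : e ⊆ t) (hu : ∀ w ∈ e, (P w).isSome) :
    ∃ s ∈ Z, e ⊆ f s ∧ EAdj t (f s) := by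
  obtain ⟨t', ht', hne, het', hadj, hint⟩ := two_faces h.surf ht he het
  have h1 : ∀ w ∈ t', (P w).isSome := by
    intro w hw
    by_contra hwn
    have hwn' : P w = none := by
      rw [Bool.not_eq_true, Option.isSome_eq_false_iff, Option.isNone_iff_eq_none] at hwn
      exact hwn
    obtain ⟨v, hv, hvn⟩ := h.cap_adj t ht t' ht' (Ne.symm hne) hcap ⟨w, hw, hwn'⟩ hadj
    rw [hint] at hv
    have := hu v hv
    rw [hvn] at this
    exact absurd this (by simp)
  obtain ⟨s, hs, hst⟩ := h.f_surj t' ht' h1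
  exact ⟨s, hs, by rw [hst]; exact het', by rw [hst]; exact hadj⟩

theorem none_of_not {w : β} (h : ¬ (P w).isSome) : P w = none := by
  rw [Bool.not_eq_true, Option.isSome_eq_false_iff, Option.isNone_iff_eq_none] at h
  exact h

theorem CC.cap_uniq (h : CC Z C T P f) {t : Finset β} (ht : t ∈ T) {w w' : β} (hw : w ∈ t)
    (hw' : w' ∈ t) (hn : P w = none) (hn' : P w' = none) : w = w' := by
  have h1 := card_le_one.mp (h.one_cap t ht)
  exact h1 w (mem_filter.mpr ⟨hw, hn⟩) w' (mem_filter.mpr ⟨hw', hn'⟩)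

theorem CC.erase_unc (h : CC Z C T P f) {t : Finset β} (ht : t ∈ T) {w : β} (hw : w ∈ t)
    (hn : P w = none) : ∀ v ∈ t.erase w, (P v).isSome := by
  intro v hv
  rw [mem_erase] at hv
  by_contra hvn
  exact hv.1 (h.cap_uniq ht hv.2 hw (none_of_not hvn) hn)

theorem CC.in_lift (h : CC Z C T P f) {y : β} (hy : y ∈ verts T) (hP : (P y).isSome) :
    ∃ s ∈ Z, y ∈ f s := by
  obtain ⟨t, ht, hyt⟩ := mem_verts.mp hy
  by_cases hc : ∃ w ∈ t, P w = none
  · obtain ⟨w, hw, hn⟩ := hc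
    have hyw : y ≠ w := by
      rintro rfl
      rw [hn] at hP
      exact absurd hP (by simp)
    obtain ⟨s, hs, hes, _⟩ := h.other ht ⟨w, hw, hn⟩ (e := t.erase w)
      (by rw [card_erase_of_mem hw, h.surf.1 t ht]) (erase_subset _ _) (h.erase_unc ht hw hn)
    exact ⟨s, hs, hes (mem_erase.mpr ⟨hyw, hyt⟩)⟩
  · push Not at hc
    obtain ⟨s, hs, hst⟩ := h.f_surj t ht (fun w hw => by
      rw [Option.isSome_iff_ne_none]
      exact hc w hw)
    exact ⟨s, hs, by rw [hst]; exact hyt⟩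

theorem CC.classes (h : CC Z C T P f) {y : β} {x : α} (hyx : P y = some x) {s t : Finset α}
    (hs : s ∈ Z) (ht : t ∈ Z) (hys : y ∈ f s) (hyt : y ∈ f t) :
    Relation.ReflTransGen (fun a b => a ∈ star Z x ∧ b ∈ star Z x ∧ CAdj C a b) s t := by
  classical
  have hxs : x ∈ s := ((h.f_mem s hs).2.2 x).mpr ⟨y, hys, hyx⟩
  have hxt : x ∈ t := ((h.f_mem t ht).2.2 x).mpr ⟨y, hyt, hyx⟩
  have hsx : s ∈ star Z x := mem_filter.mpr ⟨hs, hxs⟩
  have htx : t ∈ star Z x := mem_filter.mpr ⟨ht, hxt⟩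
  have hex : ∀ u : {u // u ∈ star Z x}, ∃ w ∈ f u.1, P w = some x := by
    intro u
    have hu := mem_filter.mp u.2
    exact ((h.f_mem u.1 hu.1).2.2 x).mp hu.2
  choose g hg hgx using hex
  have hgv : ∀ u : {u // u ∈ star Z x}, g u ∈ (verts T).filter (fun w => P w = some x) := by
    intro u
    have hu := mem_filter.mp u.2
    exact mem_filter.mpr ⟨mem_verts.mpr ⟨f u.1, (h.f_mem u.1 hu.1).1, hg u⟩, hgx u⟩
  let Φ : Quot (fun a b : {u // u ∈ star Z x} => CAdj C a.1 b.1) →
      {w // w ∈ (verts T).filter (fun w => P w = some x)} :=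
    Quot.lift (fun u => ⟨g u, hgv u⟩) (by
      intro u v huv
      have hu := mem_filter.mp u.2
      have hv := mem_filter.mp v.2
      have h1 : g u ∈ f v.1 := h.adj_vx hu.1 hv.1 huv (mem_inter.mpr ⟨hu.2, hv.2⟩) (hg u) (hgx u)
      have h2 : g u = g v := h.inj_on hv.1 h1 (hg v) ((hgx u).trans (hgx v).symm)
      exact Subtype.ext h2)
  have hΦ : Function.Surjective Φ := by
    rintro ⟨w, hw⟩
    rw [mem_filter] at hw
    obtain ⟨u, hu, hwu⟩ := h.in_lift hw.1 (by rw [hw.2]; simp)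
    have hxu : x ∈ u := ((h.f_mem u hu).2.2 x).mpr ⟨w, hwu, hw.2⟩
    refine ⟨Quot.mk _ ⟨u, mem_filter.mpr ⟨hu, hxu⟩⟩, ?_⟩
    apply Subtype.ext
    exact h.inj_on hu (hg _) hwu ((hgx _).trans hw.2.symm)
  have hfin : Finite (Quot (fun a b : {u // u ∈ star Z x} => CAdj C a.1 b.1)) := ncl_finite
  have hbij : Function.Bijective Φ := by
    apply hΦ.bijective_of_nat_card_le
    have h1 := h.fib x (mem_verts.mpr ⟨s, hs, hxs⟩)
    rw [Nat.card_eq_fintype_card (α := {w // w ∈ (verts T).filter (fun w => P w = some x)}),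
      Fintype.card_coe, h1]
    exact le_refl _
  have h1 : Φ (Quot.mk _ ⟨s, hsx⟩) = Φ (Quot.mk _ ⟨t, htx⟩) := by
    apply Subtype.ext
    have h2 : g ⟨s, hsx⟩ = y := h.inj_on hs (hg ⟨s, hsx⟩) hys ((hgx _).trans hyx.symm)
    have h3 : g ⟨t, htx⟩ = y := h.inj_on ht (hg ⟨t, htx⟩) hyt ((hgx _).trans hyx.symm)
    show g ⟨s, hsx⟩ = g ⟨t, htx⟩
    rw [h2, h3]
  exact (quot_eq_iff (fun a b hab => CAdj.symm hab) ⟨s, hsx⟩ ⟨t, htx⟩).mp (hbij.1 h1)

/-- lifted faces at `y` -/
noncomputable def lft (T : Finset (Finset β)) (P : β → Option α) (y : β) : Finset (Finset β) :=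
  (star T y).filter (fun t => ∀ w ∈ t, (P w).isSome)

theorem CC.lift_chain (h : CC Z C T P f) {y : β} {x : α} (hyx : P y = some x) {s t : Finset α}
    (hs : s ∈ Z) (ht : t ∈ Z) (hys : y ∈ f s) (hyt : y ∈ f t) :
    Relation.ReflTransGen (fun a b => a ∈ lft T P y ∧ b ∈ lft T P y ∧ EAdj a b) (f s) (f t) := by
  have h1 := h.classes hyx hs ht hys hyt
  have key : ∀ u, Relation.ReflTransGen (fun a b => a ∈ star Z x ∧ b ∈ star Z x ∧ CAdj C a b) s u →
      y ∈ f u ∧ Relation.ReflTransGen (fun a b => a ∈ lft T P y ∧ b ∈ lft T P y ∧ EAdj a b) (f s) (f u) := by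
    intro u hu
    induction hu with
    | refl => exact ⟨hys, Relation.ReflTransGen.refl⟩
    | @tail u w h4 h5 ih =>
      obtain ⟨hu, hw, hadj⟩ := h5
      rw [star, mem_filter] at hu hw
      have hyw : y ∈ f w :=
        h.adj_vx hu.1 hw.1 hadj (mem_inter.mpr ⟨hu.2, hw.2⟩) ih.1 hyx
      refine ⟨hyw, ih.2.tail ⟨?_, ?_, ?_⟩⟩
      · exact mem_filter.mpr ⟨mem_filter.mpr ⟨(h.f_mem u hu.1).1, ih.1⟩, (h.f_mem u hu.1).2.1⟩
      · exact mem_filter.mpr ⟨mem_filter.mpr ⟨(h.f_mem w hw.1).1, hyw⟩, (h.f_mem w hw.1).2.1⟩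
      · have hne : u ≠ w := by
          intro h1
          have h2 := hadj.1
          rw [h1, inter_self, h.fam w hw.1] at h2
          omega
        exact (h.f_adj u hu.1 w hw.1 hne).mpr hadj
  exact (key t h1).2

/-- (L): a vertex that is not a cap has at most one cap neighbour -/
theorem CC.one_nbr (h : CC Z C T P f) {y w1 w2 : β} (hy : (P y).isSome) (h1 : P w1 = none)
    (h2 : P w2 = none) (he1 : ({y, w1} : Finset β) ∈ edgs T) (he2 : ({y, w2} : Finset β) ∈ edgs T) :
    w1 = w2 := by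
  by_contra hne
  obtain ⟨x, hyx⟩ := Option.isSome_iff_exists.mp hy
  have hyw1 : y ≠ w1 := by
    rintro rfl
    rw [h1] at hy
    exact absurd hy (by simp)
  obtain ⟨hc1, t1, ht1, hsub1⟩ := mem_edgs.mp he1
  obtain ⟨hc2, t2, ht2, hsub2⟩ := mem_edgs.mp he2
  have hyt1 : y ∈ t1 := hsub1 (mem_insert_self _ _)
  have hwt1 : w1 ∈ t1 := hsub1 (mem_insert_of_mem (mem_singleton_self _))
  have hyt2 : y ∈ t2 := hsub2 (mem_insert_self _ _)
  have hwt2 : w2 ∈ t2 := hsub2 (mem_insert_of_mem (mem_singleton_self _))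
  obtain ⟨t1', ht1', hne1, hsub1', hadj1, hint1⟩ := two_faces h.surf ht1 hc1 hsub1
  have hyt1' : y ∈ t1' := hsub1' (mem_insert_self _ _)
  have hwt1' : w1 ∈ t1' := hsub1' (mem_insert_of_mem (mem_singleton_self _))
  have hce : (t1.erase w1).card = 2 := by rw [card_erase_of_mem hwt1, h.surf.1 t1 ht1]
  have hce' : (t1'.erase w1).card = 2 := by rw [card_erase_of_mem hwt1', h.surf.1 t1' ht1']
  have hye : y ∈ t1.erase w1 := mem_erase.mpr ⟨hyw1, hyt1⟩
  have hye' : y ∈ t1'.erase w1 := mem_erase.mpr ⟨hyw1, hyt1'⟩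
  obtain ⟨s1, hs1, hes1, _⟩ := h.other ht1 ⟨w1, hwt1, h1⟩ hce (erase_subset _ _)
    (h.erase_unc ht1 hwt1 h1)
  obtain ⟨s1', hs1', hes1', _⟩ := h.other ht1' ⟨w1, hwt1', h1⟩ hce' (erase_subset _ _)
    (h.erase_unc ht1' hwt1' h1)
  have hchain := h.lift_chain hyx hs1 hs1' (hes1 hye) (hes1' hye')
  have hG : ∀ s ∈ lft T P y, s.card = 3 ∧ y ∈ s := by
    intro s hs
    unfold lft star at hs
    rw [mem_filter, mem_filter] at hs
    exact ⟨h.surf.1 s hs.1.1, hs.1.2⟩
  have hcapG : ∀ t : Finset β, ∀ w ∈ t, P w = none → t ∉ lft T P y := by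
    intro t w hw hn ht
    have := (mem_filter.mp ht).2 w hw
    rw [hn] at this
    exact absurd this (by simp)
  have hs1G : f s1 ∈ lft T P y :=
    mem_filter.mpr ⟨mem_filter.mpr ⟨(h.f_mem s1 hs1).1, hes1 hye⟩, (h.f_mem s1 hs1).2.1⟩
  obtain ⟨J, hJ, hJd⟩ := tjoin hG hs1G hchain hce hye hes1 _ hce' hye' hes1'
  set B := symmDiff J {t1, t1'} with hB
  have hBs : B ⊆ star T y := by
    intro v hv
    rw [hB, mem_symmDiff] at hv
    rcases hv with hv | hv
    · exact (mem_filter.mp (hJ hv.1)).1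
    · have := hv.1
      rw [mem_insert, mem_singleton] at this
      rcases this with rfl | rfl
      · exact mem_filter.mpr ⟨ht1, hyt1⟩
      · exact mem_filter.mpr ⟨ht1', hyt1'⟩
  have ht1B : t1 ∈ B := by
    rw [hB, mem_symmDiff]
    right
    exact ⟨mem_insert_self _ _, fun hh => hcapG t1 w1 hwt1 h1 (hJ hh)⟩
  have hpair : ∀ g : Finset β, ((edeg ({t1, t1'} : Finset (Finset β)) g : ℕ) : ZMod 2)
      = (if g ⊆ t1 then 1 else 0) + (if g ⊆ t1' then 1 else 0) := by
    intro g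
    have h3 : ({t1, t1'} : Finset (Finset β)) = symmDiff {t1} {t1'} := by
      ext v
      rw [mem_symmDiff, mem_insert, mem_singleton, mem_singleton]
      constructor
      · rintro (rfl | rfl)
        · left; exact ⟨rfl, Ne.symm hne1⟩
        · right; exact ⟨rfl, hne1⟩
      · rintro (h | h)
        · left; exact h.1
        · right; exact h.1
    rw [h3, edeg_sd, edeg_singleton, edeg_singleton]
    push_cast
    rfl
  have hnw : ∀ t : Finset β, ({y, w1} : Finset β) ≠ t.erase w1 := by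
    intro t h3
    have : w1 ∈ ({y, w1} : Finset β) := mem_insert_of_mem (mem_singleton_self _)
    rw [h3] at this
    exact (notMem_erase w1 t) this
  have hev : ∀ g : Finset β, g.card = 2 → y ∈ g → ((edeg B g : ℕ) : ZMod 2) = 0 := by
    intro g hg hyg
    rw [hB, edeg_sd, hJd g hg hyg, hpair,
      pair_cases (h.surf.1 t1 ht1) hyt1 hc1 hce (mem_insert_self _ _) hye hsub1 (erase_subset _ _)
        (hnw t1) hg hyg,
      pair_cases (h.surf.1 t1' ht1') hyt1' hc1 hce' (mem_insert_self _ _) hye' hsub1'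
        (erase_subset _ _) (hnw t1') hg hyg]
    generalize (if g = ({y, w1} : Finset β) then (1 : ZMod 2) else 0) = p
    generalize (if g = t1.erase w1 then (1 : ZMod 2) else 0) = q
    generalize (if g = t1'.erase w1 then (1 : ZMod 2) else 0) = r
    revert p q r
    decide
  have hall := star_all h.surf hBs ⟨t1, ht1B⟩ hev
  have ht2B : t2 ∈ B := by
    rw [hall]
    exact mem_filter.mpr ⟨ht2, hyt2⟩
  rw [hB, mem_symmDiff] at ht2B
  rcases ht2B with h3 | h3
  · exact hcapG t2 w2 hwt2 h2 (hJ h3.1)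
  · have := h3.1
    rw [mem_insert, mem_singleton] at this
    rcases this with rfl | rfl
    · exact hne (h.cap_uniq ht2 hwt1 hwt2 h1 h2)
    · exact hne (h.cap_uniq ht2 hwt1' hwt2 h1 h2)

/-- removing the pairs at `w` from an even set by faces at `w` -/
theorem clean_at {T : Finset (Finset β)} (hT : IsSurf T) {w : β} {A : Finset (Finset β)}
    (hA : EvenSet A) (hAT : ∀ e ∈ A, e ∈ edgs T) :
    ∃ J ⊆ star T w, ∀ g : Finset β, g.card = 2 → w ∈ g →
      ((edeg J g : ℕ) : ZMod 2) = if g ∈ A then 1 else 0 := by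
  by_cases hemp : A.filter (fun e => w ∈ e) = ∅
  · refine ⟨∅, empty_subset _, fun g hg hwg => ?_⟩
    rw [if_neg, edeg_empty, Nat.cast_zero]
    intro hgA
    have : g ∈ A.filter (fun e => w ∈ e) := mem_filter.mpr ⟨hgA, hwg⟩
    rw [hemp] at this
    exact notMem_empty _ this
  obtain ⟨e0, he0⟩ := nonempty_iff_ne_empty.mpr hemp
  have he0' := mem_filter.mp he0
  have hG : ∀ s ∈ star T w, s.card = 3 ∧ w ∈ s := by
    intro s hs
    have := mem_filter.mp hs
    exact ⟨hT.1 s this.1, this.2⟩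
  have hface : ∀ e ∈ A, w ∈ e → ∃ s ∈ star T w, e ⊆ s := by
    intro e he hwe
    obtain ⟨_, s, hs, hes⟩ := mem_edgs.mp (hAT e he)
    exact ⟨s, mem_filter.mpr ⟨hs, hes hwe⟩, hes⟩
  obtain ⟨s0, hs0, hes0⟩ := hface e0 he0'.1 he0'.2
  have hwv : w ∈ verts T := mem_verts.mpr ⟨s0, (mem_filter.mp hs0).1, (mem_filter.mp hs0).2⟩
  have hk := (ncl_eq_one_iff (fun a b => EAdj.symm) (A := star T w) ⟨s0, hs0⟩).mp (hT.2.2 w hwv)
  have main : ∀ A2 ⊆ A.filter (fun e => w ∈ e), ∃ J ⊆ star T w, ∀ g : Finset β, g.card = 2 → w ∈ g →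
      ((edeg J g : ℕ) : ZMod 2) = (if g ∈ A2 then 1 else 0)
        + ((A2.card : ℕ) : ZMod 2) * (if g = e0 then 1 else 0) := by
    intro A2
    induction A2 using Finset.induction_on with
    | empty =>
      intro _
      refine ⟨∅, empty_subset _, fun g _ _ => ?_⟩
      rw [if_neg (notMem_empty _), edeg_empty]
      simp
    | insert e A2 he ih =>
      intro hsub
      obtain ⟨J1, hJ1, h1⟩ := ih ((subset_insert _ _).trans hsub)
      have heA := mem_filter.mp (hsub (mem_insert_self _ _))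
      obtain ⟨s, hs, hes⟩ := hface e heA.1 heA.2
      obtain ⟨J2, hJ2, h2⟩ := tjoin hG hs (hk s hs s0 hs0) (hA.1 e heA.1) heA.2 hes e0
        (hA.1 e0 he0'.1) he0'.2 hes0
      refine ⟨symmDiff J1 J2, ?_, fun g hg hwg => ?_⟩
      · intro v hv
        rw [mem_symmDiff] at hv
        rcases hv with hv | hv
        · exact hJ1 hv.1
        · exact hJ2 hv.1
      · rw [edeg_sd, h1 g hg hwg, h2 g hg hwg, card_insert_of_notMem he]
        have h3 : (if g ∈ insert e A2 then (1 : ZMod 2) else 0)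
            = (if g ∈ A2 then 1 else 0) + (if g = e then 1 else 0) := by
          by_cases h4 : g = e
          · subst h4
            rw [if_pos (mem_insert_self _ _), if_neg he, if_pos rfl, zero_add]
          · by_cases h5 : g ∈ A2
            · rw [if_pos (mem_insert_of_mem h5), if_pos h5, if_neg h4, add_zero]
            · rw [if_neg, if_neg h5, if_neg h4, add_zero]
              rw [mem_insert]
              rintro (h6 | h6)
              · exact h4 h6
              · exact h5 h6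
        rw [h3]
        push_cast
        ring
  obtain ⟨J, hJ, h1⟩ := main _ (Subset.refl _)
  refine ⟨J, hJ, fun g hg hwg => ?_⟩
  rw [h1 g hg hwg]
  have h2 : (((A.filter (fun e => w ∈ e)).card : ℕ) : ZMod 2) = 0 := by
    rw [ZMod.natCast_eq_zero_iff_even]
    exact hA.2 w
  rw [h2, zero_mul, add_zero]
  congr 1
  rw [mem_filter]
  simp [hwg]

theorem bdF_sub_edgs {K J : Finset (Finset β)} (h : J ⊆ K) : bdF J ⊆ edgs K :=
  bdF_subset.trans (edgs_mono h)

theorem sd_subset {γ : Type*} [DecidableEq γ] {A B K : Finset γ} (hA : A ⊆ K) (hB : B ⊆ K) :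
    symmDiff A B ⊆ K := by
  intro v hv
  rw [mem_symmDiff] at hv
  rcases hv with hv | hv
  · exact hA hv.1
  · exact hB hv.1

/-- a dual component of a surface contains the full star of each of its vertices -/
theorem star_sub {T K : Finset (Finset β)} (hT : IsSurf T) (hK : K ⊆ T)
    (hKc : ∀ s ∈ K, ∀ t ∈ T, EAdj s t → t ∈ K) {w : β} (hw : w ∈ verts K) : star T w ⊆ K := by
  obtain ⟨s0, hs0, hws0⟩ := mem_verts.mp hw
  have hs0T : s0 ∈ star T w := mem_filter.mpr ⟨hK hs0, hws0⟩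
  have hwv : w ∈ verts T := mem_verts.mpr ⟨s0, hK hs0, hws0⟩
  have hk := (ncl_eq_one_iff (fun a b => EAdj.symm) (A := star T w) ⟨s0, hs0T⟩).mp (hT.2.2 w hwv)
  intro t ht
  have h3 := hk s0 hs0T t ht
  clear ht
  induction h3 with
  | refl => exact hs0
  | @tail u v h4 h5 ih => exact hKc u ih v (mem_filter.mp h5.2.1).1 h5.2.2

theorem comp_closed {T K : Finset (Finset β)} (hT : IsSurf T) (hK : K ⊆ T)
    (hKc : ∀ s ∈ K, ∀ t ∈ T, EAdj s t → t ∈ K) : Closed K := by
  intro e he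
  by_cases h0 : edeg K e = 0
  · left; exact h0
  right
  obtain ⟨s, hs, hes⟩ := edeg_pos.mp (Nat.pos_of_ne_zero h0)
  have h1 : edeg T e = 2 := hT.2.1.two (mem_edgs.mpr ⟨he, s, hK hs, hes⟩)
  rw [← h1]
  unfold edeg
  congr 1
  apply Subset.antisymm (filter_subset_filter _ hK)
  intro t ht
  rw [mem_filter] at ht ⊢
  refine ⟨?_, ht.2⟩
  by_cases hst : s = t
  · rw [← hst]; exact hs
  · apply hKc s hs t ht.1
    unfold EAdj
    rw [inter_pair (hT.1 s (hK hs)) (hT.1 t ht.1) he hes ht.2 hst, he]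

theorem CC.clean_all (h : CC Z C T P f) {K : Finset (Finset β)} (hK : K ⊆ T)
    (hKc : ∀ s ∈ K, ∀ t ∈ T, EAdj s t → t ∈ K) {A : Finset (Finset β)} (hA : EvenSet A)
    (hAK : A ⊆ edgs K) (Wc : Finset β) :
    (∀ w ∈ Wc, P w = none ∧ w ∈ verts K) →
    ∃ J ⊆ K, ∀ g ∈ symmDiff A (bdF J), ∀ w ∈ Wc, w ∉ g := by
  have hKf : IsFam K := fun s hs => h.surf.1 s (hK hs)
  induction Wc using Finset.induction_on with
  | empty =>
    intro _
    exact ⟨∅, empty_subset _, fun g _ w hw => absurd hw (notMem_empty _)⟩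
  | insert w Wc hw ih =>
    intro hWc
    obtain ⟨J, hJ, h1⟩ := ih (fun v hv => hWc v (mem_insert_of_mem hv))
    have hJf : IsFam J := fun s hs => hKf s (hJ hs)
    have hA1 : EvenSet (symmDiff A (bdF J)) := hA.symmDiff (bdF_even hJf)
    have hA1K : symmDiff A (bdF J) ⊆ edgs K := sd_subset hAK (bdF_sub_edgs hJ)
    obtain ⟨J', hJ', h2⟩ := clean_at h.surf (w := w) hA1 (fun e he => edgs_mono hK (hA1K he))
    obtain ⟨hwn, hwK⟩ := hWc w (mem_insert_self _ _)
    have hJ'K : J' ⊆ K := hJ'.trans (star_sub h.surf hK hKc hwK)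
    refine ⟨symmDiff J J', sd_subset hJ hJ'K, ?_⟩
    have h3 : symmDiff A (bdF (symmDiff J J')) = symmDiff (symmDiff A (bdF J)) (bdF J') := by
      rw [bdF_symmDiff, symmDiff_assoc]
    rw [h3]
    intro g hg
    have hgK : g ∈ edgs K := sd_subset hA1K (bdF_sub_edgs hJ'K) hg
    have hg2 : g.card = 2 := (mem_edgs.mp hgK).1
    have hwg : w ∉ g := by
      intro hwg
      have h4 := h2 g hg2 hwg
      rw [mem_symmDiff] at hg
      rcases hg with ⟨hg1, hg3⟩ | ⟨hg1, hg3⟩
      · rw [if_pos hg1] at h4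
        exact hg3 (mem_bdF1.mpr ⟨hg2, h4⟩)
      · rw [if_neg hg3] at h4
        have h5 := (mem_bdF1.mp hg1).2
        rw [h4] at h5
        exact zero_ne_one h5
    intro v hv
    rw [mem_insert] at hv
    rcases hv with rfl | hv
    · exact hwg
    intro hvg
    rw [mem_symmDiff] at hg
    rcases hg with ⟨hg1, _⟩ | ⟨hg1, _⟩
    · exact h1 g hg1 v hv hvg
    · obtain ⟨t, ht, hgt⟩ := edeg_pos.mp (mem_bdF.mp hg1).2.pos
      have ht' := mem_filter.mp (hJ' ht)
      have h4 : v = w := h.cap_uniq ht'.1 (hgt hvg) ht'.2 (hWc v (mem_insert_of_mem hv)).1 hwn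
      rw [h4] at hv
      exact hw hv

/-- projection of a pair -/
noncomputable def pr (P : β → Option α) (e : Finset β) : Finset α := (e.image P).eraseNone

theorem mem_pr {e : Finset β} {x : α} : x ∈ pr P e ↔ ∃ w ∈ e, P w = some x := by
  unfold pr
  rw [mem_eraseNone, mem_image]

theorem CC.pr_sub (h : CC Z C T P f) {s : Finset α} (hs : s ∈ Z) {e : Finset β} (hes : e ⊆ f s) :
    pr P e ⊆ s := by
  intro x hx
  obtain ⟨w, hw, hwx⟩ := mem_pr.mp hx
  exact ((h.f_mem s hs).2.2 x).mpr ⟨w, hes hw, hwx⟩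

theorem CC.pr_card (h : CC Z C T P f) {s : Finset α} (hs : s ∈ Z) {e : Finset β} (hes : e ⊆ f s) :
    (pr P e).card = e.card := by
  have h1 : (pr P e).image some = e.image P := by
    ext o
    rw [mem_image, mem_image]
    constructor
    · rintro ⟨x, hx, rfl⟩
      obtain ⟨w, hw, hwx⟩ := mem_pr.mp hx
      exact ⟨w, hw, hwx⟩
    · rintro ⟨w, hw, rfl⟩
      obtain ⟨x, hx⟩ := Option.isSome_iff_exists.mp ((h.f_mem s hs).2.1 w (hes hw))
      exact ⟨x, mem_pr.mpr ⟨w, hw, hx⟩, hx.symm⟩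
  have h2 : ((pr P e).image some).card = (pr P e).card :=
    card_image_of_injective _ (Option.some_injective _)
  rw [← h2, h1, card_image_of_injOn ((h.inj_on hs).mono (by
    intro v hv
    exact hes hv))]

theorem CC.pr_inj (h : CC Z C T P f) {s : Finset α} (hs : s ∈ Z) {e e' : Finset β} (hes : e ⊆ f s)
    (hes' : e' ⊆ f s) (hpr : pr P e = pr P e') : e = e' := by
  have key : ∀ e e' : Finset β, e ⊆ f s → e' ⊆ f s → pr P e = pr P e' → e ⊆ e' := by
    intro e e' hes hes' hpr w hw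
    obtain ⟨x, hx⟩ := Option.isSome_iff_exists.mp ((h.f_mem s hs).2.1 w (hes hw))
    have h1 : x ∈ pr P e' := by
      rw [← hpr]
      exact mem_pr.mpr ⟨w, hw, hx⟩
    obtain ⟨w', hw', hx'⟩ := mem_pr.mp h1
    have h2 : w = w' := h.inj_on hs (hes hw) (hes' hw') (hx.trans hx'.symm)
    rw [h2]
    exact hw'
  exact Subset.antisymm (key e e' hes hes' hpr) (key e' e hes' hes hpr.symm)

/-- an uncapped pair of a dual component lies in a lifted face of the component -/
theorem CC.unc_lift (h : CC Z C T P f) {K : Finset (Finset β)} (hK : K ⊆ T)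
    (hKc : ∀ s ∈ K, ∀ t ∈ T, EAdj s t → t ∈ K) {g : Finset β} (hg : g ∈ edgs K)
    (hu : ∀ w ∈ g, (P w).isSome) : ∃ s ∈ Z, f s ∈ K ∧ g ⊆ f s := by
  obtain ⟨hg2, t, ht, hgt⟩ := mem_edgs.mp hg
  by_cases hc : ∃ w ∈ t, P w = none
  · obtain ⟨s, hs, hgs, hadj⟩ := h.other (hK ht) hc hg2 hgt hu
    exact ⟨s, hs, hKc t ht _ (h.f_mem s hs).1 hadj, hgs⟩
  · push Not at hc
    obtain ⟨s, hs, hst⟩ := h.f_surj t (hK ht) (fun w hw => by
      rw [Option.isSome_iff_ne_none]
      exact hc w hw)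
    exact ⟨s, hs, by rw [hst]; exact ht, by rw [hst]; exact hgt⟩

/-- the projected set of pairs -/
noncomputable def prA (Z : Finset (Finset α)) (P : β → Option α) (f : Finset α → Finset β)
    (K : Finset (Finset β)) (A : Finset (Finset β)) : Finset (Finset α) :=
  (edgs (Z.filter (fun s => f s ∈ K))).filter (fun e0 => Odd ((A.filter (fun e => pr P e = e0)).card))

theorem CC.prA_even (h : CC Z C T P f) {K : Finset (Finset β)} (hK : K ⊆ T)
    (hKc : ∀ s ∈ K, ∀ t ∈ T, EAdj s t → t ∈ K) {A : Finset (Finset β)} (hA : EvenSet A)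
    (hAK : A ⊆ edgs K) (hu : ∀ g ∈ A, ∀ w ∈ g, (P w).isSome) : EvenSet (prA Z P f K A) := by
  refine ⟨fun e he => (mem_edgs.mp (mem_filter.mp he).1).1, fun x => ?_⟩
  have h1 : (prA Z P f K A).filter (fun e => x ∈ e)
      = ((edgs (Z.filter (fun s => f s ∈ K))).filter (fun e => x ∈ e)).filter
        (fun e0 => Odd ((A.filter (fun e => pr P e = e0)).card)) := by
    unfold prA
    rw [filter_filter, filter_filter]
    apply filter_congr
    intro e _
    tauto
  rw [h1, card_odd_parity]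
  have h2 : ∑ e0 ∈ (edgs (Z.filter (fun s => f s ∈ K))).filter (fun e => x ∈ e),
      (A.filter (fun e => pr P e = e0)).card = (A.filter (fun e => x ∈ pr P e)).card := by
    rw [card_eq_sum_card_fiberwise (f := fun e => pr P e)
      (t := (edgs (Z.filter (fun s => f s ∈ K))).filter (fun e => x ∈ e))]
    · apply sum_congr rfl
      intro e0 he0
      congr 1
      rw [filter_filter]
      apply filter_congr
      intro e _
      constructor
      · intro h3
        exact ⟨by rw [h3]; exact (mem_filter.mp he0).2, h3⟩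
      · exact fun h3 => h3.2
    · intro e he
      have he' := mem_filter.mp he
      obtain ⟨s, hs, hsK, hes⟩ := h.unc_lift hK hKc (hAK he'.1) (hu e he'.1)
      refine mem_coe.mpr (mem_filter.mpr ⟨mem_edgs.mpr ⟨?_, s, mem_filter.mpr ⟨hs, hsK⟩, h.pr_sub hs hes⟩, he'.2⟩)
      rw [h.pr_card hs hes]
      exact hA.1 e he'.1
  rw [h2]
  have h3 : (A.filter (fun e => x ∈ pr P e)).card
      = ∑ w ∈ (verts K).filter (fun w => P w = some x), (A.filter (fun e => w ∈ e)).card := by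
    rw [dcount ((verts K).filter (fun w => P w = some x)) A (fun w e => w ∈ e), card_filter]
    apply sum_congr rfl
    intro e he
    obtain ⟨s, hs, hsK, hes⟩ := h.unc_lift hK hKc (hAK he) (hu e he)
    have h4 : (((verts K).filter (fun w => P w = some x)).filter (fun w => w ∈ e))
        = e.filter (fun w => P w = some x) := by
      ext w
      rw [mem_filter, mem_filter, mem_filter]
      constructor
      · rintro ⟨⟨_, h5⟩, h6⟩; exact ⟨h6, h5⟩
      · rintro ⟨h6, h5⟩
        exact ⟨⟨mem_verts.mpr ⟨f s, hsK, hes h6⟩, h5⟩, h6⟩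
    rw [h4]
    split_ifs with h5
    · obtain ⟨w, hw, hwx⟩ := mem_pr.mp h5
      symm
      rw [card_eq_one]
      refine ⟨w, ?_⟩
      ext v
      rw [mem_filter, mem_singleton]
      constructor
      · rintro ⟨hv, hvx⟩
        exact h.inj_on hs (hes hv) (hes hw) (hvx.trans hwx.symm)
      · rintro rfl
        exact ⟨hw, hwx⟩
    · symm
      rw [card_eq_zero, filter_eq_empty_iff]
      intro w hw hwx
      exact h5 (mem_pr.mpr ⟨w, hw, hwx⟩)
  rw [h3]
  exact even_sum _ (fun w _ => hA.2 w)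

/-- after subtracting the lifted filling, only free sides remain -/
theorem CC.free_only (h : CC Z C T P f) (hZc : Closed Z) {K : Finset (Finset β)} (hK : K ⊆ T)
    (hKc : ∀ s ∈ K, ∀ t ∈ T, EAdj s t → t ∈ K) {A : Finset (Finset β)}
    (hAK : A ⊆ edgs K) (hu : ∀ g ∈ A, ∀ w ∈ g, (P w).isSome) {B : Finset (Finset α)} (hB : B ⊆ Z)
    (hbd : bdF B = prA Z P f K A) {g : Finset β}
    (hg : g ∈ symmDiff A (bdF ((B.filter (fun s => f s ∈ K)).image f))) :
    (∀ w ∈ g, (P w).isSome) ∧ ∃ t ∈ K, (∃ w ∈ t, P w = none) ∧ g ⊆ t := by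
  set F1 := (B.filter (fun s => f s ∈ K)).image f with hF1
  have hF1K : F1 ⊆ K := by
    intro t ht
    obtain ⟨s, hs, rfl⟩ := mem_image.mp ht
    exact (mem_filter.mp hs).2
  have hgK : g ∈ edgs K := sd_subset hAK (bdF_sub_edgs hF1K) hg
  have hg2 : g.card = 2 := (mem_edgs.mp hgK).1
  have hgu : ∀ w ∈ g, (P w).isSome := by
    rw [mem_symmDiff] at hg
    rcases hg with hg | hg
    · exact hu g hg.1
    · obtain ⟨t, ht, hgt⟩ := edeg_pos.mp (mem_bdF.mp hg.1).2.pos
      obtain ⟨s, hs, rfl⟩ := mem_image.mp ht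
      exact fun w hw => (h.f_mem s (hB (mem_filter.mp hs).1)).2.1 w (hgt hw)
  refine ⟨hgu, ?_⟩
  by_contra hno
  push Not at hno
  -- the two faces at `g` are lifted
  obtain ⟨s, hs, hsK, hgs⟩ := h.unc_lift hK hKc hgK hgu
  obtain ⟨t', ht', hne, hgt', hadj, hint⟩ := two_faces h.surf (hK hsK) hg2 hgs
  have ht'K : t' ∈ K := hKc _ hsK t' ht' hadj
  obtain ⟨t, ht, rfl⟩ := h.f_surj t' ht' (fun w hw => by
    by_contra hwn
    exact hno t' ht'K ⟨w, hw, none_of_not hwn⟩ hgt')
  have hst : s ≠ t := by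
    rintro rfl
    exact hne rfl
  have hcadj := (h.f_adj s hs t ht hst).mp hadj
  have hpr : pr P g = s ∩ t := by
    apply eq_of_subset_of_card_le
    · exact subset_inter (h.pr_sub hs hgs) (h.pr_sub ht hgt')
    · rw [hcadj.1, h.pr_card hs hgs, hg2]
  have he0E : s ∩ t ∈ edgs Z := mem_edgs.mpr ⟨hcadj.1, s, hs, inter_subset_left⟩
  have hstar : Z.filter (fun u => s ∩ t ⊆ u) = {s, t} := by
    symm
    apply eq_of_subset_of_card_le
    · intro u hu
      rw [mem_insert, mem_singleton] at hu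
      rw [mem_filter]
      rcases hu with rfl | rfl
      · exact ⟨hs, inter_subset_left⟩
      · exact ⟨ht, inter_subset_right⟩
    · rw [card_pair hst]
      exact le_of_eq (hZc.two he0E)
  -- preimages of the pair in `A`
  have hpre : ((A.filter (fun e => pr P e = s ∩ t)).card) = if g ∈ A then 1 else 0 := by
    have h1 : ∀ e ∈ A, pr P e = s ∩ t → e = g := by
      intro e he hpe
      obtain ⟨s', hs', hs'K, hes'⟩ := h.unc_lift hK hKc (hAK he) (hu e he)
      have h2 : s' ∈ Z.filter (fun u => s ∩ t ⊆ u) := by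
        rw [mem_filter]
        refine ⟨hs', ?_⟩
        rw [← hpe]
        exact h.pr_sub hs' hes'
      rw [hstar, mem_insert, mem_singleton] at h2
      rcases h2 with rfl | rfl
      · exact h.pr_inj hs hes' hgs (hpe.trans hpr.symm)
      · exact h.pr_inj ht hes' hgt' (hpe.trans hpr.symm)
    split_ifs with hgA
    · rw [card_eq_one]
      refine ⟨g, ?_⟩
      ext e
      rw [mem_filter, mem_singleton]
      constructor
      · rintro ⟨he, hpe⟩; exact h1 e he hpe
      · rintro rfl; exact ⟨hgA, hpr⟩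
    · rw [card_eq_zero, filter_eq_empty_iff]
      intro e he hpe
      exact hgA (h1 e he hpe ▸ he)
  have hdegB : edeg B (s ∩ t) = edeg F1 g := by
    have h1 : F1.filter (fun u => g ⊆ u) = (B.filter (fun u => s ∩ t ⊆ u)).image f := by
      ext u
      rw [mem_filter, mem_image, mem_image]
      constructor
      · rintro ⟨⟨v, hv, rfl⟩, hgv⟩
        have hv' := mem_filter.mp hv
        refine ⟨v, mem_filter.mpr ⟨hv'.1, ?_⟩, rfl⟩
        rw [← hpr]
        exact h.pr_sub (hB hv'.1) hgv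
      · rintro ⟨v, hv, rfl⟩
        have hv' := mem_filter.mp hv
        have h2 : v ∈ Z.filter (fun u => s ∩ t ⊆ u) := mem_filter.mpr ⟨hB hv'.1, hv'.2⟩
        rw [hstar, mem_insert, mem_singleton] at h2
        rcases h2 with rfl | rfl
        · exact ⟨⟨v, mem_filter.mpr ⟨hv'.1, hsK⟩, rfl⟩, hgs⟩
        · exact ⟨⟨v, mem_filter.mpr ⟨hv'.1, ht'K⟩, rfl⟩, hgt'⟩
    unfold edeg
    rw [h1, card_image_of_injOn]
    intro a ha b hb hab
    exact h.f_inj a (hB (mem_filter.mp ha).1) b (hB (mem_filter.mp hb).1) hab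
  have hiff : g ∈ bdF F1 ↔ g ∈ A := by
    rw [mem_bdF, ← hdegB]
    have h1 : s ∩ t ∈ bdF B ↔ Odd (edeg B (s ∩ t)) := by
      rw [mem_bdF]
      exact ⟨fun h => h.2, fun h => ⟨hcadj.1, h⟩⟩
    have h2 : s ∩ t ∈ prA Z P f K A ↔ g ∈ A := by
      unfold prA
      rw [mem_filter, hpre]
      constructor
      · rintro ⟨_, h3⟩
        by_contra h4
        rw [if_neg h4] at h3
        exact absurd h3 (by decide)
      · intro h3
        refine ⟨mem_edgs.mpr ⟨hcadj.1, s, mem_filter.mpr ⟨hs, hsK⟩, inter_subset_left⟩, ?_⟩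
        rw [if_pos h3]
        decide
    rw [← h2, ← hbd, h1]
    exact ⟨fun h => h.2, fun h => ⟨hg2, h⟩⟩
  rw [mem_symmDiff] at hg
  rcases hg with ⟨h1, h2⟩ | ⟨h1, h2⟩
  · exact h2 (hiff.mpr h1)
  · exact h2 (hiff.mp h1)

/-- an even set of free sides is the boundary of cap faces -/
theorem CC.caps_only (h : CC Z C T P f) {K : Finset (Finset β)} (hK : K ⊆ T)
    {D : Finset (Finset β)} (hD : EvenSet D)
    (hDf : ∀ g ∈ D, (∀ w ∈ g, (P w).isSome) ∧ ∃ t ∈ K, (∃ w ∈ t, P w = none) ∧ g ⊆ t) :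
    ∃ T1 ⊆ K, bdF T1 = D := by
  classical
  set T1 := K.filter (fun t => (∃ w ∈ t, P w = none) ∧ ∃ g ∈ D, g ⊆ t) with hT1
  have hT1K : T1 ⊆ K := filter_subset _ _
  have hT1f : IsFam T1 := fun s hs => h.surf.1 s (hK (hT1K hs))
  refine ⟨T1, hT1K, ?_⟩
  have hD' : EvenSet (symmDiff D (bdF T1)) := hD.symmDiff (bdF_even hT1f)
  -- all members contain a cap and lie in a face of `K`
  have hcap : ∀ g ∈ symmDiff D (bdF T1), ∃ w ∈ g, P w = none := by
    intro g hg
    by_contra hno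
    push Not at hno
    have hgu : ∀ w ∈ g, (P w).isSome := fun w hw => by
      rw [Option.isSome_iff_ne_none]
      exact hno w hw
    have hg2 := hD'.1 g hg
    rw [mem_symmDiff] at hg
    rcases hg with ⟨h1, h2⟩ | ⟨h1, h2⟩
    · apply h2
      obtain ⟨_, t, ht, htc, hgt⟩ := hDf g h1
      rw [mem_bdF]
      refine ⟨hg2, ?_⟩
      have h3 : T1.filter (fun u => g ⊆ u) = {t} := by
        ext u
        rw [mem_filter, mem_singleton]
        constructor
        · rintro ⟨hu, hgu2⟩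
          by_contra hne
          have hu' := mem_filter.mp hu
          have h4 := inter_pair (h.surf.1 u (hK hu'.1)) (h.surf.1 t (hK ht)) hg2 hgu2 hgt hne
          obtain ⟨w, hw, hwn⟩ := h.cap_adj u (hK hu'.1) t (hK ht) hne hu'.2.1 htc
            (by unfold EAdj; rw [h4, hg2])
          rw [h4] at hw
          exact hno w hw hwn
        · rintro rfl
          exact ⟨mem_filter.mpr ⟨ht, htc, g, h1, hgt⟩, hgt⟩
      unfold edeg
      rw [h3, card_singleton]
      decide
    · apply h2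
      obtain ⟨t, ht, hgt⟩ := edeg_pos.mp (mem_bdF.mp h1).2.pos
      obtain ⟨htK, ⟨w, hw, hwn⟩, g', hg', hgt'⟩ := mem_filter.mp ht
      have key : ∀ e : Finset β, e.card = 2 → e ⊆ t → (∀ v ∈ e, (P v).isSome) → e = t.erase w := by
        intro e he het heu
        apply eq_of_subset_of_card_le
        · intro v hv
          rw [mem_erase]
          refine ⟨?_, het hv⟩
          rintro rfl
          have := heu v hv
          rw [hwn] at this
          exact absurd this (by simp)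
        · rw [card_erase_of_mem hw, h.surf.1 t (hK htK), he]
      rw [key g hg2 hgt hgu, ← key g' (hD.1 g' hg') hgt' (hDf g' hg').1]
      exact hg'
  have hface : ∀ g ∈ symmDiff D (bdF T1), ∃ t ∈ K, g ⊆ t := by
    intro g hg
    rw [mem_symmDiff] at hg
    rcases hg with ⟨h1, _⟩ | ⟨h1, _⟩
    · obtain ⟨_, t, ht, _, hgt⟩ := hDf g h1
      exact ⟨t, ht, hgt⟩
    · obtain ⟨t, ht, hgt⟩ := edeg_pos.mp (mem_bdF.mp h1).2.pos
      exact ⟨t, hT1K ht, hgt⟩
  have hemp : symmDiff D (bdF T1) = ∅ := by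
    rw [eq_empty_iff_forall_notMem]
    intro g hg
    obtain ⟨w, hw, hwn⟩ := hcap g hg
    have hg2 := hD'.1 g hg
    have h1 : (g.erase w).card = 1 := by rw [card_erase_of_mem hw, hg2]
    obtain ⟨y, hy⟩ := card_eq_one.mp h1
    have hyg : y ∈ g.erase w := by rw [hy]; exact mem_singleton_self y
    rw [mem_erase] at hyg
    have hgyw : g = {y, w} := by
      rw [← insert_erase hw, hy, pair_comm]
    obtain ⟨t, ht, hgt⟩ := hface g hg
    have hyP : (P y).isSome := by
      by_contra hyn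
      exact hyg.1 (h.cap_uniq (hK ht) (hgt hyg.2) (hgt hw) (none_of_not hyn) hwn)
    have h2 := hD'.2 y
    have h3 : g ∈ (symmDiff D (bdF T1)).filter (fun e => y ∈ e) := mem_filter.mpr ⟨hg, hyg.2⟩
    have h4 : 1 < ((symmDiff D (bdF T1)).filter (fun e => y ∈ e)).card := by
      have h5 : 0 < ((symmDiff D (bdF T1)).filter (fun e => y ∈ e)).card := card_pos.mpr ⟨g, h3⟩
      rcases h2 with ⟨k, hk⟩
      omega
    obtain ⟨g', hg', hne⟩ := exists_mem_ne h4 g
    rw [mem_filter] at hg'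
    obtain ⟨w', hw', hwn'⟩ := hcap g' hg'.1
    have hg2' := hD'.1 g' hg'.1
    have hyw' : y ≠ w' := by
      rintro rfl
      rw [hwn'] at hyP
      exact absurd hyP (by simp)
    have hgyw' : g' = {y, w'} := by
      symm
      apply eq_of_subset_of_card_le
      · intro v hv
        rw [mem_insert, mem_singleton] at hv
        rcases hv with rfl | rfl
        · exact hg'.2
        · exact hw'
      · rw [card_pair hyw', hg2']
    obtain ⟨t', ht', hgt'⟩ := hface g' hg'.1
    have h6 : w = w' := h.one_nbr hyP hwn hwn'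
      (mem_edgs.mpr ⟨by rw [← hgyw, hg2], t, hK ht, by rw [← hgyw]; exact hgt⟩)
      (mem_edgs.mpr ⟨by rw [← hgyw', hg2'], t', hK ht', by rw [← hgyw']; exact hgt'⟩)
    apply hne
    rw [hgyw', hgyw, h6]
  exact (symmDiff_eq_bot.mp hemp).symm

/-- the capped component is a sphere -/
theorem CC.sphere (h : CC Z C T P f) (hZc : Closed Z) {K : Finset (Finset β)} (hK : K ⊆ T)
    (hKne : K.Nonempty) (hKd : DualConn K) (hKc : ∀ s ∈ K, ∀ t ∈ T, EAdj s t → t ∈ K)
    (hnull : ∀ A : Finset (Finset α), EvenSet A →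
      A ⊆ edgs (Z.filter (fun s => f s ∈ K)) → ∃ B ⊆ Z, bdF B = A) : IsSphere K := by
  classical
  have hKf : IsFam K := fun s hs => h.surf.1 s (hK hs)
  apply sphere_of_span hKf (comp_closed h.surf hK hKc) hKd hKne
  intro A hA hAK
  obtain ⟨J, hJ, hJc⟩ := h.clean_all hK hKc hA hAK ((verts K).filter (fun w => P w = none))
    (fun w hw => ⟨(mem_filter.mp hw).2, (mem_filter.mp hw).1⟩)
  have hJf : IsFam J := fun s hs => hKf s (hJ hs)
  set A2 := symmDiff A (bdF J) with hA2
  have hA2e : EvenSet A2 := hA.symmDiff (bdF_even hJf)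
  have hA2K : A2 ⊆ edgs K := sd_subset hAK (bdF_sub_edgs hJ)
  have hA2u : ∀ g ∈ A2, ∀ w ∈ g, (P w).isSome := by
    intro g hg w hw
    by_contra hwn
    obtain ⟨_, t, ht, hgt⟩ := mem_edgs.mp (hA2K hg)
    exact hJc g hg w (mem_filter.mpr ⟨mem_verts.mpr ⟨t, ht, hgt hw⟩, none_of_not hwn⟩) hw
  obtain ⟨B, hB, hbd⟩ := hnull (prA Z P f K A2) (h.prA_even hK hKc hA2e hA2K hA2u)
    (filter_subset _ _)
  set F1 := (B.filter (fun s => f s ∈ K)).image f with hF1
  have hF1K : F1 ⊆ K := by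
    intro t ht
    obtain ⟨s, hs, rfl⟩ := mem_image.mp ht
    exact (mem_filter.mp hs).2
  have hF1f : IsFam F1 := fun s hs => hKf s (hF1K hs)
  have hD : EvenSet (symmDiff A2 (bdF F1)) := hA2e.symmDiff (bdF_even hF1f)
  obtain ⟨T1, hT1, hT1b⟩ := h.caps_only hK hD
    (fun g hg => h.free_only hZc hK hKc hA2K hA2u hB hbd hg)
  refine ⟨symmDiff (symmDiff J F1) T1, sd_subset (sd_subset hJ hF1K) hT1, ?_⟩
  rw [bdF_symmDiff, bdF_symmDiff, hT1b, hA2]
  ext e
  simp only [mem_symmDiff]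
  tauto

end Ph2

end Pool.Agent.SC
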