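import Pool.Agent.Lib.MP_d0323d_co.FamBasic
/-! Cohomological form of the condition `H_1(-;F_2)=0` (used by module FILL, useful for DIAG, GLUE). -/
set_option autoImplicit false
namespace Pool.Agent.SC
open Finset

section
variable {V : Type*} [DecidableEq V]

/-- every `F_2`-cocycle (relative to the faces `F`) is a coboundary on `E` -/
def Coh (E F : Finset (Finset V)) : Prop :=
  ∀ φ : Finset V → ZMod 2, (∀ s ∈ F, ∑ e ∈ s.powersetCard 2, φ e = 0) →
    ∃ h : V → ZMod 2, ∀ a b : V, ({a, b} : Finset V) ∈ E → φ {a, b} = h a + h b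

theorem zmod2_natCast_eq_zero {k : ℕ} : (k : ZMod 2) = 0 ↔ Even k := by
  rw [ZMod.natCast_eq_zero_iff]
  exact even_iff_two_dvd.symm

theorem zmod2_natCast_eq_one {k : ℕ} : (k : ZMod 2) = 1 ↔ Odd k := by
  rw [← Nat.not_even_iff_odd, ← zmod2_natCast_eq_zero]
  constructor
  · intro h h'; rw [h] at h'; exact absurd h' (by decide)
  · intro h
    have : ∀ a : ZMod 2, a ≠ 0 → a = 1 := by decide
    exact this _ h

/-- pairing of a family of faces with a cochain -/
theorem sum_bdF (B : Finset (Finset V)) (φ : Finset V → ZMod 2) :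
    ∑ s ∈ B, ∑ e ∈ s.powersetCard 2, φ e = ∑ e ∈ bdF B, φ e := by
  have h1 : ∑ s ∈ B, ∑ e ∈ s.powersetCard 2, φ e
      = ∑ e ∈ edgs B, ((edeg B e : ℕ) : ZMod 2) * φ e := by
    have h2 : ∀ s ∈ B, ∑ e ∈ s.powersetCard 2, φ e
        = ∑ e ∈ edgs B, if e ⊆ s then φ e else 0 := by
      intro s hs
      rw [← sum_filter]
      apply sum_congr _ (fun _ _ => rfl)
      ext e
      rw [mem_powersetCard, mem_filter, mem_edgs]
      constructor
      · rintro ⟨h, h2⟩; exact ⟨⟨h2, s, hs, h⟩, h⟩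
      · rintro ⟨⟨h2, _⟩, h⟩; exact ⟨h, h2⟩
    rw [sum_congr rfl h2, sum_comm]
    apply sum_congr rfl
    intro e he
    rw [← sum_filter, sum_const, nsmul_eq_mul]
    rfl
  rw [h1]
  have h3 : bdF B ⊆ edgs B := bdF_subset
  rw [← sum_subset h3 (f := fun e => ((edeg B e : ℕ) : ZMod 2) * φ e)]
  · apply sum_congr rfl
    intro e he
    rw [mem_bdF] at he
    rw [zmod2_natCast_eq_one.mpr he.2, one_mul]
  · intro e he hne
    rw [mem_bdF, not_and] at hne
    have h4 : Even (edeg B e) := by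
      rw [← Nat.not_odd_iff_even]
      exact hne (mem_edgs.mp he).1
    rw [zmod2_natCast_eq_zero.mpr h4, zero_mul]

/-- a coboundary pairs to zero with an even set -/
theorem sum_even [Fintype V] {A : Finset (Finset V)} (hA : EvenSet A) (h : V → ZMod 2) :
    ∑ e ∈ A, ∑ x ∈ e, h x = 0 := by
  have h1 : ∑ e ∈ A, ∑ x ∈ e, h x = ∑ x : V, (((A.filter (fun e => x ∈ e)).card : ℕ) : ZMod 2) * h x := by
    have h2 : ∀ e ∈ A, ∑ x ∈ e, h x = ∑ x : V, if x ∈ e then h x else 0 := by
      intro e he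
      rw [← sum_filter]
      apply sum_congr _ (fun _ _ => rfl)
      ext x; simp
    rw [sum_congr rfl h2, sum_comm]
    apply sum_congr rfl
    intro x _
    rw [← sum_filter, sum_const, nsmul_eq_mul]
  rw [h1]
  apply sum_eq_zero
  intro x _
  rw [zmod2_natCast_eq_zero.mpr (hA.2 x), zero_mul]

theorem sum_pair_h {e : Finset V} (he : e.card = 2) {a b : V} (hab : e = {a, b}) (h : V → ZMod 2) :
    ∑ x ∈ e, h x = h a + h b := by
  subst hab
  have hne : a ≠ b := by
    rintro rfl
    simp at he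
  rw [sum_pair hne]

theorem coh_of_h1 [Fintype V] {E F : Finset (Finset V)} (hE : ∀ e ∈ E, e.card = 2)
    (h1 : ∀ A ⊆ E, EvenSet A → ∃ B ⊆ F, bdF B = A) : Coh E F := by
  classical
  intro φ hφ
  let R : Submodule (ZMod 2) (Finset V → ZMod 2) :=
    { carrier := {ψ | ∃ h : V → ZMod 2, ∀ e ∈ E, ψ e = ∑ x ∈ e, h x}
      add_mem' := by
        rintro a b ⟨h, hh⟩ ⟨k, hk⟩
        refine ⟨h + k, fun e he => ?_⟩
        simp only [Pi.add_apply, sum_add_distrib, hh e he, hk e he]
      zero_mem' := ⟨0, fun e he => by simp⟩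
      smul_mem' := by
        rintro c a ⟨h, hh⟩
        refine ⟨c • h, fun e he => ?_⟩
        simp only [Pi.smul_apply, smul_eq_mul, hh e he, mul_sum] }
  by_cases hR : φ ∈ R
  · obtain ⟨h, hh⟩ := hR
    refine ⟨h, fun a b hab => ?_⟩
    rw [hh _ hab, sum_pair_h (hE _ hab) rfl]
  exfalso
  obtain ⟨f, hf, hfR⟩ := Submodule.exists_dual_map_eq_bot_of_notMem hR inferInstance
  have hker : ∀ ψ ∈ R, f ψ = 0 := by
    intro ψ hψ
    have : f ψ ∈ R.map f := ⟨ψ, hψ, rfl⟩
    rw [hfR] at this
    exact (Submodule.mem_bot _).mp this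
  have hrep : ∀ ψ : Finset V → ZMod 2, f ψ = ∑ e, ψ e * f (Pi.single e 1) := by
    intro ψ
    conv_lhs => rw [pi_eq_sum_univ' ψ]
    rw [map_sum]
    apply sum_congr rfl
    intro e _
    rw [map_smul, smul_eq_mul]
  set A : Finset (Finset V) := univ.filter (fun e => f (Pi.single e 1) ≠ 0) with hAdef
  have h01 : ∀ a : ZMod 2, a ≠ 0 → a = 1 := by decide
  have hrepA : ∀ ψ : Finset V → ZMod 2, f ψ = ∑ e ∈ A, ψ e := by
    intro ψ
    rw [hrep ψ, hAdef, sum_filter]
    apply sum_congr rfl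
    intro e _
    split_ifs with h
    · rw [h01 _ h, mul_one]
    · rw [not_not] at h; rw [h, mul_zero]
  have hAE : A ⊆ E := by
    intro e he
    by_contra hne
    rw [hAdef, mem_filter] at he
    apply he.2
    apply hker
    refine ⟨0, fun e' he' => ?_⟩
    rw [Pi.single_apply, if_neg (by rintro rfl; exact hne he')]
    simp
  have hev : EvenSet A := by
    refine ⟨fun e he => hE e (hAE he), fun x => ?_⟩
    rw [← zmod2_natCast_eq_zero]
    have h2 : f (fun e => if x ∈ e then 1 else 0) = 0 := by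
      apply hker
      refine ⟨Pi.single x 1, fun e he => ?_⟩
      simp [Pi.single_apply, eq_comm]
    rw [hrepA, ← sum_filter, sum_const, nsmul_eq_mul, mul_one] at h2
    exact h2
  obtain ⟨B, hB, hBA⟩ := h1 A hAE hev
  apply hf
  rw [hrepA, ← hBA, ← sum_bdF]
  exact sum_eq_zero (fun s hs => hφ s (hB hs))

theorem h1_of_coh [Fintype V] {E F : Finset (Finset V)} (hc : Coh E F) : ∀ A ⊆ E, EvenSet A → ∃ B ⊆ F, bdF B = A := by
  classical
  intro A hAE hA
  let v : Finset V → (Finset V → ZMod 2) := fun s e => if e ∈ s.powersetCard 2 then 1 else 0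
  let a : Finset V → ZMod 2 := fun e => if e ∈ A then 1 else 0
  let R : Submodule (ZMod 2) (Finset V → ZMod 2) := Submodule.span _ (F.image v : Set (Finset V → ZMod 2))
  by_cases hR : a ∈ R
  · -- extract a subset
    have key : ∀ ψ ∈ R, ∃ B ⊆ F, ∀ e, ψ e = ∑ s ∈ B, v s e := by
      intro ψ hψ
      refine Submodule.span_induction (p := fun ψ _ => ∃ B ⊆ F, ∀ e, ψ e = ∑ s ∈ B, v s e)
        ?_ ?_ ?_ ?_ hψ
      · intro ψ hψ
        rw [coe_image] at hψ
        obtain ⟨s, hs, rfl⟩ := hψ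
        exact ⟨{s}, by simpa using hs, fun e => by simp⟩
      · exact ⟨∅, by simp, fun e => by simp⟩
      · rintro x y _ _ ⟨B, hB, hx⟩ ⟨C, hC, hy⟩
        refine ⟨symmDiff B C, ?_, fun e => ?_⟩
        · intro s hs
          rw [mem_symmDiff] at hs
          rcases hs with hs | hs
          · exact hB hs.1
          · exact hC hs.1
        · rw [Pi.add_apply, hx e, hy e]
          have h2 : ∀ z : ZMod 2, z + z = 0 := by decide
          have e1 : ∑ s ∈ B, v s e = ∑ s ∈ B \ C, v s e + ∑ s ∈ B ∩ C, v s e := by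
            rw [← sum_sdiff (inter_subset_left : B ∩ C ⊆ B), sdiff_inter_self_left]
          have e2 : ∑ s ∈ C, v s e = ∑ s ∈ C \ B, v s e + ∑ s ∈ B ∩ C, v s e := by
            rw [← sum_sdiff (inter_subset_right : B ∩ C ⊆ C), inter_comm, sdiff_inter_self_left]
          have e3 : ∑ s ∈ symmDiff B C, v s e = ∑ s ∈ B \ C, v s e + ∑ s ∈ C \ B, v s e := by
            rw [symmDiff_def, sup_eq_union, sum_union]
            exact disjoint_sdiff_sdiff
          rw [e1, e2, e3]
          linear_combination h2 (∑ s ∈ B ∩ C, v s e)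
      · rintro c x _ ⟨B, hB, hx⟩
        have h01 : c = 0 ∨ c = 1 := by revert c; decide
        rcases h01 with rfl | rfl
        · exact ⟨∅, by simp, fun e => by simp⟩
        · exact ⟨B, hB, fun e => by simpa using hx e⟩
    obtain ⟨B, hB, hBe⟩ := key a hR
    refine ⟨B, hB, ?_⟩
    ext e
    rw [mem_bdF]
    have h3 : ∑ s ∈ B, v s e = if e.card = 2 then ((edeg B e : ℕ) : ZMod 2) else 0 := by
      split_ifs with h2
      · simp only [v, mem_powersetCard, h2, and_true]
        rw [← sum_filter, sum_const, nsmul_eq_mul, mul_one]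
        rfl
      · apply sum_eq_zero
        intro s _
        simp only [v, mem_powersetCard, h2, and_false, if_false]
    have h4 := hBe e
    rw [h3] at h4
    simp only [a] at h4
    constructor
    · rintro ⟨h2, hodd⟩
      rw [if_pos h2, zmod2_natCast_eq_one.mpr hodd] at h4
      by_contra hne
      rw [if_neg hne] at h4
      exact absurd h4 (by decide)
    · intro he
      have h2 := hA.1 e he
      refine ⟨h2, ?_⟩
      rw [if_pos he, if_pos h2] at h4
      exact zmod2_natCast_eq_one.mp h4.symm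
  exfalso
  obtain ⟨f, hf, hfR⟩ := Submodule.exists_dual_map_eq_bot_of_notMem hR inferInstance
  have hker : ∀ ψ ∈ R, f ψ = 0 := by
    intro ψ hψ
    have : f ψ ∈ R.map f := ⟨ψ, hψ, rfl⟩
    rw [hfR] at this
    exact (Submodule.mem_bot _).mp this
  have hrep : ∀ ψ : Finset V → ZMod 2, f ψ = ∑ e, ψ e * f (Pi.single e 1) := by
    intro ψ
    conv_lhs => rw [pi_eq_sum_univ' ψ]
    rw [map_sum]
    apply sum_congr rfl
    intro e _
    rw [map_smul, smul_eq_mul]
  obtain ⟨h, hh⟩ := hc (fun e => f (Pi.single e 1)) (by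
    intro s hs
    have h2 := hker (v s) (Submodule.subset_span (by rw [coe_image]; exact ⟨s, hs, rfl⟩))
    rw [hrep] at h2
    rw [← h2]
    simp only [v, ite_mul, one_mul, zero_mul]
    rw [← sum_filter]
    apply sum_congr _ (fun _ _ => rfl)
    ext e; simp)
  apply hf
  rw [hrep]
  have h5 : ∑ e, a e * f (Pi.single e 1) = ∑ e ∈ A, ∑ x ∈ e, h x := by
    simp only [a, ite_mul, one_mul, zero_mul]
    rw [← sum_filter]
    have : (univ.filter (fun e => e ∈ A)) = A := by ext e; simp
    rw [this]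
    apply sum_congr rfl
    intro e he
    obtain ⟨x, y, hxy, rfl⟩ := card_eq_two.mp (hA.1 e he)
    rw [sum_pair hxy]
    exact hh x y (hAE he)
  rw [h5]
  exact sum_even hA h

end

end Pool.Agent.SC
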