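import Pool.Agent.Lib.MP_d0323d_co.Abel
/-! Module COST (5.1). `J = Nat.log 2 N + 1`, `N ≥ |F'|`. -/
set_option autoImplicit false
namespace Pool.Agent.SC
open Finset

section famAt
variable {α : Type*} [DecidableEq α]

/-- the pairs of the family at the vertex -/
def cEy (Z : Finset (Finset α)) (y : α) : Finset (Finset α) := (edgs Z).filter (fun e => y ∈ e)
/-- pairs of degree one at the vertex -/
def cn1 (Z : Finset (Finset α)) (y : α) : ℕ := ((cEy Z y).filter (fun e => edeg Z e = 1)).card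
/-- excess at the vertex -/
def cex (Z : Finset (Finset α)) (y : α) : ℕ := ∑ e ∈ cEy Z y, (edeg Z e - 2)

theorem mem_cEy {Z : Finset (Finset α)} {y : α} {e : Finset α} :
    e ∈ cEy Z y ↔ (e.card = 2 ∧ y ∈ e) ∧ ∃ s ∈ Z, e ⊆ s := by
  unfold cEy
  rw [mem_filter, mem_edgs]
  constructor
  · rintro ⟨⟨h1, h2⟩, h3⟩; exact ⟨⟨h1, h3⟩, h2⟩
  · rintro ⟨⟨h1, h3⟩, h2⟩; exact ⟨⟨h1, h2⟩, h3⟩

theorem cex_eq {Z : Finset (Finset α)} (hZ : IsFam Z) (y : α) :
    (cex Z y : ℝ) = 2 * (((star Z y).card : ℝ) - ((cEy Z y).card : ℝ)) + cn1 Z y := by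
  have h1 := sum_edeg_at hZ y
  have h2 : ∀ e ∈ cEy Z y, ((edeg Z e - 2 : ℕ) : ℝ) =
      (edeg Z e : ℝ) - 2 + (if edeg Z e = 1 then 1 else 0) := by
    intro e he
    have h3 : 0 < edeg Z e := edeg_pos.2 (mem_cEy.1 he).2
    by_cases h4 : edeg Z e = 1
    · rw [if_pos h4, h4]; norm_num
    · rw [if_neg h4, Nat.cast_sub (by omega)]; push_cast; ring
  unfold cex cn1
  push_cast
  rw [Finset.sum_congr rfl h2, Finset.sum_add_distrib, Finset.sum_sub_distrib]
  have h5 : ∑ e ∈ cEy Z y, (edeg Z e : ℝ) = 2 * ((star Z y).card : ℝ) := by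
    have : ((∑ e ∈ (edgs Z).filter (fun e => y ∈ e), edeg Z e : ℕ) : ℝ)
        = ((2 * (star Z y).card : ℕ) : ℝ) := by rw [h1]
    push_cast at this
    exact this
  rw [h5]
  simp only [Finset.sum_const, nsmul_eq_mul, Finset.sum_boole]
  ring

theorem cEy_congr {Z Z' : Finset (Finset α)} {y : α} (h : star Z y = star Z' y) :
    cEy Z y = cEy Z' y := by
  have key : ∀ (A B : Finset (Finset α)), star A y = star B y → cEy A y ⊆ cEy B y := by
    intro A B hAB e he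
    rw [mem_cEy] at he ⊢
    obtain ⟨⟨h1, h2⟩, s, hs, hes⟩ := he
    refine ⟨⟨h1, h2⟩, s, ?_, hes⟩
    have : s ∈ star A y := mem_filter.2 ⟨hs, hes h2⟩
    rw [hAB] at this
    exact (mem_filter.1 this).1
  exact Subset.antisymm (key _ _ h) (key _ _ h.symm)

theorem edeg_congr_at {Z Z' : Finset (Finset α)} {y : α} (h : star Z y = star Z' y)
    {e : Finset α} (hy : y ∈ e) : edeg Z e = edeg Z' e := by
  have key : ∀ (A : Finset (Finset α)), A.filter (fun s => e ⊆ s) =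
      (star A y).filter (fun s => e ⊆ s) := by
    intro A
    ext s
    unfold star
    rw [mem_filter, mem_filter, mem_filter]
    constructor
    · rintro ⟨h1, h2⟩; exact ⟨⟨h1, h2 hy⟩, h2⟩
    · rintro ⟨⟨h1, _⟩, h2⟩; exact ⟨h1, h2⟩
  unfold edeg
  rw [key Z, key Z', h]

/-- summing over vertices and pairs at them -/
theorem sum_cEy (Z : Finset (Finset α)) (f : Finset α → ℕ) :
    ∑ y ∈ verts Z, ∑ e ∈ cEy Z y, f e = 2 * ∑ e ∈ edgs Z, f e := by
  unfold cEy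
  simp only [Finset.sum_filter]
  rw [Finset.sum_comm, Finset.mul_sum]
  refine Finset.sum_congr rfl fun e he => ?_
  rw [← Finset.sum_filter, Finset.sum_const, smul_eq_mul]
  congr 1
  rw [mem_edgs] at he
  obtain ⟨h2, s, hs, hes⟩ := he
  have h1 : (verts Z).filter (fun x => x ∈ e) = e := by
    ext x
    rw [mem_filter, mem_verts]
    constructor
    · rintro ⟨_, h⟩; exact h
    · intro h; exact ⟨⟨s, hs, hes h⟩, h⟩
  rw [h1, h2]

theorem EAdj.symm' {s t : Finset α} (h : EAdj s t) : EAdj t s := by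
  unfold EAdj at *
  rw [inter_comm]; exact h

/-- two different triples with a common pair are edge-adjacent -/
theorem eadj_of_common {s t e : Finset α} (hs : s.card = 3) (ht : t.card = 3) (hne : s ≠ t)
    (he : e.card = 2) (h1 : e ⊆ s) (h2 : e ⊆ t) : EAdj s t := by
  unfold EAdj
  have h3 : e ⊆ s ∩ t := subset_inter h1 h2
  have h4 := card_le_card h3
  have h5 : (s ∩ t).card < 3 := by
    by_contra h6
    have h7 : s ∩ t = s := eq_of_subset_of_card_le inter_subset_left (by omega)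
    have h8 : s ⊆ t := by rw [← h7]; exact inter_subset_right
    exact hne (eq_of_subset_of_card_le h8 (by omega))
  omega

/-- a proper nonempty part of a cycle is a union of arcs: `2 kap ≤ #(pairs of degree one)` -/
theorem two_kap_le {Z R : Finset (Finset α)} (hZ : IsFam Z) (hR : R ⊆ Z) {y : α}
    (hk : kap Z y = 1) (hd : ∀ e ∈ cEy Z y, edeg Z e = 2) (hne : ∃ s ∈ star Z y, s ∉ R) :
    2 * kap R y ≤ cn1 R y := by
  classical
  set A := star R y with hA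
  have hAZ : A ⊆ star Z y := by
    intro s hs
    rw [hA, star, mem_filter] at hs
    exact mem_filter.2 ⟨hR hs.1, hs.2⟩
  let Qt := Quot (fun a b : {x // x ∈ A} => EAdj a.1 b.1)
  have : Finite Qt := ncl_finite (A := A) (r := EAdj)
  have _ : Fintype Qt := Fintype.ofFinite Qt
  -- the class of a face
  let cl : Finset α → Option Qt := fun s => if h : s ∈ A then some (Quot.mk _ ⟨s, h⟩) else none
  have hcl : ∀ s (h : s ∈ A), cl s = some (Quot.mk _ ⟨s, h⟩) := fun s h => dif_pos h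
  set Ed := (cEy R y).filter (fun e => edeg R e = 1) with hEd
  -- a face at an edge
  have hface : ∀ e ∈ Ed, ∃ s ∈ A, e ⊆ s := by
    intro e he
    rw [hEd, mem_filter, mem_cEy] at he
    obtain ⟨⟨⟨h1, h2⟩, s, hs, hes⟩, _⟩ := he
    exact ⟨s, mem_filter.2 ⟨hs, hes h2⟩, hes⟩
  let f : Finset α → Finset α := fun e => if h : ∃ s ∈ A, e ⊆ s then h.choose else ∅
  have hf : ∀ e, (∃ s ∈ A, e ⊆ s) → f e ∈ A ∧ e ⊆ f e := by
    intro e h
    have : f e = h.choose := dif_pos h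
    rw [this]
    exact h.choose_spec
  let g : Finset α → Option Qt := fun e => cl (f e)
  -- same edge, same class
  have hsame : ∀ e : Finset α, e.card = 2 → ∀ s ∈ A, ∀ t ∈ A, e ⊆ s → e ⊆ t → cl s = cl t := by
    intro e he s hs t ht h1 h2
    rw [hcl s hs, hcl t ht]
    by_cases hst : s = t
    · subst hst; rfl
    · congr 1
      refine Quot.sound ?_
      have h3 := hZ s (mem_filter.1 (hAZ hs)).1
      have h4 := hZ t (mem_filter.1 (hAZ ht)).1
      exact eadj_of_common h3 h4 hst he h1 h2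
  -- every class has at least two pairs of degree one
  have hfib : ∀ q : Qt, 2 ≤ (Ed.filter (fun e => g e = some q)).card := by
    intro q
    set C := A.filter (fun s => cl s = some q) with hC
    have hCne : C.Nonempty := by
      induction q using Quot.inductionOn with
      | _ a => exact ⟨a.1, mem_filter.2 ⟨a.2, hcl a.1 a.2⟩⟩
    have hCA : C ⊆ A := filter_subset _ _
    have hCR : ∀ s ∈ C, s ∈ R ∧ y ∈ s := fun s hs => mem_filter.1 (hCA hs)
    have hCfam : IsFam C := fun s hs => hZ s (hR (hCR s hs).1)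
    have hdegC : ∀ e ∈ cEy C y, edeg C e = edeg R e := by
      intro e he
      rw [mem_cEy] at he
      obtain ⟨⟨h1, h2⟩, s, hs, hes⟩ := he
      unfold edeg
      congr 1
      ext t
      constructor
      · intro h
        obtain ⟨h3, h4⟩ := mem_filter.1 h
        exact mem_filter.2 ⟨(hCR t h3).1, h4⟩
      · intro h
        obtain ⟨h3, h4⟩ := mem_filter.1 h
        have htA : t ∈ A := mem_filter.2 ⟨h3, h4 h2⟩
        refine mem_filter.2 ⟨mem_filter.2 ⟨htA, ?_⟩, h4⟩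
        rw [hsame e h1 t htA s (hCA hs) h4 hes]
        exact (mem_filter.1 hs).2
    have hCEy : cEy C y ⊆ cEy R y := by
      intro e he
      rw [mem_cEy] at he ⊢
      obtain ⟨h1, s, hs, hes⟩ := he
      exact ⟨h1, s, (hCR s hs).1, hes⟩
    have hREy : cEy R y ⊆ cEy Z y := by
      intro e he
      rw [mem_cEy] at he ⊢
      obtain ⟨h1, s, hs, hes⟩ := he
      exact ⟨h1, s, hR hs, hes⟩
    have hdeg2 : ∀ e ∈ cEy C y, edeg R e = 1 ∨ edeg R e = 2 := by
      intro e he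
      have h1 : 0 < edeg R e := edeg_pos.2 (mem_cEy.1 (hCEy he)).2
      have h2 := edeg_mono hR e
      rw [hd e (hREy (hCEy he))] at h2
      omega
    -- the pairs of degree one of `C`
    have hsub : (cEy C y).filter (fun e => Odd (edeg C e)) ⊆ Ed.filter (fun e => g e = some q) := by
      intro e he
      rw [mem_filter] at he
      obtain ⟨he1, he2⟩ := he
      rw [hdegC e he1] at he2
      have h1 : edeg R e = 1 := by
        rcases hdeg2 e he1 with h | h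
        · exact h
        · rw [h] at he2; exact absurd he2 (by decide)
      have he3 : e ∈ Ed := mem_filter.2 ⟨hCEy he1, h1⟩
      rw [mem_filter]
      refine ⟨he3, ?_⟩
      rw [mem_cEy] at he1
      obtain ⟨⟨h2, h3⟩, s, hs, hes⟩ := he1
      have h4 := hf e ⟨s, hCA hs, hes⟩
      show cl (f e) = some q
      rw [hsame e h2 (f e) h4.1 s (hCA hs) h4.2 hes]
      exact (mem_filter.1 hs).2
    refine le_trans ?_ (card_le_card hsub)
    have heven : Even ((cEy C y).filter (fun e => Odd (edeg C e))).card := by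
      rw [card_odd_parity]
      unfold cEy
      rw [sum_edeg_at hCfam]
      exact even_two_mul _
    have hpos : 0 < ((cEy C y).filter (fun e => Odd (edeg C e))).card := by
      rw [card_pos]
      by_contra hemp
      rw [not_nonempty_iff_eq_empty] at hemp
      have hall : ∀ e ∈ cEy C y, edeg C e = 2 := by
        intro e he
        have h1 : e ∉ (cEy C y).filter (fun e => Odd (edeg C e)) := by
          rw [hemp]; exact notMem_empty e
        rw [mem_filter] at h1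
        rcases hdeg2 e he with h | h
        · exact absurd ⟨he, by rw [hdegC e he, h]; decide⟩ h1
        · rw [hdegC e he, h]
      -- closed under adjacency
      have hclo : ∀ s ∈ C, ∀ t ∈ star Z y, EAdj s t → t ∈ C := by
        intro s hs t ht hst
        have hy : y ∈ s ∩ t := mem_inter.2 ⟨(hCR s hs).2, (mem_filter.1 ht).2⟩
        have he : s ∩ t ∈ cEy C y := mem_cEy.2 ⟨⟨hst, hy⟩, s, hs, inter_subset_left⟩
        have h1 := hall _ he
        have h2 := hd _ (hREy (hCEy he))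
        have h3 : C.filter (fun u => s ∩ t ⊆ u) ⊆ Z.filter (fun u => s ∩ t ⊆ u) :=
          filter_subset_filter _ (fun u hu => hR (hCR u hu).1)
        have h4 := eq_of_subset_of_card_le h3 (by unfold edeg at h1 h2; omega)
        have h5 : t ∈ Z.filter (fun u => s ∩ t ⊆ u) :=
          mem_filter.2 ⟨(mem_filter.1 ht).1, inter_subset_right⟩
        rw [← h4] at h5
        exact (mem_filter.1 h5).1
      obtain ⟨s0, hs0⟩ := hCne
      obtain ⟨t0, ht0, ht0R⟩ := hne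
      have hnon : (star Z y).Nonempty := ⟨t0, ht0⟩
      have hcon := (ncl_eq_one_iff (A := star Z y) (r := EAdj)
        (fun a b h => EAdj.symm' h) hnon).1 hk s0 (hAZ (hCA hs0)) t0 ht0
      have hall2 : ∀ t, Relation.ReflTransGen
          (fun a b => a ∈ star Z y ∧ b ∈ star Z y ∧ EAdj a b) s0 t → t ∈ C := by
        intro t ht
        induction ht with
        | refl => exact hs0
        | tail _ h2 ih => exact hclo _ ih _ h2.2.1 h2.2.2
      exact ht0R (hCR t0 (hall2 t0 hcon)).1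
    obtain ⟨c, hc⟩ := heven
    omega
  -- conclusion
  have himg : ((univ : Finset Qt).image some) ⊆ Ed.image g := by
    intro o ho
    obtain ⟨q, _, rfl⟩ := mem_image.1 ho
    have h1 : 0 < (Ed.filter (fun e => g e = some q)).card := by
      have := hfib q; omega
    obtain ⟨e, he⟩ := card_pos.1 h1
    rw [mem_filter] at he
    exact mem_image.2 ⟨e, he.1, he.2⟩
  have hcard : kap R y = Fintype.card Qt := by
    unfold kap ncl
    exact Nat.card_eq_fintype_card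
  have h1 : ∀ o ∈ Ed.image g, 2 ≤ (Ed.filter (fun e => g e = o)).card := by
    intro o ho
    obtain ⟨e, he, rfl⟩ := mem_image.1 ho
    have h2 := hf e (hface e he)
    have h3 : g e = some (Quot.mk _ ⟨f e, h2.1⟩) := hcl (f e) h2.1
    rw [h3]
    exact hfib _
  have h2 := Finset.mul_card_image_le_card Ed 2 h1
  have h3 : Fintype.card Qt ≤ (Ed.image g).card := by
    refine le_trans (le_of_eq ?_) (card_le_card himg)
    rw [card_image_of_injective _ (Option.some_injective _), card_univ]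
  have h4 : cn1 R y = Ed.card := rfl
  rw [hcard, h4]
  omega

end famAt

variable {V : Type} [Fintype V] [DecidableEq V] {n : ℕ} (Q : Imm V n)

theorem Imm.cFp_fam : IsFam Q.Fp := fun s hs => Q.F_card s (mem_filter.1 hs).1

theorem Imm.cR_sub (m : ℕ) : Q.R m ⊆ Q.Fp := filter_subset _ _

theorem Imm.cmem_R {m : ℕ} {s : Finset V} : s ∈ Q.R m ↔ s ∈ Q.Fp ∧ Q.mf s ≤ m := mem_filter

theorem Imm.ctm_le_N {N : ℕ} (hN : Q.Fp.card ≤ N) : Q.tm ≤ N := Q.tm_le.trans hN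

theorem Imm.cEy_eq (y : V) : Q.Ey y = cEy Q.Fp y := rfl
theorem Imm.cbb_eq (y : V) : Q.bb y = cex Q.Fp y := rfl
theorem Imm.cd1_eq (y : V) : Q.d1 y = cn1 Q.Fp y := rfl

/-- lower bound of the cost by the layers above `j` -/
theorem Imm.cost_ge {N : ℕ} (hN : Q.Fp.card ≤ N) {y : V} {j : ℕ} (h1 : 1 ≤ j) (hj : j ≤ Q.tm)
    {c : ℝ} (hc : ∀ m, j ≤ m → m ≤ Q.tm → c ≤ Q.dR (Q.R m) y) :
    c * ut (Nat.log 2 N + 1) j ≤ Q.cost (Nat.log 2 N + 1) y := by
  unfold Imm.cost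
  rw [← sum_am (Nat.log 2 N + 1) Q.tm j h1 hj, Finset.mul_sum]
  calc ∑ m ∈ Icc j Q.tm, c * am (Nat.log 2 N + 1) Q.tm m
      ≤ ∑ m ∈ Icc j Q.tm, am (Nat.log 2 N + 1) Q.tm m * Q.dR (Q.R m) y := by
        refine Finset.sum_le_sum fun m hm => ?_
        rw [mem_Icc] at hm
        rw [mul_comm]
        exact mul_le_mul_of_nonneg_left (hc m hm.1 hm.2)
          (am_nonneg (h1.trans hm.1) hm.2 (Q.ctm_le_N hN))
    _ ≤ _ := by
        refine Finset.sum_le_sum_of_subset_of_nonneg (Icc_subset_Icc_left h1) fun m hm _ => ?_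
        rw [mem_Icc] at hm
        exact mul_nonneg (am_nonneg hm.1 hm.2 (Q.ctm_le_N hN)) (Q.dR_nonneg (Q.cR_sub m) y)

theorem Imm.cmem_verts_R {m : ℕ} {y : V} {s : Finset V} (hs : s ∈ Q.Fp) (hy : y ∈ s)
    (hm : Q.mf s ≤ m) : y ∈ verts (Q.R m) := mem_verts.2 ⟨s, Q.cmem_R.2 ⟨hs, hm⟩, hy⟩

/-- the maximal multiplicity at a vertex -/
def Imm.cmm (y : V) : ℕ := (star Q.Fp y).sup Q.mf

theorem Imm.cmm_spec {y : V} (hy : y ∈ verts Q.Fp) : 1 ≤ Q.cmm y ∧ Q.cmm y ≤ Q.tm ∧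
    ∀ s ∈ star Q.Fp y, Q.mf s ≤ Q.cmm y := by
  obtain ⟨s, hs, hys⟩ := mem_verts.1 hy
  have h1 : s ∈ star Q.Fp y := mem_filter.2 ⟨hs, hys⟩
  have h2 : ∀ s ∈ star Q.Fp y, Q.mf s ≤ Q.cmm y := fun s hs => Finset.le_sup hs
  refine ⟨(Q.mf_pos hs).1.trans (h2 s h1), ?_, h2⟩
  exact Finset.sup_le fun t ht => (Q.mf_pos (mem_filter.1 ht).1).2

theorem Imm.cstar_full {m : ℕ} {y : V} (h : ∀ s ∈ star Q.Fp y, Q.mf s ≤ m) :
    star (Q.R m) y = star Q.Fp y := by
  ext s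
  constructor
  · intro hs
    obtain ⟨h1, h2⟩ := mem_filter.1 hs
    exact mem_filter.2 ⟨Q.cR_sub m h1, h2⟩
  · intro hs
    obtain ⟨h1, h2⟩ := mem_filter.1 hs
    exact mem_filter.2 ⟨Q.cmem_R.2 ⟨h1, h s hs⟩, h2⟩

theorem kap_congr {α : Type*} [DecidableEq α] {Z Z' : Finset (Finset α)} {y : α}
    (h : star Z y = star Z' y) : kap Z y = kap Z' y := by
  unfold kap
  rw [h]

/-- (a) -/
theorem Imm.cost_quarter {N : ℕ} (hN : Q.Fp.card ≤ N) {y : V} (hy : y ∈ verts Q.Fp)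
    (h : Q.lab y ∈ Q.Ts ∨ y ∈ Q.W ∨ ¬ Q.cyc y) : 1 / 4 ≤ Q.cost (Nat.log 2 N + 1) y := by
  obtain ⟨s, hs, hys⟩ := mem_verts.1 hy
  have h1 := Q.mf_pos hs
  have h2 := Q.cost_ge hN (y := y) (c := 1 / 2) h1.1 h1.2 (by
    intro m hm _
    have hyR := Q.cmem_verts_R hs hys hm
    by_cases hi : Q.intr (Q.R m) y ∧ y ∉ Q.W
    · refine Q.dR_int_half (Q.cR_sub m) hyR hi ?_
      rcases h with h | h | h
      · exact absurd h hi.1.1
      · exact absurd h hi.2
      · exact h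
    · refine le_trans ?_ (Q.dR_ge_half_kap (Q.cR_sub m) hyR hi)
      have h3 : (1 : ℝ) ≤ (kap (Q.R m) y : ℝ) := by exact_mod_cast kap_pos hyR
      linarith)
  have h3 : 1 / 2 ≤ ut (Nat.log 2 N + 1) (Q.mf s) :=
    ut_ge_half h1.1 (h1.2.trans (Q.ctm_le_N hN))
  linarith

/-- (c), (d) -/
theorem Imm.kap_le_cost' {N : ℕ} (hN : Q.Fp.card ≤ N) {y : V} (hy : y ∈ verts Q.Fp)
    (h : Q.lab y ∈ Q.Ts ∨ y ∈ Q.W) : (kap Q.Fp y : ℝ) ≤ 4 * Q.cost (Nat.log 2 N + 1) y := by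
  obtain ⟨h1, h2, h3⟩ := Q.cmm_spec hy
  have h4 := Q.cost_ge hN (y := y) (c := (kap Q.Fp y : ℝ) / 2) h1 h2 (by
    intro m hm _
    have hst := Q.cstar_full (fun s hs => (h3 s hs).trans hm)
    obtain ⟨s, hs, hys⟩ := mem_verts.1 hy
    have hyR := Q.cmem_verts_R hs hys ((h3 s (mem_filter.2 ⟨hs, hys⟩)).trans hm)
    rw [← kap_congr hst]
    refine Q.dR_ge_half_kap (Q.cR_sub m) hyR ?_
    rintro ⟨h5, h6⟩
    rcases h with h | h
    · exact h5.1 h
    · exact h6 h)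
  have h5 : 1 / 2 ≤ ut (Nat.log 2 N + 1) (Q.cmm y) :=
    ut_ge_half h1 (h2.trans (Q.ctm_le_N hN))
  have h6 : (0 : ℝ) ≤ (kap Q.Fp y : ℝ) := Nat.cast_nonneg _
  nlinarith

/-- ordinary vertices off the walk -/
theorem Imm.cost_ord {N : ℕ} (hN : Q.Fp.card ≤ N) {y : V} (hy : y ∈ verts Q.Fp)
    (h1 : Q.lab y ∉ Q.Ts) (h2 : y ∉ Q.W) :
    (kap Q.Fp y : ℝ) - 1 + (Q.bb y : ℝ) / 4 ≤ 2 * Q.cost (Nat.log 2 N + 1) y := by
  obtain ⟨h3, h4, h5⟩ := Q.cmm_spec hy
  obtain ⟨s, hs, hys⟩ := mem_verts.1 hy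
  have h6 := Q.cost_ge hN (y := y) (c := (kap Q.Fp y : ℝ) - 1 + (Q.bb y : ℝ) / 4) h3 h4 (by
    intro m hm _
    have hst := Q.cstar_full (fun s hs => (h5 s hs).trans hm)
    have hyR := Q.cmem_verts_R hs hys ((h5 s (mem_filter.2 ⟨hs, hys⟩)).trans hm)
    rw [Q.dR_int (Q.cR_sub m) hyR]
    refine ⟨⟨h1, ?_, ?_⟩, h2⟩
    · exact ⟨s, mem_filter.2 ⟨(mem_filter.1 hs).1, hys⟩⟩
    · rw [Q.star_ord h1, ← hst]
      exact filter_subset _ _)
  have h7 : 1 / 2 ≤ ut (Nat.log 2 N + 1) (Q.cmm y) :=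
    ut_ge_half h3 (h4.trans (Q.ctm_le_N hN))
  have h8 : (1 : ℝ) ≤ (kap Q.Fp y : ℝ) := by exact_mod_cast kap_pos hy
  have h9 : (0 : ℝ) ≤ (Q.bb y : ℝ) := Nat.cast_nonneg _
  nlinarith

theorem Imm.kap_le_cost {N : ℕ} (hN : Q.Fp.card ≤ N) {y : V} (hy : y ∈ verts Q.Fp) :
    (kap Q.Fp y : ℝ) ≤ 1 + 4 * Q.cost (Nat.log 2 N + 1) y := by
  by_cases h : Q.lab y ∈ Q.Ts ∨ y ∈ Q.W
  · have := Q.kap_le_cost' hN hy h
    linarith
  · rw [not_or] at h
    have h1 := Q.cost_ord hN hy h.1 h.2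
    have h2 := Q.cost_nonneg hN y
    have h3 : (0 : ℝ) ≤ (Q.bb y : ℝ) := Nat.cast_nonneg _
    linarith

theorem Imm.cbb_formula (y : V) :
    (Q.bb y : ℝ) = 2 * (((star Q.Fp y).card : ℝ) - ((Q.Ey y).card : ℝ)) + Q.d1 y := by
  rw [Q.cbb_eq, Q.cd1_eq, Q.cEy_eq]
  exact cex_eq Q.cFp_fam y

theorem Imm.bb_le_cost {N : ℕ} (hN : Q.Fp.card ≤ N) {y : V} (hy : y ∈ verts Q.Fp) :
    (Q.bb y : ℝ) ≤ 8 * Q.cost (Nat.log 2 N + 1) y + Q.d1 y := by
  have hd : (0 : ℝ) ≤ (Q.d1 y : ℝ) := Nat.cast_nonneg _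
  by_cases h : Q.lab y ∈ Q.Ts ∨ y ∈ Q.W
  · obtain ⟨h3, h4, h5⟩ := Q.cmm_spec hy
    obtain ⟨s, hs, hys⟩ := mem_verts.1 hy
    have h6 := Q.cost_ge hN (y := y)
      (c := (kap Q.Fp y : ℝ) - (((Q.Ey y).card : ℝ) - ((star Q.Fp y).card : ℝ)) / 2) h3 h4 (by
      intro m hm _
      have hst := Q.cstar_full (fun s hs => (h5 s hs).trans hm)
      have hyR := Q.cmem_verts_R hs hys ((h5 s (mem_filter.2 ⟨hs, hys⟩)).trans hm)
      have hno : ¬ (Q.intr (Q.R m) y ∧ y ∉ Q.W) := by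
        rintro ⟨h5, h6⟩
        rcases h with h | h
        · exact h5.1 h
        · exact h6 h
      unfold Imm.dR
      rw [if_pos hyR, if_neg hno, kap_congr hst, hst]
      have h7 : ((edgs (Q.R m)).filter (fun e => y ∈ e)) = Q.Ey y := cEy_congr hst
      rw [h7]
      linarith)
    have h7 : 1 / 2 ≤ ut (Nat.log 2 N + 1) (Q.cmm y) :=
      ut_ge_half h3 (h4.trans (Q.ctm_le_N hN))
    have h8 : ut (Nat.log 2 N + 1) (Q.cmm y) ≤ 1 := ut_le_one _ _
    have h9 := Q.cbb_formula y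
    have h10 : (0 : ℝ) ≤ (kap Q.Fp y : ℝ) := Nat.cast_nonneg _
    have h11 := Q.cost_nonneg hN y
    set c := (kap Q.Fp y : ℝ) - (((Q.Ey y).card : ℝ) - ((star Q.Fp y).card : ℝ)) / 2 with hc
    rcases le_or_gt 0 c with h12 | h12
    · have h13 : c / 2 ≤ Q.cost (Nat.log 2 N + 1) y := by nlinarith
      nlinarith
    · nlinarith
  · rw [not_or] at h
    have h1 := Q.cost_ord hN hy h.1 h.2
    have h8 : (1 : ℝ) ≤ (kap Q.Fp y : ℝ) := by exact_mod_cast kap_pos hy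
    linarith

/-- `-chi(L_y) ≤ 4 cost`, `chi = |Ey| - |star|` -/
theorem Imm.chi_le_cost {N : ℕ} (hN : Q.Fp.card ≤ N) {y : V} (hy : y ∈ verts Q.Fp) :
    ((star Q.Fp y).card : ℝ) - ((Q.Ey y).card : ℝ) ≤ 4 * Q.cost (Nat.log 2 N + 1) y := by
  have h1 := Q.bb_le_cost hN hy
  have h2 := Q.cbb_formula y
  linarith

/-! ### total variation -/

theorem Imm.cmine {e : Finset V} (he : ∃ s ∈ Q.Fp, e ⊆ s) :
    (∃ s ∈ Q.Fp, e ⊆ s ∧ Q.mf s = Q.mine e) ∧ (∀ s ∈ Q.Fp, e ⊆ s → Q.mine e ≤ Q.mf s) := by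
  constructor
  · have h1 : {m : ℕ | ∃ s ∈ Q.Fp, e ⊆ s ∧ Q.mf s = m}.Nonempty := by
      obtain ⟨s, hs, h⟩ := he
      exact ⟨Q.mf s, s, hs, h, rfl⟩
    exact Nat.sInf_mem h1
  · intro s hs h
    exact Nat.sInf_le ⟨s, hs, h, rfl⟩

theorem Imm.cmaxe {e : Finset V} (he : ∃ s ∈ Q.Fp, e ⊆ s) :
    (∃ s ∈ Q.Fp, e ⊆ s ∧ Q.mf s = Q.maxe e) ∧ (∀ s ∈ Q.Fp, e ⊆ s → Q.mf s ≤ Q.maxe e) := by
  constructor
  · have h1 : (Q.Fp.filter (fun s => e ⊆ s)).Nonempty := by
      obtain ⟨s, hs, h⟩ := he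
      exact ⟨s, mem_filter.2 ⟨hs, h⟩⟩
    obtain ⟨s, hs, h⟩ := Finset.exists_mem_eq_sup _ h1 Q.mf
    rw [mem_filter] at hs
    exact ⟨s, hs.1, hs.2, h.symm⟩
  · intro s hs h
    exact Finset.le_sup (f := Q.mf) (mem_filter.2 ⟨hs, h⟩)

/-- number of transitions at level `m` -/
noncomputable def Imm.ctr (y : V) (m : ℕ) : ℕ := ((Q.Ey y).filter (fun e => Q.mine e ≤ m ∧ m < Q.maxe e)).card

theorem Imm.cEy_ex {y : V} {e : Finset V} (he : e ∈ Q.Ey y) : ∃ s ∈ Q.Fp, e ⊆ s :=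
  (mem_cEy.1 he).2

theorem Imm.TV_eq (J : ℕ) (y : V) :
    Q.TV J y = ∑ m ∈ Icc 1 Q.tm, am J Q.tm m * Q.ctr y m := by
  unfold Imm.TV Imm.ctr
  have h1 : ∀ e ∈ Q.Ey y, ut J (Q.mine e) - ut J (Q.maxe e) =
      ∑ m ∈ Icc 1 Q.tm, (if Q.mine e ≤ m ∧ m < Q.maxe e then am J Q.tm m else 0) := by
    intro e he
    obtain ⟨⟨s, hs, hes, hsm⟩, h2⟩ := Q.cmine (Q.cEy_ex he)
    obtain ⟨⟨t, ht, het, htm⟩, h3⟩ := Q.cmaxe (Q.cEy_ex he)
    have h4 : 1 ≤ Q.mine e := by rw [← hsm]; exact (Q.mf_pos hs).1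
    have h5 : Q.mine e ≤ Q.maxe e := by rw [← hsm]; exact h3 s hs hes
    have h6 : Q.maxe e ≤ Q.tm := by rw [← htm]; exact (Q.mf_pos ht).2
    rw [← sum_am_Ico J Q.tm _ _ h4 h5 h6, ← Finset.sum_filter]
    refine Finset.sum_congr ?_ fun _ _ => rfl
    ext m
    rw [mem_Ico, mem_filter, mem_Icc]
    omega
  rw [Finset.sum_congr rfl h1, Finset.sum_comm]
  refine Finset.sum_congr rfl fun m _ => ?_
  rw [← Finset.sum_filter, Finset.sum_const, nsmul_eq_mul, mul_comm]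

theorem Imm.ctr_le {y : V} (m : ℕ) :
    (Q.ctr y m : ℝ) ≤ 4 * Q.dR (Q.R m) y + 2 * Q.bb y := by
  have hbb : (0 : ℝ) ≤ (Q.bb y : ℝ) := Nat.cast_nonneg _
  have hD := Q.dR_nonneg (Q.cR_sub m) y
  rcases Nat.eq_zero_or_pos (Q.ctr y m) with h0 | h0
  · rw [h0]; push_cast; linarith
  · obtain ⟨e, he⟩ := card_pos.1 h0
    rw [mem_filter] at he
    obtain ⟨heE, he1, he2⟩ := he
    have hye : y ∈ e := (mem_cEy.1 heE).1.2
    obtain ⟨⟨s, hs, hes, hsm⟩, _⟩ := Q.cmine (Q.cEy_ex heE)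
    obtain ⟨⟨t, ht, het, htm⟩, _⟩ := Q.cmaxe (Q.cEy_ex heE)
    have hyR : y ∈ verts (Q.R m) := Q.cmem_verts_R hs (hes hye) (by omega)
    have hno : ¬ (Q.intr (Q.R m) y ∧ y ∉ Q.W) := by
      rintro ⟨h5, _⟩
      have h6 : t ∈ star Q.F y := mem_filter.2 ⟨(mem_filter.1 ht).1, het hye⟩
      have h7 := h5.2.2 h6
      rw [Q.cmem_R] at h7
      omega
    have h1 := Q.dR_ge_half_kap (Q.cR_sub m) hyR hno
    have h2 : Q.dR (Q.R m) y = (kap (Q.R m) y : ℝ) -
        (((cEy (Q.R m) y).card : ℝ) - ((star (Q.R m) y).card : ℝ)) / 2 := by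
      unfold Imm.dR
      rw [if_pos hyR, if_neg hno, sub_zero]
      rfl
    have hfam : IsFam (Q.R m) := fun s hs => Q.cFp_fam s (Q.cR_sub m hs)
    have h3 := cex_eq hfam y
    -- excess
    have hsub : cEy (Q.R m) y ⊆ Q.Ey y := by
      intro f hf
      obtain ⟨h4, u, hu, hfu⟩ := mem_cEy.1 hf
      exact mem_cEy.2 ⟨h4, u, Q.cR_sub m hu, hfu⟩
    have h4 : cex (Q.R m) y ≤ Q.bb y := by
      unfold cex Imm.bb
      calc ∑ f ∈ cEy (Q.R m) y, (edeg (Q.R m) f - 2) ≤ ∑ f ∈ cEy (Q.R m) y, (edeg Q.Fp f - 2) :=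
            Finset.sum_le_sum fun f _ => Nat.sub_le_sub_right (edeg_mono (Q.cR_sub m) f) 2
        _ ≤ _ := Finset.sum_le_sum_of_subset hsub
    have h5 : Q.ctr y m ≤ cn1 (Q.R m) y + Q.bb y := by
      have h6 : (Q.Ey y).filter (fun e => Q.mine e ≤ m ∧ m < Q.maxe e) ⊆
          ((cEy (Q.R m) y).filter (fun f => edeg (Q.R m) f = 1)) ∪
            (Q.Ey y).filter (fun f => 3 ≤ edeg Q.Fp f) := by
        intro f hf
        rw [mem_filter] at hf
        obtain ⟨hfE, hf1, hf2⟩ := hf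
        obtain ⟨⟨u, hu, hfu, hum⟩, _⟩ := Q.cmine (Q.cEy_ex hfE)
        obtain ⟨⟨v, hv, hfv, hvm⟩, _⟩ := Q.cmaxe (Q.cEy_ex hfE)
        have huR : u ∈ Q.R m := Q.cmem_R.2 ⟨hu, by omega⟩
        have hfR : f ∈ cEy (Q.R m) y := mem_cEy.2 ⟨(mem_cEy.1 hfE).1, u, huR, hfu⟩
        rw [mem_union, mem_filter, mem_filter]
        by_cases h7 : edeg (Q.R m) f = 1
        · exact Or.inl ⟨hfR, h7⟩
        · refine Or.inr ⟨hfE, ?_⟩
          have h8 : 0 < edeg (Q.R m) f := edeg_pos.2 ⟨u, huR, hfu⟩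
          have h9 : edeg (Q.R m) f < edeg Q.Fp f := by
            unfold edeg
            refine card_lt_card ?_
            rw [ssubset_iff_of_subset (filter_subset_filter _ (Q.cR_sub m))]
            refine ⟨v, mem_filter.2 ⟨hv, hfv⟩, ?_⟩
            intro h10
            have := (Q.cmem_R.1 (mem_filter.1 h10).1).2
            omega
          omega
      have h7 : ((Q.Ey y).filter (fun f => 3 ≤ edeg Q.Fp f)).card ≤ Q.bb y := by
        unfold Imm.bb
        rw [Finset.card_filter]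
        refine Finset.sum_le_sum fun f _ => ?_
        split_ifs <;> omega
      have h8 := (card_le_card h6).trans (card_union_le _ _)
      unfold Imm.ctr cn1
      omega
    have h6 : (Q.ctr y m : ℝ) ≤ (cn1 (Q.R m) y : ℝ) + (Q.bb y : ℝ) := by exact_mod_cast h5
    have h7 : (cex (Q.R m) y : ℝ) ≤ (Q.bb y : ℝ) := by exact_mod_cast h4
    linarith

/-- (e) -/
theorem Imm.TV_le {N : ℕ} (hN : Q.Fp.card ≤ N) {y : V} (hy : y ∈ verts Q.Fp) :
    Q.TV (Nat.log 2 N + 1) y ≤ 20 * Q.cost (Nat.log 2 N + 1) y + 2 * Q.d1 y := by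
  have htm : 1 ≤ Q.tm := (Q.cmm_spec hy).1.trans (Q.cmm_spec hy).2.1
  rw [Q.TV_eq]
  have h1 : ∑ m ∈ Icc 1 Q.tm, am (Nat.log 2 N + 1) Q.tm m * (Q.ctr y m : ℝ) ≤
      ∑ m ∈ Icc 1 Q.tm, am (Nat.log 2 N + 1) Q.tm m * (4 * Q.dR (Q.R m) y + 2 * Q.bb y) := by
    refine Finset.sum_le_sum fun m hm => ?_
    rw [mem_Icc] at hm
    exact mul_le_mul_of_nonneg_left (Q.ctr_le m) (am_nonneg hm.1 hm.2 (Q.ctm_le_N hN))
  have h2 : ∑ m ∈ Icc 1 Q.tm, am (Nat.log 2 N + 1) Q.tm m * (4 * Q.dR (Q.R m) y + 2 * Q.bb y)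
      = 4 * Q.cost (Nat.log 2 N + 1) y + 2 * Q.bb y := by
    unfold Imm.cost
    have h3 : ∀ m ∈ Icc 1 Q.tm,
        am (Nat.log 2 N + 1) Q.tm m * (4 * Q.dR (Q.R m) y + 2 * Q.bb y) =
        4 * (am (Nat.log 2 N + 1) Q.tm m * Q.dR (Q.R m) y) +
          am (Nat.log 2 N + 1) Q.tm m * (2 * Q.bb y) := fun m _ => by ring
    rw [Finset.sum_congr rfl h3, Finset.sum_add_distrib, ← Finset.mul_sum, ← Finset.sum_mul,
      sum_am _ _ 1 le_rfl htm, ut_one]
    ring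
  have h3 := Q.bb_le_cost hN hy
  linarith

/-- (b) -/
theorem Imm.cost_cyc_TV {N : ℕ} (hN : Q.Fp.card ≤ N) {y : V} (hy : y ∈ verts Q.Fp)
    (h1 : Q.lab y ∉ Q.Ts) (h2 : y ∉ Q.W) (h3 : Q.cyc y) :
    Q.cost (Nat.log 2 N + 1) y = Q.TV (Nat.log 2 N + 1) y / 4 := by
  have _ := hN
  have _ := hy
  rw [Q.TV_eq, Finset.sum_div]
  unfold Imm.cost
  refine Finset.sum_congr rfl fun m _ => ?_
  rw [mul_div_assoc]
  congr 1
  have hbb : Q.bb y = 0 := by
    unfold Imm.bb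
    exact Finset.sum_eq_zero fun e he => by simp [h3.2 e he]
  refine le_antisymm ?_ ?_
  · by_cases hyR : y ∈ verts (Q.R m)
    · by_cases hi : Q.intr (Q.R m) y
      · rw [Q.dR_int (Q.cR_sub m) hyR ⟨hi, h2⟩, h3.1, hbb]
        push_cast
        have : (0 : ℝ) ≤ (Q.ctr y m : ℝ) := Nat.cast_nonneg _
        linarith
      · have hno : ¬ (Q.intr (Q.R m) y ∧ y ∉ Q.W) := fun h => hi h.1
        have hne : ∃ s ∈ star Q.Fp y, s ∉ Q.R m := by
          by_contra hcon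
          push Not at hcon
          apply hi
          refine ⟨h1, ?_, ?_⟩
          · obtain ⟨s, hs, hys⟩ := mem_verts.1 hyR
            exact ⟨s, mem_filter.2 ⟨(mem_filter.1 (Q.cR_sub m hs)).1, hys⟩⟩
          · rw [Q.star_ord h1]
            exact hcon
        have h4 := two_kap_le Q.cFp_fam (Q.cR_sub m) h3.1 h3.2 hne
        have hfam : IsFam (Q.R m) := fun s hs => Q.cFp_fam s (Q.cR_sub m hs)
        have h5 := cex_eq hfam y
        have h6 : (0 : ℝ) ≤ (cex (Q.R m) y : ℝ) := Nat.cast_nonneg _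
        have h7 : cn1 (Q.R m) y ≤ Q.ctr y m := by
          unfold cn1 Imm.ctr
          refine card_le_card ?_
          intro e he
          rw [mem_filter] at he
          obtain ⟨he1, he2⟩ := he
          obtain ⟨h8, u, hu, heu⟩ := mem_cEy.1 he1
          have heE : e ∈ Q.Ey y := mem_cEy.2 ⟨h8, u, Q.cR_sub m hu, heu⟩
          have h9 : edeg Q.Fp e = 2 := h3.2 e heE
          have h10 : ∃ v ∈ Q.Fp, e ⊆ v ∧ v ∉ Q.R m := by
            by_contra hcon
            push Not at hcon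
            have h11 : edeg Q.Fp e ≤ edeg (Q.R m) e := by
              unfold edeg
              refine card_le_card fun v hv => ?_
              rw [mem_filter] at hv
              exact mem_filter.2 ⟨hcon v hv.1 hv.2, hv.2⟩
            omega
          obtain ⟨v, hv, hev, hvR⟩ := h10
          rw [mem_filter]
          refine ⟨heE, ?_, ?_⟩
          · exact ((Q.cmine (Q.cEy_ex heE)).2 u (Q.cR_sub m hu) heu).trans (Q.cmem_R.1 hu).2
          · have h12 : ¬ Q.mf v ≤ m := fun h => hvR (Q.cmem_R.2 ⟨hv, h⟩)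
            have h13 := (Q.cmaxe (Q.cEy_ex heE)).2 v hv hev
            omega
        have h8 : Q.dR (Q.R m) y = (kap (Q.R m) y : ℝ) -
            (((cEy (Q.R m) y).card : ℝ) - ((star (Q.R m) y).card : ℝ)) / 2 := by
          unfold Imm.dR
          rw [if_pos hyR, if_neg hno, sub_zero]
          rfl
        have h9 : (2 : ℝ) * (kap (Q.R m) y : ℝ) ≤ (cn1 (Q.R m) y : ℝ) := by exact_mod_cast h4
        have h10 : (cn1 (Q.R m) y : ℝ) ≤ (Q.ctr y m : ℝ) := by exact_mod_cast h7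
        have h11 : cex (Q.R m) y = 0 := by
          unfold cex
          refine Finset.sum_eq_zero fun e he => ?_
          obtain ⟨h8, u, hu, heu⟩ := mem_cEy.1 he
          have heE : e ∈ Q.Ey y := mem_cEy.2 ⟨h8, u, Q.cR_sub m hu, heu⟩
          have := edeg_mono (Q.cR_sub m) e
          rw [h3.2 e heE] at this
          omega
        rw [h11] at h5
        push_cast at h5
        rw [h8]
        linarith
    · have h4 : Q.dR (Q.R m) y = 0 := by
        unfold Imm.dR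
        rw [if_neg hyR]
      rw [h4]
      positivity
  · have h4 := Q.ctr_le (y := y) m
    rw [hbb] at h4
    push_cast at h4
    linarith

theorem Imm.cost_cyc_osc {N : ℕ} (hN : Q.Fp.card ≤ N) {y : V} (hy : y ∈ verts Q.Fp)
    (h1 : Q.lab y ∉ Q.Ts) (h2 : y ∉ Q.W) (h3 : Q.cyc y) {s s' : Finset V} (hs : s ∈ star Q.Fp y)
    (hs' : s' ∈ star Q.Fp y) :
    (ut (Nat.log 2 N + 1) (Q.mf s) - ut (Nat.log 2 N + 1) (Q.mf s')) / 2
      ≤ Q.cost (Nat.log 2 N + 1) y := by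
  have _ := hy
  have _ := h1
  have _ := h2
  have _ := h3
  obtain ⟨hsF, hys⟩ := mem_filter.1 hs
  obtain ⟨hsF', hys'⟩ := mem_filter.1 hs'
  have hp := Q.mf_pos hsF
  have hp' := Q.mf_pos hsF'
  rcases le_or_gt (Q.mf s') (Q.mf s) with h | h
  · have h4 := ut_anti (Nat.log 2 N + 1) hp'.1 h
    have h5 := Q.cost_nonneg hN y
    linarith
  · rw [← sum_am_Ico (Nat.log 2 N + 1) Q.tm _ _ hp.1 h.le hp'.2, Finset.sum_div]
    unfold Imm.cost
    calc ∑ m ∈ Ico (Q.mf s) (Q.mf s'), am (Nat.log 2 N + 1) Q.tm m / 2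
        ≤ ∑ m ∈ Ico (Q.mf s) (Q.mf s'), am (Nat.log 2 N + 1) Q.tm m * Q.dR (Q.R m) y := by
          refine Finset.sum_le_sum fun m hm => ?_
          rw [mem_Ico] at hm
          have h4 := am_nonneg (N := N) (hp.1.trans hm.1) (hm.2.le.trans hp'.2) (Q.ctm_le_N hN)
          have hyR := Q.cmem_verts_R hsF hys hm.1
          have h5 : (1 : ℝ) / 2 ≤ Q.dR (Q.R m) y := by
            refine le_trans ?_ (Q.dR_ge_half_kap (Q.cR_sub m) hyR ?_)
            · have : (1 : ℝ) ≤ (kap (Q.R m) y : ℝ) := by exact_mod_cast kap_pos hyR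
              linarith
            · rintro ⟨h6, _⟩
              have h7 : s' ∈ star Q.F y := mem_filter.2 ⟨(mem_filter.1 hsF').1, hys'⟩
              have h8 := (Q.cmem_R.1 (h6.2.2 h7)).2
              omega
          have := mul_le_mul_of_nonneg_left h5 h4
          linarith
      _ ≤ _ := by
          refine Finset.sum_le_sum_of_subset_of_nonneg ?_ fun m hm _ => ?_
          · intro m hm
            rw [mem_Ico] at hm
            rw [mem_Icc]
            omega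
          · rw [mem_Icc] at hm
            exact mul_nonneg (am_nonneg hm.1 hm.2 (Q.ctm_le_N hN)) (Q.dR_nonneg (Q.cR_sub m) y)

/-! ### global sums -/

theorem Imm.sum_cost_le {N : ℕ} (hN : Q.Fp.card ≤ N) :
    ∑ y ∈ verts Q.Fp, Q.cost (Nat.log 2 N + 1) y ≤ 3 * Q.GG (Nat.log 2 N + 1) := by
  have h1 : 0 ≤ ∑ x ∈ univ.filter (fun x => x ∉ Q.Ts), Q.Gx (Nat.log 2 N + 1) x :=
    Finset.sum_nonneg fun x _ => Q.Gx_nonneg hN x
  unfold Imm.GG
  linarith

theorem Imm.cT_le {N : ℕ} (hN : Q.Fp.card ≤ N) :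
    (Q.cT : ℝ) ≤ 12 * Q.GG (Nat.log 2 N + 1) := by
  have h1 := Q.sum_cost_le hN
  have h2 : (Q.cT : ℝ) * (1 / 4) ≤ ∑ y ∈ verts Q.Fp, Q.cost (Nat.log 2 N + 1) y := by
    unfold Imm.cT
    rw [← nsmul_eq_mul, ← Finset.sum_const]
    refine (Finset.sum_le_sum fun y hy => ?_).trans
      (Finset.sum_le_sum_of_subset_of_nonneg (filter_subset _ _)
        fun y _ _ => Q.cost_nonneg hN y)
    rw [mem_filter] at hy
    exact Q.cost_quarter hN hy.1 (Or.inl hy.2)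
  linarith

/-- number of pairs of degree one inside `T` at a vertex -/
theorem Imm.cTedges (y : V) :
    ((Q.Ey y).filter (fun e => e.image Q.lab ⊆ Q.T)).card ≤ Q.Ts.card := by
  have h1 : ((Q.Ey y).filter (fun e => e.image Q.lab ⊆ Q.T)).card ≤
      (Q.Ts.image (fun x => ({x} : Finset (Fin n)))).card := by
    refine card_le_card_of_injOn (fun e => (e.erase y).image Q.lab) ?_ ?_
    · intro e he
      have he' := mem_filter.1 (mem_coe.1 he)
      obtain ⟨⟨h2, h3⟩, _⟩ := mem_cEy.1 he'.1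
      have h4 : (e.erase y).card = 1 := by rw [card_erase_of_mem h3, h2]
      obtain ⟨z, hz⟩ := card_eq_one.1 h4
      have hze : z ∈ e := mem_of_mem_erase (by rw [hz]; exact mem_singleton_self z)
      rw [mem_coe, mem_image]
      refine ⟨Q.lab z, Q.T_sub (he'.2 (mem_image_of_mem Q.lab hze)), ?_⟩
      show ({Q.lab z} : Finset (Fin n)) = (e.erase y).image Q.lab
      rw [hz, image_singleton]
    · intro e he e' he' hee
      have he2 := mem_filter.1 (mem_coe.1 he)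
      have he2' := mem_filter.1 (mem_coe.1 he')
      obtain ⟨⟨h2, h3⟩, s, hs, hes⟩ := mem_cEy.1 he2.1
      obtain ⟨⟨h2', h3'⟩, s', hs', hes'⟩ := mem_cEy.1 he2'.1
      have h4 : (e.erase y).card = 1 := by rw [card_erase_of_mem h3, h2]
      have h4' : (e'.erase y).card = 1 := by rw [card_erase_of_mem h3', h2']
      obtain ⟨z, hz⟩ := card_eq_one.1 h4
      obtain ⟨z', hz'⟩ := card_eq_one.1 h4'
      have hE : e ∈ Q.E := Q.F_E s (mem_filter.1 hs).1 e (mem_powersetCard.2 ⟨hes, h2⟩)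
      have hE' : e' ∈ Q.E := Q.F_E s' (mem_filter.1 hs').1 e' (mem_powersetCard.2 ⟨hes', h2'⟩)
      have h5 : e = {y, z} := by rw [← insert_erase h3, hz]
      have h5' : e' = {y, z'} := by rw [← insert_erase h3', hz']
      have h6 : Q.lab z = Q.lab z' := by
        have h7 : (e.erase y).image Q.lab = (e'.erase y).image Q.lab := hee
        rw [hz, hz', image_singleton, image_singleton, singleton_inj] at h7
        exact h7
      have h7 := Q.imm y z z' (by rw [← h5]; exact hE) (by rw [← h5']; exact hE') h6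
      rw [h5, h5', h7]
  exact h1.trans card_image_le

/-- sum of `d1` -/
theorem Imm.sum_d1_le : (∑ y ∈ verts Q.Fp, Q.d1 y : ℕ) ≤ 2 * Q.lp + Q.Ts.card * Q.cT := by
  have h1 : ∀ y ∈ verts Q.Fp, Q.d1 y ≤
      (∑ e ∈ cEy Q.Fp y, if (edeg Q.Fp e = 1 ∧ ¬ e.image Q.lab ⊆ Q.T) then 1 else 0) +
        (if Q.lab y ∈ Q.Ts then Q.Ts.card else 0) := by
    intro y _
    have h2 : Q.d1 y ≤ (((cEy Q.Fp y).filter
        (fun e => edeg Q.Fp e = 1 ∧ ¬ e.image Q.lab ⊆ Q.T))).card +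
        ((Q.Ey y).filter (fun e => e.image Q.lab ⊆ Q.T)).card := by
      unfold Imm.d1
      refine (card_le_card ?_).trans (card_union_le _ _)
      intro e he
      rw [mem_filter] at he
      rw [mem_union, mem_filter, mem_filter]
      by_cases h3 : e.image Q.lab ⊆ Q.T
      · exact Or.inr ⟨he.1, h3⟩
      · exact Or.inl ⟨he.1, he.2, h3⟩
    have h3 : ((Q.Ey y).filter (fun e => e.image Q.lab ⊆ Q.T)).card ≤
        (if Q.lab y ∈ Q.Ts then Q.Ts.card else 0) := by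
      split_ifs with h4
      · exact Q.cTedges y
      · rw [Nat.le_zero, card_eq_zero, filter_eq_empty_iff]
        intro e he h5
        exact h4 (Q.T_sub (h5 (mem_image_of_mem Q.lab (mem_cEy.1 he).1.2)))
    rw [card_filter] at h2
    omega
  refine (Finset.sum_le_sum h1).trans ?_
  rw [Finset.sum_add_distrib, sum_cEy, ← card_filter]
  have h2 : ((edgs Q.Fp).filter (fun e => edeg Q.Fp e = 1 ∧ ¬ e.image Q.lab ⊆ Q.T)).card ≤ Q.lp := by
    refine le_trans (card_le_card ?_) Q.tr_lp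
    intro e he
    rw [mem_filter] at he
    obtain ⟨he1, he2, he3⟩ := he
    obtain ⟨h2, s, hs, hes⟩ := mem_edgs.1 he1
    have hE : e ∈ Q.E := Q.F_E s (mem_filter.1 hs).1 e (mem_powersetCard.2 ⟨hes, h2⟩)
    rw [mem_filter]
    refine ⟨?_, he3⟩
    by_contra h4
    apply Q.deg1 e hE h4
    rw [← he2]
    unfold edeg
    congr 1
    ext t
    rw [mem_filter, mem_filter]
    constructor
    · rintro ⟨h5, h6⟩
      refine ⟨mem_filter.2 ⟨h5, ?_⟩, h6⟩
      intro h7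
      exact he3 ((image_subset_image h6).trans h7)
    · rintro ⟨h5, h6⟩
      exact ⟨(mem_filter.1 h5).1, h6⟩
  have h3 : ∑ y ∈ verts Q.Fp, (if Q.lab y ∈ Q.Ts then Q.Ts.card else 0) = Q.Ts.card * Q.cT := by
    rw [← Finset.sum_filter, Finset.sum_const, smul_eq_mul, mul_comm]
    rfl
  rw [h3]
  omega

/-- total excess (5.3(e)) -/
theorem Imm.bbt_le {N : ℕ} (hN : Q.Fp.card ≤ N) :
    (Q.bbt : ℝ) ≤ 30 * Q.Ts.card * Q.GG (Nat.log 2 N + 1) + 4 * Q.lp := by
  have h1 : ∑ y ∈ verts Q.Fp, Q.bb y = 2 * Q.bbt := sum_cEy Q.Fp (fun e => edeg Q.Fp e - 2)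
  have h2 : (2 : ℝ) * Q.bbt = ∑ y ∈ verts Q.Fp, (Q.bb y : ℝ) := by
    have : ((∑ y ∈ verts Q.Fp, Q.bb y : ℕ) : ℝ) = ((2 * Q.bbt : ℕ) : ℝ) := by rw [h1]
    push_cast at this
    exact this.symm
  have h3 : ∑ y ∈ verts Q.Fp, (Q.bb y : ℝ) ≤
      8 * ∑ y ∈ verts Q.Fp, Q.cost (Nat.log 2 N + 1) y + ∑ y ∈ verts Q.Fp, (Q.d1 y : ℝ) := by
    rw [Finset.mul_sum, ← Finset.sum_add_distrib]
    exact Finset.sum_le_sum fun y hy => Q.bb_le_cost hN hy
  have h4 : ∑ y ∈ verts Q.Fp, (Q.d1 y : ℝ) ≤ 2 * Q.lp + Q.Ts.card * Q.cT := by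
    have : ((∑ y ∈ verts Q.Fp, Q.d1 y : ℕ) : ℝ) ≤ ((2 * Q.lp + Q.Ts.card * Q.cT : ℕ) : ℝ) := by
      exact_mod_cast Q.sum_d1_le
    push_cast at this
    exact this
  have h5 := Q.sum_cost_le hN
  have h6 := Q.cT_le hN
  have h7 : (3 : ℝ) ≤ Q.Ts.card := by exact_mod_cast Q.three
  have h8 : 0 ≤ Q.GG (Nat.log 2 N + 1) := by
    have : (0 : ℝ) ≤ (Q.cT : ℝ) := Nat.cast_nonneg _
    linarith
  have h9 : (Q.Ts.card : ℝ) * Q.cT ≤ Q.Ts.card * (12 * Q.GG (Nat.log 2 N + 1)) :=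
    mul_le_mul_of_nonneg_left h6 (by linarith)
  have h10 : (0 : ℝ) ≤ Q.lp := Nat.cast_nonneg _
  have h11 : 3 * Q.GG (Nat.log 2 N + 1) ≤ Q.Ts.card * Q.GG (Nat.log 2 N + 1) :=
    mul_le_mul_of_nonneg_right h7 h8
  nlinarith

end Pool.Agent.SC
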