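import Pool.Agent.Lib.MP_d0323d_co.FamBasic
/-! Module CUTCAP (9.4): cut and cap. -/
set_option autoImplicit false
namespace Pool.Agent.SC
open Finset
variable {α : Type} [DecidableEq α]

/-- edge-adjacent across a pair not in `C` -/
def CAdj (C : Finset (Finset α)) (s t : Finset α) : Prop := (s ∩ t).card = 2 ∧ s ∩ t ∉ C

/-- number of link classes at `x`, cut at `C` -/
noncomputable def kapC (Z C : Finset (Finset α)) (x : α) : ℕ := ncl (star Z x) (CAdj C)

/-- free sides: `(s,e)`, `e` a pair of `s` in `C` or of degree 1 -/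
def freeS (Z C : Finset (Finset α)) : Finset (Finset α × Finset α) :=
  (Z ×ˢ edgs Z).filter (fun q => q.2 ⊆ q.1 ∧ (q.2 ∈ C ∨ edeg Z q.2 = 1))

/-- (H): the two sides of a cut pair are in different classes at each end -/
def HypH (Z C : Finset (Finset α)) : Prop :=
  ∀ s ∈ Z, ∀ t ∈ Z, s ≠ t → s ∩ t ∈ C → (s ∩ t).card = 2 → ∀ y ∈ s ∩ t,
    ¬ Relation.ReflTransGen (fun a b => a ∈ star Z y ∧ b ∈ star Z y ∧ CAdj C a b) s t

/-- result of cut-and-cap: a closed surface `S` on a new type with projection `P` -/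
structure CutCap (Z C : Finset (Finset α)) where
  β : Type
  dec : DecidableEq β
  S : Finset (Finset β)
  P : β → Option α
  /-- number of caps -/
  h : ℕ
  surf : IsSurf S
  card_S : S.card = Z.card + (freeS Z C).card
  card_V : (verts S).card = ∑ x ∈ verts Z, kapC Z C x + h
  h_le : 3 * h ≤ (freeS Z C).card
  h_pos : 0 < (freeS Z C).card → 1 ≤ h
  h_card : ((verts S).filter (fun w => P w = none)).card = h
  b0_eq : b0 S = ncl Z (CAdj C)
  /-- number of vertices over `x` -/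
  fib : ∀ x ∈ verts Z, ((verts S).filter (fun w => P w = some x)).card = kapC Z C x
  enc : ∀ s : Finset α, s ∈ Z ↔ ∃ t ∈ S, (∀ w ∈ t, (P w).isSome) ∧ ∀ x, x ∈ s ↔ ∃ w ∈ t, P w = some x
  /-- lifting data: the lift `f s` of each face, injective; adjacency is preserved exactly -/
  f : Finset α → Finset β
  f_mem : ∀ s ∈ Z, f s ∈ S ∧ (∀ w ∈ f s, (P w).isSome) ∧ ∀ x, x ∈ s ↔ ∃ w ∈ f s, P w = some x
  f_inj : ∀ s ∈ Z, ∀ t ∈ Z, f s = f t → s = t
  f_surj : ∀ t ∈ S, (∀ w ∈ t, (P w).isSome) → ∃ s ∈ Z, f s = t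
  f_adj : ∀ s ∈ Z, ∀ t ∈ Z, s ≠ t → (EAdj (f s) (f t) ↔ CAdj C s t)
  /-- each cap vertex: its link is a cycle of free sides; two faces with a cap vertex that share a
  pair without caps do not exist -/
  cap_adj : ∀ t ∈ S, ∀ t' ∈ S, t ≠ t' → (∃ w ∈ t, P w = none) → (∃ w ∈ t', P w = none) →
    EAdj t t' → ∃ w ∈ t ∩ t', P w = none
  one_cap : ∀ t ∈ S, (t.filter (fun w => P w = none)).card ≤ 1

namespace CC

/-! ### Reachability classes in a finset -/

/-- reachability in a finset -/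
def Rch {β : Type*} (A : Finset β) (r : β → β → Prop) (a b : β) : Prop :=
  Relation.ReflTransGen (fun a b => a ∈ A ∧ b ∈ A ∧ r a b) a b

theorem Rch.symm {β : Type*} {A : Finset β} {r : β → β → Prop} (hs : ∀ a b, r a b → r b a) {a b : β}
    (h : Rch A r a b) : Rch A r b a :=
  rtg_symm (fun _ _ h => ⟨h.2.1, h.1, hs _ _ h.2.2⟩) h

theorem Rch.mono {β : Type*} {A B : Finset β} {r : β → β → Prop} (hAB : A ⊆ B) {a b : β}
    (h : Rch A r a b) : Rch B r a b :=
  Relation.ReflTransGen.mono (fun _ _ h => ⟨hAB h.1, hAB h.2.1, h.2.2⟩) _ _ h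

open Classical in
/-- the class of `a` -/
noncomputable def cl {β : Type*} (A : Finset β) (r : β → β → Prop) (a : β) : Finset β :=
  A.filter (fun b => Rch A r a b)

theorem mem_cl {β : Type*} {A : Finset β} {r : β → β → Prop} {a b : β} :
    b ∈ cl A r a ↔ b ∈ A ∧ Rch A r a b := by
  classical
  unfold cl
  rw [mem_filter]

theorem self_mem_cl {β : Type*} {A : Finset β} {r : β → β → Prop} {a : β} (ha : a ∈ A) :
    a ∈ cl A r a := mem_cl.2 ⟨ha, Relation.ReflTransGen.refl⟩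

theorem cl_eq_iff {β : Type*} {A : Finset β} {r : β → β → Prop} (hs : ∀ a b, r a b → r b a)
    {a b : β} (hb : b ∈ A) : cl A r a = cl A r b ↔ Rch A r a b := by
  constructor
  · intro h
    exact (mem_cl.1 (h ▸ self_mem_cl hb)).2
  · intro h
    ext c
    rw [mem_cl, mem_cl]
    exact ⟨fun hc => ⟨hc.1, (h.symm hs).trans hc.2⟩, fun hc => ⟨hc.1, h.trans hc.2⟩⟩

theorem cl_eq_of_mem {β : Type*} {A : Finset β} {r : β → β → Prop} (hs : ∀ a b, r a b → r b a)
    {a b : β} (hb : b ∈ cl A r a) : cl A r b = cl A r a :=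
  ((cl_eq_iff hs (mem_cl.1 hb).1).2 (mem_cl.1 hb).2).symm

theorem card_image_cl {β : Type*} [DecidableEq β] {A : Finset β} {r : β → β → Prop}
    (hs : ∀ a b, r a b → r b a) : (A.image (cl A r)).card = ncl A r := by
  classical
  unfold ncl
  let f : Quot (fun a b : {x // x ∈ A} => r a.1 b.1) → {y // y ∈ A.image (cl A r)} :=
    Quot.lift (fun a => ⟨cl A r a.1, mem_image_of_mem _ a.2⟩) (by
      intro a b hab
      apply Subtype.ext
      exact (cl_eq_iff hs b.2).2 (Relation.ReflTransGen.single ⟨a.2, b.2, hab⟩))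
  have hf : Function.Bijective f := by
    constructor
    · intro p q hpq
      induction p using Quot.inductionOn with | _ p => ?_
      induction q using Quot.inductionOn with | _ q => ?_
      have h1 : cl A r p.1 = cl A r q.1 := congrArg Subtype.val hpq
      exact (quot_eq_iff hs p q).2 ((cl_eq_iff hs q.2).1 h1)
    · rintro ⟨y, hy⟩
      obtain ⟨a, ha, rfl⟩ := mem_image.1 hy
      exact ⟨Quot.mk _ ⟨a, ha⟩, rfl⟩
  rw [Nat.card_eq_of_bijective f hf, Nat.card_eq_fintype_card, Fintype.card_coe]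

/-- a map inducing a bijection of classes -/
theorem ncl_eq_of_map {β γ : Type*} {A : Finset β} {B : Finset γ} {r : β → β → Prop}
    {r' : γ → γ → Prop} (hs : ∀ a b, r a b → r b a) (hs' : ∀ a b, r' a b → r' b a) (φ : β → γ)
    (hφ : ∀ a ∈ A, φ a ∈ B) (h1 : ∀ a ∈ A, ∀ a' ∈ A, r a a' → Rch B r' (φ a) (φ a'))
    (h2 : ∀ a ∈ A, ∀ a' ∈ A, Rch B r' (φ a) (φ a') → Rch A r a a')
    (h3 : ∀ b ∈ B, ∃ a ∈ A, Rch B r' (φ a) b) : ncl A r = ncl B r' := by
  classical
  unfold ncl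
  let f : Quot (fun a b : {x // x ∈ A} => r a.1 b.1) → Quot (fun a b : {x // x ∈ B} => r' a.1 b.1) :=
    Quot.lift (fun a => Quot.mk _ ⟨φ a.1, hφ _ a.2⟩) (by
      intro a b hab
      exact (quot_eq_iff hs' _ _).2 (h1 _ a.2 _ b.2 hab))
  have hf : Function.Bijective f := by
    constructor
    · intro p q hpq
      induction p using Quot.inductionOn with | _ p => ?_
      induction q using Quot.inductionOn with | _ q => ?_
      have h4 := (quot_eq_iff hs' _ _).1 hpq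
      exact (quot_eq_iff hs p q).2 (h2 _ p.2 _ q.2 h4)
    · intro y
      induction y using Quot.inductionOn with | _ y => ?_
      obtain ⟨a, ha, hab⟩ := h3 y.1 y.2
      exact ⟨Quot.mk _ ⟨a, ha⟩, (quot_eq_iff hs' _ _).2 hab⟩
  exact Nat.card_eq_of_bijective f hf

/-! ### Triples -/

theorem inter_card_two {β : Type*} [DecidableEq β] {s t e : Finset β} (hs : s.card = 3)
    (ht : t.card = 3) (hst : s ≠ t) (he : e.card = 2) (hes : e ⊆ s) (het : e ⊆ t) :
    (s ∩ t).card = 2 := by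
  have h1 : e ⊆ s ∩ t := subset_inter hes het
  have h2 := card_le_card h1
  have h3 : (s ∩ t).card < 3 := by
    by_contra hcon
    push Not at hcon
    have h4 : s ∩ t = s := eq_of_subset_of_card_le inter_subset_left (by omega)
    have h5 : s ∩ t = t := eq_of_subset_of_card_le inter_subset_right (by omega)
    exact hst (h4.symm.trans h5)
  omega

theorem inter_eq_pair {β : Type*} [DecidableEq β] {s t e : Finset β} (hs : s.card = 3)
    (ht : t.card = 3) (hst : s ≠ t) (he : e.card = 2) (hes : e ⊆ s) (het : e ⊆ t) :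
    s ∩ t = e := by
  refine (eq_of_subset_of_card_le (subset_inter hes het) ?_).symm
  rw [inter_card_two hs ht hst he hes het, he]

theorem CAdj_symm {C : Finset (Finset α)} (s t : Finset α) (h : CAdj C s t) : CAdj C t s := by
  unfold CAdj at *
  rwa [inter_comm]

theorem EAdj_symm {β : Type*} [DecidableEq β] (s t : Finset β) (h : EAdj s t) : EAdj t s := by
  unfold EAdj at *
  rwa [inter_comm]

/-! ### The construction -/

/-- the vertices of the new complex: classes and caps -/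
abbrev VV (α : Type) : Type := (α × Finset (Finset α)) ⊕ Finset (Finset α × Finset α)

/-- the class vertex of the flag `(s, x)` -/
noncomputable def lv (Z C : Finset (Finset α)) (s : Finset α) (x : α) : α × Finset (Finset α) :=
  (x, cl (star Z x) (CAdj C) s)

/-- the lift of a set of vertices of `s` -/
noncomputable def lf (Z C : Finset (Finset α)) (s e : Finset α) : Finset (VV α) :=
  e.image (fun x => Sum.inl (lv Z C s x))

/-- two free sides share a lifted vertex -/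
def FA (Z C : Finset (Finset α)) (q q' : Finset α × Finset α) : Prop :=
  ∃ x ∈ q.2, x ∈ q'.2 ∧ lv Z C q.1 x = lv Z C q'.1 x

/-- the cap of the free side `q` -/
noncomputable def cp (Z C : Finset (Finset α)) (q : Finset α × Finset α) :
    Finset (Finset α × Finset α) := cl (freeS Z C) (FA Z C) q

/-- the face over the free side `q` -/
noncomputable def gc (Z C : Finset (Finset α)) (q : Finset α × Finset α) : Finset (VV α) :=
  insert (Sum.inr (cp Z C q)) (lf Z C q.1 q.2)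

/-- the new family -/
noncomputable def SS (Z C : Finset (Finset α)) : Finset (Finset (VV α)) :=
  Z.image (fun s => lf Z C s s) ∪ (freeS Z C).image (gc Z C)

/-- the projection -/
def PP (w : VV α) : Option α := Sum.elim (fun u => some u.1) (fun _ => none) w

section basic

variable {Z C : Finset (Finset α)}

theorem FA_symm (q q' : Finset α × Finset α) (h : FA Z C q q') : FA Z C q' q := by
  obtain ⟨x, hx, hx', h⟩ := h
  exact ⟨x, hx', hx, h.symm⟩

theorem mem_star {x : α} {s : Finset α} : s ∈ star Z x ↔ s ∈ Z ∧ x ∈ s := mem_filter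

theorem mem_freeS {q : Finset α × Finset α} : q ∈ freeS Z C ↔
    q.1 ∈ Z ∧ q.2.card = 2 ∧ q.2 ⊆ q.1 ∧ (q.2 ∈ C ∨ edeg Z q.2 = 1) := by
  unfold freeS
  rw [mem_filter, mem_product, mem_edgs]
  constructor
  · rintro ⟨⟨h1, h2, -⟩, h3, h4⟩
    exact ⟨h1, h2, h3, h4⟩
  · rintro ⟨h1, h2, h3, h4⟩
    exact ⟨⟨h1, h2, _, h1, h3⟩, h3, h4⟩

theorem lv_fst (s : Finset α) (x : α) : (lv Z C s x).1 = x := rfl

theorem lv_eq_iff {s t : Finset α} {x y : α} (ht : t ∈ Z) (hy : y ∈ t) :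
    lv Z C s x = lv Z C t y ↔ x = y ∧ Rch (star Z x) (CAdj C) s t := by
  unfold lv
  rw [Prod.mk.injEq]
  constructor
  · rintro ⟨rfl, h⟩
    exact ⟨rfl, (cl_eq_iff CAdj_symm (mem_star.2 ⟨ht, hy⟩)).1 h⟩
  · rintro ⟨rfl, h⟩
    exact ⟨rfl, (cl_eq_iff CAdj_symm (mem_star.2 ⟨ht, hy⟩)).2 h⟩

theorem mem_lf {s e : Finset α} {w : VV α} :
    w ∈ lf Z C s e ↔ ∃ x ∈ e, w = Sum.inl (lv Z C s x) := by
  unfold lf
  rw [mem_image]
  simp only [eq_comm]

theorem inl_mem_lf {s e : Finset α} {u : α × Finset (Finset α)} :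
    (Sum.inl u : VV α) ∈ lf Z C s e ↔ u.1 ∈ e ∧ u = lv Z C s u.1 := by
  rw [mem_lf]
  constructor
  · rintro ⟨x, hx, h⟩
    have h' := Sum.inl.inj h
    subst h'
    exact ⟨hx, rfl⟩
  · rintro ⟨h1, h2⟩
    exact ⟨_, h1, congrArg _ h2⟩

theorem inr_notMem_lf {s e : Finset α} {K : Finset (Finset α × Finset α)} :
    (Sum.inr K : VV α) ∉ lf Z C s e := by
  rw [mem_lf]
  rintro ⟨x, -, h⟩
  exact Sum.inr_ne_inl h

theorem card_lf (s e : Finset α) : (lf Z C s e).card = e.card := by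
  unfold lf
  apply card_image_of_injective
  intro x y h
  exact congrArg Prod.fst (Sum.inl.inj h)

theorem lf_mono {s e e' : Finset α} (h : e ⊆ e') : lf Z C s e ⊆ lf Z C s e' := image_subset_image h

theorem inl_mem_gc {q : Finset α × Finset α} {u : α × Finset (Finset α)} :
    (Sum.inl u : VV α) ∈ gc Z C q ↔ u.1 ∈ q.2 ∧ u = lv Z C q.1 u.1 := by
  unfold gc
  rw [mem_insert, inl_mem_lf]
  constructor
  · rintro (h | h)
    · exact absurd h Sum.inl_ne_inr
    · exact h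
  · exact Or.inr

theorem inr_mem_gc {q : Finset α × Finset α} {K : Finset (Finset α × Finset α)} :
    (Sum.inr K : VV α) ∈ gc Z C q ↔ K = cp Z C q := by
  unfold gc
  rw [mem_insert]
  constructor
  · rintro (h | h)
    · exact Sum.inr.inj h
    · exact absurd h inr_notMem_lf
  · rintro rfl
    exact Or.inl rfl

theorem card_gc {q : Finset α × Finset α} (hq : q.2.card = 2) : (gc Z C q).card = 3 := by
  unfold gc
  rw [card_insert_of_notMem inr_notMem_lf, card_lf, hq]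

theorem mem_SS {τ : Finset (VV α)} : τ ∈ SS Z C ↔
    (∃ s ∈ Z, τ = lf Z C s s) ∨ ∃ q ∈ freeS Z C, τ = gc Z C q := by
  unfold SS
  rw [mem_union, mem_image, mem_image]
  simp only [eq_comm]

theorem SS_card (hZ : IsFam Z) {τ : Finset (VV α)} (hτ : τ ∈ SS Z C) : τ.card = 3 := by
  rcases mem_SS.1 hτ with ⟨s, hs, rfl⟩ | ⟨q, hq, rfl⟩
  · rw [card_lf, hZ s hs]
  · exact card_gc (mem_freeS.1 hq).2.1

end basic

section main

variable {Z C : Finset (Finset α)} (hZ : IsFam Z) (hd : ∀ e : Finset α, edeg Z e ≤ 2 ∨ e.card ≠ 2)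
  (hC : ∀ e ∈ C, e.card = 2) (hH : HypH Z C)

include hZ hH in
/-- K1: two faces sharing two lifted vertices are adjacent across an uncut pair -/
theorem adj_of_share {s t : Finset α} (hs : s ∈ Z) (ht : t ∈ Z) (hst : s ≠ t) {e : Finset α}
    (he : e.card = 2) (hes : e ⊆ s) (het : e ⊆ t) {x : α} (hx : x ∈ e)
    (h : lv Z C s x = lv Z C t x) : CAdj C s t ∧ s ∩ t = e := by
  have h1 := inter_card_two (hZ s hs) (hZ t ht) hst he hes het
  have h2 := inter_eq_pair (hZ s hs) (hZ t ht) hst he hes het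
  refine ⟨⟨h1, fun hmem => ?_⟩, h2⟩
  have h3 := ((lv_eq_iff ht (het hx)).1 h).2
  exact hH s hs t ht hst hmem h1 x (h2 ▸ hx) h3

/-- K2 -/
theorem lv_eq_of_adj {s t : Finset α} (hs : s ∈ Z) (ht : t ∈ Z) (h : CAdj C s t) {x : α}
    (hxs : x ∈ s) (hxt : x ∈ t) : lv Z C s x = lv Z C t x :=
  (lv_eq_iff ht hxt).2 ⟨rfl, Relation.ReflTransGen.single
    ⟨mem_star.2 ⟨hs, hxs⟩, mem_star.2 ⟨ht, hxt⟩, h⟩⟩

theorem two_le_edeg {s t e : Finset α} (hs : s ∈ Z) (ht : t ∈ Z) (hst : s ≠ t) (hes : e ⊆ s)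
    (het : e ⊆ t) : 2 ≤ edeg Z e := by
  unfold edeg
  rw [← card_pair hst]
  apply card_le_card
  intro u hu
  rw [mem_insert, mem_singleton] at hu
  rcases hu with rfl | rfl
  · exact mem_filter.2 ⟨hs, hes⟩
  · exact mem_filter.2 ⟨ht, het⟩

include hZ hH in
/-- a face over the lifted pair of a free side is the face of the free side -/
theorem eq_of_free {q : Finset α × Finset α} (hq : q ∈ freeS Z C) {t : Finset α} (ht : t ∈ Z)
    (het : q.2 ⊆ t) {x : α} (hx : x ∈ q.2) (h : lv Z C q.1 x = lv Z C t x) : q.1 = t := by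
  by_contra hne
  obtain ⟨h1, h2, h3, h4⟩ := mem_freeS.1 hq
  obtain ⟨h5, h6⟩ := adj_of_share hZ hH h1 ht hne h2 h3 het hx h
  rcases h4 with h4 | h4
  · exact h5.2 (h6 ▸ h4)
  · have := two_le_edeg h1 ht hne h3 het
    omega

/-! ### Lifted pairs -/

theorem sub_lf {s e0 : Finset α} {e' : Finset (VV α)} (h : e' ⊆ lf Z C s e0) :
    ∃ e ⊆ e0, e' = lf Z C s e := by
  refine ⟨e0.filter (fun x => (Sum.inl (lv Z C s x) : VV α) ∈ e'), filter_subset _ _, ?_⟩
  ext w
  rw [mem_lf]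
  constructor
  · intro hw
    obtain ⟨x, hx, rfl⟩ := mem_lf.1 (h hw)
    exact ⟨x, mem_filter.2 ⟨hx, hw⟩, rfl⟩
  · rintro ⟨x, hx, rfl⟩
    exact (mem_filter.1 hx).2

theorem lf_sub_iff {s t e e0 : Finset α} :
    lf Z C s e ⊆ lf Z C t e0 ↔ e ⊆ e0 ∧ ∀ x ∈ e, lv Z C s x = lv Z C t x := by
  constructor
  · intro h
    have h1 : ∀ x ∈ e, x ∈ e0 ∧ lv Z C s x = lv Z C t x := by
      intro x hx
      exact inl_mem_lf.1 (h (mem_lf.2 ⟨x, hx, rfl⟩))
    exact ⟨fun x hx => (h1 x hx).1, fun x hx => (h1 x hx).2⟩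
  · rintro ⟨h1, h2⟩ w hw
    obtain ⟨x, hx, rfl⟩ := mem_lf.1 hw
    exact mem_lf.2 ⟨x, h1 hx, by rw [h2 x hx]⟩

theorem lf_sub_gc {s e : Finset α} {q : Finset α × Finset α} (h : lf Z C s e ⊆ gc Z C q) :
    e ⊆ q.2 ∧ ∀ x ∈ e, lv Z C s x = lv Z C q.1 x := by
  have h1 : ∀ x ∈ e, x ∈ q.2 ∧ lv Z C s x = lv Z C q.1 x := by
    intro x hx
    exact inl_mem_gc.1 (h (mem_lf.2 ⟨x, hx, rfl⟩))
  exact ⟨fun x hx => (h1 x hx).1, fun x hx => (h1 x hx).2⟩

include hZ hH in
/-- case A: the lifted pair of a free side is in exactly two members -/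
theorem over_free {s e : Finset α} (hq : (s, e) ∈ freeS Z C) {τ : Finset (VV α)}
    (hτ : τ ∈ SS Z C) (h : lf Z C s e ⊆ τ) : τ = lf Z C s s ∨ τ = gc Z C (s, e) := by
  obtain ⟨h1, h2, h3, h4⟩ := mem_freeS.1 hq
  obtain ⟨x, hx⟩ : e.Nonempty := card_pos.1 (by simp only at h2; omega)
  rcases mem_SS.1 hτ with ⟨t, ht, rfl⟩ | ⟨q, hq', rfl⟩
  · left
    obtain ⟨h5, h6⟩ := lf_sub_iff.1 h
    have h7 : s = t := eq_of_free hZ hH hq ht h5 hx (h6 x hx)
    rw [h7]
  · right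
    obtain ⟨h5, h6⟩ := lf_sub_gc h
    obtain ⟨g1, g2, g3, g4⟩ := mem_freeS.1 hq'
    have h8 : e = q.2 := eq_of_subset_of_card_le h5 (by simp only at h2; omega)
    have h7 : s = q.1 := eq_of_free hZ hH hq g1 (h5.trans g3) hx (h6 x hx)
    rw [h8, h7]

include hZ hd in
/-- the other member at a pair that is not free -/
theorem exists_other {s e : Finset α} (hs : s ∈ Z) (he : e.card = 2) (hes : e ⊆ s)
    (hq : (s, e) ∉ freeS Z C) : ∃ t ∈ Z, t ≠ s ∧ e ⊆ t ∧ s ∩ t = e ∧ CAdj C s t ∧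
      ∀ u ∈ Z, e ⊆ u → u = s ∨ u = t := by
  have h1 : e ∉ C ∧ edeg Z e ≠ 1 := by
    by_contra hcon
    apply hq
    rw [mem_freeS]
    refine ⟨hs, he, hes, ?_⟩
    by_contra hcon2
    push Not at hcon2
    exact hcon ⟨hcon2.1, hcon2.2⟩
  have h2 : 0 < edeg Z e := edeg_pos.2 ⟨s, hs, hes⟩
  have h3 : edeg Z e = 2 := by
    rcases hd e with h | h
    · have := h1.2
      omega
    · exact absurd he h
  have h4 : s ∈ Z.filter (fun s => e ⊆ s) := mem_filter.2 ⟨hs, hes⟩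
  have h5 : ((Z.filter (fun s => e ⊆ s)).erase s).card = 1 := by
    rw [card_erase_of_mem h4]
    unfold edeg at h3
    omega
  obtain ⟨t, ht⟩ := card_eq_one.1 h5
  have ht' : t ∈ (Z.filter (fun s => e ⊆ s)).erase s := ht ▸ mem_singleton_self t
  rw [mem_erase, mem_filter] at ht'
  obtain ⟨hts, htZ, het⟩ := ht'
  have h6 := inter_card_two (hZ s hs) (hZ t htZ) (Ne.symm hts) he hes het
  have h7 := inter_eq_pair (hZ s hs) (hZ t htZ) (Ne.symm hts) he hes het
  refine ⟨t, htZ, hts, het, h7, ⟨h6, h7 ▸ h1.1⟩, ?_⟩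
  intro u hu heu
  by_cases hus : u = s
  · exact Or.inl hus
  · right
    have : u ∈ (Z.filter (fun s => e ⊆ s)).erase s := mem_erase.2 ⟨hus, mem_filter.2 ⟨hu, heu⟩⟩
    rw [ht] at this
    exact mem_singleton.1 this

include hZ hH hd in
/-- case B: the lift of a pair that is not free is in exactly two members -/
theorem over_nonfree {s e : Finset α} (hs : s ∈ Z) (he : e.card = 2) (hes : e ⊆ s)
    (hq : (s, e) ∉ freeS Z C) : ∃ t ∈ Z, t ≠ s ∧ lf Z C s e ⊆ lf Z C t t ∧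
      ∀ τ ∈ SS Z C, lf Z C s e ⊆ τ → τ = lf Z C s s ∨ τ = lf Z C t t := by
  obtain ⟨t, ht, hts, het, hst, hadj, hall⟩ := exists_other hZ hd hs he hes hq
  refine ⟨t, ht, hts, lf_sub_iff.2 ⟨het, fun x hx => lv_eq_of_adj hs ht hadj (hes hx) (het hx)⟩, ?_⟩
  intro τ hτ h
  obtain ⟨x, hx⟩ : e.Nonempty := card_pos.1 (by omega)
  rcases mem_SS.1 hτ with ⟨u, hu, rfl⟩ | ⟨q, hq', rfl⟩
  · obtain ⟨h5, h6⟩ := lf_sub_iff.1 h
    rcases hall u hu h5 with rfl | rfl
    · exact Or.inl rfl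
    · exact Or.inr rfl
  · exfalso
    obtain ⟨h5, h6⟩ := lf_sub_gc h
    obtain ⟨g1, g2, g3, g4⟩ := mem_freeS.1 hq'
    have h8 : e = q.2 := eq_of_subset_of_card_le h5 (by omega)
    have h7 : q.1 = s := eq_of_free hZ hH hq' hs (h8 ▸ hes) (h8 ▸ hx) (h6 x hx).symm
    apply hq
    rw [← h7, h8]
    exact hq'

/-! ### The free sides at a class -/

theorem cadj_irrefl (hZ : IsFam Z) {s : Finset α} (hs : s ∈ Z) : ¬ CAdj C s s := by
  rintro ⟨h, -⟩
  rw [inter_self, hZ s hs] at h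
  omega

open Classical in
/-- the graph on a class -/
def gr (C : Finset (Finset α)) (c : Finset (Finset α)) : SimpleGraph {t // t ∈ c} where
  Adj t t' := CAdj C t.1 t'.1 ∧ t ≠ t'
  symm := ⟨fun _ _ h => ⟨CAdj_symm _ _ h.1, h.2.symm⟩⟩
  loopless := ⟨fun _ h => h.2 rfl⟩

theorem gr_conn {x : α} {s0 : Finset α} (hs0 : s0 ∈ star Z x) :
    (gr C (cl (star Z x) (CAdj C) s0)).Connected := by
  have key : ∀ t' : Finset α, Rch (star Z x) (CAdj C) s0 t' →
      ∃ ht' : t' ∈ cl (star Z x) (CAdj C) s0,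
        (gr C (cl (star Z x) (CAdj C) s0)).Reachable ⟨s0, self_mem_cl hs0⟩ ⟨t', ht'⟩ := by
    intro t' h
    induction h with
    | refl => exact ⟨self_mem_cl hs0, SimpleGraph.Reachable.refl _⟩
    | @tail b c hab hbc ih =>
      obtain ⟨hb, hr⟩ := ih
      have hc : c ∈ cl (star Z x) (CAdj C) s0 := mem_cl.2 ⟨hbc.2.1, hab.tail hbc⟩
      refine ⟨hc, hr.trans ?_⟩
      by_cases hbc' : b = c
      · subst hbc'
        exact SimpleGraph.Reachable.refl _
      · apply SimpleGraph.Adj.reachable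
        exact ⟨hbc.2.2, fun h => hbc' (congrArg Subtype.val h)⟩
  rw [SimpleGraph.connected_iff_exists_forall_reachable]
  refine ⟨⟨s0, self_mem_cl hs0⟩, ?_⟩
  rintro ⟨t, ht⟩
  exact (key t (mem_cl.1 ht).2).2

include hZ hd in
open Classical in
/-- the degree of `t` in the graph of its class plus the number of its free sides at `x` is two -/
theorem deg_add_free {x : α} {s0 : Finset α} {t : Finset α}
    (ht : t ∈ cl (star Z x) (CAdj C) s0) :
    (univ.filter (fun u : {u // u ∈ cl (star Z x) (CAdj C) s0} =>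
      CAdj C t u.1 ∧ t ≠ u.1)).card +
      ((freeS Z C).filter (fun q => q.1 = t ∧ x ∈ q.2)).card = 2 := by
  classical
  have htS := (mem_cl.1 ht).1
  obtain ⟨htZ, hxt⟩ := mem_star.1 htS
  rw [← pairs_at (hZ t htZ) hxt]
  rw [← card_filter_add_card_filter_not (s := (t.powersetCard 2).filter (fun e => x ∈ e))
    (fun e => (t, e) ∉ freeS Z C)]
  congr 1
  · -- neighbours and pairs that are not free
    apply card_bij (fun u _ => t ∩ u.1)
    · rintro ⟨u, hu⟩ h
      rw [mem_filter] at h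
      obtain ⟨-, h1, h2⟩ := h
      have huS := (mem_cl.1 hu).1
      obtain ⟨huZ, hxu⟩ := mem_star.1 huS
      rw [mem_filter, mem_filter, mem_powersetCard]
      refine ⟨⟨⟨inter_subset_left, h1.1⟩, mem_inter.2 ⟨hxt, hxu⟩⟩, ?_⟩
      intro hfree
      obtain ⟨-, -, -, h4⟩ := mem_freeS.1 hfree
      rcases h4 with h4 | h4
      · exact h1.2 h4
      · have := two_le_edeg htZ huZ h2 inter_subset_left inter_subset_right
        simp only at h4
        omega
    · rintro ⟨u, hu⟩ h ⟨u', hu'⟩ h' heq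
      rw [mem_filter] at h h'
      obtain ⟨-, h1, h2⟩ := h
      obtain ⟨-, h1', h2'⟩ := h'
      have huS := (mem_cl.1 hu).1
      obtain ⟨huZ, hxu⟩ := mem_star.1 huS
      have huS' := (mem_cl.1 hu').1
      obtain ⟨huZ', hxu'⟩ := mem_star.1 huS'
      have hnf : (t, t ∩ u) ∉ freeS Z C := by
        intro hfree
        obtain ⟨-, -, -, h4⟩ := mem_freeS.1 hfree
        rcases h4 with h4 | h4
        · exact h1.2 h4
        · have := two_le_edeg htZ huZ h2 inter_subset_left inter_subset_right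
          simp only at h4
          omega
      obtain ⟨w, -, -, -, -, -, hall⟩ := exists_other hZ hd htZ h1.1 inter_subset_left hnf
      apply Subtype.ext
      simp only at heq ⊢
      rcases hall u huZ inter_subset_right with h5 | h5
      · exact absurd h5.symm h2
      · rcases hall u' huZ' (heq ▸ inter_subset_right) with h6 | h6
        · exact absurd h6.symm h2'
        · rw [h5, h6]
    · intro e he
      rw [mem_filter, mem_filter, mem_powersetCard] at he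
      obtain ⟨⟨⟨h1, h2⟩, h3⟩, h4⟩ := he
      obtain ⟨u, huZ, hut, heu, htu, hadj, -⟩ := exists_other hZ hd htZ h2 h1 h4
      have huc : u ∈ cl (star Z x) (CAdj C) s0 :=
        mem_cl.2 ⟨mem_star.2 ⟨huZ, heu h3⟩, (mem_cl.1 ht).2.tail
          ⟨htS, mem_star.2 ⟨huZ, heu h3⟩, hadj⟩⟩
      exact ⟨⟨u, huc⟩, mem_filter.2 ⟨mem_univ _, hadj, Ne.symm hut⟩, htu⟩
  · -- free sides
    apply card_bij (fun q _ => q.2)
    · rintro ⟨s, e⟩ h
      rw [mem_filter] at h
      obtain ⟨h1, h2, h3⟩ := h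
      simp only at h2 h3
      subst h2
      obtain ⟨g1, g2, g3, g4⟩ := mem_freeS.1 h1
      rw [mem_filter, mem_filter, mem_powersetCard]
      exact ⟨⟨⟨g3, g2⟩, h3⟩, fun h => h h1⟩
    · rintro ⟨s, e⟩ h ⟨s', e'⟩ h' heq
      rw [mem_filter] at h h'
      exact Prod.ext (h.2.1.trans h'.2.1.symm) heq
    · intro e he
      rw [mem_filter, mem_filter, not_not] at he
      exact ⟨(t, e), mem_filter.2 ⟨he.2, rfl, he.1.2⟩, rfl⟩

include hZ hd in
/-- a class has zero or two free sides -/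
theorem card_free_class {x : α} {s0 : Finset α} (hs0 : s0 ∈ star Z x) :
    ((freeS Z C).filter (fun q => x ∈ q.2 ∧ q.1 ∈ cl (star Z x) (CAdj C) s0)).card = 0 ∨
    ((freeS Z C).filter (fun q => x ∈ q.2 ∧ q.1 ∈ cl (star Z x) (CAdj C) s0)).card = 2 := by
  classical
  obtain ⟨c, hc⟩ : ∃ c, c = cl (star Z x) (CAdj C) s0 := ⟨_, rfl⟩
  have hconn := gr_conn (C := C) hs0
  rw [← hc] at hconn ⊢
  have h1 := hconn.card_vert_le_card_edgeSet_add_one
  rw [Nat.card_eq_fintype_card, Nat.card_eq_fintype_card, ← SimpleGraph.edgeFinset_card,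
    Fintype.card_coe] at h1
  have h2 := (gr C c).sum_degrees_eq_twice_card_edges
  have h3 : ∑ t : {t // t ∈ c}, (((gr C c).degree t) +
      ((freeS Z C).filter (fun q => q.1 = t.1 ∧ x ∈ q.2)).card) = 2 * c.card := by
    have h4 : ∀ t : {t // t ∈ c}, ((gr C c).degree t) +
      ((freeS Z C).filter (fun q => q.1 = t.1 ∧ x ∈ q.2)).card = 2 := by
      rintro ⟨t, ht⟩
      have ht' : t ∈ cl (star Z x) (CAdj C) s0 := hc ▸ ht
      rw [← deg_add_free hZ hd ht']
      subst hc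
      rw [← SimpleGraph.card_neighborFinset_eq_degree]
      have h6 : (gr C (cl (star Z x) (CAdj C) s0)).neighborFinset ⟨t, ht⟩ =
          univ.filter (fun u : {u // u ∈ cl (star Z x) (CAdj C) s0} => CAdj C t u.1 ∧ t ≠ u.1) := by
        ext u
        rw [SimpleGraph.mem_neighborFinset, mem_filter]
        unfold gr
        simp only [mem_univ, true_and, ne_eq, Subtype.ext_iff]
      rw [h6]
    rw [sum_congr rfl (fun t _ => h4 t), sum_const, card_univ, Fintype.card_coe, smul_eq_mul,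
      mul_comm]
  rw [sum_add_distrib, h2] at h3
  have h5 : ∑ t : {t // t ∈ c}, ((freeS Z C).filter (fun q => q.1 = t.1 ∧ x ∈ q.2)).card =
      ((freeS Z C).filter (fun q => x ∈ q.2 ∧ q.1 ∈ c)).card := by
    rw [sum_coe_sort c (fun t => ((freeS Z C).filter (fun q => q.1 = t ∧ x ∈ q.2)).card)]
    rw [card_eq_sum_card_fiberwise (f := fun q : Finset α × Finset α => q.1) (t := c)
      (s := (freeS Z C).filter (fun q => x ∈ q.2 ∧ q.1 ∈ c))]
    · apply sum_congr rfl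
      intro t ht
      congr 1
      ext q
      simp only [mem_filter]
      constructor
      · rintro ⟨h6, rfl, h7⟩
        exact ⟨⟨h6, h7, ht⟩, rfl⟩
      · rintro ⟨⟨h6, h7, h8⟩, rfl⟩
        exact ⟨h6, rfl, h7⟩
    · intro q hq
      rw [mem_coe, mem_filter] at hq
      exact hq.2.2
  rw [h5] at h3
  omega

include hZ hd in
/-- Lemma C: exactly one other free side at each end of a free side -/
theorem other_side {q : Finset α × Finset α} (hq : q ∈ freeS Z C) {x : α} (hx : x ∈ q.2) :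
    ∃ q' ∈ freeS Z C, q' ≠ q ∧ x ∈ q'.2 ∧ lv Z C q'.1 x = lv Z C q.1 x ∧
      ∀ q'' ∈ freeS Z C, x ∈ q''.2 → lv Z C q''.1 x = lv Z C q.1 x → q'' = q ∨ q'' = q' := by
  classical
  obtain ⟨g1, g2, g3, g4⟩ := mem_freeS.1 hq
  have hst : q.1 ∈ star Z x := mem_star.2 ⟨g1, g3 hx⟩
  have hmem : ∀ q'' ∈ freeS Z C, x ∈ q''.2 → (lv Z C q''.1 x = lv Z C q.1 x ↔
      q''.1 ∈ cl (star Z x) (CAdj C) q.1) := by
    intro q'' hq'' hx''
    obtain ⟨k1, k2, k3, k4⟩ := mem_freeS.1 hq''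
    rw [lv_eq_iff g1 (g3 hx), mem_cl]
    constructor
    · rintro ⟨-, h⟩
      exact ⟨mem_star.2 ⟨k1, k3 hx''⟩, h.symm CAdj_symm⟩
    · rintro ⟨-, h⟩
      exact ⟨rfl, h.symm CAdj_symm⟩
  obtain ⟨F, hF⟩ : ∃ F, F = (freeS Z C).filter
    (fun q' => x ∈ q'.2 ∧ q'.1 ∈ cl (star Z x) (CAdj C) q.1) := ⟨_, rfl⟩
  have hcard := card_free_class hZ hd hst (C := C)
  rw [← hF] at hcard
  have hqF : q ∈ F := by
    rw [hF]
    exact mem_filter.2 ⟨hq, hx, self_mem_cl hst⟩
  have hF2 : F.card = 2 := by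
    have := card_pos.2 ⟨q, hqF⟩
    omega
  have h1 : (F.erase q).card = 1 := by rw [card_erase_of_mem hqF, hF2]
  obtain ⟨q', hq'⟩ := card_eq_one.1 h1
  have hq'F : q' ∈ F.erase q := hq' ▸ mem_singleton_self q'
  rw [mem_erase] at hq'F
  have hq'F2 := hq'F.2
  rw [hF, mem_filter] at hq'F2
  refine ⟨q', hq'F2.1, hq'F.1, hq'F2.2.1, (hmem q' hq'F2.1 hq'F2.2.1).2 hq'F2.2.2, ?_⟩
  intro q'' hq'' hx'' hlv
  by_cases hqq : q'' = q
  · exact Or.inl hqq
  · right
    have : q'' ∈ F.erase q := by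
      rw [mem_erase, hF, mem_filter]
      exact ⟨hqq, hq'', hx'', (hmem q'' hq'' hx'').1 hlv⟩
    rw [hq'] at this
    exact mem_singleton.1 this

/-! ### Injectivity -/

theorem lf_inj {s t : Finset α} (h : lf Z C s s = lf Z C t t) : s = t := by
  have h1 := (lf_sub_iff.1 h.le).1
  have h2 := (lf_sub_iff.1 h.ge).1
  exact subset_antisymm h1 h2

include hZ hH in
theorem gc_inj {q q' : Finset α × Finset α} (hq : q ∈ freeS Z C) (hq' : q' ∈ freeS Z C)
    (h : gc Z C q = gc Z C q') : q = q' := by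
  obtain ⟨g1, g2, g3, g4⟩ := mem_freeS.1 hq
  obtain ⟨k1, k2, k3, k4⟩ := mem_freeS.1 hq'
  have h1 : lf Z C q.1 q.2 ⊆ gc Z C q' := by
    rw [← h]
    exact subset_insert _ _
  obtain ⟨h5, h6⟩ := lf_sub_gc h1
  have h7 : q.2 = q'.2 := eq_of_subset_of_card_le h5 (by omega)
  obtain ⟨x, hx⟩ : q.2.Nonempty := card_pos.1 (by omega)
  exact Prod.ext (eq_of_free hZ hH hq k1 (h5.trans k3) hx (h6 x hx)) h7

theorem lf_ne_gc {s e : Finset α} {q : Finset α × Finset α} : lf Z C s e ≠ gc Z C q := by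
  intro h
  have h1 : (Sum.inr (cp Z C q) : VV α) ∈ gc Z C q := inr_mem_gc.2 rfl
  rw [← h] at h1
  exact inr_notMem_lf h1

theorem cp_eq {q q' : Finset α × Finset α} (hq : q ∈ freeS Z C) (hq' : q' ∈ freeS Z C)
    (h : FA Z C q q') : cp Z C q = cp Z C q' :=
  (cl_eq_iff FA_symm hq').2 (Relation.ReflTransGen.single ⟨hq, hq', h⟩)

/-! ### Closedness -/

theorem edeg_two {β : Type*} [DecidableEq β] {A : Finset (Finset β)} {e : Finset β}
    {τ τ' : Finset β} (hne : τ ≠ τ') (hτ : τ ∈ A) (hτ' : τ' ∈ A) (he : e ⊆ τ) (he' : e ⊆ τ')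
    (hall : ∀ σ ∈ A, e ⊆ σ → σ = τ ∨ σ = τ') : edeg A e = 2 := by
  unfold edeg
  rw [← card_pair hne]
  congr 1
  ext σ
  rw [mem_filter, mem_insert, mem_singleton]
  constructor
  · rintro ⟨h1, h2⟩
    exact hall σ h1 h2
  · rintro (rfl | rfl)
    · exact ⟨hτ, he⟩
    · exact ⟨hτ', he'⟩

include hZ hd hH in
/-- the lift of a pair is in exactly two members -/
theorem edeg_lf {s e : Finset α} (hs : s ∈ Z) (he : e.card = 2) (hes : e ⊆ s) :
    edeg (SS Z C) (lf Z C s e) = 2 := by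
  by_cases hq : (s, e) ∈ freeS Z C
  · exact edeg_two (lf_ne_gc (s := s) (e := s) (q := (s, e))) (mem_SS.2 (Or.inl ⟨s, hs, rfl⟩))
      (mem_SS.2 (Or.inr ⟨_, hq, rfl⟩)) (lf_mono hes) (subset_insert _ _)
      (fun σ hσ h => over_free hZ hH hq hσ h)
  · obtain ⟨t, ht, hts, h1, h2⟩ := over_nonfree hZ hd hH hs he hes hq
    exact edeg_two (fun h => hts (lf_inj h).symm) (mem_SS.2 (Or.inl ⟨s, hs, rfl⟩))
      (mem_SS.2 (Or.inl ⟨t, ht, rfl⟩)) (lf_mono hes) h1 h2

include hZ hd hH in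
theorem SS_closed : Closed (SS Z C) := by
  intro e' he'
  rcases Nat.eq_zero_or_pos (edeg (SS Z C) e') with h0 | hpos
  · exact Or.inl h0
  right
  obtain ⟨τ, hτ, heτ⟩ := edeg_pos.1 hpos
  by_cases hinr : ∃ K, (Sum.inr K : VV α) ∈ e'
  · obtain ⟨K, hK⟩ := hinr
    -- the face is a cap face
    obtain ⟨q, hq, rfl⟩ : ∃ q ∈ freeS Z C, τ = gc Z C q := by
      rcases mem_SS.1 hτ with ⟨s, hs, rfl⟩ | h
      · exact absurd (heτ hK) inr_notMem_lf
      · exact h
    have hKq : K = cp Z C q := inr_mem_gc.1 (heτ hK)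
    subst hKq
    -- the other element
    obtain ⟨w, hw⟩ := card_eq_one.1 (by rw [card_erase_of_mem hK, he'] :
      (e'.erase (Sum.inr (cp Z C q) : VV α)).card = 1)
    have hw' : w ∈ e'.erase (Sum.inr (cp Z C q) : VV α) := hw ▸ mem_singleton_self w
    rw [mem_erase] at hw'
    have heq : e' = {Sum.inr (cp Z C q), w} := by
      rw [← insert_erase hK, hw]
    obtain ⟨x, hx, hwx⟩ : ∃ x ∈ q.2, w = Sum.inl (lv Z C q.1 x) := by
      have h1 := heτ hw'.2
      unfold gc at h1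
      rw [mem_insert] at h1
      rcases h1 with h1 | h1
      · exact absurd h1 hw'.1
      · exact mem_lf.1 h1
    subst hwx
    obtain ⟨q', hq', hne, hxq', hlv, hall⟩ := other_side hZ hd hq hx
    obtain ⟨g1, g2, g3, g4⟩ := mem_freeS.1 hq
    have hcp : cp Z C q' = cp Z C q := cp_eq hq' hq ⟨x, hxq', hx, hlv⟩
    refine edeg_two (τ := gc Z C q) (τ' := gc Z C q') (fun h => hne (gc_inj hZ hH hq' hq h.symm)) hτ
      (mem_SS.2 (Or.inr ⟨q', hq', rfl⟩)) heτ ?_ ?_
    · rw [heq]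
      intro u hu
      rw [mem_insert, mem_singleton] at hu
      rcases hu with rfl | rfl
      · exact inr_mem_gc.2 hcp.symm
      · exact inl_mem_gc.2 ⟨hxq', hlv.symm⟩
    · intro σ hσ heσ
      rcases mem_SS.1 hσ with ⟨s, hs, rfl⟩ | ⟨q'', hq'', rfl⟩
      · exact absurd (heσ hK) inr_notMem_lf
      · obtain ⟨h1, h2⟩ := inl_mem_gc.1 (heσ hw'.2)
        rcases hall q'' hq'' h1 h2.symm with rfl | rfl
        · exact Or.inl rfl
        · exact Or.inr rfl
  · push Not at hinr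
    -- a lifted pair
    have h1 : ∃ s ∈ Z, ∃ e : Finset α, e.card = 2 ∧ e ⊆ s ∧ e' = lf Z C s e := by
      rcases mem_SS.1 hτ with ⟨s, hs, rfl⟩ | ⟨q, hq, rfl⟩
      · obtain ⟨e, he, rfl⟩ := sub_lf heτ
        rw [card_lf] at he'
        exact ⟨s, hs, e, he', he, rfl⟩
      · obtain ⟨g1, g2, g3, g4⟩ := mem_freeS.1 hq
        have h2 : e' ⊆ lf Z C q.1 q.2 := by
          intro w hw
          have h3 := heτ hw
          unfold gc at h3
          rw [mem_insert] at h3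
          rcases h3 with rfl | h3
          · exact absurd hw (hinr _)
          · exact h3
        obtain ⟨e, he, rfl⟩ := sub_lf h2
        rw [card_lf] at he'
        exact ⟨q.1, g1, e, he', he.trans g3, rfl⟩
    obtain ⟨s, hs, e, he, hes, rfl⟩ := h1
    exact edeg_lf hZ hd hH hs he hes

/-! ### Adjacency in the new family -/

theorem mem_star_SS {w : VV α} {τ : Finset (VV α)} :
    τ ∈ star (SS Z C) w ↔ τ ∈ SS Z C ∧ w ∈ τ := mem_filter

include hZ in
theorem eadj_lf {s t : Finset α} (hs : s ∈ Z) (ht : t ∈ Z) (h : CAdj C s t) :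
    EAdj (lf Z C s s) (lf Z C t t) := by
  have hst : s ≠ t := by
    rintro rfl
    exact cadj_irrefl hZ hs h
  refine inter_card_two (by rw [card_lf, hZ s hs]) (by rw [card_lf, hZ t ht])
    (fun h' => hst (lf_inj h')) (e := lf Z C s (s ∩ t)) (by rw [card_lf, h.1])
    (lf_mono inter_subset_left) ?_
  rw [lf_sub_iff]
  refine ⟨inter_subset_right, fun x hx => ?_⟩
  rw [mem_inter] at hx
  exact lv_eq_of_adj hs ht h hx.1 hx.2

include hZ in
theorem eadj_gc {q : Finset α × Finset α} (hq : q ∈ freeS Z C) :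
    EAdj (lf Z C q.1 q.1) (gc Z C q) := by
  obtain ⟨g1, g2, g3, g4⟩ := mem_freeS.1 hq
  exact inter_card_two (by rw [card_lf, hZ _ g1]) (card_gc g2) lf_ne_gc
    (e := lf Z C q.1 q.2) (by rw [card_lf, g2]) (lf_mono g3) (subset_insert _ _)

include hZ hH in
theorem eadj_gg {q q' : Finset α × Finset α} (hq : q ∈ freeS Z C) (hq' : q' ∈ freeS Z C)
    (hne : q ≠ q') (h : FA Z C q q') : EAdj (gc Z C q) (gc Z C q') := by
  obtain ⟨g1, g2, g3, g4⟩ := mem_freeS.1 hq
  obtain ⟨k1, k2, k3, k4⟩ := mem_freeS.1 hq'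
  obtain ⟨x, hx, hx', hlv⟩ := id h
  refine inter_card_two (card_gc g2) (card_gc k2) (fun h' => hne (gc_inj hZ hH hq hq' h'))
    (e := {Sum.inr (cp Z C q), Sum.inl (lv Z C q.1 x)}) (card_pair Sum.inr_ne_inl) ?_ ?_
  · intro w hw
    rw [mem_insert, mem_singleton] at hw
    rcases hw with rfl | rfl
    · exact inr_mem_gc.2 rfl
    · exact inl_mem_gc.2 ⟨hx, rfl⟩
  · intro w hw
    rw [mem_insert, mem_singleton] at hw
    rcases hw with rfl | rfl
    · exact inr_mem_gc.2 (cp_eq hq hq' h)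
    · exact inl_mem_gc.2 ⟨hx', hlv⟩

include hZ hd hC hH in
theorem kap_one {w : VV α} (hw : w ∈ verts (SS Z C)) : kap (SS Z C) w = 1 := by
  obtain ⟨τ₀, hτ₀, hwτ₀⟩ := mem_verts.1 hw
  have hne : (star (SS Z C) w).Nonempty := ⟨τ₀, mem_star_SS.2 ⟨hτ₀, hwτ₀⟩⟩
  unfold kap
  rw [ncl_eq_one_iff (fun a b h => EAdj_symm a b h) hne]
  suffices h : ∃ o, ∀ a ∈ star (SS Z C) w, Rch (star (SS Z C) w) EAdj o a by
    obtain ⟨o, ho⟩ := h
    intro a ha b hb
    exact ((ho a ha).symm (fun a b h => EAdj_symm a b h)).trans (ho b hb)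
  rcases w with ⟨x, c⟩ | K
  · -- a class vertex
    have h1 : ∃ s ∈ star Z x, (x, c) = lv Z C s x := by
      rcases mem_SS.1 hτ₀ with ⟨s, hs, rfl⟩ | ⟨q, hq, rfl⟩
      · obtain ⟨h2, h3⟩ := inl_mem_lf.1 hwτ₀
        exact ⟨s, mem_star.2 ⟨hs, h2⟩, h3⟩
      · obtain ⟨h2, h3⟩ := inl_mem_gc.1 hwτ₀
        obtain ⟨g1, g2, g3, g4⟩ := mem_freeS.1 hq
        exact ⟨q.1, mem_star.2 ⟨g1, g3 h2⟩, h3⟩
    obtain ⟨s, hs, hxc⟩ := h1
    rw [hxc]
    have hs' := mem_star.1 hs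
    have key : ∀ t, Rch (star Z x) (CAdj C) s t →
        Rch (star (SS Z C) (Sum.inl (lv Z C s x))) EAdj (lf Z C s s) (lf Z C t t) := by
      intro t h
      induction h with
      | refl => exact Relation.ReflTransGen.refl
      | @tail b c hab hbc ih =>
        refine ih.tail ⟨?_, ?_, ?_⟩
        · obtain ⟨hb1, hb2⟩ := mem_star.1 hbc.1
          exact mem_star_SS.2 ⟨mem_SS.2 (Or.inl ⟨b, hb1, rfl⟩),
            inl_mem_lf.2 ⟨hb2, (lv_eq_iff hb1 hb2).2 ⟨rfl, hab⟩⟩⟩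
        · obtain ⟨hb1, hb2⟩ := mem_star.1 hbc.2.1
          exact mem_star_SS.2 ⟨mem_SS.2 (Or.inl ⟨c, hb1, rfl⟩),
            inl_mem_lf.2 ⟨hb2, (lv_eq_iff hb1 hb2).2 ⟨rfl, hab.tail hbc⟩⟩⟩
        · exact eadj_lf hZ (mem_star.1 hbc.1).1 (mem_star.1 hbc.2.1).1 hbc.2.2
    refine ⟨lf Z C s s, fun a ha => ?_⟩
    obtain ⟨haS, haw⟩ := mem_star_SS.1 ha
    rcases mem_SS.1 haS with ⟨t, ht, rfl⟩ | ⟨q, hq, rfl⟩
    · obtain ⟨h2, h3⟩ := inl_mem_lf.1 haw
      exact key t ((lv_eq_iff ht h2).1 h3).2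
    · obtain ⟨h2, h3⟩ := inl_mem_gc.1 haw
      obtain ⟨g1, g2, g3, g4⟩ := mem_freeS.1 hq
      refine (key q.1 ((lv_eq_iff g1 (g3 h2)).1 h3).2).tail ⟨?_, ha, eadj_gc hZ hq⟩
      exact mem_star_SS.2 ⟨mem_SS.2 (Or.inl ⟨_, g1, rfl⟩), inl_mem_lf.2 ⟨g3 h2, h3⟩⟩
  · -- a cap
    obtain ⟨q₀, hq₀, hτq⟩ : ∃ q ∈ freeS Z C, τ₀ = gc Z C q := by
      rcases mem_SS.1 hτ₀ with ⟨s, hs, rfl⟩ | h
      · exact absurd hwτ₀ inr_notMem_lf
      · exact h
    subst hτq
    have hK := inr_mem_gc.1 hwτ₀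
    subst hK
    have key : ∀ q, Rch (freeS Z C) (FA Z C) q₀ q →
        Rch (star (SS Z C) (Sum.inr (cp Z C q₀))) EAdj (gc Z C q₀) (gc Z C q) := by
      intro q h
      induction h with
      | refl => exact Relation.ReflTransGen.refl
      | @tail b c hab hbc ih =>
        by_cases hne : b = c
        · subst hne
          exact ih
        refine ih.tail ⟨?_, ?_, ?_⟩
        · exact mem_star_SS.2 ⟨mem_SS.2 (Or.inr ⟨b, hbc.1, rfl⟩),
            inr_mem_gc.2 ((cl_eq_iff FA_symm hbc.1).2 hab)⟩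
        · exact mem_star_SS.2 ⟨mem_SS.2 (Or.inr ⟨c, hbc.2.1, rfl⟩),
            inr_mem_gc.2 ((cl_eq_iff FA_symm hbc.2.1).2 (hab.tail hbc))⟩
        · exact eadj_gg hZ hH hbc.1 hbc.2.1 hne hbc.2.2
    refine ⟨gc Z C q₀, fun a ha => ?_⟩
    obtain ⟨haS, haw⟩ := mem_star_SS.1 ha
    rcases mem_SS.1 haS with ⟨t, ht, rfl⟩ | ⟨q, hq, rfl⟩
    · exact absurd haw inr_notMem_lf
    · exact key q ((cl_eq_iff FA_symm hq).1 (inr_mem_gc.1 haw))

/-! ### Counting -/

include hZ hH in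
theorem card_SS : (SS Z C).card = Z.card + (freeS Z C).card := by
  unfold SS
  rw [card_union_of_disjoint, card_image_of_injOn, card_image_of_injOn]
  · intro q hq q' hq' h
    exact gc_inj hZ hH hq hq' h
  · intro s hs t ht h
    exact lf_inj h
  · rw [disjoint_left]
    intro τ h1 h2
    obtain ⟨s, hs, rfl⟩ := mem_image.1 h1
    obtain ⟨q, hq, h⟩ := mem_image.1 h2
    exact lf_ne_gc h.symm

theorem mem_verts_SS {w : VV α} : w ∈ verts (SS Z C) ↔
    (∃ x, ∃ s ∈ star Z x, w = Sum.inl (lv Z C s x)) ∨ ∃ q ∈ freeS Z C, w = Sum.inr (cp Z C q) := by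
  rw [mem_verts]
  constructor
  · rintro ⟨τ, hτ, hw⟩
    rcases mem_SS.1 hτ with ⟨s, hs, rfl⟩ | ⟨q, hq, rfl⟩
    · obtain ⟨x, hx, rfl⟩ := mem_lf.1 hw
      exact Or.inl ⟨x, s, mem_star.2 ⟨hs, hx⟩, rfl⟩
    · obtain ⟨g1, g2, g3, g4⟩ := mem_freeS.1 hq
      unfold gc at hw
      rw [mem_insert] at hw
      rcases hw with rfl | hw
      · exact Or.inr ⟨q, hq, rfl⟩
      · obtain ⟨x, hx, rfl⟩ := mem_lf.1 hw
        exact Or.inl ⟨x, q.1, mem_star.2 ⟨g1, g3 hx⟩, rfl⟩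
  · rintro (⟨x, s, hs, rfl⟩ | ⟨q, hq, rfl⟩)
    · obtain ⟨h1, h2⟩ := mem_star.1 hs
      exact ⟨lf Z C s s, mem_SS.2 (Or.inl ⟨s, h1, rfl⟩), mem_lf.2 ⟨x, h2, rfl⟩⟩
    · exact ⟨gc Z C q, mem_SS.2 (Or.inr ⟨q, hq, rfl⟩), inr_mem_gc.2 rfl⟩

theorem fib_eq (x : α) : (verts (SS Z C)).filter (fun w => PP w = some x) =
    (star Z x).image (fun s => (Sum.inl (lv Z C s x) : VV α)) := by
  ext w
  rw [mem_filter, mem_verts_SS, mem_image]
  constructor
  · rintro ⟨⟨y, s, hs, rfl⟩ | ⟨q, hq, rfl⟩, h⟩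
    · have hxy : y = x := Option.some.inj h
      subst hxy
      exact ⟨s, hs, rfl⟩
    · exact absurd h (by simp [PP])
  · rintro ⟨s, hs, rfl⟩
    exact ⟨Or.inl ⟨x, s, hs, rfl⟩, rfl⟩

theorem card_fib (x : α) :
    ((verts (SS Z C)).filter (fun w => PP w = some x)).card = kapC Z C x := by
  rw [fib_eq]
  unfold kapC
  rw [← card_image_cl (A := star Z x) (r := CAdj C) CAdj_symm]
  have h1 : (star Z x).image (fun s => (Sum.inl (lv Z C s x) : VV α)) =
      ((star Z x).image (cl (star Z x) (CAdj C))).image (fun c => (Sum.inl (x, c) : VV α)) := by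
    rw [image_image]
    rfl
  rw [h1, card_image_of_injective]
  intro c c' h
  exact congrArg Prod.snd (Sum.inl.inj h)

theorem caps_eq : (verts (SS Z C)).filter (fun w => PP w = none) =
    ((freeS Z C).image (cp Z C)).image (fun K => (Sum.inr K : VV α)) := by
  ext w
  rw [mem_filter, mem_verts_SS, mem_image]
  constructor
  · rintro ⟨⟨y, s, hs, rfl⟩ | ⟨q, hq, rfl⟩, h⟩
    · exact absurd h (by simp [PP])
    · exact ⟨_, mem_image_of_mem _ hq, rfl⟩
  · rintro ⟨K, hK, rfl⟩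
    obtain ⟨q, hq, rfl⟩ := mem_image.1 hK
    exact ⟨Or.inr ⟨q, hq, rfl⟩, rfl⟩

theorem card_caps : ((verts (SS Z C)).filter (fun w => PP w = none)).card =
    ((freeS Z C).image (cp Z C)).card := by
  rw [caps_eq, card_image_of_injective]
  exact Sum.inr_injective

theorem card_verts_SS : (verts (SS Z C)).card =
    ∑ x ∈ verts Z, kapC Z C x + ((freeS Z C).image (cp Z C)).card := by
  rw [← card_caps, ← card_filter_add_card_filter_not (s := verts (SS Z C))
    (fun w => ¬ PP w = none)]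
  congr 1
  · rw [card_eq_sum_card_fiberwise (f := fun w => (PP w)) (t := (verts Z).image some)]
    · rw [sum_image (fun x _ y _ h => Option.some.inj h)]
      apply sum_congr rfl
      intro x hx
      rw [← card_fib]
      congr 1
      ext w
      simp only [mem_filter]
      constructor
      · rintro ⟨⟨h1, -⟩, h2⟩
        exact ⟨h1, h2⟩
      · rintro ⟨h1, h2⟩
        exact ⟨⟨h1, by rw [h2]; simp⟩, h2⟩
    · intro w hw
      rw [mem_coe, mem_filter, mem_verts_SS] at hw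
      rcases hw with ⟨⟨y, s, hs, rfl⟩ | ⟨q, hq, rfl⟩, h⟩
      · rw [mem_coe]
        exact mem_image_of_mem _ (mem_verts.2 ⟨s, (mem_star.1 hs).1, (mem_star.1 hs).2⟩)
      · exact absurd rfl h
  · congr 1
    ext w
    simp only [mem_filter, not_not]

include hZ hd hH in
/-- each cap has at least three free sides -/
theorem three_caps : 3 * ((freeS Z C).image (cp Z C)).card ≤ (freeS Z C).card := by
  apply mul_card_image_le_card
  intro K hK
  obtain ⟨q, hq, rfl⟩ := mem_image.1 hK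
  obtain ⟨g1, g2, g3, g4⟩ := mem_freeS.1 hq
  obtain ⟨x, y, hxy, he⟩ := card_eq_two.1 g2
  have hx : x ∈ q.2 := by rw [he]; simp
  have hy : y ∈ q.2 := by rw [he]; simp
  obtain ⟨q', hq', hne', hx', hlv', -⟩ := other_side hZ hd hq hx
  obtain ⟨q'', hq'', hne'', hy'', hlv'', -⟩ := other_side hZ hd hq hy
  have hne : q' ≠ q'' := by
    rintro rfl
    apply hne'
    obtain ⟨k1, k2, k3, k4⟩ := mem_freeS.1 hq'
    have h1 : q.2 ⊆ q'.2 := by
      rw [he]
      intro z hz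
      rw [mem_insert, mem_singleton] at hz
      rcases hz with rfl | rfl
      · exact hx'
      · exact hy''
    have h2 : q.2 = q'.2 := eq_of_subset_of_card_le h1 (by omega)
    exact Prod.ext (eq_of_free hZ hH hq' g1 (h2 ▸ g3) hx' hlv') h2.symm
  have hsub : ({q, q', q''} : Finset _) ⊆ (freeS Z C).filter (fun a => cp Z C a = cp Z C q) := by
    intro z hz
    rw [mem_insert, mem_insert, mem_singleton] at hz
    rw [mem_filter]
    rcases hz with rfl | rfl | rfl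
    · exact ⟨hq, rfl⟩
    · exact ⟨hq', cp_eq hq' hq ⟨x, hx', hx, hlv'⟩⟩
    · exact ⟨hq'', cp_eq hq'' hq ⟨y, hy'', hy, hlv''⟩⟩
  have h3 : ({q, q', q''} : Finset _).card = 3 := by
    rw [card_insert_of_notMem, card_pair hne]
    rw [mem_insert, mem_singleton, not_or]
    exact ⟨hne'.symm, hne''.symm⟩
  rw [← h3]
  exact card_le_card hsub

/-! ### Dual components -/

/-- the member below -/
def Sh (Z C : Finset (Finset α)) (τ : Finset (VV α)) (s : Finset α) : Prop :=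
  s ∈ Z ∧ (τ = lf Z C s s ∨ ∃ q ∈ freeS Z C, τ = gc Z C q ∧ q.1 = s)

theorem Sh.lift {τ : Finset (VV α)} {s : Finset α} (h : Sh Z C τ s) {u : α × Finset (Finset α)}
    (hu : (Sum.inl u : VV α) ∈ τ) : u.1 ∈ s ∧ u = lv Z C s u.1 := by
  rcases h.2 with rfl | ⟨q, hq, rfl, rfl⟩
  · exact inl_mem_lf.1 hu
  · obtain ⟨h1, h2⟩ := inl_mem_gc.1 hu
    exact ⟨(mem_freeS.1 hq).2.2.1 h1, h2⟩

theorem exists_Sh {τ : Finset (VV α)} (hτ : τ ∈ SS Z C) : ∃ s, Sh Z C τ s := by
  rcases mem_SS.1 hτ with ⟨s, hs, rfl⟩ | ⟨q, hq, rfl⟩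
  · exact ⟨s, hs, Or.inl rfl⟩
  · exact ⟨q.1, (mem_freeS.1 hq).1, Or.inr ⟨q, hq, rfl, rfl⟩⟩

theorem Sh.rch {τ τ' : Finset (VV α)} {s s' : Finset α} (h : Sh Z C τ s) (h' : Sh Z C τ' s')
    {u : α × Finset (Finset α)} (hu : (Sum.inl u : VV α) ∈ τ) (hu' : (Sum.inl u : VV α) ∈ τ') :
    Rch Z (CAdj C) s s' := by
  obtain ⟨h1, h2⟩ := h.lift hu
  obtain ⟨h3, h4⟩ := h'.lift hu'
  have h5 := ((lv_eq_iff h'.1 h3).1 (h2.symm.trans h4)).2
  exact h5.mono (filter_subset _ _)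

theorem one_inr {τ : Finset (VV α)} (hτ : τ ∈ SS Z C) {K K' : Finset (Finset α × Finset α)}
    (hK : (Sum.inr K : VV α) ∈ τ) (hK' : (Sum.inr K' : VV α) ∈ τ) : K = K' := by
  rcases mem_SS.1 hτ with ⟨s, hs, rfl⟩ | ⟨q, hq, rfl⟩
  · exact absurd hK inr_notMem_lf
  · rw [inr_mem_gc.1 hK, inr_mem_gc.1 hK']

theorem exists_inl {τ τ' : Finset (VV α)} (hτ : τ ∈ SS Z C) (h : EAdj τ τ') :
    ∃ u : α × Finset (Finset α), (Sum.inl u : VV α) ∈ τ ∧ (Sum.inl u : VV α) ∈ τ' := by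
  obtain ⟨a, b, hab, he⟩ := card_eq_two.1 h
  have ha : a ∈ τ ∩ τ' := by rw [he]; simp
  have hb : b ∈ τ ∩ τ' := by rw [he]; simp
  rw [mem_inter] at ha hb
  rcases a with u | K
  · exact ⟨u, ha.1, ha.2⟩
  · rcases b with u | K'
    · exact ⟨u, hb.1, hb.2⟩
    · exact absurd (by rw [one_inr hτ ha.1 hb.1]) hab

include hZ hH in
theorem b0_SS : b0 (SS Z C) = ncl Z (CAdj C) := by
  symm
  unfold b0
  apply ncl_eq_of_map CAdj_symm (fun a b h => EAdj_symm a b h) (fun s => lf Z C s s)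
  · intro s hs
    exact mem_SS.2 (Or.inl ⟨s, hs, rfl⟩)
  · intro s hs t ht h
    exact Relation.ReflTransGen.single ⟨mem_SS.2 (Or.inl ⟨s, hs, rfl⟩),
      mem_SS.2 (Or.inl ⟨t, ht, rfl⟩), eadj_lf hZ hs ht h⟩
  · intro s hs t ht h
    have key : ∀ τ, Rch (SS Z C) EAdj (lf Z C s s) τ → ∀ t, Sh Z C τ t → Rch Z (CAdj C) s t := by
      intro τ h
      induction h with
      | refl =>
        intro t ht
        have h0 : Sh Z C (lf Z C s s) s := ⟨hs, Or.inl rfl⟩
        obtain ⟨x, hx⟩ : s.Nonempty := card_pos.1 (by rw [hZ s hs]; omega)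
        exact h0.rch ht (mem_lf.2 ⟨x, hx, rfl⟩) (mem_lf.2 ⟨x, hx, rfl⟩)
      | @tail b c hab hbc ih =>
        intro t ht
        obtain ⟨t', ht'⟩ := exists_Sh hbc.1
        obtain ⟨u, hu, hu'⟩ := exists_inl hbc.1 hbc.2.2
        exact (ih t' ht').trans (ht'.rch ht hu hu')
    exact key _ h t ⟨ht, Or.inl rfl⟩
  · intro τ hτ
    rcases mem_SS.1 hτ with ⟨s, hs, rfl⟩ | ⟨q, hq, rfl⟩
    · exact ⟨s, hs, Relation.ReflTransGen.refl⟩
    · exact ⟨q.1, (mem_freeS.1 hq).1, Relation.ReflTransGen.single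
        ⟨mem_SS.2 (Or.inl ⟨q.1, (mem_freeS.1 hq).1, rfl⟩), hτ, eadj_gc hZ hq⟩⟩

/-! ### Faces -/

theorem lf_proj (s : Finset α) : (∀ w ∈ lf Z C s s, (PP w).isSome) ∧
    ∀ x, x ∈ s ↔ ∃ w ∈ lf Z C s s, PP w = some x := by
  constructor
  · intro w hw
    obtain ⟨x, hx, rfl⟩ := mem_lf.1 hw
    rfl
  · intro x
    constructor
    · intro hx
      exact ⟨_, mem_lf.2 ⟨x, hx, rfl⟩, rfl⟩
    · rintro ⟨w, hw, h⟩
      obtain ⟨y, hy, rfl⟩ := mem_lf.1 hw
      have hxy : y = x := Option.some.inj h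
      exact hxy ▸ hy

theorem no_cap {τ : Finset (VV α)} (hτ : τ ∈ SS Z C) (h : ∀ w ∈ τ, (PP w).isSome) :
    ∃ s ∈ Z, lf Z C s s = τ := by
  rcases mem_SS.1 hτ with ⟨s, hs, rfl⟩ | ⟨q, hq, rfl⟩
  · exact ⟨s, hs, rfl⟩
  · exact absurd (h _ (inr_mem_gc.2 rfl)) (by simp [PP])

theorem is_cap {τ : Finset (VV α)} (hτ : τ ∈ SS Z C) (h : ∃ w ∈ τ, PP w = none) :
    ∃ q ∈ freeS Z C, τ = gc Z C q := by
  rcases mem_SS.1 hτ with ⟨s, hs, rfl⟩ | h1
  · obtain ⟨w, hw, h2⟩ := h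
    have := (lf_proj s).1 w hw
    rw [h2] at this
    exact absurd this (by simp)
  · exact h1

end main

end CC

open CC in
/-- 9.4 -/
theorem exists_cutcap (Z C : Finset (Finset α)) (hZ : IsFam Z) (hd : ∀ e, edeg Z e ≤ 2 ∨ e.card ≠ 2)
    (hC : ∀ e ∈ C, e.card = 2) (hH : HypH Z C) : Nonempty (CutCap Z C) := by
  refine ⟨{
    β := VV α
    dec := inferInstance
    S := SS Z C
    P := PP
    h := ((freeS Z C).image (cp Z C)).card
    surf := ⟨fun τ hτ => SS_card hZ hτ, SS_closed hZ hd hH, fun w hw => kap_one hZ hd hC hH hw⟩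
    card_S := card_SS hZ hH
    card_V := card_verts_SS
    h_le := three_caps hZ hd hH
    h_pos := fun h => card_pos.2 ((card_pos.1 h).image _)
    h_card := card_caps
    b0_eq := b0_SS hZ hH
    fib := fun x _ => card_fib x
    enc := ?_
    f := fun s => lf Z C s s
    f_mem := fun s hs => ⟨mem_SS.2 (Or.inl ⟨s, hs, rfl⟩), lf_proj s⟩
    f_inj := fun s _ t _ h => lf_inj h
    f_surj := fun t ht h => no_cap ht h
    f_adj := ?_
    cap_adj := ?_
    one_cap := ?_ }⟩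
  · intro s
    constructor
    · intro hs
      exact ⟨lf Z C s s, mem_SS.2 (Or.inl ⟨s, hs, rfl⟩), lf_proj s⟩
    · rintro ⟨t, ht, h1, h2⟩
      obtain ⟨s', hs', rfl⟩ := no_cap ht h1
      have : s = s' := by
        ext x
        rw [h2, ← (lf_proj s').2]
      exact this ▸ hs'
  · intro s hs t ht hst
    constructor
    · intro h
      obtain ⟨e, he, heq⟩ := sub_lf (inter_subset_left : lf Z C s s ∩ lf Z C t t ⊆ lf Z C s s)
      have he2 : e.card = 2 := by
        rw [← card_lf (Z := Z) (C := C) s e, ← heq]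
        exact h
      obtain ⟨h1, h2⟩ := lf_sub_iff.1 (heq ▸ inter_subset_right : lf Z C s e ⊆ lf Z C t t)
      obtain ⟨x, hx⟩ : e.Nonempty := card_pos.1 (by omega)
      exact (adj_of_share hZ hH hs ht hst he2 he h1 hx (h2 x hx)).1
    · exact eadj_lf hZ hs ht
  · intro τ hτ τ' hτ' hne h1 h2 h3
    obtain ⟨q, hq, rfl⟩ := is_cap hτ h1
    obtain ⟨q', hq', rfl⟩ := is_cap hτ' h2
    by_contra hcon
    push Not at hcon
    have h4 : gc Z C q ∩ gc Z C q' ⊆ lf Z C q.1 q.2 := by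
      intro w hw
      have h5 := (mem_inter.1 hw).1
      unfold gc at h5
      rw [mem_insert] at h5
      rcases h5 with rfl | h5
      · exact absurd rfl (hcon _ hw)
      · exact h5
    obtain ⟨e, he, heq⟩ := sub_lf h4
    have he2 : e.card = 2 := by
      rw [← card_lf (Z := Z) (C := C) q.1 e, ← heq]
      exact h3
    obtain ⟨g1, g2, g3, g4⟩ := mem_freeS.1 hq
    obtain ⟨k1, k2, k3, k4⟩ := mem_freeS.1 hq'
    have he3 : e = q.2 := eq_of_subset_of_card_le he (by omega)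
    obtain ⟨h5, h6⟩ := lf_sub_gc (heq ▸ inter_subset_right : lf Z C q.1 e ⊆ gc Z C q')
    have he4 : e = q'.2 := eq_of_subset_of_card_le h5 (by omega)
    obtain ⟨x, hx⟩ : e.Nonempty := card_pos.1 (by omega)
    apply hne
    have h7 : q.1 = q'.1 := eq_of_free hZ hH hq k1 (he3 ▸ h5.trans k3) (he3 ▸ hx) (h6 x hx)
    rw [Prod.ext h7 (he3.symm.trans he4)]
  · intro τ hτ
    rw [card_le_one]
    intro a ha b hb
    rw [mem_filter] at ha hb
    rcases a with u | K
    · exact absurd ha.2 (by simp [PP])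
    · rcases b with u | K'
      · exact absurd hb.2 (by simp [PP])
      · rw [one_inr hτ ha.1 hb.1]

end Pool.Agent.SC
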