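import Pool.Agent.Lib.MP_d0323d_co.Enc
import Pool.Agent.Lib.MP_d0323d_co.CutCapCore
/-! Module CUTCAP (9.4). The construction is in CutCapCore. -/
set_option autoImplicit false
namespace Pool.Agent.SC
open Finset
variable {α : Type} [DecidableEq α]

/-- the encoding given by cut-and-cap -/
theorem CutCap.enc_le {Z C : Finset (Finset α)} (hZ : IsFam Z) (X : CutCap Z C) (E : ℕ)
    (hE : ∑ x ∈ verts Z, (kapC Z C x - 1) + X.h ≤ E) : @Enc α X.β _ X.dec Z X.S E := by
  letI := X.dec
  have hk : ∀ x ∈ verts Z, 1 ≤ kapC Z C x := by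
    intro x hx
    obtain ⟨s, hs, hxs⟩ := mem_verts.1 hx
    exact ncl_pos ⟨s, mem_filter.2 ⟨hs, hxs⟩⟩
  have hne : ∀ x : {x // x ∈ verts Z}, ∃ w ∈ verts X.S, X.P w = some x.1 := by
    rintro ⟨x, hx⟩
    have h1 : 0 < ((verts X.S).filter (fun w => X.P w = some x)).card := by
      rw [X.fib x hx]
      exact hk x hx
    obtain ⟨w, hw⟩ := card_pos.1 h1
    exact ⟨w, (mem_filter.1 hw).1, (mem_filter.1 hw).2⟩
  choose g hg hgP using hne
  have ginj : Function.Injective g := by
    intro x y h
    have h1 := hgP x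
    rw [h, hgP y] at h1
    exact Subtype.ext (Option.some.inj h1).symm
  have hsub : (verts Z).attach.image g ⊆ verts X.S := by
    intro w hw
    obtain ⟨x, -, rfl⟩ := mem_image.1 hw
    exact hg x
  refine ⟨X.P, (verts Z).attach.image g, ∅, hsub, ?_, ?_, ?_, ?_, ?_, ?_⟩
  · intro w hw
    obtain ⟨x, -, rfl⟩ := mem_image.1 hw
    exact ⟨x.1, x.2, hgP x⟩
  · intro w hw w' hw' h
    rw [mem_coe] at hw hw'
    obtain ⟨x, -, rfl⟩ := mem_image.1 hw
    obtain ⟨y, -, rfl⟩ := mem_image.1 hw'
    rw [hgP, hgP] at h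
    rw [Subtype.ext (Option.some.inj h)]
  · rw [card_sdiff_of_subset hsub, card_image_of_injective _ ginj, card_attach, X.card_V]
    have h1 : ∑ x ∈ verts Z, kapC Z C x = ∑ x ∈ verts Z, (kapC Z C x - 1) + (verts Z).card := by
      rw [card_eq_sum_ones, ← sum_add_distrib]
      apply sum_congr rfl
      intro x hx
      have := hk x hx
      omega
    omega
  · have h1 : (verts Z).filter (fun x => ∀ w ∈ (verts Z).attach.image g, X.P w ≠ some x) = ∅ := by
      rw [filter_eq_empty_iff]
      intro x hx h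
      exact h (g ⟨x, hx⟩) (mem_image_of_mem _ (mem_attach _ _)) (hgP ⟨x, hx⟩)
    rw [h1, card_empty]
    exact Nat.zero_le _
  · rw [card_empty]
    exact Nat.zero_le _
  · intro s
    rw [X.enc s]
    constructor
    · exact Or.inr
    · rintro (h | h)
      · exact absurd h (notMem_empty _)
      · exact h

end Pool.Agent.SC
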