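import Pool.Agent.Lib.MP_d0323d_co.Diag
/-! Module CUTPEEL (8.5, 8.6, 8.7). -/
set_option autoImplicit false
namespace Pool.Agent.SC
open Finset

namespace CP

section darts
variable {V E : Type} {s t : E → V}

/-- reversed dart -/
def fl (d : E × Bool) : E × Bool := (d.1, !d.2)
/-- reversed dart list -/
def rv (l : List (E × Bool)) : List (E × Bool) := (l.map fl).reverse

theorem dsrc_fl (d : E × Bool) : dsrc s t (fl d) = dtgt s t d := by
  rcases d with ⟨e, b⟩; cases b <;> rfl
theorem dtgt_fl (d : E × Bool) : dtgt s t (fl d) = dsrc s t d := by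
  rcases d with ⟨e, b⟩; cases b <;> rfl
theorem fl_fl (d : E × Bool) : fl (fl d) = d := by
  rcases d with ⟨e, b⟩; cases b <;> rfl

theorem rv_append (a b : List (E × Bool)) : rv (a ++ b) = rv b ++ rv a := by
  simp [rv]
theorem rv_rv (a : List (E × Bool)) : rv (rv a) = a := by
  simp [rv, List.map_reverse, Function.comp_def, fl_fl]
theorem rv_cons (d : E × Bool) (l : List (E × Bool)) : rv (d :: l) = rv l ++ [fl d] := by
  simp [rv]
theorem rv_nil : rv ([] : List (E × Bool)) = [] := rfl

theorem dwalk_append {u v : V} {l1 l2 : List (E × Bool)} :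
    DWalk s t u (l1 ++ l2) v ↔ ∃ m, DWalk s t u l1 m ∧ DWalk s t m l2 v := by
  induction l1 generalizing u with
  | nil => simp [DWalk]
  | cons d l ih =>
    simp only [List.cons_append, DWalk, ih]
    constructor
    · rintro ⟨h, m, h1, h2⟩; exact ⟨m, ⟨h, h1⟩, h2⟩
    · rintro ⟨m, ⟨h, h1⟩, h2⟩; exact ⟨h, m, h1, h2⟩

theorem DWalk.app {u m v : V} {l1 l2 : List (E × Bool)} (h1 : DWalk s t u l1 m)
    (h2 : DWalk s t m l2 v) : DWalk s t u (l1 ++ l2) v := dwalk_append.2 ⟨m, h1, h2⟩

theorem dwalk_single {u v : V} {d : E × Bool} : DWalk s t u [d] v ↔ dsrc s t d = u ∧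
    dtgt s t d = v := by simp [DWalk]

theorem dwalk_rv {u v : V} {l : List (E × Bool)} (h : DWalk s t u l v) :
    DWalk s t v (rv l) u := by
  induction l generalizing u with
  | nil => exact h.symm
  | cons d l ih =>
    obtain ⟨h1, h2⟩ := h
    rw [rv_cons]
    refine DWalk.app (ih h2) (dwalk_single.2 ⟨dsrc_fl d, ?_⟩)
    rw [dtgt_fl, h1]

theorem dcnt_append [DecidableEq E] (a b : List (E × Bool)) (e : E) :
    dcnt (a ++ b) e = dcnt a e + dcnt b e := by simp [dcnt, List.countP_append]
theorem dcnt_cons [DecidableEq E] (d : E × Bool) (b : List (E × Bool)) (e : E) :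
    dcnt (d :: b) e = dcnt b e + (if d.1 = e then 1 else 0) := by
  simp [dcnt, List.countP_cons]
theorem dcnt_nil [DecidableEq E] (e : E) : dcnt ([] : List (E × Bool)) e = 0 := rfl
theorem dcnt_rv [DecidableEq E] (a : List (E × Bool)) (e : E) : dcnt (rv a) e = dcnt a e := by
  induction a with
  | nil => rfl
  | cons d l ih => rw [rv_cons, dcnt_append, ih, dcnt_cons, dcnt_cons, dcnt_nil]; simp [fl]

theorem dcnt_pos [DecidableEq E] {a : List (E × Bool)} {e : E} (h : dcnt a e ≠ 0) :
    ∃ (l1 l2 : List (E × Bool)) (d : E × Bool), a = l1 ++ d :: l2 ∧ d.1 = e := by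
  have : 0 < a.countP (fun d => d.1 = e) := Nat.pos_of_ne_zero h
  rw [List.countP_pos_iff] at this
  obtain ⟨d, hd, hde⟩ := this
  obtain ⟨l1, l2, rfl⟩ := List.append_of_mem hd
  exact ⟨l1, l2, d, rfl, by simpa using hde⟩

theorem dcnt_mem [DecidableEq E] {a : List (E × Bool)} {d : E × Bool} (h : d ∈ a) :
    dcnt a d.1 ≠ 0 := by
  have : 0 < a.countP (fun d' => d'.1 = d.1) := by
    rw [List.countP_pos_iff]; exact ⟨d, h, by simp⟩
  exact this.ne'

/-- sums over traversals -/
theorem sum_dcnt {R : Type} [CommSemiring R] [Fintype E] [DecidableEq E] (a : List (E × Bool))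
    (f : E → R) : ∑ e, (dcnt a e : R) * f e = (a.map (fun d => f d.1)).sum := by
  induction a with
  | nil => simp [dcnt_nil]
  | cons d l ih =>
    simp only [dcnt_cons, List.map_cons, List.sum_cons, ← ih, Nat.cast_add, add_mul,
      Finset.sum_add_distrib]
    rw [add_comm]
    congr 1
    simp

theorem tele {χ : V → ZMod 2} {u v : V} {l : List (E × Bool)} (h : DWalk s t u l v) :
    (l.map (fun d => χ (s d.1) + χ (t d.1))).sum = χ u + χ v := by
  induction l generalizing u with
  | nil =>
    have : u = v := h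
    subst this
    simp only [List.map_nil, List.sum_nil]
    exact (CharTwo.add_self_eq_zero _).symm
  | cons d l ih =>
    obtain ⟨h1, h2⟩ := h
    rw [List.map_cons, List.sum_cons, ih h2]
    have : χ (s d.1) + χ (t d.1) = χ u + χ (dtgt s t d) := by
      rw [← h1]
      rcases d with ⟨e, b⟩
      cases b
      · simp [dsrc, dtgt, add_comm]
      · simp [dsrc, dtgt]
    rw [this]
    have h3 : χ (dtgt s t d) + χ (dtgt s t d) = 0 := CharTwo.add_self_eq_zero _
    calc χ u + χ (dtgt s t d) + (χ (dtgt s t d) + χ v)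
        = χ u + χ v + (χ (dtgt s t d) + χ (dtgt s t d)) := by ring
      _ = χ u + χ v := by rw [h3, add_zero]

theorem isCy_walk [Fintype E] [DecidableEq E] [DecidableEq V] {u : V} {l : List (E × Bool)}
    (h : DWalk s t u l u) : IsCy s t (fun e => (dcnt l e : ZMod 2)) := by
  intro v
  rw [sum_dcnt]
  have := tele (χ := fun x => if x = v then (1 : ZMod 2) else 0) h
  rw [this]
  exact CharTwo.add_self_eq_zero _

theorem isCy_add [Fintype E] [DecidableEq V] {c c' : E → ZMod 2}
    (h : IsCy s t c) (h' : IsCy s t c') : IsCy s t (fun e => c e + c' e) := by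
  intro v
  have := h v
  have := h' v
  simp only [add_mul, Finset.sum_add_distrib]
  rw [h v, h' v, add_zero]

theorem isCy_sum [Fintype E] [DecidableEq V] {I : Type} (A : Finset I) {c : I → E → ZMod 2}
    (h : ∀ i ∈ A, IsCy s t (c i)) : IsCy s t (fun e => ∑ i ∈ A, c i e) := by
  classical
  induction A using Finset.induction_on with
  | empty => intro v; simp
  | insert a A ha ih =>
    simp only [Finset.sum_insert ha]
    exact isCy_add (h a (Finset.mem_insert_self _ _))
      (ih (fun i hi => h i (Finset.mem_insert_of_mem hi)))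

end darts


section restrict
variable {V E : Type} {s t : E → V} {P : V → Prop} {Q : E → Prop}

/-- lift of a list of darts to a subtype -/
def lft (l : List (E × Bool)) (H : ∀ d ∈ l, Q d.1) : List ({e // Q e} × Bool) :=
  l.pmap (fun d (h : Q d.1) => ((⟨d.1, h⟩ : {e // Q e}), d.2)) H

theorem dwalk_lft (hs : ∀ e : {e // Q e}, P (s e.1)) (ht : ∀ e : {e // Q e}, P (t e.1))
    (l : List (E × Bool)) (H : ∀ d ∈ l, Q d.1) {u v : V} (hu : P u) (hv : P v)
    (h : DWalk s t u l v) :
    DWalk (fun e : {e // Q e} => (⟨s e.1, hs e⟩ : {v // P v}))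
      (fun e : {e // Q e} => (⟨t e.1, ht e⟩ : {v // P v})) ⟨u, hu⟩ (lft l H) ⟨v, hv⟩ := by
  induction l generalizing u with
  | nil =>
    have : u = v := h
    subst this
    rfl
  | cons d l ih =>
    obtain ⟨h1, h2⟩ := h
    have hQ := H d (List.mem_cons_self)
    have hP : P (dtgt s t d) := by
      rcases d with ⟨e, b⟩
      cases b
      · exact hs ⟨e, hQ⟩
      · exact ht ⟨e, hQ⟩
    refine ⟨?_, ?_⟩
    · rcases d with ⟨e, b⟩
      cases b
      · exact Subtype.ext h1
      · exact Subtype.ext h1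
    · have := ih (fun d hd => H d (List.mem_cons_of_mem _ hd)) hP h2
      rcases d with ⟨e, b⟩
      cases b
      · exact this
      · exact this

theorem dcnt_lft [DecidableEq E] [DecidableEq {e // Q e}] (l : List (E × Bool))
    (H : ∀ d ∈ l, Q d.1) (e : {e // Q e}) : dcnt (lft l H) e = dcnt l e.1 := by
  induction l with
  | nil => rfl
  | cons d l ih =>
    have := ih (fun d hd => H d (List.mem_cons_of_mem _ hd))
    rw [dcnt_cons, ← this]
    change dcnt ((⟨d.1, _⟩, d.2) :: lft l _) e = _
    rw [dcnt_cons]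
    congr 1
    by_cases h : d.1 = e.1
    · rw [if_pos h, if_pos (Subtype.ext h)]
    · rw [if_neg h, if_neg (fun hc => h (congrArg Subtype.val hc))]

theorem dlab_lft {n : ℕ} {lab : V → Fin n} (hs : ∀ e : {e // Q e}, P (s e.1))
    (ht : ∀ e : {e // Q e}, P (t e.1))
    (l : List (E × Bool)) (H : ∀ d ∈ l, Q d.1) {u : V} (hu : P u) :
    dlab (fun e : {e // Q e} => (⟨s e.1, hs e⟩ : {v // P v}))
      (fun e : {e // Q e} => (⟨t e.1, ht e⟩ : {v // P v})) (fun v => lab v.1) ⟨u, hu⟩ (lft l H) =
      dlab s t lab u l := by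
  unfold dlab lft
  rw [List.map_pmap]
  congr 1
  rw [List.pmap_eq_map_attach, ← List.attach_map_val (l := l)]
  apply List.map_congr_left
  rintro ⟨⟨e, b⟩, h⟩ _
  cases b <;> rfl

end restrict


theorem filter_map_sum {β : Type} (p : β → Prop) [DecidablePred p] (l : List β) (f : β → ℕ) :
    ((l.filter (fun x => p x)).map f).sum = (l.map (fun x => if p x then f x else 0)).sum := by
  induction l with
  | nil => rfl
  | cons a l ih =>
    by_cases h : p a
    · rw [List.filter_cons_of_pos (by simpa using h), List.map_cons, List.sum_cons, ih,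
        List.map_cons, List.sum_cons, if_pos h]
    · rw [List.filter_cons_of_neg (by simpa using h), ih,
        List.map_cons, List.sum_cons, if_neg h, zero_add]

theorem sum_sub {I M : Type} [Fintype I] [AddCommMonoid M] (p : I → Prop) [DecidablePred p]
    (g : I → M) (hg : ∀ i, ¬ p i → g i = 0) : ∑ i : {i // p i}, g i.1 = ∑ i, g i := by
  rw [← Fintype.sum_subtype_add_sum_subtype p g]
  rw [Finset.sum_eq_zero (s := (univ : Finset {x // ¬ p x})) (fun i _ => hg i.1 i.2), add_zero]

/-- a diagram from data without connectivity: restrict to the component of the base point -/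
theorem of_data {n : ℕ} {Pol : List (Fin n) → Prop} {V E I : Type} [Fintype V] [Fintype E]
    [Fintype I] [DecidableEq V] [DecidableEq E] (s t : E → V) (lab : V → Fin n)
    (ne : ∀ e, lab (s e) ≠ lab (t e)) (base : V) (out : List (E × Bool))
    (hout : DWalk s t base out base) (cb : I → V) (cl : I → List (E × Bool))
    (hcl : ∀ i, DWalk s t (cb i) (cl i) (cb i))
    (hpol : ∀ i, Pol (dlab s t lab (cb i) (cl i)))
    (two : ∀ e, dcnt out e + ∑ i, dcnt (cl i) e = 0 ∨ dcnt out e + ∑ i, dcnt (cl i) e = 2)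
    (h1 : ∀ c : E → ZMod 2, IsCy s t c → (∀ e, dcnt out e + ∑ i, dcnt (cl i) e = 0 → c e = 0) →
      ∃ A : Finset I, ∀ e, c e = ∑ i ∈ A, (dcnt (cl i) e : ZMod 2)) :
    PLe Pol (dlab s t lab base out) (Fintype.card I) := by
  classical
  set tot : E → ℕ := fun e => dcnt out e + ∑ i, dcnt (cl i) e with htot
  let rel : V → V → Prop := fun a b => ∃ d : E × Bool, tot d.1 ≠ 0 ∧ dsrc s t d = a ∧
    dtgt s t d = b
  have relsymm : ∀ a b, rel a b → rel b a := by
    rintro a b ⟨d, h1, h2, h3⟩
    exact ⟨fl d, h1, by rw [dsrc_fl, h3], by rw [dtgt_fl, h2]⟩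
  let P : V → Prop := fun v => Relation.ReflTransGen rel base v
  have hPbase : P base := Relation.ReflTransGen.refl
  have hPstep : ∀ a b, rel a b → P a → P b := fun a b h ha => ha.tail h
  let Q : E → Prop := fun e => tot e ≠ 0 ∧ P (s e)
  -- darts
  have hQd : ∀ d : E × Bool, tot d.1 ≠ 0 → P (dsrc s t d) → Q d.1 ∧ P (dtgt s t d) := by
    intro d h0 hP
    have h2 : P (dtgt s t d) := hPstep _ _ ⟨d, h0, rfl, rfl⟩ hP
    rcases d with ⟨e, b⟩
    cases b
    · exact ⟨⟨h0, h2⟩, h2⟩
    · exact ⟨⟨h0, hP⟩, h2⟩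
  have hs : ∀ e : {e // Q e}, P (s e.1) := fun e => e.2.2
  have ht : ∀ e : {e // Q e}, P (t e.1) := fun e =>
    hPstep _ _ ⟨(e.1, true), e.2.1, rfl, rfl⟩ e.2.2
  have hQw : ∀ (l : List (E × Bool)) (u v : V), P u → DWalk s t u l v → (∀ d ∈ l, tot d.1 ≠ 0) →
      ∀ d ∈ l, Q d.1 := by
    intro l
    induction l with
    | nil => intro u v _ _ _ d hd; exact absurd hd (List.not_mem_nil)
    | cons a l ih =>
      intro u v hu hw hall d hd
      obtain ⟨h1, h2⟩ := hw
      have h3 := hQd a (hall a List.mem_cons_self) (by rw [h1]; exact hu)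
      rcases List.mem_cons.1 hd with rfl | hd
      · exact h3.1
      · exact ih _ _ h3.2 h2 (fun d hd => hall d (List.mem_cons_of_mem _ hd)) d hd
  have hreachw : ∀ (l : List (E × Bool)) (u v : V), DWalk s t u l v → (∀ d ∈ l, tot d.1 ≠ 0) →
      Relation.ReflTransGen rel u v := by
    intro l
    induction l with
    | nil => intro u v h _; have : u = v := h; subst this; exact Relation.ReflTransGen.refl
    | cons a l ih =>
      intro u v hw hall
      obtain ⟨h1, h2⟩ := hw
      exact Relation.ReflTransGen.head ⟨a, hall a List.mem_cons_self, h1, rfl⟩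
        (ih _ _ h2 (fun d hd => hall d (List.mem_cons_of_mem _ hd)))
  have hrsymm : ∀ u v, Relation.ReflTransGen rel u v → Relation.ReflTransGen rel v u := by
    intro u v h
    induction h with
    | refl => exact Relation.ReflTransGen.refl
    | tail _ h2 ih => exact Relation.ReflTransGen.head (relsymm _ _ h2) ih
  have houttot : ∀ d ∈ out, tot d.1 ≠ 0 := by
    intro d hd hc
    have := dcnt_mem hd
    simp only [htot] at hc
    omega
  have hcltot : ∀ i, ∀ d ∈ cl i, tot d.1 ≠ 0 := by
    intro i d hd hc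
    have h2 := dcnt_mem hd
    have h3 : dcnt (cl i) d.1 ≤ ∑ i, dcnt (cl i) d.1 :=
      Finset.single_le_sum (f := fun i => dcnt (cl i) d.1) (fun _ _ => Nat.zero_le _)
        (Finset.mem_univ i)
    simp only [htot] at hc
    omega
  have hcellout : ∀ i, ¬ P (cb i) → ∀ e, Q e → dcnt (cl i) e = 0 := by
    intro i hi e he
    by_contra hc
    obtain ⟨l1, l2, d, hl, hde⟩ := dcnt_pos hc
    apply hi
    have hw := hcl i
    rw [hl, dwalk_append] at hw
    obtain ⟨m, hw1, hw2⟩ := hw
    have hm : m = dsrc s t d := hw2.1.symm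
    have h5 : Relation.ReflTransGen rel (cb i) m := hreachw l1 _ _ hw1 (fun d' hd' =>
      hcltot i d' (by rw [hl]; exact List.mem_append_left _ hd'))
    have h6 : P m := by
      rw [hm]
      subst hde
      rcases d with ⟨e, b⟩
      cases b
      · exact ht ⟨e, he⟩
      · exact hs ⟨e, he⟩
    exact Relation.ReflTransGen.trans h6 (hrsymm _ _ h5)
  let s' : {e // Q e} → {v // P v} := fun e => ⟨s e.1, hs e⟩
  let t' : {e // Q e} → {v // P v} := fun e => ⟨t e.1, ht e⟩
  have hQout := hQw out base base hPbase hout houttot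
  have hQcl : ∀ i : {i : I // P (cb i)}, ∀ d ∈ cl i.1, Q d.1 := fun i =>
    hQw (cl i.1) (cb i.1) (cb i.1) i.2 (hcl i.1) (hcltot i.1)
  let cell : {i : I // P (cb i)} → {v // P v} × List ({e // Q e} × Bool) := fun i =>
    (⟨cb i.1, i.2⟩, lft (cl i.1) (hQcl i))
  have hsumI : ∀ e : {e // Q e}, ∑ i : {i : I // P (cb i)}, dcnt (cell i).2 e =
      ∑ i, dcnt (cl i) e.1 := by
    intro e
    have h2 : ∀ i : {i : I // P (cb i)}, dcnt (cell i).2 e = dcnt (cl i.1) e.1 := fun i =>
      dcnt_lft _ _ _
    rw [Finset.sum_congr rfl (fun i _ => h2 i)]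
    exact sum_sub (fun i => P (cb i)) (fun i => dcnt (cl i) e.1)
      (fun i hi => hcellout i hi e.1 e.2)
  have hlsum : ∀ g : {i : I // P (cb i)} → ℕ,
      (((univ : Finset {i : I // P (cb i)}).toList).map g).sum = ∑ i, g i := fun g =>
    Finset.sum_map_toList _ _
  let D : Dia n Pol :=
    { V := {v // P v}
      E := {e // Q e}
      fV := inferInstance
      fE := inferInstance
      dV := inferInstance
      dE := inferInstance
      s := s'
      t := t'
      lab := fun v => lab v.1
      ne := fun e => ne e.1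
      base := ⟨base, hPbase⟩
      out := lft out hQout
      out_walk := dwalk_lft hs ht out hQout hPbase hPbase hout
      cells := ((univ : Finset {i : I // P (cb i)}).toList).map cell
      cells_walk := by
        intro c hc
        obtain ⟨i, -, rfl⟩ := List.mem_map.1 hc
        exact dwalk_lft hs ht (cl i.1) (hQcl i) i.2 i.2 (hcl i.1)
      cells_pol := by
        intro c hc
        obtain ⟨i, -, rfl⟩ := List.mem_map.1 hc
        have := hpol i.1
        rw [← dlab_lft (lab := lab) hs ht (cl i.1) (hQcl i) i.2] at this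
        exact this
      conn := by
        have key : ∀ v (hv : P v), Relation.ReflTransGen
            (fun a b => ∃ d : {e // Q e} × Bool, dsrc s' t' d = a ∧ dtgt s' t' d = b)
            (⟨base, hPbase⟩ : {v // P v}) ⟨v, hv⟩ := by
          intro v hv
          induction hv with
          | refl => exact Relation.ReflTransGen.refl
          | tail h2 h3 ih =>
            obtain ⟨d, h4, h5, h6⟩ := h3
            refine Relation.ReflTransGen.tail ih ?_
            have h7 := hQd d h4 (by rw [h5]; exact h2)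
            refine ⟨(⟨d.1, h7.1⟩, d.2), ?_, ?_⟩
            · apply Subtype.ext
              rcases d with ⟨e, b⟩
              cases b <;> exact h5
            · apply Subtype.ext
              rcases d with ⟨e, b⟩
              cases b <;> exact h6
        have symm : ∀ a b : {v // P v}, Relation.ReflTransGen
            (fun a b => ∃ d : {e // Q e} × Bool, dsrc s' t' d = a ∧ dtgt s' t' d = b) a b →
            Relation.ReflTransGen
            (fun a b => ∃ d : {e // Q e} × Bool, dsrc s' t' d = a ∧ dtgt s' t' d = b) b a := by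
          intro a b h
          induction h with
          | refl => exact Relation.ReflTransGen.refl
          | tail _ h2 ih =>
            obtain ⟨d, h3, h4⟩ := h2
            exact Relation.ReflTransGen.head ⟨fl d, by rw [dsrc_fl, h4], by rw [dtgt_fl, h3]⟩ ih
        intro u v
        exact (symm _ _ (key u.1 u.2)).trans (key v.1 v.2)
      two := by
        intro e
        have h2 : dcnt (lft out hQout) e = dcnt out e.1 := dcnt_lft _ _ _
        have h3 : (((univ : Finset {i : I // P (cb i)}).toList.map cell).map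
            (fun c => dcnt c.2 e)).sum = ∑ i, dcnt (cl i) e.1 := by
          rw [List.map_map, ← hsumI e]
          exact hlsum (fun i => dcnt (cell i).2 e)
        rw [h2, h3]
        rcases two e.1 with h4 | h4
        · exact absurd h4 e.2.1
        · exact h4
      h1 := by
        intro c' hc'
        let c : E → ZMod 2 := fun e => if h : Q e then c' ⟨e, h⟩ else 0
        have hcQ : ∀ e : {e // Q e}, c e.1 = c' e := fun e => dif_pos e.2
        have hcnQ : ∀ e, ¬ Q e → c e = 0 := fun e h => dif_neg h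
        have hcy : IsCy s t c := by
          intro v
          have h5 : ∀ e, ¬ Q e → c e * ((if s e = v then (1 : ZMod 2) else 0) +
              (if t e = v then 1 else 0)) = 0 := by
            intro e he
            rw [hcnQ e he, zero_mul]
          rw [← sum_sub Q _ h5]
          by_cases hv : P v
          · have h6 := hc' ⟨v, hv⟩
            refine Eq.trans (Finset.sum_congr rfl (fun e _ => ?_)) h6
            rw [hcQ e]
            have h7 : (s' e = (⟨v, hv⟩ : {v // P v})) ↔ s e.1 = v :=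
              ⟨fun h => congrArg Subtype.val h, fun h => Subtype.ext h⟩
            have h8 : (t' e = (⟨v, hv⟩ : {v // P v})) ↔ t e.1 = v :=
              ⟨fun h => congrArg Subtype.val h, fun h => Subtype.ext h⟩
            simp only [h7, h8]
          · refine Finset.sum_eq_zero (fun e _ => ?_)
            have h7 : s e.1 ≠ v := fun h => hv (h ▸ hs e)
            have h8 : t e.1 ≠ v := fun h => hv (h ▸ ht e)
            rw [if_neg h7, if_neg h8, add_zero, mul_zero]
        obtain ⟨A, hA⟩ := h1 c hcy (fun e he => hcnQ e (fun hQ => hQ.1 he))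
        refine ⟨(((univ : Finset {i : I // P (cb i)}).toList).filter (fun i => i.1 ∈ A)).map cell,
          List.Sublist.map _ List.filter_sublist, ?_⟩
        intro e
        rw [List.map_map, filter_map_sum, ← hcQ e, hA e.1]
        have h9 := hlsum (fun i => if i.1 ∈ A then ((fun c => dcnt c.2 e) ∘ cell) i else 0)
        rw [h9]
        have h10 : ∀ i : {i : I // P (cb i)},
            (if i.1 ∈ A then ((fun c : {v // P v} × List ({e // Q e} × Bool) => dcnt c.2 e) ∘
              cell) i else 0) = (fun i => if i ∈ A then dcnt (cl i) e.1 else 0) i.1 := by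
          intro i
          have : dcnt (cell i).2 e = dcnt (cl i.1) e.1 := dcnt_lft _ _ _
          simp only [Function.comp_apply, this]
        rw [Finset.sum_congr rfl (fun i _ => h10 i)]
        rw [sum_sub (fun i => P (cb i)) (fun i => if i ∈ A then dcnt (cl i) e.1 else 0)
          (fun i hi => by rw [hcellout i hi e.1 e.2, ite_self])]
        push_cast
        rw [Finset.sum_ite_mem, Finset.univ_inter] }
  refine ⟨D, ?_, ?_⟩
  · exact dlab_lft (lab := lab) hs ht out hQout hPbase
  · change (((univ : Finset {i : I // P (cb i)}).toList).map cell).length ≤ _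
    rw [List.length_map, Finset.length_toList, Finset.card_univ]
    exact Fintype.card_subtype_le _


/-- unbundled diagram with indexed cells -/
structure Dat {n : ℕ} (Pol : List (Fin n) → Prop) {V E I : Type} [Fintype V] [Fintype E]
    [Fintype I] [DecidableEq V] [DecidableEq E] (s t : E → V) (lab : V → Fin n)
    (base : V) (out : List (E × Bool)) (cb : I → V) (cl : I → List (E × Bool)) : Prop where
  ne : ∀ e, lab (s e) ≠ lab (t e)
  out_walk : DWalk s t base out base
  walk : ∀ i, DWalk s t (cb i) (cl i) (cb i)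
  pol : ∀ i, Pol (dlab s t lab (cb i) (cl i))
  conn : ∀ u v : V,
    Relation.ReflTransGen (fun a b => ∃ d : E × Bool, dsrc s t d = a ∧ dtgt s t d = b) u v
  two : ∀ e, dcnt out e + ∑ i, dcnt (cl i) e = 2
  h1 : ∀ c : E → ZMod 2, IsCy s t c → ∃ A : Finset I, ∀ e, c e = ∑ i ∈ A, (dcnt (cl i) e : ZMod 2)

theorem elim {n : ℕ} {Pol : List (Fin n) → Prop} {w : List (Fin n)} {k : ℕ} (h : PLe Pol w k)
    {motive : Prop}
    (H : ∀ (V E I : Type) [Fintype V] [Fintype E] [Fintype I] [DecidableEq V] [DecidableEq E]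
      [DecidableEq I] (s t : E → V) (lab : V → Fin n) (base : V) (out : List (E × Bool))
      (cb : I → V) (cl : I → List (E × Bool)), Dat Pol s t lab base out cb cl →
      dlab s t lab base out = w → Fintype.card I ≤ k → motive) : motive := by
  obtain ⟨D, hw, hk⟩ := h
  obtain ⟨V, E, fV, fE, dV, dE, s, t, lab, ne, base, out, ow, cells, cw, cp, conn, two, h1⟩ := D
  refine H V E (Fin cells.length) s t lab base out (fun i => (cells.get i).1)
    (fun i => (cells.get i).2) ⟨ne, ow, fun i => cw _ (List.get_mem _ _),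
      fun i => cp _ (List.get_mem _ _), conn, ?_, ?_⟩ hw ?_
  · intro e
    rw [← two e]
    congr 1
    rw [← Fin.sum_univ_fun_getElem]
    rfl
  · intro c hc
    obtain ⟨sub, hsub, hs2⟩ := h1 c hc
    obtain ⟨g, hg⟩ := List.sublist_iff_exists_fin_orderEmbedding_get_eq.1 hsub
    refine ⟨Finset.univ.map g.toEmbedding, fun e => ?_⟩
    rw [hs2 e, Finset.sum_map]
    have : ∀ i : Fin sub.length, (dcnt (cells.get (g.toEmbedding i)).2 e : ZMod 2) =
        (dcnt (sub.get i).2 e : ZMod 2) := fun i => by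
      rw [hg i]; rfl
    rw [Finset.sum_congr rfl (fun i _ => this i), ← Fin.sum_univ_fun_getElem]
    push_cast
    rfl
  · rw [Fintype.card_fin]
    exact hk


section simple
variable {V E : Type} {s t : E → V}

/-- vertices of a dart walk -/
def vl (s t : E → V) (u : V) (l : List (E × Bool)) : List V := u :: l.map (dtgt s t)

theorem vl_cons (u : V) (d : E × Bool) (l : List (E × Bool)) :
    vl s t u (d :: l) = u :: vl s t (dtgt s t d) l := rfl

theorem mem_vl_of_mem {u v : V} {l : List (E × Bool)} (h : DWalk s t u l v) {d : E × Bool}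
    (hd : d ∈ l) : s d.1 ∈ vl s t u l ∧ t d.1 ∈ vl s t u l := by
  induction l generalizing u with
  | nil => exact absurd hd List.not_mem_nil
  | cons a l ih =>
    obtain ⟨h1, h2⟩ := h
    rw [vl_cons]
    rcases List.mem_cons.1 hd with rfl | hd
    · have h3 : dsrc s t d ∈ u :: vl s t (dtgt s t d) l := by rw [h1]; exact List.mem_cons_self
      have h4 : dtgt s t d ∈ u :: vl s t (dtgt s t d) l :=
        List.mem_cons_of_mem _ List.mem_cons_self
      rcases d with ⟨e, b⟩
      cases b
      · exact ⟨h4, h3⟩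
      · exact ⟨h3, h4⟩
    · exact ⟨List.mem_cons_of_mem _ (ih h2 hd).1, List.mem_cons_of_mem _ (ih h2 hd).2⟩

theorem simple_dcnt [DecidableEq E] {u v : V} {l : List (E × Bool)} (h : DWalk s t u l v)
    (hn : (vl s t u l).Nodup) (e : E) : dcnt l e ≤ 1 := by
  induction l generalizing u with
  | nil => exact Nat.zero_le _
  | cons a l ih =>
    obtain ⟨h1, h2⟩ := h
    rw [vl_cons, List.nodup_cons] at hn
    rw [dcnt_cons]
    by_cases hae : a.1 = e
    · rw [if_pos hae]
      have : dcnt l e = 0 := by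
        by_contra hc
        obtain ⟨l1, l2, d, hl, hde⟩ := dcnt_pos hc
        have hd : d ∈ l := by rw [hl]; simp
        have h3 := mem_vl_of_mem h2 hd
        apply hn.1
        rw [← h1]
        rcases a with ⟨e', b⟩
        subst hae
        rw [hde] at h3
        cases b
        · exact h3.2
        · exact h3.1
      omega
    · rw [if_neg hae]
      exact ih h2 hn.2

theorem simple_cy [Fintype E] [DecidableEq E] [DecidableEq V] (hne : ∀ e, s e ≠ t e) {u v : V}
    {l : List (E × Bool)} (h : DWalk s t u l v) (hn : (vl s t u l).Nodup) (c : E → ZMod 2)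
    (hc : IsCy s t c) (hsup : ∀ e, c e ≠ 0 → dcnt l e ≠ 0) : ∀ e, c e = 0 := by
  induction l generalizing u with
  | nil =>
    intro e
    by_contra h0
    exact hsup e h0 rfl
  | cons a l ih =>
    obtain ⟨h1, h2⟩ := h
    rw [vl_cons, List.nodup_cons] at hn
    have ha : c a.1 = 0 := by
      have h3 := hc u
      have h4 : ∀ e ∈ (univ : Finset E), e ≠ a.1 →
          c e * ((if s e = u then (1 : ZMod 2) else 0) + (if t e = u then 1 else 0)) = 0 := by
        intro e _ hea
        by_cases h0 : c e = 0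
        · rw [h0, zero_mul]
        have h5 := hsup e h0
        rw [dcnt_cons, if_neg (fun h => hea h.symm), add_zero] at h5
        obtain ⟨l1, l2, d, hl, hde⟩ := dcnt_pos h5
        have hd : d ∈ l := by rw [hl]; simp
        have h6 := mem_vl_of_mem h2 hd
        rw [hde] at h6
        have h7 : s e ≠ u := fun h => hn.1 (h ▸ h6.1)
        have h8 : t e ≠ u := fun h => hn.1 (h ▸ h6.2)
        rw [if_neg h7, if_neg h8, add_zero, mul_zero]
      rw [Finset.sum_eq_single a.1 h4 (fun h => absurd (Finset.mem_univ _) h)] at h3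
      have h7 : (if s a.1 = u then (1 : ZMod 2) else 0) + (if t a.1 = u then 1 else 0) = 1 := by
        rcases a with ⟨e, b⟩
        cases b
        · have h8 : t e = u := h1
          have h9 : s e ≠ u := fun h => hne e (h.trans h8.symm)
          rw [if_neg h9, if_pos h8, zero_add]
        · have h8 : s e = u := h1
          have h9 : t e ≠ u := fun h => hne e (h8.trans h.symm)
          rw [if_neg h9, if_pos h8, add_zero]
      rwa [h7, mul_one] at h3
    refine ih h2 hn.2 (fun e he => ?_)
    have h5 := hsup e he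
    rw [dcnt_cons] at h5
    have : a.1 ≠ e := fun h => he (h ▸ ha)
    rwa [if_neg this, add_zero] at h5

/-- suffix of a simple walk starting at a given vertex -/
theorem simple_suffix {u v : V} {l : List (E × Bool)} (h : DWalk s t u l v)
    (hn : (vl s t u l).Nodup) {x : V} (hx : x ∈ vl s t u l) (p : E × Bool → Bool) :
    ∃ l', DWalk s t x l' v ∧ (vl s t x l').Nodup ∧ l'.countP p ≤ l.countP p := by
  induction l generalizing u with
  | nil =>
    have h1 : u = v := h
    have h2 : x = u := by simpa [vl] using hx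
    subst h1; subst h2
    exact ⟨[], rfl, by simp [vl], le_rfl⟩
  | cons a l ih =>
    by_cases hxu : x = u
    · subst hxu
      exact ⟨a :: l, h, hn, le_rfl⟩
    · obtain ⟨h1, h2⟩ := h
      rw [vl_cons] at hx hn
      rw [List.nodup_cons] at hn
      rcases List.mem_cons.1 hx with hx | hx
      · exact absurd hx hxu
      · obtain ⟨l', h3, h4, h5⟩ := ih h2 hn.2 hx
        refine ⟨l', h3, h4, h5.trans ?_⟩
        rw [List.countP_cons]
        exact Nat.le_add_right _ _

/-- every walk contains a simple walk -/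
theorem exists_simple {u v : V} {l : List (E × Bool)} (h : DWalk s t u l v)
    (p : E × Bool → Bool) :
    ∃ l', DWalk s t u l' v ∧ (vl s t u l').Nodup ∧ l'.countP p ≤ l.countP p := by
  classical
  induction l generalizing u with
  | nil => exact ⟨[], h, by simp [vl], le_rfl⟩
  | cons a l ih =>
    obtain ⟨h1, h2⟩ := h
    obtain ⟨l', h3, h4, h5⟩ := ih h2
    by_cases hu : u ∈ vl s t (dtgt s t a) l'
    · obtain ⟨l'', h6, h7, h8⟩ := simple_suffix h3 h4 hu p
      refine ⟨l'', h6, h7, (h8.trans h5).trans ?_⟩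
      rw [List.countP_cons]
      exact Nat.le_add_right _ _
    · refine ⟨a :: l', ⟨h1, h3⟩, ?_, ?_⟩
      · rw [vl_cons, List.nodup_cons]
        exact ⟨hu, h4⟩
      · rw [List.countP_cons, List.countP_cons]
        omega

end simple

/-- 8.5 cut lemma -/
theorem cut {n : ℕ} {Pol : List (Fin n) → Prop} {V E I : Type} [Fintype V] [Fintype E]
    [Fintype I] [DecidableEq V] [DecidableEq E] [DecidableEq I] {s t : E → V} {lab : V → Fin n}
    {base : V} {out : List (E × Bool)} {cb : I → V} {cl : I → List (E × Bool)}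
    (hD : Dat Pol s t lab base out cb cl) {x y : V} {A B b1 : List (E × Bool)}
    (hAB : ∀ e, dcnt A e + dcnt B e = dcnt out e) (hA : DWalk s t x A y)
    (hb : DWalk s t x b1 y) (hn : (vl s t x b1).Nodup) :
    PLe Pol (dlab s t lab x (A ++ rv b1)) (Fintype.card I) := by
  have hst : ∀ e, s e ≠ t e := fun e h => hD.ne e (congrArg lab h)
  have hw : DWalk s t x (A ++ rv b1) x := DWalk.app hA (dwalk_rv hb)
  obtain ⟨K, hK⟩ := hD.h1 _ (isCy_walk hw)
  -- traversal numbers
  have hb1 : ∀ e, dcnt b1 e ≤ 1 := simple_dcnt hb hn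
  have hsplit : ∀ e, ∑ i, dcnt (cl i) e = ∑ i ∈ K, dcnt (cl i) e + ∑ i ∈ Kᶜ, dcnt (cl i) e :=
    fun e => (Finset.sum_add_sum_compl K _).symm
  have hcard : ∀ e, dcnt (A ++ rv b1) e = dcnt A e + dcnt b1 e := fun e => by
    rw [dcnt_append, dcnt_rv]
  have hpar : ∀ e, Even (dcnt A e + dcnt b1 e + ∑ i ∈ K, dcnt (cl i) e) := by
    intro e
    have h2 := hK e
    rw [hcard] at h2
    rw [← ZMod.natCast_eq_zero_iff_even]
    push_cast at h2 ⊢
    rw [h2]
    exact CharTwo.add_self_eq_zero _
  have hle : ∀ e, dcnt A e + ∑ i ∈ K, dcnt (cl i) e ≤ 2 := by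
    intro e
    have := hD.two e
    rw [hsplit e, ← hAB e] at this
    omega
  have hsumK : ∀ e, ∑ i : {i // i ∈ K}, dcnt (cl i.1) e = ∑ i ∈ K, dcnt (cl i) e := fun e =>
    Finset.sum_coe_sort K (fun i => dcnt (cl i) e)
  have key := of_data (Pol := Pol) (I := {i // i ∈ K}) s t lab hD.ne x (A ++ rv b1) hw
    (fun i => cb i.1) (fun i => cl i.1) (fun i => hD.walk i.1) (fun i => hD.pol i.1) ?_ ?_
  · obtain ⟨D, h1, h2⟩ := key
    exact ⟨D, h1, h2.trans (Fintype.card_subtype_le _)⟩
  · intro e
    rw [hsumK, hcard]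
    have h2 := hpar e
    have h3 := hle e
    have h4 := hb1 e
    rw [Nat.even_iff] at h2
    omega
  · intro c hc hsup
    obtain ⟨S, hS⟩ := hD.h1 c hc
    -- the part outside K
    have hz : IsCy s t (fun e => ∑ i ∈ S \ K, (dcnt (cl i) e : ZMod 2)) :=
      isCy_sum _ (fun i _ => isCy_walk (hD.walk i))
    have hz0 : ∀ e, ∑ i ∈ S \ K, (dcnt (cl i) e : ZMod 2) = 0 := by
      refine simple_cy hst hb hn _ hz (fun e he => ?_)
      -- e is traversed by a cell outside K
      have h5 : ∑ i ∈ Kᶜ, dcnt (cl i) e ≠ 0 := by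
        intro h0
        apply he
        refine Finset.sum_eq_zero (fun i hi => ?_)
        have hi2 : i ∈ Kᶜ := by
          rw [Finset.mem_compl]
          exact (Finset.mem_sdiff.1 hi).2
        rw [Finset.sum_eq_zero_iff.1 h0 i hi2, Nat.cast_zero]
      have h6 := hD.two e
      rw [hsplit e, ← hAB e] at h6
      have h7 := hpar e
      rw [Nat.even_iff] at h7
      -- the total is not zero
      have h8 : dcnt A e + dcnt b1 e + ∑ i ∈ K, dcnt (cl i) e ≠ 0 := by
        intro h0
        have h9 : c e = 0 := by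
          apply hsup
          rw [hsumK, hcard]
          exact h0
        rw [hS e, ← Finset.sum_inter_add_sum_sdiff S K] at h9
        have h10 : ∑ i ∈ S ∩ K, (dcnt (cl i) e : ZMod 2) = 0 := by
          refine Finset.sum_eq_zero (fun i hi => ?_)
          have h11 : ∑ i ∈ K, dcnt (cl i) e = 0 := by omega
          rw [Finset.sum_eq_zero_iff.1 h11 i (Finset.mem_inter.1 hi).2, Nat.cast_zero]
        rw [h10, zero_add] at h9
        exact he h9
      omega
    refine ⟨(Finset.univ : Finset {i // i ∈ K}).filter (fun i => i.1 ∈ S), fun e => ?_⟩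
    rw [hS e, ← Finset.sum_inter_add_sum_sdiff S K, hz0 e, add_zero, Finset.sum_filter]
    have := Finset.sum_coe_sort K (fun i => if i ∈ S then (dcnt (cl i) e : ZMod 2) else 0)
    rw [this, Finset.sum_ite_mem, Finset.inter_comm]


section labels
variable {V E : Type} {s t : E → V} {n : ℕ} {lab : V → Fin n}

theorem dlab_append (u m : V) (a b : List (E × Bool)) :
    dlab s t lab u (a ++ b) = cat (dlab s t lab u a) (dlab s t lab m b) := by
  simp [dlab, cat]

theorem dlab_cons (u : V) (d : E × Bool) (l : List (E × Bool)) :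
    dlab s t lab u (d :: l) = lab u :: dlab s t lab (dtgt s t d) l := rfl

theorem dlab_last {u v : V} {l : List (E × Bool)} (h : DWalk s t u l v) :
    (dlab s t lab u l).getLast? = some (lab v) := by
  induction l generalizing u with
  | nil =>
    have : u = v := h
    subst this
    rfl
  | cons d l ih =>
    rw [dlab_cons, List.getLast?_cons, ih h.2]
    rfl

theorem FT_dlab {u v : V} {l : List (E × Bool)} (h : DWalk s t u l v) :
    FT (dlab s t lab u l) (lab u) (lab v) := ⟨rfl, dlab_last h⟩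

theorem closed_dlab {u : V} {l : List (E × Bool)} (h : DWalk s t u l u) :
    ClosedW (dlab s t lab u l) := ⟨by simp [dlab], by rw [dlab_last h]; rfl⟩

theorem dlab_rv {u v : V} {l : List (E × Bool)} (h : DWalk s t u l v) :
    dlab s t lab v (rv l) = (dlab s t lab u l).reverse := by
  induction l generalizing u with
  | nil =>
    have : u = v := h
    subst this
    rfl
  | cons d l ih =>
    rw [rv_cons, dlab_append v u, ih h.2, dlab_cons u d l, List.reverse_cons]
    simp [dlab, cat, dtgt_fl, h.1]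

theorem labW_dlab (ne : ∀ e, lab (s e) ≠ lab (t e)) {u v : V} {l : List (E × Bool)}
    (h : DWalk s t u l v) : LabW (dlab s t lab u l) := by
  induction l generalizing u with
  | nil => exact List.isChain_singleton _
  | cons d l ih =>
    rw [dlab_cons]
    have h1 := ih h.2
    unfold LabW at h1 ⊢
    unfold dlab at h1 ⊢
    rw [List.isChain_cons_cons]
    refine ⟨?_, h1⟩
    rw [← h.1]
    rcases d with ⟨e, b⟩
    cases b
    · exact (ne e).symm
    · exact ne e

/-- non-T darts -/
def nt (T : Finset (Fin n)) (lab : V → Fin n) (s t : E → V) (d : E × Bool) : Bool :=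
  decide (¬ (lab (s d.1) ∈ T ∧ lab (t d.1) ∈ T))

theorem len_dlab (T : Finset (Fin n)) {u v : V} {l : List (E × Bool)} (h : DWalk s t u l v) :
    len T (dlab s t lab u l) = l.countP (nt T lab s t) := by
  induction l generalizing u with
  | nil => rfl
  | cons d l ih =>
    have h1 := ih h.2
    unfold len steps at h1 ⊢
    unfold dlab at h1 ⊢
    rw [List.map_cons, List.tail_cons, List.zip_cons_cons, List.filter_cons, List.countP_cons,
      ← h1]
    have h2 : (¬ (lab u ∈ T ∧ lab (dtgt s t d) ∈ T)) ↔ nt T lab s t d = true := by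
      rw [← h.1]
      rcases d with ⟨e, b⟩
      cases b
      · simp only [nt, dsrc, dtgt, decide_eq_true_eq, Bool.false_eq_true, if_false]
        tauto
      · simp only [nt, dsrc, dtgt, decide_eq_true_eq, if_true]
    by_cases h3 : nt T lab s t d = true
    · rw [if_pos (decide_eq_true (h2.2 h3)), if_pos h3]
      rfl
    · rw [if_neg (fun h => h3 (h2.1 (of_decide_eq_true h))), if_neg h3]
      rfl

theorem rot_dlab {u v : V} {X Y : List (E × Bool)} (hX : DWalk s t u X v) (hY : DWalk s t v Y u) :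
    RotW (dlab s t lab u (X ++ Y)) (dlab s t lab v (Y ++ X)) := by
  rcases List.eq_nil_or_concat X with rfl | ⟨X', d, rfl⟩
  · left
    have : u = v := hX
    subst this
    simp
  · right
    rw [List.concat_eq_append] at hX ⊢
    obtain ⟨m, hm1, hm2⟩ := dwalk_append.1 hX
    have hm3 := (dwalk_single.1 hm2).2
    refine ⟨lab u, lab v, X'.map (fun d => lab (dtgt s t d)), Y.map (fun d => lab (dtgt s t d)),
      ?_, closed_dlab (DWalk.app hX hY), ?_⟩
    · simp [dlab, hm3]
    · simp [dlab, hm3]

end labels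


theorem countP_rv {V E : Type} {s t : E → V} {n : ℕ} {lab : V → Fin n} (T : Finset (Fin n))
    (l : List (E × Bool)) : (rv l).countP (nt T lab s t) = l.countP (nt T lab s t) := by
  unfold rv
  rw [List.countP_reverse, List.countP_map]
  rfl

theorem theta {n : ℕ} {Pol : List (Fin n) → Prop} {a b c : List (Fin n)} {p q : Fin n}
    {k1 k2 : ℕ} (ha : FT a p q) (hb : FT b q p) (hc : FT c p q) (hc' : LabW c)
    (h1 : PLe Pol (cat a c.reverse) k1) (h2 : PLe Pol (cat c b) k2) :
    PLe Pol (cat a b) (k1 + k2) :=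
  theta_of_zip (PLe Pol) (fun _ _ _ _ _ f1 f2 g1 g2 => PLe.wedge f1 f2 g1 g2)
    (fun _ _ _ _ _ h => PLe.zipp h) ha hb hc hc' h1 h2

end CP

/-- 8.6 peeling -/
theorem PEq.peel {n : ℕ} {Pol : List (Fin n) → Prop} (hP : PolOK Pol) {T : Finset (Fin n)} {r : ℕ}
    (hr : ∀ p, Pol p → len T p ≤ r)
    {w : List (Fin n)} {s : ℕ} (hs : 1 ≤ s) (h : PEq Pol w s) :
    ∃ w' : List (Fin n), PEq Pol w' (s - 1) ∧ len T w' ≤ len T w + r := by
  refine CP.elim h.1 (fun V E I _ _ _ _ _ _ src tgt lab base out cb cl hD hw hk => ?_)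
  have hout2 : ∀ e, dcnt out e ≤ 2 := fun e => by have := hD.two e; omega
  -- an edge traversed once by the outer walk
  obtain ⟨e0, he0⟩ : ∃ e, dcnt out e = 1 := by
    by_contra hc
    push Not at hc
    have key := CP.of_data (Pol := Pol) (I := Fin 0) src tgt lab hD.ne base out hD.out_walk
      (fun i => i.elim0) (fun i => i.elim0) (fun i => i.elim0) (fun i => i.elim0) ?_ ?_
    · rw [hw, Fintype.card_fin] at key
      exact h.2 0 (by omega) key
    · intro e
      have h1 := hout2 e
      have h2 := hc e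
      rw [Finset.univ_eq_empty, Finset.sum_empty]
      omega
    · intro c hcy hsup
      refine ⟨∅, fun e => ?_⟩
      rw [Finset.sum_empty]
      have h1 := hout2 e
      have h2 := hc e
      rcases Nat.eq_zero_or_pos (dcnt out e) with h3 | h3
      · apply hsup
        rw [Finset.univ_eq_empty, Finset.sum_empty, h3, add_zero]
      · obtain ⟨S, hS⟩ := hD.h1 c hcy
        rw [hS e]
        have h4 : ∑ i, dcnt (cl i) e = 0 := by have := hD.two e; omega
        refine Finset.sum_eq_zero (fun i _ => ?_)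
        rw [Finset.sum_eq_zero_iff.1 h4 i (Finset.mem_univ i), Nat.cast_zero]
  -- the cell at the other side
  have hsum1 : ∑ i, dcnt (cl i) e0 = 1 := by have := hD.two e0; omega
  obtain ⟨j, hj⟩ : ∃ j, dcnt (cl j) e0 ≠ 0 := by
    by_contra hc
    push Not at hc
    rw [Finset.sum_eq_zero (fun i _ => hc i)] at hsum1
    exact absurd hsum1 (by norm_num)
  have hsumj : ∀ e, dcnt (cl j) e + ∑ i ∈ univ.erase j, dcnt (cl i) e = ∑ i, dcnt (cl i) e :=
    fun e => Finset.add_sum_erase _ (fun i => dcnt (cl i) e) (Finset.mem_univ j)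
  have hj1 : dcnt (cl j) e0 = 1 := by have := hsumj e0; omega
  have hrest : ∑ i ∈ univ.erase j, dcnt (cl i) e0 = 0 := by have := hsumj e0; omega
  obtain ⟨l1, l2, d0, hl, hd0⟩ := CP.dcnt_pos (e := e0) (a := out) (by omega)
  have hwo := hD.out_walk
  rw [hl, CP.dwalk_append] at hwo
  obtain ⟨m, hm1, hm2⟩ := hwo
  have hmu : dsrc src tgt d0 = m := hm2.1
  subst hmu
  have hl2 := hm2.2
  have hc0 : DWalk src tgt (dtgt src tgt d0) (l2 ++ l1) (dsrc src tgt d0) := CP.DWalk.app hl2 hm1
  -- the polygon through d0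
  obtain ⟨c', hc'w, hc'd, hc'p, hc'n⟩ : ∃ c', DWalk src tgt (dtgt src tgt d0) c'
      (dsrc src tgt d0) ∧ (∀ e, dcnt (cl j) e = dcnt c' e + if d0.1 = e then 1 else 0) ∧
      Pol (dlab src tgt lab (dsrc src tgt d0) ([d0] ++ c')) ∧
      c'.countP (CP.nt T lab src tgt) ≤ (cl j).countP (CP.nt T lab src tgt) := by
    have hgen : ∀ L : List (E × Bool), DWalk src tgt (cb j) L (cb j) →
        Pol (dlab src tgt lab (cb j) L) → (∀ e, dcnt L e = dcnt (cl j) e) →
        L.countP (CP.nt T lab src tgt) = (cl j).countP (CP.nt T lab src tgt) →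
        ∀ m1 m2, L = m1 ++ d0 :: m2 →
        ∃ c', DWalk src tgt (dtgt src tgt d0) c'
        (dsrc src tgt d0) ∧ (∀ e, dcnt (cl j) e = dcnt c' e + if d0.1 = e then 1 else 0) ∧
        Pol (dlab src tgt lab (dsrc src tgt d0) ([d0] ++ c')) ∧
        c'.countP (CP.nt T lab src tgt) ≤ (cl j).countP (CP.nt T lab src tgt) := by
      intro L hLw hLp hLd hLn m1 m2 hL
      rw [hL, CP.dwalk_append] at hLw
      obtain ⟨m, hm1, hm2⟩ := hLw
      have hmu : dsrc src tgt d0 = m := hm2.1
      subst hmu
      refine ⟨m2 ++ m1, CP.DWalk.app hm2.2 hm1, ?_, ?_, ?_⟩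
      · intro e
        rw [← hLd e, hL, CP.dcnt_append, CP.dcnt_cons, CP.dcnt_append]
        omega
      · have h1 := CP.rot_dlab (lab := lab) hm1 hm2
        rw [hL] at hLp
        have h2 := hP.rot _ _ hLp h1
        simpa using h2
      · rw [← hLn, hL, List.countP_append, List.countP_append, List.countP_cons]
        omega
    obtain ⟨m1, m2, d1, hcl, hd1⟩ := CP.dcnt_pos hj
    have hcase : d1 = d0 ∨ d1 = CP.fl d0 := by
      rcases d0 with ⟨a, x⟩
      rcases d1 with ⟨b, y⟩
      have : a = b := by rw [hd0.symm] at hd1; exact hd1.symm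
      subst this
      cases x <;> cases y <;> simp [CP.fl]
    rcases hcase with rfl | rfl
    · exact hgen (cl j) (hD.walk j) (hD.pol j) (fun _ => rfl) rfl m1 m2 hcl
    · refine hgen (CP.rv (cl j)) (CP.dwalk_rv (hD.walk j)) ?_ (fun e => CP.dcnt_rv _ e)
        (CP.countP_rv T _) (CP.rv m2) (CP.rv m1) ?_
      · rw [CP.dlab_rv (hD.walk j)]
        exact hP.rev _ (hD.pol j)
      · rw [hcl, CP.rv_append, CP.rv_cons, CP.fl_fl]
        simp
  have hw'w : DWalk src tgt (dsrc src tgt d0) (CP.rv c' ++ (l2 ++ l1)) (dsrc src tgt d0) :=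
    CP.DWalk.app (CP.dwalk_rv hc'w) hc0
  have hrotw : RotW w (dlab src tgt lab (dsrc src tgt d0) ([d0] ++ (l2 ++ l1))) := by
    have h1 := CP.rot_dlab (lab := lab) hm1 hm2
    rw [← hl, hw] at h1
    simpa using h1
  have hclw : ClosedW w := by rw [← hw]; exact CP.closed_dlab hD.out_walk
  have hoc : ∀ e, dcnt out e = dcnt (l2 ++ l1) e + if d0.1 = e then 1 else 0 := by
    intro e
    rw [hl, CP.dcnt_append, CP.dcnt_cons, CP.dcnt_append]
    omega
  refine ⟨dlab src tgt lab (dsrc src tgt d0) (CP.rv c' ++ (l2 ++ l1)), ⟨?_, ?_⟩, ?_⟩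
  · -- the new diagram
    have hsumK : ∀ e, ∑ i : {i // i ∈ (univ.erase j : Finset I)}, dcnt (cl i.1) e =
        ∑ i ∈ univ.erase j, dcnt (cl i) e := fun e =>
      Finset.sum_coe_sort (univ.erase j) (fun i => dcnt (cl i) e)
    have key := CP.of_data (Pol := Pol) (I := {i // i ∈ (univ.erase j : Finset I)}) src tgt lab
      hD.ne (dsrc src tgt d0) (CP.rv c' ++ (l2 ++ l1)) hw'w
      (fun i => cb i.1) (fun i => cl i.1) (fun i => hD.walk i.1) (fun i => hD.pol i.1) ?_ ?_
    · refine PLe.mono key ?_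
      rw [Fintype.card_coe, Finset.card_erase_of_mem (Finset.mem_univ j), Finset.card_univ]
      omega
    · intro e
      rw [hsumK, CP.dcnt_append, CP.dcnt_rv]
      have h1 := hD.two e
      have h2 := hsumj e
      have h3 := hoc e
      have h4 := hc'd e
      by_cases hde : d0.1 = e
      · rw [if_pos hde] at h3 h4
        left; omega
      · rw [if_neg hde] at h3 h4
        right; omega
    · intro c hcy hsup
      obtain ⟨S, hS⟩ := hD.h1 c hcy
      have hc0 : c e0 = 0 := by
        apply hsup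
        rw [hsumK, CP.dcnt_append, CP.dcnt_rv]
        have h1 := hD.two e0
        have h2 := hsumj e0
        have h3 := hoc e0
        have h4 := hc'd e0
        rw [if_pos hd0] at h3 h4
        omega
      have hjS : j ∉ S := by
        intro hjS
        rw [hS e0, ← Finset.add_sum_erase S _ hjS, hj1] at hc0
        have : ∑ i ∈ S.erase j, (dcnt (cl i) e0 : ZMod 2) = 0 := by
          refine Finset.sum_eq_zero (fun i hi => ?_)
          rw [Finset.sum_eq_zero_iff.1 hrest i (Finset.mem_erase.2
            ⟨(Finset.mem_erase.1 hi).1, Finset.mem_univ i⟩), Nat.cast_zero]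
        rw [this, add_zero, Nat.cast_one] at hc0
        exact one_ne_zero hc0
      refine ⟨(Finset.univ : Finset {i // i ∈ (univ.erase j : Finset I)}).filter
        (fun i => i.1 ∈ S), fun e => ?_⟩
      rw [hS e, Finset.sum_filter]
      have := Finset.sum_coe_sort (univ.erase j)
        (fun i => if i ∈ S then (dcnt (cl i) e : ZMod 2) else 0)
      rw [this, Finset.sum_ite_mem]
      congr 1
      ext i
      simp only [Finset.mem_inter, Finset.mem_erase, Finset.mem_univ, and_true]
      constructor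
      · intro hi
        exact ⟨fun h => hjS (h ▸ hi), hi⟩
      · exact fun h => h.2
  · -- minimality
    intro k hk2 hle
    have hFa : FT (dlab src tgt lab (dsrc src tgt d0) [d0]) (lab (dsrc src tgt d0))
      (lab (dtgt src tgt d0)) := CP.FT_dlab (CP.dwalk_single.2 ⟨rfl, rfl⟩)
    have hrvc : DWalk src tgt (dsrc src tgt d0) (CP.rv c') (dtgt src tgt d0) := CP.dwalk_rv hc'w
    have h1 : PLe Pol (cat (dlab src tgt lab (dsrc src tgt d0) [d0])
        (dlab src tgt lab (dsrc src tgt d0) (CP.rv c')).reverse) 1 := by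
      rw [← CP.dlab_rv hrvc, CP.rv_rv, ← CP.dlab_append]
      exact PLe.pol hP hc'p
    have h2 : PLe Pol (cat (dlab src tgt lab (dsrc src tgt d0) (CP.rv c'))
        (dlab src tgt lab (dtgt src tgt d0) (l2 ++ l1))) k := by
      rw [← CP.dlab_append]
      exact hle
    have h3 := CP.theta hFa (CP.FT_dlab hc0) (CP.FT_dlab hrvc) (CP.labW_dlab hD.ne hrvc) h1 h2
    rw [← CP.dlab_append] at h3
    exact h.2 (1 + k) (by omega) (PLe.rot h3 (RotW.symm hclw hrotw))
  · rw [CP.len_dlab T hw'w, ← hw, CP.len_dlab T hD.out_walk, List.countP_append, CP.countP_rv, hl]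
    have h1 := hr _ (hD.pol j)
    rw [CP.len_dlab T (hD.walk j)] at h1
    simp only [List.countP_append, List.countP_cons] at hc'n h1 ⊢
    omega


namespace CP

section metric
variable {V E : Type} {s t : E → V}

theorem conn_walk {u v : V} (h : Relation.ReflTransGen
    (fun a b => ∃ d : E × Bool, dsrc s t d = a ∧ dtgt s t d = b) u v) :
    ∃ l, DWalk s t u l v := by
  induction h with
  | refl => exact ⟨[], rfl⟩
  | tail _ h2 ih =>
    obtain ⟨l, hl⟩ := ih
    obtain ⟨d, hd1, hd2⟩ := h2
    exact ⟨l ++ [d], DWalk.app hl (dwalk_single.2 ⟨hd1, hd2⟩)⟩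

theorem split_vl {u v : V} {l : List (E × Bool)} (h : DWalk s t u l v) {x : V}
    (hx : x ∈ vl s t u l) :
    ∃ l1 l2, l = l1 ++ l2 ∧ DWalk s t u l1 x ∧ DWalk s t x l2 v := by
  induction l generalizing u with
  | nil =>
    have h1 : u = v := h
    have h2 : x = u := by simpa [vl] using hx
    subst h1; subst h2
    exact ⟨[], [], rfl, rfl, rfl⟩
  | cons a l ih =>
    rw [vl_cons] at hx
    rcases List.mem_cons.1 hx with rfl | hx
    · exact ⟨[], a :: l, rfl, rfl, h⟩
    · obtain ⟨l1, l2, h3, h4, h5⟩ := ih h.2 hx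
      exact ⟨a :: l1, l2, by rw [h3]; rfl, ⟨h.1, h4⟩, h5⟩

theorem start_mem_vl (u : V) (l : List (E × Bool)) : u ∈ vl s t u l := List.mem_cons_self

theorem end_mem_vl {u v : V} {l : List (E × Bool)} (h : DWalk s t u l v) : v ∈ vl s t u l := by
  induction l generalizing u with
  | nil =>
    have h1 : u = v := h
    subst h1
    exact List.mem_cons_self
  | cons a l ih => exact List.mem_cons_of_mem _ (ih h.2)

theorem split_count {β : Type} (p : β → Bool) (l : List β) (k : ℕ) (hk : k ≤ l.countP p) :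
    ∃ l1 l2, l = l1 ++ l2 ∧ l1.countP p = k := by
  induction l generalizing k with
  | nil =>
    rw [List.countP_nil] at hk
    exact ⟨[], [], rfl, by rw [List.countP_nil]; omega⟩
  | cons a l ih =>
    rcases Nat.eq_zero_or_pos k with rfl | hk0
    · exact ⟨[], a :: l, rfl, rfl⟩
    · rw [List.countP_cons] at hk
      by_cases ha : p a = true
      · rw [if_pos ha] at hk
        obtain ⟨l1, l2, h1, h2⟩ := ih (k - 1) (by omega)
        exact ⟨a :: l1, l2, by rw [h1]; rfl, by rw [List.countP_cons, if_pos ha, h2]; omega⟩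
      · rw [if_neg ha] at hk
        obtain ⟨l1, l2, h1, h2⟩ := ih k (by omega)
        exact ⟨a :: l1, l2, by rw [h1]; rfl, by rw [List.countP_cons, if_neg ha, h2]; omega⟩

/-- distance from a set of vertices, only darts with `p` count -/
noncomputable def dst (s t : E → V) (p : E × Bool → Bool) (X : V → Prop) (y : V) : ℕ :=
  sInf {k | ∃ x l, X x ∧ DWalk s t x l y ∧ l.countP p = k}

theorem dst_attained (hconn : ∀ u v : V, ∃ l, DWalk s t u l v) (p : E × Bool → Bool)
    {X : V → Prop} (hX : ∃ x, X x) (y : V) :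
    ∃ x l, X x ∧ DWalk s t x l y ∧ l.countP p = dst s t p X y := by
  have hne : {k | ∃ x l, X x ∧ DWalk s t x l y ∧ l.countP p = k}.Nonempty := by
    obtain ⟨x, hx⟩ := hX
    obtain ⟨l, hl⟩ := hconn x y
    exact ⟨_, x, l, hx, hl, rfl⟩
  exact Nat.sInf_mem hne

theorem dst_le (p : E × Bool → Bool) {X : V → Prop} {x y : V} {l : List (E × Bool)} (hx : X x)
    (hl : DWalk s t x l y) : dst s t p X y ≤ l.countP p :=
  Nat.sInf_le ⟨x, l, hx, hl, rfl⟩

theorem dst_zero (p : E × Bool → Bool) {X : V → Prop} {y : V} (hy : X y) :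
    dst s t p X y = 0 := Nat.le_zero.1 (dst_le p hy (l := []) rfl)

theorem dst_step (hconn : ∀ u v : V, ∃ l, DWalk s t u l v) (p : E × Bool → Bool)
    {X : V → Prop} (hX : ∃ x, X x) (d : E × Bool) :
    dst s t p X (dtgt s t d) ≤ dst s t p X (dsrc s t d) + (if p d then 1 else 0) := by
  obtain ⟨x, l, hx, hl, hc⟩ := dst_attained hconn p hX (dsrc s t d)
  rw [← hc]
  have := dst_le p hx (DWalk.app hl (dwalk_single (d := d).2 ⟨rfl, rfl⟩))
  rw [List.countP_append, List.countP_singleton] at this
  exact this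

/-- crossing number of a level -/
def crn (s t : E → V) (φ : V → ℕ) (k : ℕ) (l : List (E × Bool)) : ℕ :=
  l.countP (fun d => decide (¬ (φ (s d.1) < k ↔ φ (t d.1) < k)))

/-- indicator of a sublevel set -/
def ind (φ : V → ℕ) (k : ℕ) (v : V) : ZMod 2 := if φ v < k then 1 else 0

theorem crn_cast (φ : V → ℕ) (k : ℕ) (l : List (E × Bool)) :
    (crn s t φ k l : ZMod 2) = (l.map (fun d => ind φ k (s d.1) + ind φ k (t d.1))).sum := by
  induction l with
  | nil => simp [crn]
  | cons d l ih =>
    rw [List.map_cons, List.sum_cons, ← ih]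
    unfold crn
    rw [List.countP_cons]
    push_cast
    rw [add_comm]
    congr 1
    unfold ind
    by_cases h1 : φ (s d.1) < k <;> by_cases h2 : φ (t d.1) < k <;> simp [h1, h2]
    · exact (by decide : (0 : ZMod 2) = 1 + 1)

theorem crn_even {φ : V → ℕ} {k : ℕ} {l : List (E × Bool)} {u : V} (h : DWalk s t u l u) :
    Even (crn s t φ k l) := by
  rw [← ZMod.natCast_eq_zero_iff_even, crn_cast, tele h]
  exact CharTwo.add_self_eq_zero _

theorem crn_sum {φ : V → ℕ} {p : E × Bool → Bool}
    (hst : ∀ d : E × Bool, φ (dtgt s t d) ≤ φ (dsrc s t d) + (if p d then 1 else 0))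
    (hp : ∀ d, p (fl d) = p d) (S : Finset ℕ) (l : List (E × Bool)) :
    ∑ k ∈ S, crn s t φ k l ≤ l.countP p := by
  induction l with
  | nil => simp [crn]
  | cons d l ih =>
    have h1 : ∀ k, crn s t φ k (d :: l) = crn s t φ k l +
        (if ¬ (φ (s d.1) < k ↔ φ (t d.1) < k) then 1 else 0) := by
      intro k
      unfold crn
      rw [List.countP_cons]
      simp
    rw [Finset.sum_congr rfl (fun k _ => h1 k), Finset.sum_add_distrib, List.countP_cons]
    refine Nat.add_le_add ih ?_
    rw [← Finset.card_filter]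
    have h2 : φ (t d.1) ≤ φ (s d.1) + (if p d then 1 else 0) := by
      rcases d with ⟨e, b⟩
      have := hst (e, true)
      cases b
      · rw [← hp (e, true)] at this
        exact this
      · exact this
    have h3 : φ (s d.1) ≤ φ (t d.1) + (if p d then 1 else 0) := by
      rcases d with ⟨e, b⟩
      have := hst (e, false)
      cases b
      · exact this
      · rw [← hp (e, false)] at this
        exact this
    by_cases hpd : p d = true
    · rw [if_pos hpd] at h2 h3 ⊢
      rw [Finset.card_le_one]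
      intro a ha b hb
      rw [Finset.mem_filter] at ha hb
      have ha := ha.2
      have hb := hb.2
      omega
    · rw [if_neg hpd] at h2 h3 ⊢
      rw [Nat.le_zero, Finset.card_eq_zero, Finset.filter_eq_empty_iff]
      intro a _ hc
      omega

theorem ind_const {φ : V → ℕ} {k : ℕ} {l : List (E × Bool)} {u v : V} (h : DWalk s t u l v)
    (h0 : crn s t φ k l = 0) : ∀ d ∈ l, ind φ k (s d.1) = ind φ k u := by
  induction l generalizing u with
  | nil => intro d hd; exact absurd hd List.not_mem_nil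
  | cons a l ih =>
    unfold crn at h0
    rw [List.countP_cons, Nat.add_eq_zero_iff] at h0
    have h1 : (φ (s a.1) < k ↔ φ (t a.1) < k) := by
      by_contra hc
      have := h0.2
      rw [if_pos (decide_eq_true hc)] at this
      exact one_ne_zero this
    have h2 : ind φ k (s a.1) = ind φ k (t a.1) := by
      unfold ind
      simp only [h1]
    have h3 : ind φ k (s a.1) = ind φ k u ∧ ind φ k (dtgt s t a) = ind φ k u := by
      rw [← h.1]
      rcases a with ⟨e, b⟩
      cases b
      · exact ⟨h2, h2⟩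
      · exact ⟨rfl, h2.symm⟩
    intro d hd
    rcases List.mem_cons.1 hd with rfl | hd
    · exact h3.1
    · rw [ih h.2 h0.1 d hd, h3.2]

theorem crn_zero_sum {φ : V → ℕ} {k : ℕ} {l : List (E × Bool)} (h0 : crn s t φ k l = 0) :
    ∀ d ∈ l, ind φ k (s d.1) + ind φ k (t d.1) = 0 := by
  intro d hd
  unfold crn at h0
  have h1 := (List.countP_eq_zero.1 h0) d hd
  have h2 : (φ (s d.1) < k ↔ φ (t d.1) < k) := by simpa using h1
  unfold ind
  simp only [h2]
  exact CharTwo.add_self_eq_zero _

end metric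

/-- a cell crossing two given levels -/
theorem cross {n : ℕ} {Pol : List (Fin n) → Prop} {V E I : Type} [Fintype V] [Fintype E]
    [Fintype I] [DecidableEq V] [DecidableEq E] {s t : E → V} {lab : V → Fin n}
    {base : V} {out : List (E × Bool)} {cb : I → V} {cl : I → List (E × Bool)}
    (hD : Dat Pol s t lab base out cb cl) {A1 A2 A3 A4 : List (E × Bool)} {p1 p2 p3 : V}
    (hout : out = A1 ++ (A2 ++ (A3 ++ A4))) (h1 : DWalk s t base A1 p1)
    (h2 : DWalk s t p1 A2 p2) (h3 : DWalk s t p2 A3 p3) (h4 : DWalk s t p3 A4 base)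
    (φ ψ : V → ℕ) (a b : ℕ) (hφ1 : ∀ x ∈ vl s t base A1, φ x < a)
    (hφ3 : ∀ x ∈ vl s t p2 A3, a ≤ φ x) (hψ2 : ∀ x ∈ vl s t p1 A2, ψ x < b)
    (hψ4 : ∀ x ∈ vl s t p3 A4, b ≤ ψ x) :
    ∃ i, crn s t φ a (cl i) ≠ 0 ∧ crn s t ψ b (cl i) ≠ 0 := by
  by_contra hc
  push Not at hc
  set ω : E → ZMod 2 := fun e => (ind φ a (s e) + ind φ a (t e)) * ind ψ b (s e) with hω
  have htot : (out.map (fun d => ω d.1)).sum + ∑ i, ((cl i).map (fun d => ω d.1)).sum = 0 := by
    rw [← sum_dcnt, Finset.sum_congr rfl (fun i _ => (sum_dcnt (cl i) ω).symm), Finset.sum_comm,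
      ← Finset.sum_add_distrib]
    refine Finset.sum_eq_zero (fun e _ => ?_)
    rw [← Finset.sum_mul, ← add_mul]
    have := congrArg (Nat.cast : ℕ → ZMod 2) (hD.two e)
    push_cast at this
    rw [this]
    have h2 : (2 : ZMod 2) = 0 := rfl
    rw [h2, zero_mul]
  have hcell : ∀ i, ((cl i).map (fun d => ω d.1)).sum = 0 := by
    intro i
    by_cases h0 : crn s t φ a (cl i) = 0
    · refine List.sum_eq_zero (fun x hx => ?_)
      obtain ⟨d, hd, rfl⟩ := List.mem_map.1 hx
      simp only [hω]
      rw [crn_zero_sum h0 d hd, zero_mul]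
    · have h5 := hc i h0
      have h6 := ind_const (hD.walk i) h5
      have h7 : (cl i).map (fun d => ω d.1) =
          (cl i).map (fun d => (ind φ a (s d.1) + ind φ a (t d.1)) * ind ψ b (cb i)) := by
        apply List.map_congr_left
        intro d hd
        simp only [hω]
        rw [h6 d hd]
      rw [h7, List.sum_map_mul_right, tele (hD.walk i), CharTwo.add_self_eq_zero, zero_mul]
  rw [Finset.sum_eq_zero (fun i _ => hcell i), add_zero, hout] at htot
  simp only [List.map_append, List.sum_append] at htot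
  have e1 : (A1.map (fun d => ω d.1)).sum = 0 := by
    refine List.sum_eq_zero (fun x hx => ?_)
    obtain ⟨d, hd, rfl⟩ := List.mem_map.1 hx
    have h5 := mem_vl_of_mem h1 hd
    simp only [hω, ind]
    rw [if_pos (hφ1 _ h5.1), if_pos (hφ1 _ h5.2), CharTwo.add_self_eq_zero, zero_mul]
  have e3 : (A3.map (fun d => ω d.1)).sum = 0 := by
    refine List.sum_eq_zero (fun x hx => ?_)
    obtain ⟨d, hd, rfl⟩ := List.mem_map.1 hx
    have h5 := mem_vl_of_mem h3 hd
    simp only [hω, ind]
    rw [if_neg (not_lt.2 (hφ3 _ h5.1)), if_neg (not_lt.2 (hφ3 _ h5.2)), add_zero, zero_mul]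
  have e4 : (A4.map (fun d => ω d.1)).sum = 0 := by
    refine List.sum_eq_zero (fun x hx => ?_)
    obtain ⟨d, hd, rfl⟩ := List.mem_map.1 hx
    have h5 := mem_vl_of_mem h4 hd
    simp only [hω]
    have h6 : ind ψ b (s d.1) = 0 := if_neg (not_lt.2 (hψ4 _ h5.1))
    rw [h6, mul_zero]
  have e2 : (A2.map (fun d => ω d.1)).sum = 1 := by
    have h7 : A2.map (fun d => ω d.1) =
        A2.map (fun d => ind φ a (s d.1) + ind φ a (t d.1)) := by
      apply List.map_congr_left
      intro d hd
      have h5 := mem_vl_of_mem h2 hd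
      simp only [hω]
      have h6 : ind ψ b (s d.1) = 1 := if_pos (hψ2 _ h5.1)
      rw [h6, mul_one]
    rw [h7, tele h2]
    have h8 : ind φ a p1 = 1 := if_pos (hφ1 _ (end_mem_vl h1))
    have h9 : ind φ a p2 = 0 := if_neg (not_lt.2 (hφ3 _ (start_mem_vl _ _)))
    rw [h8, h9, add_zero]
  rw [e1, e2, e3, e4] at htot
  exact absurd htot (by decide)


/-- 8.7 rectangle inequality -/
theorem rect {n : ℕ} {Pol : List (Fin n) → Prop} {V E I : Type} [Fintype V] [Fintype E]
    [Fintype I] [DecidableEq V] [DecidableEq E] {s t : E → V} {lab : V → Fin n}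
    {base : V} {out : List (E × Bool)} {cb : I → V} {cl : I → List (E × Bool)}
    (hD : Dat Pol s t lab base out cb cl) {A1 A2 A3 A4 : List (E × Bool)} {p1 p2 p3 : V}
    (hout : out = A1 ++ (A2 ++ (A3 ++ A4))) (h1 : DWalk s t base A1 p1)
    (h2 : DWalk s t p1 A2 p2) (h3 : DWalk s t p2 A3 p3) (h4 : DWalk s t p3 A4 base)
    (p : E × Bool → Bool) (hp : ∀ d, p (fl d) = p d) (r : ℕ) (hr : ∀ i, (cl i).countP p ≤ r) :
    (∃ x ∈ vl s t base A1, ∃ y ∈ vl s t p2 A3, ∃ l, DWalk s t x l y ∧
      4 * (l.countP p) ^ 2 ≤ r ^ 2 * Fintype.card I) ∨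
    (∃ x ∈ vl s t p1 A2, ∃ y ∈ vl s t p3 A4, ∃ l, DWalk s t x l y ∧
      4 * (l.countP p) ^ 2 ≤ r ^ 2 * Fintype.card I) := by
  classical
  have hconn : ∀ u v : V, ∃ l, DWalk s t u l v := fun u v => conn_walk (hD.conn u v)
  have hX1 : ∃ x, x ∈ vl s t base A1 := ⟨_, start_mem_vl _ _⟩
  have hX2 : ∃ x, x ∈ vl s t p1 A2 := ⟨_, start_mem_vl _ _⟩
  set φ : V → ℕ := dst s t p (fun x => x ∈ vl s t base A1) with hφ
  set ψ : V → ℕ := dst s t p (fun x => x ∈ vl s t p1 A2) with hψ
  obtain ⟨y, hy, hymin⟩ := (vl s t p2 A3).toFinset.exists_min_image φ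
    ⟨p2, List.mem_toFinset.2 (start_mem_vl _ _)⟩
  obtain ⟨z, hz, hzmin⟩ := (vl s t p3 A4).toFinset.exists_min_image ψ
    ⟨p3, List.mem_toFinset.2 (start_mem_vl _ _)⟩
  rw [List.mem_toFinset] at hy hz
  -- the levels crossed
  have hφs := dst_step hconn p hX1
  have hψs := dst_step hconn p hX2
  let L : I → Finset ℕ := fun i => (Icc 1 (φ y)).filter (fun k => crn s t φ k (cl i) ≠ 0)
  let M : I → Finset ℕ := fun i => (Icc 1 (ψ z)).filter (fun k => crn s t ψ k (cl i) ≠ 0)
  have hlev : ∀ (χ : V → ℕ) (hχ : ∀ d : E × Bool, χ (dtgt s t d) ≤ χ (dsrc s t d) +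
      (if p d then 1 else 0)) (N : ℕ) (i : I),
      2 * ((Icc 1 N).filter (fun k => crn s t χ k (cl i) ≠ 0)).card ≤ r := by
    intro χ hχ N i
    refine le_trans ?_ ((crn_sum hχ hp (Icc 1 N) (cl i)).trans (hr i))
    rw [← Finset.sum_filter_add_sum_filter_not (Icc 1 N) (fun k => crn s t χ k (cl i) ≠ 0)]
    refine le_trans ?_ (Nat.le_add_right _ _)
    rw [mul_comm, ← smul_eq_mul]
    refine Finset.card_nsmul_le_sum _ _ _ (fun k hk => ?_)
    have h5 := (Finset.mem_filter.1 hk).2
    have h6 := crn_even (φ := χ) (k := k) (hD.walk i)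
    rw [Nat.even_iff] at h6
    omega
  have hcov : (Icc 1 (φ y)) ×ˢ (Icc 1 (ψ z)) ⊆ (univ : Finset I).biUnion
      (fun i => L i ×ˢ M i) := by
    intro q hq
    rw [Finset.mem_product, Finset.mem_Icc, Finset.mem_Icc] at hq
    obtain ⟨i, hi1, hi2⟩ := cross hD hout h1 h2 h3 h4 φ ψ q.1 q.2
      (fun x hx => by rw [hφ, dst_zero p hx]; omega)
      (fun x hx => hq.1.2.trans (hymin x (List.mem_toFinset.2 hx)))
      (fun x hx => by rw [hψ, dst_zero p hx]; omega)
      (fun x hx => hq.2.2.trans (hzmin x (List.mem_toFinset.2 hx)))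
    rw [Finset.mem_biUnion]
    refine ⟨i, Finset.mem_univ _, ?_⟩
    rw [Finset.mem_product, Finset.mem_filter, Finset.mem_filter, Finset.mem_Icc, Finset.mem_Icc]
    exact ⟨⟨hq.1, hi1⟩, ⟨hq.2, hi2⟩⟩
  have hcard : φ y * ψ z ≤ ∑ i : I, (L i).card * (M i).card := by
    have h5 := (Finset.card_le_card hcov).trans Finset.card_biUnion_le
    simpa [Finset.card_product, Nat.card_Icc] using h5
  have hmain : 4 * (φ y * ψ z) ≤ r ^ 2 * Fintype.card I := by
    have h5 : ∀ i : I, 4 * ((L i).card * (M i).card) ≤ r ^ 2 := by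
      intro i
      have h6 := hlev φ hφs (φ y) i
      have h7 := hlev ψ hψs (ψ z) i
      have h8 := Nat.mul_le_mul h6 h7
      calc 4 * ((L i).card * (M i).card) = (2 * (L i).card) * (2 * (M i).card) := by ring
        _ ≤ r * r := h8
        _ = r ^ 2 := by ring
    calc 4 * (φ y * ψ z) ≤ 4 * ∑ i : I, (L i).card * (M i).card := Nat.mul_le_mul_left _ hcard
      _ = ∑ i : I, 4 * ((L i).card * (M i).card) := by rw [Finset.mul_sum]
      _ ≤ ∑ i : I, r ^ 2 := Finset.sum_le_sum (fun i _ => h5 i)
      _ = r ^ 2 * Fintype.card I := by rw [Finset.sum_const, Finset.card_univ, smul_eq_mul, mul_comm]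
  rcases le_total (φ y) (ψ z) with hle | hle
  · left
    obtain ⟨x, l, hx, hl, hc⟩ := dst_attained hconn p hX1 y
    refine ⟨x, hx, y, hy, l, hl, ?_⟩
    rw [hc, ← hφ]
    refine le_trans ?_ hmain
    rw [pow_two]
    exact Nat.mul_le_mul_left _ (Nat.mul_le_mul_left _ hle)
  · right
    obtain ⟨x, l, hx, hl, hc⟩ := dst_attained hconn p hX2 z
    refine ⟨x, hx, z, hz, l, hl, ?_⟩
    rw [hc, ← hψ]
    refine le_trans ?_ hmain
    rw [pow_two]
    exact Nat.mul_le_mul_left _ (Nat.mul_le_mul_right _ hle)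

end CP

set_option linter.unusedVariables false in
/-- 8.5 + 8.7: short cut in a diagram with at most `s` cells, cutting it in two -/
theorem PLe.shortcut {n : ℕ} {Pol : List (Fin n) → Prop} (hP : PolOK Pol) {T : Finset (Fin n)}
    {r : ℕ} (hr : ∀ p, Pol p → len T p ≤ r) {w : List (Fin n)} {s : ℕ} (h : PLe Pol w s) :
    ∃ (a b c : List (Fin n)) (p q : Fin n), FT a p q ∧ FT b q p ∧ FT c p q ∧
      LabW a ∧ LabW b ∧ LabW c ∧ RotW w (cat a b) ∧
      len T w / 4 ≤ len T a ∧ len T w / 4 ≤ len T b ∧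
      4 * (len T c) ^ 2 ≤ r ^ 2 * s ∧
      PLe Pol (cat a c.reverse) s ∧ PLe Pol (cat c b) s := by
  refine CP.elim h (fun V E I _ _ _ _ _ _ src tgt lab base out cb cl hD hw hk => ?_)
  set p := CP.nt T lab src tgt with hp
  have hpfl : ∀ d, p (CP.fl d) = p d := fun d => rfl
  have hlenw : len T w = out.countP p := by rw [← hw, CP.len_dlab T hD.out_walk]
  -- cutting at two vertices
  have hcut : ∀ (X Y Z b : List (E × Bool)) (x y : V), out = X ++ (Y ++ Z) →
      DWalk src tgt base X x → DWalk src tgt x Y y → DWalk src tgt y Z base →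
      DWalk src tgt x b y → 4 * (b.countP p) ^ 2 ≤ r ^ 2 * Fintype.card I →
      len T w / 4 ≤ Y.countP p → len T w / 4 ≤ Z.countP p + X.countP p →
      ∃ (a b c : List (Fin n)) (p q : Fin n), FT a p q ∧ FT b q p ∧ FT c p q ∧
      LabW a ∧ LabW b ∧ LabW c ∧ RotW w (cat a b) ∧
      len T w / 4 ≤ len T a ∧ len T w / 4 ≤ len T b ∧
      4 * (len T c) ^ 2 ≤ r ^ 2 * s ∧
      PLe Pol (cat a c.reverse) s ∧ PLe Pol (cat c b) s := by
    intro X Y Z b x y hout hX hY hZ hb hb4 hYl hZl
    obtain ⟨b', hb', hn', hc'⟩ := CP.exists_simple hb p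
    have hZX : DWalk src tgt y (Z ++ X) x := CP.DWalk.app hZ hX
    refine ⟨dlab src tgt lab x Y, dlab src tgt lab y (Z ++ X), dlab src tgt lab x b',
      lab x, lab y, CP.FT_dlab hY, CP.FT_dlab hZX, CP.FT_dlab hb', CP.labW_dlab hD.ne hY,
      CP.labW_dlab hD.ne hZX, CP.labW_dlab hD.ne hb', ?_, ?_, ?_, ?_, ?_, ?_⟩
    · rw [← hw, hout, ← CP.dlab_append, ← List.append_assoc Y Z X]
      exact CP.rot_dlab hX (CP.DWalk.app hY hZ)
    · rw [CP.len_dlab T hY]; exact hYl
    · rw [CP.len_dlab T hZX, List.countP_append]; exact hZl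
    · rw [CP.len_dlab T hb']
      calc 4 * (b'.countP p) ^ 2 ≤ 4 * (b.countP p) ^ 2 :=
            Nat.mul_le_mul_left _ (Nat.pow_le_pow_left hc' 2)
        _ ≤ r ^ 2 * Fintype.card I := hb4
        _ ≤ r ^ 2 * s := Nat.mul_le_mul_left _ hk
    · rw [← CP.dlab_rv hb', ← CP.dlab_append]
      refine PLe.mono (CP.cut hD (A := Y) (B := Z ++ X) (fun e => ?_) hY hb' hn') hk
      rw [hout, CP.dcnt_append, CP.dcnt_append, CP.dcnt_append]
      omega
    · rw [← CP.dlab_append]
      have h5 : PLe Pol (dlab src tgt lab x (CP.rv (Z ++ X) ++ CP.rv b')) s := by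
        refine PLe.mono (CP.cut hD (A := CP.rv (Z ++ X)) (B := Y) (fun e => ?_)
          (CP.dwalk_rv hZX) hb' hn') hk
        rw [hout, CP.dcnt_rv, CP.dcnt_append, CP.dcnt_append, CP.dcnt_append]
        omega
      have h6 : DWalk src tgt x (b' ++ (Z ++ X)) x := CP.DWalk.app hb' hZX
      have h7 := PLe.rev h5
      rw [← CP.rv_append, CP.dlab_rv h6, List.reverse_reverse] at h7
      exact h7
  -- four arcs
  obtain ⟨A1, R1, hA1, hc1⟩ := CP.split_count p out (len T w / 4) (by rw [hlenw]; omega)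
  have hR1 : R1.countP p = out.countP p - len T w / 4 := by
    rw [hA1, List.countP_append, hc1]; omega
  obtain ⟨A2, R2, hA2, hc2⟩ := CP.split_count p R1 (len T w / 4) (by rw [hR1, hlenw]; omega)
  have hR2 : R2.countP p = R1.countP p - len T w / 4 := by
    rw [hA2, List.countP_append, hc2]; omega
  obtain ⟨A3, A4, hA3, hc3⟩ := CP.split_count p R2 (len T w / 4)
    (by rw [hR2, hR1, hlenw]; omega)
  have hR3 : A4.countP p = R2.countP p - len T w / 4 := by
    rw [hA3, List.countP_append, hc3]; omega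
  have hc4 : len T w / 4 ≤ A4.countP p := by rw [hR3, hR2, hR1, hlenw]; omega
  have hout : out = A1 ++ (A2 ++ (A3 ++ A4)) := by rw [hA1, hA2, hA3]
  have hwk := hD.out_walk
  rw [hout, CP.dwalk_append] at hwk
  obtain ⟨p1, h1, hwk⟩ := hwk
  rw [CP.dwalk_append] at hwk
  obtain ⟨p2, h2, hwk⟩ := hwk
  rw [CP.dwalk_append] at hwk
  obtain ⟨p3, h3, h4⟩ := hwk
  have hrcl : ∀ i, (cl i).countP p ≤ r := fun i => by
    have := hr _ (hD.pol i)
    rwa [CP.len_dlab T (hD.walk i)] at this
  rcases CP.rect hD hout h1 h2 h3 h4 p hpfl r hrcl with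
    ⟨x, hx, y, hy, l, hl, hl4⟩ | ⟨x, hx, y, hy, l, hl, hl4⟩
  · obtain ⟨a1, a2, ha, ha1, ha2⟩ := CP.split_vl h1 hx
    obtain ⟨c1, c2, hc, hc1', hc2'⟩ := CP.split_vl h3 hy
    refine hcut a1 (a2 ++ (A2 ++ c1)) (c2 ++ A4) l x y ?_ ha1
      (CP.DWalk.app ha2 (CP.DWalk.app h2 hc1')) (CP.DWalk.app hc2' h4) hl hl4 ?_ ?_
    · rw [hout, ha, hc]; simp [List.append_assoc]
    · simp only [List.countP_append]; omega
    · simp only [List.countP_append]; omega
  · obtain ⟨a1, a2, ha, ha1, ha2⟩ := CP.split_vl h2 hx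
    obtain ⟨c1, c2, hc, hc1', hc2'⟩ := CP.split_vl h4 hy
    refine hcut (A1 ++ a1) (a2 ++ (A3 ++ c1)) c2 l x y ?_ (CP.DWalk.app h1 ha1)
      (CP.DWalk.app ha2 (CP.DWalk.app h3 hc1')) hc2' hl hl4 ?_ ?_
    · rw [hout, ha, hc]; simp [List.append_assoc]
    · simp only [List.countP_append]; omega
    · simp only [List.countP_append]; omega

end Pool.Agent.SC
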