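import Mathlib

/-!
# Definitions for MP_d0323d_co (S11561): sharp threshold for simple connectivity of Y_2(n,p)
Text: /team-store/SC_full_proof.txt (section numbers below refer to it).
A *family* is a finset of triples on some vertex type.  Captain: helper78.
-/

set_option autoImplicit false

namespace Pool.Agent.SC

open Finset

/-! ## Families -/

section Fam
variable {α : Type*} [DecidableEq α]

/-- all members are triples -/
def IsFam (Z : Finset (Finset α)) : Prop := ∀ s ∈ Z, s.card = 3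

/-- vertex set -/
def verts (Z : Finset (Finset α)) : Finset α := Z.biUnion id

/-- pairs contained in members -/
def edgs (Z : Finset (Finset α)) : Finset (Finset α) := Z.biUnion (fun s => s.powersetCard 2)

/-- degree of a pair -/
def edeg (Z : Finset (Finset α)) (e : Finset α) : ℕ := (Z.filter (fun s => e ⊆ s)).card

/-- members containing the vertex `x` -/
def star (Z : Finset (Finset α)) (x : α) : Finset (Finset α) := Z.filter (fun s => x ∈ s)

/-- the `F_2`-boundary: pairs of odd degree -/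
def bdF (Z : Finset (Finset α)) : Finset (Finset α) := (edgs Z).filter (fun e => Odd (edeg Z e))

/-- a set of pairs with all degrees even (an element of the `F_2`-cycle space) -/
def EvenSet (A : Finset (Finset α)) : Prop :=
  (∀ e ∈ A, e.card = 2) ∧ ∀ x : α, Even (A.filter (fun e => x ∈ e)).card

/-- number of classes of the equivalence relation generated by `r` on the finset `A` -/
noncomputable def ncl {β : Type*} (A : Finset β) (r : β → β → Prop) : ℕ :=
  Nat.card (Quot (fun a b : {x // x ∈ A} => r a.1 b.1))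

/-- two triples share a pair -/
def EAdj (s t : Finset α) : Prop := (s ∩ t).card = 2

/-- number of link components at `x` -/
noncomputable def kap (Z : Finset (Finset α)) (x : α) : ℕ := ncl (star Z x) EAdj

/-- number of dual components -/
noncomputable def b0 (Z : Finset (Finset α)) : ℕ := ncl Z EAdj

/-- connected (via common vertices) -/
def Conn (Z : Finset (Finset α)) : Prop :=
  ∀ s ∈ Z, ∀ t ∈ Z, Relation.ReflTransGen (fun a b => a ∈ Z ∧ b ∈ Z ∧ (a ∩ b).Nonempty) s t

/-- dual-connected (via common pairs) -/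
def DualConn (Z : Finset (Finset α)) : Prop :=
  ∀ s ∈ Z, ∀ t ∈ Z, Relation.ReflTransGen (fun a b => a ∈ Z ∧ b ∈ Z ∧ EAdj a b) s t

/-- every pair is in 0 or 2 members -/
def Closed (Z : Finset (Finset α)) : Prop := ∀ e : Finset α, e.card = 2 → edeg Z e = 0 ∨ edeg Z e = 2

/-- twice `Phi`: `2 |V(Z)| - |Z|` -/
def Ph2 (Z : Finset (Finset α)) : ℤ := 2 * ((verts Z).card : ℤ) - (Z.card : ℤ)

/-- twice `PhiT`: `2 |V(Z) - T*| - |Z|` -/
def PhT2 (Ts : Finset α) (Z : Finset (Finset α)) : ℤ := 2 * ((verts Z \ Ts).card : ℤ) - (Z.card : ℤ)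

/-- `|deg e - 2|` -/
def edef (Z : Finset (Finset α)) (e : Finset α) : ℕ := ((edeg Z e : ℤ) - 2).natAbs

/-- complexity -/
noncomputable def compl (Z : Finset (Finset α)) : ℕ :=
  ∑ e ∈ edgs Z, edef Z e + ∑ x ∈ verts Z, (kap Z x - 1)

/-- complexity relative to `T*` -/
noncomputable def complT (Ts : Finset α) (Z : Finset (Finset α)) : ℕ :=
  ∑ e ∈ edgs Z, edef Z e + ∑ x ∈ verts Z \ Ts, (kap Z x - 1) + ∑ x ∈ verts Z ∩ Ts, kap Z x

/-- closed surface: closed, all links connected (so every link is one cycle) -/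
def IsSurf (S : Finset (Finset α)) : Prop := IsFam S ∧ Closed S ∧ ∀ x ∈ verts S, kap S x = 1

/-- triangulated 2-sphere: dual-connected closed family with `|S| = 2|V|-4` -/
def IsSphere (S : Finset (Finset α)) : Prop :=
  IsFam S ∧ Closed S ∧ DualConn S ∧ S.Nonempty ∧ Ph2 S = 4

/-- disc with boundary triple `b` -/
def IsDisc (b : Finset α) (D : Finset (Finset α)) : Prop := b ∉ D ∧ IsSphere (insert b D)

end Fam

/-! ## Counting spheres and discs -/

open Classical in
/-- number of spheres with vertex set `[v]` -/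
noncomputable def sph (v : ℕ) : ℕ :=
  ((univ : Finset (Finset (Finset (Fin v)))).filter (fun S => IsSphere S ∧ verts S = univ)).card

/-- the standard boundary triple `{0,1,2}` of `Fin (i+3)` -/
def tri0 (i : ℕ) : Finset (Fin (i + 3)) := {0, 1, 2}

open Classical in
/-- number of discs with boundary `{0,1,2}` and `i` (labelled) interior vertices -/
noncomputable def dsc (i : ℕ) : ℕ :=
  ((univ : Finset (Finset (Finset (Fin (i + 3))))).filter
    (fun D => IsDisc (tri0 i) D ∧ verts (insert (tri0 i) D) = univ)).card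

/-! ## The frozen group -/

/-- all triples -/
def tri (n : ℕ) : Finset (Finset (Fin n)) := univ.filter (fun s => s.card = 3)

/-- relators of the frozen statement -/
def frels (n : ℕ) (F : Finset (Finset (Fin n))) : Set (FreeGroup (Fin n × Fin n)) :=
  {r : FreeGroup (Fin n × Fin n) |
    (∃ i : Fin n, r = FreeGroup.of (i, i)) ∨
    (∃ i j : Fin n, r = FreeGroup.of (i, j) * FreeGroup.of (j, i)) ∨
    (∃ i j : Fin n, i.val = 0 ∧ r = FreeGroup.of (i, j)) ∨
    (∃ i j k : Fin n, ({i, j, k} : Finset (Fin n)) ∈ F ∧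
      r = FreeGroup.of (i, j) * FreeGroup.of (j, k) * (FreeGroup.of (i, k))⁻¹)}

/-- the fundamental group -/
abbrev FG (n : ℕ) (F : Finset (Finset (Fin n))) : Type := PresentedGroup (frels n F)

/-- generator `g(i,j)` -/
def gg {n : ℕ} (F : Finset (Finset (Fin n))) (i j : Fin n) : FG n F := PresentedGroup.of (i, j)

/-- simply connected -/
def Triv (n : ℕ) (F : Finset (Finset (Fin n))) : Prop := ∀ x : FG n F, x = 1

/-! ## Finite probability: binomial random subset of `U` -/

section Prob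
variable {ι : Type*} [DecidableEq ι]

/-- weight of the subset `F` of `U` -/
noncomputable def wP (U : Finset ι) (p : ℝ) (F : Finset ι) : ℝ :=
  p ^ F.card * (1 - p) ^ (U.card - F.card)

open Classical in
/-- probability of `A` for the binomial random subset of `U` with density `p` -/
noncomputable def Pr (U : Finset ι) (p : ℝ) (A : Finset ι → Prop) : ℝ :=
  ∑ F ∈ U.powerset, if A F then wP U p F else 0

/-- expectation -/
noncomputable def Ex (U : Finset ι) (p : ℝ) (X : Finset ι → ℝ) : ℝ :=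
  ∑ F ∈ U.powerset, wP U p F * X F

end Prob

/-! ## Property (P) -/

/-- property (P) of 6.1 -/
def PropP {n : ℕ} (Y : Finset (Finset (Fin n))) (T Ts : Finset (Fin n)) (ell eta Lam : ℝ)
    (N : ℕ) : Prop :=
  ∀ Z ⊆ Y, Z.Nonempty → Conn Z → (∀ s ∈ Z, ¬ s ⊆ T) → Z.card ≤ N →
    (eta * (Z.card : ℝ) - Lam * (complT Ts Z : ℝ)) / 2 ≤ ell * ((PhT2 Ts Z : ℝ) / 2)

/-! ## Weights (4.1) -/

noncomputable def wt (J t : ℕ) : ℝ := 1 - (Nat.log 2 t : ℝ) / (2 * J)
noncomputable def Wt (J m : ℕ) : ℝ := ∑ t ∈ Icc 1 m, wt J t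
noncomputable def ut (J m : ℕ) : ℝ := Wt J m / m
/-- layer weights `a_m`, `1 ≤ m ≤ tm` -/
noncomputable def am (J tm m : ℕ) : ℝ := if m < tm then ut J m - ut J (m + 1) else ut J m

/-! ## Immersed (minimal) fillers: the data used by the deterministic analysis (2.5) -/

/-- the data of a minimal filler -/
structure Imm (V : Type) [Fintype V] [DecidableEq V] (n : ℕ) where
  T : Finset (Fin n)
  Ts : Finset (Fin n)
  E : Finset (Finset V)
  F : Finset (Finset V)
  lab : V → Fin n
  /-- vertices on the closed walk -/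
  W : Finset V
  /-- edges traversed by the closed walk -/
  tr : Finset (Finset V)
  /-- length of the walk -/
  lp : ℕ
  T_sub : T ⊆ Ts
  three : 3 ≤ Ts.card
  E_card : ∀ e ∈ E, e.card = 2
  E_lab : ∀ e ∈ E, Set.InjOn lab (e : Set V)
  F_card : ∀ s ∈ F, s.card = 3
  F_E : ∀ s ∈ F, ∀ e ∈ s.powersetCard 2, e ∈ E
  conn : ∀ u v : V, Relation.ReflTransGen (fun a b => ({a, b} : Finset V) ∈ E) u v
  h1 : ∀ A ⊆ E, EvenSet A → ∃ B ⊆ F, bdF B = A
  imm : ∀ y z z' : V, ({y, z} : Finset V) ∈ E → ({y, z'} : Finset V) ∈ E → lab z = lab z' → z = z'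
  no2 : ∀ Z ⊆ F, bdF Z = ∅ → ∀ s ∈ Z, s.image lab ⊆ T
  deg1 : ∀ e ∈ E, e ∉ tr → edeg F e ≠ 1
  tr_W : ∀ e ∈ tr, e ⊆ W
  tr_lp : (tr.filter (fun e => ¬ e.image lab ⊆ T)).card ≤ lp
  W_lp : (W.filter (fun y => lab y ∉ Ts ∧ ∃ s ∈ F, y ∈ s)).card ≤ lp

namespace Imm
variable {V : Type} [Fintype V] [DecidableEq V] {n : ℕ} (Q : Imm V n)

/-- non-T faces `F'` -/
def Fp : Finset (Finset V) := Q.F.filter (fun s => ¬ s.image Q.lab ⊆ Q.T)
/-- multiplicity of a triple of labels -/
def mult (σ : Finset (Fin n)) : ℕ := (Q.Fp.filter (fun s => s.image Q.lab = σ)).card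
/-- multiplicity of a face -/
def mf (s : Finset V) : ℕ := Q.mult (s.image Q.lab)
/-- `Z_t` -/
def Z (t : ℕ) : Finset (Finset (Fin n)) :=
  (Q.Fp.image (fun s => s.image Q.lab)).filter (fun σ => t ≤ Q.mult σ)
/-- maximal multiplicity -/
def tm : ℕ := Q.Fp.sup Q.mf
/-- layers `R_m` -/
def R (m : ℕ) : Finset (Finset V) := Q.Fp.filter (fun s => Q.mf s ≤ m)
/-- ordinary vertex -/
def ord (y : V) : Prop := Q.lab y ∉ Q.Ts
/-- interior for `R` -/
def intr (R : Finset (Finset V)) (y : V) : Prop :=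
  Q.ord y ∧ (star Q.F y).Nonempty ∧ star Q.F y ⊆ R
open Classical in
/-- number of interior vertices -/
noncomputable def vint (R : Finset (Finset V)) : ℕ := (univ.filter (fun y => Q.intr R y)).card
open Classical in
/-- `D_R(y)` of 3.1 -/
noncomputable def dR (R : Finset (Finset V)) (y : V) : ℝ :=
  if y ∈ verts R then
    (kap R y : ℝ) - ((((edgs R).filter (fun e => y ∈ e)).card : ℝ) - ((star R y).card : ℝ)) / 2
      - (if Q.intr R y ∧ y ∉ Q.W then 1 else 0)
  else 0
/-- number of special vertices lying in a face -/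
def ls : ℕ := ((verts Q.Fp).filter (fun y => Q.lab y ∉ Q.Ts ∧ y ∈ Q.W)).card
/-- number of T*-copies lying in a face of `F'` -/
def cT : ℕ := ((verts Q.Fp).filter (fun y => Q.lab y ∈ Q.Ts)).card
/-- cost -/
noncomputable def cost (J : ℕ) (y : V) : ℝ := ∑ m ∈ Icc 1 Q.tm, am J Q.tm m * Q.dR (Q.R m) y
/-- copies of the label `x` lying in a face of `F'` -/
def copies (x : Fin n) : Finset V := (verts Q.Fp).filter (fun y => Q.lab y = x)
/-- `M(x)` -/
def Mx (x : Fin n) : ℕ := (Q.Fp.filter (fun s => x ∈ s.image Q.lab)).sup Q.mf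
/-- `uu(y)` = min of `u(m(s))` over the faces at `y` -/
noncomputable def uu (J : ℕ) (y : V) : ℝ := ut J ((star Q.Fp y).sup Q.mf)
/-- `G(x)` -/
noncomputable def Gx (J : ℕ) (x : Fin n) : ℝ := ∑ y ∈ Q.copies x, Q.uu J y - Wt J (Q.Mx x)
/-- `GG` -/
noncomputable def GG (J : ℕ) : ℝ :=
  (1 / 3) * ∑ y ∈ verts Q.Fp, Q.cost J y + ∑ x ∈ univ.filter (fun x => x ∉ Q.Ts), Q.Gx J x

/-- edges at `y` lying in faces of `F'` -/
def Ey (y : V) : Finset (Finset V) := (edgs Q.Fp).filter (fun e => y ∈ e)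
/-- the link of `y` in `F'` is a single cycle -/
def cyc (y : V) : Prop := kap Q.Fp y = 1 ∧ ∀ e ∈ Q.Ey y, edeg Q.Fp e = 2
/-- excess `b(y)` -/
def bb (y : V) : ℕ := ∑ e ∈ Q.Ey y, (edeg Q.Fp e - 2)
/-- number of edges at `y` of degree one in `F'` -/
def d1 (y : V) : ℕ := ((Q.Ey y).filter (fun e => edeg Q.Fp e = 1)).card
/-- minimal / maximal multiplicity of the faces of `F'` at the edge `e` -/
noncomputable def mine (e : Finset V) : ℕ := sInf {m : ℕ | ∃ s ∈ Q.Fp, e ⊆ s ∧ Q.mf s = m}
def maxe (e : Finset V) : ℕ := (Q.Fp.filter (fun s => e ⊆ s)).sup Q.mf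
/-- total variation at `y` -/
noncomputable def TV (J : ℕ) (y : V) : ℝ := ∑ e ∈ Q.Ey y, (ut J (Q.mine e) - ut J (Q.maxe e))
/-- label link of `y`: pairs of labels -/
def Lk (y : V) : Finset (Finset (Fin n)) := (star Q.Fp y).image (fun s => (s.erase y).image Q.lab)
/-- `y` is good w.r.t. the reference cycles `Lam`: ordinary, not on the walk, link = `Lam` = cycle -/
def good (Lam : Fin n → Finset (Finset (Fin n))) (y : V) : Prop :=
  Q.lab y ∉ Q.Ts ∧ y ∉ Q.W ∧ Q.cyc y ∧ Q.Lk y = Lam (Q.lab y)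
open Classical in
/-- the set `D` of 5.2 -/
noncomputable def DD (Lam : Fin n → Finset (Finset (Fin n))) : Finset V :=
  (verts Q.Fp).filter (fun y => ¬ Q.good Lam y)
/-- vertices of high degree -/
def hi (D0 : ℕ) (y : V) : Prop := Q.lab y ∉ Q.Ts ∧ D0 < (Q.Ey y).card
open Classical in
/-- number of hh-edges of degree at least 2 -/
noncomputable def hh (D0 : ℕ) : ℕ :=
  ((edgs Q.Fp).filter (fun e => 2 ≤ edeg Q.Fp e ∧ ∀ y ∈ e, Q.hi D0 y)).card
/-- total excess -/
def bbt : ℕ := ∑ e ∈ edgs Q.Fp, (edeg Q.Fp e - 2)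
/-- weighted edge complexity `sum_e K(e)` -/
noncomputable def KS (J : ℕ) : ℝ :=
  ∑ t ∈ Icc 1 Q.tm, wt J t * ((∑ e ∈ edgs (Q.Z t), edef (Q.Z t) e : ℕ) : ℝ)

end Imm

/-! ## Walks -/

section Walks
variable {V : Type*} [DecidableEq V]

/-- closed list -/
def ClosedW {β : Type*} (w : List β) : Prop := w ≠ [] ∧ w.head? = w.getLast?

/-- walk in the graph with edge set `E` -/
def WalkIn (E : Finset (Finset V)) (w : List V) : Prop :=
  w.IsChain (fun a b => ({a, b} : Finset V) ∈ E)

/-- steps of a walk -/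
def steps {β : Type*} (w : List β) : List (β × β) := w.zip w.tail

/-- set of pairs traversed -/
def trset (w : List V) : Finset (Finset V) := ((steps w).map (fun p => ({p.1, p.2} : Finset V))).toFinset

/-- label walk: consecutive labels distinct -/
def LabW {n : ℕ} (w : List (Fin n)) : Prop := w.IsChain (fun a b => a ≠ b)

/-- concatenation of walks (last of `a` = head of `b`) -/
def cat {β : Type*} (a b : List β) : List β := a ++ b.tail
/-- from `p` to `q` -/
def FT {β : Type*} (w : List β) (p q : β) : Prop := w.head? = some p ∧ w.getLast? = some q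
/-- rotation of closed walks -/
def RotW {β : Type*} (w w' : List β) : Prop :=
  w = w' ∨ ∃ (x y : β) (u v : List β), w = x :: u ++ y :: v ∧ ClosedW w ∧ w' = y :: v ++ u ++ [y]

/-- number of steps not inside `T` -/
def len {n : ℕ} (T : Finset (Fin n)) (w : List (Fin n)) : ℕ :=
  ((steps w).filter (fun p => ¬ (p.1 ∈ T ∧ p.2 ∈ T))).length

end Walks

/-! ## Complexes over `(Y,T)` and fillers (2.2) -/

/-- complex over `(Y,T)` -/
structure Cpx (n : ℕ) (Y : Finset (Finset (Fin n))) (T : Finset (Fin n)) : Type 1 where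
  V : Type
  ft : Fintype V
  de : DecidableEq V
  E : Finset (Finset V)
  F : Finset (Finset V)
  lab : V → Fin n
  E_card : ∀ e ∈ E, e.card = 2
  E_lab : ∀ e ∈ E, Set.InjOn lab (e : Set V)
  F_card : ∀ s ∈ F, s.card = 3
  F_E : ∀ s ∈ F, ∀ e ∈ s.powersetCard 2, e ∈ E
  F_lab : ∀ s ∈ F, s.image lab ∈ Y ∨ s.image lab ⊆ T
  conn : ∀ u v : V, Relation.ReflTransGen (fun a b => ({a, b} : Finset V) ∈ E) u v
  ne : Nonempty V
  h1 : ∀ A ⊆ E, EvenSet A → ∃ B ⊆ F, bdF B = A

/-- number of non-T faces -/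
def Cpx.fp {n : ℕ} {Y : Finset (Finset (Fin n))} {T : Finset (Fin n)} (X : Cpx n Y T) : ℕ :=
  (X.F.filter (fun s => ¬ s.image X.lab ⊆ T)).card

/-- `FS'(w) ≤ k` -/
def FSle {n : ℕ} (Y : Finset (Finset (Fin n))) (T : Finset (Fin n)) (w : List (Fin n)) (k : ℕ) :
    Prop :=
  ∃ (X : Cpx n Y T) (u : List X.V), ClosedW u ∧ @WalkIn X.V X.de X.E u ∧ u.map X.lab = w ∧ X.fp ≤ k

/-! ## Diagrams (8.1) -/

section Darts
variable {V E : Type}

/-- source and target of a dart -/
def dsrc (s t : E → V) (d : E × Bool) : V := if d.2 then s d.1 else t d.1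
def dtgt (s t : E → V) (d : E × Bool) : V := if d.2 then t d.1 else s d.1

/-- `l` is a dart walk from `u` to `v` -/
def DWalk (s t : E → V) : V → List (E × Bool) → V → Prop
  | u, [], v => u = v
  | u, d :: l, v => dsrc s t d = u ∧ DWalk s t (dtgt s t d) l v

/-- number of traversals of the edge `e` -/
def dcnt [DecidableEq E] (l : List (E × Bool)) (e : E) : ℕ := l.countP (fun d => d.1 = e)

/-- labels of a dart walk -/
def dlab {n : ℕ} (s t : E → V) (lab : V → Fin n) (u : V) (l : List (E × Bool)) : List (Fin n) :=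
  lab u :: l.map (fun d => lab (dtgt s t d))

/-- cycle condition for an `F_2`-chain of edges -/
def IsCy [Fintype E] [DecidableEq V] (s t : E → V) (c : E → ZMod 2) : Prop :=
  ∀ v, ∑ e, c e * ((if s e = v then 1 else 0) + (if t e = v then 1 else 0)) = 0

end Darts

/-- diagram with cells in `Pol` -/
structure Dia (n : ℕ) (Pol : List (Fin n) → Prop) : Type 1 where
  V : Type
  E : Type
  fV : Fintype V
  fE : Fintype E
  dV : DecidableEq V
  dE : DecidableEq E
  s : E → V
  t : E → V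
  lab : V → Fin n
  ne : ∀ e, lab (s e) ≠ lab (t e)
  base : V
  out : List (E × Bool)
  out_walk : DWalk s t base out base
  cells : List (V × List (E × Bool))
  cells_walk : ∀ c ∈ cells, DWalk s t c.1 c.2 c.1
  cells_pol : ∀ c ∈ cells, Pol (dlab s t lab c.1 c.2)
  conn : ∀ u v : V, Relation.ReflTransGen (fun a b => ∃ d : E × Bool, dsrc s t d = a ∧ dtgt s t d = b) u v
  two : ∀ e, dcnt out e + (cells.map (fun c => dcnt c.2 e)).sum = 2
  h1 : ∀ c : E → ZMod 2, IsCy s t c →
    ∃ sub : List (V × List (E × Bool)), sub.Sublist cells ∧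
      ∀ e, c e = (((sub.map (fun c => dcnt c.2 e)).sum : ℕ) : ZMod 2)

/-- `P(w) ≤ k` -/
def PLe {n : ℕ} (Pol : List (Fin n) → Prop) (w : List (Fin n)) (k : ℕ) : Prop :=
  ∃ D : Dia n Pol, dlab D.s D.t D.lab D.base D.out = w ∧ D.cells.length ≤ k

/-- `P(w) = k` -/
def PEq {n : ℕ} (Pol : List (Fin n) → Prop) (w : List (Fin n)) (k : ℕ) : Prop :=
  PLe Pol w k ∧ ∀ j < k, ¬ PLe Pol w j

/-- class of cells closed under rotation and reversal -/
structure PolOK {n : ℕ} (Pol : List (Fin n) → Prop) : Prop where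
  closed : ∀ w, Pol w → ClosedW w ∧ LabW w
  rev : ∀ w, Pol w → Pol w.reverse
  rot : ∀ w w', Pol w → RotW w w' → Pol w'

end Pool.Agent.SC
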