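import Pool.Agent.Lib.MP_d0323d_co.Defs
/-!
Module DIAG, part 1: dart walks, prediagrams and the cleaning lemma.

A *prediagram* `Pre` is a diagram which need not be connected and in which edges traversed zero times
are allowed; the homology condition is only required for cycles supported on the other edges.
`Pre.toPLe`: restricting to the component of the base point in the graph of the edges traversed
twice gives a diagram.
-/
set_option autoImplicit false
namespace Pool.Agent.SC
open Finset

/-! ### Dart walks -/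

section Basic
variable {V E : Type} {s t : E → V}

/-- reversed dart -/
def fl (d : E × Bool) : E × Bool := (d.1, !d.2)

theorem dsrc_fl (d : E × Bool) : dsrc s t (fl d) = dtgt s t d := by
  rcases d with ⟨e, b⟩
  cases b <;> rfl

theorem dtgt_fl (d : E × Bool) : dtgt s t (fl d) = dsrc s t d := by
  rcases d with ⟨e, b⟩
  cases b <;> rfl

theorem DWalk.append {u z v : V} {a b : List (E × Bool)} (h1 : DWalk s t u a z)
    (h2 : DWalk s t z b v) : DWalk s t u (a ++ b) v := by
  induction a generalizing u with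
  | nil =>
    change u = z at h1
    subst h1
    exact h2
  | cons d l ih => exact ⟨h1.1, ih h1.2⟩

theorem DWalk.split {u v : V} {a b : List (E × Bool)} (h : DWalk s t u (a ++ b) v) :
    ∃ z, DWalk s t u a z ∧ DWalk s t z b v := by
  induction a generalizing u with
  | nil => exact ⟨u, rfl, h⟩
  | cons d l ih =>
    obtain ⟨z, h1, h2⟩ := ih h.2
    exact ⟨z, ⟨h.1, h1⟩, h2⟩

theorem DWalk.rev {u v : V} {l : List (E × Bool)} (h : DWalk s t u l v) :
    DWalk s t v (l.reverse.map fl) u := by
  induction l generalizing u with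
  | nil =>
    change u = v at h
    exact h.symm
  | cons d l ih =>
    rw [List.reverse_cons, List.map_append]
    refine DWalk.append (ih h.2) ?_
    refine ⟨dsrc_fl d, ?_⟩
    change dtgt s t (fl d) = u
    rw [dtgt_fl]
    exact h.1

/-- labels of a concatenation -/
theorem dlab_append {n : ℕ} (lab : V → Fin n) (u : V) (a b : List (E × Bool)) :
    dlab s t lab u (a ++ b) = dlab s t lab u a ++ b.map (fun d => lab (dtgt s t d)) := by
  simp [dlab]

theorem dlab_cons {n : ℕ} (lab : V → Fin n) (u : V) (d : E × Bool) (b : List (E × Bool)) :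
    dlab s t lab u (d :: b) = lab u :: dlab s t lab (dtgt s t d) b := by
  simp [dlab]

theorem dlab_last {n : ℕ} (lab : V → Fin n) {u v : V} {l : List (E × Bool)}
    (h : DWalk s t u l v) : (dlab s t lab u l).getLast? = some (lab v) := by
  induction l generalizing u with
  | nil =>
    change u = v at h
    subst h
    rfl
  | cons d l ih =>
    rw [dlab_cons, dlab]
    have h1 := ih h.2
    rw [dlab] at h1
    rw [List.getLast?_cons_cons]
    exact h1

theorem dlab_rev {n : ℕ} (lab : V → Fin n) {u v : V} {l : List (E × Bool)}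
    (h : DWalk s t u l v) : dlab s t lab v (l.reverse.map fl) = (dlab s t lab u l).reverse := by
  induction l generalizing u with
  | nil =>
    change u = v at h
    subst h
    rfl
  | cons d l ih =>
    rw [List.reverse_cons, List.map_append, dlab_append, ih h.2, dlab_cons, List.reverse_cons]
    simp only [List.map_cons, List.map_nil, dtgt_fl]
    rw [h.1]

/-- Splitting a walk according to its labels. -/
theorem dlab_split {n : ℕ} (lab : V → Fin n) {u : V} {l : List (E × Bool)} {P Q : List (Fin n)}
    {x : Fin n} (h : dlab s t lab u l = P ++ x :: Q) :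
    ∃ A B, l = A ++ B ∧ dlab s t lab u A = P ++ [x] ∧
      B.map (fun d => lab (dtgt s t d)) = Q := by
  refine ⟨l.take P.length, l.drop P.length, (List.take_append_drop _ _).symm, ?_, ?_⟩
  · have h1 : (dlab s t lab u l).take (P.length + 1) = P ++ [x] := by
      rw [h, List.take_append]
      simp
    rw [← h1]
    simp only [dlab, List.take_succ_cons, List.map_take]
  · have h1 : (dlab s t lab u l).drop (P.length + 1) = Q := by
      rw [h, List.drop_append]
      simp
    rw [← h1]
    simp only [dlab, List.drop_succ_cons, List.map_drop]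

theorem dlab_inner {n : ℕ} (lab : V → Fin n) {u z : V} {l : List (E × Bool)} {P : List (Fin n)}
    {x : Fin n} (h : dlab s t lab u l = P ++ [x]) (hw : DWalk s t u l z) : lab z = x := by
  have h1 := dlab_last lab hw
  rw [h, List.getLast?_append] at h1
  simpa using h1.symm

theorem labW_dlab {n : ℕ} (lab : V → Fin n) {u v : V} {l : List (E × Bool)}
    (h : DWalk s t u l v) (hne : ∀ d ∈ l, lab (s d.1) ≠ lab (t d.1)) :
    LabW (dlab s t lab u l) := by
  induction l generalizing u with
  | nil => simp [dlab, LabW]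
  | cons d l ih =>
    have h1 := ih h.2 (fun d' hd' => hne d' (List.mem_cons_of_mem _ hd'))
    rw [dlab_cons]
    rw [LabW] at h1 ⊢
    rw [dlab] at h1 ⊢
    rw [List.isChain_cons_cons]
    refine ⟨?_, h1⟩
    have h2 := hne d (List.mem_cons_self ..)
    have h3 := h.1
    rcases d with ⟨e, b⟩
    cases b
    · simp only [dsrc, dtgt] at h3 ⊢
      rw [← h3]
      exact fun h4 => h2 h4.symm
    · simp only [dsrc, dtgt] at h3 ⊢
      rw [← h3]
      exact h2

/-! ### Counting traversals -/

theorem dcnt_nil [DecidableEq E] (e : E) : dcnt ([] : List (E × Bool)) e = 0 := rfl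

theorem dcnt_cons [DecidableEq E] (d : E × Bool) (l : List (E × Bool)) (e : E) :
    dcnt (d :: l) e = dcnt l e + if d.1 = e then 1 else 0 := by
  simp [dcnt, List.countP_cons]

theorem dcnt_append [DecidableEq E] (a b : List (E × Bool)) (e : E) :
    dcnt (a ++ b) e = dcnt a e + dcnt b e := by
  simp [dcnt, List.countP_append]

theorem dcnt_pos [DecidableEq E] {l : List (E × Bool)} {d : E × Bool} (h : d ∈ l) :
    0 < dcnt l d.1 := by
  rw [dcnt, List.countP_pos_iff]
  exact ⟨d, h, by simp⟩

theorem exists_of_dcnt [DecidableEq E] {l : List (E × Bool)} {e : E} (h : dcnt l e ≠ 0) :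
    ∃ d ∈ l, d.1 = e := by
  have h1 : 0 < dcnt l e := Nat.pos_of_ne_zero h
  rw [dcnt, List.countP_pos_iff] at h1
  obtain ⟨d, hd, h2⟩ := h1
  exact ⟨d, hd, by simpa using h2⟩

theorem dcnt_reverse_fl [DecidableEq E] (l : List (E × Bool)) (e : E) :
    dcnt (l.reverse.map fl) e = dcnt l e := by
  induction l with
  | nil => rfl
  | cons d l ih =>
    rw [List.reverse_cons, List.map_append, dcnt_append, ih, dcnt_cons]
    simp [dcnt_cons, dcnt_nil, fl]

theorem dcnt_map {E' : Type} [DecidableEq E] [DecidableEq E'] (δ : E × Bool → E' × Bool)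
    (l : List (E × Bool)) (e : E) (e' : E') (h : ∀ d, (δ d).1 = e' ↔ d.1 = e) :
    dcnt (l.map δ) e' = dcnt l e := by
  induction l with
  | nil => rfl
  | cons d l ih =>
    rw [List.map_cons, dcnt_cons, dcnt_cons, ih]
    simp only [h d]

theorem dcnt_map_zero {E' : Type} [DecidableEq E'] (δ : E × Bool → E' × Bool)
    (l : List (E × Bool)) (e' : E') (h : ∀ d, (δ d).1 ≠ e') : dcnt (l.map δ) e' = 0 := by
  induction l with
  | nil => rfl
  | cons d l ih =>
    rw [List.map_cons, dcnt_cons, ih, if_neg (h d)]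

theorem dcnt_filterMap {E' : Type} [DecidableEq E] [DecidableEq E']
    (κ : E × Bool → Option (E' × Bool)) (e : E) (e' : E')
    (h1 : ∀ d, d.1 = e → ∃ b, κ d = some (e', b))
    (h2 : ∀ d, d.1 ≠ e → ∀ x, κ d = some x → x.1 ≠ e') (l : List (E × Bool)) :
    dcnt (l.filterMap κ) e' = dcnt l e := by
  induction l with
  | nil => rfl
  | cons d l ih =>
    rw [dcnt_cons]
    by_cases hd : d.1 = e
    · obtain ⟨b, hb⟩ := h1 d hd
      rw [List.filterMap_cons_some hb, dcnt_cons, ih, if_pos hd, if_pos rfl]
    · rw [if_neg hd, Nat.add_zero]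
      rcases hk : κ d with _ | x
      · rw [List.filterMap_cons_none hk, ih]
      · rw [List.filterMap_cons_some hk, dcnt_cons, ih, if_neg (h2 d hd x hk), Nat.add_zero]

end Basic

/-- number of traversals by the outer walk and the cells -/
def tot {V E : Type} [DecidableEq E] (out : List (E × Bool)) (cells : List (V × List (E × Bool)))
    (e : E) : ℕ := dcnt out e + (cells.map (fun c => dcnt c.2 e)).sum

theorem tot_pos_of_cell {V E : Type} [DecidableEq E] {out : List (E × Bool)}
    {cells : List (V × List (E × Bool))} {c : V × List (E × Bool)} (hc : c ∈ cells)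
    {d : E × Bool} (hd : d ∈ c.2) : tot out cells d.1 ≠ 0 := by
  have h1 : dcnt c.2 d.1 ≤ (cells.map (fun c => dcnt c.2 d.1)).sum :=
    List.single_le_sum (by simp) _ (List.mem_map.2 ⟨c, hc, rfl⟩)
  have h2 := dcnt_pos hd
  unfold tot
  omega

theorem tot_pos_of_out {V E : Type} [DecidableEq E] {out : List (E × Bool)}
    {cells : List (V × List (E × Bool))} {d : E × Bool} (hd : d ∈ out) :
    tot out cells d.1 ≠ 0 := by
  have h2 := dcnt_pos hd
  unfold tot
  omega

/-- boundary of an `F_2`-chain -/
def bd2 {V E : Type} [Fintype E] [DecidableEq V] (s t : E → V) (c : E → ZMod 2) (v : V) : ZMod 2 :=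
  ∑ e, c e * ((if s e = v then 1 else 0) + (if t e = v then 1 else 0))

theorem isCy_iff {V E : Type} [Fintype E] [DecidableEq V] (s t : E → V) (c : E → ZMod 2) :
    IsCy s t c ↔ ∀ v, bd2 s t c v = 0 := Iff.rfl

/-- the boundary of a chain has even size -/
theorem sum_bd2 {V E : Type} [Fintype E] [Fintype V] [DecidableEq V] (s t : E → V)
    (c : E → ZMod 2) : ∑ v, bd2 s t c v = 0 := by
  unfold bd2
  rw [Finset.sum_comm]
  refine Finset.sum_eq_zero fun e _ => ?_
  rw [← Finset.mul_sum, Finset.sum_add_distrib]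
  simp only [Finset.sum_ite_eq, Finset.mem_univ, if_true]
  have : (1 : ZMod 2) + 1 = 0 := by decide
  rw [this, mul_zero]

theorem isCy_of_all_but_one {V E : Type} [Fintype E] [Fintype V] [DecidableEq V] (s t : E → V)
    (c : E → ZMod 2) (v0 : V) (h : ∀ v, v ≠ v0 → bd2 s t c v = 0) : IsCy s t c := by
  rw [isCy_iff]
  intro v
  by_cases hv : v = v0
  · subst hv
    have h1 := sum_bd2 s t c
    rw [Finset.sum_eq_single v (fun b _ hb => h b hb) (fun h => absurd (Finset.mem_univ _) h)] at h1
    exact h1
  · exact h v hv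

/-- prediagram -/
structure Pre (n : ℕ) (Pol : List (Fin n) → Prop) : Type 1 where
  V : Type
  E : Type
  fV : Fintype V
  fE : Fintype E
  dV : DecidableEq V
  dE : DecidableEq E
  s : E → V
  t : E → V
  lab : V → Fin n
  base : V
  out : List (E × Bool)
  cells : List (V × List (E × Bool))
  ne : ∀ e, tot out cells e ≠ 0 → lab (s e) ≠ lab (t e)
  out_walk : DWalk s t base out base
  cells_walk : ∀ c ∈ cells, DWalk s t c.1 c.2 c.1
  cells_pol : ∀ c ∈ cells, Pol (dlab s t lab c.1 c.2)
  two : ∀ e, tot out cells e = 0 ∨ tot out cells e = 2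
  h1 : ∀ c : E → ZMod 2, IsCy s t c → (∀ e, tot out cells e = 0 → c e = 0) →
    ∃ sub : List (V × List (E × Bool)), sub.Sublist cells ∧
      ∀ e, c e = (((sub.map (fun c => dcnt c.2 e)).sum : ℕ) : ZMod 2)

attribute [instance] Pre.fV Pre.fE Pre.dV Pre.dE Dia.fV Dia.fE Dia.dV Dia.dE

/-- a diagram is a prediagram -/
def Dia.toPre {n : ℕ} {Pol : List (Fin n) → Prop} (D : Dia n Pol) : Pre n Pol where
  V := D.V
  E := D.E
  fV := D.fV
  fE := D.fE
  dV := D.dV
  dE := D.dE
  s := D.s
  t := D.t
  lab := D.lab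
  base := D.base
  out := D.out
  cells := D.cells
  ne := fun e _ => D.ne e
  out_walk := D.out_walk
  cells_walk := D.cells_walk
  cells_pol := D.cells_pol
  two := fun e => Or.inr (D.two e)
  h1 := fun c hc _ => D.h1 c hc

namespace Pre

variable {n : ℕ} {Pol : List (Fin n) → Prop} (D : Pre n Pol)

/-- traversed edges -/
def act (e : D.E) : Prop := tot D.out D.cells e ≠ 0

/-- vertices of the component of the base point -/
def rch (v : D.V) : Prop :=
  Relation.ReflTransGen (fun a b => ∃ d : D.E × Bool, D.act d.1 ∧ dsrc D.s D.t d = a ∧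
    dtgt D.s D.t d = b) D.base v

theorem rch_tgt {d : D.E × Bool} (hd : D.act d.1) (h : D.rch (dsrc D.s D.t d)) :
    D.rch (dtgt D.s D.t d) := Relation.ReflTransGen.tail h ⟨d, hd, rfl, rfl⟩

theorem rch_src {d : D.E × Bool} (hd : D.act d.1) (h : D.rch (dtgt D.s D.t d)) :
    D.rch (dsrc D.s D.t d) := by
  refine Relation.ReflTransGen.tail h ⟨fl d, hd, dsrc_fl d, dtgt_fl d⟩

theorem rch_s_iff {e : D.E} (he : D.act e) : D.rch (D.s e) ↔ D.rch (D.t e) :=
  ⟨fun h => D.rch_tgt (d := (e, true)) he h, fun h => D.rch_src (d := (e, true)) he h⟩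

theorem rch_dart {d : D.E × Bool} (hd : D.act d.1) : D.rch (dsrc D.s D.t d) ↔ D.rch (D.s d.1) := by
  rcases d with ⟨e, b⟩
  cases b
  · exact (D.rch_s_iff hd).symm
  · exact Iff.rfl

/-- along an active walk reachability does not change -/
theorem rch_walk {u v : D.V} {l : List (D.E × Bool)} (h : DWalk D.s D.t u l v)
    (ha : ∀ d ∈ l, D.act d.1) {d : D.E × Bool} (hd : d ∈ l) : D.rch (D.s d.1) ↔ D.rch u := by
  induction l generalizing u with
  | nil => simp at hd
  | cons d' l ih =>
    rcases List.mem_cons.1 hd with rfl | hd'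
    · rw [← D.rch_dart (ha _ hd), h.1]
    · have h2 := ih h.2 (fun x hx => ha x (List.mem_cons_of_mem _ hx)) hd'
      have ha' := ha d' (List.mem_cons_self ..)
      rw [h2, ← h.1]
      exact ⟨fun h3 => D.rch_src ha' h3, fun h3 => D.rch_tgt ha' h3⟩

theorem rch_end {u v : D.V} {l : List (D.E × Bool)} (h : DWalk D.s D.t u l v)
    (ha : ∀ d ∈ l, D.act d.1) (hu : D.rch u) : D.rch v := by
  induction l generalizing u with
  | nil =>
    change u = v at h
    rwa [← h]
  | cons d' l ih =>
    have ha' := ha d' (List.mem_cons_self ..)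
    refine ih h.2 (fun x hx => ha x (List.mem_cons_of_mem _ hx)) (D.rch_tgt ha' ?_)
    rw [h.1]
    exact hu

/-- vertices of the cleaned diagram -/
abbrev V' : Type := {v : D.V // D.rch v}
/-- edges of the cleaned diagram -/
abbrev E' : Type := {e : D.E // D.act e ∧ D.rch (D.s e)}

def s' (e : D.E') : D.V' := ⟨D.s e.1, e.2.2⟩
def t' (e : D.E') : D.V' := ⟨D.t e.1, (D.rch_s_iff e.2.1).1 e.2.2⟩

open Classical in
/-- restriction of darts -/
noncomputable def κ (d : D.E × Bool) : Option (D.E' × Bool) :=
  if h : D.act d.1 ∧ D.rch (D.s d.1) then some (⟨d.1, h⟩, d.2) else none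

theorem κ_pos {d : D.E × Bool} (h : D.act d.1 ∧ D.rch (D.s d.1)) :
    D.κ d = some (⟨d.1, h⟩, d.2) := dif_pos h

theorem κ_some {d : D.E × Bool} {x : D.E' × Bool} (h : D.κ d = some x) : x.1.1 = d.1 := by
  unfold κ at h
  split_ifs at h with h1
  rw [← Option.some.inj h]

theorem val_dsrc (d : D.E' × Bool) : (dsrc D.s' D.t' d).1 = dsrc D.s D.t (d.1.1, d.2) := by
  rcases d with ⟨e, b⟩
  cases b <;> rfl

theorem val_dtgt (d : D.E' × Bool) : (dtgt D.s' D.t' d).1 = dtgt D.s D.t (d.1.1, d.2) := by
  rcases d with ⟨e, b⟩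
  cases b <;> rfl

theorem lift_walk {u v : D.V} {l : List (D.E × Bool)} (h : DWalk D.s D.t u l v)
    (ha : ∀ d ∈ l, D.act d.1) (hu : D.rch u) (hv : D.rch v) :
    DWalk D.s' D.t' ⟨u, hu⟩ (l.filterMap D.κ) ⟨v, hv⟩ := by
  induction l generalizing u with
  | nil =>
    change u = v at h
    exact Subtype.ext h
  | cons d l ih =>
    have ha' := ha d (List.mem_cons_self ..)
    have h1 : D.act d.1 ∧ D.rch (D.s d.1) := ⟨ha', by
      rw [← D.rch_dart ha', h.1]
      exact hu⟩
    rw [List.filterMap_cons_some (D.κ_pos h1)]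
    refine ⟨Subtype.ext ?_, ?_⟩
    · rw [val_dsrc]
      exact h.1
    · have h2 : D.rch (dtgt D.s D.t d) := D.rch_tgt ha' (by rw [h.1]; exact hu)
      have h3 := ih h.2 (fun x hx => ha x (List.mem_cons_of_mem _ hx)) h2
      have h4 : dtgt D.s' D.t' (⟨d.1, h1⟩, d.2) = ⟨dtgt D.s D.t d, h2⟩ := by
        apply Subtype.ext
        rw [val_dtgt]
      rw [h4]
      exact h3

theorem lift_lab {u v : D.V} {l : List (D.E × Bool)} (h : DWalk D.s D.t u l v)
    (ha : ∀ d ∈ l, D.act d.1) (hu : D.rch u) :
    dlab D.s' D.t' (fun x => D.lab x.1) ⟨u, hu⟩ (l.filterMap D.κ) = dlab D.s D.t D.lab u l := by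
  induction l generalizing u with
  | nil => rfl
  | cons d l ih =>
    have ha' := ha d (List.mem_cons_self ..)
    have h1 : D.act d.1 ∧ D.rch (D.s d.1) := ⟨ha', by
      rw [← D.rch_dart ha', h.1]
      exact hu⟩
    rw [List.filterMap_cons_some (D.κ_pos h1), dlab_cons, dlab_cons]
    have h2 : D.rch (dtgt D.s D.t d) := D.rch_tgt ha' (by rw [h.1]; exact hu)
    have h4 : dtgt D.s' D.t' (⟨d.1, h1⟩, d.2) = ⟨dtgt D.s D.t d, h2⟩ := by
      apply Subtype.ext
      rw [val_dtgt]
    rw [h4, ih h.2 (fun x hx => ha x (List.mem_cons_of_mem _ hx)) h2]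

open Classical in
theorem lift_cnt (l : List (D.E × Bool)) (e : D.E') : dcnt (l.filterMap D.κ) e = dcnt l e.1 := by
  refine dcnt_filterMap D.κ e.1 e ?_ ?_ l
  · intro d hd
    refine ⟨d.2, ?_⟩
    have h : D.act d.1 ∧ D.rch (D.s d.1) := by rw [hd]; exact e.2
    rw [D.κ_pos h]
    simp only [Option.some.injEq, Prod.mk.injEq, and_true]
    exact Subtype.ext hd
  · intro d hd x hx h
    apply hd
    rw [← h, D.κ_some hx]

open Classical in
/-- restriction of cells -/
noncomputable def κc (c : D.V × List (D.E × Bool)) : Option (D.V' × List (D.E' × Bool)) :=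
  if h : D.rch c.1 then some (⟨c.1, h⟩, c.2.filterMap D.κ) else none

theorem κc_pos {c : D.V × List (D.E × Bool)} (h : D.rch c.1) :
    D.κc c = some (⟨c.1, h⟩, c.2.filterMap D.κ) := dif_pos h

theorem κc_neg {c : D.V × List (D.E × Bool)} (h : ¬ D.rch c.1) : D.κc c = none := dif_neg h

open Classical in
theorem cells_cnt (L : List (D.V × List (D.E × Bool))) (hL : ∀ c ∈ L, c ∈ D.cells) (e : D.E') :
    ((L.filterMap D.κc).map (fun c => dcnt c.2 e)).sum = (L.map (fun c => dcnt c.2 e.1)).sum := by
  induction L with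
  | nil => rfl
  | cons c L ih =>
    have ih' := ih (fun c hc => hL c (List.mem_cons_of_mem _ hc))
    have hc := hL c (List.mem_cons_self ..)
    by_cases h : D.rch c.1
    · rw [List.filterMap_cons_some (D.κc_pos h), List.map_cons, List.sum_cons, ih', List.map_cons,
        List.sum_cons, lift_cnt]
    · rw [List.filterMap_cons_none (D.κc_neg h), ih', List.map_cons, List.sum_cons]
      have h0 : dcnt c.2 e.1 = 0 := by
        by_contra hne
        obtain ⟨d, hd, hde⟩ := exists_of_dcnt hne
        have h2 := (D.rch_walk (D.cells_walk c hc) (fun d hd => tot_pos_of_cell hc hd) hd).1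
          (by rw [hde]; exact e.2.2)
        exact h h2
      rw [h0, Nat.zero_add]

theorem base_rch : D.rch D.base := Relation.ReflTransGen.refl

theorem conn' (v : D.V) (hv : D.rch v) :
    Relation.ReflTransGen (fun a b => ∃ d : D.E' × Bool, dsrc D.s' D.t' d = a ∧
      dtgt D.s' D.t' d = b) ⟨D.base, D.base_rch⟩ ⟨v, hv⟩ := by
  induction hv with
  | refl => exact Relation.ReflTransGen.refl
  | tail h1 h2 ih =>
    obtain ⟨d, hd, hs, ht⟩ := h2
    refine Relation.ReflTransGen.tail ih ⟨(⟨d.1, hd, ?_⟩, d.2), ?_, ?_⟩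
    · rw [← D.rch_dart hd, hs]
      exact h1
    · apply Subtype.ext
      rw [val_dsrc]
      exact hs
    · apply Subtype.ext
      rw [val_dtgt]
      exact ht

theorem conn'' (u v : D.V') :
    Relation.ReflTransGen (fun a b => ∃ d : D.E' × Bool, dsrc D.s' D.t' d = a ∧
      dtgt D.s' D.t' d = b) u v := by
  have h1 := D.conn' u.1 u.2
  have h2 := D.conn' v.1 v.2
  have hsymm : ∀ a b : D.V', Relation.ReflTransGen (fun a b => ∃ d : D.E' × Bool,
      dsrc D.s' D.t' d = a ∧ dtgt D.s' D.t' d = b) a b →
      Relation.ReflTransGen (fun a b => ∃ d : D.E' × Bool,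
      dsrc D.s' D.t' d = a ∧ dtgt D.s' D.t' d = b) b a := by
    intro a b h
    induction h with
    | refl => exact Relation.ReflTransGen.refl
    | tail _ h3 ih =>
      obtain ⟨d, hd1, hd2⟩ := h3
      exact Relation.ReflTransGen.head ⟨fl d, by rw [dsrc_fl]; exact hd2, by rw [dtgt_fl]; exact hd1⟩ ih
  exact (hsymm _ _ h1).trans h2

open Classical in
/-- the chain on `E` of a chain on `E'` -/
noncomputable def ext (c : D.E' → ZMod 2) (e : D.E) : ZMod 2 :=
  if h : D.act e ∧ D.rch (D.s e) then c ⟨e, h⟩ else 0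

open Classical in
theorem ext_sum (c : D.E' → ZMod 2) (f : D.E → ZMod 2) [Fintype D.E'] :
    ∑ e, D.ext c e * f e = ∑ e : D.E', c e * f e.1 := by
  have h1 : ∑ e : D.E', c e * f e.1 =
      ∑ e ∈ (univ : Finset D.E').map (Function.Embedding.subtype _), D.ext c e * f e := by
    rw [Finset.sum_map]
    refine Finset.sum_congr rfl fun e _ => ?_
    have : D.ext c e.1 = c e := by
      unfold ext
      rw [dif_pos e.2]
    simp only [Function.Embedding.coe_subtype]
    rw [this]
  rw [h1]
  symm
  refine Finset.sum_subset (Finset.subset_univ _) fun e _ he => ?_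
  have : ¬ (D.act e ∧ D.rch (D.s e)) := by
    intro h
    apply he
    rw [Finset.mem_map]
    exact ⟨⟨e, h⟩, Finset.mem_univ _, rfl⟩
  unfold ext
  rw [dif_neg this, zero_mul]

open Classical in
/-- **Cleaning lemma.** -/
theorem toPLe : PLe Pol (dlab D.s D.t D.lab D.base D.out) D.cells.length := by
  have hact_out : ∀ d ∈ D.out, D.act d.1 := fun d hd => tot_pos_of_out hd
  have hact_cell : ∀ c ∈ D.cells, ∀ d ∈ c.2, D.act d.1 := fun c hc d hd => tot_pos_of_cell hc hd
  have hmem : ∀ c' ∈ D.cells.filterMap D.κc, ∃ c ∈ D.cells, ∃ h : D.rch c.1,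
      c' = (⟨c.1, h⟩, c.2.filterMap D.κ) := by
    intro c' hc'
    obtain ⟨c, hc, hcc⟩ := List.mem_filterMap.1 hc'
    by_cases h : D.rch c.1
    · rw [D.κc_pos h] at hcc
      exact ⟨c, hc, h, (Option.some.inj hcc).symm⟩
    · rw [D.κc_neg h] at hcc
      exact absurd hcc (by simp)
  let fV' : Fintype D.V' := Fintype.ofFinite _
  let fE' : Fintype D.E' := Fintype.ofFinite _
  refine ⟨{
    V := D.V'
    E := D.E'
    fV := fV'
    fE := fE'
    dV := fun a b => @Subtype.instDecidableEq _ _ D.dV a b
    dE := fun a b => @Subtype.instDecidableEq _ _ D.dE a b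
    s := D.s'
    t := D.t'
    lab := fun x => D.lab x.1
    ne := fun e => D.ne e.1 e.2.1
    base := ⟨D.base, D.base_rch⟩
    out := D.out.filterMap D.κ
    out_walk := D.lift_walk D.out_walk hact_out _ _
    cells := D.cells.filterMap D.κc
    cells_walk := ?_
    cells_pol := ?_
    conn := D.conn''
    two := ?_
    h1 := ?_ }, ?_, ?_⟩
  · intro c' hc'
    obtain ⟨c, hc, h, rfl⟩ := hmem c' hc'
    exact D.lift_walk (D.cells_walk c hc) (hact_cell c hc) _ _
  · intro c' hc'
    obtain ⟨c, hc, h, rfl⟩ := hmem c' hc'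
    have h2 := D.lift_lab (D.cells_walk c hc) (hact_cell c hc) h
    simp only
    rw [h2]
    exact D.cells_pol c hc
  · intro e
    have h1 := D.lift_cnt D.out e
    have h2 := D.cells_cnt D.cells (fun c hc => hc) e
    have h3 := (D.two e.1).resolve_left e.2.1
    unfold tot at h3
    rw [← h1, ← h2] at h3
    exact h3
  · intro c hc
    have hcy : IsCy D.s D.t (D.ext c) := by
      rw [isCy_iff]
      intro v
      unfold bd2
      rw [D.ext_sum c (fun e => (if D.s e = v then 1 else 0) + (if D.t e = v then 1 else 0))]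
      by_cases hv : D.rch v
      · have h4 := hc ⟨v, hv⟩
        have h5 : ∀ e : D.E', ((if D.s e.1 = v then (1 : ZMod 2) else 0) +
            (if D.t e.1 = v then 1 else 0)) = ((if D.s' e = ⟨v, hv⟩ then 1 else 0) +
              (if D.t' e = ⟨v, hv⟩ then 1 else 0)) := by
          intro e
          congr 1
          · refine if_congr ?_ rfl rfl
            exact ⟨fun h => Subtype.ext h, fun h => congrArg Subtype.val h⟩
          · refine if_congr ?_ rfl rfl
            exact ⟨fun h => Subtype.ext h, fun h => congrArg Subtype.val h⟩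
        simp only [h5]
        exact h4
      · refine Finset.sum_eq_zero fun e _ => ?_
        have h6 : D.s e.1 ≠ v := by
          rintro rfl
          exact hv e.2.2
        have h7 : D.t e.1 ≠ v := by
          rintro rfl
          exact hv ((D.rch_s_iff e.2.1).1 e.2.2)
        rw [if_neg h6, if_neg h7, add_zero, mul_zero]
    obtain ⟨sub, hsub, hval⟩ := D.h1 (D.ext c) hcy (by
      intro e he
      unfold ext
      rw [dif_neg]
      intro h
      exact h.1 he)
    refine ⟨sub.filterMap D.κc, hsub.filterMap _, ?_⟩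
    intro e
    have h8 := hval e.1
    have h9 : D.ext c e.1 = c e := by
      unfold ext
      rw [dif_pos e.2]
    rw [h9] at h8
    rw [h8]
    have h10 := D.cells_cnt sub (fun c hc => hsub.subset hc) e
    rw [← h10]
  · exact D.lift_lab D.out_walk hact_out D.base_rch
  · exact List.length_filterMap_le _ _

end Pre

end Pool.Agent.SC
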