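import Pool.Agent.Lib.MP_d0323d_co.WalkBasic
import Pool.Agent.Lib.MP_d0323d_co.DiagPre
/-! Module DIAG (8.2): operations on diagrams. -/
set_option autoImplicit false
namespace Pool.Agent.SC
open Finset
variable {n : ℕ} {Pol : List (Fin n) → Prop}

/-! ### Transport of walks along a dart map -/

section Map
variable {V E V' E' : Type} {s t : E → V} {s' t' : E' → V'}

theorem DWalk.map (φ : V → V') (δ : E × Bool → E' × Bool) {u v : V} {l : List (E × Bool)}
    (h : DWalk s t u l v) (hs : ∀ d, dsrc s' t' (δ d) = φ (dsrc s t d))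
    (ht : ∀ d, dtgt s' t' (δ d) = φ (dtgt s t d)) :
    DWalk s' t' (φ u) (l.map δ) (φ v) := by
  induction l generalizing u with
  | nil =>
    change u = v at h
    subst h
    rfl
  | cons d l ih =>
    refine ⟨?_, ?_⟩
    · rw [hs, h.1]
    · rw [ht]
      exact ih h.2

theorem dlab_map (φ : V → V') (δ : E × Bool → E' × Bool) (lab : V → Fin n) (lab' : V' → Fin n)
    (u : V) (l : List (E × Bool)) (ht : ∀ d, dtgt s' t' (δ d) = φ (dtgt s t d))
    (hl : ∀ v, lab' (φ v) = lab v) :
    dlab s' t' lab' (φ u) (l.map δ) = dlab s t lab u l := by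
  unfold dlab
  rw [hl, List.map_map]
  congr 1
  refine List.map_congr_left fun d _ => ?_
  simp only [Function.comp_apply]
  rw [ht, hl]

/-- image of a list of cells -/
def mcells (φ : V → V') (δ : E × Bool → E' × Bool) (cells : List (V × List (E × Bool))) :
    List (V' × List (E' × Bool)) := cells.map (fun c => (φ c.1, c.2.map δ))

theorem length_mcells (φ : V → V') (δ : E × Bool → E' × Bool)
    (cells : List (V × List (E × Bool))) : (mcells φ δ cells).length = cells.length := by
  simp [mcells]

theorem mcells_walk (φ : V → V') (δ : E × Bool → E' × Bool) {cells : List (V × List (E × Bool))}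
    (hs : ∀ d, dsrc s' t' (δ d) = φ (dsrc s t d)) (ht : ∀ d, dtgt s' t' (δ d) = φ (dtgt s t d))
    (h : ∀ c ∈ cells, DWalk s t c.1 c.2 c.1) :
    ∀ c ∈ mcells φ δ cells, DWalk s' t' c.1 c.2 c.1 := by
  intro c hc
  obtain ⟨c', hc', rfl⟩ := List.mem_map.1 hc
  exact (h c' hc').map φ δ hs ht

theorem mcells_pol (φ : V → V') (δ : E × Bool → E' × Bool) {cells : List (V × List (E × Bool))}
    (lab : V → Fin n) (lab' : V' → Fin n)
    (ht : ∀ d, dtgt s' t' (δ d) = φ (dtgt s t d)) (hl : ∀ v, lab' (φ v) = lab v)
    (h : ∀ c ∈ cells, Pol (dlab s t lab c.1 c.2)) :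
    ∀ c ∈ mcells φ δ cells, Pol (dlab s' t' lab' c.1 c.2) := by
  intro c hc
  obtain ⟨c', hc', rfl⟩ := List.mem_map.1 hc
  have h1 := dlab_map (s := s) (t := t) (s' := s') (t' := t') φ δ lab lab' c'.1 c'.2 ht hl
  rw [h1]
  exact h c' hc'

theorem mcells_cnt [DecidableEq E] [DecidableEq E'] (φ : V → V') (δ : E × Bool → E' × Bool)
    (cells : List (V × List (E × Bool))) (e' : E') :
    ((mcells φ δ cells).map (fun c => dcnt c.2 e')).sum =
      (cells.map (fun c => dcnt (c.2.map δ) e')).sum := by
  unfold mcells
  rw [List.map_map]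
  rfl

theorem mcells_cnt_eq [DecidableEq E] [DecidableEq E'] (φ : V → V') (δ : E × Bool → E' × Bool)
    (cells : List (V × List (E × Bool))) (e : E) (e' : E') (h : ∀ d, (δ d).1 = e' ↔ d.1 = e) :
    ((mcells φ δ cells).map (fun c => dcnt c.2 e')).sum =
      (cells.map (fun c => dcnt c.2 e)).sum := by
  rw [mcells_cnt]
  congr 1
  exact List.map_congr_left fun c _ => dcnt_map δ c.2 e e' h

theorem mcells_cnt_zero [DecidableEq E'] (φ : V → V') (δ : E × Bool → E' × Bool)
    (cells : List (V × List (E × Bool))) (e' : E') (h : ∀ d, (δ d).1 ≠ e') :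
    ((mcells φ δ cells).map (fun c => dcnt c.2 e')).sum = 0 := by
  unfold mcells
  rw [List.map_map]
  refine List.sum_eq_zero fun x hx => ?_
  obtain ⟨c, _, rfl⟩ := List.mem_map.1 hx
  exact dcnt_map_zero δ c.2 e' h

theorem cells_cnt_append [DecidableEq E] (a b : List (V × List (E × Bool))) (e : E) :
    ((a ++ b).map (fun c => dcnt c.2 e)).sum = (a.map (fun c => dcnt c.2 e)).sum +
      (b.map (fun c => dcnt c.2 e)).sum := by
  rw [List.map_append, List.sum_append]

end Map

theorem PLe.mono {w : List (Fin n)} {k k' : ℕ} (h : PLe Pol w k) (hk : k ≤ k') : PLe Pol w k' := by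
  obtain ⟨D, h1, h2⟩ := h
  exact ⟨D, h1, h2.trans hk⟩

theorem PLe.clos {w : List (Fin n)} {k : ℕ} (h : PLe Pol w k) : ClosedW w ∧ LabW w := by
  obtain ⟨D, rfl, h2⟩ := h
  refine ⟨⟨by simp [dlab], ?_⟩, labW_dlab _ D.out_walk (fun d _ => D.ne d.1)⟩
  rw [dlab_last D.lab D.out_walk]
  rfl

theorem PLe.point (x : Fin n) : PLe Pol [x] 0 := by
  refine ⟨{
    V := Unit
    E := Empty
    fV := inferInstance
    fE := inferInstance
    dV := inferInstance
    dE := inferInstance
    s := Empty.elim
    t := Empty.elim
    lab := fun _ => x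
    ne := fun e => e.elim
    base := ()
    out := []
    out_walk := rfl
    cells := []
    cells_walk := fun c hc => absurd hc (by simp)
    cells_pol := fun c hc => absurd hc (by simp)
    conn := fun u v => by
      cases u
      cases v
      exact Relation.ReflTransGen.refl
    two := fun e => e.elim
    h1 := fun c _ => ⟨[], List.Sublist.refl _, fun e => e.elim⟩ }, rfl, le_refl _⟩

/-- (d) -/
theorem PLe.rot {w w' : List (Fin n)} {k : ℕ} (h : PLe Pol w k) (hr : RotW w w') :
    PLe Pol w' k := by
  rcases hr with rfl | ⟨x, y, u, v, hw, hc, hw'⟩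
  · exact h
  obtain ⟨D, h1, h2⟩ := h
  subst hw'
  rw [hw] at h1
  have h1' : dlab D.s D.t D.lab D.base D.out = (x :: u) ++ y :: v := h1
  obtain ⟨A, B, hAB, hA, hB⟩ := dlab_split D.lab h1'
  have hwalk := D.out_walk
  rw [hAB] at hwalk
  obtain ⟨z, hz1, hz2⟩ := DWalk.split hwalk
  have hz : D.lab z = y := dlab_inner D.lab hA hz1
  refine ⟨{ D with
    base := z
    out := B ++ A
    out_walk := hz2.append hz1
    two := fun e => ?_ }, ?_, h2⟩
  · have h3 := D.two e
    rw [hAB, dcnt_append] at h3
    rw [dcnt_append]
    omega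
  · change dlab D.s D.t D.lab z (B ++ A) = _
    have hA' : D.lab D.base :: A.map (fun d => D.lab (dtgt D.s D.t d)) = (x :: u) ++ [y] := hA
    rw [List.cons_append, List.cons.injEq] at hA'
    rw [dlab_append, dlab, hz, hB, hA'.2]
    simp

theorem PLe.rev {w : List (Fin n)} {k : ℕ} (h : PLe Pol w k) : PLe Pol w.reverse k := by
  obtain ⟨D, h1, h2⟩ := h
  refine ⟨{ D with
    out := D.out.reverse.map fl
    out_walk := D.out_walk.rev
    two := fun e => ?_ }, ?_, h2⟩
  · have h3 := D.two e
    rw [dcnt_reverse_fl]
    exact h3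
  · change dlab D.s D.t D.lab D.base (D.out.reverse.map fl) = _
    rw [dlab_rev D.lab D.out_walk, h1]

/-- (b) wedge -/
theorem PLe.wedge {w1 w2 : List (Fin n)} {k1 k2 : ℕ} {p : Fin n} (h1 : FT w1 p p) (h2 : FT w2 p p)
    (hw1 : PLe Pol w1 k1) (hw2 : PLe Pol w2 k2) : PLe Pol (cat w1 w2) (k1 + k2) := by
  obtain ⟨D1, rfl, hk1⟩ := hw1
  obtain ⟨D2, rfl, hk2⟩ := hw2
  have hb1 : D1.lab D1.base = p := by simpa [dlab] using h1.1
  have hb2 : D2.lab D2.base = p := by simpa [dlab] using h2.1
  let φ1 : D1.V → D1.V ⊕ D2.V := Sum.inl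
  let φ2 : D2.V → D1.V ⊕ D2.V := fun v => if v = D2.base then Sum.inl D1.base else Sum.inr v
  let s' : D1.E ⊕ D2.E → D1.V ⊕ D2.V := Sum.elim (fun e => φ1 (D1.s e)) (fun e => φ2 (D2.s e))
  let t' : D1.E ⊕ D2.E → D1.V ⊕ D2.V := Sum.elim (fun e => φ1 (D1.t e)) (fun e => φ2 (D2.t e))
  let δ1 : D1.E × Bool → (D1.E ⊕ D2.E) × Bool := fun d => (Sum.inl d.1, d.2)
  let δ2 : D2.E × Bool → (D1.E ⊕ D2.E) × Bool := fun d => (Sum.inr d.1, d.2)
  let lab' : D1.V ⊕ D2.V → Fin n := Sum.elim D1.lab D2.lab
  have hs1 : ∀ d, dsrc s' t' (δ1 d) = φ1 (dsrc D1.s D1.t d) := by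
    rintro ⟨e, b⟩
    cases b <;> rfl
  have ht1 : ∀ d, dtgt s' t' (δ1 d) = φ1 (dtgt D1.s D1.t d) := by
    rintro ⟨e, b⟩
    cases b <;> rfl
  have hs2 : ∀ d, dsrc s' t' (δ2 d) = φ2 (dsrc D2.s D2.t d) := by
    rintro ⟨e, b⟩
    cases b <;> rfl
  have ht2 : ∀ d, dtgt s' t' (δ2 d) = φ2 (dtgt D2.s D2.t d) := by
    rintro ⟨e, b⟩
    cases b <;> rfl
  have hl1 : ∀ v, lab' (φ1 v) = D1.lab v := fun v => rfl
  have hl2 : ∀ v, lab' (φ2 v) = D2.lab v := by
    intro v
    by_cases hv : v = D2.base
    · have : φ2 v = Sum.inl D1.base := if_pos hv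
      rw [this, hv, hb2]
      exact hb1
    · have : φ2 v = Sum.inr v := if_neg hv
      rw [this]
      rfl
  have hφb : φ2 D2.base = Sum.inl D1.base := if_pos rfl
  have hφl : ∀ v1, v1 ≠ D1.base → ∀ v2, φ2 v2 ≠ Sum.inl v1 := by
    intro v1 hv1 v2 h
    by_cases hv : v2 = D2.base
    · have h3 : φ2 v2 = Sum.inl D1.base := if_pos hv
      rw [h3] at h
      exact hv1 (Sum.inl.inj h).symm
    · have h3 : φ2 v2 = Sum.inr v2 := if_neg hv
      rw [h3] at h
      cases h
  have hφr : ∀ v2, v2 ≠ D2.base → ∀ v, φ2 v = Sum.inr v2 ↔ v = v2 := by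
    intro v2 hv2 v
    constructor
    · intro h
      by_cases hv : v = D2.base
      · have h3 : φ2 v = Sum.inl D1.base := if_pos hv
        rw [h3] at h
        cases h
      · have h3 : φ2 v = Sum.inr v := if_neg hv
        rw [h3] at h
        exact Sum.inr.inj h
    · rintro rfl
      exact if_neg hv2
  have hd11 : ∀ (e : D1.E) (d : D1.E × Bool), (δ1 d).1 = Sum.inl e ↔ d.1 = e :=
    fun e d => ⟨fun h => Sum.inl.inj h, fun h => congrArg Sum.inl h⟩
  have hd22 : ∀ (e : D2.E) (d : D2.E × Bool), (δ2 d).1 = Sum.inr e ↔ d.1 = e :=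
    fun e d => ⟨fun h => Sum.inr.inj h, fun h => congrArg Sum.inr h⟩
  have hd12 : ∀ (e : D2.E) (d : D1.E × Bool), (δ1 d).1 ≠ Sum.inr e := fun e d h => by cases h
  have hd21 : ∀ (e : D1.E) (d : D2.E × Bool), (δ2 d).1 ≠ Sum.inl e := fun e d h => by cases h
  have htot : ∀ e, tot (D1.out.map δ1 ++ D2.out.map δ2)
      (mcells φ1 δ1 D1.cells ++ mcells φ2 δ2 D2.cells) e = 2 := by
    intro e
    unfold tot
    rw [dcnt_append, cells_cnt_append]
    rcases e with e | e
    · have h3 := D1.two e
      rw [dcnt_map δ1 _ e _ (hd11 e), dcnt_map_zero δ2 _ _ (hd21 e),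
        mcells_cnt_eq φ1 δ1 _ e _ (hd11 e), mcells_cnt_zero φ2 δ2 _ _ (hd21 e)]
      omega
    · have h3 := D2.two e
      rw [dcnt_map δ2 _ e _ (hd22 e), dcnt_map_zero δ1 _ _ (hd12 e),
        mcells_cnt_eq φ2 δ2 _ e _ (hd22 e), mcells_cnt_zero φ1 δ1 _ _ (hd12 e)]
      omega
  let P : Pre n Pol := {
    V := D1.V ⊕ D2.V
    E := D1.E ⊕ D2.E
    fV := inferInstance
    fE := inferInstance
    dV := inferInstance
    dE := inferInstance
    s := s'
    t := t'
    lab := lab'
    base := Sum.inl D1.base
    out := D1.out.map δ1 ++ D2.out.map δ2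
    cells := mcells φ1 δ1 D1.cells ++ mcells φ2 δ2 D2.cells
    ne := by
      rintro (e | e) _
      · exact D1.ne e
      · change lab' (φ2 (D2.s e)) ≠ lab' (φ2 (D2.t e))
        rw [hl2, hl2]
        exact D2.ne e
    out_walk := by
      refine (D1.out_walk.map φ1 δ1 hs1 ht1).append ?_
      have h3 := D2.out_walk.map φ2 δ2 hs2 ht2
      rw [hφb] at h3
      exact h3
    cells_walk := by
      intro c hc
      rcases List.mem_append.1 hc with hc | hc
      · exact mcells_walk φ1 δ1 hs1 ht1 D1.cells_walk c hc
      · exact mcells_walk φ2 δ2 hs2 ht2 D2.cells_walk c hc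
    cells_pol := by
      intro c hc
      rcases List.mem_append.1 hc with hc | hc
      · exact mcells_pol φ1 δ1 D1.lab lab' ht1 hl1 D1.cells_pol c hc
      · exact mcells_pol φ2 δ2 D2.lab lab' ht2 hl2 D2.cells_pol c hc
    two := fun e => Or.inr (htot e)
    h1 := by
      intro c hc _
      have hc1 : IsCy D1.s D1.t (fun e => c (Sum.inl e)) := by
        refine isCy_of_all_but_one _ _ _ D1.base fun v hv => ?_
        have h3 := hc (Sum.inl v)
        rw [Fintype.sum_sum_type] at h3
        have h4 : ∑ e : D2.E, c (Sum.inr e) * ((if s' (Sum.inr e) = Sum.inl v then 1 else 0) +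
            (if t' (Sum.inr e) = Sum.inl v then 1 else 0)) = 0 := by
          refine Finset.sum_eq_zero fun e _ => ?_
          rw [if_neg (show ¬ s' (Sum.inr e) = Sum.inl v from hφl v hv (D2.s e)),
            if_neg (show ¬ t' (Sum.inr e) = Sum.inl v from hφl v hv (D2.t e)), add_zero, mul_zero]
        rw [h4, add_zero] at h3
        unfold bd2
        refine Eq.trans (Finset.sum_congr rfl fun e _ => ?_) h3
        congr 2
        · exact if_congr ⟨fun h => congrArg Sum.inl h, fun h => Sum.inl.inj h⟩ rfl rfl
        · exact if_congr ⟨fun h => congrArg Sum.inl h, fun h => Sum.inl.inj h⟩ rfl rfl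
      have hc2 : IsCy D2.s D2.t (fun e => c (Sum.inr e)) := by
        refine isCy_of_all_but_one _ _ _ D2.base fun v hv => ?_
        have h3 := hc (Sum.inr v)
        rw [Fintype.sum_sum_type] at h3
        have h4 : ∑ e : D1.E, c (Sum.inl e) * ((if s' (Sum.inl e) = Sum.inr v then 1 else 0) +
            (if t' (Sum.inl e) = Sum.inr v then 1 else 0)) = 0 := by
          refine Finset.sum_eq_zero fun e _ => ?_
          rw [if_neg (by intro h; cases h), if_neg (by intro h; cases h), add_zero, mul_zero]
        rw [h4, zero_add] at h3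
        unfold bd2
        refine Eq.trans (Finset.sum_congr rfl fun e _ => ?_) h3
        congr 2
        · exact if_congr (hφr v hv _).symm rfl rfl
        · exact if_congr (hφr v hv _).symm rfl rfl
      obtain ⟨sub1, hsub1, hv1⟩ := D1.h1 _ hc1
      obtain ⟨sub2, hsub2, hv2⟩ := D2.h1 _ hc2
      refine ⟨mcells φ1 δ1 sub1 ++ mcells φ2 δ2 sub2, (hsub1.map _).append (hsub2.map _), ?_⟩
      rintro (e | e)
      · rw [cells_cnt_append, mcells_cnt_eq φ1 δ1 _ e _ (hd11 e),
          mcells_cnt_zero φ2 δ2 _ _ (hd21 e), Nat.add_zero]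
        exact hv1 e
      · rw [cells_cnt_append, mcells_cnt_eq φ2 δ2 _ e _ (hd22 e),
          mcells_cnt_zero φ1 δ1 _ _ (hd12 e), Nat.zero_add]
        exact hv2 e }
  have hP := P.toPLe
  have hlab : dlab P.s P.t P.lab P.base P.out =
      cat (dlab D1.s D1.t D1.lab D1.base D1.out) (dlab D2.s D2.t D2.lab D2.base D2.out) := by
    change dlab s' t' lab' (φ1 D1.base) (D1.out.map δ1 ++ D2.out.map δ2) = _
    rw [dlab_append, dlab_map φ1 δ1 D1.lab lab' _ _ ht1 hl1]
    unfold cat
    congr 1
    have h3 := dlab_map φ2 δ2 D2.lab lab' D2.base D2.out ht2 hl2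
    unfold dlab at h3
    rw [List.cons.injEq] at h3
    exact h3.2
  rw [hlab] at hP
  refine hP.mono ?_
  change (mcells φ1 δ1 D1.cells ++ mcells φ2 δ2 D2.cells).length ≤ _
  rw [List.length_append, length_mcells, length_mcells]
  omega

/-- (e) zip -/
theorem PLe.zipp {u v : List (Fin n)} {x y : Fin n} {k : ℕ}
    (h : PLe Pol (u ++ x :: y :: x :: v) k) : PLe Pol (u ++ x :: v) k := by
  obtain ⟨D, h1, h2⟩ := h
  obtain ⟨A, B, hAB, hA, hB⟩ := dlab_split D.lab h1
  rcases B with _ | ⟨d, B⟩
  · simp at hB
  rcases B with _ | ⟨d', B⟩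
  · simp at hB
  rw [List.map_cons, List.map_cons, List.cons.injEq, List.cons.injEq] at hB
  obtain ⟨hBy, hBx, hB⟩ := hB
  have hwalk := D.out_walk
  rw [hAB] at hwalk
  obtain ⟨p, hp1, hp2⟩ := DWalk.split hwalk
  obtain ⟨hdp, hdq, hp3⟩ := hp2
  have hpx : D.lab p = x := dlab_inner D.lab hA hp1
  by_cases hee : d'.1 = d.1
  · -- the spur is deleted
    have hfl : d' = fl d := by
      rcases d with ⟨e, b⟩
      rcases d' with ⟨e', b'⟩
      simp only at hee
      subst hee
      cases b <;> cases b'
      · exact absurd (congrArg D.lab hdq).symm (D.ne e')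
      · rfl
      · rfl
      · exact absurd (congrArg D.lab hdq) (D.ne e')
    have hp3' : DWalk D.s D.t p B D.base := by
      rw [hfl, dtgt_fl, hdp] at hp3
      exact hp3
    have htot : ∀ e, tot (A ++ B) D.cells e = if e = d.1 then 0 else 2 := by
      intro e
      have h3 := D.two e
      rw [hAB, dcnt_append, dcnt_cons, dcnt_cons, hee] at h3
      unfold tot
      rw [dcnt_append]
      by_cases he : d.1 = e
      · rw [if_pos he] at h3
        rw [if_pos he.symm]
        omega
      · rw [if_neg he] at h3
        rw [if_neg (Ne.symm he)]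
        omega
    let P : Pre n Pol := {
      V := D.V
      E := D.E
      fV := D.fV
      fE := D.fE
      dV := D.dV
      dE := D.dE
      s := D.s
      t := D.t
      lab := D.lab
      base := D.base
      out := A ++ B
      cells := D.cells
      ne := fun e _ => D.ne e
      out_walk := hp1.append hp3'
      cells_walk := D.cells_walk
      cells_pol := D.cells_pol
      two := fun e => by
        rw [htot e]
        by_cases he : e = d.1
        · rw [if_pos he]
          exact Or.inl rfl
        · rw [if_neg he]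
          exact Or.inr rfl
      h1 := fun c hc _ => D.h1 c hc }
    have hP := P.toPLe
    have hlab : dlab P.s P.t P.lab P.base P.out = u ++ x :: v := by
      change dlab D.s D.t D.lab D.base (A ++ B) = _
      rw [dlab_append, hA, hB]
      simp
    rw [hlab] at hP
    exact hP.mono h2
  · -- two different edges are identified
    have hee' : d.1 ≠ d'.1 := fun h => hee h.symm
    let p' := dtgt D.s D.t d'
    have hp'x : D.lab p' = x := hBx
    let r : D.V → D.V := fun w => if w = p' then p else w
    have hrp' : r p' = p := if_pos rfl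
    have hrp : r p = p := by
      by_cases h : p = p'
      · exact if_pos h
      · exact if_neg h
    have hrne : ∀ w, w ≠ p' → r w = w := fun w hw => if_neg hw
    have hriff : ∀ w, w ≠ p → w ≠ p' → ∀ a, r a = w ↔ a = w := by
      intro w hw hw' a
      by_cases ha : a = p'
      · rw [ha, hrp']
        exact ⟨fun h => absurd h.symm hw, fun h => absurd h.symm hw'⟩
      · rw [hrne a ha]
    have hlr : ∀ w, D.lab (r w) = D.lab w := by
      intro w
      by_cases hw : w = p'
      · rw [hw, hrp', hpx, hp'x]
      · rw [hrne w hw]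
    let s' : D.E → D.V := fun e => r (D.s e)
    let t' : D.E → D.V := fun e => r (D.t e)
    have hss : ∀ a, dsrc s' t' a = r (dsrc D.s D.t a) := by
      rintro ⟨e, b⟩
      cases b <;> rfl
    have htt : ∀ a, dtgt s' t' a = r (dtgt D.s D.t a) := by
      rintro ⟨e, b⟩
      cases b <;> rfl
    let δ : D.E × Bool → D.E × Bool :=
      fun a => if a.1 = d'.1 then (if a.2 = d'.2 then fl d else d) else a
    have hδ : ∀ a, a.1 ≠ d'.1 → δ a = a := fun a ha => if_neg ha
    have hδ1 : δ d' = fl d := by
      change (if d'.1 = d'.1 then (if d'.2 = d'.2 then fl d else d) else d') = fl d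
      rw [if_pos rfl, if_pos rfl]
    have hδ2 : δ (fl d') = d := by
      change (if d'.1 = d'.1 then (if (!d'.2) = d'.2 then fl d else d) else fl d') = d
      rw [if_pos rfl, if_neg]
      cases d'.2 <;> simp
    have hcases : ∀ a : D.E × Bool, a.1 ≠ d'.1 ∨ a = d' ∨ a = fl d' := by
      intro a
      by_cases ha : a.1 = d'.1
      · right
        by_cases hb : a.2 = d'.2
        · left
          exact Prod.ext ha hb
        · right
          refine Prod.ext ha ?_
          change a.2 = !d'.2
          revert hb
          cases a.2 <;> cases d'.2 <;> simp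
      · left
        exact ha
    have hs : ∀ a, dsrc s' t' (δ a) = r (dsrc D.s D.t a) := by
      intro a
      rcases hcases a with ha | rfl | rfl
      · rw [hδ a ha, hss]
      · rw [hδ1, hss, dsrc_fl, hdq]
      · rw [hδ2, hss, dsrc_fl, hdp, hrp, hrp']
    have ht : ∀ a, dtgt s' t' (δ a) = r (dtgt D.s D.t a) := by
      intro a
      rcases hcases a with ha | rfl | rfl
      · rw [hδ a ha, htt]
      · rw [hδ1, htt, dtgt_fl, hdp, hrp, hrp']
      · rw [hδ2, htt, dtgt_fl, hdq]
    have hδne : ∀ a, (δ a).1 ≠ d'.1 := by
      intro a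
      rcases hcases a with ha | rfl | rfl
      · rw [hδ a ha]
        exact ha
      · rw [hδ1]
        exact hee'
      · rw [hδ2]
        exact hee'
    have hδe : ∀ a, (δ a).1 = d.1 ↔ (a.1 = d.1 ∨ a.1 = d'.1) := by
      intro a
      rcases hcases a with ha | rfl | rfl
      · rw [hδ a ha]
        exact ⟨fun h => Or.inl h, fun h => h.resolve_right ha⟩
      · rw [hδ1]
        exact ⟨fun _ => Or.inr rfl, fun _ => rfl⟩
      · rw [hδ2]
        exact ⟨fun _ => Or.inr rfl, fun _ => rfl⟩
    have hδf : ∀ f, f ≠ d.1 → f ≠ d'.1 → ∀ a, (δ a).1 = f ↔ a.1 = f := by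
      intro f hf hf' a
      rcases hcases a with ha | rfl | rfl
      · rw [hδ a ha]
      · rw [hδ1]
        exact ⟨fun h => absurd h.symm hf, fun h => absurd h.symm hf'⟩
      · rw [hδ2]
        exact ⟨fun h => absurd h.symm hf, fun h => absurd h.symm hf'⟩
    have hcnt : ∀ l : List (D.E × Bool), dcnt (l.map δ) d.1 = dcnt l d.1 + dcnt l d'.1 := by
      intro l
      induction l with
      | nil => rfl
      | cons a l ih =>
        rw [List.map_cons, dcnt_cons, dcnt_cons, dcnt_cons, ih]
        by_cases ha : a.1 = d.1
        · rw [if_pos ((hδe a).2 (Or.inl ha)), if_pos ha, if_neg (by rw [ha]; exact hee')]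
          omega
        · by_cases ha' : a.1 = d'.1
          · rw [if_pos ((hδe a).2 (Or.inr ha')), if_neg ha, if_pos ha']
            omega
          · rw [if_neg (by rw [hδe a]; tauto), if_neg ha, if_neg ha']
            omega
    have hcells : ∀ L : List (D.V × List (D.E × Bool)),
        ((mcells r δ L).map (fun c => dcnt c.2 d.1)).sum =
          (L.map (fun c => dcnt c.2 d.1)).sum + (L.map (fun c => dcnt c.2 d'.1)).sum := by
      intro L
      induction L with
      | nil => rfl
      | cons a L ih =>
        have ih' : ((L.map (fun c => (r c.1, c.2.map δ))).map (fun c => dcnt c.2 d.1)).sum = _ := ih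
        unfold mcells
        rw [List.map_cons, List.map_cons, List.sum_cons, ih', hcnt, List.map_cons, List.sum_cons,
          List.map_cons, List.sum_cons]
        omega
    have htot : ∀ e, tot ((A ++ B).map δ) (mcells r δ D.cells) e = if e = d'.1 then 0 else 2 := by
      intro e
      unfold tot
      by_cases he' : e = d'.1
      · rw [if_pos he', he', dcnt_map_zero δ _ _ hδne, mcells_cnt_zero r δ _ _ hδne]
      · rw [if_neg he']
        have h3 := D.two e
        rw [hAB, dcnt_append, dcnt_cons, dcnt_cons] at h3
        by_cases he : e = d.1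
        · subst he
          have h4 := D.two d'.1
          rw [hAB, dcnt_append, dcnt_cons, dcnt_cons, if_neg hee', if_pos rfl] at h4
          rw [if_neg hee, if_pos rfl] at h3
          rw [hcnt, hcells, dcnt_append, dcnt_append]
          omega
        · rw [if_neg (Ne.symm he), if_neg (Ne.symm he')] at h3
          rw [dcnt_map δ _ e _ (hδf e he he'), mcells_cnt_eq r δ _ e _ (hδf e he he'), dcnt_append]
          omega
    let P : Pre n Pol := {
      V := D.V
      E := D.E
      fV := D.fV
      fE := D.fE
      dV := D.dV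
      dE := D.dE
      s := s'
      t := t'
      lab := D.lab
      base := r D.base
      out := (A ++ B).map δ
      cells := mcells r δ D.cells
      ne := by
        intro e _
        change D.lab (r (D.s e)) ≠ D.lab (r (D.t e))
        rw [hlr, hlr]
        exact D.ne e
      out_walk := by
        rw [List.map_append]
        have h3 := hp1.map r δ hs ht
        have h4 := hp3.map r δ hs ht
        have h5 : r (dtgt D.s D.t d') = r p := by rw [hrp]; exact hrp'
        rw [h5] at h4
        exact h3.append h4
      cells_walk := mcells_walk r δ hs ht D.cells_walk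
      cells_pol := mcells_pol r δ D.lab D.lab ht hlr D.cells_pol
      two := fun e => by
        rw [htot e]
        by_cases he : e = d'.1
        · rw [if_pos he]
          exact Or.inl rfl
        · rw [if_neg he]
          exact Or.inr rfl
      h1 := by
        intro c hc hc0
        have hce' : c d'.1 = 0 := hc0 d'.1 (by rw [htot, if_pos rfl])
        -- the lifted cycle
        let β : ZMod 2 := bd2 D.s D.t c p'
        let c1 : D.E → ZMod 2 := fun f => c f + ((if f = d.1 then β else 0) + (if f = d'.1 then β else 0))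
        have hββ : β + β = 0 := CharTwo.add_self_eq_zero β
        have hsingle : ∀ (a : D.E × Bool) (w : D.V), ∑ f, (if f = a.1 then β else 0) *
            ((if D.s f = w then (1 : ZMod 2) else 0) + (if D.t f = w then 1 else 0)) =
            β * ((if dsrc D.s D.t a = w then 1 else 0) + (if dtgt D.s D.t a = w then 1 else 0)) := by
          intro a w
          rw [Finset.sum_eq_single a.1 (fun b _ hb => by rw [if_neg hb, zero_mul])
            (fun h => absurd (Finset.mem_univ _) h), if_pos rfl]
          rcases a with ⟨f, b⟩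
          cases b
          · simp only [dsrc, dtgt]
            rw [add_comm]
            rfl
          · rfl
        have hbd : ∀ w, bd2 D.s D.t c1 w = bd2 D.s D.t c w +
            β * ((if p = w then 1 else 0) + (if p' = w then 1 else 0)) := by
          intro w
          have h5 : bd2 D.s D.t c1 w = bd2 D.s D.t c w +
              (∑ f, (if f = d.1 then β else 0) *
                ((if D.s f = w then (1 : ZMod 2) else 0) + (if D.t f = w then 1 else 0)) +
              ∑ f, (if f = d'.1 then β else 0) *
                ((if D.s f = w then (1 : ZMod 2) else 0) + (if D.t f = w then 1 else 0))) := by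
            unfold bd2
            rw [← Finset.sum_add_distrib, ← Finset.sum_add_distrib]
            refine Finset.sum_congr rfl fun f _ => ?_
            simp only [c1]
            ring
          rw [h5, hsingle d w, hsingle d' w, hdp, hdq]
          have h6 : ∀ a b q : ZMod 2, β * (a + q) + β * (q + b) = β * (a + b) := by
            intro a b q
            have : q + q = 0 := CharTwo.add_self_eq_zero q
            linear_combination β * this
          rw [h6]
        have hcy : IsCy D.s D.t c1 := by
          refine isCy_of_all_but_one _ _ _ p fun w hw => ?_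
          rw [hbd w, if_neg (Ne.symm hw), zero_add]
          by_cases hw' : w = p'
          · rw [if_pos hw'.symm, mul_one, hw']
            exact hββ
          · rw [if_neg (Ne.symm hw'), mul_zero, add_zero]
            refine Eq.trans ?_ (hc w)
            unfold bd2
            refine Finset.sum_congr rfl fun f _ => ?_
            congr 2
            · exact if_congr (hriff w hw hw' _).symm rfl rfl
            · exact if_congr (hriff w hw hw' _).symm rfl rfl
        obtain ⟨sub, hsub, hv⟩ := D.h1 c1 hcy
        refine ⟨mcells r δ sub, hsub.map _, ?_⟩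
        intro f
        by_cases hf' : f = d'.1
        · rw [hf', hce', mcells_cnt_zero r δ _ _ hδne]
          rfl
        · by_cases hf : f = d.1
          · rw [hf, hcells, Nat.cast_add, ← hv d.1, ← hv d'.1]
            simp only [c1, if_true, if_neg hee', if_neg hee]
            rw [hce']
            linear_combination -hββ
          · rw [mcells_cnt_eq r δ _ f _ (hδf f hf hf'), ← hv f]
            simp only [c1]
            rw [if_neg hf, if_neg hf', add_zero, add_zero] }
    have hP := P.toPLe
    have hlab : dlab P.s P.t P.lab P.base P.out = u ++ x :: v := by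
      change dlab s' t' D.lab (r D.base) ((A ++ B).map δ) = _
      rw [dlab_map r δ D.lab D.lab _ _ ht hlr, dlab_append, hA, hB]
      simp
    rw [hlab] at hP
    refine hP.mono ?_
    change (mcells r δ D.cells).length ≤ _
    rw [length_mcells]
    exact h2

/-- (c) pendant edge -/
theorem PLe.ins {u v : List (Fin n)} {x y : Fin n} {k : ℕ} (hxy : x ≠ y)
    (h : PLe Pol (u ++ x :: v) k) : PLe Pol (u ++ x :: y :: x :: v) k := by
  obtain ⟨D, h1, h2⟩ := h
  obtain ⟨A, B, hAB, hA, hB⟩ := dlab_split D.lab h1
  have hwalk := D.out_walk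
  rw [hAB] at hwalk
  obtain ⟨z, hz1, hz2⟩ := DWalk.split hwalk
  have hz : D.lab z = x := dlab_inner D.lab hA hz1
  let s' : Option D.E → Option D.V := fun e => e.elim (some z) (fun e => some (D.s e))
  let t' : Option D.E → Option D.V := fun e => e.elim none (fun e => some (D.t e))
  let lab' : Option D.V → Fin n := fun v => v.elim y D.lab
  let δ : D.E × Bool → Option D.E × Bool := fun d => (some d.1, d.2)
  have hs : ∀ d, dsrc s' t' (δ d) = some (dsrc D.s D.t d) := by
    rintro ⟨e, b⟩
    cases b <;> rfl
  have ht : ∀ d, dtgt s' t' (δ d) = some (dtgt D.s D.t d) := by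
    rintro ⟨e, b⟩
    cases b <;> rfl
  have hl : ∀ v, lab' (some v) = D.lab v := fun v => rfl
  have hd : ∀ (e : D.E) (d : D.E × Bool), (δ d).1 = some e ↔ d.1 = e :=
    fun e d => ⟨fun h => Option.some.inj h, fun h => congrArg some h⟩
  have hd0 : ∀ (d : D.E × Bool), (δ d).1 ≠ none := fun d h => by cases h
  have hsp : ((none, true) :: (none, false) :: B.map δ : List (Option D.E × Bool)) =
      [(none, true), (none, false)] ++ B.map δ := rfl
  have htot : ∀ e, tot (A.map δ ++ (none, true) :: (none, false) :: B.map δ)
      (mcells some δ D.cells) e = 2 := by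
    intro e
    unfold tot
    rw [dcnt_append, dcnt_cons, dcnt_cons]
    rcases e with _ | e
    · rw [dcnt_map_zero δ _ _ hd0, dcnt_map_zero δ _ _ hd0, mcells_cnt_zero some δ _ _ hd0]
      simp
    · have h3 := D.two e
      rw [hAB, dcnt_append] at h3
      rw [dcnt_map δ _ e _ (hd e), dcnt_map δ _ e _ (hd e), mcells_cnt_eq some δ _ e _ (hd e)]
      simp only [reduceCtorEq, if_false]
      omega
  let P : Pre n Pol := {
    V := Option D.V
    E := Option D.E
    fV := inferInstance
    fE := inferInstance
    dV := inferInstance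
    dE := inferInstance
    s := s'
    t := t'
    lab := lab'
    base := some D.base
    out := A.map δ ++ (none, true) :: (none, false) :: B.map δ
    cells := mcells some δ D.cells
    ne := by
      rintro (_ | e) _
      · change D.lab z ≠ y
        rw [hz]
        exact hxy
      · exact D.ne e
    out_walk := by
      refine (hz1.map some δ hs ht).append ?_
      exact ⟨rfl, rfl, hz2.map some δ hs ht⟩
    cells_walk := mcells_walk some δ hs ht D.cells_walk
    cells_pol := mcells_pol some δ D.lab lab' ht hl D.cells_pol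
    two := fun e => Or.inr (htot e)
    h1 := by
      intro c hc _
      have hc0 : c none = 0 := by
        have h3 := hc none
        rw [Fintype.sum_option] at h3
        have h4 : ∑ e : D.E, c (some e) * ((if s' (some e) = none then 1 else 0) +
            (if t' (some e) = none then 1 else 0)) = 0 := by
          refine Finset.sum_eq_zero fun e _ => ?_
          rw [if_neg (by intro h; cases h), if_neg (by intro h; cases h), add_zero, mul_zero]
        rw [h4, add_zero, if_neg (show ¬ s' none = none by intro h; cases h),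
          if_pos (show t' none = none from rfl), zero_add, mul_one] at h3
        exact h3
      have hc1 : IsCy D.s D.t (fun e => c (some e)) := by
        intro v
        have h3 := hc (some v)
        rw [Fintype.sum_option, hc0, zero_mul, zero_add] at h3
        refine Eq.trans (Finset.sum_congr rfl fun e _ => ?_) h3
        congr 2
        · exact if_congr ⟨fun h => congrArg some h, fun h => Option.some.inj h⟩ rfl rfl
        · exact if_congr ⟨fun h => congrArg some h, fun h => Option.some.inj h⟩ rfl rfl
      obtain ⟨sub, hsub, hv⟩ := D.h1 _ hc1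
      refine ⟨mcells some δ sub, hsub.map _, ?_⟩
      rintro (_ | e)
      · rw [mcells_cnt_zero some δ _ _ hd0, hc0]
        rfl
      · rw [mcells_cnt_eq some δ _ e _ (hd e)]
        exact hv e }
  have hP := P.toPLe
  have hlab : dlab P.s P.t P.lab P.base P.out = u ++ x :: y :: x :: v := by
    change dlab s' t' lab' (some D.base) (A.map δ ++ (none, true) :: (none, false) :: B.map δ) = _
    rw [dlab_append, dlab_map some δ D.lab lab' _ _ ht hl, hA]
    have h3 : ((none, true) :: (none, false) :: B.map δ).map (fun d => lab' (dtgt s' t' d)) =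
        y :: x :: v := by
      rw [List.map_cons, List.map_cons, List.map_map]
      congr 1
      congr 1
      rw [← hB]
      refine List.map_congr_left fun d _ => ?_
      simp only [Function.comp_apply]
      rw [ht, hl]
    rw [h3]
    simp
  rw [hlab] at hP
  refine hP.mono ?_
  change (mcells some δ D.cells).length ≤ _
  rw [length_mcells]
  exact h2

/-- (a) cycle graph -/
theorem PLe.pol {w : List (Fin n)} (hP : PolOK Pol) (h : Pol w) : PLe Pol w 1 := by
  obtain ⟨⟨hne, hcl⟩, hlw⟩ := hP.closed w h
  obtain ⟨L, hL⟩ : ∃ L, w.length = L + 1 := ⟨w.length - 1, by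
    have := List.length_pos_iff.2 hne
    omega⟩
  have hlab : ∀ (i : ℕ) (hi : i < L), w[i]'(by omega) ≠ w[i + 1]'(by omega) := by
    intro i hi
    have h3 := List.isChain_iff_getElem.1 hlw
    exact h3 i (by omega)
  have h0L : w[0]'(by omega) = w[L]'(by omega) := by
    rw [List.head?_eq_getElem?, List.getLast?_eq_getElem?, hL] at hcl
    rw [List.getElem?_eq_getElem (by omega), List.getElem?_eq_getElem (by omega)] at hcl
    exact Option.some.inj hcl
  let vt : ℕ → Fin (L + 1) := fun j => if h : j < L then ⟨j, by omega⟩ else 0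
  have hvt : ∀ j, j ≤ L → (vt j).1 < w.length := fun j _ => by
    rw [hL]
    exact (vt j).2
  let lab : Fin (L + 1) → Fin n := fun v => w[v.1]'(by rw [hL]; exact v.2)
  have hvtl : ∀ j (hj : j ≤ L), lab (vt j) = w[j]'(by omega) := by
    intro j hj
    by_cases hjL : j < L
    · have h3 : vt j = ⟨j, by omega⟩ := dif_pos hjL
      rw [h3]
    · have h3 : vt j = 0 := dif_neg hjL
      rw [h3]
      have h4 : j = L := by omega
      subst h4
      exact h0L
  let s : Fin L → Fin (L + 1) := fun i => vt i.1
  let t : Fin L → Fin (L + 1) := fun i => vt (i.1 + 1)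
  let out : List (Fin L × Bool) := (List.finRange L).map (fun i => (i, true))
  have hvL : vt L = vt 0 := by
    have h3 : vt L = 0 := dif_neg (lt_irrefl L)
    rw [h3]
    by_cases hL0 : 0 < L
    · have h4 : vt 0 = ⟨0, by omega⟩ := dif_pos hL0
      rw [h4]
      rfl
    · have h4 : vt 0 = 0 := dif_neg hL0
      rw [h4]
  have hwalk : DWalk s t (vt 0) out (vt 0) := by
    have key : ∀ m, m ≤ L → DWalk s t (vt (L - m))
        (((List.finRange L).drop (L - m)).map (fun i => (i, true))) (vt L) := by
      intro m
      induction m with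
      | zero =>
        intro _
        rw [Nat.sub_zero, List.drop_eq_nil_of_le (by simp)]
        rfl
      | succ m ih =>
        intro hm
        have ih' := ih (by omega)
        rw [List.drop_eq_getElem_cons (by simp; omega), List.map_cons]
        have h5 : L - (m + 1) + 1 = L - m := by omega
        refine ⟨?_, ?_⟩
        · simp only [dsrc, if_true, s, List.getElem_finRange]
          rfl
        · have h6 : dtgt s t ((List.finRange L)[L - (m + 1)]'(by simp; omega), true) =
              vt (L - m) := by
            simp only [dtgt, if_true, t, List.getElem_finRange]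
            rw [← h5]
            rfl
          rw [h6, h5]
          exact ih'
    have h3 := key L (le_refl _)
    rw [Nat.sub_self, List.drop_zero, hvL] at h3
    exact h3
  have hdl : dlab s t lab (vt 0) out = w := by
    have h3 : w = w[0]'(by omega) :: w.tail := by
      rcases w with _ | ⟨a, w⟩
      · exact absurd rfl hne
      · rfl
    rw [dlab, hvtl 0 (Nat.zero_le _)]
    refine Eq.trans ?_ h3.symm
    congr 1
    rw [List.map_map]
    apply List.ext_getElem
    · simp [hL]
    · intro i hi1 hi2
      rw [List.getElem_map, List.getElem_tail, List.getElem_finRange]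
      have hi : i < L := by simpa using hi1
      exact hvtl (i + 1) hi
  have hcnt : ∀ e, dcnt out e = 1 := by
    intro e
    have h3 : dcnt out e = (List.finRange L).count e := by
      unfold dcnt
      rw [List.countP_map, List.count]
      congr 1
    rw [h3]
    exact List.count_eq_one_of_mem (List.nodup_finRange L) (List.mem_finRange e)
  have htot : ∀ e, tot out [(vt 0, out)] e = 2 := by
    intro e
    unfold tot
    simp [hcnt e]
  let P : Pre n Pol := {
    V := Fin (L + 1)
    E := Fin L
    fV := inferInstance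
    fE := inferInstance
    dV := inferInstance
    dE := inferInstance
    s := s
    t := t
    lab := lab
    base := vt 0
    out := out
    cells := [(vt 0, out)]
    ne := by
      intro e _
      change lab (vt e.1) ≠ lab (vt (e.1 + 1))
      rw [hvtl e.1 (by omega), hvtl (e.1 + 1) (by omega)]
      exact hlab e.1 e.2
    out_walk := hwalk
    cells_walk := by
      intro c hc
      rw [List.mem_singleton] at hc
      subst hc
      exact hwalk
    cells_pol := by
      intro c hc
      rw [List.mem_singleton] at hc
      subst hc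
      simp only
      rw [hdl]
      exact h
    two := fun e => Or.inr (htot e)
    h1 := by
      intro c hc _
      have hstep : ∀ (i : ℕ) (hi : i + 1 < L), c ⟨i, by omega⟩ = c ⟨i + 1, hi⟩ := by
        intro i hi
        have h3 := hc (vt (i + 1))
        have hvi : vt (i + 1) = ⟨i + 1, by omega⟩ := dif_pos hi
        have h4 : ∀ e : Fin L, s e = vt (i + 1) ↔ e = ⟨i + 1, hi⟩ := by
          intro e
          have h5 : s e = ⟨e.1, by omega⟩ := dif_pos e.2
          rw [h5, hvi, Fin.mk.injEq, Fin.ext_iff]
        have h5 : ∀ e : Fin L, t e = vt (i + 1) ↔ e = ⟨i, by omega⟩ := by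
          intro e
          by_cases heL : e.1 + 1 < L
          · have h6 : t e = ⟨e.1 + 1, by omega⟩ := dif_pos heL
            rw [h6, hvi, Fin.mk.injEq, Fin.ext_iff]
            simp
          · have h6 : t e = 0 := dif_neg heL
            rw [h6, hvi, Fin.ext_iff, Fin.ext_iff]
            simp only [Fin.val_zero]
            omega
        simp only [h4, h5, mul_add, Finset.sum_add_distrib, mul_ite, mul_one, mul_zero,
          Finset.sum_ite_eq', Finset.mem_univ, if_true] at h3
        have h7 : c ⟨i, by omega⟩ + c ⟨i, by omega⟩ = 0 := CharTwo.add_self_eq_zero _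
        linear_combination h7 - h3
      have hconst : ∀ (i : ℕ) (hi : i < L) (h0 : 0 < L), c ⟨i, hi⟩ = c ⟨0, h0⟩ := by
        intro i
        induction i with
        | zero => intro _ _; rfl
        | succ i ih =>
          intro hi h0
          rw [← hstep i hi]
          exact ih (by omega) h0
      by_cases hz : ∀ e, c e = 0
      · refine ⟨[], List.nil_sublist _, fun e => ?_⟩
        rw [hz e]
        rfl
      · push Not at hz
        obtain ⟨e0, he0⟩ := hz
        refine ⟨[(vt 0, out)], List.Sublist.refl _, fun e => ?_⟩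
        have h3 : c e = c e0 := by
          rw [show c e = c ⟨e.1, e.2⟩ from rfl, show c e0 = c ⟨e0.1, e0.2⟩ from rfl,
            hconst e.1 e.2 (lt_of_le_of_lt (Nat.zero_le _) e.2),
            hconst e0.1 e0.2 (lt_of_le_of_lt (Nat.zero_le _) e.2)]
        have h4 : ∀ z : ZMod 2, z ≠ 0 → z = 1 := by decide
        rw [h3, h4 _ he0]
        simp [hcnt e] }
  have hPP := P.toPLe
  have hl : dlab P.s P.t P.lab P.base P.out = w := hdl
  rw [hl] at hPP
  exact hPP

end Pool.Agent.SC
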