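import Pool.Agent.Lib.MP_d0323d_co.FamBasic
/-! Module PHASE2A (9.7): region growing. -/
set_option autoImplicit false
namespace Pool.Agent.SC
open Finset

namespace Phase2A

variable {α : Type} [DecidableEq α]

/-- distance at most `k` -/
def Dle (S : Finset (Finset α)) (o y : α) (k : ℕ) : Prop :=
  ∃ u : List α, FT u o y ∧ WalkIn (edgs S) u ∧ u.length ≤ k + 1

theorem Dle.mono {S : Finset (Finset α)} {o y : α} {k l : ℕ} (h : Dle S o y k) (hkl : k ≤ l) :
    Dle S o y l := by
  obtain ⟨u, h1, h2, h3⟩ := h
  exact ⟨u, h1, h2, by omega⟩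

theorem Dle.refl (S : Finset (Finset α)) (o : α) (k : ℕ) : Dle S o o k :=
  ⟨[o], ⟨rfl, rfl⟩, by simp [WalkIn], by simp⟩

theorem Dle.step {S : Finset (Finset α)} {o x y : α} {k : ℕ} (h : Dle S o x k)
    (hxy : ({x, y} : Finset α) ∈ edgs S) : Dle S o y (k + 1) := by
  obtain ⟨u, ⟨h1, h1'⟩, h2, h3⟩ := h
  refine ⟨u ++ [y], ⟨?_, by simp⟩, ?_, by simp; omega⟩
  · cases u with
    | nil => simp at h1
    | cons a l => simpa using h1
  · unfold WalkIn
    rw [List.isChain_append]
    refine ⟨h2, by simp, ?_⟩
    intro a ha b hb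
    rw [h1'] at ha
    simp only [Option.mem_def, Option.some.injEq] at ha
    simp only [List.head?_cons, Option.mem_def, Option.some.injEq] at hb
    rw [← ha, ← hb]
    exact hxy

/-- the pairs cut by a colouring of the members in `F` -/
def cutset (S F : Finset (Finset α)) (col : Finset α → α) : Finset (Finset α) :=
  (edgs S).filter (fun e => ∃ s ∈ F, ∃ t ∈ F, s ∩ t = e ∧ col s ≠ col t)

theorem pair_mem_edgs {S : Finset (Finset α)} {s : Finset α} (hs : s ∈ S) {x y : α} (hx : x ∈ s)
    (hy : y ∈ s) (hxy : x ≠ y) : ({x, y} : Finset α) ∈ edgs S := by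
  rw [mem_edgs]
  refine ⟨card_pair hxy, s, hs, ?_⟩
  intro z hz
  rw [mem_insert, mem_singleton] at hz
  rcases hz with rfl | rfl
  · exact hx
  · exact hy

open Classical in
/-- members with all vertices within distance `k` -/
noncomputable def ball (S F : Finset (Finset α)) (o : α) (k : ℕ) : Finset (Finset α) :=
  F.filter (fun s => ∀ y ∈ s, Dle S o y k)

theorem mem_ball {S F : Finset (Finset α)} {o : α} {k : ℕ} {s : Finset α} :
    s ∈ ball S F o k ↔ s ∈ F ∧ ∀ y ∈ s, Dle S o y k := by
  classical
  rw [ball, mem_filter]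

open Classical in
/-- the near vertices of a member -/
noncomputable def near (S : Finset (Finset α)) (o : α) (k : ℕ) (t : Finset α) : Finset α :=
  t.filter (fun y => Dle S o y k)

theorem cross_card {S F : Finset (Finset α)} (hS : IsFam S) (hF : F ⊆ S) (o : α) (k : ℕ) :
    ((edgs S).filter (fun e => ∃ s ∈ ball S F o k, ∃ t ∈ F \ ball S F o k, s ∩ t = e)).card +
      (ball S F o k).card ≤ (ball S F o (k + 1)).card := by
  classical
  have hsub : ball S F o k ⊆ ball S F o (k + 1) := by
    intro s hs
    rw [mem_ball] at hs ⊢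
    exact ⟨hs.1, fun y hy => (hs.2 y hy).mono (by omega)⟩
  have h1 : (edgs S).filter (fun e => ∃ s ∈ ball S F o k, ∃ t ∈ F \ ball S F o k, s ∩ t = e) ⊆
      (ball S F o (k + 1) \ ball S F o k).image (near S o k) := by
    intro e he
    rw [mem_filter] at he
    obtain ⟨he, s, hs, t, ht, rfl⟩ := he
    rw [mem_edgs] at he
    rw [mem_ball] at hs
    rw [mem_sdiff] at ht
    obtain ⟨htF, htb⟩ := ht
    have ht3 := hS t (hF htF)
    -- the near vertices are exactly the intersection
    have hnear : s ∩ t ⊆ near S o k t := by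
      intro x hx
      rw [mem_inter] at hx
      rw [near, mem_filter]
      exact ⟨hx.2, hs.2 x hx.1⟩
    have hnc : (near S o k t).card ≤ 2 := by
      by_contra hc
      push Not at hc
      have h2 : near S o k t = t := by
        apply eq_of_subset_of_card_le (filter_subset _ _)
        rw [ht3]
        exact hc
      apply htb
      rw [mem_ball]
      refine ⟨htF, fun y hy => ?_⟩
      rw [← h2, near, mem_filter] at hy
      exact hy.2
    have heq : s ∩ t = near S o k t := by
      apply eq_of_subset_of_card_le hnear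
      rw [he.1]
      exact hnc
    rw [mem_image]
    refine ⟨t, ?_, heq.symm⟩
    rw [mem_sdiff]
    refine ⟨?_, htb⟩
    rw [mem_ball]
    refine ⟨htF, fun y hy => ?_⟩
    by_cases hyn : Dle S o y k
    · exact hyn.mono (by omega)
    · obtain ⟨x, hx⟩ : (s ∩ t).Nonempty := by
        rw [← card_pos, he.1]
        norm_num
      have hx' := mem_inter.mp hx
      have hdx := hs.2 x hx'.1
      have hxy : x ≠ y := by
        rintro rfl
        exact hyn hdx
      exact hdx.step (pair_mem_edgs (hF htF) hx'.2 hy hxy)
  have h2 := (card_le_card h1).trans card_image_le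
  rw [card_sdiff_of_subset hsub] at h2
  have h3 := card_le_card hsub
  omega

theorem exists_radius (a : ℕ → ℕ) (rho : ℕ) (beta : ℝ) (hb : 0 < beta) (n : ℕ)
    (ha1 : 1 ≤ a 1) (han : ∀ k, a k ≤ n) (h : (n : ℝ) < (1 + beta) ^ (rho - 1)) :
    ∃ k, 1 ≤ k ∧ k < rho ∧ (a (k + 1) : ℝ) - a k ≤ beta * a k := by
  by_contra hc
  push Not at hc
  have hrho : 1 ≤ rho := by
    by_contra h0
    have : rho = 0 := by omega
    subst this
    have h1 : 1 ≤ n := le_trans ha1 (han 1)
    have h2 : (1 : ℝ) ≤ n := by exact_mod_cast h1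
    norm_num at h
    linarith
  have key : ∀ k, 1 ≤ k → k ≤ rho → (1 + beta) ^ (k - 1) ≤ (a k : ℝ) := by
    intro k hk
    induction k, hk using Nat.le_induction with
    | base =>
      intro _
      norm_num
      exact_mod_cast ha1
    | succ k hk ih =>
      intro hkr
      have h1 := ih (by omega)
      have h2 := hc k hk (by omega)
      have h3 : k + 1 - 1 = (k - 1) + 1 := by omega
      rw [h3, pow_succ]
      nlinarith
  have h1 := key rho hrho le_rfl
  have h2 : (a rho : ℝ) ≤ n := by exact_mod_cast han rho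
  linarith

theorem main (hα : Nonempty α) {S : Finset (Finset α)} (hS : IsFam S) (rho : ℕ) (beta : ℝ)
    (hb : 0 < beta)
    (hrho : (S.card : ℝ) < (1 + beta) ^ (rho - 1)) :
    ∀ (m : ℕ) (F : Finset (Finset α)), F.card = m → F ⊆ S → ∃ col : Finset α → α,
      ((cutset S F col).card : ℝ) ≤ beta * F.card ∧
      ∀ s ∈ F, ∀ y ∈ s, Dle S (col s) y rho := by
  classical
  intro m
  induction m using Nat.strong_induction_on with
  | _ m ih =>
  intro F hm hF
  rcases F.eq_empty_or_nonempty with rfl | ⟨s0, hs0⟩
  · obtain ⟨o⟩ := hα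
    refine ⟨fun _ => o, ?_, by simp⟩
    have : cutset S (∅ : Finset (Finset α)) (fun _ => o) = ∅ := by
      rw [cutset, filter_eq_empty_iff]
      rintro e _ ⟨s, hs, _⟩
      exact absurd hs (notMem_empty s)
    rw [this]
    simp
  · have h3 := hS s0 (hF hs0)
    obtain ⟨o, ho⟩ : s0.Nonempty := by
      rw [← card_pos, h3]; norm_num
    have ha1 : 1 ≤ (ball S F o 1).card := by
      rw [Nat.one_le_iff_ne_zero, ← Nat.pos_iff_ne_zero, card_pos]
      refine ⟨s0, ?_⟩
      rw [mem_ball]
      refine ⟨hs0, fun y hy => ?_⟩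
      by_cases hoy : o = y
      · subst hoy
        exact Dle.refl S o 1
      · exact (Dle.refl S o 0).step (pair_mem_edgs (hF hs0) ho hy hoy)
    have han : ∀ k, (ball S F o k).card ≤ S.card := by
      intro k
      refine card_le_card (fun s hs => ?_)
      rw [mem_ball] at hs
      exact hF hs.1
    obtain ⟨k, hk1, hk2, hk3⟩ := exists_radius (fun k => (ball S F o k).card) rho beta hb S.card
      ha1 han hrho
    have hG : ball S F o k ⊆ F := fun s hs => (mem_ball.mp hs).1
    have hGne : 0 < (ball S F o k).card := by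
      refine lt_of_lt_of_le ha1 (card_le_card ?_)
      intro s hs
      rw [mem_ball] at hs ⊢
      exact ⟨hs.1, fun y hy => (hs.2 y hy).mono hk1⟩
    have hcard : (F \ ball S F o k).card + (ball S F o k).card = F.card :=
      card_sdiff_add_card_eq_card hG
    obtain ⟨col', hc1, hc2⟩ := ih (F \ ball S F o k).card (by omega) (F \ ball S F o k) rfl
      (fun s hs => hF (mem_sdiff.mp hs).1)
    refine ⟨fun s => if s ∈ ball S F o k then o else col' s, ?_, ?_⟩
    · have hcross := cross_card hS hF o k
      have hsub : cutset S F (fun s => if s ∈ ball S F o k then o else col' s) ⊆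
          ((edgs S).filter (fun e => ∃ s ∈ ball S F o k, ∃ t ∈ F \ ball S F o k, s ∩ t = e)) ∪
            cutset S (F \ ball S F o k) col' := by
        intro e he
        rw [cutset, mem_filter] at he
        obtain ⟨he, s, hs, t, ht, hst, hne⟩ := he
        rw [mem_union]
        by_cases h1 : s ∈ ball S F o k
        · by_cases h2 : t ∈ ball S F o k
          · simp [h1, h2] at hne
          · left
            rw [mem_filter]
            exact ⟨he, s, h1, t, mem_sdiff.mpr ⟨ht, h2⟩, hst⟩
        · by_cases h2 : t ∈ ball S F o k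
          · left
            rw [mem_filter]
            exact ⟨he, t, h2, s, mem_sdiff.mpr ⟨hs, h1⟩, by rw [inter_comm]; exact hst⟩
          · right
            rw [cutset, mem_filter]
            simp only [h1, h2, if_false] at hne
            exact ⟨he, s, mem_sdiff.mpr ⟨hs, h1⟩, t, mem_sdiff.mpr ⟨ht, h2⟩, hst, hne⟩
      have h4 := (card_le_card hsub).trans (card_union_le _ _)
      have h5 : ((cutset S F (fun s => if s ∈ ball S F o k then o else col' s)).card : ℝ) ≤
          (((edgs S).filter (fun e => ∃ s ∈ ball S F o k, ∃ t ∈ F \ ball S F o k,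
            s ∩ t = e)).card : ℝ) + ((cutset S (F \ ball S F o k) col').card : ℝ) := by
        exact_mod_cast h4
      have h6 : (((edgs S).filter (fun e => ∃ s ∈ ball S F o k, ∃ t ∈ F \ ball S F o k,
            s ∩ t = e)).card : ℝ) + ((ball S F o k).card : ℝ) ≤ ((ball S F o (k + 1)).card : ℝ) := by
        exact_mod_cast hcross
      have h7 : ((F \ ball S F o k).card : ℝ) + ((ball S F o k).card : ℝ) = (F.card : ℝ) := by
        exact_mod_cast hcard
      have h8 : beta * (F.card : ℝ) = beta * ((F \ ball S F o k).card : ℝ) +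
          beta * ((ball S F o k).card : ℝ) := by rw [← h7]; ring
      linarith
    · intro s hs y hy
      by_cases h1 : s ∈ ball S F o k
      · simp only [h1, if_true]
        exact ((mem_ball.mp h1).2 y hy).mono (by omega)
      · simp only [h1, if_false]
        exact hc2 s (mem_sdiff.mpr ⟨hs, h1⟩) y hy

end Phase2A

/-- region growing: a cut set with few members such that every class of faces (across pairs not in
the cut set) has all its vertices within distance `rho` of some vertex. -/
theorem region_growing {α : Type} [DecidableEq α] [hα : Nonempty α] {S : Finset (Finset α)}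
    (hS : IsSurf S) (rho : ℕ)
    (beta : ℝ) (hb0 : 0 < beta) (hrho : (S.card : ℝ) < (1 + beta) ^ (rho - 1)) :
    ∃ (C : Finset (Finset α)) (col : Finset α → α),
      C ⊆ edgs S ∧ (C.card : ℝ) ≤ beta * S.card ∧
      (∀ s ∈ S, ∀ t ∈ S, EAdj s t → (s ∩ t ∈ C ↔ col s ≠ col t)) ∧
      (∀ s ∈ S, ∀ y ∈ s, ∃ u : List α, FT u (col s) y ∧ WalkIn (edgs S) u ∧ u.length ≤ rho + 1) := by
  classical
  obtain ⟨col, h1, h2⟩ := Phase2A.main hα hS.1 rho beta hb0 hrho S.card S rfl (Subset.refl S)
  refine ⟨Phase2A.cutset S S col, col, filter_subset _ _, h1, ?_, h2⟩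
  intro s hs t ht hst
  have hst' : (s ∩ t).card = 2 := hst
  constructor
  · intro h
    rw [Phase2A.cutset, mem_filter] at h
    obtain ⟨he, s', hs', t', ht', hst2, hne⟩ := h
    -- the pair lies in exactly two members
    have hdeg : edeg S (s ∩ t) = 2 := by
      rcases hS.2.1 (s ∩ t) hst' with h0 | h0
      · exfalso
        have : 0 < edeg S (s ∩ t) := edeg_pos.mpr ⟨s, hs, inter_subset_left⟩
        omega
      · exact h0
    have hsne : s ≠ t := by
      rintro rfl
      rw [inter_self, hS.1 s hs] at hst'
      omega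
    have hsne' : s' ≠ t' := by
      rintro rfl
      exact hne rfl
    have hsub : ({s, t} : Finset (Finset α)) ⊆ S.filter (fun r => s ∩ t ⊆ r) := by
      intro r hr
      rw [mem_insert, mem_singleton] at hr
      rw [mem_filter]
      rcases hr with rfl | rfl
      · exact ⟨hs, inter_subset_left⟩
      · exact ⟨ht, inter_subset_right⟩
    have heq : ({s, t} : Finset (Finset α)) = S.filter (fun r => s ∩ t ⊆ r) := by
      apply eq_of_subset_of_card_le hsub
      rw [card_pair hsne]
      exact le_of_eq hdeg
    have hs2 : s' ∈ ({s, t} : Finset (Finset α)) := by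
      rw [heq, mem_filter, ← hst2]
      exact ⟨hs', inter_subset_left⟩
    have ht2 : t' ∈ ({s, t} : Finset (Finset α)) := by
      rw [heq, mem_filter, ← hst2]
      exact ⟨ht', inter_subset_right⟩
    rw [mem_insert, mem_singleton] at hs2 ht2
    rcases hs2 with rfl | rfl
    · rcases ht2 with rfl | rfl
      · exact absurd rfl hsne'
      · exact hne
    · rcases ht2 with rfl | rfl
      · exact hne.symm
      · exact absurd rfl hsne'
  · intro hne
    rw [Phase2A.cutset, mem_filter]
    refine ⟨?_, s, hs, t, ht, rfl, hne⟩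
    rw [mem_edgs]
    exact ⟨hst', s, hs, inter_subset_left⟩

end Pool.Agent.SC
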