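import Pool.Agent.Lib.MP_d0323d_co.Defs
/-! Module WALK: closed label walks, concatenation, rotation, generic theta lemma. -/
set_option autoImplicit false
namespace Pool.Agent.SC
open Finset

variable {n : ℕ}

/-! ### steps -/

theorem steps_nil {β : Type*} : steps ([] : List β) = [] := rfl
theorem steps_single {β : Type*} (x : β) : steps [x] = [] := rfl
theorem steps_cons_cons {β : Type*} (x y : β) (l : List β) :
    steps (x :: y :: l) = (x, y) :: steps (y :: l) := rfl

theorem steps_append {β : Type*} (a : List β) (x : β) (b : List β) :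
    steps (a ++ x :: b) = steps (a ++ [x]) ++ steps (x :: b) := by
  induction a with
  | nil => rfl
  | cons c a ih =>
    cases a with
    | nil => rfl
    | cons d a =>
      simp only [List.cons_append] at ih ⊢
      rw [steps_cons_cons, ih, steps_cons_cons]
      simp

theorem steps_reverse {β : Type*} (a : List β) :
    steps a.reverse = ((steps a).map Prod.swap).reverse := by
  induction a with
  | nil => rfl
  | cons x a ih =>
    cases a with
    | nil => rfl
    | cons y a =>
      have h1 : (x :: y :: a).reverse = a.reverse ++ y :: [x] := by simp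
      rw [h1, steps_append]
      have h2 : a.reverse ++ [y] = (y :: a).reverse := by simp
      rw [h2, ih, steps_cons_cons]
      simp [steps]

/-- `IsChain` in terms of steps -/
theorem isChain_iff_steps {β : Type*} (R : β → β → Prop) (w : List β) :
    w.IsChain R ↔ ∀ p ∈ steps w, R p.1 p.2 := by
  induction w with
  | nil => simp [steps]
  | cons x w ih =>
    cases w with
    | nil => simp [steps]
    | cons y w =>
      rw [List.isChain_cons_cons, ih, steps_cons_cons]
      simp

/-- `LabW` in terms of steps -/
theorem labW_iff_steps (w : List (Fin n)) : LabW w ↔ ∀ p ∈ steps w, p.1 ≠ p.2 :=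
  isChain_iff_steps _ w

theorem len_nil {T : Finset (Fin n)} : len T [] = 0 := rfl
theorem len_single {T : Finset (Fin n)} (x : Fin n) : len T [x] = 0 := rfl

theorem len_append {T : Finset (Fin n)} (a : List (Fin n)) (x : Fin n) (b : List (Fin n)) :
    len T (a ++ x :: b) = len T (a ++ [x]) + len T (x :: b) := by
  simp [len, steps_append a x b]

/-- length is at most the number of steps -/
theorem len_le_length {T : Finset (Fin n)} (w : List (Fin n)) : len T w ≤ w.length - 1 := by
  unfold len
  refine (List.length_filter_le _ _).trans ?_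
  simp [steps]

theorem len_cons_cons {T : Finset (Fin n)} (x y : Fin n) (l : List (Fin n)) :
    len T (x :: y :: l) = (if x ∈ T ∧ y ∈ T then 0 else 1) + len T (y :: l) := by
  unfold len
  rw [steps_cons_cons, List.filter_cons]
  by_cases h : x ∈ T ∧ y ∈ T
  · simp [h.1, h.2]
  · have h' : (decide (¬ (x ∈ T ∧ y ∈ T))) = true := decide_eq_true h
    rw [if_neg h, if_pos h', List.length_cons]
    omega

/-! ### `FT` -/

theorem FT.ne_nil {β : Type*} {w : List β} {p q : β} (h : FT w p q) : w ≠ [] := by
  rintro rfl; simp [FT] at h

theorem FT.exists_cons {β : Type*} {w : List β} {p q : β} (h : FT w p q) : ∃ l, w = p :: l := by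
  cases w with
  | nil => exact absurd rfl h.ne_nil
  | cons x l =>
    have := h.1
    simp at this
    exact ⟨l, by rw [this]⟩

theorem FT.exists_snoc {β : Type*} {w : List β} {p q : β} (h : FT w p q) :
    ∃ l, w = l ++ [q] := by
  rcases List.eq_nil_or_concat w with hw | ⟨l, x, hw⟩
  · exact absurd hw h.ne_nil
  · have := h.2
    rw [hw] at this
    simp at this
    exact ⟨l, by rw [hw, this]; simp⟩

theorem FT.closed {β : Type*} {w : List β} {p : β} (h : FT w p p) : ClosedW w :=
  ⟨h.ne_nil, by rw [h.1, h.2]⟩

theorem ClosedW.exists_FT {β : Type*} {w : List β} (h : ClosedW w) : ∃ p, FT w p p := by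
  cases w with
  | nil => exact absurd rfl h.1
  | cons x l => exact ⟨x, rfl, by rw [← h.2]; rfl⟩

theorem FT_single {β : Type*} (x : β) : FT [x] x x := ⟨rfl, rfl⟩

theorem cat_snoc {β : Type*} (a : List β) (x : β) (b : List β) :
    cat (a ++ [x]) (x :: b) = a ++ x :: b := by simp [cat]

theorem cat_nil_tail {β : Type*} (a : List β) (x : β) : cat a [x] = a := by simp [cat]

theorem cat_assoc {β : Type*} {a b c : List β} (hb : b ≠ []) :
    cat (cat a b) c = cat a (cat b c) := by
  cases b with
  | nil => exact absurd rfl hb
  | cons x b => simp [cat]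

theorem len_cat {T : Finset (Fin n)} {a b : List (Fin n)} {p q r : Fin n} (ha : FT a p q)
    (hb : FT b q r) : len T (cat a b) = len T a + len T b := by
  obtain ⟨a', rfl⟩ := ha.exists_snoc
  obtain ⟨b', rfl⟩ := hb.exists_cons
  rw [cat_snoc, len_append]

theorem len_reverse {T : Finset (Fin n)} (a : List (Fin n)) : len T a.reverse = len T a := by
  unfold len
  rw [steps_reverse, List.filter_reverse, List.length_reverse, List.filter_map, List.length_map]
  congr 2
  funext p
  simp only [Function.comp, Prod.fst_swap, Prod.snd_swap]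
  rw [decide_eq_decide]
  tauto

theorem steps_cat {β : Type*} {a b : List β} {p q r : β} (ha : FT a p q)
    (hb : FT b q r) : steps (cat a b) = steps a ++ steps b := by
  obtain ⟨a', rfl⟩ := ha.exists_snoc
  obtain ⟨b', rfl⟩ := hb.exists_cons
  rw [cat_snoc, steps_append]

theorem labw_cat {a b : List (Fin n)} {p q r : Fin n} (ha : FT a p q) (hb : FT b q r) :
    LabW (cat a b) ↔ LabW a ∧ LabW b := by
  rw [labW_iff_steps, labW_iff_steps, labW_iff_steps, steps_cat ha hb]
  constructor
  · intro h
    exact ⟨fun p hp => h p (List.mem_append_left _ hp), fun p hp => h p (List.mem_append_right _ hp)⟩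
  · rintro ⟨h1, h2⟩ p hp
    rcases List.mem_append.1 hp with hp | hp
    · exact h1 p hp
    · exact h2 p hp

theorem labw_reverse {a : List (Fin n)} : LabW a.reverse ↔ LabW a := by
  rw [labW_iff_steps, labW_iff_steps, steps_reverse]
  constructor
  · intro h p hp
    have := h p.swap (by simp only [List.mem_reverse, List.mem_map]; exact ⟨p, hp, rfl⟩)
    exact fun he => this (by simpa using he.symm)
  · intro h p hp
    simp only [List.mem_reverse, List.mem_map] at hp
    obtain ⟨q, hq, rfl⟩ := hp
    exact fun he => h q hq (by simpa using he.symm)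

theorem FT_cat {a b : List (Fin n)} {p q r : Fin n} (ha : FT a p q) (hb : FT b q r) :
    FT (cat a b) p r := by
  obtain ⟨a', rfl⟩ := ha.exists_snoc
  obtain ⟨b', rfl⟩ := hb.exists_cons
  rw [cat_snoc]
  constructor
  · have := ha.1
    cases a' with
    | nil => simpa using this
    | cons c a' => simpa using this
  · have := hb.2
    rw [List.getLast?_append]
    rw [this]
    rfl

theorem closed_cat {a b : List (Fin n)} {p q : Fin n} (ha : FT a p q) (hb : FT b q p) :
    ClosedW (cat a b) := (FT_cat ha hb).closed

theorem FT_reverse {a : List (Fin n)} {p q : Fin n} (ha : FT a p q) : FT a.reverse q p :=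
  ⟨by rw [List.head?_reverse]; exact ha.2, by rw [List.getLast?_reverse]; exact ha.1⟩

/-! ### rotation -/

/-- normal form of a rotation of a closed walk -/
theorem RotW.dest {β : Type*} {w w' : List β} (h : RotW w w') :
    w = w' ∨ ∃ (x y : β) (u v : List β), w = x :: u ++ y :: (v ++ [x]) ∧
      w' = y :: v ++ x :: (u ++ [y]) := by
  rcases h with h | ⟨x, y, u, v, h1, h2, h3⟩
  · exact Or.inl h
  · rcases List.eq_nil_or_concat v with hv | ⟨v', z, hv⟩
    · subst hv
      left
      have := h2.2
      rw [h1] at this
      rw [List.getLast?_append] at this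
      simp at this
      rw [h1, h3, this]
      simp
    · right
      rw [List.concat_eq_append] at hv
      have hz : z = x := by
        have := h2.2
        rw [h1, hv] at this
        have h4 : x :: u ++ y :: (v' ++ [z]) = (x :: u ++ y :: v') ++ [z] := by simp
        rw [h4, List.getLast?_append] at this
        simp at this
        exact this.symm
      subst hz
      refine ⟨z, y, u, v', by rw [h1, hv], ?_⟩
      rw [h3, hv]
      simp

/-- the steps of a rotated closed walk are a permutation of the steps -/
theorem RotW.steps_perm {β : Type*} {w w' : List β} (h : RotW w w') : (steps w').Perm (steps w) := by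
  rcases h.dest with h | ⟨x, y, u, v, h1, h2⟩
  · rw [h]
  · rw [h1, h2]
    have e1 : x :: u ++ y :: (v ++ [x]) = (x :: u) ++ y :: (v ++ [x]) := rfl
    have e2 : y :: v ++ x :: (u ++ [y]) = (y :: v) ++ x :: (u ++ [y]) := rfl
    rw [e1, e2, steps_append (x :: u), steps_append (y :: v)]
    exact List.perm_append_comm

theorem RotW.closed {w w' : List (Fin n)} (h : RotW w w') (hw : ClosedW w) : ClosedW w' := by
  rcases h.dest with h | ⟨x, y, u, v, h1, h2⟩
  · rwa [← h]
  · rw [h2]
    refine ⟨by simp, ?_⟩
    have e2 : y :: v ++ x :: (u ++ [y]) = (y :: v ++ x :: u) ++ [y] := by simp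
    rw [e2, List.getLast?_append]
    simp

theorem RotW.symm {w w' : List (Fin n)} (hw : ClosedW w) (h : RotW w w') : RotW w' w := by
  have hc := h.closed hw
  rcases h.dest with h | ⟨x, y, u, v, h1, h2⟩
  · exact Or.inl h.symm
  · right
    refine ⟨y, x, v, u ++ [y], h2, hc, ?_⟩
    rw [h1]; simp

theorem RotW.labw {w w' : List (Fin n)} (h : RotW w w') (hc : ClosedW w) (hw : LabW w) : LabW w' := by
  rw [labW_iff_steps] at hw ⊢
  intro p hp
  exact hw p (h.steps_perm.mem_iff.1 hp)

theorem RotW.len {w w' : List (Fin n)} (T : Finset (Fin n)) (h : RotW w w') (hc : ClosedW w) :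
    len T w' = len T w := by
  unfold SC.len
  exact (h.steps_perm.filter _).length_eq

/-- swapping the two halves of a closed walk is a rotation -/
theorem RotW.cat_comm {β : Type*} {a b : List β} {p q : β} (ha : FT a p q) (hb : FT b q p) :
    RotW (cat a b) (cat b a) := by
  obtain ⟨a', rfl⟩ := ha.exists_cons
  obtain ⟨b', rfl⟩ := hb.exists_cons
  rcases List.eq_nil_or_concat a' with h | ⟨a'', z, h⟩
  · subst h
    have hpq : q = p := by
      have := ha.2
      simpa using this.symm
    subst hpq
    left
    simp [cat]
  · rw [List.concat_eq_append] at h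
    subst h
    have hz : z = q := by
      have := ha.2
      rw [← List.cons_append, List.getLast?_append] at this
      simpa using this
    subst hz
    right
    refine ⟨p, z, a'', b', by simp [cat], ?_, by simp [cat]⟩
    refine ⟨by simp [cat], ?_⟩
    have h2 := hb.2
    have e : cat (p :: (a'' ++ [z])) (z :: b') = (p :: a'') ++ z :: b' := by simp [cat]
    rw [e, List.getLast?_append, h2]
    rfl

/-- deletion of a whole backtrack `c⁻¹ c` -/
theorem zip_all {β : Type*} (S : List β → ℕ → Prop)
    (hzip : ∀ (u v : List β) (x y : β) (k : ℕ), S (u ++ x :: y :: x :: v) k →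
      S (u ++ x :: v) k)
    (A B : List β) (k : ℕ) : ∀ (c : List β) (q : β), c.getLast? = some q →
      S (A ++ c.reverse ++ c.tail ++ B) k → S (A ++ q :: B) k := by
  intro c
  induction c with
  | nil => intro q hq; simp at hq
  | cons x c ih =>
    intro q hq h
    cases c with
    | nil =>
      simp at hq
      subst hq
      simpa using h
    | cons y c =>
      apply ih q
      · simpa using hq
      · have h' : S ((A ++ c.reverse) ++ y :: x :: y :: (c ++ B)) k := by
          simpa using h
        have := hzip _ _ _ _ _ h'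
        simpa using this

/-- generic theta lemma: a graded predicate on closed label walks, closed under wedge and deletion
of backtracks, satisfies the theta inequality. -/
theorem theta_of_zip (S : List (Fin n) → ℕ → Prop)
    (hcat : ∀ (w1 w2 : List (Fin n)) (k1 k2 : ℕ) (p : Fin n), FT w1 p p → FT w2 p p → S w1 k1 →
      S w2 k2 → S (cat w1 w2) (k1 + k2))
    (hzip : ∀ (u v : List (Fin n)) (x y : Fin n) (k : ℕ), S (u ++ x :: y :: x :: v) k →
      S (u ++ x :: v) k)
    {a b c : List (Fin n)} {p q : Fin n} {k1 k2 : ℕ} (ha : FT a p q) (hb : FT b q p)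
    (hc : FT c p q) (hc' : LabW c) (h1 : S (cat a c.reverse) k1) (h2 : S (cat c b) k2) :
    S (cat a b) (k1 + k2) := by
  have h3 := hcat _ _ _ _ p (FT_cat ha (FT_reverse hc)) (FT_cat hc hb) h1 h2
  obtain ⟨A, rfl⟩ := ha.exists_snoc
  obtain ⟨B, rfl⟩ := hb.exists_cons
  obtain ⟨C, rfl⟩ := hc.exists_snoc
  have e1 : cat (A ++ [q]) (C ++ [q]).reverse = A ++ (C ++ [q]).reverse := by
    simp [cat]
  have e2 : cat (C ++ [q]) (q :: B) = (C ++ [q]) ++ B := by simp [cat]
  have e3 : cat (cat (A ++ [q]) (C ++ [q]).reverse) (cat (C ++ [q]) (q :: B))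
      = A ++ (C ++ [q]).reverse ++ (C ++ [q]).tail ++ B := by
    rw [e1, e2]
    have e4 : ((C ++ [q]) ++ B).tail = (C ++ [q]).tail ++ B := by
      cases C with
      | nil => rfl
      | cons c C => rfl
    unfold cat
    rw [e4]
    simp
  rw [e3] at h3
  have h4 := zip_all S hzip A B (k1 + k2) (C ++ [q]) q (by simp) h3
  have e5 : cat (A ++ [q]) (q :: B) = A ++ q :: B := cat_snoc _ _ _
  rw [e5]
  exact h4

end Pool.Agent.SC
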