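import Pool.Agent.Lib.MP_d0323d_co.Phase1
import Pool.Agent.Lib.MP_d0323d_co.Phase2A
import Pool.Agent.Lib.MP_d0323d_co.CapSphere
import Pool.Agent.Lib.MP_d0323d_co.WalkBasic
/-! Module PHASE2 (9.7). -/
set_option autoImplicit false
set_option linter.unusedSectionVars false
namespace Pool.Agent.SC
open Finset

namespace Ph2

/-! ### the two statements about classes -/

section Classes
variable {γ : Type} [DecidableEq γ]

theorem ncl_mono {A : Finset γ} {r r' : γ → γ → Prop} (h : ∀ x ∈ A, ∀ y ∈ A, r' x y → r x y) :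
    ncl A r ≤ ncl A r' := by
  have hfin : Finite (Quot (fun a b : {x // x ∈ A} => r' a.1 b.1)) := ncl_finite
  let Φ : Quot (fun a b : {x // x ∈ A} => r' a.1 b.1) → Quot (fun a b : {x // x ∈ A} => r a.1 b.1) :=
    Quot.lift (fun x => Quot.mk _ x) (fun x y hxy => Quot.sound (h x.1 x.2 y.1 y.2 hxy))
  have hΦ : Function.Surjective Φ := by
    intro q
    induction q using Quot.inductionOn with | _ x => ?_
    exact ⟨Quot.mk _ x, rfl⟩
  exact Nat.card_le_card_of_surjective _ hΦ

theorem ncl_step {A : Finset γ} {r r' : γ → γ → Prop} {a b : γ} (ha : a ∈ A) (hb : b ∈ A)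
    (h : ∀ x ∈ A, ∀ y ∈ A, r' x y → r x y ∨ (x = a ∧ y = b) ∨ (x = b ∧ y = a)) :
    ncl A r ≤ ncl A r' + 1 := by
  classical
  have hfin : Finite (Quot (fun a b : {x // x ∈ A} => r' a.1 b.1)) := ncl_finite
  let m : {x // x ∈ A} → Quot (fun a b : {x // x ∈ A} => r a.1 b.1) := Quot.mk _
  let Φ : Option (Quot (fun a b : {x // x ∈ A} => r' a.1 b.1)) →
      Quot (fun a b : {x // x ∈ A} => r a.1 b.1) := fun o =>
    match o with
    | none => m ⟨a, ha⟩
    | some q => Quot.lift (fun x => if m x = m ⟨a, ha⟩ then m ⟨b, hb⟩ else m x) (by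
        intro x y hxy
        show (if m x = m ⟨a, ha⟩ then m ⟨b, hb⟩ else m x) = (if m y = m ⟨a, ha⟩ then m ⟨b, hb⟩ else m y)
        rcases h x.1 x.2 y.1 y.2 hxy with h1 | ⟨h1, h2⟩ | ⟨h1, h2⟩
        · have h3 : m x = m y := Quot.sound h1
          rw [h3]
        · have h3 : x = ⟨a, ha⟩ := Subtype.ext h1
          have h4 : y = ⟨b, hb⟩ := Subtype.ext h2
          rw [h3, h4, if_pos rfl]
          split_ifs <;> rfl
        · have h3 : x = ⟨b, hb⟩ := Subtype.ext h1
          have h4 : y = ⟨a, ha⟩ := Subtype.ext h2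
          rw [h3, h4, if_pos rfl]
          split_ifs <;> rfl) q
  have hΦ : Function.Surjective Φ := by
    intro q
    induction q using Quot.inductionOn with | _ x => ?_
    by_cases hx : m x = m ⟨a, ha⟩
    · exact ⟨none, hx.symm⟩
    · refine ⟨some (Quot.mk _ x), ?_⟩
      show (if m x = m ⟨a, ha⟩ then m ⟨b, hb⟩ else m x) = m x
      rw [if_neg hx]
  have h2 := Nat.card_le_card_of_surjective _ hΦ
  rw [Finite.card_option] at h2
  exact h2

end Classes

variable {α β : Type} [DecidableEq α] [DecidableEq β]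

theorem ncl_cut {S G : Finset (Finset α)} (hS : IsFam S) (hc : Closed S) (hG : G ⊆ S)
    (C : Finset (Finset α)) : ncl G (CAdj C) ≤ ncl G EAdj + C.card := by
  induction C using Finset.induction_on with
  | empty =>
    rw [card_empty, add_zero]
    apply ncl_mono
    intro x _ y _ hxy
    exact ⟨hxy, notMem_empty _⟩
  | insert e C he ih =>
    rw [card_insert_of_notMem he]
    by_cases hex : ∃ s ∈ G, ∃ t ∈ G, s ∩ t = e ∧ (s ∩ t).card = 2
    · obtain ⟨s, hs, t, ht, hst, hst2⟩ := hex
      have hne : s ≠ t := by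
        rintro rfl
        rw [inter_self, hS s (hG hs)] at hst2
        omega
      have hstep := ncl_step (r := CAdj (insert e C)) (r' := CAdj C) hs ht (by
        intro x hx y hy hxy
        by_cases h1 : x ∩ y = e
        · right
          have hstar : S.filter (fun u => e ⊆ u) = {s, t} := by
            symm
            apply eq_of_subset_of_card_le
            · intro u hu
              rw [mem_insert, mem_singleton] at hu
              rw [mem_filter]
              rcases hu with rfl | rfl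
              · exact ⟨hG hs, by rw [← hst]; exact inter_subset_left⟩
              · exact ⟨hG ht, by rw [← hst]; exact inter_subset_right⟩
            · rw [card_pair hne]
              exact le_of_eq (hc.two (mem_edgs.mpr ⟨by rw [← hst, hst2], s, hG hs,
                by rw [← hst]; exact inter_subset_left⟩))
          have hxm : x ∈ S.filter (fun u => e ⊆ u) :=
            mem_filter.mpr ⟨hG hx, by rw [← h1]; exact inter_subset_left⟩
          have hym : y ∈ S.filter (fun u => e ⊆ u) :=
            mem_filter.mpr ⟨hG hy, by rw [← h1]; exact inter_subset_right⟩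
          have hxy' : x ≠ y := by
            rintro rfl
            have := hxy.1
            rw [inter_self, hS x (hG hx)] at this
            omega
          rw [hstar, mem_insert, mem_singleton] at hxm hym
          rcases hxm with rfl | rfl <;> rcases hym with rfl | rfl
          · exact absurd rfl hxy'
          · left; exact ⟨rfl, rfl⟩
          · right; exact ⟨rfl, rfl⟩
          · exact absurd rfl hxy'
        · left
          refine ⟨hxy.1, ?_⟩
          rw [mem_insert]
          rintro (h2 | h2)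
          · exact h1 h2
          · exact hxy.2 h2)
      omega
    · have hm := ncl_mono (A := G) (r := CAdj (insert e C)) (r' := CAdj C) (by
        intro x hx y hy hxy
        refine ⟨hxy.1, ?_⟩
        rw [mem_insert]
        rintro (h2 | h2)
        · exact hex ⟨x, hx, y, hy, h2, hxy.1⟩
        · exact hxy.2 h2)
      omega

theorem kapC_le {S : Finset (Finset α)} (hS : IsSurf S) (C : Finset (Finset α)) {x : α}
    (hx : x ∈ verts S) : kapC S C x - 1 ≤ (C.filter (fun e => x ∈ e)).card := by
  have h1 : kapC S C x ≤ ncl (star S x) (CAdj (C.filter (fun e => x ∈ e))) := by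
    apply ncl_mono
    intro a ha b hb hab
    refine ⟨hab.1, fun h => hab.2 (mem_filter.mpr ⟨h, ?_⟩)⟩
    exact mem_inter.mpr ⟨(mem_filter.mp ha).2, (mem_filter.mp hb).2⟩
  have h2 := ncl_cut hS.1 hS.2.1 (G := star S x) (filter_subset _ _) (C.filter (fun e => x ∈ e))
  have h3 : ncl (star S x) EAdj = 1 := hS.2.2 x hx
  omega

theorem sum_kapC_le {S : Finset (Finset α)} (hS : IsSurf S) {C : Finset (Finset α)}
    (hC : C ⊆ edgs S) : ∑ x ∈ verts S, (kapC S C x - 1) ≤ 2 * C.card := by
  calc ∑ x ∈ verts S, (kapC S C x - 1)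
      ≤ ∑ x ∈ verts S, (C.filter (fun e => x ∈ e)).card := sum_le_sum (fun x hx => kapC_le hS C hx)
    _ = ∑ e ∈ C, ((verts S).filter (fun x => x ∈ e)).card :=
        dcount (verts S) C (fun x e => x ∈ e)
    _ ≤ ∑ _e ∈ C, 2 := by
        apply sum_le_sum
        intro e he
        have h1 : (verts S).filter (fun x => x ∈ e) ⊆ e := by
          intro x hx
          exact (mem_filter.mp hx).2
        exact (card_le_card h1).trans (le_of_eq (mem_edgs.mp (hC he)).1)
    _ = 2 * C.card := by rw [sum_const, smul_eq_mul, mul_comm]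

theorem freeS_card {S : Finset (Finset α)} (hS : IsSurf S) {C : Finset (Finset α)}
    (hC : C ⊆ edgs S) : (freeS S C).card ≤ 2 * C.card := by
  have h1 : freeS S C ⊆ C.biUnion (fun e => (S.filter (fun s => e ⊆ s)).image (fun s => (s, e))) := by
    rintro ⟨s, e⟩ hq
    unfold freeS at hq
    rw [mem_filter, mem_product] at hq
    obtain ⟨⟨hs, he⟩, hes, h3⟩ := hq
    have h2 : edeg S e = 2 := hS.2.1.two he
    rw [mem_biUnion]
    rcases h3 with h3 | h3
    · exact ⟨e, h3, mem_image.mpr ⟨s, mem_filter.mpr ⟨hs, hes⟩, rfl⟩⟩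
    · simp only at h3
      omega
  calc (freeS S C).card ≤ _ := card_le_card h1
    _ ≤ ∑ e ∈ C, ((S.filter (fun s => e ⊆ s)).image (fun s => (s, e))).card := card_biUnion_le
    _ ≤ ∑ _e ∈ C, 2 := by
        apply sum_le_sum
        intro e he
        exact card_image_le.trans (le_of_eq (hS.2.1.two (hC he)))
    _ = 2 * C.card := by rw [sum_const, smul_eq_mul, mul_comm]

/-! ### closed walks -/

/-- number of traversals -/
def cnt (u : List α) (g : Finset α) : ℕ := ((steps u).map (fun p => ({p.1, p.2} : Finset α))).count g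

theorem mem_cls {u : List α} {g : Finset α} : g ∈ cls u ↔ ((cnt u g : ℕ) : ZMod 2) = 1 := by
  unfold cls cnt
  rw [mem_filter, zmod2_nat_one]
  constructor
  · exact fun h => h.2
  · intro h
    refine ⟨?_, h⟩
    unfold trset
    rw [List.mem_toFinset]
    exact List.count_pos_iff.mp h.pos

theorem cnt_join {u v : List α} {o y z : α} (hu : FT u o y) (hv : FT v o z) (g : Finset α) :
    cnt (u ++ v.reverse) g = cnt u g + (if g = {y, z} then 1 else 0) + cnt v g := by
  obtain ⟨a, rfl⟩ := hu.exists_snoc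
  have hv' : FT v.reverse z o :=
    ⟨by rw [List.head?_reverse]; exact hv.2, by rw [List.getLast?_reverse]; exact hv.1⟩
  obtain ⟨b, hb⟩ := hv'.exists_cons
  have h1 : steps (a ++ [y] ++ v.reverse) = steps (a ++ [y]) ++ [(y, z)] ++ steps v.reverse := by
    rw [hb, steps_append (a ++ [y]) z b, List.append_assoc a [y] [z], List.singleton_append,
      steps_append a y [z]]
    rfl
  unfold cnt
  rw [h1, List.map_append, List.map_append, List.count_append, List.count_append, steps_reverse,
    List.map_reverse, List.count_reverse, List.map_map]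
  have h2 : (fun p : α × α => ({p.1, p.2} : Finset α)) ∘ Prod.swap
      = (fun p : α × α => ({p.1, p.2} : Finset α)) := by
    funext p
    exact pair_comm _ _
  rw [h2]
  congr 2
  rw [List.map_singleton, List.count_singleton]
  by_cases h3 : g = {y, z}
  · rw [if_pos h3, h3]
    simp
  · rw [if_neg h3, if_neg]
    simp only [beq_iff_eq]
    exact fun h => h3 h.symm

theorem null_of_paths {S R : Finset (Finset α)} {rho : ℕ} (hnull : ShortNull S (2 * rho + 1))
    (hR : R ⊆ S) (o : α)
    (hp : ∀ y ∈ verts R, ∃ u : List α, FT u o y ∧ WalkIn (edgs S) u ∧ u.length ≤ rho + 1)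
    {A : Finset (Finset α)} (hA : EvenSet A) (hAR : A ⊆ edgs R) : ∃ B ⊆ S, bdF B = A := by
  choose! U hU using hp
  have main : ∀ A' ⊆ A, ∃ B ⊆ S, ∀ g : Finset α, g.card = 2 →
      ((edeg B g : ℕ) : ZMod 2) = (if g ∈ A' then 1 else 0)
        + ∑ y ∈ verts R, (((A'.filter (fun e => y ∈ e)).card : ℕ) : ZMod 2) * ((cnt (U y) g : ℕ) : ZMod 2) := by
    intro A'
    induction A' using Finset.induction_on with
    | empty =>
      intro _
      refine ⟨∅, empty_subset _, fun g _ => ?_⟩
      rw [edeg_empty, if_neg (notMem_empty _)]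
      simp
    | insert e A' he ih =>
      intro hsub
      obtain ⟨B, hB, hBd⟩ := ih ((subset_insert _ _).trans hsub)
      have heA := hsub (mem_insert_self _ _)
      obtain ⟨he2, s, hs, hes⟩ := mem_edgs.mp (hAR heA)
      obtain ⟨y, z, hyz, hyze⟩ := card_eq_two.mp he2
      have hyR : y ∈ verts R := mem_verts.mpr ⟨s, hs, hes (by rw [hyze]; simp)⟩
      have hzR : z ∈ verts R := mem_verts.mpr ⟨s, hs, hes (by rw [hyze]; simp)⟩
      obtain ⟨hUy1, hUy2, hUy3⟩ := hU y hyR
      obtain ⟨hUz1, hUz2, hUz3⟩ := hU z hzR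
      have hrev : FT (U z).reverse z o :=
        ⟨by rw [List.head?_reverse]; exact hUz1.2, by rw [List.getLast?_reverse]; exact hUz1.1⟩
      have hwalk : WalkIn (edgs S) (U y ++ (U z).reverse) := by
        unfold WalkIn
        rw [List.isChain_append]
        refine ⟨hUy2, ?_, ?_⟩
        · rw [isChain_iff_steps, steps_reverse]
          intro p hp
          rw [List.mem_reverse, List.mem_map] at hp
          obtain ⟨q, hq, rfl⟩ := hp
          have := (isChain_iff_steps _ _).mp hUz2 q hq
          show ({q.2, q.1} : Finset α) ∈ edgs S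
          rw [pair_comm]
          exact this
        · intro a ha b hb
          rw [hUy1.2] at ha
          rw [hrev.1] at hb
          simp only [Option.mem_def, Option.some.injEq] at ha hb
          rw [← ha, ← hb]
          exact mem_edgs.mpr ⟨card_pair hyz, s, hR hs, by rw [← hyze]; exact hes⟩
      have hclosed : ClosedW (U y ++ (U z).reverse) := by
        refine ⟨?_, ?_⟩
        · intro h0
          exact hUy1.ne_nil (List.append_eq_nil_iff.mp h0).1
        · obtain ⟨l, hl⟩ := hUy1.exists_cons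
          obtain ⟨l', hl'⟩ := hrev.exists_snoc
          rw [hl, hl']
          rw [List.cons_append, List.head?_cons, ← List.cons_append, ← List.append_assoc,
            List.getLast?_append]
          rfl
      have hlen : (U y ++ (U z).reverse).length ≤ 2 * rho + 1 + 1 := by
        rw [List.length_append, List.length_reverse]
        omega
      obtain ⟨Be, hBe, hBed⟩ := hnull _ hclosed hwalk hlen
      have hBe2 : ∀ g : Finset α, g.card = 2 →
          ((edeg Be g : ℕ) : ZMod 2) = ((cnt (U y ++ (U z).reverse) g : ℕ) : ZMod 2) := by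
        intro g hg
        have h1 : ((edeg Be g : ℕ) : ZMod 2) = 1 ↔ ((cnt (U y ++ (U z).reverse) g : ℕ) : ZMod 2) = 1 := by
          rw [← mem_cls, ← hBed, mem_bdF1]
          exact ⟨fun h => ⟨hg, h⟩, fun h => h.2⟩
        rcases zmod2_cases ((edeg Be g : ℕ) : ZMod 2) with h2 | h2 <;>
          rcases zmod2_cases ((cnt (U y ++ (U z).reverse) g : ℕ) : ZMod 2) with h3 | h3
        · rw [h2, h3]
        · rw [h1.mpr h3] at h2
          exact absurd h2 one_ne_zero
        · rw [h1.mp h2] at h3
          exact absurd h3 one_ne_zero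
        · rw [h2, h3]
      refine ⟨symmDiff B Be, sd_subset hB hBe, fun g hg => ?_⟩
      rw [edeg_sd, hBd g hg, hBe2 g hg, cnt_join hUy1 hUz1]
      have h3 : (if g ∈ insert e A' then (1 : ZMod 2) else 0)
          = (if g ∈ A' then 1 else 0) + (if g = {y, z} then 1 else 0) := by
        rw [← hyze]
        by_cases h4 : g = e
        · subst h4
          rw [if_pos (mem_insert_self _ _), if_neg he, if_pos rfl, zero_add]
        · by_cases h5 : g ∈ A'
          · rw [if_pos (mem_insert_of_mem h5), if_pos h5, if_neg h4, add_zero]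
          · rw [if_neg, if_neg h5, if_neg h4, add_zero]
            rw [mem_insert]
            rintro (h6 | h6)
            · exact h4 h6
            · exact h5 h6
      have h4 : ∀ v : α, ((((insert e A').filter (fun e => v ∈ e)).card : ℕ) : ZMod 2)
          = (((A'.filter (fun e => v ∈ e)).card : ℕ) : ZMod 2) + (if v ∈ e then 1 else 0) := by
        intro v
        rw [filter_insert]
        split_ifs with h5
        · rw [card_insert_of_notMem (fun h6 => he (mem_filter.mp h6).1)]
          push_cast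
          rfl
        · rw [add_zero]
      have h5 : ∑ v ∈ verts R, (if v ∈ e then (1 : ZMod 2) else 0) * ((cnt (U v) g : ℕ) : ZMod 2)
          = ((cnt (U y) g : ℕ) : ZMod 2) + ((cnt (U z) g : ℕ) : ZMod 2) := by
        have h6 : ∀ v ∈ verts R, (if v ∈ e then (1 : ZMod 2) else 0) * ((cnt (U v) g : ℕ) : ZMod 2)
            = if v ∈ e then ((cnt (U v) g : ℕ) : ZMod 2) else 0 := by
          intro v _
          split_ifs <;> simp
        rw [sum_congr rfl h6, ← sum_filter]
        have h7 : (verts R).filter (fun v => v ∈ e) = {y, z} := by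
          ext v
          rw [mem_filter, hyze, mem_insert, mem_singleton]
          constructor
          · exact fun h => h.2
          · rintro (rfl | rfl)
            · exact ⟨hyR, Or.inl rfl⟩
            · exact ⟨hzR, Or.inr rfl⟩
        rw [h7, sum_pair hyz]
      have h8 : ∑ v ∈ verts R, ((((insert e A').filter (fun e => v ∈ e)).card : ℕ) : ZMod 2)
            * ((cnt (U v) g : ℕ) : ZMod 2)
          = ∑ v ∈ verts R, (((A'.filter (fun e => v ∈ e)).card : ℕ) : ZMod 2) * ((cnt (U v) g : ℕ) : ZMod 2)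
            + (((cnt (U y) g : ℕ) : ZMod 2) + ((cnt (U z) g : ℕ) : ZMod 2)) := by
        rw [← h5, ← sum_add_distrib]
        apply sum_congr rfl
        intro v _
        rw [h4 v, add_mul]
      rw [h3, h8]
      by_cases h6 : g = {y, z}
      · rw [if_pos h6, if_pos h6]; push_cast; ring
      · rw [if_neg h6, if_neg h6]; push_cast; ring
  obtain ⟨B, hB, hBd⟩ := main A (Subset.refl _)
  refine ⟨B, hB, ?_⟩
  have h0 : ∀ y : α, (((A.filter (fun e => y ∈ e)).card : ℕ) : ZMod 2) = 0 := by
    intro y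
    rw [ZMod.natCast_eq_zero_iff_even]
    exact hA.2 y
  ext g
  rw [mem_bdF1]
  constructor
  · rintro ⟨hg, h1⟩
    rw [hBd g hg, sum_eq_zero (fun y _ => by rw [h0 y, zero_mul]), add_zero] at h1
    by_contra h2
    rw [if_neg h2] at h1
    exact zero_ne_one h1
  · intro hg
    refine ⟨hA.1 g hg, ?_⟩
    rw [hBd g (hA.1 g hg), sum_eq_zero (fun y _ => by rw [h0 y, zero_mul]), add_zero, if_pos hg]

/-! ### dual components -/

open Classical in
/-- dual component of `t` -/
noncomputable def cmp (T : Finset (Finset β)) (t : Finset β) : Finset (Finset β) :=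
  T.filter (fun u => Relation.ReflTransGen (fun a b => a ∈ T ∧ b ∈ T ∧ EAdj a b) t u)

theorem mem_cmp {T : Finset (Finset β)} {t u : Finset β} :
    u ∈ cmp T t ↔ u ∈ T ∧ Relation.ReflTransGen (fun a b => a ∈ T ∧ b ∈ T ∧ EAdj a b) t u := by
  classical
  unfold cmp
  exact mem_filter

theorem rtgT_symm {T : Finset (Finset β)} {t u : Finset β}
    (h : Relation.ReflTransGen (fun a b => a ∈ T ∧ b ∈ T ∧ EAdj a b) t u) :
    Relation.ReflTransGen (fun a b => a ∈ T ∧ b ∈ T ∧ EAdj a b) u t :=
  rtg_symm (fun _ _ h => ⟨h.2.1, h.1, h.2.2.symm⟩) h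

theorem cmp_eq {T : Finset (Finset β)} {t u : Finset β}
    (h : Relation.ReflTransGen (fun a b => a ∈ T ∧ b ∈ T ∧ EAdj a b) t u) : cmp T t = cmp T u := by
  ext v
  rw [mem_cmp, mem_cmp]
  exact ⟨fun h1 => ⟨h1.1, (rtgT_symm h).trans h1.2⟩, fun h1 => ⟨h1.1, h.trans h1.2⟩⟩

theorem cmp_dual (T : Finset (Finset β)) {t : Finset β} (ht : t ∈ T) : DualConn (cmp T t) := by
  have h1 : ∀ u, Relation.ReflTransGen (fun a b => a ∈ T ∧ b ∈ T ∧ EAdj a b) t u →
      Relation.ReflTransGen (fun a b => a ∈ cmp T t ∧ b ∈ cmp T t ∧ EAdj a b) t u := by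
    intro u hu
    induction hu with
    | refl => exact Relation.ReflTransGen.refl
    | @tail v w h4 h5 ih =>
      exact ih.tail ⟨mem_cmp.mpr ⟨h5.1, h4⟩, mem_cmp.mpr ⟨h5.2.1, h4.tail h5⟩, h5.2.2⟩
  intro a ha b hb
  exact (rtg_symm (fun _ _ h => ⟨h.2.1, h.1, h.2.2.symm⟩) (h1 a (mem_cmp.mp ha).2)).trans
    (h1 b (mem_cmp.mp hb).2)

theorem cmp_adj (T : Finset (Finset β)) {t : Finset β} :
    ∀ s ∈ cmp T t, ∀ u ∈ T, EAdj s u → u ∈ cmp T t := by
  intro s hs u hu hsu
  have hs' := mem_cmp.mp hs
  exact mem_cmp.mpr ⟨hu, hs'.2.tail ⟨hs'.1, hu, hsu⟩⟩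

/-- chains of lifted faces descend -/
theorem CC.desc {Z C : Finset (Finset α)} {T : Finset (Finset β)} {P : β → Option α}
    {f : Finset α → Finset β} (h : CC Z C T P f) {s t : Finset α} (hs : s ∈ Z) (ht : t ∈ Z)
    (hst : Relation.ReflTransGen (fun a b => a ∈ T ∧ b ∈ T ∧ EAdj a b) (f s) (f t)) :
    Relation.ReflTransGen (fun a b => a ∈ Z ∧ b ∈ Z ∧ CAdj C a b) s t := by
  classical
  let Φ : Quot (fun a b : {u // u ∈ Z} => CAdj C a.1 b.1) →
      Quot (fun a b : {u // u ∈ T} => EAdj a.1 b.1) :=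
    Quot.lift (fun u => Quot.mk _ ⟨f u.1, (h.f_mem u.1 u.2).1⟩) (by
      intro u v huv
      apply Quot.sound
      have hne : u.1 ≠ v.1 := by
        intro h1
        have h2 : (u.1 ∩ v.1).card = 2 := huv.1
        rw [h1, inter_self, h.fam v.1 v.2] at h2
        omega
      exact (h.f_adj u.1 u.2 v.1 v.2 hne).mpr huv)
  have hΦ : Function.Surjective Φ := by
    intro q
    induction q using Quot.inductionOn with | _ u => ?_
    by_cases hc : ∃ w ∈ u.1, P w = none
    · obtain ⟨w, hw, hn⟩ := hc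
      obtain ⟨v, hv, _, hadj⟩ := h.other u.2 ⟨w, hw, hn⟩ (e := u.1.erase w)
        (by rw [card_erase_of_mem hw, h.surf.1 u.1 u.2]) (erase_subset _ _) (h.erase_unc u.2 hw hn)
      refine ⟨Quot.mk _ ⟨v, hv⟩, ?_⟩
      symm
      exact Quot.sound (r := fun a b : {u // u ∈ T} => EAdj a.1 b.1) (a := u)
        (b := ⟨f v, (h.f_mem v hv).1⟩) hadj
    · push Not at hc
      obtain ⟨v, hv, hvu⟩ := h.f_surj u.1 u.2 (fun w hw => by
        rw [Option.isSome_iff_ne_none]
        exact hc w hw)
      refine ⟨Quot.mk _ ⟨v, hv⟩, ?_⟩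
      show Quot.mk _ (⟨f v, _⟩ : {u // u ∈ T}) = Quot.mk _ u
      congr 1
      exact Subtype.ext hvu
  have hfin : Finite (Quot (fun a b : {u // u ∈ Z} => CAdj C a.1 b.1)) := ncl_finite
  have hbij : Function.Bijective Φ := hΦ.bijective_of_nat_card_le (le_of_eq h.b0_eq.symm)
  have h1 : Φ (Quot.mk _ ⟨s, hs⟩) = Φ (Quot.mk _ ⟨t, ht⟩) :=
    (quot_eq_iff (fun a b hab => EAdj.symm hab) ⟨f s, (h.f_mem s hs).1⟩ ⟨f t, (h.f_mem t ht).1⟩).mpr hst
  exact (quot_eq_iff (fun a b hab => CAdj.symm hab) ⟨s, hs⟩ ⟨t, ht⟩).mp (hbij.1 h1)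

theorem toCC {S C : Finset (Finset α)} (hS : IsFam S) (X : CutCap S C) :
    @CC α X.β _ X.dec S C X.S X.P X.f := by
  letI := X.dec
  exact
    { fam := hS
      surf := X.surf
      f_mem := X.f_mem
      f_inj := X.f_inj
      f_surj := X.f_surj
      f_adj := X.f_adj
      cap_adj := X.cap_adj
      one_cap := X.one_cap
      fib := X.fib
      b0_eq := X.b0_eq }

end Ph2

open Classical in
/-- a dual component of the capped cut surface is a sphere, if all cycles in the part are
null-homologous in `S` -/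
theorem capped_sphere {α : Type} [DecidableEq α] {S C : Finset (Finset α)} (hS : IsSurf S)
    (hC : C ⊆ edgs S) (X : CutCap S C) (K : Finset (Finset X.β)) (hK : K ⊆ X.S) (hKne : K.Nonempty)
    (hKd : @DualConn X.β X.dec K)
    (hKc : ∀ s ∈ K, ∀ t ∈ X.S, @EAdj X.β X.dec s t → t ∈ K)
    (hnull : ∀ A : Finset (Finset α), EvenSet A →
      A ⊆ edgs (S.filter (fun s => X.f s ∈ K)) → ∃ B ⊆ S, bdF B = A) :
    @IsSphere X.β X.dec K := by
  letI := X.dec
  apply (Ph2.toCC hS.1 X).sphere hS.2.1 hK hKne hKd hKc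
  intro A hA hAe
  apply hnull A hA
  convert hAe using 3

theorem phase2 {α : Type} [DecidableEq α] {S : Finset (Finset α)} (hS : IsSurf S) (rho : ℕ)
    (beta : ℝ) (hb0 : 0 < beta) (hrho : (S.card : ℝ) < (1 + beta) ^ (rho - 1))
    (hnull : ShortNull S (2 * rho + 1)) :
    ∃ (β : Type) (_ : DecidableEq β) (W : Finset (Finset β)) (q E : ℕ),
      SphUnion W q ∧ Enc S W E ∧ (q : ℝ) ≤ b0 S + beta * S.card ∧ (E : ℝ) ≤ 3 * beta * S.card := by
  classical
  rcases S.eq_empty_or_nonempty with hSe | hSne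
  · subst hSe
    refine ⟨α, inferInstance, ∅, 0, 0, ⟨∅, by simp, by simp, by simp, by simp⟩, ?_, ?_, ?_⟩
    · convert Enc.refl (∅ : Finset (Finset α))
    · simp
    · simp
  obtain ⟨x0, hx0⟩ := vne hS.1 hSne
  haveI : Nonempty α := ⟨x0⟩
  obtain ⟨C, col, hC, hCc, hcol, hpath⟩ := region_growing hS rho beta hb0 hrho
  have hcolC : ∀ s ∈ S, ∀ t ∈ S, CAdj C s t → col s = col t := by
    intro s hs t ht hst
    by_contra hne
    exact hst.2 ((hcol s hs t ht hst.1).mpr hne)
  have hH : HypH S C := by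
    intro s hs t ht _ hsC hc2 y _ hchain
    have h1 : ∀ u, Relation.ReflTransGen
        (fun a b => a ∈ star S y ∧ b ∈ star S y ∧ CAdj C a b) s u → col s = col u := by
      intro u hu
      induction hu with
      | refl => rfl
      | @tail v w h4 h5 ih =>
        exact ih.trans (hcolC v (mem_filter.mp h5.1).1 w (mem_filter.mp h5.2.1).1 h5.2.2)
    exact (hcol s hs t ht hc2).mp hsC (h1 t hchain)
  have hC2 : ∀ e ∈ C, e.card = 2 := fun e he => (mem_edgs.mp (hC he)).1
  obtain ⟨X⟩ := exists_cutcap S C hS.1 (by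
    intro e
    by_cases he : e.card = 2
    · left
      rcases hS.2.1 e he with h | h <;> omega
    · right; exact he) hC2 hH
  letI := X.dec
  have hX := Ph2.toCC hS.1 X
  have hb0T : b0 X.S ≤ b0 S + C.card := by
    rw [X.b0_eq]
    exact Ph2.ncl_cut hS.1 hS.2.1 (Subset.refl _) C
  refine ⟨X.β, X.dec, X.S, b0 X.S, 3 * C.card, ?_, ?_, ?_, ?_⟩
  · refine ⟨X.S.image (Ph2.cmp X.S), ?_, ?_, ?_, ?_⟩
    · apply ncl_ge_image
      intro a ha b hb hab
      exact Ph2.cmp_eq (Relation.ReflTransGen.single ⟨ha, hb, hab⟩)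
    · intro K hK
      obtain ⟨t, ht, rfl⟩ := mem_image.mp hK
      have htK : t ∈ Ph2.cmp X.S t := Ph2.mem_cmp.mpr ⟨ht, Relation.ReflTransGen.refl⟩
      apply hX.sphere hS.2.1 (K := Ph2.cmp X.S t) (fun u hu => (Ph2.mem_cmp.mp hu).1) ⟨t, htK⟩
        (Ph2.cmp_dual X.S ht) (Ph2.cmp_adj X.S)
      intro A hA hAe
      -- all faces of the part have the same colour
      by_cases hRe : (S.filter (fun s => X.f s ∈ Ph2.cmp X.S t)) = ∅
      · rw [hRe] at hAe
        refine ⟨∅, empty_subset _, ?_⟩
        have h1 : A = ∅ := by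
          rw [eq_empty_iff_forall_notMem]
          intro e he
          obtain ⟨_, s, hs, _⟩ := mem_edgs.mp (hAe he)
          exact notMem_empty _ hs
        rw [h1, eq_empty_iff_forall_notMem]
        intro e he
        obtain ⟨s, hs, _⟩ := edeg_pos.mp (mem_bdF.mp he).2.pos
        exact notMem_empty _ hs
      · obtain ⟨s0, hs0⟩ := nonempty_iff_ne_empty.mpr hRe
        have hs0' := mem_filter.mp hs0
        have hcolR : ∀ s ∈ S.filter (fun s => X.f s ∈ Ph2.cmp X.S t), col s = col s0 := by
          intro s hs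
          have hs' := mem_filter.mp hs
          have h1 : Relation.ReflTransGen (fun a b => a ∈ X.S ∧ b ∈ X.S ∧ EAdj a b) (X.f s0) (X.f s) :=
            (Ph2.rtgT_symm (Ph2.mem_cmp.mp hs0'.2).2).trans (Ph2.mem_cmp.mp hs'.2).2
          have h2 := hX.desc hs0'.1 hs'.1 h1
          have h3 : ∀ u, Relation.ReflTransGen
              (fun a b => a ∈ S ∧ b ∈ S ∧ CAdj C a b) s0 u → col s0 = col u := by
            intro u hu
            induction hu with
            | refl => rfl
            | @tail v w h4 h5 ih => exact ih.trans (hcolC v h5.1 w h5.2.1 h5.2.2)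
          exact (h3 s h2).symm
        apply Ph2.null_of_paths hnull (filter_subset _ _) (col s0) _ hA hAe
        intro y hy
        obtain ⟨s, hs, hys⟩ := mem_verts.mp hy
        obtain ⟨u, hu1, hu2, hu3⟩ := hpath s (mem_filter.mp hs).1 y hys
        rw [hcolR s hs] at hu1
        exact ⟨u, hu1, hu2, hu3⟩
    · intro K hK K' hK' hne
      obtain ⟨t, ht, rfl⟩ := mem_image.mp hK
      obtain ⟨t', ht', rfl⟩ := mem_image.mp hK'
      rw [disjoint_left]
      intro x hx hx'
      apply hne
      obtain ⟨s, hs, hxs⟩ := mem_verts.mp hx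
      obtain ⟨s', hs', hxs'⟩ := mem_verts.mp hx'
      have hsT := (Ph2.mem_cmp.mp hs).1
      have hsT' := (Ph2.mem_cmp.mp hs').1
      have hxv : x ∈ verts X.S := mem_verts.mpr ⟨s, hsT, hxs⟩
      have hk := (ncl_eq_one_iff (fun a b => EAdj.symm) (A := star X.S x)
        ⟨s, mem_filter.mpr ⟨hsT, hxs⟩⟩).mp (X.surf.2.2 x hxv) s (mem_filter.mpr ⟨hsT, hxs⟩) s'
          (mem_filter.mpr ⟨hsT', hxs'⟩)
      have h1 : Relation.ReflTransGen (fun a b => a ∈ X.S ∧ b ∈ X.S ∧ EAdj a b) s s' :=
        Relation.ReflTransGen.mono (r := fun a b => a ∈ star X.S x ∧ b ∈ star X.S x ∧ EAdj a b)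
          (p := fun a b => a ∈ X.S ∧ b ∈ X.S ∧ EAdj a b)
          (fun a b h => ⟨(mem_filter.mp h.1).1, (mem_filter.mp h.2.1).1, h.2.2⟩) s s' hk
      exact Ph2.cmp_eq (((Ph2.mem_cmp.mp hs).2.trans h1).trans (Ph2.rtgT_symm (Ph2.mem_cmp.mp hs').2))
    · ext t
      rw [mem_biUnion]
      constructor
      · intro ht
        exact ⟨Ph2.cmp X.S t, mem_image_of_mem _ ht, Ph2.mem_cmp.mpr ⟨ht, Relation.ReflTransGen.refl⟩⟩
      · rintro ⟨K, hK, htK⟩
        obtain ⟨t', _, rfl⟩ := mem_image.mp hK
        exact (Ph2.mem_cmp.mp htK).1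
  · have h1 := X.enc_le hS.1 (3 * C.card) (by
      have h2 := Ph2.sum_kapC_le hS hC
      have h3 := Ph2.freeS_card hS hC
      have h4 := X.h_le
      omega)
    exact h1
  · have h1 : ((b0 X.S : ℕ) : ℝ) ≤ (b0 S : ℝ) + (C.card : ℝ) := by exact_mod_cast hb0T
    linarith
  · push_cast
    nlinarith
end Pool.Agent.SC
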