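import Pool.Agent.Lib.MP_d0323d_co.CutCap
/-! Module EN-REG (9.5): regularisation. -/
set_option autoImplicit false
namespace Pool.Agent.SC
open Finset

namespace Reg

variable {β : Type*} [DecidableEq β]

/-- the relation of chains inside `A` -/
abbrev rt (A : Finset β) (r : β → β → Prop) : β → β → Prop :=
  Relation.ReflTransGen (fun a b => a ∈ A ∧ b ∈ A ∧ r a b)

/-- changing a relation at a hub -/
theorem ncl_hub {A A' B H : Finset β} {r r' : β → β → Prop} (hs : ∀ a b, r a b → r b a)
    (hs' : ∀ a b, r' a b → r' b a) (hA : A' ⊆ A) (hB : B ⊆ A') (hH : H ⊆ A) (hne : H.Nonempty)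
    (hHc : ∀ a ∈ H, ∀ b ∈ H, rt A r' a b)
    (h1 : ∀ a ∈ A, ∀ b ∈ A, r' a b → (a ∈ A' ∧ b ∈ A' ∧ r a b) ∨ (a ∈ H ∧ b ∈ H))
    (h2 : ∀ a ∈ A', a ∈ H → ∃ b ∈ B, rt A' r a b) :
    ncl A' r + 1 ≤ ncl A r' + B.card := by
  classical
  obtain ⟨h0, hh0⟩ := hne
  have := ncl_finite (A := A) (r := r')
  let _ : Fintype (Quot (fun a b : {x // x ∈ A} => r' a.1 b.1)) := Fintype.ofFinite _
  set q0 : Quot (fun a b : {x // x ∈ A} => r' a.1 b.1) := Quot.mk _ ⟨h0, hH hh0⟩ with hq0
  set R : Finset β := ((univ.erase q0).image (fun q => (Quot.out q).1)).filter (· ∈ A') with hR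
  have hRc : R.card + 1 ≤ ncl A r' := by
    have e1 : R.card ≤ (univ.erase q0).card := (card_filter_le _ _).trans card_image_le
    rw [card_erase_of_mem (mem_univ _), card_univ] at e1
    have e2 : ncl A r' = Fintype.card (Quot (fun a b : {x // x ∈ A} => r' a.1 b.1)) := by
      rw [ncl, Nat.card_eq_fintype_card]
    have e3 : 0 < Fintype.card (Quot (fun a b : {x // x ∈ A} => r' a.1 b.1)) :=
      Fintype.card_pos_iff.mpr ⟨q0⟩
    omega
  have key : ncl A' r ≤ (R ∪ B).card := by
    apply ncl_le_reps hs (union_subset (fun x hx => (mem_filter.mp hx).2) hB)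
    intro a ha
    by_cases hq : Quot.mk (fun a b : {x // x ∈ A} => r' a.1 b.1) ⟨a, hA ha⟩ = q0
    · -- the class of the hub
      have hch : rt A r' a h0 := (quot_eq_iff hs' ⟨a, hA ha⟩ ⟨h0, hH hh0⟩).mp hq
      have claim : ∃ c ∈ A', c ∈ H ∧ rt A' r a c := by
        clear hq
        induction hch using Relation.ReflTransGen.head_induction_on with
        | refl => exact ⟨h0, ha, hh0, Relation.ReflTransGen.refl⟩
        | @head x y hab _ ih =>
          obtain ⟨hx, hy, hxy⟩ := hab
          rcases h1 x hx y hy hxy with ⟨c1, c2, c3⟩ | ⟨c1, _⟩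
          · obtain ⟨c, hc, hcH, hcc⟩ := ih c2
            exact ⟨c, hc, hcH, Relation.ReflTransGen.head ⟨c1, c2, c3⟩ hcc⟩
          · exact ⟨x, ha, c1, Relation.ReflTransGen.refl⟩
      obtain ⟨c, hc, hcH, hac⟩ := claim
      obtain ⟨b, hb, hcb⟩ := h2 c hc hcH
      exact ⟨b, mem_union_right _ hb, hac.trans hcb⟩
    · -- other classes
      set q := Quot.mk (fun a b : {x // x ∈ A} => r' a.1 b.1) ⟨a, hA ha⟩ with hqdef
      have hout : Quot.mk _ (Quot.out q) = q := Quot.out_eq q
      have hch : rt A r' a (Quot.out q).1 := (quot_eq_iff hs' ⟨a, hA ha⟩ (Quot.out q)).mp hout.symm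
      have claim : ∀ x o : β, rt A r' x o → x ∈ A' → (∀ hx : x ∈ A, Quot.mk (fun a b : {x // x ∈ A} => r' a.1 b.1)
          ⟨x, hx⟩ ≠ q0) → o ∈ A' ∧ rt A' r x o := by
        intro x o hxo
        induction hxo using Relation.ReflTransGen.head_induction_on with
        | refl => exact fun hx _ => ⟨hx, Relation.ReflTransGen.refl⟩
        | @head x y hab _ ih =>
          intro hx' hne'
          obtain ⟨hx, hy, hxy⟩ := hab
          rcases h1 x hx y hy hxy with ⟨c1, c2, c3⟩ | ⟨c1, _⟩
          · obtain ⟨d1, d2⟩ := ih c2 (fun hy' hcon => hne' hx (by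
              rw [← hcon]
              exact Quot.sound hxy))
            exact ⟨d1, Relation.ReflTransGen.head ⟨c1, c2, c3⟩ d2⟩
          · exfalso
            exact hne' hx ((quot_eq_iff hs' ⟨x, hx⟩ ⟨h0, hH hh0⟩).mpr (hHc x c1 h0 hh0))
      obtain ⟨d1, d2⟩ := claim a _ hch ha (fun _ => hq)
      refine ⟨(Quot.out q).1, mem_union_left _ ?_, d2⟩
      exact mem_filter.mpr ⟨mem_image.mpr ⟨q, mem_erase.mpr ⟨hq, mem_univ _⟩, rfl⟩, d1⟩
  have := card_union_le R B
  omega

/-- representatives of all classes -/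
theorem exists_reps {A : Finset β} {r : β → β → Prop} (hs : ∀ a b, r a b → r b a) :
    ∃ B ⊆ A, B.card ≤ ncl A r ∧ ∀ a ∈ A, ∃ b ∈ B, rt A r a b := by
  classical
  have := ncl_finite (A := A) (r := r)
  let _ : Fintype (Quot (fun a b : {x // x ∈ A} => r a.1 b.1)) := Fintype.ofFinite _
  refine ⟨(univ : Finset (Quot (fun a b : {x // x ∈ A} => r a.1 b.1))).image (fun q => (Quot.out q).1),
    ?_, ?_, ?_⟩
  · intro x hx
    obtain ⟨q, _, rfl⟩ := mem_image.mp hx
    exact (Quot.out q).2
  · rw [ncl, Nat.card_eq_fintype_card, ← card_univ]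
    exact card_image_le
  · intro a ha
    refine ⟨_, mem_image.mpr ⟨Quot.mk _ ⟨a, ha⟩, mem_univ _, rfl⟩, ?_⟩
    exact (quot_eq_iff hs ⟨a, ha⟩ _).mp (Quot.out_eq _).symm

variable {α : Type*} [DecidableEq α]

theorem eadj_symm (s t : Finset α) (h : EAdj s t) : EAdj t s := by
  unfold EAdj at *
  rwa [inter_comm]

theorem eadj_of_sub {s t e : Finset α} (hs : s.card = 3) (ht : t.card = 3) (he : e.card = 2)
    (h1 : e ⊆ s) (h2 : e ⊆ t) (hne : s ≠ t) : EAdj s t := by
  unfold EAdj
  have h3 : e ⊆ s ∩ t := subset_inter h1 h2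
  have h4 := card_le_card h3
  have h5 : (s ∩ t).card ≤ 3 := hs ▸ card_le_card inter_subset_left
  have h6 : (s ∩ t).card ≠ 3 := by
    intro h
    have e1 : s ∩ t = s := eq_of_subset_of_card_le inter_subset_left (by omega)
    have e2 : s ∩ t = t := eq_of_subset_of_card_le inter_subset_right (by omega)
    exact hne (e1.symm.trans e2)
  omega

/-- removing a triple -/
theorem ncl_erase_le {A : Finset (Finset α)} (hA : ∀ s ∈ A, s.card = 3) {s : Finset α} (hs : s ∈ A)
    (P : Finset (Finset α)) (hP : P ⊆ s.powersetCard 2)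
    (h : ∀ t ∈ A, EAdj s t → s ∩ t ∈ P) :
    ncl (A.erase s) EAdj + 1 ≤ ncl A EAdj + P.card := by
  classical
  set P' := P.filter (fun e => ∃ t ∈ A.erase s, e ⊆ t) with hP'
  have hch : ∀ e ∈ P', ∃ t ∈ A.erase s, e ⊆ t := fun e he => (mem_filter.mp he).2
  choose! g hg1 hg2 using hch
  have hle : (P'.image g).card ≤ P.card := card_image_le.trans (card_filter_le _ _)
  refine le_trans (ncl_hub (A := A) (A' := A.erase s) (B := P'.image g)
    (H := insert s (A.filter (fun t => EAdj s t))) eadj_symm eadj_symm (erase_subset _ _) ?_ ?_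
    ⟨s, mem_insert_self _ _⟩ ?_ ?_ ?_) (by omega)
  · intro t ht
    obtain ⟨e, he, rfl⟩ := mem_image.mp ht
    exact hg1 e he
  · exact insert_subset hs (filter_subset _ _)
  · have hs1 : ∀ a ∈ insert s (A.filter (fun t => EAdj s t)), rt A EAdj s a := by
      intro a ha
      rcases mem_insert.mp ha with rfl | ha
      · exact Relation.ReflTransGen.refl
      · obtain ⟨h3, h4⟩ := mem_filter.mp ha
        exact Relation.ReflTransGen.single ⟨hs, h3, h4⟩
    intro a ha b hb
    exact (rtg_symm (fun u v huv => ⟨huv.2.1, huv.1, eadj_symm _ _ huv.2.2⟩) (hs1 a ha)).trans (hs1 b hb)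
  · intro a ha b hb hab
    by_cases h3 : a = s
    · right
      subst h3
      exact ⟨mem_insert_self _ _, mem_insert_of_mem (mem_filter.mpr ⟨hb, hab⟩)⟩
    · by_cases h4 : b = s
      · right
        subst h4
        exact ⟨mem_insert_of_mem (mem_filter.mpr ⟨ha, eadj_symm _ _ hab⟩), mem_insert_self _ _⟩
      · exact Or.inl ⟨mem_erase.mpr ⟨h3, ha⟩, mem_erase.mpr ⟨h4, hb⟩, hab⟩
  · intro a ha haH
    have h3 : a ≠ s := (mem_erase.mp ha).1
    rcases mem_insert.mp haH with h4 | h4
    · exact absurd h4 h3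
    · obtain ⟨haA, hsa⟩ := mem_filter.mp h4
      have heP := h a haA hsa
      have heP' : s ∩ a ∈ P' := mem_filter.mpr ⟨heP, a, ha, inter_subset_right⟩
      refine ⟨g (s ∩ a), mem_image_of_mem _ heP', ?_⟩
      by_cases h5 : a = g (s ∩ a)
      · rw [← h5]
      · have hgm := hg1 _ heP'
        exact Relation.ReflTransGen.single ⟨ha, hgm, eadj_of_sub (hA a haA)
          (hA _ (mem_of_mem_erase hgm)) hsa inter_subset_right (hg2 _ heP') h5⟩

theorem b0_erase {Z : Finset (Finset α)} (hZ : IsFam Z) {s : Finset α} (hs : s ∈ Z) :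
    b0 (Z.erase s) ≤ b0 Z + 2 := by
  have h := ncl_erase_le hZ hs (s.powersetCard 2) (Subset.refl _) (fun t ht hst => by
    rw [mem_powersetCard]
    exact ⟨inter_subset_left, hst⟩)
  rw [card_powersetCard, hZ s hs] at h
  have h3 : Nat.choose 3 2 = 3 := rfl
  rw [h3] at h
  unfold b0
  omega

theorem pairs_at {s : Finset α} (hs : s.card = 3) {x : α} (hx : x ∈ s) :
    ((s.powersetCard 2).filter (fun e => x ∈ e)).card = 2 := by
  have h1 : (s.powersetCard 2).filter (fun e => x ∈ e) = (s.erase x).image (fun y => {x, y}) := by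
    ext e
    simp only [mem_filter, mem_powersetCard, mem_image, mem_erase]
    constructor
    · rintro ⟨⟨h1, h2⟩, h3⟩
      obtain ⟨y, hy⟩ := card_eq_one.mp (show (e.erase x).card = 1 by rw [card_erase_of_mem h3, h2])
      have hye : y ∈ e.erase x := by rw [hy]; exact mem_singleton_self _
      refine ⟨y, ⟨(mem_erase.mp hye).1, h1 (mem_erase.mp hye).2⟩, ?_⟩
      rw [← insert_erase h3, hy]
    · rintro ⟨y, ⟨h1, h2⟩, rfl⟩
      refine ⟨⟨?_, card_pair (Ne.symm h1)⟩, mem_insert_self _ _⟩
      intro z hz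
      simp only [mem_insert, mem_singleton] at hz
      rcases hz with rfl | rfl
      · exact hx
      · exact h2
  rw [h1, card_image_of_injOn, card_erase_of_mem hx, hs]
  intro y hy z hz hyz
  simp only [coe_erase, Set.mem_sdiff, Set.mem_singleton_iff, mem_coe] at hy hz
  simp only at hyz
  have : y ∈ ({x, z} : Finset α) := by rw [← hyz]; simp
  simp only [mem_insert, mem_singleton] at this
  rcases this with h | h
  · exact absurd h hy.2
  · exact h

theorem kap_erase {Z : Finset (Finset α)} (hZ : IsFam Z) {s : Finset α} (hs : s ∈ Z) (x : α) :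
    kap (Z.erase s) x ≤ kap Z x + (if x ∈ s then 1 else 0) := by
  unfold kap
  by_cases hx : x ∈ s
  · have h1 : star (Z.erase s) x = (star Z x).erase s := by
      ext t
      simp only [star, mem_filter, mem_erase]
      tauto
    have hsx : s ∈ star Z x := mem_filter.mpr ⟨hs, hx⟩
    have h := ncl_erase_le (A := star Z x) (fun t ht => hZ t (mem_filter.mp ht).1) hsx
      ((s.powersetCard 2).filter (fun e => x ∈ e)) (filter_subset _ _) (fun t ht hst => by
        rw [mem_filter, mem_powersetCard]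
        exact ⟨⟨inter_subset_left, hst⟩, mem_inter.mpr ⟨hx, (mem_filter.mp ht).2⟩⟩)
    rw [pairs_at (hZ s hs) hx] at h
    rw [if_pos hx, h1]
    omega
  · have h1 : star (Z.erase s) x = star Z x := by
      ext t
      simp only [star, mem_filter, mem_erase]
      constructor
      · rintro ⟨⟨_, h2⟩, h3⟩; exact ⟨h2, h3⟩
      · rintro ⟨h2, h3⟩
        refine ⟨⟨?_, h2⟩, h3⟩
        rintro rfl
        exact hx h3
    rw [if_neg hx, h1, add_zero]

/-- removing several triples -/
theorem sdiff_le {Z : Finset (Finset α)} (hZ : IsFam Z) (D : Finset (Finset α)) (hD : D ⊆ Z) :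
    b0 (Z \ D) ≤ b0 Z + 2 * D.card ∧ ∀ x, kap (Z \ D) x ≤ kap Z x + (star D x).card := by
  induction D using Finset.induction_on with
  | empty => simp [star]
  | insert s D hs ih =>
    obtain ⟨h1, h2⟩ := ih ((subset_insert _ _).trans hD)
    have hsZ : s ∈ Z \ D := mem_sdiff.mpr ⟨hD (mem_insert_self _ _), hs⟩
    have hF : IsFam (Z \ D) := fun t ht => hZ t (mem_sdiff.mp ht).1
    have h3 : Z \ insert s D = (Z \ D).erase s := by
      ext t
      simp only [mem_sdiff, mem_insert, mem_erase]
      tauto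
    rw [h3]
    constructor
    · have := b0_erase hF hsZ
      rw [card_insert_of_notMem hs]
      omega
    · intro x
      have h4 := kap_erase hF hsZ x
      have h5 : (star (insert s D) x).card = (star D x).card + (if x ∈ s then 1 else 0) := by
        unfold star
        rw [filter_insert]
        split_ifs with hx
        · rw [card_insert_of_notMem (fun h => hs (mem_filter.mp h).1)]
        · rw [add_zero]
      rw [h5]
      have := h2 x
      omega

/-- dual components of a connected family -/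
theorem b0_le {Z : Finset (Finset α)} (hc : Conn Z) (hne : Z.Nonempty) :
    b0 Z ≤ 1 + ∑ x ∈ verts Z, (kap Z x - 1) := by
  classical
  have key : ∀ U : Finset α, U ⊆ verts Z →
      ncl Z EAdj ≤ ncl Z (fun s t => EAdj s t ∨ ∃ x ∈ U, x ∈ s ∧ x ∈ t) + ∑ x ∈ U, (kap Z x - 1) := by
    intro U
    induction U using Finset.induction_on with
    | empty => intro _; simp
    | insert x U hx ih =>
      intro hU
      have h1 := ih ((subset_insert _ _).trans hU)
      have hxv : x ∈ verts Z := hU (mem_insert_self _ _)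
      have hk := kap_pos hxv
      obtain ⟨s0, hs0, hxs0⟩ := mem_verts.mp hxv
      obtain ⟨B, hB, hBc, hBr⟩ := exists_reps (A := star Z x) (r := EAdj) eadj_symm
      have h2 : ncl Z (fun s t => EAdj s t ∨ ∃ x ∈ U, x ∈ s ∧ x ∈ t) + 1 ≤
          ncl Z (fun s t => EAdj s t ∨ ∃ y ∈ insert x U, y ∈ s ∧ y ∈ t) + B.card := by
        apply ncl_hub (H := star Z x)
        · rintro a b (h | ⟨y, hy, h3, h4⟩)
          · exact Or.inl (eadj_symm _ _ h)
          · exact Or.inr ⟨y, hy, h4, h3⟩
        · rintro a b (h | ⟨y, hy, h3, h4⟩)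
          · exact Or.inl (eadj_symm _ _ h)
          · exact Or.inr ⟨y, hy, h4, h3⟩
        · exact Subset.refl _
        · exact hB.trans (filter_subset _ _)
        · exact filter_subset _ _
        · exact ⟨s0, mem_filter.mpr ⟨hs0, hxs0⟩⟩
        · intro a ha b hb
          obtain ⟨ha1, ha2⟩ := mem_filter.mp ha
          obtain ⟨hb1, hb2⟩ := mem_filter.mp hb
          exact Relation.ReflTransGen.single ⟨ha1, hb1, Or.inr ⟨x, mem_insert_self _ _, ha2, hb2⟩⟩
        · rintro a ha b hb (h | ⟨y, hy, h3, h4⟩)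
          · exact Or.inl ⟨ha, hb, Or.inl h⟩
          · rcases mem_insert.mp hy with rfl | hy
            · exact Or.inr ⟨mem_filter.mpr ⟨ha, h3⟩, mem_filter.mpr ⟨hb, h4⟩⟩
            · exact Or.inl ⟨ha, hb, Or.inr ⟨y, hy, h3, h4⟩⟩
        · intro a _ haH
          obtain ⟨b, hb, hab⟩ := hBr a haH
          refine ⟨b, hb, ?_⟩
          exact Relation.ReflTransGen.mono (fun u v huv => ⟨(mem_filter.mp huv.1).1,
            (mem_filter.mp huv.2.1).1, Or.inl huv.2.2⟩) _ _ hab
      rw [sum_insert hx]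
      have hkk : ncl (star Z x) EAdj = kap Z x := rfl
      rw [hkk] at hBc
      omega
  have h1 := key (verts Z) (Subset.refl _)
  have h2 : ncl Z (fun s t => EAdj s t ∨ ∃ x ∈ verts Z, x ∈ s ∧ x ∈ t) = 1 := by
    rw [ncl_eq_one_iff _ hne]
    · intro a ha b hb
      refine Relation.ReflTransGen.mono ?_ _ _ (hc a ha b hb)
      rintro u v ⟨hu, hv, x, hx⟩
      obtain ⟨h3, h4⟩ := mem_inter.mp hx
      exact ⟨hu, hv, Or.inr ⟨x, mem_verts.mpr ⟨u, hu, h3⟩, h3, h4⟩⟩
    · rintro a b (h | ⟨y, hy, h3, h4⟩)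
      · exact Or.inl (eadj_symm _ _ h)
      · exact Or.inr ⟨y, hy, h4, h3⟩
  unfold b0
  omega

theorem kapC_empty {α : Type} [DecidableEq α] (Z : Finset (Finset α)) (x : α) : kapC Z ∅ x = kap Z x := by
  unfold kapC kap CAdj EAdj
  congr 1
  funext s t
  simp

theorem nclC_empty {α : Type} [DecidableEq α] (Z : Finset (Finset α)) : ncl Z (CAdj ∅) = b0 Z := by
  unfold b0 CAdj EAdj
  congr 1
  funext s t
  simp

theorem card_verts_le (D : Finset (Finset α)) (hD : IsFam D) : (verts D).card ≤ 3 * D.card := by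
  unfold verts
  refine (card_biUnion_le).trans ?_
  rw [mul_comm, ← smul_eq_mul, ← sum_const]
  exact sum_le_sum fun s hs => (hD s hs).le

theorem sum_star_le (D : Finset (Finset α)) (hD : IsFam D) (U : Finset α) :
    ∑ x ∈ U, (star D x).card ≤ 3 * D.card := by
  rw [← sum_star hD]
  calc ∑ x ∈ U, (star D x).card = ∑ x ∈ U ∩ verts D, (star D x).card := by
        symm
        apply sum_subset inter_subset_left
        intro x hx hx'
        rw [card_eq_zero, star, filter_eq_empty_iff]
        intro s hs hxs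
        exact hx' (mem_inter.mpr ⟨hx, mem_verts.mpr ⟨s, hs, hxs⟩⟩)
    _ ≤ _ := sum_le_sum_of_subset inter_subset_right

end Reg

open Reg in
/-- 9.5 regularisation -/
theorem regularize {α : Type} [DecidableEq α] {Z : Finset (Finset α)} (hZ : IsFam Z) (hc : Conn Z)
    (hne : Z.Nonempty) (k : ℕ) (hk : compl Z ≤ k) :
    ∃ (β : Type) (_ : DecidableEq β) (S : Finset (Finset β)), IsSurf S ∧ Enc Z S (25 * k) ∧
      S.card ≤ Z.card + 9 * k ∧ b0 S ≤ 1 + 16 * k ∧ Ph2 Z - 28 * k ≤ Ph2 S := by
  classical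
  set c := ∑ e ∈ edgs Z, edef Z e with hcdef
  set c' := ∑ x ∈ verts Z, (kap Z x - 1) with hc'def
  have hcc : c + c' ≤ k := hk
  set Bad := (edgs Z).filter (fun e => edeg Z e ≠ 2) with hBad
  set Del := Z.filter (fun s => ∃ e ∈ Bad, e ⊆ s) with hDel
  have hDelZ : Del ⊆ Z := filter_subset _ _
  have hDelF : IsFam Del := fun s hs => hZ s (hDelZ hs)
  have hDelc : Del.card ≤ 3 * c := by
    have e1 : Del ⊆ Bad.biUnion (fun e => Z.filter (fun s => e ⊆ s)) := by
      intro s hs
      obtain ⟨h1, e, h2, h3⟩ := mem_filter.mp hs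
      exact mem_biUnion.mpr ⟨e, h2, mem_filter.mpr ⟨h1, h3⟩⟩
    calc Del.card ≤ _ := card_le_card e1
      _ ≤ ∑ e ∈ Bad, edeg Z e := card_biUnion_le
      _ ≤ ∑ e ∈ Bad, 3 * edef Z e := by
          apply sum_le_sum
          intro e he
          obtain ⟨h1, h2⟩ := mem_filter.mp he
          have h3 : 0 < edeg Z e := edeg_pos.mpr (mem_edgs.mp h1).2
          unfold edef
          omega
      _ ≤ ∑ e ∈ edgs Z, 3 * edef Z e := sum_le_sum_of_subset (filter_subset _ _)
      _ = 3 * c := by rw [hcdef, mul_sum]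
  set Z1 := Z \ Del with hZ1
  have hZ1Z : Z1 ⊆ Z := sdiff_subset
  have hZ1F : IsFam Z1 := fun s hs => hZ s (hZ1Z hs)
  have hdeg : ∀ e : Finset α, e.card = 2 → 0 < edeg Z1 e → edeg Z e = 2 := by
    intro e he h1
    obtain ⟨s, hs, hes⟩ := edeg_pos.mp h1
    by_contra hcon
    have h2 : e ∈ Bad := mem_filter.mpr ⟨mem_edgs.mpr ⟨he, s, hZ1Z hs, hes⟩, hcon⟩
    exact (mem_sdiff.mp hs).2 (mem_filter.mpr ⟨hZ1Z hs, e, h2, hes⟩)
  have hd : ∀ e, edeg Z1 e ≤ 2 ∨ e.card ≠ 2 := by
    intro e
    by_cases he : e.card = 2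
    · left
      rcases Nat.eq_zero_or_pos (edeg Z1 e) with h0 | h0
      · omega
      · have h1 := hdeg e he h0
        have h2 := edeg_mono hZ1Z e
        omega
    · exact Or.inr he
  obtain ⟨X⟩ := exists_cutcap Z1 ∅ hZ1F hd (by simp) (by
    intro s _ t _ _ h
    simp at h)
  let _ : DecidableEq X.β := X.dec
  -- free sides
  have hfree : (freeS Z1 ∅).card ≤ 9 * c := by
    have h1 : (freeS Z1 ∅).card ≤ (Del.biUnion (fun s => s.powersetCard 2)).card := by
      apply card_le_card_of_injOn (fun q => q.2)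
      · rintro ⟨s, e⟩ hq
        have hq' := mem_filter.mp (mem_coe.mp hq)
        obtain ⟨h1, h2, h3⟩ := hq'
        simp only [notMem_empty, false_or] at h3
        obtain ⟨hs, he⟩ := mem_product.mp h1
        simp only at hs he h2 h3
        have he2 := (mem_edgs.mp he).1
        have h4 := hdeg e he2 (by omega)
        have h5 : ∃ t ∈ Z.filter (fun s => e ⊆ s), t ∉ Z1.filter (fun s => e ⊆ s) := by
          by_contra hcon
          push Not at hcon
          have h6 : Z.filter (fun s => e ⊆ s) ⊆ Z1.filter (fun s => e ⊆ s) := hcon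
          have h7 := card_le_card h6
          unfold edeg at h3 h4
          omega
        obtain ⟨t, ht, ht'⟩ := h5
        obtain ⟨ht1, ht2⟩ := mem_filter.mp ht
        have ht3 : t ∈ Del := by
          by_contra hcon
          exact ht' (mem_filter.mpr ⟨mem_sdiff.mpr ⟨ht1, hcon⟩, ht2⟩)
        rw [mem_coe, mem_biUnion]
        exact ⟨t, ht3, mem_powersetCard.mpr ⟨ht2, he2⟩⟩
      · rintro ⟨s, e⟩ hq ⟨s', e'⟩ hq' hee
        simp only at hee
        subst hee
        obtain ⟨h1, h2, h3⟩ := mem_filter.mp (mem_coe.mp hq)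
        obtain ⟨h1', h2', _⟩ := mem_filter.mp (mem_coe.mp hq')
        simp only [notMem_empty, false_or] at h3
        obtain ⟨hs, _⟩ := mem_product.mp h1
        obtain ⟨hs', _⟩ := mem_product.mp h1'
        simp only at hs hs' h2 h2' h3
        unfold edeg at h3
        obtain ⟨t, ht⟩ := card_eq_one.mp h3
        have e1 : s ∈ Z1.filter (fun s => e ⊆ s) := mem_filter.mpr ⟨hs, h2⟩
        have e2 : s' ∈ Z1.filter (fun s => e ⊆ s) := mem_filter.mpr ⟨hs', h2'⟩
        rw [ht, mem_singleton] at e1 e2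
        rw [e1, e2]
    have h2 : (Del.biUnion (fun s => s.powersetCard 2)).card ≤ 3 * Del.card := by
      refine card_biUnion_le.trans ?_
      rw [mul_comm, ← smul_eq_mul, ← sum_const]
      apply sum_le_sum
      intro s hs
      rw [card_powersetCard, hDelF s hs]
      exact le_rfl
    omega
  have hvD : (verts Z \ verts Z1).card ≤ 9 * c := by
    have h1 : verts Z \ verts Z1 ⊆ verts Del := by
      intro x hx
      obtain ⟨h1, h2⟩ := mem_sdiff.mp hx
      obtain ⟨s, hs, hxs⟩ := mem_verts.mp h1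
      refine mem_verts.mpr ⟨s, ?_, hxs⟩
      by_contra hcon
      exact h2 (mem_verts.mpr ⟨s, mem_sdiff.mpr ⟨hs, hcon⟩, hxs⟩)
    have := (card_le_card h1).trans (card_verts_le Del hDelF)
    omega
  obtain ⟨hb, hkap⟩ := sdiff_le hZ Del hDelZ
  have hsumk : ∑ x ∈ verts Z1, (kap Z1 x - 1) ≤ c' + 9 * c := by
    calc ∑ x ∈ verts Z1, (kap Z1 x - 1) ≤ ∑ x ∈ verts Z1, ((kap Z x - 1) + (star Del x).card) := by
          apply sum_le_sum
          intro x hx
          have h1 := hkap x
          have h2 := kap_pos (verts_mono hZ1Z hx)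
          rw [← hZ1] at h1
          omega
      _ = ∑ x ∈ verts Z1, (kap Z x - 1) + ∑ x ∈ verts Z1, (star Del x).card := sum_add_distrib
      _ ≤ c' + 9 * c := by
          have h1 : ∑ x ∈ verts Z1, (kap Z x - 1) ≤ c' := sum_le_sum_of_subset (verts_mono hZ1Z)
          have h2 := sum_star_le Del hDelF (verts Z1)
          omega
  have hh := X.h_le
  refine ⟨X.β, X.dec, X.S, X.surf, ?_, ?_, ?_, ?_⟩
  · -- encoding
    have h1 : Enc Z1 X.S (c' + 12 * c) := by
      apply X.enc_le hZ1F
      simp only [kapC_empty]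
      omega
    have h2 : Enc Z Z1 (9 * c) := by
      refine ⟨some, verts Z1, Del, Subset.refl _, fun w hw => ⟨w, verts_mono hZ1Z hw, rfl⟩,
        (Option.some_injective α).injOn, ?_, ?_, by omega, ?_⟩
      · rw [sdiff_self]; simp
      · refine le_trans (card_le_card ?_) hvD
        intro x hx
        obtain ⟨h1, h2⟩ := mem_filter.mp hx
        exact mem_sdiff.mpr ⟨h1, fun h => h2 x h rfl⟩
      · intro s
        constructor
        · intro hs
          by_cases h : s ∈ Del
          · exact Or.inl h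
          · refine Or.inr ⟨s, mem_sdiff.mpr ⟨hs, h⟩, fun w _ => rfl, fun x => ?_⟩
            constructor
            · intro hx; exact ⟨x, hx, rfl⟩
            · rintro ⟨w, hw, h3⟩
              rw [← Option.some_injective α h3]; exact hw
        · rintro (h | ⟨t, ht, _, h⟩)
          · exact hDelZ h
          · have : s = t := by
              ext x
              rw [h x]
              constructor
              · rintro ⟨w, hw, h3⟩
                rw [← Option.some_injective α h3]; exact hw
              · intro hx; exact ⟨x, hx, rfl⟩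
            rw [this]; exact hZ1Z ht
    have h3 := h2.trans h1
    exact h3.mono (by omega)
  · have h1 := X.card_S
    have h2 := card_le_card hZ1Z
    omega
  · have h1 := X.b0_eq
    rw [nclC_empty] at h1
    have h2 := b0_le hc hne
    rw [h1]
    rw [← hZ1] at hb
    omega
  · have h1 := X.card_S
    have h2 := card_le_card hZ1Z
    have h3 := X.card_V
    simp only [kapC_empty] at h3
    have h4 : (verts Z1).card ≤ ∑ x ∈ verts Z1, kap Z1 x := by
      rw [card_eq_sum_ones]
      exact sum_le_sum fun x hx => kap_pos hx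
    have h5 : (verts Z).card ≤ (verts Z1).card + (verts Z \ verts Z1).card := by
      have := card_le_card (show verts Z ⊆ verts Z1 ∪ (verts Z \ verts Z1) by
        intro x hx
        by_cases h : x ∈ verts Z1
        · exact mem_union_left _ h
        · exact mem_union_right _ (mem_sdiff.mpr ⟨hx, h⟩))
      exact this.trans (card_union_le _ _)
    unfold Ph2
    omega

end Pool.Agent.SC
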