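import Mathlib
import Pool.Agent.Lib.MP_d0323d_co.Phase2
import Pool.Agent.Lib.MP_d0323d_co.Regularize
/-! Module EN (9.8): numerical assembly of the enumeration theorem (helper91). -/
set_option autoImplicit false
namespace Pool.Agent.SC

namespace ENNum
open Finset

theorem one_le_log {f : ℕ} (hf : 1 ≤ f) : 1 ≤ Real.log ((f : ℝ) + 2) := by
  rw [Real.le_log_iff_exp_le (by positivity)]
  have h1 := Real.exp_one_lt_d9
  have h2 : (1 : ℝ) ≤ f := by exact_mod_cast hf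
  linarith

theorem log_le (f : ℕ) : Real.log ((f : ℝ) + 2) ≤ (f : ℝ) + 2 := by
  have := Real.log_le_sub_one_of_pos (show (0 : ℝ) < (f : ℝ) + 2 by positivity)
  linarith

theorem exp_half_le {b : ℝ} (h0 : 0 ≤ b) (h1 : b ≤ 1) : Real.exp (b / 2) ≤ 1 + b := by
  have h2 : 1 - b / 2 ≤ Real.exp (-(b / 2)) := by
    have := Real.add_one_le_exp (-(b / 2))
    linarith
  have h3 : 0 < 1 - b / 2 := by linarith
  have h4 : Real.exp (b / 2) * Real.exp (-(b / 2)) = 1 := by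
    rw [← Real.exp_add]; simp
  have h5 : 0 < Real.exp (b / 2) := Real.exp_pos _
  have h6 : Real.exp (b / 2) * (1 - b / 2) ≤ 1 := by
    calc _ ≤ Real.exp (b / 2) * Real.exp (-(b / 2)) := mul_le_mul_of_nonneg_left h2 h5.le
      _ = 1 := h4
  have h7 : 1 ≤ (1 + b) * (1 - b / 2) := by nlinarith
  have h8 : Real.exp (b / 2) * (1 - b / 2) ≤ (1 + b) * (1 - b / 2) := h6.trans h7
  exact le_of_mul_le_mul_right h8 h3

theorem sq_le_three_pow (m : ℕ) : m * m ≤ 3 ^ m := by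
  induction m with
  | zero => simp
  | succ m ih =>
    rcases Nat.lt_or_ge m 2 with h | h
    · interval_cases m <;> norm_num
    · rw [pow_succ]
      nlinarith

/-- choice of the exponent -/
theorem exists_m (a b : ℝ) (ha : 0 ≤ a) (hb : 0 ≤ b) :
    ∃ m : ℕ, ∀ x : ℝ, 3 ≤ x → x ^ 3 * (a + b * m) < x ^ m := by
  obtain ⟨m, hm⟩ := exists_nat_gt (27 * (a + b) + 3)
  have hm0 : (3 : ℝ) < m := by
    nlinarith
  have hm3 : 3 ≤ m := by exact_mod_cast hm0.le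
  refine ⟨m, fun x hx => ?_⟩
  have h1 : 27 * (a + b * m) < (m : ℝ) * m := by
    have h2 : a ≤ a * m := by nlinarith
    nlinarith
  have h2 : ((m : ℝ) * m) ≤ 3 ^ m := by exact_mod_cast sq_le_three_pow m
  have h3 : x ^ m = x ^ 3 * x ^ (m - 3) := by
    rw [← pow_add]; congr 1; omega
  have h4 : (3 : ℝ) ^ m = 27 * 3 ^ (m - 3) := by
    have : (3 : ℝ) ^ m = 3 ^ 3 * 3 ^ (m - 3) := by
      rw [← pow_add]; congr 1; omega
    rw [this]; norm_num
  have h5 : (3 : ℝ) ^ (m - 3) ≤ x ^ (m - 3) := pow_le_pow_left₀ (by norm_num) hx _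
  rw [h3]
  apply mul_lt_mul_of_pos_left _ (by positivity)
  nlinarith

theorem exp_log_pow {x : ℝ} (hx : 0 < x) (m : ℕ) : Real.exp (m * Real.log x) = x ^ m := by
  rw [mul_comm, Real.exp_mul, Real.exp_log hx, Real.rpow_natCast]

/-- the radius and the growth rate -/
theorem radius {e : ℝ} (he : 0 < e) (he1 : e ≤ 1) (m : ℕ)
    (hm : ∀ x : ℝ, 3 ≤ x → x ^ 3 * (7879 + 4440 / e * m) < x ^ m)
    (f k B rho T : ℕ) (hf : 1 ≤ f) (hk : k ≤ 12 * f) (hB : B ≤ 555 * f)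
    (hrho : rho = ⌈2 * m * Real.log ((f : ℝ) + 2) ^ 2 / e⌉₊ + 2)
    (hT : T = f + 9 * k + 2 * (2 * rho + 1) * B) :
    (T : ℝ) < (1 + e / Real.log ((f : ℝ) + 2)) ^ (rho - 1) := by
  set x : ℝ := (f : ℝ) + 2 with hx
  set l : ℝ := Real.log x with hl
  have hf' : (1 : ℝ) ≤ f := by exact_mod_cast hf
  have hl1 : 1 ≤ l := one_le_log hf
  have hlx : l ≤ x := log_le f
  have hx3 : 3 ≤ x := by linarith
  have hx0 : 0 < x := by linarith
  set r : ℝ := 2 * m * l ^ 2 / e with hr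
  have hr0 : 0 ≤ r := by positivity
  have h1 : (⌈r⌉₊ : ℝ) < r + 1 := Nat.ceil_lt_add_one hr0
  have h2 : r ≤ (⌈r⌉₊ : ℝ) := Nat.le_ceil r
  have h3 : (rho : ℝ) = (⌈r⌉₊ : ℝ) + 2 := by rw [hrho]; push_cast; ring
  have h4 : ((rho - 1 : ℕ) : ℝ) = (⌈r⌉₊ : ℝ) + 1 := by
    rw [hrho]
    have : ⌈r⌉₊ + 2 - 1 = ⌈r⌉₊ + 1 := by omega
    rw [this]; push_cast; ring
  have hk' : (k : ℝ) ≤ 12 * f := by exact_mod_cast hk
  have hB' : (B : ℝ) ≤ 555 * f := by exact_mod_cast hB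
  have hB0 : (0 : ℝ) ≤ B := Nat.cast_nonneg _
  have h5 : (T : ℝ) = f + 9 * k + 2 * (2 * rho + 1) * B := by rw [hT]; push_cast; ring
  have h6 : (T : ℝ) ≤ f * (7879 + 2220 * r) := by
    rw [h5]
    have h7 : (2 * (2 * (rho : ℝ) + 1)) ≤ 4 * r + 14 := by rw [h3]; linarith
    have h8 : 2 * (2 * (rho : ℝ) + 1) * B ≤ (4 * r + 14) * (555 * f) :=
      mul_le_mul h7 hB' hB0 (by positivity)
    nlinarith
  have h7 : (7879 + 2220 * r) ≤ x ^ 2 * (7879 + 4440 / e * m) := by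
    have h8 : 2220 * r = l ^ 2 * (4440 / e * m) := by rw [hr]; ring
    rw [h8]
    have h9 : l ^ 2 ≤ x ^ 2 := pow_le_pow_left₀ (by linarith) hlx 2
    have h10 : 0 ≤ 4440 / e * m := by positivity
    have h11 : l ^ 2 * (4440 / e * m) ≤ x ^ 2 * (4440 / e * m) := mul_le_mul_of_nonneg_right h9 h10
    nlinarith
  have h8 : (T : ℝ) ≤ x ^ 3 * (7879 + 4440 / e * m) := by
    have h9 : (f : ℝ) ≤ x := by linarith
    calc (T : ℝ) ≤ f * (7879 + 2220 * r) := h6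
      _ ≤ x * (x ^ 2 * (7879 + 4440 / e * m)) := mul_le_mul h9 h7 (by positivity) (by linarith)
      _ = _ := by ring
  have hb0 : 0 ≤ e / l := by positivity
  have hb1 : e / l ≤ 1 := by
    rw [div_le_one (by linarith)]; linarith
  calc (T : ℝ) ≤ x ^ 3 * (7879 + 4440 / e * m) := h8
    _ < x ^ m := hm x hx3
    _ = Real.exp (m * l) := (exp_log_pow hx0 m).symm
    _ ≤ Real.exp (((rho - 1 : ℕ) : ℝ) * (e / l / 2)) := by
        apply Real.exp_le_exp.2
        rw [h4]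
        have h9 : (m : ℝ) * l = r * (e / l / 2) := by
          rw [hr]
          field_simp
        rw [h9]
        apply mul_le_mul_of_nonneg_right _ (by positivity)
        linarith
    _ = Real.exp (e / l / 2) ^ (rho - 1) := by rw [← Real.exp_nat_mul]
    _ ≤ (1 + e / l) ^ (rho - 1) := pow_le_pow_left₀ (Real.exp_pos _).le (exp_half_le hb0 hb1) _

/-- the middle term -/
theorem middle {K l F : ℝ} (hK : 1 ≤ K) (hl : 1 ≤ l) (hF : 0 ≤ F) (hFl : F ≤ Real.exp l) :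
    F * Real.log K / l ≤ F + K * Real.log K := by
  have hlK : 0 ≤ Real.log K := Real.log_nonneg hK
  rcases le_total (Real.log K) l with h | h
  · have h1 : F * Real.log K / l ≤ F := by
      rw [div_le_iff₀ (by linarith)]
      exact mul_le_mul_of_nonneg_left h hF
    nlinarith
  · have h1 : F ≤ K := hFl.trans ((Real.exp_le_exp.2 h).trans (Real.exp_log (by linarith)).le)
    have h2 : F * Real.log K / l ≤ F * Real.log K := by
      apply div_le_self (mul_nonneg hF hlK) hl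
    have h3 : F * Real.log K ≤ K * Real.log K := mul_le_mul_of_nonneg_right h1 hlK
    linarith

theorem est {C1 ε e K2 K3 l f v y q E : ℝ} (hC1 : 0 < C1) (hε : 0 < ε) (he : 0 < e)
    (he2 : 24 * C1 * e ≤ ε) (hK2 : 0 ≤ K2) (hK3p : 1 ≤ K3) (hl1 : 1 ≤ l) (hf : 0 ≤ f)
    (hfl : f ≤ Real.exp l) (hy1 : 1 ≤ y) (hE : 0 ≤ E) (hv : 0 ≤ v)
    (hqE : q + E ≤ 4 * e * f / l + y * l ^ 2 * K2)
    (hlog : Real.log (v + E + 2) ≤ Real.log K3 + 3 * l) :
    C1 * (q + E) * Real.log (v + E + 2) ≤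
      ε * f + (ε / 6 * (K3 * Real.log K3) + C1 * K2 * (Real.log K3 + 3)) * l ^ 3 * y := by
  have hlK3 : 0 ≤ Real.log K3 := Real.log_nonneg hK3p
  have hlog0 : 0 ≤ Real.log K3 + 3 * l := by linarith
  have hmid : f * Real.log K3 / l ≤ f + K3 * Real.log K3 :=
    middle hK3p hl1 hf hfl
  have hA : C1 * (q + E) * Real.log (v + E + 2) ≤
      C1 * (4 * e * f / l + y * l ^ 2 * K2) * (Real.log K3 + 3 * l) := by
    apply mul_le_mul _ hlog _ (by positivity)
    · exact mul_le_mul_of_nonneg_left hqE hC1.le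
    · apply Real.log_nonneg
      linarith
  have hB' : C1 * (4 * e * f / l + y * l ^ 2 * K2) * (Real.log K3 + 3 * l) =
      (4 * C1 * e) * (f * Real.log K3 / l) + 12 * C1 * e * f +
        C1 * K2 * y * (l ^ 2 * Real.log K3 + 3 * l ^ 3) := by
    field_simp
    ring
  have h1 : (4 * C1 * e) * (f * Real.log K3 / l) ≤ ε / 6 * (f + K3 * Real.log K3) := by
    apply mul_le_mul _ hmid (by positivity) (by positivity)
    linarith
  have h2 : 12 * C1 * e * f ≤ ε / 2 * f := by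
    apply mul_le_mul_of_nonneg_right _ (by positivity)
    linarith
  have hl3 : l ^ 2 ≤ l ^ 3 := pow_le_pow_right₀ hl1 (by norm_num)
  have h3 : C1 * K2 * y * (l ^ 2 * Real.log K3 + 3 * l ^ 3) ≤
      C1 * K2 * (Real.log K3 + 3) * l ^ 3 * y := by
    have h4 : l ^ 2 * Real.log K3 + 3 * l ^ 3 ≤ (Real.log K3 + 3) * l ^ 3 := by
      have : l ^ 2 * Real.log K3 ≤ l ^ 3 * Real.log K3 := mul_le_mul_of_nonneg_right hl3 hlK3
      linarith
    calc C1 * K2 * y * (l ^ 2 * Real.log K3 + 3 * l ^ 3)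
        ≤ C1 * K2 * y * ((Real.log K3 + 3) * l ^ 3) := mul_le_mul_of_nonneg_left h4 (by positivity)
      _ = _ := by ring
  have h4 : ε / 6 * (K3 * Real.log K3) ≤ ε / 6 * (K3 * Real.log K3) * l ^ 3 * y := by
    have h5 : 1 ≤ l ^ 3 * y := by
      exact one_le_mul_of_one_le_of_one_le (one_le_pow₀ hl1) hy1
    have h6 : 0 ≤ ε / 6 * (K3 * Real.log K3) := by positivity
    calc ε / 6 * (K3 * Real.log K3) = ε / 6 * (K3 * Real.log K3) * 1 := (mul_one _).symm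
      _ ≤ ε / 6 * (K3 * Real.log K3) * (l ^ 3 * y) := mul_le_mul_of_nonneg_left h5 h6
      _ = _ := by ring
  have h5 : 0 ≤ ε * f := by positivity
  have h6 : ε / 6 * (f + K3 * Real.log K3) = ε / 6 * f + ε / 6 * (K3 * Real.log K3) := by ring
  have h7 : (ε / 6 * (K3 * Real.log K3) + C1 * K2 * (Real.log K3 + 3)) * l ^ 3 * y =
      ε / 6 * (K3 * Real.log K3) * l ^ 3 * y + C1 * K2 * (Real.log K3 + 3) * l ^ 3 * y := by ring
  rw [hB'] at hA
  rw [h7]
  linarith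

theorem core {C1 ε : ℝ} (hC1 : 0 < C1) (hε : 0 < ε) : ∃ C : ℝ, 0 < C ∧
    ∀ v f k : ℕ, 1 ≤ f → v ≤ 3 * f → k ≤ 12 * f →
    ∃ (rho q E B T : ℕ) (beta : ℝ), 0 < beta ∧ 1 ≤ q ∧ 1 ≤ E ∧ B = 2 + 46 * k + (f - 2 * v) ∧
      T = f + 9 * k + 2 * (2 * rho + 1) * B ∧ (T : ℝ) < (1 + beta) ^ (rho - 1) ∧
      1 + 16 * (k : ℝ) + beta * T ≤ q ∧
      25 * (k : ℝ) + B * (2 * (2 * rho + 1) + 2) + 3 * beta * T ≤ E ∧
      C1 * ((q : ℝ) + E) * Real.log ((v : ℝ) + E + 2) ≤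
        ε * f + C * Real.log ((f : ℝ) + 2) ^ 3 * ((k : ℝ) + 1 + max 0 ((f : ℝ) / 2 - v)) := by
  obtain ⟨e, he_def⟩ : ∃ e : ℝ, e = min 1 (ε / (24 * C1)) := ⟨_, rfl⟩
  have he : 0 < e := by rw [he_def]; exact lt_min one_pos (by positivity)
  have he1 : e ≤ 1 := by rw [he_def]; exact min_le_left _ _
  have he2 : 24 * C1 * e ≤ ε := by
    have : e ≤ ε / (24 * C1) := by rw [he_def]; exact min_le_right _ _
    calc 24 * C1 * e ≤ 24 * C1 * (ε / (24 * C1)) := mul_le_mul_of_nonneg_left this (by positivity)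
      _ = ε := by field_simp
  obtain ⟨m, hm⟩ := exists_m 7879 (4440 / e) (by norm_num) (by positivity)
  obtain ⟨K2, hK2⟩ : ∃ K2 : ℝ, K2 = 172 + 460 * (4 * m / e + 7) := ⟨_, rfl⟩
  have hK2p : 172 ≤ K2 := by
    have : 0 ≤ 4 * (m : ℝ) / e := by positivity
    rw [hK2]; linarith
  obtain ⟨K3, hK3⟩ : ∃ K3 : ℝ, K3 = 9 + 14 * K2 := ⟨_, rfl⟩
  have hK3p : 1 ≤ K3 := by rw [hK3]; linarith
  have hlK3 : 0 ≤ Real.log K3 := Real.log_nonneg hK3p
  refine ⟨ε / 6 * (K3 * Real.log K3) + C1 * K2 * (Real.log K3 + 3), by positivity, ?_⟩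
  intro v f k hf hv hk
  have hl1 := one_le_log hf
  have hlx := log_le f
  have hrad := fun k B rho T => radius he he1 m hm f k B rho T hf
  obtain ⟨x, hx⟩ : ∃ x : ℝ, x = (f : ℝ) + 2 := ⟨_, rfl⟩
  rw [← hx] at hl1 hlx
  simp only [← hx] at hrad ⊢
  obtain ⟨l, hl⟩ : ∃ l : ℝ, l = Real.log x := ⟨_, rfl⟩
  simp only [← hl] at hl1 hlx hrad ⊢
  have hf' : (1 : ℝ) ≤ f := by exact_mod_cast hf
  have hx3 : 3 ≤ x := by linarith
  have hx0 : 0 < x := by linarith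
  obtain ⟨rho, hrho⟩ : ∃ rho : ℕ, rho = ⌈2 * m * l ^ 2 / e⌉₊ + 2 := ⟨_, rfl⟩
  obtain ⟨B, hB⟩ : ∃ B : ℕ, B = 2 + 46 * k + (f - 2 * v) := ⟨_, rfl⟩
  obtain ⟨T, hT⟩ : ∃ T : ℕ, T = f + 9 * k + 2 * (2 * rho + 1) * B := ⟨_, rfl⟩
  obtain ⟨beta, hbeta⟩ : ∃ beta : ℝ, beta = e / l := ⟨_, rfl⟩
  have hb0 : 0 < beta := by rw [hbeta]; exact div_pos he (by linarith)
  have hb1 : beta ≤ 1 := by
    rw [hbeta, div_le_one (by linarith)]; linarith
  obtain ⟨q, hq⟩ : ∃ q : ℕ, q = ⌈1 + 16 * (k : ℝ) + beta * T⌉₊ := ⟨_, rfl⟩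
  obtain ⟨E, hE⟩ : ∃ E : ℕ, E = ⌈25 * (k : ℝ) + B * (2 * (2 * rho + 1) + 2) + 3 * beta * T⌉₊ :=
    ⟨_, rfl⟩
  have hB555 : B ≤ 555 * f := by omega
  have hBT := hrad k B rho T hk hB555 hrho hT
  rw [← hbeta] at hBT
  have hT0 : (0 : ℝ) ≤ beta * T := by positivity
  have hB2 : (2 : ℝ) ≤ B := by
    have : 2 ≤ B := by omega
    exact_mod_cast this
  have hq1 : 1 + 16 * (k : ℝ) + beta * T ≤ q := by rw [hq]; exact Nat.le_ceil _
  have hE1 : 25 * (k : ℝ) + B * (2 * (2 * rho + 1) + 2) + 3 * beta * T ≤ E := by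
    rw [hE]; exact Nat.le_ceil _
  have hq2 : (q : ℝ) < 1 + 16 * (k : ℝ) + beta * T + 1 := by
    rw [hq]; exact Nat.ceil_lt_add_one (by positivity)
  have hE2 : (E : ℝ) < 25 * (k : ℝ) + B * (2 * (2 * rho + 1) + 2) + 3 * beta * T + 1 := by
    rw [hE]; exact Nat.ceil_lt_add_one (by positivity)
  refine ⟨rho, q, E, B, T, beta, hb0, ?_, ?_, hB, hT, hBT, hq1, hE1, ?_⟩
  · have : (1 : ℝ) ≤ q := by
      have : (0 : ℝ) ≤ k := Nat.cast_nonneg _
      linarith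
    exact_mod_cast this
  · have : (1 : ℝ) ≤ E := by
      have h1 : (0 : ℝ) ≤ k := Nat.cast_nonneg _
      have h2 : (0 : ℝ) ≤ rho := Nat.cast_nonneg _
      have h3 : (2 : ℝ) * 1 ≤ B * (2 * (2 * rho + 1) + 2) :=
        mul_le_mul hB2 (by linarith) (by norm_num) (by linarith)
      linarith
    exact_mod_cast this
  -- the main estimate
  obtain ⟨mu, hmu⟩ : ∃ mu : ℝ, mu = max 0 ((f : ℝ) / 2 - v) := ⟨_, rfl⟩
  rw [← hmu]
  have hmu0 : 0 ≤ mu := by rw [hmu]; exact le_max_left _ _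
  have hmuf : mu ≤ f / 2 := by
    rw [hmu]
    apply max_le (by positivity)
    have : (0 : ℝ) ≤ v := Nat.cast_nonneg _
    linarith
  have hfv : ((f - 2 * v : ℕ) : ℝ) = 2 * mu := by
    rcases le_total (2 * v) f with h | h
    · rw [Nat.cast_sub h]
      have h' : (2 : ℝ) * v ≤ f := by exact_mod_cast h
      rw [hmu, max_eq_right (by linarith)]
      push_cast
      ring
    · rw [Nat.sub_eq_zero_of_le h]
      have h' : (f : ℝ) ≤ 2 * v := by exact_mod_cast h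
      rw [hmu, max_eq_left (by linarith)]
      simp
  obtain ⟨y, hy⟩ : ∃ y : ℝ, y = (k : ℝ) + 1 + mu := ⟨_, rfl⟩
  rw [← hy]
  have hk0 : (0 : ℝ) ≤ k := Nat.cast_nonneg _
  have hy1 : 1 ≤ y := by linarith
  have hBy : (B : ℝ) ≤ 46 * y := by
    have : (B : ℝ) = 2 + 46 * k + 2 * mu := by rw [hB]; push_cast; rw [hfv]
    rw [this, hy]; linarith
  have hk' : (k : ℝ) ≤ 12 * f := by exact_mod_cast hk
  have hv' : (v : ℝ) ≤ 3 * f := by exact_mod_cast hv
  have hyf : y ≤ 14 * f := by rw [hy]; linarith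
  obtain ⟨L, hL⟩ : ∃ L : ℝ, L = 2 * (rho : ℝ) + 1 := ⟨_, rfl⟩
  have hl2 : 1 ≤ l ^ 2 := one_le_pow₀ hl1
  have hLle : L ≤ l ^ 2 * (4 * m / e + 7) := by
    have h1 : (⌈2 * m * l ^ 2 / e⌉₊ : ℝ) < 2 * m * l ^ 2 / e + 1 := Nat.ceil_lt_add_one (by positivity)
    have h2 : (rho : ℝ) = (⌈2 * m * l ^ 2 / e⌉₊ : ℝ) + 2 := by rw [hrho]; push_cast; ring
    have h3 : 2 * (2 * m * l ^ 2 / e) = l ^ 2 * (4 * m / e) := by ring
    rw [hL, h2, mul_add (l ^ 2), ← h3]
    linarith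
  have hL0 : 0 ≤ L := by rw [hL]; positivity
  have hTr : (T : ℝ) = f + 9 * k + 2 * L * B := by rw [hT, hL]; push_cast; ring
  have hbT : beta * T ≤ e * f / l + 9 * k + 2 * L * B := by
    rw [hTr, mul_add, mul_add]
    have h1 : beta * f = e * f / l := by rw [hbeta]; ring
    have h2 : beta * (9 * k) ≤ 9 * k := mul_le_of_le_one_left (by positivity) hb1
    have h3 : beta * (2 * L * B) ≤ 2 * L * B := mul_le_of_le_one_left (by positivity) hb1
    linarith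
  have hqE : (q : ℝ) + E ≤ 4 * e * f / l + y * l ^ 2 * K2 := by
    have h1 : (q : ℝ) + E ≤ 3 + 41 * k + B * (2 * L + 2) + 4 * (beta * T) := by
      have : (B : ℝ) * (2 * (2 * rho + 1) + 2) = B * (2 * L + 2) := by rw [hL]
      linarith
    have h2 : 3 + 41 * k + B * (2 * L + 2) + 4 * (beta * T) ≤
        4 * e * f / l + (3 + 77 * k + B * (10 * L + 2)) := by
      have h4 : 4 * (e * f / l) = 4 * e * f / l := by ring
      have h5 : (B : ℝ) * (2 * L + 2) + 8 * L * B = B * (10 * L + 2) := by ring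
      linarith
    have h3 : (B : ℝ) * (10 * L + 2) ≤ 46 * y * (10 * L + 2) :=
      mul_le_mul_of_nonneg_right hBy (by positivity)
    have h4 : 3 + 77 * k + B * (10 * L + 2) ≤ y * (172 + 460 * L) := by
      have h9 : (k : ℝ) ≤ y := by rw [hy]; linarith
      have h10 : y * (172 + 460 * L) = 46 * y * (10 * L + 2) + 80 * y := by ring
      linarith
    have h5 : 172 + 460 * L ≤ l ^ 2 * K2 := by
      have h9 : l ^ 2 * K2 = 172 * l ^ 2 + 460 * (l ^ 2 * (4 * m / e + 7)) := by rw [hK2]; ring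
      linarith
    have h6 : y * (172 + 460 * L) ≤ y * (l ^ 2 * K2) := mul_le_mul_of_nonneg_left h5 (by linarith)
    have h7 : y * (l ^ 2 * K2) = y * l ^ 2 * K2 := by ring
    linarith
  have hexpl : Real.exp l = x := by rw [hl]; exact Real.exp_log hx0
  have hlog : Real.log ((v : ℝ) + E + 2) ≤ Real.log K3 + 3 * l := by
    have h1 : (v : ℝ) + E + 2 ≤ K3 * x ^ 3 := by
      have h2 : 4 * e * f / l ≤ 4 * f := by
        rw [div_le_iff₀ (by linarith)]
        have h9 : 4 * e * f ≤ 4 * f := by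
          apply mul_le_mul_of_nonneg_right _ (by positivity)
          linarith
        have h10 : 4 * (f : ℝ) ≤ 4 * f * l := le_mul_of_one_le_right (by positivity) hl1
        linarith
      have h3 : l ^ 2 ≤ x ^ 2 := pow_le_pow_left₀ (by linarith) hlx 2
      have h4 : y * l ^ 2 * K2 ≤ 14 * x * x ^ 2 * K2 := by
        apply mul_le_mul_of_nonneg_right _ (by linarith)
        apply mul_le_mul _ h3 (by positivity) (by positivity)
        linarith
      have h5 : (E : ℝ) ≤ 4 * f + 14 * x * x ^ 2 * K2 := by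
        have : (0 : ℝ) ≤ q := Nat.cast_nonneg _
        linarith
      have h6 : (v : ℝ) + 4 * f + 2 ≤ 9 * x := by linarith
      have h7 : x ≤ x ^ 3 := le_self_pow₀ (by linarith) (by norm_num)
      have h8 : K3 * x ^ 3 = 9 * x ^ 3 + 14 * x * x ^ 2 * K2 := by rw [hK3]; ring
      linarith
    have h2 : Real.log ((v : ℝ) + E + 2) ≤ Real.log (K3 * x ^ 3) :=
      Real.log_le_log (by positivity) h1
    rw [Real.log_mul (by linarith) (by positivity), Real.log_pow, ← hl] at h2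
    push_cast at h2
    exact h2
  exact est hC1 hε he he2 (by linarith) hK3p hl1 (by linarith) (by rw [hexpl]; linarith) hy1
    (Nat.cast_nonneg _) (Nat.cast_nonneg _) hqE hlog

end ENNum

open Finset

namespace ENNum

theorem edgs_card_le {α : Type*} [DecidableEq α] {Z : Finset (Finset α)} (hZ : IsFam Z) :
    (edgs Z).card ≤ 3 * Z.card := by
  rw [← sum_edeg hZ, card_eq_sum_ones]
  apply sum_le_sum
  intro e he
  exact edeg_pos.2 (mem_edgs.1 he).2

theorem verts_card_le {α : Type*} [DecidableEq α] {Z : Finset (Finset α)} (hZ : IsFam Z) :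
    (verts Z).card ≤ 3 * Z.card := by
  rw [← sum_star hZ, card_eq_sum_ones]
  apply sum_le_sum
  intro x hx
  exact (kap_pos hx).trans kap_le

theorem compl_le {α : Type*} [DecidableEq α] {Z : Finset (Finset α)} (hZ : IsFam Z) :
    compl Z ≤ 12 * Z.card := by
  have h1 : ∑ e ∈ edgs Z, edef Z e ≤ ∑ e ∈ edgs Z, (edeg Z e + 2) := by
    apply sum_le_sum
    intro e _
    unfold edef
    omega
  rw [sum_add_distrib, sum_edeg hZ, sum_const, smul_eq_mul] at h1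
  have h2 : ∑ x ∈ verts Z, (kap Z x - 1) ≤ ∑ x ∈ verts Z, (star Z x).card := by
    apply sum_le_sum
    intro x _
    exact (Nat.sub_le _ _).trans kap_le
  rw [sum_star hZ] at h2
  have h3 := edgs_card_le hZ
  unfold compl
  omega

theorem sphUnion_mono {β : Type} [DecidableEq β] {W : Finset (Finset β)} {q q' : ℕ}
    (h : SphUnion W q) (hq : q ≤ q') : SphUnion W q' := by
  obtain ⟨S, h1, h2, h3, h4⟩ := h
  exact ⟨S, h1.trans hq, h2, h3, h4⟩

/-- the three steps together -/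
theorem assemble {α : Type} [DecidableEq α] {Z : Finset (Finset α)} (hZ : IsFam Z) (hc : Conn Z)
    (hne : Z.Nonempty) (k rho q E B T f v : ℕ) (hk : compl Z ≤ k) (hf : Z.card = f)
    (hv : (verts Z).card = v) (beta : ℝ) (hb : 0 < beta) (hB : B = 2 + 46 * k + (f - 2 * v))
    (hT : T = f + 9 * k + 2 * (2 * rho + 1) * B) (hTb : (T : ℝ) < (1 + beta) ^ (rho - 1))
    (hq : 1 + 16 * (k : ℝ) + beta * T ≤ q)
    (hE : 25 * (k : ℝ) + B * (2 * (2 * rho + 1) + 2) + 3 * beta * T ≤ E) :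
    ∃ (β : Type) (_ : DecidableEq β) (W : Finset (Finset β)), SphUnion W q ∧ Enc Z W E := by
  obtain ⟨β₁, _, S, hS, hZS, hS1, hS2, hS3⟩ := regularize hZ hc hne k hk
  have hPh : Ph2 Z = 2 * (v : ℤ) - f := by rw [Ph2, hf, hv]
  obtain ⟨β₂, _, S', hS', hnull, hS1', hS2', hSS'⟩ := phase1 hS (2 * rho + 1) B (by omega)
  have hST : S'.card ≤ T := by
    rw [hT]
    rw [hf] at hS1
    exact hS1'.trans (Nat.add_le_add_right hS1 _)
  have hST' : (S'.card : ℝ) ≤ T := by exact_mod_cast hST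
  obtain ⟨β₃, _, W, q₁, E₁, hW, hSW, hq₁, hE₁⟩ := phase2 hS' rho beta hb (hST'.trans_lt hTb) hnull
  refine ⟨β₃, _, W, sphUnion_mono hW ?_, ((hZS.trans hSS').trans hSW).mono ?_⟩
  · have h1 : (b0 S' : ℝ) ≤ 1 + 16 * k := by
      rw [hS2']
      exact_mod_cast hS2
    have h2 : beta * S'.card ≤ beta * T := mul_le_mul_of_nonneg_left hST' hb.le
    have h3 : (q₁ : ℝ) ≤ q := by linarith
    exact_mod_cast h3
  · have h2 : 3 * beta * S'.card ≤ 3 * beta * T := mul_le_mul_of_nonneg_left hST' (by positivity)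
    have h3 : ((25 * k + B * (2 * (2 * rho + 1) + 2) + E₁ : ℕ) : ℝ) ≤ E := by
      push_cast
      linarith
    exact_mod_cast h3

end ENNum

/-- 9.1 Theorem (EN) -/
theorem EN {A Γ : ℝ} (hA : 1 ≤ A) (hΓ : 1 ≤ Γ)
    (hs : ∀ v : ℕ, (sph v : ℝ) ≤ A * (v.factorial : ℝ) * Γ ^ v) {ε : ℝ} (hε : 0 < ε) :
    ∃ C : ℝ, 0 < C ∧ ∀ v f k : ℕ, 1 ≤ f →
      (Nat.card {Z : Finset (Finset (Fin v)) // IsFam Z ∧ Conn Z ∧ verts Z = univ ∧ Z.card = f ∧
        compl Z ≤ k} : ℝ)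
      ≤ (v.factorial : ℝ) * Γ ^ v * Real.exp (ε * f
          + C * Real.log ((f : ℝ) + 2) ^ 3 * ((k : ℝ) + 1 + max 0 ((f : ℝ) / 2 - v))) := by
  obtain ⟨C₁, hC₁, hcount⟩ := enc_count hA hΓ hs
  obtain ⟨C, hC, hcore⟩ := ENNum.core hC₁ hε
  refine ⟨C, hC, fun v f k hf => ?_⟩
  have hG : 0 < Γ := by linarith
  by_cases hv : v ≤ 3 * f
  swap
  · have h1 : IsEmpty {Z : Finset (Finset (Fin v)) // IsFam Z ∧ Conn Z ∧ verts Z = univ ∧
        Z.card = f ∧ compl Z ≤ k} := by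
      refine ⟨fun ⟨Z, h1, _, h2, h3, _⟩ => hv ?_⟩
      have h4 := ENNum.verts_card_le h1
      rw [h2, h3, card_univ, Fintype.card_fin] at h4
      exact h4
    rw [Nat.card_of_isEmpty, Nat.cast_zero]
    positivity
  obtain ⟨rho, q, E, B, T, beta, hb, hq1, hE1, hB, hT, hTb, hq, hE, hmain⟩ :=
    hcore v f (min k (12 * f)) hf hv (min_le_right _ _)
  have h1 : Nat.card {Z : Finset (Finset (Fin v)) // IsFam Z ∧ Conn Z ∧ verts Z = univ ∧
      Z.card = f ∧ compl Z ≤ k} ≤ Nat.card {Z : Finset (Finset (Fin v)) // IsFam Z ∧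
        verts Z = univ ∧ ∃ (β : Type) (_ : DecidableEq β) (W : Finset (Finset β)),
        SphUnion W q ∧ Enc Z W E} := by
    refine Nat.card_le_card_of_injective
      (fun Z => ⟨Z.1, Z.2.1, Z.2.2.2.1, ?_⟩) (fun Z Z' h => Subtype.ext ?_)
    · obtain ⟨Z, h1, h2, h3, h4, h5⟩ := Z
      refine ENNum.assemble h1 h2 ?_ (min k (12 * f)) rho q E B T f v ?_ h4 ?_ beta hb hB hT hTb
        hq hE
      · rw [← card_pos, h4]
        exact hf
      · apply le_min h5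
        rw [← h4]
        exact ENNum.compl_le h1
      · rw [h3, card_univ, Fintype.card_fin]
    · exact congrArg (fun Y => Y.1) h
  have h2 := hcount v q E hq1 hE1
  have h3 : C₁ * ((q : ℝ) + E) * Real.log ((v : ℝ) + E + 2) ≤ ε * f +
      C * Real.log ((f : ℝ) + 2) ^ 3 * ((k : ℝ) + 1 + max 0 ((f : ℝ) / 2 - v)) := by
    refine hmain.trans ?_
    have h4 : ((min k (12 * f) : ℕ) : ℝ) ≤ k := by exact_mod_cast min_le_left _ _
    have h5 : 0 ≤ C * Real.log ((f : ℝ) + 2) ^ 3 := by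
      have := ENNum.one_le_log hf
      positivity
    have h6 : ((min k (12 * f) : ℕ) : ℝ) + 1 + max 0 ((f : ℝ) / 2 - v) ≤
        (k : ℝ) + 1 + max 0 ((f : ℝ) / 2 - v) := by linarith
    have h7 := mul_le_mul_of_nonneg_left h6 h5
    linarith
  calc _ ≤ (Nat.card {Z : Finset (Finset (Fin v)) // IsFam Z ∧ verts Z = univ ∧
        ∃ (β : Type) (_ : DecidableEq β) (W : Finset (Finset β)), SphUnion W q ∧ Enc Z W E} : ℝ) := by
        exact_mod_cast h1
    _ ≤ _ := h2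
    _ ≤ _ := mul_le_mul_of_nonneg_left (Real.exp_le_exp.2 h3) (by positivity)

end Pool.Agent.SC
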