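import Pool.Agent.Lib.MP_d0323d_co.Abel
/-! Module EDGEK (5.3). -/
set_option autoImplicit false
namespace Pool.Agent.SC
open Finset

/-! ### (a), abstract form -/

/-- `|d - 2|`, but `0` for `d = 0` -/
def ek_psi (d : ℕ) : ℕ := if d = 0 then 0 else ((d : ℤ) - 2).natAbs

theorem ek_psi_le (d : ℕ) : ek_psi d ≤ d := by
  unfold ek_psi
  split_ifs <;> omega

theorem ek_psi_add_two (d : ℕ) : ek_psi (2 + d) = d := by
  unfold ek_psi
  split_ifs <;> omega

theorem ek_dev_bound {ι β : Type*} [DecidableEq β] [Fintype β] (I : Finset ι)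
    (A : ι → Finset β) (A0 : Finset β) (hA0 : A0.card = 2) (m : β → ℕ)
    (hm : ∀ b, m b = (I.filter (fun i => b ∈ A i)).card) (tm : ℕ) (w : ℕ → ℝ)
    (hw1 : ∀ t ∈ Icc 1 tm, w t ≤ 1) :
    ∑ t ∈ Icc 1 tm, w t * (ek_psi (univ.filter (fun b => t ≤ m b)).card : ℝ) ≤
      ∑ i ∈ I.filter (fun i => A i ≠ A0), ((A i).card : ℝ) := by
  classical
  set n0 := (I.filter (fun i => A i = A0)).card with hn0
  set k : β → ℕ := fun b => if b ∈ A0 then n0 else 0 with hk
  set c : β → ℕ := fun b => ((I.filter (fun i => A i ≠ A0)).filter (fun i => b ∈ A i)).card with hc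
  have hmk : ∀ b, m b = k b + c b := by
    intro b
    have h1 : I.filter (fun i => b ∈ A i) = ((I.filter (fun i => A i = A0)).filter
        (fun i => b ∈ A i)) ∪ ((I.filter (fun i => A i ≠ A0)).filter (fun i => b ∈ A i)) := by
      ext i
      simp only [mem_union, mem_filter]
      tauto
    have h2 : Disjoint ((I.filter (fun i => A i = A0)).filter
        (fun i => b ∈ A i)) ((I.filter (fun i => A i ≠ A0)).filter (fun i => b ∈ A i)) := by
      rw [Finset.disjoint_left]
      intro i hi hi'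
      simp only [mem_filter] at hi hi'
      exact hi'.1.2 hi.1.2
    rw [hm, h1, card_union_of_disjoint h2]
    congr 1
    rw [hk]
    simp only
    split_ifs with hb
    · rw [hn0]
      congr 1
      apply filter_true_of_mem
      intro i hi
      rw [(mem_filter.mp hi).2]
      exact hb
    · rw [card_eq_zero, filter_eq_empty_iff]
      intro i hi h
      rw [(mem_filter.mp hi).2] at h
      exact hb h
  have key : ∀ t ∈ Icc 1 tm, ek_psi (univ.filter (fun b => t ≤ m b)).card ≤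
      (univ.filter (fun b => k b < t ∧ t ≤ m b)).card := by
    intro t ht
    have ht1 : 1 ≤ t := (mem_Icc.mp ht).1
    by_cases htn : t ≤ n0
    · have h1 : univ.filter (fun b => t ≤ m b) =
          A0 ∪ univ.filter (fun b => b ∉ A0 ∧ t ≤ m b) := by
        ext b
        simp only [mem_union, mem_filter, mem_univ, true_and]
        constructor
        · intro h
          by_cases hb : b ∈ A0
          · exact Or.inl hb
          · exact Or.inr ⟨hb, h⟩
        · rintro (h | h)
          · rw [hmk b, hk]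
            simp only [if_pos h]
            omega
          · exact h.2
      have h2 : Disjoint A0 (univ.filter (fun b => b ∉ A0 ∧ t ≤ m b)) := by
        rw [Finset.disjoint_left]
        intro b hb hb'
        exact (mem_filter.mp hb').2.1 hb
      rw [h1, card_union_of_disjoint h2, hA0, ek_psi_add_two]
      apply card_le_card
      intro b hb
      rw [mem_filter] at hb ⊢
      refine ⟨mem_univ b, ?_, hb.2.2⟩
      rw [hk]
      simp only [if_neg hb.2.1]
      omega
    · refine (ek_psi_le _).trans (card_le_card ?_)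
      intro b hb
      rw [mem_filter] at hb ⊢
      refine ⟨mem_univ b, ?_, hb.2⟩
      rw [hk]
      simp only
      split_ifs <;> omega
  have h1 : ∑ t ∈ Icc 1 tm, w t * (ek_psi (univ.filter (fun b => t ≤ m b)).card : ℝ) ≤
      ∑ t ∈ Icc 1 tm, ((univ.filter (fun b => k b < t ∧ t ≤ m b)).card : ℝ) := by
    apply sum_le_sum
    intro t ht
    have h2 : (ek_psi (univ.filter (fun b => t ≤ m b)).card : ℝ) ≤
        ((univ.filter (fun b => k b < t ∧ t ≤ m b)).card : ℝ) := by exact_mod_cast key t ht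
    have h3 : (0 : ℝ) ≤ (ek_psi (univ.filter (fun b => t ≤ m b)).card : ℝ) := by positivity
    nlinarith [hw1 t ht]
  refine h1.trans ?_
  norm_cast
  calc ∑ t ∈ Icc 1 tm, (univ.filter (fun b => k b < t ∧ t ≤ m b)).card
      = ∑ b : β, ((Icc 1 tm).filter (fun t => k b < t ∧ t ≤ m b)).card := by
        simp only [card_filter]
        rw [sum_comm]
    _ ≤ ∑ b : β, c b := by
        apply sum_le_sum
        intro b _
        have h2 : ((Icc 1 tm).filter (fun t => k b < t ∧ t ≤ m b)) ⊆ Ioc (k b) (k b + c b) := by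
          intro t ht
          rw [mem_filter] at ht
          rw [mem_Ioc, ← hmk b]
          exact ht.2
        have h3 := card_le_card h2
        rw [Nat.card_Ioc] at h3
        omega
    _ = ∑ i ∈ I.filter (fun i => A i ≠ A0), (A i).card := by
        rw [hc]
        simp only [card_filter]
        rw [sum_comm]
        apply sum_congr rfl
        intro i _
        rw [← card_filter]
        simp

variable {V : Type} [Fintype V] [DecidableEq V] {n : ℕ} (Q : Imm V n)

/-! ### Edges and their copies -/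

/-- the third labels at the edge `f` -/
def Imm.ek_AA (f : Finset V) : Finset (Fin n) :=
  (Q.Fp.filter (fun s => f ⊆ s)).biUnion (fun s => s.image Q.lab \ f.image Q.lab)

/-- copies of the pair `e` -/
def Imm.ek_cps (e : Finset (Fin n)) : Finset (Finset V) :=
  (edgs Q.Fp).filter (fun f => f.image Q.lab = e)

theorem Imm.ek_mem_AA {f : Finset V} {b : Fin n} :
    b ∈ Q.ek_AA f ↔ ∃ s ∈ Q.Fp, f ⊆ s ∧ b ∈ s.image Q.lab ∧ b ∉ f.image Q.lab := by
  unfold Imm.ek_AA
  simp only [mem_biUnion, mem_filter, mem_sdiff]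
  constructor
  · rintro ⟨s, ⟨h1, h2⟩, h3, h4⟩
    exact ⟨s, h1, h2, h3, h4⟩
  · rintro ⟨s, h1, h2, h3, h4⟩
    exact ⟨s, ⟨h1, h2⟩, h3, h4⟩

theorem Imm.ek_Fp_sub : Q.Fp ⊆ Q.F := filter_subset _ _

theorem Imm.ek_edge_E {f : Finset V} (hf : f ∈ edgs Q.Fp) : f ∈ Q.E := by
  rw [mem_edgs] at hf
  obtain ⟨h2, s, hs, hfs⟩ := hf
  exact Q.F_E s (Q.ek_Fp_sub hs) f (mem_powersetCard.mpr ⟨hfs, h2⟩)

theorem Imm.ek_edge_card {f : Finset V} (hf : f ∈ edgs Q.Fp) : (f.image Q.lab).card = 2 := by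
  rw [card_image_of_injOn (Q.E_lab f (Q.ek_edge_E hf)), (mem_edgs.mp hf).1]

theorem Imm.ek_same_face {s s' : Finset V} (hs : s ∈ Q.Fp) (hs' : s' ∈ Q.Fp)
    (h : s.image Q.lab = s'.image Q.lab) {v : V} (hv : v ∈ s) (hv' : v ∈ s') : s = s' := by
  by_contra hne
  exact Finset.disjoint_left.mp (Q.disjoint_of_same hs hs' hne h) hv hv'

/-- label triple of a face containing `f` -/
theorem Imm.ek_face_eq {f s : Finset V} (hf : f ∈ edgs Q.Fp) (hs : s ∈ Q.Fp) (hfs : f ⊆ s)
    {b : Fin n} (hb : b ∈ s.image Q.lab) (hb' : b ∉ f.image Q.lab) :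
    s.image Q.lab = insert b (f.image Q.lab) := by
  symm
  apply eq_of_subset_of_card_le
  · intro c hc
    rw [mem_insert] at hc
    rcases hc with rfl | hc
    · exact hb
    · exact image_subset_image hfs hc
  · rw [Q.image_card (Q.ek_Fp_sub hs), card_insert_of_notMem hb', Q.ek_edge_card hf]

theorem Imm.ek_card_AA {f : Finset V} (hf : f ∈ edgs Q.Fp) : (Q.ek_AA f).card = edeg Q.Fp f := by
  unfold Imm.ek_AA edeg
  rw [card_biUnion]
  · rw [card_eq_sum_ones]
    apply sum_congr rfl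
    intro s hs
    rw [mem_filter] at hs
    have h1 : f.image Q.lab ⊆ s.image Q.lab := image_subset_image hs.2
    rw [card_sdiff_of_subset h1, Q.image_card (Q.ek_Fp_sub hs.1), Q.ek_edge_card hf]
  · intro s hs s' hs' hne
    rw [mem_coe, mem_filter] at hs hs'
    rw [Function.onFun, Finset.disjoint_left]
    intro b hb hb'
    rw [mem_sdiff] at hb hb'
    apply hne
    have h1 := Q.ek_face_eq hf hs.1 hs.2 hb.1 hb.2
    have h2 := Q.ek_face_eq hf hs'.1 hs'.2 hb'.1 hb'.2
    have h3 : f.Nonempty := by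
      rw [← card_pos, (mem_edgs.mp hf).1]
      norm_num
    obtain ⟨v, hv⟩ := h3
    exact Q.ek_same_face hs.1 hs'.1 (h1.trans h2.symm) (hs.2 hv) (hs'.2 hv)

theorem Imm.ek_mult_insert {e : Finset (Fin n)} (he : e.card = 2) {b : Fin n} (hb : b ∉ e) :
    Q.mult (insert b e) = ((Q.ek_cps e).filter (fun f => b ∈ Q.ek_AA f)).card := by
  unfold Imm.mult
  have hfil : ∀ s ∈ Q.Fp, s.image Q.lab = insert b e →
      (s.filter (fun v => Q.lab v ∈ e)).card = 2 ∧
      (s.filter (fun v => Q.lab v ∈ e)).image Q.lab = e := by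
    intro s hs h
    have h1 : (s.filter (fun v => Q.lab v ∈ e)).image Q.lab = e := by
      ext c
      rw [mem_image]
      constructor
      · rintro ⟨v, hv, rfl⟩
        exact (mem_filter.mp hv).2
      · intro hc
        have : c ∈ s.image Q.lab := by
          rw [h]
          exact mem_insert_of_mem hc
        obtain ⟨v, hv, rfl⟩ := mem_image.mp this
        exact ⟨v, mem_filter.mpr ⟨hv, hc⟩, rfl⟩
    refine ⟨?_, h1⟩
    rw [← he, ← h1]
    symm
    rw [h1]
    have h2 : Set.InjOn Q.lab ((s.filter (fun v => Q.lab v ∈ e) : Finset V) : Set V) :=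
      (Q.lab_injOn_face (Q.ek_Fp_sub hs)).mono (by
        rw [coe_subset]
        exact filter_subset _ _)
    have h3 := card_image_of_injOn h2
    rw [h1] at h3
    exact h3
  apply card_bij (fun s _ => s.filter (fun v => Q.lab v ∈ e))
  · intro s hs
    rw [mem_filter] at hs
    obtain ⟨h1, h2⟩ := hfil s hs.1 hs.2
    rw [mem_filter]
    unfold Imm.ek_cps
    rw [mem_filter, mem_edgs]
    refine ⟨⟨⟨h1, s, hs.1, filter_subset _ _⟩, h2⟩, ?_⟩
    rw [Q.ek_mem_AA]
    refine ⟨s, hs.1, filter_subset _ _, ?_, ?_⟩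
    · rw [hs.2]
      exact mem_insert_self b e
    · rw [h2]
      exact hb
  · intro s hs s' hs' heq
    rw [mem_filter] at hs hs'
    obtain ⟨h1, h2⟩ := hfil s hs.1 hs.2
    have h3 : (s.filter (fun v => Q.lab v ∈ e)).Nonempty := by
      rw [← card_pos, h1]
      norm_num
    obtain ⟨v, hv⟩ := h3
    have hv' := hv
    rw [heq] at hv'
    exact Q.ek_same_face hs.1 hs'.1 (hs.2.trans hs'.2.symm) (mem_filter.mp hv).1
      (mem_filter.mp hv').1
  · intro f hf
    rw [mem_filter] at hf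
    obtain ⟨hf1, hf2⟩ := hf
    unfold Imm.ek_cps at hf1
    rw [mem_filter] at hf1
    obtain ⟨hf1, hf3⟩ := hf1
    rw [Q.ek_mem_AA] at hf2
    obtain ⟨s, hs, hfs, hb1, hb2⟩ := hf2
    have h1 := Q.ek_face_eq hf1 hs hfs hb1 hb2
    rw [hf3] at h1
    refine ⟨s, mem_filter.mpr ⟨hs, h1⟩, ?_⟩
    obtain ⟨h2, h3⟩ := hfil s hs h1
    symm
    apply eq_of_subset_of_card_le
    · intro v hv
      rw [mem_filter]
      refine ⟨hfs hv, ?_⟩
      rw [← hf3]
      exact mem_image_of_mem _ hv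
    · rw [h2, (mem_edgs.mp hf1).1]

/-- multiplicity of `b` over the pair `e` -/
def Imm.ek_me (e : Finset (Fin n)) (b : Fin n) : ℕ := ((Q.ek_cps e).filter (fun f => b ∈ Q.ek_AA f)).card

theorem Imm.ek_me_zero {e : Finset (Fin n)} {b : Fin n} (hb : b ∈ e) : Q.ek_me e b = 0 := by
  unfold Imm.ek_me
  rw [card_eq_zero, filter_eq_empty_iff]
  intro f hf h
  unfold Imm.ek_cps at hf
  rw [mem_filter] at hf
  rw [Q.ek_mem_AA] at h
  obtain ⟨s, _, _, _, h4⟩ := h
  rw [hf.2] at h4
  exact h4 hb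

theorem Imm.ek_edeg_Z {e : Finset (Fin n)} (he : e.card = 2) {t : ℕ} (ht : 1 ≤ t) :
    edeg (Q.Z t) e = (univ.filter (fun b => t ≤ Q.ek_me e b)).card := by
  unfold edeg
  symm
  have hb : ∀ b, t ≤ Q.ek_me e b → b ∉ e := by
    intro b hb h
    rw [Q.ek_me_zero h] at hb
    omega
  apply card_bij (fun b _ => insert b e)
  · intro b hb'
    rw [mem_filter] at hb' ⊢
    refine ⟨?_, subset_insert b e⟩
    rw [Q.mem_Z ht, Q.ek_mult_insert he (hb b hb'.2)]
    exact hb'.2
  · intro b hb1 b' hb2 heq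
    rw [mem_filter] at hb1 hb2
    have h1 : b ∈ insert b' e := by
      rw [← heq]
      exact mem_insert_self b e
    rw [mem_insert] at h1
    rcases h1 with h1 | h1
    · exact h1
    · exact absurd h1 (hb b hb1.2)
  · intro σ hσ
    rw [mem_filter] at hσ
    have h1 := (Q.mem_Z ht).mp hσ.1
    have h2 : 0 < Q.mult σ := by omega
    unfold Imm.mult at h2
    rw [card_pos] at h2
    obtain ⟨s, hs⟩ := h2
    rw [mem_filter] at hs
    have h3 : σ.card = 3 := by
      rw [← hs.2]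
      exact Q.image_card (Q.ek_Fp_sub hs.1)
    have h4 : (σ \ e).card = 1 := by
      rw [card_sdiff_of_subset hσ.2, h3, he]
    obtain ⟨b, hb'⟩ := card_eq_one.mp h4
    have h5 : b ∈ σ \ e := by
      rw [hb']
      exact mem_singleton_self b
    rw [mem_sdiff] at h5
    have h6 : insert b e = σ := by
      apply eq_of_subset_of_card_le
      · intro c hc
        rw [mem_insert] at hc
        rcases hc with rfl | hc
        · exact h5.1
        · exact hσ.2 hc
      · rw [h3, card_insert_of_notMem h5.2, he]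
    refine ⟨b, ?_, h6⟩
    rw [mem_filter]
    refine ⟨mem_univ b, ?_⟩
    have h7 := Q.ek_mult_insert he h5.2
    rw [h6] at h7
    unfold Imm.ek_me
    rw [← h7]
    exact h1

/-- reduction of `KS` to the deviating copies, for any choice of reference sets `A0` -/
theorem Imm.ek_KS_le_dev (J : ℕ) (A0 : Finset (Fin n) → Finset (Fin n)) (hA0 : ∀ e, (A0 e).card = 2) :
    Q.KS J ≤ ((∑ f ∈ (edgs Q.Fp).filter (fun f => Q.ek_AA f ≠ A0 (f.image Q.lab)),
      edeg Q.Fp f : ℕ) : ℝ) := by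
  set P2 := (edgs Q.Fp).image (fun f => f.image Q.lab) with hP2
  have hP2c : ∀ e ∈ P2, e.card = 2 := by
    intro e he
    rw [hP2, mem_image] at he
    obtain ⟨f, hf, rfl⟩ := he
    exact Q.ek_edge_card hf
  have h1 : ∀ t ∈ Icc 1 Q.tm, ∑ e ∈ edgs (Q.Z t), edef (Q.Z t) e ≤
      ∑ e ∈ P2, ek_psi (univ.filter (fun b => t ≤ Q.ek_me e b)).card := by
    intro t ht
    have ht1 : 1 ≤ t := (mem_Icc.mp ht).1
    have hsub : edgs (Q.Z t) ⊆ P2 := by
      intro e he
      rw [mem_edgs] at he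
      obtain ⟨he2, σ, hσ, heσ⟩ := he
      have h3 : 0 < edeg (Q.Z t) e := edeg_pos.mpr ⟨σ, hσ, heσ⟩
      rw [Q.ek_edeg_Z he2 ht1, card_pos] at h3
      obtain ⟨b, hb⟩ := h3
      rw [mem_filter] at hb
      have h4 : 0 < Q.ek_me e b := by omega
      unfold Imm.ek_me at h4
      rw [card_pos] at h4
      obtain ⟨f, hf⟩ := h4
      have hf1 := (mem_filter.mp hf).1
      unfold Imm.ek_cps at hf1
      rw [mem_filter] at hf1
      rw [hP2, mem_image]
      exact ⟨f, hf1.1, hf1.2⟩
    calc ∑ e ∈ edgs (Q.Z t), edef (Q.Z t) e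
        = ∑ e ∈ edgs (Q.Z t), ek_psi (univ.filter (fun b => t ≤ Q.ek_me e b)).card := by
          apply sum_congr rfl
          intro e he
          rw [mem_edgs] at he
          have h3 : 0 < edeg (Q.Z t) e := edeg_pos.mpr he.2
          rw [← Q.ek_edeg_Z he.1 ht1]
          unfold edef ek_psi
          rw [if_neg (by omega)]
      _ ≤ _ := sum_le_sum_of_subset hsub
  have h2 : Q.KS J ≤ ∑ t ∈ Icc 1 Q.tm, max 0 (wt J t) *
      ∑ e ∈ P2, (ek_psi (univ.filter (fun b => t ≤ Q.ek_me e b)).card : ℝ) := by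
    unfold Imm.KS
    apply sum_le_sum
    intro t ht
    have h3 : ((∑ e ∈ edgs (Q.Z t), edef (Q.Z t) e : ℕ) : ℝ) ≤
        ∑ e ∈ P2, (ek_psi (univ.filter (fun b => t ≤ Q.ek_me e b)).card : ℝ) := by
      exact_mod_cast h1 t ht
    calc wt J t * ((∑ e ∈ edgs (Q.Z t), edef (Q.Z t) e : ℕ) : ℝ)
        ≤ max 0 (wt J t) * ((∑ e ∈ edgs (Q.Z t), edef (Q.Z t) e : ℕ) : ℝ) :=
          mul_le_mul_of_nonneg_right (le_max_right _ _) (by positivity)
      _ ≤ _ := mul_le_mul_of_nonneg_left h3 (le_max_left _ _)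
  refine h2.trans ?_
  have h3 : ∑ t ∈ Icc 1 Q.tm, max 0 (wt J t) *
      ∑ e ∈ P2, (ek_psi (univ.filter (fun b => t ≤ Q.ek_me e b)).card : ℝ) =
      ∑ e ∈ P2, ∑ t ∈ Icc 1 Q.tm, max 0 (wt J t) *
        (ek_psi (univ.filter (fun b => t ≤ Q.ek_me e b)).card : ℝ) := by
    simp only [mul_sum]
    rw [sum_comm]
  rw [h3]
  have h4 : ∀ e ∈ P2, ∑ t ∈ Icc 1 Q.tm, max 0 (wt J t) *
        (ek_psi (univ.filter (fun b => t ≤ Q.ek_me e b)).card : ℝ) ≤
      ∑ f ∈ (Q.ek_cps e).filter (fun f => Q.ek_AA f ≠ A0 e), ((Q.ek_AA f).card : ℝ) := by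
    intro e _
    apply ek_dev_bound (Q.ek_cps e) Q.ek_AA (A0 e) (hA0 e) (Q.ek_me e) (fun b => rfl)
    intro t _
    exact max_le (by norm_num) (wt_le_one J t)
  refine (sum_le_sum h4).trans (le_of_eq ?_)
  push_cast
  rw [← sum_fiberwise_of_maps_to (s := (edgs Q.Fp).filter (fun f => Q.ek_AA f ≠ A0 (f.image Q.lab)))
    (t := P2) (g := fun f => f.image Q.lab)
    (fun f hf => by
      rw [hP2]
      exact mem_image_of_mem _ (mem_filter.mp hf).1)]
  apply sum_congr rfl
  intro e _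
  apply sum_congr
  · ext f
    unfold Imm.ek_cps
    simp only [mem_filter]
    constructor
    · rintro ⟨⟨h5, h6⟩, h7⟩
      exact ⟨⟨h5, by rw [h6]; exact h7⟩, h6⟩
    · rintro ⟨⟨h5, h6⟩, h7⟩
      exact ⟨⟨h5, h7⟩, by rw [← h7]; exact h6⟩
  · intro f hf
    have hf1 := (mem_filter.mp (mem_filter.mp hf).1).1
    rw [Q.ek_card_AA hf1]

/-! ### Counting edges at bad vertices -/

theorem Imm.ek_edge_pair {f : Finset V} (hf : f ∈ edgs Q.Fp) {y : V} (hy : y ∈ f) :
    ∃ z, z ≠ y ∧ f = {y, z} := by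
  have h2 := (mem_edgs.mp hf).1
  have h3 : (f.erase y).card = 1 := by rw [card_erase_of_mem hy, h2]
  obtain ⟨z, hz⟩ := card_eq_one.mp h3
  have hz' : z ∈ f.erase y := by
    rw [hz]
    exact mem_singleton_self z
  refine ⟨z, (mem_erase.mp hz').1, ?_⟩
  rw [← insert_erase hy, hz]

/-- at a vertex, an edge is determined by the label of the other end -/
theorem Imm.ek_edge_inj {f f' : Finset V} (hf : f ∈ edgs Q.Fp) (hf' : f' ∈ edgs Q.Fp) {y z z' : V}
    (h : f = {y, z}) (h' : f' = {y, z'}) (hl : Q.lab z = Q.lab z') : f = f' := by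
  have h1 := Q.ek_edge_E hf
  have h2 := Q.ek_edge_E hf'
  rw [h] at h1
  rw [h'] at h2
  have h3 := Q.imm y z z' h1 h2 hl
  rw [h, h', h3]

theorem Imm.ek_count_at (y : V) (L : Finset (Fin n)) :
    ((Q.Ey y).filter (fun f => ∃ z ∈ f, z ≠ y ∧ Q.lab z ∈ L)).card ≤ L.card := by
  have key : ((Q.Ey y).filter (fun f => ∃ z ∈ f, z ≠ y ∧ Q.lab z ∈ L)).card ≤
      (L.image (fun a => ({a} : Finset (Fin n)))).card := by
    apply card_le_card_of_injOn (fun f => (f.erase y).image Q.lab)
    · intro f hf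
      rw [mem_coe, mem_filter] at hf
      obtain ⟨hf, z, hz, hzy, hzL⟩ := hf
      unfold Imm.Ey at hf
      rw [mem_filter] at hf
      obtain ⟨w, hw, hfw⟩ := Q.ek_edge_pair hf.1 hf.2
      have : z = w := by
        rw [hfw, mem_insert, mem_singleton] at hz
        rcases hz with h | h
        · exact absurd h hzy
        · exact h
      subst this
      rw [mem_coe, mem_image]
      refine ⟨Q.lab z, hzL, ?_⟩
      simp only
      rw [hfw, erase_insert (by rw [mem_singleton]; exact Ne.symm hzy), image_singleton]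
    · intro f hf f' hf' heq
      rw [mem_coe, mem_filter] at hf hf'
      have h1 := hf.1
      have h2 := hf'.1
      unfold Imm.Ey at h1 h2
      rw [mem_filter] at h1 h2
      obtain ⟨w, hw, hfw⟩ := Q.ek_edge_pair h1.1 h1.2
      obtain ⟨w', hw', hfw'⟩ := Q.ek_edge_pair h2.1 h2.2
      simp only at heq
      rw [hfw, hfw', erase_insert (by rw [mem_singleton]; exact Ne.symm hw), image_singleton,
        erase_insert (by rw [mem_singleton]; exact Ne.symm hw'), image_singleton,
        singleton_inj] at heq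
      exact Q.ek_edge_inj h1.1 h2.1 hfw hfw' heq
  exact key.trans card_image_le

/-! ### Good ends -/

theorem Imm.ek_face_edge {s : Finset V} (hs : s ∈ Q.Fp) {y u : V} (hy : y ∈ s) (hu : u ∈ s)
    (hne : y ≠ u) : ({y, u} : Finset V) ∈ edgs Q.Fp := by
  rw [mem_edgs]
  refine ⟨card_pair hne, s, hs, ?_⟩
  intro v hv
  rw [mem_insert, mem_singleton] at hv
  rcases hv with rfl | rfl
  · exact hy
  · exact hu

/-- neighbours of `a` in the reference link of `x` -/
def ek_LA (Lam : Fin n → Finset (Finset (Fin n))) (x a : Fin n) : Finset (Fin n) :=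
  univ.filter (fun b => b ≠ a ∧ ({a, b} : Finset (Fin n)) ∈ Lam x)

variable {Lam : Fin n → Finset (Finset (Fin n))}

theorem Imm.ek_AA_good {y z : V} (hyz : y ≠ z) (hf : ({y, z} : Finset V) ∈ edgs Q.Fp)
    (hg : Q.good Lam y) : Q.ek_AA {y, z} = ek_LA Lam (Q.lab y) (Q.lab z) := by
  have hlk := hg.2.2.2
  have himg : ({y, z} : Finset V).image Q.lab = {Q.lab y, Q.lab z} := by
    rw [image_insert, image_singleton]
  ext b
  rw [Q.ek_mem_AA, himg]
  unfold ek_LA
  rw [mem_filter, ← hlk]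
  unfold Imm.Lk
  simp only [mem_univ, true_and, mem_image, mem_insert, mem_singleton]
  constructor
  · rintro ⟨s, hs, hfs, ⟨v, hv, rfl⟩, hb⟩
    push Not at hb
    refine ⟨hb.2, s, ?_, ?_⟩
    · unfold star
      rw [mem_filter]
      exact ⟨hs, hfs (by simp)⟩
    · have h1 : s.erase y = {z, v} := by
        symm
        apply eq_of_subset_of_card_le
        · intro w hw
          rw [mem_insert, mem_singleton] at hw
          rw [mem_erase]
          rcases hw with rfl | rfl
          · exact ⟨hyz.symm, hfs (by simp)⟩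
          · refine ⟨?_, hv⟩
            rintro rfl
            exact hb.1 rfl
        · have hys : y ∈ s := hfs (by simp)
          rw [card_erase_of_mem hys, Q.F_card s (Q.ek_Fp_sub hs), card_pair]
          rintro rfl
          exact hb.2 rfl
      rw [h1, image_insert, image_singleton]
  · rintro ⟨hba, s, hs, himg2⟩
    unfold star at hs
    rw [mem_filter] at hs
    have hz' : Q.lab z ∈ (s.erase y).image Q.lab := by
      rw [himg2]
      simp
    have hb' : b ∈ (s.erase y).image Q.lab := by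
      rw [himg2]
      simp
    obtain ⟨u, hu, hlu⟩ := mem_image.mp hz'
    obtain ⟨v, hv, hlv⟩ := mem_image.mp hb'
    rw [mem_erase] at hu hv
    have huz : u = z := by
      have h1 := Q.ek_edge_E (Q.ek_face_edge hs.1 hs.2 hu.2 (Ne.symm hu.1))
      exact Q.imm y u z h1 (Q.ek_edge_E hf) hlu
    subst huz
    refine ⟨s, hs.1, ?_, ⟨v, hv.2, hlv⟩, ?_⟩
    · intro w hw
      rw [mem_insert, mem_singleton] at hw
      rcases hw with rfl | rfl
      · exact hs.2
      · exact hu.2
    · push Not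
      refine ⟨?_, hba⟩
      intro h
      rw [← hlv] at h
      exact hv.1 (Q.lab_injOn_face (Q.ek_Fp_sub hs.1) hv.2 hs.2 h)

theorem Imm.ek_edeg_good {y z : V} (hf : ({y, z} : Finset V) ∈ edgs Q.Fp)
    (hg : Q.good Lam y) : edeg Q.Fp {y, z} = 2 := by
  apply hg.2.2.1.2
  unfold Imm.Ey
  rw [mem_filter]
  exact ⟨hf, by simp⟩

theorem Imm.ek_lab_mem_good {y z : V} (hyz : y ≠ z) (hf : ({y, z} : Finset V) ∈ edgs Q.Fp)
    (hg : Q.good Lam y) : Q.lab z ∈ verts (Lam (Q.lab y)) := by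
  obtain ⟨_, s, hs, hfs⟩ := mem_edgs.mp hf
  rw [mem_verts]
  refine ⟨(s.erase y).image Q.lab, ?_, ?_⟩
  · rw [← hg.2.2.2]
    unfold Imm.Lk star
    apply mem_image_of_mem
    rw [mem_filter]
    exact ⟨hs, hfs (by simp)⟩
  · apply mem_image_of_mem
    rw [mem_erase]
    exact ⟨hyz.symm, hfs (by simp)⟩

theorem Imm.ek_card_verts_good {y : V} (hg : Q.good Lam y) :
    (verts (Lam (Q.lab y))).card ≤ (Q.Ey y).card := by
  rw [← hg.2.2.2]
  have h1 : (verts (Q.Lk y)).image (fun a => ({a} : Finset (Fin n))) ⊆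
      (Q.Ey y).image (fun f => (f.erase y).image Q.lab) := by
    intro c hc
    rw [mem_image] at hc
    obtain ⟨a, ha, rfl⟩ := hc
    rw [mem_verts] at ha
    obtain ⟨l, hl, hal⟩ := ha
    unfold Imm.Lk star at hl
    rw [mem_image] at hl
    obtain ⟨s, hs, rfl⟩ := hl
    rw [mem_filter] at hs
    rw [mem_image] at hal
    obtain ⟨u, hu, rfl⟩ := hal
    rw [mem_erase] at hu
    rw [mem_image]
    refine ⟨{y, u}, ?_, ?_⟩
    · unfold Imm.Ey
      rw [mem_filter]
      exact ⟨Q.ek_face_edge hs.1 hs.2 hu.2 (Ne.symm hu.1), by simp⟩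
    · rw [erase_insert (by rw [mem_singleton]; exact Ne.symm hu.1), image_singleton]
  have h2 := card_le_card h1
  rw [card_image_of_injective _ (fun a b h => by simpa using h)] at h2
  exact h2.trans card_image_le

/-- the bad edges of the various types -/
theorem Imm.ek_count_small (D : Finset V) (D0 : ℕ) :
    ((edgs Q.Fp).filter (fun f => ∃ y ∈ f, y ∈ D ∧ (Q.Ey y).card ≤ D0)).card ≤ D0 * D.card := by
  have h1 : (edgs Q.Fp).filter (fun f => ∃ y ∈ f, y ∈ D ∧ (Q.Ey y).card ≤ D0) ⊆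
      (D.filter (fun y => (Q.Ey y).card ≤ D0)).biUnion (fun y => Q.Ey y) := by
    intro f hf
    rw [mem_filter] at hf
    obtain ⟨hf, y, hy, hyD, hc⟩ := hf
    rw [mem_biUnion]
    refine ⟨y, mem_filter.mpr ⟨hyD, hc⟩, ?_⟩
    unfold Imm.Ey
    exact mem_filter.mpr ⟨hf, hy⟩
  calc _ ≤ _ := card_le_card h1
    _ ≤ (D.filter (fun y => (Q.Ey y).card ≤ D0)).card * D0 := by
        apply card_biUnion_le_card_mul
        intro y hy
        exact (mem_filter.mp hy).2
    _ ≤ D.card * D0 := Nat.mul_le_mul_right _ (card_filter_le _ _)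
    _ = D0 * D.card := mul_comm _ _

theorem Imm.ek_count_lab (D : Finset V) (L : V → Finset (Fin n)) (D0 : ℕ)
    (hL : ∀ y ∈ D, (L y).card ≤ D0) :
    ((edgs Q.Fp).filter (fun f => ∃ y ∈ f, y ∈ D ∧ ∃ z ∈ f, z ≠ y ∧ Q.lab z ∈ L y)).card ≤
      D0 * D.card := by
  have h1 : (edgs Q.Fp).filter (fun f => ∃ y ∈ f, y ∈ D ∧ ∃ z ∈ f, z ≠ y ∧ Q.lab z ∈ L y) ⊆
      D.biUnion (fun y => (Q.Ey y).filter (fun f => ∃ z ∈ f, z ≠ y ∧ Q.lab z ∈ L y)) := by
    intro f hf
    rw [mem_filter] at hf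
    obtain ⟨hf, y, hy, hyD, hz⟩ := hf
    rw [mem_biUnion]
    refine ⟨y, hyD, ?_⟩
    rw [mem_filter]
    refine ⟨?_, hz⟩
    unfold Imm.Ey
    exact mem_filter.mpr ⟨hf, hy⟩
  calc _ ≤ _ := card_le_card h1
    _ ≤ D.card * D0 := by
        apply card_biUnion_le_card_mul
        intro y hy
        exact (Q.ek_count_at y (L y)).trans (hL y hy)
    _ = D0 * D.card := mul_comm _ _

theorem Imm.ek_count_deg1 :
    ((edgs Q.Fp).filter (fun f => edeg Q.Fp f = 1 ∧ ∀ y ∈ f, Q.lab y ∉ Q.Ts)).card ≤ Q.lp := by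
  refine le_trans (card_le_card ?_) Q.tr_lp
  intro f hf
  rw [mem_filter] at hf ⊢
  obtain ⟨hf, h1, h2⟩ := hf
  have hne : f.Nonempty := by
    rw [← card_pos, (mem_edgs.mp hf).1]
    norm_num
  obtain ⟨y, hy⟩ := hne
  have h3 : edeg Q.F f = edeg Q.Fp f := by
    unfold edeg
    congr 1
    unfold Imm.Fp
    rw [filter_filter]
    apply filter_congr
    intro s _
    constructor
    · intro hfs
      refine ⟨?_, hfs⟩
      intro hsub
      exact h2 y hy (Q.T_sub (hsub (mem_image_of_mem _ (hfs hy))))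
    · exact fun h => h.2
  constructor
  · by_contra htr
    exact Q.deg1 f (Q.ek_edge_E hf) htr (by rw [h3, h1])
  · intro hsub
    exact h2 y hy (Q.T_sub (hsub (mem_image_of_mem _ hy)))

/-! ### The reference orientation -/

theorem ek_exists_ref (P G : Fin n → Fin n → Prop) (hPG : ∀ x a, P x a → G x a)
    (e : Finset (Fin n)) (he : e.card = 2) :
    ∃ xa : Fin n × Fin n, xa.1 ≠ xa.2 ∧ e = {xa.1, xa.2} ∧ (P xa.2 xa.1 → P xa.1 xa.2) ∧
      (G xa.2 xa.1 → G xa.1 xa.2) := by
  obtain ⟨x, a, hxa, rfl⟩ := card_eq_two.mp he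
  by_cases h1 : P x a
  · exact ⟨(x, a), hxa, rfl, fun _ => h1, fun _ => hPG _ _ h1⟩
  by_cases h2 : P a x
  · exact ⟨(a, x), hxa.symm, by rw [pair_comm], fun _ => h2, fun _ => hPG _ _ h2⟩
  by_cases h3 : G x a
  · exact ⟨(x, a), hxa, rfl, fun h => absurd h h2, fun _ => h3⟩
  · exact ⟨(a, x), hxa.symm, by rw [pair_comm], fun h => absurd h h1, fun h => absurd h h3⟩

set_option maxHeartbeats 4000000 in
theorem Imm.ek_KS_le_aux (J : ℕ) (Lam : Fin n → Finset (Finset (Fin n))) (D0 : ℕ) :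
    Q.KS J ≤ 4 * D0 * (Q.DD Lam).card + 2 * Q.Ts.card * (Q.DD Lam).card
      + 2 * Q.hh D0 + Q.lp + Q.bbt := by
  classical
  -- the predicates
  set G : Fin n → Fin n → Prop := fun x a => ∃ y z : V, y ≠ z ∧ ({y, z} : Finset V) ∈ edgs Q.Fp ∧
    Q.lab y = x ∧ Q.lab z = a ∧ Q.good Lam y with hG
  set P : Fin n → Fin n → Prop := fun x a => G x a ∧ (verts (Lam x)).card ≤ D0 with hP
  have hPG : ∀ x a, P x a → G x a := fun x a h => h.1
  have hthree : 3 ≤ (univ : Finset (Fin n)).card := Q.three.trans (card_le_univ _)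
  obtain ⟨e2, _, he2⟩ := exists_subset_card_eq (show 2 ≤ (univ : Finset (Fin n)).card by omega)
  -- the reference orientation
  have href : ∀ e : Finset (Fin n), ∃ xa : Fin n × Fin n, e.card = 2 →
      (xa.1 ≠ xa.2 ∧ e = {xa.1, xa.2} ∧ (P xa.2 xa.1 → P xa.1 xa.2) ∧
      (G xa.2 xa.1 → G xa.1 xa.2)) := by
    intro e
    by_cases he : e.card = 2
    · obtain ⟨xa, h⟩ := ek_exists_ref P G hPG e he
      exact ⟨xa, fun _ => h⟩
    · have hn : 0 < n := by
        rw [card_univ, Fintype.card_fin] at hthree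
        omega
      exact ⟨(⟨0, hn⟩, ⟨0, hn⟩), fun h => absurd h he⟩
  choose ref href using href
  set A0 : Finset (Fin n) → Finset (Fin n) := fun e =>
    if e.card = 2 ∧ G (ref e).1 (ref e).2 then ek_LA Lam (ref e).1 (ref e).2 else e2 with hA0
  have hA0c : ∀ e, (A0 e).card = 2 := by
    intro e
    rw [hA0]
    simp only
    split_ifs with h
    · obtain ⟨y, z, hyz, hf, h1, h2, hg⟩ := h.2
      rw [← h1, ← h2, ← Q.ek_AA_good hyz hf hg, Q.ek_card_AA hf, Q.ek_edeg_good hf hg]
    · exact he2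
  refine (Q.ek_KS_le_dev J A0 hA0c).trans ?_
  set Dev := (edgs Q.Fp).filter (fun f => Q.ek_AA f ≠ A0 (f.image Q.lab)) with hDev
  -- the classes
  set S1 := (edgs Q.Fp).filter (fun f => ∃ y ∈ f, y ∈ Q.DD Lam ∧ ∃ z ∈ f, z ≠ y ∧
    Q.lab z ∈ (if (verts (Lam (Q.lab y))).card ≤ D0 then verts (Lam (Q.lab y)) else ∅)) with hS1
  set S2 := (edgs Q.Fp).filter (fun f => ∃ y ∈ f, y ∈ Q.DD Lam ∧ (Q.Ey y).card ≤ D0) with hS2
  set S4 := (edgs Q.Fp).filter (fun f => ∃ y ∈ f, y ∈ Q.DD Lam ∧ ∃ z ∈ f, z ≠ y ∧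
    Q.lab z ∈ Q.Ts) with hS4
  set SH := (edgs Q.Fp).filter (fun e => 2 ≤ edeg Q.Fp e ∧ ∀ y ∈ e, Q.hi D0 y) with hSH
  set S5 := (edgs Q.Fp).filter (fun f => edeg Q.Fp f = 1 ∧ ∀ y ∈ f, Q.lab y ∉ Q.Ts) with hS5
  have c1 : S1.card ≤ D0 * (Q.DD Lam).card := by
    apply Q.ek_count_lab
    intro y _
    split_ifs with h
    · exact h
    · simp
  have c2 : S2.card ≤ D0 * (Q.DD Lam).card := Q.ek_count_small _ D0
  have c4 : S4.card ≤ Q.Ts.card * (Q.DD Lam).card := Q.ek_count_lab _ (fun _ => Q.Ts) _ (fun _ _ => le_rfl)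
  have cH : SH.card = Q.hh D0 := rfl
  have c5 : S5.card ≤ Q.lp := Q.ek_count_deg1
  -- classification
  have hclass : ∀ f ∈ Dev, f ∈ S1 ∪ S2 ∪ S4 ∪ SH ∨ f ∈ S5 := by
    intro f hf
    rw [hDev, mem_filter] at hf
    obtain ⟨hf, hne⟩ := hf
    have hcard := Q.ek_edge_card hf
    obtain ⟨hxa, heq, hP', hG'⟩ := href (f.image Q.lab) hcard
    set x := (ref (f.image Q.lab)).1 with hx
    set a := (ref (f.image Q.lab)).2 with ha
    have hxmem : x ∈ f.image Q.lab := by
      rw [heq]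
      simp
    obtain ⟨y, hy, hlaby⟩ := mem_image.mp hxmem
    obtain ⟨z, hzy, hfyz⟩ := Q.ek_edge_pair hf hy
    have hz : z ∈ f := by
      rw [hfyz]
      simp
    have hlabz : Q.lab z = a := by
      have h1 : Q.lab z ∈ f.image Q.lab := mem_image_of_mem _ hz
      rw [heq, mem_insert, mem_singleton] at h1
      rcases h1 with h1 | h1
      · exfalso
        have h2 := Q.E_lab f (Q.ek_edge_E hf) hz hy (h1.trans hlaby.symm)
        exact hzy h2
      · exact h1
    have hfE : ({y, z} : Finset V) ∈ edgs Q.Fp := by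
      rw [← hfyz]
      exact hf
    have hfE' : ({z, y} : Finset V) ∈ edgs Q.Fp := by
      rw [pair_comm]
      exact hfE
    have hyv : y ∈ verts Q.Fp := by
      obtain ⟨_, s, hs, hfs⟩ := mem_edgs.mp hf
      exact mem_verts.mpr ⟨s, hs, hfs hy⟩
    have hzv : z ∈ verts Q.Fp := by
      obtain ⟨_, s, hs, hfs⟩ := mem_edgs.mp hf
      exact mem_verts.mpr ⟨s, hs, hfs hz⟩
    have hDDmem : ∀ w ∈ verts Q.Fp, ¬ Q.good Lam w → w ∈ Q.DD Lam := by
      intro w hw h
      unfold Imm.DD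
      rw [mem_filter]
      exact ⟨hw, h⟩
    have hyg : ¬ Q.good Lam y := by
      intro hg
      apply hne
      have h1 : G x a := ⟨y, z, hzy.symm, hfE, hlaby, hlabz, hg⟩
      rw [hA0]
      simp only
      rw [if_pos ⟨hcard, h1⟩, ← hx, ← ha, ← hlaby, ← hlabz]
      conv_lhs => rw [hfyz]
      exact Q.ek_AA_good hzy.symm hfE hg
    have hyD := hDDmem y hyv hyg
    have hEyy : ∀ w ∈ f, f ∈ Q.Ey w := by
      intro w hw
      unfold Imm.Ey
      exact mem_filter.mpr ⟨hf, hw⟩
    have hends : ∀ w ∈ f, w = y ∨ w = z := by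
      intro w hw
      rw [hfyz, mem_insert, mem_singleton] at hw
      exact hw
    have hS2' : ∀ w ∈ f, w ∈ Q.DD Lam → (Q.Ey w).card ≤ D0 → f ∈ S2 := fun w hw h1 h2 =>
      mem_filter.mpr ⟨hf, w, hw, h1, h2⟩
    by_cases hzg : Q.good Lam z
    · left
      have hGax : G a x := ⟨z, y, hzy, hfE', hlabz, hlaby, hzg⟩
      have hGxa := hG' hGax
      obtain ⟨y0, z0, hyz0, hf0, hl0, hl0', hg0⟩ := hGxa
      by_cases hsm : (verts (Lam x)).card ≤ D0
      · have : f ∈ S1 := by
          rw [hS1, mem_filter]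
          refine ⟨hf, y, hy, hyD, z, hz, hzy, ?_⟩
          rw [hlaby, if_pos hsm, hlabz, ← hl0, ← hl0']
          exact Q.ek_lab_mem_good hyz0 hf0 hg0
        simp only [mem_union, this, true_or, or_true]
      · have hbig : D0 < (verts (Lam a)).card := by
          by_contra hcon
          push Not at hcon
          exact hsm (hP' ⟨hGax, hcon⟩).2
        have hzhi : Q.hi D0 z := by
          refine ⟨hzg.1, lt_of_lt_of_le hbig ?_⟩
          rw [← hlabz]
          exact Q.ek_card_verts_good hzg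
        by_cases hys : (Q.Ey y).card ≤ D0
        · have := hS2' y hy hyD hys
          simp only [mem_union, this, true_or, or_true]
        · have hyhi : Q.hi D0 y := by
            refine ⟨?_, not_le.mp hys⟩
            rw [hlaby, ← hl0]
            exact hg0.1
          have : f ∈ SH := by
            rw [hSH, mem_filter]
            refine ⟨hf, ?_, ?_⟩
            · rw [hfyz, pair_comm, Q.ek_edeg_good hfE' hzg]
            · intro w hw
              rcases hends w hw with rfl | rfl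
              · exact hyhi
              · exact hzhi
          simp only [mem_union, this, true_or, or_true]
    · have hzD := hDDmem z hzv hzg
      by_cases hzT : Q.lab z ∈ Q.Ts
      · left
        have : f ∈ S4 := mem_filter.mpr ⟨hf, y, hy, hyD, z, hz, hzy, hzT⟩
        simp only [mem_union, this, true_or, or_true]
      by_cases hyT : Q.lab y ∈ Q.Ts
      · left
        have : f ∈ S4 := mem_filter.mpr ⟨hf, z, hz, hzD, y, hy, hzy.symm, hyT⟩
        simp only [mem_union, this, true_or, or_true]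
      by_cases hys : (Q.Ey y).card ≤ D0
      · left
        have := hS2' y hy hyD hys
        simp only [mem_union, this, true_or, or_true]
      by_cases hzs : (Q.Ey z).card ≤ D0
      · left
        have := hS2' z hz hzD hzs
        simp only [mem_union, this, true_or, or_true]
      by_cases hdeg : 2 ≤ edeg Q.Fp f
      · left
        have : f ∈ SH := by
          rw [hSH, mem_filter]
          refine ⟨hf, hdeg, ?_⟩
          intro w hw
          rcases hends w hw with rfl | rfl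
          · exact ⟨hyT, not_le.mp hys⟩
          · exact ⟨hzT, not_le.mp hzs⟩
        simp only [mem_union, this, true_or, or_true]
      · right
        rw [hS5, mem_filter]
        refine ⟨hf, ?_, ?_⟩
        · have h0 : 0 < edeg Q.Fp f := edeg_pos.mpr (mem_edgs.mp hf).2
          omega
        · intro w hw
          rcases hends w hw with rfl | rfl
          · exact hyT
          · exact hzT
  -- the sum
  have hsum : ∑ f ∈ Dev, edeg Q.Fp f ≤
      2 * (S1 ∪ S2 ∪ S4 ∪ SH).card + S5.card + Q.bbt := by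
    have h1 : ∀ f ∈ Dev, edeg Q.Fp f ≤ (if f ∈ S1 ∪ S2 ∪ S4 ∪ SH then 2 else 0) +
        (if f ∈ S5 then 1 else 0) + (edeg Q.Fp f - 2) := by
      intro f hf
      rcases hclass f hf with h | h
      · rw [if_pos h]
        omega
      · rw [if_pos h]
        have := (mem_filter.mp h).2.1
        omega
    have hsub : Dev ⊆ edgs Q.Fp := filter_subset _ _
    calc ∑ f ∈ Dev, edeg Q.Fp f ≤ ∑ f ∈ Dev, ((if f ∈ S1 ∪ S2 ∪ S4 ∪ SH then 2 else 0) +
        (if f ∈ S5 then 1 else 0) + (edeg Q.Fp f - 2)) := sum_le_sum h1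
      _ = ∑ f ∈ Dev, (if f ∈ S1 ∪ S2 ∪ S4 ∪ SH then 2 else 0) +
        ∑ f ∈ Dev, (if f ∈ S5 then 1 else 0) + ∑ f ∈ Dev, (edeg Q.Fp f - 2) := by
          rw [sum_add_distrib, sum_add_distrib]
      _ ≤ 2 * (S1 ∪ S2 ∪ S4 ∪ SH).card + S5.card + Q.bbt := by
          apply Nat.add_le_add
          · apply Nat.add_le_add
            · rw [← sum_filter, sum_const, smul_eq_mul, mul_comm]
              apply Nat.mul_le_mul_left
              apply card_le_card
              intro f hf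
              exact (mem_filter.mp hf).2
            · rw [← sum_filter, sum_const, smul_eq_mul, mul_one]
              apply card_le_card
              intro f hf
              exact (mem_filter.mp hf).2
          · exact sum_le_sum_of_subset hsub
  have hcardu : (S1 ∪ S2 ∪ S4 ∪ SH).card ≤ S1.card + S2.card + S4.card + SH.card := by
    have h1 := card_union_le (S1 ∪ S2 ∪ S4) SH
    have h2 := card_union_le (S1 ∪ S2) S4
    have h3 := card_union_le S1 S2
    omega
  have htot : ∑ f ∈ Dev, edeg Q.Fp f ≤ 4 * (D0 * (Q.DD Lam).card) +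
      2 * (Q.Ts.card * (Q.DD Lam).card) + 2 * Q.hh D0 + Q.lp + Q.bbt := by omega
  have htot' : ((∑ f ∈ Dev, edeg Q.Fp f : ℕ) : ℝ) ≤ ((4 * (D0 * (Q.DD Lam).card) +
      2 * (Q.Ts.card * (Q.DD Lam).card) + 2 * Q.hh D0 + Q.lp + Q.bbt : ℕ) : ℝ) := by
    exact_mod_cast htot
  push_cast at htot'
  push_cast
  linarith

theorem Imm.KS_le {N : ℕ} (_hN : Q.Fp.card ≤ N) (Lam : Fin n → Finset (Finset (Fin n))) (D0 : ℕ)
    (_hD0 : 1 ≤ D0) :
    Q.KS (Nat.log 2 N + 1) ≤ 8 * D0 * (Q.DD Lam).card + 4 * Q.Ts.card * (Q.DD Lam).card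
      + 4 * Q.hh D0 + 2 * Q.lp + Q.bbt := by
  refine (Q.ek_KS_le_aux _ Lam D0).trans ?_
  have h1 : (0 : ℝ) ≤ (D0 : ℝ) * (Q.DD Lam).card := by positivity
  have h2 : (0 : ℝ) ≤ (Q.Ts.card : ℝ) * (Q.DD Lam).card := by positivity
  have h3 : (0 : ℝ) ≤ (Q.hh D0 : ℝ) := by positivity
  have h4 : (0 : ℝ) ≤ (Q.lp : ℝ) := by positivity
  nlinarith

end Pool.Agent.SC
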