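import Pool.Agent.Lib.MP_d0323d_co.Defs
/-! Module EXPB (1.5): `s_v ≤ C^v v!`.
The proof does not use contractible edges: a sphere is cut along the complement of a dual spanning
tree into a triangulated polygon (a binary tree), whose boundary walk is the contour walk of a
spanning tree of the graph; the latter is coded by a stack machine. -/
set_option autoImplicit false
set_option linter.unusedSectionVars false
namespace Pool.Agent.SC
open Finset

/-! ### Transport along injections -/

section Transport
variable {α β : Type*} [DecidableEq α] [DecidableEq β] (f : α ↪ β)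

/-- image of a family of sets -/
def mapF (S : Finset (Finset α)) : Finset (Finset β) :=
  S.map ⟨Finset.map f, Finset.map_injective f⟩

theorem mem_mapF {S : Finset (Finset α)} {s' : Finset β} :
    s' ∈ mapF f S ↔ ∃ s ∈ S, s.map f = s' := by
  simp [mapF]

theorem map_mem_mapF {S : Finset (Finset α)} {s : Finset α} : s.map f ∈ mapF f S ↔ s ∈ S := by
  rw [mem_mapF]
  constructor
  · rintro ⟨t, ht, h⟩
    rwa [← Finset.map_injective f h]
  · intro h
    exact ⟨s, h, rfl⟩

theorem mapF_injective : Function.Injective (mapF f) := Finset.map_injective _

theorem card_mapF (S : Finset (Finset α)) : (mapF f S).card = S.card := Finset.card_map _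

theorem mapF_insert (b : Finset α) (S : Finset (Finset α)) :
    mapF f (insert b S) = insert (b.map f) (mapF f S) := by
  simp [mapF, Finset.map_insert]

theorem mapF_isFam {S : Finset (Finset α)} : IsFam (mapF f S) ↔ IsFam S := by
  constructor
  · intro h s hs
    have := h (s.map f) ((map_mem_mapF f).2 hs)
    simpa using this
  · intro h s' hs'
    obtain ⟨s, hs, rfl⟩ := (mem_mapF f).1 hs'
    simpa using h s hs

theorem mapF_verts (S : Finset (Finset α)) : verts (mapF f S) = (verts S).map f := by
  ext x
  simp only [verts, mem_biUnion, mem_mapF, id, mem_map]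
  constructor
  · rintro ⟨s', ⟨s, hs, rfl⟩, hx⟩
    obtain ⟨y, hy, rfl⟩ := mem_map.1 hx
    exact ⟨y, ⟨s, hs, hy⟩, rfl⟩
  · rintro ⟨y, ⟨s, hs, hy⟩, rfl⟩
    exact ⟨s.map f, ⟨s, hs, rfl⟩, mem_map_of_mem _ hy⟩

theorem mapF_edeg (S : Finset (Finset α)) (e : Finset α) : edeg (mapF f S) (e.map f) = edeg S e := by
  unfold edeg
  have : (mapF f S).filter (fun s => e.map f ⊆ s) = mapF f (S.filter (fun s => e ⊆ s)) := by
    ext s'
    simp only [mem_filter, mem_mapF]
    constructor
    · rintro ⟨⟨s, hs, rfl⟩, h⟩
      exact ⟨s, ⟨hs, Finset.map_subset_map.1 h⟩, rfl⟩
    · rintro ⟨s, ⟨hs, h⟩, rfl⟩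
      exact ⟨⟨s, hs, rfl⟩, Finset.map_subset_map.2 h⟩
  rw [this, card_mapF]

theorem mapF_closed {S : Finset (Finset α)} : Closed (mapF f S) ↔ Closed S := by
  constructor
  · intro h e he
    have := h (e.map f) (by simpa using he)
    rwa [mapF_edeg] at this
  · intro h e' he'
    by_cases hs : ∃ s' ∈ mapF f S, e' ⊆ s'
    · obtain ⟨s', hs', hes⟩ := hs
      obtain ⟨s, hs, rfl⟩ := (mem_mapF f).1 hs'
      obtain ⟨e, -, rfl⟩ := Finset.subset_map_iff.1 hes
      rw [mapF_edeg]
      exact h e (by simpa using he')
    · left
      unfold edeg
      rw [card_eq_zero, filter_eq_empty_iff]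
      intro s' hs' he
      exact hs ⟨s', hs', he⟩

theorem eadj_map {s t : Finset α} : EAdj (s.map f) (t.map f) ↔ EAdj s t := by
  unfold EAdj
  rw [← Finset.map_inter, card_map]

theorem mapF_dualConn {S : Finset (Finset α)} : DualConn (mapF f S) ↔ DualConn S := by
  constructor
  · intro h s hs t ht
    have key : ∀ t' : Finset β, Relation.ReflTransGen
        (fun a b => a ∈ mapF f S ∧ b ∈ mapF f S ∧ EAdj a b) (s.map f) t' →
        ∀ t : Finset α, t.map f = t' → Relation.ReflTransGen
          (fun a b => a ∈ S ∧ b ∈ S ∧ EAdj a b) s t := by
      intro t' h'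
      induction h' with
      | refl =>
        intro t ht
        rw [Finset.map_injective f ht]
      | @tail b' c' h1 h2 ih =>
        intro c hc
        obtain ⟨hb, hc', hbc⟩ := h2
        obtain ⟨b, hb1, rfl⟩ := (mem_mapF f).1 hb
        subst hc
        exact (ih b rfl).tail ⟨hb1, (map_mem_mapF f).1 hc', (eadj_map f).1 hbc⟩
    exact key (t.map f) (h _ ((map_mem_mapF f).2 hs) _ ((map_mem_mapF f).2 ht)) t rfl
  · intro h s' hs' t' ht'
    obtain ⟨s, hs, rfl⟩ := (mem_mapF f).1 hs'
    obtain ⟨t, ht, rfl⟩ := (mem_mapF f).1 ht'
    refine Relation.ReflTransGen.lift (Finset.map f) ?_ _ _ (h s hs t ht)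
    rintro a b ⟨ha, hb, hab⟩
    exact ⟨(map_mem_mapF f).2 ha, (map_mem_mapF f).2 hb, (eadj_map f).2 hab⟩

theorem mapF_Ph2 (S : Finset (Finset α)) : Ph2 (mapF f S) = Ph2 S := by
  unfold Ph2
  rw [mapF_verts, card_map, card_mapF]

theorem mapF_nonempty {S : Finset (Finset α)} : (mapF f S).Nonempty ↔ S.Nonempty := by
  unfold mapF
  simp

theorem mapF_isSphere {S : Finset (Finset α)} : IsSphere (mapF f S) ↔ IsSphere S := by
  unfold IsSphere
  rw [mapF_isFam, mapF_closed, mapF_dualConn, mapF_Ph2, mapF_nonempty]

/-- a family whose vertices are in the image of `f` is an image -/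
theorem exists_mapF {S' : Finset (Finset β)} {A : Finset α} (h : verts S' ⊆ A.map f) :
    ∃ S : Finset (Finset α), mapF f S = S' ∧ verts S ⊆ A := by
  classical
  refine ⟨(A.powerset).filter (fun s => s.map f ∈ S'), ?_, ?_⟩
  · ext s'
    rw [mem_mapF]
    constructor
    · rintro ⟨s, hs, rfl⟩
      exact (mem_filter.1 hs).2
    · intro hs'
      have h1 : s' ⊆ A.map f := by
        intro x hx
        exact h (mem_biUnion.2 ⟨s', hs', hx⟩)
      obtain ⟨s, hsA, rfl⟩ := Finset.subset_map_iff.1 h1
      exact ⟨s, mem_filter.2 ⟨mem_powerset.2 hsA, hs'⟩, rfl⟩
  · intro x hx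
    obtain ⟨s, hs, hxs⟩ := mem_biUnion.1 hx
    exact mem_powerset.1 (mem_filter.1 hs).1 hxs

end Transport

/-- the number of spheres on a vertex set depends only on its size -/
theorem card_spheres {α : Type} [Fintype α] [DecidableEq α] (A : Finset α) :
    Nat.card {S : Finset (Finset α) // IsSphere S ∧ verts S = A} = sph A.card := by
  classical
  set f : Fin A.card ↪ α := (A.equivFin.symm.toEmbedding).trans (Function.Embedding.subtype _) with hf
  have hA : (univ : Finset (Fin A.card)).map f = A := by
    ext x
    simp only [hf, mem_map, mem_univ, true_and, Function.Embedding.trans_apply,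
      Equiv.coe_toEmbedding, Function.Embedding.subtype_apply]
    constructor
    · rintro ⟨a, rfl⟩
      exact (A.equivFin.symm a).2
    · intro hx
      exact ⟨A.equivFin ⟨x, hx⟩, by simp⟩
  have h1 : sph A.card = Nat.card {S : Finset (Finset (Fin A.card)) // IsSphere S ∧ verts S = univ} := by
    unfold sph
    rw [Nat.card_eq_fintype_card, Fintype.card_subtype]
  rw [h1]
  symm
  refine Nat.card_congr (Equiv.ofBijective
    (fun S => (⟨mapF f S.1, (mapF_isSphere f).2 S.2.1, by rw [mapF_verts, S.2.2, hA]⟩ :
      {S : Finset (Finset α) // IsSphere S ∧ verts S = A})) ⟨?_, ?_⟩)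
  · intro S T h
    apply Subtype.ext
    exact mapF_injective f (congrArg Subtype.val h)
  · rintro ⟨S', hS', hv⟩
    obtain ⟨S, hS, -⟩ := exists_mapF f (S' := S') (A := univ) (by rw [hv, hA])
    refine ⟨⟨S, (mapF_isSphere f).1 (hS ▸ hS'), ?_⟩, Subtype.ext hS⟩
    apply Finset.map_injective f
    rw [← mapF_verts, hS, hv, hA]

/-! ### Triangulated polygons as binary trees -/

section Poly
variable {α : Type*} [DecidableEq α]
open BinaryTree

/-- faces of the triangulated polygon with base edge `(a,b)` -/
def fcs : α → α → BinaryTree α → List (Finset α)
  | _, _, .nil => []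
  | a, b, .node c l r => {a, b, c} :: (fcs a c l ++ fcs c b r)

/-- in-order list of the apices -/
def ino : BinaryTree α → List α
  | .nil => []
  | .node c l r => ino l ++ c :: ino r

/-- the other boundary edges -/
def lvs : α → α → BinaryTree α → List (Finset α)
  | a, b, .nil => [{a, b}]
  | a, b, .node c l r => lvs a c l ++ lvs c b r

/-- base edges of the nodes -/
def nds : α → α → BinaryTree α → List (Finset α)
  | _, _, .nil => []
  | a, b, .node c l r => {a, b} :: (nds a c l ++ nds c b r)

/-- consecutive pairs of a list -/
def prs : List α → List (Finset α)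
  | x :: y :: l => {x, y} :: prs (y :: l)
  | _ => []

theorem prs_cons_cons (x y : α) (l : List α) : prs (x :: y :: l) = {x, y} :: prs (y :: l) := rfl

theorem prs_append (u : List α) (x : α) (v : List α) :
    prs (u ++ x :: v) = prs (u ++ [x]) ++ prs (x :: v) := by
  induction u with
  | nil => simp [prs]
  | cons y u ih =>
    cases u with
    | nil => simp [prs]
    | cons z u =>
      simp only [List.cons_append] at ih ⊢
      rw [prs_cons_cons, prs_cons_cons, ih]
      rfl

theorem prs_length (x : α) (l : List α) : (prs (x :: l)).length = l.length := by
  induction l generalizing x with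
  | nil => rfl
  | cons y l ih => rw [prs_cons_cons, List.length_cons, ih, List.length_cons]

theorem lvs_eq (a b : α) (t : BinaryTree α) : lvs a b t = prs (a :: ino t ++ [b]) := by
  induction t generalizing a b with
  | nil => rfl
  | node c l r ihl ihr =>
    rw [lvs, ino, ihl, ihr]
    have := prs_append (a :: ino l) c (ino r ++ [b])
    simp only [List.cons_append, List.append_assoc] at this ⊢
    rw [this]

theorem length_fcs (a b : α) (t : BinaryTree α) : (fcs a b t).length = t.numNodes := by
  induction t generalizing a b with
  | nil => rfl
  | node c l r ihl ihr =>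
    simp [fcs, ihl, ihr]

theorem length_ino (t : BinaryTree α) : (ino t).length = t.numNodes := by
  induction t with
  | nil => rfl
  | node c l r ihl ihr =>
    simp [ino, ihl, ihr]
    omega

theorem length_lvs (a b : α) (t : BinaryTree α) : (lvs a b t).length = t.numNodes + 1 := by
  rw [lvs_eq, List.cons_append, prs_length]
  simp [length_ino]

/-- vertices of the faces are on the boundary walk -/
theorem fcs_sub (a b : α) (t : BinaryTree α) : ∀ s ∈ fcs a b t, ∀ x ∈ s, x ∈ a :: ino t ++ [b] := by
  induction t generalizing a b with
  | nil => intro s hs; simp [fcs] at hs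
  | node c l r ihl ihr =>
    intro s hs x hx
    simp only [fcs, List.mem_cons, List.mem_append] at hs
    simp only [ino, List.cons_append, List.append_assoc, List.mem_cons, List.mem_append,
      List.not_mem_nil, or_false]
    rcases hs with rfl | hs | hs
    · simp only [mem_insert, mem_singleton] at hx
      tauto
    · have := ihl a c s hs x hx
      simp only [List.cons_append, List.mem_cons, List.mem_append, List.not_mem_nil, or_false] at this
      tauto
    · have := ihr c b s hs x hx
      simp only [List.cons_append, List.mem_cons, List.mem_append, List.not_mem_nil, or_false] at this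
      tauto

theorem tri_distinct {a b c : α} (h : ({a, b, c} : Finset α).card = 3) : a ≠ b ∧ a ≠ c ∧ c ≠ b := by
  refine ⟨?_, ?_, ?_⟩ <;> rintro rfl
  · have : ({a, a, c} : Finset α) = {a, c} := by simp
    rw [this] at h
    have := Finset.card_le_two (a := a) (b := c)
    omega
  · have : ({a, b, a} : Finset α) = {a, b} := by ext; simp; tauto
    rw [this] at h
    have := Finset.card_le_two (a := a) (b := b)
    omega
  · have : ({a, c, c} : Finset α) = {a, c} := by simp
    rw [this] at h
    have := Finset.card_le_two (a := a) (b := c)
    omega

theorem pair_sub_tri {a b c : α} (h : ({a, b, c} : Finset α).card = 3) {e : Finset α}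
    (he : e.card = 2) :
    (if e ⊆ {a, b, c} then 1 else 0) =
      (if ({a, b} : Finset α) = e then 1 else 0) + (if ({a, c} : Finset α) = e then 1 else 0)
        + (if ({c, b} : Finset α) = e then 1 else 0) := by
  obtain ⟨hab, hac, hcb⟩ := tri_distinct h
  obtain ⟨x, y, hxy, rfl⟩ := Finset.card_eq_two.1 he
  have key : ∀ p q : α, p ≠ q → (({p, q} : Finset α) = {x, y} ↔ (p = x ∧ q = y) ∨ (p = y ∧ q = x)) := by
    intro p q hpq
    constructor
    · intro h
      have hp : p ∈ ({x, y} : Finset α) := h ▸ (by simp)
      have hq : q ∈ ({x, y} : Finset α) := h ▸ (by simp)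
      simp only [mem_insert, mem_singleton] at hp hq
      rcases hp with rfl | rfl <;> rcases hq with rfl | rfl <;> simp_all
    · rintro (⟨rfl, rfl⟩ | ⟨rfl, rfl⟩)
      · rfl
      · exact Finset.pair_comm _ _
  rw [if_congr (key a b hab) rfl rfl, if_congr (key a c hac) rfl rfl, if_congr (key c b hcb) rfl rfl]
  have h1 : (({x, y} : Finset α) ⊆ {a, b, c}) ↔ (x = a ∨ x = b ∨ x = c) ∧ (y = a ∨ y = b ∨ y = c) := by
    simp [Finset.insert_subset_iff]
  rw [if_congr h1 rfl rfl]
  by_cases hx : x = a ∨ x = b ∨ x = c
  · by_cases hy : y = a ∨ y = b ∨ y = c
    · rcases hx with rfl | rfl | rfl <;> rcases hy with rfl | rfl | rfl <;> simp_all [Ne.symm]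
    · push Not at hy
      obtain ⟨h1, h2, h3⟩ := hy
      simp [h1, h2, h3, Ne.symm h1, Ne.symm h2, Ne.symm h3]
  · push Not at hx
    obtain ⟨h1, h2, h3⟩ := hx
    simp [h1, h2, h3, Ne.symm h1, Ne.symm h2, Ne.symm h3]

/-- the counting identity -/
theorem fcs_count (a b : α) (t : BinaryTree α) (ht : ∀ s ∈ fcs a b t, s.card = 3) (e : Finset α)
    (he : e.card = 2) :
    (fcs a b t).countP (fun s => e ⊆ s) + (if ({a, b} : Finset α) = e then 1 else 0)
      = 2 * (nds a b t).count e + (lvs a b t).count e := by
  induction t generalizing a b with
  | nil => simp [fcs, nds, lvs, List.count_singleton]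
  | node c l r ihl ihr =>
    have h3 : ({a, b, c} : Finset α).card = 3 := ht _ (by simp [fcs])
    have hl := ihl a c (fun s hs => ht s (by simp [fcs, hs]))
    have hr := ihr c b (fun s hs => ht s (by simp [fcs, hs]))
    have hp := pair_sub_tri h3 he
    simp only [fcs, nds, lvs, List.countP_cons, List.countP_append, List.count_cons,
      List.count_append, decide_eq_true_eq, beq_iff_eq]
    omega

/-- growing a polygon through a boundary edge -/
theorem fcs_grow (a b : α) (t : BinaryTree α) (e : Finset α) (y : α) (he : e ∈ lvs a b t) :
    ∃ t' : BinaryTree α, (fcs a b t').Perm (insert y e :: fcs a b t) := by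
  induction t generalizing a b with
  | nil =>
    simp only [lvs, List.mem_singleton] at he
    subst he
    refine ⟨.node y .nil .nil, ?_⟩
    have : ({a, b, y} : Finset α) = insert y {a, b} := by ext; simp; tauto
    simp [fcs, this]
  | node c l r ihl ihr =>
    simp only [lvs, List.mem_append] at he
    rcases he with he | he
    · obtain ⟨l', hl'⟩ := ihl a c he
      refine ⟨.node c l' r, ?_⟩
      simp only [fcs]
      refine ((hl'.append_right _).cons _).trans ?_
      exact List.Perm.swap _ _ _
    · obtain ⟨r', hr'⟩ := ihr c b he
      refine ⟨.node c l r', ?_⟩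
      simp only [fcs]
      refine ((hr'.append_left _).cons _).trans ?_
      refine (List.perm_middle.cons _).trans ?_
      exact List.Perm.swap _ _ _

/-- every dual-connected closed family is a triangulated polygon with identified boundary edges -/
theorem exists_poly {S : Finset (Finset α)} (hF : IsFam S) (hc : Closed S) (hd : DualConn S)
    (hne : S.Nonempty) : ∃ (a b : α) (t1 t2 : BinaryTree α), t1 ≠ .nil ∧
      (fcs a b t1 ++ fcs b a t2).Nodup ∧ (fcs a b t1 ++ fcs b a t2).toFinset = S := by
  obtain ⟨s0, hs0⟩ := hne
  obtain ⟨a, b, c, hab, hac, hbc, hs0e⟩ := Finset.card_eq_three.1 (hF s0 hs0)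
  have key : ∀ k : ℕ, k + 1 ≤ S.card → ∃ t1 t2 : BinaryTree α, fcs a b t1 ≠ [] ∧
      (fcs a b t1 ++ fcs b a t2).Nodup ∧ (∀ s ∈ fcs a b t1 ++ fcs b a t2, s ∈ S) ∧
      (fcs a b t1 ++ fcs b a t2).length = k + 1 := by
    intro k
    induction k with
    | zero =>
      intro _
      refine ⟨.node c .nil .nil, .nil, by simp [fcs], by simp [fcs], ?_, by simp [fcs]⟩
      intro s hs
      simp only [fcs, List.append_nil, List.mem_singleton] at hs
      rw [hs, ← hs0e]
      exact hs0
    | succ k ih =>
      intro hk
      obtain ⟨t1, t2, hne1, hnd, hsub, hlen⟩ := ih (by omega)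
      set F := fcs a b t1 ++ fcs b a t2 with hFdef
      -- a face outside
      have hFS : F.toFinset ⊆ S := by
        intro s hs
        exact hsub s (List.mem_toFinset.1 hs)
      have hFc : F.toFinset.card = k + 1 := by
        rw [List.toFinset_card_of_nodup hnd, hlen]
      obtain ⟨u, huS, huF⟩ : ∃ u ∈ S, u ∉ F.toFinset := by
        by_contra hcon
        push Not at hcon
        have : S ⊆ F.toFinset := hcon
        have := card_le_card this
        omega
      obtain ⟨s1, hs1⟩ : ∃ s1, s1 ∈ F.toFinset := by
        have : F.toFinset.Nonempty := by
          rw [← card_pos]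
          omega
        exact this
      -- crossing
      have hcross : ∃ s ∈ F.toFinset, ∃ s' ∈ S, s' ∉ F.toFinset ∧ EAdj s s' := by
        by_contra hcon
        push Not at hcon
        have : ∀ t, Relation.ReflTransGen (fun a b => a ∈ S ∧ b ∈ S ∧ EAdj a b) s1 t →
            t ∈ F.toFinset := by
          intro t ht
          induction ht with
          | refl => exact hs1
          | @tail p q h1 h2 ih2 =>
            by_contra hq
            exact hcon p ih2 q h2.2.1 hq h2.2.2
        exact huF (this u (hd s1 (hFS hs1) u huS))
      obtain ⟨s, hsF, s', hs'S, hs'F, hadj⟩ := hcross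
      have hsS := hFS hsF
      set e := s ∩ s' with hedef
      have he2 : e.card = 2 := hadj
      have hne' : s ≠ s' := by
        rintro rfl
        exact hs'F hsF
      have hdeg : edeg S e = 2 := by
        rcases hc e he2 with h | h
        · exfalso
          unfold edeg at h
          rw [card_eq_zero] at h
          have : s ∈ S.filter (fun s => e ⊆ s) := mem_filter.2 ⟨hsS, inter_subset_left⟩
          rw [h] at this
          simp at this
        · exact h
      have hpair : S.filter (fun s => e ⊆ s) = {s, s'} := by
        symm
        apply eq_of_subset_of_card_le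
        · intro x hx
          simp only [mem_insert, mem_singleton] at hx
          rcases hx with rfl | rfl
          · exact mem_filter.2 ⟨hsS, inter_subset_left⟩
          · exact mem_filter.2 ⟨hs'S, inter_subset_right⟩
        · have : (S.filter (fun s => e ⊆ s)).card = 2 := hdeg
          rw [this, Finset.card_pair hne']
      have hcnt : F.countP (fun s => e ⊆ s) = 1 := by
        have h1 : F.countP (fun s => e ⊆ s) = (F.filter (fun s => e ⊆ s)).length := by
          rw [List.countP_eq_length_filter]
        have h2 : (F.filter (fun s => e ⊆ s)).toFinset = {s} := by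
          ext x
          simp only [List.mem_toFinset, List.mem_filter, decide_eq_true_eq, mem_singleton]
          constructor
          · rintro ⟨hx, hex⟩
            have : x ∈ S.filter (fun s => e ⊆ s) :=
              mem_filter.2 ⟨hFS (List.mem_toFinset.2 hx), hex⟩
            rw [hpair] at this
            simp only [mem_insert, mem_singleton] at this
            rcases this with h | h
            · exact h
            · exfalso
              rw [h] at hx
              exact hs'F (List.mem_toFinset.2 hx)
          · rintro rfl
            exact ⟨List.mem_toFinset.1 hsF, inter_subset_left⟩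
        rw [h1, ← List.toFinset_card_of_nodup (hnd.filter _), h2, card_singleton]
      have hc1 := fcs_count a b t1 (fun s hs => hF s (hsub s (List.mem_append_left _ hs))) e he2
      have hc2 := fcs_count b a t2 (fun s hs => hF s (hsub s (List.mem_append_right _ hs))) e he2
      rw [hFdef, List.countP_append] at hcnt
      rw [Finset.pair_comm b a] at hc2
      have hodd : 0 < (lvs a b t1).count e ∨ 0 < (lvs b a t2).count e := by
        by_contra hcon
        push Not at hcon
        omega
      -- the new vertex
      obtain ⟨y, hy⟩ : ∃ y, s' \ e = {y} := by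
        rw [← Finset.card_eq_one, Finset.card_sdiff_of_subset inter_subset_right, he2, hF s' hs'S]
      have hs'e : insert y e = s' := by
        have h1 : s' \ e ∪ e = s' := Finset.sdiff_union_of_subset inter_subset_right
        rw [hy] at h1
        rw [← h1]
        ext; simp
      have hs'F' : s' ∉ F := fun h => hs'F (List.mem_toFinset.2 h)
      rcases hodd with h | h
      · obtain ⟨t', ht'⟩ := fcs_grow a b t1 e y (List.count_pos_iff.1 h)
        rw [hs'e] at ht'
        have hperm : (fcs a b t' ++ fcs b a t2).Perm (s' :: F) := ht'.append_right _
        refine ⟨t', t2, ?_, ?_, ?_, ?_⟩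
        · intro h0
          rw [h0] at ht'
          exact absurd ht'.length_eq (by simp)
        · rw [hperm.nodup_iff, List.nodup_cons]
          exact ⟨hs'F', hnd⟩
        · intro x hx
          rcases List.mem_cons.1 (hperm.mem_iff.1 hx) with rfl | hx
          · exact hs'S
          · exact hsub x hx
        · rw [hperm.length_eq, List.length_cons, hlen]
      · obtain ⟨t', ht'⟩ := fcs_grow b a t2 e y (List.count_pos_iff.1 h)
        rw [hs'e] at ht'
        have hperm : (fcs a b t1 ++ fcs b a t').Perm (s' :: F) :=
          (ht'.append_left _).trans List.perm_middle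
        refine ⟨t1, t', hne1, ?_, ?_, ?_⟩
        · rw [hperm.nodup_iff, List.nodup_cons]
          exact ⟨hs'F', hnd⟩
        · intro x hx
          rcases List.mem_cons.1 (hperm.mem_iff.1 hx) with rfl | hx
          · exact hs'S
          · exact hsub x hx
        · rw [hperm.length_eq, List.length_cons, hlen]
  have hpos : 0 < S.card := card_pos.2 ⟨s0, hs0⟩
  obtain ⟨t1, t2, h1, h2, h3, h4⟩ := key (S.card - 1) (by omega)
  refine ⟨a, b, t1, t2, ?_, h2, ?_⟩
  · rintro rfl
    exact h1 rfl
  · apply eq_of_subset_of_card_le
    · intro s hs
      exact h3 s (List.mem_toFinset.1 hs)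
    · rw [List.toFinset_card_of_nodup h2, h4]
      omega

theorem lvs_card {a b : α} {t : BinaryTree α} (hab : a ≠ b) (ht : ∀ s ∈ fcs a b t, s.card = 3) :
    ∀ e ∈ lvs a b t, e.card = 2 := by
  induction t generalizing a b with
  | nil =>
    intro e he
    simp only [lvs, List.mem_singleton] at he
    rw [he, Finset.card_pair hab]
  | node c l r ihl ihr =>
    obtain ⟨-, hac, hcb⟩ := tri_distinct (ht {a, b, c} (by simp [fcs]))
    intro e he
    simp only [lvs, List.mem_append] at he
    rcases he with he | he
    · exact ihl hac (fun s hs => ht s (by simp [fcs, hs])) e he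
    · exact ihr hcb (fun s hs => ht s (by simp [fcs, hs])) e he

theorem ino_sub (a b : α) (t : BinaryTree α) : ∀ x ∈ ino t, ∃ s ∈ fcs a b t, x ∈ s := by
  induction t generalizing a b with
  | nil => intro x hx; simp [ino] at hx
  | node c l r ihl ihr =>
    intro x hx
    simp only [ino, List.mem_append, List.mem_cons] at hx
    rcases hx with hx | rfl | hx
    · obtain ⟨s, hs, h⟩ := ihl a c x hx
      exact ⟨s, by simp [fcs, hs], h⟩
    · exact ⟨{a, b, x}, by simp [fcs], by simp⟩
    · obtain ⟨s, hs, h⟩ := ihr c b x hx
      exact ⟨s, by simp [fcs, hs], h⟩

theorem mem_of_mem_prs {l : List α} {e : Finset α} (he : e ∈ prs l) : ∀ x ∈ e, x ∈ l := by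
  induction l with
  | nil => simp [prs] at he
  | cons y l ih =>
    cases l with
    | nil => simp [prs] at he
    | cons z l =>
      rw [prs_cons_cons, List.mem_cons] at he
      intro x hx
      rcases he with rfl | he
      · simp only [mem_insert, mem_singleton] at hx
        rcases hx with rfl | rfl <;> simp
      · exact List.mem_cons_of_mem _ (ih he x hx)

end Poly

/-! ### Coding contour walks of trees by a stack machine -/

section Code
variable {α : Type*} [DecidableEq α]

/-- decoder: bits, stack, list of new vertices -/
def dec : List Bool → List α → List α → List α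
  | true :: bs, st, y :: fr => y :: dec bs (y :: st) fr
  | false :: bs, _ :: p :: st, fr => p :: dec bs (p :: st) fr
  | _, _, _ => []

/-- every new vertex brings a new pair -/
theorem newvert (rest : List α) : ∀ (x : α) (A : Finset α) (P : Finset (Finset α)), x ∈ A →
    (∀ e ∈ P, e ⊆ A) →
    (A ∪ rest.toFinset).card + P.card ≤ A.card + (P ∪ (prs (x :: rest)).toFinset).card := by
  induction rest with
  | nil =>
    intro x A P _ _
    simp [prs]
  | cons y r ih =>
    intro x A P hx hP
    by_cases hy : y ∈ A
    · have h1 := ih y A P hy hP
      have h2 : A ∪ (y :: r).toFinset = A ∪ r.toFinset := by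
        ext z
        simp only [mem_union, List.mem_toFinset, List.mem_cons]
        constructor
        · rintro (h | rfl | h)
          · exact Or.inl h
          · exact Or.inl hy
          · exact Or.inr h
        · rintro (h | h)
          · exact Or.inl h
          · exact Or.inr (Or.inr h)
      have h3 : (P ∪ (prs (y :: r)).toFinset).card ≤ (P ∪ (prs (x :: y :: r)).toFinset).card := by
        apply card_le_card
        rw [prs_cons_cons, List.toFinset_cons]
        exact union_subset_union_right (subset_insert _ _)
      rw [h2]
      omega
    · have hnew : ({x, y} : Finset α) ∉ P := fun h => hy (hP _ h (by simp))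
      have h1 := ih y (insert y A) (insert {x, y} P) (mem_insert_self _ _) (by
        intro e he
        rcases mem_insert.1 he with rfl | he
        · intro z hz
          simp only [mem_insert, mem_singleton] at hz
          rcases hz with rfl | rfl
          · exact mem_insert_of_mem hx
          · exact mem_insert_self _ _
        · exact (hP e he).trans (subset_insert _ _))
      rw [card_insert_of_notMem hy, card_insert_of_notMem hnew] at h1
      have h2 : insert y A ∪ r.toFinset = A ∪ (y :: r).toFinset := by
        ext z
        simp only [mem_union, mem_insert, List.mem_toFinset, List.mem_cons]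
        tauto
      have h3 : insert {x, y} P ∪ (prs (y :: r)).toFinset = P ∪ (prs (x :: y :: r)).toFinset := by
        rw [prs_cons_cons, List.toFinset_cons]
        ext z
        simp only [mem_union, mem_insert]
        tauto
      rw [h2, h3] at h1
      omega

/-- existence of the code -/
theorem dec_exists (rest : List α) : ∀ (x : α) (st : List α) (A : Finset α)
    (past : List (Finset α)), (x :: st).Nodup → (∀ z ∈ x :: st, z ∈ A) →
    (∀ e, past.count e = 1 → e ∈ prs (x :: st)) → (∀ e ∈ past, e ⊆ A) →
    A.card = past.toFinset.card + 1 →
    (∀ e, past.count e + (prs (x :: rest)).count e ≤ 2) →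
    (past.toFinset ∪ (prs (x :: rest)).toFinset).card + 1 ≤ (A ∪ rest.toFinset).card →
    ∃ (bits : List Bool) (fr : List α), bits.length = rest.length ∧ fr.Nodup ∧ (∀ z ∈ fr, z ∉ A) ∧
      A ∪ fr.toFinset = A ∪ rest.toFinset ∧ dec bits (x :: st) fr = rest := by
  induction rest with
  | nil =>
    intro x st A past _ _ _ _ _ _ _
    exact ⟨[], [], rfl, List.nodup_nil, by simp, rfl, by simp [dec]⟩
  | cons y r ih =>
    intro x st A past h1 h2 h3 h4 h5 h6 h7
    have hxA : x ∈ A := h2 x (by simp)
    by_cases hy : y ∈ A
    · -- pop
      have hepast : ({x, y} : Finset α) ∈ past := by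
        by_contra hnew
        have hM := newvert r y A (insert {x, y} past.toFinset) hy (by
          intro e he
          rcases mem_insert.1 he with rfl | he
          · intro z hz
            simp only [mem_insert, mem_singleton] at hz
            rcases hz with rfl | rfl
            · exact hxA
            · exact hy
          · exact h4 e (List.mem_toFinset.1 he))
        rw [card_insert_of_notMem (by simpa using hnew)] at hM
        have h3' : insert {x, y} past.toFinset ∪ (prs (y :: r)).toFinset
            = past.toFinset ∪ (prs (x :: y :: r)).toFinset := by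
          rw [prs_cons_cons, List.toFinset_cons]
          ext z
          simp only [mem_union, mem_insert]
          tauto
        have h2' : A ∪ (y :: r).toFinset = A ∪ r.toFinset := by
          ext z
          simp only [mem_union, List.mem_toFinset, List.mem_cons]
          constructor
          · rintro (h | rfl | h)
            · exact Or.inl h
            · exact Or.inl hy
            · exact Or.inr h
          · rintro (h | h)
            · exact Or.inl h
            · exact Or.inr (Or.inr h)
        rw [h3'] at hM
        rw [h2'] at h7
        omega
      have hc1 : past.count {x, y} = 1 := by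
        have ha := h6 {x, y}
        have hb : 0 < past.count {x, y} := List.count_pos_iff.2 hepast
        rw [prs_cons_cons, List.count_cons_self] at ha
        omega
      have hst := h3 _ hc1
      cases st with
      | nil => simp [prs] at hst
      | cons p st =>
        rw [prs_cons_cons, List.mem_cons] at hst
        have hxst : x ∉ p :: st := (List.nodup_cons.1 h1).1
        have hxp : x ≠ p := fun h => hxst (h ▸ by simp)
        have heq : ({x, y} : Finset α) = {x, p} := by
          rcases hst with h | h
          · exact h
          · exact absurd (mem_of_mem_prs h x (by simp)) hxst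
        have hpy : p = y := by
          have : p ∈ ({x, y} : Finset α) := heq ▸ (by simp)
          simp only [mem_insert, mem_singleton] at this
          rcases this with h | h
          · exact absurd h.symm hxp
          · exact h
        subst hpy
        obtain ⟨bits, fr, hl, hnd, hfr, hun, hdec⟩ := ih p st A ({x, p} :: past)
          (List.nodup_cons.1 h1).2 (fun z hz => h2 z (List.mem_cons_of_mem _ hz)) (by
            intro e he
            rw [List.count_cons] at he
            by_cases hee : ({x, p} : Finset α) = e
            · subst hee
              rw [hc1] at he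
              simp at he
            · have : past.count e = 1 := by simpa [hee] using he
              have := h3 e this
              rw [prs_cons_cons, List.mem_cons] at this
              rcases this with h | h
              · exact absurd h.symm hee
              · exact h) (by
            intro e he
            rcases List.mem_cons.1 he with rfl | he
            · exact h4 _ hepast
            · exact h4 e he) (by
            rw [List.toFinset_cons, insert_eq_of_mem (List.mem_toFinset.2 hepast)]
            exact h5) (by
            intro e
            have := h6 e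
            rw [prs_cons_cons, List.count_cons] at this
            rw [List.count_cons]
            omega) (by
            have h3' : ({x, p} :: past).toFinset ∪ (prs (p :: r)).toFinset
                = past.toFinset ∪ (prs (x :: p :: r)).toFinset := by
              rw [prs_cons_cons, List.toFinset_cons, List.toFinset_cons]
              ext z
              simp only [mem_union, mem_insert]
              tauto
            have h2' : A ∪ (p :: r).toFinset = A ∪ r.toFinset := by
              ext z
              simp only [mem_union, List.mem_toFinset, List.mem_cons]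
              constructor
              · rintro (h | rfl | h)
                · exact Or.inl h
                · exact Or.inl hy
                · exact Or.inr h
              · rintro (h | h)
                · exact Or.inl h
                · exact Or.inr (Or.inr h)
            rw [h3', ← h2']
            exact h7)
        refine ⟨false :: bits, fr, by simp [hl], hnd, hfr, ?_, ?_⟩
        · rw [hun]
          ext z
          simp only [mem_union, List.mem_toFinset, List.mem_cons]
          constructor
          · rintro (h | h)
            · exact Or.inl h
            · exact Or.inr (Or.inr h)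
          · rintro (h | rfl | h)
            · exact Or.inl h
            · exact Or.inl hy
            · exact Or.inr h
        · simp [dec, hdec]
    · -- push
      have hnew : ({x, y} : Finset α) ∉ past := fun h => hy (h4 _ h (by simp))
      have hyst : y ∉ x :: st := fun h => hy (h2 y h)
      obtain ⟨bits, fr, hl, hnd, hfr, hun, hdec⟩ := ih y (x :: st) (insert y A) ({x, y} :: past)
        (List.nodup_cons.2 ⟨hyst, h1⟩) (by
          intro z hz
          rcases List.mem_cons.1 hz with rfl | hz
          · exact mem_insert_self _ _
          · exact mem_insert_of_mem (h2 z hz)) (by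
          intro e he
          rw [prs_cons_cons, List.mem_cons]
          rw [List.count_cons] at he
          by_cases hee : ({x, y} : Finset α) = e
          · left
            rw [← hee, Finset.pair_comm]
          · right
            have : past.count e = 1 := by simpa [hee] using he
            exact h3 e this) (by
          intro e he
          rcases List.mem_cons.1 he with rfl | he
          · intro z hz
            simp only [mem_insert, mem_singleton] at hz
            rcases hz with rfl | rfl
            · exact mem_insert_of_mem hxA
            · exact mem_insert_self _ _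
          · exact (h4 e he).trans (subset_insert _ _)) (by
          rw [List.toFinset_cons, card_insert_of_notMem hy,
            card_insert_of_notMem (by simpa using hnew), h5]) (by
          intro e
          have := h6 e
          rw [prs_cons_cons, List.count_cons] at this
          rw [List.count_cons]
          omega) (by
          have h3' : ({x, y} :: past).toFinset ∪ (prs (y :: r)).toFinset
              = past.toFinset ∪ (prs (x :: y :: r)).toFinset := by
            rw [prs_cons_cons, List.toFinset_cons, List.toFinset_cons]
            ext z
            simp only [mem_union, mem_insert]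
            tauto
          have h2' : insert y A ∪ r.toFinset = A ∪ (y :: r).toFinset := by
            ext z
            simp only [mem_union, mem_insert, List.mem_toFinset, List.mem_cons]
            tauto
          rw [h3', h2']
          exact h7)
      refine ⟨true :: bits, y :: fr, by simp [hl], ?_, ?_, ?_, ?_⟩
      · rw [List.nodup_cons]
        exact ⟨fun h => hfr y h (mem_insert_self _ _), hnd⟩
      · intro z hz
        rcases List.mem_cons.1 hz with rfl | hz
        · exact hy
        · exact fun h => hfr z hz (mem_insert_of_mem h)
      · have : insert y A ∪ fr.toFinset = insert y A ∪ r.toFinset := hun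
        have ha : A ∪ (y :: fr).toFinset = insert y A ∪ fr.toFinset := by
          ext z
          simp only [mem_union, mem_insert, List.mem_toFinset, List.mem_cons]
          tauto
        have hb : A ∪ (y :: r).toFinset = insert y A ∪ r.toFinset := by
          ext z
          simp only [mem_union, mem_insert, List.mem_toFinset, List.mem_cons]
          tauto
        rw [ha, hb, this]
      · simp [dec, hdec]

open BinaryTree

/-- labelling a tree shape by a list (in-order) -/
def labT (d : α) : BinaryTree Unit → List α → BinaryTree α
  | .nil, _ => .nil
  | .node _ l r, L => .node (L.getD l.numNodes d) (labT d l (L.take l.numNodes))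
      (labT d r (L.drop (l.numNodes + 1)))

/-- shape of a tree -/
def shp : BinaryTree α → BinaryTree Unit
  | .nil => .nil
  | .node _ l r => .node () (shp l) (shp r)

theorem numNodes_shp (t : BinaryTree α) : (shp t).numNodes = t.numNodes := by
  induction t with
  | nil => rfl
  | node c l r ihl ihr => simp [shp, ihl, ihr]

theorem labT_ino (d : α) (t : BinaryTree α) : labT d (shp t) (ino t) = t := by
  induction t with
  | nil => rfl
  | node c l r ihl ihr =>
    have h0 : (shp l).numNodes = (ino l).length := by rw [numNodes_shp, length_ino]
    have h1 : (ino l ++ c :: ino r).getD (ino l).length d = c := by simp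
    have h2 : (ino l ++ c :: ino r).take (ino l).length = ino l := by simp
    have h3 : (ino l ++ c :: ino r).drop ((ino l).length + 1) = ino r := by
      rw [List.drop_append]
      simp
    simp only [shp, ino, labT, h0, h1, h2, h3, ihl, ihr]

/-- the decoder of spheres -/
def decS (sh : BinaryTree Unit) (bits : List Bool) : List α → Finset (Finset α)
  | [] => ∅
  | x0 :: fr =>
    match labT x0 sh (dec bits [x0] fr).dropLast with
    | .nil => ∅
    | .node b t1 t2 => (fcs x0 b t1 ++ fcs b x0 t2).toFinset

/-- every sphere has a code -/
theorem sphere_code {S : Finset (Finset α)} (hS : IsSphere S) :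
    ∃ (sh : BinaryTree Unit) (bits : List Bool) (pm : List α), sh.numNodes = S.card + 1 ∧
      bits.length = S.card + 2 ∧ pm.Nodup ∧ pm.toFinset = verts S ∧ decS sh bits pm = S := by
  obtain ⟨hF, hc, hd, hne, hPh⟩ := hS
  obtain ⟨a, b, t1, t2, ht1, hnd, hSF⟩ := exists_poly hF hc hd hne
  set F := fcs a b t1 ++ fcs b a t2 with hFdef
  have hmem : ∀ s ∈ F, s.card = 3 := fun s hs => hF s (hSF ▸ List.mem_toFinset.2 hs)
  have hm1 : ∀ s ∈ fcs a b t1, s.card = 3 := fun s hs => hmem s (List.mem_append_left _ hs)
  have hm2 : ∀ s ∈ fcs b a t2, s.card = 3 := fun s hs => hmem s (List.mem_append_right _ hs)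
  have hlen : F.length = S.card := by rw [← hSF, List.toFinset_card_of_nodup hnd]
  have hnum : t1.numNodes + t2.numNodes = S.card := by
    rw [← hlen, hFdef, List.length_append, length_fcs, length_fcs]
  have hab : a ≠ b := by
    cases t1 with
    | nil => exact absurd rfl ht1
    | node c l r => exact (tri_distinct (hm1 {a, b, c} (by simp [fcs]))).1
  set rest := ino (.node b t1 t2) ++ [a] with hrest
  have hprs : prs (a :: rest) = lvs a b t1 ++ lvs b a t2 := by
    rw [lvs_eq, lvs_eq, hrest, ino]
    have := prs_append (a :: ino t1) b (ino t2 ++ [a])
    simp only [List.cons_append, List.append_assoc] at this ⊢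
    exact this
  have hcount : ∀ e : Finset α, e.card = 2 → (prs (a :: rest)).count e = 0 ∨
      (prs (a :: rest)).count e = 2 := by
    intro e he
    have hc1 := fcs_count a b t1 hm1 e he
    have hc2 := fcs_count b a t2 hm2 e he
    rw [Finset.pair_comm b a] at hc2
    have hdeg : (fcs a b t1).countP (fun s => e ⊆ s) + (fcs b a t2).countP (fun s => e ⊆ s)
        = edeg S e := by
      rw [← List.countP_append, ← hFdef, List.countP_eq_length_filter,
        ← List.toFinset_card_of_nodup (hnd.filter _)]
      unfold edeg
      congr 1
      ext s
      simp only [List.mem_toFinset, List.mem_filter, decide_eq_true_eq, mem_filter]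
      rw [← hSF, List.mem_toFinset]
    rw [hprs, List.count_append]
    have hN : ({a, b} : Finset α) = e → 0 < (nds a b t1).count e := by
      intro h
      rw [List.count_pos_iff]
      cases t1 with
      | nil => exact absurd rfl ht1
      | node c l r => simp [nds, h]
    rcases hc e he with h | h
    · by_cases hh : ({a, b} : Finset α) = e
      · have := hN hh
        simp only [hh, if_true] at hc1 hc2
        omega
      · simp only [hh, if_false] at hc1 hc2
        omega
    · by_cases hh : ({a, b} : Finset α) = e
      · have := hN hh
        simp only [hh, if_true] at hc1 hc2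
        omega
      · simp only [hh, if_false] at hc1 hc2
        omega
  have hcard2 : ∀ e ∈ prs (a :: rest), e.card = 2 := by
    intro e he
    rw [hprs, List.mem_append] at he
    rcases he with he | he
    · exact lvs_card hab hm1 e he
    · exact lvs_card hab.symm hm2 e he
  have hle2 : ∀ e : Finset α, (prs (a :: rest)).count e ≤ 2 := by
    intro e
    by_cases he : e ∈ prs (a :: rest)
    · rcases hcount e (hcard2 e he) with h | h <;> omega
    · rw [List.count_eq_zero_of_not_mem he]
      omega
  have hrl : rest.length = S.card + 2 := by
    rw [hrest, List.length_append, length_ino]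
    simp only [BinaryTree.numNodes, List.length_singleton]
    omega
  have htot : 2 * (prs (a :: rest)).toFinset.card = S.card + 2 := by
    have h1 := List.sum_toFinset_count_eq_length (prs (a :: rest))
    rw [prs_length, hrl] at h1
    rw [← h1, Finset.sum_congr rfl (g := fun _ => 2), Finset.sum_const, smul_eq_mul, mul_comm]
    intro e he
    have he' : e ∈ prs (a :: rest) := List.mem_toFinset.1 he
    rcases hcount e (hcard2 e he') with h | h
    · have := List.count_pos_iff.2 he'
      omega
    · exact h
  have hverts : ({a} : Finset α) ∪ rest.toFinset = verts S := by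
    apply Subset.antisymm
    · -- boundary walk consists of vertices
      have hv : ∀ s ∈ F, ∀ x ∈ s, x ∈ verts S := by
        intro s hs x hx
        exact mem_biUnion.2 ⟨s, hSF ▸ List.mem_toFinset.2 hs, hx⟩
      have hroot : a ∈ verts S ∧ b ∈ verts S := by
        cases t1 with
        | nil => exact absurd rfl ht1
        | node c l r =>
          exact ⟨hv {a, b, c} (by simp [hFdef, fcs]) a (by simp),
            hv {a, b, c} (by simp [hFdef, fcs]) b (by simp)⟩
      have hsub : ∀ x ∈ a :: rest, x ∈ verts S := by
        intro x hx
        simp only [hrest, ino, List.append_assoc, List.cons_append, List.mem_cons,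
          List.mem_append, List.not_mem_nil, or_false] at hx
        rcases hx with rfl | hx | rfl | hx | rfl
        · exact hroot.1
        · obtain ⟨s, hs, h⟩ := ino_sub a b t1 x hx
          exact hv s (List.mem_append_left _ hs) x h
        · exact hroot.2
        · obtain ⟨s, hs, h⟩ := ino_sub b a t2 x hx
          exact hv s (List.mem_append_right _ hs) x h
        · exact hroot.1
      intro x hx
      simp only [mem_union, mem_singleton, List.mem_toFinset] at hx
      exact hsub x (by simpa using hx)
    · intro x hx
      obtain ⟨s, hs, hxs⟩ := mem_biUnion.1 hx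
      simp only [id] at hxs
      rw [← hSF, List.mem_toFinset, hFdef, List.mem_append] at hs
      simp only [mem_union, mem_singleton, List.mem_toFinset]
      rcases hs with hs | hs
      · have := fcs_sub a b t1 s hs x hxs
        simp only [hrest, ino, List.cons_append, List.append_assoc, List.mem_cons, List.mem_append,
          List.not_mem_nil, or_false] at this ⊢
        tauto
      · have := fcs_sub b a t2 s hs x hxs
        simp only [hrest, ino, List.cons_append, List.append_assoc, List.mem_cons, List.mem_append,
          List.not_mem_nil, or_false] at this ⊢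
        tauto
  obtain ⟨bits, fr, hl, hnd', hfr, hun, hdec⟩ := dec_exists rest a [] {a} [] (by simp) (by simp)
    (by simp) (by simp) (by simp) (by simpa using hle2) (by
      rw [hverts]
      simp only [List.toFinset_nil, empty_union]
      unfold Ph2 at hPh
      omega)
  refine ⟨shp (.node b t1 t2), bits, a :: fr, ?_, by rw [hl, hrl], ?_, ?_, ?_⟩
  · rw [numNodes_shp]
    simp only [BinaryTree.numNodes]
    omega
  · rw [List.nodup_cons]
    exact ⟨fun h => hfr a h (by simp), hnd'⟩
  · rw [← hverts, ← hun, List.toFinset_cons]
    rfl
  · unfold decS
    have : (dec bits [a] fr).dropLast = ino (.node b t1 t2) := by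
      rw [hdec, hrest, List.dropLast_concat]
    simp only [this, labT_ino]
    exact hSF

end Code

theorem catalan_le_four_pow (n : ℕ) : catalan n ≤ 4 ^ n := by
  rw [catalan_eq_centralBinom_div]
  refine (Nat.div_le_self _ _).trans ?_
  rw [Nat.centralBinom_eq_two_mul_choose]
  refine (Nat.choose_le_two_pow _ _).trans ?_
  rw [pow_mul]
  norm_num

theorem sph_le (v : ℕ) : sph v ≤ catalan (2 * v - 3) * (2 ^ (2 * v - 2) * v.factorial) := by
  classical
  have hsub : ((univ : Finset (Finset (Finset (Fin v)))).filter
      (fun S => IsSphere S ∧ verts S = univ)) ⊆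
      ((BinaryTree.treesOfNumNodesEq (2 * v - 3)) ×ˢ
        ((univ : Finset (Fin (2 * v - 2) → Bool)) ×ˢ
          (List.finRange v).permutations.toFinset)).image
          (fun c => decS c.1 (List.ofFn c.2.1) c.2.2) := by
    intro S hS
    obtain ⟨-, hS, hv⟩ := mem_filter.1 hS
    obtain ⟨sh, bits, pm, h1, h2, h3, h4, h5⟩ := sphere_code hS
    have hPh := hS.2.2.2.2
    unfold Ph2 at hPh
    rw [hv, card_univ, Fintype.card_fin] at hPh
    have hne : 0 < S.card := card_pos.2 hS.2.2.2.1
    have hb : bits.length = 2 * v - 2 := by omega
    rw [mem_image]
    refine ⟨(sh, fun i => bits.get (i.cast hb.symm), pm), ?_, ?_⟩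
    · rw [mem_product, mem_product]
      refine ⟨?_, mem_univ _, ?_⟩
      · rw [BinaryTree.mem_treesOfNumNodesEq]
        show sh.numNodes = 2 * v - 3
        omega
      · rw [List.mem_toFinset, List.mem_permutations]
        rw [List.perm_ext_iff_of_nodup h3 (List.nodup_finRange v)]
        intro x
        have : x ∈ pm.toFinset := by rw [h4, hv]; exact mem_univ _
        simp only [List.mem_finRange, iff_true]
        exact List.mem_toFinset.1 this
    · have hbits : List.ofFn (fun i : Fin (2 * v - 2) => bits.get (i.cast hb.symm)) = bits := by
        apply List.ext_get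
        · simp [hb]
        · intro n h1 h2
          simp
      show decS sh (List.ofFn fun i : Fin (2 * v - 2) => bits.get (i.cast hb.symm)) pm = S
      rw [hbits, h5]
  have hcard := (card_le_card hsub).trans card_image_le
  rw [card_product, card_product, BinaryTree.treesOfNumNodesEq_card_eq_catalan] at hcard
  have hu : (univ : Finset (Fin (2 * v - 2) → Bool)).card = 2 ^ (2 * v - 2) := by
    rw [card_univ, Fintype.card_fun, Fintype.card_bool, Fintype.card_fin]
  have hp : (List.finRange v).permutations.toFinset.card ≤ v.factorial := by
    refine (List.toFinset_card_le _).trans ?_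
    rw [List.length_permutations, List.length_finRange]
  rw [hu] at hcard
  unfold sph
  refine hcard.trans ?_
  gcongr

theorem sph_exp_bound : ∃ C : ℝ, 1 ≤ C ∧ ∀ v : ℕ, (sph v : ℝ) ≤ C ^ v * (v.factorial : ℝ) := by
  refine ⟨64, by norm_num, fun v => ?_⟩
  have h : sph v ≤ 64 ^ v * v.factorial := by
    refine (sph_le v).trans ?_
    rw [← mul_assoc]
    refine Nat.mul_le_mul_right _ ?_
    calc catalan (2 * v - 3) * 2 ^ (2 * v - 2) ≤ 4 ^ (2 * v) * 2 ^ (2 * v) := by
          refine Nat.mul_le_mul ((catalan_le_four_pow _).trans ?_) ?_
          · exact Nat.pow_le_pow_right (by norm_num) (by omega)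
          · exact Nat.pow_le_pow_right (by norm_num) (by omega)
      _ = 64 ^ v := by
          rw [← mul_pow, pow_mul]
          norm_num
  exact_mod_cast h

end Pool.Agent.SC
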