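import Pool.Agent.Lib.MP_d0323d_co.FamBasic
import Pool.Agent.Lib.MP_d0323d_co.ExpBound
/-! Module ENC (9.2, 9.3): encodings and counting. -/
set_option autoImplicit false
namespace Pool.Agent.SC
open Finset

/-- `Enc Z W E` of 9.2 -/
def Enc {α β : Type} [DecidableEq α] [DecidableEq β] (Z : Finset (Finset α)) (W : Finset (Finset β))
    (E : ℕ) : Prop :=
  ∃ (P : β → Option α) (Gd : Finset β) (Del : Finset (Finset α)),
    Gd ⊆ verts W ∧ (∀ w ∈ Gd, ∃ x ∈ verts Z, P w = some x) ∧ Set.InjOn P (Gd : Set β) ∧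
    (verts W \ Gd).card ≤ E ∧ ((verts Z).filter (fun x => ∀ w ∈ Gd, P w ≠ some x)).card ≤ E ∧
    Del.card ≤ E ∧
    ∀ s : Finset α, s ∈ Z ↔ (s ∈ Del ∨ ∃ t ∈ W, (∀ w ∈ t, (P w).isSome) ∧
      ∀ x, x ∈ s ↔ ∃ w ∈ t, P w = some x)

theorem Enc.refl {α : Type} [DecidableEq α] (Z : Finset (Finset α)) : Enc Z Z 0 := by
  refine ⟨some, verts Z, ∅, Subset.rfl, fun w hw => ⟨w, hw, rfl⟩,
    fun a _ b _ h => Option.some_injective _ h, by simp, ?_, by simp, ?_⟩
  · rw [Nat.le_zero, card_eq_zero, filter_eq_empty_iff]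
    intro x hx h
    exact h x hx rfl
  · intro s
    constructor
    · intro hs
      exact Or.inr ⟨s, hs, by simp, fun x => by simp⟩
    · rintro (h | ⟨t, ht, -, h⟩)
      · exact absurd h (notMem_empty _)
      · have : s = t := Finset.ext fun x => by rw [h x]; simp
        exact this ▸ ht

theorem Enc.mono {α β : Type} [DecidableEq α] [DecidableEq β] {Z : Finset (Finset α)}
    {W : Finset (Finset β)} {E E' : ℕ} (h : Enc Z W E) (hE : E ≤ E') : Enc Z W E' := by
  obtain ⟨P, Gd, Del, h1, h2, h3, h4, h5, h6, h7⟩ := h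
  exact ⟨P, Gd, Del, h1, h2, h3, h4.trans hE, h5.trans hE, h6.trans hE, h7⟩

/-- push-forward of a set along a partial map -/
def pfw {α β : Type*} [DecidableEq α] (P : β → Option α) (t : Finset β) : Finset α :=
  t.biUnion (fun w => (P w).toFinset)

theorem mem_pfw {α β : Type*} [DecidableEq α] {P : β → Option α} {t : Finset β} {x : α} :
    x ∈ pfw P t ↔ ∃ w ∈ t, P w = some x := by
  simp [pfw, Option.mem_toFinset, Option.mem_def]

theorem Enc.trans {α β γ : Type} [DecidableEq α] [DecidableEq β] [DecidableEq γ]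
    {Z : Finset (Finset α)} {W : Finset (Finset β)} {W' : Finset (Finset γ)} {E E' : ℕ}
    (h : Enc Z W E) (h' : Enc W W' E') : Enc Z W' (E + E') := by
  classical
  obtain ⟨P, Gd, Del, h1, h2, h3, h4, h5, h6, h7⟩ := h
  obtain ⟨P', Gd', Del', h1', h2', h3', h4', h5', h6', h7'⟩ := h'
  set Gd2 : Finset γ := Gd'.filter (fun w' => ∃ w ∈ Gd, P' w' = some w) with hGd2
  refine ⟨fun w' => (P' w').bind P, Gd2,
    Del ∪ (Del'.filter (fun t => ∀ w ∈ t, (P w).isSome)).image (pfw P), ?_, ?_, ?_, ?_, ?_, ?_, ?_⟩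
  · exact (filter_subset _ _).trans h1'
  · intro w' hw'
    obtain ⟨hw1, w, hw, hw2⟩ := mem_filter.1 hw'
    obtain ⟨x, hx, hPx⟩ := h2 w hw
    exact ⟨x, hx, by simp [hw2, hPx]⟩
  · intro a ha b hb hab
    obtain ⟨ha1, u, hu, hau⟩ := mem_filter.1 (mem_coe.1 ha)
    obtain ⟨hb1, v, hv, hbv⟩ := mem_filter.1 (mem_coe.1 hb)
    have hPuv : P u = P v := by simpa [hau, hbv] using hab
    have huv := h3 hu hv hPuv
    subst huv
    exact h3' ha1 hb1 (hau.trans hbv.symm)
  · have hsub : verts W' \ Gd2 ⊆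
        (verts W' \ Gd') ∪ (Gd'.filter (fun w' => ∃ w ∈ verts W \ Gd, P' w' = some w)) := by
      intro w' hw'
      obtain ⟨hw1, hw2⟩ := mem_sdiff.1 hw'
      rw [mem_union]
      by_cases hG : w' ∈ Gd'
      · right
        obtain ⟨w, hw, hPw⟩ := h2' w' hG
        exact mem_filter.2 ⟨hG, w, mem_sdiff.2 ⟨hw, fun hwG =>
          hw2 (mem_filter.2 ⟨hG, w, hwG, hPw⟩)⟩, hPw⟩
      · left
        exact mem_sdiff.2 ⟨hw1, hG⟩
    have hinj : (Gd'.filter (fun w' => ∃ w ∈ verts W \ Gd, P' w' = some w)).card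
        ≤ (verts W \ Gd).card := by
      have key : ((Gd'.filter (fun w' => ∃ w ∈ verts W \ Gd, P' w' = some w)).image P').card ≤
          ((verts W \ Gd).image some).card := by
        apply card_le_card
        intro o ho
        obtain ⟨w', hw', rfl⟩ := mem_image.1 ho
        obtain ⟨_, w, hw, hPw⟩ := mem_filter.1 hw'
        exact mem_image.2 ⟨w, hw, hPw.symm⟩
      rw [card_image_of_injOn] at key
      · exact key.trans card_image_le
      · intro a ha b hb hab
        exact h3' (mem_filter.1 (mem_coe.1 ha)).1 (mem_filter.1 (mem_coe.1 hb)).1 hab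
    calc _ ≤ _ := card_le_card hsub
      _ ≤ _ := card_union_le _ _
      _ ≤ E + E' := by omega
  · have hsub : (verts Z).filter (fun x => ∀ w ∈ Gd2, (P' w).bind P ≠ some x) ⊆
        (verts Z).filter (fun x => ∀ w ∈ Gd, P w ≠ some x) ∪
        ((verts W).filter (fun w => ∀ w' ∈ Gd', P' w' ≠ some w)).biUnion
          (fun w => (P w).toFinset) := by
      intro x hx
      obtain ⟨hx1, hx2⟩ := mem_filter.1 hx
      rw [mem_union]
      by_cases hc : ∀ w ∈ Gd, P w ≠ some x
      · left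
        exact mem_filter.2 ⟨hx1, hc⟩
      · right
        push Not at hc
        obtain ⟨w, hw, hPw⟩ := hc
        refine mem_biUnion.2 ⟨w, mem_filter.2 ⟨h1 hw, ?_⟩, by simp [hPw]⟩
        intro w' hw' hPw'
        exact hx2 w' (mem_filter.2 ⟨hw', w, hw, hPw'⟩) (by simp [hPw', hPw])
    have hb : (((verts W).filter (fun w => ∀ w' ∈ Gd', P' w' ≠ some w)).biUnion
          (fun w => (P w).toFinset)).card ≤ E' := by
      refine card_biUnion_le.trans ?_
      refine (sum_le_sum (g := fun _ => 1) fun w _ => ?_).trans (by simpa using h5')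
      cases P w <;> simp
    calc _ ≤ _ := card_le_card hsub
      _ ≤ _ := card_union_le _ _
      _ ≤ E + E' := Nat.add_le_add h5 hb
  · calc _ ≤ _ := card_union_le _ _
      _ ≤ E + E' := Nat.add_le_add h6 (card_image_le.trans ((card_filter_le _ _).trans h6'))
  · intro s
    constructor
    · intro hs
      rcases (h7 s).1 hs with hD | ⟨t, ht, hdef, hst⟩
      · exact Or.inl (mem_union_left _ hD)
      · rcases (h7' t).1 ht with hD' | ⟨t', ht', hdef', htt'⟩
        · left
          refine mem_union_right _ (mem_image.2 ⟨t, mem_filter.2 ⟨hD', hdef⟩, ?_⟩)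
          ext x
          rw [mem_pfw, hst x]
        · right
          refine ⟨t', ht', ?_, ?_⟩
          · intro w' hw'
            obtain ⟨w, hw⟩ := Option.isSome_iff_exists.1 (hdef' w' hw')
            have := hdef w ((htt' w).2 ⟨w', hw', hw⟩)
            simpa [hw] using this
          · intro x
            rw [hst x]
            constructor
            · rintro ⟨w, hw, hPw⟩
              obtain ⟨w', hw', hPw'⟩ := (htt' w).1 hw
              exact ⟨w', hw', by simp [hPw', hPw]⟩
            · rintro ⟨w', hw', hPw'⟩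
              obtain ⟨w, hw1, hw2⟩ := Option.bind_eq_some_iff.1 hPw'
              exact ⟨w, (htt' w).2 ⟨w', hw', hw1⟩, hw2⟩
    · rintro (h | ⟨t', ht', hdef, hst⟩)
      · rcases mem_union.1 h with hD | hD
        · exact (h7 s).2 (Or.inl hD)
        · obtain ⟨t, ht, rfl⟩ := mem_image.1 hD
          obtain ⟨ht1, ht2⟩ := mem_filter.1 ht
          refine (h7 _).2 (Or.inr ⟨t, (h7' t).2 (Or.inl ht1), ht2, fun x => mem_pfw⟩)
      · have hsome : ∀ w' ∈ t', ∃ w, P' w' = some w ∧ (P w).isSome := by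
          intro w' hw'
          have := hdef w' hw'
          cases hP : P' w' with
          | none => simp [hP] at this
          | some w => exact ⟨w, rfl, by simpa [hP] using this⟩
        have hW : pfw P' t' ∈ W := by
          refine (h7' _).2 (Or.inr ⟨t', ht', ?_, fun x => mem_pfw⟩)
          intro w' hw'
          obtain ⟨w, hw, -⟩ := hsome w' hw'
          simp [hw]
        refine (h7 _).2 (Or.inr ⟨_, hW, ?_, ?_⟩)
        · intro w hw
          obtain ⟨w', hw', hPw'⟩ := mem_pfw.1 hw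
          obtain ⟨w2, hw2, hw3⟩ := hsome w' hw'
          rw [hPw'] at hw2
          cases hw2
          exact hw3
        · intro x
          rw [hst x]
          constructor
          · rintro ⟨w', hw', hPw'⟩
            obtain ⟨w, hw1, hw2⟩ := Option.bind_eq_some_iff.1 hPw'
            exact ⟨w, mem_pfw.2 ⟨w', hw', hw1⟩, hw2⟩
          · rintro ⟨w, hw, hPw⟩
            obtain ⟨w', hw', hPw'⟩ := mem_pfw.1 hw
            exact ⟨w', hw', by simp [hPw', hPw]⟩

/-- `W` is a disjoint union of at most `q` spheres: every dual component is a sphere and different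
dual components have disjoint vertex sets -/
def SphUnion {β : Type} [DecidableEq β] (W : Finset (Finset β)) (q : ℕ) : Prop :=
  ∃ 𝒮 : Finset (Finset (Finset β)), 𝒮.card ≤ q ∧ (∀ S ∈ 𝒮, IsSphere S) ∧
    (∀ S ∈ 𝒮, ∀ S' ∈ 𝒮, S ≠ S' → Disjoint (verts S) (verts S')) ∧ W = 𝒮.biUnion id

theorem verts_union {β : Type*} [DecidableEq β] (S T : Finset (Finset β)) :
    verts (S ∪ T) = verts S ∪ verts T := by
  ext x
  simp only [mem_verts, mem_union]
  constructor
  · rintro ⟨s, hs | hs, hx⟩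
    · exact Or.inl ⟨s, hs, hx⟩
    · exact Or.inr ⟨s, hs, hx⟩
  · rintro (⟨s, hs, hx⟩ | ⟨s, hs, hx⟩)
    · exact ⟨s, Or.inl hs, hx⟩
    · exact ⟨s, Or.inr hs, hx⟩

theorem SphUnion.succ {β : Type} [DecidableEq β] {W : Finset (Finset β)} {q : ℕ}
    (h : SphUnion W (q + 1)) :
    SphUnion W q ∨ ∃ S W' : Finset (Finset β), IsSphere S ∧ SphUnion W' q ∧
      Disjoint (verts S) (verts W') ∧ W = S ∪ W' := by
  obtain ⟨𝒮, h1, h2, h3, h4⟩ := h
  rcases 𝒮.eq_empty_or_nonempty with he | ⟨S, hS⟩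
  · left
    exact ⟨∅, by simp, by simp, by simp, by rw [h4, he]⟩
  · right
    refine ⟨S, (𝒮.erase S).biUnion id, h2 S hS, ⟨𝒮.erase S, ?_, ?_, ?_, rfl⟩, ?_, ?_⟩
    · rw [card_erase_of_mem hS]
      omega
    · exact fun T hT => h2 T (mem_of_mem_erase hT)
    · exact fun T hT T' hT' => h3 T (mem_of_mem_erase hT) T' (mem_of_mem_erase hT')
    · rw [disjoint_left]
      intro x hx hx'
      obtain ⟨t, ht, hxt⟩ := mem_verts.1 hx'
      obtain ⟨T, hT, htT⟩ := mem_biUnion.1 ht
      exact disjoint_left.1 (h3 S hS T (mem_of_mem_erase hT) (ne_of_mem_erase hT).symm) hx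
        (mem_verts.2 ⟨t, htT, hxt⟩)
    · rw [h4]
      conv_lhs => rw [← insert_erase hS, biUnion_insert]
      rfl

/-- number of subsets of size at most `m` -/
theorem card_small {γ : Type*} [DecidableEq γ] (U : Finset γ) (m : ℕ) :
    (U.powerset.filter (fun T => T.card ≤ m)).card ≤ (U.card + 1) ^ m := by
  classical
  induction m with
  | zero =>
    rw [pow_zero, card_le_one]
    intro a ha b hb
    have h1 := (mem_filter.1 ha).2
    have h2 := (mem_filter.1 hb).2
    rw [Nat.le_zero, card_eq_zero] at h1 h2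
    rw [h1, h2]
  | succ m ih =>
    have hsub : U.powerset.filter (fun T => T.card ≤ m + 1) ⊆
        ((U.powerset.filter (fun T => T.card ≤ m)) ×ˢ (insertNone U)).image
          (fun p => p.2.elim p.1 (fun u => insert u p.1)) := by
      intro T hT
      obtain ⟨hT1, hT2⟩ := mem_filter.1 hT
      rw [mem_powerset] at hT1
      rcases T.eq_empty_or_nonempty with rfl | ⟨u, hu⟩
      · refine mem_image.2 ⟨(∅, none), ?_, rfl⟩
        simp
      · refine mem_image.2 ⟨(T.erase u, some u), ?_, by simp [insert_erase hu]⟩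
        rw [mem_product, mem_filter, mem_powerset]
        refine ⟨⟨(erase_subset _ _).trans hT1, ?_⟩, by simpa using hT1 hu⟩
        simp only
        rw [card_erase_of_mem hu]
        omega
    calc _ ≤ _ := card_le_card hsub
      _ ≤ _ := card_image_le
      _ = (U.powerset.filter (fun T => T.card ≤ m)).card * (U.card + 1) := by
        rw [card_product, card_insertNone]
      _ ≤ (U.card + 1) ^ m * (U.card + 1) := Nat.mul_le_mul_right _ ih
      _ = _ := by rw [pow_succ]

open Classical in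
/-- disjoint unions of at most `q` spheres with vertex set `A` -/
noncomputable def sU {α : Type} [Fintype α] [DecidableEq α] (q : ℕ) (A : Finset α) :
    Finset (Finset (Finset α)) :=
  (univ : Finset (Finset (Finset α))).filter (fun W => SphUnion W q ∧ verts W = A)

theorem mem_sU {α : Type} [Fintype α] [DecidableEq α] {q : ℕ} {A : Finset α}
    {W : Finset (Finset α)} : W ∈ sU q A ↔ SphUnion W q ∧ verts W = A := by
  classical
  unfold sU
  simp

/-- number of disjoint unions of at most `q` spheres with vertex set `A` -/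
noncomputable def nU {α : Type} [Fintype α] [DecidableEq α] (q : ℕ) (A : Finset α) : ℕ :=
  (sU q A).card

theorem nU_succ {α : Type} [Fintype α] [DecidableEq α] (q : ℕ) (A : Finset α) :
    nU (q + 1) A ≤ nU q A + ∑ B ∈ A.powerset, sph B.card * nU q (A \ B) := by
  classical
  set sp : Finset α → Finset (Finset (Finset α)) := fun B =>
    (univ : Finset (Finset (Finset α))).filter (fun S => IsSphere S ∧ verts S = B) with hsp
  have hsub : sU (q + 1) A ⊆ sU q A ∪
        A.powerset.biUnion (fun B => ((sp B) ×ˢ (sU q (A \ B))).image (fun p => p.1 ∪ p.2)) := by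
    intro W hW
    obtain ⟨hW1, hW2⟩ := mem_sU.1 hW
    rw [mem_union]
    rcases hW1.succ with h | ⟨S, W', hS, hW', hd, rfl⟩
    · left
      exact mem_sU.2 ⟨h, hW2⟩
    · right
      rw [verts_union] at hW2
      refine mem_biUnion.2 ⟨verts S, mem_powerset.2 (hW2 ▸ subset_union_left),
        mem_image.2 ⟨(S, W'), mem_product.2 ⟨mem_filter.2 ⟨mem_univ _, hS, rfl⟩,
          mem_sU.2 ⟨hW', ?_⟩⟩, rfl⟩⟩
      rw [← hW2, union_sdiff_left]
      exact (sdiff_eq_self_of_disjoint hd.symm).symm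
  have hsph : ∀ B : Finset α, (sp B).card = sph B.card := by
    intro B
    rw [← card_spheres B, Nat.card_eq_fintype_card, Fintype.card_subtype]
  unfold nU
  calc (sU (q + 1) A).card ≤ _ := card_le_card hsub
    _ ≤ _ := card_union_le _ _
    _ ≤ _ := by
      refine Nat.add_le_add le_rfl (card_biUnion_le.trans (sum_le_sum fun B _ => ?_))
      refine card_image_le.trans ?_
      rw [card_product, hsph]

theorem nU_le {a Γ : ℝ} (ha : 1 ≤ a) (hΓ : 1 ≤ Γ)
    (hs : ∀ v : ℕ, (sph v : ℝ) ≤ a * (v.factorial : ℝ) * Γ ^ v) {α : Type} [Fintype α]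
    [DecidableEq α] (q : ℕ) : ∀ A : Finset α,
    (nU q A : ℝ) ≤ (a * ((A.card : ℝ) + 2)) ^ q * ((A.card.factorial : ℝ) * Γ ^ A.card) := by
  classical
  induction q with
  | zero =>
    intro A
    rw [pow_zero, one_mul]
    have h1 : (nU 0 A : ℝ) ≤ 1 := by
      have : nU 0 A ≤ 1 := by
        unfold nU
        rw [card_le_one]
        intro W hW W' hW'
        have key : ∀ W : Finset (Finset α), SphUnion W 0 → W = ∅ := by
          rintro W ⟨𝒮, h1, -, -, h4⟩
          rw [Nat.le_zero, card_eq_zero] at h1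
          rw [h4, h1, biUnion_empty]
        rw [key W (mem_sU.1 hW).1, key W' (mem_sU.1 hW').1]
      exact_mod_cast this
    have h2 : (1 : ℝ) ≤ (A.card.factorial : ℝ) := by
      exact_mod_cast Nat.one_le_iff_ne_zero.2 (Nat.factorial_ne_zero _)
    have h3 : (1 : ℝ) ≤ Γ ^ A.card := one_le_pow₀ hΓ
    nlinarith
  | succ q ih =>
    intro A
    set n := A.card with hn
    set K : ℝ := (a * ((n : ℝ) + 2)) ^ q with hK
    have hn2 : (1 : ℝ) ≤ a * ((n : ℝ) + 2) := by
      have : (0 : ℝ) ≤ n := Nat.cast_nonneg n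
      nlinarith
    have hK0 : 0 ≤ K := by positivity
    have hΓ0 : 0 < Γ := by linarith
    set F : ℝ := (n.factorial : ℝ) * Γ ^ n with hF
    have hF0 : 0 ≤ F := by positivity
    have h1 : (nU q A : ℝ) ≤ K * F := ih A
    have h2 : ((∑ B ∈ A.powerset, sph B.card * nU q (A \ B) : ℕ) : ℝ) ≤ ((n : ℝ) + 1) * (a * K * F) := by
      push_cast
      have hterm : ∀ B ∈ A.powerset, (sph B.card : ℝ) * (nU q (A \ B) : ℝ) ≤
          (fun b : ℕ => a * K * Γ ^ n * ((b.factorial : ℝ) * ((n - b).factorial : ℝ))) B.card := by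
        intro B hB
        rw [mem_powerset] at hB
        have hle : B.card ≤ n := card_le_card hB
        have hc : (A \ B).card = n - B.card := by rw [card_sdiff_of_subset hB]
        have hih := ih (A \ B)
        rw [hc] at hih
        have hmono : (a * (((n - B.card : ℕ) : ℝ) + 2)) ^ q ≤ K := by
          apply pow_le_pow_left₀ (by positivity)
          have : ((n - B.card : ℕ) : ℝ) ≤ (n : ℝ) := by exact_mod_cast Nat.sub_le _ _
          nlinarith
        have h3 : (nU q (A \ B) : ℝ) ≤ K * (((n - B.card).factorial : ℝ) * Γ ^ (n - B.card)) :=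
          hih.trans (mul_le_mul_of_nonneg_right hmono (by positivity))
        calc (sph B.card : ℝ) * (nU q (A \ B) : ℝ)
            ≤ (a * (B.card.factorial : ℝ) * Γ ^ B.card) *
              (K * (((n - B.card).factorial : ℝ) * Γ ^ (n - B.card))) :=
              mul_le_mul (hs _) h3 (Nat.cast_nonneg _) (by positivity)
          _ = a * K * (Γ ^ B.card * Γ ^ (n - B.card)) *
              ((B.card.factorial : ℝ) * ((n - B.card).factorial : ℝ)) := by ring
          _ = _ := by rw [← pow_add, Nat.add_sub_cancel' hle]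
      refine (sum_le_sum hterm).trans ?_
      rw [Finset.sum_powerset_apply_card
        (fun b : ℕ => a * K * Γ ^ n * ((b.factorial : ℝ) * ((n - b).factorial : ℝ)))]
      have hterm2 : ∀ b ∈ range (n + 1), n.choose b •
          (a * K * Γ ^ n * ((b.factorial : ℝ) * ((n - b).factorial : ℝ))) = a * K * F := by
        intro b hb
        have hb' : b ≤ n := by simpa [Nat.lt_succ_iff] using hb
        rw [nsmul_eq_mul, hF, ← Nat.choose_mul_factorial_mul_factorial hb']
        push_cast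
        ring
      rw [← hn, sum_congr rfl hterm2, sum_const, card_range, nsmul_eq_mul]
      push_cast
      exact le_rfl
    calc (nU (q + 1) A : ℝ) ≤ ((nU q A + ∑ B ∈ A.powerset, sph B.card * nU q (A \ B) : ℕ) : ℝ) := by
          exact_mod_cast nU_succ q A
      _ = (nU q A : ℝ) + ((∑ B ∈ A.powerset, sph B.card * nU q (A \ B) : ℕ) : ℝ) := by
          rw [Nat.cast_add]
      _ ≤ K * F + ((n : ℝ) + 1) * (a * K * F) := add_le_add h1 h2
      _ ≤ (a * ((n : ℝ) + 2)) ^ (q + 1) * F := by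
          rw [pow_succ, ← hK]
          have : 0 ≤ K * F := mul_nonneg hK0 hF0
          nlinarith

/-! ### Renaming -/

theorem verts_image {β γ : Type*} [DecidableEq β] [DecidableEq γ] (S : Finset (Finset β))
    (g : β → γ) : verts (S.image (fun s => s.image g)) = (verts S).image g := by
  ext x
  simp only [mem_verts, mem_image]
  constructor
  · rintro ⟨_, ⟨s, hs, rfl⟩, hx⟩
    obtain ⟨y, hy, rfl⟩ := mem_image.1 hx
    exact ⟨y, ⟨s, hs, hy⟩, rfl⟩
  · rintro ⟨y, ⟨s, hs, hy⟩, rfl⟩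
    exact ⟨_, ⟨s, hs, rfl⟩, mem_image_of_mem _ hy⟩

theorem isSphere_image {β γ : Type*} [DecidableEq β] [DecidableEq γ] {S : Finset (Finset β)}
    {g : β → γ} (hg : Set.InjOn g (verts S : Set β)) (hS : IsSphere S) :
    IsSphere (S.image (fun s => s.image g)) := by
  classical
  set f : {x // x ∈ verts S} ↪ β := Function.Embedding.subtype _ with hf
  obtain ⟨S0, hS0, -⟩ := exists_mapF f (S' := S) (A := univ) (by
    intro x hx
    exact mem_map.2 ⟨⟨x, hx⟩, mem_univ _, rfl⟩)
  set g' : {x // x ∈ verts S} ↪ γ := ⟨fun x => g x.1, fun x y h => Subtype.ext (hg x.2 y.2 h)⟩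
    with hg'
  have key : S.image (fun s => s.image g) = mapF g' S0 := by
    ext t
    rw [mem_mapF, mem_image]
    constructor
    · rintro ⟨s, hs, rfl⟩
      rw [← hS0] at hs
      obtain ⟨s0, hs0, rfl⟩ := (mem_mapF f).1 hs
      refine ⟨s0, hs0, ?_⟩
      ext x
      simp only [mem_map, mem_image, hg', hf, Function.Embedding.subtype_apply]
      constructor
      · rintro ⟨y, hy, rfl⟩
        exact ⟨y.1, ⟨y, hy, rfl⟩, rfl⟩
      · rintro ⟨_, ⟨y, hy, rfl⟩, rfl⟩
        exact ⟨y, hy, rfl⟩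
    · rintro ⟨s0, hs0, rfl⟩
      have hmem : s0.map f ∈ S := by
        have := (map_mem_mapF f).2 hs0
        rwa [hS0] at this
      refine ⟨s0.map f, hmem, ?_⟩
      ext x
      simp only [mem_map, mem_image, hg', hf, Function.Embedding.subtype_apply]
      constructor
      · rintro ⟨_, ⟨y, hy, rfl⟩, rfl⟩
        exact ⟨y, hy, rfl⟩
      · rintro ⟨y, hy, rfl⟩
        exact ⟨y.1, ⟨y, hy, rfl⟩, rfl⟩
  rw [key, mapF_isSphere, ← mapF_isSphere f, hS0]
  exact hS

theorem verts_biUnion {β : Type*} [DecidableEq β] {𝒮 : Finset (Finset (Finset β))}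
    {S : Finset (Finset β)} (hS : S ∈ 𝒮) : verts S ⊆ verts (𝒮.biUnion id) :=
  verts_mono (fun _ hs => mem_biUnion.2 ⟨S, hS, hs⟩)

theorem SphUnion.image {β γ : Type} [DecidableEq β] [DecidableEq γ] {W : Finset (Finset β)} {q : ℕ}
    {g : β → γ} (hg : Set.InjOn g (verts W : Set β)) (h : SphUnion W q) :
    SphUnion (W.image (fun s => s.image g)) q := by
  classical
  obtain ⟨𝒮, h1, h2, h3, h4⟩ := h
  have hsub : ∀ S ∈ 𝒮, verts S ⊆ verts W := fun S hS => h4 ▸ verts_biUnion hS
  refine ⟨𝒮.image (fun S => S.image (fun s => s.image g)), card_image_le.trans h1, ?_, ?_, ?_⟩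
  · intro S' hS'
    obtain ⟨S, hS, rfl⟩ := mem_image.1 hS'
    exact isSphere_image (hg.mono (coe_subset.2 (hsub S hS))) (h2 S hS)
  · intro S' hS' T' hT' hne
    obtain ⟨S, hS, rfl⟩ := mem_image.1 hS'
    obtain ⟨T, hT, rfl⟩ := mem_image.1 hT'
    have hST : S ≠ T := fun h => hne (by rw [h])
    rw [verts_image, verts_image, disjoint_left]
    intro x hx hx'
    obtain ⟨y, hy, rfl⟩ := mem_image.1 hx
    obtain ⟨z, hz, hyz⟩ := mem_image.1 hx'
    have : z = y := hg (hsub T hT hz) (hsub S hS hy) hyz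
    subst this
    exact disjoint_left.1 (h3 S hS T hT hST) hy hz
  · rw [h4]
    ext t
    simp only [mem_image, mem_biUnion, id]
    constructor
    · rintro ⟨s, ⟨S, hS, hs⟩, rfl⟩
      exact ⟨_, ⟨S, hS, rfl⟩, mem_image_of_mem _ hs⟩
    · rintro ⟨_, ⟨S, hS, rfl⟩, ht⟩
      obtain ⟨s, hs, rfl⟩ := mem_image.1 ht
      exact ⟨s, ⟨S, hS, hs⟩, rfl⟩

/-! ### Decoding -/

/-- the standard partial map `[v+E] → [v]` -/
def P0 (v E : ℕ) (w : Fin (v + E)) : Option (Fin v) := if h : w.1 < v then some ⟨w.1, h⟩ else none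

/-- decoding -/
def dcd {v N : ℕ} (P : Fin N → Option (Fin v)) (W : Finset (Finset (Fin N)))
    (Del : Finset (Finset (Fin v))) : Finset (Finset (Fin v)) :=
  Del ∪ (W.filter (fun t => ∀ w ∈ t, (P w).isSome)).image (pfw P)

theorem enc_data {v q E : ℕ} (hE : 1 ≤ E) {Z : Finset (Finset (Fin v))} (hZ : IsFam Z)
    (hv : verts Z = univ)
    {β : Type} [DecidableEq β] {W : Finset (Finset β)} (hW : SphUnion W q) (h : Enc Z W E) :
    ∃ (P : Fin (v + E) → Option (Fin v)) (W1 : Finset (Finset (Fin (v + E))))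
      (Del : Finset (Finset (Fin v))),
      (univ.filter (fun w => P w ≠ P0 v E w)).card ≤ E ∧
      SphUnion W1 q ∧ (verts W1)ᶜ.card ≤ 2 * E ∧
      Del.card ≤ E ∧ (∀ s ∈ Del, s.card = 3) ∧ Z = dcd P W1 Del := by
  classical
  obtain ⟨P, Gd, Del, h1, h2, h3, h4, h5, h6, h7⟩ := h
  -- numbering of the bad vertices
  obtain ⟨num, hnum⟩ : ∃ num : β → Fin E, Set.InjOn num (↑(verts W \ Gd) : Set β) := by
    refine ⟨fun w => if h : w ∈ verts W \ Gd then
      Fin.castLE h4 ((verts W \ Gd).equivFin ⟨w, h⟩) else ⟨0, hE⟩, ?_⟩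
    intro a ha b hb hab
    have ha' : a ∈ verts W \ Gd := mem_coe.1 ha
    have hb' : b ∈ verts W \ Gd := mem_coe.1 hb
    simp only [ha', hb', dif_pos] at hab
    have := (verts W \ Gd).equivFin.injective (Fin.castLE_injective h4 hab)
    exact congrArg Subtype.val this
  set ν : β → Fin (v + E) := fun w =>
    if w ∈ Gd then (P w).elim ⟨0, by omega⟩ (Fin.castAdd E) else Fin.natAdd v (num w) with hν
  have hνG : ∀ w ∈ Gd, ∀ x, P w = some x → ν w = Fin.castAdd E x := by
    intro w hw x hx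
    simp only [hν, hw, if_true, hx, Option.elim]
  have hνB : ∀ w, w ∉ Gd → ν w = Fin.natAdd v (num w) := by
    intro w hw
    simp only [hν, hw, if_false]
  have hinj : Set.InjOn ν (verts W : Set β) := by
    intro a ha b hb hab
    have ha' : a ∈ verts W := mem_coe.1 ha
    have hb' : b ∈ verts W := mem_coe.1 hb
    by_cases hA : a ∈ Gd
    · obtain ⟨x, -, hx⟩ := h2 a hA
      rw [hνG a hA x hx] at hab
      by_cases hB : b ∈ Gd
      · obtain ⟨y, -, hy⟩ := h2 b hB
        rw [hνG b hB y hy] at hab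
        have hxy : x = y := Fin.castAdd_injective _ _ hab
        exact h3 hA hB (by rw [hx, hy, hxy])
      · rw [hνB b hB] at hab
        have := congrArg Fin.val hab
        simp only [Fin.val_castAdd, Fin.val_natAdd] at this
        have := x.2
        omega
    · rw [hνB a hA] at hab
      by_cases hB : b ∈ Gd
      · obtain ⟨y, -, hy⟩ := h2 b hB
        rw [hνG b hB y hy] at hab
        have := congrArg Fin.val hab
        simp only [Fin.val_castAdd, Fin.val_natAdd] at this
        have := y.2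
        omega
      · rw [hνB b hB] at hab
        exact hnum (mem_coe.2 (mem_sdiff.2 ⟨ha', hA⟩)) (mem_coe.2 (mem_sdiff.2 ⟨hb', hB⟩))
          (Fin.natAdd_injective _ _ hab)
  set P1 : Fin (v + E) → Option (Fin v) := fun i =>
    if h : ∃ w ∈ verts W, ν w = i then P h.choose else P0 v E i with hP1
  have hP1ν : ∀ w ∈ verts W, P1 (ν w) = P w := by
    intro w hw
    have hex : ∃ w' ∈ verts W, ν w' = ν w := ⟨w, hw, rfl⟩
    simp only [hP1, dif_pos hex]
    rw [hinj hex.choose_spec.1 hw hex.choose_spec.2]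
  have hpf : ∀ t ∈ W, pfw P1 (t.image ν) = pfw P t := by
    intro t ht
    ext x
    rw [mem_pfw, mem_pfw]
    constructor
    · rintro ⟨i, hi, hx⟩
      obtain ⟨w, hw, rfl⟩ := mem_image.1 hi
      rw [hP1ν w (mem_verts.2 ⟨t, ht, hw⟩)] at hx
      exact ⟨w, hw, hx⟩
    · rintro ⟨w, hw, hx⟩
      exact ⟨ν w, mem_image_of_mem _ hw, by rw [hP1ν w (mem_verts.2 ⟨t, ht, hw⟩), hx]⟩
  have hdef : ∀ t ∈ W, (∀ i ∈ t.image ν, (P1 i).isSome) ↔ ∀ w ∈ t, (P w).isSome := by
    intro t ht
    constructor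
    · intro h w hw
      have := h (ν w) (mem_image_of_mem _ hw)
      rwa [hP1ν w (mem_verts.2 ⟨t, ht, hw⟩)] at this
    · intro h i hi
      obtain ⟨w, hw, rfl⟩ := mem_image.1 hi
      rw [hP1ν w (mem_verts.2 ⟨t, ht, hw⟩)]
      exact h w hw
  have hGd : v ≤ E + Gd.card := by
    have hsub : (univ : Finset (Fin v)) ⊆ (verts Z).filter (fun x => ∀ w ∈ Gd, P w ≠ some x) ∪
        Gd.biUnion (fun w => (P w).toFinset) := by
      intro x _
      rw [mem_union]
      by_cases hc : ∀ w ∈ Gd, P w ≠ some x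
      · left
        exact mem_filter.2 ⟨hv ▸ mem_univ x, hc⟩
      · right
        push Not at hc
        obtain ⟨w, hw, hPw⟩ := hc
        exact mem_biUnion.2 ⟨w, hw, by simp [hPw]⟩
    have hb : (Gd.biUnion (fun w => (P w).toFinset)).card ≤ Gd.card := by
      refine card_biUnion_le.trans ?_
      refine (sum_le_sum (g := fun _ => 1) fun w _ => ?_).trans (by simp)
      cases P w <;> simp
    have := (card_le_card hsub).trans (card_union_le _ _)
    rw [card_univ, Fintype.card_fin] at this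
    omega
  refine ⟨P1, W.image (fun s => s.image ν), Del, ?_, hW.image hinj, ?_, h6, ?_, ?_⟩
  · refine le_trans (card_le_card ?_) ((card_image_le (f := ν)).trans h4)
    intro i hi
    obtain ⟨-, hi⟩ := mem_filter.1 hi
    by_cases hex : ∃ w ∈ verts W, ν w = i
    · obtain ⟨w, hw, rfl⟩ := hex
      rw [hP1ν w hw] at hi
      refine mem_image.2 ⟨w, mem_sdiff.2 ⟨hw, fun hG => hi ?_⟩, rfl⟩
      obtain ⟨x, -, hx⟩ := h2 w hG
      rw [hνG w hG x hx, hx]
      simp [P0]
    · exact absurd (by simp only [hP1, dif_neg hex]) hi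
  · rw [verts_image, card_compl, card_image_of_injOn hinj, Fintype.card_fin]
    have := card_le_card h1
    omega
  · intro s hs
    exact hZ s ((h7 s).2 (Or.inl hs))
  · ext s
    rw [h7 s, dcd, mem_union]
    apply or_congr_right
    rw [mem_image]
    constructor
    · rintro ⟨t, ht, hd, hs⟩
      refine ⟨t.image ν, mem_filter.2 ⟨mem_image_of_mem _ ht, (hdef t ht).2 hd⟩, ?_⟩
      rw [hpf t ht]
      ext x
      rw [hs x, mem_pfw]
    · rintro ⟨t', ht', rfl⟩
      obtain ⟨ht1, ht2⟩ := mem_filter.1 ht'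
      obtain ⟨t, ht, rfl⟩ := mem_image.1 ht1
      refine ⟨t, ht, (hdef t ht).1 ht2, fun x => ?_⟩
      rw [hpf t ht, mem_pfw]

/-! ### Counting -/

theorem card_P (v E : ℕ) :
    ((univ : Finset (Fin (v + E) → Option (Fin v))).filter
      (fun P => (univ.filter (fun w => P w ≠ P0 v E w)).card ≤ E)).card ≤
      ((v + E) * (v + 1) + 1) ^ E := by
  classical
  have hU : (univ : Finset (Fin (v + E) × Option (Fin v))).card = (v + E) * (v + 1) := by
    rw [card_univ, Fintype.card_prod, Fintype.card_fin, Fintype.card_option, Fintype.card_fin]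
  rw [← hU]
  refine le_trans ?_ (card_small _ E)
  refine card_le_card_of_injOn
    (fun P => (univ.filter (fun w => P w ≠ P0 v E w)).image (fun w => (w, P w))) ?_ ?_
  · intro P hP
    have hP' := (mem_filter.1 (mem_coe.1 hP)).2
    refine mem_coe.2 (mem_filter.2 ⟨mem_powerset.2 (subset_univ _), ?_⟩)
    exact card_image_le.trans hP'
  · intro P _ Q _ hPQ
    simp only at hPQ
    have key : ∀ P Q : Fin (v + E) → Option (Fin v),
        (univ.filter (fun w => P w ≠ P0 v E w)).image (fun w => (w, P w)) ⊆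
        (univ.filter (fun w => Q w ≠ P0 v E w)).image (fun w => (w, Q w)) →
        ∀ w, P w ≠ P0 v E w → P w = Q w := by
      intro P Q h w hw
      have : (w, P w) ∈ (univ.filter (fun w => Q w ≠ P0 v E w)).image (fun w => (w, Q w)) :=
        h (mem_image.2 ⟨w, mem_filter.2 ⟨mem_univ _, hw⟩, rfl⟩)
      obtain ⟨w', -, hw'⟩ := mem_image.1 this
      obtain ⟨h1, h2⟩ := Prod.mk.inj hw'
      rw [← h2, h1]
    funext w
    by_cases h1 : P w = P0 v E w
    · by_cases h2 : Q w = P0 v E w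
      · rw [h1, h2]
      · exact (key Q P hPQ.ge w h2).symm
    · exact key P Q hPQ.le w h1

theorem fact_add_le (v E : ℕ) : (v + E).factorial ≤ v.factorial * (v + E) ^ E := by
  rw [← Nat.factorial_mul_ascFactorial]
  exact Nat.mul_le_mul_left _ (Nat.ascFactorial_le_pow_add v E)

theorem card_W {A Γ : ℝ} (hA : 1 ≤ A) (hΓ : 1 ≤ Γ)
    (hs : ∀ v : ℕ, (sph v : ℝ) ≤ A * (v.factorial : ℝ) * Γ ^ v) (v q E : ℕ)
    (WW : Finset (Finset (Finset (Fin (v + E)))))
    (hWW : ∀ W ∈ WW, SphUnion W q ∧ (verts W)ᶜ.card ≤ 2 * E) :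
    (WW.card : ℝ) ≤ ((v : ℝ) + E + 2) ^ (2 * E) * ((A * ((v : ℝ) + E + 2)) ^ q *
      ((v.factorial : ℝ) * ((v : ℝ) + E + 2) ^ E * (Γ ^ v * Γ ^ E))) := by
  classical
  set x : ℝ := (v : ℝ) + E + 2 with hx
  have hv0 : (0 : ℝ) ≤ (v : ℝ) := Nat.cast_nonneg v
  have hE0 : (0 : ℝ) ≤ (E : ℝ) := Nat.cast_nonneg E
  have hA0 : 0 < A := by linarith
  have hΓ0 : 0 < Γ := by linarith
  have hx0 : 0 < x := by linarith
  set B : ℝ := (A * x) ^ q * ((v.factorial : ℝ) * x ^ E * (Γ ^ v * Γ ^ E)) with hB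
  set I : Finset (Finset (Fin (v + E))) :=
    (univ : Finset (Fin (v + E))).powerset.filter (fun T => T.card ≤ 2 * E) with hI
  have h1 : WW.card ≤ ∑ T ∈ I, nU q Tᶜ := by
    have hsub : WW ⊆ I.biUnion (fun T => sU q Tᶜ) := by
      intro W hW
      obtain ⟨hW1, hW2⟩ := hWW W hW
      exact mem_biUnion.2 ⟨(verts W)ᶜ, mem_filter.2 ⟨mem_powerset.2 (subset_univ _), hW2⟩,
        mem_sU.2 ⟨hW1, (compl_compl _).symm⟩⟩
    have h2 := (card_le_card hsub).trans card_biUnion_le
    exact h2
  have h2 : ∀ T ∈ I, (nU q Tᶜ : ℝ) ≤ B := by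
    intro T _
    refine (nU_le hA hΓ hs q Tᶜ).trans ?_
    have hcard : Tᶜ.card ≤ v + E := by
      calc Tᶜ.card ≤ Fintype.card (Fin (v + E)) := card_le_univ _
        _ = v + E := Fintype.card_fin _
    have hc : ((Tᶜ.card : ℕ) : ℝ) ≤ (v : ℝ) + E := by exact_mod_cast hcard
    apply mul_le_mul
    · apply pow_le_pow_left₀ (by positivity)
      apply mul_le_mul_of_nonneg_left _ (by linarith)
      linarith
    · apply mul_le_mul
      · have h3 : Tᶜ.card.factorial ≤ v.factorial * (v + E) ^ E :=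
          (Nat.factorial_le hcard).trans (fact_add_le v E)
        have h4 : ((Tᶜ.card.factorial : ℕ) : ℝ) ≤ (v.factorial : ℝ) * ((v : ℝ) + E) ^ E := by
          exact_mod_cast h3
        refine h4.trans ?_
        apply mul_le_mul_of_nonneg_left _ (Nat.cast_nonneg _)
        apply pow_le_pow_left₀ (by positivity)
        linarith
      · rw [← pow_add]
        exact pow_le_pow_right₀ hΓ hcard
      · positivity
      · positivity
    · positivity
    · positivity
  have h3 : (I.card : ℝ) ≤ x ^ (2 * E) := by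
    have h4 := card_small (univ : Finset (Fin (v + E))) (2 * E)
    rw [card_univ, Fintype.card_fin] at h4
    have h5 : (I.card : ℝ) ≤ ((v + E + 1 : ℕ) : ℝ) ^ (2 * E) := by
      exact_mod_cast h4
    refine h5.trans (pow_le_pow_left₀ (Nat.cast_nonneg _) ?_ _)
    push_cast
    linarith
  have hB0 : 0 ≤ B := by positivity
  have h6 : (WW.card : ℝ) ≤ ∑ T ∈ I, (nU q Tᶜ : ℝ) := by
    exact_mod_cast h1
  calc (WW.card : ℝ) ≤ ∑ T ∈ I, (nU q Tᶜ : ℝ) := h6
    _ ≤ ∑ T ∈ I, B := sum_le_sum h2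
    _ = (I.card : ℝ) * B := by rw [sum_const, nsmul_eq_mul]
    _ ≤ x ^ (2 * E) * B := mul_le_mul_of_nonneg_right h3 hB0

theorem card_PD (v E : ℕ) (hE : 1 ≤ E) :
    (((univ : Finset (Fin (v + E) → Option (Fin v))).filter
      (fun P => (univ.filter (fun w => P w ≠ P0 v E w)).card ≤ E)).card : ℝ) ≤
      ((v : ℝ) + E + 2) ^ (2 * E) ∧
    ((((univ : Finset (Fin v)).powersetCard 3).powerset.filter (fun D => D.card ≤ E)).card : ℝ) ≤
      ((v : ℝ) + E + 2) ^ (3 * E) := by
  have hE1 : (1 : ℝ) ≤ (E : ℝ) := by exact_mod_cast hE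
  have hv0 : (0 : ℝ) ≤ (v : ℝ) := Nat.cast_nonneg v
  constructor
  · have h1 : (((univ : Finset (Fin (v + E) → Option (Fin v))).filter
      (fun P => (univ.filter (fun w => P w ≠ P0 v E w)).card ≤ E)).card : ℝ) ≤
        (((v + E) * (v + 1) + 1 : ℕ) : ℝ) ^ E := by
      exact_mod_cast card_P v E
    refine h1.trans ?_
    rw [pow_mul]
    apply pow_le_pow_left₀ (Nat.cast_nonneg _)
    push_cast
    nlinarith
  · have h2 : (((univ : Finset (Fin v)).powersetCard 3).powerset.filter
        (fun D => D.card ≤ E)).card ≤ (v ^ 3 + 1) ^ E := by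
      refine (card_small _ E).trans (Nat.pow_le_pow_left ?_ E)
      rw [card_powersetCard, card_univ, Fintype.card_fin]
      exact Nat.add_le_add_right (Nat.choose_le_pow _ _) 1
    have h1 : ((((univ : Finset (Fin v)).powersetCard 3).powerset.filter
        (fun D => D.card ≤ E)).card : ℝ) ≤ ((v ^ 3 + 1 : ℕ) : ℝ) ^ E := by
      exact_mod_cast h2
    refine h1.trans ?_
    rw [pow_mul]
    apply pow_le_pow_left₀ (Nat.cast_nonneg _)
    push_cast
    have h3 : ((v : ℝ) + 3) ^ 3 ≤ ((v : ℝ) + E + 2) ^ 3 := by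
      apply pow_le_pow_left₀ (by linarith)
      linarith
    nlinarith [mul_nonneg hv0 hv0]

theorem enc_real {A Γ x v! : ℝ} (hA : 1 ≤ A) (hΓ : 1 ≤ Γ) (hx3 : 3 ≤ x) (hv : 0 ≤ v!)
    (v q E : ℕ) :
    x ^ (2 * E) * (x ^ (2 * E) * ((A * x) ^ q * (v! * x ^ E * (Γ ^ v * Γ ^ E))) * x ^ (3 * E)) ≤
      v! * Γ ^ v * Real.exp ((Real.log A + Real.log Γ + 8) * ((q : ℝ) + E) * Real.log x) := by
  have hx0 : 0 < x := by linarith
  have hA0 : 0 < A := by linarith
  have hΓ0 : 0 < Γ := by linarith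
  have hlog : 1 ≤ Real.log x := by
    rw [Real.le_log_iff_exp_le hx0]
    have := Real.exp_one_lt_d9
    linarith
  have hq0 : (0 : ℝ) ≤ q := Nat.cast_nonneg q
  have hE0 : (0 : ℝ) ≤ E := Nat.cast_nonneg E
  have hexpA : A ^ q ≤ Real.exp (Real.log A * ((q : ℝ) + E) * Real.log x) := by
    rw [← Real.rpow_natCast, Real.rpow_def_of_pos hA0]
    apply Real.exp_le_exp.2
    have h1 := Real.log_nonneg hA
    calc Real.log A * q ≤ Real.log A * ((q : ℝ) + E) * 1 := by nlinarith
      _ ≤ _ := mul_le_mul_of_nonneg_left hlog (by positivity)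
  have hexpΓ : Γ ^ E ≤ Real.exp (Real.log Γ * ((q : ℝ) + E) * Real.log x) := by
    rw [← Real.rpow_natCast, Real.rpow_def_of_pos hΓ0]
    apply Real.exp_le_exp.2
    have h1 := Real.log_nonneg hΓ
    calc Real.log Γ * E ≤ Real.log Γ * ((q : ℝ) + E) * 1 := by nlinarith
      _ ≤ _ := mul_le_mul_of_nonneg_left hlog (by positivity)
  have hexpx : x ^ (q + 8 * E) ≤ Real.exp (8 * ((q : ℝ) + E) * Real.log x) := by
    rw [← Real.rpow_natCast, Real.rpow_def_of_pos hx0]
    apply Real.exp_le_exp.2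
    push_cast
    have h1 : 0 ≤ Real.log x * q := by positivity
    nlinarith
  calc x ^ (2 * E) * (x ^ (2 * E) * ((A * x) ^ q * (v! * x ^ E * (Γ ^ v * Γ ^ E))) * x ^ (3 * E))
      = v! * Γ ^ v * (A ^ q * Γ ^ E * x ^ (q + 8 * E)) := by
        rw [mul_pow, show q + 8 * E = 2 * E + 2 * E + 3 * E + E + q by ring]
        simp only [pow_add]
        ring
    _ ≤ v! * Γ ^ v * (Real.exp (Real.log A * ((q : ℝ) + E) * Real.log x) *
          Real.exp (Real.log Γ * ((q : ℝ) + E) * Real.log x) *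
          Real.exp (8 * ((q : ℝ) + E) * Real.log x)) := by
        apply mul_le_mul_of_nonneg_left _ (by positivity)
        apply mul_le_mul _ hexpx (by positivity) (by positivity)
        exact mul_le_mul hexpA hexpΓ (by positivity) (by positivity)
    _ = _ := by
        rw [← Real.exp_add, ← Real.exp_add]
        congr 2
        ring

/-- 9.3 -/
theorem enc_count {A Γ : ℝ} (hA : 1 ≤ A) (hΓ : 1 ≤ Γ)
    (hs : ∀ v : ℕ, (sph v : ℝ) ≤ A * (v.factorial : ℝ) * Γ ^ v) :
    ∃ C : ℝ, 0 < C ∧ ∀ v q E : ℕ, 1 ≤ q → 1 ≤ E →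
      (Nat.card {Z : Finset (Finset (Fin v)) // IsFam Z ∧ verts Z = univ ∧
        ∃ (β : Type) (_ : DecidableEq β) (W : Finset (Finset β)), SphUnion W q ∧ Enc Z W E} : ℝ)
      ≤ (v.factorial : ℝ) * Γ ^ v * Real.exp (C * ((q : ℝ) + E) * Real.log ((v : ℝ) + E + 2)) := by
  classical
  refine ⟨Real.log A + Real.log Γ + 8, by
    have := Real.log_nonneg hA
    have := Real.log_nonneg hΓ
    linarith, ?_⟩
  intro v q E hq hE
  have hE1 : (1 : ℝ) ≤ (E : ℝ) := by exact_mod_cast hE
  have hv0 : (0 : ℝ) ≤ (v : ℝ) := Nat.cast_nonneg v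
  refine le_trans ?_ (enc_real hA hΓ (by linarith : (3 : ℝ) ≤ (v : ℝ) + E + 2)
    (Nat.cast_nonneg v.factorial) v q E)
  obtain ⟨hP, hD⟩ := card_PD v E hE
  have hW := card_W hA hΓ hs v q E (univ.filter (fun W => SphUnion W q ∧ (verts W)ᶜ.card ≤ 2 * E))
    (fun W hW => (mem_filter.1 hW).2)
  set PP : Finset (Fin (v + E) → Option (Fin v)) := univ.filter
    (fun P => (univ.filter (fun w => P w ≠ P0 v E w)).card ≤ E) with hPP
  set WW : Finset (Finset (Finset (Fin (v + E)))) := univ.filter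
    (fun W => SphUnion W q ∧ (verts W)ᶜ.card ≤ 2 * E) with hWW
  set DL : Finset (Finset (Finset (Fin v))) :=
    ((univ : Finset (Fin v)).powersetCard 3).powerset.filter (fun D => D.card ≤ E) with hDL
  have hle : Nat.card {Z : Finset (Finset (Fin v)) // IsFam Z ∧ verts Z = univ ∧
        ∃ (β : Type) (_ : DecidableEq β) (W : Finset (Finset β)), SphUnion W q ∧ Enc Z W E} ≤
      PP.card * (WW.card * DL.card) := by
    rw [Nat.card_eq_fintype_card, Fintype.card_subtype, ← card_product, ← card_product]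
    refine (card_le_card ?_).trans (card_image_le
      (f := fun d : (Fin (v + E) → Option (Fin v)) × (Finset (Finset (Fin (v + E))) ×
        Finset (Finset (Fin v))) => dcd d.1 d.2.1 d.2.2))
    intro Z hZ
    obtain ⟨-, h1, h2, β, hβ, W, hW, hEnc⟩ := mem_filter.1 hZ
    obtain ⟨P, W1, Del, a1, a2, a3, a4, a5, a6⟩ := enc_data hE h1 h2 hW hEnc
    refine mem_image.2 ⟨(P, W1, Del), mem_product.2 ⟨mem_filter.2 ⟨mem_univ _, a1⟩,
      mem_product.2 ⟨mem_filter.2 ⟨mem_univ _, a2, a3⟩, mem_filter.2 ⟨?_, a4⟩⟩⟩, a6.symm⟩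
    rw [mem_powerset]
    intro s hs
    exact mem_powersetCard.2 ⟨subset_univ _, a5 s hs⟩
  have h1 : (Nat.card {Z : Finset (Finset (Fin v)) // IsFam Z ∧ verts Z = univ ∧
        ∃ (β : Type) (_ : DecidableEq β) (W : Finset (Finset β)), SphUnion W q ∧ Enc Z W E} : ℝ) ≤
        (PP.card : ℝ) * ((WW.card : ℝ) * (DL.card : ℝ)) := by exact_mod_cast hle
  refine h1.trans ?_
  have hA0 : 0 < A := by linarith
  have hΓ0 : 0 < Γ := by linarith
  apply mul_le_mul hP _ (by positivity) (by positivity)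
  exact mul_le_mul hW hD (by positivity) (by positivity)

end Pool.Agent.SC
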