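import Pool.Agent.Lib.MP_d0323d_co.Defs

/-!
# The p-random subset of a finite set

`Ex U p f` is the expectation of `f F` where `F` is the random subset of `U` which contains
every element of `U` independently with probability `p`.
-/

set_option autoImplicit false

open Finset

namespace Pool.Agent.SC

variable {α : Type*} [DecidableEq α]

open Classical in
omit [DecidableEq α] in
theorem Pr_eq_Ex (U : Finset α) (p : ℝ) (A : Finset α → Prop) :
    Pr U p A = Ex U p (fun F => if A F then 1 else 0) := by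
  unfold Pr Ex
  apply Finset.sum_congr rfl
  intro F _
  rw [mul_ite, mul_one, mul_zero]

omit [DecidableEq α] in
theorem Ex_congr {U : Finset α} {p : ℝ} {f g : Finset α → ℝ} (h : ∀ F, F ⊆ U → f F = g F) :
    Ex U p f = Ex U p g := by
  unfold Ex wP
  apply Finset.sum_congr rfl
  intro F hF
  rw [h F (Finset.mem_powerset.mp hF)]

omit [DecidableEq α] in
@[simp] theorem Ex_empty (p : ℝ) (f : Finset α → ℝ) : Ex ∅ p f = f ∅ := by
  simp [Ex, wP]

theorem Ex_insert {a : α} {U : Finset α} (ha : a ∉ U) (p : ℝ) (f : Finset α → ℝ) :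
    Ex (insert a U) p f = p * Ex U p (fun F => f (insert a F)) + (1 - p) * Ex U p f := by
  unfold Ex wP
  rw [Finset.sum_powerset_insert ha, Finset.mul_sum, Finset.mul_sum, add_comm]
  congr 1
  · apply Finset.sum_congr rfl
    intro F hF
    have hF' := Finset.mem_powerset.mp hF
    have haF : a ∉ F := fun h => ha (hF' h)
    rw [Finset.card_insert_of_notMem haF, Finset.card_insert_of_notMem ha, Nat.succ_sub_succ,
      pow_succ]
    ring
  · apply Finset.sum_congr rfl
    intro F hF
    have hF' := Finset.card_le_card (Finset.mem_powerset.mp hF)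
    rw [Finset.card_insert_of_notMem ha, Nat.succ_sub hF', pow_succ]
    ring

omit [DecidableEq α] in
theorem Ex_add (U : Finset α) (p : ℝ) (f g : Finset α → ℝ) :
    Ex U p (fun F => f F + g F) = Ex U p f + Ex U p g := by
  unfold Ex wP
  rw [← Finset.sum_add_distrib]
  apply Finset.sum_congr rfl
  intro F _
  ring

omit [DecidableEq α] in
theorem Ex_sub (U : Finset α) (p : ℝ) (f g : Finset α → ℝ) :
    Ex U p (fun F => f F - g F) = Ex U p f - Ex U p g := by
  unfold Ex wP
  rw [← Finset.sum_sub_distrib]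
  apply Finset.sum_congr rfl
  intro F _
  ring

omit [DecidableEq α] in
theorem Ex_mul_left (U : Finset α) (p c : ℝ) (f : Finset α → ℝ) :
    Ex U p (fun F => c * f F) = c * Ex U p f := by
  unfold Ex wP
  rw [Finset.mul_sum]
  apply Finset.sum_congr rfl
  intro F _
  ring

omit [DecidableEq α] in
theorem Ex_mul_right (U : Finset α) (p c : ℝ) (f : Finset α → ℝ) :
    Ex U p (fun F => f F * c) = Ex U p f * c := by
  unfold Ex wP
  rw [Finset.sum_mul]
  apply Finset.sum_congr rfl
  intro F _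
  ring

omit [DecidableEq α] in
theorem Ex_sum {ι : Type*} {U : Finset α} {p : ℝ} (s : Finset ι) (f : ι → Finset α → ℝ) :
    Ex U p (fun F => ∑ i ∈ s, f i F) = ∑ i ∈ s, Ex U p (f i) := by
  unfold Ex wP
  rw [Finset.sum_comm]
  apply Finset.sum_congr rfl
  intro F _
  rw [Finset.mul_sum]

theorem Ex_const (U : Finset α) (p c : ℝ) : Ex U p (fun _ => c) = c := by
  induction U using Finset.induction_on with
  | empty => simp
  | insert a U ha ih => rw [Ex_insert ha, ih]; ring

omit [DecidableEq α] in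
theorem Ex_nonneg {U : Finset α} {p : ℝ} {f : Finset α → ℝ} (h0 : 0 ≤ p) (h1 : p ≤ 1)
    (h : ∀ F, F ⊆ U → 0 ≤ f F) : 0 ≤ Ex U p f := by
  unfold Ex wP
  apply Finset.sum_nonneg
  intro F hF
  have h2 : 0 ≤ 1 - p := by linarith
  have h3 := h F (Finset.mem_powerset.mp hF)
  positivity

omit [DecidableEq α] in
theorem Ex_mono {U : Finset α} {p : ℝ} {f g : Finset α → ℝ} (h0 : 0 ≤ p) (h1 : p ≤ 1)
    (h : ∀ F, F ⊆ U → f F ≤ g F) : Ex U p f ≤ Ex U p g := by
  have := Ex_nonneg (U := U) (f := fun F => g F - f F) h0 h1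
    (fun F hF => sub_nonneg.mpr (h F hF))
  rw [Ex_sub] at this
  linarith

/-- Fubini for disjoint ground sets -/
theorem Ex_disjUnion {U V : Finset α} (h : Disjoint U V) (p : ℝ) (f : Finset α → ℝ) :
    Ex (U ∪ V) p f = Ex U p (fun F => Ex V p (fun G => f (F ∪ G))) := by
  induction U using Finset.induction_on generalizing f with
  | empty => simp
  | insert a U ha ih =>
    have hU : Disjoint U V := Disjoint.mono_left (Finset.subset_insert a U) h
    have haV : a ∉ V := Finset.disjoint_left.mp h (Finset.mem_insert_self a U)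
    have haUV : a ∉ U ∪ V := by
      rw [Finset.mem_union]
      tauto
    rw [Finset.insert_union, Ex_insert haUV, Ex_insert ha, ih hU, ih hU]
    simp only [Finset.insert_union]

/-- union of two independent random sets -/
theorem Ex_union (U : Finset α) (p q : ℝ) (f : Finset α → ℝ) :
    Ex U p (fun F => Ex U q (fun G => f (F ∪ G))) = Ex U (p + q - p * q) f := by
  induction U using Finset.induction_on generalizing f with
  | empty => simp
  | insert a U ha ih =>
    rw [Ex_insert ha, Ex_insert ha]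
    simp only [Ex_insert ha]
    have e1 : ∀ F G : Finset α, insert a F ∪ insert a G = insert a (F ∪ G) := by
      intro F G
      ext x
      simp only [Finset.mem_union, Finset.mem_insert]
      tauto
    have e2 : ∀ F G : Finset α, insert a F ∪ G = insert a (F ∪ G) := by
      intro F G
      ext x
      simp only [Finset.mem_union, Finset.mem_insert]
      tauto
    have e3 : ∀ F G : Finset α, F ∪ insert a G = insert a (F ∪ G) := by
      intro F G
      ext x
      simp only [Finset.mem_union, Finset.mem_insert]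
      tauto
    simp only [e1, e2, e3]
    have i1 := ih (fun F => f (insert a F))
    have i2 := ih f
    simp only [Ex_add, Ex_mul_left]
    rw [i1, i2]
    ring

/-- the expectation of an increasing function increases with the density -/
theorem Ex_mono_p {U : Finset α} {p q : ℝ} {f : Finset α → ℝ} (h0 : 0 ≤ p) (hpq : p ≤ q)
    (h1 : q ≤ 1) (h : ∀ F G, F ⊆ G → G ⊆ U → f F ≤ f G) : Ex U p f ≤ Ex U q f := by
  induction U using Finset.induction_on generalizing f with
  | empty => simp
  | insert a U ha ih =>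
    rw [Ex_insert ha, Ex_insert ha]
    have hsub : U ⊆ insert a U := Finset.subset_insert a U
    have i1 := ih (f := f) (fun F G hFG hG => h F G hFG (hG.trans hsub))
    have i2 := ih (f := fun F => f (insert a F))
      (fun F G hFG hG => h _ _ (Finset.insert_subset_insert a hFG)
        (Finset.insert_subset_insert a hG))
    have i3 : Ex U q f ≤ Ex U q (fun F => f (insert a F)) := by
      apply Ex_mono (by linarith) h1
      intro F hF
      exact h _ _ (Finset.subset_insert a F) (Finset.insert_subset_insert a hF)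
    have hp1 : 0 ≤ 1 - p := by linarith
    nlinarith [mul_le_mul_of_nonneg_left i1 hp1, mul_le_mul_of_nonneg_left i2 h0,
      mul_nonneg (sub_nonneg.mpr hpq) (sub_nonneg.mpr i3)]

/-- a function of `F ∩ U` -/
theorem Ex_inter {U V : Finset α} (h : Disjoint U V) (p : ℝ) (f : Finset α → ℝ) :
    Ex (U ∪ V) p (fun F => f (F ∩ U)) = Ex U p f := by
  rw [Ex_disjUnion h]
  apply Ex_congr
  intro F hF
  have : Ex V p (fun G => f ((F ∪ G) ∩ U)) = Ex V p (fun _ => f F) := by
    apply Ex_congr
    intro G hG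
    congr 1
    ext x
    simp only [Finset.mem_inter, Finset.mem_union]
    constructor
    · rintro ⟨h1 | h1, h2⟩
      · exact h1
      · exact absurd (hG h1) (Finset.disjoint_left.mp h h2)
    · intro h1
      exact ⟨Or.inl h1, hF h1⟩
  rw [this, Ex_const]

theorem Ex_inter' {U W : Finset α} (h : U ⊆ W) (p : ℝ) (f : Finset α → ℝ) :
    Ex W p (fun F => f (F ∩ U)) = Ex U p f := by
  have h1 : W = U ∪ (W \ U) := by
    rw [Finset.union_sdiff_of_subset h]
  have h2 := Ex_inter (U := U) (V := W \ U) Finset.disjoint_sdiff p f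
  rw [← h1] at h2
  exact h2

/-- independence -/
theorem Ex_indep {U V W : Finset α} (h : Disjoint U V) (hU : U ⊆ W) (hV : V ⊆ W) (p : ℝ)
    (f g : Finset α → ℝ) :
    Ex W p (fun F => f (F ∩ U) * g (F ∩ V)) = Ex U p f * Ex V p g := by
  have h0 : ∀ F : Finset α, f (F ∩ U) * g (F ∩ V) =
      (fun H : Finset α => f (H ∩ U) * g (H ∩ V)) (F ∩ (U ∪ V)) := by
    intro F
    simp only
    congr 2
    · ext x
      simp only [Finset.mem_inter, Finset.mem_union]
      tauto
    · ext x
      simp only [Finset.mem_inter, Finset.mem_union]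
      tauto
  rw [Ex_congr (fun F _ => h0 F),
    Ex_inter' (Finset.union_subset hU hV) p (fun H : Finset α => f (H ∩ U) * g (H ∩ V)),
    Ex_disjUnion h, ← Ex_mul_right]
  apply Ex_congr
  intro F hF
  rw [← Ex_mul_left]
  apply Ex_congr
  intro G hG
  have e1 : (F ∪ G) ∩ U = F := by
    ext x
    simp only [Finset.mem_inter, Finset.mem_union]
    constructor
    · rintro ⟨h1 | h1, h2⟩
      · exact h1
      · exact absurd (hG h1) (Finset.disjoint_left.mp h h2)
    · intro h1
      exact ⟨Or.inl h1, hF h1⟩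
  have e2 : (F ∪ G) ∩ V = G := by
    ext x
    simp only [Finset.mem_inter, Finset.mem_union]
    constructor
    · rintro ⟨h1 | h1, h2⟩
      · exact absurd h2 (Finset.disjoint_left.mp h (hF h1))
      · exact h1
    · intro h1
      exact ⟨Or.inr h1, hG h1⟩
  rw [e1, e2]

/-- independence of finitely many blocks -/
theorem Ex_prod {ι : Type*} [DecidableEq ι] (s : Finset ι) (U : ι → Finset α) (W : Finset α)
    (hd : ∀ i ∈ s, ∀ j ∈ s, i ≠ j → Disjoint (U i) (U j)) (hW : ∀ i ∈ s, U i ⊆ W) (p : ℝ)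
    (f : ι → Finset α → ℝ) :
    Ex W p (fun F => ∏ i ∈ s, f i (F ∩ U i)) = ∏ i ∈ s, Ex (U i) p (f i) := by
  induction s using Finset.induction_on with
  | empty => simp [Ex_const]
  | insert a s ha ih =>
    rw [Finset.prod_insert ha, ← ih
      (fun i hi j hj hij => hd i (Finset.mem_insert_of_mem hi) j (Finset.mem_insert_of_mem hj) hij)
      (fun i hi => hW i (Finset.mem_insert_of_mem hi))]
    simp only [Finset.prod_insert ha]
    have hsub : s.biUnion U ⊆ W := by
      intro x hx
      obtain ⟨i, hi, hxi⟩ := Finset.mem_biUnion.mp hx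
      exact hW i (Finset.mem_insert_of_mem hi) hxi
    have hdis : Disjoint (U a) (s.biUnion U) := by
      rw [Finset.disjoint_biUnion_right]
      intro i hi
      apply hd a (Finset.mem_insert_self a s) i (Finset.mem_insert_of_mem hi)
      rintro rfl
      exact ha hi
    have h1 : ∀ F : Finset α, ∏ i ∈ s, f i (F ∩ U i) =
        (fun H : Finset α => ∏ i ∈ s, f i (H ∩ U i)) (F ∩ s.biUnion U) := by
      intro F
      apply Finset.prod_congr rfl
      intro i hi
      congr 1
      ext x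
      simp only [Finset.mem_inter, Finset.mem_biUnion]
      constructor
      · rintro ⟨h1, h2⟩
        exact ⟨⟨h1, i, hi, h2⟩, h2⟩
      · rintro ⟨⟨h1, _⟩, h2⟩
        exact ⟨h1, h2⟩
    have h2 := Ex_indep hdis (hW a (Finset.mem_insert_self a s)) hsub p (f a)
      (fun H : Finset α => ∏ i ∈ s, f i (H ∩ U i))
    have h3 := Ex_inter' hsub p (fun H : Finset α => ∏ i ∈ s, f i (H ∩ U i))
    simp only [← h1] at h2 h3
    rw [h2, h3]

/-! ### Probabilities -/

open Classical in
omit [DecidableEq α] in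
theorem Pr_def (U : Finset α) (p : ℝ) (A : Finset α → Prop) :
    Pr U p A = ∑ F ∈ U.powerset, if A F then p ^ F.card * (1 - p) ^ (U.card - F.card) else 0 := rfl

open Classical in
omit [DecidableEq α] in
theorem Pr_congr {U : Finset α} {p : ℝ} {A B : Finset α → Prop} (h : ∀ F, F ⊆ U → (A F ↔ B F)) :
    Pr U p A = Pr U p B := by
  simp only [Pr_eq_Ex]
  apply Ex_congr
  intro F hF
  by_cases hA : A F
  · rw [if_pos hA, if_pos ((h F hF).mp hA)]
  · rw [if_neg hA, if_neg (fun hB => hA ((h F hF).mpr hB))]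

open Classical in
omit [DecidableEq α] in
theorem Pr_nonneg {U : Finset α} {p : ℝ} (h0 : 0 ≤ p) (h1 : p ≤ 1) (A : Finset α → Prop) :
    0 ≤ Pr U p A := by
  simp only [Pr_eq_Ex]
  apply Ex_nonneg h0 h1
  intro F _
  split_ifs <;> norm_num

open Classical in
omit [DecidableEq α] in
theorem Pr_mono {U : Finset α} {p : ℝ} (h0 : 0 ≤ p) (h1 : p ≤ 1) {A B : Finset α → Prop}
    (h : ∀ F, F ⊆ U → A F → B F) : Pr U p A ≤ Pr U p B := by
  simp only [Pr_eq_Ex]
  apply Ex_mono h0 h1
  intro F hF
  by_cases hA : A F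
  · rw [if_pos hA, if_pos (h F hF hA)]
  · rw [if_neg hA]
    split_ifs <;> norm_num

theorem Pr_true (U : Finset α) (p : ℝ) : Pr U p (fun _ => True) = 1 := by
  simp only [Pr_eq_Ex]
  simp [Ex_const]

theorem Pr_false (U : Finset α) (p : ℝ) : Pr U p (fun _ => False) = 0 := by
  simp only [Pr_eq_Ex]
  simp [Ex_const]

theorem Pr_of_forall {U : Finset α} {p : ℝ} {A : Finset α → Prop} (h : ∀ F, F ⊆ U → A F) :
    Pr U p A = 1 := by
  rw [Pr_congr (B := fun _ => True) (fun F hF => by simp [h F hF]), Pr_true]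

theorem Pr_le_one {U : Finset α} {p : ℝ} (h0 : 0 ≤ p) (h1 : p ≤ 1) (A : Finset α → Prop) :
    Pr U p A ≤ 1 := by
  have := Pr_mono (U := U) h0 h1 (A := A) (B := fun _ => True) (fun _ _ _ => trivial)
  rw [Pr_true] at this
  exact this

open Classical in
theorem Pr_not (U : Finset α) (p : ℝ) (A : Finset α → Prop) :
    Pr U p (fun F => ¬ A F) = 1 - Pr U p A := by
  simp only [Pr_eq_Ex]
  have h1 : Ex U p (fun F => (if ¬ A F then (1 : ℝ) else 0)) =
      Ex U p (fun F => (fun _ : Finset α => (1 : ℝ)) F - (if A F then 1 else 0)) := by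
    apply Ex_congr
    intro F _
    by_cases hA : A F
    · simp [hA]
    · simp [hA]
  have h2 := Ex_sub U p (fun _ : Finset α => (1 : ℝ)) (fun F => (if A F then (1 : ℝ) else 0))
  rw [Ex_const] at h2
  rw [← h2, ← h1]
  apply Ex_congr
  intro F _
  by_cases hA : A F
  · simp [hA]
  · simp [hA]

open Classical in
omit [DecidableEq α] in
theorem Pr_or_le {U : Finset α} {p : ℝ} (h0 : 0 ≤ p) (h1 : p ≤ 1) (A B : Finset α → Prop) :
    Pr U p (fun F => A F ∨ B F) ≤ Pr U p A + Pr U p B := by
  simp only [Pr_eq_Ex]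
  rw [← Ex_add]
  apply Ex_mono h0 h1
  intro F _
  by_cases hA : A F <;> by_cases hB : B F <;> simp [hA, hB]

open Classical in
omit [DecidableEq α] in
theorem Pr_exists_le {ι : Type*} {U : Finset α} {p : ℝ} (h0 : 0 ≤ p) (h1 : p ≤ 1) (s : Finset ι)
    (A : ι → Finset α → Prop) :
    Pr U p (fun F => ∃ i ∈ s, A i F) ≤ ∑ i ∈ s, Pr U p (A i) := by
  simp only [Pr_eq_Ex]
  rw [← Ex_sum]
  apply Ex_mono h0 h1
  intro F _
  by_cases h : ∃ i ∈ s, A i F
  · rw [if_pos h]
    obtain ⟨i, hi, hA⟩ := h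
    have h2 : (if A i F then (1 : ℝ) else 0) ≤ ∑ i ∈ s, (if A i F then (1 : ℝ) else 0) :=
      Finset.single_le_sum (f := fun i => (if A i F then (1 : ℝ) else 0))
        (fun j _ => by split_ifs <;> norm_num) hi
    rw [if_pos hA] at h2
    exact h2
  · rw [if_neg h]
    apply Finset.sum_nonneg
    intro i _
    split_ifs <;> norm_num

open Classical in
theorem Pr_mono_p {U : Finset α} {p q : ℝ} {A : Finset α → Prop} (h0 : 0 ≤ p) (hpq : p ≤ q)
    (h1 : q ≤ 1) (h : ∀ F G, F ⊆ G → G ⊆ U → A F → A G) : Pr U p A ≤ Pr U q A := by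
  simp only [Pr_eq_Ex]
  apply Ex_mono_p h0 hpq h1
  intro F G hFG hG
  by_cases hA : A F
  · rw [if_pos hA, if_pos (h F G hFG hG hA)]
  · rw [if_neg hA]
    split_ifs <;> norm_num

open Classical in
theorem Pr_inter {U W : Finset α} (h : U ⊆ W) (p : ℝ) (A : Finset α → Prop) :
    Pr W p (fun F => A (F ∩ U)) = Pr U p A := by
  simp only [Pr_eq_Ex]
  exact Ex_inter' h p (fun F => if A F then (1 : ℝ) else 0)

open Classical in
/-- independence of two events -/
theorem Pr_indep_inter {U V W : Finset α} (h : Disjoint U V) (hU : U ⊆ W) (hV : V ⊆ W) (p : ℝ)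
    (A B : Finset α → Prop) :
    Pr W p (fun F => A (F ∩ U) ∧ B (F ∩ V)) = Pr U p A * Pr V p B := by
  simp only [Pr_eq_Ex]
  rw [← Ex_indep h hU hV]
  apply Ex_congr
  intro F _
  by_cases hA : A (F ∩ U) <;> by_cases hB : B (F ∩ V) <;> simp [hA, hB]

open Classical in
/-- independence of finitely many events -/
theorem Pr_forall {ι : Type*} [DecidableEq ι] (s : Finset ι) (U : ι → Finset α) (W : Finset α)
    (hd : ∀ i ∈ s, ∀ j ∈ s, i ≠ j → Disjoint (U i) (U j)) (hW : ∀ i ∈ s, U i ⊆ W) (p : ℝ)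
    (A : ι → Finset α → Prop) :
    Pr W p (fun F => ∀ i ∈ s, A i (F ∩ U i)) = ∏ i ∈ s, Pr (U i) p (A i) := by
  simp only [Pr_eq_Ex]
  rw [← Ex_prod s U W hd hW]
  apply Ex_congr
  intro F _
  by_cases h : ∀ i ∈ s, A i (F ∩ U i)
  · rw [if_pos h, Finset.prod_eq_one]
    intro i hi
    rw [if_pos (h i hi)]
  · rw [if_neg h]
    push Not at h
    obtain ⟨i, hi, hA⟩ := h
    rw [Finset.prod_eq_zero hi]
    rw [if_neg hA]

theorem Pr_singleton (a : α) (p : ℝ) : Pr {a} p (fun F => a ∈ F) = p := by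
  have h : ({a} : Finset α) = insert a ∅ := by simp
  simp only [Pr_eq_Ex]
  rw [h, Ex_insert (by simp)]
  simp

theorem Pr_singleton_not (a : α) (p : ℝ) : Pr {a} p (fun F => a ∉ F) = 1 - p := by
  rw [Pr_not, Pr_singleton]

/-- the probability to contain a given set -/
theorem Pr_subset {U : Finset α} {p : ℝ} {S : Finset α} (h : S ⊆ U) : Pr U p (fun F => S ⊆ F) = p ^ S.card := by
  have h1 := Pr_forall S (fun a => ({a} : Finset α)) U
    (fun i _ j _ hij => by simpa using hij) (fun i hi => by simpa using h hi) p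
    (fun a F => a ∈ F)
  simp only [Pr_singleton, Finset.prod_const] at h1
  rw [← h1]
  apply Pr_congr
  intro F _
  constructor
  · intro hS i hi
    simpa using hS hi
  · intro hS i hi
    simpa using hS i hi

/-- the probability to avoid a given set -/
theorem Pr_disjoint {U : Finset α} {p : ℝ} {S : Finset α} (h : S ⊆ U) :
    Pr U p (fun F => Disjoint S F) = (1 - p) ^ S.card := by
  have h1 := Pr_forall S (fun a => ({a} : Finset α)) U
    (fun i _ j _ hij => by simpa using hij) (fun i hi => by simpa using h hi) p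
    (fun a F => a ∉ F)
  simp only [Pr_singleton_not, Finset.prod_const] at h1
  rw [← h1]
  apply Pr_congr
  intro F _
  rw [Finset.disjoint_left]
  constructor
  · intro hS i hi
    simpa using hS hi
  · intro hS i hi
    simpa using hS i hi

omit [DecidableEq α] in
/-- Markov's inequality -/
theorem Pr_ge_le {U : Finset α} {p : ℝ} (h0 : 0 ≤ p) (h1 : p ≤ 1) {f : Finset α → ℝ}
    (hf : ∀ F, F ⊆ U → 0 ≤ f F) {a : ℝ} (ha : 0 < a) :
    Pr U p (fun F => a ≤ f F) ≤ Ex U p f / a := by
  rw [le_div_iff₀ ha]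
  simp only [Pr_eq_Ex]
  rw [← Ex_mul_right]
  apply Ex_mono h0 h1
  intro F hF
  by_cases h : a ≤ f F
  · rw [if_pos h]; linarith
  · rw [if_neg h]; linarith [hf F hF]

/-- Chebyshev's inequality, lower half of the mean -/
theorem Pr_le_half {U : Finset α} {p : ℝ} (h0 : 0 ≤ p) (h1 : p ≤ 1) {f : Finset α → ℝ}
    {m : ℝ} (hm : 0 < m) (hE : Ex U p f = m) :
    Pr U p (fun F => f F ≤ m / 2) ≤ 4 * (Ex U p (fun F => f F ^ 2) - m ^ 2) / m ^ 2 := by
  have h2 : Pr U p (fun F => f F ≤ m / 2) ≤ Pr U p (fun F => m ^ 2 / 4 ≤ (f F - m) ^ 2) := by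
    apply Pr_mono h0 h1
    intro F _ h
    nlinarith
  have h3 := Pr_ge_le (U := U) h0 h1 (f := fun F => (f F - m) ^ 2) (fun F _ => sq_nonneg _)
    (a := m ^ 2 / 4) (by positivity)
  have h4 : Ex U p (fun F => (f F - m) ^ 2) = Ex U p (fun F => f F ^ 2) - m ^ 2 := by
    have e : ∀ F : Finset α, (f F - m) ^ 2 = (f F ^ 2 - (2 * m) * f F) + m ^ 2 := by
      intro F; ring
    rw [Ex_congr (fun F _ => e F), Ex_add, Ex_sub, Ex_mul_left, hE, Ex_const]
    ring
  rw [h4] at h3
  calc _ ≤ _ := h2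
    _ ≤ _ := h3
    _ = _ := by ring

open Classical in
/-- two rounds of exposure -/
theorem Pr_exposure {U : Finset α} {p q c : ℝ} (hp0 : 0 ≤ p) (hp1 : p ≤ 1) (hq0 : 0 ≤ q)
    (hq1 : q ≤ 1) {A B : Finset α → Prop}
    (hAB : ∀ F, F ⊆ U → A F → c ≤ Pr U q (fun G => B (F ∪ G))) :
    c * Pr U p A ≤ Pr U (p + q - p * q) B := by
  simp only [Pr_eq_Ex]
  rw [← Ex_union, ← Ex_mul_left]
  apply Ex_mono hp0 hp1
  intro F hF
  by_cases hA : A F
  · rw [if_pos hA, mul_one, ← Pr_eq_Ex]
    exact hAB F hF hA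
  · rw [if_neg hA, mul_zero]
    apply Ex_nonneg hq0 hq1
    intro G _
    split_ifs <;> norm_num

theorem Pr_exposure' {U : Finset α} {p q c : ℝ} (hp0 : 0 ≤ p) (hq0 : 0 ≤ q) (hpq : p + q ≤ 1)
    {A B : Finset α → Prop} (hB : ∀ F G, F ⊆ G → G ⊆ U → B F → B G)
    (hAB : ∀ F, F ⊆ U → A F → c ≤ Pr U q (fun G => B (F ∪ G))) :
    c * Pr U p A ≤ Pr U (p + q) B := by
  have h1 := Pr_exposure (U := U) hp0 (by linarith) hq0 (by linarith) hAB
  have hpq2 : 0 ≤ p * q := mul_nonneg hp0 hq0
  refine h1.trans (Pr_mono_p ?_ ?_ hpq hB)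
  · nlinarith
  · nlinarith

/-! ### A lower tail bound -/

open Classical in
/-- number of the events that hold -/
theorem Ex_exp_blocks {ι : Type*} [DecidableEq ι] (s : Finset ι) (U : ι → Finset α)
    (W : Finset α)
    (hd : ∀ i ∈ s, ∀ j ∈ s, i ≠ j → Disjoint (U i) (U j)) (hW : ∀ i ∈ s, U i ⊆ W) {p q : ℝ}
    (h0 : 0 ≤ p) (h1 : p ≤ 1) (A : ι → Finset α → Prop) (hA : ∀ i ∈ s, q ≤ Pr (U i) p (A i)) :
    Ex W p (fun F => ∏ i ∈ s, (if A i (F ∩ U i) then (1 / 2 : ℝ) else 1)) ≤
      Real.exp (-(q / 2) * s.card) := by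
  rw [Ex_prod s U W hd hW p (fun i F => if A i F then (1 / 2 : ℝ) else 1)]
  have h2 : ∀ i ∈ s, Ex (U i) p (fun F => if A i F then (1 / 2 : ℝ) else 1) ≤
      Real.exp (-(q / 2)) := by
    intro i hi
    have h3 : Ex (U i) p (fun F => if A i F then (1 / 2 : ℝ) else 1) =
        1 - 1 / 2 * Pr (U i) p (A i) := by
      simp only [Pr_eq_Ex]
      have h4 : Ex (U i) p (fun F => if A i F then (1 / 2 : ℝ) else 1) =
          Ex (U i) p (fun F => (fun _ : Finset α => (1 : ℝ)) F -
            (fun F => 1 / 2 * (if A i F then (1 : ℝ) else 0)) F) := by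
        apply Ex_congr
        intro F _
        by_cases hAF : A i F
        · simp only [hAF, if_true]; norm_num
        · simp only [hAF, if_false]; norm_num
      rw [h4, Ex_sub, Ex_const, Ex_mul_left]
    rw [h3]
    have h5 := Real.add_one_le_exp (-(q / 2))
    have h6 := hA i hi
    linarith
  calc ∏ i ∈ s, Ex (U i) p (fun F => if A i F then (1 / 2 : ℝ) else 1) ≤
      ∏ _i ∈ s, Real.exp (-(q / 2)) := by
        apply Finset.prod_le_prod
        · intro i _
          apply Ex_nonneg h0 h1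
          intro F _
          split_ifs <;> norm_num
        · exact h2
    _ = Real.exp (-(q / 2) * s.card) := by
        rw [Finset.prod_const, ← Real.exp_nat_mul]
        congr 1
        ring

open Classical in
/-- the lower tail: independent events of probability at least `q` -/
theorem Pr_lower_tail {ι : Type*} [DecidableEq ι] (s : Finset ι) (U : ι → Finset α)
    (W : Finset α)
    (hd : ∀ i ∈ s, ∀ j ∈ s, i ≠ j → Disjoint (U i) (U j)) (hW : ∀ i ∈ s, U i ⊆ W) {p q : ℝ}
    (h0 : 0 ≤ p) (h1 : p ≤ 1) (hq : 0 ≤ q) (A : ι → Finset α → Prop)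
    (hA : ∀ i ∈ s, q ≤ Pr (U i) p (A i)) :
    Pr W p (fun F => ((s.filter (fun i => A i (F ∩ U i))).card : ℝ) ≤ q * s.card / 2) ≤
      Real.exp (-(q * s.card / 8)) := by
  have key : ∀ F : Finset α, ∏ i ∈ s, (if A i (F ∩ U i) then (1 / 2 : ℝ) else 1) =
      (1 / 2) ^ (s.filter (fun i => A i (F ∩ U i))).card := by
    intro F
    rw [Finset.prod_ite, Finset.prod_const, Finset.prod_const_one, mul_one]
  have h2 : Pr W p (fun F => ((s.filter (fun i => A i (F ∩ U i))).card : ℝ) ≤ q * s.card / 2) ≤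
      Pr W p (fun F => Real.exp (-(Real.log 2 * (q * s.card / 2))) ≤
        ∏ i ∈ s, (if A i (F ∩ U i) then (1 / 2 : ℝ) else 1)) := by
    apply Pr_mono h0 h1
    intro F _ h
    rw [key]
    have e : (1 / 2 : ℝ) ^ (s.filter (fun i => A i (F ∩ U i))).card =
        Real.exp (-(Real.log 2 * (s.filter (fun i => A i (F ∩ U i))).card)) := by
      have : (1 / 2 : ℝ) = Real.exp (-Real.log 2) := by
        rw [Real.exp_neg, Real.exp_log (by norm_num)]
        norm_num
      rw [this, ← Real.exp_nat_mul]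
      congr 1
      ring
    rw [e]
    apply Real.exp_le_exp.mpr
    have hl : 0 ≤ Real.log 2 := Real.log_nonneg (by norm_num)
    nlinarith [mul_le_mul_of_nonneg_left h hl]
  refine h2.trans ?_
  refine (Pr_ge_le h0 h1 (f := fun F => ∏ i ∈ s, (if A i (F ∩ U i) then (1 / 2 : ℝ) else 1))
    ?_ (Real.exp_pos _)).trans ?_
  · intro F _
    apply Finset.prod_nonneg
    intro i _
    split_ifs <;> norm_num
  · have h3 := Ex_exp_blocks s U W hd hW h0 h1 A hA
    rw [div_le_iff₀ (Real.exp_pos _), ← Real.exp_add]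
    refine h3.trans (Real.exp_le_exp.mpr ?_)
    have h4 : Real.log 2 < 0.6931471808 := Real.log_two_lt_d9
    have h5 : 0 ≤ q * s.card := by positivity
    nlinarith

/-! ### The forms used in the other modules -/

section forms

variable {ι : Type*} [DecidableEq ι]

omit [DecidableEq ι] in
theorem wP_nonneg {U : Finset ι} {p : ℝ} (h0 : 0 ≤ p) (h1 : p ≤ 1) (F : Finset ι) :
    0 ≤ wP U p F := by
  unfold wP
  have : 0 ≤ 1 - p := by linarith
  positivity

theorem sum_wP (U : Finset ι) (p : ℝ) : ∑ F ∈ U.powerset, wP U p F = 1 := by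
  have h := Ex_const U p 1
  unfold Ex at h
  simpa using h

open Classical in
omit [DecidableEq ι] in
theorem Ex_ind {U : Finset ι} {p : ℝ} (A : Finset ι → Prop) :
    Ex U p (fun F => if A F then 1 else 0) = Pr U p A := (Pr_eq_Ex U p A).symm

/-- independence -/
theorem Pr_indep {U U1 U2 : Finset ι} {p : ℝ} (h12 : Disjoint U1 U2) (h1 : U1 ⊆ U) (h2 : U2 ⊆ U)
    (A B : Finset ι → Prop) (hA : ∀ F ⊆ U, (A F ↔ A (F ∩ U1))) (hB : ∀ F ⊆ U, (B F ↔ B (F ∩ U2))) :
    Pr U p (fun F => A F ∧ B F) = Pr U p A * Pr U p B := by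
  have h3 := Pr_indep_inter h12 h1 h2 p A B
  rw [← Pr_inter h1 p A, ← Pr_inter h2 p B] at h3
  rw [Pr_congr (A := A) (B := fun F => A (F ∩ U1)) hA,
    Pr_congr (A := B) (B := fun F => B (F ∩ U2)) hB, ← h3]
  apply Pr_congr
  intro F hF
  rw [hA F hF, hB F hF]

omit [DecidableEq ι] in
/-- Markov -/
theorem Pr_markov {U : Finset ι} {p : ℝ} (h0 : 0 ≤ p) (h1 : p ≤ 1) (X : Finset ι → ℝ)
    (hX : ∀ F, 0 ≤ X F) {a : ℝ} (ha : 0 < a) : Pr U p (fun F => a ≤ X F) ≤ Ex U p X / a :=
  Pr_ge_le h0 h1 (fun F _ => hX F) ha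

/-- Chebyshev for the lower tail -/
theorem Pr_chebyshev {U : Finset ι} {p : ℝ} (h0 : 0 ≤ p) (h1 : p ≤ 1) (X : Finset ι → ℝ) {mu : ℝ}
    (hmu : 0 < mu) (hE : Ex U p X = mu) :
    Pr U p (fun F => X F < mu / 2) ≤ 4 * (Ex U p (fun F => X F ^ 2) - mu ^ 2) / mu ^ 2 :=
  (Pr_mono h0 h1 (fun _ _ h => le_of_lt h)).trans (Pr_le_half h0 h1 hmu hE)

/-- exposure in two rounds -/
theorem Pr_expose {U : Finset ι} {p q : ℝ} (h0 : 0 ≤ p) (hq : 0 ≤ q) (h1 : p + q ≤ 1)
    {A B : Finset ι → Prop} (hB : ∀ F G, F ⊆ G → G ⊆ U → B F → B G) {m : ℝ} (_hm : 0 ≤ m)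
    (hstep : ∀ F ⊆ U, A F → m ≤ Pr U q (fun G => B (F ∪ G))) :
    Pr U p A * m ≤ Pr U (p + q) B := by
  rw [mul_comm]
  exact Pr_exposure' h0 hq h1 hB hstep

open Classical in
/-- lower tail: `k` events determined by disjoint sets of coordinates, each of probability `≥ q` -/
theorem Pr_tail {U : Finset ι} {p : ℝ} (h0 : 0 ≤ p) (h1 : p ≤ 1) {κ : Type*} [DecidableEq κ]
    (I : Finset κ) (B : κ → Finset ι) (hB : ∀ i ∈ I, B i ⊆ U)
    (hdis : ∀ i ∈ I, ∀ j ∈ I, i ≠ j → Disjoint (B i) (B j)) (A : κ → Finset ι → Prop)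
    (hA : ∀ i ∈ I, ∀ F ⊆ U, (A i F ↔ A i (F ∩ B i))) {q : ℝ} (hq : 0 ≤ q)
    (hqA : ∀ i ∈ I, q ≤ Pr U p (A i)) :
    Pr U p (fun F => ((I.filter (fun i => A i F)).card : ℝ) ≤ (I.card : ℝ) * q / 2)
      ≤ Real.exp (-((I.card : ℝ) * q / 8)) := by
  have h2 := Pr_lower_tail I B U hdis hB h0 h1 hq A (by
    intro i hi
    rw [← Pr_inter (hB i hi) p (A i), ← Pr_congr (hA i hi)]
    exact hqA i hi)
  have e : (I.card : ℝ) * q = q * I.card := mul_comm _ _
  rw [e]
  refine le_trans (le_of_eq (Pr_congr ?_)) h2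
  intro F hF
  have e2 : I.filter (fun i => A i F) = I.filter (fun i => A i (F ∩ B i)) := by
    apply Finset.filter_congr
    intro i hi
    exact hA i hi F hF
  rw [e2]

/-- an event which only depends on whether the random set is empty -/
theorem Ex_nonempty (S : Finset ι) (p x y : ℝ) :
    Ex S p (fun F => if F.Nonempty then x else y) = (1 - (1 - p) ^ S.card) * x +
      (1 - p) ^ S.card * y := by
  have h1 := Pr_disjoint (U := S) (p := p) (Finset.Subset.refl S)
  rw [Pr_eq_Ex] at h1
  have h1' : Ex S p (fun F => if Disjoint S F then (1 : ℝ) else 0) = (1 - p) ^ S.card := by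
    rw [← h1]
    apply Ex_congr
    intro F _
    by_cases h : Disjoint S F
    · rw [if_pos h, if_pos h]
    · rw [if_neg h, if_neg h]
  have h2 : Ex S p (fun F => if F.Nonempty then x else y) =
      Ex S p (fun F => x - (x - y) * (if Disjoint S F then (1 : ℝ) else 0)) := by
    apply Ex_congr
    intro F hF
    by_cases hne : F.Nonempty
    · have h3 : ¬ Disjoint S F := by
        obtain ⟨a, ha⟩ := hne
        exact fun h => Finset.disjoint_left.mp h (hF ha) ha
      rw [if_pos hne, if_neg h3]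
      ring
    · have h3 : Disjoint S F := by
        rw [Finset.not_nonempty_iff_eq_empty.mp hne]
        exact Finset.disjoint_empty_right S
      rw [if_neg hne, if_pos h3]
      ring
  have h4 := Ex_sub S p (fun _ : Finset ι => x)
    (fun F => (x - y) * (if Disjoint S F then (1 : ℝ) else 0))
  have h5 := Ex_mul_left S p (x - y) (fun F => if Disjoint S F then (1 : ℝ) else 0)
  rw [h2, h4, h5, h1', Ex_const]
  ring

/-- projection of independent copies -/
theorem Ex_copies {U : Finset ι} {p : ℝ} (m : ℕ) (f : Finset ι → ℝ) :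
    Ex (U ×ˢ (univ : Finset (Fin m))) p (fun F => f (F.image Prod.fst)) =
      Ex U (1 - (1 - p) ^ m) f := by
  induction U using Finset.induction_on generalizing f with
  | empty => simp
  | insert a U ha ih =>
    have hU : (insert a U) ×ˢ (univ : Finset (Fin m)) =
        (({a} : Finset ι) ×ˢ (univ : Finset (Fin m))) ∪ (U ×ˢ (univ : Finset (Fin m))) := by
      rw [← Finset.union_product]
      rfl
    have hd : Disjoint (({a} : Finset ι) ×ˢ (univ : Finset (Fin m)))
        (U ×ˢ (univ : Finset (Fin m))) := by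
      rw [Finset.disjoint_left]
      rintro ⟨x, i⟩ hx hx'
      rw [Finset.mem_product, Finset.mem_singleton] at hx
      rw [Finset.mem_product] at hx'
      exact ha (hx.1 ▸ hx'.1)
    rw [hU, Ex_disjUnion hd, Ex_insert ha]
    have h1 : ∀ F, F ⊆ (({a} : Finset ι) ×ˢ (univ : Finset (Fin m))) →
        Ex (U ×ˢ (univ : Finset (Fin m))) p (fun G => f ((F ∪ G).image Prod.fst)) =
        if F.Nonempty then Ex U (1 - (1 - p) ^ m) (fun F => f (insert a F)) else
          Ex U (1 - (1 - p) ^ m) f := by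
      intro F hF
      by_cases hne : F.Nonempty
      · rw [if_pos hne, ← ih (fun F => f (insert a F))]
        apply Ex_congr
        intro G _
        rw [Finset.image_union]
        have e : F.image Prod.fst = {a} := by
          ext x
          rw [Finset.mem_image, Finset.mem_singleton]
          constructor
          · rintro ⟨y, hy, rfl⟩
            have := hF hy
            rw [Finset.mem_product, Finset.mem_singleton] at this
            exact this.1
          · rintro rfl
            obtain ⟨y, hy⟩ := hne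
            have := hF hy
            rw [Finset.mem_product, Finset.mem_singleton] at this
            exact ⟨y, hy, this.1⟩
        rw [e]
        rfl
      · rw [if_neg hne, ← ih f]
        apply Ex_congr
        intro G _
        rw [Finset.not_nonempty_iff_eq_empty.mp hne, Finset.empty_union]
    rw [Ex_congr h1, Ex_nonempty]
    simp only [Finset.card_product, Finset.card_singleton, one_mul, Finset.card_univ,
      Fintype.card_fin]
    ring

/-- `m` independent copies -/
theorem Pr_copies {U : Finset ι} {p : ℝ} (m : ℕ) (h0 : 0 ≤ p) (h1 : m * p ≤ 1) (hp1 : p ≤ 1)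
    {A : Finset ι → Prop} (hA : ∀ F G, F ⊆ G → G ⊆ U → A F → A G) :
    Pr (U ×ˢ (univ : Finset (Fin m))) p (fun F => A (F.image Prod.fst)) ≤ Pr U (m * p) A := by
  classical
  have h2 : Pr (U ×ˢ (univ : Finset (Fin m))) p (fun F => A (F.image Prod.fst)) =
      Pr U (1 - (1 - p) ^ m) A := by
    rw [Pr_eq_Ex, Pr_eq_Ex]
    exact Ex_copies m (fun F => if A F then 1 else 0)
  rw [h2]
  have h3 : 0 ≤ 1 - p := by linarith
  have h4 : (1 - p) ^ m ≤ 1 := pow_le_one₀ h3 (by linarith)
  have h5 := one_add_mul_le_pow (a := -p) (by linarith) m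
  have h6 : (1 + -p) ^ m = (1 - p) ^ m := by
    congr 1
  rw [h6] at h5
  exact Pr_mono_p (by linarith) (by linarith) h1 hA

end forms

end Pool.Agent.SC
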