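import Pool.Agent.Lib.MP_d0323d_co.FamBasic
import Pool.Agent.Lib.MP_d0323d_co.Prob
/-! Definitions of module FM (10.1, 10.3). -/
set_option autoImplicit false
namespace Pool.Agent.SC
open Finset

/-- nonempty connected family of complexity 0 with `Phi = 0` -/
def IsTorus {α : Type*} [DecidableEq α] (Z : Finset (Finset α)) : Prop :=
  IsFam Z ∧ Z.Nonempty ∧ Conn Z ∧ compl Z = 0 ∧ Ph2 Z = 0

open Classical in
/-- `T(Y)` -/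
noncomputable def TY {n : ℕ} (N : ℕ) (Y : Finset (Finset (Fin n))) : Finset (Fin n) :=
  univ.filter (fun x => ∃ Z ⊆ Y, IsTorus Z ∧ Z.card ≤ N ∧ x ∈ verts Z)

/-- standing numerical hypothesis: (EN) in the form used, with `ε = η/2` and `c² Γ = e^{-4η}` -/
structure FMHyp (c Γ eta C : ℝ) : Prop where
  c_pos : 0 < c
  c_le : c ≤ 1
  G_ge : 1 ≤ Γ
  eta_pos : 0 < eta
  eta_le : eta ≤ 1
  rel : c ^ 2 * Γ = Real.exp (-(4 * eta))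
  C_pos : 0 < C
  en : ∀ v f k : ℕ, 1 ≤ f →
      (Nat.card {Z : Finset (Finset (Fin v)) // IsFam Z ∧ Conn Z ∧ verts Z = univ ∧ Z.card = f ∧
        compl Z ≤ k} : ℝ)
      ≤ (v.factorial : ℝ) * Γ ^ v * Real.exp (eta / 2 * f
          + C * Real.log ((f : ℝ) + 2) ^ 3 * ((k : ℝ) + 1 + max 0 ((f : ℝ) / 2 - v)))

/-- `Bad(T0)` of 10.3 -/
def Bad {n : ℕ} (T Ts : Finset (Fin n)) (ell eta Lam : ℝ) (N : ℕ) (Y : Finset (Finset (Fin n))) :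
    Prop :=
  ∃ Z ⊆ Y, Z.Nonempty ∧ Conn Z ∧ (∀ s ∈ Z, ¬ s ⊆ T) ∧ Z.card ≤ N ∧
    ¬ (complT Ts Z = 0 ∧ PhT2 Ts Z = 0) ∧
    ell * ((PhT2 Ts Z : ℝ) / 2) < (eta * (Z.card : ℝ) - Lam * (complT Ts Z : ℝ)) / 2

end Pool.Agent.SC
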