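import Pool.Agent.Lib.MP_d0323d_co.FillB
/-! Module FILL, part C: full 2-skeleta, removal of faces and edges. -/
set_option autoImplicit false
namespace Pool.Agent.SC
open Finset
variable {n : ℕ} {Y : Finset (Finset (Fin n))} {T : Finset (Fin n)}

/-! ### full 2-skeleta -/

theorem fl_sum_pairs3 {V : Type*} [DecidableEq V] {a b c : V} (hab : a ≠ b) (hac : a ≠ c) (hbc : b ≠ c)
    (φ : Finset V → ZMod 2) :
    ∑ e ∈ ({a, b, c} : Finset V).powersetCard 2, φ e = φ {a, b} + φ {a, c} + φ {b, c} := by
  have h1 : ({a, b, c} : Finset V).powersetCard 2 = {{a, b}, {a, c}, {b, c}} := by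
    symm
    apply eq_of_subset_of_card_le
    · intro e he
      simp only [mem_insert, mem_singleton] at he
      rw [mem_powersetCard]
      rcases he with rfl | rfl | rfl
      · exact ⟨by intro x; simp only [mem_insert, mem_singleton]; tauto, card_pair hab⟩
      · exact ⟨by intro x; simp only [mem_insert, mem_singleton]; tauto, card_pair hac⟩
      · exact ⟨by intro x; simp only [mem_insert, mem_singleton]; tauto, card_pair hbc⟩
    · have h3 : ({{a, b}, {a, c}, {b, c}} : Finset (Finset V)).card = 3 := by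
        refine card_eq_three.mpr ⟨{a, b}, {a, c}, {b, c}, ?_, ?_, ?_, rfl⟩
        · intro h; rcases fl_pair_eq_pair h with ⟨_, h⟩ | ⟨h, _⟩
          · exact hbc h
          · exact hac h
        · intro h; rcases fl_pair_eq_pair h with ⟨h, _⟩ | ⟨h, _⟩
          · exact hab h
          · exact hac h
        · intro h; rcases fl_pair_eq_pair h with ⟨h, _⟩ | ⟨h, _⟩
          · exact hab h
          · exact hac h
      rw [card_powersetCard, card_eq_three.mpr ⟨a, b, c, hab, hac, hbc, rfl⟩, h3]
      decide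
  rw [h1, sum_insert, sum_insert, sum_singleton, add_assoc]
  · rw [mem_singleton]; intro h; rcases fl_pair_eq_pair h with ⟨h, _⟩ | ⟨h, _⟩
    · exact hab h
    · exact hac h
  · rw [mem_insert, mem_singleton]
    rintro (h | h)
    · rcases fl_pair_eq_pair h with ⟨_, h⟩ | ⟨h, _⟩
      · exact hbc h
      · exact hac h
    · rcases fl_pair_eq_pair h with ⟨h, _⟩ | ⟨h, _⟩
      · exact hab h
      · exact hac h

theorem FlFil.full (S : Finset (Fin n)) (hS : S.Nonempty)
    (hF : ∀ s ⊆ S, s.card = 3 → s ∈ Y ∨ s ⊆ T) :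
    FlFil n Y T ((univ : Finset {x // x ∈ S}).powersetCard 2)
      ((univ : Finset {x // x ∈ S}).powersetCard 3) (fun v : {x // x ∈ S} => v.1) := by
  have hinj : ∀ s : Set {x // x ∈ S}, Set.InjOn (fun v : {x // x ∈ S} => v.1) s :=
    fun s a _ b _ hab => Subtype.ext hab
  refine ⟨⟨?_, ?_, ?_, ?_, ?_⟩, ?_, ⟨⟨hS.choose, hS.choose_spec⟩⟩, ?_⟩
  · intro e he; exact (mem_powersetCard.mp he).2
  · intro e he; exact hinj _
  · intro e he; exact (mem_powersetCard.mp he).2
  · intro s hs e he
    rw [mem_powersetCard] at he ⊢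
    exact ⟨subset_univ _, he.2⟩
  · intro s hs
    apply hF
    · intro x hx
      obtain ⟨y, _, rfl⟩ := mem_image.mp hx
      exact y.2
    · rw [card_image_of_injOn (hinj _)]
      exact (mem_powersetCard.mp hs).2
  · intro φ hφ
    obtain ⟨v0, hv0⟩ := hS
    set p : {x // x ∈ S} := ⟨v0, hv0⟩
    refine ⟨fun v => if v = p then 0 else φ {p, v}, fun a b hab => ?_⟩
    have hne : a ≠ b := by
      rintro rfl
      rw [mem_powersetCard] at hab
      simp at hab
    show φ {a, b} = (if a = p then 0 else φ {p, a}) + (if b = p then 0 else φ {p, b})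
    by_cases ha : a = p
    · subst ha
      rw [if_pos rfl, if_neg hne.symm, zero_add]
    · by_cases hb : b = p
      · subst hb
        rw [if_pos rfl, if_neg ha, add_zero, pair_comm]
      · rw [if_neg ha, if_neg hb]
        have := hφ {p, a, b} (by
          rw [mem_powersetCard]
          exact ⟨subset_univ _, card_eq_three.mpr ⟨p, a, b, Ne.symm ha, Ne.symm hb, hne, rfl⟩⟩)
        rw [fl_sum_pairs3 (Ne.symm ha) (Ne.symm hb) hne] at this
        have z2 : ∀ x y z : ZMod 2, x + y + z = 0 → z = x + y := by decide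
        exact z2 _ _ _ this
  · intro a b
    by_cases hab : a = b
    · subst hab; exact .refl
    · apply Relation.ReflTransGen.single
      rw [mem_powersetCard]
      exact ⟨subset_univ _, card_pair hab⟩

theorem fl_lift_walk {S : Finset (Fin n)} {w : List (Fin n)} (hc : ClosedW w) (hl : LabW w)
    (h : ∀ x ∈ w, x ∈ S) : ∃ u : List {x // x ∈ S}, ClosedW u ∧
      WalkIn ((univ : Finset {x // x ∈ S}).powersetCard 2) u ∧ u.map (fun v => v.1) = w := by
  have hmap : (w.pmap (fun x hx => (⟨x, hx⟩ : {x // x ∈ S})) h).map (fun v => v.1) = w := by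
    rw [List.map_pmap]
    simp
  refine ⟨w.pmap (fun x hx => ⟨x, hx⟩) h, ?_, ?_, hmap⟩
  · refine ⟨?_, ?_⟩
    · intro h0
      rw [h0] at hmap
      exact hc.1 hmap.symm
    · have h2 := hc.2
      rw [← hmap, List.head?_map, List.getLast?_map] at h2
      exact Option.map_injective Subtype.val_injective h2
  · have h3 := hl
    unfold LabW at h3
    rw [← hmap, List.isChain_map] at h3
    exact h3.imp (fun a b hab => by
      rw [mem_powersetCard]
      exact ⟨subset_univ _, card_pair (fun h => hab (congrArg _ h))⟩)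

theorem FSle.face {i j k : Fin n} (hc : ({i, j, k} : Finset (Fin n)).card = 3)
    (h : ({i, j, k} : Finset (Fin n)) ∈ Y) : FSle Y T [i, j, k, i] 1 := by
  have hij : i ≠ j := by
    rintro rfl
    have := card_le_two (a := i) (b := k)
    rw [insert_eq_of_mem (mem_insert_self _ _)] at hc
    omega
  have hjk : j ≠ k := by
    rintro rfl
    have := card_le_two (a := i) (b := j)
    rw [show ({i, j, j} : Finset (Fin n)) = {i, j} by simp] at hc
    omega
  have hik : i ≠ k := by
    rintro rfl
    have := card_le_two (a := i) (b := j)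
    rw [show ({i, j, i} : Finset (Fin n)) = {i, j} by
      ext x; simp only [mem_insert, mem_singleton]; tauto] at hc
    omega
  have hF := FlFil.full (Y := Y) (T := T) {i, j, k} ⟨i, by simp⟩ (by
    intro s hs hs3
    left
    rw [eq_of_subset_of_card_le hs (by rw [hc, hs3])]
    exact h)
  obtain ⟨u, h1, h2, h3⟩ := fl_lift_walk (S := {i, j, k}) (w := [i, j, k, i]) ⟨by simp, by simp⟩
    (by simp [LabW, hij, hjk, hik.symm]) (by simp)
  have := FSle.of_flfil hF h1 h2 (k := 1) (by
    unfold fl_nT
    refine (card_filter_le _ _).trans ?_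
    rw [card_powersetCard, card_univ, Fintype.card_coe, hc]
    decide)
  rwa [h3] at this

theorem FSle.inT {w : List (Fin n)} (hc : ClosedW w) (hl : LabW w) (h : ∀ x ∈ w, x ∈ T) :
    FSle Y T w 0 := by
  have hne : T.Nonempty := by
    obtain ⟨x, hx⟩ := List.exists_mem_of_ne_nil _ hc.1
    exact ⟨x, h x hx⟩
  have hF := FlFil.full (Y := Y) (T := T) T hne (fun s hs _ => Or.inr hs)
  obtain ⟨u, h1, h2, h3⟩ := fl_lift_walk hc hl h
  have := FSle.of_flfil hF h1 h2 (k := 0) (by
    unfold fl_nT
    rw [Nat.le_zero, card_eq_zero, filter_eq_empty_iff]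
    intro s _
    rw [not_not]
    intro x hx
    obtain ⟨y, _, rfl⟩ := mem_image.mp hx
    exact y.2)
  rwa [h3] at this

/-! ### minimal filler -/

/-- remove a face which is a sum of others -/
theorem FlFil.erase_face {V : Type} [DecidableEq V] {E F : Finset (Finset V)}
    {lab : V → Fin n} (h : FlFil n Y T E F lab) {Z : Finset (Finset V)} (hZ : Z ⊆ F)
    (hb : bdF Z = ∅) {s : Finset V} (hs : s ∈ Z) : FlFil n Y T E (F.erase s) lab := by
  refine ⟨⟨h.pre.E_card, h.pre.E_lab, fun t ht => h.pre.F_card t (mem_of_mem_erase ht),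
    fun t ht => h.pre.F_E t (mem_of_mem_erase ht), fun t ht => h.pre.F_lab t (mem_of_mem_erase ht)⟩,
    ?_, h.ne, h.conn⟩
  intro φ hφ
  apply h.coh φ
  intro t ht
  by_cases hts : t = s
  · subst hts
    have h1 := sum_bdF Z φ
    rw [hb, sum_empty, ← add_sum_erase _ _ hs] at h1
    rw [sum_eq_zero (s := Z.erase t), add_zero] at h1
    · exact h1
    · intro r hr
      exact hφ r (mem_erase.mpr ⟨(mem_erase.mp hr).1, hZ (mem_erase.mp hr).2⟩)
  · exact hφ t (mem_erase.mpr ⟨hts, ht⟩)

/-- remove a free edge together with its face -/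
theorem FlFil.erase_edge {V : Type} [DecidableEq V] {E F : Finset (Finset V)}
    {lab : V → Fin n} (h : FlFil n Y T E F lab) {e : Finset V} (he : e ∈ E) (hd : edeg F e = 1) :
    ∃ s ∈ F, FlFil n Y T (E.erase e) (F.erase s) lab := by
  obtain ⟨s, hs⟩ := card_eq_one.mp hd
  have hs1 : s ∈ F.filter (fun s => e ⊆ s) := by rw [hs]; exact mem_singleton_self _
  rw [mem_filter] at hs1
  obtain ⟨hsF, hes⟩ := hs1
  have huniq : ∀ t ∈ F, e ⊆ t → t = s := by
    intro t ht het
    have : t ∈ F.filter (fun s => e ⊆ s) := mem_filter.mpr ⟨ht, het⟩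
    rw [hs, mem_singleton] at this
    exact this
  obtain ⟨a, b, hab, rfl⟩ := card_eq_two.mp (h.pre.E_card e he)
  -- third vertex
  obtain ⟨c, hc⟩ : ∃ c, s \ {a, b} = {c} := by
    apply card_eq_one.mp
    rw [card_sdiff_of_subset hes, h.pre.F_card s hsF, card_pair hab]
  have hcs : c ∈ s \ {a, b} := by rw [hc]; exact mem_singleton_self _
  rw [mem_sdiff, mem_insert, mem_singleton, not_or] at hcs
  obtain ⟨hcs, hca, hcb⟩ := hcs
  have hseq : s = {a, b, c} := by
    symm
    apply eq_of_subset_of_card_le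
    · intro x hx
      simp only [mem_insert, mem_singleton] at hx
      rcases hx with rfl | rfl | rfl
      · exact hes (by simp)
      · exact hes (by simp)
      · exact hcs
    · rw [h.pre.F_card s hsF, card_eq_three.mpr ⟨a, b, c, hab, Ne.symm hca, Ne.symm hcb, rfl⟩]
  have hacE : ({a, c} : Finset V) ∈ E.erase {a, b} := by
    rw [mem_erase]
    refine ⟨?_, h.pre.F_E s hsF _ ?_⟩
    · intro h1
      rcases fl_pair_eq_pair h1 with ⟨_, h1⟩ | ⟨h1, _⟩
      · exact hcb h1
      · exact hab h1
    · rw [mem_powersetCard, hseq]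
      exact ⟨by intro x; simp only [mem_insert, mem_singleton]; tauto, card_pair (Ne.symm hca)⟩
  have hbcE : ({b, c} : Finset V) ∈ E.erase {a, b} := by
    rw [mem_erase]
    refine ⟨?_, h.pre.F_E s hsF _ ?_⟩
    · intro h1
      rcases fl_pair_eq_pair h1 with ⟨h1, _⟩ | ⟨_, h1⟩
      · exact hab h1.symm
      · exact hca h1
    · rw [mem_powersetCard, hseq]
      exact ⟨by intro x; simp only [mem_insert, mem_singleton]; tauto, card_pair (Ne.symm hcb)⟩
  refine ⟨s, hsF, ⟨⟨fun x hx => h.pre.E_card x (mem_of_mem_erase hx),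
    fun x hx => h.pre.E_lab x (mem_of_mem_erase hx),
    fun t ht => h.pre.F_card t (mem_of_mem_erase ht), ?_,
    fun t ht => h.pre.F_lab t (mem_of_mem_erase ht)⟩, ?_, h.ne, ?_⟩⟩
  · intro t ht x hx
    rw [mem_erase] at ht ⊢
    refine ⟨?_, h.pre.F_E t ht.2 x hx⟩
    rintro rfl
    exact ht.1 (huniq t ht.2 (mem_powersetCard.mp hx).1)
  · intro φ hφ
    have hac' : ({a, c} : Finset V) ≠ {a, b} := (mem_erase.mp hacE).1
    have hbc' : ({b, c} : Finset V) ≠ {a, b} := (mem_erase.mp hbcE).1
    obtain ⟨g, hg⟩ := h.coh (fun x => if x = {a, b} then φ {a, c} + φ {b, c} else φ x) (by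
      intro t ht
      by_cases hts : t = s
      · rw [hts, hseq, fl_sum_pairs3 hab (Ne.symm hca) (Ne.symm hcb)]
        rw [if_pos rfl, if_neg hac', if_neg hbc']
        have z2 : ∀ x y : ZMod 2, x + y + x + y = 0 := by decide
        exact z2 _ _
      · rw [← hφ t (mem_erase.mpr ⟨hts, ht⟩)]
        apply sum_congr rfl
        intro x hx
        rw [if_neg]
        rintro rfl
        exact hts (huniq t ht (mem_powersetCard.mp hx).1))
    refine ⟨g, fun x y hxy => ?_⟩
    rw [mem_erase] at hxy
    have := hg x y hxy.2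
    rwa [if_neg hxy.1] at this
  · have step : ∀ x y : V, ({x, y} : Finset V) ∈ E → Relation.ReflTransGen
        (fun a' b' => ({a', b'} : Finset V) ∈ E.erase {a, b}) x y := by
      intro x y hxy
      by_cases hxe : ({x, y} : Finset V) = {a, b}
      · rcases fl_pair_eq_pair hxe with ⟨rfl, rfl⟩ | ⟨rfl, rfl⟩
        · refine (Relation.ReflTransGen.single hacE).tail ?_
          rw [pair_comm c]; exact hbcE
        · refine (Relation.ReflTransGen.single hbcE).tail ?_
          rw [pair_comm c]; exact hacE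
      · exact Relation.ReflTransGen.single (mem_erase.mpr ⟨hxe, hxy⟩)
    intro u v
    have := h.conn u v
    induction this with
    | refl => exact .refl
    | tail _ h1 ih => exact ih.trans (step _ _ h1)

end Pool.Agent.SC
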