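import Pool.Agent.Lib.MP_d0323d_co.WalkBasic
import Pool.Agent.Lib.MP_d0323d_co.FamBasic
import Pool.Agent.Lib.MP_d0323d_co.FillC
/-! Module FILL (section 2): closure properties of `FSle` (see FillA, FillB, FillC) and the minimal filler. -/
set_option autoImplicit false
namespace Pool.Agent.SC
open Finset
variable {n : ℕ} {Y : Finset (Finset (Fin n))} {T : Finset (Fin n)}

theorem fl_steps_map {α β : Type*} (f : α → β) (l : List α) :
    steps (l.map f) = (steps l).map (Prod.map f f) := by
  unfold steps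
  rw [← List.map_tail, List.zip_map]

theorem fl_mem_steps {α : Type*} {l : List α} {p : α × α} (h : p ∈ steps l) : p.1 ∈ l ∧ p.2 ∈ l := by
  unfold steps at h
  have h' := List.of_mem_zip (a := p.1) (b := p.2) h
  exact ⟨h'.1, List.mem_of_mem_tail h'.2⟩

theorem fl_steps_fst {α : Type*} (l : List α) : (steps l).map Prod.fst = l.dropLast := by
  induction l with
  | nil => rfl
  | cons a l ih =>
    cases l with
    | nil => rfl
    | cons b l =>
      have h1 : steps (a :: b :: l) = (a, b) :: steps (b :: l) := by simp [steps]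
      rw [h1, List.map_cons, ih, List.dropLast_cons_cons]

/-- every vertex of a closed walk with at least one step starts a step -/
theorem fl_exists_step {α : Type*} {l : List α} (hc : ClosedW l) (h2 : 2 ≤ l.length) {y : α}
    (hy : y ∈ l) : ∃ p ∈ steps l, p.1 = y := by
  have h3 : y ∈ (steps l).map Prod.fst := by
    rw [fl_steps_fst]
    have hne : l ≠ [] := hc.1
    have h4 : l = l.dropLast ++ [l.getLast hne] := (List.dropLast_append_getLast hne).symm
    rw [h4, List.mem_append, List.mem_singleton] at hy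
    rcases hy with hy | hy
    · exact hy
    · -- last = head
      have h5 := hc.2
      rw [List.getLast?_eq_some_getLast hne] at h5
      rw [← hy] at h5
      cases hl : l with
      | nil => exact absurd hl hne
      | cons a t =>
        rw [hl, List.head?_cons] at h5
        have : a = y := by simpa using h5
        subst this
        cases t with
        | nil => rw [hl] at h2; simp at h2
        | cons b t => simp
  obtain ⟨p, hp, hpy⟩ := List.mem_map.mp h3
  exact ⟨p, hp, hpy⟩

theorem fl_len_map {V : Type*} (lab : V → Fin n) (T : Finset (Fin n)) (u : List V) :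
    len T (u.map lab) = ((steps u).filter (fun p => ¬ (lab p.1 ∈ T ∧ lab p.2 ∈ T))).length := by
  unfold len
  rw [fl_steps_map, List.filter_map, List.length_map]
  congr 1

theorem fl_tr_lp_aux {V : Type*} [DecidableEq V] (lab : V → Fin n) (T : Finset (Fin n)) (u : List V) :
    ((trset u).filter (fun e => ¬ e.image lab ⊆ T)).card ≤ len T (u.map lab) := by
  rw [fl_len_map]
  refine le_trans (card_le_card (t := (((steps u).filter
    (fun p => ¬ (lab p.1 ∈ T ∧ lab p.2 ∈ T))).map (fun p => ({p.1, p.2} : Finset V))).toFinset) ?_) ?_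
  · intro e he
    rw [mem_filter] at he
    obtain ⟨h1, h2⟩ := he
    unfold trset at h1
    rw [List.mem_toFinset, List.mem_map] at h1 ⊢
    obtain ⟨p, hp, rfl⟩ := h1
    refine ⟨p, ?_, rfl⟩
    rw [List.mem_filter]
    refine ⟨hp, ?_⟩
    rw [decide_eq_true_iff]
    rintro ⟨h3, h4⟩
    apply h2
    intro x hx
    obtain ⟨y, hy, rfl⟩ := mem_image.mp hx
    rw [mem_insert, mem_singleton] at hy
    rcases hy with rfl | rfl
    · exact h3
    · exact h4
  · refine (List.toFinset_card_le _).trans ?_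
    rw [List.length_map]

theorem FlW_lp_aux {V : Type*} [DecidableEq V] (lab : V → Fin n) {T Ts : Finset (Fin n)}
    (hT : T ⊆ Ts) {u : List V} (hc : ClosedW u) (h2 : 2 ≤ u.length) (P : V → Prop)
    [DecidablePred (fun y => lab y ∉ Ts ∧ P y)] :
    (u.toFinset.filter (fun y => lab y ∉ Ts ∧ P y)).card ≤ len T (u.map lab) := by
  rw [fl_len_map]
  refine le_trans (card_le_card (t := (((steps u).filter
    (fun p => ¬ (lab p.1 ∈ T ∧ lab p.2 ∈ T))).map Prod.fst).toFinset) ?_) ?_
  · intro y hy
    rw [mem_filter, List.mem_toFinset] at hy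
    obtain ⟨p, hp, rfl⟩ := fl_exists_step hc h2 hy.1
    rw [List.mem_toFinset, List.mem_map]
    refine ⟨p, ?_, rfl⟩
    rw [List.mem_filter]
    refine ⟨hp, ?_⟩
    rw [decide_eq_true_iff]
    rintro ⟨h3, _⟩
    exact hy.2.1 (hT h3)
  · refine (List.toFinset_card_le _).trans ?_
    rw [List.length_map]

/-- filler of `w` with given parameters -/
def FlIsFil (Y : Finset (Finset (Fin n))) (T : Finset (Fin n)) (w : List (Fin n)) (X : Cpx n Y T) :
    Prop := ∃ u : List X.V, ClosedW u ∧ @WalkIn X.V X.de X.E u ∧ u.map X.lab = w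

theorem fl_exists_min {w : List (Fin n)} {k : ℕ} (h : FSle Y T w k) :
    ∃ X : Cpx n Y T, FlIsFil Y T w X ∧ X.fp ≤ k ∧
      ∀ X' : Cpx n Y T, FlIsFil Y T w X' → X.fp ≤ X'.fp ∧
        (X'.fp ≤ X.fp → @Fintype.card X.V X.ft ≤ @Fintype.card X'.V X'.ft ∧
          (@Fintype.card X'.V X'.ft ≤ @Fintype.card X.V X.ft → X.E.card ≤ X'.E.card)) := by
  classical
  have h0 : ∃ k, ∃ X : Cpx n Y T, FlIsFil Y T w X ∧ X.fp = k := by
    obtain ⟨X, u, h1, h2, h3, h4⟩ := h
    exact ⟨X.fp, X, ⟨u, h1, h2, h3⟩, rfl⟩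
  have h1 : ∃ b, ∃ X : Cpx n Y T, FlIsFil Y T w X ∧ X.fp = Nat.find h0 ∧
      @Fintype.card X.V X.ft = b := by
    obtain ⟨X, hX, hXk⟩ := Nat.find_spec h0
    exact ⟨_, X, hX, hXk, rfl⟩
  have h2 : ∃ c, ∃ X : Cpx n Y T, FlIsFil Y T w X ∧ X.fp = Nat.find h0 ∧
      @Fintype.card X.V X.ft = Nat.find h1 ∧ X.E.card = c := by
    obtain ⟨X, hX, hXk, hXb⟩ := Nat.find_spec h1
    exact ⟨_, X, hX, hXk, hXb, rfl⟩
  obtain ⟨X, hX, hXk, hXb, hXc⟩ := Nat.find_spec h2
  have hmin : ∀ X' : Cpx n Y T, FlIsFil Y T w X' → X.fp ≤ X'.fp := by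
    intro X' hX'
    rw [hXk]
    exact Nat.find_min' h0 ⟨X', hX', rfl⟩
  refine ⟨X, hX, ?_, fun X' hX' => ⟨hmin X' hX', fun h3 => ?_⟩⟩
  · obtain ⟨X', u, a1, a2, a3, a4⟩ := h
    exact (hmin X' ⟨u, a1, a2, a3⟩).trans a4
  · have e1 : X'.fp = Nat.find h0 := by rw [← hXk]; exact le_antisymm h3 (hmin X' hX')
    have e2 : @Fintype.card X.V X.ft ≤ @Fintype.card X'.V X'.ft := by
      rw [hXb]
      exact Nat.find_min' h1 ⟨X', hX', e1, rfl⟩
    refine ⟨e2, fun h4 => ?_⟩
    have e3 : @Fintype.card X'.V X'.ft = Nat.find h1 := by rw [← hXb]; exact le_antisymm h4 e2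
    rw [hXc]
    exact Nat.find_min' h2 ⟨X', hX', e1, e3, rfl⟩

/-- 2.5: minimal filler. -/
theorem FSle.minimal {w : List (Fin n)} {k : ℕ} (h : FSle Y T w k) {Ts : Finset (Fin n)}
    (hT : T ⊆ Ts) (h3 : 3 ≤ Ts.card) (hY : ∀ s ∈ Y, s.card = 3) :
    ∃ (V : Type) (_ : Fintype V) (_ : DecidableEq V) (Q : Imm V n) (u : List V),
      Q.T = T ∧ Q.Ts = Ts ∧ ClosedW u ∧ WalkIn Q.E u ∧ u.map Q.lab = w ∧
      Q.W = u.toFinset ∧ Q.tr = trset u ∧ Q.lp = len T w ∧ Q.Fp.card ≤ k ∧
      (∀ s ∈ Q.Fp, s.image Q.lab ∈ Y) ∧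
      (∀ u' : List V, ClosedW u' → WalkIn Q.E u' → FSle Y T (u'.map Q.lab) Q.Fp.card) := by
  have _ := hY
  obtain ⟨X, ⟨u, hc, hw, hu⟩, hk, hmin⟩ := fl_exists_min h
  let _ := X.de
  let _ := X.ft
  -- minimality for unbundled fillers
  have hmin' : ∀ {V' : Type} [Fintype V'] [DecidableEq V'] {E' F' : Finset (Finset V')}
      {lab' : V' → Fin n} (_ : FlFil n Y T E' F' lab') (u' : List V') (_ : ClosedW u')
      (_ : WalkIn E' u') (_ : u'.map lab' = w), X.fp ≤ fl_nT T lab' F' ∧
        (fl_nT T lab' F' ≤ X.fp → Fintype.card X.V ≤ Fintype.card V' ∧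
          (Fintype.card V' ≤ Fintype.card X.V → X.E.card ≤ E'.card)) := by
    intro V' _ _ E' F' lab' hF u' c1 c2 c3
    exact hmin (fl_mkC hF.pre hF.coh hF.ne hF.conn) ⟨u', c1, c2, c3⟩
  have himm : ∀ y z z' : X.V, ({y, z} : Finset X.V) ∈ X.E → ({y, z'} : Finset X.V) ∈ X.E →
      X.lab z = X.lab z' → z = z' := by
    intro y z z' e1 e2 e3
    by_contra hne
    obtain ⟨q, q1, q2, q3⟩ := X.flfil.fold e1 e2 e3 hne
    have hmap : (u.map q).map (fun v => X.lab v.1) = w := by
      rw [List.map_map, ← hu]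
      apply List.map_congr_left
      intro v _
      exact q2 v
    have h4 := (hmin' q3 (u.map q) (hc.fl_map q) (WalkIn.fl_push q hw) hmap).2 (fl_nT_push q q2 X.F)
    have h5 : Fintype.card {v : X.V // v ≠ z'} < Fintype.card X.V :=
      Fintype.card_subtype_lt (x := z') (by simp)
    omega
  have hno2 : ∀ Z ⊆ X.F, bdF Z = ∅ → ∀ s ∈ Z, s.image X.lab ⊆ T := by
    intro Z hZ hb s hs
    by_contra hsT
    have h4 := (hmin' (X.flfil.erase_face hZ hb hs) u hc hw hu).1
    have h5 : fl_nT T X.lab (X.F.erase s) < X.fp := by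
      apply card_lt_card
      rw [ssubset_iff_of_subset (filter_subset_filter _ (erase_subset _ _))]
      exact ⟨s, mem_filter.mpr ⟨hZ hs, hsT⟩, by simp⟩
    omega
  have hdeg : ∀ e ∈ X.E, e ∉ trset u → edeg X.F e ≠ 1 := by
    intro e he htr hd
    obtain ⟨s, hs, hF⟩ := X.flfil.erase_edge he hd
    have hw' : WalkIn (X.E.erase e) u := by
      have key : ∀ l : List X.V, WalkIn X.E l → e ∉ trset l → WalkIn (X.E.erase e) l := by
        intro l
        induction l with
        | nil => intro _ _; exact List.IsChain.nil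
        | cons a l ih =>
          intro h1 h2
          cases l with
          | nil => exact List.IsChain.singleton a
          | cons b l =>
            unfold WalkIn at h1 ⊢
            rw [List.isChain_cons_cons] at h1 ⊢
            have h6 : e ≠ {a, b} := by
              rintro rfl
              apply h2
              simp [trset, steps]
            refine ⟨mem_erase.mpr ⟨h6.symm, h1.1⟩, ih h1.2 ?_⟩
            intro h7
            apply h2
            unfold trset steps at h7 ⊢
            rw [List.mem_toFinset, List.mem_map] at h7 ⊢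
            obtain ⟨p, hp, hpe⟩ := h7
            exact ⟨p, by simp only [List.tail_cons, List.zip_cons_cons, List.mem_cons]; right; simpa using hp, hpe⟩
      exact key u hw htr
    have h4 := (hmin' hF u hc hw' hu).2 (by
      apply card_le_card
      exact filter_subset_filter _ (erase_subset _ _))
    have h5 := h4.2 le_rfl
    rw [card_erase_of_mem he] at h5
    have h6 := card_pos.mpr ⟨e, he⟩
    omega
  have hWlp : (u.toFinset.filter (fun y => X.lab y ∉ Ts ∧ ∃ s ∈ X.F, y ∈ s)).card ≤ len T w := by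
    rw [← hu]
    by_cases h2 : 2 ≤ u.length
    · exact FlW_lp_aux X.lab hT hc h2 _
    · -- a constant walk: single vertex
      obtain ⟨a, rfl⟩ : ∃ a, u = [a] := by
        have h4 : u.length = 1 := by
          have : u.length ≠ 0 := by
            intro h; exact hc.1 (List.length_eq_zero_iff.mp h)
          omega
        exact List.length_eq_one_iff.mp h4
      have hF : FlFil n Y T ((univ : Finset {x // x ∈ ({X.lab a} : Finset (Fin n))}).powersetCard 2)
          ((univ : Finset {x // x ∈ ({X.lab a} : Finset (Fin n))}).powersetCard 3)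
          (fun v => v.1) := FlFil.full {X.lab a} ⟨_, mem_singleton_self _⟩ (by
            intro s hs hs3
            have := card_le_card hs
            rw [card_singleton] at this
            omega)
      have h5 := hmin' hF [⟨X.lab a, mem_singleton_self _⟩] ⟨by simp, by simp⟩
        (List.IsChain.singleton _) (by rw [← hu]; simp)
      have h6 : fl_nT T (fun v : {x // x ∈ ({X.lab a} : Finset (Fin n))} => v.1)
          ((univ : Finset {x // x ∈ ({X.lab a} : Finset (Fin n))}).powersetCard 3) = 0 := by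
        unfold fl_nT
        rw [powersetCard_eq_empty.mpr (by simp)]
        simp
      have h7 := (h5.2 (by rw [h6]; exact Nat.zero_le _)).1
      have h8 : Fintype.card {x // x ∈ ({X.lab a} : Finset (Fin n))} = 1 := by simp
      rw [h8] at h7
      have h9 : ([a].toFinset.filter (fun y => X.lab y ∉ Ts ∧ ∃ s ∈ X.F, y ∈ s)) = ∅ := by
        rw [filter_eq_empty_iff]
        rintro y _ ⟨_, s, hs, _⟩
        have := X.F_card s hs
        have h10 := card_le_univ s
        omega
      rw [h9]
      simp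
  refine ⟨X.V, X.ft, X.de, ⟨T, Ts, X.E, X.F, X.lab, u.toFinset, trset u, len T w, hT, h3, X.E_card,
    X.E_lab, X.F_card, X.F_E, X.conn, X.h1, himm, hno2, hdeg, ?_, ?_, hWlp⟩, u, rfl, rfl, hc, hw, hu,
    rfl, rfl, rfl, hk, ?_, ?_⟩
  · intro e he y hy
    unfold trset at he
    rw [List.mem_toFinset, List.mem_map] at he
    obtain ⟨p, hp, rfl⟩ := he
    rw [List.mem_toFinset]
    rw [mem_insert, mem_singleton] at hy
    rcases hy with rfl | rfl
    · exact (fl_mem_steps hp).1
    · exact (fl_mem_steps hp).2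
  · rw [← hu]
    exact fl_tr_lp_aux X.lab T u
  · intro s hs
    unfold Imm.Fp at hs
    rw [mem_filter] at hs
    rcases X.F_lab s hs.1 with h4 | h4
    · exact h4
    · exact absurd h4 hs.2
  · intro u' c1 c2
    exact ⟨X, u', c1, c2, rfl, le_rfl⟩

end Pool.Agent.SC
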