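import Pool.Agent.Lib.MP_d0323d_co.Coh
/-! Module FILL, part A: pushing complexes forward, list lemmas, elementary closure properties. -/
set_option autoImplicit false
namespace Pool.Agent.SC
open Finset
variable {n : ℕ} {Y : Finset (Finset (Fin n))} {T : Finset (Fin n)}

/-! ### pushing families forward -/

theorem fl_sum_push {V V' : Type*} [DecidableEq V] [DecidableEq V'] (q : V → V') {s : Finset V}
    (hq : Set.InjOn q (s : Set V)) (φ : Finset V' → ZMod 2) :
    ∑ e ∈ (s.image q).powersetCard 2, φ e = ∑ e ∈ s.powersetCard 2, φ (e.image q) := by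
  symm
  apply sum_nbij (fun e => e.image q)
  · intro e he
    rw [mem_powersetCard] at he ⊢
    exact ⟨image_subset_image he.1, by rw [card_image_of_injOn (hq.mono (by exact_mod_cast he.1)), he.2]⟩
  · intro e1 h1 e2 h2 h12
    rw [mem_coe, mem_powersetCard] at h1 h2
    have key : ∀ a b : Finset V, a ⊆ s → b ⊆ s → a.image q = b.image q → a ⊆ b := by
      intro a b ha hb hab x hx
      have : q x ∈ b.image q := by rw [← hab]; exact mem_image_of_mem q hx
      obtain ⟨y, hy, hyx⟩ := mem_image.mp this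
      rwa [← hq (hb hy) (ha hx) hyx]
    exact Subset.antisymm (key _ _ h1.1 h2.1 h12) (key _ _ h2.1 h1.1 h12.symm)
  · intro e he
    rw [mem_coe, mem_powersetCard] at he
    have h1 : (s.filter (fun x => q x ∈ e)).image q = e := by
      ext y
      rw [mem_image]
      constructor
      · rintro ⟨x, hx, rfl⟩; exact (mem_filter.mp hx).2
      · intro hy
        obtain ⟨x, hx, rfl⟩ := mem_image.mp (he.1 hy)
        exact ⟨x, mem_filter.mpr ⟨hx, hy⟩, rfl⟩
    refine ⟨s.filter (fun x => q x ∈ e), ?_, h1⟩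
    rw [mem_coe, mem_powersetCard]
    refine ⟨filter_subset _ _, ?_⟩
    rw [← card_image_of_injOn (f := q) (hq.mono (by exact_mod_cast filter_subset _ _)), h1, he.2]
  · intro e _; rfl

theorem fl_pair_eq_pair {V : Type*} [DecidableEq V] {a b c d : V} (h : ({a, b} : Finset V) = {c, d}) :
    (a = c ∧ b = d) ∨ (a = d ∧ b = c) := by
  have h1 : ({a, b} : Set V) = {c, d} := by
    have := congrArg (fun s : Finset V => (s : Set V)) h
    simpa using this
  exact Set.pair_eq_pair_iff.mp h1

theorem fl_mem_push {V V' : Type*} [DecidableEq V] [DecidableEq V'] (q : V → V')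
    {E : Finset (Finset V)} (hE : ∀ e ∈ E, e.card = 2) {a' b' : V'}
    (h : ({a', b'} : Finset V') ∈ E.image (fun e => e.image q)) :
    ∃ a b, ({a, b} : Finset V) ∈ E ∧ q a = a' ∧ q b = b' := by
  obtain ⟨e, he, heq⟩ := mem_image.mp h
  obtain ⟨a, b, _, rfl⟩ := card_eq_two.mp (hE e he)
  simp only [image_insert, image_singleton] at heq
  rcases fl_pair_eq_pair heq with ⟨h1, h2⟩ | ⟨h1, h2⟩
  · exact ⟨a, b, he, h1, h2⟩
  · exact ⟨b, a, by rwa [pair_comm], h2, h1⟩

/-- the combinatorial part of the data of a complex -/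
structure FlPre (n : ℕ) (Y : Finset (Finset (Fin n))) (T : Finset (Fin n)) {V : Type} [DecidableEq V]
    (E F : Finset (Finset V)) (lab : V → Fin n) : Prop where
  E_card : ∀ e ∈ E, e.card = 2
  E_lab : ∀ e ∈ E, Set.InjOn lab (e : Set V)
  F_card : ∀ s ∈ F, s.card = 3
  F_E : ∀ s ∈ F, ∀ e ∈ s.powersetCard 2, e ∈ E
  F_lab : ∀ s ∈ F, s.image lab ∈ Y ∨ s.image lab ⊆ T

theorem Cpx.flpre (X : Cpx n Y T) : @FlPre n Y T X.V X.de X.E X.F X.lab := by
  let _ := X.de
  exact ⟨X.E_card, X.E_lab, X.F_card, X.F_E, X.F_lab⟩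

/-- complex from `FlPre` and the cohomological condition -/
def fl_mkC {V : Type} [ft : Fintype V] [de : DecidableEq V] {E F : Finset (Finset V)} {lab : V → Fin n}
    (hp : FlPre n Y T E F lab) (hc : Coh E F) (hne : Nonempty V)
    (hconn : ∀ u v : V, Relation.ReflTransGen (fun a b => ({a, b} : Finset V) ∈ E) u v) :
    Cpx n Y T where
  V := V
  ft := ft
  de := de
  E := E
  F := F
  lab := lab
  E_card := hp.E_card
  E_lab := hp.E_lab
  F_card := hp.F_card
  F_E := hp.F_E
  F_lab := hp.F_lab
  conn := hconn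
  ne := hne
  h1 := h1_of_coh hc

theorem Cpx.flcoh (X : Cpx n Y T) : @Coh X.V X.de X.E X.F := by
  let _ := X.de
  let _ := X.ft
  exact coh_of_h1 X.E_card X.h1

namespace FlPre
variable {V : Type} [DecidableEq V] {E F : Finset (Finset V)} {lab : V → Fin n}

theorem ne_of_edge (hp : FlPre n Y T E F lab) {a b : V} (h : ({a, b} : Finset V) ∈ E) : a ≠ b := by
  rintro rfl
  have := hp.E_card _ h
  simp at this

theorem lab_ne (hp : FlPre n Y T E F lab) {a b : V} (h : ({a, b} : Finset V) ∈ E) : lab a ≠ lab b := by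
  intro hl
  exact hp.ne_of_edge h (hp.E_lab _ h (by simp) (by simp) hl)

theorem lab_face (hp : FlPre n Y T E F lab) {s : Finset V} (hs : s ∈ F) :
    Set.InjOn lab (s : Set V) := by
  intro a ha b hb hab
  by_contra hne
  have h1 : ({a, b} : Finset V) ∈ E := by
    apply hp.F_E s hs
    rw [mem_powersetCard]
    refine ⟨?_, card_pair hne⟩
    intro x hx
    rw [mem_insert, mem_singleton] at hx
    rcases hx with rfl | rfl
    · exact ha
    · exact hb
  exact hp.lab_ne h1 hab

/-- push forward along a label preserving map -/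
theorem push (hp : FlPre n Y T E F lab) {V' : Type} [DecidableEq V'] (q : V → V') {lab' : V' → Fin n}
    (hq : ∀ v, lab' (q v) = lab v) :
    FlPre n Y T (E.image (fun e => e.image q)) (F.image (fun s => s.image q)) lab' := by
  have hinj : ∀ s : Finset V, Set.InjOn lab (s : Set V) → Set.InjOn q (s : Set V) := by
    intro s hs a ha b hb hab
    apply hs ha hb
    rw [← hq, ← hq, hab]
  have hinj' : ∀ s : Finset V, Set.InjOn lab (s : Set V) → Set.InjOn lab' ((s.image q : Finset V') : Set V') := by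
    intro s hs a ha b hb hab
    rw [mem_coe] at ha hb
    obtain ⟨a0, ha0, rfl⟩ := mem_image.mp ha
    obtain ⟨b0, hb0, rfl⟩ := mem_image.mp hb
    rw [hq, hq] at hab
    rw [hs ha0 hb0 hab]
  refine ⟨?_, ?_, ?_, ?_, ?_⟩
  · intro e he
    obtain ⟨e0, he0, rfl⟩ := mem_image.mp he
    rw [card_image_of_injOn (hinj e0 (hp.E_lab e0 he0)), hp.E_card e0 he0]
  · intro e he
    obtain ⟨e0, he0, rfl⟩ := mem_image.mp he
    exact hinj' e0 (hp.E_lab e0 he0)
  · intro e he
    obtain ⟨e0, he0, rfl⟩ := mem_image.mp he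
    rw [card_image_of_injOn (hinj e0 (hp.lab_face he0)), hp.F_card e0 he0]
  · intro s hs e he
    obtain ⟨s, hs0, rfl⟩ := mem_image.mp hs
    rw [mem_powersetCard] at he
    have h1 : (s.filter (fun x => q x ∈ e)).image q = e := by
      ext y
      rw [mem_image]
      constructor
      · rintro ⟨x, hx, rfl⟩; exact (mem_filter.mp hx).2
      · intro hy
        obtain ⟨x, hx, rfl⟩ := mem_image.mp (he.1 hy)
        exact ⟨x, mem_filter.mpr ⟨hx, hy⟩, rfl⟩
    rw [← h1]
    apply mem_image_of_mem
    apply hp.F_E s hs0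
    rw [mem_powersetCard]
    refine ⟨filter_subset _ _, ?_⟩
    rw [← card_image_of_injOn (f := q)
      ((hinj s (hp.lab_face hs0)).mono (coe_subset.mpr (filter_subset _ _))), h1, he.2]
  · intro s hs
    obtain ⟨s, hs0, rfl⟩ := mem_image.mp hs
    have : (s.image q).image lab' = s.image lab := by
      rw [image_image]
      apply image_congr
      intro x _
      exact hq x
    rw [this]
    exact hp.F_lab s hs0

theorem union (hp : FlPre n Y T E F lab) {E' F' : Finset (Finset V)} (hp' : FlPre n Y T E' F' lab) :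
    FlPre n Y T (E ∪ E') (F ∪ F') lab := by
  refine ⟨?_, ?_, ?_, ?_, ?_⟩
  · intro e he
    rcases mem_union.mp he with he | he
    · exact hp.E_card e he
    · exact hp'.E_card e he
  · intro e he
    rcases mem_union.mp he with he | he
    · exact hp.E_lab e he
    · exact hp'.E_lab e he
  · intro e he
    rcases mem_union.mp he with he | he
    · exact hp.F_card e he
    · exact hp'.F_card e he
  · intro s hs e he
    rcases mem_union.mp hs with hs | hs
    · exact mem_union_left _ (hp.F_E s hs e he)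
    · exact mem_union_right _ (hp'.F_E s hs e he)
  · intro e he
    rcases mem_union.mp he with he | he
    · exact hp.F_lab e he
    · exact hp'.F_lab e he

/-- pull back a cocycle along a label preserving map -/
theorem pull (hp : FlPre n Y T E F lab) {V' : Type} [DecidableEq V'] (q : V → V') {lab' : V' → Fin n}
    (hq : ∀ v, lab' (q v) = lab v) (φ : Finset V' → ZMod 2)
    (hφ : ∀ s ∈ F.image (fun s => s.image q), ∑ e ∈ s.powersetCard 2, φ e = 0)
    (hc : Coh E F) : ∃ h : V → ZMod 2, ∀ a b, ({a, b} : Finset V) ∈ E → φ {q a, q b} = h a + h b := by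
  obtain ⟨h, hh⟩ := hc (fun e => φ (e.image q)) (by
    intro s hs
    rw [← fl_sum_push q]
    · exact hφ _ (mem_image_of_mem _ hs)
    · intro a ha b hb hab
      apply hp.lab_face hs ha hb
      rw [← hq, ← hq, hab])
  refine ⟨h, fun a b hab => ?_⟩
  have := hh a b hab
  simpa using this

end FlPre

/-- number of non-T faces of a family -/
def fl_nT {V : Type} [DecidableEq V] (T : Finset (Fin n)) (lab : V → Fin n) (F : Finset (Finset V)) : ℕ :=
  (F.filter (fun s => ¬ s.image lab ⊆ T)).card

theorem fl_nT_push {V V' : Type} [DecidableEq V] [DecidableEq V'] (q : V → V') {lab : V → Fin n}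
    {lab' : V' → Fin n} (hq : ∀ v, lab' (q v) = lab v) (F : Finset (Finset V)) :
    fl_nT T lab' (F.image (fun s => s.image q)) ≤ fl_nT T lab F := by
  unfold fl_nT
  refine le_trans (card_le_card ?_) (card_image_le (s := F.filter (fun s => ¬ s.image lab ⊆ T))
    (f := fun s => s.image q))
  intro s hs
  rw [mem_filter] at hs
  obtain ⟨h1, h2⟩ := hs
  obtain ⟨s, hs, rfl⟩ := mem_image.mp h1
  have : (s.image q).image lab' = s.image lab := by
    rw [image_image]
    apply image_congr
    intro x _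
    exact hq x
  rw [this] at h2
  exact mem_image_of_mem _ (mem_filter.mpr ⟨hs, h2⟩)

theorem fl_nT_union {V : Type} [DecidableEq V] {lab : V → Fin n} (F F' : Finset (Finset V)) :
    fl_nT T lab (F ∪ F') ≤ fl_nT T lab F + fl_nT T lab F' := by
  unfold fl_nT
  rw [filter_union]
  exact card_union_le _ _

theorem FSle.mono {w : List (Fin n)} {k k' : ℕ} (h : FSle Y T w k) (hk : k ≤ k') : FSle Y T w k' := by
  obtain ⟨X, u, h1, h2, h3, h4⟩ := h
  exact ⟨X, u, h1, h2, h3, h4.trans hk⟩

/-! ### lists -/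

theorem fl_isChain_map_iff {α β : Type*} {R : β → β → Prop} (f : α → β) (l : List α) :
    (l.map f).IsChain R ↔ l.IsChain (fun a b => R (f a) (f b)) := by
  rw [List.isChain_map]

theorem ClosedW.fl_map {α β : Type*} {l : List α} (h : ClosedW l) (f : α → β) : ClosedW (l.map f) := by
  obtain ⟨h1, h2⟩ := h
  refine ⟨by simpa using h1, ?_⟩
  rw [List.head?_map, List.getLast?_map, h2]

theorem ClosedW.fl_reverse {α : Type*} {l : List α} (h : ClosedW l) : ClosedW l.reverse := by
  obtain ⟨h1, h2⟩ := h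
  refine ⟨by simpa using h1, ?_⟩
  rw [List.head?_reverse, List.getLast?_reverse, h2]

theorem WalkIn.fl_reverse {V : Type*} [DecidableEq V] {E : Finset (Finset V)} {l : List V}
    (h : WalkIn E l) : WalkIn E l.reverse := by
  unfold WalkIn at *
  rw [List.isChain_reverse]
  have : (fun a b => ({b, a} : Finset V) ∈ E) = (fun a b => ({a, b} : Finset V) ∈ E) := by
    funext a b
    rw [pair_comm]
  rw [this]
  exact h

theorem fl_rot_aux {α : Type*} {R : α → α → Prop} {x y : α} {u v : List α}
    (h : (x :: u ++ y :: v).IsChain R) (hc : ClosedW (x :: u ++ y :: v)) :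
    (y :: v ++ u ++ [y]).IsChain R ∧ ClosedW (y :: v ++ u ++ [y]) := by
  have hlast : (y :: v).getLast? = some x := by
    have := hc.2
    rw [List.cons_append, List.head?_cons, ← List.cons_append, List.getLast?_append] at this
    rw [List.getLast?_cons] at this ⊢
    simpa using this.symm
  obtain ⟨v', hv'⟩ : ∃ v', y :: v = v' ++ [x] := by
    refine ⟨(y :: v).dropLast, ?_⟩
    exact (List.dropLast_append_getLast? _ hlast).symm
  rw [List.isChain_split] at h
  refine ⟨?_, by simp, by simp [List.getLast?_cons]⟩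
  rw [hv']
  have e : v' ++ [x] ++ u ++ [y] = v' ++ x :: (u ++ [y]) := by simp
  rw [e, List.isChain_split]
  refine ⟨?_, h.1⟩
  rw [← hv']
  exact h.2

theorem WalkIn.fl_map {V V' : Type*} [DecidableEq V] [DecidableEq V'] {E : Finset (Finset V)}
    {E' : Finset (Finset V')} {l : List V} (f : V → V')
    (hf : ∀ a b, ({a, b} : Finset V) ∈ E → ({f a, f b} : Finset V') ∈ E')
    (h : WalkIn E l) : WalkIn E' (l.map f) := by
  unfold WalkIn at *
  rw [List.isChain_map]
  exact h.imp (fun a b hab => hf a b hab)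

theorem FSle.clos {w : List (Fin n)} {k : ℕ} (h : FSle Y T w k) : ClosedW w ∧ LabW w := by
  obtain ⟨X, u, h1, h2, h3, h4⟩ := h
  let _ := X.de
  subst h3
  refine ⟨h1.fl_map _, ?_⟩
  unfold LabW
  rw [List.isChain_map]
  refine h2.imp (fun a b hab => ?_)
  intro hl
  have h5 := X.E_lab _ hab (by simp) (by simp) hl
  have h6 := X.E_card _ hab
  rw [h5] at h6
  simp at h6

theorem FSle.rot {w w' : List (Fin n)} {k : ℕ} (h : FSle Y T w k) (hr : RotW w w') :
    FSle Y T w' k := by
  obtain ⟨X, u, h1, h2, h3, h4⟩ := h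
  let _ := X.de
  rcases hr with rfl | ⟨x, y, a, b, hw, hc, rfl⟩
  · exact ⟨X, u, h1, h2, h3, h4⟩
  · rw [hw] at h3
    -- decompose `u`
    obtain ⟨u1, u2, rfl, hu1, hu2⟩ := List.map_eq_append_iff.mp h3
    obtain ⟨x', a', rfl, hx', ha'⟩ := List.map_eq_cons_iff.mp hu1
    obtain ⟨y', b', rfl, hy', hb'⟩ := List.map_eq_cons_iff.mp hu2
    obtain ⟨r1, r2⟩ := fl_rot_aux h2 h1
    exact ⟨X, y' :: b' ++ a' ++ [y'], r2, r1, by simp [ha', hb', hy'], h4⟩

theorem FSle.rev {w : List (Fin n)} {k : ℕ} (h : FSle Y T w k) : FSle Y T w.reverse k := by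
  obtain ⟨X, u, h1, h2, h3, h4⟩ := h
  let _ := X.de
  exact ⟨X, u.reverse, h1.fl_reverse, h2.fl_reverse, by rw [List.map_reverse, h3], h4⟩

end Pool.Agent.SC
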