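import Pool.Agent.Lib.MP_d0323d_co.FillA
/-! Module FILL, part B: fold, pendant edge, wedge. -/
set_option autoImplicit false
namespace Pool.Agent.SC
open Finset
variable {n : ℕ} {Y : Finset (Finset (Fin n))} {T : Finset (Fin n)}

structure FlFil (n : ℕ) (Y : Finset (Finset (Fin n))) (T : Finset (Fin n)) {V : Type} [DecidableEq V]
    (E F : Finset (Finset V)) (lab : V → Fin n) : Prop where
  pre : FlPre n Y T E F lab
  coh : Coh E F
  ne : Nonempty V
  conn : ∀ u v : V, Relation.ReflTransGen (fun a b => ({a, b} : Finset V) ∈ E) u v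

theorem Cpx.flfil (X : Cpx n Y T) : @FlFil n Y T X.V X.de X.E X.F X.lab := by
  let _ := X.de
  exact ⟨X.flpre, X.flcoh, X.ne, X.conn⟩

theorem FSle.of_flfil {V : Type} [Fintype V] [DecidableEq V] {E F : Finset (Finset V)}
    {lab : V → Fin n} (h : FlFil n Y T E F lab) {u : List V} (hc : ClosedW u) (hw : WalkIn E u)
    {k : ℕ} (hk : fl_nT T lab F ≤ k) : FSle Y T (u.map lab) k :=
  ⟨fl_mkC h.pre h.coh h.ne h.conn, u, hc, hw, rfl, hk⟩

theorem fl_rtg_lift {α β : Type*} {r : α → α → Prop} {p : β → β → Prop} (f : α → β)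
    (h : ∀ a b, r a b → p (f a) (f b)) {a b : α} (hab : Relation.ReflTransGen r a b) :
    Relation.ReflTransGen p (f a) (f b) := by
  induction hab with
  | refl => exact .refl
  | tail _ h1 ih => exact ih.tail (h _ _ h1)

theorem WalkIn.fl_push {V V' : Type*} [DecidableEq V] [DecidableEq V'] {E : Finset (Finset V)}
    {l : List V} (q : V → V') (h : WalkIn E l) :
    WalkIn (E.image (fun e => e.image q)) (l.map q) := by
  apply h.fl_map q
  intro a b hab
  rw [mem_image]
  exact ⟨{a, b}, hab, by simp⟩

theorem WalkIn.fl_mono {V : Type*} [DecidableEq V] {E E' : Finset (Finset V)}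
    {l : List V} (hE : E ⊆ E') (h : WalkIn E l) : WalkIn E' l :=
  h.imp (fun _ _ hab => hE hab)

/-! ### fold -/

theorem FlFil.fold {V : Type} [DecidableEq V] {E F : Finset (Finset V)}
    {lab : V → Fin n} (h : FlFil n Y T E F lab) {y z z' : V} (hz : ({y, z} : Finset V) ∈ E)
    (hz' : ({y, z'} : Finset V) ∈ E) (hl : lab z = lab z') (hne : z ≠ z') :
    ∃ q : V → {v : V // v ≠ z'}, q z = q z' ∧ (∀ v, lab (q v).1 = lab v) ∧ 
      FlFil n Y T (E.image (fun e => e.image q)) (F.image (fun s => s.image q)) (fun v => lab v.1) := by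
  classical
  have hq0 : ∀ v : V, (if v = z' then z else v) ≠ z' := by
    intro v
    split_ifs with h1
    · exact hne
    · exact h1
  refine ⟨fun v => ⟨if v = z' then z else v, hq0 v⟩, ?_, ?_, ?_⟩
  · apply Subtype.ext
    simp only [if_neg hne, if_true]
  · intro v
    show lab (if v = z' then z else v) = lab v
    split_ifs with h1
    · rw [h1, hl]
    · rfl
  set q : V → {v : V // v ≠ z'} := fun v => ⟨if v = z' then z else v, hq0 v⟩ with hq
  have hlab : ∀ v, (fun v : {v : V // v ≠ z'} => lab v.1) (q v) = lab v := by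
    intro v
    show lab (if v = z' then z else v) = lab v
    split_ifs with h1
    · rw [h1, hl]
    · rfl
  have hqz : q z = q z' := by
    apply Subtype.ext
    simp only [hq, if_neg hne, if_true]
  have hqv : ∀ v : {v : V // v ≠ z'}, q v.1 = v := by
    intro v
    apply Subtype.ext
    simp only [hq, if_neg v.2]
  refine ⟨h.pre.push q hlab, ?_, ⟨q h.ne.some⟩, ?_⟩
  · intro φ hφ
    obtain ⟨g, hg⟩ := h.pre.pull q (lab' := fun v => lab v.1) hlab φ hφ h.coh
    have hgz : g z = g z' := by
      have e1 := hg y z hz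
      have e2 := hg y z' hz'
      rw [hqz] at e1
      rw [e2] at e1
      exact (add_left_cancel e1).symm
    have hgq : ∀ v, g (q v).1 = g v := by
      intro v
      show g (if v = z' then z else v) = g v
      split_ifs with h1
      · rw [h1, hgz]
      · rfl
    refine ⟨fun v => g v.1, fun a b hab => ?_⟩
    obtain ⟨a0, b0, hab0, rfl, rfl⟩ := fl_mem_push q h.pre.E_card hab
    rw [hg a0 b0 hab0]
    show g a0 + g b0 = g (q a0).1 + g (q b0).1
    rw [hgq, hgq]
  · intro a b
    have := fl_rtg_lift (p := fun a b : {v : V // v ≠ z'} =>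
      ({a, b} : Finset {v : V // v ≠ z'}) ∈ E.image (fun e => e.image q)) q (fun x y hxy => by
        rw [mem_image]
        exact ⟨{x, y}, hxy, by simp⟩) (h.conn a.1 b.1)
    rwa [hqv, hqv] at this

theorem fl_zip_aux {α : Type*} {R : α → α → Prop} {x y : α} {u v : List α}
    (h : (u ++ x :: y :: x :: v).IsChain R) (hc : ClosedW (u ++ x :: y :: x :: v)) :
    (u ++ x :: v).IsChain R ∧ ClosedW (u ++ x :: v) := by
  constructor
  · rw [List.isChain_split] at h ⊢
    refine ⟨h.1, ?_⟩
    have := h.2
    rw [List.isChain_cons_cons] at this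
    exact this.2.tail
  · obtain ⟨_, h2⟩ := hc
    refine ⟨by simp, ?_⟩
    have e1 : (u ++ x :: v).head? = (u ++ x :: y :: x :: v).head? := by
      cases u <;> simp
    have e2 : (u ++ x :: v).getLast? = (u ++ x :: y :: x :: v).getLast? := by
      have : u ++ x :: y :: x :: v = (u ++ [x, y]) ++ x :: v := by simp
      rw [this, List.getLast?_append_cons, List.getLast?_append_cons]
    rw [e1, e2, h2]

/-- deletion of a backtrack (fold, 2.3) -/
theorem FSle.zipp {u v : List (Fin n)} {x y : Fin n} {k : ℕ}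
    (h : FSle Y T (u ++ x :: y :: x :: v) k) : FSle Y T (u ++ x :: v) k := by
  obtain ⟨X, w, h1, h2, h3, h4⟩ := h
  let _ := X.de
  let _ := X.ft
  obtain ⟨u', w1, rfl, hu', hw1⟩ := List.map_eq_append_iff.mp h3
  obtain ⟨x1, w2, rfl, hx1, hw2⟩ := List.map_eq_cons_iff.mp hw1
  obtain ⟨y', w3, rfl, hy', hw3⟩ := List.map_eq_cons_iff.mp hw2
  obtain ⟨x2, v', rfl, hx2, hv'⟩ := List.map_eq_cons_iff.mp hw3
  have hch := h2
  unfold WalkIn at hch
  rw [List.isChain_split, List.isChain_cons_cons, List.isChain_cons_cons] at hch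
  obtain ⟨_, e1, e2, _⟩ := hch
  by_cases hne : x1 = x2
  · subst hne
    obtain ⟨r1, r2⟩ := fl_zip_aux h2 h1
    exact ⟨X, u' ++ x1 :: v', r2, r1, by simp [hu', hx1, hv'], h4⟩
  · obtain ⟨q, q1, q2, q3⟩ := X.flfil.fold (y := y') (z := x1) (z' := x2) (by rw [pair_comm]; exact e1)
      e2 (by rw [hx1, hx2]) hne
    have hc' := h1.fl_map q
    have hw' := WalkIn.fl_push q h2
    have e3 : (u' ++ x1 :: y' :: x2 :: v').map q = u'.map q ++ q x1 :: q y' :: q x1 :: v'.map q := by
      simp [q1]
    rw [e3] at hc' hw'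
    obtain ⟨r1, r2⟩ := fl_zip_aux hw' hc'
    have := FSle.of_flfil q3 r2 r1 (k := k) ((fl_nT_push q q2 X.F).trans h4)
    have e4 : (u'.map q ++ q x1 :: v'.map q).map (fun v => X.lab v.1) = u ++ x :: v := by
      have e5 : (fun v : {v // v ≠ x2} => X.lab v.1) ∘ q = X.lab := funext q2
      rw [List.map_append, List.map_cons, List.map_map, List.map_map, e5, q2, hx1, hu', hv']
    rwa [e4] at this

/-! ### pendant edge -/

theorem fl_mem_image_pair {V V' : Type*} [DecidableEq V] [DecidableEq V'] {E : Finset (Finset V)}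
    (q : V → V') {a b : V} (h : ({a, b} : Finset V) ∈ E) :
    ({q a, q b} : Finset V') ∈ E.image (fun e => e.image q) := by
  rw [mem_image]
  exact ⟨{a, b}, h, by simp⟩

theorem FlFil.pendant {V : Type} [DecidableEq V] {E F : Finset (Finset V)}
    {lab : V → Fin n} (h : FlFil n Y T E F lab) (x' : V) (y : Fin n) (hxy : lab x' ≠ y) :
    FlFil n Y T (E.image (fun e => e.image some) ∪ {{some x', none}})
      (F.image (fun s => s.image some) ∪ ∅) (fun v : Option V => v.elim y lab) := by
  have hq : ∀ v, (fun v : Option V => v.elim y lab) (some v) = lab v := fun v => rfl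
  refine ⟨(h.pre.push some (lab' := fun v : Option V => v.elim y lab) hq).union ?_, ?_, ⟨none⟩, ?_⟩
  · refine ⟨?_, ?_, by simp, by simp, by simp⟩
    · intro e he
      rw [mem_singleton] at he
      subst he
      exact card_pair (by simp)
    · intro e he
      rw [mem_singleton] at he
      subst he
      intro a ha b hb hab
      simp only [coe_insert, coe_singleton, Set.mem_insert_iff, Set.mem_singleton_iff] at ha hb
      rcases ha with rfl | rfl <;> rcases hb with rfl | rfl
      · rfl
      · exact absurd hab hxy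
      · exact absurd hab.symm hxy
      · rfl
  · intro φ hφ
    obtain ⟨g, hg⟩ := h.pre.pull some (lab' := fun v : Option V => v.elim y lab) hq φ
      (fun s hs => hφ s (mem_union_left _ hs)) h.coh
    refine ⟨fun v => v.elim (φ {some x', none} + g x') g, fun a b hab => ?_⟩
    have h2 : ∀ z : ZMod 2, z + z = 0 := by decide
    rcases mem_union.mp hab with hab | hab
    · obtain ⟨a0, b0, hab0, rfl, rfl⟩ := fl_mem_push some h.pre.E_card hab
      exact hg a0 b0 hab0
    · rw [mem_singleton] at hab
      rcases fl_pair_eq_pair hab with ⟨rfl, rfl⟩ | ⟨rfl, rfl⟩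
      · show φ {some x', none} = g x' + (φ {some x', none} + g x')
        linear_combination - h2 (g x')
      · rw [hab]
        show φ {some x', none} = (φ {some x', none} + g x') + g x'
        linear_combination - h2 (g x')
  · have h1 : ∀ a b : V, Relation.ReflTransGen (fun a b : Option V => ({a, b} : Finset (Option V)) ∈
        E.image (fun e => e.image some) ∪ {{some x', none}}) (some a) (some b) := by
      intro a b
      exact fl_rtg_lift some (fun a b hab => mem_union_left _ (fl_mem_image_pair some hab)) (h.conn a b)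
    have h2 : ({some x', none} : Finset (Option V)) ∈
        E.image (fun e => e.image some) ∪ {{some x', none}} :=
      mem_union_right _ (mem_singleton_self _)
    have h3 : ({none, some x'} : Finset (Option V)) ∈
        E.image (fun e => e.image some) ∪ {{some x', none}} := by
      rw [pair_comm none (some x')]; exact h2
    intro a b
    cases a with
    | none =>
      cases b with
      | none => exact .refl
      | some b => exact (Relation.ReflTransGen.single h3).trans (h1 x' b)
    | some a =>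
      cases b with
      | none => exact (h1 a x').trans (Relation.ReflTransGen.single h2)
      | some b => exact h1 a b

theorem fl_ins_closed {α : Type*} {x y : α} {u v : List α} :
    ClosedW (u ++ x :: y :: x :: v) ↔ ClosedW (u ++ x :: v) := by
  have e1 : (u ++ x :: v).head? = (u ++ x :: y :: x :: v).head? := by
    cases u <;> simp
  have e2 : (u ++ x :: v).getLast? = (u ++ x :: y :: x :: v).getLast? := by
    have : u ++ x :: y :: x :: v = (u ++ [x, y]) ++ x :: v := by simp
    rw [this, List.getLast?_append_cons, List.getLast?_append_cons]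
  unfold ClosedW
  rw [e1, e2]
  simp

/-- insertion of a backtrack -/
theorem FSle.ins {u v : List (Fin n)} {x y : Fin n} {k : ℕ} (hxy : x ≠ y)
    (h : FSle Y T (u ++ x :: v) k) : FSle Y T (u ++ x :: y :: x :: v) k := by
  obtain ⟨X, w, h1, h2, h3, h4⟩ := h
  let _ := X.de
  let _ := X.ft
  obtain ⟨u', w1, rfl, hu', hw1⟩ := List.map_eq_append_iff.mp h3
  obtain ⟨x', v', rfl, hx', hv'⟩ := List.map_eq_cons_iff.mp hw1
  have hF := X.flfil.pendant x' y (by rw [hx']; exact hxy)
  have hc' : ClosedW ((u' ++ x' :: v').map some) := h1.fl_map _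
  rw [List.map_append, List.map_cons, ← fl_ins_closed (y := none)] at hc'
  have hw' : WalkIn (X.E.image (fun e => e.image some) ∪ {{some x', none}})
      (u'.map some ++ some x' :: none :: some x' :: v'.map some) := by
    have := (WalkIn.fl_push some h2).fl_mono
      (subset_union_left (s₂ := ({{some x', none}} : Finset (Finset (Option X.V)))))
    rw [List.map_append, List.map_cons] at this
    unfold WalkIn at this ⊢
    rw [List.isChain_split] at this ⊢
    rw [List.isChain_cons_cons, List.isChain_cons_cons]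
    refine ⟨this.1, mem_union_right _ (mem_singleton_self _), ?_, this.2⟩
    rw [pair_comm]
    exact mem_union_right _ (mem_singleton_self _)
  have := FSle.of_flfil hF hc' hw' (k := k) (by
    rw [union_empty]
    exact (fl_nT_push some (fun _ => rfl) X.F).trans h4)
  have e5 : ((fun v : Option X.V => v.elim y X.lab) ∘ some) = X.lab := rfl
  rw [List.map_append, List.map_cons, List.map_cons, List.map_cons, List.map_map, List.map_map,
    e5, hu', hv'] at this
  simp only [Option.elim, hx'] at this
  exact this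

/-! ### wedge -/

theorem FlFil.wedge {V1 V2 : Type} [DecidableEq V1] [DecidableEq V2] {E1 F1 : Finset (Finset V1)}
    {E2 F2 : Finset (Finset V2)} {lab1 : V1 → Fin n} {lab2 : V2 → Fin n}
    (h1 : FlFil n Y T E1 F1 lab1) (h2 : FlFil n Y T E2 F2 lab2) (v1 : V1) (v2 : V2)
    (hv : lab1 v1 = lab2 v2) :
    ∃ (i2 : V2 → V1 ⊕ {v : V2 // v ≠ v2}), i2 v2 = Sum.inl v1 ∧
      (∀ v, Sum.elim lab1 (fun v : {v : V2 // v ≠ v2} => lab2 v.1) (i2 v) = lab2 v) ∧
      FlFil n Y T (E1.image (fun e => e.image Sum.inl) ∪ E2.image (fun e => e.image i2))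
        (F1.image (fun e => e.image Sum.inl) ∪ F2.image (fun e => e.image i2))
        (Sum.elim lab1 (fun v : {v : V2 // v ≠ v2} => lab2 v.1)) := by
  classical
  set i2 : V2 → V1 ⊕ {v : V2 // v ≠ v2} := fun v => if h : v = v2 then Sum.inl v1 else Sum.inr ⟨v, h⟩
    with hi2
  have e1 : i2 v2 = Sum.inl v1 := by simp [hi2]
  have e2 : ∀ v, Sum.elim lab1 (fun v : {v : V2 // v ≠ v2} => lab2 v.1) (i2 v) = lab2 v := by
    intro v
    by_cases h : v = v2
    · rw [h, e1]; exact hv
    · simp [hi2, h]
  have e3 : ∀ v, Sum.elim lab1 (fun v : {v : V2 // v ≠ v2} => lab2 v.1) (Sum.inl v) = lab1 v :=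
    fun v => rfl
  refine ⟨i2, e1, e2, (h1.pre.push Sum.inl e3).union (h2.pre.push i2 e2), ?_, ⟨Sum.inl v1⟩, ?_⟩
  · intro φ hφ
    obtain ⟨g1, hg1⟩ := h1.pre.pull Sum.inl e3 φ (fun s hs => hφ s (mem_union_left _ hs)) h1.coh
    obtain ⟨g2, hg2⟩ := h2.pre.pull i2 e2 φ (fun s hs => hφ s (mem_union_right _ hs)) h2.coh
    have z2 : ∀ z : ZMod 2, z + z = 0 := by decide
    have key : ∀ v, Sum.elim g1 (fun v : {v : V2 // v ≠ v2} => g2 v.1 + (g2 v2 + g1 v1)) (i2 v)
        = g2 v + (g2 v2 + g1 v1) := by
      intro v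
      by_cases h : v = v2
      · rw [h, e1]
        show g1 v1 = g2 v2 + (g2 v2 + g1 v1)
        linear_combination - z2 (g2 v2)
      · simp [hi2, h]
    refine ⟨Sum.elim g1 (fun v : {v : V2 // v ≠ v2} => g2 v.1 + (g2 v2 + g1 v1)), fun a b hab => ?_⟩
    rcases mem_union.mp hab with hab | hab
    · obtain ⟨a0, b0, hab0, rfl, rfl⟩ := fl_mem_push Sum.inl h1.pre.E_card hab
      exact hg1 a0 b0 hab0
    · obtain ⟨a0, b0, hab0, rfl, rfl⟩ := fl_mem_push i2 h2.pre.E_card hab
      rw [hg2 a0 b0 hab0, key, key]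
      linear_combination - z2 (g2 v2 + g1 v1)
  · have c1 : ∀ a b : V1, Relation.ReflTransGen (fun a b : V1 ⊕ {v : V2 // v ≠ v2} =>
        ({a, b} : Finset (V1 ⊕ {v : V2 // v ≠ v2})) ∈
        E1.image (fun e => e.image Sum.inl) ∪ E2.image (fun e => e.image i2)) (Sum.inl a) (Sum.inl b) :=
      fun a b => fl_rtg_lift Sum.inl (fun a b hab => mem_union_left _ (fl_mem_image_pair _ hab)) (h1.conn a b)
    have c2 : ∀ a b : V2, Relation.ReflTransGen (fun a b : V1 ⊕ {v : V2 // v ≠ v2} =>
        ({a, b} : Finset (V1 ⊕ {v : V2 // v ≠ v2})) ∈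
        E1.image (fun e => e.image Sum.inl) ∪ E2.image (fun e => e.image i2)) (i2 a) (i2 b) :=
      fun a b => fl_rtg_lift i2 (fun a b hab => mem_union_right _ (fl_mem_image_pair _ hab)) (h2.conn a b)
    have e4 : ∀ v : {v : V2 // v ≠ v2}, i2 v.1 = Sum.inr v := by
      intro v
      simp [hi2, v.2]
    intro a b
    rcases a with a | a <;> rcases b with b | b
    · exact c1 a b
    · refine (c1 a v1).trans ?_
      rw [← e1, ← e4]
      exact c2 v2 b.1
    · refine Relation.ReflTransGen.trans ?_ (c1 v1 b)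
      rw [← e1, ← e4]
      exact c2 a.1 v2
    · rw [← e4, ← e4]
      exact c2 a.1 b.1

theorem FlFT_map_head {α β : Type*} {f : α → β} {l : List α} {p : β} (h : (l.map f).head? = some p) :
    ∃ a, l.head? = some a ∧ f a = p := by
  rw [List.head?_map] at h
  exact Option.map_eq_some_iff.mp h

/-- chain of a concatenation -/
theorem fl_cat_chain {α : Type*} {R : α → α → Prop} {a b : List α} {p : α} (ha : a.getLast? = some p)
    (hb : b.head? = some p) (h1 : a.IsChain R) (h2 : b.IsChain R) : (cat a b).IsChain R := by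
  obtain ⟨a', rfl⟩ : ∃ a', a = a' ++ [p] :=
    ⟨a.dropLast, (List.dropLast_append_getLast? _ ha).symm⟩
  cases b with
  | nil => simp at hb
  | cons q b =>
    have : q = p := by simpa using hb
    subst this
    unfold cat
    rw [List.tail_cons, List.append_assoc, List.singleton_append, List.isChain_split]
    exact ⟨h1, h2⟩

theorem fl_cat_head {α : Type*} {a b : List α} (ha : a ≠ []) : (cat a b).head? = a.head? := by
  cases a with
  | nil => exact absurd rfl ha
  | cons x a => simp [cat]

theorem fl_cat_last {α : Type*} {a b : List α} {p : α} (ha : a.getLast? = some p)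
    (hb : b.head? = some p) : (cat a b).getLast? = b.getLast? := by
  obtain ⟨a', rfl⟩ : ∃ a', a = a' ++ [p] :=
    ⟨a.dropLast, (List.dropLast_append_getLast? _ ha).symm⟩
  cases b with
  | nil => simp at hb
  | cons q b =>
    have : q = p := by simpa using hb
    subst this
    unfold cat
    rw [List.tail_cons, List.append_assoc, List.singleton_append, List.getLast?_append_cons]

/-- wedge (2.4 b) -/
theorem FSle.wedge {w1 w2 : List (Fin n)} {k1 k2 : ℕ} {p : Fin n} (h1 : FT w1 p p) (h2 : FT w2 p p)
    (hw1 : FSle Y T w1 k1) (hw2 : FSle Y T w2 k2) : FSle Y T (cat w1 w2) (k1 + k2) := by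
  obtain ⟨X1, u1, a1, a2, rfl, a4⟩ := hw1
  obtain ⟨X2, u2, b1, b2, rfl, b4⟩ := hw2
  let _ := X1.de
  let _ := X1.ft
  let _ := X2.de
  let _ := X2.ft
  obtain ⟨v1, hv1, hp1⟩ := FlFT_map_head h1.1
  obtain ⟨v2, hv2, hp2⟩ := FlFT_map_head h2.1
  obtain ⟨i2, j1, j2, j3⟩ := X1.flfil.wedge X2.flfil v1 v2 (by rw [hp1, hp2])
  have l1 : u1.getLast? = some v1 := by rw [← a1.2, hv1]
  have l2 : u2.getLast? = some v2 := by rw [← b1.2, hv2]
  have m1 : (u1.map Sum.inl).getLast? = some (Sum.inl v1 : X1.V ⊕ {v : X2.V // v ≠ v2}) := by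
    rw [List.getLast?_map, l1]; rfl
  have m2 : (u2.map i2).head? = some (Sum.inl v1) := by
    rw [List.head?_map, hv2, Option.map_some, j1]
  have hch : WalkIn (X1.E.image (fun e => e.image Sum.inl) ∪ X2.E.image (fun e => e.image i2))
      (cat (u1.map Sum.inl) (u2.map i2)) := by
    apply fl_cat_chain m1 m2
    · exact (WalkIn.fl_push Sum.inl a2).fl_mono subset_union_left
    · exact (WalkIn.fl_push i2 b2).fl_mono subset_union_right
  have hcl : ClosedW (cat (u1.map Sum.inl) (u2.map i2)) := by
    have hne : u1.map (Sum.inl : X1.V → X1.V ⊕ {v : X2.V // v ≠ v2}) ≠ [] := by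
      simpa using a1.1
    refine ⟨?_, ?_⟩
    · unfold cat
      simp only [ne_eq, List.append_eq_nil_iff, not_and]
      intro h; exact absurd h hne
    · rw [fl_cat_head hne, fl_cat_last m1 m2, List.head?_map, hv1, List.getLast?_map, l2, Option.map_some,
        Option.map_some, j1]
  have := FSle.of_flfil j3 hcl hch (k := k1 + k2) (by
    refine (fl_nT_union _ _).trans (Nat.add_le_add ?_ ?_)
    · exact (fl_nT_push Sum.inl (fun _ => rfl) X1.F).trans a4
    · exact (fl_nT_push i2 j2 X2.F).trans b4)
  have e5 : (Sum.elim X1.lab (fun v : {v : X2.V // v ≠ v2} => X2.lab v.1)) ∘ i2 = X2.lab := funext j2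
  have e6 : (Sum.elim X1.lab (fun v : {v : X2.V // v ≠ v2} => X2.lab v.1)) ∘ Sum.inl = X1.lab := rfl
  have e7 : (cat (u1.map Sum.inl) (u2.map i2)).map
      (Sum.elim X1.lab (fun v : {v : X2.V // v ≠ v2} => X2.lab v.1))
      = cat (u1.map X1.lab) (u2.map X2.lab) := by
    unfold cat
    rw [List.map_append, List.map_map, e6, ← List.map_tail, List.map_map, e5, List.map_tail]
  rwa [e7] at this

end Pool.Agent.SC
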