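import Pool.Agent.Lib.MP_d0323d_co.Defs
import Pool.Agent.Lib.MP_d0323d_co.Prob
/-! Definitions for the upper side (sections 11, 12) + monotonicity. -/
set_option autoImplicit false
namespace Pool.Agent.SC
open Finset

/-- null edge: `x ≠ y`, both `≠ 0`, `g(x,y) = 1` -/
def Nul {n : ℕ} (F : Finset (Finset (Fin n))) (x y : Fin n) : Prop :=
  x ≠ y ∧ x.val ≠ 0 ∧ y.val ≠ 0 ∧ gg F x y = 1

open Classical in
/-- null neighbours -/
noncomputable def nb {n : ℕ} (F : Finset (Finset (Fin n))) (x : Fin n) : Finset (Fin n) :=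
  univ.filter (fun y => Nul F x y)

/-- `Q_0`, with degree bound `d` -/
def Q0 {n : ℕ} (d : ℝ) (F : Finset (Finset (Fin n))) : Prop :=
  ∃ A : Finset (Fin n), (∀ x ∈ A, x.val ≠ 0) ∧ n ≤ 2 * A.card ∧ ∀ x ∈ A, d ≤ ((nb F x).card : ℝ)

/-- `Q(m)`: codegrees at least `m` -/
def Qm {n : ℕ} (m : ℝ) (F : Finset (Finset (Fin n))) : Prop :=
  ∃ A : Finset (Fin n), (∀ x ∈ A, x.val ≠ 0) ∧ n ≤ 2 * A.card ∧
    ∀ x ∈ A, ∀ z ∈ A, x ≠ z → m ≤ ((nb F x ∩ nb F z).card : ℝ)

/-- clique -/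
def Qc {n : ℕ} (F : Finset (Finset (Fin n))) : Prop :=
  ∃ A : Finset (Fin n), (∀ x ∈ A, x.val ≠ 0) ∧ n ≤ 2 * A.card ∧ ∀ x ∈ A, ∀ z ∈ A, x ≠ z → Nul F x z

variable {n : ℕ} {F G : Finset (Finset (Fin n))}

/-! ### relations of the group -/

theorem UD_gg_eq_one_iff {x y : Fin n} :
    gg F x y = 1 ↔ FreeGroup.of (x, y) ∈ Subgroup.normalClosure (frels n F) := by
  unfold gg PresentedGroup.of PresentedGroup.mk
  exact QuotientGroup.eq_one_iff _

theorem UD_FG_rel {r : FreeGroup (Fin n × Fin n)} (hr : r ∈ frels n F) :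
    PresentedGroup.mk (frels n F) r = 1 :=
  (QuotientGroup.eq_one_iff _).mpr (Subgroup.subset_normalClosure hr)

theorem UD_gg_diag (i : Fin n) : gg F i i = 1 :=
  UD_FG_rel (Or.inl ⟨i, rfl⟩)

theorem UD_gg_mul_symm (i j : Fin n) : gg F i j * gg F j i = 1 := by
  have h := UD_FG_rel (F := F) (r := FreeGroup.of (i, j) * FreeGroup.of (j, i))
    (Or.inr (Or.inl ⟨i, j, rfl⟩))
  rw [map_mul] at h
  exact h

theorem UD_gg_zero {i : Fin n} (hi : i.val = 0) (j : Fin n) : gg F i j = 1 :=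
  UD_FG_rel (Or.inr (Or.inr (Or.inl ⟨i, j, hi, rfl⟩)))

theorem UD_gg_tri {i j k : Fin n} (h : ({i, j, k} : Finset (Fin n)) ∈ F) :
    gg F i j * gg F j k = gg F i k := by
  have h := UD_FG_rel (F := F)
    (r := FreeGroup.of (i, j) * FreeGroup.of (j, k) * (FreeGroup.of (i, k))⁻¹)
    (Or.inr (Or.inr (Or.inr ⟨i, j, k, h, rfl⟩)))
  rw [map_mul, map_mul, map_inv] at h
  exact mul_inv_eq_one.mp h

theorem UD_frels_mono (h : F ⊆ G) : frels n F ⊆ frels n G := by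
  intro r hr
  rcases hr with hr | hr | hr | ⟨i, j, k, hF, hr⟩
  · exact Or.inl hr
  · exact Or.inr (Or.inl hr)
  · exact Or.inr (Or.inr (Or.inl hr))
  · exact Or.inr (Or.inr (Or.inr ⟨i, j, k, h hF, hr⟩))

/-- the group of a larger complex is a quotient -/
theorem gg_mono (h : F ⊆ G) {x y : Fin n} (hx : gg F x y = 1) : gg G x y = 1 := by
  rw [UD_gg_eq_one_iff] at hx ⊢
  exact Subgroup.normalClosure_mono (UD_frels_mono h) hx

theorem UD_gg_symm_one {x y : Fin n} (h : gg F x y = 1) : gg F y x = 1 := by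
  have := UD_gg_mul_symm (F := F) x y
  rwa [h, one_mul] at this

theorem Nul.mono (h : F ⊆ G) {x y : Fin n} (hx : Nul F x y) : Nul G x y :=
  ⟨hx.1, hx.2.1, hx.2.2.1, gg_mono h hx.2.2.2⟩

theorem Nul.symm {x y : Fin n} (hx : Nul F x y) : Nul F y x :=
  ⟨hx.1.symm, hx.2.2.1, hx.2.1, UD_gg_symm_one hx.2.2.2⟩

theorem UD_card_three_ne {a b c : Fin n} (hc : ({a, b, c} : Finset (Fin n)).card = 3) :
    a ≠ b ∧ a ≠ c ∧ b ≠ c := by
  refine ⟨?_, ?_, ?_⟩
  · rintro rfl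
    have : ({a, a, c} : Finset (Fin n)).card ≤ 2 := by
      rw [Finset.insert_eq_of_mem (by simp)]
      exact Finset.card_le_two
    omega
  · rintro rfl
    have : ({a, b, a} : Finset (Fin n)).card ≤ 2 := by
      rw [Finset.insert_eq_of_mem (by simp)]
      exact Finset.card_le_two
    omega
  · rintro rfl
    have : ({a, b, b} : Finset (Fin n)).card ≤ 2 := by
      rw [Finset.insert_eq_of_mem (s := {b}) (by simp)]
      exact Finset.card_le_two
    omega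

/-- rule r1 -/
theorem Nul.r1 {o u w : Fin n} (ho : o.val = 0) (hc : ({o, u, w} : Finset (Fin n)).card = 3)
    (h : ({o, u, w} : Finset (Fin n)) ∈ F) : Nul F u w := by
  obtain ⟨h1, h2, h3⟩ := UD_card_three_ne hc
  refine ⟨h3, fun hu => h1 (Fin.ext (ho.trans hu.symm)), fun hw => h2 (Fin.ext (ho.trans hw.symm)),
    ?_⟩
  have := UD_gg_tri h
  rwa [UD_gg_zero ho, UD_gg_zero ho, one_mul] at this

/-- rule r2 -/
theorem Nul.r2 {u x z : Fin n} (h1 : Nul F u x) (h2 : Nul F u z) (hxz : x ≠ z)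
    (h : ({x, u, z} : Finset (Fin n)) ∈ F) : Nul F x z := by
  refine ⟨hxz, h1.2.2.1, h2.2.2.1, ?_⟩
  have := UD_gg_tri h
  rw [h1.symm.2.2.2, h2.2.2.2, one_mul] at this
  exact this.symm

theorem mem_nb {x y : Fin n} : y ∈ nb F x ↔ Nul F x y := by
  classical
  unfold nb
  simp

theorem nb_mono (h : F ⊆ G) (x : Fin n) : nb F x ⊆ nb G x := by
  intro y hy
  rw [mem_nb] at hy ⊢
  exact hy.mono h

theorem Q0.mono (h : F ⊆ G) {d : ℝ} (hQ : Q0 d F) : Q0 d G := by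
  obtain ⟨A, h1, h2, h3⟩ := hQ
  refine ⟨A, h1, h2, fun x hx => (h3 x hx).trans ?_⟩
  exact_mod_cast Finset.card_le_card (nb_mono h x)

theorem Qm.mono (h : F ⊆ G) {m : ℝ} (hQ : Qm m F) : Qm m G := by
  obtain ⟨A, h1, h2, h3⟩ := hQ
  refine ⟨A, h1, h2, fun x hx z hz hxz => (h3 x hx z hz hxz).trans ?_⟩
  exact_mod_cast Finset.card_le_card (Finset.inter_subset_inter (nb_mono h x) (nb_mono h z))

theorem Qc.mono (h : F ⊆ G) (hQ : Qc F) : Qc G := by
  obtain ⟨A, h1, h2, h3⟩ := hQ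
  exact ⟨A, h1, h2, fun x hx z hz hxz => (h3 x hx z hz hxz).mono h⟩

theorem triv_of_gens (h : ∀ i j : Fin n, gg F i j = 1) : Triv n F := by
  intro x
  have hx : x ∈ Subgroup.closure (Set.range (PresentedGroup.of (rels := frels n F))) := by
    rw [PresentedGroup.closure_range_of]
    exact Subgroup.mem_top x
  induction hx using Subgroup.closure_induction with
  | mem y hy =>
    obtain ⟨⟨i, j⟩, rfl⟩ := hy
    exact h i j
  | one => rfl
  | mul a b _ _ ha hb => rw [ha, hb, mul_one]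
  | inv a _ ha => rw [ha, inv_one]

theorem Triv.mono (h : F ⊆ G) (hQ : Triv n F) : Triv n G :=
  triv_of_gens fun i j => gg_mono h (hQ (gg F i j))

theorem triv_of_all (h : ∀ x y : Fin n, x ≠ y → x.val ≠ 0 → y.val ≠ 0 → Nul F x y) : Triv n F := by
  refine triv_of_gens fun i j => ?_
  by_cases hij : i = j
  · subst hij; exact UD_gg_diag i
  by_cases hi : i.val = 0
  · exact UD_gg_zero hi j
  by_cases hj : j.val = 0
  · exact UD_gg_symm_one (UD_gg_zero hj i)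
  exact (h i j hij hi hj).2.2.2

end Pool.Agent.SC
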