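import Pool.Agent.Lib.MP_d0323d_co.Rounds
import Pool.Agent.Lib.MP_d0323d_co.Upper

/-!
# Rounds of exposure: the parameters and the asymptotic statement
-/

set_option autoImplicit false

open Finset Filter Topology

namespace Pool.Agent.SC.Rnd
open Pool.Agent.SC

/-- the assumptions on the parameters -/
structure RP (t L s N : ℝ) : Prop where
  hs : s ^ 2 = N
  hL : 2 ^ 20 ≤ L
  ht0 : 0 < t
  ht1 : t ≤ 1
  htL : 2 ^ 18 ≤ t ^ 2 * L ^ 3
  hsL : L ^ 8 ≤ s

namespace RP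

variable {t L s N : ℝ} (h : RP t L s N)
include h

theorem L1 : 1 ≤ L := by linarith [h.hL, (by norm_num : (1 : ℝ) ≤ 2 ^ 20)]

theorem L3 : 2 ^ 40 * L ≤ L ^ 3 := by
  have h1 := h.hL
  have h2 : (2 : ℝ) ^ 40 ≤ L ^ 2 := by
    have : ((2 : ℝ) ^ 20) ^ 2 ≤ L ^ 2 := pow_le_pow_left₀ (by norm_num) h1 2
    linarith [(by norm_num : ((2 : ℝ) ^ 20) ^ 2 = 2 ^ 40)]
  have h3 : 0 ≤ L := by linarith [h.L1]
  calc (2 : ℝ) ^ 40 * L ≤ L ^ 2 * L := mul_le_mul_of_nonneg_right h2 h3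
    _ = L ^ 3 := by ring

theorem s0 : 0 < s := lt_of_lt_of_le (by have := h.L1; positivity) h.hsL

theorem Ls : L ^ 3 ≤ s := le_trans (pow_le_pow_right₀ h.L1 (by norm_num)) h.hsL

theorem ts : 2 ^ 18 * L ^ 5 ≤ t * s := by
  have h1 := h.htL
  have h2 := h.hsL
  have h3 := h.L1
  calc 2 ^ 18 * L ^ 5 ≤ (t ^ 2 * L ^ 3) * L ^ 5 :=
        mul_le_mul_of_nonneg_right h1 (by positivity)
    _ = t * (t * L ^ 8) := by ring
    _ ≤ 1 * (t * L ^ 8) := by
        apply mul_le_mul_of_nonneg_right h.ht1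
        have := h.ht0
        positivity
    _ = t * L ^ 8 := one_mul _
    _ ≤ t * s := mul_le_mul_of_nonneg_left h2 h.ht0.le

theorem ts' : 2 ^ 18 * L ≤ t * s := by
  have h3 := h.L1
  refine le_trans ?_ h.ts
  apply mul_le_mul_of_nonneg_left _ (by norm_num)
  calc L = L ^ 1 := (pow_one L).symm
    _ ≤ L ^ 5 := pow_le_pow_right₀ h3 (by norm_num)

theorem t3s : 2 ^ 18 * L ≤ t ^ 3 * s := by
  have h1 := h.htL
  have h2 := h.hsL
  have h3 := h.L1
  have h0 := h.ht0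
  have e1 : 2 ^ 18 * (t * L ^ 5) ≤ t ^ 3 * s := by
    calc 2 ^ 18 * (t * L ^ 5) ≤ (t ^ 2 * L ^ 3) * (t * L ^ 5) :=
          mul_le_mul_of_nonneg_right h1 (by positivity)
      _ = t ^ 3 * L ^ 8 := by ring
      _ ≤ t ^ 3 * s := mul_le_mul_of_nonneg_left h2 (by positivity)
  have e2 : L ≤ t * L ^ 5 := by
    have e3 : 1 ≤ t ^ 2 * L ^ 3 := le_trans (by norm_num) h1
    have e4 : t ^ 2 * L ^ 3 ≤ t * L ^ 3 := by
      have : t ^ 2 ≤ t := by nlinarith [h.ht1]
      exact mul_le_mul_of_nonneg_right this (by positivity)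
    calc L = 1 * L := (one_mul L).symm
      _ ≤ (t * L ^ 3) * L := mul_le_mul_of_nonneg_right (e3.trans e4) (by linarith)
      _ = t * L ^ 4 := by ring
      _ ≤ t * L ^ 5 := mul_le_mul_of_nonneg_left (pow_le_pow_right₀ h3 (by norm_num)) h0.le
  linarith

theorem t2N : 2 ^ 18 * L ≤ t ^ 2 * N := by
  have h1 := h.ts'
  have h3 := h.L1
  have h4 : 1 ≤ t * s := by nlinarith
  rw [← h.hs]
  have : t ^ 2 * s ^ 2 = (t * s) * (t * s) := by ring
  rw [this]
  nlinarith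

theorem LN : 2 ^ 18 * L ≤ N := by
  have h1 := h.t2N
  have h2 : t ^ 2 * N ≤ N := by
    have h3 : 0 ≤ N := by rw [← h.hs]; positivity
    have h4 : t ^ 2 ≤ 1 := by nlinarith [h.ht1, h.ht0]
    nlinarith
  linarith

theorem L3N : L ^ 3 ≤ N / 256 := by
  have h1 := h.Ls
  have h2 := h.L3
  have h3 := h.L1
  have h4 : 2 ^ 40 ≤ s := by nlinarith
  have h5 : s * s = N := by rw [← h.hs]; ring
  nlinarith

/-- the density of one round -/
theorem ps : t / s * s = t := by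
  have := h.s0
  field_simp

theorem pN : t / s * N = t * s := by
  have := h.s0
  rw [← h.hs]
  field_simp

theorem p2N : (t / s) ^ 2 * N = t ^ 2 := by
  have := h.s0
  rw [← h.hs]
  field_simp

theorem p0 : 0 ≤ t / s := div_nonneg h.ht0.le h.s0.le

theorem p1 : t / s ≤ 1 := by
  rw [div_le_one h.s0]
  have h1 := h.Ls
  have h2 := h.L3
  have h3 := h.L1
  have h4 := h.ht1
  nlinarith

theorem first : L ^ 3 ≤ min (1 / 2) ((⌊L ^ 3 * s / 3⌋₊ : ℝ) * (t / s) ^ 2 / 2) *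
      (⌊L ^ 3 * s / 3⌋₊ : ℝ) / 2 ∧ 2 * (⌊L ^ 3 * s / 3⌋₊ : ℝ) + 1 ≤ L ^ 3 * s := by
  have h1 := h.Ls
  have h2 := h.L3
  have h3 := h.L1
  have hs0 := h.s0
  have h4 : 2 ^ 40 ≤ s := by nlinarith
  have h5 : 2 ^ 40 ≤ L ^ 3 := by nlinarith
  set k : ℝ := (⌊L ^ 3 * s / 3⌋₊ : ℝ) with hk
  have h6 : k ≤ L ^ 3 * s / 3 := Nat.floor_le (by positivity)
  have h7 : L ^ 3 * s / 3 < k + 1 := Nat.lt_floor_add_one _
  have h8 : 2 ^ 40 ≤ L ^ 3 * s := by nlinarith
  have h9 : L ^ 3 * s / 4 ≤ k := by linarith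
  refine ⟨?_, by linarith⟩
  rcases min_choice (1 / 2 : ℝ) (k * (t / s) ^ 2 / 2) with hm | hm
  · rw [hm]
    nlinarith
  · rw [hm]
    have e1 : (L ^ 3 * s / 4) ^ 2 ≤ k ^ 2 := pow_le_pow_left₀ (by positivity) h9 2
    have e2 : k * (t / s) ^ 2 / 2 * k / 2 = k ^ 2 * (t / s) ^ 2 / 4 := by ring
    rw [e2]
    have e3 : (L ^ 3 * s / 4) ^ 2 * (t / s) ^ 2 = L ^ 3 * (t ^ 2 * L ^ 3) / 16 := by
      have : s ≠ 0 := hs0.ne'
      field_simp
      ring
    have e4 : (L ^ 3 * s / 4) ^ 2 * (t / s) ^ 2 ≤ k ^ 2 * (t / s) ^ 2 :=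
      mul_le_mul_of_nonneg_right e1 (by positivity)
    have e5 := h.htL
    nlinarith

theorem second {m : ℝ} (hm : L ^ 3 ≤ m) :
    min (2 * m) (N / 256) ≤ (min (1 / 2) ((m - 1) * (t / s) / 4)) ^ 2 * (N / 16) / 2 ∧
    5 * L ≤ (min (1 / 2) ((m - 1) * (t / s) / 4)) ^ 2 * (N / 16) / 8 := by
  have h3 := h.L1
  have h2 := h.L3
  have h5 := h.htL
  have hN := h.LN
  have hN0 : 0 ≤ N := by rw [← h.hs]; positivity
  rcases min_choice (1 / 2 : ℝ) ((m - 1) * (t / s) / 4) with hq | hq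
  · rw [hq]
    constructor
    · have := min_le_right (2 * m) (N / 256)
      nlinarith
    · nlinarith
  · rw [hq]
    have e1 : ((m - 1) * (t / s) / 4) ^ 2 * (N / 16) = (m - 1) ^ 2 * ((t / s) ^ 2 * N) / 256 := by
      ring
    rw [e1, h.p2N]
    have e2 : m / 2 ≤ m - 1 := by
      have : (2 : ℝ) ≤ m := by nlinarith
      linarith
    have hm0 : 0 < m := by nlinarith
    have e3 : (m / 2) ^ 2 ≤ (m - 1) ^ 2 := pow_le_pow_left₀ (by positivity) e2 2
    have e4 : (m / 2) ^ 2 * t ^ 2 ≤ (m - 1) ^ 2 * t ^ 2 :=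
      mul_le_mul_of_nonneg_right e3 (by positivity)
    have e5 : 2 ^ 18 * m ≤ m ^ 2 * t ^ 2 := by
      have : m * (t ^ 2 * L ^ 3) ≤ m * (t ^ 2 * m) := by
        apply mul_le_mul_of_nonneg_left _ hm0.le
        exact mul_le_mul_of_nonneg_left hm (by positivity)
      nlinarith
    constructor
    · have := min_le_left (2 * m) (N / 256)
      nlinarith
    · nlinarith

end RP

variable {n : ℕ} {o : Fin n} {R : Finset (Finset (Fin n)) → Fin n → Fin n → Prop}

theorem exp5 {L x : ℝ} (h : 5 * L ≤ x) : Real.exp (-x) ≤ Real.exp (-(5 * L)) :=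
  Real.exp_le_exp.mpr (by linarith)

/-- the doubling rounds -/
theorem rounds_double (hR : NulRel o R) {t L s : ℝ} {p0 : ℝ} (h : RP t L s n)
    (hp0 : 0 ≤ p0) (j : ℕ) (hp1 : p0 + (1 + j) * (t / s) ≤ 1) :
    Pr (tri n) p0 (Q0 o R (L ^ 3 * s)) - (1 + j) * ((n : ℝ) ^ 2 * Real.exp (-(5 * L))) ≤
      Pr (tri n) (p0 + (1 + j) * (t / s)) (QC o R (min (2 ^ j * L ^ 3) ((n : ℝ) / 256))) := by
  have hp := h.p0
  have hpp := h.p1
  have hε : 0 ≤ Real.exp (-(5 * L)) := (Real.exp_pos _).le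
  have hε2 : 0 ≤ (n : ℝ) ^ 2 * Real.exp (-(5 * L)) := by positivity
  have hL3 := h.L3
  have hL1 := h.L1
  induction j with
  | zero =>
    obtain ⟨h1, h2⟩ := h.first
    have hst := step1 (n := n) (o := o) hR (p := t / s) (d := L ^ 3 * s) (m := L ^ 3)
      (ε := Real.exp (-(5 * L))) (k := ⌊L ^ 3 * s / 3⌋₊) hp hpp hε h2 h1 (exp5 (by linarith))
    have hc := hst.chain hp0 hp (by simpa using hp1) hε2 (fun F G hFG _ => QC_mono hR _ hFG)
    simp only [Nat.cast_zero, add_zero, one_mul, pow_zero] at hp1 ⊢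
    refine hc.trans (Pr_mono (by linarith) hp1 ?_)
    intro F _ hF
    exact QC_anti (min_le_left _ _) hF
  | succ j ih =>
    push_cast at hp1 ⊢
    have hp1' : p0 + (1 + j) * (t / s) ≤ 1 := by nlinarith
    have ih' := ih hp1'
    set M : ℝ := min (2 ^ j * L ^ 3) ((n : ℝ) / 256) with hM
    have hpow : (1 : ℝ) ≤ 2 ^ j := one_le_pow₀ (by norm_num)
    have hML : L ^ 3 ≤ M := by
      rw [hM]
      apply le_min
      · nlinarith
      · exact h.L3N
    obtain ⟨h1, h2⟩ := h.second hML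
    have hn8 : 8 ≤ n := by
      have h3 := h.LN
      have h4 : (8 : ℝ) ≤ n := by nlinarith
      exact_mod_cast h4
    have hst := step2 (n := n) (o := o) hR (p := t / s) (m := M) (m' := min (2 * M) ((n : ℝ) / 256))
      (ε := Real.exp (-(5 * L))) hp hpp hε (by nlinarith) hn8 h1 (exp5 h2)
    have hc := hst.chain (p := p0 + (1 + j) * (t / s)) (by positivity) hp
      (by linarith) hε2 (fun F G hFG _ => QC_mono hR _ hFG)
    have e1 : p0 + (1 + (j : ℝ)) * (t / s) + t / s = p0 + (1 + ((j : ℝ) + 1)) * (t / s) := by ring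
    rw [e1] at hc
    have e2 : (min (2 ^ (j + 1) * L ^ 3) ((n : ℝ) / 256)) ≤ min (2 * M) ((n : ℝ) / 256) := by
      apply le_min
      · rcases min_choice (2 ^ j * L ^ 3) ((n : ℝ) / 256) with h5 | h5
        · rw [hM, h5]
          refine (min_le_left _ _).trans (le_of_eq ?_)
          ring
        · rw [hM, h5]
          refine (min_le_right _ _).trans ?_
          have : (0 : ℝ) ≤ n := by positivity
          linarith
      · exact min_le_right _ _
    have h6 : Pr (tri n) (p0 + (1 + ((j : ℝ) + 1)) * (t / s)) (QC o R (min (2 * M) ((n : ℝ) / 256)))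
        ≤ Pr (tri n) (p0 + (1 + ((j : ℝ) + 1)) * (t / s))
          (QC o R (min (2 ^ (j + 1) * L ^ 3) ((n : ℝ) / 256))) :=
      Pr_mono (by positivity) hp1 (fun F _ hF => QC_anti e2 hF)
    linarith

set_option maxHeartbeats 2000000 in
theorem rounds_core (hR : NulRel o R) {t L s : ℝ} {K : ℕ} {p0 : ℝ} (h : RP t L s n)
    (hK : (n : ℝ) ≤ 2 ^ K) (hp0 : 0 ≤ p0) (hp1 : p0 + (K + 6) * (t / s) ≤ 1) :
    Pr (tri n) p0 (Q0 o R (L ^ 3 * s)) - (K + 6) * ((n : ℝ) ^ 2 * Real.exp (-(5 * L))) ≤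
      Pr (tri n) (p0 + (K + 6) * (t / s)) (Full o R) := by
  have hp := h.p0
  have hpp := h.p1
  have hε : 0 ≤ Real.exp (-(5 * L)) := (Real.exp_pos _).le
  have hε2 : 0 ≤ (n : ℝ) ^ 2 * Real.exp (-(5 * L)) := by positivity
  have hL3 := h.L3
  have hL1 := h.L1
  have hts := h.ts'
  have hsplit : ((K : ℝ) + 6) * (t / s) = (1 + K) * (t / s) + 5 * (t / s) := by ring
  rw [hsplit] at hp1
  have hd := rounds_double hR h hp0 K (by linarith)
  have e0 : min (2 ^ K * L ^ 3) ((n : ℝ) / 256) = (n : ℝ) / 256 := by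
    apply min_eq_right
    have h1 : (1 : ℝ) ≤ L ^ 3 := one_le_pow₀ hL1
    have h2 : (0 : ℝ) ≤ n := by positivity
    have h3 : (0 : ℝ) < 2 ^ K := by positivity
    nlinarith
  rw [e0] at hd
  -- clique
  have hst3 := step3 (n := n) (o := o) hR (p := t / s) (m := (n : ℝ) / 256)
    (ε := Real.exp (-(5 * L))) hp hpp hε (exp5 (by
      have e : t / s * ((n : ℝ) / 256) = (t / s * n) / 256 := by ring
      rw [e, h.pN]
      linarith))
  have hc3 := hst3.chain (p := p0 + (1 + K) * (t / s)) (by positivity) hp (by linarith) hε2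
    (fun F G hFG _ => QK_mono hR _ hFG)
  have hst4 := step4 (n := n) (o := o) hR (p := t / s) (s := t * s / 4)
    (ε := Real.exp (-(5 * L))) hp hpp hε (by rw [h.pN]) (exp5 (by rw [h.pN]; linarith))
  have hc4 := hst4.chain (p := p0 + (1 + K) * (t / s) + t / s) (by positivity) hp (by linarith)
    hε2 (fun F G hFG _ => QK_mono hR _ hFG)
  have e5 : min (1 / 2) (t * s / 4 * (t / s) / 2) = t ^ 2 / 8 := by
    have h1 : t * s / 4 * (t / s) / 2 = t ^ 2 / 8 := by
      have : s ≠ 0 := h.s0.ne'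
      field_simp
      ring
    rw [h1]
    apply min_eq_right
    nlinarith [h.ht0, h.ht1]
  have hst5 := step5 (n := n) (o := o) hR (p := t / s) (s := t * s / 4) (s' := t ^ 2 * n / 64)
    (ε := Real.exp (-(5 * L))) hp hpp hε (by have := h.ht0; have := h.s0; positivity)
    (by rw [e5]; apply le_of_eq; ring) (exp5 (by rw [e5]; have := h.t2N; linarith))
  have hc5 := hst5.chain (p := p0 + (1 + K) * (t / s) + t / s + t / s) (by positivity) hp
    (by linarith) hε2 (fun F G hFG _ => QK_mono hR _ hFG)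
  have hst6 := step6 (n := n) (o := o) hR (p := t / s) (s := t ^ 2 * n / 64)
    (ε := Real.exp (-(5 * L))) hp hpp hε (exp5 (by
      have e : t / s * (t ^ 2 * n / 64 - 1) = t ^ 2 * (t / s * n) / 64 - t / s := by ring
      rw [e, h.pN]
      have e2 : t ^ 2 * (t * s) = t ^ 3 * s := by ring
      rw [e2]
      have := h.t3s
      linarith))
  have hc6 := hst6.chain (p := p0 + (1 + K) * (t / s) + t / s + t / s + t / s) (by positivity) hp
    (by linarith) hε2 (fun F G hFG _ => QJ_mono hR hFG)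
  have hst7 := step7 (n := n) (o := o) hR (p := t / s)
    (ε := Real.exp (-(5 * L))) hp hpp hε (exp5 (by
      have e : t / s * ((n : ℝ) / 2) = (t / s * n) / 2 := by ring
      rw [e, h.pN]
      linarith))
  have hc7 := hst7.chain (p := p0 + (1 + K) * (t / s) + t / s + t / s + t / s + t / s)
    (by positivity) hp (by linarith) hε2 (fun F G hFG _ => Full_mono hR hFG)
  have e7 : p0 + (1 + (K : ℝ)) * (t / s) + t / s + t / s + t / s + t / s + t / s =
      p0 + (K + 6) * (t / s) := by ring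
  rw [e7] at hc7
  linarith

/-! ### The asymptotic statement -/

theorem log2_le {n : ℕ} (hn : 1 ≤ n) : ((Nat.log 2 n : ℕ) : ℝ) ≤ Real.log n / Real.log 2 := by
  have h2 : 0 < Real.log 2 := Real.log_pos (by norm_num)
  rw [le_div_iff₀ h2, ← Real.log_pow]
  apply Real.log_le_log (by positivity)
  have := Nat.pow_log_le_self 2 (show n ≠ 0 by omega)
  exact_mod_cast this

theorem RP_eventually {κ : ℝ} (h0 : 0 < κ) (h1 : κ ≤ 1) : ∀ᶠ n : ℕ in atTop,
    RP (κ / ((Nat.log 2 n + 1 : ℕ) + 6)) (Real.log n) (Real.sqrt n) n ∧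
      ((Nat.log 2 n + 1 : ℕ) : ℝ) + 6 ≤ 2 * Real.log n ∧ 1 ≤ n := by
  have hlog : Tendsto (fun n : ℕ => Real.log (n : ℝ)) atTop atTop :=
    Real.tendsto_log_atTop.comp tendsto_natCast_atTop_atTop
  have e1 := hlog.eventually_ge_atTop (2 ^ 20)
  have e2 := hlog.eventually_ge_atTop (2 ^ 20 / κ ^ 2)
  have e3 : ∀ᶠ n : ℕ in atTop, Real.log (n : ℝ) ^ 16 ≤ n := by
    have h3 := (Real.isLittleO_pow_log_id_atTop (n := 16)).bound (show (0 : ℝ) < 1 by norm_num)
    have h4 := tendsto_natCast_atTop_atTop (R := ℝ) |>.eventually h3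
    filter_upwards [h4] with n hn
    rw [Real.norm_eq_abs, Real.norm_eq_abs, one_mul, id, abs_of_nonneg (by positivity),
      abs_of_nonneg (Nat.cast_nonneg n)] at hn
    exact hn
  filter_upwards [e1, e2, e3, eventually_ge_atTop 1] with n h1' h2' h3' h4'
  set L := Real.log (n : ℝ) with hL
  have hlog2 : (0.6931471803 : ℝ) < Real.log 2 := Real.log_two_gt_d9
  have hK : ((Nat.log 2 n + 1 : ℕ) : ℝ) + 6 ≤ 2 * L := by
    have h5 := log2_le h4'
    rw [← hL] at h5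
    have h6 : L / Real.log 2 ≤ L * 1.45 := by
      rw [div_le_iff₀ (by linarith)]
      have : 0 ≤ L := by linarith [(by norm_num : (0 : ℝ) ≤ 2 ^ 20)]
      nlinarith
    push_cast
    have : (2 : ℝ) ^ 20 = 1048576 := by norm_num
    linarith
  have hK0 : (0 : ℝ) < ((Nat.log 2 n + 1 : ℕ) : ℝ) + 6 := by positivity
  have hL0 : 0 < L := by linarith [(by norm_num : (0 : ℝ) < 2 ^ 20)]
  refine ⟨⟨Real.sq_sqrt (Nat.cast_nonneg n), h1', by positivity, ?_, ?_, ?_⟩, hK, h4'⟩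
  · rw [div_le_one hK0]
    have : (0 : ℝ) ≤ ((Nat.log 2 n + 1 : ℕ) : ℝ) := by positivity
    linarith
  · have h5 : κ / (2 * L) ≤ κ / (((Nat.log 2 n + 1 : ℕ) : ℝ) + 6) :=
      div_le_div_of_nonneg_left h0.le hK0 hK
    have h6 : (κ / (2 * L)) ^ 2 ≤ (κ / (((Nat.log 2 n + 1 : ℕ) : ℝ) + 6)) ^ 2 :=
      pow_le_pow_left₀ (by positivity) h5 2
    have h7 : (κ / (2 * L)) ^ 2 * L ^ 3 = κ ^ 2 * L / 4 := by
      field_simp
      norm_num
    have h8 : 2 ^ 20 ≤ κ ^ 2 * L := by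
      rw [div_le_iff₀ (by positivity)] at h2'
      linarith
    have h9 := mul_le_mul_of_nonneg_right h6 (show 0 ≤ L ^ 3 by positivity)
    rw [h7] at h9
    refine le_trans ?_ h9
    linarith
  · apply Real.le_sqrt_of_sq_le
    have e : (L ^ 8) ^ 2 = L ^ 16 := by ring
    rw [e]
    exact h3'

theorem rounds {κ : ℝ} (hκ : 0 < κ) : ∃ ε : ℕ → ℝ, Tendsto ε atTop (𝓝 0) ∧
    ∀ (n : ℕ) (o : Fin n) (R : Finset (Finset (Fin n)) → Fin n → Fin n → Prop), NulRel o R →
      ∀ p0 : ℝ, 0 ≤ p0 → p0 + κ / Real.sqrt n ≤ 1 →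
      Pr (tri n) p0 (Q0 o R (Real.log n ^ 3 * Real.sqrt n)) - ε n ≤
        Pr (tri n) (p0 + κ / Real.sqrt n) (Full o R) := by
  classical
  set κ' := min κ 1 with hκ'
  have h0 : 0 < κ' := lt_min hκ one_pos
  have h1 : κ' ≤ 1 := min_le_right _ _
  have hev := RP_eventually h0 h1
  set P : ℕ → Prop := fun n => RP (κ' / ((Nat.log 2 n + 1 : ℕ) + 6)) (Real.log n) (Real.sqrt n) n ∧
      ((Nat.log 2 n + 1 : ℕ) : ℝ) + 6 ≤ 2 * Real.log n ∧ 1 ≤ n with hP
  refine ⟨fun n => if P n then 1 / (n : ℝ) else 1, ?_, ?_⟩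
  · have h2 : Tendsto (fun n : ℕ => 1 / (n : ℝ)) atTop (𝓝 0) := tendsto_one_div_atTop_nhds_zero_nat
    refine h2.congr' ?_
    filter_upwards [hev] with n hn
    rw [if_pos hn]
  · intro n o R hR p0 hp0 hp1
    by_cases hn : P n
    swap
    · simp only [if_neg hn]
      have h2 := Pr_le_one (U := tri n) hp0 (by
        have : 0 ≤ κ / Real.sqrt n := by positivity
        linarith) (Q0 o R (Real.log n ^ 3 * Real.sqrt n))
      have h3 := Pr_nonneg (U := tri n) (p := p0 + κ / Real.sqrt n) (by positivity) hp1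
        (Full o R)
      linarith
    · simp only [if_pos hn]
      obtain ⟨hRP, hK2, hn1⟩ := hn
      set K := Nat.log 2 n + 1 with hK
      have hs0 := hRP.s0
      have hK0 : (0 : ℝ) < (K : ℝ) + 6 := by positivity
      have e1 : ((K : ℝ) + 6) * (κ' / ((K : ℝ) + 6) / Real.sqrt n) = κ' / Real.sqrt n := by
        field_simp
      have e2 : κ' / Real.sqrt n ≤ κ / Real.sqrt n :=
        div_le_div_of_nonneg_right (min_le_left _ _) hs0.le
      have hcore := rounds_core hR (K := K) (p0 := p0) hRP (by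
        have := Nat.lt_pow_succ_log_self (b := 2) (by norm_num) n
        have h3 : n ≤ 2 ^ K := this.le
        exact_mod_cast h3) hp0 (by rw [e1]; linarith)
      rw [e1] at hcore
      have h4 : ((K : ℝ) + 6) * ((n : ℝ) ^ 2 * Real.exp (-(5 * Real.log n))) ≤ 1 / n := by
        have hn0 : (0 : ℝ) < n := by exact_mod_cast hn1
        have h5 : Real.exp (-(5 * Real.log n)) = 1 / (n : ℝ) ^ 5 := by
          rw [Real.exp_neg]
          have : Real.exp (5 * Real.log n) = (n : ℝ) ^ 5 := by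
            have h6 : (5 : ℝ) * Real.log n = ((5 : ℕ) : ℝ) * Real.log n := by norm_num
            rw [h6, Real.exp_nat_mul, Real.exp_log hn0]
          rw [this, one_div]
        rw [h5]
        have h6 : (K : ℝ) + 6 ≤ n := by
          have h7 := hRP.LN
          have h8 := hRP.L1
          have h9 : (2 : ℝ) ^ 18 = 262144 := by norm_num
          rw [h9] at h7
          linarith
        have h7 : ((K : ℝ) + 6) * ((n : ℝ) ^ 2 * (1 / (n : ℝ) ^ 5)) ≤
            n * ((n : ℝ) ^ 2 * (1 / (n : ℝ) ^ 5)) :=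
          mul_le_mul_of_nonneg_right h6 (by positivity)
        refine h7.trans ?_
        have h8 : (n : ℝ) * ((n : ℝ) ^ 2 * (1 / (n : ℝ) ^ 5)) = 1 / n / n := by
          field_simp
        rw [h8, div_le_iff₀ hn0]
        have h9 : (1 : ℝ) ≤ n := by exact_mod_cast hn1
        have h10 : 0 ≤ 1 / (n : ℝ) := by positivity
        nlinarith
      have h5 : Pr (tri n) (p0 + κ' / Real.sqrt n) (Full o R) ≤
          Pr (tri n) (p0 + κ / Real.sqrt n) (Full o R) :=
        Pr_mono_p (by positivity) (by linarith) hp1 (fun F G hFG _ hF => Full_mono hR hFG hF)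
      linarith

/-! ### The group -/

theorem nul_nulRel {n : ℕ} {o : Fin n} (ho : o.val = 0) :
    NulRel o (fun F x y => Nul (n := n) F x y) where
  symm := fun F x y h => h.symm
  mono := fun F G x y hFG h => h.mono hFG
  r1 := by
    intro F x y hxy hxo hyo h
    refine Nul.r1 ho ?_ h
    exact Finset.card_eq_three.mpr ⟨o, x, y, hxo.symm, hyo.symm, hxy, rfl⟩
  r2 := by
    intro F x u y _ _ _ _ _ hxy h1 h2 h
    exact Nul.r2 h1.symm h2 hxy h

theorem Nb_eq {n : ℕ} {o : Fin n} (ho : o.val = 0) (F : Finset (Finset (Fin n))) (x : Fin n) :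
    Nb o (fun F x y => Nul (n := n) F x y) F x = nb F x := by
  ext y
  rw [mem_Nb, mem_nb]
  constructor
  · exact fun h => h.2.2
  · intro h
    exact ⟨fun hy => h.2.2.1 (by rw [hy]; exact ho), h.1.symm, h⟩

/-- Section 12 for the frozen group -/
theorem rounds_group {κ : ℝ} (hκ : 0 < κ) : ∃ ε : ℕ → ℝ, Tendsto ε atTop (𝓝 0) ∧
    ∀ n : ℕ, 3 ≤ n → ∀ p0 : ℝ, 0 ≤ p0 → p0 + κ / Real.sqrt n ≤ 1 →
      Pr (tri n) p0 (SC.Q0 (Real.sqrt n * Real.log n ^ 60)) - ε n ≤
        Pr (tri n) (p0 + κ / Real.sqrt n) (Triv n) := by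
  obtain ⟨ε, h1, h2⟩ := rounds hκ
  refine ⟨ε, h1, fun n hn p0 hp0 hp1 => ?_⟩
  have hn0 : 0 < n := by omega
  have ho : (⟨0, hn0⟩ : Fin n).val = 0 := rfl
  have h3 := h2 n ⟨0, hn0⟩ (fun F x y => Nul (n := n) F x y) (nul_nulRel ho) p0 hp0 hp1
  have hκ2 : 0 ≤ κ / Real.sqrt n := by positivity
  have h4 : Pr (tri n) p0 (SC.Q0 (Real.sqrt n * Real.log n ^ 60)) ≤
      Pr (tri n) p0 (Q0 ⟨0, hn0⟩ (fun F x y => Nul (n := n) F x y)
        (Real.log n ^ 3 * Real.sqrt n)) := by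
    apply Pr_mono hp0 (by linarith)
    rintro F _ ⟨A, hA1, hA2, hA3⟩
    refine ⟨A, fun h => hA1 _ h rfl, hA2, fun x hx => ?_⟩
    rw [Nb_eq ho]
    refine le_trans ?_ (hA3 x hx)
    rw [mul_comm]
    apply mul_le_mul_of_nonneg_left _ (Real.sqrt_nonneg _)
    apply pow_le_pow_right₀ _ (by norm_num)
    have h5 : (1 : ℝ) = Real.log (Real.exp 1) := (Real.log_exp 1).symm
    rw [h5]
    apply Real.log_le_log (Real.exp_pos 1)
    have h6 := Real.exp_one_lt_d9
    have h7 : (3 : ℝ) ≤ n := by exact_mod_cast hn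
    linarith
  have h5 : Pr (tri n) (p0 + κ / Real.sqrt n)
      (Full ⟨0, hn0⟩ (fun F x y => Nul (n := n) F x y)) ≤
      Pr (tri n) (p0 + κ / Real.sqrt n) (Triv n) := by
    apply Pr_mono (by positivity) hp1
    intro F _ hF
    apply triv_of_all
    intro x y hxy hx hy
    exact hF x y (fun h => hx (by rw [h])) (fun h => hy (by rw [h])) hxy
  linarith

end Pool.Agent.SC.Rnd
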