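import Pool.Agent.Lib.MP_d0323d_co.SecMomQ0
import Pool.Agent.Lib.MP_d0323d_co.RoundsFinal
/-! Module UPPER (sections 11, 12 assembly). -/
set_option autoImplicit false
namespace Pool.Agent.SC
open Finset Filter Topology

theorem upper_side {γ : ℝ} (hγ : 1 ≤ γ)
    (hγ2 : ∀ Γ : ℝ, 0 < Γ → Γ < γ → ∃ i0 : ℕ, 1 ≤ i0 ∧ ∀ j : ℕ,
      Γ ^ (2 ^ j * i0) ≤ (dsc (2 ^ j * i0) : ℝ) / ((2 ^ j * i0).factorial : ℝ))
    {c : ℝ} (hc : 0 < c) (hcγ : 1 < c ^ 2 * γ) :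
    Tendsto (fun n : ℕ => Pr (tri n) (c / Real.sqrt n) (Triv n)) atTop (𝓝 1) := by
  have hγ0 : 0 < γ := by linarith
  -- a smaller constant
  obtain ⟨c1, hc1, hc1c, hc1γ⟩ : ∃ c1 : ℝ, 0 < c1 ∧ c1 < c ∧ 1 < c1 ^ 2 * γ := by
    have hcont : Tendsto (fun x : ℝ => x ^ 2 * γ) (𝓝[<] c) (𝓝 (c ^ 2 * γ)) := by
      have : Continuous (fun x : ℝ => x ^ 2 * γ) := by fun_prop
      exact this.continuousAt.tendsto.mono_left nhdsWithin_le_nhds
    have h1 := hcont.eventually (lt_mem_nhds hcγ)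
    have h2 : ∀ᶠ x : ℝ in 𝓝[<] c, 0 < x := nhdsWithin_le_nhds (lt_mem_nhds hc)
    have h3 : ∀ᶠ x : ℝ in 𝓝[<] c, x < c := eventually_mem_nhdsWithin
    obtain ⟨x, hx1, hx2, hx3⟩ := (h1.and (h2.and h3)).exists
    exact ⟨x, hx2, hx3, hx1⟩
  have hQ := Q0_whp hγ hγ2 hc1 hc1γ
  obtain ⟨ε, hε, hr⟩ := Rnd.rounds_group (κ := c - c1) (by linarith)
  have hlow : Tendsto (fun n : ℕ => Pr (tri n) (c1 / Real.sqrt n)
      (Q0 (Real.sqrt n * Real.log n ^ 60)) - ε n) atTop (𝓝 1) := by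
    have := hQ.sub hε
    rwa [sub_zero] at this
  have hsqrt : Tendsto (fun n : ℕ => Real.sqrt (n : ℝ)) atTop atTop :=
    Real.tendsto_sqrt_atTop.comp tendsto_natCast_atTop_atTop
  have hev : ∀ᶠ n : ℕ in atTop, 3 ≤ n ∧ c ≤ Real.sqrt n ∧ 0 < Real.sqrt n := by
    filter_upwards [eventually_ge_atTop 3, hsqrt.eventually_ge_atTop c] with n h1 h2
    exact ⟨h1, h2, lt_of_lt_of_le hc h2⟩
  have hsum : ∀ n : ℕ, 0 < Real.sqrt n →
      c1 / Real.sqrt n + (c - c1) / Real.sqrt n = c / Real.sqrt n := by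
    intro n hn
    rw [← add_div]
    congr 1
    ring
  refine tendsto_of_tendsto_of_tendsto_of_le_of_le' hlow tendsto_const_nhds ?_ ?_
  · filter_upwards [hev] with n hn
    obtain ⟨h1, h2, h3⟩ := hn
    have h4 := hr n h1 (c1 / Real.sqrt n) (by positivity) (by
      rw [hsum n h3, div_le_one h3]
      exact h2)
    rw [hsum n h3] at h4
    exact h4
  · filter_upwards [hev] with n hn
    obtain ⟨h1, h2, h3⟩ := hn
    exact Pr_le_one (by positivity) ((div_le_one h3).mpr h2) _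

end Pool.Agent.SC
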