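import Pool.Agent.Lib.MP_d0323d_co.Lower
import Pool.Agent.Lib.MP_d0323d_co.UpperSide
/-! Module FINAL (section 13): the frozen statement. -/
set_option autoImplicit false
namespace Pool.Agent.SC
open Finset Filter Topology

theorem final_real : ∃ pc : ℕ → ℝ, (∀ n, 0 < pc n ∧ pc n ≤ 1) ∧ ∀ ε : ℝ, 0 < ε → ε < 1 →
    Tendsto (fun n : ℕ => Pr (tri n) ((1 - ε) * pc n) (Triv n)) atTop (𝓝 0) ∧
    Tendsto (fun n : ℕ => Pr (tri n) (min 1 ((1 + ε) * pc n)) (Triv n)) atTop (𝓝 1) := by
  obtain ⟨γ, hγ, hγ1, hγ2⟩ := exists_gam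
  have hγ0 : 0 < γ := by linarith
  have hsγ : 0 < Real.sqrt γ := Real.sqrt_pos.mpr hγ0
  have hsγ2 : Real.sqrt γ ^ 2 = γ := Real.sq_sqrt hγ0.le
  have hsγ1 : 1 ≤ Real.sqrt γ := by
    rw [show (1 : ℝ) = Real.sqrt 1 by simp]
    exact Real.sqrt_le_sqrt hγ
  refine ⟨fun n => if n = 0 then 1 else (1 / Real.sqrt γ) / Real.sqrt n, ?_, ?_⟩
  · intro n
    by_cases hn : n = 0
    · simp [hn]
    · have hn1 : (1 : ℝ) ≤ n := by exact_mod_cast Nat.one_le_iff_ne_zero.mpr hn
      have hs : 1 ≤ Real.sqrt n := by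
        rw [show (1 : ℝ) = Real.sqrt 1 by simp]
        exact Real.sqrt_le_sqrt hn1
      simp only [hn, if_false]
      constructor
      · positivity
      · rw [div_div]
        rw [div_le_one (by positivity)]
        nlinarith
  · intro ε h0 h1
    constructor
    · have hc : 0 < (1 - ε) / Real.sqrt γ := div_pos (by linarith) hsγ
      have hcγ : ((1 - ε) / Real.sqrt γ) ^ 2 * γ < 1 := by
        rw [div_pow, hsγ2, div_mul_cancel₀ _ hγ0.ne']
        nlinarith
      refine (lower_side hγ hγ1 hc hcγ).congr' ?_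
      filter_upwards [eventually_ne_atTop 0] with n hn
      simp only [hn, if_false]
      congr 1
      field_simp
    · have hc : 0 < (1 + ε) / Real.sqrt γ := div_pos (by linarith) hsγ
      have hcγ : 1 < ((1 + ε) / Real.sqrt γ) ^ 2 * γ := by
        rw [div_pow, hsγ2, div_mul_cancel₀ _ hγ0.ne']
        nlinarith
      refine (upper_side hγ hγ2 hc hcγ).congr' ?_
      have hlim : Tendsto (fun n : ℕ => (1 + ε) / Real.sqrt γ / Real.sqrt n) atTop (𝓝 0) := by
        apply Tendsto.div_atTop tendsto_const_nhds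
        exact (Real.tendsto_sqrt_atTop).comp tendsto_natCast_atTop_atTop
      have hev := hlim.eventually (gt_mem_nhds (show (0 : ℝ) < 1 by norm_num))
      filter_upwards [eventually_ne_atTop 0, hev] with n hn hn2
      simp only [hn, if_false]
      have heq : (1 + ε) * (1 / Real.sqrt γ / Real.sqrt n) = (1 + ε) / Real.sqrt γ / Real.sqrt n := by
        field_simp
      rw [heq, min_eq_right (le_of_lt hn2)]

end Pool.Agent.SC
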