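import Pool.Agent.Lib.MP_d0323d_co.FamBasic
import Pool.Agent.Lib.MP_d0323d_co.ExpBound
/-! Transport of connectedness and complexity along injections (`mapF`). -/
set_option autoImplicit false
set_option linter.unusedSectionVars false
namespace Pool.Agent.SC
open Finset

/-- the number of classes is invariant under injections -/
theorem ncl_map {γ δ : Type*} (A : Finset γ) (g : γ ↪ δ) (r : γ → γ → Prop) (r' : δ → δ → Prop)
    (h : ∀ a b, r' (g a) (g b) ↔ r a b) : ncl (A.map g) r' = ncl A r := by
  unfold ncl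
  have hb : Function.Bijective
      (fun a : {x // x ∈ A} => (⟨g a.1, mem_map_of_mem g a.2⟩ : {x // x ∈ A.map g})) := by
    constructor
    · intro a b hab
      exact Subtype.ext (g.injective (congrArg Subtype.val hab))
    · rintro ⟨y, hy⟩
      obtain ⟨x, hx, rfl⟩ := mem_map.mp hy
      exact ⟨⟨x, hx⟩, rfl⟩
  refine Nat.card_congr (Quot.congr (Equiv.ofBijective _ hb) ?_).symm
  intro a b
  exact (h a.1 b.1).symm

section
variable {α β : Type*} [DecidableEq α] [DecidableEq β] (f : α ↪ β)

theorem mapF_edgs (S : Finset (Finset α)) : edgs (mapF f S) = mapF f (edgs S) := by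
  ext e'
  rw [mem_edgs, mem_mapF]
  constructor
  · rintro ⟨h2, s', hs', hes⟩
    obtain ⟨s, hs, rfl⟩ := (mem_mapF f).1 hs'
    obtain ⟨e, he, rfl⟩ := Finset.subset_map_iff.1 hes
    rw [card_map] at h2
    exact ⟨e, mem_edgs.mpr ⟨h2, s, hs, he⟩, rfl⟩
  · rintro ⟨e, he, rfl⟩
    rw [mem_edgs] at he
    obtain ⟨h2, s, hs, hes⟩ := he
    exact ⟨by rw [card_map, h2], s.map f, (map_mem_mapF f).2 hs, Finset.map_subset_map.2 hes⟩

theorem mapF_edef (S : Finset (Finset α)) (e : Finset α) :
    edef (mapF f S) (e.map f) = edef S e := by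
  unfold edef
  rw [mapF_edeg]

theorem mapF_star (S : Finset (Finset α)) (x : α) : star (mapF f S) (f x) = mapF f (star S x) := by
  ext s'
  unfold star
  simp only [mem_filter, mem_mapF]
  constructor
  · rintro ⟨⟨s, hs, rfl⟩, h⟩
    exact ⟨s, ⟨hs, by simpa using h⟩, rfl⟩
  · rintro ⟨s, ⟨hs, h⟩, rfl⟩
    exact ⟨⟨s, hs, rfl⟩, by simpa using h⟩

theorem mapF_kap (S : Finset (Finset α)) (x : α) : kap (mapF f S) (f x) = kap S x := by
  unfold kap
  rw [mapF_star]
  unfold mapF
  exact ncl_map _ _ _ _ (fun a b => eadj_map f)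

theorem mapF_compl (S : Finset (Finset α)) : compl (mapF f S) = compl S := by
  unfold compl
  rw [mapF_edgs, mapF_verts, sum_map]
  congr 1
  · unfold mapF
    rw [sum_map]
    refine sum_congr rfl fun e _ => ?_
    exact mapF_edef f S e
  · refine sum_congr rfl fun x _ => ?_
    rw [mapF_kap]

theorem mapF_conn {S : Finset (Finset α)} : Conn (mapF f S) ↔ Conn S := by
  have hadj : ∀ s t : Finset α, (s.map f ∩ t.map f).Nonempty ↔ (s ∩ t).Nonempty := by
    intro s t
    rw [← Finset.map_inter, map_nonempty]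
  constructor
  · intro h s hs t ht
    have key : ∀ t' : Finset β, Relation.ReflTransGen
        (fun a b => a ∈ mapF f S ∧ b ∈ mapF f S ∧ (a ∩ b).Nonempty) (s.map f) t' →
        ∀ t : Finset α, t.map f = t' → Relation.ReflTransGen
          (fun a b => a ∈ S ∧ b ∈ S ∧ (a ∩ b).Nonempty) s t := by
      intro t' h'
      induction h' with
      | refl =>
        intro t ht
        rw [Finset.map_injective f ht]
      | @tail b' c' h1 h2 ih =>
        intro c hc
        obtain ⟨hb, hc', hbc⟩ := h2
        obtain ⟨b, hb1, rfl⟩ := (mem_mapF f).1 hb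
        subst hc
        exact (ih b rfl).tail ⟨hb1, (map_mem_mapF f).1 hc', (hadj b c).1 hbc⟩
    exact key (t.map f) (h _ ((map_mem_mapF f).2 hs) _ ((map_mem_mapF f).2 ht)) t rfl
  · intro h s' hs' t' ht'
    obtain ⟨s, hs, rfl⟩ := (mem_mapF f).1 hs'
    obtain ⟨t, ht, rfl⟩ := (mem_mapF f).1 ht'
    refine Relation.ReflTransGen.lift (Finset.map f) ?_ _ _ (h s hs t ht)
    rintro a b ⟨ha, hb, hab⟩
    exact ⟨(map_mem_mapF f).2 ha, (map_mem_mapF f).2 hb, (hadj a b).2 hab⟩

end

/-- transport to the standard vertex set: properties `A` which imply `B` along `mapF` -/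
theorem card_fam_le {α : Type} [Finite α] [DecidableEq α] (W : Finset α)
    (A : Finset (Finset α) → Prop) (B : Finset (Finset (Fin W.card)) → Prop)
    (h : ∀ (f : Fin W.card ↪ α) (S : Finset (Finset (Fin W.card))),
      A (mapF f S) → verts S = univ → B S) :
    Nat.card {Z : Finset (Finset α) // A Z ∧ verts Z = W} ≤
      Nat.card {Z : Finset (Finset (Fin W.card)) // B Z} := by
  classical
  set f : Fin W.card ↪ α :=
    (W.equivFin.symm.toEmbedding).trans (Function.Embedding.subtype _) with hf
  have hW : (univ : Finset (Fin W.card)).map f = W := by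
    ext x
    simp only [hf, mem_map, mem_univ, true_and, Function.Embedding.trans_apply,
      Equiv.coe_toEmbedding, Function.Embedding.subtype_apply]
    constructor
    · rintro ⟨a, rfl⟩
      exact (W.equivFin.symm a).2
    · intro hx
      exact ⟨W.equivFin ⟨x, hx⟩, by simp⟩
  have hex : ∀ Z : {Z : Finset (Finset α) // A Z ∧ verts Z = W},
      ∃ S : Finset (Finset (Fin W.card)), mapF f S = Z.1 := by
    intro Z
    obtain ⟨S, hS, -⟩ := exists_mapF f (S' := Z.1) (A := univ) (by rw [Z.2.2, hW])
    exact ⟨S, hS⟩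
  choose S hS using hex
  have hv : ∀ Z, verts (S Z) = univ := by
    intro Z
    apply Finset.map_injective f
    rw [← mapF_verts, hS, Z.2.2, hW]
  refine Nat.card_le_card_of_injective (fun Z => (⟨S Z, ?_⟩ :
    {Z : Finset (Finset (Fin W.card)) // B Z})) ?_
  · exact h f (S Z) ((hS Z).symm ▸ Z.2.1) (hv Z)
  · intro Z Z' hZ
    apply Subtype.ext
    rw [← hS Z, ← hS Z']
    exact congrArg (mapF f) (congrArg Subtype.val hZ)

end Pool.Agent.SC
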