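import Pool.Agent.Lib.MP_d0323d_co.FMDefs
import Pool.Agent.Lib.MP_d0323d_co.MapCompl
/-! Module FM, torus part (10.1): the set `T(Y)` has bounded expected size. -/
set_option autoImplicit false
namespace Pool.Agent.SC
open Finset

namespace TorusMoment

/-- number of vertices of a torus -/
theorem torus_card {α : Type*} [DecidableEq α] {Z : Finset (Finset α)} (h : IsTorus Z) :
    Z.card = 2 * (verts Z).card := by
  have := h.2.2.2.2
  unfold Ph2 at this
  omega

/-- numbers of tori on a vertex set -/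
theorem count {c Γ eta C : ℝ} (h : FMHyp c Γ eta C) {n : ℕ} (W : Finset (Fin n))
    (hW : W.Nonempty) :
    (Nat.card {Z : Finset (Finset (Fin n)) // IsTorus Z ∧ verts Z = W} : ℝ) ≤
      (W.card.factorial : ℝ) * Γ ^ W.card *
        Real.exp (eta * W.card + C * Real.log (2 * (W.card : ℝ) + 2) ^ 3) := by
  have h1 := card_fam_le W (fun Z => IsTorus Z)
    (fun Z => IsFam Z ∧ Conn Z ∧ verts Z = univ ∧ Z.card = 2 * W.card ∧ compl Z ≤ 0) (by
      rintro f S hT hv
      obtain ⟨h1, h2, h3, h4, h5⟩ := hT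
      refine ⟨(mapF_isFam f).1 h1, (mapF_conn f).1 h3, hv, ?_, ?_⟩
      · have h6 := torus_card ⟨h1, h2, h3, h4, h5⟩
        rw [card_mapF, mapF_verts, card_map, hv, card_univ, Fintype.card_fin] at h6
        exact h6
      · rw [← mapF_compl f, h4])
  have h2 := h.en W.card (2 * W.card) 0 (by
    have := hW.card_pos
    omega)
  have h3 : (Nat.card {Z : Finset (Finset (Fin n)) // IsTorus Z ∧ verts Z = W} : ℝ) ≤
      (Nat.card {Z : Finset (Finset (Fin W.card)) // IsFam Z ∧ Conn Z ∧ verts Z = univ ∧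
        Z.card = 2 * W.card ∧ compl Z ≤ 0} : ℝ) := by
    exact_mod_cast h1
  refine h3.trans (h2.trans (le_of_eq ?_))
  congr 2
  push_cast
  have h4 : max 0 (2 * (W.card : ℝ) / 2 - W.card) = 0 := by
    rw [max_eq_left]
    linarith
  rw [h4]
  ring

/-- the logarithmic terms are dominated -/
theorem log_bound {eta C : ℝ} (heta : 0 < eta) :
    ∃ D : ℝ, ∀ v : ℕ, C * Real.log (2 * (v : ℝ) + 2) ^ 3 ≤ eta * v + D := by
  have h1 : (fun x : ℝ => Real.log x ^ 3) =o[Filter.atTop] (id : ℝ → ℝ) :=
    Real.isLittleO_pow_log_id_atTop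
  have h2 := (h1.const_mul_left C).def (c := eta / 2) (by positivity)
  rw [Filter.eventually_atTop] at h2
  obtain ⟨x0, hx0⟩ := h2
  obtain ⟨m, hm⟩ := exists_nat_ge x0
  refine ⟨eta + ∑ v ∈ range m, |C * Real.log (2 * (v : ℝ) + 2) ^ 3|, fun v => ?_⟩
  have h0 : (0 : ℝ) ≤ v := Nat.cast_nonneg v
  have hs : 0 ≤ ∑ v ∈ range m, |C * Real.log (2 * (v : ℝ) + 2) ^ 3| :=
    sum_nonneg fun _ _ => abs_nonneg _
  by_cases hv : v < m
  · have h3 : |C * Real.log (2 * (v : ℝ) + 2) ^ 3| ≤
        ∑ v ∈ range m, |C * Real.log (2 * (v : ℝ) + 2) ^ 3| :=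
      single_le_sum (f := fun v : ℕ => |C * Real.log (2 * (v : ℝ) + 2) ^ 3|)
        (fun _ _ => abs_nonneg _) (mem_range.mpr hv)
    have h4 := le_abs_self (C * Real.log (2 * (v : ℝ) + 2) ^ 3)
    nlinarith [mul_nonneg heta.le h0]
  · have h3 : x0 ≤ 2 * (v : ℝ) + 2 := by
      have : (m : ℝ) ≤ v := by exact_mod_cast not_lt.mp hv
      linarith
    have h4 := hx0 _ h3
    simp only [id, Real.norm_eq_abs] at h4
    rw [abs_of_nonneg (by linarith : (0 : ℝ) ≤ 2 * (v : ℝ) + 2)] at h4
    have h5 := (le_abs_self _).trans h4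
    linarith

/-- the number of `v`-subsets containing a point -/
theorem card_containing {n : ℕ} (x : Fin n) (v : ℕ) :
    ((powersetCard (v + 1) (univ : Finset (Fin n))).filter (fun W => x ∈ W)).card * v.factorial ≤
      n ^ v := by
  classical
  have h1 : ((powersetCard (v + 1) (univ : Finset (Fin n))).filter (fun W => x ∈ W)).card ≤
      (powersetCard v ((univ : Finset (Fin n)).erase x)).card := by
    refine card_le_card_of_injOn (fun W => W.erase x) ?_ ?_
    · intro W hW
      rw [mem_coe, mem_filter, mem_powersetCard] at hW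
      rw [mem_coe, mem_powersetCard]
      refine ⟨erase_subset_erase _ hW.1.1, ?_⟩
      rw [card_erase_of_mem hW.2, hW.1.2]
      rfl
    · intro W hW W' hW' he
      rw [mem_coe, mem_filter, mem_powersetCard] at hW hW'
      rw [← insert_erase hW.2, ← insert_erase hW'.2]
      exact congrArg (insert x) he
  rw [card_powersetCard, card_erase_of_mem (mem_univ x), card_univ, Fintype.card_fin] at h1
  calc _ ≤ (n - 1).choose v * v.factorial := Nat.mul_le_mul_right _ h1
    _ = (n - 1).descFactorial v := by rw [Nat.descFactorial_eq_factorial_mul_choose, mul_comm]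
    _ ≤ (n - 1) ^ v := Nat.descFactorial_le_pow _ _
    _ ≤ n ^ v := Nat.pow_le_pow_left (Nat.sub_le _ _) _

end TorusMoment

open TorusMoment

/-- 10.1: expected number of pairs (torus, vertex) is bounded; through a fixed vertex: `O(1/n)` -/
theorem torus_moment {c Γ eta C : ℝ} (h : FMHyp c Γ eta C) : ∃ C' : ℝ, 0 < C' ∧ ∀ n N : ℕ, 1 ≤ n →
    ∀ x : Fin n, Pr (tri n) (c / Real.sqrt n) (fun Y => x ∈ TY N Y) ≤ C' / n := by
  classical
  obtain ⟨D, hD⟩ := log_bound (C := C) h.eta_pos
  set r : ℝ := Real.exp (-(2 * eta)) with hr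
  have hr0 : 0 < r := Real.exp_pos _
  have hr1 : r < 1 := by
    rw [hr, Real.exp_lt_one_iff]
    linarith [h.eta_pos]
  have hsum : Summable (fun v : ℕ => ((v : ℝ) ^ 1) * r ^ v) :=
    summable_pow_mul_geometric_of_norm_lt_one 1 (by rw [Real.norm_eq_abs, abs_of_pos hr0]; exact hr1)
  refine ⟨Real.exp D * (∑' v : ℕ, ((v : ℝ) ^ 1) * r ^ v) + 1, ?_, ?_⟩
  · have : 0 ≤ ∑' v : ℕ, ((v : ℝ) ^ 1) * r ^ v := tsum_nonneg fun v => by positivity
    positivity
  · intro n N hn x
    have hn0 : (0 : ℝ) < n := by exact_mod_cast hn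
    set p : ℝ := c / Real.sqrt n with hp
    have hs0 : 0 < Real.sqrt n := Real.sqrt_pos.mpr hn0
    have hs1 : 1 ≤ Real.sqrt n := by
      rw [Real.one_le_sqrt]
      exact_mod_cast hn
    have hp0 : 0 ≤ p := div_nonneg h.c_pos.le hs0.le
    have hp1 : p ≤ 1 := by
      rw [hp, div_le_one hs0]
      exact h.c_le.trans hs1
    have hp2 : p ^ 2 = c ^ 2 / n := by
      rw [hp, div_pow, Real.sq_sqrt hn0.le]
    -- the families
    set Fm : Finset (Finset (Finset (Fin n))) :=
      (tri n).powerset.filter (fun Z => IsTorus Z ∧ x ∈ verts Z) with hFm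
    have h1 : Pr (tri n) p (fun Y => x ∈ TY N Y) ≤ ∑ Z ∈ Fm, p ^ Z.card := by
      calc _ ≤ Pr (tri n) p (fun Y => ∃ Z ∈ Fm, Z ⊆ Y) := by
            apply Pr_mono hp0 hp1
            intro Y hY hx
            rw [TY, mem_filter] at hx
            obtain ⟨_, Z, hZ, hT, _, hxZ⟩ := hx
            exact ⟨Z, mem_filter.mpr ⟨mem_powerset.mpr (hZ.trans hY), hT, hxZ⟩, hZ⟩
        _ ≤ ∑ Z ∈ Fm, Pr (tri n) p (fun Y => Z ⊆ Y) := Pr_exists_le hp0 hp1 _ _
        _ = _ := by
            refine sum_congr rfl fun Z hZ => ?_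
            rw [Pr_subset (mem_powerset.mp (mem_filter.mp hZ).1)]
    -- group by vertex sets
    have h2 : ∑ Z ∈ Fm, p ^ Z.card ≤
        ∑ W ∈ (univ : Finset (Fin n)).powerset.filter (fun W => x ∈ W),
          (W.card.factorial : ℝ) * Γ ^ W.card *
            Real.exp (eta * W.card + C * Real.log (2 * (W.card : ℝ) + 2) ^ 3) *
            p ^ (2 * W.card) := by
      have hmap : ∀ Z ∈ Fm, verts Z ∈
          (univ : Finset (Fin n)).powerset.filter (fun W => x ∈ W) := by
        intro Z hZ
        rw [mem_filter]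
        exact ⟨mem_powerset.mpr (subset_univ _), (mem_filter.mp hZ).2.2⟩
      rw [← sum_fiberwise_of_maps_to hmap]
      refine sum_le_sum fun W hW => ?_
      rw [mem_filter] at hW
      have hc := count h W ⟨x, hW.2⟩
      calc _ = ∑ Z ∈ Fm.filter (fun Z => verts Z = W), p ^ (2 * W.card) := by
            refine sum_congr rfl fun Z hZ => ?_
            rw [mem_filter, hFm, mem_filter] at hZ
            rw [torus_card hZ.1.2.1, hZ.2]
        _ = ((Fm.filter (fun Z => verts Z = W)).card : ℝ) * p ^ (2 * W.card) := by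
            rw [sum_const, nsmul_eq_mul]
        _ ≤ _ := by
            refine mul_le_mul_of_nonneg_right (le_trans ?_ hc) (by positivity)
            rw [Nat.card_eq_fintype_card, Fintype.card_subtype]
            have : (Fm.filter (fun Z => verts Z = W)) ⊆
                univ.filter (fun Z => IsTorus Z ∧ verts Z = W) := by
              intro Z hZ
              rw [mem_filter, hFm, mem_filter] at hZ
              rw [mem_filter]
              exact ⟨mem_univ _, hZ.1.2.1, hZ.2⟩
            exact_mod_cast card_le_card this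
    -- group by sizes
    have h3 : ∑ W ∈ (univ : Finset (Fin n)).powerset.filter (fun W => x ∈ W),
          (W.card.factorial : ℝ) * Γ ^ W.card *
            Real.exp (eta * W.card + C * Real.log (2 * (W.card : ℝ) + 2) ^ 3) *
            p ^ (2 * W.card) ≤
        ∑ v ∈ range n, (1 / n) * (Real.exp D * (((v + 1 : ℕ) : ℝ) ^ 1 * r ^ (v + 1))) := by
      have hmap : ∀ W ∈ (univ : Finset (Fin n)).powerset.filter (fun W => x ∈ W),
          W.card - 1 ∈ range n := by
        intro W hW
        rw [mem_filter] at hW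
        have h4 : 0 < W.card := card_pos.mpr ⟨x, hW.2⟩
        have h5 : W.card ≤ n := by
          have := card_le_univ W
          rwa [Fintype.card_fin] at this
        rw [mem_range]
        omega
      rw [← sum_fiberwise_of_maps_to hmap]
      refine sum_le_sum fun v _ => ?_
      have hsub : ∀ W ∈ ((univ : Finset (Fin n)).powerset.filter (fun W => x ∈ W)).filter
          (fun W => W.card - 1 = v), W.card = v + 1 := by
        intro W hW
        rw [mem_filter, mem_filter] at hW
        have h4 : 0 < W.card := card_pos.mpr ⟨x, hW.1.2⟩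
        omega
      have hcard : (((univ : Finset (Fin n)).powerset.filter (fun W => x ∈ W)).filter
          (fun W => W.card - 1 = v)).card * v.factorial ≤ n ^ v := by
        refine le_trans (Nat.mul_le_mul_right _ (card_le_card ?_)) (card_containing x v)
        intro W hW
        rw [mem_filter, mem_powersetCard]
        exact ⟨⟨subset_univ _, hsub W hW⟩, (mem_filter.mp (mem_filter.mp hW).1).2⟩
      generalize ((univ : Finset (Fin n)).powerset.filter (fun W => x ∈ W)).filter
        (fun W => W.card - 1 = v) = B at hsub hcard ⊢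
      calc _ = ∑ _W ∈ B, (((v + 1).factorial : ℕ) : ℝ) * Γ ^ (v + 1) *
            Real.exp (eta * ((v + 1 : ℕ) : ℝ) + C * Real.log (2 * ((v + 1 : ℕ) : ℝ) + 2) ^ 3) *
            p ^ (2 * (v + 1)) := by
            refine sum_congr rfl fun W hW => ?_
            rw [hsub W hW]
        _ = (B.card : ℝ) * (v.factorial : ℝ) * (((v + 1 : ℕ) : ℝ) *
            Real.exp (eta * ((v + 1 : ℕ) : ℝ) + C * Real.log (2 * ((v + 1 : ℕ) : ℝ) + 2) ^ 3) *
            (Γ ^ (v + 1) * p ^ (2 * (v + 1)))) := by
            rw [sum_const, nsmul_eq_mul, Nat.factorial_succ]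
            push_cast
            ring
        _ ≤ (n : ℝ) ^ v * (((v + 1 : ℕ) : ℝ) *
            Real.exp (eta * ((v + 1 : ℕ) : ℝ) + C * Real.log (2 * ((v + 1 : ℕ) : ℝ) + 2) ^ 3) *
            (Γ ^ (v + 1) * p ^ (2 * (v + 1)))) := by
            refine mul_le_mul_of_nonneg_right (by exact_mod_cast hcard) ?_
            have := h.G_ge
            positivity
        _ ≤ (n : ℝ) ^ v * (((v + 1 : ℕ) : ℝ) *
            Real.exp (2 * eta * ((v + 1 : ℕ) : ℝ) + D) *
            (Γ ^ (v + 1) * p ^ (2 * (v + 1)))) := by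
            refine mul_le_mul_of_nonneg_left ?_ (by positivity)
            refine mul_le_mul_of_nonneg_right ?_ ?_
            · refine mul_le_mul_of_nonneg_left ?_ (by positivity)
              rw [Real.exp_le_exp]
              linarith [hD (v + 1)]
            · have := h.G_ge
              positivity
        _ = (1 / n) * (Real.exp D * (((v + 1 : ℕ) : ℝ) ^ 1 * r ^ (v + 1))) := by
            have h5 : Γ ^ (v + 1) * p ^ (2 * (v + 1)) =
                Real.exp (-(4 * eta) * ((v + 1 : ℕ) : ℝ)) / (n : ℝ) ^ (v + 1) := by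
              rw [pow_mul, hp2, ← mul_pow, ← mul_div_assoc, mul_comm Γ, h.rel, div_pow,
                ← Real.exp_nat_mul, mul_comm (((v + 1 : ℕ) : ℝ))]
            have h6 : r ^ (v + 1) = Real.exp (-(2 * eta) * ((v + 1 : ℕ) : ℝ)) := by
              rw [hr, ← Real.exp_nat_mul, mul_comm]
            rw [h5, h6, Real.exp_add]
            have h7 : Real.exp (-(2 * eta) * ((v + 1 : ℕ) : ℝ)) =
                Real.exp (2 * eta * ((v + 1 : ℕ) : ℝ)) * Real.exp (-(4 * eta) * ((v + 1 : ℕ) : ℝ)) := by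
              rw [← Real.exp_add]
              congr 1
              ring
            rw [h7, pow_succ]
            field_simp
    have h4 : ∑ v ∈ range n, (1 / (n : ℝ)) * (Real.exp D * (((v + 1 : ℕ) : ℝ) ^ 1 * r ^ (v + 1))) ≤
        (1 / n) * (Real.exp D * ∑' v : ℕ, ((v : ℝ) ^ 1) * r ^ v) := by
      rw [← mul_sum, ← mul_sum]
      refine mul_le_mul_of_nonneg_left (mul_le_mul_of_nonneg_left ?_ (Real.exp_pos D).le)
        (by positivity)
      calc ∑ v ∈ range n, (((v + 1 : ℕ) : ℝ) ^ 1 * r ^ (v + 1))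
          ≤ ∑ v ∈ range (n + 1), (((v : ℕ) : ℝ) ^ 1 * r ^ v) := by
            rw [sum_range_succ' (fun v : ℕ => (((v : ℕ) : ℝ) ^ 1 * r ^ v))]
            simp
        _ ≤ _ := hsum.sum_le_tsum _ fun v _ => by positivity
    calc _ ≤ (1 / (n : ℝ)) * (Real.exp D * ∑' v : ℕ, ((v : ℝ) ^ 1) * r ^ v) :=
          h1.trans (h2.trans (h3.trans h4))
      _ ≤ _ := by
          rw [div_mul_eq_mul_div, one_mul]
          exact div_le_div_of_nonneg_right (by linarith) hn0.le

theorem TY_card {c Γ eta C : ℝ} (h : FMHyp c Γ eta C) : ∃ C' : ℝ, 0 < C' ∧ ∀ n N : ℕ, 1 ≤ n →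
    ∀ a : ℝ, 0 < a →
      Pr (tri n) (c / Real.sqrt n) (fun Y => a ≤ ((TY N Y).card : ℝ)) ≤ C' / a := by
  classical
  obtain ⟨C', hC', hb⟩ := torus_moment h
  refine ⟨C', hC', fun n N hn a ha => ?_⟩
  have hn0 : (0 : ℝ) < n := by exact_mod_cast hn
  have hs0 : 0 < Real.sqrt n := Real.sqrt_pos.mpr hn0
  have hs1 : 1 ≤ Real.sqrt n := by
    rw [Real.one_le_sqrt]
    exact_mod_cast hn
  have hp0 : 0 ≤ c / Real.sqrt n := div_nonneg h.c_pos.le hs0.le
  have hp1 : c / Real.sqrt n ≤ 1 := by
    rw [div_le_one hs0]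
    exact h.c_le.trans hs1
  have h1 := Pr_markov (U := tri n) hp0 hp1 (fun Y => ((TY N Y).card : ℝ))
    (fun F => Nat.cast_nonneg _) ha
  refine h1.trans (div_le_div_of_nonneg_right ?_ ha.le)
  have h2 : Ex (tri n) (c / Real.sqrt n) (fun Y => ((TY N Y).card : ℝ)) =
      ∑ x : Fin n, Pr (tri n) (c / Real.sqrt n) (fun Y => x ∈ TY N Y) := by
    simp only [Pr_eq_Ex]
    rw [← Ex_sum]
    apply Ex_congr
    intro F _
    have h5 : (TY N F) = univ.filter (fun i => i ∈ TY N F) := by ext; simp
    conv_lhs => rw [h5, card_filter]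
    push_cast
    refine sum_congr rfl fun i _ => ?_
    by_cases hi : i ∈ TY N F <;> simp [hi]
  rw [h2]
  calc _ ≤ ∑ _x : Fin n, C' / n := sum_le_sum fun x _ => hb n N hn x
    _ = C' := by
        rw [sum_const, card_univ, Fintype.card_fin, nsmul_eq_mul]
        field_simp

end Pool.Agent.SC
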