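import Pool.Agent.Lib.MP_d0323d_co.FMDefs
import Pool.Agent.Lib.MP_d0323d_co.MapCompl
import Pool.Agent.Lib.MP_d0323d_co.TorusMoment
/-! Module FM (10.3): first moment bounds for fixed `T0` (helper80); the torus part (10.1) is in
TorusMoment.lean (helper75). -/
set_option autoImplicit false
set_option linter.unusedSectionVars false
namespace Pool.Agent.SC
open Finset

namespace FirstM

/-- the number counted in (EN) -/
noncomputable def cntF (v f k : ℕ) : ℕ :=
  Nat.card {Z : Finset (Finset (Fin v)) // IsFam Z ∧ Conn Z ∧ verts Z = univ ∧ Z.card = f ∧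
        compl Z ≤ k}

open Classical in
/-- connected families with vertex set `V`, `f` members and complexity at most `k` -/
noncomputable def fams {n : ℕ} (V : Finset (Fin n)) (f k : ℕ) : Finset (Finset (Finset (Fin n))) :=
  univ.filter (fun Z => IsFam Z ∧ Conn Z ∧ verts Z = V ∧ Z.card = f ∧ compl Z ≤ k)

theorem mem_fams {n : ℕ} {V : Finset (Fin n)} {f k : ℕ} {Z : Finset (Finset (Fin n))} :
    Z ∈ fams V f k ↔ IsFam Z ∧ Conn Z ∧ verts Z = V ∧ Z.card = f ∧ compl Z ≤ k := by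
  unfold fams
  simp

theorem card_fams_le {n : ℕ} (V : Finset (Fin n)) (f k : ℕ) :
    (fams V f k).card ≤ cntF V.card f k := by
  classical
  let g : Fin V.card ↪ Fin n := (V.orderEmbOfFin rfl).toEmbedding
  have hg : univ.map g = V := by
    simp [g]
  unfold cntF
  rw [Nat.card_eq_fintype_card, Fintype.card_subtype]
  refine le_trans (Finset.card_le_card (t := (univ.filter (fun Z : Finset (Finset (Fin V.card)) =>
    IsFam Z ∧ Conn Z ∧ verts Z = univ ∧ Z.card = f ∧ compl Z ≤ k)).image (mapF g)) ?_)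
    Finset.card_image_le
  intro Z hZ
  obtain ⟨h1, h2, h3, h4, h5⟩ := mem_fams.1 hZ
  obtain ⟨S, hS, -⟩ := exists_mapF (f := g) (S' := Z) (A := univ) (by rw [hg, h3])
  subst hS
  rw [Finset.mem_image]
  refine ⟨S, ?_, rfl⟩
  rw [Finset.mem_filter]
  refine ⟨Finset.mem_univ _, (mapF_isFam g).1 h1, (mapF_conn g).1 h2, ?_, ?_, ?_⟩
  · rw [mapF_verts] at h3
    exact Finset.map_injective g (h3.trans hg.symm)
  · rwa [card_mapF] at h4
  · rwa [mapF_compl] at h5

theorem fams_sub {n : ℕ} {V : Finset (Fin n)} {f k : ℕ} {Z : Finset (Finset (Fin n))}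
    (h : Z ∈ fams V f k) : Z ⊆ tri n := by
  intro s hs
  unfold tri
  simpa using (mem_fams.1 h).1 s hs

/-- union bound over a set of families -/
theorem Pr_le_sum_fam {n : ℕ} {p : ℝ} (h0 : 0 ≤ p) (h1 : p ≤ 1)
    (A : Finset (Finset (Fin n)) → Prop) (𝓕 : Finset (Finset (Finset (Fin n))))
    (hF : ∀ Z ∈ 𝓕, Z ⊆ tri n) (hA : ∀ Y ⊆ tri n, A Y → ∃ Z ∈ 𝓕, Z ⊆ Y) :
    Pr (tri n) p A ≤ ∑ Z ∈ 𝓕, p ^ Z.card := by
  refine (Pr_mono h0 h1 hA).trans ((Pr_exists_le h0 h1 𝓕 (fun Z Y => Z ⊆ Y)).trans ?_)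
  exact Finset.sum_le_sum fun Z hZ => (Pr_subset (hF Z hZ)).le


/-! ### Real inequalities -/

theorem log_cube_le (C eta : ℝ) (hC : 0 < C) (he : 0 < eta) :
    ∃ K : ℝ, 0 ≤ K ∧ ∀ y : ℝ, 1 ≤ y → C * Real.log y ^ 3 ≤ eta * y + K := by
  refine ⟨(216 * C) ^ 2 / (4 * eta), by positivity, fun y hy => ?_⟩
  have hy0 : (0 : ℝ) ≤ y := by linarith
  have h1 : Real.log y ≤ y ^ ((1 : ℝ) / 6) / (1 / 6) := Real.log_le_rpow_div hy0 (by norm_num)
  have h2 : Real.log y ^ 3 ≤ (y ^ ((1 : ℝ) / 6) / (1 / 6)) ^ 3 :=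
    pow_le_pow_left₀ (Real.log_nonneg hy) h1 3
  have h3 : (y ^ ((1 : ℝ) / 6)) ^ 3 = Real.sqrt y := by
    rw [← Real.rpow_natCast, ← Real.rpow_mul hy0, Real.sqrt_eq_rpow]
    norm_num
  have h4 : (y ^ ((1 : ℝ) / 6) / (1 / 6)) ^ 3 = 216 * Real.sqrt y := by
    rw [div_pow, h3]; norm_num; ring
  rw [h4] at h2
  have h5 : C * Real.log y ^ 3 ≤ 216 * C * Real.sqrt y := by nlinarith
  refine h5.trans ?_
  have h6 : Real.sqrt y ^ 2 = y := Real.sq_sqrt hy0
  have h7 : 216 * C * Real.sqrt y ≤ eta * Real.sqrt y ^ 2 + (216 * C) ^ 2 / (4 * eta) := by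
    rw [← sub_nonneg]
    have : eta * Real.sqrt y ^ 2 + (216 * C) ^ 2 / (4 * eta) - 216 * C * Real.sqrt y
        = (2 * eta * Real.sqrt y - 216 * C) ^ 2 / (4 * eta) := by
      field_simp; ring
    rw [this]; positivity
  rwa [h6] at h7

/-- three cases of 10.3 -/
theorem X_bound {L4 ell D eta f k φ : ℝ} (hD : 0 ≤ D) (hDL : 8 * D ≤ L4) (hDe : 16 * D ≤ ell)
    (he : 0 ≤ eta) (hf : 0 ≤ f) (hk : k = 0 ∨ 1 ≤ k) (hφ : φ = 0 ∨ 1 / 2 ≤ φ ∨ φ ≤ -(1 / 2))
    (hc : 2 * φ * ell < eta * f - L4 * k) (hn : ¬ (k = 0 ∧ φ = 0)) :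
    φ * ell - 3 / 2 * eta * f + D * (k + 1 + |φ|) ≤ -(L4 / 2) ∨
    φ * ell - 3 / 2 * eta * f + D * (k + 1 + |φ|) ≤ -(ell / 8) := by
  have hef : 0 ≤ eta * f := mul_nonneg he hf
  have hell : 0 ≤ ell := by linarith
  have hL : 0 ≤ L4 := by linarith
  rcases hφ with h | h | h
  · subst h
    rcases hk with hk | hk
    · exact absurd ⟨hk, rfl⟩ hn
    · left
      rw [abs_zero]
      nlinarith [mul_le_mul_of_nonneg_right hDL (by linarith : (0 : ℝ) ≤ k),
        mul_le_mul_of_nonneg_left hk hD, mul_le_mul_of_nonneg_left hk hL]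
  · rw [abs_of_nonneg (by linarith : (0 : ℝ) ≤ φ)]
    have h1 : D * φ ≤ φ * ell := by nlinarith
    rcases hk with hk | hk
    · right
      subst hk
      nlinarith
    · left
      nlinarith [mul_le_mul_of_nonneg_right hDL (by linarith : (0 : ℝ) ≤ k),
        mul_le_mul_of_nonneg_left hk hD, mul_le_mul_of_nonneg_left hk hL]
  · rw [abs_of_nonpos (by linarith : φ ≤ (0 : ℝ))]
    right
    have hk0 : 0 ≤ k := by rcases hk with h | h <;> linarith
    have h1 : 8 * (D * k) ≤ L4 * k := by nlinarith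
    have h2 : 16 * (D * (-φ)) ≤ (-φ) * ell := by nlinarith
    have h3 : ell / 2 ≤ (-φ) * ell := by nlinarith
    nlinarith

/-- union bound with a double index -/
theorem Pr_le_sum_fam2 {n : ℕ} {p : ℝ} (h0 : 0 ≤ p) (h1 : p ≤ 1)
    (A : Finset (Finset (Fin n)) → Prop) {κ : Type*} (I : Finset κ)
    (𝓕 : κ → Finset (Finset (Finset (Fin n))))
    (hF : ∀ i ∈ I, ∀ Z ∈ 𝓕 i, Z ⊆ tri n) (hA : ∀ Y ⊆ tri n, A Y → ∃ i ∈ I, ∃ Z ∈ 𝓕 i, Z ⊆ Y) :
    Pr (tri n) p A ≤ ∑ i ∈ I, ∑ Z ∈ 𝓕 i, p ^ Z.card := by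
  refine (Pr_mono h0 h1 hA).trans
    ((Pr_exists_le h0 h1 I (fun i Y => ∃ Z ∈ 𝓕 i, Z ⊆ Y)).trans ?_)
  refine Finset.sum_le_sum fun i hi => ?_
  exact Pr_le_sum_fam h0 h1 _ (𝓕 i) (hF i hi) (fun Y _ h => h)

theorem sum_fams_le {n : ℕ} {p : ℝ} (V : Finset (Fin n)) (f k : ℕ) :
    ∑ Z ∈ fams V f k, p ^ Z.card = (fams V f k).card * p ^ f := by
  rw [Finset.sum_congr rfl (fun Z hZ => by rw [(mem_fams.1 hZ).2.2.2.1]), Finset.sum_const,
    nsmul_eq_mul]

theorem p_range {c : ℝ} (hc : 0 < c) (hc1 : c ≤ 1) {n : ℕ} (hn : 1 ≤ n) :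
    0 ≤ c / Real.sqrt n ∧ c / Real.sqrt n ≤ 1 := by
  have h1 : (1 : ℝ) ≤ Real.sqrt n := by
    rw [Real.one_le_sqrt]; exact_mod_cast hn
  exact ⟨by positivity, by rw [div_le_one (by linarith)]; linarith⟩

section Elem
variable {α : Type*} [DecidableEq α]

theorem verts_card_le {Z : Finset (Finset α)} (hZ : IsFam Z) : (verts Z).card ≤ 3 * Z.card := by
  unfold verts
  refine (Finset.card_biUnion_le).trans ?_
  rw [Finset.sum_congr rfl (fun s hs => by rw [id, hZ s hs]), Finset.sum_const, smul_eq_mul, mul_comm]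

theorem compl_le_complT (Ts : Finset α) (Z : Finset (Finset α)) : compl Z ≤ complT Ts Z := by
  unfold compl complT
  rw [add_assoc]
  refine Nat.add_le_add_left ?_ _
  have h1 : ∑ x ∈ verts Z, (kap Z x - 1)
      = ∑ x ∈ verts Z \ Ts, (kap Z x - 1) + ∑ x ∈ verts Z ∩ Ts, (kap Z x - 1) := by
    rw [← Finset.sum_union (Finset.disjoint_sdiff_inter _ _), Finset.sdiff_union_inter]
  rw [h1]
  exact Nat.add_le_add_left (Finset.sum_le_sum fun x _ => Nat.sub_le _ _) _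

theorem vT_le_complT (Ts : Finset α) (Z : Finset (Finset α)) :
    (verts Z ∩ Ts).card ≤ complT Ts Z := by
  unfold complT
  refine le_trans ?_ (Nat.le_add_left _ _)
  rw [Finset.card_eq_sum_ones]
  exact Finset.sum_le_sum fun x hx => kap_pos (Finset.mem_inter.1 hx).1

end Elem

theorem sum_card_le {ι : Type*} [DecidableEq ι] (U : Finset ι) (M : ℕ) (g : ℕ → ℝ)
    (h0 : ∀ a, 0 ≤ g a) (h : ∀ a ≤ M, (U.card.choose a : ℝ) * g a ≤ 1) :
    ∑ A ∈ U.powerset.filter (fun A => A.card ≤ M), g A.card ≤ (M : ℝ) + 1 := by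
  rw [← Finset.sum_fiberwise_of_maps_to (s := U.powerset.filter (fun A => A.card ≤ M))
    (t := range (M + 1)) (g := Finset.card) (fun A hA => by
      rw [mem_range]; exact Nat.lt_succ_of_le (mem_filter.1 hA).2)]
  have : ∀ a ∈ range (M + 1),
      ∑ A ∈ (U.powerset.filter (fun A => A.card ≤ M)).filter (fun A => A.card = a), g A.card ≤ 1 := by
    intro a ha
    have ha' : a ≤ M := Nat.lt_succ_iff.1 (mem_range.1 ha)
    rw [Finset.sum_congr rfl (fun A hA => by rw [(mem_filter.1 hA).2]), Finset.sum_const,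
      nsmul_eq_mul]
    refine le_trans (mul_le_mul_of_nonneg_right ?_ (h0 a)) (h a ha')
    have hle : ((U.powerset.filter (fun A => A.card ≤ M)).filter (fun A => A.card = a)).card
        ≤ U.card.choose a := by
      rw [← Finset.card_powersetCard]
      refine Finset.card_le_card fun A hA => ?_
      rw [mem_powersetCard]
      have h1 := mem_filter.1 hA
      exact ⟨mem_powerset.1 (mem_filter.1 h1.1).1, h1.2⟩
    exact_mod_cast hle
  refine (Finset.sum_le_sum this).trans ?_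
  simp

/-- weight of a vertex set -/
noncomputable def wV {n : ℕ} (Ts : Finset (Fin n)) (L : ℝ) (V : Finset (Fin n)) : ℝ :=
  (((V \ Ts).card.factorial : ℝ) / (n : ℝ) ^ (V \ Ts).card) * (1 / L ^ (V ∩ Ts).card)

theorem wsum {n : ℕ} (hn : 1 ≤ n) (Ts : Finset (Fin n)) {L : ℝ} (hL : 0 < L)
    (hTs : (Ts.card : ℝ) ≤ L) (M : ℕ) :
    ∑ V ∈ (univ : Finset (Finset (Fin n))).filter (fun V => V.card ≤ M), wV Ts L V
      ≤ ((M : ℝ) + 1) ^ 2 := by
  have hn0 : (0 : ℝ) < n := by exact_mod_cast hn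
  set g : ℕ → ℝ := fun a => (a.factorial : ℝ) / (n : ℝ) ^ a with hg
  set h : ℕ → ℝ := fun b => 1 / L ^ b with hh
  have hg0 : ∀ a, 0 ≤ g a := fun a => by rw [hg]; positivity
  have hh0 : ∀ a, 0 ≤ h a := fun a => by rw [hh]; positivity
  set P := ((univ : Finset (Fin n)).powerset).filter (fun A => A.card ≤ M) with hP
  set Q := (Ts.powerset).filter (fun A => A.card ≤ M) with hQ
  have e1 : ∑ V ∈ (univ : Finset (Finset (Fin n))).filter (fun V => V.card ≤ M), wV Ts L V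
      = ∑ q ∈ ((univ : Finset (Finset (Fin n))).filter (fun V => V.card ≤ M)).image
          (fun V => (V \ Ts, V ∩ Ts)), g q.1.card * h q.2.card := by
    rw [Finset.sum_image]
    · rfl
    · intro A _ B _ hAB
      have h1 := congrArg Prod.fst hAB
      have h2 := congrArg Prod.snd hAB
      simp only at h1 h2
      rw [← Finset.sdiff_union_inter A Ts, ← Finset.sdiff_union_inter B Ts, h1, h2]
  rw [e1]
  have e2 : ∑ q ∈ ((univ : Finset (Finset (Fin n))).filter (fun V => V.card ≤ M)).image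
          (fun V => (V \ Ts, V ∩ Ts)), g q.1.card * h q.2.card
      ≤ ∑ q ∈ P ×ˢ Q, g q.1.card * h q.2.card := by
    refine Finset.sum_le_sum_of_subset_of_nonneg ?_ (fun q _ _ => mul_nonneg (hg0 _) (hh0 _))
    intro q hq
    obtain ⟨V, hV, rfl⟩ := mem_image.1 hq
    have hVM := (mem_filter.1 hV).2
    rw [mem_product, hP, hQ, mem_filter, mem_filter, mem_powerset, mem_powerset]
    exact ⟨⟨subset_univ _, (card_le_card sdiff_subset).trans hVM⟩, inter_subset_right,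
      (card_le_card inter_subset_left).trans hVM⟩
  refine e2.trans ?_
  rw [Finset.sum_product, ← Finset.sum_mul_sum P Q (fun A => g A.card) (fun B => h B.card), sq]
  have hP1 : ∑ A ∈ P, g A.card ≤ (M : ℝ) + 1 := by
    refine sum_card_le univ M g hg0 fun a _ => ?_
    rw [card_univ, Fintype.card_fin, hg]
    simp only
    rw [← mul_div_assoc, div_le_one (by positivity)]
    have h1 : n.choose a * a.factorial ≤ n ^ a := by
      rw [mul_comm, ← Nat.descFactorial_eq_factorial_mul_choose]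
      exact Nat.descFactorial_le_pow _ _
    exact_mod_cast h1
  have hQ1 : ∑ B ∈ Q, h B.card ≤ (M : ℝ) + 1 := by
    refine sum_card_le Ts M h hh0 fun a _ => ?_
    rw [hh]
    simp only
    rw [mul_one_div, div_le_one (by positivity)]
    have h1 : ((Ts.card.choose a : ℕ) : ℝ) ≤ ((Ts.card ^ a : ℕ) : ℝ) := by
      exact_mod_cast Nat.choose_le_pow _ _
    refine h1.trans ?_
    push_cast
    exact pow_le_pow_left₀ (Nat.cast_nonneg _) hTs a
  exact mul_le_mul hP1 hQ1 (Finset.sum_nonneg fun _ _ => hh0 _) (by positivity)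

theorem fact_split (a b M : ℕ) (h : a + b ≤ M) :
    ((a + b).factorial : ℝ) ≤ (a.factorial : ℝ) * (M : ℝ) ^ b := by
  have h1 : (a + b).factorial ≤ a.factorial * (a + b) ^ b := by
    rw [← Nat.factorial_mul_ascFactorial]
    exact Nat.mul_le_mul_left _ (Nat.ascFactorial_le_pow_add a b)
  have h2 : (a + b).factorial ≤ a.factorial * M ^ b :=
    h1.trans (Nat.mul_le_mul_left _ (Nat.pow_le_pow_left h b))
  exact_mod_cast h2

theorem term_bound {c Γ eta C : ℝ} (h : FMHyp c Γ eta C) {n N f k : ℕ} {V Ts : Finset (Fin n)}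
    {L ell φ : ℝ} (hn : 1 ≤ n) (hell : ell = Real.log n) (hL : L = Real.log ell) (hL1 : 2 ≤ L)
    (hN : (N : ℝ) ≤ ell ^ 3) (hf : 1 ≤ f) (hfN : f ≤ N)
    (hVM : V.card ≤ 3 * N) (hvT : (V ∩ Ts).card ≤ k)
    (hφ : φ = ((V \ Ts).card : ℝ) - (f : ℝ) / 2)
    (hD : 8 * ((5 + Real.log Γ + 64 * C) * L ^ 3) ≤ L ^ 4)
    (hDe : 16 * ((5 + Real.log Γ + 64 * C) * L ^ 3) ≤ ell)
    (hc : 2 * φ * ell < eta * f - L ^ 4 * k) (hnz : ¬ ((k : ℝ) = 0 ∧ φ = 0)) :
    ((fams V f k).card : ℝ) * (c / Real.sqrt n) ^ f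
      ≤ wV Ts L V * (Real.exp (-(L ^ 4 / 2)) + Real.exp (-(ell / 8))) := by
  have hn0 : (0 : ℝ) < n := by exact_mod_cast hn
  have hG := h.G_ge
  have hG0 : 0 < Γ := by linarith
  have hlG : 0 ≤ Real.log Γ := Real.log_nonneg hG
  have hC := h.C_pos
  have he := h.eta_pos
  have hc0 := h.c_pos
  -- ell = exp L
  have hell0 : 0 < ell := by
    by_contra hcon
    rw [not_lt] at hcon
    have h1 : 0 ≤ (5 + Real.log Γ + 64 * C) * L ^ 3 := by positivity
    have h2 : (5 + Real.log Γ + 64 * C) * L ^ 3 > 0 := by positivity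
    linarith
  have hexpL : Real.exp L = ell := by rw [hL, Real.exp_log hell0]
  have hL4 : ell ^ 3 = Real.exp (3 * L) := by
    rw [← hexpL, ← Real.exp_nat_mul]; norm_num
  have hexp2 : (3 : ℝ) ≤ Real.exp L := by linarith [Real.add_one_le_exp L]
  have h4L : 3 * Real.exp (3 * L) ≤ Real.exp (4 * L) := by
    have : Real.exp (4 * L) = Real.exp L * Real.exp (3 * L) := by rw [← Real.exp_add]; ring_nf
    rw [this]
    exact mul_le_mul_of_nonneg_right hexp2 (Real.exp_pos _).le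
  have h3pos : (1 : ℝ) ≤ Real.exp (3 * L) := Real.one_le_exp (by linarith)
  set vo := (V \ Ts).card with hvo
  set vT := (V ∩ Ts).card with hvTd
  have hv : V.card = vo + vT := by
    rw [hvo, hvTd, Finset.card_sdiff_add_card_inter]
  set lam := Real.log ((f : ℝ) + 2) with hlam
  have hfr : (1 : ℝ) ≤ f := by exact_mod_cast hf
  have hfN' : (f : ℝ) ≤ N := by exact_mod_cast hfN
  have hlam0 : 0 ≤ lam := Real.log_nonneg (by linarith)
  have hlam4 : lam ≤ 4 * L := by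
    rw [hlam, Real.log_le_iff_le_exp (by linarith)]
    linarith
  have hlam3 : lam ^ 3 ≤ 64 * L ^ 3 := by
    calc lam ^ 3 ≤ (4 * L) ^ 3 := pow_le_pow_left₀ hlam0 hlam4 3
      _ = 64 * L ^ 3 := by ring
  set E := eta / 2 * f + C * lam ^ 3 * ((k : ℝ) + 1 + max 0 ((f : ℝ) / 2 - V.card)) with hE
  have hk0 : (0 : ℝ) ≤ k := Nat.cast_nonneg k
  have hvTk : (vT : ℝ) ≤ k := by exact_mod_cast hvT
  have hvT0 : (0 : ℝ) ≤ vT := Nat.cast_nonneg _
  -- step 1
  have s1 : ((fams V f k).card : ℝ) ≤ (V.card.factorial : ℝ) * Γ ^ V.card * Real.exp E := by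
    have h1 : ((fams V f k).card : ℝ) ≤ (cntF V.card f k : ℝ) := by
      exact_mod_cast card_fams_le V f k
    exact h1.trans (h.en V.card f k hf)
  have s2 : (V.card.factorial : ℝ) ≤ (vo.factorial : ℝ) * Real.exp (4 * L * vT) := by
    rw [hv]
    refine (fact_split vo vT (3 * N) (by omega)).trans ?_
    refine mul_le_mul_of_nonneg_left ?_ (by positivity)
    rw [show 4 * L * (vT : ℝ) = (vT : ℝ) * (4 * L) by ring, Real.exp_nat_mul]
    refine pow_le_pow_left₀ (by positivity) ?_ vT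
    push_cast
    rw [hL4] at hN
    linarith
  have s3 : Γ ^ V.card = Real.exp ((V.card : ℝ) * Real.log Γ) := by
    rw [Real.exp_nat_mul, Real.exp_log hG0]
  have s4 : (c / Real.sqrt n) ^ f = Real.exp ((f : ℝ) * (Real.log c - ell / 2)) := by
    rw [Real.exp_nat_mul, Real.exp_sub, Real.exp_log hc0, hell, ← Real.log_sqrt (by positivity),
      Real.exp_log (by positivity)]
  have s5 : (n : ℝ) ^ vo = Real.exp ((vo : ℝ) * ell) := by
    rw [Real.exp_nat_mul, hell, Real.exp_log hn0]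
  have s6 : L ^ vT ≤ Real.exp ((vT : ℝ) * L) := by
    rw [Real.exp_nat_mul]
    exact pow_le_pow_left₀ (by linarith) (by linarith [Real.add_one_le_exp L]) vT
  set D := (5 + Real.log Γ + 64 * C) * L ^ 3 with hDd
  have hD0 : 0 ≤ D := by positivity
  -- the exponent
  have hrel : 2 * Real.log c + Real.log Γ = -(4 * eta) := by
    have := congrArg Real.log h.rel
    rw [Real.log_exp, Real.log_mul (by positivity) hG0.ne', Real.log_pow] at this
    push_cast at this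
    exact this
  have hL3 : (1 : ℝ) ≤ L ^ 3 := one_le_pow₀ (by linarith)
  have hLL3 : L ≤ L ^ 3 := le_self_pow₀ (by linarith) (by norm_num)
  have habs : 0 ≤ |φ| := abs_nonneg φ
  have hvr : (V.card : ℝ) = vo + vT := by rw [hv]; push_cast; ring
  have hmax : max 0 ((f : ℝ) / 2 - V.card) ≤ |φ| := by
    refine max_le habs ?_
    rw [hvr]
    have : -φ ≤ |φ| := neg_le_abs φ
    rw [hφ] at this ⊢
    linarith
  have hXb := X_bound (L4 := L ^ 4) (ell := ell) (D := D) (eta := eta) (f := (f : ℝ)) (k := (k : ℝ))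
    (φ := φ) hD0 hD hDe he.le (by linarith) (by
      rcases Nat.eq_zero_or_pos k with hk | hk
      · left; rw [hk]; norm_num
      · right; exact_mod_cast hk) (by
      rcases lt_trichotomy (2 * vo) f with hlt | heq | hgt
      · right; right
        have : (2 * (vo : ℝ)) + 1 ≤ f := by exact_mod_cast hlt
        rw [hφ]; linarith
      · left
        have : (2 * (vo : ℝ)) = f := by exact_mod_cast heq
        rw [hφ]; linarith
      · right; left
        have : (f : ℝ) + 1 ≤ 2 * (vo : ℝ) := by exact_mod_cast hgt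
        rw [hφ]; linarith) hc hnz
  have hX : 4 * L * vT + (V.card : ℝ) * Real.log Γ + E + (f : ℝ) * (Real.log c - ell / 2)
      + (vo : ℝ) * ell + (vT : ℝ) * L ≤ φ * ell - 3 / 2 * eta * f + D * (k + 1 + |φ|) := by
    have t1 : (V.card : ℝ) * Real.log Γ + (f : ℝ) * Real.log c
        = -(2 * eta * f) + (φ + vT) * Real.log Γ := by
      rw [hvr, hφ]
      have : Real.log c = (-(4 * eta) - Real.log Γ) / 2 := by linarith
      rw [this]; ring
    have t2 : (φ + vT) * Real.log Γ ≤ Real.log Γ * L ^ 3 * (k + 1 + |φ|) := by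
      have a1 : φ + vT ≤ k + 1 + |φ| := by linarith [le_abs_self φ]
      have a2 : (φ + vT) * Real.log Γ ≤ (k + 1 + |φ|) * Real.log Γ :=
        mul_le_mul_of_nonneg_right a1 hlG
      have a3 : 0 ≤ (k + 1 + |φ|) * Real.log Γ := by positivity
      have a4 : ((k + 1 + |φ|) * Real.log Γ) * 1 ≤ ((k + 1 + |φ|) * Real.log Γ) * L ^ 3 :=
        mul_le_mul_of_nonneg_left hL3 a3
      calc (φ + vT) * Real.log Γ ≤ ((k + 1 + |φ|) * Real.log Γ) * 1 := by rw [mul_one]; exact a2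
        _ ≤ ((k + 1 + |φ|) * Real.log Γ) * L ^ 3 := a4
        _ = Real.log Γ * L ^ 3 * (k + 1 + |φ|) := by ring
    have t3 : 5 * L * vT ≤ 5 * L ^ 3 * (k + 1 + |φ|) := by
      have a1 : (vT : ℝ) ≤ k + 1 + |φ| := by linarith
      have a2 : L * vT ≤ L ^ 3 * (k + 1 + |φ|) :=
        mul_le_mul hLL3 a1 hvT0 (by positivity)
      linarith
    have t4 : C * lam ^ 3 * ((k : ℝ) + 1 + max 0 ((f : ℝ) / 2 - V.card))
        ≤ 64 * C * L ^ 3 * (k + 1 + |φ|) := by
      have a1 : C * lam ^ 3 ≤ 64 * C * L ^ 3 := by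
        calc C * lam ^ 3 ≤ C * (64 * L ^ 3) := mul_le_mul_of_nonneg_left hlam3 hC.le
          _ = 64 * C * L ^ 3 := by ring
      exact mul_le_mul a1 (by linarith) (by positivity) (by positivity)
    have t5 : (vo : ℝ) * ell - (f : ℝ) * (ell / 2) = φ * ell := by rw [hφ]; ring
    rw [hE, hDd]
    linarith [t1, t2, t3, t4, t5]
  -- assemble
  have hfin : Real.exp (4 * L * vT + (V.card : ℝ) * Real.log Γ + E
      + (f : ℝ) * (Real.log c - ell / 2) + (vo : ℝ) * ell + (vT : ℝ) * L)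
      ≤ Real.exp (-(L ^ 4 / 2)) + Real.exp (-(ell / 8)) := by
    rcases hXb with hh | hh
    · exact (Real.exp_le_exp.2 (hX.trans hh)).trans (by linarith [Real.exp_pos (-(ell / 8))])
    · exact (Real.exp_le_exp.2 (hX.trans hh)).trans (by linarith [Real.exp_pos (-(L ^ 4 / 2))])
  have hLpos : 0 < L := by linarith
  calc ((fams V f k).card : ℝ) * (c / Real.sqrt n) ^ f
      ≤ ((V.card.factorial : ℝ) * Γ ^ V.card * Real.exp E) * (c / Real.sqrt n) ^ f := by
        refine mul_le_mul_of_nonneg_right s1 (by positivity)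
    _ ≤ (((vo.factorial : ℝ) * Real.exp (4 * L * vT)) * Γ ^ V.card * Real.exp E)
          * (c / Real.sqrt n) ^ f := by
        gcongr
    _ = ((vo.factorial : ℝ) / (n : ℝ) ^ vo * (1 / L ^ vT)) * (Real.exp (4 * L * vT)
          * Real.exp ((V.card : ℝ) * Real.log Γ) * Real.exp E
          * Real.exp ((f : ℝ) * (Real.log c - ell / 2)) * (n : ℝ) ^ vo * L ^ vT) := by
        rw [s3, s4]
        field_simp
    _ ≤ ((vo.factorial : ℝ) / (n : ℝ) ^ vo * (1 / L ^ vT)) * (Real.exp (4 * L * vT)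
          * Real.exp ((V.card : ℝ) * Real.log Γ) * Real.exp E
          * Real.exp ((f : ℝ) * (Real.log c - ell / 2)) * (n : ℝ) ^ vo * Real.exp ((vT : ℝ) * L)) := by
        gcongr
    _ = wV Ts L V * Real.exp (4 * L * vT + (V.card : ℝ) * Real.log Γ + E
          + (f : ℝ) * (Real.log c - ell / 2) + (vo : ℝ) * ell + (vT : ℝ) * L) := by
        rw [s5, ← Real.exp_add, ← Real.exp_add, ← Real.exp_add, ← Real.exp_add, ← Real.exp_add,
          ← s5]
        rfl
    _ ≤ wV Ts L V * (Real.exp (-(L ^ 4 / 2)) + Real.exp (-(ell / 8))) := by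
        refine mul_le_mul_of_nonneg_left hfin ?_
        unfold wV
        positivity

theorem bad_union {c Γ eta C : ℝ} (h : FMHyp c Γ eta C) {n N : ℕ} {T Ts : Finset (Fin n)}
    {L ell : ℝ} (hn : 1 ≤ n) (hell : ell = Real.log n) (hL : L = Real.log ell) (hL1 : 2 ≤ L)
    (hN : (N : ℝ) ≤ ell ^ 3) (hTs : (Ts.card : ℝ) ≤ L)
    (hD : 8 * ((5 + Real.log Γ + 64 * C) * L ^ 3) ≤ L ^ 4)
    (hDe : 16 * ((5 + Real.log Γ + 64 * C) * L ^ 3) ≤ ell) (K : ℕ) (hK : (1 + ell) * N ≤ K) :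
    Pr (tri n) (c / Real.sqrt n) (Bad T Ts ell eta (L ^ 4) N)
      ≤ (N * (K + 1)) * ((3 * N + 1) ^ 2
        * (Real.exp (-(L ^ 4 / 2)) + Real.exp (-(ell / 8)))) := by
  classical
  obtain ⟨hp0, hp1⟩ := p_range h.c_pos h.c_le hn
  have he := h.eta_pos
  have hL4 : (1 : ℝ) ≤ L ^ 4 := one_le_pow₀ (by linarith)
  have hell0 : 0 ≤ ell := by
    refine le_trans ?_ hDe
    have := h.G_ge
    have := Real.log_nonneg this
    have := h.C_pos
    positivity
  set I : Finset (Finset (Fin n) × (ℕ × ℕ)) :=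
    ((univ : Finset (Finset (Fin n))) ×ˢ ((Icc 1 N) ×ˢ (range (K + 1)))).filter
      (fun i => i.1.card ≤ 3 * N ∧ (i.1 ∩ Ts).card ≤ i.2.2 ∧
        2 * (((i.1 \ Ts).card : ℝ) - (i.2.1 : ℝ) / 2) * ell < eta * i.2.1 - L ^ 4 * i.2.2 ∧
        ¬ ((i.2.2 : ℝ) = 0 ∧ ((i.1 \ Ts).card : ℝ) - (i.2.1 : ℝ) / 2 = 0)) with hI
  set eps := Real.exp (-(L ^ 4 / 2)) + Real.exp (-(ell / 8)) with heps
  have heps0 : 0 ≤ eps := by positivity
  have hw0 : ∀ V, 0 ≤ wV Ts L V := fun V => by unfold wV; positivity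
  have h1 : Pr (tri n) (c / Real.sqrt n) (Bad T Ts ell eta (L ^ 4) N)
      ≤ ∑ i ∈ I, ∑ Z ∈ fams i.1 i.2.1 i.2.2, (c / Real.sqrt n) ^ Z.card := by
    refine Pr_le_sum_fam2 hp0 hp1 _ I (fun i => fams i.1 i.2.1 i.2.2)
      (fun i _ Z hZ => fams_sub hZ) ?_
    rintro Y hY ⟨Z, hZY, hne, hconn, -, hZN, hnz, hineq⟩
    have hfam : IsFam Z := fun s hs => by
      have := hY (hZY hs)
      unfold tri at this
      simpa using this
    have hPh : ((PhT2 Ts Z : ℤ) : ℝ) = 2 * ((verts Z \ Ts).card : ℝ) - (Z.card : ℝ) := by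
      unfold PhT2; push_cast; ring
    have hZ1 : 1 ≤ Z.card := Finset.card_pos.2 hne
    have hZr : (1 : ℝ) ≤ Z.card := by exact_mod_cast hZ1
    have hZNr : (Z.card : ℝ) ≤ N := by exact_mod_cast hZN
    have hkK : complT Ts Z ≤ K := by
      have a1 : L ^ 4 * (complT Ts Z : ℝ) < (1 + ell) * Z.card := by
        rw [hPh] at hineq
        have a2 : 0 ≤ ell * ((verts Z \ Ts).card : ℝ) := by positivity
        have a3 : eta * (Z.card : ℝ) ≤ Z.card := by
          have := h.eta_le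
          nlinarith
        nlinarith
      have a2 : (complT Ts Z : ℝ) ≤ L ^ 4 * (complT Ts Z : ℝ) := by
        have : (0 : ℝ) ≤ complT Ts Z := Nat.cast_nonneg _
        nlinarith
      have a3 : (complT Ts Z : ℝ) ≤ K := by
        have : (1 + ell) * (Z.card : ℝ) ≤ (1 + ell) * N :=
          mul_le_mul_of_nonneg_left hZNr (by linarith)
        linarith
      exact_mod_cast a3
    refine ⟨(verts Z, (Z.card, complT Ts Z)), ?_, Z, ?_, hZY⟩
    · rw [hI, mem_filter, mem_product, mem_product, mem_Icc, mem_range]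
      refine ⟨⟨mem_univ _, ⟨hZ1, hZN⟩, Nat.lt_succ_of_le hkK⟩, ?_, vT_le_complT Ts Z, ?_, ?_⟩
      · exact (verts_card_le hfam).trans (Nat.mul_le_mul_left 3 hZN)
      · simp only
        rw [hPh] at hineq
        nlinarith
      · simp only
        rintro ⟨b1, b2⟩
        apply hnz
        refine ⟨by exact_mod_cast b1, ?_⟩
        have : ((PhT2 Ts Z : ℤ) : ℝ) = 0 := by rw [hPh]; linarith
        exact_mod_cast this
    · rw [mem_fams]
      exact ⟨hfam, hconn, rfl, rfl, compl_le_complT Ts Z⟩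
  refine h1.trans ?_
  have h2 : ∀ i ∈ I, ∑ Z ∈ fams i.1 i.2.1 i.2.2, (c / Real.sqrt n) ^ Z.card
      ≤ wV Ts L i.1 * eps := by
    intro i hi
    rw [hI, mem_filter, mem_product, mem_product, mem_Icc, mem_range] at hi
    obtain ⟨⟨-, ⟨hf1, hfN⟩, -⟩, c1, c2, c3, c4⟩ := hi
    rw [sum_fams_le]
    exact term_bound h hn hell hL hL1 hN hf1 hfN c1 c2 rfl hD hDe c3 c4
  refine (Finset.sum_le_sum h2).trans ?_
  have h3 : ∑ i ∈ I, wV Ts L i.1 * eps
      ≤ ∑ i ∈ ((univ : Finset (Finset (Fin n))).filter (fun V => V.card ≤ 3 * N)) ×ˢ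
          ((Icc 1 N) ×ˢ (range (K + 1))), wV Ts L i.1 * eps := by
    refine Finset.sum_le_sum_of_subset_of_nonneg ?_ (fun i _ _ => mul_nonneg (hw0 _) heps0)
    intro i hi
    rw [hI, mem_filter, mem_product, mem_product] at hi
    rw [mem_product, mem_product, mem_filter]
    exact ⟨⟨hi.1.1, hi.2.1⟩, hi.1.2⟩
  refine h3.trans ?_
  rw [Finset.sum_product]
  simp only [Finset.sum_const, card_product, Nat.card_Icc, card_range, nsmul_eq_mul]
  rw [← Finset.mul_sum, ← Finset.sum_mul]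
  have h4 := wsum hn Ts (by linarith : (0 : ℝ) < L) hTs (3 * N)
  push_cast at h4 ⊢
  refine mul_le_mul_of_nonneg_left ?_ (by positivity)
  exact mul_le_mul_of_nonneg_right h4 heps0

theorem bad_numeric (C3 : ℝ) : ∀ᶠ ell : ℝ in Filter.atTop,
    2 ≤ Real.log ell ∧ 8 * (C3 * Real.log ell ^ 3) ≤ Real.log ell ^ 4 ∧
    16 * (C3 * Real.log ell ^ 3) ≤ ell ∧ 1 ≤ ell ∧
    128 * ell ^ 15 * Real.exp (-(Real.log ell ^ 4 / 2)) ≤ 1 ∧
    128 * ell ^ 15 * Real.exp (-(ell / 8)) ≤ 1 := by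
  obtain ⟨K, hK, hlog⟩ := log_cube_le (16 * (|C3| + 1)) (1 / 2) (by positivity) (by norm_num)
  have h1 : ∀ᶠ ell : ℝ in Filter.atTop, max 4 (8 * C3) ≤ Real.log ell :=
    Real.tendsto_log_atTop.eventually_ge_atTop _
  have h2 : ∀ᶠ ell : ℝ in Filter.atTop, max 1 (2 * K) ≤ ell := Filter.eventually_ge_atTop _
  have h3 : ∀ᶠ ell : ℝ in Filter.atTop, 128 * ell ^ 15 * Real.exp (-(ell / 8)) ≤ 1 := by
    have ht := Real.tendsto_pow_mul_exp_neg_atTop_nhds_zero 15
    have ht2 : Filter.Tendsto (fun x : ℝ => x / 8) Filter.atTop Filter.atTop :=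
      Filter.tendsto_id.atTop_div_const (by norm_num)
    have ht3 := ht.comp ht2
    have ht4 : Filter.Tendsto (fun x : ℝ => 128 * 8 ^ 15 * ((x / 8) ^ 15 * Real.exp (-(x / 8))))
        Filter.atTop (nhds (128 * 8 ^ 15 * 0)) := ht3.const_mul _
    rw [mul_zero] at ht4
    have := ht4.eventually (ge_mem_nhds (show (0 : ℝ) < 1 by norm_num))
    filter_upwards [this] with x hx
    refine le_trans (le_of_eq ?_) hx
    rw [div_pow]; ring
  filter_upwards [h1, h2, h3] with ell a1 a2 a3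
  have b1 : 4 ≤ Real.log ell := (le_max_left _ _).trans a1
  have b2 : 8 * C3 ≤ Real.log ell := (le_max_right _ _).trans a1
  have b3 : 1 ≤ ell := (le_max_left _ _).trans a2
  have b4 : 2 * K ≤ ell := (le_max_right _ _).trans a2
  have b5 : (0 : ℝ) ≤ Real.log ell ^ 3 := by positivity
  refine ⟨by linarith, ?_, ?_, b3, ?_, a3⟩
  · calc 8 * (C3 * Real.log ell ^ 3) = (8 * C3) * Real.log ell ^ 3 := by ring
      _ ≤ Real.log ell * Real.log ell ^ 3 := mul_le_mul_of_nonneg_right b2 b5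
      _ = Real.log ell ^ 4 := by ring
  · have := hlog ell b3
    have c1 : C3 ≤ |C3| + 1 := by linarith [le_abs_self C3]
    have c2 : C3 * Real.log ell ^ 3 ≤ (|C3| + 1) * Real.log ell ^ 3 :=
      mul_le_mul_of_nonneg_right c1 b5
    linarith
  · set L := Real.log ell with hL
    have e1 : ell = Real.exp L := by rw [hL, Real.exp_log (by linarith)]
    have e2 : ell ^ 15 = Real.exp (15 * L) := by
      rw [e1, ← Real.exp_nat_mul]; norm_num
    have e3 : (128 : ℝ) ≤ Real.exp (17 * L) := by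
      have : (17 : ℝ) * L ≥ 68 := by linarith
      have h5 := Real.add_one_le_exp (17 * L / 2)
      have h6 : Real.exp (17 * L) = Real.exp (17 * L / 2) * Real.exp (17 * L / 2) := by
        rw [← Real.exp_add]; ring_nf
      rw [h6]
      nlinarith
    have e4 : 32 * L ≤ L ^ 4 / 2 := by
      have : L ^ 3 ≥ 64 := by
        calc L ^ 3 ≥ 4 ^ 3 := pow_le_pow_left₀ (by norm_num) b1 3
          _ = 64 := by norm_num
      nlinarith
    rw [e2]
    calc 128 * Real.exp (15 * L) * Real.exp (-(L ^ 4 / 2))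
        ≤ Real.exp (17 * L) * Real.exp (15 * L) * Real.exp (-(L ^ 4 / 2)) := by gcongr
      _ = Real.exp (32 * L - L ^ 4 / 2) := by
          rw [← Real.exp_add, ← Real.exp_add]; ring_nf
      _ ≤ 1 := by rw [Real.exp_le_one_iff]; linarith

end FirstM

open FirstM in
/-- 10.3: `ell = log n`, `L = log log n`, `Lam = L^4`, `N ≤ (log n)^3`, `|T0| ≤ L` -/
theorem bad_moment {c Γ eta C : ℝ} (h : FMHyp c Γ eta C) : ∃ n0 : ℕ, ∀ n : ℕ, n0 ≤ n →
    ∀ (N : ℕ), (N : ℝ) ≤ Real.log n ^ 3 → ∀ (T Ts : Finset (Fin n)), T ⊆ Ts →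
      (Ts.card : ℝ) ≤ Real.log (Real.log n) →
      Pr (tri n) (c / Real.sqrt n)
        (Bad T Ts (Real.log n) eta (Real.log (Real.log n) ^ 4) N) ≤ 1 / Real.log n ^ 2 := by
  have h1 : ∀ᶠ n : ℕ in Filter.atTop, _ :=
    (Real.tendsto_log_atTop.comp tendsto_natCast_atTop_atTop).eventually
      (bad_numeric (5 + Real.log Γ + 64 * C))
  obtain ⟨n0, hn0⟩ := Filter.eventually_atTop.1 h1
  refine ⟨max n0 1, fun n hn N hN T Ts _ hTs => ?_⟩
  have hn1 : 1 ≤ n := (le_max_right _ _).trans hn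
  obtain ⟨a1, a2, a3, a4, a5, a6⟩ := hn0 n ((le_max_left _ _).trans hn)
  simp only [Function.comp] at a1 a2 a3 a4 a5 a6
  set ell := Real.log n with hell
  set L := Real.log ell with hL
  have hN0 : (0 : ℝ) ≤ N := Nat.cast_nonneg N
  have hKe : (1 + ell) * N ≤ ((⌈(1 + ell) * N⌉₊ : ℕ) : ℝ) := Nat.le_ceil _
  have hKe2 : ((⌈(1 + ell) * N⌉₊ : ℕ) : ℝ) < (1 + ell) * N + 1 :=
    Nat.ceil_lt_add_one (by positivity)
  have hb := bad_union h hn1 hell hL a1 hN hTs a2 a3 ⌈(1 + ell) * N⌉₊ hKe (T := T)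
  refine hb.trans ?_
  set eps := Real.exp (-(L ^ 4 / 2)) + Real.exp (-(ell / 8)) with heps
  have heps0 : 0 ≤ eps := by positivity
  have e3 : (1 : ℝ) ≤ ell ^ 3 := one_le_pow₀ a4
  have e34 : ell ^ 3 ≤ ell ^ 4 := pow_le_pow_right₀ a4 (by norm_num)
  have e5 : ((⌈(1 + ell) * N⌉₊ : ℕ) : ℝ) + 1 ≤ 4 * ell ^ 4 := by
    have : (1 + ell) * N ≤ (1 + ell) * ell ^ 3 := mul_le_mul_of_nonneg_left hN (by linarith)
    nlinarith
  have e6 : (3 * (N : ℝ) + 1) ^ 2 ≤ 16 * ell ^ 6 := by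
    have : 3 * (N : ℝ) + 1 ≤ 4 * ell ^ 3 := by linarith
    calc (3 * (N : ℝ) + 1) ^ 2 ≤ (4 * ell ^ 3) ^ 2 := pow_le_pow_left₀ (by positivity) this 2
      _ = 16 * ell ^ 6 := by ring
  have e7 : (N : ℝ) * (((⌈(1 + ell) * N⌉₊ : ℕ) : ℝ) + 1) * ((3 * (N : ℝ) + 1) ^ 2 * eps)
      ≤ (ell ^ 3 * (4 * ell ^ 4)) * ((16 * ell ^ 6) * eps) := by
    gcongr
  refine e7.trans ?_
  have hell0 : 0 < ell := by linarith
  rw [le_div_iff₀ (by positivity)]
  have e8 : ell ^ 3 * (4 * ell ^ 4) * (16 * ell ^ 6 * eps) * ell ^ 2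
      = 64 * ell ^ 15 * Real.exp (-(L ^ 4 / 2)) + 64 * ell ^ 15 * Real.exp (-(ell / 8)) := by
    rw [heps]; ring
  rw [e8]
  linarith

end Pool.Agent.SC
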