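import Pool.Agent.Lib.MP_d0323d_co.ClosedFam
/-! Module GAUGE (1.7): a sphere minus a face fills its boundary. -/
set_option autoImplicit false
namespace Pool.Agent.SC
open Finset

section
variable {α : Type*} [DecidableEq α]

theorem edeg_eq_two {S : Finset (Finset α)} (hc : Closed S) {e : Finset α} (he : e ∈ edgs S) :
    edeg S e = 2 := by
  have h := mem_edgs.1 he
  rcases hc e h.1 with h0 | h0
  · have := edeg_pos.2 h.2
    omega
  · exact h0

theorem zmod2_ne_zero {x : ZMod 2} : x ≠ 0 ↔ x = 1 := by
  revert x; decide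

/-- a family of dual edges without vertices of dual degree one, except possibly `b`, contains a
dual cycle -/
theorem dual_cycle {S U : Finset (Finset α)} (b : Finset α)
    (hc : Closed S) (hU : U ⊆ edgs S) (hne : U.Nonempty)
    (h1 : ∀ s ∈ S, s ≠ b → (U.filter (fun e => e ⊆ s)).card ≠ 1) :
    ∃ c ⊆ U, c.Nonempty ∧ ∀ s ∈ S, Even (c.filter (fun e => e ⊆ s)).card := by
  classical
  set S' := S.filter (fun s => (U.filter (fun e => e ⊆ s)).Nonempty) with hS'
  have h2 : ∀ e ∈ U, edeg S e = 2 := fun e he => edeg_eq_two hc (hU he)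
  have hex : ∀ e : {e // e ∈ U}, ∃ s t : {s // s ∈ S'}, s ≠ t ∧
      ∀ r : {s // s ∈ S'}, (e.1 ⊆ r.1 ↔ s = r ∨ t = r) := by
    rintro ⟨e, he⟩
    obtain ⟨s, t, hst, h⟩ := Finset.card_eq_two.1 (h2 e he)
    have hs : s ∈ S.filter (fun s => e ⊆ s) := by rw [h]; simp
    have ht : t ∈ S.filter (fun s => e ⊆ s) := by rw [h]; simp
    rw [mem_filter] at hs ht
    refine ⟨⟨s, mem_filter.2 ⟨hs.1, ⟨e, mem_filter.2 ⟨he, hs.2⟩⟩⟩⟩,
      ⟨t, mem_filter.2 ⟨ht.1, ⟨e, mem_filter.2 ⟨he, ht.2⟩⟩⟩⟩, ?_, ?_⟩
    · intro h'; exact hst (Subtype.ext_iff.1 h')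
    · rintro ⟨r, hr⟩
      have hrS : r ∈ S := (mem_filter.1 hr).1
      have : e ⊆ r ↔ r ∈ S.filter (fun s => e ⊆ s) := by
        rw [mem_filter]; exact ⟨fun h => ⟨hrS, h⟩, fun h => h.2⟩
      simp only [Subtype.mk.injEq]
      rw [this, h, mem_insert, mem_singleton]
      constructor
      · rintro (h | h)
        · exact Or.inl h.symm
        · exact Or.inr h.symm
      · rintro (h | h)
        · exact Or.inl h.symm
        · exact Or.inr h.symm
  choose src tgt hne' hst using hex
  have hsum : ∑ s ∈ S', (U.filter (fun e => e ⊆ s)).card = 2 * U.card := by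
    have e1 : ∑ s ∈ S, (U.filter (fun e => e ⊆ s)).card = ∑ e ∈ U, edeg S e := by
      rw [dcount S U (fun s e => e ⊆ s)]
      rfl
    have e2 : ∑ s ∈ S', (U.filter (fun e => e ⊆ s)).card
        = ∑ s ∈ S, (U.filter (fun e => e ⊆ s)).card := by
      rw [hS', sum_filter]
      apply sum_congr rfl
      intro s _
      by_cases h : (U.filter (fun e => e ⊆ s)).Nonempty
      · rw [if_pos h]
      · rw [if_neg h]
        rw [not_nonempty_iff_eq_empty] at h
        rw [h, card_empty]
    rw [e2, e1, sum_congr rfl h2, sum_const, smul_eq_mul, mul_comm]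
  have hlow : 2 * S'.card ≤ 2 * U.card + 1 := by
    rw [← hsum]
    have e3 : ∑ s ∈ S', 2 ≤ ∑ s ∈ S', ((U.filter (fun e => e ⊆ s)).card + if s = b then 1 else 0) := by
      apply sum_le_sum
      intro s hs
      have hs2 := mem_filter.1 hs
      have hp := hs2.2.card_pos
      by_cases hsb : s = b
      · rw [if_pos hsb]; omega
      · rw [if_neg hsb]
        have := h1 s hs2.1 hsb
        omega
    rw [sum_const, smul_eq_mul, sum_add_distrib] at e3
    have e4 : ∑ s ∈ S', (if s = b then 1 else 0) ≤ 1 := by
      rw [sum_ite_eq']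
      split_ifs <;> simp
    omega
  have hle : S'.card ≤ U.card := by omega
  obtain ⟨e0, he0⟩ := hne
  have hS'ne : Nonempty {s // s ∈ S'} := ⟨src ⟨e0, he0⟩⟩
  have hrank := rank_cyc src tgt
  rw [Fintype.card_coe, Fintype.card_coe] at hrank
  have hcomp : 0 < Nat.card (Quot (adjM src tgt)) := by
    have : Finite (Quot (adjM src tgt)) := Finite.of_surjective _ (Quot.mk_surjective)
    have : Nonempty (Quot (adjM src tgt)) := ⟨Quot.mk _ hS'ne.some⟩
    exact Nat.card_pos
  have hpos : 0 < Module.finrank (ZMod 2) (LinearMap.ker (bdM src tgt)) := by omega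
  obtain ⟨⟨c0, hc0⟩, hc0ne⟩ := Module.finrank_pos_iff_exists_ne_zero.1 hpos
  have hc0ne' : c0 ≠ 0 := fun h => hc0ne (by simp [h])
  obtain ⟨e1, he1⟩ := Function.ne_iff.1 hc0ne'
  refine ⟨(univ.filter (fun e => c0 e = 1)).map (Function.Embedding.subtype _), ?_, ?_, ?_⟩
  · intro e he
    rw [mem_map] at he
    obtain ⟨x, _, rfl⟩ := he
    exact x.2
  · refine ⟨e1.1, ?_⟩
    rw [mem_map]
    exact ⟨e1, mem_filter.2 ⟨mem_univ _, zmod2_ne_zero.1 he1⟩, rfl⟩
  · intro s hs
    rw [filter_map, card_map]
    by_cases hs' : (U.filter (fun e => e ⊆ s)).Nonempty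
    · have hsS : s ∈ S' := mem_filter.2 ⟨hs, hs'⟩
      have hk := congrFun (LinearMap.mem_ker.1 hc0) ⟨s, hsS⟩
      simp only [bdM, LinearMap.coe_mk, AddHom.coe_mk, Pi.zero_apply] at hk
      rw [← ZMod.natCast_eq_zero_iff_even, ← hk]
      rw [card_eq_sum_ones, Nat.cast_sum, sum_filter, sum_filter]
      apply sum_congr rfl
      intro e _
      have hiff := hst e ⟨s, hsS⟩
      have hn := hne' e
      by_cases hce : c0 e = 1
      · rw [if_pos hce, hce, one_mul]
        by_cases hsub : e.1 ⊆ s
        · rw [if_pos (show ((fun e => e ⊆ s) ∘ ⇑(Function.Embedding.subtype fun e => e ∈ U)) e from hsub)]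
          rcases hiff.1 hsub with h | h
          · rw [if_pos h, if_neg (fun h' => hn (h.trans h'.symm))]; simp
          · rw [if_pos h, if_neg (fun h' => hn (h'.trans h.symm))]; simp
        · rw [if_neg (show ¬ ((fun e => e ⊆ s) ∘ ⇑(Function.Embedding.subtype fun e => e ∈ U)) e from hsub)]
          have := mt hiff.2 hsub
          push Not at this
          rw [if_neg this.1, if_neg this.2]; simp
      · rw [if_neg hce]
        have : c0 e = 0 := by
          by_contra h
          exact hce (zmod2_ne_zero.1 h)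
        rw [this, zero_mul]
    · rw [not_nonempty_iff_eq_empty] at hs'
      have : (univ.filter (fun e => c0 e = 1)).filter
          ((fun e => e ⊆ s) ∘ ⇑(Function.Embedding.subtype fun e => e ∈ U)) = ∅ := by
        rw [filter_eq_empty_iff]
        intro e _ hsub
        have : e.1 ∈ U.filter (fun e => e ⊆ s) := mem_filter.2 ⟨e.2, hsub⟩
        rw [hs'] at this
        simp at this
      rw [this]; simp

/-- an edge set meeting all members evenly meets all boundaries evenly -/
theorem even_inter_bdF {S c B : Finset (Finset α)} (hcS : c ⊆ edgs S) (hB : B ⊆ S)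
    (h : ∀ s ∈ S, Even (c.filter (fun e => e ⊆ s)).card) :
    Even (c.filter (fun e => e ∈ bdF B)).card := by
  have e1 : c.filter (fun e => e ∈ bdF B) = c.filter (fun e => Odd (edeg B e)) := by
    apply filter_congr
    intro e he
    rw [mem_bdF]
    exact ⟨fun h => h.2, fun h => ⟨(mem_edgs.1 (hcS he)).1, h⟩⟩
  rw [e1, card_odd_parity]
  have e2 : ∑ e ∈ c, edeg B e = ∑ s ∈ B, (c.filter (fun e => e ⊆ s)).card := by
    unfold edeg
    rw [dcount c B (fun e s => e ⊆ s)]
  rw [e2]
  exact Finset.even_sum _ (fun s hs => h s (hB hs))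

/-- duality on a sphere: an edge set meeting all faces evenly is a cut -/
theorem sphere_cut {S c : Finset (Finset α)} (hS : IsSphere S) (hcS : c ⊆ edgs S)
    (h : ∀ s ∈ S, Even (c.filter (fun e => e ⊆ s)).card) :
    ∃ W : α → Prop, ∀ x y : α, ({x, y} : Finset α) ∈ edgs S →
      (({x, y} : Finset α) ∈ c ↔ ¬ (W x ↔ W y)) := by
  classical
  have hex : ∀ e : {e // e ∈ edgs S}, ∃ x y : {x // x ∈ verts S}, x ≠ y ∧
      e.1 = {x.1, y.1} := by
    rintro ⟨e, he⟩
    obtain ⟨h2, s, hs, hes⟩ := mem_edgs.1 he
    obtain ⟨x, y, hxy, rfl⟩ := Finset.card_eq_two.1 h2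
    refine ⟨⟨x, mem_verts.2 ⟨s, hs, hes (by simp)⟩⟩, ⟨y, mem_verts.2 ⟨s, hs, hes (by simp)⟩⟩,
      fun h => hxy (Subtype.ext_iff.1 h), rfl⟩
  choose src tgt hne hst using hex
  have hmem : ∀ (e : {e // e ∈ edgs S}) (v : {x // x ∈ verts S}), v.1 ∈ e.1 ↔ src e = v ∨ tgt e = v := by
    intro e v
    rw [hst e, mem_insert, mem_singleton]
    constructor
    · rintro (h | h)
      · exact Or.inl (Subtype.ext h.symm)
      · exact Or.inr (Subtype.ext h.symm)
    · rintro (h | h)
      · exact Or.inl (Subtype.ext_iff.1 h.symm)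
      · exact Or.inr (Subtype.ext_iff.1 h.symm)
  obtain ⟨W, hW⟩ := cut_of_orth src tgt (fun e => if e.1 ∈ c then 1 else 0) (by
    intro z hz
    set A : Finset (Finset α) := (univ.filter (fun e => z e = 1)).map (Function.Embedding.subtype _)
      with hA
    have hAS : A ⊆ edgs S := by
      intro e he
      rw [hA, mem_map] at he
      obtain ⟨x, _, rfl⟩ := he
      exact x.2
    have hAe : EvenSet A := by
      refine ⟨fun e he => (mem_edgs.1 (hAS he)).1, ?_⟩
      intro x
      by_cases hx : x ∈ verts S
      · have hk := congrFun hz ⟨x, hx⟩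
        simp only [bdM, LinearMap.coe_mk, AddHom.coe_mk, Pi.zero_apply] at hk
        rw [hA, filter_map, card_map, ← ZMod.natCast_eq_zero_iff_even, ← hk]
        rw [card_eq_sum_ones, Nat.cast_sum, sum_filter, sum_filter]
        apply sum_congr rfl
        intro e _
        have hiff := hmem e ⟨x, hx⟩
        have hn := hne e
        by_cases hce : z e = 1
        · rw [if_pos hce, hce, one_mul]
          by_cases hsub : x ∈ e.1
          · rw [if_pos (show ((fun e => x ∈ e) ∘ ⇑(Function.Embedding.subtype fun e => e ∈ edgs S)) e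
              from hsub)]
            rcases hiff.1 hsub with h | h
            · rw [if_pos h, if_neg (fun h' => hn (h.trans h'.symm))]; simp
            · rw [if_pos h, if_neg (fun h' => hn (h'.trans h.symm))]; simp
          · rw [if_neg (show ¬ ((fun e => x ∈ e) ∘ ⇑(Function.Embedding.subtype fun e => e ∈ edgs S)) e
              from hsub)]
            have := mt hiff.2 hsub
            push Not at this
            rw [if_neg this.1, if_neg this.2]; simp
        · rw [if_neg hce]
          have : z e = 0 := by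
            by_contra h
            exact hce (zmod2_ne_zero.1 h)
          rw [this, zero_mul]
      · have : A.filter (fun e => x ∈ e) = ∅ := by
          rw [filter_eq_empty_iff]
          intro e he hxe
          obtain ⟨_, s, hs, hes⟩ := mem_edgs.1 (hAS he)
          exact hx (mem_verts.2 ⟨s, hs, hes hxe⟩)
        rw [this]; simp
    obtain ⟨B, hBS, hB⟩ := sphere_span hS A hAe hAS
    have hev := even_inter_bdF hcS hBS h
    rw [hB] at hev
    have e5 : ∑ e, (if e.1 ∈ c then (1 : ZMod 2) else 0) * z e
        = (((c.filter (fun e => e ∈ A)).card : ℕ) : ZMod 2) := by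
      have e6 : c.filter (fun e => e ∈ A)
          = (univ.filter (fun e : {e // e ∈ edgs S} => e.1 ∈ c ∧ z e = 1)).map
            (Function.Embedding.subtype _) := by
        ext e
        rw [mem_filter, hA, mem_map, mem_map]
        constructor
        · rintro ⟨h1, x, hx, rfl⟩
          exact ⟨x, mem_filter.2 ⟨mem_univ _, h1, (mem_filter.1 hx).2⟩, rfl⟩
        · rintro ⟨x, hx, rfl⟩
          have := (mem_filter.1 hx).2
          exact ⟨this.1, x, mem_filter.2 ⟨mem_univ _, this.2⟩, rfl⟩
      rw [e6, card_map, card_eq_sum_ones, Nat.cast_sum, sum_filter]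
      apply sum_congr rfl
      intro e _
      by_cases h1 : e.1 ∈ c
      · by_cases h2 : z e = 1
        · simp [h1, h2]
        · have : z e = 0 := by
            by_contra h
            exact h2 (zmod2_ne_zero.1 h)
          simp [this]
      · simp [h1]
    rw [e5, ZMod.natCast_eq_zero_iff_even]
    exact hev)
  refine ⟨fun x => ∃ h : x ∈ verts S, W ⟨x, h⟩ = 1, ?_⟩
  intro x y hxy
  obtain ⟨h2, s, hs, hes⟩ := mem_edgs.1 hxy
  have hx : x ∈ verts S := mem_verts.2 ⟨s, hs, hes (by simp)⟩
  have hy : y ∈ verts S := mem_verts.2 ⟨s, hs, hes (by simp)⟩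
  have hW' := hW ⟨{x, y}, hxy⟩
  have hsx := (hmem ⟨{x, y}, hxy⟩ ⟨x, hx⟩).1 (by simp)
  have hsy := (hmem ⟨{x, y}, hxy⟩ ⟨y, hy⟩).1 (by simp)
  have hxny : x ≠ y := by
    rintro rfl
    simp at h2
  have hsum : (if ({x, y} : Finset α) ∈ c then (1 : ZMod 2) else 0) = W ⟨x, hx⟩ + W ⟨y, hy⟩ := by
    rw [hW']
    rcases hsx with h | h
    · rcases hsy with h' | h'
      · exact absurd (Subtype.ext_iff.1 (h.symm.trans h')) hxny
      · rw [h, h']
    · rcases hsy with h' | h'
      · rw [h, h', add_comm]
      · exact absurd (Subtype.ext_iff.1 (h.symm.trans h')) hxny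
  have k1 : (∃ h : x ∈ verts S, W ⟨x, h⟩ = 1) ↔ W ⟨x, hx⟩ = 1 := ⟨fun ⟨_, h⟩ => h, fun h => ⟨hx, h⟩⟩
  have k2 : (∃ h : y ∈ verts S, W ⟨y, h⟩ = 1) ↔ W ⟨y, hy⟩ = 1 := ⟨fun ⟨_, h⟩ => h, fun h => ⟨hy, h⟩⟩
  simp only [k1, k2]
  generalize W ⟨x, hx⟩ = a at hsum ⊢
  generalize W ⟨y, hy⟩ = b at hsum ⊢
  by_cases hcm : ({x, y} : Finset α) ∈ c
  · rw [if_pos hcm] at hsum
    simp only [hcm, true_iff]
    revert hsum
    revert a b
    decide
  · rw [if_neg hcm] at hsum
    simp only [hcm, false_iff, not_not]
    revert hsum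
    revert a b
    decide

theorem gauge_aux {G : Type*} [Group G] {S : Finset (Finset α)} {b : Finset α}
    (hS : IsSphere S) (hb : b ∈ S) : ∀ (m : ℕ) (g : α → α → G)
    (hinv : ∀ x y, ({x, y} : Finset α) ∈ edgs S → g y x = (g x y)⁻¹)
    (hf : ∀ x y z, ({x, y, z} : Finset α) ∈ S → ({x, y, z} : Finset α) ≠ b →
      g x y * g y z = g x z) (U : Finset (Finset α)) (hU : U ⊆ edgs S)
    (hUg : ∀ x y, ({x, y} : Finset α) ∈ edgs S → (({x, y} : Finset α) ∈ U ↔ g x y ≠ 1))
    (hm : U.card = m),
    ∀ x y z, ({x, y, z} : Finset α) = b → g x y * g y z = g x z := by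
  classical
  intro m
  induction m using Nat.strong_induction_on with
  | _ m ih =>
    intro g hinv hf U hU hUg hm x y z hxyz
    have pair_mem : ∀ {x y z : α}, ({x, y, z} : Finset α) ∈ S → ({x, y} : Finset α) ∈ edgs S ∧
        ({y, z} : Finset α) ∈ edgs S ∧ ({x, z} : Finset α) ∈ edgs S := by
      intro x y z hs
      have h3 := hS.1 _ hs
      have hxy : x ≠ y := by
        rintro rfl
        have : ({x, x, z} : Finset α).card ≤ 2 := by
          simp only [mem_insert, true_or, insert_eq_of_mem]; exact card_le_two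
        omega
      have hyz : y ≠ z := by
        rintro rfl
        have : ({x, y, y} : Finset α).card ≤ 2 := by
          simp only [mem_singleton, insert_eq_of_mem]; exact card_le_two
        omega
      have hxz : x ≠ z := by
        rintro rfl
        have h' : ({x, y, x} : Finset α) = {y, x} := by
          ext w; simp only [mem_insert, mem_singleton]; tauto
        have : ({x, y, x} : Finset α).card ≤ 2 := by
          rw [h']; exact card_le_two
        omega
      refine ⟨mem_edgs.2 ⟨card_pair hxy, _, hs, ?_⟩, mem_edgs.2 ⟨card_pair hyz, _, hs, ?_⟩,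
        mem_edgs.2 ⟨card_pair hxz, _, hs, ?_⟩⟩
      · intro w hw; simp only [mem_insert, mem_singleton] at hw ⊢; tauto
      · intro w hw; simp only [mem_insert, mem_singleton] at hw ⊢; tauto
      · intro w hw; simp only [mem_insert, mem_singleton] at hw ⊢; tauto
    rcases U.eq_empty_or_nonempty with hUe | hUne
    · have hs : ({x, y, z} : Finset α) ∈ S := by rw [hxyz]; exact hb
      obtain ⟨p1, p2, p3⟩ := pair_mem hs
      have one : ∀ x y, ({x, y} : Finset α) ∈ edgs S → g x y = 1 := by
        intro x y h
        by_contra hne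
        have := (hUg x y h).2 hne
        rw [hUe] at this
        simp at this
      rw [one _ _ p1, one _ _ p2, one _ _ p3, one_mul]
    · -- a dual cycle inside `U`
      obtain ⟨c, hcU, hcne, hce⟩ := dual_cycle b hS.2.1 hU hUne (by
        intro s hs hsb h1
        obtain ⟨e, he⟩ := card_eq_one.1 h1
        have heU : e ∈ U.filter (fun e => e ⊆ s) := by rw [he]; simp
        rw [mem_filter] at heU
        obtain ⟨p, q, hpq, rfl⟩ := Finset.card_eq_two.1 (mem_edgs.1 (hU heU.1)).1
        have h3 : (s \ {p, q}).card = 1 := by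
          rw [card_sdiff_of_subset heU.2, hS.1 s hs, card_pair hpq]
        obtain ⟨r, hr⟩ := card_eq_one.1 h3
        have hsr : s = {p, q, r} := by
          have : s = {p, q} ∪ (s \ {p, q}) := (union_sdiff_of_subset heU.2).symm
          rw [this, hr]
          ext w; simp only [mem_union, mem_insert, mem_singleton]; tauto
        subst hsr
        obtain ⟨p1, p2, p3⟩ := pair_mem hs
        have hrp : r ≠ p ∧ r ≠ q := by
          have : r ∈ ({p, q, r} : Finset α) \ {p, q} := by rw [hr]; simp
          simp only [mem_sdiff, mem_insert, mem_singleton, not_or] at this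
          exact this.2
        have hn : ∀ f ∈ U, f ⊆ ({p, q, r} : Finset α) → f = {p, q} := by
          intro f hfU hfs
          have : f ∈ U.filter (fun e => e ⊆ ({p, q, r} : Finset α)) := mem_filter.2 ⟨hfU, hfs⟩
          rw [he] at this
          exact mem_singleton.1 this
        have g2 : g q r = 1 := by
          by_contra hne
          have := hn _ ((hUg q r p2).2 hne) (by
            intro w hw; simp only [mem_insert, mem_singleton] at hw ⊢; tauto)
          have hrm : r ∈ ({p, q} : Finset α) := by rw [← this]; simp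
          simp only [mem_insert, mem_singleton] at hrm
          tauto
        have g3 : g p r = 1 := by
          by_contra hne
          have := hn _ ((hUg p r p3).2 hne) (by
            intro w hw; simp only [mem_insert, mem_singleton] at hw ⊢; tauto)
          have hrm : r ∈ ({p, q} : Finset α) := by rw [← this]; simp
          simp only [mem_insert, mem_singleton] at hrm
          tauto
        have := hf p q r hs hsb
        rw [g2, g3, mul_one] at this
        exact (hUg p q p1).1 heU.1 this)
      obtain ⟨W, hW⟩ := sphere_cut hS (hcU.trans hU) hce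
      obtain ⟨e0, he0⟩ := hcne
      obtain ⟨p0, q0, hpq0, he0'⟩ := Finset.card_eq_two.1 (mem_edgs.1 (hU (hcU he0))).1
      subst he0'
      -- wlog `W p0`, not `W q0`
      have hex : ∃ p q : α, ({p, q} : Finset α) ∈ c ∧ W p ∧ ¬ W q := by
        have h := (hW p0 q0 (hU (hcU he0))).1 he0
        by_cases hp : W p0
        · exact ⟨p0, q0, he0, hp, fun hq => h ⟨fun _ => hq, fun _ => hp⟩⟩
        · refine ⟨q0, p0, by rw [pair_comm]; exact he0, ?_, hp⟩
          by_contra hq
          exact h ⟨fun h' => absurd h' hp, fun h' => absurd h' hq⟩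
      obtain ⟨p, q, hpqc, hWp, hWq⟩ := hex
      have hpqE : ({p, q} : Finset α) ∈ edgs S := hU (hcU hpqc)
      set k : G := (g p q)⁻¹ with hk
      set h : α → G := fun v => if W v then k else 1 with hh
      set g' : α → α → G := fun u v => h u * g u v * (h v)⁻¹ with hg'
      have hinv' : ∀ x y, ({x, y} : Finset α) ∈ edgs S → g' y x = (g' x y)⁻¹ := by
        intro x y hxy
        simp only [hg', hinv x y hxy]
        group
      have hf' : ∀ x y z, ({x, y, z} : Finset α) ∈ S → ({x, y, z} : Finset α) ≠ b →
          g' x y * g' y z = g' x z := by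
        intro x y z hs hsb
        simp only [hg']
        rw [← hf x y z hs hsb]
        group
      have key : ∀ x y z, g' x y * g' y z = g' x z → g x y * g y z = g x z := by
        intro x y z hk
        simp only [hg'] at hk
        have e1 : h x * g x y * (h y)⁻¹ * (h y * g y z * (h z)⁻¹) = h x * (g x y * g y z) * (h z)⁻¹ := by
          group
        rw [e1] at hk
        exact mul_left_cancel (mul_right_cancel hk)
      apply key
      -- the new set
      set U' : Finset (Finset α) := (edgs S).filter (fun e => ∃ u v, e = {u, v} ∧ g' u v ≠ 1) with hU'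
      have hU'g : ∀ x y, ({x, y} : Finset α) ∈ edgs S → (({x, y} : Finset α) ∈ U' ↔ g' x y ≠ 1) := by
        intro x y hxy
        rw [hU', mem_filter]
        constructor
        · rintro ⟨_, u, v, huv, hg⟩
          have hxny : x ≠ y := by
            rintro rfl
            have := (mem_edgs.1 hxy).1
            simp at this
          have hx : x ∈ ({u, v} : Finset α) := by rw [← huv]; simp
          have hy : y ∈ ({u, v} : Finset α) := by rw [← huv]; simp
          simp only [mem_insert, mem_singleton] at hx hy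
          rcases hx with rfl | rfl
          · rcases hy with rfl | rfl
            · exact absurd rfl hxny
            · exact hg
          · rcases hy with rfl | rfl
            · intro h1
              apply hg
              rw [hinv' x y hxy, h1, inv_one]
            · exact absurd rfl hxny
        · intro hg
          exact ⟨hxy, x, y, rfl, hg⟩
      have hsub : U' ⊆ U := by
        intro e he
        rw [hU', mem_filter] at he
        obtain ⟨heE, u, v, rfl, hg⟩ := he
        by_contra hnU
        have hguv : g u v = 1 := by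
          by_contra hne
          exact hnU ((hUg u v heE).2 hne)
        have hnc : ({u, v} : Finset α) ∉ c := fun hc => hnU (hcU hc)
        have hWuv : W u ↔ W v := by
          by_contra hcon
          exact hnc ((hW u v heE).2 hcon)
        apply hg
        simp only [hg', hh, hguv, mul_one]
        by_cases hWu : W u
        · rw [if_pos hWu, if_pos (hWuv.1 hWu)]; group
        · rw [if_neg hWu, if_neg (fun h => hWu (hWuv.2 h))]; group
      have hss : U' ⊂ U := by
        refine ⟨hsub, fun hcon => ?_⟩
        have h1 := hcon (hcU hpqc)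
        have h2 := (hU'g p q hpqE).1 h1
        apply h2
        simp only [hg', hh, if_pos hWp, if_neg hWq, hk]
        group
      exact ih U'.card (by rw [← hm]; exact card_lt_card hss) g' hinv' hf' U' (filter_subset _ _)
        hU'g rfl x y z hxyz

theorem gauge {α : Type*} [DecidableEq α] {G : Type*} [Group G] {S : Finset (Finset α)} {b : Finset α}
    (hS : IsSphere S) (hb : b ∈ S) (g : α → α → G)
    (hinv : ∀ x y, ({x, y} : Finset α) ∈ edgs S → g y x = (g x y)⁻¹)
    (hf : ∀ x y z, ({x, y, z} : Finset α) ∈ S → ({x, y, z} : Finset α) ≠ b →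
      g x y * g y z = g x z) :
    ∀ x y z, ({x, y, z} : Finset α) = b → g x y * g y z = g x z := by
  classical
  refine gauge_aux hS hb _ g hinv hf ((edgs S).filter (fun e => ∃ u v, e = {u, v} ∧ g u v ≠ 1))
    (filter_subset _ _) ?_ rfl
  intro x y hxy
  rw [mem_filter]
  constructor
  · rintro ⟨_, u, v, huv, hg⟩
    have hxny : x ≠ y := by
      rintro rfl
      have := (mem_edgs.1 hxy).1
      simp at this
    have hx : x ∈ ({u, v} : Finset α) := by rw [← huv]; simp
    have hy : y ∈ ({u, v} : Finset α) := by rw [← huv]; simp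
    simp only [mem_insert, mem_singleton] at hx hy
    rcases hx with rfl | rfl
    · rcases hy with rfl | rfl
      · exact absurd rfl hxny
      · exact hg
    · rcases hy with rfl | rfl
      · intro h1
        apply hg
        rw [hinv x y hxy, h1, inv_one]
      · exact absurd rfl hxny
  · intro hg
    exact ⟨hxy, x, y, rfl, hg⟩

end

/-! ### the frozen group -/

theorem gg_mul_inv {n : ℕ} (F : Finset (Finset (Fin n))) (i j : Fin n) : gg F j i = (gg F i j)⁻¹ := by
  have h : PresentedGroup.mk (frels n F) (FreeGroup.of (i, j) * FreeGroup.of (j, i)) = 1 :=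
    PresentedGroup.one_of_mem (Or.inr (Or.inl ⟨i, j, rfl⟩))
  rw [map_mul] at h
  exact (inv_eq_of_mul_eq_one_right h).symm

theorem gg_zero {n : ℕ} (F : Finset (Finset (Fin n))) (i j : Fin n) (hi : i.val = 0) :
    gg F i j = 1 :=
  PresentedGroup.one_of_mem (Or.inr (Or.inr (Or.inl ⟨i, j, hi, rfl⟩)))

theorem gg_tri {n : ℕ} {F : Finset (Finset (Fin n))} {i j k : Fin n}
    (h : ({i, j, k} : Finset (Fin n)) ∈ F) : gg F i j * gg F j k = gg F i k := by
  have h : PresentedGroup.mk (frels n F)
      (FreeGroup.of (i, j) * FreeGroup.of (j, k) * (FreeGroup.of (i, k))⁻¹) = 1 :=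
    PresentedGroup.one_of_mem (Or.inr (Or.inr (Or.inr ⟨i, j, k, h, rfl⟩)))
  rw [map_mul, map_mul, map_inv] at h
  exact mul_inv_eq_one.1 h

/-- a disc in `F` with boundary `{0,x,y}` kills `g(x,y)` -/
theorem gg_one_of_disc {n : ℕ} {F : Finset (Finset (Fin n))} {D : Finset (Finset (Fin n))}
    {o x y : Fin n} (ho : o.val = 0) (hb : ({o, x, y} : Finset (Fin n)).card = 3)
    (hD : IsDisc ({o, x, y} : Finset (Fin n)) D) (hDF : D ⊆ F) : gg F x y = 1 := by
  have h := gauge hD.2 (mem_insert_self _ _) (gg F) (fun i j _ => gg_mul_inv F i j)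
    (fun i j k hs hne => gg_tri (hDF ((mem_insert.1 hs).resolve_left hne))) o x y rfl
  rw [gg_zero F o x ho, gg_zero F o y ho, one_mul] at h
  exact h

end Pool.Agent.SC
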