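import Pool.Agent.Lib.MP_d0323d_co.Defs
/-! Module GLOB (8.8), abstract numerical form; and LOC (7.4) abstract numerical form. -/
set_option autoImplicit false
namespace Pool.Agent.SC

/-- Numerical lemma: `s/8 ≥ s/20 + 4 sqrt s` for `s ≥ 2845`. -/
theorem glob_num1 (s : ℕ) (hs : 2845 ≤ s) :
    (s : ℝ) / 20 + 4 * Real.sqrt s ≤ (s : ℝ) / 8 := by
  have h1 : (2845 : ℝ) ≤ s := by exact_mod_cast hs
  have hq : Real.sqrt s * Real.sqrt s = s := Real.mul_self_sqrt (by linarith)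
  have hq0 : 0 ≤ Real.sqrt s := Real.sqrt_nonneg _
  have hq1 : (160 : ℝ) / 3 ≤ Real.sqrt s := by
    apply Real.le_sqrt_of_sq_le
    norm_num
    linarith
  nlinarith

/-- Numerical core of the global induction: all quantities real. -/
theorem glob_num2 (s q x : ℝ) (hs : 28450 ≤ s) (hq0 : 0 ≤ q) (hq : q * q = s)
    (s1 s2 q1 q2 x1 x2 : ℝ) (hq10 : 0 ≤ q1) (hq20 : 0 ≤ q2) (hq1 : q1 * q1 = s1)
    (hq2 : q2 * q2 = s2) (hsum : s ≤ s1 + s2) (h1 : s / 10 ≤ s1) (h2 : s / 10 ≤ s2)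
    (hx1 : s1 / 20 + 4 * q1 ≤ x1) (hx2 : s2 / 20 + 4 * q2 ≤ x2) (hx : x1 + x2 ≤ x + q) :
    s / 20 + 4 * q ≤ x := by
  have hs0 : 0 ≤ s := by linarith
  -- s1 * s2 ≥ 0.09 s^2
  have hprod : 0.09 * s ^ 2 ≤ s1 * s2 := by
    by_cases h : s1 ≤ 0.9 * s
    · have : s - s1 ≤ s2 := by linarith
      have h3 : s1 * (s - s1) ≤ s1 * s2 := by
        apply mul_le_mul_of_nonneg_left this; linarith
      nlinarith [mul_nonneg (sub_nonneg.2 h1) (sub_nonneg.2 h)]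
    · push Not at h
      nlinarith [mul_nonneg (sub_nonneg.2 h.le) (sub_nonneg.2 h2)]
  have hqq : 0.3 * s ≤ q1 * q2 := by
    have h4 : (0.3 * s) ^ 2 ≤ (q1 * q2) ^ 2 := by
      have : (q1 * q2) ^ 2 = s1 * s2 := by rw [← hq1, ← hq2]; ring
      rw [this]; nlinarith
    exact (sq_le_sq₀ (by positivity) (by positivity)).1 h4
  have hsq : (1.26 * q) ^ 2 ≤ (q1 + q2) ^ 2 := by nlinarith
  have h5 : 1.26 * q ≤ q1 + q2 := (sq_le_sq₀ (by positivity) (by positivity)).1 hsq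
  nlinarith

theorem glob_num3 (R s q x : ℝ) (hR : 100 ≤ R) (hs : 28450 ≤ s) (hq0 : 0 ≤ q) (hq : q * q = s)
    (s1 s2 q2 x1 x2 : ℝ) (hq20 : 0 ≤ q2)
    (hq2 : q2 * q2 = s2) (hsum : s ≤ s1 + s2) (h1 : s1 ≤ s / 10)
    (hx1 : x / 4 - 1 / R ≤ x1) (hx2 : s2 / 20 + 4 * q2 ≤ x2) (hx : x1 + x2 ≤ x + q) :
    s / 20 + 4 * q ≤ x := by
  have hs0 : 0 ≤ s := by linarith
  have h2 : 0.9 * s ≤ s2 := by linarith
  have hq' : 168 ≤ q := by nlinarith
  have h3 : (0.948 * q) ^ 2 ≤ q2 ^ 2 := by nlinarith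
  have h4 : 0.948 * q ≤ q2 := (sq_le_sq₀ (by positivity) (by positivity)).1 h3
  have h5 : 1 / R ≤ 1 / 100 := one_div_le_one_div_of_le (by norm_num) hR
  nlinarith

/-- 8.8: `P w s` = P(w)=s. -/
theorem glob_abstract {Ω : Type*} (P : Ω → ℕ → Prop) (ln : Ω → ℕ) (r : ℕ) (hr : 100 ≤ r)
    (huniq : ∀ w s s', P w s → P w s' → s = s')
    (hloc : ∀ w s, P w s → 2845 ≤ s → s ≤ 28450 → (s : ℝ) / 8 ≤ (ln w : ℝ) / r)
    (hpeel : ∀ w s, 1 ≤ s → P w s → ∃ w', P w' (s - 1) ∧ ln w' ≤ ln w + r)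
    (hcut : ∀ w s, 1 ≤ s → P w s → ∃ (w1 w2 : Ω) (s1 s2 l1 l2 c : ℕ), P w1 s1 ∧ P w2 s2 ∧
      s1 ≤ s ∧ s2 ≤ s ∧ s ≤ s1 + s2 ∧ ln w / 4 ≤ l1 ∧ ln w / 4 ≤ l2 ∧ l1 + l2 = ln w ∧
      ln w1 = l1 + c ∧ ln w2 = l2 + c ∧ 4 * c ^ 2 ≤ r ^ 2 * s) :
    ∀ w s, P w s → 2845 ≤ s → (s : ℝ) / 20 + 4 * Real.sqrt s ≤ (ln w : ℝ) / r := by
  -- strong induction on s
  intro w s
  induction s using Nat.strong_induction_on generalizing w with
  | _ s ih =>
  intro hw hs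
  by_cases hs2 : s ≤ 28450
  · exact (glob_num1 s hs).trans (hloc w s hw hs hs2)
  push Not at hs2
  -- minimal length
  have hex : ∃ n, ∃ w, P w s ∧ ln w = n := ⟨_, w, hw, rfl⟩
  classical
  obtain ⟨w0, hw0, hl0⟩ := Nat.find_spec hex
  have hmin : ∀ w', P w' s → ln w0 ≤ ln w' := by
    intro w' hw'
    rw [hl0]
    exact Nat.find_min' hex ⟨w', hw', rfl⟩
  have hRpos : (0 : ℝ) < r := by
    have : 0 < r := by omega
    exact_mod_cast this
  have hR : (100 : ℝ) ≤ r := by exact_mod_cast hr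
  suffices h : (s : ℝ) / 20 + 4 * Real.sqrt s ≤ (ln w0 : ℝ) / r by
    refine h.trans ?_
    apply div_le_div_of_nonneg_right _ hRpos.le
    exact_mod_cast hmin w hw
  have hsR : (28450 : ℝ) ≤ s := by exact_mod_cast hs2.le
  set q := Real.sqrt s with hqdef
  have hq0 : 0 ≤ q := Real.sqrt_nonneg _
  have hq : q * q = s := Real.mul_self_sqrt (by linarith)
  have hq168 : 168 ≤ q := by nlinarith
  -- peeling
  obtain ⟨w', hw', hl'⟩ := hpeel w0 s (by omega) hw0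
  have hp := ih (s - 1) (by omega) w' hw' (by omega)
  have hcast : ((s - 1 : ℕ) : ℝ) = s - 1 := by
    rw [Nat.cast_sub (by omega)]; norm_num
  rw [hcast] at hp
  have hsq0 : 0 ≤ Real.sqrt ((s : ℝ) - 1) := Real.sqrt_nonneg _
  have hl'R : (ln w' : ℝ) ≤ ln w0 + r := by exact_mod_cast hl'
  have hxlow : ((s : ℝ) - 21) / 20 ≤ (ln w0 : ℝ) / r := by
    have h1 : (ln w' : ℝ) / r ≤ (ln w0 : ℝ) / r + 1 := by
      rw [div_add_one hRpos.ne']
      exact div_le_div_of_nonneg_right hl'R hRpos.le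
    linarith
  -- cut
  obtain ⟨w1, w2, s1, s2, l1, l2, c, hP1, hP2, hs1, hs2', hss, hl1, hl2, hll, hw1, hw2, hc⟩ :=
    hcut w0 s (by omega) hw0
  have hcR : (c : ℝ) ≤ r / 2 * q := by
    have h1 : 4 * (c : ℝ) ^ 2 ≤ (r : ℝ) ^ 2 * s := by exact_mod_cast hc
    have h2 : (c : ℝ) ^ 2 ≤ ((r : ℝ) / 2 * q) ^ 2 := by
      have : ((r : ℝ) / 2 * q) ^ 2 = r ^ 2 * s / 4 := by rw [← hq]; ring
      rw [this]; linarith
    exact (sq_le_sq₀ (by positivity) (by positivity)).1 h2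
  set x := (ln w0 : ℝ) / r with hx
  have hlx : (ln w0 : ℝ) = x * r := by rw [hx]; field_simp
  -- floor
  have hfl : (ln w0 : ℝ) / 4 - 1 ≤ ((ln w0 / 4 : ℕ) : ℝ) := by
    have : ln w0 < 4 * (ln w0 / 4) + 4 := by omega
    have h' : (ln w0 : ℝ) < 4 * ((ln w0 / 4 : ℕ) : ℝ) + 4 := by exact_mod_cast this
    linarith
  have hl1R : (ln w0 : ℝ) / 4 - 1 ≤ l1 := hfl.trans (by exact_mod_cast hl1)
  have hl2R : (ln w0 : ℝ) / 4 - 1 ≤ l2 := hfl.trans (by exact_mod_cast hl2)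
  have hllR : (l1 : ℝ) + l2 = ln w0 := by exact_mod_cast hll
  have hw1R : (ln w1 : ℝ) = l1 + c := by exact_mod_cast hw1
  have hw2R : (ln w2 : ℝ) = l2 + c := by exact_mod_cast hw2
  -- contradiction if a piece is as large as s
  have hkey : (r : ℝ) / 2 * q < (ln w0 : ℝ) / 4 - 1 := by
    rw [hlx]
    have h1 : q / 2 + 1 / 100 < x / 4 := by nlinarith
    nlinarith
  have hne1 : s1 < s := by
    rcases hs1.lt_or_eq with h | h
    · exact h
    · exfalso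
      subst h
      have := hmin w1 hP1
      have h' : (ln w0 : ℝ) ≤ ln w1 := by exact_mod_cast this
      linarith
  have hne2 : s2 < s := by
    rcases hs2'.lt_or_eq with h | h
    · exact h
    · exfalso
      subst h
      have := hmin w2 hP2
      have h' : (ln w0 : ℝ) ≤ ln w2 := by exact_mod_cast this
      linarith
  have hssR : (s : ℝ) ≤ s1 + s2 := by exact_mod_cast hss
  have hsumx : (ln w1 : ℝ) / r + (ln w2 : ℝ) / r ≤ x + q := by
    rw [← add_div, div_le_iff₀ hRpos, hw1R, hw2R]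
    nlinarith
  have hdiv : ∀ t : ℝ, (ln w0 : ℝ) / 4 - 1 ≤ t → x / 4 - 1 / r ≤ t / r := by
    intro t ht
    have : x / 4 - 1 / r = ((ln w0 : ℝ) / 4 - 1) / r := by rw [hx]; field_simp
    rw [this]
    exact div_le_div_of_nonneg_right ht hRpos.le
  by_cases hc1 : (s : ℝ) / 10 ≤ s1
  · by_cases hc2 : (s : ℝ) / 10 ≤ s2
    · have hs1n : 2845 ≤ s1 := by
        have : (2845 : ℝ) ≤ s1 := by linarith
        exact_mod_cast this
      have hs2n : 2845 ≤ s2 := by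
        have : (2845 : ℝ) ≤ s2 := by linarith
        exact_mod_cast this
      have i1 := ih s1 hne1 w1 hP1 hs1n
      have i2 := ih s2 hne2 w2 hP2 hs2n
      exact glob_num2 s q x hsR hq0 hq s1 s2 (Real.sqrt s1) (Real.sqrt s2) _ _
        (Real.sqrt_nonneg _) (Real.sqrt_nonneg _) (Real.mul_self_sqrt (by positivity))
        (Real.mul_self_sqrt (by positivity)) hssR hc1 hc2 i1 i2 hsumx
    · push Not at hc2
      have hs1n : 2845 ≤ s1 := by
        have : (2845 : ℝ) ≤ s1 := by linarith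
        exact_mod_cast this
      have i1 := ih s1 hne1 w1 hP1 hs1n
      refine glob_num3 r s q x hR hsR hq0 hq s2 s1 (Real.sqrt s1) ((ln w2 : ℝ) / r)
        ((ln w1 : ℝ) / r) (Real.sqrt_nonneg _) (Real.mul_self_sqrt (by positivity))
        (by rw [add_comm]; exact hssR) hc2.le ?_ i1 (by rw [add_comm]; exact hsumx)
      apply hdiv
      rw [hw2R]
      have : (0 : ℝ) ≤ c := by positivity
      linarith
  · push Not at hc1
    have hs2n : 2845 ≤ s2 := by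
      have : (2845 : ℝ) ≤ s2 := by linarith
      exact_mod_cast this
    have i2 := ih s2 hne2 w2 hP2 hs2n
    refine glob_num3 r s q x hR hsR hq0 hq s1 s2 (Real.sqrt s2) ((ln w1 : ℝ) / r)
      ((ln w2 : ℝ) / r) (Real.sqrt_nonneg _) (Real.mul_self_sqrt (by positivity))
      hssR hc1.le ?_ i2 hsumx
    apply hdiv
    rw [hw1R]
    have : (0 : ℝ) ≤ c := by positivity
    linarith

/-- 7.4: `FS w` = FS'(w) ≤ N and len ≤ M r is not needed as such: `A w` = FS'(w) ≤ N. -/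
theorem loc_abstract {Ω : Type*} (A : Ω → Prop) (P : Ω → ℕ → Prop) (ln : Ω → ℕ) (r Mr : ℕ)
    (hr : 1000 ≤ r)
    (hbase : ∀ w, A w → ln w ≤ r → P w 1)
    (hcut : ∀ w, A w → r < ln w → ln w ≤ Mr → ∃ (w1 w2 : Ω) (l1 l2 c : ℕ), A w1 ∧ A w2 ∧
      ln w / 4 ≤ l1 ∧ ln w / 4 ≤ l2 ∧ l1 + l2 = ln w ∧
      ln w1 = l1 + c ∧ ln w2 = l2 + c ∧ 100 * c ≤ r ∧
      (∀ k1 k2, P w1 k1 → P w2 k2 → P w (k1 + k2))) :
    ∀ w, A w → ln w ≤ Mr → ∃ k : ℕ, P w k ∧ (ln w ≤ r → k = 1) ∧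
      (r < ln w → (k : ℝ) ≤ 8 * (ln w : ℝ) / r - 3) := by
  intro w
  induction hn : ln w using Nat.strong_induction_on generalizing w with
  | _ n ih =>
  subst hn
  intro hA hM
  by_cases hle : ln w ≤ r
  · exact ⟨1, hbase w hA hle, fun _ => rfl, fun h => absurd h (by omega)⟩
  push Not at hle
  obtain ⟨w1, w2, l1, l2, c, hA1, hA2, hl1, hl2, hll, hw1, hw2, hc, hP⟩ := hcut w hA hle hM
  have hlt1 : ln w1 < ln w := by omega
  have hlt2 : ln w2 < ln w := by omega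
  obtain ⟨k1, hk1, hk1s, hk1l⟩ := ih (ln w1) hlt1 w1 rfl hA1 (by omega)
  obtain ⟨k2, hk2, hk2s, hk2l⟩ := ih (ln w2) hlt2 w2 rfl hA2 (by omega)
  refine ⟨k1 + k2, hP k1 k2 hk1 hk2, fun h => absurd h (by omega), fun _ => ?_⟩
  have hR : (1000 : ℝ) ≤ r := by exact_mod_cast hr
  have hRpos : (0 : ℝ) < r := by linarith
  have hleR : (r : ℝ) < ln w := by exact_mod_cast hle
  have hcR : 100 * (c : ℝ) ≤ r := by exact_mod_cast hc
  have hllR : (l1 : ℝ) + l2 = ln w := by exact_mod_cast hll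
  have hw1R : (ln w1 : ℝ) = l1 + c := by exact_mod_cast hw1
  have hw2R : (ln w2 : ℝ) = l2 + c := by exact_mod_cast hw2
  have hfl : (ln w : ℝ) / 4 - 1 ≤ ((ln w / 4 : ℕ) : ℝ) := by
    have : ln w < 4 * (ln w / 4) + 4 := by omega
    have h' : (ln w : ℝ) < 4 * ((ln w / 4 : ℕ) : ℝ) + 4 := by exact_mod_cast this
    linarith
  have hl1R : (ln w : ℝ) / 4 - 1 ≤ l1 := hfl.trans (by exact_mod_cast hl1)
  have hl2R : (ln w : ℝ) / 4 - 1 ≤ l2 := hfl.trans (by exact_mod_cast hl2)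
  push_cast
  have key : ∀ t : ℝ, t * r ≤ 8 * (ln w : ℝ) → t ≤ 8 * (ln w : ℝ) / r := by
    intro t ht
    rwa [le_div_iff₀ hRpos]
  have goal' : (k1 : ℝ) + k2 + 3 ≤ 8 * (ln w : ℝ) / r → (k1 : ℝ) + k2 ≤ 8 * (ln w : ℝ) / r - 3 := by
    intro h; linarith
  apply goal'
  apply key
  by_cases h1 : ln w1 ≤ r
  · by_cases h2 : ln w2 ≤ r
    · rw [hk1s h1, hk2s h2]
      push_cast
      linarith
    · push Not at h2
      have i2 := hk2l h2
      have i2' : ((k2 : ℝ) + 3) * r ≤ 8 * (ln w2 : ℝ) := by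
        rw [← le_div_iff₀ hRpos]; linarith
      rw [hk1s h1]
      push_cast
      nlinarith
  · push Not at h1
    have i1 := hk1l h1
    have i1' : ((k1 : ℝ) + 3) * r ≤ 8 * (ln w1 : ℝ) := by
      rw [← le_div_iff₀ hRpos]; linarith
    by_cases h2 : ln w2 ≤ r
    · rw [hk2s h2]
      push_cast
      nlinarith
    · push Not at h2
      have i2 := hk2l h2
      have i2' : ((k2 : ℝ) + 3) * r ≤ 8 * (ln w2 : ℝ) := by
        rw [← le_div_iff₀ hRpos]; linarith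
      nlinarith

end Pool.Agent.SC
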