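import Pool.Agent.Lib.MP_d0323d_co.GlueAux
/-! Module GLUE (8.4): `FS'(w) ≤ Σ FS'(cells)`. -/
set_option autoImplicit false
namespace Pool.Agent.SC
open Finset
variable {n : ℕ} {Y : Finset (Finset (Fin n))} {T : Finset (Fin n)} {Pol : List (Fin n) → Prop}

namespace Glue

/-- vertices of a dart walk -/
def vl {V E : Type} (s t : E → V) (v : V) (l : List (E × Bool)) : List V :=
  v :: l.map (dtgt s t)

theorem map_vl {V E : Type} (s t : E → V) (lab : V → Fin n) (v : V) (l : List (E × Bool)) :
    (vl s t v l).map lab = dlab s t lab v l := by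
  unfold vl dlab
  rw [List.map_cons, List.map_map]
  rfl

theorem zip_lab {A B C : Type} (f : A → C) (g : B → C) : ∀ (l1 : List A) (l2 : List B),
    l1.map f = l2.map g → ∀ p ∈ l1.zip l2, f p.1 = g p.2 := by
  intro l1
  induction l1 with
  | nil => intro l2 _ p hp; simp at hp
  | cons a l1 ih =>
    intro l2 h p hp
    cases l2 with
    | nil => simp at hp
    | cons b l2 =>
      rw [List.map_cons, List.map_cons, List.cons.injEq] at h
      rw [List.zip_cons_cons, List.mem_cons] at hp
      rcases hp with rfl | hp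
      · exact h.1
      · exact ih l2 h.2 p hp

theorem dwalk_last {V E : Type} (s t : E → V) : ∀ (l : List (E × Bool)) (v v' : V),
    DWalk s t v l v' → (vl s t v l).getLast? = some v' := by
  intro l
  induction l with
  | nil =>
    intro v v' h
    change v = v' at h
    rw [h]
    rfl
  | cons d l ih =>
    intro v v' h
    obtain ⟨_, h2⟩ := h
    have h3 := ih _ _ h2
    unfold vl at h3 ⊢
    rw [List.map_cons, List.getLast?_cons_cons]
    exact h3

theorem sum_darts {V E U : Type} [DecidableEq U] (s t : E → V) (gE : E → ZMod 2)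
    (gU : U → U → ZMod 2) (W : U → ZMod 2) (R : V → U → Prop)
    (hE : ∀ e x y, R (s e) x → R (t e) y → gE e = gU x y) (hsymm : ∀ x y, gU x y = gU y x)
    (EU : Finset (Finset U)) (hW : ∀ x y, ({x, y} : Finset U) ∈ EU → gU x y = W x + W y) :
    ∀ (l : List (E × Bool)) (v v' : V) (y z : U) (ys : List U), DWalk s t v l v' →
      ys.length = l.length → WalkIn EU (y :: ys) → (y :: ys).getLast? = some z →
      (∀ p ∈ (vl s t v l).zip (y :: ys), R p.1 p.2) →
      (l.map (fun d => gE d.1)).sum = W y + W z := by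
  intro l
  induction l with
  | nil =>
    intro v v' y z ys _ hlen _ hlast _
    have : ys = [] := List.length_eq_zero_iff.1 hlen
    subst this
    rw [List.getLast?_singleton, Option.some.injEq] at hlast
    rw [hlast, List.map_nil, List.sum_nil, two_smul_zmod]
  | cons d l ih =>
    intro v v' y z ys hw hlen hwalk hlast hR
    cases ys with
    | nil => simp at hlen
    | cons y1 ys =>
      obtain ⟨hsrc, hw2⟩ := hw
      have hlen' : ys.length = l.length := by simpa using hlen
      unfold WalkIn at hwalk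
      rw [List.isChain_cons_cons] at hwalk
      rw [List.getLast?_cons_cons] at hlast
      have hR0 : R v y := hR (v, y) (by
        unfold vl
        rw [List.zip_cons_cons]
        exact List.mem_cons_self)
      have hR' : ∀ p ∈ (vl s t (dtgt s t d) l).zip (y1 :: ys), R p.1 p.2 := by
        intro p hp
        refine hR p ?_
        unfold vl at hp ⊢
        rw [List.map_cons, List.zip_cons_cons]
        exact List.mem_cons_of_mem _ hp
      have hR1 : R (dtgt s t d) y1 := hR' (_, y1) (by
        unfold vl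
        rw [List.zip_cons_cons]
        exact List.mem_cons_self)
      have h1 := ih _ v' y1 z ys hw2 hlen' hwalk.2 hlast hR'
      have h2 : gE d.1 = W y + W y1 := by
        rw [← hW y y1 hwalk.1]
        rw [← hsrc] at hR0
        unfold dsrc at hR0
        unfold dtgt at hR1
        cases hb : d.2 with
        | true =>
          simp only [hb, if_true] at hR0 hR1
          exact hE _ _ _ hR0 hR1
        | false =>
          simp only [hb, Bool.false_eq_true, if_false] at hR0 hR1
          rw [hsymm]
          exact hE _ _ _ hR1 hR0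
      rw [List.map_cons, List.sum_cons, h1, h2]
      have h3 := two_smul_zmod (W y1)
      linear_combination h3

theorem pot_along {V E U : Type} [DecidableEq U] (s t : E → V) (gE : E → ZMod 2)
    (gU : U → U → ZMod 2) (W : U → ZMod 2) (R : V → U → Prop)
    (hE : ∀ e x y, R (s e) x → R (t e) y → gE e = gU x y) (hsymm : ∀ x y, gU x y = gU y x)
    (EU : Finset (Finset U)) (hW : ∀ x y, ({x, y} : Finset U) ∈ EU → gU x y = W x + W y)
    (WD : V → ZMod 2) (hWD : ∀ e, gE e = WD (s e) + WD (t e)) (κ : ZMod 2) :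
    ∀ (l : List (E × Bool)) (v v' : V) (y : U) (ys : List U), DWalk s t v l v' →
      ys.length = l.length → WalkIn EU (y :: ys) →
      (∀ p ∈ (vl s t v l).zip (y :: ys), R p.1 p.2) → WD v = W y + κ →
      ∀ p ∈ (vl s t v l).zip (y :: ys), WD p.1 = W p.2 + κ := by
  intro l
  induction l with
  | nil =>
    intro v v' y ys _ hlen _ _ h0 p hp
    have : ys = [] := List.length_eq_zero_iff.1 hlen
    subst this
    have : p = (v, y) := by
      unfold vl at hp
      simpa using hp
    rw [this]
    exact h0
  | cons d l ih =>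
    intro v v' y ys hw hlen hwalk hR h0
    cases ys with
    | nil => simp at hlen
    | cons y1 ys =>
      obtain ⟨hsrc, hw2⟩ := hw
      have hlen' : ys.length = l.length := by simpa using hlen
      unfold WalkIn at hwalk
      rw [List.isChain_cons_cons] at hwalk
      have hR0 : R v y := hR (v, y) (by
        unfold vl
        rw [List.zip_cons_cons]
        exact List.mem_cons_self)
      have hR' : ∀ p ∈ (vl s t (dtgt s t d) l).zip (y1 :: ys), R p.1 p.2 := by
        intro p hp
        refine hR p ?_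
        unfold vl at hp ⊢
        rw [List.map_cons, List.zip_cons_cons]
        exact List.mem_cons_of_mem _ hp
      have hR1 : R (dtgt s t d) y1 := hR' (_, y1) (by
        unfold vl
        rw [List.zip_cons_cons]
        exact List.mem_cons_self)
      have h2 : gE d.1 = W y + W y1 := by
        rw [← hW y y1 hwalk.1]
        rw [← hsrc] at hR0
        unfold dsrc at hR0
        unfold dtgt at hR1
        cases hb : d.2 with
        | true =>
          simp only [hb, if_true] at hR0 hR1
          exact hE _ _ _ hR0 hR1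
        | false =>
          simp only [hb, Bool.false_eq_true, if_false] at hR0 hR1
          rw [hsymm]
          exact hE _ _ _ hR1 hR0
      have h3 : gE d.1 = WD v + WD (dtgt s t d) := by
        rw [hWD, ← hsrc]
        unfold dsrc dtgt
        cases hb : d.2 with
        | true => simp
        | false => simp [add_comm]
      have h4 : WD (dtgt s t d) = W y1 + κ := by
        have e1 := two_smul_zmod κ
        linear_combination h2 - h3 - h0 - e1
      intro p hp
      unfold vl at hp
      rw [List.map_cons, List.zip_cons_cons, List.mem_cons] at hp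
      rcases hp with rfl | hp
      · exact h0
      · exact ih _ v' y1 ys hw2 hlen' hwalk.2 hR' h4 p hp

section Push

variable (D : Dia n Pol) {ι : Type} (c : ι → D.V × List (D.E × Bool)) (X : ι → Cpx n Y T)
  (u : ∀ i, List (X i).V)

/-- identification of the cell walks with the walks of the fillers -/
def rel (a b : D.V ⊕ (Σ i, (X i).V)) : Prop :=
  ∃ (i : ι) (x : D.V) (y : (X i).V), a = Sum.inl x ∧ b = Sum.inr ⟨i, y⟩ ∧
    (x, y) ∈ (vl D.s D.t (c i).1 (c i).2).zip (u i)

/-- vertices of the glued complex -/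
def VG : Type := Quot (rel D c X u)

def pD (x : D.V) : VG D c X u := Quot.mk _ (Sum.inl x)

def pX (i : ι) (y : (X i).V) : VG D c X u := Quot.mk _ (Sum.inr ⟨i, y⟩)

theorem glue_eq {i : ι} {x : D.V} {y : (X i).V}
    (h : (x, y) ∈ (vl D.s D.t (c i).1 (c i).2).zip (u i)) : pD D c X u x = pX D c X u i y :=
  Quot.sound ⟨i, x, y, rfl, rfl, h⟩

theorem VG_cases (v : VG D c X u) : (∃ x, v = pD D c X u x) ∨ ∃ i y, v = pX D c X u i y := by
  induction v using Quot.ind with
  | _ a =>
    rcases a with x | ⟨i, y⟩
    · exact Or.inl ⟨x, rfl⟩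
    · exact Or.inr ⟨i, y, rfl⟩

noncomputable instance : DecidableEq (VG D c X u) := Classical.decEq _

noncomputable instance [Finite ι] : Fintype (VG D c X u) := by
  have h1 : Finite D.V := @Finite.of_fintype _ D.fV
  have h2 : ∀ i, Finite (X i).V := fun i => @Finite.of_fintype _ (X i).ft
  have h3 : Finite (VG D c X u) := inferInstanceAs (Finite (Quot (rel D c X u)))
  exact Fintype.ofFinite _

variable (hl : ∀ i, (u i).map (X i).lab = dlab D.s D.t D.lab (c i).1 (c i).2)

def labG : VG D c X u → Fin n :=
  Quot.lift (Sum.elim D.lab (fun p => (X p.1).lab p.2)) (by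
    rintro a b ⟨i, x, y, rfl, rfl, h⟩
    exact zip_lab D.lab (X i).lab _ _ (by rw [map_vl, hl]) _ h)

theorem labG_pD (x : D.V) : labG D c X u hl (pD D c X u x) = D.lab x := rfl

theorem labG_pX (i : ι) (y : (X i).V) : labG D c X u hl (pX D c X u i y) = (X i).lab y := rfl

variable [Finite ι]

noncomputable def EE : Finset (Finset (VG D c X u)) :=
  @Finset.filter _ (fun e' => (∃ e : D.E, e' = {pD D c X u (D.s e), pD D c X u (D.t e)}) ∨
    ∃ i, ∃ e ∈ (X i).E, e' = e.image (pX D c X u i)) (Classical.decPred _) univ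

noncomputable def FF : Finset (Finset (VG D c X u)) :=
  @Finset.filter _ (fun s' => ∃ i, ∃ s ∈ (X i).F, s' = s.image (pX D c X u i))
    (Classical.decPred _) univ

theorem mem_EE (e' : Finset (VG D c X u)) : e' ∈ EE D c X u ↔
    (∃ e : D.E, e' = {pD D c X u (D.s e), pD D c X u (D.t e)}) ∨
      ∃ i, ∃ e ∈ (X i).E, e' = e.image (pX D c X u i) := by
  unfold EE
  refine (@Finset.mem_filter _ _ (Classical.decPred _) _ _).trans ?_
  exact ⟨fun h => h.2, fun h => ⟨mem_univ _, h⟩⟩

theorem mem_FF (s' : Finset (VG D c X u)) : s' ∈ FF D c X u ↔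
    ∃ i, ∃ s ∈ (X i).F, s' = s.image (pX D c X u i) := by
  unfold FF
  refine (@Finset.mem_filter _ _ (Classical.decPred _) _ _).trans ?_
  exact ⟨fun h => h.2, fun h => ⟨mem_univ _, h⟩⟩

include hl

omit [Finite ι] in
theorem injOn_pX (i : ι) (S : Finset (X i).V) (h : Set.InjOn (X i).lab (S : Set (X i).V)) :
    Set.InjOn (pX D c X u i) (S : Set (X i).V) := by
  intro a ha b hb hab
  refine h ha hb ?_
  rw [← labG_pX D c X u hl, ← labG_pX D c X u hl, hab]

omit [Finite ι] in
theorem image_lab (i : ι) (S : Finset (X i).V) :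
    (S.image (pX D c X u i)).image (labG D c X u hl) = S.image (X i).lab := by
  rw [image_image]
  rfl

end Push

theorem face_inj (X : Cpx n Y T) (s : Finset X.V) (hs : s ∈ X.F) :
    Set.InjOn X.lab (s : Set X.V) := by
  intro a ha b hb hab
  by_contra hne
  let _ := X.de
  have h1 : ({a, b} : Finset X.V) ∈ s.powersetCard 2 := by
    rw [mem_powersetCard]
    refine ⟨?_, card_pair hne⟩
    intro x hx
    rw [mem_insert, mem_singleton] at hx
    rcases hx with rfl | rfl
    · exact ha
    · exact hb
  have h2 := X.E_lab _ (X.F_E s hs _ h1)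
  exact hne (h2 (by simp) (by simp) hab)

/-- pairs of the image of a triple -/
theorem sum_pairs_image {A B : Type} [DecidableEq A] [DecidableEq B] (f : A → B) (s : Finset A)
    (hf : Set.InjOn f (s : Set A)) (g : Finset B → ZMod 2) :
    ∑ e ∈ s.powersetCard 2, g (e.image f) = ∑ e' ∈ (s.image f).powersetCard 2, g e' := by
  refine sum_bij (fun e _ => e.image f) ?_ ?_ ?_ ?_
  · intro e he
    rw [mem_powersetCard] at he ⊢
    refine ⟨image_subset_image he.1, ?_⟩
    rw [card_image_of_injOn (hf.mono (by exact_mod_cast he.1))]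
    exact he.2
  · intro e1 h1 e2 h2 h
    rw [mem_powersetCard] at h1 h2
    ext x
    constructor
    · intro hx
      have h3 : f x ∈ e2.image f := by
        rw [← h]
        exact mem_image_of_mem f hx
      obtain ⟨y, hy, hxy⟩ := mem_image.1 h3
      have := hf (h2.1 hy) (h1.1 hx) hxy
      rwa [← this]
    · intro hx
      have h3 : f x ∈ e1.image f := by
        rw [h]
        exact mem_image_of_mem f hx
      obtain ⟨y, hy, hxy⟩ := mem_image.1 h3
      have := hf (h1.1 hy) (h2.1 hx) hxy
      rwa [← this]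
  · intro e' he'
    rw [mem_powersetCard, subset_image_iff] at he'
    obtain ⟨⟨e, he, rfl⟩, hc⟩ := he'
    refine ⟨e, ?_, rfl⟩
    rw [mem_powersetCard]
    refine ⟨he, ?_⟩
    rwa [card_image_of_injOn (hf.mono (by exact_mod_cast he))] at hc
  · intro e _
    rfl

/-- a function is additive on a pair -/
theorem pair_sum {A : Type} [DecidableEq A] (W : A → ZMod 2) (a b : A) (S : Finset A)
    (hS : S.card = 2) (h : ({a, b} : Finset A) = S) : W a + W b = ∑ x ∈ S, W x := by
  rw [← h, sum_pair]
  rintro rfl
  rw [← h] at hS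
  simp at hS

section Main

variable (D : Dia n Pol) {ι : Type} (c : ι → D.V × List (D.E × Bool)) (X : ι → Cpx n Y T)
  (u : ∀ i, List (X i).V) [Finite ι]
  (hl : ∀ i, (u i).map (X i).lab = dlab D.s D.t D.lab (c i).1 (c i).2)
include hl

theorem EE_lab (e : Finset (VG D c X u)) (he : e ∈ EE D c X u) :
    Set.InjOn (labG D c X u hl) (e : Set (VG D c X u)) := by
  rw [mem_EE] at he
  rcases he with ⟨d, rfl⟩ | ⟨i, e, he, rfl⟩
  · intro a ha b hb hab
    rw [coe_insert, coe_singleton, Set.mem_insert_iff, Set.mem_singleton_iff] at ha hb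
    rcases ha with rfl | rfl <;> rcases hb with rfl | rfl
    · rfl
    · exact absurd hab (D.ne d)
    · exact absurd hab.symm (D.ne d)
    · rfl
  · intro a ha b hb hab
    rw [mem_coe, mem_image] at ha hb
    obtain ⟨x, hx, rfl⟩ := ha
    obtain ⟨y, hy, rfl⟩ := hb
    rw [(X i).E_lab e he hx hy hab]

theorem EE_card (e : Finset (VG D c X u)) (he : e ∈ EE D c X u) : e.card = 2 := by
  rw [mem_EE] at he
  rcases he with ⟨d, rfl⟩ | ⟨i, e, he, rfl⟩
  · refine card_pair fun h => D.ne d ?_
    have := congrArg (labG D c X u hl) h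
    exact this
  · rw [card_image_of_injOn (injOn_pX D c X u hl i e ((X i).E_lab e he))]
    exact (X i).E_card e he

theorem FF_card (s : Finset (VG D c X u)) (hs : s ∈ FF D c X u) : s.card = 3 := by
  rw [mem_FF] at hs
  obtain ⟨i, s, hs, rfl⟩ := hs
  rw [card_image_of_injOn (injOn_pX D c X u hl i s (face_inj (X i) s hs))]
  exact (X i).F_card s hs

theorem FF_EE (s : Finset (VG D c X u)) (hs : s ∈ FF D c X u) :
    ∀ e ∈ s.powersetCard 2, e ∈ EE D c X u := by
  rw [mem_FF] at hs
  obtain ⟨i, s, hs, rfl⟩ := hs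
  intro e' he'
  rw [mem_powersetCard, subset_image_iff] at he'
  obtain ⟨⟨e, he, rfl⟩, hc⟩ := he'
  rw [mem_EE]
  right
  refine ⟨i, e, (X i).F_E s hs e ?_, rfl⟩
  rw [mem_powersetCard]
  refine ⟨he, ?_⟩
  have h1 := injOn_pX D c X u hl i s (face_inj (X i) s hs)
  rwa [card_image_of_injOn (h1.mono (by exact_mod_cast he))] at hc

theorem FF_lab (s : Finset (VG D c X u)) (hs : s ∈ FF D c X u) :
    s.image (labG D c X u hl) ∈ Y ∨ s.image (labG D c X u hl) ⊆ T := by
  rw [mem_FF] at hs
  obtain ⟨i, s, hs, rfl⟩ := hs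
  rw [image_lab]
  exact (X i).F_lab s hs

/-- potentials for the glued complex -/
theorem pot (hcw : ∀ i, DWalk D.s D.t (c i).1 (c i).2 (c i).1)
    (hcov : ∀ c' ∈ D.cells, ∃ i, c i = c')
    (hu : ∀ i, ClosedW (u i)) (hw : ∀ i, @WalkIn (X i).V (X i).de (X i).E (u i))
    (g : Finset (VG D c X u) → ZMod 2)
    (hg : ∀ s ∈ FF D c X u, ∑ e ∈ s.powersetCard 2, g e = 0) :
    ∃ W : VG D c X u → ZMod 2, ∀ a b, ({a, b} : Finset (VG D c X u)) ∈ EE D c X u →
      g {a, b} = W a + W b := by
  -- potentials on the fillers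
  have h1 : ∀ i, ∃ W : (X i).V → ZMod 2, ∀ a b : (X i).V,
      (@insert _ _ (@Finset.instInsert _ (X i).de) a {b} : Finset (X i).V) ∈ (X i).E →
      g {pX D c X u i a, pX D c X u i b} = W a + W b := by
    intro i
    let _ := (X i).ft
    let _ := (X i).de
    obtain ⟨W, hW⟩ := pot_of_h1 (X i).E (X i).F (X i).E_card (X i).h1
      (fun e => g (e.image (pX D c X u i))) (fun s hs => by
        rw [sum_pairs_image _ s (injOn_pX D c X u hl i s (face_inj (X i) s hs))]
        exact hg _ ((mem_FF D c X u _).2 ⟨i, s, hs, rfl⟩))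
    refine ⟨W, fun a b hab => ?_⟩
    rw [← hW a b hab, image_insert, image_singleton]
  choose W hW using h1
  -- the walks
  have h2 : ∀ i, ∃ (y : (X i).V) (ys : List (X i).V), u i = y :: ys ∧ ys.length = (c i).2.length ∧
      (y :: ys).getLast? = some y := by
    intro i
    obtain ⟨hne, hh⟩ := hu i
    obtain ⟨y, ys, hy⟩ : ∃ y ys, u i = y :: ys := by
      cases hui : u i with
      | nil => exact absurd hui hne
      | cons y ys => exact ⟨y, ys, rfl⟩
    refine ⟨y, ys, hy, ?_, ?_⟩
    · have h3 := congrArg List.length (hl i)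
      rw [hy, ← map_vl] at h3
      unfold vl at h3
      simpa using h3
    · rw [hy] at hh
      rw [← hh]
      rfl
  choose y ys hy hlen hlast using h2
  obtain ⟨WD, hWD⟩ := dia_pot D (fun e => g {pD D c X u (D.s e), pD D c X u (D.t e)}) (by
    intro c' hc'
    obtain ⟨i, rfl⟩ := hcov c' hc'
    let _ := (X i).de
    have h3 := sum_darts D.s D.t (fun e => g {pD D c X u (D.s e), pD D c X u (D.t e)})
      (fun a b => g {pX D c X u i a, pX D c X u i b}) (W i)
      (fun a b => pD D c X u a = pX D c X u i b)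
      (fun e a b ha hb => by
        rw [ha, hb])
      (fun a b => by
        rw [pair_comm]) (X i).E (fun a b hab => hW i a b hab) (c i).2 (c i).1 (c i).1 (y i) (y i)
      (ys i) (hcw i) (hlen i) (by
        rw [← hy i]
        exact hw i) (hlast i) (by
        rintro ⟨a, b⟩ hab
        refine glue_eq D c X u (i := i) ?_
        rw [hy i]
        exact hab)
    rw [two_smul_zmod] at h3
    exact h3)
  obtain ⟨κ, hκ⟩ : ∃ κ : ι → ZMod 2, ∀ i, κ i = WD (c i).1 + W i (y i) := ⟨_, fun _ => rfl⟩
  have h4 : ∀ i, ∀ p ∈ (vl D.s D.t (c i).1 (c i).2).zip (u i), WD p.1 = W i p.2 + κ i := by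
    intro i
    let _ := (X i).de
    rw [hy i]
    refine pot_along D.s D.t (fun e => g {pD D c X u (D.s e), pD D c X u (D.t e)})
      (fun a b => g {pX D c X u i a, pX D c X u i b}) (W i)
      (fun a b => pD D c X u a = pX D c X u i b)
      (fun e a b ha hb => by
        rw [ha, hb])
      (fun a b => by
        rw [pair_comm]) (X i).E (fun a b hab => hW i a b hab) WD hWD (κ i) (c i).2 (c i).1 (c i).1
      (y i) (ys i) (hcw i) (hlen i) (by
        rw [← hy i]
        exact hw i) (by
        rintro ⟨a, b⟩ hab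
        refine glue_eq D c X u (i := i) ?_
        rw [hy i]
        exact hab) ?_
    rw [hκ]
    have := two_smul_zmod (W i (y i))
    linear_combination -this
  obtain ⟨WG, hWG1, hWG2⟩ : ∃ WG : VG D c X u → ZMod 2, (∀ x, WG (pD D c X u x) = WD x) ∧
      ∀ i z, WG (pX D c X u i z) = W i z + κ i := by
    refine ⟨Quot.lift (Sum.elim WD (fun p => W p.1 p.2 + κ p.1)) ?_, fun _ => rfl, fun _ _ => rfl⟩
    rintro a b ⟨i, x, z, rfl, rfl, h⟩
    exact h4 i _ h
  refine ⟨WG, fun a b hab => ?_⟩
  have hcard := EE_card D c X u hl _ hab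
  rw [pair_sum WG a b _ hcard rfl]
  rw [mem_EE] at hab
  rcases hab with ⟨e, he⟩ | ⟨i, e, he, he'⟩
  · rw [he]
    rw [he] at hcard
    rw [← pair_sum WG _ _ _ hcard rfl, hWG1, hWG1, hWD e]
  · rw [he']
    rw [sum_image (injOn_pX D c X u hl i e ((X i).E_lab e he))]
    let _ := (X i).de
    obtain ⟨a', b', hab', rfl⟩ := card_eq_two.1 ((X i).E_card e he)
    rw [sum_pair hab', image_insert, image_singleton, hWG2, hWG2, hW i a' b' he]
    have := two_smul_zmod (κ i)
    linear_combination -this

omit hl in
theorem conn_aux (R : VG D c X u → VG D c X u → Prop) (hR : R = fun a b =>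
    ({a, b} : Finset (VG D c X u)) ∈ EE D c X u) (hu : ∀ i, ∃ y,
      (y ∈ (u i)) ∧ pD D c X u (c i).1 = pX D c X u i y) :
    ∀ a b : VG D c X u, Relation.ReflTransGen R a b := by
  have hsymm : ∀ a b, R a b → R b a := by
    intro a b h
    rw [hR] at h ⊢
    change ({b, a} : Finset (VG D c X u)) ∈ EE D c X u
    rw [pair_comm]
    exact h
  have hs : ∀ a b, Relation.ReflTransGen R a b → Relation.ReflTransGen R b a := fun a b h =>
    rtg_symm hsymm h
  have hD : ∀ x x' : D.V, Relation.ReflTransGen R (pD D c X u x) (pD D c X u x') := by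
    intro x x'
    refine Relation.ReflTransGen.lift (pD D c X u) ?_ _ _ (D.conn x x')
    rintro a b ⟨d, rfl, rfl⟩
    rw [hR]
    change ({_, _} : Finset (VG D c X u)) ∈ EE D c X u
    rw [mem_EE]
    left
    refine ⟨d.1, ?_⟩
    unfold dsrc dtgt
    cases d.2 with
    | true => rfl
    | false =>
      simp only [Bool.false_eq_true, if_false]
      rw [pair_comm]
  have hX : ∀ i (y y' : (X i).V), Relation.ReflTransGen R (pX D c X u i y) (pX D c X u i y') := by
    intro i y y'
    refine Relation.ReflTransGen.lift (pX D c X u i) ?_ _ _ ((X i).conn y y')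
    intro a b h
    rw [hR]
    change ({_, _} : Finset (VG D c X u)) ∈ EE D c X u
    rw [mem_EE]
    right
    let _ := (X i).de
    refine ⟨i, _, h, ?_⟩
    rw [image_insert, image_singleton]
  have hbase : ∀ v : VG D c X u, Relation.ReflTransGen R (pD D c X u D.base) v := by
    intro v
    rcases VG_cases D c X u v with ⟨x, rfl⟩ | ⟨i, y, rfl⟩
    · exact hD _ _
    · obtain ⟨y0, -, h0⟩ := hu i
      refine (hD D.base (c i).1).trans ?_
      rw [h0]
      exact hX i y0 y
  exact fun a b => (hs _ _ (hbase a)).trans (hbase b)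

end Main

theorem walk_aux {V E : Type} {U : Type} [DecidableEq U] (s t : E → V) (f : V → U)
    (EU : Finset (Finset U)) (hE : ∀ e, ({f (s e), f (t e)} : Finset U) ∈ EU) :
    ∀ (l : List (E × Bool)) (v v' : V), DWalk s t v l v' → WalkIn EU ((vl s t v l).map f) := by
  intro l
  induction l with
  | nil =>
    intro v v' _
    unfold WalkIn vl
    simp
  | cons d l ih =>
    intro v v' h
    obtain ⟨h1, h2⟩ := h
    have h3 := ih _ _ h2
    unfold WalkIn vl at h3 ⊢
    rw [List.map_cons, List.map_cons, List.map_cons, List.isChain_cons_cons]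
    rw [List.map_cons] at h3
    refine ⟨?_, h3⟩
    rw [← h1]
    unfold dsrc dtgt
    cases d.2 with
    | true => exact hE d.1
    | false =>
      simp only [Bool.false_eq_true, if_false]
      rw [pair_comm]
      exact hE d.1

end Glue

open Glue in
theorem fsle_of_ple {w : List (Fin n)} {k m : ℕ} (h : PLe Pol w k)
    (hPol : ∀ p, Pol p → FSle Y T p m) : FSle Y T w (k * m) := by
  obtain ⟨D, hDw, hDk⟩ := h
  have h1 : ∀ i : Fin D.cells.length, ∃ (X : Cpx n Y T) (u : List X.V), ClosedW u ∧
      @WalkIn X.V X.de X.E u ∧ u.map X.lab = dlab D.s D.t D.lab (D.cells.get i).1 (D.cells.get i).2 ∧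
      X.fp ≤ m := fun i => hPol _ (D.cells_pol _ (List.get_mem _ i))
  choose X u hu hw hl hfp using h1
  obtain ⟨c, hc⟩ : ∃ c : Fin D.cells.length → D.V × List (D.E × Bool), c = D.cells.get := ⟨_, rfl⟩
  rw [← hc] at hl
  have hcw : ∀ i, DWalk D.s D.t (c i).1 (c i).2 (c i).1 := fun i => by
    rw [hc]
    exact D.cells_walk _ (List.get_mem _ i)
  have hcov : ∀ c' ∈ D.cells, ∃ i, c i = c' := fun c' hc' => by
    rw [hc]
    exact List.get_of_mem hc'
  have hhead : ∀ i, ∃ y, y ∈ u i ∧ pD D c X u (c i).1 = pX D c X u i y := by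
    intro i
    cases hui : u i with
    | nil => exact absurd hui (hu i).1
    | cons y ys =>
      refine ⟨y, List.mem_cons_self, glue_eq D c X u ?_⟩
      rw [hui]
      unfold vl
      rw [List.zip_cons_cons]
      exact List.mem_cons_self
  let G : Cpx n Y T :=
    { V := VG D c X u
      ft := inferInstance
      de := inferInstance
      E := EE D c X u
      F := FF D c X u
      lab := labG D c X u hl
      E_card := EE_card D c X u hl
      E_lab := EE_lab D c X u hl
      F_card := FF_card D c X u hl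
      F_E := FF_EE D c X u hl
      F_lab := FF_lab D c X u hl
      conn := conn_aux D c X u _ rfl hhead
      ne := ⟨pD D c X u D.base⟩
      h1 := h1_of_pot _ _ (FF_EE D c X u hl) (fun g hg => pot D c X u hl hcw hcov hu hw g hg) }
  refine ⟨G, (vl D.s D.t D.base D.out).map (pD D c X u), ⟨?_, ?_⟩, ?_, ?_, ?_⟩
  · unfold vl
    simp
  · rw [List.getLast?_map, dwalk_last D.s D.t _ _ _ D.out_walk]
    rfl
  · exact walk_aux D.s D.t (pD D c X u) _ (fun e => (mem_EE D c X u _).2 (Or.inl ⟨e, rfl⟩)) _ _ _
      D.out_walk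
  · rw [List.map_map, ← hDw, ← map_vl]
    rfl
  · have h2 : (FF D c X u).filter (fun s => ¬ s.image (labG D c X u hl) ⊆ T) ⊆
        univ.biUnion (fun i => ((X i).F.filter (fun s => ¬ s.image (X i).lab ⊆ T)).image
          (fun s => s.image (pX D c X u i))) := by
      intro s hs
      rw [mem_filter, mem_FF] at hs
      obtain ⟨⟨i, s, hs, rfl⟩, hT⟩ := hs
      rw [image_lab] at hT
      rw [mem_biUnion]
      exact ⟨i, mem_univ _, mem_image.2 ⟨s, mem_filter.2 ⟨hs, hT⟩, rfl⟩⟩
    have h3 : G.fp ≤ ∑ i : Fin D.cells.length, m := by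
      refine (card_le_card h2).trans (card_biUnion_le.trans (sum_le_sum fun i _ => ?_))
      exact card_image_le.trans (hfp i)
    rw [sum_const, card_univ, Fintype.card_fin, smul_eq_mul] at h3
    exact h3.trans (Nat.mul_le_mul_right _ hDk)

end Pool.Agent.SC
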