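import Pool.Agent.Lib.MP_d0323d_co.Defs
/-! Module RANK (1.1): rank of the boundary map over F_2. -/
set_option autoImplicit false
namespace Pool.Agent.SC
open Finset

section
variable {V E : Type*} [Fintype V] [Fintype E] [DecidableEq V] [DecidableEq E]

/-- boundary map `F_2^E → F_2^V` of a multigraph -/
def bdM (src tgt : E → V) : (E → ZMod 2) →ₗ[ZMod 2] (V → ZMod 2) where
  toFun c v := ∑ e, c e * ((if src e = v then 1 else 0) + (if tgt e = v then 1 else 0))
  map_add' a b := by ext v; simp [add_mul, Finset.sum_add_distrib]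
  map_smul' a b := by ext v; simp [Finset.mul_sum, mul_assoc]

/-- adjacency relation; its `Quot` is the set of components -/
def adjM (src tgt : E → V) (a b : V) : Prop := ∃ e, src e = a ∧ tgt e = b

/-- coboundary map -/
def cobM (src tgt : E → V) : (V → ZMod 2) →ₗ[ZMod 2] (E → ZMod 2) where
  toFun W e := W (src e) + W (tgt e)
  map_add' a b := by ext e; simp; ring
  map_smul' a b := by ext e; simp [mul_add]

/-- incidence matrix -/
def incM (src tgt : E → V) : Matrix V E (ZMod 2) :=
  fun v e => (if src e = v then 1 else 0) + (if tgt e = v then 1 else 0)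

omit [Fintype V] [DecidableEq E] in
theorem bdM_eq (src tgt : E → V) : bdM src tgt = (incM src tgt).mulVecLin := by
  ext c v
  simp only [bdM, incM, LinearMap.coe_comp, LinearMap.coe_mk, AddHom.coe_mk, LinearMap.coe_single,
    Function.comp_apply, Matrix.mulVecLin_apply, Matrix.mulVec, dotProduct]
  apply sum_congr rfl
  intro e _
  ring

omit [Fintype E] [DecidableEq E] in
theorem cobM_eq (src tgt : E → V) : cobM src tgt = (incM src tgt).transpose.mulVecLin := by
  apply LinearMap.ext
  intro W
  ext e
  simp only [cobM, incM, LinearMap.coe_mk, AddHom.coe_mk, Matrix.mulVecLin_apply, Matrix.mulVec,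
    dotProduct, Matrix.transpose_apply, add_mul, sum_add_distrib, ite_mul, one_mul, zero_mul,
    sum_ite_eq, mem_univ, if_true]

theorem finrank_range_bdM (src tgt : E → V) :
    Module.finrank (ZMod 2) (LinearMap.range (bdM src tgt))
      = Module.finrank (ZMod 2) (LinearMap.range (cobM src tgt)) := by
  rw [bdM_eq, cobM_eq]
  exact (Matrix.rank_transpose (incM src tgt)).symm

/-- the kernel of the coboundary map: functions on components -/
noncomputable def kerCob (src tgt : E → V) :
    LinearMap.ker (cobM src tgt) ≃ₗ[ZMod 2] (Quot (adjM src tgt) → ZMod 2) where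
  toFun W := Quot.lift W.1 (by
    rintro a b ⟨e, rfl, rfl⟩
    have h := congrFun (LinearMap.mem_ker.mp W.2) e
    exact CharTwo.add_eq_zero.mp h)
  invFun f := ⟨fun v => f (Quot.mk _ v), by
    rw [LinearMap.mem_ker]
    ext e
    simp only [cobM, LinearMap.coe_mk, AddHom.coe_mk, Pi.zero_apply]
    have : Quot.mk (adjM src tgt) (src e) = Quot.mk _ (tgt e) := Quot.sound ⟨e, rfl, rfl⟩
    rw [this]
    exact CharTwo.add_self_eq_zero _⟩
  left_inv W := by
    apply Subtype.ext
    rfl
  right_inv f := by
    ext q
    induction q using Quot.inductionOn with | _ q => ?_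
    rfl
  map_add' a b := by
    ext q
    induction q using Quot.inductionOn with | _ q => ?_
    rfl
  map_smul' a b := by
    ext q
    induction q using Quot.inductionOn with | _ q => ?_
    rfl

/-- dimension of the cycle space -/
theorem rank_cyc (src tgt : E → V) :
    Module.finrank (ZMod 2) (LinearMap.ker (bdM src tgt)) + Fintype.card V
      = Fintype.card E + Nat.card (Quot (adjM src tgt)) := by
  have h1 := LinearMap.finrank_range_add_finrank_ker (bdM src tgt)
  have h2 := LinearMap.finrank_range_add_finrank_ker (cobM src tgt)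
  have h3 := finrank_range_bdM src tgt
  rw [Module.finrank_fintype_fun_eq_card] at h1 h2
  have h4 : Module.finrank (ZMod 2) (LinearMap.ker (cobM src tgt)) = Nat.card (Quot (adjM src tgt)) := by
    have : Finite (Quot (adjM src tgt)) := Finite.of_surjective _ (Quot.mk_surjective)
    have : Fintype (Quot (adjM src tgt)) := Fintype.ofFinite _
    rw [(kerCob src tgt).finrank_eq, Module.finrank_fintype_fun_eq_card, Nat.card_eq_fintype_card]
  omega

/-- a combination over `ZMod 2` is a subset sum -/
theorem lc_subset {ι M : Type*} [Fintype ι] [AddCommGroup M] [Module (ZMod 2) M] (b : ι → M)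
    (g : ι → ZMod 2) : ∑ i, g i • b i = ∑ i ∈ univ.filter (fun i => g i = 1), b i := by
  rw [sum_filter]
  apply sum_congr rfl
  intro i _
  have h : g i = 0 ∨ g i = 1 := by
    generalize g i = x
    revert x
    decide
  rcases h with h | h
  · rw [h]; simp
  · rw [h]; simp

/-- a family of cycles without nonempty zero-sum subset -/
theorem rank_indep (src tgt : E → V) {ι : Type*} [Fintype ι] (b : ι → E → ZMod 2)
    (hb : ∀ i, bdM src tgt (b i) = 0)
    (hind : ∀ A : Finset ι, A.Nonempty → ∑ i ∈ A, b i ≠ 0) :
    Fintype.card ι + Fintype.card V ≤ Fintype.card E + Nat.card (Quot (adjM src tgt)) := by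
  rw [← rank_cyc]
  have hli : LinearIndependent (ZMod 2)
      (fun i => (⟨b i, LinearMap.mem_ker.mpr (hb i)⟩ : LinearMap.ker (bdM src tgt))) := by
    rw [Fintype.linearIndependent_iff]
    intro g hg i
    have h1 : ∑ i, g i • b i = 0 := by
      have := congrArg Subtype.val hg
      simpa using this
    rw [lc_subset] at h1
    by_contra hgi
    have h2 : (univ.filter (fun i => g i = 1)).Nonempty := by
      refine ⟨i, mem_filter.mpr ⟨mem_univ _, ?_⟩⟩
      revert hgi
      generalize g i = x
      revert x
      decide
    exact hind _ h2 h1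
  have := hli.fintype_card_le_finrank
  omega

/-- every cycle is a sum of members of `b` and the only zero-sum subsets are `∅` and `univ`:
then `|ι| - 1 = dim`, connected case -/
theorem rank_closed (src tgt : E → V) {ι : Type*} [Fintype ι] [Nonempty ι] (b : ι → E → ZMod 2)
    (hb : ∀ i, bdM src tgt (b i) = 0)
    (hind : ∀ A : Finset ι, A.Nonempty → A ≠ univ → ∑ i ∈ A, b i ≠ 0) :
    Fintype.card ι + Fintype.card V ≤ Fintype.card E + Nat.card (Quot (adjM src tgt)) + 1 := by
  classical
  obtain ⟨i0⟩ := ‹Nonempty ι›
  have h := rank_indep src tgt (ι := {i : ι // i ≠ i0}) (fun i => b i.1) (fun i => hb i.1) (by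
    intro A hA
    have h1 : ∑ i ∈ A, b i.1 = ∑ i ∈ A.map (Function.Embedding.subtype _), b i := by
      rw [sum_map]
      rfl
    rw [h1]
    apply hind
    · exact hA.map
    · intro h2
      have h3 : i0 ∈ A.map (Function.Embedding.subtype (fun i => i ≠ i0)) := by
        rw [h2]; exact mem_univ _
      rw [mem_map] at h3
      obtain ⟨x, _, hx⟩ := h3
      exact x.2 hx)
  have h2 : Fintype.card {i : ι // i ≠ i0} = Fintype.card ι - 1 := by
    rw [Fintype.card_subtype_compl, Fintype.card_subtype_eq]
  have h3 : 0 < Fintype.card ι := Fintype.card_pos_iff.mpr ⟨i0⟩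
  omega

/-- converse bound: if every cycle is a subset sum of `b`, then `dim ≤ |ι|` -/
theorem rank_span_le (src tgt : E → V) {ι : Type*} [Fintype ι] (b : ι → E → ZMod 2)
    (hspan : ∀ c : E → ZMod 2, bdM src tgt c = 0 → ∃ A : Finset ι, c = ∑ i ∈ A, b i) :
    Fintype.card E + Nat.card (Quot (adjM src tgt)) ≤ Fintype.card ι + Fintype.card V := by
  rw [← rank_cyc]
  have h1 : LinearMap.ker (bdM src tgt) ≤ Submodule.span (ZMod 2) (Set.range b) := by
    intro c hc
    obtain ⟨A, hA⟩ := hspan c (LinearMap.mem_ker.mp hc)
    rw [hA]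
    apply Submodule.sum_mem
    intro i _
    exact Submodule.subset_span ⟨i, rfl⟩
  have h2 := Submodule.finrank_mono h1
  have h3 : Module.finrank (ZMod 2) (Submodule.span (ZMod 2) (Set.range b)) ≤ Fintype.card ι :=
    finrank_range_le_card b
  omega

end

/-- duality: a chain orthogonal to all cycles is a cut -/
theorem cut_of_orth {V E : Type*} [Fintype V] [Fintype E] [DecidableEq V] [DecidableEq E]
    (src tgt : E → V) (c : E → ZMod 2)
    (h : ∀ z : E → ZMod 2, bdM src tgt z = 0 → ∑ e, c e * z e = 0) :
    ∃ W : V → ZMod 2, ∀ e, c e = W (src e) + W (tgt e) := by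
  let φ : Module.Dual (ZMod 2) (E → ZMod 2) :=
    { toFun := fun z => ∑ e, c e * z e
      map_add' := fun a b => by simp [mul_add, sum_add_distrib]
      map_smul' := fun a b => by
        simp only [Pi.smul_apply, smul_eq_mul, RingHom.id_apply, mul_sum]
        apply sum_congr rfl
        intro e _
        ring }
  have hφ : φ ∈ (LinearMap.ker (bdM src tgt)).dualAnnihilator := by
    rw [Submodule.mem_dualAnnihilator]
    intro z hz
    exact h z (LinearMap.mem_ker.mp hz)
  rw [← LinearMap.range_dualMap_eq_dualAnnihilator_ker] at hφ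
  obtain ⟨g, hg⟩ := hφ
  refine ⟨fun v => g (Pi.single v 1), fun e => ?_⟩
  have h1 : φ (Pi.single e 1) = c e := by
    show ∑ e', c e' * (Pi.single e 1 : E → ZMod 2) e' = c e
    rw [sum_eq_single e]
    · simp
    · intro b _ hb
      simp [Pi.single_eq_of_ne hb]
    · intro h; exact absurd (mem_univ _) h
  have h2 : bdM src tgt (Pi.single e 1) = Pi.single (src e) 1 + Pi.single (tgt e) 1 := by
    ext v
    show ∑ e', (Pi.single e 1 : E → ZMod 2) e' * ((if src e' = v then 1 else 0) + (if tgt e' = v then 1 else 0)) = _
    rw [sum_eq_single e]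
    · simp only [Pi.single_eq_same, one_mul, Pi.add_apply, Pi.single_apply]
      congr 1
      · simp only [eq_comm]
      · simp only [eq_comm]
    · intro b _ hb
      simp [Pi.single_eq_of_ne hb]
    · intro h; exact absurd (mem_univ _) h
  rw [← h1, ← hg, LinearMap.dualMap_apply, h2, map_add]

end Pool.Agent.SC
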