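import Pool.Agent.Lib.MP_d0323d_co.FamBasic
import Pool.Agent.Lib.MP_d0323d_co.Rank
import Pool.Agent.Lib.MP_d0323d_co.WalkBasic
/-! Module GLUE, part 1: `H_1 = 0` and `H^1 = 0` over `F_2` are equivalent for complexes, and
`H^1 = 0` for diagrams. -/
set_option autoImplicit false
namespace Pool.Agent.SC
open Finset

namespace Glue

theorem two_smul_zmod (a : ZMod 2) : a + a = 0 := CharTwo.add_self_eq_zero a

theorem zmod_two_cases (a : ZMod 2) : a = 0 ∨ a = 1 := by
  fin_cases a
  · exact Or.inl rfl
  · exact Or.inr rfl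

section
variable {V : Type} [Fintype V] [DecidableEq V]

/-- indicator of a set of pairs -/
def chi (A : Finset (Finset V)) : Finset V → ZMod 2 := fun e => if e ∈ A then 1 else 0

omit [Fintype V] in
theorem sum_bdF (B : Finset (Finset V)) (g : Finset V → ZMod 2) :
    ∑ e ∈ bdF B, g e = ∑ s ∈ B, ∑ e ∈ s.powersetCard 2, g e := by
  have h1 : ∑ s ∈ B, ∑ e ∈ s.powersetCard 2, g e =
      ∑ e ∈ edgs B, ∑ s ∈ B.filter (fun s => e ⊆ s), g e := by
    refine Finset.sum_comm' fun s e => ?_
    rw [mem_powersetCard, mem_edgs, mem_filter]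
    constructor
    · rintro ⟨hs, he, hc⟩
      exact ⟨⟨hs, he⟩, hc, s, hs, he⟩
    · rintro ⟨⟨hs, he⟩, hc, -⟩
      exact ⟨hs, he, hc⟩
  rw [h1]
  unfold bdF
  rw [sum_filter]
  refine sum_congr rfl fun e _ => ?_
  rw [sum_const, nsmul_eq_mul]
  change _ = ((edeg B e : ℕ) : ZMod 2) * g e
  by_cases h : Odd (edeg B e)
  · rw [if_pos h]
    rw [← ZMod.natCast_eq_one_iff_odd] at h
    rw [h, one_mul]
  · rw [if_neg h]
    rw [Nat.not_odd_iff_even, ← ZMod.natCast_eq_zero_iff_even] at h
    rw [h, zero_mul]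

/-- `H_1 = 0` implies that cocycles have a potential -/
theorem pot_of_h1 (E F : Finset (Finset V)) (hE : ∀ e ∈ E, e.card = 2)
    (h1 : ∀ A ⊆ E, EvenSet A → ∃ B ⊆ F, bdF B = A) (g : Finset V → ZMod 2)
    (hg : ∀ s ∈ F, ∑ e ∈ s.powersetCard 2, g e = 0) :
    ∃ W : V → ZMod 2, ∀ a b : V, ({a, b} : Finset V) ∈ E → g {a, b} = W a + W b := by
  classical
  have h2 : ∀ e : {e // e ∈ E}, ∃ a b : V, a ≠ b ∧ (e : Finset V) = {a, b} := fun e =>
    card_eq_two.1 (hE e e.2)
  choose src tgt hne hst using h2
  obtain ⟨W, hW⟩ := cut_of_orth src tgt (fun e => g e) (fun z hz => by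
    obtain ⟨A, hA⟩ : ∃ A, A = (E.attach.filter (fun e => z e = 1)).image Subtype.val := ⟨_, rfl⟩
    have hmemA : ∀ e : {e // e ∈ E}, (e : Finset V) ∈ A ↔ z e = 1 := by
      intro e
      rw [hA, mem_image]
      constructor
      · rintro ⟨e', he', h⟩
        rw [mem_filter] at he'
        rw [← Subtype.ext h]
        exact he'.2
      · intro h
        exact ⟨e, mem_filter.2 ⟨mem_attach _ _, h⟩, rfl⟩
    have hAE : A ⊆ E := by
      intro e he
      rw [hA, mem_image] at he
      obtain ⟨e', -, rfl⟩ := he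
      exact e'.2
    have hsum : ∀ f : Finset V → ZMod 2, ∑ e : {e // e ∈ E}, f e * z e = ∑ e ∈ A, f e := by
      intro f
      rw [hA, sum_image (fun a _ b _ h => Subtype.ext h), sum_filter, univ_eq_attach]
      refine sum_congr rfl fun e _ => ?_
      rcases zmod_two_cases (z e) with h | h
      · rw [h, mul_zero, if_neg (by decide)]
      · rw [h, mul_one, if_pos rfl]
    have hev : EvenSet A := by
      refine ⟨fun e he => hE e (hAE he), fun x => ?_⟩
      rw [← ZMod.natCast_eq_zero_iff_even]
      have h3 := congrFun hz x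
      change ∑ e, z e * ((if src e = x then 1 else 0) + (if tgt e = x then 1 else 0)) = 0 at h3
      have h4 : ((A.filter (fun e => x ∈ e)).card : ZMod 2) =
          ∑ e ∈ A, (if x ∈ e then (1 : ZMod 2) else 0) := by
        rw [← sum_filter, sum_const, nsmul_eq_mul, mul_one]
      rw [h4, ← hsum (fun e => if x ∈ e then (1 : ZMod 2) else 0)]
      refine Eq.trans (sum_congr rfl fun e _ => ?_) h3
      rw [mul_comm]
      congr 1
      have h5 : x ∈ (e : Finset V) ↔ x = src e ∨ x = tgt e := by
        conv_lhs => rw [hst e]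
        rw [mem_insert, mem_singleton]
      by_cases ha : src e = x
      · have hb : tgt e ≠ x := fun hb => hne e (ha.trans hb.symm)
        rw [if_pos ha, if_neg hb, if_pos (h5.2 (Or.inl ha.symm)), add_zero]
      · by_cases hb : tgt e = x
        · rw [if_neg ha, if_pos hb, if_pos (h5.2 (Or.inr hb.symm)), zero_add]
        · have h6 : x ∉ (e : Finset V) := by
            intro h
            rcases h5.1 h with h | h
            · exact ha h.symm
            · exact hb h.symm
          rw [if_neg ha, if_neg hb, if_neg h6, add_zero]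
    obtain ⟨B, hB, hBA⟩ := h1 A hAE hev
    rw [hsum g, ← hBA, sum_bdF]
    exact sum_eq_zero fun s hs => hg s (hB hs))
  refine ⟨W, fun a b hab => ?_⟩
  have h3 := hW ⟨_, hab⟩
  have h4 := hst ⟨_, hab⟩
  change ({a, b} : Finset V) = {src ⟨_, hab⟩, tgt ⟨_, hab⟩} at h4
  rw [h3]
  have ha : a = src ⟨_, hab⟩ ∨ a = tgt ⟨_, hab⟩ := by
    have : a ∈ ({a, b} : Finset V) := by simp
    rw [h4] at this
    simpa using this
  have hb : b = src ⟨_, hab⟩ ∨ b = tgt ⟨_, hab⟩ := by
    have : b ∈ ({a, b} : Finset V) := by simp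
    rw [h4] at this
    simpa using this
  have hab' : a ≠ b := by
    intro h
    have := hE _ hab
    rw [h] at this
    simp at this
  rcases ha with ha | ha
  · rcases hb with hb | hb
    · exact absurd (ha.trans hb.symm) hab'
    · rw [← ha, ← hb]
  · rcases hb with hb | hb
    · rw [← ha, ← hb, add_comm]
    · exact absurd (ha.trans hb.symm) hab'

/-- potentials for all cocycles imply `H_1 = 0` -/
theorem h1_of_pot (E F : Finset (Finset V))
    (hFE : ∀ s ∈ F, ∀ e ∈ s.powersetCard 2, e ∈ E)
    (hpot : ∀ g : Finset V → ZMod 2, (∀ s ∈ F, ∑ e ∈ s.powersetCard 2, g e = 0) →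
      ∃ W : V → ZMod 2, ∀ a b : V, ({a, b} : Finset V) ∈ E → g {a, b} = W a + W b) :
    ∀ A ⊆ E, EvenSet A → ∃ B ⊆ F, bdF B = A := by
  classical
  intro A hAE hA
  have _ := hFE
  let S : Submodule (ZMod 2) (Finset V → ZMod 2) :=
    Submodule.span (ZMod 2) ((fun s : Finset V => chi (s.powersetCard 2)) '' (F : Set (Finset V)))
  have hφ : ∀ (φ : Module.Dual (ZMod 2) (Finset V → ZMod 2)) (P : Finset (Finset V)),
      φ (chi P) = ∑ e ∈ P, φ (Pi.single e 1) := by
    intro φ P
    rw [← map_sum]
    congr 1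
    funext e
    rw [Finset.sum_apply]
    unfold chi
    by_cases he : e ∈ P
    · rw [if_pos he, sum_eq_single e]
      · simp
      · intro b _ hb
        exact Pi.single_eq_of_ne (Ne.symm hb) _
      · intro h; exact absurd he h
    · rw [if_neg he]
      symm
      refine sum_eq_zero fun b hb => ?_
      refine Pi.single_eq_of_ne ?_ _
      rintro rfl
      exact he hb
  by_cases hS : chi A ∈ S
  · rw [Submodule.mem_span_image_finset_iff_exists_fun] at hS
    obtain ⟨c0, hc0⟩ := hS
    obtain ⟨c, hcc⟩ : ∃ c : Finset V → ZMod 2, ∀ s : {s // s ∈ F}, c s = c0 s :=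
      ⟨fun s => if h : s ∈ F then c0 ⟨s, h⟩ else 0, fun s => dif_pos s.2⟩
    have hc : ∑ s ∈ F, c s • chi (s.powersetCard 2) = chi A := by
      rw [← hc0, ← Finset.sum_coe_sort F]
      exact sum_congr rfl fun s _ => by rw [hcc]
    refine ⟨F.filter (fun s => c s = 1), filter_subset _ _, ?_⟩
    ext e
    rw [mem_bdF]
    have h3 : e.card = 2 → (((edeg (F.filter (fun s => c s = 1)) e : ℕ) : ZMod 2) = chi A e) := by
      intro he
      rw [← hc, Finset.sum_apply]
      unfold edeg
      rw [filter_filter, card_filter]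
      push_cast
      refine sum_congr rfl fun s _ => ?_
      unfold chi
      simp only [Pi.smul_apply, smul_eq_mul, mem_powersetCard]
      rcases zmod_two_cases (c s) with h | h
      · rw [h, zero_mul, if_neg]
        rintro ⟨h', -⟩
        exact absurd h' (by decide)
      · rw [h, one_mul]
        by_cases h' : e ⊆ s
        · rw [if_pos ⟨rfl, h'⟩, if_pos ⟨h', he⟩]
        · rw [if_neg (fun hh => h' hh.2), if_neg (fun hh => h' hh.1)]
    constructor
    · rintro ⟨he, hodd⟩
      rw [← ZMod.natCast_eq_one_iff_odd, h3 he] at hodd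
      unfold chi at hodd
      by_contra hcon
      rw [if_neg hcon] at hodd
      exact absurd hodd (by decide)
    · intro he
      have he2 := hA.1 e he
      refine ⟨he2, ?_⟩
      rw [← ZMod.natCast_eq_one_iff_odd, h3 he2]
      unfold chi
      rw [if_pos he]
  · exfalso
    obtain ⟨φ, hφA, hφS⟩ := Submodule.exists_dual_map_eq_bot_of_notMem hS inferInstance
    have hg : ∀ s ∈ F, ∑ e ∈ s.powersetCard 2, φ (Pi.single e 1) = 0 := by
      intro s hs
      rw [← hφ]
      have h4 : φ (chi (s.powersetCard 2)) ∈ S.map φ :=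
        Submodule.mem_map_of_mem (Submodule.subset_span ⟨s, hs, rfl⟩)
      rw [hφS, Submodule.mem_bot] at h4
      exact h4
    obtain ⟨W, hW⟩ := hpot (fun e => φ (Pi.single e 1)) hg
    apply hφA
    rw [hφ]
    have h5 : ∑ e ∈ A, φ (Pi.single e 1) = ∑ e ∈ A, ∑ x : V, (if x ∈ e then W x else 0) := by
      refine sum_congr rfl fun e he => ?_
      obtain ⟨a, b, hab, rfl⟩ := card_eq_two.1 (hA.1 e he)
      rw [← sum_filter]
      have h6 : univ.filter (fun x => x ∈ ({a, b} : Finset V)) = {a, b} := by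
        ext x; simp
      rw [h6, sum_pair hab]
      exact hW a b (hAE he)
    rw [h5, sum_comm]
    refine sum_eq_zero fun x _ => ?_
    rw [← sum_filter, sum_const, nsmul_eq_mul, (ZMod.natCast_eq_zero_iff_even).2 (hA.2 x), zero_mul]

end

section
variable {n : ℕ} {Pol : List (Fin n) → Prop}

theorem sum_dcnt {E : Type} [Fintype E] [DecidableEq E] (g : E → ZMod 2) (l : List (E × Bool)) :
    ∑ e, g e * (dcnt l e : ZMod 2) = (l.map (fun d => g d.1)).sum := by
  induction l with
  | nil => simp [dcnt]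
  | cons d l ih =>
    rw [List.map_cons, List.sum_cons, ← ih]
    have h1 : ∀ e : E, g e * (dcnt (d :: l) e : ZMod 2) =
        (if d.1 = e then g e else 0) + g e * (dcnt l e : ZMod 2) := by
      intro e
      unfold dcnt
      rw [List.countP_cons]
      by_cases h : d.1 = e
      · simp only [h, decide_true, if_true]
        push_cast
        ring
      · simp only [h, decide_false, if_false]
        push_cast
        simp
    simp only [h1]
    rw [sum_add_distrib, sum_ite_eq, if_pos (mem_univ _)]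

theorem sum_dcnt_list {V E : Type} [Fintype E] [DecidableEq E] (g : E → ZMod 2)
    (sub : List (V × List (E × Bool))) :
    ∑ e, g e * (((sub.map (fun c => dcnt c.2 e)).sum : ℕ) : ZMod 2) =
      (sub.map (fun c => (c.2.map (fun d => g d.1)).sum)).sum := by
  induction sub with
  | nil => simp
  | cons c sub ih =>
    rw [List.map_cons, List.sum_cons, ← ih, ← sum_dcnt, ← sum_add_distrib]
    refine sum_congr rfl fun e _ => ?_
    rw [List.map_cons, List.sum_cons]
    push_cast
    ring

/-- cocycles of a diagram have a potential -/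
theorem dia_pot (D : Dia n Pol) (g : D.E → ZMod 2)
    (hg : ∀ c ∈ D.cells, (c.2.map (fun d => g d.1)).sum = 0) :
    ∃ W : D.V → ZMod 2, ∀ e, g e = W (D.s e) + W (D.t e) := by
  let i1 := D.fV
  let i2 := D.fE
  let i3 := D.dV
  let i4 := D.dE
  refine cut_of_orth D.s D.t g fun z hz => ?_
  obtain ⟨sub, hsub, hz'⟩ := D.h1 z (fun v => congrFun hz v)
  have h1 : ∑ e, g e * z e =
      ∑ e, g e * (((sub.map (fun c => dcnt c.2 e)).sum : ℕ) : ZMod 2) :=
    sum_congr rfl fun e _ => by rw [hz' e]
  rw [h1, sum_dcnt_list]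
  refine List.sum_eq_zero fun x hx => ?_
  rw [List.mem_map] at hx
  obtain ⟨c, hc, rfl⟩ := hx
  exact hg c (hsub.subset hc)

end

end Glue

end Pool.Agent.SC
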