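import Pool.Agent.Lib.MP_d0323d_co.ExpBound
import Pool.Agent.Lib.MP_d0323d_co.ClosedFam
/-! Module GROWTH (1.4, 1.6): doubling and the growth constant. -/
set_option autoImplicit false
namespace Pool.Agent.SC
open Finset

section Glue
variable {α : Type*} [DecidableEq α]

theorem edeg_disj_union {A B : Finset (Finset α)} (h : Disjoint A B) (e : Finset α) :
    edeg (A ∪ B) e = edeg A e + edeg B e := by
  unfold edeg
  rw [filter_union, card_union_of_disjoint]
  exact disjoint_filter_filter h

theorem edeg_erase {S : Finset (Finset α)} {σ : Finset α} (hσ : σ ∈ S) (e : Finset α) :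
    edeg S e = edeg (S.erase σ) e + (if e ⊆ σ then 1 else 0) := by
  conv_lhs => rw [← insert_erase hσ]
  unfold edeg
  rw [filter_insert]
  split_ifs with h
  · rw [card_insert_of_notMem]
    intro h'
    exact notMem_erase _ _ (mem_filter.1 h').1
  · rfl

theorem eadj_of_pair {s t e : Finset α} (hs : s.card = 3) (ht : t.card = 3) (he : e.card = 2)
    (h1 : e ⊆ s) (h2 : e ⊆ t) (hst : s ≠ t) : EAdj s t := by
  unfold EAdj
  have h3 : 2 ≤ (s ∩ t).card := by
    rw [← he]
    exact card_le_card (subset_inter h1 h2)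
  have h4 : (s ∩ t).card < 3 := by
    by_contra hcon
    push Not at hcon
    have h5 : s ∩ t = s := eq_of_subset_of_card_le inter_subset_left (by omega)
    have h6 : s ∩ t = t := eq_of_subset_of_card_le inter_subset_right (by omega)
    exact hst (h5.symm.trans h6)
  omega

/-- a family in which the only adjacency-closed subfamilies are trivial is dual connected -/
theorem dualConn_of_closed {S : Finset (Finset α)}
    (h : ∀ B ⊆ S, B.Nonempty → (∀ s ∈ B, ∀ t ∈ S, EAdj s t → t ∈ B) → B = S) : DualConn S := by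
  classical
  intro s hs t ht
  have := h (S.filter (fun t => Relation.ReflTransGen (fun a b => a ∈ S ∧ b ∈ S ∧ EAdj a b) s t))
    (filter_subset _ _) ⟨s, mem_filter.2 ⟨hs, Relation.ReflTransGen.refl⟩⟩ (by
      intro u hu v hv huv
      rw [mem_filter] at hu ⊢
      exact ⟨hv, hu.2.tail ⟨hu.1, hv, huv⟩⟩)
  rw [← this, mem_filter] at ht
  exact ht.2

theorem bdF_of_closed_sub {S B : Finset (Finset α)} (hF : IsFam S) (hc : Closed S) (hB : B ⊆ S)
    (hcl : ∀ s ∈ B, ∀ t ∈ S, EAdj s t → t ∈ B) : bdF B = ∅ := by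
  rw [eq_empty_iff_forall_notMem]
  intro e he
  rw [mem_bdF] at he
  obtain ⟨he2, hodd⟩ := he
  have hpos : 0 < edeg B e := hodd.pos
  obtain ⟨s, hs, hes⟩ := edeg_pos.1 hpos
  have : edeg B e = edeg S e := by
    unfold edeg
    congr 1
    ext t
    simp only [mem_filter]
    constructor
    · rintro ⟨h1, h2⟩
      exact ⟨hB h1, h2⟩
    · rintro ⟨h1, h2⟩
      refine ⟨?_, h2⟩
      by_cases hst : s = t
      · exact hst ▸ hs
      · exact hcl s hs t h1 (eadj_of_pair (hF s (hB hs)) (hF t h1) he2 hes h2 hst)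
  rw [this] at hodd
  rcases hc e he2 with h | h <;> rw [h] at hodd <;> revert hodd <;> decide

/-- through every pair of a member there is another member -/
theorem exists_other {S : Finset (Finset α)} (hc : Closed S) {s e : Finset α} (hs : s ∈ S)
    (he : e.card = 2) (hes : e ⊆ s) : ∃ t ∈ S, t ≠ s ∧ e ⊆ t := by
  have hpos : 0 < edeg S e := edeg_pos.2 ⟨s, hs, hes⟩
  have h2 : edeg S e = 2 := by rcases hc e he with h | h <;> omega
  have := edeg_erase hs e
  rw [if_pos hes] at this
  have : 0 < edeg (S.erase s) e := by omega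
  obtain ⟨t, ht, het⟩ := edeg_pos.1 this
  exact ⟨t, mem_of_mem_erase ht, ne_of_mem_erase ht, het⟩

theorem verts_erase {S : Finset (Finset α)} (hF : IsFam S) (hc : Closed S) (σ : Finset α) :
    verts (S.erase σ) = verts S := by
  apply Subset.antisymm (verts_mono (erase_subset _ _))
  intro x hx
  obtain ⟨s, hs, hxs⟩ := mem_verts.1 hx
  by_cases h : s = σ
  · obtain ⟨y, hy, hxy⟩ : ∃ y ∈ s, y ≠ x := by
      have : 1 < s.card := by rw [hF s hs]; norm_num
      obtain ⟨y, hy, hyx⟩ := exists_mem_ne this x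
      exact ⟨y, hy, hyx⟩
    obtain ⟨t, ht, hts, het⟩ := exists_other hc hs (e := {x, y}) (card_pair hxy.symm) (by
      intro z hz
      simp only [mem_insert, mem_singleton] at hz
      rcases hz with rfl | rfl <;> assumption)
    exact mem_verts.2 ⟨t, mem_erase.2 ⟨h ▸ hts, ht⟩, het (by simp)⟩
  · exact mem_verts.2 ⟨s, mem_erase.2 ⟨h, hs⟩, hxs⟩

theorem bdF_singleton {σ : Finset α} : bdF {σ} = σ.powersetCard 2 := by
  ext e
  rw [mem_bdF, mem_powersetCard]
  unfold edeg
  rw [filter_singleton]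
  constructor
  · rintro ⟨h1, h2⟩
    split_ifs at h2 with h
    · exact ⟨h, h1⟩
    · simp at h2
  · rintro ⟨h1, h2⟩
    rw [if_pos h1]
    exact ⟨h2, by simp⟩

theorem sphere_four_le {S : Finset (Finset α)} (hS : IsSphere S) : 4 ≤ (verts S).card := by
  obtain ⟨hF, hc, hd, ⟨s, hs⟩, hPh⟩ := hS
  obtain ⟨e, hes, he2⟩ := exists_subset_card_eq (s := s) (n := 2) (by rw [hF s hs]; norm_num)
  obtain ⟨t, ht, hts, het⟩ := exists_other hc hs he2 hes
  have hadj := eadj_of_pair (hF s hs) (hF t ht) he2 hes het hts.symm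
  have h1 : (s ∪ t).card + (s ∩ t).card = s.card + t.card := card_union_add_card_inter s t
  have h2 : s ∪ t ⊆ verts S := by
    intro x hx
    rcases mem_union.1 hx with hx | hx
    · exact mem_verts.2 ⟨s, hs, hx⟩
    · exact mem_verts.2 ⟨t, ht, hx⟩
  have h3 := card_le_card h2
  unfold EAdj at hadj
  rw [hF s hs, hF t ht] at h1
  omega

theorem sphere_card {S : Finset (Finset α)} (hS : IsSphere S) :
    S.card + 4 = 2 * (verts S).card := by
  have := hS.2.2.2.2
  unfold Ph2 at this
  omega

/-- the only cycle in the pairs of a triple is the boundary of the triple -/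
theorem even_in_triple {σ : Finset α} (hσ : σ.card = 3) {A : Finset (Finset α)} (hA : EvenSet A)
    (hs : A ⊆ σ.powersetCard 2) : A = ∅ ∨ A = σ.powersetCard 2 := by
  by_cases h : A = ∅
  · exact Or.inl h
  · right
    apply eq_of_subset_of_card_le hs
    rw [card_powersetCard, hσ]
    have := hA.three_le (nonempty_iff_ne_empty.2 h)
    exact this

/-- connected sum along a common member -/
theorem csum {S1 S2 : Finset (Finset α)} {σ : Finset α} (h1 : IsSphere S1) (h2 : IsSphere S2)
    (hσ1 : σ ∈ S1) (hσ2 : σ ∈ S2) (hV : verts S1 ∩ verts S2 ⊆ σ) :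
    IsSphere (S1.erase σ ∪ S2.erase σ) ∧ verts (S1.erase σ ∪ S2.erase σ) = verts S1 ∪ verts S2 := by
  have hc1 := sphere_card h1
  have hc2 := sphere_card h2
  have h41 := sphere_four_le h1
  have h42 := sphere_four_le h2
  obtain ⟨hF1, hcl1, hd1, hne1, hP1⟩ := h1
  obtain ⟨hF2, hcl2, hd2, hne2, hP2⟩ := h2
  have hσ3 := hF1 σ hσ1
  have hVeq : verts S1 ∩ verts S2 = σ := by
    apply Subset.antisymm hV
    intro x hx
    exact mem_inter.2 ⟨mem_verts.2 ⟨σ, hσ1, hx⟩, mem_verts.2 ⟨σ, hσ2, hx⟩⟩
  have hcommon : ∀ s ∈ S1, s ∈ S2 → s = σ := by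
    intro s hs1 hs2
    apply eq_of_subset_of_card_le
    · intro x hx
      exact hV (mem_inter.2 ⟨mem_verts.2 ⟨s, hs1, hx⟩, mem_verts.2 ⟨s, hs2, hx⟩⟩)
    · rw [hσ3, hF1 s hs1]
  have hdisj : Disjoint (S1.erase σ) (S2.erase σ) := by
    rw [disjoint_left]
    intro s hs hs'
    exact ne_of_mem_erase hs (hcommon s (mem_of_mem_erase hs) (mem_of_mem_erase hs'))
  have hverts : verts (S1.erase σ ∪ S2.erase σ) = verts S1 ∪ verts S2 := by
    have : verts (S1.erase σ ∪ S2.erase σ) = verts (S1.erase σ) ∪ verts (S2.erase σ) := by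
      unfold verts
      rw [union_biUnion]
    rw [this, verts_erase hF1 hcl1, verts_erase hF2 hcl2]
  have hfam : IsFam (S1.erase σ ∪ S2.erase σ) := by
    intro s hs
    rcases mem_union.1 hs with hs | hs
    · exact hF1 s (mem_of_mem_erase hs)
    · exact hF2 s (mem_of_mem_erase hs)
  have hclosed : Closed (S1.erase σ ∪ S2.erase σ) := by
    intro e he
    rw [edeg_disj_union hdisj]
    have e1 := edeg_erase hσ1 e
    have e2 := edeg_erase hσ2 e
    by_cases heσ : e ⊆ σ
    · rw [if_pos heσ] at e1 e2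
      rcases hcl1 e he with h | h
      · omega
      rcases hcl2 e he with h' | h'
      · omega
      right
      omega
    · rw [if_neg heσ] at e1 e2
      have h0 : edeg S1 e = 0 ∨ edeg S2 e = 0 := by
        by_contra hcon
        push Not at hcon
        obtain ⟨s, hs, hes⟩ := edeg_pos.1 (Nat.pos_of_ne_zero hcon.1)
        obtain ⟨t, ht, het⟩ := edeg_pos.1 (Nat.pos_of_ne_zero hcon.2)
        apply heσ
        intro x hx
        exact hV (mem_inter.2 ⟨mem_verts.2 ⟨s, hs, hes hx⟩, mem_verts.2 ⟨t, ht, het hx⟩⟩)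
      rcases h0 with h0 | h0
      · rcases hcl2 e he with h | h
        · left; omega
        · right; omega
      · rcases hcl1 e he with h | h
        · left; omega
        · right; omega
  refine ⟨⟨hfam, hclosed, ?_, ?_, ?_⟩, hverts⟩
  · -- dual connectedness
    apply dualConn_of_closed
    intro B hB hBne hBcl
    have hbd := bdF_of_closed_sub hfam hclosed hB hBcl
    set B1 := B ∩ S1.erase σ with hB1
    set B2 := B ∩ S2.erase σ with hB2
    have hB12 : B = symmDiff B1 B2 := by
      ext s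
      rw [mem_symmDiff, hB1, hB2, mem_inter, mem_inter]
      constructor
      · intro hs
        rcases mem_union.1 (hB hs) with h | h
        · exact Or.inl ⟨⟨hs, h⟩, fun h' => disjoint_left.1 hdisj h h'.2⟩
        · exact Or.inr ⟨⟨hs, h⟩, fun h' => disjoint_left.1 hdisj h'.2 h⟩
      · rintro (⟨h, -⟩ | ⟨h, -⟩) <;> exact h.1
    have hB1S : B1 ⊆ S1 := inter_subset_right.trans (erase_subset _ _)
    have hB2S : B2 ⊆ S2 := inter_subset_right.trans (erase_subset _ _)
    have hσB1 : σ ∉ B1 := fun h => notMem_erase _ _ (mem_inter.1 h).2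
    have hσB2 : σ ∉ B2 := fun h => notMem_erase _ _ (mem_inter.1 h).2
    have hbd12 : bdF B1 = bdF B2 := by
      rw [hB12, bdF_symmDiff] at hbd
      exact symmDiff_eq_bot.1 hbd
    have hsub : bdF B1 ⊆ σ.powersetCard 2 := by
      intro e he
      have he' := he
      rw [hbd12] at he'
      rw [mem_bdF] at he he'
      obtain ⟨s, hs, hes⟩ := edeg_pos.1 he.2.pos
      obtain ⟨t, ht, het⟩ := edeg_pos.1 he'.2.pos
      rw [mem_powersetCard]
      refine ⟨?_, he.1⟩
      intro x hx
      exact hV (mem_inter.2 ⟨mem_verts.2 ⟨s, hB1S hs, hes hx⟩, mem_verts.2 ⟨t, hB2S ht, het hx⟩⟩)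
    have hev : EvenSet (bdF B1) := bdF_even (fun s hs => hF1 s (hB1S hs))
    rcases even_in_triple hσ3 hev hsub with h | h
    · -- empty
      exfalso
      have g1 : B1 = ∅ := by
        rcases closed_bd_empty hF1 hcl1 hd1 hB1S h with g | g
        · exact g
        · exact absurd (g ▸ hσ1) hσB1
      have g2 : B2 = ∅ := by
        rcases closed_bd_empty hF2 hcl2 hd2 hB2S (hbd12 ▸ h) with g | g
        · exact g
        · exact absurd (g ▸ hσ2) hσB2
      rw [g1, g2] at hB12
      rw [hB12] at hBne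
      simp at hBne
    · -- everything
      have key : ∀ (S : Finset (Finset α)) (C : Finset (Finset α)), IsFam S → Closed S →
          DualConn S → σ ∈ S → C ⊆ S → σ ∉ C → bdF C = σ.powersetCard 2 → S.erase σ ⊆ C := by
        intro S C hF hcl hd hσ hC hσC hbC
        have hbi : bdF (insert σ C) = ∅ := by
          have : insert σ C = symmDiff {σ} C := by
            ext s
            rw [mem_symmDiff, mem_insert, mem_singleton]
            constructor
            · rintro (rfl | hs)
              · exact Or.inl ⟨rfl, hσC⟩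
              · by_cases hh : s = σ
                · exact absurd (hh ▸ hs) hσC
                · exact Or.inr ⟨hs, hh⟩
            · rintro (⟨rfl, -⟩ | ⟨hs, -⟩)
              · exact Or.inl rfl
              · exact Or.inr hs
          rw [this, bdF_symmDiff, bdF_singleton, hbC, symmDiff_self]
          rfl
        rcases closed_bd_empty hF hcl hd (insert_subset hσ hC) hbi with g | g
        · exact absurd g (insert_ne_empty _ _)
        · intro s hs
          have : s ∈ insert σ C := g ▸ mem_of_mem_erase hs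
          exact (mem_insert.1 this).resolve_left (ne_of_mem_erase hs)
      have g1 := key S1 B1 hF1 hcl1 hd1 hσ1 hB1S hσB1 h
      have g2 := key S2 B2 hF2 hcl2 hd2 hσ2 hB2S hσB2 (hbd12 ▸ h)
      apply Subset.antisymm hB
      intro s hs
      rcases mem_union.1 hs with hs | hs
      · exact (mem_inter.1 (g1 hs)).1
      · exact (mem_inter.1 (g2 hs)).1
  · have : 0 < (S1.erase σ ∪ S2.erase σ).card := by
      rw [card_union_of_disjoint hdisj, card_erase_of_mem hσ1, card_erase_of_mem hσ2]
      omega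
    exact card_pos.1 this
  · unfold Ph2
    rw [hverts, card_union_of_disjoint hdisj, card_erase_of_mem hσ1, card_erase_of_mem hσ2]
    have := card_union_add_card_inter (verts S1) (verts S2)
    rw [hVeq, hσ3] at this
    have p1 : 1 ≤ S1.card := card_pos.2 ⟨σ, hσ1⟩
    have p2 : 1 ≤ S2.card := card_pos.2 ⟨σ, hσ2⟩
    push_cast [Nat.cast_sub p1, Nat.cast_sub p2]
    omega

/-- the boundary of a tetrahedron -/
theorem tetra {A : Finset α} (hA : A.card = 4) :
    IsSphere (A.powersetCard 3) ∧ verts (A.powersetCard 3) = A := by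
  have hV : verts (A.powersetCard 3) = A := by
    apply Subset.antisymm
    · intro x hx
      obtain ⟨s, hs, hxs⟩ := mem_verts.1 hx
      exact (mem_powersetCard.1 hs).1 hxs
    · intro x hx
      obtain ⟨s, hxs, hsA, hs⟩ := exists_subsuperset_card_eq (s := {x}) (t := A) (n := 3)
        (by simpa using hx) (by simp) (by omega)
      exact mem_verts.2 ⟨s, mem_powersetCard.2 ⟨hsA, hs⟩, hxs (by simp)⟩
  refine ⟨⟨fun s hs => (mem_powersetCard.1 hs).2, ?_, ?_, ?_, ?_⟩, hV⟩
  · intro e he
    by_cases heA : e ⊆ A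
    · right
      have : (A.powersetCard 3).filter (fun s => e ⊆ s) = (A \ e).image (fun x => insert x e) := by
        ext s
        simp only [mem_filter, mem_powersetCard, mem_image, mem_sdiff]
        constructor
        · rintro ⟨⟨hsA, hs⟩, hes⟩
          have h1 : (s \ e).card = 1 := by rw [card_sdiff_of_subset hes]; omega
          obtain ⟨x, hx⟩ := card_eq_one.1 h1
          have hxs : x ∈ s \ e := by rw [hx]; simp
          refine ⟨x, ⟨hsA (mem_sdiff.1 hxs).1, (mem_sdiff.1 hxs).2⟩, ?_⟩
          have := sdiff_union_of_subset hes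
          rw [hx] at this
          rw [← this]
          rfl
        · rintro ⟨x, ⟨hxA, hxe⟩, rfl⟩
          exact ⟨⟨insert_subset hxA heA, by rw [card_insert_of_notMem hxe, he]⟩, subset_insert _ _⟩
      unfold edeg
      rw [this, card_image_of_injOn, card_sdiff_of_subset heA]
      · omega
      · intro x hx y hy hxy
        simp only [coe_sdiff, Set.mem_sdiff, mem_coe] at hx hy
        simp only at hxy
        have : x ∈ insert y e := by
          rw [← hxy]
          exact mem_insert_self _ _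
        exact (mem_insert.1 this).resolve_right hx.2
    · left
      unfold edeg
      rw [card_eq_zero, filter_eq_empty_iff]
      intro s hs hes
      exact heA (hes.trans (mem_powersetCard.1 hs).1)
  · intro s hs t ht
    by_cases hst : s = t
    · rw [hst]
    · refine Relation.ReflTransGen.single ⟨hs, ht, ?_⟩
      rw [mem_powersetCard] at hs ht
      unfold EAdj
      have h1 := card_union_add_card_inter s t
      have h2 : (s ∪ t).card ≤ 4 := hA ▸ card_le_card (union_subset hs.1 ht.1)
      have h3 : (s ∩ t).card < 3 := by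
        by_contra hcon
        push Not at hcon
        have h5 : s ∩ t = s := eq_of_subset_of_card_le inter_subset_left (by omega)
        have h6 : s ∩ t = t := eq_of_subset_of_card_le inter_subset_right (by omega)
        exact hst (h5.symm.trans h6)
      omega
  · rw [← card_pos, card_powersetCard, hA]
    decide
  · unfold Ph2
    rw [hV, card_powersetCard, hA]
    decide

theorem mapF_isDisc {β : Type*} [DecidableEq β] (f : α ↪ β) {b : Finset α} {D : Finset (Finset α)} :
    IsDisc (b.map f) (mapF f D) ↔ IsDisc b D := by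
  unfold IsDisc
  rw [map_mem_mapF, ← mapF_insert, mapF_isSphere]

end Glue

theorem exists_emb {α : Type} [Fintype α] [DecidableEq α] (b I : Finset α) (hb : b.card = 3)
    (hI : Disjoint b I) : ∃ f : Fin (I.card + 3) ↪ α, (univ : Finset (Fin (I.card + 3))).map f = b ∪ I ∧
      (tri0 I.card).map f = b := by
  obtain ⟨p, q, r, hpq, hpr, hqr, hbe⟩ := card_eq_three.1 hb
  have h01 : (1 : Fin (I.card + 3)) ≠ 0 := by
    intro h
    have := congrArg Fin.val h
    simp at this
  have h02 : (2 : Fin (I.card + 3)) ≠ 0 := by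
    intro h
    have := congrArg Fin.val h
    simp only [Fin.val_two, Fin.val_zero] at this
    omega
  have h12 : (2 : Fin (I.card + 3)) ≠ 1 := by
    intro h
    have := congrArg Fin.val h
    simp only [Fin.val_two, Fin.val_one] at this
    omega
  set g : Fin (I.card + 3) → α := fun x => if x = 0 then p else if x = 1 then q else r with hg
  have g0 : g 0 = p := by simp [hg]
  have g1 : g 1 = q := by simp [hg, h01]
  have g2 : g 2 = r := by simp [hg, h02, h12]
  have himg : (tri0 I.card).image g = b := by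
    unfold tri0
    rw [image_insert, image_insert, image_singleton, g0, g1, g2, hbe]
  have hcard : Fintype.card (Fin (I.card + 3)) = (b ∪ I).card := by
    rw [Fintype.card_fin, card_union_of_disjoint hI, hb, add_comm]
  obtain ⟨φ, hφ⟩ := Finset.exists_equiv_extend_of_card_eq hcard (s := tri0 I.card) (f := g)
    (by rw [himg]; exact subset_union_left) (by
      intro x hx y hy hxy
      simp only [tri0, coe_insert, coe_singleton, Set.mem_insert_iff, Set.mem_singleton_iff] at hx hy
      rcases hx with rfl | rfl | rfl <;> rcases hy with rfl | rfl | rfl <;>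
        simp only [g0, g1, g2] at hxy <;> first | rfl | exact absurd hxy ‹_› | exact absurd hxy.symm ‹_›)
  refine ⟨φ.toEmbedding.trans (Function.Embedding.subtype _), ?_, ?_⟩
  · ext x
    simp only [mem_map, mem_univ, true_and, Function.Embedding.trans_apply,
      Equiv.coe_toEmbedding, Function.Embedding.subtype_apply]
    constructor
    · rintro ⟨a, rfl⟩
      exact (φ a).2
    · intro hx
      exact ⟨φ.symm ⟨x, hx⟩, by simp⟩
  · refine Eq.trans ?_ himg
    rw [map_eq_image]
    apply image_congr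
    intro x hx
    exact hφ x hx

/-- discs with given boundary triple and given interior vertices -/
theorem card_discs {α : Type} [Fintype α] [DecidableEq α] (b I : Finset α) (hb : b.card = 3)
    (hI : Disjoint b I) (hI1 : I.Nonempty) :
    Nat.card {D : Finset (Finset α) // IsDisc b D ∧ verts (insert b D) = b ∪ I} = dsc I.card := by
  classical
  obtain ⟨f, hf1, hf2⟩ := exists_emb b I hb hI
  have h1 : dsc I.card = Nat.card {D : Finset (Finset (Fin (I.card + 3))) //
      IsDisc (tri0 I.card) D ∧ verts (insert (tri0 I.card) D) = univ} := by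
    unfold dsc
    rw [Nat.card_eq_fintype_card, Fintype.card_subtype]
  rw [h1]
  symm
  refine Nat.card_congr (Equiv.ofBijective
    (fun S => (⟨mapF f S.1, by
      refine ⟨?_, ?_⟩
      · have := (mapF_isDisc f).2 S.2.1
        rwa [hf2] at this
      · have : insert b (mapF f S.1) = mapF f (insert (tri0 I.card) S.1) := by
          rw [mapF_insert, hf2]
        rw [this, mapF_verts, S.2.2, hf1]⟩ :
      {D : Finset (Finset α) // IsDisc b D ∧ verts (insert b D) = b ∪ I})) ⟨?_, ?_⟩)
  · intro S T h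
    apply Subtype.ext
    exact mapF_injective f (congrArg Subtype.val h)
  · rintro ⟨S', hS', hv⟩
    obtain ⟨S, hS, -⟩ := exists_mapF f (S' := S') (A := univ) (by
      rw [hf1, ← hv]
      exact verts_mono (subset_insert _ _))
    refine ⟨⟨S, ?_, ?_⟩, Subtype.ext hS⟩
    · rw [← mapF_isDisc f, hf2, hS]
      exact hS'
    · apply Finset.map_injective f
      rw [← mapF_verts, mapF_insert, hf2, hS, hv, hf1]

open Classical in
/-- the finset of discs -/
noncomputable def discs {α : Type} [Fintype α] [DecidableEq α] (b I : Finset α) :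
    Finset (Finset (Finset α)) :=
  univ.filter (fun D => IsDisc b D ∧ verts (insert b D) = b ∪ I)

theorem mem_discs {α : Type} [Fintype α] [DecidableEq α] {b I : Finset α} {D : Finset (Finset α)} :
    D ∈ discs b I ↔ IsDisc b D ∧ verts (insert b D) = b ∪ I := by
  simp [discs]

theorem card_discs' {α : Type} [Fintype α] [DecidableEq α] (b I : Finset α) (hb : b.card = 3)
    (hI : Disjoint b I) (hI1 : I.Nonempty) : (discs b I).card = dsc I.card := by
  classical
  rw [← card_discs b I hb hI hI1, Nat.card_eq_fintype_card, Fintype.card_subtype]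
  rfl

theorem tri0_card (i : ℕ) : (tri0 i).card = 3 := by
  unfold tri0
  rw [card_eq_three]
  refine ⟨0, 1, 2, ?_, ?_, ?_, rfl⟩
  · intro h
    have := congrArg Fin.val h
    simp only [Fin.val_zero, Fin.val_one] at this
    omega
  · intro h
    have := congrArg Fin.val h
    simp only [Fin.val_zero, Fin.val_two] at this
    omega
  · intro h
    have := congrArg Fin.val h
    simp only [Fin.val_one, Fin.val_two] at this
    omega

/-- double count `(S, face)`: `C(v,3) d_{v-3} = (2v-4) s_v` -/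
theorem dsc_sph (i : ℕ) (hi : 1 ≤ i) :
    (i + 3).choose 3 * dsc i = (2 * (i + 3) - 4) * sph (i + 3) := by
  classical
  set Sp : Finset (Finset (Finset (Fin (i + 3)))) :=
    univ.filter (fun S => IsSphere S ∧ verts S = univ) with hSp
  have hsph : sph (i + 3) = Sp.card := by
    unfold sph
    rw [hSp]
  have h1 : ∀ b ∈ (univ : Finset (Fin (i + 3))).powersetCard 3,
      (Sp.filter (fun S => b ∈ S)).card = dsc i := by
    intro b hb
    have hb3 := (mem_powersetCard.1 hb).2
    have hc : (univ \ b : Finset (Fin (i + 3))).card = i := by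
      rw [card_sdiff_of_subset (subset_univ _), card_univ, Fintype.card_fin, hb3]
      rfl
    have := card_discs' b (univ \ b) hb3 disjoint_sdiff (card_pos.1 (by omega))
    rw [hc] at this
    rw [← this]
    refine card_bij' (fun S _ => S.erase b) (fun D _ => insert b D) ?_ ?_ ?_ ?_
    · intro S hS
      obtain ⟨hS, hbS⟩ := mem_filter.1 hS
      obtain ⟨-, hS, hv⟩ := mem_filter.1 hS
      rw [mem_discs, insert_erase hbS, hv]
      refine ⟨⟨notMem_erase _ _, by rw [insert_erase hbS]; exact hS⟩, ?_⟩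
      rw [union_sdiff_of_subset (subset_univ _)]
    · intro D hD
      rw [mem_discs] at hD
      rw [mem_filter, hSp, mem_filter]
      refine ⟨⟨mem_univ _, hD.1.2, ?_⟩, mem_insert_self _ _⟩
      rw [hD.2, union_sdiff_of_subset (subset_univ _)]
    · intro S hS
      exact insert_erase (mem_filter.1 hS).2
    · intro D hD
      rw [mem_discs] at hD
      exact erase_insert hD.1.1
  have h2 : ∀ S ∈ Sp, (((univ : Finset (Fin (i + 3))).powersetCard 3).filter (fun b => b ∈ S)).card
      = 2 * (i + 3) - 4 := by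
    intro S hS
    obtain ⟨-, hS, hv⟩ := mem_filter.1 hS
    have : ((univ : Finset (Fin (i + 3))).powersetCard 3).filter (fun b => b ∈ S) = S := by
      ext b
      rw [mem_filter, mem_powersetCard]
      constructor
      · exact fun h => h.2
      · exact fun h => ⟨⟨subset_univ _, hS.1 b h⟩, h⟩
    rw [this]
    have := sphere_card hS
    rw [hv, card_univ, Fintype.card_fin] at this
    omega
  have h3 := sum_card_bipartiteAbove_eq_sum_card_bipartiteBelow
    (s := (univ : Finset (Fin (i + 3))).powersetCard 3) (t := Sp) (fun b S => b ∈ S)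
  unfold bipartiteAbove bipartiteBelow at h3
  rw [sum_congr rfl h1, sum_congr rfl h2, sum_const, sum_const, card_powersetCard, card_univ,
    Fintype.card_fin, smul_eq_mul, smul_eq_mul] at h3
  rw [hsph, h3, mul_comm]

/-- gluing a disc into a member of a disc -/
theorem glue_disc {α : Type*} [DecidableEq α] {b σ I1 I2 : Finset α} {D1 D2 : Finset (Finset α)}
    (h1 : IsDisc b D1) (hv1 : verts (insert b D1) = b ∪ I1) (h2 : IsDisc σ D2)
    (hv2 : verts (insert σ D2) = σ ∪ I2) (hσ : σ ∈ D1) (hdis : Disjoint (b ∪ I1) I2) :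
    IsDisc b (D1.erase σ ∪ D2) ∧ verts (insert b (D1.erase σ ∪ D2)) = b ∪ (I1 ∪ I2) ∧
      insert b (D1.erase σ ∪ D2) = (insert b D1).erase σ ∪ (insert σ D2).erase σ ∧ b ∉ D2 := by
  obtain ⟨hb, hS1⟩ := h1
  obtain ⟨hσ2, hS2⟩ := h2
  have hbσ : b ≠ σ := fun h => hb (h ▸ hσ)
  have hσV : σ ⊆ b ∪ I1 := by
    intro x hx
    rw [← hv1]
    exact mem_verts.2 ⟨σ, mem_insert_of_mem hσ, hx⟩
  have hbD2 : b ∉ D2 := by
    intro h
    apply hbσ
    apply eq_of_subset_of_card_le
    · intro x hx
      have : x ∈ verts (insert σ D2) := mem_verts.2 ⟨b, mem_insert_of_mem h, hx⟩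
      rw [hv2, mem_union] at this
      rcases this with h | h
      · exact h
      · exact absurd h (disjoint_left.1 hdis (mem_union_left _ hx))
    · rw [hS1.1 b (mem_insert_self _ _), hS2.1 σ (mem_insert_self _ _)]
  have heq : insert b (D1.erase σ ∪ D2) = (insert b D1).erase σ ∪ (insert σ D2).erase σ := by
    rw [erase_insert hσ2, erase_insert_of_ne hbσ, insert_union]
  obtain ⟨hS, hV⟩ := csum (σ := σ) hS1 hS2 (mem_insert_of_mem hσ) (mem_insert_self _ _) (by
    rw [hv1, hv2]
    intro x hx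
    obtain ⟨hx1, hx2⟩ := mem_inter.1 hx
    rcases mem_union.1 hx2 with h | h
    · exact h
    · exact absurd h (disjoint_left.1 hdis hx1))
  refine ⟨⟨?_, by rw [heq]; exact hS⟩, ?_, heq, hbD2⟩
  · rw [mem_union]
    rintro (h | h)
    · exact hb (mem_of_mem_erase h)
    · exact hbD2 h
  · rw [heq, hV, hv1, hv2]
    ext x
    simp only [mem_union]
    constructor
    · rintro ((h | h) | (h | h))
      · exact Or.inl h
      · exact Or.inr (Or.inl h)
      · have := hσV h
        rw [mem_union] at this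
        tauto
      · exact Or.inr (Or.inr h)
    · tauto

/-- coning: `d_{i+1} ≥ (2i+1) d_i` -/
theorem dsc_succ (i : ℕ) (hi : 1 ≤ i) : (2 * i + 1) * dsc i ≤ dsc (i + 1) := by
  classical
  set b := tri0 (i + 1) with hb
  have hb3 : b.card = 3 := tri0_card _
  set z : Fin (i + 1 + 3) := Fin.last _ with hz
  have hzb : z ∉ b := by
    rw [hb]
    unfold tri0
    simp only [mem_insert, mem_singleton, not_or]
    refine ⟨?_, ?_, ?_⟩ <;>
    · intro h
      have := congrArg Fin.val h
      simp only [hz, Fin.val_last, Fin.val_zero, Fin.val_one, Fin.val_two] at this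
      omega
  set I : Finset (Fin (i + 1 + 3)) := univ \ insert z b with hI
  have hIc : I.card = i := by
    rw [hI, card_sdiff_of_subset (subset_univ _), card_univ, Fintype.card_fin,
      card_insert_of_notMem hzb, hb3]
    omega
  have hIb : Disjoint b I := by
    rw [hI, disjoint_left]
    intro x hx hx'
    exact (mem_sdiff.1 hx').2 (mem_insert_of_mem hx)
  have hzI : z ∉ I := by
    rw [hI]
    simp
  have hd := card_discs' b I hb3 hIb (card_pos.1 (by omega))
  have hbI : b ∪ (I ∪ {z}) = univ := by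
    ext x
    simp only [hI, mem_union, mem_sdiff, mem_univ, true_and, mem_insert, mem_singleton, iff_true]
    tauto
  rw [hIc] at hd
  have hd' := card_discs' b (I ∪ {z}) hb3 (by
    rw [disjoint_union_right]
    exact ⟨hIb, by simpa using hzb⟩) ⟨z, by simp⟩
  have hIz : (I ∪ {z}).card = i + 1 := by
    rw [card_union_of_disjoint (by simpa using hzI), hIc, card_singleton]
  rw [hIz] at hd'
  rw [← hd, ← hd']
  -- number of pairs
  have hpairs : ((discs b I).sigma (fun D => D)).card = (2 * i + 1) * (discs b I).card := by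
    rw [card_sigma, sum_congr rfl (g := fun _ => 2 * i + 1), sum_const, smul_eq_mul, mul_comm]
    intro D hD
    rw [mem_discs] at hD
    have h1 := sphere_card hD.1.2
    rw [hD.2, card_union_of_disjoint hIb, hb3, hIc, card_insert_of_notMem hD.1.1] at h1
    omega
  rw [← hpairs]
  have htet : ∀ D ∈ discs b I, ∀ f ∈ D, z ∉ f ∧ f.card = 3 ∧
      IsDisc f ((insert z f).powersetCard 3 |>.erase f) ∧
      verts (insert f ((insert z f).powersetCard 3 |>.erase f)) = f ∪ {z} := by
    intro D hD f hf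
    rw [mem_discs] at hD
    have hf3 : f.card = 3 := hD.1.2.1 f (mem_insert_of_mem hf)
    have hzf : z ∉ f := by
      intro h
      have : z ∈ verts (insert b D) := mem_verts.2 ⟨f, mem_insert_of_mem hf, h⟩
      rw [hD.2, mem_union] at this
      rcases this with h | h
      · exact hzb h
      · exact hzI h
    have h4 : (insert z f).card = 4 := by rw [card_insert_of_notMem hzf, hf3]
    obtain ⟨hT, hTv⟩ := tetra h4
    have hmem : f ∈ (insert z f).powersetCard 3 := mem_powersetCard.2 ⟨subset_insert _ _, hf3⟩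
    refine ⟨hzf, hf3, ⟨notMem_erase _ _, by rw [insert_erase hmem]; exact hT⟩, ?_⟩
    rw [insert_erase hmem, hTv]
    ext x
    simp only [mem_insert, mem_union, mem_singleton]
    tauto
  refine card_le_card_of_injOn
    (fun x => x.1.erase x.2 ∪ ((insert z x.2).powersetCard 3).erase x.2) ?_ ?_
  · rintro ⟨D, f⟩ hx
    obtain ⟨hD, hf⟩ := mem_sigma.1 hx
    simp only at hD hf
    obtain ⟨hzf, hf3, hdt, hvt⟩ := htet D hD f hf
    rw [mem_discs] at hD
    rw [mem_coe, mem_discs]
    have := glue_disc hD.1 hD.2 hdt hvt hf (by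
      rw [disjoint_singleton_right, mem_union]
      rintro (h | h)
      · exact hzb h
      · exact hzI h)
    exact ⟨this.1, this.2.1⟩
  · rintro ⟨D, f⟩ hx ⟨D', f'⟩ hx' heq
    obtain ⟨hD, hf⟩ := mem_sigma.1 hx
    obtain ⟨hD', hf'⟩ := mem_sigma.1 hx'
    simp only at hD hf hD' hf' heq
    obtain ⟨hzf, hf3, -, -⟩ := htet D hD f hf
    obtain ⟨hzf', hf3', -, -⟩ := htet D' hD' f' hf'
    -- members without z
    have key : ∀ (D : Finset (Finset (Fin (i + 1 + 3)))) (f : Finset (Fin (i + 1 + 3))),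
        D ∈ discs b I → z ∉ f → f ∈ D → f.card = 3 →
        (D.erase f ∪ ((insert z f).powersetCard 3).erase f).filter (fun s => z ∉ s) = D.erase f ∧
        (((D.erase f ∪ ((insert z f).powersetCard 3).erase f).filter (fun s => z ∈ s)).sup id).erase z
          = f := by
      intro D f hD hzf hf hf3
      have hzD : ∀ s ∈ D, z ∉ s := by
        intro s hs h
        rw [mem_discs] at hD
        have : z ∈ verts (insert b D) := mem_verts.2 ⟨s, mem_insert_of_mem hs, h⟩
        rw [hD.2, mem_union] at this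
        rcases this with h | h
        · exact hzb h
        · exact hzI h
      constructor
      · ext s
        simp only [mem_filter, mem_union, mem_erase, mem_powersetCard]
        constructor
        · rintro ⟨h | h, hz⟩
          · exact h
          · exfalso
            apply h.1
            apply eq_of_subset_of_card_le
            · intro x hx
              rcases mem_insert.1 (h.2.1 hx) with rfl | h'
              · exact absurd hx hz
              · exact h'
            · rw [h.2.2, hf3]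
        · intro h
          exact ⟨Or.inl h, hzD s h.2⟩
      · ext x
        rw [mem_erase, mem_sup]
        simp only [mem_filter, mem_union, mem_erase, mem_powersetCard, id]
        constructor
        · rintro ⟨hxz, s, ⟨h | h, hzs⟩, hxs⟩
          · exact absurd hzs (hzD s h.2)
          · exact (mem_insert.1 (h.2.1 hxs)).resolve_left hxz
        · intro hx
          refine ⟨fun h => hzf (h ▸ hx), ?_⟩
          obtain ⟨y, hy, hyx⟩ := exists_mem_ne (by omega : 1 < f.card) x
          refine ⟨insert z (f.erase y), ⟨Or.inr ⟨?_, ?_, ?_⟩, mem_insert_self _ _⟩,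
            mem_insert_of_mem (mem_erase.2 ⟨hyx.symm, hx⟩)⟩
          · intro h
            exact hzf (h ▸ mem_insert_self _ _)
          · exact insert_subset_insert _ (erase_subset _ _)
          · rw [card_insert_of_notMem (fun h => hzf (mem_of_mem_erase h)), card_erase_of_mem hy, hf3]
    obtain ⟨k1, k2⟩ := key D f hD hzf hf hf3
    obtain ⟨k1', k2'⟩ := key D' f' hD' hzf' hf' hf3'
    rw [heq, k2'] at k2
    rw [heq, k1'] at k1
    subst k2
    have : D = D' := by
      rw [← insert_erase hf, ← k1, insert_erase hf']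
    subst this
    rfl

theorem dsc_one : 1 ≤ dsc 1 := by
  classical
  have h4 : (univ : Finset (Fin (1 + 3))).card = 4 := by simp
  obtain ⟨hT, hTv⟩ := tetra h4
  have hmem : tri0 1 ∈ (univ : Finset (Fin (1 + 3))).powersetCard 3 :=
    mem_powersetCard.2 ⟨subset_univ _, tri0_card 1⟩
  unfold dsc
  rw [Nat.one_le_iff_ne_zero, Ne, card_eq_zero, ← Ne, ← nonempty_iff_ne_empty]
  refine ⟨((univ : Finset (Fin (1 + 3))).powersetCard 3).erase (tri0 1), ?_⟩
  rw [mem_filter]
  refine ⟨mem_univ _, ⟨notMem_erase _ _, by rw [insert_erase hmem]; exact hT⟩, ?_⟩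
  rw [insert_erase hmem, hTv]

/-- 1.4 -/
theorem dsc_ge (i : ℕ) (hi : 1 ≤ i) : i.factorial ≤ dsc i := by
  induction i, hi using Nat.le_induction with
  | base => simpa using dsc_one
  | succ i hi ih =>
    rw [Nat.factorial_succ]
    calc (i + 1) * i.factorial ≤ (2 * i + 1) * dsc i := Nat.mul_le_mul (by omega) ih
      _ ≤ dsc (i + 1) := dsc_succ i hi

/-- 1.6 gluing inequality -/
theorem dsc_mul (i1 i2 : ℕ) (h1 : 1 ≤ i1) (h2 : 1 ≤ i2) :
    (i1 + i2).choose i1 * (dsc i1 * dsc i2) ≤ dsc (i1 + i2) * (i1 + i2 + 3) ^ 3 := by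
  classical
  set b := tri0 (i1 + i2) with hb
  have hb3 : b.card = 3 := tri0_card _
  set I : Finset (Fin (i1 + i2 + 3)) := univ \ b with hI
  have hIc : I.card = i1 + i2 := by
    rw [hI, card_sdiff_of_subset (subset_univ _), card_univ, Fintype.card_fin, hb3]
    rfl
  have hIb : Disjoint b I := disjoint_sdiff
  have hbI : b ∪ I = univ := union_sdiff_of_subset (subset_univ _)
  -- a chosen member
  set ch : Finset (Finset (Fin (i1 + i2 + 3))) → Finset (Fin (i1 + i2 + 3)) :=
    fun D => if h : D.Nonempty then h.choose else ∅ with hch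
  have hchm : ∀ D : Finset (Finset (Fin (i1 + i2 + 3))), D.Nonempty → ch D ∈ D := by
    intro D hD
    simp only [hch, dif_pos hD]
    exact hD.choose_spec
  set X := (I.powersetCard i1).sigma (fun J => (discs b J).sigma (fun D => discs (ch D) (I \ J)))
    with hX
  have hfacts : ∀ J ∈ I.powersetCard i1, ∀ D ∈ discs b J, ch D ∈ D ∧ (ch D).card = 3 ∧
      Disjoint (b ∪ J) (I \ J) ∧ Disjoint (ch D) (I \ J) ∧ (I \ J).card = i2 ∧
      D.card = 2 * i1 + 1 := by
    intro J hJ D hD
    rw [mem_powersetCard] at hJ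
    rw [mem_discs] at hD
    have hbJ : Disjoint b J := disjoint_of_subset_right hJ.1 hIb
    have hc := sphere_card hD.1.2
    rw [hD.2, card_union_of_disjoint hbJ, hb3, hJ.2, card_insert_of_notMem hD.1.1] at hc
    have hne : D.Nonempty := card_pos.1 (by omega)
    have hm := hchm D hne
    have hdis : Disjoint (b ∪ J) (I \ J) := by
      rw [disjoint_union_left]
      exact ⟨disjoint_of_subset_right sdiff_subset hIb, disjoint_sdiff⟩
    refine ⟨hm, hD.1.2.1 _ (mem_insert_of_mem hm), hdis, ?_, ?_, by omega⟩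
    · refine disjoint_of_subset_left ?_ hdis
      rw [← hD.2]
      intro x hx
      exact mem_verts.2 ⟨_, mem_insert_of_mem hm, hx⟩
    · rw [card_sdiff_of_subset hJ.1, hIc, hJ.2]
      omega
  have hXc : X.card = (i1 + i2).choose i1 * (dsc i1 * dsc i2) := by
    rw [hX, card_sigma, sum_congr rfl (g := fun _ => dsc i1 * dsc i2), sum_const, smul_eq_mul,
      card_powersetCard, hIc]
    intro J hJ
    rw [card_sigma, sum_congr rfl (g := fun _ => dsc i2), sum_const, smul_eq_mul]
    · have hJ' := mem_powersetCard.1 hJ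
      rw [card_discs' b J hb3 (disjoint_of_subset_right hJ'.1 hIb) (card_pos.1 (by omega)), hJ'.2]
    · intro D hD
      obtain ⟨g1, g2, g3, g4, g5, g6⟩ := hfacts J hJ D hD
      rw [card_discs' (ch D) (I \ J) g2 g4 (card_pos.1 (by omega)), g5]
  have hYc : ((discs b I) ×ˢ ((univ : Finset (Fin (i1 + i2 + 3))).powersetCard 3)).card
      ≤ dsc (i1 + i2) * (i1 + i2 + 3) ^ 3 := by
    rw [card_product, card_discs' b I hb3 hIb (card_pos.1 (by omega)), hIc, card_powersetCard,
      card_univ, Fintype.card_fin]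
    exact Nat.mul_le_mul_left _ (Nat.choose_le_pow _ _)
  rw [← hXc]
  refine le_trans ?_ hYc
  refine card_le_card_of_injOn (fun x => (x.2.1.erase (ch x.2.1) ∪ x.2.2, ch x.2.1)) ?_ ?_
  · rintro ⟨J, D, D2⟩ hx
    rw [hX, mem_coe, mem_sigma, mem_sigma] at hx
    obtain ⟨hJ, hD, hD2⟩ := hx
    simp only at hJ hD hD2
    obtain ⟨g1, g2, g3, g4, g5, g6⟩ := hfacts J hJ D hD
    rw [mem_discs] at hD hD2
    obtain ⟨k1, k2, k3, k4⟩ := glue_disc hD.1 hD.2 hD2.1 hD2.2 g1 g3
    simp only [coe_product, Set.mem_prod, mem_coe]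
    refine ⟨mem_discs.2 ⟨k1, ?_⟩, mem_powersetCard.2 ⟨subset_univ _, g2⟩⟩
    rw [k2, union_sdiff_of_subset (mem_powersetCard.1 hJ).1]
  · rintro ⟨J, D, D2⟩ hx ⟨J', D', D2'⟩ hx' heq
    rw [hX, mem_coe, mem_sigma, mem_sigma] at hx hx'
    obtain ⟨hJ, hD, hD2⟩ := hx
    obtain ⟨hJ', hD', hD2'⟩ := hx'
    simp only at hJ hD hD2 hJ' hD' hD2'
    obtain ⟨g1, g2, g3, g4, g5, g6⟩ := hfacts J hJ D hD
    obtain ⟨g1', g2', g3', g4', g5', g6'⟩ := hfacts J' hJ' D' hD'
    rw [mem_discs] at hD hD2 hD' hD2'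
    obtain ⟨k1, k2, k3, k4⟩ := glue_disc hD.1 hD.2 hD2.1 hD2.2 g1 g3
    obtain ⟨k1', k2', k3', k4'⟩ := glue_disc hD'.1 hD'.2 hD2'.1 hD2'.2 g1' g3'
    simp only [Prod.mk.injEq] at heq
    obtain ⟨heq1, hσ⟩ := heq
    rw [← hσ] at heq1 g1' hD2' k3' k1'
    set σ := ch D with hσdef
    rw [← heq1] at k3' k1'
    set S := insert b (D.erase σ ∪ D2) with hS
    set A := (insert b D).erase σ with hA
    set A' := (insert b D').erase σ with hA'
    have hbσ : b ≠ σ := fun h => hD.1.1 (h ▸ g1)
    have hbA : b ∈ A := mem_erase.2 ⟨hbσ, mem_insert_self _ _⟩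
    have hbA' : b ∈ A' := mem_erase.2 ⟨hbσ, mem_insert_self _ _⟩
    have hAS : A ⊆ S := by rw [k3]; exact subset_union_left
    have hAS' : A' ⊆ S := by rw [k3']; exact subset_union_left
    have hbd : ∀ T : Finset (Finset (Fin (i1 + i2 + 3))), Closed T → σ ∈ T →
        bdF (T.erase σ) = σ.powersetCard 2 := by
      intro T hT hσT
      ext e
      rw [mem_bdF, mem_powersetCard]
      constructor
      · rintro ⟨he, hodd⟩
        refine ⟨?_, he⟩
        by_contra hcon
        have := edeg_erase hσT e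
        rw [if_neg hcon, add_zero] at this
        rw [← this] at hodd
        rcases hT e he with h | h <;> rw [h] at hodd <;> revert hodd <;> decide
      · rintro ⟨hes, he⟩
        refine ⟨he, ?_⟩
        have := edeg_erase hσT e
        rw [if_pos hes] at this
        rcases hT e he with h | h
        · omega
        · have : edeg (T.erase σ) e = 1 := by omega
          rw [this]
          decide
    have hAA : A = A' := by
      have hz : bdF (symmDiff A A') = ∅ := by
        rw [bdF_symmDiff, hbd _ hD.1.2.2.1 (mem_insert_of_mem g1),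
          hbd _ hD'.1.2.2.1 (mem_insert_of_mem g1'), symmDiff_self]
        rfl
      have hsub : symmDiff A A' ⊆ S := by
        intro s hs
        rcases mem_symmDiff.1 hs with h | h
        · exact hAS h.1
        · exact hAS' h.1
      rcases closed_bd_empty k1.2.1 k1.2.2.1 k1.2.2.2.1 hsub hz with h | h
      · exact symmDiff_eq_bot.1 h
      · exfalso
        have : b ∈ symmDiff A A' := h ▸ mem_insert_self _ _
        rcases mem_symmDiff.1 this with h | h
        · exact h.2 hbA'
        · exact h.2 hbA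
    have hDD : D = D' := by
      have e1 : insert b D = insert b D' := by
        rw [← insert_erase (mem_insert_of_mem g1 : σ ∈ insert b D),
          ← insert_erase (mem_insert_of_mem g1' : σ ∈ insert b D'), ← hA, ← hA', hAA]
      rw [← erase_insert hD.1.1, e1, erase_insert hD'.1.1]
    subst hDD
    have hJJ : J = J' := by
      have e1 : b ∪ J = b ∪ J' := by rw [← hD.2, ← hD'.2]
      have d1 : Disjoint b J := disjoint_of_subset_right (mem_powersetCard.1 hJ).1 hIb
      have d2 : Disjoint b J' := disjoint_of_subset_right (mem_powersetCard.1 hJ').1 hIb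
      calc J = (b ∪ J) \ b := by rw [union_sdiff_cancel_left d1]
        _ = (b ∪ J') \ b := by rw [e1]
        _ = J' := by rw [union_sdiff_cancel_left d2]
    subst hJJ
    have hdisj : ∀ D2 : Finset (Finset (Fin (i1 + i2 + 3))), IsDisc σ D2 →
        verts (insert σ D2) = σ ∪ (I \ J) → Disjoint (D.erase σ) D2 := by
      intro D2 hd hv
      rw [disjoint_left]
      intro s hs hs2
      apply ne_of_mem_erase hs
      apply eq_of_subset_of_card_le
      · intro x hx
        have : x ∈ verts (insert σ D2) := mem_verts.2 ⟨s, mem_insert_of_mem hs2, hx⟩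
        rw [hv, mem_union] at this
        rcases this with h | h
        · exact h
        · have h' : x ∈ b ∪ J := by
            rw [← hD.2]
            exact mem_verts.2 ⟨s, mem_insert_of_mem (mem_of_mem_erase hs), hx⟩
          exact absurd h (disjoint_left.1 g3 h')
      · rw [g2, hD.1.2.1 s (mem_insert_of_mem (mem_of_mem_erase hs))]
    have hD2D2 : D2 = D2' := by
      calc D2 = (D.erase σ ∪ D2) \ D.erase σ := by
            rw [union_sdiff_cancel_left (hdisj D2 hD2.1 hD2.2)]
        _ = (D.erase σ ∪ D2') \ D.erase σ := by rw [heq1]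
        _ = D2' := by rw [union_sdiff_cancel_left (hdisj D2' hD2'.1 hD2'.2)]
    subst hD2D2
    rfl

/-- `τ_i = d_i / i!` in terms of spheres -/
theorem tau_sph (i : ℕ) (hi : 1 ≤ i) :
    (dsc i : ℝ) / (i.factorial : ℝ) =
      6 * (2 * (i : ℝ) + 2) * ((sph (i + 3) : ℝ) / ((i + 3).factorial : ℝ)) := by
  have h1 := dsc_sph i hi
  have h2 : (i + 3).choose 3 * 6 * i.factorial = (i + 3).factorial := by
    have := Nat.add_choose_mul_factorial_mul_factorial i 3
    rw [show Nat.factorial 3 = 6 from rfl] at this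
    rw [← this]
    ring
  have h1' : ((i + 3).choose 3 : ℝ) * (dsc i : ℝ) = (2 * (i : ℝ) + 2) * (sph (i + 3) : ℝ) := by
    have : (2 * (i + 3) - 4) = 2 * i + 2 := by omega
    rw [this] at h1
    exact_mod_cast h1
  have h2' : ((i + 3).choose 3 : ℝ) * 6 * (i.factorial : ℝ) = ((i + 3).factorial : ℝ) := by
    exact_mod_cast h2
  have hi0 : (0 : ℝ) < (i.factorial : ℝ) := by exact_mod_cast Nat.factorial_pos i
  have hi3 : (0 : ℝ) < ((i + 3).factorial : ℝ) := by exact_mod_cast Nat.factorial_pos (i + 3)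
  rw [← mul_div_assoc, div_eq_div_iff hi0.ne' hi3.ne', ← h2']
  linear_combination 6 * (i.factorial : ℝ) * h1'

theorem tau_double {m : ℕ} (hm : 3 ≤ m) {Γ : ℝ} (hΓ : 0 < Γ)
    (h : 216 * (m : ℝ) ^ 3 * Γ ^ m ≤ (dsc m : ℝ) / (m.factorial : ℝ)) :
    216 * ((2 * m : ℕ) : ℝ) ^ 3 * Γ ^ (2 * m) ≤ (dsc (2 * m) : ℝ) / ((2 * m).factorial : ℝ) := by
  have h1 := dsc_mul m m (by omega) (by omega)
  have h2 := Nat.add_choose_mul_factorial_mul_factorial m m
  rw [← two_mul] at h1 h2
  have hm0 : (0 : ℝ) < (m.factorial : ℝ) := by exact_mod_cast Nat.factorial_pos m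
  have h2m0 : (0 : ℝ) < ((2 * m).factorial : ℝ) := by exact_mod_cast Nat.factorial_pos (2 * m)
  have h1' : ((2 * m).choose m : ℝ) * ((dsc m : ℝ) * (dsc m : ℝ))
      ≤ (dsc (2 * m) : ℝ) * (2 * (m : ℝ) + 3) ^ 3 := by exact_mod_cast h1
  have h2' : ((2 * m).choose m : ℝ) * (m.factorial : ℝ) * (m.factorial : ℝ)
      = ((2 * m).factorial : ℝ) := by exact_mod_cast h2
  set T := (dsc m : ℝ) / (m.factorial : ℝ) with hT
  set U := (dsc (2 * m) : ℝ) / ((2 * m).factorial : ℝ) with hU
  have hTU : T ^ 2 ≤ U * (2 * (m : ℝ) + 3) ^ 3 := by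
    have e1 : T ^ 2 * ((2 * m).factorial : ℝ)
        = ((2 * m).choose m : ℝ) * ((dsc m : ℝ) * (dsc m : ℝ)) := by
      rw [hT, ← h2']
      field_simp
    have e2 : U * (2 * (m : ℝ) + 3) ^ 3 * ((2 * m).factorial : ℝ)
        = (dsc (2 * m) : ℝ) * (2 * (m : ℝ) + 3) ^ 3 := by
      rw [hU]
      field_simp
    have : T ^ 2 * ((2 * m).factorial : ℝ)
        ≤ U * (2 * (m : ℝ) + 3) ^ 3 * ((2 * m).factorial : ℝ) := by
      rw [e1, e2]
      exact h1'
    exact le_of_mul_le_mul_right this h2m0
  have hm3 : (3 : ℝ) ≤ (m : ℝ) := by exact_mod_cast hm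
  have hU0 : 0 ≤ U := by positivity
  have h3 : (2 * (m : ℝ) + 3) ^ 3 ≤ 27 * (m : ℝ) ^ 3 := by
    calc (2 * (m : ℝ) + 3) ^ 3 ≤ (3 * (m : ℝ)) ^ 3 := by
          apply pow_le_pow_left₀ (by positivity)
          linarith
      _ = 27 * (m : ℝ) ^ 3 := by ring
  have h4 : (216 * (m : ℝ) ^ 3 * Γ ^ m) ^ 2 ≤ U * (27 * (m : ℝ) ^ 3) := by
    calc (216 * (m : ℝ) ^ 3 * Γ ^ m) ^ 2 ≤ T ^ 2 := pow_le_pow_left₀ (by positivity) h 2
      _ ≤ U * (2 * (m : ℝ) + 3) ^ 3 := hTU
      _ ≤ U * (27 * (m : ℝ) ^ 3) := mul_le_mul_of_nonneg_left h3 hU0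
  have hpos : (0 : ℝ) < 27 * (m : ℝ) ^ 3 := by positivity
  refine le_of_mul_le_mul_right ?_ hpos
  refine le_trans (le_of_eq ?_) h4
  rw [pow_mul']
  push_cast
  ring

/-- the growth constant -/
theorem exists_gam : ∃ γ : ℝ, 1 ≤ γ ∧
    (∀ Γ : ℝ, γ < Γ → ∃ A : ℝ, 0 < A ∧ ∀ v : ℕ, (sph v : ℝ) ≤ A * (v.factorial : ℝ) * Γ ^ v) ∧
    (∀ Γ : ℝ, 0 < Γ → Γ < γ → ∃ i0 : ℕ, 1 ≤ i0 ∧ ∀ j : ℕ,
      Γ ^ (2 ^ j * i0) ≤ (dsc (2 ^ j * i0) : ℝ) / ((2 ^ j * i0).factorial : ℝ)) := by
  set G : Set ℝ := {Γ | 0 < Γ ∧ ∃ A : ℝ, ∀ v : ℕ, (sph v : ℝ) ≤ A * (v.factorial : ℝ) * Γ ^ v}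
    with hG
  have hne : G.Nonempty := by
    obtain ⟨C, hC1, hC⟩ := sph_exp_bound
    refine ⟨C, by linarith, 1, fun v => ?_⟩
    have := hC v
    linarith [this, mul_comm (C ^ v) (v.factorial : ℝ)]
  have hlow : ∀ Γ ∈ G, 1 ≤ Γ := by
    rintro Γ ⟨hΓ0, A, hA⟩
    by_contra hcon
    push Not at hcon
    have hlim : Filter.Tendsto (fun n : ℕ => 12 * |A| * ((n : ℝ) * Γ ^ n)) Filter.atTop
        (nhds (12 * |A| * 0)) :=
      (tendsto_self_mul_const_pow_of_lt_one hΓ0.le hcon).const_mul _
    rw [mul_zero] at hlim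
    have hev := (hlim.eventually (gt_mem_nhds (show (0 : ℝ) < 1 by norm_num))).and
      (Filter.eventually_ge_atTop 4)
    obtain ⟨n, hn, hn4⟩ := hev.exists
    obtain ⟨i, rfl⟩ : ∃ i, n = i + 3 := ⟨n - 3, by omega⟩
    have hi : 1 ≤ i := by omega
    have h1 : (1 : ℝ) ≤ (dsc i : ℝ) / (i.factorial : ℝ) := by
      rw [le_div_iff₀ (by exact_mod_cast Nat.factorial_pos i), one_mul]
      exact_mod_cast dsc_ge i hi
    rw [tau_sph i hi] at h1
    have h2 : (sph (i + 3) : ℝ) / ((i + 3).factorial : ℝ) ≤ |A| * Γ ^ (i + 3) := by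
      rw [div_le_iff₀ (by exact_mod_cast Nat.factorial_pos (i + 3))]
      have h5 := hA (i + 3)
      have h6 : A * ((i + 3).factorial : ℝ) * Γ ^ (i + 3) ≤
          |A| * ((i + 3).factorial : ℝ) * Γ ^ (i + 3) := by
        gcongr
        exact le_abs_self A
      linarith [h5, h6]
    have h3 : 6 * (2 * (i : ℝ) + 2) * ((sph (i + 3) : ℝ) / ((i + 3).factorial : ℝ))
        ≤ 6 * (2 * (i : ℝ) + 2) * (|A| * Γ ^ (i + 3)) := by gcongr
    have h4 : 6 * (2 * (i : ℝ) + 2) * (|A| * Γ ^ (i + 3)) ≤
        12 * |A| * (((i + 3 : ℕ) : ℝ) * Γ ^ (i + 3)) := by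
      have : (0 : ℝ) ≤ |A| * Γ ^ (i + 3) := by positivity
      push_cast
      nlinarith
    linarith
  have hbdd : BddBelow G := ⟨1, hlow⟩
  refine ⟨sInf G, le_csInf hne hlow, ?_, ?_⟩
  · intro Γ hΓ
    obtain ⟨Γ1, hΓ1G, hlt⟩ := exists_lt_of_csInf_lt hne hΓ
    obtain ⟨hΓ10, A, hA⟩ := hΓ1G
    refine ⟨max A 1, by positivity, fun v => (hA v).trans ?_⟩
    gcongr
    exact le_max_left _ _
  · intro Γ hΓ0 hΓ
    set Γ2 := (Γ + sInf G) / 2 with hΓ2
    have hlt1 : Γ < Γ2 := by rw [hΓ2]; linarith
    have hlt2 : Γ2 < sInf G := by rw [hΓ2]; linarith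
    have hΓ20 : 0 < Γ2 := hΓ0.trans hlt1
    have hnot : Γ2 ∉ G := fun h => absurd (csInf_le hbdd h) (not_le.2 hlt2)
    have hnot' : ∀ A : ℝ, ∃ v : ℕ, A * (v.factorial : ℝ) * Γ2 ^ v < (sph v : ℝ) := by
      intro A
      by_contra hcon
      push Not at hcon
      exact hnot ⟨hΓ20, A, hcon⟩
    -- threshold
    have hr1 : |Γ / Γ2| < 1 := by
      rw [abs_of_pos (by positivity), div_lt_one hΓ20]
      exact hlt1
    have hlim : Filter.Tendsto (fun n : ℕ => 216 * ((n : ℝ) ^ 3 * (Γ / Γ2) ^ n)) Filter.atTop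
        (nhds (216 * 0)) :=
      (tendsto_pow_const_mul_const_pow_of_abs_lt_one 3 hr1).const_mul _
    rw [mul_zero] at hlim
    obtain ⟨N, hN⟩ := Filter.eventually_atTop.1
      (hlim.eventually (gt_mem_nhds (show (0 : ℝ) < 1 by norm_num)))
    set A := (Γ2 ^ 3)⁻¹ + ∑ v ∈ range (N + 7), (sph v : ℝ) / ((v.factorial : ℝ) * Γ2 ^ v) with hA
    obtain ⟨v, hv⟩ := hnot' A
    have hsum0 : ∀ v ∈ range (N + 7), (0 : ℝ) ≤ (sph v : ℝ) / ((v.factorial : ℝ) * Γ2 ^ v) :=
      fun v _ => by positivity
    have hvbig : N + 7 ≤ v := by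
      by_contra hcon
      push Not at hcon
      have h1 : (sph v : ℝ) / ((v.factorial : ℝ) * Γ2 ^ v) ≤ A := by
        have := single_le_sum hsum0 (mem_range.2 hcon)
        have h3 : (0 : ℝ) ≤ (Γ2 ^ 3)⁻¹ := by positivity
        rw [hA]
        linarith
      rw [div_le_iff₀ (by positivity)] at h1
      linarith
    obtain ⟨i, rfl⟩ : ∃ i, v = i + 3 := ⟨v - 3, by omega⟩
    have hi : 4 ≤ i := by omega
    have hAge : (Γ2 ^ 3)⁻¹ ≤ A := by
      have := sum_nonneg hsum0
      rw [hA]
      linarith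
    have htau : Γ2 ^ i ≤ (dsc i : ℝ) / (i.factorial : ℝ) := by
      rw [tau_sph i (by omega)]
      have h1 : Γ2 ^ i ≤ (sph (i + 3) : ℝ) / ((i + 3).factorial : ℝ) := by
        rw [le_div_iff₀ (by exact_mod_cast Nat.factorial_pos (i + 3))]
        have h2 : (Γ2 ^ 3)⁻¹ * ((i + 3).factorial : ℝ) * Γ2 ^ (i + 3)
            ≤ A * ((i + 3).factorial : ℝ) * Γ2 ^ (i + 3) := by gcongr
        have h3 : (Γ2 ^ 3)⁻¹ * ((i + 3).factorial : ℝ) * Γ2 ^ (i + 3)
            = Γ2 ^ i * ((i + 3).factorial : ℝ) := by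
          rw [pow_add]
          field_simp
        linarith
      have h0 : (0 : ℝ) ≤ (sph (i + 3) : ℝ) / ((i + 3).factorial : ℝ) := by positivity
      nlinarith
    have hstart : 216 * (i : ℝ) ^ 3 * Γ ^ i ≤ (dsc i : ℝ) / (i.factorial : ℝ) := by
      refine le_trans ?_ htau
      have := (hN i (by omega)).le
      rw [div_pow] at this
      have h5 : 216 * (i : ℝ) ^ 3 * Γ ^ i = 216 * ((i : ℝ) ^ 3 * (Γ ^ i / Γ2 ^ i)) * Γ2 ^ i := by
        field_simp
      rw [h5]
      calc 216 * ((i : ℝ) ^ 3 * (Γ ^ i / Γ2 ^ i)) * Γ2 ^ i ≤ 1 * Γ2 ^ i := by gcongr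
        _ = Γ2 ^ i := one_mul _
    refine ⟨i, by omega, ?_⟩
    have hind : ∀ j : ℕ, 216 * ((2 ^ j * i : ℕ) : ℝ) ^ 3 * Γ ^ (2 ^ j * i) ≤
        (dsc (2 ^ j * i) : ℝ) / ((2 ^ j * i).factorial : ℝ) := by
      intro j
      induction j with
      | zero => simpa using hstart
      | succ j ih =>
        have h3 : 3 ≤ 2 ^ j * i := by
          have : 1 ≤ 2 ^ j := Nat.one_le_two_pow
          nlinarith
        have := tau_double h3 hΓ0 ih
        rw [show 2 ^ (j + 1) * i = 2 * (2 ^ j * i) by ring]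
        exact this
    intro j
    refine le_trans ?_ (hind j)
    have h3 : (1 : ℝ) ≤ ((2 ^ j * i : ℕ) : ℝ) := by
      have : 1 ≤ 2 ^ j * i := Nat.mul_pos (by positivity) (by omega)
      exact_mod_cast this
    have h4 : (1 : ℝ) ≤ ((2 ^ j * i : ℕ) : ℝ) ^ 3 := one_le_pow₀ h3
    have h5 : (0 : ℝ) ≤ Γ ^ (2 ^ j * i) := by positivity
    nlinarith

end Pool.Agent.SC
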