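import Pool.Agent.Lib.MP_d0323d_co.Rank
import Pool.Agent.Lib.MP_d0323d_co.FamBasic
/-! Module HH (5.4): arboricity, part 1 (independent of the cost lemma). -/
set_option autoImplicit false
namespace Pool.Agent.SC
open Finset
variable {V : Type} [Fintype V] [DecidableEq V] {n : ℕ} (Q : Imm V n)

namespace HHAux

theorem nat_even_iff {k : ℕ} : (k : ZMod 2) = 0 ↔ Even k := by
  rw [ZMod.natCast_eq_zero_iff]
  exact even_iff_two_dvd.symm

theorem zmod2_cases (a : ZMod 2) : a = 0 ∨ a = 1 := by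
  revert a; decide

theorem isFam_F : IsFam Q.F := Q.F_card
theorem isFam_Fp : IsFam Q.Fp := fun s hs => Q.F_card s (mem_filter.mp hs).1

theorem Fp_sub : Q.Fp ⊆ Q.F := filter_subset _ _

/-- ends of an edge of a pair-set `S` with all ends in `X` -/
theorem ends {α : Type*} [DecidableEq α] {X : Finset α} {S : Finset (Finset α)}
    (hS : ∀ e ∈ S, e.card = 2 ∧ e ⊆ X) :
    ∃ a b : {e // e ∈ S} → {x // x ∈ X}, ∀ e, (a e).1 ≠ (b e).1 ∧ e.1 = {(a e).1, (b e).1} := by
  have h : ∀ e : {e // e ∈ S}, ∃ p : {x // x ∈ X} × {x // x ∈ X}, p.1.1 ≠ p.2.1 ∧ e.1 = {p.1.1, p.2.1} := by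
    rintro ⟨e, he⟩
    obtain ⟨h2, hX⟩ := hS e he
    obtain ⟨x, y, hxy, rfl⟩ := card_eq_two.mp h2
    exact ⟨(⟨x, hX (by simp)⟩, ⟨y, hX (by simp)⟩), hxy, rfl⟩
  choose p hp using h
  exact ⟨fun e => (p e).1, fun e => (p e).2, hp⟩

theorem ncl_ge {β γ : Type*} [DecidableEq β] [DecidableEq γ] (A : Finset β) (B : Finset γ)
    (R : β → γ → Prop) [∀ b, DecidablePred (fun a => R a b)] (hne : ∀ b ∈ B, ∃ a ∈ A, R a b) :
    A.card + B.card ≤ ncl A (fun a a' => ∃ b ∈ B, R a b ∧ R a' b)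
      + ∑ b ∈ B, (A.filter (fun a => R a b)).card := by
  classical
  have hne' : ∀ b : {b // b ∈ B}, ∃ a : {a // a ∈ A}, R a.1 b.1 := by
    rintro ⟨b, hb⟩
    obtain ⟨a, ha, h⟩ := hne b hb
    exact ⟨⟨a, ha⟩, h⟩
  choose f hf using hne'
  let Ed := (b : {b // b ∈ B}) × {a // a ∈ (A.filter (fun a => R a b.1)).erase (f b).1}
  let src : Ed → {a // a ∈ A} := fun e => f e.1
  let tgt : Ed → {a // a ∈ A} := fun e => ⟨e.2.1, (mem_filter.mp (mem_of_mem_erase e.2.2)).1⟩
  have h1 := rank_cyc src tgt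
  have h2 : Fintype.card Ed = ∑ b : {b // b ∈ B}, ((A.filter (fun a => R a b.1)).card - 1) := by
    rw [Fintype.card_sigma]
    apply sum_congr rfl
    intro b _
    rw [Fintype.card_coe, card_erase_of_mem]
    exact mem_filter.mpr ⟨(f b).2, hf b⟩
  have h3 : Nat.card (Quot (adjM src tgt)) ≤ ncl A (fun a a' => ∃ b ∈ B, R a b ∧ R a' b) := by
    have := ncl_finite (A := A) (r := fun a a' => ∃ b ∈ B, R a b ∧ R a' b)
    have key : ∀ (b : {b // b ∈ B}) (a : {a // a ∈ A}), R a.1 b.1 →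
        Quot.mk (adjM src tgt) a = Quot.mk (adjM src tgt) (f b) := by
      intro b a hab
      by_cases h : a.1 = (f b).1
      · rw [Subtype.ext h]
      · have hm : a.1 ∈ (A.filter (fun a => R a b.1)).erase (f b).1 :=
          mem_erase.mpr ⟨h, mem_filter.mpr ⟨a.2, hab⟩⟩
        symm
        apply Quot.sound
        exact ⟨⟨b, ⟨a.1, hm⟩⟩, rfl, rfl⟩
    let g : Quot (fun a b' : {x // x ∈ A} => ∃ b ∈ B, R a.1 b ∧ R b'.1 b) → Quot (adjM src tgt) :=
      Quot.lift (fun x => Quot.mk _ x) (by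
        rintro x y ⟨b, hb, h, h'⟩
        rw [key ⟨b, hb⟩ x h, key ⟨b, hb⟩ y h'])
    have hg : Function.Surjective g := by
      intro q
      induction q using Quot.inductionOn with | _ q => ?_
      exact ⟨Quot.mk _ q, rfl⟩
    exact Nat.card_le_card_of_surjective g hg
  have h4 : ∑ b : {b // b ∈ B}, ((A.filter (fun a => R a b.1)).card - 1) + B.card
      = ∑ b ∈ B, (A.filter (fun a => R a b)).card := by
    rw [← Finset.sum_coe_sort B, ← Fintype.card_coe B, ← Finset.card_univ, card_eq_sum_ones,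
      ← sum_add_distrib]
    apply sum_congr rfl
    intro b _
    have : 0 < (A.filter (fun a => R a b.1)).card := card_pos.mpr ⟨_, mem_filter.mpr ⟨(f b).2, hf b⟩⟩
    omega
  rw [h2, Fintype.card_coe] at h1
  omega

section gen
variable {α : Type} [DecidableEq α]

/-- adjacency of faces across an edge outside `G` -/
def FAdj (F G : Finset (Finset α)) (s t : Finset α) : Prop := ∃ e ∈ edgs F \ G, e ⊆ s ∧ e ⊆ t

/-- adjacency at `y` -/
def LAdj (F G : Finset (Finset α)) (y : α) (s t : Finset α) : Prop :=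
  ∃ e ∈ (edgs F \ G).filter (fun e => y ∈ e), e ⊆ s ∧ e ⊆ t

/-- `3m ≤ |O| + Σ_G deg` -/
theorem three_m {F G : Finset (Finset α)} (hF : IsFam F) (hG : G ⊆ edgs F)
    (hind : ∀ A ⊆ F, A.Nonempty → (bdF A).Nonempty) :
    3 * ncl F (FAdj F G) ≤ ((edgs F).filter (fun e => Odd (edeg F e))).card + ∑ e ∈ G, edeg F e := by
  classical
  have := ncl_finite (A := F) (r := FAdj F G)
  have := Fintype.ofFinite (Quot (fun a b : {x // x ∈ F} => FAdj F G a.1 b.1))
  set Qt := Quot (fun a b : {x // x ∈ F} => FAdj F G a.1 b.1) with hQt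
  let mk : {x // x ∈ F} → Qt := Quot.mk _
  let AC : Qt → Finset (Finset α) := fun C => F.filter (fun s => ∃ h : s ∈ F, mk ⟨s, h⟩ = C)
  have hAC : ∀ C, AC C ⊆ F := fun C => filter_subset _ _
  have hACne : ∀ C, (AC C).Nonempty := by
    intro C
    induction C using Quot.inductionOn with | _ q => ?_
    exact ⟨q.1, mem_filter.mpr ⟨q.2, q.2, rfl⟩⟩
  have h3 : ∀ C, 3 ≤ (bdF (AC C)).card := fun C =>
    (bdF_even (fun s hs => hF s (hAC C hs))).three_le (hind _ (hAC C) (hACne C))
  have h4 : 3 * Fintype.card Qt ≤ ∑ C : Qt, (bdF (AC C)).card := by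
    rw [mul_comm, ← smul_eq_mul, ← Finset.card_univ, ← sum_const]
    exact sum_le_sum (fun C _ => h3 C)
  have h5 : ∑ C : Qt, (bdF (AC C)).card
      = ∑ e ∈ edgs F, (univ.filter (fun C : Qt => e ∈ bdF (AC C))).card := by
    rw [← dcount (univ : Finset Qt) (edgs F) (fun C e => e ∈ bdF (AC C))]
    apply sum_congr rfl
    intro C _
    congr 1
    ext e
    rw [mem_filter]
    constructor
    · intro h; exact ⟨edgs_mono (hAC C) (bdF_subset h), h⟩
    · intro h; exact h.2
  have h6 : ∀ e ∈ edgs F, (univ.filter (fun C : Qt => e ∈ bdF (AC C))).card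
      ≤ if e ∈ G then edeg F e else if Odd (edeg F e) then 1 else 0 := by
    intro e he
    split_ifs with hG1 hodd
    · -- number of classes with a face at `e`
      have : (univ.filter (fun C : Qt => e ∈ bdF (AC C)))
          ⊆ ((F.filter (fun s => e ⊆ s)).attach.image
            (fun s => mk ⟨s.1, (mem_filter.mp s.2).1⟩)) := by
        intro C hC
        rw [mem_filter, mem_bdF] at hC
        obtain ⟨s, hs, hes⟩ := edeg_pos.mp hC.2.2.pos
        obtain ⟨hsF, h, hmk⟩ := mem_filter.mp hs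
        rw [mem_image]
        exact ⟨⟨s, mem_filter.mpr ⟨hsF, hes⟩⟩, mem_attach _ _, hmk⟩
      refine (card_le_card this).trans (card_image_le.trans ?_)
      rw [card_attach]
      rfl
    · rw [card_le_one]
      intro C hC C' hC'
      rw [mem_filter, mem_bdF] at hC hC'
      obtain ⟨s, hs, hes⟩ := edeg_pos.mp hC.2.2.pos
      obtain ⟨hsF, h, hmk⟩ := mem_filter.mp hs
      obtain ⟨s', hs', hes'⟩ := edeg_pos.mp hC'.2.2.pos
      obtain ⟨hsF', h', hmk'⟩ := mem_filter.mp hs'
      rw [← hmk, ← hmk']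
      exact Quot.sound ⟨e, mem_sdiff.mpr ⟨he, hG1⟩, hes, hes'⟩
    · rw [Nat.le_zero, card_eq_zero, filter_eq_empty_iff]
      intro C _ hC
      rw [mem_bdF] at hC
      obtain ⟨s, hs, hes⟩ := edeg_pos.mp hC.2.pos
      obtain ⟨hsF, h, hmk⟩ := mem_filter.mp hs
      apply hodd
      have : edeg F e = edeg (AC C) e := by
        unfold edeg
        congr 1
        ext t
        rw [mem_filter, mem_filter]
        constructor
        · rintro ⟨ht, het⟩
          refine ⟨mem_filter.mpr ⟨ht, ht, ?_⟩, het⟩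
          rw [← hmk]
          exact Quot.sound ⟨e, mem_sdiff.mpr ⟨he, hG1⟩, het, hes⟩
        · rintro ⟨ht, het⟩
          exact ⟨hAC C ht, het⟩
      rw [this]
      exact hC.2
  have h7 : ∑ e ∈ edgs F, (if e ∈ G then edeg F e else if Odd (edeg F e) then 1 else 0)
      ≤ ((edgs F).filter (fun e => Odd (edeg F e))).card + ∑ e ∈ G, edeg F e := by
    have h8 : ∑ e ∈ G, edeg F e = ∑ e ∈ edgs F, if e ∈ G then edeg F e else 0 := by
      rw [← sum_filter]
      congr 1
      ext e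
      rw [mem_filter]
      exact ⟨fun h => ⟨hG h, h⟩, fun h => h.2⟩
    rw [card_filter, h8, ← sum_add_distrib]
    apply sum_le_sum
    intro e _
    split_ifs <;> omega
  have h9 : ncl F (FAdj F G) = Fintype.card Qt := by
    rw [ncl, Nat.card_eq_fintype_card]
  rw [h9]
  exact h4.trans (h5 ▸ (sum_le_sum h6).trans h7)

/-- the cut graph inequality -/
theorem cut_ineq {F G : Finset (Finset α)} (hF : IsFam F) (hG : G ⊆ edgs F)
    (hind : ∀ A ⊆ F, A.Nonempty → (bdF A).Nonempty) :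
    F.card + ∑ y ∈ verts F, ncl (star F y) (LAdj F G y)
      ≤ ((edgs F).card - G.card) + ∑ e ∈ G, edeg F e + ncl F (FAdj F G) := by
  classical
  -- ends of the edges, chosen face
  have hS2 : ∀ e ∈ edgs F, e.card = 2 ∧ e ⊆ verts F := by
    intro e he
    obtain ⟨h2, s, hs, hes⟩ := mem_edgs.mp he
    exact ⟨h2, fun x hx => mem_verts.mpr ⟨s, hs, hes hx⟩⟩
  have hends : ∀ e : {e // e ∈ edgs F}, ∃ p : {x // x ∈ verts F} × {x // x ∈ verts F} × {s // s ∈ F},
      p.1.1 ≠ p.2.1.1 ∧ e.1 = {p.1.1, p.2.1.1} ∧ e.1 ⊆ p.2.2.1 := by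
    rintro ⟨e, he⟩
    obtain ⟨h2, hX⟩ := hS2 e he
    obtain ⟨_, s, hs, hes⟩ := mem_edgs.mp he
    obtain ⟨x, y, hxy, rfl⟩ := card_eq_two.mp h2
    exact ⟨(⟨x, hX (by simp)⟩, ⟨y, hX (by simp)⟩, ⟨s, hs⟩), hxy, rfl, hes⟩
  choose p hp using hends
  let a : {e // e ∈ edgs F} → {x // x ∈ verts F} := fun e => (p e).1
  let b : {e // e ∈ edgs F} → {x // x ∈ verts F} := fun e => (p e).2.1
  let fc : {e // e ∈ edgs F} → {s // s ∈ F} := fun e => (p e).2.2
  have hab : ∀ e, (a e).1 ≠ (b e).1 := fun e => (hp e).1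
  have habe : ∀ e, e.1 = {(a e).1, (b e).1} := fun e => (hp e).2.1
  have hfc : ∀ e, e.1 ⊆ (fc e).1 := fun e => (hp e).2.2
  have hae : ∀ e, (a e).1 ∈ e.1 := fun e => by rw [habe e]; simp
  have hbe : ∀ e, (b e).1 ∈ e.1 := fun e => by rw [habe e]; simp
  -- vertex type
  let K := (y : {y // y ∈ verts F}) × Quot (fun s t : {s // s ∈ star F y.1} => LAdj F G y.1 s.1 t.1)
  have hfin : ∀ y : {y // y ∈ verts F},
      Finite (Quot (fun s t : {s // s ∈ star F y.1} => LAdj F G y.1 s.1 t.1)) := fun y =>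
    ncl_finite (A := star F y.1) (r := LAdj F G y.1)
  have : ∀ y : {y // y ∈ verts F},
      Fintype (Quot (fun s t : {s // s ∈ star F y.1} => LAdj F G y.1 s.1 t.1)) := fun y =>
    Fintype.ofFinite _
  have hKcard : Fintype.card K = ∑ y ∈ verts F, ncl (star F y) (LAdj F G y) := by
    rw [Fintype.card_sigma, ← Finset.sum_coe_sort (verts F)]
    apply sum_congr rfl
    intro y _
    rw [ncl, Nat.card_eq_fintype_card]
  let cls : (s : {s // s ∈ F}) → (y : {y // y ∈ verts F}) → y.1 ∈ s.1 → K := fun s y h =>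
    ⟨y, Quot.mk _ ⟨s.1, mem_filter.mpr ⟨s.2, h⟩⟩⟩
  -- classes of two faces sharing a non-`G` edge
  have hcls : ∀ (s t : {s // s ∈ F}) (y : {y // y ∈ verts F}) (hs : y.1 ∈ s.1) (ht : y.1 ∈ t.1)
      (e : Finset α), e ∈ edgs F → e ∉ G → y.1 ∈ e → e ⊆ s.1 → e ⊆ t.1 → cls s y hs = cls t y ht := by
    intro s t y hs ht e he heG hye hes het
    have : (Quot.mk (fun s t : {s // s ∈ star F y.1} => LAdj F G y.1 s.1 t.1)
        ⟨s.1, mem_filter.mpr ⟨s.2, hs⟩⟩) = Quot.mk _ ⟨t.1, mem_filter.mpr ⟨t.2, ht⟩⟩ := by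
      apply Quot.sound
      exact ⟨e, mem_filter.mpr ⟨mem_sdiff.mpr ⟨he, heG⟩, hye⟩, hes, het⟩
    simp only [cls, this]
  -- edge type
  let P := (G ×ˢ F).filter (fun q => q.1 ⊆ q.2)
  let CE := {e // e ∈ edgs F \ G} ⊕ {q // q ∈ P}
  have hCE : Fintype.card CE = ((edgs F).card - G.card) + ∑ e ∈ G, edeg F e := by
    rw [Fintype.card_sum, Fintype.card_coe, Fintype.card_coe, card_sdiff_of_subset hG]
    congr 1
    simp only [P]
    rw [card_filter, sum_product]
    apply sum_congr rfl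
    intro e _
    rw [edeg, card_filter]
  let e1 : {e // e ∈ edgs F \ G} → {e // e ∈ edgs F} := fun e => ⟨e.1, (mem_sdiff.mp e.2).1⟩
  let e2 : {q // q ∈ P} → {e // e ∈ edgs F} := fun q =>
    ⟨q.1.1, hG (mem_product.mp (mem_filter.mp q.2).1).1⟩
  let s2 : {q // q ∈ P} → {s // s ∈ F} := fun q => ⟨q.1.2, (mem_product.mp (mem_filter.mp q.2).1).2⟩
  have hs2 : ∀ q, (e2 q).1 ⊆ (s2 q).1 := fun q => (mem_filter.mp q.2).2
  let src : CE → K := Sum.elim (fun e => cls (fc (e1 e)) (a (e1 e)) (hfc _ (hae _)))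
    (fun q => cls (s2 q) (a (e2 q)) (hs2 q (hae _)))
  let tgt : CE → K := Sum.elim (fun e => cls (fc (e1 e)) (b (e1 e)) (hfc _ (hbe _)))
    (fun q => cls (s2 q) (b (e2 q)) (hs2 q (hbe _)))
  let bv : {s // s ∈ F} → CE → ZMod 2 := fun s => Sum.elim (fun e => if e.1 ⊆ s.1 then 1 else 0)
    (fun q => if q.1.2 = s.1 then 1 else 0)
  -- `g s v y`
  let ind : K → K → ZMod 2 := fun v u => if u = v then 1 else 0
  let g : {s // s ∈ F} → K → α → ZMod 2 := fun s v y =>
    if h : y ∈ s.1 then ind v (cls s ⟨y, mem_verts.mpr ⟨s.1, s.2, h⟩⟩ h) else 0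
  have hg : ∀ (s : {s // s ∈ F}) (v : K) (y : {y // y ∈ verts F}) (h : y.1 ∈ s.1),
      g s v y.1 = ind v (cls s y h) := by
    intro s v y h
    simp only [g, dif_pos h]
  have hGe : ∀ (s : {s // s ∈ F}) (v : K) (e : {e // e ∈ edgs F}) (h : e.1 ⊆ s.1),
      (∑ y ∈ e.1, g s v y) = ind v (cls s (a e) (h (hae e))) + ind v (cls s (b e) (h (hbe e))) := by
    intro s v e h
    rw [← hg s v (a e) (h (hae e)), ← hg s v (b e) (h (hbe e))]
    conv_lhs => rw [habe e]
    rw [sum_pair (hab e)]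
  have hz : ∀ (s : {s // s ∈ F}) (v : K), ∑ e ∈ s.1.powersetCard 2, ∑ y ∈ e, g s v y = 0 := by
    intro s v
    have h1 : ∀ e ∈ s.1.powersetCard 2, ∑ y ∈ e, g s v y = ∑ y ∈ s.1, if y ∈ e then g s v y else 0 := by
      intro e he
      rw [← sum_filter]
      congr 1
      ext y
      rw [mem_filter]
      exact ⟨fun h => ⟨(mem_powersetCard.mp he).1 h, h⟩, fun h => h.2⟩
    rw [sum_congr rfl h1, sum_comm]
    apply sum_eq_zero
    intro y hy
    rw [← sum_filter, sum_const, pairs_at (hF s.1 s.2) hy]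
    have : ∀ x : ZMod 2, 2 • x = 0 := by decide
    exact this _
  have hb0 : ∀ s, bdM src tgt (bv s) = 0 := by
    intro s
    funext v
    have h1 : bdM src tgt (bv s) v = ∑ e : {e // e ∈ edgs F \ G},
        (if e.1 ⊆ s.1 then (∑ y ∈ e.1, g s v y) else 0)
        + ∑ q : {q // q ∈ P}, (if q.1.2 = s.1 then (∑ y ∈ q.1.1, g s v y) else 0) := by
      change ∑ e : CE, bv s e * (ind v (src e) + ind v (tgt e)) = _
      rw [Fintype.sum_sum_type]
      congr 1
      · apply sum_congr rfl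
        intro e _
        simp only [bv, src, tgt, Sum.elim_inl]
        by_cases h : e.1 ⊆ s.1
        · rw [if_pos h, if_pos h, one_mul]
          refine Eq.trans ?_ (hGe s v (e1 e) h).symm
          rw [hcls (fc (e1 e)) s (a (e1 e)) (hfc _ (hae _)) (h (hae (e1 e))) e.1 (e1 e).2
              (mem_sdiff.mp e.2).2 (hae (e1 e)) (hfc (e1 e)) h,
            hcls (fc (e1 e)) s (b (e1 e)) (hfc _ (hbe _)) (h (hbe (e1 e))) e.1 (e1 e).2
              (mem_sdiff.mp e.2).2 (hbe (e1 e)) (hfc (e1 e)) h]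
        · rw [if_neg h, if_neg h, zero_mul]
      · apply sum_congr rfl
        intro q _
        simp only [bv, src, tgt, Sum.elim_inr]
        by_cases h : q.1.2 = s.1
        · rw [if_pos h, if_pos h, one_mul]
          have h' : s2 q = s := Subtype.ext h
          have h'' : q.1.1 ⊆ s.1 := by rw [← h]; exact hs2 q
          rw [hGe s v (e2 q) h'']
          subst h'
          rfl
        · rw [if_neg h, if_neg h, zero_mul]
    have h2 : ∑ e : {e // e ∈ edgs F \ G}, (if e.1 ⊆ s.1 then (∑ y ∈ e.1, g s v y) else 0)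
        = ∑ e ∈ (s.1.powersetCard 2).filter (fun e => e ∉ G), ∑ y ∈ e, g s v y := by
      rw [Finset.sum_coe_sort (edgs F \ G) (fun e => if e ⊆ s.1 then (∑ y ∈ e, g s v y) else 0),
        ← sum_filter]
      congr 1
      ext e
      rw [mem_filter, mem_filter, mem_sdiff, mem_edgs, mem_powersetCard]
      constructor
      · rintro ⟨⟨⟨h2, _⟩, h3⟩, h4⟩; exact ⟨⟨h4, h2⟩, h3⟩
      · rintro ⟨⟨h4, h2⟩, h3⟩; exact ⟨⟨⟨h2, s.1, s.2, h4⟩, h3⟩, h4⟩
    have h3 : ∑ q : {q // q ∈ P}, (if q.1.2 = s.1 then (∑ y ∈ q.1.1, g s v y) else 0)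
        = ∑ e ∈ (s.1.powersetCard 2).filter (fun e => e ∈ G), ∑ y ∈ e, g s v y := by
      rw [Finset.sum_coe_sort P (fun q => if q.2 = s.1 then (∑ y ∈ q.1, g s v y) else 0),
        ← sum_filter]
      symm
      apply sum_bij (fun e _ => (e, s.1))
      · intro e he
        rw [mem_filter, mem_powersetCard] at he
        rw [mem_filter]
        exact ⟨mem_filter.mpr ⟨mem_product.mpr ⟨he.2, s.2⟩, he.1.1⟩, rfl⟩
      · intro e _ e' _ h
        exact congrArg Prod.fst h
      · rintro ⟨e, t⟩ hq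
        rw [mem_filter] at hq
        obtain ⟨hq, rfl⟩ : (e, t) ∈ P ∧ t = s.1 := hq
        obtain ⟨hq1, hq2⟩ := mem_filter.mp hq
        have hq3 := (mem_product.mp hq1).1
        refine ⟨e, mem_filter.mpr ⟨mem_powersetCard.mpr ⟨hq2, ?_⟩, hq3⟩, rfl⟩
        exact (mem_edgs.mp (hG hq3)).1
      · intro e _
        rfl
    rw [h1, h2, h3, add_comm, sum_filter_add_sum_filter_not, hz]
    rfl
  have hindep : ∀ A : Finset {s // s ∈ F}, A.Nonempty → ∑ s ∈ A, bv s ≠ 0 := by
    intro A hA h0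
    have hA' : (A.image Subtype.val) ⊆ F := by
      intro s hs
      obtain ⟨t, _, rfl⟩ := mem_image.mp hs
      exact t.2
    have hbd := hind (A.image Subtype.val) hA' (hA.image _)
    obtain ⟨e, he⟩ := hbd
    rw [mem_bdF] at he
    obtain ⟨he2, hodd⟩ := he
    have hedeg : edeg (A.image Subtype.val) e = (A.filter (fun s => e ⊆ s.1)).card := by
      rw [edeg]
      symm
      apply card_bij (fun s _ => s.1)
      · intro s hs
        rw [mem_filter] at hs
        exact mem_filter.mpr ⟨mem_image_of_mem _ hs.1, hs.2⟩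
      · intro s _ t _ h
        exact Subtype.ext h
      · intro s hs
        rw [mem_filter, mem_image] at hs
        obtain ⟨⟨t, ht, rfl⟩, h⟩ := hs
        exact ⟨t, mem_filter.mpr ⟨ht, h⟩, rfl⟩
    obtain ⟨t, ht, het⟩ := edeg_pos.mp hodd.pos
    obtain ⟨t', ht', rfl⟩ := mem_image.mp ht
    have heE : e ∈ edgs F := mem_edgs.mpr ⟨he2, t'.1, t'.2, het⟩
    by_cases heG : e ∈ G
    · -- component `(e, t')`
      have hq : (e, t'.1) ∈ P := mem_filter.mpr ⟨mem_product.mpr ⟨heG, t'.2⟩, het⟩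
      have h1 := congrFun h0 (Sum.inr ⟨(e, t'.1), hq⟩)
      rw [Finset.sum_apply] at h1
      simp only [bv, Sum.elim_inr, Pi.zero_apply] at h1
      rw [← sum_filter, sum_const, nsmul_eq_mul, mul_one] at h1
      have h2 : A.filter (fun s => t'.1 = s.1) = {t'} := by
        ext s
        rw [mem_filter, mem_singleton]
        constructor
        · rintro ⟨_, h⟩; exact (Subtype.ext h).symm
        · rintro rfl; exact ⟨ht', rfl⟩
      rw [h2] at h1
      simp at h1
    · have h1 := congrFun h0 (Sum.inl ⟨e, mem_sdiff.mpr ⟨heE, heG⟩⟩)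
      rw [Finset.sum_apply] at h1
      simp only [bv, Sum.elim_inl, Pi.zero_apply] at h1
      rw [← sum_filter, sum_const, nsmul_eq_mul, mul_one, ← hedeg, nat_even_iff] at h1
      exact (Nat.not_even_iff_odd.mpr hodd) h1
  have hmain := rank_indep src tgt bv hb0 hindep
  rw [hKcard, hCE, Fintype.card_coe] at hmain
  have hcomp : Nat.card (Quot (adjM src tgt)) ≤ ncl F (FAdj F G) := by
    have := ncl_finite (A := F) (r := FAdj F G)
    have hne : ∀ s : {s // s ∈ F}, ∃ y, y ∈ s.1 := by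
      intro s
      have : s.1.Nonempty := by rw [← card_pos, hF s.1 s.2]; norm_num
      exact this
    choose y0 hy0 using hne
    -- all flags of a face are in the same component
    have hsame : ∀ (s : {s // s ∈ F}) (x y : {y // y ∈ verts F}) (hx : x.1 ∈ s.1) (hy : y.1 ∈ s.1),
        Quot.mk (adjM src tgt) (cls s x hx) = Quot.mk (adjM src tgt) (cls s y hy) := by
      intro s x y hx hy
      by_cases hxy : x = y
      · subst hxy; rfl
      have hxy' : x.1 ≠ y.1 := fun h => hxy (Subtype.ext h)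
      have heE : ({x.1, y.1} : Finset α) ∈ edgs F := by
        rw [mem_edgs]
        refine ⟨card_pair hxy', s.1, s.2, ?_⟩
        intro z hz
        rw [mem_insert, mem_singleton] at hz
        rcases hz with rfl | rfl
        · exact hx
        · exact hy
      have hes : ({x.1, y.1} : Finset α) ⊆ s.1 := by
        intro z hz
        rw [mem_insert, mem_singleton] at hz
        rcases hz with rfl | rfl
        · exact hx
        · exact hy
      -- the two ends are `a e`, `b e` in some order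
      have hord : (a ⟨_, heE⟩ = x ∧ b ⟨_, heE⟩ = y) ∨ (a ⟨_, heE⟩ = y ∧ b ⟨_, heE⟩ = x) := by
        have h1 := habe ⟨_, heE⟩
        have h2 := hae ⟨_, heE⟩
        have h3 := hbe ⟨_, heE⟩
        have h4 := hab ⟨_, heE⟩
        rw [mem_insert, mem_singleton] at h2 h3
        rcases h2 with h2 | h2 <;> rcases h3 with h3 | h3
        · exact absurd (h2.trans h3.symm) h4
        · exact Or.inl ⟨Subtype.ext h2, Subtype.ext h3⟩
        · exact Or.inr ⟨Subtype.ext h2, Subtype.ext h3⟩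
        · exact absurd (h2.trans h3.symm) h4
      have hedge : Quot.mk (adjM src tgt) (cls s (a ⟨_, heE⟩) (hes (hae ⟨_, heE⟩)))
          = Quot.mk (adjM src tgt) (cls s (b ⟨_, heE⟩) (hes (hbe ⟨_, heE⟩))) := by
        by_cases heG : ({x.1, y.1} : Finset α) ∈ G
        · apply Quot.sound
          exact ⟨Sum.inr ⟨(_, s.1), mem_filter.mpr ⟨mem_product.mpr ⟨heG, s.2⟩, hes⟩⟩, rfl, rfl⟩
        · rw [hcls s (fc ⟨_, heE⟩) (a ⟨_, heE⟩) (hes (hae ⟨_, heE⟩)) (hfc _ (hae _)) _ heE heG
              (hae ⟨_, heE⟩) hes (hfc ⟨_, heE⟩),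
            hcls s (fc ⟨_, heE⟩) (b ⟨_, heE⟩) (hes (hbe ⟨_, heE⟩)) (hfc _ (hbe _)) _ heE heG
              (hbe ⟨_, heE⟩) hes (hfc ⟨_, heE⟩)]
          apply Quot.sound
          exact ⟨Sum.inl ⟨_, mem_sdiff.mpr ⟨heE, heG⟩⟩, rfl, rfl⟩
      have hcg : ∀ (u w : {y // y ∈ verts F}) (hu : u.1 ∈ s.1) (hw : w.1 ∈ s.1), u = w →
          cls s u hu = cls s w hw := by
        rintro u w hu hw rfl; rfl
      rcases hord with ⟨h1, h2⟩ | ⟨h1, h2⟩
      · have e1' := hcg _ _ (hes (hae ⟨_, heE⟩)) hx h1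
        have e2' := hcg _ _ (hes (hbe ⟨_, heE⟩)) hy h2
        rw [e1', e2'] at hedge
        exact hedge
      · have e1' := hcg _ _ (hes (hae ⟨_, heE⟩)) hy h1
        have e2' := hcg _ _ (hes (hbe ⟨_, heE⟩)) hx h2
        rw [e1', e2'] at hedge
        exact hedge.symm
    let φ : Quot (fun s t : {s // s ∈ F} => FAdj F G s.1 t.1) → Quot (adjM src tgt) :=
      Quot.lift (fun s => Quot.mk _ (cls s ⟨y0 s, mem_verts.mpr ⟨s.1, s.2, hy0 s⟩⟩ (hy0 s))) (by
        rintro s t ⟨e, he, hes, het⟩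
        obtain ⟨heE, heG⟩ := mem_sdiff.mp he
        have hyv : (a ⟨e, heE⟩).1 ∈ e := hae ⟨e, heE⟩
        rw [hsame s _ (a ⟨e, heE⟩) (hy0 s) (hes hyv), hsame t _ (a ⟨e, heE⟩) (hy0 t) (het hyv),
          hcls s t (a ⟨e, heE⟩) (hes hyv) (het hyv) e heE heG hyv hes het])
    have hφ : Function.Surjective φ := by
      intro q
      induction q using Quot.inductionOn with | _ q => ?_
      obtain ⟨y, q⟩ := q
      induction q using Quot.inductionOn with | _ s => ?_
      have hsF := (mem_filter.mp s.2).1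
      have hys := (mem_filter.mp s.2).2
      refine ⟨Quot.mk _ ⟨s.1, hsF⟩, ?_⟩
      exact hsame ⟨s.1, hsF⟩ _ y (hy0 ⟨s.1, hsF⟩) hys
    exact Nat.card_le_card_of_surjective φ hφ
  omega

/-- lower bound of the number of classes at `y` -/
theorem cls_ge {F G : Finset (Finset α)} (hF : IsFam F) (hG : G ⊆ edgs F) (y : α) :
    ((edgs F).filter (fun e => y ∈ e)).card + ∑ e ∈ G.filter (fun e => y ∈ e), (edeg F e - 1)
      ≤ ncl (star F y) (LAdj F G y) + (star F y).card := by
  classical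
  have h1 := ncl_ge (star F y) ((edgs F \ G).filter (fun e => y ∈ e)) (fun s e => e ⊆ s) (by
    intro e he
    rw [mem_filter, mem_sdiff, mem_edgs] at he
    obtain ⟨⟨⟨_, s, hs, hes⟩, _⟩, hye⟩ := he
    exact ⟨s, mem_filter.mpr ⟨hs, hes hye⟩, hes⟩)
  have hr : ncl (star F y) (fun a a' => ∃ b ∈ (edgs F \ G).filter (fun e => y ∈ e), b ⊆ a ∧ b ⊆ a')
      = ncl (star F y) (LAdj F G y) := rfl
  rw [hr] at h1
  have h2 : ∀ e ∈ (edgs F).filter (fun e => y ∈ e),
      ((star F y).filter (fun a => e ⊆ a)).card = edeg F e := by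
    intro e he
    rw [mem_filter] at he
    rw [edeg]
    congr 1
    ext s
    rw [mem_filter, mem_filter, star, mem_filter]
    constructor
    · rintro ⟨⟨h1, _⟩, h3⟩; exact ⟨h1, h3⟩
    · rintro ⟨h1, h3⟩; exact ⟨⟨h1, h3 he.2⟩, h3⟩
  have h3 : (edgs F).filter (fun e => y ∈ e)
      = (edgs F \ G).filter (fun e => y ∈ e) ∪ G.filter (fun e => y ∈ e) := by
    ext e
    rw [mem_union, mem_filter, mem_filter, mem_filter, mem_sdiff]
    constructor
    · rintro ⟨h, h'⟩
      by_cases hg : e ∈ G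
      · exact Or.inr ⟨hg, h'⟩
      · exact Or.inl ⟨⟨h, hg⟩, h'⟩
    · rintro (⟨⟨h, _⟩, h'⟩ | ⟨h, h'⟩)
      · exact ⟨h, h'⟩
      · exact ⟨hG h, h'⟩
  have hdisj : Disjoint ((edgs F \ G).filter (fun e => y ∈ e)) (G.filter (fun e => y ∈ e)) := by
    rw [disjoint_left]
    intro e he he'
    exact (mem_sdiff.mp (mem_filter.mp he).1).2 (mem_filter.mp he').1
  have h4 := sum_edeg_at hF y
  rw [h3, sum_union hdisj] at h4
  have h5 : ∑ b ∈ (edgs F \ G).filter (fun e => y ∈ e), ((star F y).filter (fun a => b ⊆ a)).card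
      = ∑ b ∈ (edgs F \ G).filter (fun e => y ∈ e), edeg F b := by
    apply sum_congr rfl
    intro e he
    apply h2
    rw [h3]
    exact mem_union_left _ he
  rw [h5] at h1
  have h6 : ∑ e ∈ G.filter (fun e => y ∈ e), (edeg F e - 1) + (G.filter (fun e => y ∈ e)).card
      = ∑ e ∈ G.filter (fun e => y ∈ e), edeg F e := by
    rw [card_eq_sum_ones, ← sum_add_distrib]
    apply sum_congr rfl
    intro e he
    have : 0 < edeg F e := edeg_pos.mpr (mem_edgs.mp (hG (mem_filter.mp he).1)).2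
    omega
  rw [h3, card_union_of_disjoint hdisj]
  omega

/-- general arboricity inequality -/
theorem arb {F G : Finset (Finset α)} {H : Finset α} (hF : IsFam F) (hG : G ⊆ edgs F)
    (hG2 : ∀ e ∈ G, 2 ≤ edeg F e ∧ e ⊆ H) (hH : H ⊆ verts F)
    (hind : ∀ A ⊆ F, A.Nonempty → (bdF A).Nonempty) :
    (G.card : ℤ) ≤ (((edgs F).filter (fun e => Odd (edeg F e))).card : ℤ) + 3 * (H.card : ℤ)
      + 3 * ∑ y ∈ H, (((star F y).card : ℤ) - (((edgs F).filter (fun e => y ∈ e)).card : ℤ))
      + 3 * (((edgs F).card : ℤ) - (F.card : ℤ) - ((verts F).card : ℤ)) := by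
  classical
  have h1 := three_m hF hG hind
  have h2 := cut_ineq hF hG hind
  -- lower bound for the number of vertices of the cut graph
  have h3 : ((verts F).card : ℤ) - H.card
      + ∑ y ∈ H, ((((edgs F).filter (fun e => y ∈ e)).card : ℤ) - ((star F y).card : ℤ))
      + 2 * ∑ e ∈ G, ((edeg F e : ℤ) - 1)
      ≤ ((∑ y ∈ verts F, ncl (star F y) (LAdj F G y) : ℕ) : ℤ) := by
    have h4 : ∑ y ∈ verts F, ncl (star F y) (LAdj F G y)
        = ∑ y ∈ verts F \ H, ncl (star F y) (LAdj F G y) + ∑ y ∈ H, ncl (star F y) (LAdj F G y) :=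
      (sum_sdiff hH).symm
    have h5 : (verts F).card - H.card ≤ ∑ y ∈ verts F \ H, ncl (star F y) (LAdj F G y) := by
      rw [← card_sdiff_of_subset hH, card_eq_sum_ones]
      apply sum_le_sum
      intro y hy
      apply ncl_pos
      obtain ⟨s, hs, hys⟩ := mem_verts.mp (mem_sdiff.mp hy).1
      exact ⟨s, mem_filter.mpr ⟨hs, hys⟩⟩
    have h6 : ∑ y ∈ H, ((((edgs F).filter (fun e => y ∈ e)).card : ℤ)
        + ((∑ e ∈ G.filter (fun e => y ∈ e), (edeg F e - 1) : ℕ) : ℤ) - ((star F y).card : ℤ))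
        ≤ ((∑ y ∈ H, ncl (star F y) (LAdj F G y) : ℕ) : ℤ) := by
      rw [Nat.cast_sum]
      apply sum_le_sum
      intro y _
      have := cls_ge hF hG y
      omega
    have h7 : ∑ y ∈ H, ((∑ e ∈ G.filter (fun e => y ∈ e), (edeg F e - 1) : ℕ) : ℤ)
        = 2 * ∑ e ∈ G, ((edeg F e : ℤ) - 1) := by
      have h8 : ∀ y ∈ H, ((∑ e ∈ G.filter (fun e => y ∈ e), (edeg F e - 1) : ℕ) : ℤ)
          = ∑ e ∈ G, if y ∈ e then ((edeg F e : ℤ) - 1) else 0 := by
        intro y _
        rw [Nat.cast_sum, sum_filter]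
        apply sum_congr rfl
        intro e he
        split_ifs
        · have := (hG2 e he).1
          omega
        · rfl
      rw [sum_congr rfl h8, sum_comm, mul_sum]
      apply sum_congr rfl
      intro e he
      rw [← sum_filter, sum_const, nsmul_eq_mul]
      have h9 : H.filter (fun y => y ∈ e) = e := by
        ext y
        rw [mem_filter]
        exact ⟨fun h => h.2, fun h => ⟨(hG2 e he).2 h, h⟩⟩
      rw [h9, (mem_edgs.mp (hG he)).1]
      rfl
    have h8 : ∑ y ∈ H, ((((edgs F).filter (fun e => y ∈ e)).card : ℤ)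
        + ((∑ e ∈ G.filter (fun e => y ∈ e), (edeg F e - 1) : ℕ) : ℤ) - ((star F y).card : ℤ))
        = ∑ y ∈ H, ((((edgs F).filter (fun e => y ∈ e)).card : ℤ) - ((star F y).card : ℤ))
          + 2 * ∑ e ∈ G, ((edeg F e : ℤ) - 1) := by
      rw [← h7, ← sum_add_distrib]
      apply sum_congr rfl
      intro y _
      ring
    rw [h8] at h6
    have h9 := card_le_card hH
    rw [h4]
    push_cast at h6 ⊢
    have h10 : ((verts F).card : ℤ) - H.card
        ≤ ∑ y ∈ verts F \ H, (ncl (star F y) (LAdj F G y) : ℤ) := by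
      have : (((verts F).card - H.card : ℕ) : ℤ)
          ≤ ((∑ y ∈ verts F \ H, ncl (star F y) (LAdj F G y) : ℕ) : ℤ) := by exact_mod_cast h5
      rw [Nat.cast_sub h9, Nat.cast_sum] at this
      exact this
    linarith
  have h4 := card_le_card hG
  have h5 : ∑ y ∈ H, ((((edgs F).filter (fun e => y ∈ e)).card : ℤ) - ((star F y).card : ℤ))
      = - ∑ y ∈ H, (((star F y).card : ℤ) - (((edgs F).filter (fun e => y ∈ e)).card : ℤ)) := by
    rw [← sum_neg_distrib]
    apply sum_congr rfl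
    intro y _
    ring
  have h6 : (G.card : ℤ) ≤ ∑ e ∈ G, (2 * (edeg F e : ℤ) - 3) := by
    rw [card_eq_sum_ones]
    push_cast
    apply sum_le_sum
    intro e he
    have := (hG2 e he).1
    omega
  have h7 : ∑ e ∈ G, (2 * (edeg F e : ℤ) - 3) = 3 * ∑ e ∈ G, ((edeg F e : ℤ) - 1) - ∑ e ∈ G, (edeg F e : ℤ) := by
    rw [mul_sum, ← sum_sub_distrib]
    apply sum_congr rfl
    intro e _
    ring
  have h8 : ∑ e ∈ G, ((edeg F e : ℤ) - 1) = ∑ e ∈ G, (edeg F e : ℤ) - G.card := by
    rw [sum_sub_distrib]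
    simp
  have h1' : (3 : ℤ) * (ncl F (FAdj F G) : ℤ)
      ≤ (((edgs F).filter (fun e => Odd (edeg F e))).card : ℤ) + ∑ e ∈ G, (edeg F e : ℤ) := by
    exact_mod_cast h1
  have h2' : (F.card : ℤ) + ((∑ y ∈ verts F, ncl (star F y) (LAdj F G y) : ℕ) : ℤ)
      ≤ ((edgs F).card - G.card : ℤ) + ∑ e ∈ G, (edeg F e : ℤ) + (ncl F (FAdj F G) : ℤ) := by
    have : ((F.card + ∑ y ∈ verts F, ncl (star F y) (LAdj F G y) : ℕ) : ℤ)
      ≤ ((((edgs F).card - G.card) + ∑ e ∈ G, edeg F e + ncl F (FAdj F G) : ℕ) : ℤ) := by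
      exact_mod_cast h2
    rw [Nat.cast_add, Nat.cast_add, Nat.cast_add, Nat.cast_sub h4, Nat.cast_sum (s := G)] at this
    exact this
  rw [h5] at h3
  rw [h7] at h6
  linarith

end gen

end HHAux

open HHAux

/-- number of edges inside `T` lying in a face of `F'` -/
theorem Imm.card_TE_le :
    ((edgs Q.Fp).filter (fun e => e.image Q.lab ⊆ Q.T)).card ≤ Q.Ts.card * Q.cT := by
  classical
  -- map `e ↦` (end, label of the other end)
  have hch : ∀ e ∈ (edgs Q.Fp).filter (fun e => e.image Q.lab ⊆ Q.T),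
      ∃ p : Fin n × V, p ∈ Q.Ts ×ˢ ((verts Q.Fp).filter (fun y => Q.lab y ∈ Q.Ts)) ∧
        ∃ z, Q.lab z = p.1 ∧ e = {p.2, z} := by
    intro e he
    rw [mem_filter] at he
    obtain ⟨he, hT⟩ := he
    obtain ⟨h2, s, hs, hes⟩ := mem_edgs.mp he
    obtain ⟨x, y, hxy, rfl⟩ := card_eq_two.mp h2
    refine ⟨(Q.lab y, x), ?_, y, rfl, rfl⟩
    rw [mem_product, mem_filter, mem_verts]
    exact ⟨Q.T_sub (hT (mem_image_of_mem _ (by simp))), ⟨s, hs, hes (by simp)⟩,
      Q.T_sub (hT (mem_image_of_mem _ (by simp)))⟩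
  rcases ((edgs Q.Fp).filter (fun e => e.image Q.lab ⊆ Q.T)).eq_empty_or_nonempty with hem | ⟨e0, he0⟩
  · rw [hem]; simp
  obtain ⟨p0, -⟩ := hch e0 he0
  have : Nonempty (Fin n × V) := ⟨p0⟩
  choose! f hf using hch
  have h1 := card_le_card_of_injOn f (fun e he => (hf e he).1) (by
    intro e he e' he' h
    obtain ⟨z, hz, hz'⟩ := (hf e he).2
    obtain ⟨w, hw, hw'⟩ := (hf e' he').2
    rw [← h] at hw hw'
    have hzE : ({(f e).2, z} : Finset V) ∈ Q.E := by
      rw [← hz']
      obtain ⟨h2, s, hs, hes⟩ := mem_edgs.mp (mem_filter.mp he).1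
      exact Q.F_E s (Fp_sub Q hs) e (mem_powersetCard.mpr ⟨hes, h2⟩)
    have hwE : ({(f e).2, w} : Finset V) ∈ Q.E := by
      rw [← hw']
      obtain ⟨h2, s, hs, hes⟩ := mem_edgs.mp (mem_filter.mp he').1
      exact Q.F_E s (Fp_sub Q hs) e' (mem_powersetCard.mpr ⟨hes, h2⟩)
    have := Q.imm _ _ _ hzE hwE (hz.trans hw.symm)
    rw [hz', hw', this])
  rw [card_product] at h1
  exact h1

/-- second claim of 5.4 -/
theorem Imm.euler_le :
    ((edgs Q.Fp).card : ℤ) - (Q.Fp.card : ℤ) - ((verts Q.Fp).card : ℤ) ≤ Q.Ts.card * Q.cT := by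
  classical
  set S := (edgs Q.Fp).filter (fun e => ¬ e.image Q.lab ⊆ Q.T) with hS
  have hS2 : ∀ e ∈ S, e.card = 2 ∧ e ⊆ verts Q.Fp := by
    intro e he
    obtain ⟨h2, s, hs, hes⟩ := mem_edgs.mp (mem_filter.mp he).1
    exact ⟨h2, fun x hx => mem_verts.mpr ⟨s, hs, hes hx⟩⟩
  have hSE : S ⊆ Q.E := by
    intro e he
    obtain ⟨h2, s, hs, hes⟩ := mem_edgs.mp (mem_filter.mp he).1
    exact Q.F_E s (Fp_sub Q hs) e (mem_powersetCard.mpr ⟨hes, h2⟩)
  obtain ⟨a, b, hab⟩ := ends hS2
  have hkey : S.card + Nat.card (Quot (adjM a b)) ≤ Q.Fp.card + (verts Q.Fp).card := by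
    have := rank_span_le a b (ι := {s // s ∈ Q.Fp})
      (fun s e => if e.1 ⊆ s.1 then 1 else 0) (by
        intro c hc
        set A0 : Finset (Finset V) := (univ.filter (fun e : {e // e ∈ S} => c e = 1)).image Subtype.val
          with hA0
        have hA0m : ∀ e : {e // e ∈ S}, e.1 ∈ A0 ↔ c e = 1 := by
          intro e
          rw [hA0, mem_image]
          constructor
          · rintro ⟨e', he', h⟩
            rw [Subtype.ext h] at he'
            exact (mem_filter.mp he').2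
          · intro h
            exact ⟨e, mem_filter.mpr ⟨mem_univ _, h⟩, rfl⟩
        have hA0S : A0 ⊆ S := by
          intro e he
          rw [hA0, mem_image] at he
          obtain ⟨e', _, rfl⟩ := he
          exact e'.2
        have hev : EvenSet A0 := by
          refine ⟨fun e he => (hS2 e (hA0S he)).1, fun x => ?_⟩
          by_cases hx : x ∈ verts Q.Fp
          · have h3 := congrFun hc ⟨x, hx⟩
            have h4 : bdM a b c ⟨x, hx⟩ = ((A0.filter (fun e => x ∈ e)).card : ZMod 2) := by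
              have h5 : (A0.filter (fun e => x ∈ e)).card
                  = (univ.filter (fun e : {e // e ∈ S} => x ∈ e.1 ∧ c e = 1)).card := by
                symm
                apply card_bij (fun e _ => e.1)
                · intro e he
                  rw [mem_filter] at he
                  exact mem_filter.mpr ⟨(hA0m e).mpr he.2.2, he.2.1⟩
                · intro e _ e' _ h
                  exact Subtype.ext h
                · intro e he
                  rw [mem_filter] at he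
                  refine ⟨⟨e, hA0S he.1⟩, mem_filter.mpr ⟨mem_univ _, he.2, (hA0m ⟨e, hA0S he.1⟩).mp he.1⟩, rfl⟩
              rw [h5, card_filter, Nat.cast_sum]
              change ∑ e, c e * ((if a e = ⟨x, hx⟩ then 1 else 0) + (if b e = ⟨x, hx⟩ then 1 else 0)) = _
              apply sum_congr rfl
              intro e _
              have h6 : x ∈ e.1 ↔ ((a e) = ⟨x, hx⟩ ∨ (b e) = ⟨x, hx⟩) := by
                rw [(hab e).2, mem_insert, mem_singleton, Subtype.ext_iff, Subtype.ext_iff]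
                simp only
                constructor
                · rintro (h | h)
                  · exact Or.inl h.symm
                  · exact Or.inr h.symm
                · rintro (h | h)
                  · exact Or.inl h.symm
                  · exact Or.inr h.symm
              have h7 : ¬ (a e = ⟨x, hx⟩ ∧ b e = ⟨x, hx⟩) := by
                rintro ⟨h, h'⟩
                exact (hab e).1 (by rw [h, h'])
              rcases zmod2_cases (c e) with h8 | h8
              · rw [h8]; simp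
              · rw [h8]
                by_cases ha : a e = ⟨x, hx⟩ <;> by_cases hb : b e = ⟨x, hx⟩
                · exact absurd ⟨ha, hb⟩ h7
                · have := h6.mpr (Or.inl ha)
                  simp [ha, hb, this]
                · have := h6.mpr (Or.inr hb)
                  simp [ha, hb, this]
                · have : x ∉ e.1 := fun h => (h6.mp h).elim ha hb
                  simp [ha, hb, this]
            rw [h3] at h4
            exact nat_even_iff.mp h4.symm
          · have : A0.filter (fun e => x ∈ e) = ∅ := by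
              rw [filter_eq_empty_iff]
              intro e he hxe
              exact hx ((hS2 e (hA0S he)).2 hxe)
            rw [this]
            simp
        obtain ⟨B, hBF, hBd⟩ := Q.h1 A0 (hA0S.trans hSE) hev
        refine ⟨univ.filter (fun s : {s // s ∈ Q.Fp} => s.1 ∈ B), ?_⟩
        funext e
        rw [Finset.sum_apply]
        have h9 : ∑ s ∈ univ.filter (fun s : {s // s ∈ Q.Fp} => s.1 ∈ B),
            (if e.1 ⊆ s.1 then (1 : ZMod 2) else 0) = ((edeg B e.1 : ℕ) : ZMod 2) := by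
          rw [← sum_filter, sum_const, nsmul_eq_mul, mul_one]
          congr 1
          rw [edeg]
          apply card_bij (fun s _ => s.1)
          · intro s hs
            rw [mem_filter, mem_filter] at hs
            exact mem_filter.mpr ⟨hs.1.2, hs.2⟩
          · intro s _ s' _ h
            exact Subtype.ext h
          · intro s hs
            rw [mem_filter] at hs
            have hsF : s ∈ Q.Fp := by
              refine mem_filter.mpr ⟨hBF hs.1, ?_⟩
              intro hT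
              exact (mem_filter.mp e.2).2 ((image_subset_image hs.2).trans hT)
            refine ⟨⟨s, hsF⟩, ?_, rfl⟩
            rw [mem_filter, mem_filter]
            exact ⟨⟨mem_univ _, hs.1⟩, hs.2⟩
        rw [h9]
        have h10 : Odd (edeg B e.1) ↔ c e = 1 := by
          rw [← hA0m e, ← hBd, mem_bdF]
          constructor
          · intro h; exact ⟨(hS2 e.1 e.2).1, h⟩
          · intro h; exact h.2
        rcases zmod2_cases (c e) with h8 | h8
        · rw [h8]
          symm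
          rw [nat_even_iff, ← Nat.not_odd_iff_even, h10, h8]
          decide
        · rw [h8]
          have h11 := h10.mpr h8
          rcases zmod2_cases ((edeg B e.1 : ℕ) : ZMod 2) with h | h
          · exact absurd (nat_even_iff.mp h) (Nat.not_even_iff_odd.mpr h11)
          · exact h.symm)
    rw [Fintype.card_coe, Fintype.card_coe, Fintype.card_coe] at this
    exact this
  have h1 : (edgs Q.Fp).card = ((edgs Q.Fp).filter (fun e => e.image Q.lab ⊆ Q.T)).card + S.card := by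
    rw [hS, card_filter_add_card_filter_not]
  have h2 := Q.card_TE_le
  have h3 : (edgs Q.Fp).card ≤ Q.Ts.card * Q.cT + (Q.Fp.card + (verts Q.Fp).card) := by omega
  have h4 : ((edgs Q.Fp).card : ℤ) ≤ (Q.Ts.card : ℤ) * Q.cT + (Q.Fp.card + (verts Q.Fp).card) := by
    exact_mod_cast h3
  linarith

/-- nonempty subfamilies of `F'` have nonempty boundary -/
theorem Imm.bdF_ne {A : Finset (Finset V)} (hA : A ⊆ Q.Fp) (hne : A.Nonempty) : (bdF A).Nonempty := by
  rw [nonempty_iff_ne_empty]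
  intro h0
  obtain ⟨s, hs⟩ := hne
  exact (mem_filter.mp (hA hs)).2 (Q.no2 A (hA.trans (Fp_sub Q)) h0 s hs)

/-- first claim of 5.4 (integers) -/
theorem Imm.hh_le_raw (D0 : ℕ) :
    (Q.hh D0 : ℤ) ≤ (((edgs Q.Fp).filter (fun e => Odd (edeg Q.Fp e))).card : ℤ)
      + 3 * (((verts Q.Fp).filter (fun y => Q.lab y ∉ Q.Ts ∧ D0 < (Q.Ey y).card)).card : ℤ)
      + 3 * ∑ y ∈ (verts Q.Fp).filter (fun y => Q.lab y ∉ Q.Ts ∧ D0 < (Q.Ey y).card),
          max 0 (((star Q.Fp y).card : ℤ) - ((Q.Ey y).card : ℤ))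
      + 3 * max 0 (((edgs Q.Fp).card : ℤ) - (Q.Fp.card : ℤ) - ((verts Q.Fp).card : ℤ)) := by
  classical
  have h1 := arb (F := Q.Fp)
    (G := (edgs Q.Fp).filter (fun e => 2 ≤ edeg Q.Fp e ∧ ∀ y ∈ e, Q.hi D0 y))
    (H := (verts Q.Fp).filter (fun y => Q.lab y ∉ Q.Ts ∧ D0 < (Q.Ey y).card))
    (isFam_Fp Q) (filter_subset _ _) (by
      intro e he
      rw [mem_filter] at he
      obtain ⟨he, h2, hhi⟩ := he
      refine ⟨h2, fun y hy => ?_⟩
      obtain ⟨_, s, hs, hes⟩ := mem_edgs.mp he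
      exact mem_filter.mpr ⟨mem_verts.mpr ⟨s, hs, hes hy⟩, hhi y hy⟩)
    (filter_subset _ _) (fun A hA hne => Q.bdF_ne hA hne)
  have h2 : ∑ y ∈ (verts Q.Fp).filter (fun y => Q.lab y ∉ Q.Ts ∧ D0 < (Q.Ey y).card),
      (((star Q.Fp y).card : ℤ) - (((edgs Q.Fp).filter (fun e => y ∈ e)).card : ℤ))
      ≤ ∑ y ∈ (verts Q.Fp).filter (fun y => Q.lab y ∉ Q.Ts ∧ D0 < (Q.Ey y).card),
          max 0 (((star Q.Fp y).card : ℤ) - ((Q.Ey y).card : ℤ)) :=
    sum_le_sum (fun y _ => le_max_right _ _)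
  have h3 : (((edgs Q.Fp).card : ℤ) - (Q.Fp.card : ℤ) - ((verts Q.Fp).card : ℤ))
      ≤ max 0 (((edgs Q.Fp).card : ℤ) - (Q.Fp.card : ℤ) - ((verts Q.Fp).card : ℤ)) := le_max_right _ _
  have h4 : Q.hh D0 = ((edgs Q.Fp).filter (fun e => 2 ≤ edeg Q.Fp e ∧ ∀ y ∈ e, Q.hi D0 y)).card := by
    unfold Imm.hh
    congr
  rw [h4]
  linarith

end Pool.Agent.SC
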