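import Pool.Agent.Lib.MP_d0323d_co.Cost
import Pool.Agent.Lib.MP_d0323d_co.HHArb
/-! Module HH (5.4): arboricity. -/
set_option autoImplicit false
namespace Pool.Agent.SC
open Finset
open HHAux
variable {V : Type} [Fintype V] [DecidableEq V] {n : ℕ} (Q : Imm V n)

/-- odd edges -/
theorem Imm.odd_le {N : ℕ} (hN : Q.Fp.card ≤ N) :
    (((edgs Q.Fp).filter (fun e => Odd (edeg Q.Fp e))).card : ℝ)
      ≤ 36 * Q.Ts.card * Q.GG (Nat.log 2 N + 1) + 5 * Q.lp := by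
  classical
  have h1 : ((edgs Q.Fp).filter (fun e => Odd (edeg Q.Fp e))).card
      ≤ Q.bbt + ((edgs Q.Fp).filter (fun e => edeg Q.Fp e = 1)).card := by
    unfold Imm.bbt
    rw [card_filter, card_filter, ← sum_add_distrib]
    apply sum_le_sum
    intro e _
    split_ifs with h h' h'
    · omega
    · obtain ⟨k, hk⟩ := h
      omega
    · omega
    · omega
  have h2 : 2 * ((edgs Q.Fp).filter (fun e => edeg Q.Fp e = 1)).card ≤ ∑ y ∈ verts Q.Fp, Q.d1 y := by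
    unfold Imm.d1 Imm.Ey
    have h3 : ∀ y ∈ verts Q.Fp, (((edgs Q.Fp).filter (fun e => y ∈ e)).filter
        (fun e => edeg Q.Fp e = 1)).card
        = (((edgs Q.Fp).filter (fun e => edeg Q.Fp e = 1)).filter (fun e => y ∈ e)).card := by
      intro y _
      rw [filter_comm]
    rw [sum_congr rfl h3, dcount (verts Q.Fp) ((edgs Q.Fp).filter (fun e => edeg Q.Fp e = 1))
      (fun y e => y ∈ e)]
    have h4 : ∀ e ∈ (edgs Q.Fp).filter (fun e => edeg Q.Fp e = 1),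
        ((verts Q.Fp).filter (fun y => y ∈ e)).card = 2 := by
      intro e he
      obtain ⟨h2, s, hs, hes⟩ := mem_edgs.mp (mem_filter.mp he).1
      rw [← h2]
      congr 1
      ext y
      rw [mem_filter]
      exact ⟨fun h => h.2, fun h => ⟨mem_verts.mpr ⟨s, hs, hes h⟩, h⟩⟩
    rw [sum_congr rfl h4, sum_const, smul_eq_mul, mul_comm]
  have h3 := Q.sum_d1_le
  have h4 := Q.bbt_le hN
  have h5 := Q.cT_le hN
  have h6 : (((edgs Q.Fp).filter (fun e => Odd (edeg Q.Fp e))).card : ℝ)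
      ≤ (Q.bbt : ℝ) + (((edgs Q.Fp).filter (fun e => edeg Q.Fp e = 1)).card : ℝ) := by
    exact_mod_cast h1
  have h7 : 2 * (((edgs Q.Fp).filter (fun e => edeg Q.Fp e = 1)).card : ℝ)
      ≤ 2 * (Q.lp : ℝ) + (Q.Ts.card : ℝ) * (Q.cT : ℝ) := by
    exact_mod_cast h2.trans h3
  have h8 : (Q.Ts.card : ℝ) * (Q.cT : ℝ) ≤ (Q.Ts.card : ℝ) * (12 * Q.GG (Nat.log 2 N + 1)) :=
    mul_le_mul_of_nonneg_left h5 (Nat.cast_nonneg _)
  have h9 : (0 : ℝ) ≤ Q.lp := Nat.cast_nonneg _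
  nlinarith

theorem Imm.GG_nonneg' {N : ℕ} (hN : Q.Fp.card ≤ N) : 0 ≤ Q.GG (Nat.log 2 N + 1) := by
  have h5 := Q.cT_le hN
  have : (0 : ℝ) ≤ Q.cT := Nat.cast_nonneg _
  linarith

theorem Imm.hh_le {N : ℕ} (hN : Q.Fp.card ≤ N) (D0 : ℕ) (hD0 : 1 ≤ D0) :
    (Q.hh D0 : ℝ) ≤ 200 * Q.Ts.card * Q.GG (Nat.log 2 N + 1) + 20 * Q.lp
      + 40 * (Q.Fp.card : ℝ) / D0 := by
  classical
  set H := (verts Q.Fp).filter (fun y => Q.lab y ∉ Q.Ts ∧ D0 < (Q.Ey y).card) with hHdef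
  have hraw := Q.hh_le_raw D0
  rw [← hHdef] at hraw
  have hGG := Q.GG_nonneg' hN
  have hodd := Q.odd_le hN
  have hTs : (3 : ℝ) ≤ Q.Ts.card := by exact_mod_cast Q.three
  have hD0' : (0 : ℝ) < D0 := by exact_mod_cast hD0
  -- `|H| ≤ 6 f' / D0`
  have hH : (H.card : ℝ) ≤ 6 * (Q.Fp.card : ℝ) / D0 := by
    rw [le_div_iff₀ hD0']
    have h1 : H.card * D0 ≤ ∑ y ∈ H, (Q.Ey y).card := by
      rw [← smul_eq_mul, ← sum_const]
      apply sum_le_sum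
      intro y hy
      exact (mem_filter.mp hy).2.2.le
    have h2 : ∑ y ∈ H, (Q.Ey y).card ≤ ∑ y ∈ verts Q.Fp, (Q.Ey y).card :=
      sum_le_sum_of_subset (filter_subset _ _)
    have h3 : ∑ y ∈ verts Q.Fp, (Q.Ey y).card = 2 * (edgs Q.Fp).card := sum_Ey
    have h4 : (edgs Q.Fp).card ≤ 3 * Q.Fp.card := by
      rw [← sum_edeg (isFam_Fp Q), card_eq_sum_ones]
      apply sum_le_sum
      intro e he
      exact edeg_pos.mpr (mem_edgs.mp he).2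
    have h5 : H.card * D0 ≤ 6 * Q.Fp.card := by omega
    exact_mod_cast h5
  -- the sum over `H`
  have hsum : ((∑ y ∈ H, max 0 (((star Q.Fp y).card : ℤ) - ((Q.Ey y).card : ℤ)) : ℤ) : ℝ)
      ≤ 12 * Q.GG (Nat.log 2 N + 1) := by
    rw [Int.cast_sum]
    have h1 : ∀ y ∈ H, ((max 0 (((star Q.Fp y).card : ℤ) - ((Q.Ey y).card : ℤ)) : ℤ) : ℝ)
        ≤ 4 * Q.cost (Nat.log 2 N + 1) y := by
      intro y hy
      have hyv := (mem_filter.mp hy).1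
      have h2 := Q.chi_le_cost hN hyv
      have h3 := Q.cost_nonneg hN y
      rw [Int.cast_max, Int.cast_zero, Int.cast_sub, Int.cast_natCast, Int.cast_natCast]
      exact max_le (by linarith) h2
    refine (sum_le_sum h1).trans ?_
    rw [← mul_sum]
    have h2 : ∑ y ∈ H, Q.cost (Nat.log 2 N + 1) y ≤ ∑ y ∈ verts Q.Fp, Q.cost (Nat.log 2 N + 1) y :=
      sum_le_sum_of_subset_of_nonneg (filter_subset _ _) (fun y _ _ => Q.cost_nonneg hN y)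
    have h3 := Q.sum_cost_le hN
    linarith
  have heul : ((max 0 (((edgs Q.Fp).card : ℤ) - (Q.Fp.card : ℤ) - ((verts Q.Fp).card : ℤ)) : ℤ) : ℝ)
      ≤ (Q.Ts.card : ℝ) * (12 * Q.GG (Nat.log 2 N + 1)) := by
    have h1 := Q.euler_le
    have h2 : max 0 (((edgs Q.Fp).card : ℤ) - (Q.Fp.card : ℤ) - ((verts Q.Fp).card : ℤ))
        ≤ (Q.Ts.card : ℤ) * Q.cT := max_le (by positivity) h1
    have h3 : ((max 0 (((edgs Q.Fp).card : ℤ) - (Q.Fp.card : ℤ) - ((verts Q.Fp).card : ℤ)) : ℤ) : ℝ)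
        ≤ (((Q.Ts.card : ℤ) * Q.cT : ℤ) : ℝ) := by exact_mod_cast h2
    refine h3.trans ?_
    push_cast
    exact mul_le_mul_of_nonneg_left (Q.cT_le hN) (Nat.cast_nonneg _)
  have hraw' : (Q.hh D0 : ℝ) ≤ (((edgs Q.Fp).filter (fun e => Odd (edeg Q.Fp e))).card : ℝ)
      + 3 * (H.card : ℝ)
      + 3 * ((∑ y ∈ H, max 0 (((star Q.Fp y).card : ℤ) - ((Q.Ey y).card : ℤ)) : ℤ) : ℝ)
      + 3 * ((max 0 (((edgs Q.Fp).card : ℤ) - (Q.Fp.card : ℤ) - ((verts Q.Fp).card : ℤ)) : ℤ) : ℝ) := by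
    exact_mod_cast hraw
  have hlp : (0 : ℝ) ≤ Q.lp := Nat.cast_nonneg _
  have hf : (0 : ℝ) ≤ (Q.Fp.card : ℝ) / D0 := by positivity
  have h18 : 3 * (6 * (Q.Fp.card : ℝ) / D0) ≤ 40 * (Q.Fp.card : ℝ) / D0 := by
    have : 40 * (Q.Fp.card : ℝ) / D0 = 40 * ((Q.Fp.card : ℝ) / D0) := by ring
    have h' : 3 * (6 * (Q.Fp.card : ℝ) / D0) = 18 * ((Q.Fp.card : ℝ) / D0) := by ring
    rw [this, h']
    linarith
  have hprod : Q.GG (Nat.log 2 N + 1) ≤ (Q.Ts.card : ℝ) * Q.GG (Nat.log 2 N + 1) := by nlinarith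
  nlinarith

end Pool.Agent.SC
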