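import Pool.Agent.Lib.MP_d0323d_co.Cost
/-! Module PINCH (5.5). -/
set_option autoImplicit false
namespace Pool.Agent.SC
open Finset

section Reps
variable {β : Type*} [DecidableEq β]

/-- connected inside `A` -/
def PINCH_cn (A : Finset β) (r : β → β → Prop) (a b : β) : Prop :=
  Relation.ReflTransGen (fun a b => a ∈ A ∧ b ∈ A ∧ r a b) a b

/-- pairwise unconnected elements -/
def PINCH_un (A : Finset β) (r : β → β → Prop) (B : Finset β) : Prop :=
  ∀ a ∈ B, ∀ b ∈ B, PINCH_cn A r a b → a = b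

omit [DecidableEq β] in
theorem PINCH_cn_symm {A : Finset β} {r : β → β → Prop} (hs : ∀ a b, r a b → r b a) {a b : β}
    (h : PINCH_cn A r a b) : PINCH_cn A r b a :=
  rtg_symm (fun _ _ huv => ⟨huv.2.1, huv.1, hs _ _ huv.2.2⟩) h

theorem PINCH_card_le {A B : Finset β} {r : β → β → Prop} (hs : ∀ a b, r a b → r b a)
    (hB : B ⊆ A) (hu : PINCH_un A r B) : B.card ≤ ncl A r := by
  have := ncl_finite (A := A) (r := r)
  let g : {x // x ∈ B} → Quot (fun a b : {x // x ∈ A} => r a.1 b.1) :=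
    fun x => Quot.mk _ ⟨x.1, hB x.2⟩
  have hg : Function.Injective g := by
    intro x y hxy
    have := (quot_eq_iff hs _ _).mp hxy
    exact Subtype.ext (hu x.1 x.2 y.1 y.2 this)
  have h2 := Nat.card_le_card_of_injective _ hg
  rw [Nat.card_eq_fintype_card (α := {x // x ∈ B}), Fintype.card_coe] at h2
  exact h2

/-- a set of representatives -/
theorem PINCH_reps (A : Finset β) (r : β → β → Prop) (hs : ∀ a b, r a b → r b a) :
    ∃ B ⊆ A, B.card = ncl A r ∧ PINCH_un A r B ∧ ∀ a ∈ A, ∃ b ∈ B, PINCH_cn A r a b := by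
  classical
  have := ncl_finite (A := A) (r := r)
  have : Fintype (Quot (fun a b : {x // x ∈ A} => r a.1 b.1)) := Fintype.ofFinite _
  let g : Quot (fun a b : {x // x ∈ A} => r a.1 b.1) → β := fun q => (Quot.out q).1
  have hg : Function.Injective g := by
    intro p q hpq
    have h1 : Quot.out p = Quot.out q := Subtype.ext hpq
    rw [← Quot.out_eq p, ← Quot.out_eq q, h1]
  refine ⟨univ.image g, ?_, ?_, ?_, ?_⟩
  · intro b hb
    obtain ⟨q, _, rfl⟩ := mem_image.mp hb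
    exact (Quot.out q).2
  · rw [card_image_of_injective _ hg, ncl, Nat.card_eq_fintype_card, Finset.card_univ]
  · intro a ha b hb hab
    obtain ⟨p, _, rfl⟩ := mem_image.mp ha
    obtain ⟨q, _, rfl⟩ := mem_image.mp hb
    have h1 := (quot_eq_iff hs (Quot.out p) (Quot.out q)).mpr hab
    rw [Quot.out_eq, Quot.out_eq] at h1
    rw [h1]
  · intro a ha
    refine ⟨g (Quot.mk _ ⟨a, ha⟩), mem_image_of_mem _ (mem_univ _), ?_⟩
    apply (quot_eq_iff hs ⟨a, ha⟩ (Quot.out (Quot.mk _ ⟨a, ha⟩))).mp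
    rw [Quot.out_eq]

/-- representatives of the classes other than the class of `a` -/
theorem PINCH_reps_erase (A : Finset β) (r : β → β → Prop) (hs : ∀ a b, r a b → r b a) {a : β}
    (ha : a ∈ A) :
    ∃ B ⊆ A, B.card + 1 = ncl A r ∧ PINCH_un A r B ∧ ∀ b ∈ B, ¬ PINCH_cn A r a b := by
  obtain ⟨B, hB, hc, hu, hex⟩ := PINCH_reps A r hs
  obtain ⟨b, hb, hab⟩ := hex a ha
  refine ⟨B.erase b, fun x hx => hB (mem_of_mem_erase hx), ?_, ?_, ?_⟩
  · rw [card_erase_of_mem hb, ← hc]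
    have : 0 < B.card := card_pos.mpr ⟨b, hb⟩
    omega
  · intro x hx y hy hxy
    exact hu x (mem_of_mem_erase hx) y (mem_of_mem_erase hy) hxy
  · intro x hx hax
    have := hu b hb x (mem_of_mem_erase hx) ((PINCH_cn_symm hs hab).trans hax)
    exact (mem_erase.mp hx).1 this.symm

end Reps

theorem PINCH_EAdj_symm {α : Type*} [DecidableEq α] {s t : Finset α} (h : EAdj s t) : EAdj t s := by
  unfold EAdj at *
  rwa [inter_comm]

variable {V : Type} [Fintype V] [DecidableEq V] {n : ℕ} (Q : Imm V n)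

/-- edges at `y` where the level `t` is crossed -/
noncomputable def Imm.tre (t : ℕ) (y : V) : Finset (Finset V) :=
  (Q.Ey y).filter (fun e => Q.mine e < t ∧ t ≤ Q.maxe e)

theorem Imm.mine_le {e s : Finset V} (hs : s ∈ Q.Fp) (he : e ⊆ s) : Q.mine e ≤ Q.mf s :=
  Nat.sInf_le ⟨s, hs, he, rfl⟩

theorem Imm.le_maxe {e s : Finset V} (hs : s ∈ Q.Fp) (he : e ⊆ s) : Q.mf s ≤ Q.maxe e := by
  unfold Imm.maxe
  exact Finset.le_sup (f := Q.mf) (mem_filter.mpr ⟨hs, he⟩)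

/-- images of distinct faces at `y` containing a common pair are adjacent -/
theorem Imm.image_EAdj {y : V} {s s' e : Finset V} (hs : s ∈ star Q.Fp y) (hs' : s' ∈ star Q.Fp y)
    (hne : s ≠ s') (he : e.card = 2) (hes : e ⊆ s) (hes' : e ⊆ s') :
    EAdj (s.image Q.lab) (s'.image Q.lab) := by
  have h1 := mem_filter.mp hs
  have h2 := mem_filter.mp hs'
  have hF := Q.Fp_sub h1.1
  have hF' := Q.Fp_sub h2.1
  have hne2 : s.image Q.lab ≠ s'.image Q.lab := by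
    intro h
    exact Finset.disjoint_left.mp (Q.disjoint_of_same h1.1 h2.1 hne h) h1.2 h2.2
  have h3 : (e.image Q.lab).card = 2 := by
    rw [card_image_of_injOn, he]
    exact (Q.lab_injOn_face hF).mono (by exact_mod_cast hes)
  have h4 : e.image Q.lab ⊆ s.image Q.lab ∩ s'.image Q.lab :=
    subset_inter (image_subset_image hes) (image_subset_image hes')
  have h5 := card_le_card h4
  have h6 : (s.image Q.lab ∩ s'.image Q.lab).card < 3 := by
    rw [← Q.image_card hF]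
    apply card_lt_card
    refine ⟨inter_subset_left, fun h => ?_⟩
    apply hne2
    apply eq_of_subset_of_card_le (h.trans inter_subset_right)
    rw [Q.image_card hF, Q.image_card hF']
  unfold EAdj
  omega

theorem Imm.image_EAdj' {y : V} {s s' : Finset V} (hs : s ∈ star Q.Fp y) (hs' : s' ∈ star Q.Fp y)
    (h : EAdj s s') : EAdj (s.image Q.lab) (s'.image Q.lab) := by
  apply Q.image_EAdj hs hs' _ h inter_subset_left inter_subset_right
  rintro rfl
  unfold EAdj at h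
  rw [inter_self, Q.F_card s (Q.Fp_sub (mem_filter.mp hs).1)] at h
  omega

theorem Imm.image_mem {t : ℕ} (ht : 1 ≤ t) {y : V} {s : Finset V} (hs : s ∈ star Q.Fp y)
    (h : t ≤ Q.mf s) : s.image Q.lab ∈ star (Q.Z t) (Q.lab y) := by
  unfold star
  rw [mem_filter]
  exact ⟨(Q.mem_Z ht).mpr h, mem_image_of_mem _ (mem_filter.mp hs).2⟩

/-- walking inside the star of `y` -/
theorem Imm.walk {t : ℕ} (ht : 1 ≤ t) {y : V} {s s' : Finset V} (hs : s ∈ star Q.Fp y)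
    (hm : t ≤ Q.mf s) (h : PINCH_cn (star Q.Fp y) EAdj s s') :
    (t ≤ Q.mf s' ∧ s' ∈ star Q.Fp y ∧
      PINCH_cn (star (Q.Z t) (Q.lab y)) EAdj (s.image Q.lab) (s'.image Q.lab)) ∨
    ∃ s1 ∈ star Q.Fp y, t ≤ Q.mf s1 ∧
      PINCH_cn (star (Q.Z t) (Q.lab y)) EAdj (s.image Q.lab) (s1.image Q.lab) ∧
      ∃ e ∈ Q.tre t y, e ⊆ s1 := by
  induction h with
  | refl => exact Or.inl ⟨hm, hs, Relation.ReflTransGen.refl⟩
  | @tail b c _ hbc ih =>
    rcases ih with ⟨h1, h2, h3⟩ | h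
    · by_cases hc : t ≤ Q.mf c
      · left
        refine ⟨hc, hbc.2.1, h3.tail ⟨?_, ?_, ?_⟩⟩
        · exact Q.image_mem ht h2 h1
        · exact Q.image_mem ht hbc.2.1 hc
        · exact Q.image_EAdj' hbc.1 hbc.2.1 hbc.2.2
      · right
        refine ⟨b, h2, h1, h3, b ∩ c, ?_, inter_subset_left⟩
        have hb' := mem_filter.mp h2
        have hc' := mem_filter.mp hbc.2.1
        unfold Imm.tre Imm.Ey
        rw [mem_filter, mem_filter, mem_edgs]
        refine ⟨⟨⟨hbc.2.2, b, hb'.1, inter_subset_left⟩, mem_inter.mpr ⟨hb'.2, hc'.2⟩⟩, ?_, ?_⟩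
        · exact lt_of_le_of_lt (Q.mine_le hc'.1 inter_subset_right) (not_le.mp hc)
        · exact h1.trans (Q.le_maxe hb'.1 inter_subset_left)
    · exact Or.inr h

/-- main local bound -/
theorem Imm.hit_le {t : ℕ} (ht : 1 ≤ t) {y : V} {B : Finset (Finset V)} (hB : B ⊆ star Q.Fp y)
    (hm : ∀ s ∈ B, t ≤ Q.mf s)
    (hu : ∀ s ∈ B, ∀ s' ∈ B, PINCH_cn (star (Q.Z t) (Q.lab y)) EAdj (s.image Q.lab)
      (s'.image Q.lab) → s = s') :
    B.card ≤ kap Q.Fp y + (Q.tre t y).card ∧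
      (kap Q.Fp y = 1 → (∃ s ∈ star Q.Fp y, Q.mf s < t) → B.card ≤ (Q.tre t y).card) := by
  classical
  have hsym : ∀ a b : Finset V, EAdj a b → EAdj b a := fun _ _ h => PINCH_EAdj_symm h
  have hsymL : ∀ a b : Finset (Fin n), EAdj a b → EAdj b a := fun _ _ h => PINCH_EAdj_symm h
  let full : Finset V → Prop := fun s =>
    ∀ s' ∈ star Q.Fp y, PINCH_cn (star Q.Fp y) EAdj s s' → t ≤ Q.mf s'
  have h1 : (B.filter full).card ≤ kap Q.Fp y := by
    apply PINCH_card_le hsym ((filter_subset _ _).trans hB)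
    intro a ha b hb hab
    rw [mem_filter] at ha hb
    apply hu a ha.1 b hb.1
    -- walk along the chain, everything stays full
    have key : ∀ c, PINCH_cn (star Q.Fp y) EAdj a c → t ≤ Q.mf c ∧
        PINCH_cn (star (Q.Z t) (Q.lab y)) EAdj (a.image Q.lab) (c.image Q.lab) := by
      intro c hc
      induction hc with
      | refl => exact ⟨hm a ha.1, Relation.ReflTransGen.refl⟩
      | @tail b c hab' hbc ih =>
        have hc : t ≤ Q.mf c := ha.2 c hbc.2.1 (hab'.tail hbc)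
        exact ⟨hc, ih.2.tail ⟨Q.image_mem ht hbc.1 ih.1, Q.image_mem ht hbc.2.1 hc,
          Q.image_EAdj' hbc.1 hbc.2.1 hbc.2.2⟩⟩
    exact (key b hab).2
  have h2 : (B.filter (fun s => ¬ full s)).card ≤ (Q.tre t y).card := by
    have hex : ∀ s ∈ B.filter (fun s => ¬ full s), ∃ e ∈ Q.tre t y, ∃ s1 ∈ star Q.Fp y,
        t ≤ Q.mf s1 ∧ e ⊆ s1 ∧
        PINCH_cn (star (Q.Z t) (Q.lab y)) EAdj (s.image Q.lab) (s1.image Q.lab) := by
      intro s hs
      rw [mem_filter] at hs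
      have h3 : ∃ s' ∈ star Q.Fp y, PINCH_cn (star Q.Fp y) EAdj s s' ∧ ¬ t ≤ Q.mf s' := by
        by_contra hno
        apply hs.2
        intro s' hs' hc
        by_contra hlt
        exact hno ⟨s', hs', hc, hlt⟩
      obtain ⟨s', hs', hc, hlt⟩ := h3
      rcases Q.walk ht (hB hs.1) (hm s hs.1) hc with h | ⟨s1, h4, h5, h6, e, he, hes⟩
      · exact absurd h.1 hlt
      · exact ⟨e, he, s1, h4, h5, hes, h6⟩
    choose! f hf using hex
    apply Finset.card_le_card_of_injOn f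
    · intro s hs
      exact (hf s hs).1
    · intro s hs s' hs' heq
      rw [mem_coe] at hs hs'
      obtain ⟨he, s1, h4, h5, hes, h6⟩ := hf s hs
      obtain ⟨_, s2, h4', h5', hes', h6'⟩ := hf s' hs'
      rw [← heq] at hes'
      have hs0 := mem_filter.mp hs
      have hs0' := mem_filter.mp hs'
      apply hu s hs0.1 s' hs0'.1
      refine h6.trans (Relation.ReflTransGen.trans ?_ (PINCH_cn_symm hsymL h6'))
      by_cases h7 : s1 = s2
      · rw [h7]
      · apply Relation.ReflTransGen.single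
        refine ⟨Q.image_mem ht h4 h5, Q.image_mem ht h4' h5', ?_⟩
        have he2 : (f s).card = 2 := by
          unfold Imm.tre Imm.Ey at he
          rw [mem_filter, mem_filter, mem_edgs] at he
          exact he.1.1.1
        exact Q.image_EAdj h4 h4' h7 he2 hes hes'
  have h3 : (B.filter full).card + (B.filter (fun s => ¬ full s)).card = B.card :=
    Finset.card_filter_add_card_filter_not _
  refine ⟨by omega, ?_⟩
  intro hk hlow
  obtain ⟨s0, hs0, hlt⟩ := hlow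
  have h4 : B.filter full = ∅ := by
    rw [Finset.filter_eq_empty_iff]
    intro s hs hfull
    have hne : (star Q.Fp y).Nonempty := ⟨s0, hs0⟩
    have h5 := (ncl_eq_one_iff hsym hne).mp hk s (hB hs) s0 hs0
    have := hfull s0 hs0 h5
    omega
  rw [h4, card_empty] at h3
  omega

/-- double counting over the copies of a label -/
theorem Imm.sum_hit {t : ℕ} {x : Fin n} (B : Finset (Finset (Fin n)))
    (hB : B ⊆ star (Q.Z t) x) :
    t * B.card ≤ ∑ y ∈ Q.copies x, ((star Q.Fp y).filter (fun s => s.image Q.lab ∈ B)).card := by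
  classical
  have h1 : ∀ σ ∈ B, t ≤ ((Q.copies x).filter (fun y => ∃ s ∈ Q.Fp, y ∈ s ∧ s.image Q.lab = σ)).card := by
    intro σ hσ
    have h2 := mem_filter.mp (hB hσ)
    rw [← Q.mult_eq h2.2]
    exact (mem_filter.mp h2.1).2
  have h2 := Finset.card_nsmul_le_sum _ _ _ h1
  rw [smul_eq_mul, mul_comm] at h2
  refine h2.trans ?_
  rw [dcount B (Q.copies x) (fun σ y => ∃ s ∈ Q.Fp, y ∈ s ∧ s.image Q.lab = σ)]
  apply Finset.sum_le_sum
  intro y _
  have h3 : B.filter (fun σ => ∃ s ∈ Q.Fp, y ∈ s ∧ s.image Q.lab = σ) ⊆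
      ((star Q.Fp y).filter (fun s => s.image Q.lab ∈ B)).image (fun s => s.image Q.lab) := by
    intro σ hσ
    rw [mem_filter] at hσ
    obtain ⟨hσB, s, hs, hys, hse⟩ := hσ
    rw [mem_image]
    refine ⟨s, ?_, hse⟩
    rw [mem_filter]
    refine ⟨mem_filter.mpr ⟨hs, hys⟩, ?_⟩
    rw [hse]; exact hσB
  exact (card_le_card h3).trans card_image_le

theorem Imm.cn_full {t : ℕ} (ht : 1 ≤ t) {y : V} {a c : Finset V} (ha : a ∈ star Q.Fp y)
    (hfull : ∀ s' ∈ star Q.Fp y, PINCH_cn (star Q.Fp y) EAdj a s' → t ≤ Q.mf s')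
    (h : PINCH_cn (star Q.Fp y) EAdj a c) :
    PINCH_cn (star (Q.Z t) (Q.lab y)) EAdj (a.image Q.lab) (c.image Q.lab) := by
  have key : t ≤ Q.mf c ∧
      PINCH_cn (star (Q.Z t) (Q.lab y)) EAdj (a.image Q.lab) (c.image Q.lab) := by
    induction h with
    | refl => exact ⟨hfull a ha Relation.ReflTransGen.refl, Relation.ReflTransGen.refl⟩
    | @tail b c hab' hbc ih =>
      have hc : t ≤ Q.mf c := hfull c hbc.2.1 (hab'.tail hbc)
      exact ⟨hc, ih.2.tail ⟨Q.image_mem ht hbc.1 ih.1, Q.image_mem ht hbc.2.1 hc,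
        Q.image_EAdj' hbc.1 hbc.2.1 hbc.2.2⟩⟩
  exact key.2

/-- the faces at `y` whose image is in a set of pairwise unconnected triples -/
theorem Imm.filter_le {t : ℕ} (ht : 1 ≤ t) {x : Fin n} {y : V} (hy : Q.lab y = x)
    {B : Finset (Finset (Fin n))} (hB : B ⊆ star (Q.Z t) x)
    (hu : PINCH_un (star (Q.Z t) x) EAdj B) :
    ((star Q.Fp y).filter (fun s => s.image Q.lab ∈ B)).card ≤ kap Q.Fp y + (Q.tre t y).card ∧
      (kap Q.Fp y = 1 → (∃ s ∈ star Q.Fp y, Q.mf s < t) →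
        ((star Q.Fp y).filter (fun s => s.image Q.lab ∈ B)).card ≤ (Q.tre t y).card) := by
  subst hy
  apply Q.hit_le ht (filter_subset _ _)
  · intro s hs
    rw [mem_filter] at hs
    exact (mem_filter.mp (mem_filter.mp (hB hs.2)).1).2
  · intro s hs s' hs' hc
    rw [mem_filter] at hs hs'
    have h1 := hu _ hs.2 _ hs'.2 hc
    by_contra hne
    have h2 := mem_filter.mp hs.1
    have h3 := mem_filter.mp hs'.1
    exact Finset.disjoint_left.mp (Q.disjoint_of_same h2.1 h3.1 hne h1) h2.2 h3.2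

theorem Imm.image_of_Lk {y : V} {s : Finset V} (hs : y ∈ s) :
    s.image Q.lab = insert (Q.lab y) ((s.erase y).image Q.lab) := by
  rw [← Finset.image_insert, Finset.insert_erase hs]

open Classical in
/-- the bound at a copy -/
noncomputable def Imm.pf (Lam : Fin n → Finset (Finset (Fin n))) (t : ℕ) (y : V) : ℕ :=
  (if y ∈ Q.DD Lam then kap Q.Fp y else 0) + (Q.tre t y).card

theorem Imm.pinch_T {t : ℕ} (ht : 1 ≤ t) (Lam : Fin n → Finset (Finset (Fin n))) {x : Fin n}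
    (hx : x ∈ Q.Ts) : t * kap (Q.Z t) x ≤ ∑ y ∈ Q.copies x, Q.pf Lam t y := by
  classical
  have hsymL : ∀ a b : Finset (Fin n), EAdj a b → EAdj b a := fun _ _ h => PINCH_EAdj_symm h
  obtain ⟨B, hB, hc, hu, _⟩ := PINCH_reps (star (Q.Z t) x) EAdj hsymL
  unfold kap
  rw [← hc]
  refine (Q.sum_hit B hB).trans (Finset.sum_le_sum ?_)
  intro y hy
  have hy' := mem_filter.mp hy
  have hD : y ∈ Q.DD Lam := by
    unfold Imm.DD
    rw [mem_filter]
    refine ⟨hy'.1, fun hg => ?_⟩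
    apply hg.1
    rw [hy'.2]; exact hx
  unfold Imm.pf
  rw [if_pos hD]
  exact (Q.filter_le ht hy'.2 hB hu).1

theorem Imm.pinch_ord {t : ℕ} (ht : 1 ≤ t) (Lam : Fin n → Finset (Finset (Fin n))) {x : Fin n}
    (hxt : x ∈ verts (Q.Z t)) : t * (kap (Q.Z t) x - 1) ≤ ∑ y ∈ Q.copies x, Q.pf Lam t y := by
  classical
  have hsym : ∀ a b : Finset V, EAdj a b → EAdj b a := fun _ _ h => PINCH_EAdj_symm h
  have hsymL : ∀ a b : Finset (Fin n), EAdj a b → EAdj b a := fun _ _ h => PINCH_EAdj_symm h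
  -- the distinguished component
  obtain ⟨a0, ha0, ha0'⟩ : ∃ a0 ∈ star (Q.Z t) x, ∀ y ∈ Q.copies x, y ∉ Q.DD Lam →
      (∀ s ∈ star Q.Fp y, t ≤ Q.mf s) → ∀ s ∈ star Q.Fp y,
        PINCH_cn (star (Q.Z t) x) EAdj a0 (s.image Q.lab) := by
    by_cases hex : ∃ y0 ∈ Q.copies x, y0 ∉ Q.DD Lam ∧ ∀ s ∈ star Q.Fp y0, t ≤ Q.mf s
    · obtain ⟨y0, hy0, hD0, hf0⟩ := hex
      have hy0' := mem_filter.mp hy0
      obtain ⟨s0, hs0, hys0⟩ := mem_verts.mp hy0'.1
      have hs0' : s0 ∈ star Q.Fp y0 := mem_filter.mpr ⟨hs0, hys0⟩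
      have hg0 : Q.good Lam y0 := by
        by_contra hno
        exact hD0 (mem_filter.mpr ⟨hy0'.1, hno⟩)
      refine ⟨s0.image Q.lab, ?_, ?_⟩
      · rw [← hy0'.2]; exact Q.image_mem ht hs0' (hf0 s0 hs0')
      · intro y hy hD hf s hs
        have hy' := mem_filter.mp hy
        have hg : Q.good Lam y := by
          by_contra hno
          exact hD (mem_filter.mpr ⟨hy'.1, hno⟩)
        have hs' := mem_filter.mp hs
        have hLk : Q.Lk y = Q.Lk y0 := by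
          rw [hg.2.2.2, hg0.2.2.2, hy'.2, hy0'.2]
        have h1 : (s.erase y).image Q.lab ∈ Q.Lk y0 := by
          rw [← hLk]
          exact mem_image_of_mem _ hs
        obtain ⟨s1, hs1, hs1e⟩ := mem_image.mp h1
        have hs1' := mem_filter.mp hs1
        have h2 : s.image Q.lab = s1.image Q.lab := by
          rw [Q.image_of_Lk hs'.2, Q.image_of_Lk hs1'.2, hs1e, hy'.2, hy0'.2]
        rw [h2, ← hy0'.2]
        apply Q.cn_full ht hs0' (fun s' hs' _ => hf0 s' hs')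
        exact (ncl_eq_one_iff hsym ⟨s0, hs0'⟩).mp hg0.2.2.1.1 s0 hs0' s1 hs1
    · obtain ⟨σ, hσ, hxσ⟩ := mem_verts.mp hxt
      refine ⟨σ, mem_filter.mpr ⟨hσ, hxσ⟩, ?_⟩
      intro y hy hD hf
      exact absurd ⟨y, hy, hD, hf⟩ hex
  obtain ⟨B, hB, hc, hu, hno⟩ := PINCH_reps_erase (star (Q.Z t) x) EAdj hsymL ha0
  have hk : kap (Q.Z t) x - 1 = B.card := by
    unfold kap
    omega
  rw [hk]
  refine (Q.sum_hit B hB).trans (Finset.sum_le_sum ?_)
  intro y hy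
  have hy' := mem_filter.mp hy
  unfold Imm.pf
  by_cases hD : y ∈ Q.DD Lam
  · rw [if_pos hD]
    exact (Q.filter_le ht hy'.2 hB hu).1
  · rw [if_neg hD, Nat.zero_add]
    have hg : Q.good Lam y := by
      by_contra hno
      exact hD (mem_filter.mpr ⟨hy'.1, hno⟩)
    by_cases hlow : ∃ s ∈ star Q.Fp y, Q.mf s < t
    · exact (Q.filter_le ht hy'.2 hB hu).2 hg.2.2.1.1 hlow
    · have hf : ∀ s ∈ star Q.Fp y, t ≤ Q.mf s := by
        intro s hs
        by_contra hlt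
        exact hlow ⟨s, hs, not_le.mp hlt⟩
      have h0 : (star Q.Fp y).filter (fun s => s.image Q.lab ∈ B) = ∅ := by
        rw [Finset.filter_eq_empty_iff]
        intro s hs hsB
        exact hno _ hsB (ha0' y hy hD hf s hs)
      rw [h0, card_empty]
      exact Nat.zero_le _

theorem Imm.pinch_t {t : ℕ} (ht : 1 ≤ t) (Lam : Fin n → Finset (Finset (Fin n))) :
    t * (∑ x ∈ verts (Q.Z t) \ Q.Ts, (kap (Q.Z t) x - 1) + ∑ x ∈ verts (Q.Z t) ∩ Q.Ts, kap (Q.Z t) x)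
      ≤ ∑ y ∈ verts Q.Fp, Q.pf Lam t y := by
  classical
  have h1 : ∑ y ∈ verts Q.Fp, Q.pf Lam t y = ∑ x : Fin n, ∑ y ∈ Q.copies x, Q.pf Lam t y := by
    unfold Imm.copies
    exact (Finset.sum_fiberwise (verts Q.Fp) Q.lab (fun y => Q.pf Lam t y)).symm
  rw [h1, mul_add, Finset.mul_sum, Finset.mul_sum]
  have h2 : ∑ x ∈ verts (Q.Z t) \ Q.Ts, t * (kap (Q.Z t) x - 1) ≤
      ∑ x ∈ verts (Q.Z t) \ Q.Ts, ∑ y ∈ Q.copies x, Q.pf Lam t y :=
    Finset.sum_le_sum (fun x hx => Q.pinch_ord ht Lam (mem_sdiff.mp hx).1)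
  have h3 : ∑ x ∈ verts (Q.Z t) ∩ Q.Ts, t * kap (Q.Z t) x ≤
      ∑ x ∈ verts (Q.Z t) ∩ Q.Ts, ∑ y ∈ Q.copies x, Q.pf Lam t y :=
    Finset.sum_le_sum (fun x hx => Q.pinch_T ht Lam (mem_inter.mp hx).2)
  refine (add_le_add h2 h3).trans ?_
  rw [← Finset.sum_union (Finset.disjoint_sdiff_inter _ _)]
  exact Finset.sum_le_sum_of_subset (subset_univ _)

/-- summation over the levels -/
theorem Imm.sum_tre (N : ℕ) (y : V) :
    ∑ t ∈ Icc 1 Q.tm, ((Q.tre t y).card : ℝ) / t ≤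
      4 * ((Nat.log 2 N + 1 : ℕ) : ℝ) * Q.TV (Nat.log 2 N + 1) y := by
  unfold Imm.TV
  rw [Finset.mul_sum]
  have h1 : ∀ t ∈ Icc 1 Q.tm, ((Q.tre t y).card : ℝ) / t =
      ∑ e ∈ Q.Ey y, (if Q.mine e < t ∧ t ≤ Q.maxe e then (1 : ℝ) / t else 0) := by
    intro t _
    unfold Imm.tre
    rw [← Finset.sum_filter, Finset.sum_const, nsmul_eq_mul, mul_one_div]
  rw [Finset.sum_congr rfl h1, Finset.sum_comm]
  apply Finset.sum_le_sum
  intro e he
  unfold Imm.Ey at he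
  rw [mem_filter, mem_edgs] at he
  obtain ⟨⟨_, s, hs, hes⟩, _⟩ := he
  have hne : {m : ℕ | ∃ s ∈ Q.Fp, e ⊆ s ∧ Q.mf s = m}.Nonempty := ⟨_, s, hs, hes, rfl⟩
  obtain ⟨s', hs', hes', hm'⟩ := Nat.sInf_mem hne
  have h2 : 1 ≤ Q.mine e := by
    have := (Q.mf_pos hs').1
    rw [hm'] at this
    exact this
  have h3 : Q.mine e ≤ Q.maxe e := (Q.mine_le hs hes).trans (Q.le_maxe hs hes)
  refine le_trans ?_ (sum_inv_le (Nat.log 2 N + 1) (Q.mine e) (Q.maxe e) (by omega) h2 h3)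
  rw [← Finset.sum_filter]
  apply Finset.sum_le_sum_of_subset_of_nonneg
  · intro t ht
    rw [mem_filter] at ht
    rw [mem_Ioc]
    exact ht.2
  · intro t _ _
    positivity

theorem Imm.KS_nonneg {N : ℕ} (hN : Q.Fp.card ≤ N) : 0 ≤ Q.KS (Nat.log 2 N + 1) := by
  unfold Imm.KS
  apply Finset.sum_nonneg
  intro t ht
  rw [mem_Icc] at ht
  have := wt_ge_half (N := N) (t := t) (ht.2.trans (Q.tm_le.trans hN))
  exact mul_nonneg (by linarith) (Nat.cast_nonneg _)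

theorem Imm.pinch {N : ℕ} (hN : Q.Fp.card ≤ N) (Lam : Fin n → Finset (Finset (Fin n))) :
    ∑ t ∈ Icc 1 Q.tm, wt (Nat.log 2 N + 1) t *
      ((∑ x ∈ verts (Q.Z t) \ Q.Ts, (kap (Q.Z t) x - 1) + ∑ x ∈ verts (Q.Z t) ∩ Q.Ts, kap (Q.Z t) x
        : ℕ) : ℝ)
    ≤ 2 * Q.KS (Nat.log 2 N + 1)
      + 2 * ((Nat.log 2 N + 1 : ℕ) : ℝ) * ((Q.DD Lam).card
          + 4 * ∑ y ∈ verts Q.Fp, Q.cost (Nat.log 2 N + 1) y)
      + 4 * ((Nat.log 2 N + 1 : ℕ) : ℝ) * ∑ y ∈ verts Q.Fp, Q.TV (Nat.log 2 N + 1) y := by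
  classical
  have hKS := Q.KS_nonneg hN
  have htm : Q.tm ≤ N := Q.tm_le.trans hN
  set K : ℝ := ∑ y ∈ Q.DD Lam, (kap Q.Fp y : ℝ) with hK
  have hKn : 0 ≤ K := Finset.sum_nonneg (fun _ _ => Nat.cast_nonneg _)
  have hDsub : Q.DD Lam ⊆ verts Q.Fp := filter_subset _ _
  have h1 : ∀ t ∈ Icc 1 Q.tm, wt (Nat.log 2 N + 1) t *
      ((∑ x ∈ verts (Q.Z t) \ Q.Ts, (kap (Q.Z t) x - 1) +
        ∑ x ∈ verts (Q.Z t) ∩ Q.Ts, kap (Q.Z t) x : ℕ) : ℝ) ≤
      K * (1 / t) + ∑ y ∈ verts Q.Fp, ((Q.tre t y).card : ℝ) / t := by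
    intro t ht
    rw [mem_Icc] at ht
    have h2 := Q.pinch_t ht.1 Lam
    set L : ℕ := ∑ x ∈ verts (Q.Z t) \ Q.Ts, (kap (Q.Z t) x - 1) +
        ∑ x ∈ verts (Q.Z t) ∩ Q.Ts, kap (Q.Z t) x with hL
    have h3 : wt (Nat.log 2 N + 1) t * (L : ℝ) ≤ (L : ℝ) := by
      have := wt_le_one (Nat.log 2 N + 1) t
      have hLn : (0 : ℝ) ≤ (L : ℝ) := Nat.cast_nonneg _
      nlinarith
    refine h3.trans ?_
    have h4 : ((t * L : ℕ) : ℝ) ≤ ((∑ y ∈ verts Q.Fp, Q.pf Lam t y : ℕ) : ℝ) := by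
      exact_mod_cast h2
    have h5 : ((∑ y ∈ verts Q.Fp, Q.pf Lam t y : ℕ) : ℝ) =
        K + ∑ y ∈ verts Q.Fp, ((Q.tre t y).card : ℝ) := by
      unfold Imm.pf
      rw [Finset.sum_add_distrib]
      push_cast
      congr 1
      rw [hK, ← Finset.sum_filter]
      apply Finset.sum_congr _ (fun _ _ => rfl)
      ext y
      rw [mem_filter]
      constructor
      · rintro ⟨_, h⟩; exact h
      · intro h; exact ⟨hDsub h, h⟩
    have ht0 : (0 : ℝ) < t := by exact_mod_cast ht.1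
    rw [h5] at h4
    push_cast at h4
    rw [← Finset.sum_div, mul_one_div, ← add_div, le_div_iff₀ ht0]
    linarith
  refine (Finset.sum_le_sum h1).trans ?_
  rw [Finset.sum_add_distrib, ← Finset.mul_sum, Finset.sum_comm]
  have h6 : ∑ y ∈ verts Q.Fp, ∑ t ∈ Icc 1 Q.tm, ((Q.tre t y).card : ℝ) / t ≤
      4 * ((Nat.log 2 N + 1 : ℕ) : ℝ) * ∑ y ∈ verts Q.Fp, Q.TV (Nat.log 2 N + 1) y := by
    rw [Finset.mul_sum]
    exact Finset.sum_le_sum (fun y _ => Q.sum_tre N y)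
  have h7 : ∑ t ∈ Icc 1 Q.tm, (1 : ℝ) / t ≤ 2 * ((Nat.log 2 N + 1 : ℕ) : ℝ) := by
    rcases Nat.eq_zero_or_pos Q.tm with h | h
    · rw [h]
      simp only [zero_lt_one, Finset.Icc_eq_empty_of_lt, Finset.sum_empty]
      positivity
    · refine le_trans ?_ (sum_inv_N N (h.trans_le htm))
      apply Finset.sum_le_sum_of_subset_of_nonneg
      · exact Finset.Icc_subset_Icc le_rfl htm
      · intro t _ _
        positivity
  have h8 : K ≤ (Q.DD Lam).card + 4 * ∑ y ∈ verts Q.Fp, Q.cost (Nat.log 2 N + 1) y := by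
    have h9 : K ≤ ∑ y ∈ Q.DD Lam, (1 + 4 * Q.cost (Nat.log 2 N + 1) y) :=
      Finset.sum_le_sum (fun y hy => Q.kap_le_cost hN (hDsub hy))
    rw [Finset.sum_add_distrib, Finset.sum_const, nsmul_eq_mul, mul_one, ← Finset.mul_sum] at h9
    have h10 : ∑ y ∈ Q.DD Lam, Q.cost (Nat.log 2 N + 1) y ≤
        ∑ y ∈ verts Q.Fp, Q.cost (Nat.log 2 N + 1) y :=
      Finset.sum_le_sum_of_subset_of_nonneg hDsub (fun y _ _ => Q.cost_nonneg hN y)
    linarith
  have h11 : K * ∑ t ∈ Icc 1 Q.tm, (1 : ℝ) / t ≤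
      2 * ((Nat.log 2 N + 1 : ℕ) : ℝ) * ((Q.DD Lam).card
          + 4 * ∑ y ∈ verts Q.Fp, Q.cost (Nat.log 2 N + 1) y) := by
    have hJ : (0 : ℝ) ≤ 2 * ((Nat.log 2 N + 1 : ℕ) : ℝ) := by positivity
    calc K * ∑ t ∈ Icc 1 Q.tm, (1 : ℝ) / t ≤ K * (2 * ((Nat.log 2 N + 1 : ℕ) : ℝ)) :=
          mul_le_mul_of_nonneg_left h7 hKn
      _ = 2 * ((Nat.log 2 N + 1 : ℕ) : ℝ) * K := by ring
      _ ≤ _ := mul_le_mul_of_nonneg_left h8 hJ
  linarith

end Pool.Agent.SC
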