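import Pool.Agent.Lib.MP_d0323d_co.Local
import Pool.Agent.Lib.MP_d0323d_co.EdgeK
import Pool.Agent.Lib.MP_d0323d_co.HH
import Pool.Agent.Lib.MP_d0323d_co.Pinch
/-! Module LI (5.6, 6.2). -/
set_option autoImplicit false
namespace Pool.Agent.SC
open Finset

/-! ### additivity of the complexity -/
section additivity
variable {α : Type*} [DecidableEq α]

theorem verts_union_li (A B : Finset (Finset α)) : verts (A ∪ B) = verts A ∪ verts B := by
  ext x
  simp only [mem_verts, mem_union]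
  constructor
  · rintro ⟨s, hs | hs, hx⟩
    · exact Or.inl ⟨s, hs, hx⟩
    · exact Or.inr ⟨s, hs, hx⟩
  · rintro (⟨s, hs, hx⟩ | ⟨s, hs, hx⟩)
    · exact ⟨s, Or.inl hs, hx⟩
    · exact ⟨s, Or.inr hs, hx⟩

theorem edgs_union (A B : Finset (Finset α)) : edgs (A ∪ B) = edgs A ∪ edgs B := by
  ext x
  simp only [mem_edgs, mem_union]
  constructor
  · rintro ⟨h2, s, hs | hs, hx⟩
    · exact Or.inl ⟨h2, s, hs, hx⟩
    · exact Or.inr ⟨h2, s, hs, hx⟩
  · rintro (⟨h2, s, hs, hx⟩ | ⟨h2, s, hs, hx⟩)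
    · exact ⟨h2, s, Or.inl hs, hx⟩
    · exact ⟨h2, s, Or.inr hs, hx⟩

theorem edgs_subset_verts {A : Finset (Finset α)} {e : Finset α} (he : e ∈ edgs A) : e ⊆ verts A := by
  obtain ⟨_, s, hs, hes⟩ := mem_edgs.1 he
  intro x hx
  exact mem_verts.2 ⟨s, hs, hes hx⟩

theorem star_union_left {A B : Finset (Finset α)} (h : Disjoint (verts A) (verts B)) {x : α}
    (hx : x ∈ verts A) : star (A ∪ B) x = star A x := by
  unfold star
  ext s
  rw [mem_filter, mem_filter, mem_union]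
  constructor
  · rintro ⟨hs | hs, hxs⟩
    · exact ⟨hs, hxs⟩
    · exact absurd (mem_verts.2 ⟨s, hs, hxs⟩) (disjoint_left.1 h hx)
  · rintro ⟨hs, hxs⟩
    exact ⟨Or.inl hs, hxs⟩

theorem kap_union_left {A B : Finset (Finset α)} (h : Disjoint (verts A) (verts B)) {x : α}
    (hx : x ∈ verts A) : kap (A ∪ B) x = kap A x := by
  unfold kap
  rw [star_union_left h hx]

theorem edeg_union_left {A B : Finset (Finset α)} (h : Disjoint (verts A) (verts B)) {e : Finset α}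
    (he : e ∈ edgs A) : edeg (A ∪ B) e = edeg A e := by
  unfold edeg
  congr 1
  ext s
  rw [mem_filter, mem_filter, mem_union]
  constructor
  · rintro ⟨hs | hs, hes⟩
    · exact ⟨hs, hes⟩
    · exfalso
      have h2 := (mem_edgs.1 he).1
      have hne : e.Nonempty := by
        rw [← card_pos, h2]; norm_num
      obtain ⟨x, hx⟩ := hne
      exact disjoint_left.1 h (edgs_subset_verts he hx) (mem_verts.2 ⟨s, hs, hes hx⟩)
  · rintro ⟨hs, hes⟩
    exact ⟨Or.inl hs, hes⟩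

theorem edgs_disjoint {A B : Finset (Finset α)} (h : Disjoint (verts A) (verts B)) :
    Disjoint (edgs A) (edgs B) := by
  rw [disjoint_left]
  intro e he he'
  have h2 := (mem_edgs.1 he).1
  have hne : e.Nonempty := by
    rw [← card_pos, h2]; norm_num
  obtain ⟨x, hx⟩ := hne
  exact disjoint_left.1 h (edgs_subset_verts he hx) (edgs_subset_verts he' hx)

theorem complT_union (Ts : Finset α) {A B : Finset (Finset α)} (h : Disjoint (verts A) (verts B)) :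
    complT Ts (A ∪ B) = complT Ts A + complT Ts B := by
  have h' : Disjoint (verts B) (verts A) := h.symm
  have hc : A ∪ B = B ∪ A := union_comm _ _
  unfold complT
  have e1 : ∑ e ∈ edgs (A ∪ B), edef (A ∪ B) e = ∑ e ∈ edgs A, edef A e + ∑ e ∈ edgs B, edef B e := by
    rw [edgs_union, sum_union (edgs_disjoint h)]
    congr 1
    · apply sum_congr rfl
      intro e he
      unfold edef
      rw [edeg_union_left h he]
    · apply sum_congr rfl
      intro e he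
      unfold edef
      rw [hc, edeg_union_left h' he]
  have e2 : ∑ x ∈ verts (A ∪ B) \ Ts, (kap (A ∪ B) x - 1)
      = ∑ x ∈ verts A \ Ts, (kap A x - 1) + ∑ x ∈ verts B \ Ts, (kap B x - 1) := by
    rw [verts_union_li, union_sdiff_distrib, sum_union (disjoint_of_subset_left sdiff_subset
      (disjoint_of_subset_right sdiff_subset h))]
    congr 1
    · apply sum_congr rfl
      intro x hx
      rw [kap_union_left h (mem_sdiff.1 hx).1]
    · apply sum_congr rfl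
      intro x hx
      rw [hc, kap_union_left h' (mem_sdiff.1 hx).1]
  have e3 : ∑ x ∈ verts (A ∪ B) ∩ Ts, kap (A ∪ B) x
      = ∑ x ∈ verts A ∩ Ts, kap A x + ∑ x ∈ verts B ∩ Ts, kap B x := by
    rw [verts_union_li, union_inter_distrib_right, sum_union (disjoint_of_subset_left inter_subset_left
      (disjoint_of_subset_right inter_subset_left h))]
    congr 1
    · apply sum_congr rfl
      intro x hx
      rw [kap_union_left h (mem_inter.1 hx).1]
    · apply sum_congr rfl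
      intro x hx
      rw [hc, kap_union_left h' (mem_inter.1 hx).1]
  rw [e1, e2, e3]
  ring

theorem fam_disjoint {A B : Finset (Finset α)} (hA : IsFam A) (h : Disjoint (verts A) (verts B)) :
    Disjoint A B := by
  rw [disjoint_left]
  intro s hs hs'
  have hne : s.Nonempty := by
    rw [← card_pos, hA s hs]; norm_num
  obtain ⟨x, hx⟩ := hne
  exact disjoint_left.1 h (mem_verts.2 ⟨s, hs, hx⟩) (mem_verts.2 ⟨s, hs', hx⟩)

theorem PhT2_union (Ts : Finset α) {A B : Finset (Finset α)} (hA : IsFam A)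
    (h : Disjoint (verts A) (verts B)) :
    PhT2 Ts (A ∪ B) = PhT2 Ts A + PhT2 Ts B := by
  unfold PhT2
  rw [verts_union_li, union_sdiff_distrib, card_union_of_disjoint (disjoint_of_subset_left sdiff_subset
      (disjoint_of_subset_right sdiff_subset h)), card_union_of_disjoint (fam_disjoint hA h)]
  push_cast
  ring

/-- splitting off a vertex-component -/
theorem exists_component {Z : Finset (Finset α)} (hne : Z.Nonempty) :
    ∃ C ⊆ Z, C.Nonempty ∧ Conn C ∧ Disjoint (verts C) (verts (Z \ C)) := by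
  classical
  obtain ⟨s, hs⟩ := hne
  set R : Finset α → Finset α → Prop := fun a b => a ∈ Z ∧ b ∈ Z ∧ (a ∩ b).Nonempty with hR
  set C := Z.filter (fun t => Relation.ReflTransGen R s t) with hC
  refine ⟨C, filter_subset _ _, ⟨s, mem_filter.2 ⟨hs, Relation.ReflTransGen.refl⟩⟩, ?_, ?_⟩
  · have hsymm : ∀ a b : Finset α, (a ∈ C ∧ b ∈ C ∧ (a ∩ b).Nonempty) →
        (b ∈ C ∧ a ∈ C ∧ (b ∩ a).Nonempty) := by
      rintro a b ⟨h1, h2, h3⟩
      exact ⟨h2, h1, by rwa [inter_comm]⟩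
    have key : ∀ t, Relation.ReflTransGen R s t →
        Relation.ReflTransGen (fun a b => a ∈ C ∧ b ∈ C ∧ (a ∩ b).Nonempty) s t := by
      intro t ht
      induction ht with
      | refl => exact Relation.ReflTransGen.refl
      | tail hab hbc ih =>
        refine ih.tail ⟨mem_filter.2 ⟨hbc.1, hab⟩, mem_filter.2 ⟨hbc.2.1, hab.tail hbc⟩, hbc.2.2⟩
    intro a ha b hb
    exact (rtg_symm hsymm (key a (mem_filter.1 ha).2)).trans (key b (mem_filter.1 hb).2)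
  · rw [disjoint_left]
    intro x hx hx'
    obtain ⟨a, ha, hxa⟩ := mem_verts.1 hx
    obtain ⟨b, hb, hxb⟩ := mem_verts.1 hx'
    rw [mem_sdiff] at hb
    apply hb.2
    rw [hC, mem_filter]
    exact ⟨hb.1, (mem_filter.1 ha).2.tail ⟨(mem_filter.1 ha).1, hb.1, ⟨x, mem_inter.2 ⟨hxa, hxb⟩⟩⟩⟩

end additivity

variable {V : Type} [Fintype V] [DecidableEq V] {n : ℕ} (Q : Imm V n)

/-- 5.6 (CX) -/
theorem Imm.cx {N : ℕ} (hN : Q.Fp.card ≤ N) (D0 : ℕ) (hD0 : 1 ≤ D0) :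
    ∑ t ∈ Icc 1 Q.tm, wt (Nat.log 2 N + 1) t * (complT Q.Ts (Q.Z t) : ℝ)
      ≤ 10 ^ 5 * Q.Ts.card * ((Nat.log 2 N + 1 : ℕ) : ℝ) ^ 2 *
        (D0 * Q.GG (Nat.log 2 N + 1) + (Q.Fp.card : ℝ) / D0 + Q.lp) := by
  obtain ⟨Lam, hLam⟩ := Q.exists_Lam hN
  have hKS := Q.KS_le hN Lam D0 hD0
  have hhh := Q.hh_le hN D0 hD0
  have hbb := Q.bbt_le hN
  have hpi := Q.pinch hN Lam
  have hcT := Q.cT_le hN
  have hco := Q.sum_cost_le hN
  have hd1 := Q.sum_d1_le
  have hTV : ∑ y ∈ verts Q.Fp, Q.TV (Nat.log 2 N + 1) y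
      ≤ 20 * ∑ y ∈ verts Q.Fp, Q.cost (Nat.log 2 N + 1) y + 2 * ((∑ y ∈ verts Q.Fp, Q.d1 y : ℕ) : ℝ) := by
    push_cast
    rw [mul_sum, mul_sum, ← sum_add_distrib]
    exact sum_le_sum (fun y hy => Q.TV_le hN hy)
  have hd1' : ((∑ y ∈ verts Q.Fp, Q.d1 y : ℕ) : ℝ) ≤ 2 * Q.lp + Q.Ts.card * Q.cT := by
    exact_mod_cast hd1
  have hsplit : ∑ t ∈ Icc 1 Q.tm, wt (Nat.log 2 N + 1) t * (complT Q.Ts (Q.Z t) : ℝ)
      = Q.KS (Nat.log 2 N + 1) + ∑ t ∈ Icc 1 Q.tm, wt (Nat.log 2 N + 1) t *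
      ((∑ x ∈ verts (Q.Z t) \ Q.Ts, (kap (Q.Z t) x - 1) + ∑ x ∈ verts (Q.Z t) ∩ Q.Ts, kap (Q.Z t) x
        : ℕ) : ℝ) := by
    unfold Imm.KS
    rw [← sum_add_distrib]
    apply sum_congr rfl
    intro t _
    rw [← mul_add]
    congr 1
    unfold complT
    push_cast
    ring
  rw [hsplit]
  have hGG : 0 ≤ Q.GG (Nat.log 2 N + 1) := by
    have : (0 : ℝ) ≤ Q.cT := Nat.cast_nonneg _
    linarith
  have hJ : (1 : ℝ) ≤ ((Nat.log 2 N + 1 : ℕ) : ℝ) := by
    exact_mod_cast Nat.le_add_left 1 _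
  have hT : (3 : ℝ) ≤ (Q.Ts.card : ℝ) := by exact_mod_cast Q.three
  have hD : (1 : ℝ) ≤ (D0 : ℝ) := by exact_mod_cast hD0
  generalize hJd : ((Nat.log 2 N + 1 : ℕ) : ℝ) = J at *
  generalize Q.KS (Nat.log 2 N + 1) = KS at *
  generalize ∑ y ∈ verts Q.Fp, Q.TV (Nat.log 2 N + 1) y = TV at *
  generalize ((∑ y ∈ verts Q.Fp, Q.d1 y : ℕ) : ℝ) = d1 at *
  generalize ∑ y ∈ verts Q.Fp, Q.cost (Nat.log 2 N + 1) y = co at *
  generalize (∑ t ∈ Icc 1 Q.tm, wt (Nat.log 2 N + 1) t *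
      ((∑ x ∈ verts (Q.Z t) \ Q.Ts, (kap (Q.Z t) x - 1) + ∑ x ∈ verts (Q.Z t) ∩ Q.Ts, kap (Q.Z t) x
        : ℕ) : ℝ)) = pi at *
  generalize Q.GG (Nat.log 2 N + 1) = g at *
  have hf : (0 : ℝ) ≤ (Q.Fp.card : ℝ) / D0 := by positivity
  have hlp : (0 : ℝ) ≤ (Q.lp : ℝ) := Nat.cast_nonneg _
  have hf' : 40 * (Q.Fp.card : ℝ) / D0 = 40 * ((Q.Fp.card : ℝ) / D0) := by ring
  rw [hf'] at hhh
  generalize (Q.Fp.card : ℝ) / D0 = f at *
  generalize (Q.lp : ℝ) = lp at *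
  generalize (Q.Ts.card : ℝ) = τ at *
  generalize (Q.cT : ℝ) = cT at *
  generalize (Q.hh D0 : ℝ) = hh at *
  generalize (Q.bbt : ℝ) = bbt at *
  generalize ((Q.DD Lam).card : ℝ) = DD at *
  generalize (D0 : ℝ) = D at *
  -- numerical part
  have hJ0 : 0 ≤ J := by linarith
  have hτ0 : 0 ≤ τ := by linarith
  have hD0' : 0 ≤ D := by linarith
  have a1 : D * DD ≤ D * (1000 * J * g) := mul_le_mul_of_nonneg_left hLam hD0'
  have a2 : τ * DD ≤ τ * (1000 * J * g) := mul_le_mul_of_nonneg_left hLam hτ0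
  have a3 : J * DD ≤ J * (1000 * J * g) := mul_le_mul_of_nonneg_left hLam hJ0
  have a4 : J * co ≤ J * (3 * g) := mul_le_mul_of_nonneg_left hco hJ0
  have a5 : τ * cT ≤ τ * (12 * g) := mul_le_mul_of_nonneg_left hcT hτ0
  have a6 : TV ≤ 60 * g + 4 * lp + 24 * (τ * g) := by linarith
  have a7 : J * TV ≤ J * (60 * g + 4 * lp + 24 * (τ * g)) := mul_le_mul_of_nonneg_left a6 hJ0
  have a8 : KS ≤ 8000 * (D * J * g) + 4000 * (τ * J * g) + 830 * (τ * g) + 86 * lp + 160 * f := by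
    linarith
  have a9 : pi ≤ 2 * KS + 2 * (J * DD) + 8 * (J * co) + 4 * (J * TV) := by linarith
  have b0 : KS + pi ≤ 24000 * (D * J * g) + 12000 * (τ * J * g) + 2490 * (τ * g) + 258 * lp + 480 * f
      + 2000 * (J * J * g) + 264 * (J * g) + 16 * (J * lp) + 96 * (J * τ * g) := by linarith
  -- products
  have hJJ : 1 ≤ J * J := by nlinarith only [hJ]
  have hJD : 1 ≤ J * D := one_le_mul_of_one_le_of_one_le hJ hD
  have hτJ : 3 ≤ τ * J := by nlinarith only [hJ, hT]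
  have hJJD : 1 ≤ J * J * D := one_le_mul_of_one_le_of_one_le hJJ hD
  have hτD : 1 ≤ τ * D := one_le_mul_of_one_le_of_one_le (by linarith) hD
  have hτJD : 1 ≤ τ * J * D := one_le_mul_of_one_le_of_one_le (by linarith) hD
  have hτJJ : 1 ≤ τ * (J * J) := one_le_mul_of_one_le_of_one_le (by linarith) hJJ
  have p1 : 3 * (D * J * g) ≤ τ * J ^ 2 * (D * g) := by
    have h : D * J * g * 3 ≤ D * J * g * (τ * J) := mul_le_mul_of_nonneg_left hτJ (by positivity)
    calc 3 * (D * J * g) = D * J * g * 3 := by ring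
      _ ≤ D * J * g * (τ * J) := h
      _ = τ * J ^ 2 * (D * g) := by ring
  have p2 : τ * J * g ≤ τ * J ^ 2 * (D * g) := by
    have h : τ * J * g * 1 ≤ τ * J * g * (J * D) := mul_le_mul_of_nonneg_left hJD (by positivity)
    calc τ * J * g = τ * J * g * 1 := by ring
      _ ≤ τ * J * g * (J * D) := h
      _ = τ * J ^ 2 * (D * g) := by ring
  have p3 : τ * g ≤ τ * J ^ 2 * (D * g) := by
    have h : τ * g * 1 ≤ τ * g * (J * J * D) := mul_le_mul_of_nonneg_left hJJD (by positivity)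
    calc τ * g = τ * g * 1 := by ring
      _ ≤ τ * g * (J * J * D) := h
      _ = τ * J ^ 2 * (D * g) := by ring
  have p4 : J * J * g ≤ τ * J ^ 2 * (D * g) := by
    have h : J * J * g * 1 ≤ J * J * g * (τ * D) := mul_le_mul_of_nonneg_left hτD (by positivity)
    calc J * J * g = J * J * g * 1 := by ring
      _ ≤ J * J * g * (τ * D) := h
      _ = τ * J ^ 2 * (D * g) := by ring
  have p5 : J * g ≤ τ * J ^ 2 * (D * g) := by
    have h : J * g * 1 ≤ J * g * (τ * J * D) := mul_le_mul_of_nonneg_left hτJD (by positivity)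
    calc J * g = J * g * 1 := by ring
      _ ≤ J * g * (τ * J * D) := h
      _ = τ * J ^ 2 * (D * g) := by ring
  have p6 : lp ≤ τ * J ^ 2 * lp := by
    have h : lp * 1 ≤ lp * (τ * (J * J)) := mul_le_mul_of_nonneg_left hτJJ hlp
    calc lp = lp * 1 := by ring
      _ ≤ lp * (τ * (J * J)) := h
      _ = τ * J ^ 2 * lp := by ring
  have p7 : f ≤ τ * J ^ 2 * f := by
    have h : f * 1 ≤ f * (τ * (J * J)) := mul_le_mul_of_nonneg_left hτJJ hf
    calc f = f * 1 := by ring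
      _ ≤ f * (τ * (J * J)) := h
      _ = τ * J ^ 2 * f := by ring
  have p8 : J * lp ≤ τ * J ^ 2 * lp := by
    have h : J * lp * 1 ≤ J * lp * (τ * J) :=
      mul_le_mul_of_nonneg_left (by linarith) (by positivity)
    calc J * lp = J * lp * 1 := by ring
      _ ≤ J * lp * (τ * J) := h
      _ = τ * J ^ 2 * lp := by ring
  have p9 : J * τ * g ≤ τ * J ^ 2 * (D * g) := by
    have h : J * τ * g = τ * J * g := by ring
    rw [h]; exact p2
  have q1 : 0 ≤ τ * J ^ 2 * (D * g) := by positivity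
  have q2 : 0 ≤ τ * J ^ 2 * lp := by positivity
  have q3 : 0 ≤ τ * J ^ 2 * f := by positivity
  have hfin : (10 : ℝ) ^ 5 * τ * J ^ 2 * (D * g + f + lp)
      = 10 ^ 5 * (τ * J ^ 2 * (D * g)) + 10 ^ 5 * (τ * J ^ 2 * f) + 10 ^ 5 * (τ * J ^ 2 * lp) := by ring
  rw [hfin]
  linarith

/-- additivity of (P) over components -/
theorem PropP.all {Y : Finset (Finset (Fin n))} {T Ts : Finset (Fin n)} {ell eta Lam : ℝ} {N : ℕ}
    (hP : PropP Y T Ts ell eta Lam N) (hY : IsFam Y) (Z : Finset (Finset (Fin n))) (hZ : Z ⊆ Y)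
    (hT : ∀ s ∈ Z, ¬ s ⊆ T) (hN : Z.card ≤ N) :
    (eta * (Z.card : ℝ) - Lam * (complT Ts Z : ℝ)) / 2 ≤ ell * ((PhT2 Ts Z : ℝ) / 2) := by
  classical
  induction hm : Z.card using Nat.strong_induction_on generalizing Z with
  | _ m ih =>
    subst hm
    rcases Z.eq_empty_or_nonempty with h | h
    · subst h
      have h1 : complT Ts (∅ : Finset (Finset (Fin n))) = 0 := by
        simp [complT, edgs, verts]
      have h2 : PhT2 Ts (∅ : Finset (Finset (Fin n))) = 0 := by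
        simp [PhT2, verts]
      rw [h1, h2]
      simp
    · obtain ⟨C, hCZ, hCne, hCc, hdis⟩ := exists_component h
      have hZ' : C ∪ (Z \ C) = Z := union_sdiff_of_subset hCZ
      have hfC : IsFam C := fun s hs => hY s (hZ (hCZ hs))
      have hcard : C.card + (Z \ C).card = Z.card := by
        rw [card_sdiff_of_subset hCZ]
        have := card_le_card hCZ
        omega
      have hCpos := hCne.card_pos
      have i1 := hP C (hCZ.trans hZ) hCne hCc (fun s hs => hT s (hCZ hs)) (by omega)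
      have i2 := ih (Z \ C).card (by omega) (Z \ C) (sdiff_subset.trans hZ)
        (fun s hs => hT s (mem_sdiff.1 hs).1) (by omega) rfl
      have e1 : complT Ts Z = complT Ts C + complT Ts (Z \ C) := by
        rw [← complT_union Ts hdis, hZ']
      have e2 : PhT2 Ts Z = PhT2 Ts C + PhT2 Ts (Z \ C) := by
        rw [← PhT2_union Ts hfC hdis, hZ']
      rw [e1, e2, ← hcard]
      push_cast
      linarith

/-- 6.2 -/
theorem Imm.LI {N : ℕ} (hN : Q.Fp.card ≤ N) {Y : Finset (Finset (Fin n))} (hYf : IsFam Y)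
    (hY : ∀ s ∈ Q.Fp, s.image Q.lab ∈ Y) {ell eta Lam : ℝ} (hell : 0 < ell) (heta : 0 < eta)
    (hLam : 0 ≤ Lam) (hP : PropP Y Q.T Q.Ts ell eta Lam N) (D0 : ℕ) (hD0 : 1 ≤ D0)
    (h1 : Lam * 10 ^ 5 * Q.Ts.card * ((Nat.log 2 N + 1 : ℕ) : ℝ) ^ 2 / 2 * D0 ≤ ell / 2)
    (h2 : Lam * 10 ^ 5 * Q.Ts.card * ((Nat.log 2 N + 1 : ℕ) : ℝ) ^ 2 / 2 / D0 ≤ eta / 8) :
    eta / 8 * (Q.Fp.card : ℝ) + ell / 2 * ((Q.cT : ℝ) / 12)
      ≤ ell * Q.ls + Lam * 10 ^ 5 * Q.Ts.card * ((Nat.log 2 N + 1 : ℕ) : ℝ) ^ 2 / 2 * Q.lp := by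
  classical
  have htm : Q.tm ≤ N := Q.tm_le.trans hN
  have hZ : ∀ t ∈ Icc 1 Q.tm,
      wt (Nat.log 2 N + 1) t * ((eta * ((Q.Z t).card : ℝ) - Lam * (complT Q.Ts (Q.Z t) : ℝ)) / 2)
        ≤ wt (Nat.log 2 N + 1) t * (ell * ((PhT2 Q.Ts (Q.Z t) : ℝ) / 2)) := by
    intro t ht
    rw [mem_Icc] at ht
    have hw : 0 ≤ wt (Nat.log 2 N + 1) t := by
      have := wt_ge_half (N := N) (t := t) (ht.2.trans htm)
      linarith
    apply mul_le_mul_of_nonneg_left _ hw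
    apply hP.all hYf
    · intro σ hσ
      rw [Imm.Z, mem_filter, mem_image] at hσ
      obtain ⟨⟨s, hs, rfl⟩, _⟩ := hσ
      exact hY s hs
    · intro σ hσ
      rw [Imm.Z, mem_filter, mem_image] at hσ
      obtain ⟨⟨s, hs, rfl⟩, _⟩ := hσ
      rw [Imm.Fp, mem_filter] at hs
      exact hs.2
    · refine le_trans ?_ hN
      refine (card_filter_le _ _).trans card_image_le
  have hsum := sum_le_sum hZ
  have hab := Q.abel hN
  have hcz := Q.sum_card_Z hN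
  have hcx := Q.cx hN D0 hD0
  have hcT := Q.cT_le hN
  have e1 : ∑ t ∈ Icc 1 Q.tm,
      wt (Nat.log 2 N + 1) t * ((eta * ((Q.Z t).card : ℝ) - Lam * (complT Q.Ts (Q.Z t) : ℝ)) / 2)
      = eta / 2 * ∑ t ∈ Icc 1 Q.tm, wt (Nat.log 2 N + 1) t * ((Q.Z t).card : ℝ)
        - Lam / 2 * ∑ t ∈ Icc 1 Q.tm, wt (Nat.log 2 N + 1) t * (complT Q.Ts (Q.Z t) : ℝ) := by
    rw [mul_sum, mul_sum, ← sum_sub_distrib]
    apply sum_congr rfl
    intro t _
    ring
  have e2 : ∑ t ∈ Icc 1 Q.tm, wt (Nat.log 2 N + 1) t * (ell * ((PhT2 Q.Ts (Q.Z t) : ℝ) / 2))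
      = ell * ∑ t ∈ Icc 1 Q.tm, wt (Nat.log 2 N + 1) t * ((PhT2 Q.Ts (Q.Z t) : ℝ) / 2) := by
    rw [mul_sum]
    apply sum_congr rfl
    intro t _
    ring
  rw [e1, e2] at hsum
  have hGG : 0 ≤ Q.GG (Nat.log 2 N + 1) := by
    have : (0 : ℝ) ≤ Q.cT := Nat.cast_nonneg _
    linarith
  have hD : (1 : ℝ) ≤ (D0 : ℝ) := by exact_mod_cast hD0
  generalize (∑ t ∈ Icc 1 Q.tm, wt (Nat.log 2 N + 1) t * ((Q.Z t).card : ℝ)) = SZ at *
  generalize (∑ t ∈ Icc 1 Q.tm, wt (Nat.log 2 N + 1) t * (complT Q.Ts (Q.Z t) : ℝ)) = SC at *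
  generalize (∑ t ∈ Icc 1 Q.tm, wt (Nat.log 2 N + 1) t * ((PhT2 Q.Ts (Q.Z t) : ℝ) / 2)) = SP at *
  generalize Q.GG (Nat.log 2 N + 1) = g at *
  generalize hJ : ((Nat.log 2 N + 1 : ℕ) : ℝ) = J at *
  have hf0 : (0 : ℝ) ≤ (Q.Fp.card : ℝ) := Nat.cast_nonneg _
  have hlp : (0 : ℝ) ≤ (Q.lp : ℝ) := Nat.cast_nonneg _
  generalize (Q.Fp.card : ℝ) = f at *
  generalize (Q.lp : ℝ) = lp at *
  generalize (Q.ls : ℝ) = ls at *
  generalize (Q.cT : ℝ) = cT at *
  generalize (Q.Ts.card : ℝ) = τ at *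
  generalize (D0 : ℝ) = D at *
  have c1 : ell * SP ≤ ell * (ls - g) := mul_le_mul_of_nonneg_left hab hell.le
  have c2 : eta / 2 * (f / 2) ≤ eta / 2 * SZ := mul_le_mul_of_nonneg_left hcz (by positivity)
  have c3 : Lam / 2 * SC ≤ Lam / 2 * (10 ^ 5 * τ * J ^ 2 * (D * g + f / D + lp)) :=
    mul_le_mul_of_nonneg_left hcx (by positivity)
  have c4 : Lam / 2 * (10 ^ 5 * τ * J ^ 2 * (D * g + f / D + lp))
      = (Lam * 10 ^ 5 * τ * J ^ 2 / 2 * D) * g + (Lam * 10 ^ 5 * τ * J ^ 2 / 2 / D) * f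
        + Lam * 10 ^ 5 * τ * J ^ 2 / 2 * lp := by
    field_simp
  have c5 : (Lam * 10 ^ 5 * τ * J ^ 2 / 2 * D) * g ≤ ell / 2 * g := mul_le_mul_of_nonneg_right h1 hGG
  have c6 : (Lam * 10 ^ 5 * τ * J ^ 2 / 2 / D) * f ≤ eta / 8 * f := mul_le_mul_of_nonneg_right h2 hf0
  have c7 : ell / 2 * (cT / 12) ≤ ell / 2 * g := by
    apply mul_le_mul_of_nonneg_left _ (by positivity)
    linarith
  rw [c4] at c3
  linarith

end Pool.Agent.SC
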