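import Pool.Agent.Lib.MP_d0323d_co.Rank
import Pool.Agent.Lib.MP_d0323d_co.FamBasic
/-! Module LEMMAA (section 3). -/
set_option autoImplicit false
namespace Pool.Agent.SC
open Finset

/-! ### The class graph of a family -/

namespace LA

variable {α : Type} [DecidableEq α]

theorem eadj_symm {s t : Finset α} (h : EAdj s t) : EAdj t s := by
  unfold EAdj at *; rw [inter_comm]; exact h

/-- two members of a family with a common pair are equal or adjacent -/
theorem eq_or_eadj {s t e : Finset α} (hs : s.card = 3) (ht : t.card = 3) (he : e.card = 2)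
    (h1 : e ⊆ s) (h2 : e ⊆ t) : s = t ∨ EAdj s t := by
  have h3 : e ⊆ s ∩ t := subset_inter h1 h2
  have h4 := card_le_card h3
  have h5 : (s ∩ t).card ≤ 3 := hs ▸ card_le_card inter_subset_left
  rcases Nat.lt_or_ge (s ∩ t).card 3 with h | h
  · right; unfold EAdj; omega
  · left
    have h6 : s ∩ t = s := eq_of_subset_of_card_le inter_subset_left (by omega)
    have h7 : s ∩ t = t := eq_of_subset_of_card_le inter_subset_right (by omega)
    rw [← h6, h7]

/-- flags -/
abbrev Flag (R : Finset (Finset α)) := {p : α × Finset α // p.2 ∈ R ∧ p.1 ∈ p.2}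

/-- adjacency of flags -/
def fr (R : Finset (Finset α)) (a b : Flag R) : Prop := a.1.1 = b.1.1 ∧ EAdj a.1.2 b.1.2

/-- classes of flags -/
abbrev VT (R : Finset (Finset α)) := Quot (fr R)

theorem vt_eq {R : Finset (Finset α)} (hR : IsFam R) {y : α} {s t e : Finset α} (hs : s ∈ R)
    (ht : t ∈ R) (he : e.card = 2) (h1 : e ⊆ s) (h2 : e ⊆ t) (hy : y ∈ e) :
    (Quot.mk (fr R) ⟨(y, s), hs, h1 hy⟩ : VT R) = Quot.mk (fr R) ⟨(y, t), ht, h2 hy⟩ := by
  rcases eq_or_eadj (hR s hs) (hR t ht) he h1 h2 with h | h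
  · subst h; rfl
  · exact Quot.sound ⟨rfl, h⟩

/-- classes at a vertex -/
theorem card_vt_ge [Fintype α] (R : Finset (Finset α)) :
    ∑ y ∈ verts R, kap R y ≤ Nat.card (VT R) := by
  classical
  have hfin : ∀ y : α, Finite (Quot (fun a b : {x // x ∈ star R y} => EAdj a.1 b.1)) :=
    fun y => ncl_finite
  have : Finite (Flag R) := by
    refine Finite.of_injective (β := α × {s // s ∈ R}) (fun p => (p.1.1, ⟨p.1.2, p.2.1⟩)) ?_
    rintro ⟨⟨a, b⟩, h⟩ ⟨⟨c, d⟩, h'⟩ he
    simp only [Prod.mk.injEq, Subtype.mk.injEq] at he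
    simp only [Subtype.mk.injEq, Prod.mk.injEq]
    exact he
  have : Finite (VT R) := Finite.of_surjective _ Quot.mk_surjective
  have e1 : ∑ y ∈ verts R, kap R y
      = Nat.card (Σ y : α, Quot (fun a b : {x // x ∈ star R y} => EAdj a.1 b.1)) := by
    rw [Nat.card_sigma]
    refine sum_subset (subset_univ _) fun y _ hy => ?_
    have : star R y = ∅ := by
      rw [star, filter_eq_empty_iff]
      intro s hs hys
      exact hy (mem_verts.2 ⟨s, hs, hys⟩)
    unfold kap
    rw [this, ncl_empty]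
  rw [e1]
  let g : VT R → Σ y : α, Quot (fun a b : {x // x ∈ star R y} => EAdj a.1 b.1) :=
    Quot.lift (fun p => ⟨p.1.1, Quot.mk _ ⟨p.1.2, mem_filter.2 p.2⟩⟩) (by
      rintro ⟨⟨y, s⟩, hs⟩ ⟨⟨z, t⟩, ht⟩ ⟨h1, h2⟩
      simp only at h1 h2
      subst h1
      refine Sigma.ext rfl (heq_of_eq ?_)
      exact Quot.sound h2)
  refine Nat.card_le_card_of_surjective g ?_
  rintro ⟨y, q⟩
  induction q using Quot.inductionOn with | _ q => ?_
  exact ⟨Quot.mk _ ⟨(y, q.1), mem_filter.1 q.2⟩, rfl⟩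

/-- rank inequality for the class graph -/
theorem class_rank [Fintype α] {R : Finset (Finset α)} (hR : IsFam R)
    (hno : ∀ A ⊆ R, A.Nonempty → bdF A ≠ ∅) :
    R.card + ∑ y ∈ verts R, kap R y ≤ (edgs R).card + b0 R := by
  classical
  have hFF : Finite (Flag R) := by
    refine Finite.of_injective (β := α × {s // s ∈ R}) (fun p => (p.1.1, ⟨p.1.2, p.2.1⟩)) ?_
    rintro ⟨⟨a, b⟩, h⟩ ⟨⟨c, d⟩, h'⟩ he
    simp only [Prod.mk.injEq, Subtype.mk.injEq] at he
    simp only [Subtype.mk.injEq, Prod.mk.injEq]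
    exact he
  have hFV : Finite (VT R) := Finite.of_surjective _ Quot.mk_surjective
  let _ : Fintype (VT R) := Fintype.ofFinite _
  have hch : ∀ e : {e // e ∈ edgs R}, ∃ (u v : α) (s : Finset α), u ≠ v ∧ e.1 = {u, v} ∧ s ∈ R ∧ e.1 ⊆ s := by
    rintro ⟨e, he⟩
    obtain ⟨h2, s, hs, hes⟩ := mem_edgs.1 he
    obtain ⟨u, v, huv, rfl⟩ := card_eq_two.1 h2
    exact ⟨u, v, s, huv, rfl, hs, hes⟩
  choose u v s0 huv hue hs0 hes0 using hch
  have hu : ∀ e, u e ∈ e.1 := fun e => by rw [hue e]; simp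
  have hv : ∀ e, v e ∈ e.1 := fun e => by
    have := hue e
    rw [this]
    simp
  let src : {e // e ∈ edgs R} → VT R := fun e => Quot.mk _ ⟨(u e, s0 e), hs0 e, hes0 e (hu e)⟩
  let tgt : {e // e ∈ edgs R} → VT R := fun e => Quot.mk _ ⟨(v e, s0 e), hs0 e, hes0 e (hv e)⟩
  let b : {s // s ∈ R} → {e // e ∈ edgs R} → ZMod 2 := fun s e => if e.1 ⊆ s.1 then 1 else 0
  have hb : ∀ i, bdM src tgt (b i) = 0 := by
    rintro ⟨s, hs⟩
    funext v0
    change ∑ e, b ⟨s, hs⟩ e * ((if src e = v0 then 1 else 0) + (if tgt e = v0 then 1 else 0)) = 0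
    let f : α → ZMod 2 := fun w => if h : w ∈ s then
      (if (Quot.mk (fr R) ⟨(w, s), hs, h⟩ : VT R) = v0 then 1 else 0) else 0
    have h1 : ∀ e : {e // e ∈ edgs R}, b ⟨s, hs⟩ e *
        ((if src e = v0 then 1 else 0) + (if tgt e = v0 then 1 else 0))
        = if e.1 ⊆ s then ∑ w ∈ e.1, f w else 0 := by
      intro e
      by_cases h : e.1 ⊆ s
      · have hcard := (mem_edgs.1 e.2).1
        have e1 : src e = Quot.mk (fr R) ⟨(u e, s), hs, h (hu e)⟩ :=
          vt_eq hR (hs0 e) hs hcard (hes0 e) h (hu e)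
        have e2 : tgt e = Quot.mk (fr R) ⟨(v e, s), hs, h (hv e)⟩ :=
          vt_eq hR (hs0 e) hs hcard (hes0 e) h (hv e)
        rw [if_pos h, e1, e2]
        have e3 : ∑ w ∈ e.1, f w = f (u e) + f (v e) := by
          conv_lhs => rw [hue e]
          rw [sum_pair (huv e)]
        rw [e3]
        simp only [b, f, if_pos h, one_mul]
        rw [dif_pos (h (hu e)), dif_pos (h (hv e))]
      · rw [if_neg h]
        simp only [b, if_neg h, zero_mul]
    simp_rw [h1]
    have h2 : ∑ e : {e // e ∈ edgs R}, (if e.1 ⊆ s then ∑ w ∈ e.1, f w else 0)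
        = ∑ e ∈ s.powersetCard 2, ∑ w ∈ e, f w := by
      rw [sum_coe_sort (edgs R) (fun e => if e ⊆ s then ∑ w ∈ e, f w else 0), ← sum_filter]
      refine sum_congr ?_ fun _ _ => rfl
      ext e
      rw [mem_filter, mem_edgs, mem_powersetCard]
      exact ⟨fun h => ⟨h.2, h.1.1⟩, fun h => ⟨⟨h.2, s, hs, h.1⟩, h.1⟩⟩
    rw [h2]
    have h3 : ∑ e ∈ s.powersetCard 2, ∑ w ∈ e, f w
        = ∑ w ∈ s, ∑ e ∈ (s.powersetCard 2).filter (fun e => w ∈ e), f w := by
      rw [sum_comm' (t' := s) (s' := fun w => (s.powersetCard 2).filter (fun e => w ∈ e))]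
      intro e w
      rw [mem_filter, mem_powersetCard]
      exact ⟨fun h => ⟨⟨h.1, h.2⟩, h.1.1 h.2⟩, fun h => ⟨h.1.1, h.1.2⟩⟩
    rw [h3]
    refine sum_eq_zero fun w hw => ?_
    rw [sum_const, pairs_at (hR s hs) hw, two_nsmul]
    exact CharTwo.add_self_eq_zero _
  have hind : ∀ A : Finset {s // s ∈ R}, A.Nonempty → ∑ i ∈ A, b i ≠ 0 := by
    intro A hA h0
    refine hno (A.image Subtype.val) ?_ (hA.image _) ?_
    · intro s hs
      obtain ⟨t, _, rfl⟩ := mem_image.1 hs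
      exact t.2
    · rw [bdF, filter_eq_empty_iff]
      intro e he hodd
      have heR : e ∈ edgs R := edgs_mono (by
        intro s hs
        obtain ⟨t, _, rfl⟩ := mem_image.1 hs
        exact t.2) he
      have h1 := congrFun h0 ⟨e, heR⟩
      rw [Finset.sum_apply] at h1
      have h2 : ∑ i ∈ A, b i ⟨e, heR⟩ = ((edeg (A.image Subtype.val) e : ℕ) : ZMod 2) := by
        unfold edeg
        simp only [b]
        rw [sum_boole]
        congr 1
        rw [filter_image, card_image_of_injective _ Subtype.val_injective]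
      rw [h2] at h1
      have h3 : Even (edeg (A.image Subtype.val) e) := (ZMod.natCast_eq_zero_iff_even).1 h1
      exact (Nat.not_even_iff_odd.2 hodd) h3
  have hr := rank_indep src tgt b hb hind
  rw [Fintype.card_coe, Fintype.card_coe] at hr
  have h4 := card_vt_ge R
  rw [Nat.card_eq_fintype_card] at h4
  have h5 : Nat.card (Quot (adjM src tgt)) ≤ b0 R := by
    unfold b0 ncl
    have := ncl_finite (A := R) (r := EAdj)
    have hcard0 : ∀ s : {s // s ∈ R}, ∃ y, y ∈ s.1 := fun s => by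
      have : s.1.Nonempty := by rw [← card_pos, hR s.1 s.2]; norm_num
      exact this
    choose p hp using hcard0
    -- all flags of one face are in the same component
    have hsame : ∀ (s : Finset α) (hs : s ∈ R) (y z : α) (hy : y ∈ s) (hz : z ∈ s),
        (Quot.mk (adjM src tgt) (Quot.mk (fr R) ⟨(y, s), hs, hy⟩ : VT R))
          = Quot.mk (adjM src tgt) (Quot.mk (fr R) ⟨(z, s), hs, hz⟩ : VT R) := by
      intro s hs y z hy hz
      by_cases hyz : y = z
      · subst hyz; rfl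
      have hpair : ({y, z} : Finset α) ⊆ s := by
        intro w hw
        rw [mem_insert, mem_singleton] at hw
        rcases hw with rfl | rfl <;> assumption
      have he : ({y, z} : Finset α) ∈ edgs R := mem_edgs.2 ⟨card_pair hyz, s, hs, hpair⟩
      have hsrc : ∀ w (hw : w ∈ ({y, z} : Finset α)),
          (Quot.mk (fr R) ⟨(w, s0 ⟨_, he⟩), hs0 ⟨_, he⟩, hes0 ⟨_, he⟩ hw⟩ : VT R)
            = Quot.mk (fr R) ⟨(w, s), hs, hpair hw⟩ :=
        fun w hw => vt_eq hR (hs0 ⟨_, he⟩) hs (card_pair hyz) (hes0 ⟨_, he⟩) hpair hw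
      have hadj : Quot.mk (adjM src tgt) (src ⟨_, he⟩) = Quot.mk (adjM src tgt) (tgt ⟨_, he⟩) :=
        Quot.sound ⟨⟨_, he⟩, rfl, rfl⟩
      have hsu : src ⟨_, he⟩ = (Quot.mk (fr R) ⟨(u ⟨_, he⟩, s), hs, hpair (hu ⟨_, he⟩)⟩ : VT R) :=
        hsrc _ (hu ⟨_, he⟩)
      have htv : tgt ⟨_, he⟩ = (Quot.mk (fr R) ⟨(v ⟨_, he⟩, s), hs, hpair (hv ⟨_, he⟩)⟩ : VT R) :=
        hsrc _ (hv ⟨_, he⟩)
      rw [hsu, htv] at hadj
      have hu' := hu ⟨_, he⟩
      have hv' := hv ⟨_, he⟩
      have huv' := huv ⟨_, he⟩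
      simp only [mem_insert, mem_singleton] at hu' hv'
      rcases hu' with h1 | h1 <;> rcases hv' with h2 | h2
      · exact absurd (h1.trans h2.symm) huv'
      · simp only [h1, h2] at hadj; exact hadj
      · simp only [h1, h2] at hadj; exact hadj.symm
      · exact absurd (h1.trans h2.symm) huv'
    let g : Quot (fun a b : {x // x ∈ R} => EAdj a.1 b.1) → Quot (adjM src tgt) :=
      Quot.lift (fun s => Quot.mk _ (Quot.mk _ ⟨(p s, s.1), s.2, hp s⟩)) (by
        rintro ⟨s, hs⟩ ⟨t, ht⟩ hst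
        simp only at hst
        have hne : (s ∩ t).Nonempty := by
          rw [← card_pos]; unfold EAdj at hst; omega
        obtain ⟨y, hy⟩ := hne
        rw [mem_inter] at hy
        rw [hsame s hs _ y (hp ⟨s, hs⟩) hy.1, hsame t ht _ y (hp ⟨t, ht⟩) hy.2]
        congr 1
        exact Quot.sound ⟨rfl, hst⟩)
    refine Nat.card_le_card_of_surjective g ?_
    intro q
    induction q using Quot.inductionOn with | _ q => ?_
    induction q using Quot.inductionOn with | _ q => ?_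
    obtain ⟨⟨y, s⟩, hs, hy⟩ := q
    exact ⟨Quot.mk _ ⟨s, hs⟩, hsame s hs _ y (hp ⟨s, hs⟩) hy⟩
  omega

/-- vertices which meet the boundary of dual components: at least three for each component -/
theorem odd_classes {R : Finset (Finset α)} (hR : IsFam R)
    (hno : ∀ A ⊆ R, A.Nonempty → bdF A ≠ ∅) :
    ∃ o : α → ℕ, 3 * b0 R ≤ ∑ y ∈ verts R, o y ∧ ∀ y, o y ≤ kap R y ∧
      (o y ≠ 0 → ∃ e ∈ edgs R, y ∈ e ∧ Odd (edeg R e)) := by
  classical
  have hfin := ncl_finite (A := R) (r := EAdj)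
  let Q := Quot (fun a b : {x // x ∈ R} => EAdj a.1 b.1)
  let _ : Fintype Q := Fintype.ofFinite _
  -- the members of a component
  let C : Q → Finset (Finset α) := fun q => R.filter (fun s => ∃ h : s ∈ R, (Quot.mk _ ⟨s, h⟩ : Q) = q)
  have hCR : ∀ q, C q ⊆ R := fun q => filter_subset _ _
  have hCne : ∀ q, (C q).Nonempty := by
    intro q
    induction q using Quot.inductionOn with | _ q => ?_
    exact ⟨q.1, mem_filter.2 ⟨q.2, q.2, rfl⟩⟩
  have hCfam : ∀ q, IsFam (C q) := fun q s hs => hR s (hCR q hs)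
  -- degrees in a component
  have hdeg : ∀ q e, e.card = 2 → 0 < edeg (C q) e → edeg R e = edeg (C q) e := by
    intro q e he h
    obtain ⟨s, hs, hes⟩ := edeg_pos.1 h
    obtain ⟨hsR, h1, h2⟩ := mem_filter.1 hs
    unfold edeg
    congr 1
    ext t
    rw [mem_filter, mem_filter]
    refine ⟨fun ht => ⟨mem_filter.2 ⟨ht.1, ht.1, ?_⟩, ht.2⟩, fun ht => ⟨hCR q ht.1, ht.2⟩⟩
    rcases eq_or_eadj (hR s hsR) (hR t ht.1) he hes ht.2 with h3 | h3
    · subst h3; exact h2
    · rw [← h2]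
      refine Eq.symm (Quot.sound ?_)
      exact h3
  let P : α → Q → Prop := fun y q => ∃ e ∈ bdF (C q), y ∈ e
  refine ⟨fun y => (univ.filter (fun q => P y q)).card, ?_, fun y => ⟨?_, ?_⟩⟩
  · have h1 : ∑ y ∈ verts R, (univ.filter (fun q => P y q)).card
        = ∑ q : Q, ((verts R).filter (fun y => P y q)).card :=
      Finset.sum_card_bipartiteAbove_eq_sum_card_bipartiteBelow P
    rw [h1]
    have h2 : ∀ q : Q, 3 ≤ ((verts R).filter (fun y => P y q)).card := by
      intro q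
      have hev : EvenSet (bdF (C q)) := bdF_even (hCfam q)
      have hne : (bdF (C q)).Nonempty := nonempty_iff_ne_empty.2 (hno _ (hCR q) (hCne q))
      have h3 := hev.three_le hne
      -- the vertices of an even set: at least three
      by_contra hlt
      push Not at hlt
      have hsub : bdF (C q) ⊆ ((verts R).filter (fun y => P y q)).powersetCard 2 := by
        intro e he
        rw [mem_powersetCard]
        refine ⟨fun y hy => mem_filter.2 ⟨?_, e, he, hy⟩, (mem_bdF.1 he).1⟩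
        obtain ⟨h4, s, hs, hes⟩ := mem_edgs.1 (bdF_subset he)
        exact mem_verts.2 ⟨s, hCR q hs, hes hy⟩
      have h5 := card_le_card hsub
      rw [card_powersetCard] at h5
      have h6 : Nat.choose ((verts R).filter (fun y => P y q)).card 2 ≤ 1 := by
        interval_cases ((verts R).filter (fun y => P y q)).card <;> decide
      omega
    calc 3 * b0 R = ∑ q : Q, 3 := by
          rw [sum_const, card_univ, smul_eq_mul, mul_comm]
          unfold b0 ncl
          rw [Nat.card_eq_fintype_card]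
      _ ≤ _ := sum_le_sum fun q _ => h2 q
  · -- `≤ kap`
    have hfy := ncl_finite (A := star R y) (r := EAdj)
    let _ : Fintype (Quot (fun a b : {x // x ∈ star R y} => EAdj a.1 b.1)) := Fintype.ofFinite _
    let g : Quot (fun a b : {x // x ∈ star R y} => EAdj a.1 b.1) → Q :=
      Quot.map (fun s => ⟨s.1, (mem_filter.1 s.2).1⟩) (fun a b h => h)
    have h1 : univ.filter (fun q => P y q) ⊆ univ.image g := by
      intro q hq
      obtain ⟨e, he, hye⟩ := (mem_filter.1 hq).2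
      obtain ⟨h4, s, hs, hes⟩ := mem_edgs.1 (bdF_subset he)
      obtain ⟨hsR, hsR', hsq⟩ := mem_filter.1 hs
      rw [mem_image]
      exact ⟨Quot.mk _ ⟨s, mem_filter.2 ⟨hsR, hes hye⟩⟩, mem_univ _, hsq⟩
    refine (card_le_card h1).trans (card_image_le.trans ?_)
    rw [card_univ]
    unfold kap ncl
    rw [Nat.card_eq_fintype_card]
  · intro h
    obtain ⟨q, hq⟩ := card_pos.1 (Nat.pos_of_ne_zero h)
    obtain ⟨e, he, hye⟩ := (mem_filter.1 hq).2
    obtain ⟨h4, h5⟩ := mem_bdF.1 he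
    refine ⟨e, edgs_mono (hCR q) (bdF_subset he), hye, ?_⟩
    rw [hdeg q e h4 h5.pos]
    exact h5

/-- the link has at most `kap` components: `#edges at y ≤ #faces at y + kap` -/
theorem link_euler {R : Finset (Finset α)} (hR : IsFam R) (y : α) :
    ((edgs R).filter (fun e => y ∈ e)).card ≤ (star R y).card + kap R y := by
  classical
  let L := {e // e ∈ (edgs R).filter (fun e => y ∈ e)}
  let S := {s // s ∈ star R y}
  have hS : ∀ s : S, ∃ e e' : L, e ≠ e' ∧ ∀ f : L, f.1 ⊆ s.1 ↔ f = e ∨ f = e' := by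
    rintro ⟨s, hs⟩
    obtain ⟨hsR, hys⟩ := mem_filter.1 hs
    have h1 := pairs_at (hR s hsR) hys
    obtain ⟨e, e', hne, he⟩ := card_eq_two.1 h1
    have hmem : ∀ f, f ∈ (s.powersetCard 2).filter (fun e => y ∈ e) ↔ f = e ∨ f = e' := by
      intro f; rw [he]; simp
    have he1 : e ∈ (edgs R).filter (fun e => y ∈ e) := by
      have := (hmem e).2 (Or.inl rfl)
      rw [mem_filter, mem_powersetCard] at this
      exact mem_filter.2 ⟨mem_edgs.2 ⟨this.1.2, s, hsR, this.1.1⟩, this.2⟩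
    have he2 : e' ∈ (edgs R).filter (fun e => y ∈ e) := by
      have := (hmem e').2 (Or.inr rfl)
      rw [mem_filter, mem_powersetCard] at this
      exact mem_filter.2 ⟨mem_edgs.2 ⟨this.1.2, s, hsR, this.1.1⟩, this.2⟩
    refine ⟨⟨e, he1⟩, ⟨e', he2⟩, fun h => hne (congrArg Subtype.val h), ?_⟩
    rintro ⟨f, hf'⟩
    have hf := hf'
    rw [mem_filter, mem_edgs] at hf
    have := hmem f
    rw [mem_filter, mem_powersetCard] at this
    have k1 : ((⟨f, hf'⟩ : L) = ⟨e, he1⟩) ↔ f = e := Subtype.mk_eq_mk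
    have k2 : ((⟨f, hf'⟩ : L) = ⟨e', he2⟩) ↔ f = e' := Subtype.mk_eq_mk
    rw [k1, k2, ← this]
    exact ⟨fun h => ⟨⟨h, hf.1.1⟩, hf.2⟩, fun h => h.1.1⟩
  choose src tgt hne hst using hS
  have hr := rank_cyc (V := L) (E := S) src tgt
  have h1 : Nat.card (Quot (adjM src tgt)) ≤ kap R y := by
    unfold kap ncl
    have := ncl_finite (A := star R y) (r := EAdj)
    have hsame : ∀ (s : S) (f : L), f.1 ⊆ s.1 →
        (Quot.mk (adjM src tgt) f) = Quot.mk (adjM src tgt) (src s) := by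
      intro s f hf
      rcases (hst s f).1 hf with h | h
      · rw [h]
      · rw [h]
        exact (Quot.sound ⟨s, rfl, rfl⟩).symm
    let g : Quot (fun a b : {x // x ∈ star R y} => EAdj a.1 b.1) → Quot (adjM src tgt) :=
      Quot.lift (fun s => Quot.mk _ (src s)) (by
        intro s t hst'
        have h2 : (s.1 ∩ t.1).card = 2 := hst'
        have hs := mem_filter.1 s.2
        have ht := mem_filter.1 t.2
        have hf : s.1 ∩ t.1 ∈ (edgs R).filter (fun e => y ∈ e) :=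
          mem_filter.2 ⟨mem_edgs.2 ⟨h2, s.1, hs.1, inter_subset_left⟩, mem_inter.2 ⟨hs.2, ht.2⟩⟩
        rw [← hsame s ⟨_, hf⟩ inter_subset_left, ← hsame t ⟨_, hf⟩ inter_subset_right])
    refine Nat.card_le_card_of_surjective g ?_
    intro q
    induction q using Quot.inductionOn with | _ f => ?_
    have hf := mem_filter.1 f.2
    obtain ⟨h2, s, hs, hfs⟩ := mem_edgs.1 hf.1
    refine ⟨Quot.mk _ ⟨s, mem_filter.2 ⟨hs, hfs hf.2⟩⟩, ?_⟩
    exact (hsame ⟨s, mem_filter.2 ⟨hs, hfs hf.2⟩⟩ f hfs).symm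
  have h2 : Fintype.card L = ((edgs R).filter (fun e => y ∈ e)).card := Fintype.card_coe _
  have h3 : Fintype.card S = (star R y).card := Fintype.card_coe _
  omega

end LA

open LA

variable {V : Type} [Fintype V] [DecidableEq V] {n : ℕ} (Q : Imm V n)

theorem Imm.Fp_sub : Q.Fp ⊆ Q.F := filter_subset _ _

theorem Imm.isFam_of_sub {R : Finset (Finset V)} (hR : R ⊆ Q.Fp) : IsFam R :=
  fun s hs => Q.F_card s (Q.Fp_sub (hR hs))

theorem Imm.bd_ne {R : Finset (Finset V)} (hR : R ⊆ Q.Fp) : ∀ A ⊆ R, A.Nonempty → bdF A ≠ ∅ := by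
  intro A hA hne h0
  obtain ⟨s, hs⟩ := hne
  have h1 := Q.no2 A (fun t ht => Q.Fp_sub (hR (hA ht))) h0 s hs
  exact (mem_filter.1 (hR (hA hs))).2 h1

/-- values of `D_R(y)`: `y` not (ordinary, non-walk, interior) -/
theorem Imm.dR_ge_half_kap {R : Finset (Finset V)} (hR : R ⊆ Q.Fp) {y : V} (hy : y ∈ verts R)
    (h : ¬ (Q.intr R y ∧ y ∉ Q.W)) : (kap R y : ℝ) / 2 ≤ Q.dR R y := by
  unfold Imm.dR
  rw [if_pos hy, if_neg h]
  have h1 := link_euler (Q.isFam_of_sub hR) y
  have h2 : ((((edgs R).filter (fun e => y ∈ e)).card : ℕ) : ℝ) ≤ (star R y).card + kap R y := by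
    exact_mod_cast h1
  linarith

theorem Imm.star_eq {R : Finset (Finset V)} (hR : R ⊆ Q.Fp) {y : V} (h : Q.intr R y) :
    star R y = star Q.Fp y := by
  apply Subset.antisymm
  · exact filter_subset_filter _ hR
  · exact (filter_subset_filter _ Q.Fp_sub).trans (fun s hs => mem_filter.2
      ⟨h.2.2 hs, (mem_filter.1 hs).2⟩)

theorem Imm.edg_eq {R : Finset (Finset V)} (hR : R ⊆ Q.Fp) {y : V} (h : Q.intr R y) :
    (edgs R).filter (fun e => y ∈ e) = Q.Ey y := by
  unfold Imm.Ey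
  ext e
  rw [mem_filter, mem_filter]
  refine ⟨fun he => ⟨edgs_mono hR he.1, he.2⟩, fun he => ⟨?_, he.2⟩⟩
  obtain ⟨h2, s, hs, hes⟩ := mem_edgs.1 he.1
  have : s ∈ star R y := by
    rw [Q.star_eq hR h]
    exact mem_filter.2 ⟨hs, hes he.2⟩
  exact mem_edgs.2 ⟨h2, s, (mem_filter.1 this).1, hes⟩

/-- at an interior vertex off the walk all link degrees are at least two -/
theorem Imm.two_le_edeg {R : Finset (Finset V)} (hR : R ⊆ Q.Fp) {y : V}
    (h : Q.intr R y ∧ y ∉ Q.W) {e : Finset V} (he : e ∈ Q.Ey y) : 2 ≤ edeg Q.Fp e := by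
  obtain ⟨he1, hye⟩ := mem_filter.1 he
  obtain ⟨h2, s, hs, hes⟩ := mem_edgs.1 he1
  have h3 : edeg Q.Fp e = edeg Q.F e := by
    unfold edeg
    congr 1
    ext t
    rw [mem_filter, mem_filter]
    refine ⟨fun ht => ⟨Q.Fp_sub ht.1, ht.2⟩, fun ht => ⟨hR (h.1.2.2 (mem_filter.2 ⟨ht.1, ht.2 hye⟩)), ht.2⟩⟩
  have h4 : e ∉ Q.tr := fun h5 => h.2 (Q.tr_W e h5 hye)
  have h5 : e ∈ Q.E := Q.F_E s (Q.Fp_sub hs) e (mem_powersetCard.2 ⟨hes, h2⟩)
  have h6 := Q.deg1 e h5 h4
  have h7 : 0 < edeg Q.Fp e := edeg_pos.2 ⟨s, hs, hes⟩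
  omega

/-- excess at an interior vertex off the walk -/
theorem Imm.bb_eq {R : Finset (Finset V)} (hR : R ⊆ Q.Fp) {y : V}
    (h : Q.intr R y ∧ y ∉ Q.W) : Q.bb y + 2 * (Q.Ey y).card = 2 * (star Q.Fp y).card := by
  have h1 := sum_edeg_at (Q.isFam_of_sub (Subset.refl Q.Fp)) y
  rw [← h1]
  change _ = ∑ e ∈ Q.Ey y, edeg Q.Fp e
  unfold Imm.bb
  have h2 : 2 * (Q.Ey y).card = ∑ e ∈ Q.Ey y, 2 := by rw [sum_const, smul_eq_mul, mul_comm]
  rw [h2, ← sum_add_distrib]
  exact sum_congr rfl fun e he => Nat.sub_add_cancel (Q.two_le_edeg hR h he)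

/-- `y` ordinary, off the walk, interior -/
theorem Imm.dR_int {R : Finset (Finset V)} (hR : R ⊆ Q.Fp) {y : V} (hy : y ∈ verts R)
    (h : Q.intr R y ∧ y ∉ Q.W) :
    Q.dR R y = (kap Q.Fp y : ℝ) - 1 + (Q.bb y : ℝ) / 4 := by
  unfold Imm.dR
  rw [if_pos hy, if_pos h, Q.star_eq hR h.1, Q.edg_eq hR h.1]
  have h1 := Q.bb_eq hR h
  have h2 : (Q.bb y : ℝ) + 2 * (Q.Ey y).card = 2 * (star Q.Fp y).card := by exact_mod_cast h1
  have h3 : kap R y = kap Q.Fp y := by
    unfold kap
    rw [Q.star_eq hR h.1]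
  rw [h3]
  linarith

theorem Imm.dR_nonneg {R : Finset (Finset V)} (hR : R ⊆ Q.Fp) (y : V) : 0 ≤ Q.dR R y := by
  by_cases hy : y ∈ verts R
  · by_cases h : Q.intr R y ∧ y ∉ Q.W
    · rw [Q.dR_int hR hy h]
      have h1 : 1 ≤ kap Q.Fp y := kap_pos (verts_mono hR hy)
      have h2 : (1 : ℝ) ≤ kap Q.Fp y := by exact_mod_cast h1
      positivity
    · exact le_trans (by positivity) (Q.dR_ge_half_kap hR hy h)
  · unfold Imm.dR
    rw [if_neg hy]

/-- `D = 0` at an interior good vertex iff its link is a single cycle -/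
theorem Imm.dR_int_half {R : Finset (Finset V)} (hR : R ⊆ Q.Fp) {y : V} (hy : y ∈ verts R)
    (h : Q.intr R y ∧ y ∉ Q.W) (hc : ¬ Q.cyc y) : (1 : ℝ) / 2 ≤ Q.dR R y := by
  rw [Q.dR_int hR hy h]
  have h1 : 1 ≤ kap Q.Fp y := kap_pos (verts_mono hR hy)
  rcases Nat.lt_or_ge 1 (kap Q.Fp y) with h2 | h2
  · have h3 : (2 : ℝ) ≤ kap Q.Fp y := by exact_mod_cast h2
    have h4 : (0 : ℝ) ≤ (Q.bb y : ℝ) / 4 := by positivity
    linarith
  · have hk : kap Q.Fp y = 1 := by omega
    have h3 : ∃ e ∈ Q.Ey y, edeg Q.Fp e ≠ 2 := by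
      by_contra hcon
      push Not at hcon
      exact hc ⟨hk, hcon⟩
    obtain ⟨e, he, hne⟩ := h3
    have h4 := Q.two_le_edeg hR h he
    have h5 : edeg Q.Fp e - 2 ≤ Q.bb y :=
      single_le_sum (f := fun e => edeg Q.Fp e - 2) (fun _ _ => Nat.zero_le _) he
    have h6 := Q.bb_eq hR h
    have h7 : 2 ≤ Q.bb y := by omega
    have h8 : (2 : ℝ) ≤ Q.bb y := by exact_mod_cast h7
    rw [hk]
    push_cast
    linarith

/-- LEMMA A -/
theorem Imm.lemmaA {R : Finset (Finset V)} (hR : R ⊆ Q.Fp) :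
    (Q.vint R : ℝ) - (R.card : ℝ) / 2 ≤ (Q.ls : ℝ) - (1 / 3) * ∑ y ∈ verts R, Q.dR R y := by
  classical
  have hfam := Q.isFam_of_sub hR
  have hno := Q.bd_ne hR
  have hrank := class_rank hfam hno
  obtain ⟨o, ho1, ho2⟩ := odd_classes hfam hno
  have hsumD : ∑ y ∈ verts R, Q.dR R y = (∑ y ∈ verts R, (kap R y : ℝ))
      - (2 * (edgs R).card - 3 * R.card) / 2
      - (((verts R).filter (fun y => Q.intr R y ∧ y ∉ Q.W)).card : ℝ) := by
    have e1 : ∀ y ∈ verts R, Q.dR R y = (kap R y : ℝ)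
        - ((((edgs R).filter (fun e => y ∈ e)).card : ℝ) - ((star R y).card : ℝ)) / 2
        - (if Q.intr R y ∧ y ∉ Q.W then 1 else 0) := by
      intro y hy
      unfold Imm.dR
      rw [if_pos hy]
    rw [sum_congr rfl e1, sum_sub_distrib, sum_sub_distrib, ← sum_div, sum_sub_distrib, sum_boole]
    have h1 := sum_Ey (Z := R)
    have h2 := sum_star hfam
    have h1' : ∑ y ∈ verts R, (((edgs R).filter (fun e => y ∈ e)).card : ℝ) = 2 * (edgs R).card := by
      exact_mod_cast h1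
    have h2' : ∑ y ∈ verts R, ((star R y).card : ℝ) = 3 * R.card := by exact_mod_cast h2
    rw [h1', h2']
  have hvint : (Q.vint R : ℝ) ≤ (((verts R).filter (fun y => Q.intr R y ∧ y ∉ Q.W)).card : ℝ) + Q.ls := by
    have : Q.vint R ≤ ((verts R).filter (fun y => Q.intr R y ∧ y ∉ Q.W)).card + Q.ls := by
      unfold Imm.vint Imm.ls
      refine (card_le_card (t := ((verts R).filter (fun y => Q.intr R y ∧ y ∉ Q.W))
        ∪ ((verts Q.Fp).filter (fun y => Q.lab y ∉ Q.Ts ∧ y ∈ Q.W))) ?_).trans (card_union_le _ _)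
      intro y hy
      have h1 := (mem_filter.1 hy).2
      obtain ⟨h2, ⟨s, hs⟩, h4⟩ := h1
      have hyR : y ∈ verts R := mem_verts.2 ⟨s, h4 hs, (mem_filter.1 hs).2⟩
      rw [mem_union, mem_filter, mem_filter]
      by_cases hW : y ∈ Q.W
      · exact Or.inr ⟨verts_mono hR hyR, h2, hW⟩
      · exact Or.inl ⟨hyR, ⟨h2, ⟨s, hs⟩, h4⟩, hW⟩
    exact_mod_cast this
  have hodd : ∀ y ∈ verts R, (o y : ℝ) ≤ 2 * Q.dR R y := by
    intro y hy
    obtain ⟨h1, h2⟩ := ho2 y
    have h1' : (o y : ℝ) ≤ kap R y := by exact_mod_cast h1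
    by_cases h : Q.intr R y ∧ y ∉ Q.W
    · have hk : kap R y = kap Q.Fp y := by
        unfold kap
        rw [Q.star_eq hR h.1]
      have hkp : 1 ≤ kap R y := kap_pos hy
      by_cases h0 : o y = 0
      · rw [h0]
        have := Q.dR_nonneg hR y
        push_cast
        linarith
      · obtain ⟨e, he, hye, hod⟩ := h2 h0
        rcases Nat.lt_or_ge 1 (kap R y) with h3 | h3
        · rw [Q.dR_int hR hy h, ← hk]
          have h4 : (2 : ℝ) ≤ kap R y := by exact_mod_cast h3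
          have h5 : (0 : ℝ) ≤ (Q.bb y : ℝ) / 4 := by positivity
          linarith
        · have h4 : kap R y = 1 := by omega
          have h5 : ¬ Q.cyc y := by
            intro hc
            have he' : e ∈ Q.Ey y := by
              rw [← Q.edg_eq hR h.1]
              exact mem_filter.2 ⟨he, hye⟩
            have h6 := hc.2 e he'
            have h7 : edeg R e = edeg Q.Fp e := by
              unfold edeg
              congr 1
              ext t
              rw [mem_filter, mem_filter]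
              refine ⟨fun ht => ⟨hR ht.1, ht.2⟩, fun ht => ⟨?_, ht.2⟩⟩
              have : t ∈ star R y := by
                rw [Q.star_eq hR h.1]
                exact mem_filter.2 ⟨ht.1, ht.2 hye⟩
              exact (mem_filter.1 this).1
            rw [h7, h6] at hod
            exact absurd hod (by decide)
          have h6 := Q.dR_int_half hR hy h h5
          rw [h4] at h1'
          push_cast at h1'
          linarith
    · have := Q.dR_ge_half_kap hR hy h
      linarith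
  have hc : 3 * (b0 R : ℝ) ≤ 2 * ∑ y ∈ verts R, Q.dR R y := by
    have h1 : 3 * (b0 R : ℝ) ≤ ∑ y ∈ verts R, (o y : ℝ) := by exact_mod_cast ho1
    refine h1.trans ?_
    rw [mul_sum]
    exact sum_le_sum hodd
  have hrank' : (R.card : ℝ) + ∑ y ∈ verts R, (kap R y : ℝ) ≤ (edgs R).card + b0 R := by
    exact_mod_cast hrank
  linarith

end Pool.Agent.SC
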