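import Pool.Agent.Lib.MP_d0323d_co.Cost
/-! Module LOCAL (5.2). -/
set_option autoImplicit false
namespace Pool.Agent.SC
open Finset
variable {V : Type} [Fintype V] [DecidableEq V] {n : ℕ} (Q : Imm V n)

theorem Imm.mem_Lk {y : V} {e : Finset (Fin n)} :
    e ∈ Q.Lk y ↔ ∃ s ∈ Q.Fp, y ∈ s ∧ (s.erase y).image Q.lab = e := by
  unfold Imm.Lk star
  simp only [mem_image, mem_filter]
  constructor
  · rintro ⟨s, ⟨h1, h2⟩, h3⟩; exact ⟨s, h1, h2, h3⟩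
  · rintro ⟨s, h1, h2, h3⟩; exact ⟨s, ⟨h1, h2⟩, h3⟩

/-- the label set of a face at `y` is the label of `y` plus the link edge -/
theorem Imm.insert_link {y : V} {s : Finset V} (hy : y ∈ s) :
    insert (Q.lab y) ((s.erase y).image Q.lab) = s.image Q.lab := by
  rw [← image_insert, insert_erase hy]

theorem Imm.lab_notMem_link {y : V} {s : Finset V} (hs : s ∈ Q.Fp) (hy : y ∈ s) :
    Q.lab y ∉ (s.erase y).image Q.lab := by
  intro h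
  obtain ⟨z, hz, hzy⟩ := mem_image.1 h
  have := Q.lab_injOn_face (Q.Fp_sub hs) (mem_coe.2 (mem_of_mem_erase hz)) (mem_coe.2 hy) hzy
  exact (ne_of_mem_erase hz) this

/-- two link edges at `y` are equal iff the faces are equal -/
theorem Imm.face_eq_of_link {y : V} {s s' : Finset V} (hs : s ∈ Q.Fp) (hs' : s' ∈ Q.Fp)
    (hy : y ∈ s) (hy' : y ∈ s') (h : (s.erase y).image Q.lab = (s'.erase y).image Q.lab) :
    s = s' := by
  by_contra hne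
  have h1 : s.image Q.lab = s'.image Q.lab := by
    rw [← Q.insert_link hy, ← Q.insert_link hy', h]
  exact (disjoint_left.1 (Q.disjoint_of_same hs hs' hne h1)) hy hy'

/-- a label in a link edge at `y` comes from a neighbour -/
theorem Imm.exists_nbr {y : V} {s : Finset V} {z : Fin n} (hz : z ∈ (s.erase y).image Q.lab) :
    ∃ v ∈ s, v ≠ y ∧ Q.lab v = z := by
  obtain ⟨v, hv, hvz⟩ := mem_image.1 hz
  exact ⟨v, mem_of_mem_erase hv, ne_of_mem_erase hv, hvz⟩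

theorem Imm.pair_mem_EL {y v : V} {s : Finset V} (hs : s ∈ Q.Fp) (hy : y ∈ s) (hv : v ∈ s)
    (hne : v ≠ y) : ({y, v} : Finset V) ∈ Q.E := by
  refine Q.F_E s (Q.Fp_sub hs) _ ?_
  rw [mem_powersetCard]
  refine ⟨?_, card_pair hne.symm⟩
  intro w hw
  rcases mem_insert.1 hw with h | h
  · rwa [h]
  · rwa [mem_singleton.1 h]

/-- neighbours of `y` with the same label coincide -/
theorem Imm.nbr_unique {y v v' : V} {s s' : Finset V} (hs : s ∈ Q.Fp) (hs' : s' ∈ Q.Fp)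
    (hy : y ∈ s) (hy' : y ∈ s') (hv : v ∈ s) (hv' : v' ∈ s') (hne : v ≠ y) (hne' : v' ≠ y)
    (h : Q.lab v = Q.lab v') : v = v' :=
  Q.imm y v v' (Q.pair_mem_EL hs hy hv hne) (Q.pair_mem_EL hs' hy' hv' hne') h

/-- all link edges at `y` through the label `z` come from faces at one edge of degree 2 -/
theorem Imm.cyc_edge {y : V} (hc : Q.cyc y) {s : Finset V} (hs : s ∈ Q.Fp) (hy : y ∈ s) {v : V}
    (hv : v ∈ s) (hne : v ≠ y) : edeg Q.Fp {y, v} = 2 := by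
  apply hc.2
  unfold Imm.Ey edgs
  rw [mem_filter, mem_biUnion]
  refine ⟨⟨s, hs, ?_⟩, mem_insert_self _ _⟩
  rw [mem_powersetCard]
  refine ⟨?_, card_pair hne.symm⟩
  intro w hw
  rcases mem_insert.1 hw with h | h
  · rwa [h]
  · rwa [mem_singleton.1 h]

/-- at most two link edges of a cycle through a label -/
theorem Imm.cyc_two {y : V} (hc : Q.cyc y) {z : Fin n} {e₀ e₁ e₂ : Finset (Fin n)}
    (h0 : e₀ ∈ Q.Lk y) (h1 : e₁ ∈ Q.Lk y) (h2 : e₂ ∈ Q.Lk y) (z0 : z ∈ e₀) (z1 : z ∈ e₁)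
    (z2 : z ∈ e₂) : e₀ = e₁ ∨ e₀ = e₂ ∨ e₁ = e₂ := by
  obtain ⟨s0, hs0, hy0, rfl⟩ := Q.mem_Lk.1 h0
  obtain ⟨s1, hs1, hy1, rfl⟩ := Q.mem_Lk.1 h1
  obtain ⟨s2, hs2, hy2, rfl⟩ := Q.mem_Lk.1 h2
  obtain ⟨v0, hv0, hn0, hl0⟩ := Q.exists_nbr z0
  obtain ⟨v1, hv1, hn1, hl1⟩ := Q.exists_nbr z1
  obtain ⟨v2, hv2, hn2, hl2⟩ := Q.exists_nbr z2
  have e1 : v1 = v0 := Q.nbr_unique hs1 hs0 hy1 hy0 hv1 hv0 hn1 hn0 (hl1.trans hl0.symm)
  have e2 : v2 = v0 := Q.nbr_unique hs2 hs0 hy2 hy0 hv2 hv0 hn2 hn0 (hl2.trans hl0.symm)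
  subst e1
  subst e2
  have hdeg := Q.cyc_edge hc hs0 hy0 hv0 hn0
  unfold edeg at hdeg
  have hm : ∀ s : Finset V, s ∈ Q.Fp → y ∈ s → v2 ∈ s → s ∈ Q.Fp.filter (fun s => {y, v2} ⊆ s) := by
    intro s h1 h2 h3
    rw [mem_filter]
    refine ⟨h1, ?_⟩
    intro w hw
    rcases mem_insert.1 hw with h | h
    · rwa [h]
    · rwa [mem_singleton.1 h]
  by_contra hcon
  push Not at hcon
  obtain ⟨c1, c2, c3⟩ := hcon
  have hsub : ({s0, s1, s2} : Finset (Finset V)) ⊆ Q.Fp.filter (fun s => {y, v2} ⊆ s) := by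
    intro s hs
    simp only [mem_insert, mem_singleton] at hs
    rcases hs with h | h | h
    · rw [h]; exact hm s0 hs0 hy0 hv0
    · rw [h]; exact hm s1 hs1 hy1 hv1
    · rw [h]; exact hm s2 hs2 hy2 hv2
  have hcard := card_le_card hsub
  rw [hdeg, card_eq_three.2 ⟨s0, s1, s2, fun h => c1 (by rw [h]), fun h => c2 (by rw [h]),
    fun h => c3 (by rw [h]), rfl⟩] at hcard
  omega

/-- the second link edge of a cycle through a label -/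
theorem Imm.cyc_next {y : V} (hc : Q.cyc y) {z : Fin n} {e : Finset (Fin n)} (h : e ∈ Q.Lk y)
    (hz : z ∈ e) : ∃ e' ∈ Q.Lk y, e' ≠ e ∧ z ∈ e' := by
  obtain ⟨s, hs, hy, rfl⟩ := Q.mem_Lk.1 h
  obtain ⟨v, hv, hn, hl⟩ := Q.exists_nbr hz
  have hdeg := Q.cyc_edge hc hs hy hv hn
  unfold edeg at hdeg
  have hmem : s ∈ Q.Fp.filter (fun s => {y, v} ⊆ s) := by
    rw [mem_filter]
    refine ⟨hs, ?_⟩
    intro w hw
    rcases mem_insert.1 hw with h | h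
    · rwa [h]
    · rwa [mem_singleton.1 h]
  obtain ⟨s', hs', hne⟩ := exists_mem_ne (by rw [hdeg]; norm_num : 1 <
    (Q.Fp.filter (fun s => {y, v} ⊆ s)).card) s
  rw [mem_filter] at hs'
  have hy' : y ∈ s' := hs'.2 (mem_insert_self _ _)
  have hv' : v ∈ s' := hs'.2 (mem_insert_of_mem (mem_singleton_self _))
  refine ⟨(s'.erase y).image Q.lab, Q.mem_Lk.2 ⟨s', hs'.1, hy', rfl⟩, ?_, ?_⟩
  · intro heq
    exact hne (Q.face_eq_of_link hs'.1 hs hy' hy heq)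
  · rw [mem_image]
    exact ⟨v, mem_erase.2 ⟨hn, hv'⟩, hl⟩

/-- connectedness of the link of a cycle vertex -/
theorem Imm.cyc_conn {y : V} (hc : Q.cyc y) (P : Finset V → Prop)
    (h0 : ∃ s ∈ star Q.Fp y, P s)
    (hstep : ∀ s ∈ star Q.Fp y, ∀ s' ∈ star Q.Fp y, EAdj s s' → (P s ↔ P s')) :
    ∀ s ∈ star Q.Fp y, P s := by
  intro s hs
  obtain ⟨s0, hs0, hP⟩ := h0
  have h1 : Nat.card (Quot (fun a b : {x // x ∈ star Q.Fp y} => EAdj a.1 b.1)) = 1 := hc.1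
  have h2 := (Nat.card_eq_one_iff_unique.1 h1).1
  have h3 : Quot.mk (fun a b : {x // x ∈ star Q.Fp y} => EAdj a.1 b.1) ⟨s0, hs0⟩ =
      Quot.mk _ ⟨s, hs⟩ := h2.elim _ _
  rw [Quot.eq] at h3
  have h4 : ∀ a b : {x // x ∈ star Q.Fp y},
      Relation.EqvGen (fun a b : {x // x ∈ star Q.Fp y} => EAdj a.1 b.1) a b →
      (P a.1 ↔ P b.1) := by
    intro a b hab
    induction hab with
    | rel a b h => exact hstep _ a.2 _ b.2 h
    | refl a => exact Iff.rfl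
    | symm a b _ ih => exact ih.symm
    | trans a b c _ _ ih1 ih2 => exact ih1.trans ih2
  exact (h4 _ _ h3).1 hP

/-- adjacent faces at `y` have link edges with a common label -/
theorem Imm.adj_label {y : V} {s s' : Finset V} (h : EAdj s s') :
    ∃ z, z ∈ (s.erase y).image Q.lab ∧ z ∈ (s'.erase y).image Q.lab := by
  unfold EAdj at h
  obtain ⟨v, hv, hne⟩ := exists_mem_ne (by rw [h]; norm_num : 1 < (s ∩ s').card) y
  rw [mem_inter] at hv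
  exact ⟨Q.lab v, mem_image_of_mem _ (mem_erase.2 ⟨hne, hv.1⟩),
    mem_image_of_mem _ (mem_erase.2 ⟨hne, hv.2⟩)⟩

/-- one inclusion or a branching -/
theorem Imm.cyc_sub_or {y₁ y₂ : V} (hc1 : Q.cyc y₁) (hc2 : Q.cyc y₂)
    (hcom : ∃ e, e ∈ Q.Lk y₁ ∧ e ∈ Q.Lk y₂) :
    Q.Lk y₁ ⊆ Q.Lk y₂ ∨ ∃ (z : Fin n) (e₀ e₁ e₂ : Finset (Fin n)), z ∈ e₀ ∧ z ∈ e₁ ∧ z ∈ e₂ ∧
      e₀ ∈ Q.Lk y₁ ∧ e₀ ∈ Q.Lk y₂ ∧ e₁ ∈ Q.Lk y₁ ∧ e₁ ∉ Q.Lk y₂ ∧ e₂ ∈ Q.Lk y₂ ∧ e₂ ∉ Q.Lk y₁ := by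
  by_cases hbr : ∃ (z : Fin n) (e₀ e₁ e₂ : Finset (Fin n)), z ∈ e₀ ∧ z ∈ e₁ ∧ z ∈ e₂ ∧
      e₀ ∈ Q.Lk y₁ ∧ e₀ ∈ Q.Lk y₂ ∧ e₁ ∈ Q.Lk y₁ ∧ e₁ ∉ Q.Lk y₂ ∧ e₂ ∈ Q.Lk y₂ ∧ e₂ ∉ Q.Lk y₁
  · exact Or.inr hbr
  left
  have hone : ∀ s ∈ star Q.Fp y₁, ∀ s' ∈ star Q.Fp y₁, EAdj s s' →
      (s.erase y₁).image Q.lab ∈ Q.Lk y₂ → (s'.erase y₁).image Q.lab ∈ Q.Lk y₂ := by
    intro s hs s' hs' hadj hmem
    rw [star, mem_filter] at hs hs'
    obtain ⟨z, hz, hz'⟩ := Q.adj_label (y := y₁) hadj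
    by_contra hcon
    obtain ⟨e₂, he2, hne2, hz2⟩ := Q.cyc_next hc2 hmem hz
    have m0 : (s.erase y₁).image Q.lab ∈ Q.Lk y₁ := Q.mem_Lk.2 ⟨s, hs.1, hs.2, rfl⟩
    have m1 : (s'.erase y₁).image Q.lab ∈ Q.Lk y₁ := Q.mem_Lk.2 ⟨s', hs'.1, hs'.2, rfl⟩
    by_cases he21 : e₂ ∈ Q.Lk y₁
    · rcases Q.cyc_two hc1 m0 m1 he21 hz hz' hz2 with h | h | h
      · exact hcon (h ▸ hmem)
      · exact hne2 h.symm
      · exact hcon (h ▸ he2)
    · exact hbr ⟨z, _, _, e₂, hz, hz', hz2, m0, hmem, m1, hcon, he2, he21⟩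
  have hall := Q.cyc_conn hc1 (fun s => (s.erase y₁).image Q.lab ∈ Q.Lk y₂)
    (by
      obtain ⟨e, he1, he2⟩ := hcom
      obtain ⟨s, hs, hy, rfl⟩ := Q.mem_Lk.1 he1
      exact ⟨s, mem_filter.2 ⟨hs, hy⟩, he2⟩)
    (fun s hs s' hs' hadj => ⟨hone s hs s' hs' hadj, hone s' hs' s hs (by
      unfold EAdj at hadj ⊢
      rw [inter_comm]; exact hadj)⟩)
  intro e he
  obtain ⟨s, hs, hy, rfl⟩ := Q.mem_Lk.1 he
  exact hall s (mem_filter.2 ⟨hs, hy⟩)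

/-- two different link cycles with a common edge branch somewhere -/
theorem Imm.cyc_branch {y₁ y₂ : V} (hc1 : Q.cyc y₁) (hc2 : Q.cyc y₂)
    (hcom : ∃ e, e ∈ Q.Lk y₁ ∧ e ∈ Q.Lk y₂) (hne : Q.Lk y₁ ≠ Q.Lk y₂) :
    ∃ (z : Fin n) (e₀ e₁ e₂ : Finset (Fin n)), z ∈ e₀ ∧ z ∈ e₁ ∧ z ∈ e₂ ∧
      e₀ ∈ Q.Lk y₁ ∧ e₀ ∈ Q.Lk y₂ ∧ e₁ ∈ Q.Lk y₁ ∧ e₁ ∉ Q.Lk y₂ ∧ e₂ ∈ Q.Lk y₂ ∧ e₂ ∉ Q.Lk y₁ := by
  rcases Q.cyc_sub_or hc1 hc2 hcom with h | h
  · rcases Q.cyc_sub_or hc2 hc1 (by obtain ⟨e, h1, h2⟩ := hcom; exact ⟨e, h2, h1⟩) with h' | h'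
    · exact absurd (subset_antisymm h h') hne
    · obtain ⟨z, e₀, e₁, e₂, a1, a2, a3, a4, a5, a6, a7, a8, a9⟩ := h'
      exact ⟨z, e₀, e₂, e₁, a1, a3, a2, a5, a4, a8, a9, a6, a7⟩
  · exact h

/-- multiplicity of `insert x e` = number of copies of `x` whose link contains `e` -/
theorem Imm.mult_insert {x : Fin n} {e : Finset (Fin n)} (hxe : x ∉ e) :
    Q.mult (insert x e) = ((Q.copies x).filter (fun y => e ∈ Q.Lk y)).card := by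
  rw [Q.mult_eq (mem_insert_self x e)]
  congr 1
  apply filter_congr
  intro y hy
  have hlab : Q.lab y = x := (mem_filter.1 hy).2
  rw [Q.mem_Lk]
  constructor
  · rintro ⟨s, hs, hys, him⟩
    refine ⟨s, hs, hys, ?_⟩
    have h1 := Q.insert_link hys
    rw [him, hlab] at h1
    have h2 : x ∉ (s.erase y).image Q.lab := by
      rw [← hlab]; exact Q.lab_notMem_link hs hys
    rw [← erase_insert h2, h1, erase_insert hxe]
  · rintro ⟨s, hs, hys, him⟩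
    refine ⟨s, hs, hys, ?_⟩
    rw [← Q.insert_link hys, hlab, him]

theorem Imm.mf_le_Mx {x : Fin n} {y : V} (hy : Q.lab y = x) {s : Finset V} (hs : s ∈ Q.Fp)
    (hys : y ∈ s) : Q.mf s ≤ Q.Mx x :=
  le_sup (f := Q.mf) (mem_filter.2 ⟨hs, mem_image.2 ⟨y, hys, hy⟩⟩)

theorem Imm.copy_face {x : Fin n} {y : V} (hy : y ∈ Q.copies x) :
    Q.lab y = x ∧ ∃ s ∈ Q.Fp, y ∈ s := by
  obtain ⟨h1, h2⟩ := mem_filter.1 hy
  obtain ⟨s, hs, hys⟩ := mem_biUnion.1 h1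
  exact ⟨h2, s, hs, hys⟩

open Classical in
/-- the numerical core of 5.2 -/
theorem Imm.light_bound {N : ℕ} (hN : Q.Fp.card ≤ N) (x : Fin n) (hx : x ∉ Q.Ts)
    (hne : (Q.copies x).Nonempty) :
    (((Q.copies x).filter (fun y => y ∉ Q.W ∧ Q.cyc y ∧
        ∃ s ∈ Q.Fp, y ∈ s ∧ 12 * Q.mf s ≤ 11 * Q.Mx x)).card : ℝ)
          / (48 * ((Nat.log 2 N + 1 : ℕ) : ℝ))
      + (((Q.copies x).card : ℝ) - Q.Mx x) / 2
      ≤ Q.Gx (Nat.log 2 N + 1) x + 2 * ∑ y ∈ Q.copies x, Q.cost (Nat.log 2 N + 1) y := by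
  set J := Nat.log 2 N + 1 with hJ
  set C := Q.copies x with hC
  set M := Q.Mx x with hM
  set Li := C.filter (fun y => y ∉ Q.W ∧ Q.cyc y ∧ ∃ s ∈ Q.Fp, y ∈ s ∧ 12 * Q.mf s ≤ 11 * M)
    with hLi
  have hJ0 : (0 : ℝ) < (J : ℝ) := by
    rw [hJ]; positivity
  have hM1 : 1 ≤ M := by
    obtain ⟨y, hy⟩ := hne
    obtain ⟨hlab, s, hs, hys⟩ := Q.copy_face hy
    exact (Q.mf_pos hs).1.trans (Q.mf_le_Mx hlab hs hys)
  have hMt : M ≤ Q.tm := by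
    rw [hM]
    unfold Imm.Mx Imm.tm
    exact sup_mono (filter_subset _ _)
  have hMN : M ≤ N := hMt.trans (Q.tm_le.trans hN)
  have huM : 1 / 2 ≤ ut J M := ut_ge_half hM1 hMN
  have hrM : (M : ℝ) ≤ (C.card : ℝ) := by exact_mod_cast Q.Mx_le
  -- per copy bounds
  have hsup : ∀ y ∈ C, ∃ s ∈ star Q.Fp y, Q.uu J y = ut J (Q.mf s) ∧ Q.mf s ≤ M ∧
      1 ≤ Q.mf s := by
    intro y hy
    obtain ⟨hlab, s, hs, hys⟩ := Q.copy_face hy
    have hne' : (star Q.Fp y).Nonempty := ⟨s, mem_filter.2 ⟨hs, hys⟩⟩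
    obtain ⟨s', hs', heq⟩ := exists_mem_eq_sup (star Q.Fp y) hne' Q.mf
    have h1 := mem_filter.1 hs'
    refine ⟨s', hs', ?_, Q.mf_le_Mx hlab h1.1 h1.2, (Q.mf_pos h1.1).1⟩
    unfold Imm.uu
    rw [heq]
  have hbase : ∀ y ∈ C, 0 ≤ Q.uu J y - ut J M + 2 * Q.cost J y := by
    intro y hy
    obtain ⟨s, _, h2, h3, h4⟩ := hsup y hy
    have h5 := ut_anti J h4 h3
    have h6 := Q.cost_nonneg hN y
    rw [← hJ] at h6
    rw [h2]
    linarith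
  have hlight : ∀ y ∈ Li, 1 / (48 * (J : ℝ)) ≤ Q.uu J y - ut J M + 2 * Q.cost J y := by
    intro y hy
    rw [hLi, mem_filter] at hy
    obtain ⟨hyC, hW, hcyc, s, hs, hys, hsm⟩ := hy
    obtain ⟨hlab, -⟩ := Q.copy_face hyC
    obtain ⟨s', h1, h2, h3, h4⟩ := hsup y hyC
    have hyv : y ∈ verts Q.Fp := (mem_filter.1 hyC).1
    have h5 := Q.cost_cyc_osc hN hyv (by rw [hlab]; exact hx) hW hcyc
      (mem_filter.2 ⟨hs, hys⟩ : s ∈ star Q.Fp y) h1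
    rw [← hJ] at h5
    have hm1 := (Q.mf_pos hs).1
    have hm2 : Q.mf s ≤ M := Q.mf_le_Mx hlab hs hys
    have h6 := ut_gap J (Q.mf s) M (by omega) hm1 hm2
    have h7 : 1 / (48 * (J : ℝ)) ≤ ((M : ℝ) - Q.mf s) / (4 * J * M) := by
      have hM0 : (0 : ℝ) < M := by exact_mod_cast hM1
      rw [div_le_div_iff₀ (by positivity) (by positivity)]
      have h8 : (12 : ℝ) * Q.mf s ≤ 11 * M := by exact_mod_cast hsm
      nlinarith
    rw [h2]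
    linarith
  have hsum : (Li.card : ℝ) * (1 / (48 * (J : ℝ))) ≤
      ∑ y ∈ C, (Q.uu J y - ut J M + 2 * Q.cost J y) := by
    calc (Li.card : ℝ) * (1 / (48 * (J : ℝ))) = ∑ _y ∈ Li, (1 / (48 * (J : ℝ))) := by
          rw [sum_const, nsmul_eq_mul]
      _ ≤ ∑ y ∈ Li, (Q.uu J y - ut J M + 2 * Q.cost J y) := sum_le_sum hlight
      _ ≤ _ := sum_le_sum_of_subset_of_nonneg (filter_subset _ _) fun y hy _ => hbase y hy
  have hG : Q.Gx J x = ∑ y ∈ C, Q.uu J y - M * ut J M := by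
    unfold Imm.Gx
    rw [Wt_eq]
  have hexp : ∑ y ∈ C, (Q.uu J y - ut J M + 2 * Q.cost J y) =
      ∑ y ∈ C, Q.uu J y - C.card * ut J M + 2 * ∑ y ∈ C, Q.cost J y := by
    rw [sum_add_distrib, sum_sub_distrib, sum_const, nsmul_eq_mul, mul_sum]
  rw [hexp] at hsum
  have h9 : ((C.card : ℝ) - M) * (1 / 2) ≤ ((C.card : ℝ) - M) * ut J M :=
    mul_le_mul_of_nonneg_left huM (by linarith)
  have h10 : (Li.card : ℝ) / (48 * (J : ℝ)) = (Li.card : ℝ) * (1 / (48 * (J : ℝ))) := by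
    rw [mul_one_div]
  rw [h10, hG]
  nlinarith

open Classical in
/-- 5.2 Local lemma -/
theorem Imm.local_lemma {N : ℕ} (hN : Q.Fp.card ≤ N) (x : Fin n) (hx : x ∉ Q.Ts) :
    ∃ Lam : Finset (Finset (Fin n)),
      (((Q.copies x).filter (fun y => ¬ (y ∉ Q.W ∧ Q.cyc y ∧ Q.Lk y = Lam))).card : ℝ)
        ≤ 300 * ((Nat.log 2 N + 1 : ℕ) : ℝ)
          * (Q.Gx (Nat.log 2 N + 1) x + ∑ y ∈ Q.copies x, Q.cost (Nat.log 2 N + 1) y) := by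
  have hG0 := Q.Gx_nonneg hN x
  have hc0 : ∀ y ∈ Q.copies x, 0 ≤ Q.cost (Nat.log 2 N + 1) y := fun y _ => Q.cost_nonneg hN y
  have hB00 := sum_nonneg hc0
  rcases (Q.copies x).eq_empty_or_nonempty with hemp | hne
  · refine ⟨∅, ?_⟩
    rw [hemp, filter_empty, card_empty, Nat.cast_zero]
    rw [hemp] at hB00
    positivity
  have hkey := Q.light_bound hN x hx hne
  set J := Nat.log 2 N + 1 with hJ
  set C := Q.copies x with hC
  set M := Q.Mx x with hM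
  set B0 := ∑ y ∈ C, Q.cost J y with hB0
  set G := Q.Gx J x with hG
  set Li := C.filter (fun y => y ∉ Q.W ∧ Q.cyc y ∧ ∃ s ∈ Q.Fp, y ∈ s ∧ 12 * Q.mf s ≤ 11 * M)
    with hLi
  have hJ1 : (1 : ℝ) ≤ (J : ℝ) := by
    rw [hJ]; push_cast; linarith [Nat.cast_nonneg (α := ℝ) (Nat.log 2 N)]
  have hrM : (M : ℝ) ≤ (C.card : ℝ) := by exact_mod_cast Q.Mx_le
  -- bad copies
  set Bd := C.filter (fun y => y ∈ Q.W ∨ ¬ Q.cyc y) with hBd
  have hBd4 : (Bd.card : ℝ) ≤ 4 * B0 := by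
    have h1 : (Bd.card : ℝ) * (1 / 4) ≤ ∑ y ∈ Bd, Q.cost J y := by
      calc (Bd.card : ℝ) * (1 / 4) = ∑ _y ∈ Bd, (1 / 4 : ℝ) := by rw [sum_const, nsmul_eq_mul]
        _ ≤ _ := sum_le_sum fun y hy => by
          rw [hBd, mem_filter] at hy
          exact Q.cost_quarter hN (mem_filter.1 hy.1).1 (Or.inr hy.2)
    have h2 : ∑ y ∈ Bd, Q.cost J y ≤ B0 :=
      sum_le_sum_of_subset_of_nonneg (filter_subset _ _) fun y hy _ => hc0 y hy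
    linarith
  have hLi48 : (Li.card : ℝ) ≤ 48 * J * (G + 2 * B0 - ((C.card : ℝ) - M) / 2) := by
    have h1 : (Li.card : ℝ) / (48 * (J : ℝ)) ≤ G + 2 * B0 - ((C.card : ℝ) - M) / 2 := by linarith
    rw [div_le_iff₀ (by positivity)] at h1
    linarith
  have hrM2 : (C.card : ℝ) - M ≤ 2 * (G + 2 * B0) := by
    have : 0 ≤ (Li.card : ℝ) / (48 * (J : ℝ)) := by positivity
    linarith
  have hb : (Bd.card : ℝ) + Li.card + ((C.card : ℝ) - M) ≤ 300 * J * (G + B0) := by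
    have h3 : ((C.card : ℝ) - M) ≤ 24 * J * ((C.card : ℝ) - M) := by
      nlinarith
    have h4 : B0 ≤ J * B0 := by nlinarith
    have h5 : 0 ≤ J * G := by positivity
    nlinarith
  -- the most frequent triple
  obtain ⟨s₀, hs₀F, hxs₀, hs₀M⟩ : ∃ s, s ∈ Q.Fp ∧ x ∈ s.image Q.lab ∧ M = Q.mf s := by
    obtain ⟨y, hy⟩ := hne
    obtain ⟨hlab, s, hs, hys⟩ := Q.copy_face hy
    obtain ⟨s', hs', heq⟩ := exists_mem_eq_sup (Q.Fp.filter (fun s => x ∈ s.image Q.lab))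
      ⟨s, mem_filter.2 ⟨hs, mem_image.2 ⟨y, hys, hlab⟩⟩⟩ Q.mf
    rw [mem_filter] at hs'
    refine ⟨s', hs'.1, hs'.2, ?_⟩
    rw [← heq, hM]
    unfold Imm.Mx
    rfl
  set σ := s₀.image Q.lab with hσ
  set e₀ := σ.erase x with he₀
  have hxe₀ : x ∉ e₀ := notMem_erase x σ
  have hσe : insert x e₀ = σ := insert_erase hxs₀
  have hmul : M = (C.filter (fun y => e₀ ∈ Q.Lk y)).card := by
    rw [← Q.mult_insert hxe₀, hσe, hs₀M]
    rfl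
  have hno : ((C.filter (fun y => ¬ e₀ ∈ Q.Lk y)).card : ℝ) = (C.card : ℝ) - M := by
    have h1 := card_filter_add_card_filter_not (s := C) (fun y => e₀ ∈ Q.Lk y)
    rw [← hmul] at h1
    have h2 : ((M : ℝ) + (C.filter (fun y => ¬ e₀ ∈ Q.Lk y)).card) = C.card := by exact_mod_cast h1
    linarith
  -- heavy copies over `σ`
  set Hv := C.filter (fun y => y ∉ Q.W ∧ Q.cyc y ∧ (∀ s ∈ Q.Fp, y ∈ s → 11 * M < 12 * Q.mf s) ∧
    e₀ ∈ Q.Lk y) with hHv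
  by_cases hcase : ∀ y₁ ∈ Hv, ∀ y₂ ∈ Hv, Q.Lk y₁ = Q.Lk y₂
  · -- case 1
    obtain ⟨Lam, hLam⟩ : ∃ Lam, ∀ y ∈ Hv, Q.Lk y = Lam := by
      rcases Hv.eq_empty_or_nonempty with h | ⟨y₁, hy₁⟩
      · exact ⟨∅, by rw [h]; intro y hy; exact absurd hy (notMem_empty _)⟩
      · exact ⟨Q.Lk y₁, fun y hy => hcase y hy y₁ hy₁⟩
    refine ⟨Lam, ?_⟩
    have hsub : C.filter (fun y => ¬ (y ∉ Q.W ∧ Q.cyc y ∧ Q.Lk y = Lam)) ⊆
        (Bd ∪ Li) ∪ C.filter (fun y => ¬ e₀ ∈ Q.Lk y) := by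
      intro y hy
      rw [mem_filter] at hy
      obtain ⟨hyC, hbad⟩ := hy
      rw [mem_union, mem_union]
      by_cases h1 : y ∈ Q.W ∨ ¬ Q.cyc y
      · exact Or.inl (Or.inl (mem_filter.2 ⟨hyC, h1⟩))
      push Not at h1
      by_cases h2 : ∃ s ∈ Q.Fp, y ∈ s ∧ 12 * Q.mf s ≤ 11 * M
      · exact Or.inl (Or.inr (mem_filter.2 ⟨hyC, h1.1, h1.2, h2⟩))
      push Not at h2
      by_cases h3 : e₀ ∈ Q.Lk y
      · exfalso
        apply hbad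
        exact ⟨h1.1, h1.2, hLam y (mem_filter.2 ⟨hyC, h1.1, h1.2, fun s hs hys => h2 s hs hys,
          h3⟩)⟩
      · exact Or.inr (mem_filter.2 ⟨hyC, h3⟩)
    have h1 := (card_le_card hsub).trans (card_union_le _ _)
    have h2 := card_union_le Bd Li
    have h3 : ((C.filter (fun y => ¬ (y ∉ Q.W ∧ Q.cyc y ∧ Q.Lk y = Lam))).card : ℝ) ≤
        Bd.card + Li.card + (C.filter (fun y => ¬ e₀ ∈ Q.Lk y)).card := by
      exact_mod_cast h1.trans (Nat.add_le_add_right h2 _)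
    rw [hno] at h3
    linarith
  · -- case 2
    push Not at hcase
    obtain ⟨y₁, hy₁, y₂, hy₂, hne12⟩ := hcase
    rw [hHv, mem_filter] at hy₁ hy₂
    obtain ⟨hC1, hW1, hcyc1, hh1, hl1⟩ := hy₁
    obtain ⟨hC2, hW2, hcyc2, hh2, hl2⟩ := hy₂
    obtain ⟨z, f₀, f₁, f₂, z0, z1, z2, a1, a2, a3, a4, a5, a6⟩ :=
      Q.cyc_branch hcyc1 hcyc2 ⟨e₀, hl1, hl2⟩ hne12
    refine ⟨∅, ?_⟩
    have hlab1 := (Q.copy_face hC1).1
    have hlab2 := (Q.copy_face hC2).1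
    -- heaviness of link edges
    have hheavy : ∀ y ∈ C, (∀ s ∈ Q.Fp, y ∈ s → 11 * M < 12 * Q.mf s) → ∀ f ∈ Q.Lk y,
        11 * M < 12 * (C.filter (fun y => f ∈ Q.Lk y)).card := by
      intro y hy hh f hf
      obtain ⟨s, hs, hys, him⟩ := Q.mem_Lk.1 hf
      have hlab := (Q.copy_face hy).1
      have hxf : x ∉ f := by
        rw [← him, ← hlab]; exact Q.lab_notMem_link hs hys
      rw [← Q.mult_insert hxf, ← him, ← hlab, Q.insert_link hys]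
      exact hh s hs hys
    have k0 := hheavy y₁ hC1 hh1 f₀ a1
    have k1 := hheavy y₁ hC1 hh1 f₁ a3
    have k2 := hheavy y₂ hC2 hh2 f₂ a5
    have hcount : (C.filter (fun y => f₀ ∈ Q.Lk y)).card + (C.filter (fun y => f₁ ∈ Q.Lk y)).card +
        (C.filter (fun y => f₂ ∈ Q.Lk y)).card ≤ 2 * C.card + Bd.card := by
      rw [card_filter, card_filter, card_filter, ← sum_add_distrib, ← sum_add_distrib, hBd,
        card_filter]
      have : 2 * C.card = ∑ _y ∈ C, 2 := by rw [sum_const, smul_eq_mul, mul_comm]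
      rw [this, ← sum_add_distrib]
      apply sum_le_sum
      intro y hy
      by_cases hcy : Q.cyc y
      · have h3 : ¬ (f₀ ∈ Q.Lk y ∧ f₁ ∈ Q.Lk y ∧ f₂ ∈ Q.Lk y) := by
          rintro ⟨b0, b1, b2⟩
          rcases Q.cyc_two hcy b0 b1 b2 z0 z1 z2 with h | h | h
          · exact a4 (h ▸ a2)
          · exact a6 (h ▸ a1)
          · exact a4 (h ▸ a5)
        split_ifs with b0 b1 b2 <;> first | omega | exact absurd ⟨b0, b1, b2⟩ h3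
      · have h4 : (if y ∈ Q.W ∨ ¬ Q.cyc y then 1 else 0) = 1 := if_pos (Or.inr hcy)
        rw [h4]
        split_ifs <;> omega
    have hreal : (11 / 4 : ℝ) * M ≤ 2 * C.card + Bd.card := by
      have e1 : (11 * M + 11 * M + 11 * M : ℝ) ≤ 12 * (2 * C.card + Bd.card) := by
        have : 11 * M + 11 * M + 11 * M ≤ 12 * (2 * C.card + Bd.card) := by omega
        exact_mod_cast this
      linarith
    have hle : ((C.filter (fun y => ¬ (y ∉ Q.W ∧ Q.cyc y ∧ Q.Lk y = ∅))).card : ℝ) ≤ C.card := by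
      exact_mod_cast card_le_card (filter_subset _ _)
    have h5 : (C.card : ℝ) ≤ (22 / 3) * G + 20 * B0 := by linarith
    have h6 : G ≤ J * G := by nlinarith
    have h7 : B0 ≤ J * B0 := by nlinarith
    nlinarith

theorem Imm.exists_Lam {N : ℕ} (hN : Q.Fp.card ≤ N) : ∃ Lam : Fin n → Finset (Finset (Fin n)),
    ((Q.DD Lam).card : ℝ) ≤ 1000 * ((Nat.log 2 N + 1 : ℕ) : ℝ) * Q.GG (Nat.log 2 N + 1) := by
  classical
  have hex : ∀ x : Fin n, ∃ Lam : Finset (Finset (Fin n)), x ∉ Q.Ts →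
      (((Q.copies x).filter (fun y => ¬ (y ∉ Q.W ∧ Q.cyc y ∧ Q.Lk y = Lam))).card : ℝ)
        ≤ 300 * ((Nat.log 2 N + 1 : ℕ) : ℝ)
          * (Q.Gx (Nat.log 2 N + 1) x + ∑ y ∈ Q.copies x, Q.cost (Nat.log 2 N + 1) y) := by
    intro x
    by_cases hx : x ∈ Q.Ts
    · exact ⟨∅, fun h => absurd hx h⟩
    · obtain ⟨Lam, h⟩ := Q.local_lemma hN x hx
      exact ⟨Lam, fun _ => by convert h⟩
  choose Lam hLam using hex
  refine ⟨Lam, ?_⟩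
  set J := Nat.log 2 N + 1 with hJ
  have hJ1 : (1 : ℝ) ≤ (J : ℝ) := by
    rw [hJ]; push_cast; linarith [Nat.cast_nonneg (α := ℝ) (Nat.log 2 N)]
  have hsub : Q.DD Lam ⊆ (verts Q.Fp).filter (fun y => Q.lab y ∈ Q.Ts) ∪
      (univ.filter (fun x => x ∉ Q.Ts)).biUnion (fun x =>
        (Q.copies x).filter (fun y => ¬ (y ∉ Q.W ∧ Q.cyc y ∧ Q.Lk y = Lam x))) := by
    intro y hy
    unfold Imm.DD at hy
    rw [mem_filter] at hy
    rw [mem_union]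
    by_cases h1 : Q.lab y ∈ Q.Ts
    · exact Or.inl (mem_filter.2 ⟨hy.1, h1⟩)
    · right
      rw [mem_biUnion]
      refine ⟨Q.lab y, mem_filter.2 ⟨mem_univ _, h1⟩, mem_filter.2 ⟨mem_filter.2 ⟨hy.1, rfl⟩, ?_⟩⟩
      intro h2
      exact hy.2 ⟨h1, h2⟩
  have h1 : (Q.DD Lam).card ≤ Q.cT + ∑ x ∈ univ.filter (fun x => x ∉ Q.Ts),
      ((Q.copies x).filter (fun y => ¬ (y ∉ Q.W ∧ Q.cyc y ∧ Q.Lk y = Lam x))).card :=
    (card_le_card hsub).trans ((card_union_le _ _).trans (Nat.add_le_add_left card_biUnion_le _))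
  have h2 : ((Q.DD Lam).card : ℝ) ≤ Q.cT + ∑ x ∈ univ.filter (fun x => x ∉ Q.Ts),
      (((Q.copies x).filter (fun y => ¬ (y ∉ Q.W ∧ Q.cyc y ∧ Q.Lk y = Lam x))).card : ℝ) := by
    exact_mod_cast h1
  have h3 : ∑ x ∈ univ.filter (fun x => x ∉ Q.Ts),
      (((Q.copies x).filter (fun y => ¬ (y ∉ Q.W ∧ Q.cyc y ∧ Q.Lk y = Lam x))).card : ℝ) ≤
      ∑ x ∈ univ.filter (fun x => x ∉ Q.Ts),
        300 * (J : ℝ) * (Q.Gx J x + ∑ y ∈ Q.copies x, Q.cost J y) :=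
    sum_le_sum fun x hx => hLam x (mem_filter.1 hx).2
  rw [← mul_sum, sum_add_distrib] at h3
  have h4 : ∑ x ∈ univ.filter (fun x => x ∉ Q.Ts), ∑ y ∈ Q.copies x, Q.cost J y ≤
      ∑ y ∈ verts Q.Fp, Q.cost J y := by
    have h5 : ∑ x ∈ univ.filter (fun x => x ∉ Q.Ts), ∑ y ∈ Q.copies x, Q.cost J y ≤
        ∑ x : Fin n, ∑ y ∈ Q.copies x, Q.cost J y :=
      sum_le_sum_of_subset_of_nonneg (filter_subset _ _) fun x _ _ =>
        sum_nonneg fun y _ => Q.cost_nonneg hN y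
    refine h5.trans_eq ?_
    unfold Imm.copies
    exact sum_fiberwise_of_maps_to (fun y _ => mem_univ (Q.lab y)) _
  have h6 := Q.cT_le hN
  rw [← hJ] at h6
  have hGG : Q.GG J = (1 / 3) * ∑ y ∈ verts Q.Fp, Q.cost J y +
      ∑ x ∈ univ.filter (fun x => x ∉ Q.Ts), Q.Gx J x := rfl
  have hG0 : 0 ≤ ∑ x ∈ univ.filter (fun x => x ∉ Q.Ts), Q.Gx J x :=
    sum_nonneg fun x _ => Q.Gx_nonneg hN x
  have hC0 : 0 ≤ ∑ y ∈ verts Q.Fp, Q.cost J y := sum_nonneg fun y _ => Q.cost_nonneg hN y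
  have h7 : ∑ x ∈ univ.filter (fun x => x ∉ Q.Ts), Q.Gx J x +
      ∑ x ∈ univ.filter (fun x => x ∉ Q.Ts), ∑ y ∈ Q.copies x, Q.cost J y ≤ 3 * Q.GG J := by
    rw [hGG]
    linarith
  have h8 : 300 * (J : ℝ) * (∑ x ∈ univ.filter (fun x => x ∉ Q.Ts), Q.Gx J x +
      ∑ x ∈ univ.filter (fun x => x ∉ Q.Ts), ∑ y ∈ Q.copies x, Q.cost J y) ≤
      300 * (J : ℝ) * (3 * Q.GG J) := mul_le_mul_of_nonneg_left h7 (by positivity)
  have hGG0 : 0 ≤ Q.GG J := by rw [hGG]; positivity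
  have h9 : Q.GG J ≤ J * Q.GG J := by nlinarith
  nlinarith

end Pool.Agent.SC
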