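import Pool.Agent.Lib.MP_d0323d_co.Diag
/-! Module NORMCL (8.3): triviality of the group gives a diagram for `0,1,2,0`. -/
set_option autoImplicit false
namespace Pool.Agent.SC
open Finset
variable {n : ℕ} {Pol : List (Fin n) → Prop}

namespace NormCl

/-- removal of consecutive repetitions -/
def sq : List (Fin n) → List (Fin n)
  | [] => []
  | [a] => [a]
  | a :: b :: l => if a = b then sq (b :: l) else a :: sq (b :: l)

theorem sq_same (a : Fin n) (l : List (Fin n)) : sq (a :: a :: l) = sq (a :: l) := by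
  simp [sq]

theorem sq_ne {a b : Fin n} (h : a ≠ b) (l : List (Fin n)) :
    sq (a :: b :: l) = a :: sq (b :: l) := by
  simp [sq, h]

theorem sq_head : ∀ (l : List (Fin n)) (a : Fin n), ∃ v, sq (a :: l) = a :: v := by
  intro l
  induction l with
  | nil => intro a; exact ⟨[], rfl⟩
  | cons b l ih =>
    intro a
    by_cases h : a = b
    · subst h
      obtain ⟨v, hv⟩ := ih a
      exact ⟨v, by rw [sq_same, hv]⟩
    · exact ⟨sq (b :: l), sq_ne h l⟩

theorem sq_app : ∀ (u : List (Fin n)) (x : Fin n),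
    ∃ u', ∀ v, sq (u ++ x :: v) = u' ++ sq (x :: v) := by
  intro u x
  induction u with
  | nil => exact ⟨[], fun v => rfl⟩
  | cons a u ih =>
    obtain ⟨u', hu'⟩ := ih
    rcases u with _ | ⟨b, u⟩
    · by_cases h : a = x
      · subst h
        exact ⟨[], fun v => by simp [sq_same]⟩
      · exact ⟨[a], fun v => by simp [sq_ne h]⟩
    · by_cases h : a = b
      · subst h
        refine ⟨u', fun v => ?_⟩
        have := hu' v
        simp only [List.cons_append] at this ⊢
        rw [sq_same, this]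
      · refine ⟨a :: u', fun v => ?_⟩
        have := hu' v
        simp only [List.cons_append] at this ⊢
        rw [sq_ne h, this]

theorem sq_reverse : ∀ l : List (Fin n), sq l.reverse = (sq l).reverse := by
  intro l
  induction l with
  | nil => rfl
  | cons a l ih =>
    rcases l with _ | ⟨b, l⟩
    · rfl
    · obtain ⟨u', hu'⟩ := sq_app l.reverse b
      have h1 := hu' []
      have h2 := hu' [a]
      have e1 : (b :: l).reverse = l.reverse ++ b :: [] := by simp
      have e2 : (a :: b :: l).reverse = l.reverse ++ b :: [a] := by simp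
      rw [e1, h1] at ih
      rw [e2, h2]
      by_cases h : a = b
      · subst h
        rw [sq_same, sq_same, ← ih]
      · rw [sq_ne (Ne.symm h), sq_ne h, List.reverse_cons, ← ih]
        simp [sq]

theorem last_app (l : List (Fin n)) (a : Fin n) : (l ++ [a]).getLast? = some a := by
  rw [List.getLast?_append]; rfl

variable (Pol)

/-- there is a diagram for the lazy walk `l` -/
def S (l : List (Fin n)) : Prop := ∃ k, PLe Pol (sq l) k

variable {Pol}

theorem S_dup {u v : List (Fin n)} {x : Fin n} :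
    S Pol (u ++ x :: x :: v) ↔ S Pol (u ++ x :: v) := by
  obtain ⟨u', hu'⟩ := sq_app u x
  unfold S
  rw [hu', hu', sq_same]

theorem S_back {u v : List (Fin n)} {x y : Fin n} :
    S Pol (u ++ x :: y :: x :: v) ↔ S Pol (u ++ x :: v) := by
  by_cases h : x = y
  · subst h
    rw [S_dup, S_dup]
  · obtain ⟨u', hu'⟩ := sq_app u x
    obtain ⟨v', hv'⟩ := sq_head v x
    unfold S
    rw [hu', hu', sq_ne h, sq_ne (Ne.symm h), hv']
    exact ⟨fun ⟨k, hk⟩ => ⟨k, hk.zipp⟩, fun ⟨k, hk⟩ => ⟨k, hk.ins h⟩⟩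

theorem S_wedge {u v : List (Fin n)} {x : Fin n} (h1 : S Pol (x :: u)) (h2 : S Pol (x :: v))
    (hu : (x :: u).getLast? = some x) (hv : (x :: v).getLast? = some x) :
    S Pol (x :: (u ++ v)) := by
  obtain ⟨u0, hu0⟩ : ∃ u0, x :: u = u0 ++ [x] := by
    rw [List.getLast?_eq_some_iff] at hu
    exact hu
  obtain ⟨v0, hv0⟩ : ∃ v0, x :: v = v0 ++ [x] := by
    rw [List.getLast?_eq_some_iff] at hv
    exact hv
  obtain ⟨u', hu'⟩ := sq_app u0 x
  obtain ⟨v', hv'⟩ := sq_app v0 x
  obtain ⟨a, ha⟩ := sq_head u x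
  obtain ⟨b, hb⟩ := sq_head v x
  have e1 : sq (x :: u) = u' ++ [x] := by rw [hu0, hu']; rfl
  have e2 : sq (x :: v) = v' ++ [x] := by rw [hv0, hv']; rfl
  have e3 : sq (x :: (u ++ v)) = cat (sq (x :: u)) (sq (x :: v)) := by
    rw [← List.cons_append, hu0, List.append_assoc, List.singleton_append, hu', ← hu0, e1, hb]
    simp [cat]
  obtain ⟨k1, hk1⟩ := h1
  obtain ⟨k2, hk2⟩ := h2
  refine ⟨k1 + k2, ?_⟩
  rw [e3]
  refine PLe.wedge (p := x) ⟨?_, ?_⟩ ⟨?_, ?_⟩ hk1 hk2
  · rw [ha]; rfl
  · rw [e1]; simp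
  · rw [hb]; rfl
  · rw [e2]; simp

theorem S_conj {l : List (Fin n)} {x j : Fin n} (hl : (x :: l).getLast? = some x)
    (h : S Pol (x :: l)) : S Pol (j :: (x :: l) ++ [j]) := by
  obtain ⟨u0, hu0⟩ : ∃ u0, x :: l = u0 ++ [x] := by
    rw [List.getLast?_eq_some_iff] at hl
    exact hl
  obtain ⟨u', hu'⟩ := sq_app u0 x
  by_cases hj : j = x
  · subst hj
    unfold S at *
    have e2 : sq (j :: (j :: l) ++ [j]) = sq (j :: l) := by
      have h3 : j :: (j :: l) ++ [j] = j :: j :: (l ++ [j]) := rfl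
      rw [h3, sq_same, ← List.cons_append, hu0, List.append_assoc, List.singleton_append,
        hu' [j], hu' [], sq_same]
    rw [e2]
    exact h
  · unfold S at *
    obtain ⟨k, hk⟩ := h
    refine ⟨k, ?_⟩
    have e1 : sq (x :: l) = u' ++ [x] := by rw [hu0, hu']; rfl
    obtain ⟨a, ha⟩ := sq_head l x
    have e2 : sq (j :: (x :: l) ++ [j]) = j :: (x :: a) ++ [j] := by
      have h3 : j :: (x :: l) ++ [j] = j :: x :: (l ++ [j]) := rfl
      rw [h3, sq_ne hj, ← List.cons_append, hu0, List.append_assoc, List.singleton_append,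
        hu' [j], sq_ne (Ne.symm hj), ← ha, e1]
      simp [sq]
    rw [e2]
    have h4 : PLe Pol (u' ++ x :: j :: x :: []) k := PLe.ins (Ne.symm hj) (by rw [e1] at hk; exact hk)
    refine h4.rot (Or.inr ⟨x, j, a, [x], ?_, h4.clos.1, ?_⟩)
    · rw [← ha, e1]; simp
    · simp

variable (x0 : Fin n)

/-- the walk of a letter -/
def gw (g : (Fin n × Fin n) × Bool) : List (Fin n) :=
  if g.2 then [g.1.1, g.1.2, x0] else [g.1.2, g.1.1, x0]

/-- the lazy walk of a word -/
def Wk (L : List ((Fin n × Fin n) × Bool)) : List (Fin n) := x0 :: L.flatMap (gw x0)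

variable (Pol)

/-- there is a diagram for the walk of the word -/
def Good (L : List ((Fin n × Fin n) × Bool)) : Prop := S Pol (Wk x0 L)

variable {Pol}

theorem gw_last (g : (Fin n × Fin n) × Bool) : ∃ i j, gw x0 g = [i, j, x0] := by
  unfold gw
  split_ifs
  · exact ⟨_, _, rfl⟩
  · exact ⟨_, _, rfl⟩

theorem Wk_last (L : List ((Fin n × Fin n) × Bool)) : (Wk x0 L).getLast? = some x0 := by
  induction L using List.reverseRecOn with
  | nil => rfl
  | append_singleton L g _ =>
    obtain ⟨i, j, h⟩ := gw_last x0 g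
    unfold Wk
    rw [List.flatMap_append, List.flatMap_singleton, h]
    have : x0 :: (List.flatMap (gw x0) L ++ [i, j, x0]) =
      (x0 :: (List.flatMap (gw x0) L ++ [i, j])) ++ [x0] := by simp
    rw [this, List.getLast?_append]
    rfl

theorem good_nil : Good Pol x0 [] := ⟨0, PLe.point x0⟩

theorem good_append {L1 L2 : List ((Fin n × Fin n) × Bool)} (h1 : Good Pol x0 L1)
    (h2 : Good Pol x0 L2) : Good Pol x0 (L1 ++ L2) := by
  unfold Good Wk at *
  rw [List.flatMap_append]
  exact S_wedge h1 h2 (Wk_last x0 L1) (Wk_last x0 L2)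

theorem S_back3 {u v : List (Fin n)} {x i j : Fin n} :
    S Pol (u ++ x :: i :: j :: x :: j :: i :: x :: v) ↔ S Pol (u ++ x :: v) := by
  have e1 : u ++ x :: i :: j :: x :: j :: i :: x :: v =
    (u ++ [x, i]) ++ j :: x :: j :: (i :: x :: v) := by simp
  have e2 : (u ++ [x, i]) ++ j :: (i :: x :: v) = (u ++ [x]) ++ i :: j :: i :: (x :: v) := by simp
  have e3 : (u ++ [x]) ++ i :: (x :: v) = u ++ x :: i :: x :: v := by simp
  rw [e1, S_back, e2, S_back, e3, S_back]

theorem good_cancel {L1 L2 : List ((Fin n × Fin n) × Bool)} {g : Fin n × Fin n} {b : Bool} :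
    Good Pol x0 (L1 ++ (g, b) :: (g, !b) :: L2) ↔ Good Pol x0 (L1 ++ L2) := by
  obtain ⟨u, hu⟩ : ∃ u, Wk x0 L1 = u ++ [x0] := List.getLast?_eq_some_iff.1 (Wk_last x0 L1)
  obtain ⟨i, j, h1, h2⟩ : ∃ i j, gw x0 (g, b) = [i, j, x0] ∧ gw x0 (g, !b) = [j, i, x0] := by
    unfold gw
    cases b
    · exact ⟨g.2, g.1, by simp, by simp⟩
    · exact ⟨g.1, g.2, by simp, by simp⟩
  have e1 : Wk x0 (L1 ++ (g, b) :: (g, !b) :: L2) =
      u ++ x0 :: i :: j :: x0 :: j :: i :: x0 :: L2.flatMap (gw x0) := by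
    unfold Wk at *
    rw [List.flatMap_append, ← List.cons_append, hu, List.flatMap_cons, List.flatMap_cons, h1, h2]
    simp
  have e2 : Wk x0 (L1 ++ L2) = u ++ x0 :: L2.flatMap (gw x0) := by
    unfold Wk at *
    rw [List.flatMap_append, ← List.cons_append, hu]
    simp
  unfold Good
  rw [e1, e2, S_back3]

theorem good_step {L L' : List ((Fin n × Fin n) × Bool)} (h : FreeGroup.Red.Step L L') :
    Good Pol x0 L ↔ Good Pol x0 L' := by
  rcases h with ⟨⟩
  exact good_cancel x0

theorem good_red {L L' : List ((Fin n × Fin n) × Bool)} (h : FreeGroup.Red L L') :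
    Good Pol x0 L ↔ Good Pol x0 L' := by
  induction h with
  | refl => rfl
  | tail _ h ih => exact ih.trans (good_step x0 h)

theorem good_mk {L : List ((Fin n × Fin n) × Bool)} :
    Good Pol x0 (FreeGroup.mk L).toWord ↔ Good Pol x0 L := by
  rw [FreeGroup.toWord_mk]
  exact (good_red x0 FreeGroup.reduce.red).symm

theorem good_conj1 {L : List ((Fin n × Fin n) × Bool)} {g : Fin n × Fin n} {b : Bool}
    (h : Good Pol x0 L) : Good Pol x0 ((g, b) :: L ++ [(g, !b)]) := by
  obtain ⟨i, j, h1, h2⟩ : ∃ i j, gw x0 (g, b) = [i, j, x0] ∧ gw x0 (g, !b) = [j, i, x0] := by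
    unfold gw
    cases b
    · exact ⟨g.2, g.1, by simp, by simp⟩
    · exact ⟨g.1, g.2, by simp, by simp⟩
  have e1 : Wk x0 ((g, b) :: L ++ [(g, !b)]) =
      x0 :: (i :: (j :: (x0 :: L.flatMap (gw x0)) ++ [j]) ++ [i]) ++ [x0] := by
    unfold Wk
    rw [List.cons_append, List.flatMap_cons, List.flatMap_append, List.flatMap_singleton, h1, h2]
    simp
  unfold Good
  rw [e1]
  have s1 : S Pol (j :: (x0 :: L.flatMap (gw x0)) ++ [j]) := S_conj (Wk_last x0 L) h
  have s2 : S Pol (i :: (j :: (x0 :: L.flatMap (gw x0)) ++ [j]) ++ [i]) :=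
    S_conj (last_app (j :: (x0 :: L.flatMap (gw x0))) j) s1
  exact S_conj (last_app (i :: (j :: (x0 :: L.flatMap (gw x0)) ++ [j])) i) s2

theorem good_conj {L : List ((Fin n × Fin n) × Bool)} (h : Good Pol x0 L) :
    ∀ A : List ((Fin n × Fin n) × Bool), Good Pol x0 (A ++ L ++ FreeGroup.invRev A) := by
  intro A
  induction A with
  | nil => simpa [FreeGroup.invRev] using h
  | cons g A ih =>
    have e : g :: A ++ L ++ FreeGroup.invRev (g :: A) =
        (g.1, g.2) :: (A ++ L ++ FreeGroup.invRev A) ++ [(g.1, !g.2)] := by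
      simp [FreeGroup.invRev]
    rw [e]
    exact good_conj1 x0 ih

theorem Wk_invRev (L : List ((Fin n × Fin n) × Bool)) :
    Wk x0 (FreeGroup.invRev L) = (Wk x0 L).reverse := by
  induction L with
  | nil => rfl
  | cons g L ih =>
    have e : FreeGroup.invRev (g :: L) = FreeGroup.invRev L ++ [(g.1, !g.2)] := by
      simp [FreeGroup.invRev]
    have e2 : gw x0 (g.1, !g.2) = ((gw x0 g).dropLast).reverse ++ [x0] := by
      rcases g with ⟨g, b⟩
      unfold gw
      cases b <;> simp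
    have e3 : gw x0 g = (gw x0 g).dropLast ++ [x0] := by
      obtain ⟨i, j, h⟩ := gw_last x0 g
      rw [h]; rfl
    unfold Wk at *
    rw [e, List.flatMap_append, List.flatMap_singleton, ← List.cons_append, ih, e2,
      List.flatMap_cons, e3]
    simp

theorem good_inv {L : List ((Fin n × Fin n) × Bool)} (h : Good Pol x0 L) :
    Good Pol x0 (FreeGroup.invRev L) := by
  unfold Good S at *
  rw [Wk_invRev, sq_reverse]
  obtain ⟨k, hk⟩ := h
  exact ⟨k, hk.rev⟩

variable (Pol)

/-- the subgroup of the good elements -/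
def N : Subgroup (FreeGroup (Fin n × Fin n)) where
  carrier := {g | Good Pol x0 g.toWord}
  mul_mem' := by
    intro g h hg hh
    simp only [Set.mem_ofPred_eq] at *
    have e : g * h = FreeGroup.mk (g.toWord ++ h.toWord) := by
      rw [← FreeGroup.mul_mk, FreeGroup.mk_toWord, FreeGroup.mk_toWord]
    rw [e, good_mk]
    exact good_append x0 hg hh
  one_mem' := by
    simp only [Set.mem_ofPred_eq, FreeGroup.toWord_one]
    exact good_nil x0
  inv_mem' := by
    intro g hg
    simp only [Set.mem_ofPred_eq, FreeGroup.toWord_inv] at *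
    exact good_inv x0 hg

variable {Pol}

theorem mem_N {L : List ((Fin n × Fin n) × Bool)} :
    FreeGroup.mk L ∈ N Pol x0 ↔ Good Pol x0 L := good_mk x0

theorem N_normal : (N Pol x0).Normal := by
  refine ⟨fun h hh g => ?_⟩
  have e : g * h * g⁻¹ = FreeGroup.mk (g.toWord ++ h.toWord ++ FreeGroup.invRev g.toWord) := by
    rw [← FreeGroup.mul_mk, ← FreeGroup.mul_mk, ← FreeGroup.inv_mk, FreeGroup.mk_toWord,
      FreeGroup.mk_toWord]
  rw [e, mem_N]
  exact good_conj x0 hh _

theorem frels_sub (hP : PolOK Pol) {Y : Finset (Finset (Fin n))} (hY : Y ⊆ tri n)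
    (hface : ∀ i j k : Fin n, ({i, j, k} : Finset (Fin n)) ∈ Y → Pol [i, j, k, i])
    (h0 : x0.val = 0) : frels n Y ⊆ N Pol x0 := by
  rintro r (⟨i, rfl⟩ | ⟨i, j, rfl⟩ | ⟨i, j, hi, rfl⟩ | ⟨i, j, k, hF, rfl⟩)
  · have e : FreeGroup.of (i, i) = FreeGroup.mk [((i, i), true)] := rfl
    rw [SetLike.mem_coe, e, mem_N]
    have e2 : Wk x0 [((i, i), true)] = [x0] ++ i :: i :: [x0] := rfl
    unfold Good
    rw [e2, S_dup]
    have e3 : [x0] ++ i :: [x0] = [] ++ x0 :: i :: x0 :: [] := rfl
    rw [e3, S_back]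
    exact ⟨0, PLe.point x0⟩
  · have e : FreeGroup.of (i, j) * FreeGroup.of (j, i) =
        FreeGroup.mk [((i, j), true), ((j, i), true)] := rfl
    rw [SetLike.mem_coe, e, mem_N]
    have e2 : Wk x0 [((i, j), true), ((j, i), true)] =
        [] ++ x0 :: i :: j :: x0 :: j :: i :: x0 :: [] := rfl
    unfold Good
    rw [e2, S_back3]
    exact ⟨0, PLe.point x0⟩
  · have hi' : i = x0 := Fin.ext (by rw [hi, h0])
    subst hi'
    have e : FreeGroup.of (i, j) = FreeGroup.mk [((i, j), true)] := rfl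
    rw [SetLike.mem_coe, e, mem_N]
    have e2 : Wk i [((i, j), true)] = [] ++ i :: i :: [j, i] := rfl
    unfold Good
    rw [e2, S_dup]
    have e3 : [] ++ i :: [j, i] = [] ++ i :: j :: i :: [] := rfl
    rw [e3, S_back]
    exact ⟨0, PLe.point i⟩
  · have e : FreeGroup.of (i, j) * FreeGroup.of (j, k) * (FreeGroup.of (i, k))⁻¹ =
        FreeGroup.mk [((i, j), true), ((j, k), true), ((i, k), false)] := rfl
    rw [SetLike.mem_coe, e, mem_N]
    have e2 : Wk x0 [((i, j), true), ((j, k), true), ((i, k), false)] =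
        [x0, i] ++ j :: x0 :: j :: [k, x0, k, i, x0] := rfl
    have e3 : [x0, i] ++ j :: [k, x0, k, i, x0] = [x0, i, j] ++ k :: x0 :: k :: [i, x0] := rfl
    have e4 : [x0, i, j] ++ k :: [i, x0] = x0 :: (i :: [j, k, i]) ++ [x0] := rfl
    unfold Good
    rw [e2, S_back, e3, S_back, e4]
    refine S_conj rfl ?_
    have hc : ({i, j, k} : Finset (Fin n)).card = 3 := (Finset.mem_filter.1 (hY hF)).2
    have hij : i ≠ j := by
      rintro rfl
      have := Finset.card_le_two (a := i) (b := k)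
      rw [Finset.insert_eq_of_mem (by simp)] at hc
      omega
    have hjk : j ≠ k := by
      rintro rfl
      have := Finset.card_le_two (a := i) (b := j)
      rw [Finset.pair_eq_singleton] at hc
      omega
    have hki : k ≠ i := by
      rintro rfl
      have := Finset.card_le_two (a := j) (b := k)
      rw [Finset.insert_eq_of_mem (by simp)] at hc
      omega
    refine ⟨1, ?_⟩
    rw [sq_ne hij, sq_ne hjk, sq_ne hki]
    exact PLe.pol hP (hface i j k hF)

end NormCl

theorem exists_diagram (hP : PolOK Pol) {Y : Finset (Finset (Fin n))} (hY : Y ⊆ tri n)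
    (hface : ∀ i j k : Fin n, ({i, j, k} : Finset (Fin n)) ∈ Y → Pol [i, j, k, i])
    (hT : Triv n Y) (x0 x1 x2 : Fin n) (h0 : x0.val = 0) (h1 : x1.val = 1) (h2 : x2.val = 2) :
    ∃ k, PLe Pol [x0, x1, x2, x0] k := by
  have e1 : (FreeGroup.of (x1, x2)) ∈ Subgroup.normalClosure (frels n Y) := by
    have := hT (gg Y x1 x2)
    unfold gg PresentedGroup.of at this
    exact (QuotientGroup.eq_one_iff _).1 this
  have := NormCl.N_normal (Pol := Pol) x0
  have e2 := Subgroup.normalClosure_le_normal (NormCl.frels_sub x0 hP hY hface h0) e1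
  have e3 : FreeGroup.of (x1, x2) = FreeGroup.mk [((x1, x2), true)] := rfl
  rw [e3, NormCl.mem_N] at e2
  obtain ⟨k, hk⟩ := e2
  refine ⟨k, ?_⟩
  have h01 : x0 ≠ x1 := fun h => by rw [← h] at h1; omega
  have h12 : x1 ≠ x2 := fun h => by rw [← h] at h2; omega
  have h20 : x2 ≠ x0 := fun h => by rw [← h] at h0; omega
  have e4 : NormCl.sq (NormCl.Wk x0 [((x1, x2), true)]) = [x0, x1, x2, x0] := by
    have : NormCl.Wk x0 [((x1, x2), true)] = [x0, x1, x2, x0] := rfl
    rw [this, NormCl.sq_ne h01, NormCl.sq_ne h12, NormCl.sq_ne h20]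
    rfl
  rw [e4] at hk
  exact hk

end Pool.Agent.SC
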