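import Pool.Agent.Lib.MP_d0323d_co.FamBasic
/-! Module RECTQ (7.1): rectangle inequality in a filler, in the form of a short cut. -/
set_option autoImplicit false
namespace Pool.Agent.SC
open Finset

namespace RectQ

section Lists
variable {β : Type*}

/-- number of steps of weight one -/
def lv (c : β → β → ℕ) : List β → ℕ
  | [] => 0
  | [_] => 0
  | x :: y :: l => c x y + lv c (y :: l)

variable (c : β → β → ℕ)

@[simp] theorem lv_nil : lv c [] = 0 := rfl
@[simp] theorem lv_single (x : β) : lv c [x] = 0 := rfl
@[simp] theorem lv_cons_cons (x y : β) (l : List β) :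
    lv c (x :: y :: l) = c x y + lv c (y :: l) := rfl

theorem lv_append (A : List β) (z : β) (B : List β) :
    lv c (A ++ z :: B) = lv c (A ++ [z]) + lv c (z :: B) := by
  induction A with
  | nil => simp
  | cons a A ih =>
    cases A with
    | nil => simp
    | cons b A => simp only [List.cons_append, lv_cons_cons] at ih ⊢; omega

theorem lv_le_append_right (A B : List β) : lv c B ≤ lv c (A ++ B) := by
  cases B with
  | nil => simp
  | cons z B => rw [lv_append]; omega

theorem lv_le_append_left (A B : List β) : lv c A ≤ lv c (A ++ B) := by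
  cases B with
  | nil => simp
  | cons z B =>
    rw [lv_append]
    rcases List.eq_nil_or_concat A with h | ⟨A', a, h⟩
    · subst h; simp
    · subst h
      have : A' ++ [a] ++ [z] = A' ++ a :: [z] := by simp
      simp only [List.concat_eq_append]
      rw [this, lv_append c A' a [z]]; omega

theorem lv_infix {A B : List β} (h : A <:+: B) : lv c A ≤ lv c B := by
  obtain ⟨s, t, rfl⟩ := h
  exact (lv_le_append_right c s A).trans (lv_le_append_left c (s ++ A) t)

/-- intermediate value -/
theorem exists_split (hc : ∀ x y, c x y ≤ 1) (u : List β) (hu : u ≠ []) (m : ℕ)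
    (hm : m ≤ lv c u) : ∃ (A : List β) (z : β) (B : List β), u = A ++ z :: B ∧
      lv c (A ++ [z]) = m := by
  induction u generalizing m with
  | nil => exact absurd rfl hu
  | cons x u ih =>
    cases u with
    | nil =>
      refine ⟨[], x, [], rfl, ?_⟩
      simp at hm ⊢
      exact hm.symm
    | cons y u =>
      rcases Nat.eq_zero_or_pos m with h0 | h0
      · subst h0
        exact ⟨[], x, y :: u, rfl, rfl⟩
      · have h1 := hc x y
        rcases Nat.le_one_iff_eq_zero_or_eq_one.1 h1 with h | h
        · obtain ⟨A, z, B, hAB, hl⟩ := ih (by simp) m (by simpa [h] using hm)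
          refine ⟨x :: A, z, B, by rw [hAB]; rfl, ?_⟩
          cases A with
          | nil =>
            simp only [List.nil_append, List.cons.injEq] at hAB
            obtain ⟨rfl, rfl⟩ := hAB
            simp at hl
            omega
          | cons a A =>
            simp only [List.cons_append, List.cons.injEq] at hAB
            obtain ⟨rfl, _⟩ := hAB
            simpa [h] using hl
        · obtain ⟨A, z, B, hAB, hl⟩ := ih (by simp) (m - 1) (by simp [h] at hm; omega)
          refine ⟨x :: A, z, B, by rw [hAB]; rfl, ?_⟩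
          cases A with
          | nil =>
            simp only [List.nil_append, List.cons.injEq] at hAB
            obtain ⟨rfl, rfl⟩ := hAB
            simp at hl
            simp [h]; omega
          | cons a A =>
            simp only [List.cons_append, List.cons.injEq] at hAB
            obtain ⟨rfl, _⟩ := hAB
            simp only [List.cons_append, lv_cons_cons, h] at hl ⊢
            omega

theorem len_eq_lv {n : ℕ} (T : Finset (Fin n)) (w : List (Fin n)) :
    len T w = lv (fun a b => if a ∈ T ∧ b ∈ T then 0 else 1) w := by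
  induction w with
  | nil => rfl
  | cons x w ih =>
    cases w with
    | nil => rfl
    | cons y w =>
      rw [lv_cons_cons, ← ih]
      unfold len steps
      simp only [List.tail_cons, List.zip_cons_cons]
      by_cases h : x ∈ T ∧ y ∈ T
      · rw [List.filter_cons_of_neg (by simpa using h)]
        simp [h]
      · rw [List.filter_cons_of_pos (by simpa using not_and_or.1 h)]
        rw [if_neg h, List.length_cons]; omega

theorem lv_map {γ : Type*} (f : γ → β) (w : List γ) :
    lv c (w.map f) = lv (fun a b => c (f a) (f b)) w := by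
  induction w with
  | nil => rfl
  | cons x w ih =>
    cases w with
    | nil => rfl
    | cons y w => simp only [List.map_cons, lv_cons_cons] at ih ⊢; rw [ih]

end Lists

section Walk
variable {V : Type} [DecidableEq V]

theorem walk_append {E : Finset (Finset V)} {A : List V} {z : V} {B : List V} :
    WalkIn E (A ++ z :: B) ↔ WalkIn E (A ++ [z]) ∧ WalkIn E (z :: B) := by
  unfold WalkIn
  constructor
  · intro h
    refine ⟨?_, ?_⟩
    · have : A ++ z :: B = (A ++ [z]) ++ B := by simp
      rw [this] at h
      exact h.left_of_append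
    · exact h.right_of_append
  · rintro ⟨h1, h2⟩
    cases A with
    | nil => simpa using h2
    | cons a A =>
      have h3 := List.isChain_append.1 h1
      rw [List.isChain_append]
      refine ⟨h3.1, h2, ?_⟩
      intro x hx y hy
      apply h3.2.2 x hx y
      simpa using hy

/-- cutting a closed walk at two vertices -/
theorem cut_closed (c : V → V → ℕ) {E : Finset (Finset V)} {A B C D : List V} {p q : V}
    (hc : ClosedW (A ++ p :: B)) (hw : WalkIn E (A ++ p :: B)) (h : p :: B = C ++ q :: D) :
    ∃ b : List V, FT (C ++ [q]) p q ∧ FT b q p ∧ WalkIn E (C ++ [q]) ∧ WalkIn E b ∧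
      RotW (A ++ p :: B) (cat (C ++ [q]) b) ∧
      lv c b = lv c (q :: D) + lv c (A ++ [p]) := by
  have hwB : WalkIn E (p :: B) := (walk_append.1 hw).2
  have hwA : WalkIn E (A ++ [p]) := (walk_append.1 hw).1
  have hwC : WalkIn E (C ++ [q]) := by rw [h] at hwB; exact (walk_append.1 hwB).1
  have hwD : WalkIn E (q :: D) := by rw [h] at hwB; exact (walk_append.1 hwB).2
  have hFC : FT (C ++ [q]) p q := by
    refine ⟨?_, by simp⟩
    cases C with
    | nil => simp only [List.nil_append, List.cons.injEq] at h; simp [h.1]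
    | cons x C => simp only [List.cons_append, List.cons.injEq] at h; simp [h.1]
  obtain ⟨hne, hhl⟩ := hc
  have hlast : (A ++ p :: B).getLast? = (q :: D).getLast? := by
    rw [h]
    rw [List.getLast?_append_of_ne_nil _ (by simp), List.getLast?_append_of_ne_nil _ (by simp)]
  cases A with
  | nil =>
    refine ⟨q :: D, hFC, ⟨rfl, ?_⟩, hwC, hwD, ?_, by simp⟩
    · rw [← hlast, ← hhl]; rfl
    · left
      simp [cat, h]
  | cons a A =>
    have hla : (q :: D).getLast? = some a := by rw [← hlast, ← hhl]; rfl
    obtain ⟨X, hX⟩ : ∃ X, q :: D = X ++ [a] := by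
      rcases List.eq_nil_or_concat (q :: D) with h0 | ⟨X, x, h0⟩
      · exact absurd h0 (by simp)
      · rw [List.concat_eq_append] at h0
        rw [h0] at hla
        simp at hla
        exact ⟨X, by rw [h0, hla]⟩
    refine ⟨(q :: D) ++ A ++ [p], hFC,
      ⟨rfl, by rw [List.getLast?_append_of_ne_nil _ (by simp)]; rfl⟩, hwC, ?_, ?_, ?_⟩
    · have : q :: D ++ A ++ [p] = X ++ a :: (A ++ [p]) := by rw [hX]; simp
      rw [this, walk_append]
      exact ⟨by rw [← hX]; exact hwD, by simpa using hwA⟩
    · right
      refine ⟨a, p, A, B, rfl, ⟨hne, hhl⟩, ?_⟩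
      have : cat (C ++ [q]) (q :: D ++ A ++ [p]) = (C ++ q :: D) ++ A ++ [p] := by
        simp [cat]
      rw [this, ← h]
    · have : q :: D ++ A ++ [p] = X ++ a :: (A ++ [p]) := by rw [hX]; simp
      rw [this, lv_append, ← hX]
      simp

end Walk

section Parity
variable {V : Type} [DecidableEq V]

/-- sum of an edge function over the steps -/
def sv (c : Finset V → ZMod 2) : List V → ZMod 2
  | [] => 0
  | [_] => 0
  | x :: y :: l => c {x, y} + sv c (y :: l)

@[simp] theorem sv_nil (c : Finset V → ZMod 2) : sv c [] = 0 := rfl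
@[simp] theorem sv_single (c : Finset V → ZMod 2) (x : V) : sv c [x] = 0 := rfl
@[simp] theorem sv_cons_cons (c : Finset V → ZMod 2) (x y : V) (l : List V) :
    sv c (x :: y :: l) = c {x, y} + sv c (y :: l) := rfl

theorem sv_append (c : Finset V → ZMod 2) (A : List V) (z : V) (B : List V) :
    sv c (A ++ z :: B) = sv c (A ++ [z]) + sv c (z :: B) := by
  induction A with
  | nil => simp
  | cons a A ih =>
    cases A with
    | nil => simp
    | cons b A =>
      simp only [List.cons_append, sv_cons_cons] at ih ⊢
      rw [ih]; ring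

/-- telescoping -/
theorem sv_tele (g : V → ZMod 2) (c : Finset V → ZMod 2) (w : List V)
    (hc : w.IsChain (fun x y => c {x, y} = g x + g y)) (p q : V) (hw : FT w p q) :
    sv c w = g p + g q := by
  induction w generalizing p with
  | nil => exact absurd hw.1 (by simp)
  | cons x w ih =>
    obtain ⟨h1, h2⟩ := hw
    simp at h1
    subst h1
    cases w with
    | nil =>
      simp at h2
      subst h2
      simp
      exact (CharTwo.add_self_eq_zero (g x)).symm
    | cons y w =>
      rw [List.isChain_cons_cons] at hc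
      rw [sv_cons_cons, hc.1, ih hc.2 y ⟨rfl, by simpa using h2⟩]
      have : g y + g y = 0 := CharTwo.add_self_eq_zero _
      linear_combination this

theorem sv_zero (c : Finset V → ZMod 2) (w : List V)
    (hc : w.IsChain (fun x y => c {x, y} = 0)) : sv c w = 0 := by
  induction w with
  | nil => rfl
  | cons x w ih =>
    cases w with
    | nil => rfl
    | cons y w =>
      rw [List.isChain_cons_cons] at hc
      rw [sv_cons_cons, hc.1, ih hc.2, add_zero]

/-- list of traversed edges -/
def el (w : List V) : List (Finset V) := (steps w).map (fun p => ({p.1, p.2} : Finset V))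

theorem sv_eq_sum (c : Finset V → ZMod 2) (w : List V) : sv c w = ((el w).map c).sum := by
  induction w with
  | nil => rfl
  | cons x w ih =>
    cases w with
    | nil => rfl
    | cons y w =>
      rw [sv_cons_cons, ih]
      simp [el, steps]

/-- edges traversed an odd number of times -/
def oddE (w : List V) : Finset (Finset V) := (el w).toFinset.filter (fun e => Odd ((el w).count e))

theorem sum_oddE (c : Finset V → ZMod 2) (w : List V) : ∑ e ∈ oddE w, c e = sv c w := by
  rw [sv_eq_sum, oddE, Finset.sum_filter, Finset.sum_list_map_count]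
  apply Finset.sum_congr rfl
  intro e _
  by_cases h : Odd ((el w).count e)
  · rw [if_pos h, nsmul_eq_mul]
    have : (((el w).count e : ℕ) : ZMod 2) = 1 := (ZMod.natCast_eq_one_iff_odd).2 h
    rw [this, one_mul]
  · rw [if_neg h, nsmul_eq_mul]
    have : (((el w).count e : ℕ) : ZMod 2) = 0 := by
      rw [ZMod.natCast_eq_zero_iff_even]; exact Nat.not_odd_iff_even.1 h
    rw [this, zero_mul]

theorem el_mem {E : Finset (Finset V)} {w : List V} (hw : WalkIn E w) : ∀ e ∈ el w, e ∈ E := by
  induction w with
  | nil => intro e he; simp [el, steps] at he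
  | cons x w ih =>
    cases w with
    | nil => intro e he; simp [el, steps] at he
    | cons y w =>
      unfold WalkIn at hw
      rw [List.isChain_cons_cons] at hw
      intro e he
      have : el (x :: y :: w) = {x, y} :: el (y :: w) := by simp [el, steps]
      rw [this, List.mem_cons] at he
      rcases he with rfl | he
      · exact hw.1
      · exact ih hw.2 e he

theorem oddE_sub {E : Finset (Finset V)} {w : List V} (hw : WalkIn E w) : oddE w ⊆ E := by
  intro e he
  rw [oddE, Finset.mem_filter, List.mem_toFinset] at he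
  exact el_mem hw e he.1

theorem oddE_even {E : Finset (Finset V)} (hE : ∀ e ∈ E, e.card = 2) {w : List V}
    (hw : WalkIn E w) (hc : ClosedW w) : EvenSet (oddE w) := by
  refine ⟨fun e he => hE e (oddE_sub hw he), fun x => ?_⟩
  obtain ⟨hne, hhl⟩ := hc
  have h1 := sum_oddE (fun e => if x ∈ e then 1 else 0) w
  rw [← ZMod.natCast_eq_zero_iff_even]
  have h3 : sv (fun e : Finset V => if x ∈ e then (1 : ZMod 2) else 0) w = 0 := by
    obtain ⟨p, hp⟩ : ∃ p, w.head? = some p := by
      cases w with
      | nil => exact absurd rfl hne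
      | cons a w => exact ⟨a, rfl⟩
    rw [sv_tele (fun y => if x = y then 1 else 0) _ w ?_ p p ⟨hp, by rw [← hhl, hp]⟩]
    · exact CharTwo.add_self_eq_zero _
    · unfold WalkIn at hw
      apply List.IsChain.imp _ hw
      intro a b hab
      have hne' : a ≠ b := by
        rintro rfl
        have := hE _ hab
        simp at this
      by_cases ha : x = a
      · have hb : x ≠ b := fun h => hne' (ha.symm.trans h)
        simp [ha, hne']
      · by_cases hb : x = b
        · simp [hb, Ne.symm hne']
        · simp [ha, hb]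
  rw [Finset.sum_boole] at h1
  rw [h1, h3]

/-- sum over the faces -/
theorem sum_bdF (c : Finset V → ZMod 2) (B : Finset (Finset V)) :
    ∑ e ∈ bdF B, c e = ∑ s ∈ B, ∑ e ∈ s.powersetCard 2, c e := by
  have h1 : ∀ s ∈ B, ∑ e ∈ s.powersetCard 2, c e =
      ∑ e ∈ edgs B, if e ∈ s.powersetCard 2 then c e else 0 := by
    intro s hs
    rw [← Finset.sum_filter]
    apply Finset.sum_congr _ (fun _ _ => rfl)
    ext e
    simp only [Finset.mem_filter, edgs, Finset.mem_biUnion]
    exact ⟨fun h => ⟨⟨s, hs, h⟩, h⟩, fun h => h.2⟩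
  rw [Finset.sum_congr rfl h1, Finset.sum_comm, bdF, Finset.sum_filter]
  apply Finset.sum_congr rfl
  intro e he
  obtain ⟨s0, hs0, he0⟩ := Finset.mem_biUnion.1 he
  have hcard : e.card = 2 := (Finset.mem_powersetCard.1 he0).2
  have h2 : ∑ s ∈ B, (if e ∈ s.powersetCard 2 then c e else 0) = (edeg B e : ZMod 2) * c e := by
    rw [← Finset.sum_filter, Finset.sum_const, nsmul_eq_mul, edeg]
    congr 3
    ext s
    simp [Finset.mem_powersetCard, hcard]
  rw [h2]
  by_cases h : Odd (edeg B e)
  · rw [if_pos h, (ZMod.natCast_eq_one_iff_odd).2 h, one_mul]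
  · rw [if_neg h, (ZMod.natCast_eq_zero_iff_even).2 (Nat.not_odd_iff_even.1 h), zero_mul]

end Parity

section Dist
variable {V : Type} [Fintype V] [DecidableEq V] {n : ℕ} (Q : Imm V n)

/-- weight of a step -/
def cw (x y : V) : ℕ := if Q.lab x ∈ Q.T ∧ Q.lab y ∈ Q.T then 0 else 1

theorem len_map (w : List V) : len Q.T (w.map Q.lab) = lv (cw Q) w := by
  rw [len_eq_lv, lv_map]; rfl

theorem exists_walk (p y : V) : ∃ w : List V, FT w p y ∧ WalkIn Q.E w := by
  have h := Q.conn p y
  induction h with
  | refl => exact ⟨[p], ⟨rfl, rfl⟩, by unfold WalkIn; simp⟩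
  | @tail b z hb hbz ih =>
    obtain ⟨w, hw, hwE⟩ := ih
    obtain ⟨X, hX⟩ : ∃ X, w = X ++ [b] := by
      rcases List.eq_nil_or_concat w with h0 | ⟨X, x, h0⟩
      · exfalso; rw [h0] at hw; simpa using hw.1
      · rw [List.concat_eq_append] at h0
        have := hw.2
        rw [h0] at this
        simp at this
        exact ⟨X, by rw [h0, this]⟩
    refine ⟨X ++ b :: [z], ⟨?_, by simp⟩, ?_⟩
    · have := hw.1
      rw [hX] at this
      cases X with
      | nil => simpa using this
      | cons a X => simpa using this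
    · rw [walk_append]
      refine ⟨by rw [← hX]; exact hwE, ?_⟩
      unfold WalkIn; simpa using hbz

/-- distance from a list of vertices -/
noncomputable def ds (S : List V) (y : V) : ℕ :=
  sInf {m : ℕ | ∃ (w : List V) (p : V), p ∈ S ∧ FT w p y ∧ WalkIn Q.E w ∧ lv (cw Q) w = m}

variable {Q}

theorem ds_spec {S : List V} (hS : S ≠ []) (y : V) :
    ∃ (w : List V) (p : V), p ∈ S ∧ FT w p y ∧ WalkIn Q.E w ∧ lv (cw Q) w = ds Q S y := by
  have hne : {m : ℕ | ∃ (w : List V) (p : V), p ∈ S ∧ FT w p y ∧ WalkIn Q.E w ∧
      lv (cw Q) w = m}.Nonempty := by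
    obtain ⟨p, hp⟩ := List.exists_mem_of_ne_nil S hS
    obtain ⟨w, hw, hwE⟩ := exists_walk Q p y
    exact ⟨_, w, p, hp, hw, hwE, rfl⟩
  exact Nat.sInf_mem hne

theorem ds_le {S : List V} {y : V} {w : List V} {p : V} (hp : p ∈ S) (hw : FT w p y)
    (hwE : WalkIn Q.E w) : ds Q S y ≤ lv (cw Q) w :=
  Nat.sInf_le ⟨w, p, hp, hw, hwE, rfl⟩

theorem ds_zero {S : List V} {y : V} (hy : y ∈ S) : ds Q S y = 0 := by
  have : ds Q S y ≤ lv (cw Q) [y] := ds_le hy ⟨rfl, rfl⟩ (by unfold WalkIn; simp)
  simpa using this

theorem ds_step {S : List V} (hS : S ≠ []) {y z : V} (h : ({y, z} : Finset V) ∈ Q.E) :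
    ds Q S z ≤ ds Q S y + cw Q y z := by
  obtain ⟨w, p, hp, hw, hwE, hl⟩ := ds_spec (Q := Q) hS y
  obtain ⟨X, hX⟩ : ∃ X, w = X ++ [y] := by
    rcases List.eq_nil_or_concat w with h0 | ⟨X, x, h0⟩
    · exfalso; rw [h0] at hw; simpa using hw.1
    · rw [List.concat_eq_append] at h0
      have := hw.2
      rw [h0] at this
      simp at this
      exact ⟨X, by rw [h0, this]⟩
  have h1 : ds Q S z ≤ lv (cw Q) (X ++ y :: [z]) := by
    apply ds_le hp
    · refine ⟨?_, by simp⟩
      have := hw.1
      rw [hX] at this
      cases X with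
      | nil => simpa using this
      | cons a X => simpa using this
    · rw [walk_append]
      refine ⟨by rw [← hX]; exact hwE, ?_⟩
      unfold WalkIn; simpa using h
  rw [lv_append, ← hX, hl] at h1
  simpa using h1

/-- the rectangle inequality -/
theorem rect {S1 S2 : List V} (hS1 : S1 ≠ []) (hS2 : S2 ≠ []) (k : ℕ)
    {B : Finset (Finset V)} (hB : B ⊆ Q.F)
    (hpar : ∀ t j, 1 ≤ t → t ≤ k → 1 ≤ j → j ≤ k →
      ∑ e ∈ bdF B, (if (∀ x ∈ e, ds Q S1 x < t) ∧ (∃ x ∈ e, ds Q S2 x < j) ∧
        (∃ x ∈ e, j ≤ ds Q S2 x) then (1 : ZMod 2) else 0) = 1) :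
    k ^ 2 ≤ Q.Fp.card := by
  classical
  have hsub : (Finset.Icc 1 k ×ˢ Finset.Icc 1 k) ⊆
      Q.Fp.image (fun s => (s.sup (ds Q S1), s.sup (ds Q S2))) := by
    rintro ⟨t, j⟩ htj
    rw [Finset.mem_product, Finset.mem_Icc, Finset.mem_Icc] at htj
    obtain ⟨⟨ht1, htk⟩, hj1, hjk⟩ := htj
    simp only at ht1 htk hj1 hjk
    have h := hpar t j ht1 htk hj1 hjk
    rw [sum_bdF] at h
    obtain ⟨s, hs, hsne⟩ : ∃ s ∈ B, ∑ e ∈ s.powersetCard 2,
        (if (∀ x ∈ e, ds Q S1 x < t) ∧ (∃ x ∈ e, ds Q S2 x < j) ∧
        (∃ x ∈ e, j ≤ ds Q S2 x) then (1 : ZMod 2) else 0) ≠ 0 := by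
      by_contra hcon
      push Not at hcon
      rw [Finset.sum_eq_zero hcon] at h
      exact absurd h (by decide)
    have hsF : s ∈ Q.F := hB hs
    have hs3 := Q.F_card s hsF
    -- an edge which crosses
    obtain ⟨e, he, hene⟩ := Finset.exists_ne_zero_of_sum_ne_zero hsne
    rw [Finset.mem_powersetCard] at he
    have hcr : (∀ x ∈ e, ds Q S1 x < t) ∧ (∃ x ∈ e, ds Q S2 x < j) ∧
        (∃ x ∈ e, j ≤ ds Q S2 x) := by
      by_contra hcon
      rw [if_neg hcon] at hene
      exact hene rfl
    obtain ⟨hφ, ⟨x, hxe, hx⟩, ⟨y, hye, hy⟩⟩ := hcr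
    have hxs := he.1 hxe
    have hys := he.1 hye
    have hxy : x ≠ y := by rintro rfl; omega
    -- adjacency inside s
    have hadj : ∀ a ∈ s, ∀ b ∈ s, a ≠ b → ({a, b} : Finset V) ∈ Q.E := by
      intro a ha b hb hab
      apply Q.F_E s hsF
      rw [Finset.mem_powersetCard]
      refine ⟨?_, Finset.card_pair hab⟩
      intro c hc
      rw [Finset.mem_insert, Finset.mem_singleton] at hc
      rcases hc with rfl | rfl <;> assumption
    have hcw : ∀ a b : V, cw Q a b ≤ 1 := by
      intro a b; unfold cw; split_ifs <;> omega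
    have hd : ∀ S : List V, S ≠ [] → ∀ a ∈ s, ∀ b ∈ s, ds Q S b ≤ ds Q S a + 1 := by
      intro S hS a ha b hb
      by_cases hab : a = b
      · subst hab; omega
      · have := ds_step (Q := Q) hS (hadj a ha b hb hab)
        have := hcw a b
        omega
    -- a vertex beyond t
    obtain ⟨z, hzs, hz⟩ : ∃ z ∈ s, t ≤ ds Q S1 z := by
      by_contra hcon
      push Not at hcon
      apply hsne
      obtain ⟨a, b, c, hab, hac, hbc, rfl⟩ := Finset.card_eq_three.1 hs3
      have hps : ({a, b, c} : Finset V).powersetCard 2 = {{a, b}, {a, c}, {b, c}} := by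
        ext e'
        rw [Finset.mem_powersetCard]
        constructor
        · rintro ⟨h1, h2⟩
          obtain ⟨p, q, hpq, rfl⟩ := Finset.card_eq_two.1 h2
          have hp : p ∈ ({a, b, c} : Finset V) := h1 (by simp)
          have hq : q ∈ ({a, b, c} : Finset V) := h1 (by simp)
          simp only [Finset.mem_insert, Finset.mem_singleton] at hp hq ⊢
          rcases hp with rfl | rfl | rfl <;> rcases hq with rfl | rfl | rfl <;>
            first
            | exact absurd rfl hpq
            | (left; rfl)
            | (left; exact Finset.pair_comm _ _)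
            | (right; left; rfl)
            | (right; left; exact Finset.pair_comm _ _)
            | (right; right; rfl)
            | (right; right; exact Finset.pair_comm _ _)
        · intro h1
          simp only [Finset.mem_insert, Finset.mem_singleton] at h1
          rcases h1 with rfl | rfl | rfl
          · refine ⟨?_, Finset.card_pair hab⟩
            intro v hv; simp at hv ⊢; tauto
          · refine ⟨?_, Finset.card_pair hac⟩
            intro v hv; simp at hv ⊢; tauto
          · refine ⟨?_, Finset.card_pair hbc⟩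
            intro v hv; simp at hv ⊢; tauto
      have hval : ∀ p ∈ ({a, b, c} : Finset V), ∀ q ∈ ({a, b, c} : Finset V),
          (if (∀ x ∈ ({p, q} : Finset V), ds Q S1 x < t) ∧
            (∃ x ∈ ({p, q} : Finset V), ds Q S2 x < j) ∧
            (∃ x ∈ ({p, q} : Finset V), j ≤ ds Q S2 x) then (1 : ZMod 2) else 0) =
          (if ds Q S2 p < j then 1 else 0) + (if ds Q S2 q < j then 1 else 0) := by
        intro p hp q hq
        have h1 := hcon p hp
        have h2 := hcon q hq
        by_cases hp' : ds Q S2 p < j <;> by_cases hq' : ds Q S2 q < j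
        · rw [if_neg, if_pos hp', if_pos hq']
          · decide
          · rintro ⟨_, _, v, hv, hv'⟩
            simp only [Finset.mem_insert, Finset.mem_singleton] at hv
            rcases hv with rfl | rfl <;> omega
        · rw [if_pos, if_pos hp', if_neg hq']
          · decide
          · refine ⟨?_, ⟨p, by simp, hp'⟩, ⟨q, by simp, by omega⟩⟩
            intro v hv
            simp only [Finset.mem_insert, Finset.mem_singleton] at hv
            rcases hv with rfl | rfl <;> assumption
        · rw [if_pos, if_neg hp', if_pos hq']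
          · decide
          · refine ⟨?_, ⟨q, by simp, hq'⟩, ⟨p, by simp, by omega⟩⟩
            intro v hv
            simp only [Finset.mem_insert, Finset.mem_singleton] at hv
            rcases hv with rfl | rfl <;> assumption
        · rw [if_neg, if_neg hp', if_neg hq']
          · decide
          · rintro ⟨_, ⟨v, hv, hv'⟩, _⟩
            simp only [Finset.mem_insert, Finset.mem_singleton] at hv
            rcases hv with rfl | rfl <;> omega
      have hne1 : ({a, b} : Finset V) ≠ {a, c} := by
        intro h1
        have : b ∈ ({a, c} : Finset V) := h1 ▸ (by simp)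
        simp only [Finset.mem_insert, Finset.mem_singleton] at this
        rcases this with h2 | h2
        · exact hab h2.symm
        · exact hbc h2
      have hne2 : ({a, b} : Finset V) ≠ {b, c} := by
        intro h1
        have : a ∈ ({b, c} : Finset V) := h1 ▸ (by simp)
        simp only [Finset.mem_insert, Finset.mem_singleton] at this
        rcases this with h2 | h2
        · exact hab h2
        · exact hac h2
      have hne3 : ({a, c} : Finset V) ≠ {b, c} := by
        intro h1
        have : a ∈ ({b, c} : Finset V) := h1 ▸ (by simp)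
        simp only [Finset.mem_insert, Finset.mem_singleton] at this
        rcases this with h2 | h2
        · exact hab h2
        · exact hac h2
      rw [hps, Finset.sum_insert (by simp [hne1, hne2]), Finset.sum_insert (by simp [hne3]),
        Finset.sum_singleton, hval a (by simp) b (by simp), hval a (by simp) c (by simp),
        hval b (by simp) c (by simp)]
      generalize (if ds Q S2 a < j then (1 : ZMod 2) else 0) = α
      generalize (if ds Q S2 b < j then (1 : ZMod 2) else 0) = β
      generalize (if ds Q S2 c < j then (1 : ZMod 2) else 0) = γ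
      revert α β γ
      decide
    rw [Finset.mem_image]
    have hxφ := hφ x hxe
    refine ⟨s, ?_, ?_⟩
    · rw [Imm.Fp, Finset.mem_filter]
      refine ⟨hsF, fun hT => ?_⟩
      have h1 : Q.lab x ∈ Q.T := hT (Finset.mem_image_of_mem _ hxs)
      have h2 : Q.lab y ∈ Q.T := hT (Finset.mem_image_of_mem _ hys)
      have h3 := ds_step (Q := Q) hS2 (hadj x hxs y hys hxy)
      have h4 : cw Q x y = 0 := by unfold cw; rw [if_pos ⟨h1, h2⟩]
      omega
    · refine Prod.ext ?_ ?_
      · apply le_antisymm
        · apply Finset.sup_le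
          intro v hv
          have := hd S1 hS1 x hxs v hv
          show ds Q S1 v ≤ t
          omega
        · exact hz.trans (Finset.le_sup (f := ds Q S1) hzs)
      · apply le_antisymm
        · apply Finset.sup_le
          intro v hv
          have := hd S2 hS2 x hxs v hv
          show ds Q S2 v ≤ j
          omega
        · exact hy.trans (Finset.le_sup (f := ds Q S2) hys)
  have h1 := Finset.card_le_card hsub
  rw [Finset.card_product, Nat.card_Icc] at h1
  have h2 : (Q.Fp.image (fun s => (s.sup (ds Q S1), s.sup (ds Q S2)))).card ≤ Q.Fp.card :=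
    Finset.card_image_le
  have h3 : (k + 1 - 1) * (k + 1 - 1) = k ^ 2 := by
    rw [Nat.add_sub_cancel]; ring
  omega

end Dist

end RectQ

open RectQ

variable {V : Type} [Fintype V] [DecidableEq V] {n : ℕ} (Q : Imm V n)

/-- the inequality for four arcs -/
theorem RectQ.four {A1 A2 A3 B3 : List V} {z1 z2 z3 : V} (u : List V) (hc : ClosedW u)
    (hw : WalkIn Q.E u) {B1 B2 : List V} (h1 : u = A1 ++ z1 :: B1) (h2 : z1 :: B1 = A2 ++ z2 :: B2)
    (h3 : z2 :: B2 = A3 ++ z3 :: B3) (k : ℕ)
    (hk1 : ∀ y ∈ A3 ++ [z3], k ≤ ds Q (A1 ++ [z1]) y)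
    (hk2 : ∀ y ∈ z3 :: B3, k ≤ ds Q (A2 ++ [z2]) y) : k ^ 2 ≤ Q.Fp.card := by
  obtain ⟨B, hBF, hB⟩ := Q.h1 (oddE u) (oddE_sub hw) (oddE_even Q.E_card hw hc)
  apply rect (Q := Q) (S1 := A1 ++ [z1]) (S2 := A2 ++ [z2]) (by simp) (by simp) k hBF
  intro t j ht1 htk hj1 hjk
  rw [hB, sum_oddE]
  set cc : Finset V → ZMod 2 := fun e => if (∀ x ∈ e, ds Q (A1 ++ [z1]) x < t) ∧
    (∃ x ∈ e, ds Q (A2 ++ [z2]) x < j) ∧ (∃ x ∈ e, j ≤ ds Q (A2 ++ [z2]) x) then (1 : ZMod 2) else 0
    with hcc
  have hu : sv cc u = sv cc (A1 ++ [z1]) + (sv cc (A2 ++ [z2]) + (sv cc (A3 ++ [z3]) +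
      sv cc (z3 :: B3))) := by
    rw [h1, sv_append cc A1 z1 B1, h2, sv_append cc A2 z2 B2, h3, sv_append cc A3 z3 B3]
  -- endpoints
  have hhead : (A1 ++ [z1]).head? = u.head? := by
    rw [h1]; cases A1 <;> simp
  have hlast : u.getLast? = (z3 :: B3).getLast? := by
    rw [h1, h2, h3, List.getLast?_append_of_ne_nil _ (by simp),
      List.getLast?_append_of_ne_nil _ (by simp), List.getLast?_append_of_ne_nil _ (by simp)]
  obtain ⟨p, hp⟩ : ∃ p, (A1 ++ [z1]).head? = some p := by
    cases A1 with
    | nil => exact ⟨z1, rfl⟩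
    | cons a A => exact ⟨a, rfl⟩
  have hp4 : p ∈ z3 :: B3 := by
    have h4 : (z3 :: B3).getLast? = some p := by
      rw [← hlast, ← hc.2, ← hhead, hp]
    exact List.mem_of_getLast? h4
  have hz1 : z1 ∈ A2 ++ [z2] := by
    cases A2 with
    | nil => simp only [List.nil_append, List.cons.injEq] at h2; simp [h2.1]
    | cons a A => simp only [List.cons_append, List.cons.injEq] at h2; simp [h2.1]
  have s1 : sv cc (A1 ++ [z1]) = 1 := by
    rw [sv_tele (fun y => if ds Q (A2 ++ [z2]) y < j then (1 : ZMod 2) else 0) cc (A1 ++ [z1])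
      ?_ p z1 ⟨hp, by simp⟩]
    · have e1 : ¬ ds Q (A2 ++ [z2]) p < j := by
        have := hk2 p hp4
        omega
      have e2 : ds Q (A2 ++ [z2]) z1 < j := by rw [ds_zero hz1]; omega
      simp only [if_neg e1, if_pos e2]; decide
    · -- chain condition
      have hall : ∀ y ∈ A1 ++ [z1], ds Q (A1 ++ [z1]) y < t := fun y hy => by
        rw [ds_zero hy]; omega
      generalize A1 ++ [z1] = S at hall hcc
      have key : ∀ w : List V, (∀ y ∈ w, ds Q S y < t) →
          w.IsChain (fun x y => cc {x, y} = (if ds Q (A2 ++ [z2]) x < j then (1 : ZMod 2) else 0) +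
            if ds Q (A2 ++ [z2]) y < j then (1 : ZMod 2) else 0) := by
        intro w
        induction w with
        | nil => intro _; simp
        | cons a w ih =>
          intro hw'
          cases w with
          | nil => simp
          | cons b w =>
            rw [List.isChain_cons_cons]
            refine ⟨?_, ih (fun y hy => hw' y (List.mem_cons_of_mem _ hy))⟩
            have ha := hw' a (by simp)
            have hb := hw' b (by simp)
            rw [hcc]
            by_cases hp' : ds Q (A2 ++ [z2]) a < j <;> by_cases hq' : ds Q (A2 ++ [z2]) b < j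
            · simp only []
              rw [if_neg, if_pos hp', if_pos hq']
              · decide
              · rintro ⟨_, _, v, hv, hv'⟩
                simp only [Finset.mem_insert, Finset.mem_singleton] at hv
                rcases hv with rfl | rfl <;> omega
            · simp only []
              rw [if_pos, if_pos hp', if_neg hq']
              · decide
              · refine ⟨?_, ⟨a, by simp, hp'⟩, ⟨b, by simp, by omega⟩⟩
                intro v hv
                simp only [Finset.mem_insert, Finset.mem_singleton] at hv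
                rcases hv with rfl | rfl <;> assumption
            · simp only []
              rw [if_pos, if_neg hp', if_pos hq']
              · decide
              · refine ⟨?_, ⟨b, by simp, hq'⟩, ⟨a, by simp, by omega⟩⟩
                intro v hv
                simp only [Finset.mem_insert, Finset.mem_singleton] at hv
                rcases hv with rfl | rfl <;> assumption
            · simp only []
              rw [if_neg, if_neg hp', if_neg hq']
              · decide
              · rintro ⟨_, ⟨v, hv, hv'⟩, _⟩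
                simp only [Finset.mem_insert, Finset.mem_singleton] at hv
                rcases hv with rfl | rfl <;> omega
      exact key S hall
  have zero : ∀ w : List V, (∀ y ∈ w, (¬ ds Q (A1 ++ [z1]) y < t)) ∨
      (∀ y ∈ w, ds Q (A2 ++ [z2]) y < j) ∨ (∀ y ∈ w, j ≤ ds Q (A2 ++ [z2]) y) → sv cc w = 0 := by
    intro w hw'
    apply sv_zero
    induction w with
    | nil => simp
    | cons a w ih =>
      cases w with
      | nil => simp
      | cons b w =>
        rw [List.isChain_cons_cons]
        refine ⟨?_, ih ?_⟩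
        · rw [hcc]
          simp only []
          rw [if_neg]
          rintro ⟨g1, ⟨x, hx, hx'⟩, ⟨y, hy, hy'⟩⟩
          have hmem : ∀ v ∈ ({a, b} : Finset V), v ∈ a :: b :: w := by
            intro v hv
            simp only [Finset.mem_insert, Finset.mem_singleton] at hv
            rcases hv with rfl | rfl <;> simp
          rcases hw' with h | h | h
          · exact h a (by simp) (g1 a (by simp))
          · have := h y (hmem y hy); omega
          · have := h x (hmem x hx); omega
        · rcases hw' with h | h | h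
          · exact Or.inl fun y hy => h y (List.mem_cons_of_mem _ hy)
          · exact Or.inr (Or.inl fun y hy => h y (List.mem_cons_of_mem _ hy))
          · exact Or.inr (Or.inr fun y hy => h y (List.mem_cons_of_mem _ hy))
  have s2 : sv cc (A2 ++ [z2]) = 0 := zero _ (Or.inr (Or.inl fun y hy => by
    rw [ds_zero hy]; omega))
  have s3 : sv cc (A3 ++ [z3]) = 0 := zero _ (Or.inl fun y hy => by
    have := hk1 y hy; omega)
  have s4 : sv cc (z3 :: B3) = 0 := zero _ (Or.inr (Or.inr fun y hy => by
    have := hk2 y hy; omega))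
  rw [hu, s1, s2, s3, s4]
  decide

theorem Imm.shortcut (u : List V) (hc : ClosedW u) (hw : WalkIn Q.E u) :
    ∃ (a b c : List V) (p q : V), FT a p q ∧ FT b q p ∧ FT c p q ∧
      WalkIn Q.E a ∧ WalkIn Q.E b ∧ WalkIn Q.E c ∧ RotW u (cat a b) ∧
      len Q.T (u.map Q.lab) / 4 ≤ len Q.T (a.map Q.lab) ∧
      len Q.T (u.map Q.lab) / 4 ≤ len Q.T (b.map Q.lab) ∧
      (len Q.T (c.map Q.lab)) ^ 2 ≤ Q.Fp.card := by
  simp only [len_map]
  have hcw : ∀ x y, cw Q x y ≤ 1 := by intro x y; unfold cw; split_ifs <;> omega
  set l := lv (cw Q) u with hl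
  set m := l / 4 with hm
  obtain ⟨A1, z1, B1, h1, l1⟩ := exists_split (cw Q) hcw u hc.1 m (by omega)
  have hl1 : lv (cw Q) (z1 :: B1) = l - m := by
    have := lv_append (cw Q) A1 z1 B1
    rw [← h1, l1] at this; omega
  obtain ⟨A2, z2, B2, h2, l2⟩ := exists_split (cw Q) hcw (z1 :: B1) (by simp) m (by omega)
  have hl2 : lv (cw Q) (z2 :: B2) = l - m - m := by
    have := lv_append (cw Q) A2 z2 B2
    rw [← h2, l2] at this; omega
  obtain ⟨A3, z3, B3, h3, l3⟩ := exists_split (cw Q) hcw (z2 :: B2) (by simp) m (by omega)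
  have hl3 : lv (cw Q) (z3 :: B3) = l - m - m - m := by
    have := lv_append (cw Q) A3 z3 B3
    rw [← h3, l3] at this; omega
  -- nearest points
  obtain ⟨q1, hq1, hq1min⟩ := Finset.exists_min_image (A3 ++ [z3]).toFinset
    (ds Q (A1 ++ [z1])) ⟨z3, by simp⟩
  obtain ⟨q2, hq2, hq2min⟩ := Finset.exists_min_image (z3 :: B3).toFinset
    (ds Q (A2 ++ [z2])) ⟨z3, by simp⟩
  rw [List.mem_toFinset] at hq1 hq2
  have hrect := RectQ.four Q u hc hw h1 h2 h3
    (min (ds Q (A1 ++ [z1]) q1) (ds Q (A2 ++ [z2]) q2))
    (fun y hy => (min_le_left _ _).trans (hq1min y (List.mem_toFinset.2 hy)))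
    (fun y hy => (min_le_right _ _).trans (hq2min y (List.mem_toFinset.2 hy)))
  -- last element of a nonempty list
  have hlastS : ∀ (P P' : List V) (p z : V) (A : List V), A ++ [z] = P ++ p :: P' →
      ∃ P'', p :: P' = P'' ++ [z] := by
    intro P P' p z A h
    rcases List.eq_nil_or_concat (p :: P') with h0 | ⟨X, x, h0⟩
    · exact absurd h0 (by simp)
    · rw [List.concat_eq_append] at h0
      have h5 : (A ++ [z]).getLast? = (P ++ p :: P').getLast? := by rw [h]
      rw [h0] at h5
      simp at h5
      exact ⟨X, by rw [h0, h5]⟩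
  rcases le_total (ds Q (A1 ++ [z1]) q1) (ds Q (A2 ++ [z2]) q2) with hle | hle
  · rw [min_eq_left hle] at hrect
    obtain ⟨c, p, hp, hFT, hcE, hcl⟩ := ds_spec (Q := Q) (S := A1 ++ [z1]) (by simp) q1
    obtain ⟨P, P', hPP⟩ := List.append_of_mem hp
    obtain ⟨R, R', hRR⟩ := List.append_of_mem hq1
    obtain ⟨P'', hP''⟩ := hlastS P P' p z1 A1 hPP
    obtain ⟨R'', hR''⟩ := hlastS R R' q1 z3 A3 hRR
    have hu : u = P ++ p :: (P' ++ B1) := by
      rw [h1]
      have : A1 ++ z1 :: B1 = (A1 ++ [z1]) ++ B1 := by simp
      rw [this, hPP]; simp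
    have hpB : p :: (P' ++ B1) = (P'' ++ A2 ++ R) ++ q1 :: (R' ++ B3) := by
      have e1 : p :: (P' ++ B1) = P'' ++ (z1 :: B1) := by
        have : p :: (P' ++ B1) = (p :: P') ++ B1 := by simp
        rw [this, hP'']; simp
      rw [e1, h2, h3]
      have e2 : A3 ++ z3 :: B3 = (A3 ++ [z3]) ++ B3 := by simp
      rw [e2, hRR]; simp
    rw [hu] at hc hw
    obtain ⟨b, f1, f2, f3, f4, f5, f6⟩ := cut_closed (cw Q) hc hw hpB
    refine ⟨_, b, c, p, q1, f1, f2, hFT, f3, f4, hcE, ?_, ?_, ?_, ?_⟩
    · rw [hu]; exact f5
    · rw [← l2]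
      apply lv_infix
      -- head of R ++ [q1] is z2
      obtain ⟨R0, hR0⟩ : ∃ R0, R ++ [q1] = z2 :: R0 := by
        have e3 : z2 :: B2 = R ++ q1 :: (R' ++ B3) := by
          rw [h3]
          have e2 : A3 ++ z3 :: B3 = (A3 ++ [z3]) ++ B3 := by simp
          rw [e2, hRR]; simp
        cases R with
        | nil =>
          simp only [List.nil_append, List.cons.injEq] at e3
          exact ⟨[], by simp [e3.1]⟩
        | cons r R =>
          simp only [List.cons_append, List.cons.injEq] at e3
          exact ⟨R ++ [q1], by simp [e3.1]⟩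
      refine ⟨P'', R0, ?_⟩
      have : P'' ++ A2 ++ R ++ [q1] = P'' ++ A2 ++ (R ++ [q1]) := by simp
      rw [this, hR0]; simp
    · rw [f6]
      have : lv (cw Q) (z3 :: B3) ≤ lv (cw Q) (q1 :: (R' ++ B3)) := by
        apply lv_infix
        refine ⟨R'', [], ?_⟩
        have : q1 :: (R' ++ B3) = (q1 :: R') ++ B3 := by simp
        rw [this, hR'']; simp
      omega
    · rw [hcl]; exact hrect
  · rw [min_eq_right hle] at hrect
    obtain ⟨c, p, hp, hFT, hcE, hcl⟩ := ds_spec (Q := Q) (S := A2 ++ [z2]) (by simp) q2
    obtain ⟨P, P', hPP⟩ := List.append_of_mem hp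
    obtain ⟨R, R', hRR⟩ := List.append_of_mem hq2
    obtain ⟨P'', hP''⟩ := hlastS P P' p z2 A2 hPP
    have hu : u = (A1 ++ P) ++ p :: (P' ++ B2) := by
      rw [h1, h2]
      have : A2 ++ z2 :: B2 = (A2 ++ [z2]) ++ B2 := by simp
      rw [this, hPP]; simp
    have hpB : p :: (P' ++ B2) = (P'' ++ A3 ++ R) ++ q2 :: R' := by
      have e1 : p :: (P' ++ B2) = P'' ++ (z2 :: B2) := by
        have : p :: (P' ++ B2) = (p :: P') ++ B2 := by simp
        rw [this, hP'']; simp
      rw [e1, h3, hRR]; simp
    rw [hu] at hc hw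
    obtain ⟨b, f1, f2, f3, f4, f5, f6⟩ := cut_closed (cw Q) hc hw hpB
    refine ⟨_, b, c, p, q2, f1, f2, hFT, f3, f4, hcE, ?_, ?_, ?_, ?_⟩
    · rw [hu]; exact f5
    · rw [← l3]
      apply lv_infix
      obtain ⟨R0, hR0⟩ : ∃ R0, R ++ [q2] = z3 :: R0 := by
        cases R with
        | nil =>
          simp only [List.nil_append, List.cons.injEq] at hRR
          exact ⟨[], by simp [hRR.1]⟩
        | cons r R =>
          simp only [List.cons_append, List.cons.injEq] at hRR
          exact ⟨R ++ [q2], by simp [hRR.1]⟩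
      refine ⟨P'', R0, ?_⟩
      have : P'' ++ A3 ++ R ++ [q2] = P'' ++ A3 ++ (R ++ [q2]) := by simp
      rw [this, hR0]; simp
    · rw [f6]
      have : lv (cw Q) (A1 ++ [z1]) ≤ lv (cw Q) (A1 ++ P ++ [p]) := by
        apply lv_infix
        obtain ⟨R0, hR0⟩ : ∃ R0, P ++ [p] = z1 :: R0 := by
          have e3 : z1 :: B1 = P ++ p :: (P' ++ B2) := by
            rw [h2]
            have e2 : A2 ++ z2 :: B2 = (A2 ++ [z2]) ++ B2 := by simp
            rw [e2, hPP]; simp
          cases P with
          | nil =>
            simp only [List.nil_append, List.cons.injEq] at e3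
            exact ⟨[], by simp [e3.1]⟩
          | cons r R =>
            simp only [List.cons_append, List.cons.injEq] at e3
            exact ⟨R ++ [p], by simp [e3.1]⟩
        refine ⟨[], R0, ?_⟩
        have : A1 ++ P ++ [p] = A1 ++ (P ++ [p]) := by simp
        rw [this, hR0]; simp
      omega
    · rw [hcl]; exact hrect

end Pool.Agent.SC
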