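import Pool.Agent.Lib.MP_d0323d_co.Fill
import Pool.Agent.Lib.MP_d0323d_co.Diag
import Pool.Agent.Lib.MP_d0323d_co.LI
import Pool.Agent.Lib.MP_d0323d_co.RectQ
import Pool.Agent.Lib.MP_d0323d_co.Glue
import Pool.Agent.Lib.MP_d0323d_co.CutPeel
import Pool.Agent.Lib.MP_d0323d_co.NormCl
import Pool.Agent.Lib.MP_d0323d_co.Glob
/-! Module LOWERDET (6.3, 7.4, 8.8, 8.9): assembly of the deterministic lower side. -/
set_option autoImplicit false
namespace Pool.Agent.SC
open Finset

/-- `r` of 7.2 -/
noncomputable def rr (K : ℝ) : ℕ := ⌈10 ^ 4 * 28450 * K⌉₊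
/-- `N` of 7.2 -/
noncomputable def NN (K : ℝ) : ℕ := 28450 * (⌊K * rr K⌋₊ + 1)

/-- polygons -/
def Polyg {n : ℕ} (Y : Finset (Finset (Fin n))) (T : Finset (Fin n)) (K : ℝ) (p : List (Fin n)) :
    Prop := len T p ≤ rr K ∧ FSle Y T p ⌊K * rr K⌋₊

theorem polyg_ok {n : ℕ} (Y : Finset (Finset (Fin n))) (T : Finset (Fin n)) (K : ℝ) :
    PolOK (Polyg Y T K) where
  closed w h := h.2.clos
  rev w h := ⟨by rw [len_reverse]; exact h.1, h.2.rev⟩
  rot w w' h hr := ⟨by rw [hr.len T h.2.clos.1]; exact h.1, h.2.rot hr⟩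

/-! generic list lemmas -/
section lists
variable {β γ : Type*}

theorem ft_ne {w : List β} {p q : β} (h : FT w p q) : w ≠ [] := by
  rintro rfl; simp [FT] at h

theorem chain_cat {R : β → β → Prop} {a b : List β} {p q r : β} (ha : FT a p q) (hb : FT b q r)
    (h1 : a.IsChain R) (h2 : b.IsChain R) : (cat a b).IsChain R := by
  unfold cat
  obtain ⟨x, b', rfl⟩ := List.exists_cons_of_ne_nil (ft_ne hb)
  have hx : x = q := by simpa [FT] using hb.1
  subst hx
  simp only [List.tail_cons]
  rw [List.isChain_append]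
  refine ⟨h1, ?_, ?_⟩
  · cases b' with
    | nil => simp
    | cons y l => exact (List.isChain_cons_cons.mp h2).2
  · intro u hu v hv
    rw [ha.2] at hu
    simp at hu
    subst hu
    cases b' with
    | nil => simp at hv
    | cons y l =>
      simp at hv
      subst hv
      exact (List.isChain_cons_cons.mp h2).1

theorem chain_reverse {R : β → β → Prop} (hs : ∀ a b, R a b → R b a) {a : List β}
    (h : a.IsChain R) : a.reverse.IsChain R := by
  rw [List.isChain_reverse]
  exact h.imp (fun a b hab => hs a b hab)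

theorem ft_map (f : β → γ) {a : List β} {p q : β} (h : FT a p q) : FT (a.map f) (f p) (f q) := by
  refine ⟨?_, ?_⟩
  · rw [List.head?_map, h.1]; rfl
  · rw [List.getLast?_map, h.2]; rfl

theorem ft_rev {a : List β} {p q : β} (h : FT a p q) : FT a.reverse q p := by
  refine ⟨?_, ?_⟩
  · rw [List.head?_reverse]; exact h.2
  · rw [List.getLast?_reverse]; exact h.1

theorem ft_cat {a b : List β} {p q r : β} (ha : FT a p q) (hb : FT b q r) : FT (cat a b) p r := by
  unfold cat
  obtain ⟨x, b', rfl⟩ := List.exists_cons_of_ne_nil (ft_ne hb)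
  obtain ⟨y, a', rfl⟩ := List.exists_cons_of_ne_nil (ft_ne ha)
  have hx : x = q := by simpa [FT] using hb.1
  subst hx
  refine ⟨by simpa [FT] using ha.1, ?_⟩
  simp only [List.tail_cons]
  cases b' with
  | nil =>
    have : x = r := by simpa [FT] using hb.2
    subst this
    simpa using ha.2
  | cons z l =>
    rw [List.getLast?_append_of_ne_nil _ (by simp)]
    have := hb.2
    simpa [List.getLast?_cons_cons] using this

theorem map_cat (f : β → γ) (a b : List β) : (cat a b).map f = cat (a.map f) (b.map f) := by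
  simp [cat, List.map_tail]

theorem rotw_map (f : β → γ) {w w' : List β} (h : RotW w w') : RotW (w.map f) (w'.map f) := by
  rcases h with h | ⟨x, y, u, v, h1, h2, h3⟩
  · left; rw [h]
  · right
    refine ⟨f x, f y, u.map f, v.map f, by rw [h1]; simp, ?_, by rw [h3]; simp⟩
    refine ⟨by simpa using h2.1, ?_⟩
    rw [List.head?_map, List.getLast?_map, h2.2]

theorem closed_of_ft {w : List β} {p : β} (h : FT w p p) : ClosedW w :=
  ⟨ft_ne h, by rw [h.1, h.2]⟩

end lists

theorem walkin_map_labw {V : Type} [DecidableEq V] [Fintype V] {n : ℕ} (Q : Imm V n) {u : List V}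
    (h : WalkIn Q.E u) : LabW (u.map Q.lab) := by
  unfold LabW WalkIn at *
  rw [List.isChain_map]
  refine h.imp (fun a b hab => ?_)
  intro hl
  have hab2 := Q.E_card _ hab
  have hne : a ≠ b := by
    rintro rfl
    simp at hab2
  exact hne (Q.E_lab _ hab (by simp) (by simp) hl)

theorem lower_det {n : ℕ} {Y : Finset (Finset (Fin n))} (hY : Y ⊆ tri n) {T Ts : Finset (Fin n)}
    (x0 x1 x2 : Fin n) (h0 : x0.val = 0) (h1 : x1.val = 1) (h2 : x2.val = 2)
    (hT0 : x0 ∉ T) (hT1 : x1 ∉ T) (hT2 : x2 ∉ T) (hTs : Ts = T ∪ {x0, x1, x2})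
    {ell eta Lam : ℝ} (hell : 1 ≤ ell) (heta : 0 < eta) (heta1 : eta ≤ 1) (hLam : 0 ≤ Lam)
    (hP : PropP Y T Ts ell eta Lam (NN (16 * ell / eta))) (D0 : ℕ) (hD0 : 1 ≤ D0)
    (hA : Lam * 10 ^ 5 * Ts.card * ((Nat.log 2 (NN (16 * ell / eta)) + 1 : ℕ) : ℝ) ^ 2 / 2 * D0
      ≤ ell / 2)
    (hB : Lam * 10 ^ 5 * Ts.card * ((Nat.log 2 (NN (16 * ell / eta)) + 1 : ℕ) : ℝ) ^ 2 / 2 / D0
      ≤ eta / 8)
    (hC : 24 * (Lam * 10 ^ 5 * Ts.card * ((Nat.log 2 (NN (16 * ell / eta)) + 1 : ℕ) : ℝ) ^ 2 / 2)
      < ell) : ¬ Triv n Y := by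
  intro hTriv
  obtain ⟨K, hK⟩ : ∃ K : ℝ, K = 16 * ell / eta := ⟨_, rfl⟩
  rw [← hK] at hP hA hB hC
  obtain ⟨r, hr⟩ : ∃ r : ℕ, r = rr K := ⟨_, rfl⟩
  obtain ⟨N, hN⟩ : ∃ N : ℕ, N = NN K := ⟨_, rfl⟩
  rw [← hN] at hP hA hB hC
  obtain ⟨Lp, hLp⟩ : ∃ Lp : ℝ, Lp = Lam * 10 ^ 5 * Ts.card * ((Nat.log 2 N + 1 : ℕ) : ℝ) ^ 2 / 2 :=
    ⟨_, rfl⟩
  rw [← hLp] at hA hB hC
  have hLp0 : 0 ≤ Lp := by rw [hLp]; positivity
  have hK16 : 16 ≤ K := by
    rw [hK, le_div_iff₀ heta]; nlinarith
  have hx01 : x0 ≠ x1 := by intro h; rw [h] at h0; omega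
  have hx02 : x0 ≠ x2 := by intro h; rw [h] at h0; omega
  have hx12 : x1 ≠ x2 := by intro h; rw [h] at h1; omega
  have hTsub : T ⊆ Ts := by rw [hTs]; exact subset_union_left
  have h3 : 3 ≤ Ts.card := by
    have : ({x0, x1, x2} : Finset (Fin n)) ⊆ Ts := by rw [hTs]; exact subset_union_right
    have h3' : ({x0, x1, x2} : Finset (Fin n)).card = 3 := by
      rw [Finset.card_eq_three]; exact ⟨x0, x1, x2, hx01, hx02, hx12, rfl⟩
    rw [← h3']; exact card_le_card this
  have hYf : IsFam Y := fun s hs => by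
    have := hY hs; simpa [tri] using this
  have hrK : 10 ^ 4 * 28450 * K ≤ (r : ℝ) := by rw [hr]; exact Nat.le_ceil _
  have hr1000 : 1000 ≤ r := by
    have : (1000 : ℝ) ≤ r := by nlinarith
    exact_mod_cast this
  have hNm : 28450 * ⌊K * r⌋₊ ≤ N := by
    rw [hN, NN, ← hr]
    exact Nat.mul_le_mul_left _ (Nat.le_succ _)
  -- linear isoperimetry
  have LI : ∀ w : List (Fin n), FSle Y T w N →
      ∃ (V : Type) (_ : Fintype V) (_ : DecidableEq V) (Q : Imm V n) (u : List V),
        Q.T = T ∧ Q.Ts = Ts ∧ ClosedW u ∧ WalkIn Q.E u ∧ u.map Q.lab = w ∧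
        Q.W = u.toFinset ∧ Q.lp = len T w ∧ Q.Fp.card ≤ N ∧
        (∀ u' : List V, ClosedW u' → WalkIn Q.E u' → FSle Y T (u'.map Q.lab) Q.Fp.card) ∧
        eta / 8 * (Q.Fp.card : ℝ) + ell / 2 * ((Q.cT : ℝ) / 12) ≤ ell * Q.ls + Lp * Q.lp ∧
        (Q.Fp.card : ℝ) ≤ K * len T w := by
    intro w hw
    obtain ⟨V, i1, i2, Q, u, hQT, hQTs, hu1, hu2, hu3, hW, htr, hlp, hcard, hlab, hsub⟩ :=
      hw.minimal hTsub h3 (fun s hs => hYf s hs)
    have hli := Q.LI hcard hYf hlab (lt_of_lt_of_le one_pos hell) heta hLam (by rw [hQT, hQTs]; exact hP) D0 hD0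
      (by rw [hQTs, ← hLp]; exact hA) (by rw [hQTs, ← hLp]; exact hB)
    rw [hQTs, ← hLp] at hli
    refine ⟨V, i1, i2, Q, u, hQT, hQTs, hu1, hu2, hu3, hW, hlp, hcard, hsub, hli, ?_⟩
    have hls : Q.ls ≤ Q.lp := by
      refine le_trans (card_le_card ?_) Q.W_lp
      intro y hy
      simp only [mem_filter] at hy ⊢
      obtain ⟨hy1, hy2, hy3⟩ := hy
      refine ⟨hy3, hy2, ?_⟩
      rw [mem_verts] at hy1
      obtain ⟨s, hs, hys⟩ := hy1
      exact ⟨s, (mem_filter.mp hs).1, hys⟩
    have hls' : (Q.ls : ℝ) ≤ Q.lp := by exact_mod_cast hls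
    rw [← hlp]
    have hcT : 0 ≤ ell / 2 * ((Q.cT : ℝ) / 12) := by positivity
    have hLpell : Lp ≤ ell := by linarith
    have hlp0 : (0 : ℝ) ≤ Q.lp := by positivity
    have h5 : eta / 8 * (Q.Fp.card : ℝ) ≤ 2 * ell * Q.lp := by nlinarith
    rw [hK, div_mul_eq_mul_div, le_div_iff₀ heta]
    nlinarith
  have FSK : ∀ w : List (Fin n), FSle Y T w N → FSle Y T w ⌊K * len T w⌋₊ := by
    intro w hw
    obtain ⟨V, i1, i2, Q, u, hQT, hQTs, hu1, hu2, hu3, hW, hlp, hcard, hsub, hli, hb⟩ := LI w hw
    have := hsub u hu1 hu2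
    rw [hu3] at this
    exact this.mono (Nat.le_floor hb)
  have hPol := polyg_ok Y T K
  have theta : ∀ {a b c : List (Fin n)} {p q : Fin n} {k1 k2 : ℕ}, FT a p q → FT b q p →
      FT c p q → LabW c → PLe (Polyg Y T K) (cat a c.reverse) k1 →
      PLe (Polyg Y T K) (cat c b) k2 → PLe (Polyg Y T K) (cat a b) (k1 + k2) := by
    intro a b c p q k1 k2 ha hb hc hlc g1 g2
    exact theta_of_zip (PLe (Polyg Y T K))
      (fun w1 w2 k1 k2 p h1 h2 h3 h4 => PLe.wedge h1 h2 h3 h4)
      (fun u v x y k h => h.zipp) ha hb hc hlc g1 g2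
  -- local range
  have LOC := loc_abstract (fun w : List (Fin n) => FSle Y T w N)
    (fun w k => PLe (Polyg Y T K) w k) (fun w => len T w) r (28450 * r) hr1000
    (by
      intro w hw hl
      refine PLe.pol hPol ⟨by rw [← hr]; exact hl, (FSK w hw).mono ?_⟩
      rw [← hr]
      refine Nat.floor_le_floor ?_
      have : (len T w : ℝ) ≤ r := by exact_mod_cast hl
      nlinarith)
    (by
      intro w hw hl1 hl2
      obtain ⟨V, i1, i2, Q, u, hQT, hQTs, hu1, hu2, hu3, hW, hlp, hcard, hsub, hli, hb⟩ := LI w hw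
      obtain ⟨a, b, c, p, q, ha, hb', hc, wa, wb, wc, hrot, l1, l2, l3⟩ := Q.shortcut u hu1 hu2
      have hsym : ∀ a b : V, (({a, b} : Finset V) ∈ Q.E) → (({b, a} : Finset V) ∈ Q.E) := by
        intro a b h; rwa [Finset.pair_comm]
      have w1w : WalkIn Q.E (cat a c.reverse) := chain_cat ha (ft_rev hc) wa (chain_reverse hsym wc)
      have w2w : WalkIn Q.E (cat c b) := chain_cat hc hb' wc wb
      have c1 : ClosedW (cat a c.reverse) := closed_of_ft (ft_cat ha (ft_rev hc))
      have c2 : ClosedW (cat c b) := closed_of_ft (ft_cat hc hb')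
      have ha' := ft_map Q.lab ha
      have hb'' := ft_map Q.lab hb'
      have hc' := ft_map Q.lab hc
      have hrot' : RotW w (cat (a.map Q.lab) (b.map Q.lab)) := by
        have := rotw_map Q.lab hrot
        rwa [hu3, map_cat] at this
      have hwcl := hw.clos
      rw [hQT] at l1 l2 l3
      rw [hu3] at l1 l2
      have hlen : len T (cat (a.map Q.lab) (b.map Q.lab)) = len T w := hrot'.len T hwcl.1
      rw [len_cat ha' hb''] at hlen
      refine ⟨(cat a c.reverse).map Q.lab, (cat c b).map Q.lab, len T (a.map Q.lab),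
        len T (b.map Q.lab), len T (c.map Q.lab), (hsub _ c1 w1w).mono hcard,
        (hsub _ c2 w2w).mono hcard, l1, l2, hlen, ?_, ?_, ?_, ?_⟩
      · rw [map_cat, len_cat ha' (by rw [List.map_reverse]; exact ft_rev hc'), List.map_reverse,
          len_reverse]
      · rw [map_cat, len_cat hc' hb'']; ring
      · have g1 : ((len T (c.map Q.lab) : ℝ)) ^ 2 ≤ Q.Fp.card := by exact_mod_cast l3
        have g2 : (len T w : ℝ) ≤ 28450 * r := by exact_mod_cast hl2
        have g3 : (100 * (len T (c.map Q.lab) : ℝ)) ^ 2 ≤ (r : ℝ) ^ 2 := by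
          have hK0 : 0 ≤ K := by linarith
          have : (Q.Fp.card : ℝ) ≤ K * (28450 * r) := le_trans hb (by nlinarith)
          have hr0 : (0 : ℝ) ≤ r := by positivity
          nlinarith
        have g4 := abs_le_of_sq_le_sq' g3 (by positivity)
        have : 100 * (len T (c.map Q.lab) : ℝ) ≤ r := g4.2
        exact_mod_cast this
      · intro k1 k2 hk1 hk2
        rw [map_cat, List.map_reverse] at hk1
        rw [map_cat] at hk2
        have := theta ha' hb'' hc' (walkin_map_labw Q wc) hk1 hk2
        exact this.rot (hrot'.symm hwcl.1))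
  have hm : ∀ p, Polyg Y T K p → FSle Y T p ⌊K * r⌋₊ := fun p hp => by rw [hr]; exact hp.2
  have hlenP : ∀ p, Polyg Y T K p → len T p ≤ r := fun p hp => by rw [hr]; exact hp.1
  have toN : ∀ w s, s ≤ 28450 → PLe (Polyg Y T K) w s → FSle Y T w N := by
    intro w s hs h
    refine (fsle_of_ple h hm).mono (le_trans ?_ hNm)
    exact Nat.mul_le_mul_right _ hs
  have exPEq : ∀ w s, PLe (Polyg Y T K) w s → ∃ s' ≤ s, PEq (Polyg Y T K) w s' := by
    intro w s h
    classical
    have hex : ∃ k, PLe (Polyg Y T K) w k := ⟨s, h⟩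
    exact ⟨Nat.find hex, Nat.find_min' hex h, Nat.find_spec hex, fun j hj => Nat.find_min hex hj⟩
  -- global range
  have GLOB := glob_abstract (fun (w : List (Fin n)) (s : ℕ) => PEq (Polyg Y T K) w s)
    (fun w => len T w) r (by omega)
    (by
      intro w s s' hs hs'
      by_contra hne
      rcases lt_or_gt_of_ne hne with h | h
      · exact hs'.2 s h hs.1
      · exact hs.2 s' h hs'.1)
    (by
      intro w s hs hs1 hs2
      have hr0 : (0 : ℝ) < r := by
        have : (1000 : ℝ) ≤ r := by exact_mod_cast hr1000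
        linarith
      by_cases hl : len T w ≤ 28450 * r
      · obtain ⟨k, hk1, hk2, hk3⟩ := LOC w (toN w s hs2 hs.1) hl
        have hsk : s ≤ k := by
          by_contra hlt
          exact hs.2 k (by omega) hk1
        by_cases hl2 : len T w ≤ r
        · have := hk2 hl2; omega
        · have h5 := hk3 (by omega)
          have h6 : (s : ℝ) ≤ k := by exact_mod_cast hsk
          have h7 : 8 * (len T w : ℝ) / r = 8 * ((len T w : ℝ) / r) := by ring
          rw [h7] at h5
          linarith
      · have h5 : (28450 : ℝ) * r ≤ len T w := by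
          have : 28450 * r ≤ len T w := by omega
          exact_mod_cast this
        have h6 : (s : ℝ) ≤ 28450 := by exact_mod_cast hs2
        rw [le_div_iff₀ hr0]
        nlinarith)
    (by
      intro w s hs1 hs
      exact PEq.peel hPol hlenP hs1 hs)
    (by
      intro w s hs1 hs
      obtain ⟨a, b, c, p, q, ha, hb, hc, la, lb, lc, hrot, l1, l2, l3, p1, p2⟩ :=
        PLe.shortcut hPol hlenP hs.1
      obtain ⟨s1, hs1', hp1⟩ := exPEq _ _ p1
      obtain ⟨s2, hs2', hp2⟩ := exPEq _ _ p2
      have hwcl := hs.1.clos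
      have hlen : len T (cat a b) = len T w := hrot.len T hwcl.1
      rw [len_cat ha hb] at hlen
      refine ⟨cat a c.reverse, cat c b, s1, s2, len T a, len T b, len T c, hp1, hp2, hs1', hs2', ?_,
        l1, l2, hlen, ?_, ?_, l3⟩
      · have := (theta ha hb hc lc hp1.1 hp2.1).rot (hrot.symm hwcl.1)
        by_contra hlt
        exact hs.2 _ (by omega) this
      · rw [len_cat ha (ft_rev hc), len_reverse]
      · rw [len_cat hc hb]; ring)
  -- the walk 0,1,2,0
  have hface : ∀ i j k : Fin n, ({i, j, k} : Finset (Fin n)) ∈ Y → Polyg Y T K [i, j, k, i] := by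
    intro i j k h
    have hc := hYf _ h
    refine ⟨?_, (FSle.face hc h).mono ?_⟩
    · rw [← hr]
      have : len T [i, j, k, i] ≤ 3 := by
        unfold len steps
        refine le_trans (List.length_filter_le _ _) ?_
        simp
      omega
    · rw [← hr]
      refine Nat.le_floor ?_
      have : (1000 : ℝ) ≤ r := by exact_mod_cast hr1000
      push_cast
      nlinarith
  obtain ⟨k, hk⟩ := exists_diagram hPol hY hface hTriv x0 x1 x2 h0 h1 h2
  obtain ⟨s, hsk, hs⟩ := exPEq _ _ hk
  have hlen3 : len T [x0, x1, x2, x0] = 3 := by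
    unfold len steps
    simp [hT0, hT1, hT2]
  have hs28 : s < 2845 := by
    by_contra hge
    have h5 := GLOB _ s hs (by omega)
    simp only [hlen3] at h5
    have hr0 : (1000 : ℝ) ≤ r := by exact_mod_cast hr1000
    have h6 : ((3 : ℕ) : ℝ) / r ≤ 1 := by
      rw [div_le_one (by linarith)]; push_cast; linarith
    have h7 : (2845 : ℝ) ≤ s := by
      have : 2845 ≤ s := by omega
      exact_mod_cast this
    have h8 := Real.sqrt_nonneg (s : ℝ)
    linarith
  have hfs := toN _ s (by omega) hs.1
  obtain ⟨V, i1, i2, Q, u, hQT, hQTs, hu1, hu2, hu3, hW, hlp, hcard, hsub, hli, hb⟩ := LI _ hfs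
  -- shape of u
  obtain ⟨y0, y1, y2, y3, rfl⟩ : ∃ y0 y1 y2 y3, u = [y0, y1, y2, y3] := by
    have hl : u.length = 4 := by
      have := congrArg List.length hu3; simpa using this
    match u, hl with
    | [a, b, c, d], _ => exact ⟨a, b, c, d, rfl⟩
  have hy3 : y3 = y0 := by
    have := hu1.2; simp at this; exact this.symm
  subst hy3
  simp only [List.map_cons, List.map_nil, List.cons.injEq, and_true] at hu3
  obtain ⟨e0, e1, e2, _⟩ := hu3
  have n01 : y3 ≠ y1 := by rintro rfl; exact hx01 (e0.symm.trans e1)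
  have n02 : y3 ≠ y2 := by rintro rfl; exact hx02 (e0.symm.trans e2)
  have n12 : y1 ≠ y2 := by rintro rfl; exact hx12 (e1.symm.trans e2)
  have hE1 : ({y3, y1} : Finset V) ∈ Q.E ∧ ({y1, y2} : Finset V) ∈ Q.E ∧
      ({y2, y3} : Finset V) ∈ Q.E := by
    unfold WalkIn at hu2
    simpa [List.isChain_cons_cons] using hu2
  -- the even set
  have hfacey : ∀ y, (y = y3 ∨ y = y1 ∨ y = y2) → y ∈ verts Q.Fp := by
    obtain ⟨B, hBF, hB'⟩ := Q.h1 {({y3, y1} : Finset V), {y1, y2}, {y2, y3}} (by
      intro e he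
      simp only [mem_insert, mem_singleton] at he
      rcases he with rfl | rfl | rfl
      · exact hE1.1
      · exact hE1.2.1
      · exact hE1.2.2) (by
      refine ⟨?_, ?_⟩
      · intro e he
        simp only [mem_insert, mem_singleton] at he
        rcases he with rfl | rfl | rfl
        · exact card_pair n01
        · exact card_pair n12
        · exact card_pair n02.symm
      · have m1 : ({y3, y1} : Finset V) ≠ {y1, y2} := by
          intro h
          have : y3 ∈ ({y1, y2} : Finset V) := by rw [← h]; simp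
          simp [n01, n02] at this
        have m2 : ({y3, y1} : Finset V) ≠ {y2, y3} := by
          intro h
          have : y1 ∈ ({y2, y3} : Finset V) := by rw [← h]; simp
          simp [n12, n01.symm] at this
        have m3 : ({y1, y2} : Finset V) ≠ {y2, y3} := by
          intro h
          have : y1 ∈ ({y2, y3} : Finset V) := by rw [← h]; simp
          simp [n12, n01.symm] at this
        intro x
        by_cases hx3 : x = y3
        · subst hx3
          have : (filter (fun e => x ∈ e) ({({x, y1} : Finset V), {y1, y2}, {y2, x}} : Finset (Finset V))) =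
              ({({x, y1} : Finset V), {y2, x}} : Finset (Finset V)) := by
            ext e
            simp only [mem_filter, mem_insert, mem_singleton]
            constructor
            · rintro ⟨rfl | rfl | rfl, h⟩
              · left; rfl
              · simp [n01, n02] at h
              · right; rfl
            · rintro (rfl | rfl)
              · simp
              · simp
          rw [this, card_pair m2]; exact even_two
        · by_cases hx1 : x = y1
          · subst hx1
            have : (filter (fun e => x ∈ e) ({({y3, x} : Finset V), {x, y2}, {y2, y3}} : Finset (Finset V))) =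
                ({({y3, x} : Finset V), {x, y2}} : Finset (Finset V)) := by
              ext e
              simp only [mem_filter, mem_insert, mem_singleton]
              constructor
              · rintro ⟨rfl | rfl | rfl, h⟩
                · left; rfl
                · right; rfl
                · simp [n12, hx3] at h
              · rintro (rfl | rfl)
                · simp
                · simp
            rw [this, card_pair m1]; exact even_two
          · by_cases hx2 : x = y2
            · subst hx2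
              have : (filter (fun e => x ∈ e) ({({y3, y1} : Finset V), {y1, x}, {x, y3}} : Finset (Finset V))) =
                  ({({y1, x} : Finset V), {x, y3}} : Finset (Finset V)) := by
                ext e
                simp only [mem_filter, mem_insert, mem_singleton]
                constructor
                · rintro ⟨rfl | rfl | rfl, h⟩
                  · simp [hx3, hx1] at h
                  · left; rfl
                  · right; rfl
                · rintro (rfl | rfl)
                  · simp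
                  · simp
              rw [this, card_pair m3]; exact even_two
            · have : (filter (fun e => x ∈ e) ({({y3, y1} : Finset V), {y1, y2}, {y2, y3}} : Finset (Finset V))) = ∅ := by
                ext e
                simp only [mem_filter, mem_insert, mem_singleton, notMem_empty, iff_false]
                rintro ⟨rfl | rfl | rfl, h⟩
                · simp [hx3, hx1] at h
                · simp [hx1, hx2] at h
                · simp [hx3, hx2] at h
              rw [this]; simp)
    have key : ∀ e ∈ ({({y3, y1} : Finset V), {y1, y2}, {y2, y3}} : Finset (Finset V)),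
        ∃ s ∈ Q.F, e ⊆ s := by
      intro e he
      rw [← hB'] at he
      have := bdF_subset he
      rw [mem_edgs] at this
      obtain ⟨_, s, hs, hes⟩ := this
      exact ⟨s, hBF hs, hes⟩
    have toFp : ∀ s ∈ Q.F, ∀ y ∈ s, Q.lab y ∉ T → s ∈ Q.Fp := by
      intro s hs y hy hyT
      refine mem_filter.mpr ⟨hs, ?_⟩
      intro hsub
      apply hyT
      rw [← hQT]
      exact hsub (mem_image_of_mem _ hy)
    obtain ⟨s1, hs1, hes1⟩ := key {y3, y1} (by simp)
    obtain ⟨s2, hs2, hes2⟩ := key {y1, y2} (by simp)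
    intro y hy
    rw [mem_verts]
    rcases hy with rfl | rfl | rfl
    · exact ⟨s1, toFp s1 hs1 y (hes1 (by simp)) (by rw [e0]; exact hT0), hes1 (by simp)⟩
    · exact ⟨s1, toFp s1 hs1 y (hes1 (by simp)) (by rw [e1]; exact hT1), hes1 (by simp)⟩
    · exact ⟨s2, toFp s2 hs2 y (hes2 (by simp)) (by rw [e2]; exact hT2), hes2 (by simp)⟩
  have hcT : 3 ≤ Q.cT := by
    have : ({y3, y1, y2} : Finset V) ⊆ (verts Q.Fp).filter (fun y => Q.lab y ∈ Q.Ts) := by
      intro y hy
      simp only [mem_insert, mem_singleton] at hy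
      rw [mem_filter]
      refine ⟨hfacey y hy, ?_⟩
      rw [hQTs, hTs]
      rcases hy with rfl | rfl | rfl
      · rw [e0]; simp
      · rw [e1]; simp
      · rw [e2]; simp
    have h3' : ({y3, y1, y2} : Finset V).card = 3 := by
      rw [Finset.card_eq_three]; exact ⟨y3, y1, y2, n01, n02, n12, rfl⟩
    rw [← h3']; exact card_le_card this
  have hls : Q.ls = 0 := by
    unfold Imm.ls
    rw [card_eq_zero, filter_eq_empty_iff]
    rintro y _ ⟨hy1, hy2⟩
    apply hy1
    rw [hW] at hy2
    simp only [List.toFinset_cons, List.toFinset_nil, mem_insert, notMem_empty, or_false] at hy2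
    rw [hQTs, hTs]
    rcases hy2 with rfl | rfl | rfl | rfl
    · rw [e0]; simp
    · rw [e1]; simp
    · rw [e2]; simp
    · rw [e0]; simp
  rw [hls, hlp, hlen3] at hli
  have hcT' : (3 : ℝ) ≤ Q.cT := by exact_mod_cast hcT
  have hFp : (0 : ℝ) ≤ Q.Fp.card := by positivity
  push_cast at hli
  nlinarith

end Pool.Agent.SC
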