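import Pool.Agent.Lib.MP_d0323d_co.FirstMoment
import Pool.Agent.Lib.MP_d0323d_co.ClosedFam
/-! Module PAAS (10.2, 10.4): property (P) holds a.a.s. -/
set_option autoImplicit false
namespace Pool.Agent.SC
open Finset Filter Topology

/-- `Cov(T0)` -/
def Cov {n : ℕ} (N : ℕ) (T0 : Finset (Fin n)) (Y : Finset (Finset (Fin n))) : Prop :=
  ∀ x ∈ T0, ∃ Z ⊆ Y, IsTorus Z ∧ Z.card ≤ N ∧ x ∈ verts Z ∧ verts Z ⊆ T0

theorem verts_union_eq {α : Type*} [DecidableEq α] (A B : Finset (Finset α)) :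
    verts (A ∪ B) = verts A ∪ verts B := by
  ext x
  simp only [mem_verts, mem_union, or_and_right, exists_or]

/-- union of tori has `Phi ≤ 0` -/
theorem union_tori {α : Type*} [DecidableEq α] (𝒵 : Finset (Finset (Finset α)))
    (h : ∀ Z ∈ 𝒵, IsTorus Z) : Ph2 (𝒵.biUnion id) ≤ 0 := by
  induction 𝒵 using Finset.induction_on with
  | empty => simp [Ph2, verts]
  | insert Z 𝒵' hZ ih =>
    have h1 := ih (fun Z' hZ' => h Z' (mem_insert_of_mem hZ'))
    obtain ⟨hF, hne, hc, h0, hP⟩ := h Z (mem_insert_self _ _)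
    obtain ⟨hcl, hd⟩ := compl_zero hF hc h0
    rw [biUnion_insert]
    set U := 𝒵'.biUnion id with hU
    have h2 := torus_sub (V' := verts Z ∩ verts U) (F' := Z ∩ U) hF hcl hd hP inter_subset_left
      (subset_inter (verts_mono inter_subset_left) (verts_mono inter_subset_right))
      inter_subset_left
    have h3 := card_union_add_card_inter (verts Z) (verts U)
    have h4 := card_union_add_card_inter Z U
    unfold Ph2 at *
    rw [id, verts_union_eq]
    omega

theorem cov_fam {n : ℕ} {N : ℕ} {T0 : Finset (Fin n)} {Y : Finset (Finset (Fin n))}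
    (h : Cov N T0 Y) : ∃ U ⊆ Y, verts U = T0 ∧ Ph2 U ≤ 0 := by
  classical
  refine ⟨(Y.powerset.filter (fun Z => IsTorus Z ∧ verts Z ⊆ T0)).biUnion id, ?_, ?_,
    union_tori _ (fun Z hZ => (mem_filter.mp hZ).2.1)⟩
  · intro s hs
    rw [mem_biUnion] at hs
    obtain ⟨Z, hZ, hs⟩ := hs
    exact mem_powerset.mp (mem_filter.mp hZ).1 hs
  · ext x
    rw [mem_verts]
    constructor
    · rintro ⟨s, hs, hx⟩
      rw [mem_biUnion] at hs
      obtain ⟨Z, hZ, hs⟩ := hs
      exact (mem_filter.mp hZ).2.2 (mem_verts.mpr ⟨s, hs, hx⟩)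
    · intro hx
      obtain ⟨Z, hZY, hT, _, hxZ, hZT⟩ := h x hx
      obtain ⟨s, hs, hxs⟩ := mem_verts.mp hxZ
      exact ⟨s, mem_biUnion.mpr ⟨Z, mem_filter.mpr ⟨mem_powerset.mpr hZY, hT, hZT⟩, hs⟩, hxs⟩

theorem pn_nonneg {n : ℕ} {c : ℝ} (hc : 0 < c) : 0 ≤ c / Real.sqrt n := by positivity

theorem pn_le_one {n : ℕ} (hn : 1 ≤ n) {c : ℝ} (hc1 : c ≤ 1) : c / Real.sqrt n ≤ 1 := by
  have h1 : (1 : ℝ) ≤ Real.sqrt n := by
    rw [show (1 : ℝ) = Real.sqrt 1 from Real.sqrt_one.symm]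
    exact Real.sqrt_le_sqrt (by exact_mod_cast hn)
  rw [div_le_one (by linarith)]
  linarith

open Classical in
/-- probability of `Cov(T0)` -/
theorem cov_one {n : ℕ} (hn : 1 ≤ n) (N m : ℕ) {c : ℝ} (hc : 0 < c) (hc1 : c ≤ 1)
    (T0 : Finset (Fin n)) (hT : T0.card ≤ m) :
    Pr (tri n) (c / Real.sqrt n) (Cov N T0) ≤ 2 ^ (m ^ 3) * (1 / (n : ℝ)) ^ T0.card := by
  have hp0 := pn_nonneg (n := n) hc
  have hp1 := pn_le_one (c := c) hn hc1
  have hn0 : (0 : ℝ) < n := by exact_mod_cast hn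
  set p := c / Real.sqrt n with hp
  set I : Finset (Finset (Finset (Fin n))) :=
    (T0.powersetCard 3).powerset.filter (fun U => verts U = T0 ∧ Ph2 U ≤ 0) with hI
  have hIt : ∀ U ∈ I, U ⊆ tri n := by
    intro U hU s hs
    have h1 := mem_powerset.mp (mem_filter.mp hU).1 hs
    rw [mem_powersetCard] at h1
    exact mem_filter.mpr ⟨mem_univ _, h1.2⟩
  calc Pr (tri n) p (Cov N T0) ≤ Pr (tri n) p (fun Y => ∃ U ∈ I, U ⊆ Y) := by
        apply Pr_mono hp0 hp1
        intro Y hY hcov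
        obtain ⟨U, hUY, hv, hP⟩ := cov_fam hcov
        refine ⟨U, mem_filter.mpr ⟨mem_powerset.mpr ?_, hv, hP⟩, hUY⟩
        intro s hs
        rw [mem_powersetCard]
        refine ⟨?_, (mem_filter.mp (hY (hUY hs))).2⟩
        intro x hx
        rw [← hv]
        exact mem_verts.mpr ⟨s, hs, hx⟩
    _ ≤ ∑ U ∈ I, Pr (tri n) p (fun Y => U ⊆ Y) := Pr_exists_le hp0 hp1 I _
    _ ≤ ∑ U ∈ I, (1 / (n : ℝ)) ^ T0.card := by
        apply sum_le_sum
        intro U hU
        rw [Pr_subset (hIt U hU)]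
        obtain ⟨_, hv, hP⟩ := mem_filter.mp hU
        have h2 : 2 * T0.card ≤ U.card := by
          unfold Ph2 at hP
          rw [hv] at hP
          omega
        calc p ^ U.card ≤ p ^ (2 * T0.card) := pow_le_pow_of_le_one hp0 hp1 h2
          _ = (c ^ 2 / n) ^ T0.card := by
              rw [pow_mul, hp, div_pow, Real.sq_sqrt hn0.le]
          _ ≤ (1 / (n : ℝ)) ^ T0.card := by
              apply pow_le_pow_left₀ (by positivity)
              apply div_le_div_of_nonneg_right _ hn0.le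
              nlinarith
    _ = (I.card : ℝ) * (1 / (n : ℝ)) ^ T0.card := by rw [sum_const, nsmul_eq_mul]
    _ ≤ 2 ^ (m ^ 3) * (1 / (n : ℝ)) ^ T0.card := by
        apply mul_le_mul_of_nonneg_right _ (by positivity)
        have h1 : I.card ≤ 2 ^ (T0.card.choose 3) := by
          calc I.card ≤ ((T0.powersetCard 3).powerset).card := card_le_card (filter_subset _ _)
            _ = 2 ^ (T0.card.choose 3) := by rw [card_powerset, card_powersetCard]
        have h2 : T0.card.choose 3 ≤ m ^ 3 :=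
          (Nat.choose_le_pow _ _).trans (Nat.pow_le_pow_left hT 3)
        have h3 : I.card ≤ 2 ^ (m ^ 3) := h1.trans (Nat.pow_le_pow_right (by norm_num) h2)
        exact_mod_cast h3

/-- 10.2 -/
theorem cov_sum {n : ℕ} (hn : 1 ≤ n) (N m : ℕ) {c : ℝ} (hc : 0 < c) (hc1 : c ≤ 1) :
    ∑ T0 ∈ (univ : Finset (Finset (Fin n))).filter (fun T0 => T0.card ≤ m),
      Pr (tri n) (c / Real.sqrt n) (Cov N T0) ≤ ((m : ℝ) + 1) * 2 ^ (m ^ 3) := by
  have hn0 : (0 : ℝ) < n := by exact_mod_cast hn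
  set S := (univ : Finset (Finset (Fin n))).filter (fun T0 => T0.card ≤ m) with hS
  calc ∑ T0 ∈ S, Pr (tri n) (c / Real.sqrt n) (Cov N T0)
      ≤ ∑ T0 ∈ S, 2 ^ (m ^ 3) * (1 / (n : ℝ)) ^ T0.card :=
        sum_le_sum (fun T0 hT0 => cov_one hn N m hc hc1 T0 (mem_filter.mp hT0).2)
    _ = ∑ v ∈ range (m + 1), ∑ T0 ∈ S.filter (fun T0 => T0.card = v),
          2 ^ (m ^ 3) * (1 / (n : ℝ)) ^ T0.card := by
        symm
        apply sum_fiberwise_of_maps_to
        intro T0 hT0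
        have := (mem_filter.mp hT0).2
        exact mem_range.mpr (by omega)
    _ ≤ ∑ v ∈ range (m + 1), (2 : ℝ) ^ (m ^ 3) := by
        apply sum_le_sum
        intro v _
        calc ∑ T0 ∈ S.filter (fun T0 => T0.card = v), (2 : ℝ) ^ (m ^ 3) * (1 / (n : ℝ)) ^ T0.card
            = ∑ T0 ∈ S.filter (fun T0 => T0.card = v), (2 : ℝ) ^ (m ^ 3) * (1 / (n : ℝ)) ^ v := by
              apply sum_congr rfl
              intro T0 hT0
              rw [(mem_filter.mp hT0).2]
          _ = ((S.filter (fun T0 => T0.card = v)).card : ℝ) *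
                ((2 : ℝ) ^ (m ^ 3) * (1 / (n : ℝ)) ^ v) := by rw [sum_const, nsmul_eq_mul]
          _ ≤ ((n : ℝ) ^ v) * ((2 : ℝ) ^ (m ^ 3) * (1 / (n : ℝ)) ^ v) := by
              apply mul_le_mul_of_nonneg_right _ (by positivity)
              have h1 : (S.filter (fun T0 => T0.card = v)).card ≤ n ^ v := by
                calc (S.filter (fun T0 => T0.card = v)).card
                    ≤ (powersetCard v (univ : Finset (Fin n))).card := by
                      apply card_le_card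
                      intro T0 hT0
                      exact mem_powersetCard.mpr ⟨subset_univ _, (mem_filter.mp hT0).2⟩
                  _ = n.choose v := by rw [card_powersetCard, card_univ, Fintype.card_fin]
                  _ ≤ n ^ v := Nat.choose_le_pow _ _
              exact_mod_cast h1
          _ = (2 : ℝ) ^ (m ^ 3) := by
              have : ((n : ℝ) ^ v) * (1 / (n : ℝ)) ^ v = 1 := by
                rw [← mul_pow, mul_one_div_cancel hn0.ne', one_pow]
              calc ((n : ℝ) ^ v) * ((2 : ℝ) ^ (m ^ 3) * (1 / (n : ℝ)) ^ v)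
                  = (2 : ℝ) ^ (m ^ 3) * (((n : ℝ) ^ v) * (1 / (n : ℝ)) ^ v) := by ring
                _ = _ := by rw [this, mul_one]
    _ = ((m : ℝ) + 1) * 2 ^ (m ^ 3) := by
        rw [sum_const, card_range, nsmul_eq_mul]
        push_cast
        ring

/-- triples inside `T0` -/
def triIn {n : ℕ} (T0 : Finset (Fin n)) : Finset (Finset (Fin n)) := (tri n).filter (fun s => s ⊆ T0)
/-- triples not inside `T0` -/
def triOut {n : ℕ} (T0 : Finset (Fin n)) : Finset (Finset (Fin n)) :=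
  (tri n).filter (fun s => ¬ s ⊆ T0)

theorem cov_dep {n : ℕ} (N : ℕ) (T0 : Finset (Fin n)) (Y : Finset (Finset (Fin n)))
    (hY : Y ⊆ tri n) : Cov N T0 Y ↔ Cov N T0 (Y ∩ triIn T0) := by
  constructor
  · intro h x hx
    obtain ⟨Z, hZY, hT, hN, hxZ, hZT⟩ := h x hx
    refine ⟨Z, subset_inter hZY ?_, hT, hN, hxZ, hZT⟩
    intro s hs
    refine mem_filter.mpr ⟨hY (hZY hs), ?_⟩
    intro y hy
    exact hZT (mem_verts.mpr ⟨s, hs, hy⟩)
  · intro h x hx
    obtain ⟨Z, hZY, hT, hN, hxZ, hZT⟩ := h x hx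
    exact ⟨Z, hZY.trans inter_subset_left, hT, hN, hxZ, hZT⟩

theorem bad_dep {n : ℕ} (T Ts : Finset (Fin n)) (ell eta Lam : ℝ) (N : ℕ)
    (Y : Finset (Finset (Fin n))) (hY : Y ⊆ tri n) :
    Bad T Ts ell eta Lam N Y ↔ Bad T Ts ell eta Lam N (Y ∩ triOut T) := by
  constructor
  · rintro ⟨Z, hZY, h1, h2, h3, h4⟩
    refine ⟨Z, subset_inter hZY ?_, h1, h2, h3, h4⟩
    intro s hs
    exact mem_filter.mpr ⟨hY (hZY hs), h3 s hs⟩
  · rintro ⟨Z, hZY, h1⟩
    exact ⟨Z, hZY.trans inter_subset_left, h1⟩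

theorem TY_cov {n : ℕ} (N : ℕ) (Y : Finset (Finset (Fin n))) : Cov N (TY N Y) Y := by
  classical
  intro x hx
  obtain ⟨_, Z, hZY, hT, hN, hxZ⟩ := mem_filter.mp hx
  refine ⟨Z, hZY, hT, hN, hxZ, ?_⟩
  intro y hy
  exact mem_filter.mpr ⟨mem_univ _, Z, hZY, hT, hN, hy⟩

/-- the first three labels -/
def low (n : ℕ) : Finset (Fin n) := univ.filter (fun x => x.val ≤ 2)

theorem low_card (n : ℕ) : (low n).card ≤ 3 := by
  have h : ((low n).image Fin.val).card = (low n).card :=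
    card_image_of_injective _ Fin.val_injective
  rw [← h]
  calc ((low n).image Fin.val).card ≤ (range 3).card := by
        apply card_le_card
        intro x hx
        obtain ⟨y, hy, rfl⟩ := mem_image.mp hx
        have := (mem_filter.mp hy).2
        exact mem_range.mpr (by omega)
    _ = 3 := card_range 3

/-- deterministic part of 10.4 -/
theorem propP_of {n : ℕ} {N : ℕ} {Y : Finset (Finset (Fin n))} (hY : Y ⊆ tri n)
    {ell eta Lam : ℝ} {Ts : Finset (Fin n)} (_ : TY N Y ⊆ Ts)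
    (h : ¬ Bad (TY N Y) Ts ell eta Lam N Y) : PropP Y (TY N Y) Ts ell eta Lam N := by
  classical
  intro Z hZY hne hconn hT hN
  by_contra hcon
  rw [not_le] at hcon
  apply h
  refine ⟨Z, hZY, hne, hconn, hT, hN, ?_, hcon⟩
  rintro ⟨hc0, hP0⟩
  have hfam : IsFam Z := fun s hs => (mem_filter.mp (hY (hZY hs))).2
  unfold complT at hc0
  have h3 : ∑ x ∈ verts Z ∩ Ts, kap Z x = 0 := by omega
  have h4 : verts Z ∩ Ts = ∅ := by
    rw [eq_empty_iff_forall_notMem]
    intro x hx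
    have := (sum_eq_zero_iff.mp h3) x hx
    have h5 := kap_pos (mem_inter.mp hx).1
    omega
  have h5 : verts Z \ Ts = verts Z := by
    rw [Finset.sdiff_eq_self_iff_disjoint, disjoint_iff_inter_eq_empty]
    exact h4
  rw [h5] at hc0
  have hcompl : compl Z = 0 := by
    unfold compl
    omega
  have hPh : Ph2 Z = 0 := by
    unfold PhT2 at hP0
    rw [h5] at hP0
    exact hP0
  have htor : IsTorus Z := ⟨hfam, hne, hconn, hcompl, hPh⟩
  obtain ⟨s, hs⟩ := hne
  apply hT s hs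
  intro y hy
  exact mem_filter.mpr ⟨mem_univ _, Z, hZY, htor, hN, mem_verts.mpr ⟨s, hs, hy⟩⟩

/-- quantitative form of 10.4 -/
theorem P_bound {c Γ eta C : ℝ} (h : FMHyp c Γ eta C) : ∃ C' : ℝ, 0 < C' ∧ ∃ n0 : ℕ, 1 ≤ n0 ∧
    ∀ n : ℕ, n0 ≤ n → ∀ N : ℕ, (N : ℝ) ≤ Real.log n ^ 3 → ∀ m : ℕ,
      (m : ℝ) ^ 3 ≤ Real.log (Real.log n) → (m : ℝ) + 3 ≤ Real.log (Real.log n) →
      1 - (C' / ((m : ℝ) + 1) + (3 * (C' / n) + ((m : ℝ) + 1) * 2 ^ (m ^ 3) * (1 / Real.log n ^ 2)))
        ≤ Pr (tri n) (c / Real.sqrt n) (fun Y =>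
          ∃ T : Finset (Fin n), (∀ x ∈ T, 3 ≤ x.val) ∧
            (T.card : ℝ) ^ 3 ≤ Real.log (Real.log n) ∧
            PropP Y T (T ∪ univ.filter (fun x => x.val ≤ 2)) (Real.log n) eta
              (Real.log (Real.log n) ^ 4) N) := by
  classical
  obtain ⟨C1, hC1, h1⟩ := torus_moment h
  obtain ⟨C2, hC2, h2⟩ := TY_card h
  obtain ⟨n0, h3⟩ := bad_moment h
  refine ⟨C1 + C2, by positivity, max n0 1, le_max_right _ _, ?_⟩
  intro n hn N hN m hm hm3
  have hn1 : 1 ≤ n := (le_max_right _ _).trans hn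
  have hnn : n0 ≤ n := (le_max_left _ _).trans hn
  have hn0 : (0 : ℝ) < n := by exact_mod_cast hn1
  have hp0 := pn_nonneg (n := n) h.c_pos
  have hp1 := pn_le_one (c := c) hn1 h.c_le
  set p := c / Real.sqrt n with hp
  set ell := Real.log n with hell
  set L := Real.log ell with hL
  set S := (univ : Finset (Finset (Fin n))).filter (fun T0 => T0.card ≤ m) with hS
  set Good : Finset (Finset (Fin n)) → Prop := fun Y =>
          ∃ T : Finset (Fin n), (∀ x ∈ T, 3 ≤ x.val) ∧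
            (T.card : ℝ) ^ 3 ≤ L ∧
            PropP Y T (T ∪ univ.filter (fun x => x.val ≤ 2)) ell eta (L ^ 4) N with hGood
  have hnot := Pr_not (tri n) p Good
  have hA : Pr (tri n) p (fun Y => ((m : ℝ) + 1) ≤ ((TY N Y).card : ℝ)) ≤ C2 / ((m : ℝ) + 1) :=
    h2 n N hn1 _ (by positivity)
  have hB : Pr (tri n) p (fun Y => ∃ x ∈ low n, x ∈ TY N Y) ≤ 3 * (C1 / n) := by
    calc Pr (tri n) p (fun Y => ∃ x ∈ low n, x ∈ TY N Y)
        ≤ ∑ x ∈ low n, Pr (tri n) p (fun Y => x ∈ TY N Y) := Pr_exists_le hp0 hp1 _ _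
      _ ≤ ∑ x ∈ low n, C1 / n := sum_le_sum (fun x _ => h1 n N hn1 x)
      _ = ((low n).card : ℝ) * (C1 / n) := by rw [sum_const, nsmul_eq_mul]
      _ ≤ 3 * (C1 / n) := by
          apply mul_le_mul_of_nonneg_right _ (by positivity)
          exact_mod_cast low_card n
  have hC : Pr (tri n) p (fun Y => ∃ T0 ∈ S, Cov N T0 Y ∧ Bad T0 (T0 ∪ low n) ell eta (L ^ 4) N Y)
      ≤ ((m : ℝ) + 1) * 2 ^ (m ^ 3) * (1 / ell ^ 2) := by
    calc Pr (tri n) p (fun Y => ∃ T0 ∈ S, Cov N T0 Y ∧ Bad T0 (T0 ∪ low n) ell eta (L ^ 4) N Y)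
        ≤ ∑ T0 ∈ S, Pr (tri n) p (fun Y => Cov N T0 Y ∧ Bad T0 (T0 ∪ low n) ell eta (L ^ 4) N Y) :=
          Pr_exists_le hp0 hp1 _ _
      _ ≤ ∑ T0 ∈ S, Pr (tri n) p (Cov N T0) * (1 / ell ^ 2) := by
          apply sum_le_sum
          intro T0 hT0
          have hind := Pr_indep (U := tri n) (U1 := triIn T0) (U2 := triOut T0) (p := p)
            (disjoint_filter_filter_not _ _ _) (filter_subset _ _)
            (filter_subset _ _) (Cov N T0) (Bad T0 (T0 ∪ low n) ell eta (L ^ 4) N)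
            (fun F hF => cov_dep N T0 F hF) (fun F hF => bad_dep T0 _ _ _ _ N F hF)
          rw [hind]
          apply mul_le_mul_of_nonneg_left _ (Pr_nonneg hp0 hp1 _)
          apply h3 n hnn N hN T0 (T0 ∪ low n) subset_union_left
          have h5 : (T0 ∪ low n).card ≤ m + 3 := by
            have h6 := card_union_le T0 (low n)
            have h7 := low_card n
            have h8 := (mem_filter.mp hT0).2
            omega
          calc (((T0 ∪ low n).card : ℕ) : ℝ) ≤ ((m + 3 : ℕ) : ℝ) := by exact_mod_cast h5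
            _ = (m : ℝ) + 3 := by push_cast; ring
            _ ≤ L := hm3
      _ = (∑ T0 ∈ S, Pr (tri n) p (Cov N T0)) * (1 / ell ^ 2) := by rw [sum_mul]
      _ ≤ ((m : ℝ) + 1) * 2 ^ (m ^ 3) * (1 / ell ^ 2) := by
          apply mul_le_mul_of_nonneg_right _ (by positivity)
          exact cov_sum hn1 N m h.c_pos h.c_le
  have hmain : Pr (tri n) p (fun Y => ¬ Good Y) ≤
      C2 / ((m : ℝ) + 1) + (3 * (C1 / n) + ((m : ℝ) + 1) * 2 ^ (m ^ 3) * (1 / ell ^ 2)) := by
    calc Pr (tri n) p (fun Y => ¬ Good Y)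
        ≤ Pr (tri n) p (fun Y => (((m : ℝ) + 1) ≤ ((TY N Y).card : ℝ)) ∨
            ((∃ x ∈ low n, x ∈ TY N Y) ∨
              (∃ T0 ∈ S, Cov N T0 Y ∧ Bad T0 (T0 ∪ low n) ell eta (L ^ 4) N Y))) := by
          apply Pr_mono hp0 hp1
          intro Y hY hbad
          by_contra hcon
          push Not at hcon
          obtain ⟨hc1, hc2, hc3⟩ := hcon
          apply hbad
          have hcard : (TY N Y).card ≤ m := by
            have : ((TY N Y).card : ℝ) < ((m + 1 : ℕ) : ℝ) := by push_cast; exact hc1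
            have := Nat.cast_lt.mp this
            omega
          refine ⟨TY N Y, ?_, ?_, ?_⟩
          · intro x hx
            by_contra hx3
            exact hc2 x (mem_filter.mpr ⟨mem_univ _, by omega⟩) hx
          · calc ((TY N Y).card : ℝ) ^ 3 ≤ (m : ℝ) ^ 3 := by
                  apply pow_le_pow_left₀ (by positivity)
                  exact_mod_cast hcard
              _ ≤ L := hm
          · apply propP_of hY subset_union_left
            exact hc3 (TY N Y) (mem_filter.mpr ⟨mem_univ _, hcard⟩) (TY_cov N Y)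
      _ ≤ Pr (tri n) p (fun Y => ((m : ℝ) + 1) ≤ ((TY N Y).card : ℝ)) +
            Pr (tri n) p (fun Y => (∃ x ∈ low n, x ∈ TY N Y) ∨
              (∃ T0 ∈ S, Cov N T0 Y ∧ Bad T0 (T0 ∪ low n) ell eta (L ^ 4) N Y)) :=
          Pr_or_le hp0 hp1 _ _
      _ ≤ Pr (tri n) p (fun Y => ((m : ℝ) + 1) ≤ ((TY N Y).card : ℝ)) +
            (Pr (tri n) p (fun Y => ∃ x ∈ low n, x ∈ TY N Y) +
              Pr (tri n) p (fun Y => ∃ T0 ∈ S, Cov N T0 Y ∧
                Bad T0 (T0 ∪ low n) ell eta (L ^ 4) N Y)) := by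
          gcongr
          exact Pr_or_le hp0 hp1 _ _
      _ ≤ _ := by
          gcongr
  have hC1' : C2 / ((m : ℝ) + 1) ≤ (C1 + C2) / ((m : ℝ) + 1) := by
    gcongr
    linarith
  have hC2' : 3 * (C1 / (n : ℝ)) ≤ 3 * ((C1 + C2) / (n : ℝ)) := by
    gcongr
    linarith
  linarith

/-- 10.4 -/
theorem P_aas {c Γ eta C : ℝ} (h : FMHyp c Γ eta C) (Nf : ℕ → ℕ)
    (hN : ∀ᶠ n : ℕ in atTop, (Nf n : ℝ) ≤ Real.log n ^ 3) :
    Tendsto (fun n : ℕ => Pr (tri n) (c / Real.sqrt n) (fun Y =>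
      ∃ T : Finset (Fin n), (∀ x ∈ T, 3 ≤ x.val) ∧
        (T.card : ℝ) ^ 3 ≤ Real.log (Real.log n) ∧
        PropP Y T (T ∪ univ.filter (fun x => x.val ≤ 2)) (Real.log n) eta
          (Real.log (Real.log n) ^ 4) (Nf n))) atTop (𝓝 1) := by
  obtain ⟨C', hC', n0, hn01, hb⟩ := P_bound h
  set L : ℕ → ℝ := fun n => Real.log (Real.log n) with hL
  set m : ℕ → ℕ := fun n => ⌊(L n) ^ (1 / 3 : ℝ)⌋₊ with hm
  have hell : Tendsto (fun n : ℕ => Real.log (n : ℝ)) atTop atTop :=
    Real.tendsto_log_atTop.comp tendsto_natCast_atTop_atTop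
  have hLt : Tendsto L atTop atTop := Real.tendsto_log_atTop.comp hell
  have hmt : Tendsto m atTop atTop :=
    tendsto_nat_floor_atTop.comp ((tendsto_rpow_atTop (by norm_num)).comp hLt)
  have hmR : Tendsto (fun n => ((m n : ℕ) : ℝ) + 1) atTop atTop :=
    tendsto_atTop_add_const_right _ _ (tendsto_natCast_atTop_atTop.comp hmt)
  have hlim : Tendsto (fun n : ℕ => 1 - (C' / (((m n : ℕ) : ℝ) + 1) + (3 * (C' / n) +
      Real.log (Real.log n) / Real.log n))) atTop (𝓝 1) := by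
    have e1 : Tendsto (fun n => C' / (((m n : ℕ) : ℝ) + 1)) atTop (𝓝 0) :=
      hmR.const_div_atTop C'
    have e2 : Tendsto (fun n : ℕ => 3 * (C' / (n : ℝ))) atTop (𝓝 0) := by
      have := (tendsto_natCast_atTop_atTop (R := ℝ)).const_div_atTop C'
      simpa using this.const_mul 3
    have e3 : Tendsto (fun n : ℕ => Real.log (Real.log n) / Real.log n) atTop (𝓝 0) := by
      have := (Real.isLittleO_log_id_atTop).tendsto_div_nhds_zero
      exact this.comp hell
    have := (e1.add (e2.add e3)).const_sub 1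
    simpa using this
  apply tendsto_of_tendsto_of_tendsto_of_le_of_le' hlim tendsto_const_nhds
  · filter_upwards [hN, eventually_ge_atTop n0, hLt.eventually_ge_atTop 8,
      hell.eventually_ge_atTop 1] with n hNn hn hL8 hell1
    set t := (L n) ^ (1 / 3 : ℝ) with ht
    have hL0 : 0 ≤ L n := by linarith
    have ht3 : t ^ 3 = L n := by
      rw [ht, ← Real.rpow_natCast, ← Real.rpow_mul hL0]
      norm_num
    have ht0 : 0 ≤ t := Real.rpow_nonneg hL0 _
    have ht2 : 2 ≤ t := by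
      by_contra hcon
      rw [not_le] at hcon
      have : t ^ 3 < 2 ^ 3 := pow_lt_pow_left₀ hcon ht0 (by norm_num)
      linarith
    have hmt : ((m n : ℕ) : ℝ) ≤ t := Nat.floor_le ht0
    have hm3 : ((m n : ℕ) : ℝ) ^ 3 ≤ L n := by
      rw [← ht3]
      exact pow_le_pow_left₀ (by positivity) hmt 3
    have hmp3 : ((m n : ℕ) : ℝ) + 3 ≤ L n := by
      rw [← ht3]
      nlinarith [mul_nonneg ht0 (sq_nonneg (t - 2)), mul_nonneg ht0 (sub_nonneg.mpr ht2)]
    have hb' := hb n hn (Nf n) hNn (m n) hm3 hmp3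
    refine le_trans ?_ hb'
    have hpow : (2 : ℝ) ^ ((m n) ^ 3) ≤ Real.log n := by
      have h5 : (2 : ℝ) ^ ((m n) ^ 3) ≤ Real.exp ((((m n) ^ 3 : ℕ)) : ℝ) := by
        rw [← Real.exp_one_pow]
        apply pow_le_pow_left₀ (by norm_num)
        have := Real.add_one_le_exp (1 : ℝ)
        linarith
      refine h5.trans ?_
      calc Real.exp ((((m n) ^ 3 : ℕ)) : ℝ) ≤ Real.exp (L n) := by
            apply Real.exp_le_exp.mpr
            push_cast
            exact hm3
        _ = Real.log n := Real.exp_log (by linarith)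
    have hfin : (((m n : ℕ) : ℝ) + 1) * 2 ^ ((m n) ^ 3) * (1 / Real.log n ^ 2)
        ≤ Real.log (Real.log n) / Real.log n := by
      have hpos : 0 < Real.log n := by linarith
      have h7 : (((m n : ℕ) : ℝ) + 1) ≤ Real.log (Real.log n) := by
        have : L n = Real.log (Real.log n) := rfl
        linarith
      calc (((m n : ℕ) : ℝ) + 1) * 2 ^ ((m n) ^ 3) * (1 / Real.log n ^ 2)
          ≤ Real.log (Real.log n) * Real.log n * (1 / Real.log n ^ 2) := by
            apply mul_le_mul_of_nonneg_right _ (by positivity)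
            apply mul_le_mul h7 hpow (by positivity)
            linarith
        _ = Real.log (Real.log n) / Real.log n := by
            field_simp
    have : (3 * (C' / (n : ℝ))) = 3 * (C' / (n : ℝ)) := rfl
    linarith
  · filter_upwards [eventually_ge_atTop 1] with n hn
    exact Pr_le_one (pn_nonneg h.c_pos) (pn_le_one hn h.c_le) _

end Pool.Agent.SC
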