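import Pool.Agent.Lib.MP_d0323d_co.EN
import Pool.Agent.Lib.MP_d0323d_co.LowerDet
import Pool.Agent.Lib.MP_d0323d_co.Paas
/-! Module LOWER (10.4 end): not simply connected a.a.s. for `c² γ < 1`. -/
set_option autoImplicit false
namespace Pool.Agent.SC
open Finset Filter Topology

theorem log_atTop : Tendsto (fun n : ℕ => Real.log (n : ℝ)) atTop atTop :=
  Real.tendsto_log_atTop.comp tendsto_natCast_atTop_atTop

theorem loglog_atTop : Tendsto (fun n : ℕ => Real.log (Real.log (n : ℝ))) atTop atTop :=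
  Real.tendsto_log_atTop.comp log_atTop

theorem NN_pos (K : ℝ) : 0 < NN K := by unfold NN; omega

theorem NN_le (K : ℝ) (hK : 0 ≤ K) :
    (NN K : ℝ) ≤ 28450 * (K * (284500000 * K + 1) + 1) := by
  unfold NN
  push_cast
  have h1 : (rr K : ℝ) ≤ 284500000 * K + 1 := by
    unfold rr
    have := Nat.ceil_lt_add_one (show 0 ≤ 10 ^ 4 * 28450 * K by positivity)
    norm_num at this ⊢
    linarith
  have h2 : (⌊K * rr K⌋₊ : ℝ) ≤ K * rr K := Nat.floor_le (by positivity)
  have h3 : K * rr K ≤ K * (284500000 * K + 1) := mul_le_mul_of_nonneg_left h1 hK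
  linarith

theorem NN_eventually {eta : ℝ} (heta : 0 < eta) :
    ∀ᶠ n : ℕ in atTop, (NN (16 * Real.log n / eta) : ℝ) ≤ Real.log n ^ 3 := by
  set a : ℝ := 16 / eta with ha
  have ha0 : 0 < a := by positivity
  filter_upwards [log_atTop.eventually_ge_atTop
    (max 1 (28450 * (a * (284500000 * a + 1) + 1)))] with n hn
  have h1 : 1 ≤ Real.log n := (le_max_left _ _).trans hn
  have h2 : 28450 * (a * (284500000 * a + 1) + 1) ≤ Real.log n := (le_max_right _ _).trans hn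
  have e : 16 * Real.log n / eta = a * Real.log n := by rw [ha]; ring
  rw [e]
  set l := Real.log (n : ℝ) with hl
  refine (NN_le _ (by positivity)).trans ?_
  have h3 : a * l * (284500000 * (a * l) + 1) + 1 ≤ (a * (284500000 * a + 1) + 1) * l ^ 2 := by
    have e1 : a * l ≤ a * l ^ 2 := by
      apply mul_le_mul_of_nonneg_left _ ha0.le
      nlinarith
    have e2 : 1 ≤ l ^ 2 := by nlinarith
    nlinarith
  calc 28450 * (a * l * (284500000 * (a * l) + 1) + 1)
      ≤ 28450 * ((a * (284500000 * a + 1) + 1) * l ^ 2) :=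
        mul_le_mul_of_nonneg_left h3 (by norm_num)
    _ = (28450 * (a * (284500000 * a + 1) + 1)) * l ^ 2 := by ring
    _ ≤ l * l ^ 2 := mul_le_mul_of_nonneg_right h2 (by positivity)
    _ = l ^ 3 := by ring

theorem natlog_le {N : ℕ} (hN : 0 < N) {l : ℝ} (hl : 1 ≤ Real.log l) (hl0 : 0 < l)
    (h : (N : ℝ) ≤ l ^ 3) : ((Nat.log 2 N + 1 : ℕ) : ℝ) ≤ 6 * Real.log l := by
  have h1 : (2 : ℝ) ^ (Nat.log 2 N) ≤ N := by exact_mod_cast Nat.pow_log_le_self 2 hN.ne'
  have h2 : Real.log ((2 : ℝ) ^ (Nat.log 2 N)) ≤ Real.log (l ^ 3) :=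
    Real.log_le_log (by positivity) (h1.trans h)
  rw [Real.log_pow, Real.log_pow] at h2
  have h3 := Real.log_two_gt_d9
  push_cast at h2 ⊢
  have h4 : (0 : ℝ) ≤ Nat.log 2 N := Nat.cast_nonneg _
  nlinarith

theorem poly_exp {κ : ℝ} (hκ : 0 < κ) :
    ∀ᶠ L : ℝ in atTop, 7200000 * L ^ 7 ≤ κ * Real.exp (1 / 2 * L) := by
  have h := (isLittleO_pow_exp_pos_mul_atTop 7 (show (0 : ℝ) < 1 / 2 by norm_num)).bound
    (show 0 < κ / 7200000 by positivity)
  filter_upwards [h, eventually_ge_atTop 0] with L hL h0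
  rw [Real.norm_of_nonneg (by positivity), Real.norm_of_nonneg (by positivity)] at hL
  have := mul_le_mul_of_nonneg_left hL (show (0 : ℝ) ≤ 7200000 by norm_num)
  calc 7200000 * L ^ 7 ≤ 7200000 * (κ / 7200000 * Real.exp (1 / 2 * L)) := this
    _ = κ * Real.exp (1 / 2 * L) := by ring

/-- the numerical conditions of `lower_det` -/
theorem numeric {eta : ℝ} (heta : 0 < eta) (heta1 : eta ≤ 1) :
    ∀ᶠ n : ℕ in atTop, ∀ k : ℕ, (k : ℝ) ≤ Real.log (Real.log n) + 3 → ∃ D0 : ℕ, 1 ≤ D0 ∧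
      Real.log (Real.log n) ^ 4 * 10 ^ 5 * k *
        ((Nat.log 2 (NN (16 * Real.log n / eta)) + 1 : ℕ) : ℝ) ^ 2 / 2 * D0 ≤ Real.log n / 2 ∧
      Real.log (Real.log n) ^ 4 * 10 ^ 5 * k *
        ((Nat.log 2 (NN (16 * Real.log n / eta)) + 1 : ℕ) : ℝ) ^ 2 / 2 / D0 ≤ eta / 8 ∧
      24 * (Real.log (Real.log n) ^ 4 * 10 ^ 5 * k *
        ((Nat.log 2 (NN (16 * Real.log n / eta)) + 1 : ℕ) : ℝ) ^ 2 / 2) < Real.log n := by
  filter_upwards [NN_eventually heta, loglog_atTop.eventually_ge_atTop 1,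
    log_atTop.eventually_gt_atTop 9,
    loglog_atTop.eventually (poly_exp (show 0 < min (1 / 4) (eta / 8) by positivity))]
    with n h1 h2 h3 h4 k hk
  set l := Real.log (n : ℝ) with hl
  set L := Real.log l with hL
  have hlpos : 0 < l := by linarith
  set s := Real.exp (1 / 2 * L) with hs
  have hss : s * s = l := by
    rw [hs, ← Real.exp_add]
    have : 1 / 2 * L + 1 / 2 * L = L := by ring
    rw [this, hL, Real.exp_log hlpos]
  have hspos : 0 < s := Real.exp_pos _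
  have hs3 : 3 < s := by nlinarith
  have hg1 : ((Nat.log 2 (NN (16 * l / eta)) + 1 : ℕ) : ℝ) ≤ 6 * L :=
    natlog_le (NN_pos _) h2 hlpos h1
  set g : ℝ := ((Nat.log 2 (NN (16 * l / eta)) + 1 : ℕ) : ℝ) with hg
  have hg0 : 0 ≤ g := Nat.cast_nonneg _
  have hk0 : (0 : ℝ) ≤ k := Nat.cast_nonneg _
  have hX : L ^ 4 * 10 ^ 5 * k * g ^ 2 / 2 ≤ 7200000 * L ^ 7 := by
    have e1 : g ^ 2 ≤ (6 * L) ^ 2 := by
      apply pow_le_pow_left₀ hg0 hg1
    have e2 : (k : ℝ) ≤ 4 * L := by linarith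
    have e3 : (k : ℝ) * g ^ 2 ≤ (4 * L) * (6 * L) ^ 2 :=
      mul_le_mul e2 e1 (by positivity) (by positivity)
    have e4 : L ^ 4 * 10 ^ 5 * k * g ^ 2 / 2 = L ^ 4 * 10 ^ 5 / 2 * (k * g ^ 2) := by ring
    rw [e4]
    calc L ^ 4 * 10 ^ 5 / 2 * (k * g ^ 2) ≤ L ^ 4 * 10 ^ 5 / 2 * ((4 * L) * (6 * L) ^ 2) :=
          mul_le_mul_of_nonneg_left e3 (by positivity)
      _ = 7200000 * L ^ 7 := by ring
  have hX0 : 0 ≤ L ^ 4 * 10 ^ 5 * k * g ^ 2 / 2 := by positivity
  set X : ℝ := L ^ 4 * 10 ^ 5 * k * g ^ 2 / 2 with hXdef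
  have hXs : X ≤ min (1 / 4) (eta / 8) * s := hX.trans h4
  have hXa : X ≤ 1 / 4 * s := hXs.trans (mul_le_mul_of_nonneg_right (min_le_left _ _) hspos.le)
  have hXb : X ≤ eta / 8 * s := hXs.trans (mul_le_mul_of_nonneg_right (min_le_right _ _) hspos.le)
  refine ⟨⌈s⌉₊, ?_, ?_, ?_, ?_⟩
  · exact Nat.ceil_pos.2 hspos
  · have e1 := Nat.ceil_lt_add_one hspos.le
    calc X * (⌈s⌉₊ : ℝ) ≤ (1 / 4 * s) * (2 * s) :=
          mul_le_mul hXa (by linarith) (Nat.cast_nonneg _) (by positivity)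
      _ = l / 2 := by rw [← hss]; ring
  · have e1 := Nat.le_ceil s
    have e2 : 0 < (⌈s⌉₊ : ℝ) := lt_of_lt_of_le hspos e1
    rw [div_le_iff₀ e2]
    exact hXb.trans (mul_le_mul_of_nonneg_left e1 (by positivity))
  · nlinarith

theorem lower_side {γ : ℝ} (hγ : 1 ≤ γ)
    (hγ1 : ∀ Γ : ℝ, γ < Γ → ∃ A : ℝ, 0 < A ∧ ∀ v : ℕ, (sph v : ℝ) ≤ A * (v.factorial : ℝ) * Γ ^ v)
    {c : ℝ} (hc : 0 < c) (hcγ : c ^ 2 * γ < 1) :
    Tendsto (fun n : ℕ => Pr (tri n) (c / Real.sqrt n) (Triv n)) atTop (𝓝 0) := by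
  have hc2 : 0 < c ^ 2 := by positivity
  have hc1 : c ≤ 1 := by
    by_contra hcon
    push Not at hcon
    nlinarith
  -- the constants
  obtain ⟨z, hz1, hz2, hz3⟩ : ∃ z : ℝ, c ^ 2 * γ < z ∧ Real.exp (-4) ≤ z ∧ z < 1 := by
    have h1 : Real.exp (-4) < 1 := by
      rw [Real.exp_lt_one_iff]; norm_num
    refine ⟨(max (c ^ 2 * γ) (Real.exp (-4)) + 1) / 2, ?_, ?_, ?_⟩
    · have := le_max_left (c ^ 2 * γ) (Real.exp (-4))
      linarith
    · have := le_max_right (c ^ 2 * γ) (Real.exp (-4))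
      linarith
    · have := max_lt hcγ h1
      linarith
  have hzpos : 0 < z := lt_of_lt_of_le (Real.exp_pos _) hz2
  set Γ : ℝ := z / c ^ 2 with hΓ
  set eta : ℝ := - Real.log z / 4 with heta
  have hγΓ : γ < Γ := by
    rw [hΓ, lt_div_iff₀ hc2, mul_comm]
    exact hz1
  have heta0 : 0 < eta := by
    have := Real.log_neg hzpos hz3
    rw [heta]; linarith
  have heta1 : eta ≤ 1 := by
    have : -4 ≤ Real.log z := (Real.le_log_iff_exp_le hzpos).2 hz2
    rw [heta]; linarith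
  obtain ⟨A, hA0, hA⟩ := hγ1 Γ hγΓ
  obtain ⟨C, hC0, hC⟩ := EN (A := max A 1) (Γ := Γ) (le_max_right _ _) (by linarith) (by
      intro v
      refine (hA v).trans ?_
      have h1 : (0 : ℝ) ≤ (v.factorial : ℝ) * Γ ^ v := by
        have : 0 < Γ := by linarith
        positivity
      calc A * (v.factorial : ℝ) * Γ ^ v = A * ((v.factorial : ℝ) * Γ ^ v) := by ring
        _ ≤ max A 1 * ((v.factorial : ℝ) * Γ ^ v) :=
          mul_le_mul_of_nonneg_right (le_max_left _ _) h1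
        _ = max A 1 * (v.factorial : ℝ) * Γ ^ v := by ring) (ε := eta / 2) (by positivity)
  have hFM : FMHyp c Γ eta C := by
    refine ⟨hc, hc1, by linarith, heta0, heta1, ?_, hC0, hC⟩
    rw [hΓ, heta, mul_div_cancel₀ _ hc2.ne']
    have : -(4 * (-Real.log z / 4)) = Real.log z := by ring
    rw [this, Real.exp_log hzpos]
  -- the event
  have hP := P_aas hFM (fun n => NN (16 * Real.log n / eta)) (NN_eventually heta0)
  have hsq : Tendsto (fun n : ℕ => 1 - Pr (tri n) (c / Real.sqrt n) (fun Y =>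
      ∃ T : Finset (Fin n), (∀ x ∈ T, 3 ≤ x.val) ∧
        (T.card : ℝ) ^ 3 ≤ Real.log (Real.log n) ∧
        PropP Y T (T ∪ univ.filter (fun x => x.val ≤ 2)) (Real.log n) eta
          (Real.log (Real.log n) ^ 4) (NN (16 * Real.log n / eta)))) atTop (𝓝 0) := by
    have := hP.const_sub 1
    rwa [sub_self] at this
  have hp01 : ∀ n : ℕ, 1 ≤ n → 0 ≤ c / Real.sqrt n ∧ c / Real.sqrt n ≤ 1 := by
    intro n hn
    have h1 : (1 : ℝ) ≤ Real.sqrt n := by
      rw [Real.one_le_sqrt]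
      exact_mod_cast hn
    refine ⟨by positivity, ?_⟩
    rw [div_le_one (by linarith)]
    linarith
  refine squeeze_zero' ?_ ?_ hsq
  · filter_upwards [eventually_ge_atTop 1] with n hn
    exact Pr_nonneg (hp01 n hn).1 (hp01 n hn).2 _
  · filter_upwards [eventually_ge_atTop 3, numeric heta0 heta1,
      log_atTop.eventually_ge_atTop 1, loglog_atTop.eventually_ge_atTop 1] with n hn hnum hl hL
    obtain ⟨h0, h1⟩ := hp01 n (by omega)
    have hnot : Pr (tri n) (c / Real.sqrt n) (fun Y =>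
        ∃ T : Finset (Fin n), (∀ x ∈ T, 3 ≤ x.val) ∧
          (T.card : ℝ) ^ 3 ≤ Real.log (Real.log n) ∧
          PropP Y T (T ∪ univ.filter (fun x => x.val ≤ 2)) (Real.log n) eta
            (Real.log (Real.log n) ^ 4) (NN (16 * Real.log n / eta))) ≤
        Pr (tri n) (c / Real.sqrt n) (fun Y => ¬ Triv n Y) := by
      apply Pr_mono h0 h1
      rintro Y hY ⟨T, hT3, hTc, hPP⟩
      set Ts := T ∪ univ.filter (fun x : Fin n => x.val ≤ 2) with hTs
      have hfil : (univ.filter (fun x : Fin n => x.val ≤ 2)) =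
          {⟨0, by omega⟩, ⟨1, by omega⟩, ⟨2, by omega⟩} := by
        ext x
        simp only [mem_filter, mem_univ, true_and, mem_insert, mem_singleton, Fin.ext_iff]
        omega
      have hTsc : (Ts.card : ℝ) ≤ Real.log (Real.log n) + 3 := by
        have e1 : Ts.card ≤ T.card + 3 := by
          rw [hTs, hfil]
          exact (card_union_le _ _).trans (Nat.add_le_add_left card_le_three _)
        have e2 : (T.card : ℝ) ≤ Real.log (Real.log n) := by
          refine le_trans ?_ hTc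
          have : T.card ≤ T.card ^ 3 := Nat.le_self_pow (by norm_num) _
          exact_mod_cast this
        have e3 : (Ts.card : ℝ) ≤ T.card + 3 := by exact_mod_cast e1
        linarith
      obtain ⟨D0, hD0, hA', hB', hC'⟩ := hnum Ts.card hTsc
      exact lower_det hY (⟨0, by omega⟩ : Fin n) ⟨1, by omega⟩ ⟨2, by omega⟩ rfl rfl rfl
        (fun h => by have := hT3 _ h; simp at this)
        (fun h => by have := hT3 _ h; simp at this)
        (fun h => by have := hT3 _ h; simp at this) (by rw [hTs, hfil]) hl heta0 heta1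
        (by positivity) hPP D0 hD0 hA' hB' hC'
    rw [Pr_not] at hnot
    linarith

end Pool.Agent.SC
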