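import Pool.Agent.Lib.MP_d0323d_co.CutCap
import Pool.Agent.Lib.MP_d0323d_co.ClosedFam
/-! Module PHASE1 (9.6). -/
set_option autoImplicit false
namespace Pool.Agent.SC
open Finset

/-- pairs traversed an odd number of times by the list walk `u` -/
def cls {V : Type*} [DecidableEq V] (u : List V) : Finset (Finset V) :=
  (trset u).filter (fun e => Odd (((steps u).map (fun p => ({p.1, p.2} : Finset V))).count e))

/-- every closed walk of length at most `L` is null-homologous -/
def ShortNull {V : Type*} [DecidableEq V] (S : Finset (Finset V)) (L : ℕ) : Prop :=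
  ∀ u : List V, ClosedW u → WalkIn (edgs S) u → u.length ≤ L + 1 → ∃ B ⊆ S, bdF B = cls u

namespace Ph1

section Walk
variable {α : Type*} [DecidableEq α]

theorem steps_card2 {S : Finset (Finset α)} :
    ∀ u : List α, WalkIn (edgs S) u → ∀ e ∈ (steps u).map (fun p => ({p.1, p.2} : Finset α)),
      e ∈ edgs S := by
  intro u
  induction u with
  | nil => intro _ e he; simp [steps] at he
  | cons a l ih =>
    cases l with
    | nil => intro _ e he; simp [steps] at he
    | cons b l =>
      intro h e he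
      unfold WalkIn at h
      rw [List.isChain_cons_cons] at h
      have h1 : steps (a :: b :: l) = (a, b) :: steps (b :: l) := rfl
      rw [h1, List.map_cons, List.mem_cons] at he
      rcases he with rfl | he
      · exact h.1
      · exact ih h.2 e he

theorem countP_even {S : Finset (Finset α)} (x : α) :
    ∀ (u : List α) (a b : α), u.head? = some a → u.getLast? = some b → WalkIn (edgs S) u →
      Even (((steps u).map (fun p => ({p.1, p.2} : Finset α))).countP (fun e => decide (x ∈ e)) +
        (if x = a then 1 else 0) + (if x = b then 1 else 0)) := by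
  intro u
  induction u with
  | nil => intro a b h; simp at h
  | cons c l ih =>
    cases l with
    | nil =>
      intro a b h1 h2 _
      simp only [List.head?_cons, Option.some.injEq] at h1
      simp only [List.getLast?_singleton, Option.some.injEq] at h2
      subst h1
      subst h2
      simp only [steps, List.tail_cons, List.zip_nil_right, List.map_nil, List.countP_nil, zero_add]
      split_ifs <;> decide
    | cons d l =>
      intro a b h1 h2 h
      simp only [List.head?_cons, Option.some.injEq] at h1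
      subst h1
      unfold WalkIn at h
      rw [List.isChain_cons_cons] at h
      have h3 : steps (c :: d :: l) = (c, d) :: steps (d :: l) := rfl
      have h4 := ih d b (by simp) (by rw [List.getLast?_cons_cons] at h2; exact h2) h.2
      have hcd : c ≠ d := by
        rintro rfl
        have := (mem_edgs.mp h.1).1
        simp at this
      rw [h3, List.map_cons, List.countP_cons]
      obtain ⟨k, hk⟩ : ∃ k, k = ((steps (d :: l)).map
        (fun p => ({p.1, p.2} : Finset α))).countP (fun e => decide (x ∈ e)) := ⟨_, rfl⟩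
      rw [← hk] at h4 ⊢
      by_cases hxc : x = c
      · have hxd : x ≠ d := by rw [hxc]; exact hcd
        simp only [hxd, if_false, add_zero] at h4
        have : decide (x ∈ ({c, d} : Finset α)) = true := by simp [hxc]
        rw [this, if_pos rfl, if_pos hxc]
        have h5 : k + 1 + 1 + (if x = b then 1 else 0) = (k + (if x = b then 1 else 0)) + 2 := by
          ring
        rw [h5]
        exact h4.add (by decide)
      · by_cases hxd : x = d
        · simp only [hxd, if_true] at h4
          have : decide (x ∈ ({c, d} : Finset α)) = true := by simp [hxd]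
          rw [this, if_pos rfl, if_neg hxc, add_zero, hxd]
          exact h4
        · have : decide (x ∈ ({c, d} : Finset α)) = false := by simp [hxc, hxd]
          rw [this, if_neg hxc]
          simp only [hxd, if_false, add_zero] at h4
          simpa using h4

theorem sum_count_eq (x : α) (M : List (Finset α)) :
    ∑ e ∈ M.toFinset.filter (fun e => x ∈ e), M.count e =
      M.countP (fun e => decide (x ∈ e)) := by
  induction M with
  | nil => simp
  | cons a M ih =>
    have h1 : ∑ e ∈ (a :: M).toFinset.filter (fun e => x ∈ e), (a :: M).count e =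
        ∑ e ∈ (a :: M).toFinset.filter (fun e => x ∈ e), (M.count e + if a = e then 1 else 0) := by
      apply sum_congr rfl
      intro e _
      rw [List.count_cons]
      simp [beq_iff_eq]
    rw [h1, sum_add_distrib]
    have h2 : ∑ e ∈ (a :: M).toFinset.filter (fun e => x ∈ e), M.count e =
        ∑ e ∈ M.toFinset.filter (fun e => x ∈ e), M.count e := by
      symm
      apply sum_subset
      · intro e he
        rw [mem_filter, List.mem_toFinset] at he ⊢
        exact ⟨List.mem_cons_of_mem _ he.1, he.2⟩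
      · intro e he he'
        rw [List.count_eq_zero]
        intro hM
        apply he'
        rw [mem_filter, List.mem_toFinset] at he ⊢
        exact ⟨hM, he.2⟩
    rw [h2, ih, List.countP_cons, sum_ite_eq]
    congr 1
    by_cases hx : x ∈ a
    · simp [hx]
    · simp [hx]

theorem cls_even {S : Finset (Finset α)} {u : List α} (hc : ClosedW u) (hw : WalkIn (edgs S) u) :
    EvenSet (cls u) := by
  refine ⟨?_, ?_⟩
  · intro e he
    have h1 := (mem_filter.mp he).1
    unfold trset at h1
    rw [List.mem_toFinset] at h1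
    exact (mem_edgs.mp (steps_card2 u hw e h1)).1
  · intro x
    have h1 : (cls u).filter (fun e => x ∈ e) =
        ((trset u).filter (fun e => x ∈ e)).filter (fun e =>
          Odd (((steps u).map (fun p => ({p.1, p.2} : Finset α))).count e)) := by
      unfold cls
      rw [filter_filter, filter_filter]
      apply filter_congr
      intro e _
      tauto
    rw [h1, card_odd_parity]
    unfold trset
    rw [sum_count_eq]
    obtain ⟨hne, hhl⟩ := hc
    obtain ⟨a, ha⟩ : ∃ a, u.head? = some a := by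
      cases u with
      | nil => exact absurd rfl hne
      | cons a l => exact ⟨a, rfl⟩
    have h2 := countP_even x u a a ha (by rw [← hhl, ha]) hw
    rw [add_assoc] at h2
    rw [Nat.even_add] at h2
    apply h2.mpr
    exact ⟨_, rfl⟩

theorem cls_sub {S : Finset (Finset α)} {u : List α} (hw : WalkIn (edgs S) u) :
    cls u ⊆ edgs S := by
  intro e he
  have h1 := (mem_filter.mp he).1
  unfold trset at h1
  rw [List.mem_toFinset] at h1
  exact steps_card2 u hw e h1

theorem cls_card (u : List α) : (cls u).card ≤ u.length - 1 := by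
  refine (card_filter_le _ _).trans ?_
  unfold trset
  refine (List.toFinset_card_le _).trans ?_
  simp [steps]

end Walk

section Min
variable {α : Type*} [DecidableEq α]

theorem card_le_verts {C : Finset (Finset α)} (h2 : ∀ e ∈ C, e.card = 2) (hne : C.Nonempty)
    (hmin : ∀ A ⊆ C, EvenSet A → A = ∅ ∨ A = C) : C.card ≤ (verts C).card := by
  classical
  have hch : ∀ e : {e // e ∈ C}, ∃ a b : {x // x ∈ verts C}, a.1 ≠ b.1 ∧ e.1 = {a.1, b.1} := by
    rintro ⟨e, he⟩
    obtain ⟨a, b, hab, rfl⟩ := card_eq_two.mp (h2 e he)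
    exact ⟨⟨a, mem_verts.mpr ⟨_, he, by simp⟩⟩, ⟨b, mem_verts.mpr ⟨_, he, by simp⟩⟩, hab, rfl⟩
  choose src tgt hst heq using hch
  have hrank := rank_span_le src tgt (ι := Unit) (fun _ _ => (1 : ZMod 2)) (by
    intro c hc
    obtain ⟨A, hA⟩ : ∃ A : Finset (Finset α), A = C.filter (fun e => ∃ h : e ∈ C, c ⟨e, h⟩ = 1) :=
      ⟨_, rfl⟩
    have hAmem : ∀ e (he : e ∈ C), e ∈ A ↔ c ⟨e, he⟩ = 1 := by
      intro e he
      rw [hA, mem_filter]
      constructor
      · rintro ⟨_, _, h⟩; exact h
      · intro h; exact ⟨he, he, h⟩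
    have hAC : A ⊆ C := by rw [hA]; exact filter_subset _ _
    have hAe : EvenSet A := by
      refine ⟨fun e he => h2 e (hAC he), fun x => ?_⟩
      by_cases hx : x ∈ verts C
      · have h1 := congrFun hc ⟨x, hx⟩
        rw [Pi.zero_apply] at h1
        have h3 : bdM src tgt c ⟨x, hx⟩ = (((A.filter (fun e => x ∈ e)).card : ℕ) : ZMod 2) := by
          change ∑ e, c e * ((if src e = ⟨x, hx⟩ then 1 else 0) +
            (if tgt e = ⟨x, hx⟩ then 1 else 0)) = _
          have h4 : ∀ e : {e // e ∈ C}, c e * ((if src e = ⟨x, hx⟩ then (1 : ZMod 2) else 0) +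
              (if tgt e = ⟨x, hx⟩ then 1 else 0)) =
              (fun e : Finset α => if e ∈ A ∧ x ∈ e then (1 : ZMod 2) else 0) e.1 := by
            intro e
            have h5 : ((if src e = ⟨x, hx⟩ then (1 : ZMod 2) else 0) +
              (if tgt e = ⟨x, hx⟩ then 1 else 0)) = if x ∈ e.1 then 1 else 0 := by
              simp only [Subtype.ext_iff]
              have h6 := heq e
              have h7 := hst e
              by_cases ha : (src e).1 = x
              · have hb : (tgt e).1 ≠ x := by rw [← ha]; exact h7.symm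
                have hxe : x ∈ e.1 := by rw [h6, ← ha]; simp
                simp [ha, hb, hxe]
              · by_cases hb : (tgt e).1 = x
                · have hxe : x ∈ e.1 := by rw [h6, ← hb]; simp
                  simp [ha, hb, hxe]
                · have hxe : x ∉ e.1 := by
                    rw [h6]
                    simp only [mem_insert, mem_singleton, not_or]
                    exact ⟨fun h => ha h.symm, fun h => hb h.symm⟩
                  simp [ha, hb, hxe]
            rw [h5]
            by_cases hcA : e.1 ∈ A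
            · have h8 := (hAmem e.1 e.2).mp hcA
              have h9 : c e = 1 := h8
              by_cases hxe : x ∈ e.1 <;> simp [h9, hcA, hxe]
            · have h9 : c e = 0 := by
                rcases zmod2_cases (c e) with h | h
                · exact h
                · exact absurd ((hAmem e.1 e.2).mpr h) hcA
              simp [h9, hcA]
          rw [sum_congr rfl (fun e _ => h4 e),
            sum_coe_sort C (fun e : Finset α => if e ∈ A ∧ x ∈ e then (1 : ZMod 2) else 0),
            sum_boole]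
          congr 2
          ext s
          rw [mem_filter, mem_filter]
          constructor
          · rintro ⟨_, h⟩; exact h
          · rintro h; exact ⟨hAC h.1, h⟩
        rw [h3, ZMod.natCast_eq_zero_iff_even] at h1
        exact h1
      · have : A.filter (fun e => x ∈ e) = ∅ := by
          rw [filter_eq_empty_iff]
          intro e he hxe
          exact hx (mem_verts.mpr ⟨e, hAC he, hxe⟩)
        rw [this]
        simp
    rcases hmin A hAC hAe with h | h
    · refine ⟨∅, ?_⟩
      rw [sum_empty]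
      funext e
      rcases zmod2_cases (c e) with h9 | h9
      · exact h9
      · have := (hAmem e.1 e.2).mpr h9
        rw [h] at this
        exact absurd this (notMem_empty _)
    · refine ⟨univ, ?_⟩
      funext e
      have := (hAmem e.1 e.2).mp (by rw [h]; exact e.2)
      have h9 : c e = 1 := this
      simp [h9])
  have h1 : Fintype.card {e // e ∈ C} = C.card := Fintype.card_coe C
  have h3 : Fintype.card {x // x ∈ verts C} = (verts C).card := Fintype.card_coe _
  rw [h1, h3, Fintype.card_unit] at hrank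
  have h4 : 1 ≤ Nat.card (Quot (adjM src tgt)) := by
    obtain ⟨e, he⟩ := hne
    have : Finite (Quot (adjM src tgt)) := Finite.of_surjective _ Quot.mk_surjective
    have : Nonempty (Quot (adjM src tgt)) := ⟨Quot.mk _ (src ⟨e, he⟩)⟩
    exact Nat.card_pos
  omega

/-- double count: `Σ_{x ∈ V(C)} deg_C x = 2|C|` for a set of pairs -/
theorem sum_deg {C : Finset (Finset α)} (h2 : ∀ e ∈ C, e.card = 2) :
    ∑ x ∈ verts C, (C.filter (fun e => x ∈ e)).card = 2 * C.card := by
  have h := dcount (verts C) C (fun x e => x ∈ e)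
  rw [h]
  have : ∀ e ∈ C, ((verts C).filter (fun x => x ∈ e)).card = 2 := by
    intro e he
    rw [← h2 e he]
    congr 1
    ext x
    rw [mem_filter]
    constructor
    · rintro ⟨_, h⟩; exact h
    · intro h; exact ⟨mem_verts.mpr ⟨e, he, h⟩, h⟩
  rw [sum_congr rfl this, sum_const, smul_eq_mul, mul_comm]

theorem deg_two {C : Finset (Finset α)} (hC : EvenSet C) (hne : C.Nonempty)
    (hmin : ∀ A ⊆ C, EvenSet A → A = ∅ ∨ A = C) :
    (verts C).card = C.card ∧ ∀ x ∈ verts C, (C.filter (fun e => x ∈ e)).card = 2 := by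
  have h1 := card_le_verts hC.1 hne hmin
  have h2 := sum_deg hC.1
  have h3 : ∀ x ∈ verts C, 2 ≤ (C.filter (fun e => x ∈ e)).card := by
    intro x hx
    obtain ⟨e, he, hxe⟩ := mem_verts.mp hx
    have h4 : 0 < (C.filter (fun e => x ∈ e)).card := card_pos.mpr ⟨e, mem_filter.mpr ⟨he, hxe⟩⟩
    obtain ⟨k, hk⟩ := hC.2 x
    omega
  have h4 : ∑ x ∈ verts C, 2 ≤ ∑ x ∈ verts C, (C.filter (fun e => x ∈ e)).card := sum_le_sum h3
  rw [sum_const, smul_eq_mul] at h4
  have h5 : (verts C).card = C.card := by omega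
  refine ⟨h5, ?_⟩
  have h6 : ∑ x ∈ verts C, 2 = ∑ x ∈ verts C, (C.filter (fun e => x ∈ e)).card := by
    rw [sum_const, smul_eq_mul]
    omega
  intro x hx
  exact ((sum_eq_sum_iff_of_le h3).mp h6 x hx).symm

end Min

section Surf
variable {α : Type} [DecidableEq α]

theorem CAdj_symm {C : Finset (Finset α)} {s t : Finset α} (h : CAdj C s t) : CAdj C t s := by
  unfold CAdj at *
  rwa [inter_comm]

theorem ncl_congr {β : Type*} {A : Finset β} {r r' : β → β → Prop}
    (h : ∀ a ∈ A, ∀ b ∈ A, r a b ↔ r' a b) : ncl A r = ncl A r' := by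
  unfold ncl
  have : (fun a b : {x // x ∈ A} => r a.1 b.1) = (fun a b : {x // x ∈ A} => r' a.1 b.1) := by
    funext a b
    exact propext (h a.1 a.2 b.1 b.2)
  rw [this]

theorem ncl_le_of {β : Type*} [DecidableEq β] {A : Finset β} {r r' : β → β → Prop}
    (hs : ∀ a b, r' a b → r' b a)
    (h : ∀ a ∈ A, ∀ b ∈ A, r a b →
      Relation.ReflTransGen (fun a b => a ∈ A ∧ b ∈ A ∧ r' a b) a b) :
    ncl A r' ≤ ncl A r := by
  have := ncl_finite (A := A) (r := r)
  let g : Quot (fun a b : {x // x ∈ A} => r a.1 b.1) → Quot (fun a b : {x // x ∈ A} => r' a.1 b.1) :=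
    Quot.lift (fun x => Quot.mk _ x)
      (fun x y hxy => (quot_eq_iff hs x y).mpr (h x.1 x.2 y.1 y.2 hxy))
  have hg : Function.Surjective g := by
    intro q
    induction q using Quot.inductionOn with | _ q => ?_
    exact ⟨Quot.mk _ q, rfl⟩
  exact Nat.card_le_card_of_surjective _ hg

variable {S C : Finset (Finset α)}

/-- the two faces at a pair -/
theorem two_faces (hc : Closed S) {e : Finset α} (he : e ∈ edgs S) :
    ∃ a b, a ≠ b ∧ S.filter (fun s => e ⊆ s) = {a, b} :=
  card_eq_two.mp (hc.two he)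

theorem edgs_at (hf : IsFam S) (hc : Closed S) (y : α) :
    ((edgs S).filter (fun e => y ∈ e)).card = (star S y).card := by
  have h1 := sum_edeg_at hf y
  rw [sum_congr rfl (fun e he => hc.two (mem_filter.mp he).1), sum_const, smul_eq_mul] at h1
  omega

/-- lower bound for the number of classes of a cut link -/
theorem kapC_ge (hf : IsFam S) (hc : Closed S) (hCS : C ⊆ edgs S) (y : α)
    (h2 : (C.filter (fun e => y ∈ e)).card = 2) : 2 ≤ ncl (star S y) (CAdj C) := by
  classical
  obtain ⟨Ey, hEy⟩ : ∃ Ey, Ey = (edgs S).filter (fun e => y ∈ e) := ⟨_, rfl⟩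
  have hsub : C.filter (fun e => y ∈ e) ⊆ Ey := by
    rw [hEy]; exact filter_subset_filter _ hCS
  have hcard : (Ey \ C.filter (fun e => y ∈ e)).card + 2 = (star S y).card := by
    rw [card_sdiff_of_subset hsub, h2, hEy, edgs_at hf hc]
    have := card_le_card hsub
    rw [h2, hEy, edgs_at hf hc] at this
    omega
  obtain ⟨Ee, hEe⟩ : ∃ Ee, Ee = Ey \ C.filter (fun e => y ∈ e) := ⟨_, rfl⟩
  rw [← hEe] at hcard
  have hEmem : ∀ e, e ∈ Ee ↔ e ∈ edgs S ∧ y ∈ e ∧ e ∉ C := by
    intro e
    rw [hEe, hEy, mem_sdiff, mem_filter, mem_filter]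
    tauto
  have hch : ∀ e : {e // e ∈ Ee}, ∃ a b : {s // s ∈ star S y}, a.1 ≠ b.1 ∧
      S.filter (fun s => e.1 ⊆ s) = {a.1, b.1} := by
    rintro ⟨e, he⟩
    obtain ⟨h3, h4, -⟩ := (hEmem e).mp he
    obtain ⟨a, b, hab, hfab⟩ := two_faces hc h3
    have ha : a ∈ S.filter (fun s => e ⊆ s) := by rw [hfab]; simp
    have hb : b ∈ S.filter (fun s => e ⊆ s) := by rw [hfab]; simp
    rw [mem_filter] at ha hb
    exact ⟨⟨a, mem_filter.mpr ⟨ha.1, ha.2 h4⟩⟩, ⟨b, mem_filter.mpr ⟨hb.1, hb.2 h4⟩⟩, hab, hfab⟩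
  choose f1 f2 hne hfab using hch
  have hrank := rank_cyc f1 f2
  have hV : Fintype.card {s // s ∈ star S y} = (star S y).card := Fintype.card_coe _
  have hE : Fintype.card {e // e ∈ Ee} = Ee.card := Fintype.card_coe _
  rw [hV, hE] at hrank
  have hle : Nat.card (Quot (adjM f1 f2)) ≤ ncl (star S y) (CAdj C) := by
    have := ncl_finite (A := star S y) (r := CAdj C)
    let g : Quot (fun a b : {x // x ∈ star S y} => CAdj C a.1 b.1) → Quot (adjM f1 f2) :=
      Quot.lift (fun x => Quot.mk _ x) (by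
        intro a b hab
        have ha := mem_filter.mp a.2
        have hb := mem_filter.mp b.2
        have he : a.1 ∩ b.1 ∈ Ee := by
          rw [hEmem]
          exact ⟨mem_edgs.mpr ⟨hab.1, a.1, ha.1, inter_subset_left⟩,
            mem_inter.mpr ⟨ha.2, hb.2⟩, hab.2⟩
        have h5 := hfab ⟨_, he⟩
        have ha5 : a.1 ∈ S.filter (fun s => a.1 ∩ b.1 ⊆ s) :=
          mem_filter.mpr ⟨ha.1, inter_subset_left⟩
        have hb5 : b.1 ∈ S.filter (fun s => a.1 ∩ b.1 ⊆ s) :=
          mem_filter.mpr ⟨hb.1, inter_subset_right⟩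
        rw [h5, mem_insert, mem_singleton] at ha5 hb5
        rcases ha5 with ha5 | ha5 <;> rcases hb5 with hb5 | hb5
        · have : a = b := Subtype.ext (ha5.trans hb5.symm)
          rw [this]
        · have h6 : a = f1 ⟨_, he⟩ := Subtype.ext ha5
          have h7 : b = f2 ⟨_, he⟩ := Subtype.ext hb5
          exact Quot.sound ⟨⟨_, he⟩, h6.symm, h7.symm⟩
        · have h6 : a = f2 ⟨_, he⟩ := Subtype.ext ha5
          have h7 : b = f1 ⟨_, he⟩ := Subtype.ext hb5
          exact (Quot.sound ⟨⟨_, he⟩, h7.symm, h6.symm⟩).symm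
        · have : a = b := Subtype.ext (ha5.trans hb5.symm)
          rw [this])
    have hg : Function.Surjective g := by
      intro q
      induction q using Quot.inductionOn with | _ q => ?_
      exact ⟨Quot.mk _ q, rfl⟩
    exact Nat.card_le_card_of_surjective _ hg
  omega

/-- a subset of the star closed under edge adjacency is everything -/
theorem star_all {y : α} (hk : kap S y = 1) {K : Finset (Finset α)} (hK : K ⊆ star S y)
    (hne : K.Nonempty) (hcl : ∀ a ∈ K, ∀ b ∈ star S y, EAdj a b → b ∈ K) : K = star S y := by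
  apply Subset.antisymm hK
  intro t ht
  obtain ⟨a, ha⟩ := hne
  have h1 := (ncl_eq_one_iff (A := star S y) (r := EAdj) (fun a b h => EAdj.symm h)
    ⟨a, hK ha⟩).mp hk a (hK ha) t ht
  induction h1 with
  | refl => exact ha
  | tail _ h3 ih => exact hcl _ (ih h3.1) _ h3.2.1 h3.2.2

/-- parity: a `CAdj`-closed part of a star with an even number of faces at `e1` is closed under
edge adjacency -/
theorem parity_closed (hf : IsFam S) (hc : Closed S) (hC2 : ∀ e ∈ C, e.card = 2) {y : α} {e1 e2 : Finset α}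
    (hCy : C.filter (fun e => y ∈ e) = {e1, e2}) (he12 : e1 ≠ e2)
    {K : Finset (Finset α)} (hK : K ⊆ star S y)
    (hcl : ∀ a ∈ K, ∀ b ∈ star S y, CAdj C a b → b ∈ K) (hev : Even (edeg K e1)) :
    ∀ a ∈ K, ∀ b ∈ star S y, EAdj a b → b ∈ K := by
  have hKS : K ⊆ S := hK.trans (filter_subset _ _)
  have hKf : IsFam K := fun s hs => hf s (hKS hs)
  have hstar : star K y = K := by
    unfold star
    rw [filter_true_of_mem]
    intro s hs
    exact (mem_filter.mp (hK hs)).2
  -- degree of an uncut pair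
  have hdeg : ∀ e ∈ (edgs K).filter (fun e => y ∈ e), e ∉ C → edeg K e = 2 := by
    intro e he heC
    rw [mem_filter] at he
    obtain ⟨he2, a, ha, hea⟩ := mem_edgs.mp he.1
    have heS : e ∈ edgs S := edgs_mono hKS he.1
    rw [← hc.two heS]
    unfold edeg
    congr 1
    ext b
    rw [mem_filter, mem_filter]
    constructor
    · rintro ⟨h1, h2⟩; exact ⟨hKS h1, h2⟩
    · rintro ⟨h1, h2⟩
      refine ⟨?_, h2⟩
      by_cases hab : a = b
      · rw [← hab]; exact ha
      · have hint := inter_pair (hf a (hKS ha)) (hf b h1) he2 hea h2 hab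
        refine hcl a ha b (mem_filter.mpr ⟨h1, h2 he.2⟩) ⟨by rw [hint]; exact he2, ?_⟩
        rw [hint]; exact heC
  have hsum := sum_edeg_at hKf y
  rw [hstar] at hsum
  have hev2 : Even (edeg K e2) := by
    have h1 : (edgs K).filter (fun e => y ∈ e) =
        ((edgs K).filter (fun e => y ∈ e)).filter (fun e => e ∈ C) ∪
        ((edgs K).filter (fun e => y ∈ e)).filter (fun e => e ∉ C) :=
      (filter_union_filter_not_eq _ _).symm
    have h2 : Even (∑ e ∈ ((edgs K).filter (fun e => y ∈ e)).filter (fun e => e ∉ C),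
        edeg K e) := by
      rw [sum_congr rfl (fun e he => hdeg e (mem_filter.mp he).1 (mem_filter.mp he).2), sum_const,
        smul_eq_mul]
      exact even_two.mul_left _
    have h3 : Even (∑ e ∈ ((edgs K).filter (fun e => y ∈ e)).filter (fun e => e ∈ C),
        edeg K e) := by
      have h4 : ∑ e ∈ (edgs K).filter (fun e => y ∈ e), edeg K e =
        ∑ e ∈ ((edgs K).filter (fun e => y ∈ e)).filter (fun e => e ∈ C), edeg K e +
        ∑ e ∈ ((edgs K).filter (fun e => y ∈ e)).filter (fun e => e ∉ C), edeg K e :=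
        (sum_filter_add_sum_filter_not _ _ _).symm
      rw [hsum] at h4
      have h5 : Even (2 * K.card) := even_two_mul _
      rw [h4, Nat.even_add] at h5
      exact h5.mpr h2
    have h6 : ∑ e ∈ ((edgs K).filter (fun e => y ∈ e)).filter (fun e => e ∈ C), edeg K e =
        ∑ e ∈ C.filter (fun e => y ∈ e), edeg K e := by
      apply sum_subset
      · intro e he
        rw [mem_filter, mem_filter] at he
        exact mem_filter.mpr ⟨he.2, he.1.2⟩
      · intro e he he'
        rw [mem_filter] at he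
        by_contra h7
        apply he'
        rw [mem_filter, mem_filter]
        refine ⟨⟨?_, he.2⟩, he.1⟩
        obtain ⟨s, hs, hes⟩ := edeg_pos.mp (Nat.pos_of_ne_zero h7)
        exact mem_edgs.mpr ⟨hC2 e he.1, s, hs, hes⟩
    rw [h6, hCy, sum_pair he12, Nat.even_add] at h3
    exact h3.mp hev
  intro a ha b hb hab
  by_cases hcut : a ∩ b ∈ C
  · have haS := mem_filter.mp (hK ha)
    have hbS := mem_filter.mp hb
    have hy : y ∈ a ∩ b := mem_inter.mpr ⟨haS.2, hbS.2⟩
    have heS : a ∩ b ∈ edgs S := mem_edgs.mpr ⟨hab, a, haS.1, inter_subset_left⟩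
    have h1 : a ∩ b ∈ ({e1, e2} : Finset (Finset α)) := by
      rw [← hCy]; exact mem_filter.mpr ⟨hcut, hy⟩
    have h2 : Even (edeg K (a ∩ b)) := by
      rw [mem_insert, mem_singleton] at h1
      rcases h1 with h1 | h1 <;> rw [h1]
      · exact hev
      · exact hev2
    have h3 : 0 < edeg K (a ∩ b) := edeg_pos.mpr ⟨a, ha, inter_subset_left⟩
    have h4 := hc.two heS
    by_contra hbK
    have h5 : edeg K (a ∩ b) < edeg S (a ∩ b) := by
      apply card_lt_card
      rw [ssubset_iff_of_subset (filter_subset_filter _ hKS)]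
      exact ⟨b, mem_filter.mpr ⟨hbS.1, inter_subset_right⟩, fun h => hbK (mem_filter.mp h).1⟩
    obtain ⟨k, hk⟩ := h2
    omega
  · exact hcl a ha b hb ⟨hab, hcut⟩

open Classical in
/-- the class of `s` in the cut star -/
noncomputable def Kcl (S C : Finset (Finset α)) (y : α) (s : Finset α) : Finset (Finset α) :=
  (star S y).filter (fun t => Relation.ReflTransGen
    (fun a b => a ∈ star S y ∧ b ∈ star S y ∧ CAdj C a b) s t)

theorem mem_Kcl {y : α} {s t : Finset α} : t ∈ Kcl S C y s ↔ t ∈ star S y ∧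
    Relation.ReflTransGen (fun a b => a ∈ star S y ∧ b ∈ star S y ∧ CAdj C a b) s t := by
  classical
  unfold Kcl
  rw [mem_filter]

theorem Kcl_sub (y : α) (s : Finset α) : Kcl S C y s ⊆ star S y := fun _ h => (mem_Kcl.mp h).1

theorem Kcl_self {y : α} {s : Finset α} (hs : s ∈ star S y) : s ∈ Kcl S C y s :=
  mem_Kcl.mpr ⟨hs, Relation.ReflTransGen.refl⟩

theorem Kcl_closed {y : α} {s : Finset α} :
    ∀ a ∈ Kcl S C y s, ∀ b ∈ star S y, CAdj C a b → b ∈ Kcl S C y s := by
  intro a ha b hb hab
  have h1 := mem_Kcl.mp ha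
  exact mem_Kcl.mpr ⟨hb, h1.2.tail ⟨h1.1, hb, hab⟩⟩

/-- hypothesis (H) for a cycle -/
theorem hypH (hS : IsSurf S) (hCS : C ⊆ edgs S) (hC2 : ∀ e ∈ C, e.card = 2)
    (hdeg : ∀ x ∈ verts C, (C.filter (fun e => x ∈ e)).card = 2) : HypH S C := by
  obtain ⟨hf, hc, hk⟩ := hS
  intro s hs t ht hst hcut h2 y hy hchain
  have hyC : y ∈ verts C := mem_verts.mpr ⟨_, hcut, hy⟩
  have hys : y ∈ s := (mem_inter.mp hy).1
  have hyt : y ∈ t := (mem_inter.mp hy).2
  have hsS : s ∈ star S y := mem_filter.mpr ⟨hs, hys⟩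
  have htS : t ∈ star S y := mem_filter.mpr ⟨ht, hyt⟩
  have hyS : y ∈ verts S := mem_verts.mpr ⟨s, hs, hys⟩
  have hge := kapC_ge hf hc hCS y (hdeg y hyC)
  obtain ⟨a, b, hab, hCab⟩ := card_eq_two.mp (hdeg y hyC)
  obtain ⟨e1, e2, he12, hCy, he1⟩ : ∃ e1 e2, e1 ≠ e2 ∧
      C.filter (fun e => y ∈ e) = {e1, e2} ∧ s ∩ t = e1 := by
    have h1 : s ∩ t ∈ ({a, b} : Finset (Finset α)) := by
      rw [← hCab]; exact mem_filter.mpr ⟨hcut, hy⟩
    rw [mem_insert, mem_singleton] at h1
    rcases h1 with h1 | h1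
    · exact ⟨a, b, hab, hCab, h1⟩
    · exact ⟨b, a, hab.symm, by rw [hCab, pair_comm], h1⟩
  have htK : t ∈ Kcl S C y s := mem_Kcl.mpr ⟨htS, hchain⟩
  have hsK : s ∈ Kcl S C y s := Kcl_self hsS
  have hKS : Kcl S C y s ⊆ S := (Kcl_sub y s).trans (filter_subset _ _)
  have hev : Even (edeg (Kcl S C y s) e1) := by
    have h1 : edeg (Kcl S C y s) e1 ≤ edeg S e1 := edeg_mono hKS e1
    have h3 : edeg S e1 = 2 := by
      rw [← he1]; exact hc.two (hCS hcut)
    have h4 : 2 ≤ edeg (Kcl S C y s) e1 := by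
      have h5 : ({s, t} : Finset (Finset α)) ⊆ (Kcl S C y s).filter (fun u => e1 ⊆ u) := by
        intro u hu
        rw [mem_insert, mem_singleton] at hu
        rw [mem_filter, ← he1]
        rcases hu with rfl | rfl
        · exact ⟨hsK, inter_subset_left⟩
        · exact ⟨htK, inter_subset_right⟩
      have h6 := card_le_card h5
      rw [card_pair hst] at h6
      exact h6
    have : edeg (Kcl S C y s) e1 = 2 := by omega
    rw [this]
    exact even_two
  have hall := star_all (hk y hyS) (Kcl_sub y s) ⟨s, hsK⟩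
    (parity_closed hf hc hC2 hCy he12 (Kcl_sub y s) Kcl_closed hev)
  have hone : ncl (star S y) (CAdj C) = 1 := by
    rw [ncl_eq_one_iff (fun a b h => CAdj_symm h) ⟨s, hsS⟩]
    intro u hu w hw
    rw [← hall] at hu hw
    have h1 := (mem_Kcl.mp hu).2
    have h2 := (mem_Kcl.mp hw).2
    exact (rtg_symm (fun a b h => ⟨h.2.1, h.1, CAdj_symm h.2.2⟩) h1).trans h2
  omega

/-- exactly two classes at a vertex of the cycle -/
theorem kapC_two (hS : IsSurf S) (hCS : C ⊆ edgs S) (hC2 : ∀ e ∈ C, e.card = 2)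
    (hdeg : ∀ x ∈ verts C, (C.filter (fun e => x ∈ e)).card = 2) {y : α} (hyC : y ∈ verts C) :
    kapC S C y = 2 := by
  obtain ⟨hf, hc, hk⟩ := hS
  have hge := kapC_ge hf hc hCS y (hdeg y hyC)
  apply le_antisymm _ hge
  obtain ⟨e1, e2, he12, hCy⟩ := card_eq_two.mp (hdeg y hyC)
  have he1 : e1 ∈ C.filter (fun e => y ∈ e) := by rw [hCy]; simp
  rw [mem_filter] at he1
  obtain ⟨s, t, hst, hface⟩ := two_faces hc (hCS he1.1)
  have hs : s ∈ S ∧ e1 ⊆ s := by
    rw [← mem_filter (p := fun s => e1 ⊆ s), hface]; simp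
  have ht : t ∈ S ∧ e1 ⊆ t := by
    rw [← mem_filter (p := fun s => e1 ⊆ s), hface]; simp
  have hsS : s ∈ star S y := mem_filter.mpr ⟨hs.1, hs.2 he1.2⟩
  have htS : t ∈ star S y := mem_filter.mpr ⟨ht.1, ht.2 he1.2⟩
  have hyS : y ∈ verts S := mem_verts.mpr ⟨s, hs.1, hs.2 he1.2⟩
  have hcard : ({s, t} : Finset (Finset α)).card = 2 := card_pair hst
  change ncl (star S y) (CAdj C) ≤ 2
  rw [← hcard]
  apply ncl_le_reps (fun a b h => CAdj_symm h)
  · intro u hu
    rw [mem_insert, mem_singleton] at hu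
    rcases hu with rfl | rfl
    · exact hsS
    · exact htS
  · intro a ha
    by_contra hcon
    push Not at hcon
    have hsn : s ∉ Kcl S C y a := fun h => hcon s (by simp) (mem_Kcl.mp h).2
    have htn : t ∉ Kcl S C y a := fun h => hcon t (by simp) (mem_Kcl.mp h).2
    have hKS : Kcl S C y a ⊆ S := (Kcl_sub y a).trans (filter_subset _ _)
    have hz : edeg (Kcl S C y a) e1 = 0 := by
      unfold edeg
      rw [card_eq_zero, filter_eq_empty_iff]
      intro u hu hu1
      have h1 : u ∈ S.filter (fun s => e1 ⊆ s) := mem_filter.mpr ⟨hKS hu, hu1⟩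
      rw [hface, mem_insert, mem_singleton] at h1
      rcases h1 with rfl | rfl
      · exact hsn hu
      · exact htn hu
    have hall := star_all (hk y hyS) (Kcl_sub y a) ⟨a, Kcl_self ha⟩
      (parity_closed hf hc hC2 hCy he12 (Kcl_sub y a) Kcl_closed (by rw [hz]; exact even_two_mul 0))
    exact hsn (by rw [hall]; exact hsS)

theorem kapC_one (hS : IsSurf S) {y : α} (hyS : y ∈ verts S) (hyC : y ∉ verts C) :
    kapC S C y = 1 := by
  rw [← hS.2.2 y hyS]
  unfold kapC kap
  apply ncl_congr
  intro a ha b hb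
  have ha' := mem_filter.mp ha
  have hb' := mem_filter.mp hb
  constructor
  · intro h; exact h.1
  · intro h
    exact ⟨h, fun hC => hyC (mem_verts.mpr ⟨_, hC, mem_inter.mpr ⟨ha'.2, hb'.2⟩⟩)⟩

open Classical in
/-- cutting along a non-bounding minimal cycle does not disconnect -/
theorem ncl_cut (hf : IsFam S) (hc : Closed S) (hCS : C ⊆ edgs S)
    (hmin : ∀ A ⊆ C, EvenSet A → A = ∅ ∨ A = C) (hnb : ¬ ∃ B ⊆ S, bdF B = C) :
    ncl S (CAdj C) = b0 S := by
  apply le_antisymm
  · unfold b0
    apply ncl_le_of (fun a b h => CAdj_symm h)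
    intro s hs t ht hst
    by_cases hcut : s ∩ t ∈ C
    · by_contra hchain
      obtain ⟨K, hK⟩ : ∃ K, K = S.filter (fun u => Relation.ReflTransGen
          (fun a b => a ∈ S ∧ b ∈ S ∧ CAdj C a b) s u) := ⟨_, rfl⟩
      have hKS : K ⊆ S := by rw [hK]; exact filter_subset _ _
      have hsK : s ∈ K := by rw [hK]; exact mem_filter.mpr ⟨hs, Relation.ReflTransGen.refl⟩
      have htK : t ∉ K := by
        rw [hK]; intro h; exact hchain (mem_filter.mp h).2
      have hcl : ∀ a ∈ K, ∀ b ∈ S, CAdj C a b → b ∈ K := by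
        intro a ha b hb hab
        rw [hK] at ha ⊢
        exact mem_filter.mpr ⟨hb, (mem_filter.mp ha).2.tail ⟨(mem_filter.mp ha).1, hb, hab⟩⟩
      have hKf : IsFam K := fun u hu => hf u (hKS hu)
      have hsub : bdF K ⊆ C := by
        intro e he
        obtain ⟨he2, hodd⟩ := mem_bdF.mp he
        have heS : e ∈ edgs S := edgs_mono hKS (bdF_subset he)
        obtain ⟨a, ha, hea⟩ := (mem_edgs.mp (bdF_subset he)).2
        by_contra heC
        have h1 : edeg K e = edeg S e := by
          unfold edeg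
          congr 1
          ext b
          rw [mem_filter, mem_filter]
          constructor
          · rintro ⟨h1, h2⟩; exact ⟨hKS h1, h2⟩
          · rintro ⟨h1, h2⟩
            refine ⟨?_, h2⟩
            by_cases hab : a = b
            · rw [← hab]; exact ha
            · have hint := inter_pair (hf a (hKS ha)) (hf b h1) he2 hea h2 hab
              exact hcl a ha b h1 ⟨by rw [hint]; exact he2, by rw [hint]; exact heC⟩
        rw [h1, hc.two heS] at hodd
        exact absurd hodd (by decide)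
      have hmem : s ∩ t ∈ bdF K := by
        rw [mem_bdF]
        refine ⟨hst, ?_⟩
        have h1 : 0 < edeg K (s ∩ t) := edeg_pos.mpr ⟨s, hsK, inter_subset_left⟩
        have h2 : edeg K (s ∩ t) < edeg S (s ∩ t) := by
          apply card_lt_card
          rw [ssubset_iff_of_subset (filter_subset_filter _ hKS)]
          exact ⟨t, mem_filter.mpr ⟨ht, inter_subset_right⟩, fun h => htK (mem_filter.mp h).1⟩
        have h3 := hc.two (hCS hcut)
        have h4 : edeg K (s ∩ t) = 1 := by omega
        rw [h4]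
        decide
      rcases hmin _ hsub (bdF_even hKf) with h | h
      · rw [h] at hmem; exact absurd hmem (notMem_empty _)
      · exact hnb ⟨K, hKS, h⟩
    · exact Relation.ReflTransGen.single ⟨hs, ht, hst, hcut⟩
  · unfold b0
    apply ncl_le_of (fun a b h => EAdj.symm h)
    intro s hs t ht hst
    exact Relation.ReflTransGen.single ⟨hs, ht, hst.1⟩

theorem freeS_card (hc : Closed S) (hCS : C ⊆ edgs S) :
    (freeS S C).card = 2 * C.card := by
  have h1 : freeS S C = C.biUnion (fun e => (S.filter (fun s => e ⊆ s)).image (fun s => (s, e))) := by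
    ext ⟨s, e⟩
    rw [freeS, mem_filter, mem_product, mem_biUnion]
    constructor
    · rintro ⟨⟨hs, he⟩, hes, h⟩
      have hs' : s ∈ S := hs
      have he' : e ∈ edgs S := he
      have hes' : e ⊆ s := hes
      rcases h with h | h
      · exact ⟨e, h, mem_image.mpr ⟨s, mem_filter.mpr ⟨hs', hes'⟩, rfl⟩⟩
      · have h' : edeg S e = 1 := h
        rw [hc.two he'] at h'
        exact absurd h' (by norm_num)
    · rintro ⟨e', he', h⟩
      obtain ⟨s', hs', heq⟩ := mem_image.mp h
      rw [Prod.mk.injEq] at heq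
      obtain ⟨rfl, rfl⟩ := heq
      rw [mem_filter] at hs'
      exact ⟨⟨hs'.1, hCS he'⟩, hs'.2, Or.inl he'⟩
  rw [h1, card_biUnion]
  · have h2 : ∀ e ∈ C, ((S.filter (fun s => e ⊆ s)).image (fun s => (s, e))).card = 2 := by
      intro e he
      rw [card_image_of_injective _ (fun a b h => (Prod.mk.injEq _ _ _ _ ▸ h).1)]
      exact hc.two (hCS he)
    rw [sum_congr rfl h2, sum_const, smul_eq_mul, mul_comm]
  · intro e _ e' _ hne
    change Disjoint _ _
    rw [disjoint_left]
    intro x hx hx'
    obtain ⟨s, _, rfl⟩ := mem_image.mp hx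
    obtain ⟨s', _, h⟩ := mem_image.mp hx'
    rw [Prod.mk.injEq] at h
    exact hne h.2.symm

end Surf

section Main
variable {α : Type} [DecidableEq α]

theorem bd_symm {S A B : Finset (Finset α)} (hA : ∃ A' ⊆ S, bdF A' = A) (hB : ∃ B' ⊆ S, bdF B' = B) :
    ∃ B' ⊆ S, bdF B' = symmDiff A B := by
  obtain ⟨A', hA', rfl⟩ := hA
  obtain ⟨B', hB', rfl⟩ := hB
  refine ⟨symmDiff A' B', ?_, bdF_symmDiff A' B'⟩
  intro x hx
  rw [mem_symmDiff] at hx
  rcases hx with hx | hx
  · exact hA' hx.1
  · exact hB' hx.1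

/-- a minimal non-bounding cycle -/
theorem exists_min {S : Finset (Finset α)} {L : ℕ} (h : ¬ ShortNull S L) :
    ∃ C ⊆ edgs S, EvenSet C ∧ C.Nonempty ∧ C.card ≤ L ∧ (¬ ∃ B ⊆ S, bdF B = C) ∧
      ∀ A ⊆ C, EvenSet A → A = ∅ ∨ A = C := by
  classical
  unfold ShortNull at h
  push Not at h
  obtain ⟨u, hu1, hu2, hu3, hu4⟩ := h
  obtain ⟨NB, hNB⟩ : ∃ NB : Finset (Finset (Finset α)), NB = (edgs S).powerset.filter
      (fun A => EvenSet A ∧ ¬ ∃ B ⊆ S, bdF B = A) := ⟨_, rfl⟩
  have hmem : ∀ A, A ∈ NB ↔ A ⊆ edgs S ∧ EvenSet A ∧ ¬ ∃ B ⊆ S, bdF B = A := by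
    intro A
    rw [hNB, mem_filter, mem_powerset]
  have huNB : cls u ∈ NB := by
    rw [hmem]
    refine ⟨cls_sub hu2, cls_even hu1 hu2, ?_⟩
    rintro ⟨B, hB, hBu⟩
    exact hu4 B hB hBu
  obtain ⟨C, hC, hCmin⟩ := exists_min_image NB card ⟨_, huNB⟩
  obtain ⟨h1, h2, h3⟩ := (hmem C).mp hC
  refine ⟨C, h1, h2, ?_, ?_, h3, ?_⟩
  · rw [nonempty_iff_ne_empty]
    rintro rfl
    exact h3 ⟨∅, empty_subset _, by simp [bdF, edgs]⟩
  · have h4 := hCmin _ huNB
    have h5 := cls_card u
    omega
  · intro A hA hAe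
    by_contra hcon
    push Not at hcon
    obtain ⟨hA0, hAC⟩ := hcon
    have hss : A ⊂ C := ⟨hA, fun h => hAC (Subset.antisymm hA h)⟩
    have hAb : ∃ B ⊆ S, bdF B = A := by
      by_contra hn
      have := hCmin A ((hmem A).mpr ⟨hA.trans h1, hAe, hn⟩)
      have := card_lt_card hss
      omega
    have hD : symmDiff C A = C \ A := by
      ext x
      rw [mem_symmDiff, mem_sdiff]
      constructor
      · rintro (h | h)
        · exact h
        · exact absurd (hA h.1) h.2
      · intro h; exact Or.inl h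
    have hDb : ∃ B ⊆ S, bdF B = C \ A := by
      by_contra hn
      have h4 := hCmin (C \ A) ((hmem _).mpr ⟨sdiff_subset.trans h1, by
        rw [← hD]; exact EvenSet.symmDiff h2 hAe, hn⟩)
      have h5 : (C \ A).card = C.card - A.card := card_sdiff_of_subset hA
      have h6 : 0 < A.card := card_pos.mpr hA0
      have h7 := card_le_card hA
      omega
    apply h3
    have h8 := bd_symm hAb hDb
    have h9 : symmDiff A (C \ A) = C := by
      ext x
      rw [mem_symmDiff, mem_sdiff]
      constructor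
      · rintro (h | h)
        · exact hA h.1
        · exact h.1.1
      · intro h
        by_cases hx : x ∈ A
        · exact Or.inl ⟨hx, fun h => h.2 hx⟩
        · exact Or.inr ⟨⟨h, hx⟩, hx⟩
    rwa [h9] at h8

end Main

end Ph1

open Ph1

/-- `chi ≤ 2 b0` -/
theorem surf_chi_le {α : Type} [DecidableEq α] {S : Finset (Finset α)} (hS : IsSurf S) :
    Ph2 S ≤ 4 * (b0 S : ℤ) := by
  classical
  obtain ⟨hf, hc, -⟩ := hS
  have hfin := ncl_finite (A := S) (r := EAdj)
  have := Fintype.ofFinite (Quot (fun a b : {x // x ∈ S} => EAdj a.1 b.1))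
  obtain ⟨K, hK⟩ : ∃ K : Quot (fun a b : {x // x ∈ S} => EAdj a.1 b.1) → Finset (Finset α),
      K = fun q => S.filter (fun s => ∃ h : s ∈ S,
        Quot.mk (fun a b : {x // x ∈ S} => EAdj a.1 b.1) ⟨s, h⟩ = q) := ⟨_, rfl⟩
  have hmem : ∀ q s, s ∈ K q ↔ ∃ h : s ∈ S,
      Quot.mk (fun a b : {x // x ∈ S} => EAdj a.1 b.1) ⟨s, h⟩ = q := by
    intro q s
    rw [hK, mem_filter]
    constructor
    · rintro ⟨_, h⟩; exact h
    · rintro ⟨h, h'⟩; exact ⟨h, h, h'⟩
  have hKS : ∀ q, K q ⊆ S := fun q s hs => ((hmem q s).mp hs).1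
  have hcl : ∀ q, ∀ a ∈ K q, ∀ b ∈ S, EAdj a b → b ∈ K q := by
    intro q a ha b hb hab
    obtain ⟨h, h'⟩ := (hmem q a).mp ha
    refine (hmem q b).mpr ⟨hb, ?_⟩
    rw [← h']
    exact (Quot.sound (r := fun a b : {x // x ∈ S} => EAdj a.1 b.1) (a := ⟨a, h⟩) (b := ⟨b, hb⟩)
      hab).symm
  have hne : ∀ q, (K q).Nonempty := by
    intro q
    induction q using Quot.inductionOn with | _ q => ?_
    exact ⟨q.1, (hmem _ _).mpr ⟨q.2, rfl⟩⟩
  have hPh : ∀ q, Ph2 (K q) ≤ 4 := by
    intro q
    apply closed_Ph2_le (fun s hs => hf s (hKS q hs)) _ _ (hne q)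
    · intro e he
      by_cases h0 : edeg (K q) e = 0
      · exact Or.inl h0
      · right
        obtain ⟨a, ha, hea⟩ := edeg_pos.mp (Nat.pos_of_ne_zero h0)
        have heS : e ∈ edgs S := mem_edgs.mpr ⟨he, a, hKS q ha, hea⟩
        rw [← hc.two heS]
        unfold edeg
        congr 1
        ext b
        rw [mem_filter, mem_filter]
        constructor
        · rintro ⟨h1, h2⟩; exact ⟨hKS q h1, h2⟩
        · rintro ⟨h1, h2⟩
          refine ⟨?_, h2⟩
          by_cases hab : a = b
          · rw [← hab]; exact ha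
          · have hint := inter_pair (hf a (hKS q ha)) (hf b h1) he hea h2 hab
            exact hcl q a ha b h1 (by unfold EAdj; rw [hint]; exact he)
    · intro s hs t ht
      obtain ⟨h1, h1'⟩ := (hmem q s).mp hs
      obtain ⟨h2, h2'⟩ := (hmem q t).mp ht
      have h3 := (quot_eq_iff (r := EAdj) (fun a b h => EAdj.symm h) (⟨s, h1⟩ : {x // x ∈ S})
        ⟨t, h2⟩).mp (h1'.trans h2'.symm)
      simp only at h3
      have h4 : ∀ w, Relation.ReflTransGen (fun a b => a ∈ S ∧ b ∈ S ∧ EAdj a b) s w →
          w ∈ K q ∧ Relation.ReflTransGen (fun a b => a ∈ K q ∧ b ∈ K q ∧ EAdj a b) s w := by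
        intro w hw
        induction hw with
        | refl => exact ⟨hs, Relation.ReflTransGen.refl⟩
        | tail _ h6 ih =>
          have h7 := hcl q _ ih.1 _ h6.2.1 h6.2.2
          exact ⟨h7, ih.2.tail ⟨ih.1, h7, h6.2.2⟩⟩
      exact (h4 t h3).2
  have hcardS : S.card = ∑ q, (K q).card := by
    have h1 : S = univ.biUnion K := by
      ext s
      rw [mem_biUnion]
      constructor
      · intro hs; exact ⟨Quot.mk _ ⟨s, hs⟩, mem_univ _, (hmem _ _).mpr ⟨hs, rfl⟩⟩
      · rintro ⟨q, _, hs⟩; exact hKS q hs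
    conv_lhs => rw [h1]
    apply card_biUnion
    intro q _ q' _ hqq
    change Disjoint _ _
    rw [disjoint_left]
    intro s hs hs'
    obtain ⟨h1, h1'⟩ := (hmem q s).mp hs
    obtain ⟨h2, h2'⟩ := (hmem q' s).mp hs'
    exact hqq (h1'.symm.trans h2')
  have hcardV : (verts S).card ≤ ∑ q, (verts (K q)).card := by
    refine le_trans (card_le_card ?_) card_biUnion_le
    intro x hx
    obtain ⟨s, hs, hxs⟩ := mem_verts.mp hx
    rw [mem_biUnion]
    exact ⟨Quot.mk _ ⟨s, hs⟩, mem_univ _, mem_verts.mpr ⟨s, (hmem _ _).mpr ⟨hs, rfl⟩, hxs⟩⟩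
  have hb : (b0 S : ℤ) = (Fintype.card (Quot (fun a b : {x // x ∈ S} => EAdj a.1 b.1)) : ℤ) := by
    unfold b0 ncl
    rw [Nat.card_eq_fintype_card]
  have hsum : ∑ q, Ph2 (K q) ≤ ∑ _q : Quot (fun a b : {x // x ∈ S} => EAdj a.1 b.1), (4 : ℤ) :=
    sum_le_sum (fun q _ => hPh q)
  rw [sum_const, card_univ, nsmul_eq_mul] at hsum
  rw [hb]
  have h1 : Ph2 S ≤ ∑ q, Ph2 (K q) := by
    unfold Ph2
    rw [sum_sub_distrib, ← mul_sum]
    have h2 : ((verts S).card : ℤ) ≤ ∑ q, ((verts (K q)).card : ℤ) := by exact_mod_cast hcardV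
    have h3 : (S.card : ℤ) = ∑ q, ((K q).card : ℤ) := by exact_mod_cast hcardS
    linarith
  linarith

/-- one step of Phase 1 -/
theorem phase1_step {α : Type} [DecidableEq α] {S : Finset (Finset α)} (hS : IsSurf S) (L : ℕ)
    (h : ¬ ShortNull S L) : ∃ (β : Type) (_ : DecidableEq β) (S' : Finset (Finset β)),
      IsSurf S' ∧ S'.card ≤ S.card + 2 * L ∧ b0 S' = b0 S ∧ Ph2 S + 2 ≤ Ph2 S' ∧
      Enc S S' (2 * L + 2) := by
  obtain ⟨C, hCS, hCe, hCne, hCL, hCnb, hCmin⟩ := exists_min h
  obtain ⟨hVC, hdeg⟩ := deg_two hCe hCne hCmin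
  have hfree := freeS_card hS.2.1 hCS
  obtain ⟨X⟩ := exists_cutcap S C hS.1 (fun e => by
    by_cases he : e.card = 2
    · left
      rcases hS.2.1 e he with h | h <;> omega
    · exact Or.inr he) hCe.1 (hypH hS hCS hCe.1 hdeg)
  have hCpos : 0 < C.card := card_pos.mpr hCne
  have hh1 : 1 ≤ X.h := X.h_pos (by rw [hfree]; omega)
  have hh3 := X.h_le
  rw [hfree] at hh3
  have hVCS : verts C ⊆ verts S := by
    intro x hx
    obtain ⟨e, he, hxe⟩ := mem_verts.mp hx
    obtain ⟨_, s, hs, hes⟩ := mem_edgs.mp (hCS he)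
    exact mem_verts.mpr ⟨s, hs, hes hxe⟩
  have hkapsum : ∑ x ∈ verts S, kapC S C x = (verts S).card + C.card := by
    have h1 : ∀ x ∈ verts S, kapC S C x = 1 + if x ∈ verts C then 1 else 0 := by
      intro x hx
      by_cases hxC : x ∈ verts C
      · rw [if_pos hxC, kapC_two hS hCS hCe.1 hdeg hxC]
      · rw [if_neg hxC, kapC_one hS hx hxC]
    rw [sum_congr rfl h1, sum_add_distrib, sum_const, smul_eq_mul, mul_one, sum_boole,
      filter_mem_eq_inter, inter_eq_right.mpr hVCS, hVC]
    simp
  have hkapsum' : ∑ x ∈ verts S, (kapC S C x - 1) = C.card := by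
    have h1 : ∀ x ∈ verts S, kapC S C x - 1 = if x ∈ verts C then 1 else 0 := by
      intro x hx
      by_cases hxC : x ∈ verts C
      · rw [if_pos hxC, kapC_two hS hCS hCe.1 hdeg hxC]
      · rw [if_neg hxC, kapC_one hS hx hxC]
    rw [sum_congr rfl h1, sum_boole, filter_mem_eq_inter, inter_eq_right.mpr hVCS, hVC]
    simp
  have hcardV := X.card_V
  have hcardS := X.card_S
  rw [hkapsum] at hcardV
  rw [hfree] at hcardS
  refine ⟨X.β, X.dec, X.S, X.surf, ?_, ?_, ?_, ?_⟩
  · omega
  · rw [X.b0_eq]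
    exact ncl_cut hS.1 hS.2.1 hCS hCmin hCnb
  · unfold Ph2
    rw [hcardV, hcardS]
    push_cast
    have : (1 : ℤ) ≤ X.h := by exact_mod_cast hh1
    linarith
  · apply CutCap.enc_le hS.1 X
    rw [hkapsum']
    omega

theorem phase1 {α : Type} [DecidableEq α] {S : Finset (Finset α)} (hS : IsSurf S) (L B : ℕ)
    (hB : 4 * (b0 S : ℤ) - Ph2 S ≤ 2 * B) :
    ∃ (β : Type) (_ : DecidableEq β) (S' : Finset (Finset β)),
      IsSurf S' ∧ ShortNull S' L ∧ S'.card ≤ S.card + 2 * L * B ∧ b0 S' = b0 S ∧
      Enc S S' (B * (2 * L + 2)) := by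
  induction B generalizing α with
  | zero =>
    by_cases hsn : ShortNull S L
    · exact ⟨α, inferInstance, S, hS, hsn, by omega, rfl, (Enc.refl S).mono (Nat.zero_le _)⟩
    · exfalso
      obtain ⟨β, hβ, S', h1, h2, h3, h4, h5⟩ := phase1_step hS L hsn
      have h6 := surf_chi_le h1
      rw [h3] at h6
      push_cast at hB
      linarith
  | succ B ih =>
    by_cases hsn : ShortNull S L
    · exact ⟨α, inferInstance, S, hS, hsn, by omega, rfl, (Enc.refl S).mono (Nat.zero_le _)⟩
    · obtain ⟨β, hβ, S', h1, h2, h3, h4, h5⟩ := phase1_step hS L hsn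
      obtain ⟨β', hβ', S'', g1, g2, g3, g4, g5⟩ := ih h1 (by
        rw [h3]
        push_cast at hB
        linarith)
      refine ⟨β', hβ', S'', g1, g2, ?_, g4.trans h3, ?_⟩
      · have : 2 * L * (B + 1) = 2 * L * B + 2 * L := by ring
        omega
      · refine (h5.trans g5).mono (le_of_eq ?_)
        ring

end Pool.Agent.SC
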