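import Pool.Agent.Lib.MP_d0323d_co.Prob

/-!
# Rounds of exposure (upper side)

Section 12 of the proof: a null relation which is dense enough becomes complete.
-/

set_option autoImplicit false

open Finset Filter Topology

namespace Pool.Agent.SC.Rnd
open Pool.Agent.SC

/-! ### More on random subsets -/

section general

variable {α : Type*} [DecidableEq α]

/-- at least one of many independent events -/
theorem Pr_exists_ge {ι : Type*} [DecidableEq ι] (s : Finset ι) (U : ι → Finset α)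
    (W : Finset α)
    (hd : ∀ i ∈ s, ∀ j ∈ s, i ≠ j → Disjoint (U i) (U j)) (hW : ∀ i ∈ s, U i ⊆ W) {p q : ℝ}
    (h0 : 0 ≤ p) (h1 : p ≤ 1) (A : ι → Finset α → Prop)
    (hA : ∀ i ∈ s, q ≤ Pr (U i) p (A i)) :
    1 - (1 - q) ^ s.card ≤ Pr W p (fun F => ∃ i ∈ s, A i (F ∩ U i)) := by
  have h2 := Pr_not W p (fun F => ∃ i ∈ s, A i (F ∩ U i))
  have h3 : Pr W p (fun F => ¬ ∃ i ∈ s, A i (F ∩ U i)) =
      Pr W p (fun F => ∀ i ∈ s, (fun i H => ¬ A i H) i (F ∩ U i)) := by
    apply Pr_congr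
    intro F _
    push Not
    rfl
  rw [h3, Pr_forall s U W hd hW p (fun i H => ¬ A i H)] at h2
  have h4 : ∏ i ∈ s, Pr (U i) p (fun H => ¬ A i H) ≤ (1 - q) ^ s.card := by
    rw [← Finset.prod_const]
    apply Finset.prod_le_prod
    · intro i _
      exact Pr_nonneg h0 h1 _
    · intro i hi
      rw [Pr_not]
      linarith [hA i hi]
  linarith

open Classical in
/-- the lower tail, in a form which is convenient to apply -/
theorem Pr_of_lower_tail {ι : Type*} [DecidableEq ι] (s : Finset ι) (U : ι → Finset α)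
    (W : Finset α)
    (hd : ∀ i ∈ s, ∀ j ∈ s, i ≠ j → Disjoint (U i) (U j)) (hW : ∀ i ∈ s, U i ⊆ W) {p q : ℝ}
    (h0 : 0 ≤ p) (h1 : p ≤ 1) (hq : 0 ≤ q) (A : ι → Finset α → Prop)
    (hA : ∀ i ∈ s, q ≤ Pr (U i) p (A i)) (C : Finset α → Prop)
    (hC : ∀ F, F ⊆ W → ∀ X, X ⊆ s → (∀ i ∈ X, A i (F ∩ U i)) →
      q * s.card / 2 < X.card → C F) :
    1 - Real.exp (-(q * s.card / 8)) ≤ Pr W p C := by
  have h2 := Pr_lower_tail s U W hd hW h0 h1 hq A hA
  have h3 := Pr_not W p (fun F => ((s.filter (fun i => A i (F ∩ U i))).card : ℝ) ≤ q * s.card / 2)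
  have h4 : Pr W p (fun F => ¬ ((s.filter (fun i => A i (F ∩ U i))).card : ℝ) ≤
      q * s.card / 2) ≤ Pr W p C := by
    apply Pr_mono h0 h1
    intro F hF h
    exact hC F hF (s.filter (fun i => A i (F ∩ U i))) (Finset.filter_subset _ _)
      (fun i hi => (Finset.mem_filter.mp hi).2) (not_le.mp h)
  linarith

theorem one_sub_pow_ge {t : ℝ} (h0 : 0 ≤ t) (h1 : t ≤ 1) (k : ℕ) :
    min (1 / 2) (k * t / 2) ≤ 1 - (1 - t) ^ k := by
  have h2 : (1 - t) ^ k ≤ Real.exp (-(k * t)) := by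
    have h3 : 1 - t ≤ Real.exp (-t) := by
      have := Real.add_one_le_exp (-t)
      linarith
    calc (1 - t) ^ k ≤ (Real.exp (-t)) ^ k := pow_le_pow_left₀ (by linarith) h3 k
      _ = Real.exp (-(k * t)) := by
        rw [← Real.exp_nat_mul]
        congr 1
        ring
  have hkt : 0 ≤ k * t := by positivity
  by_cases h : k * t ≤ 1
  · have h4 : Real.exp (-(k * t)) ≤ 1 - k * t / 2 := by
      have h5 : Real.exp (-(k * t)) ≤ 1 / (1 + k * t) := by
        rw [Real.exp_neg, one_div]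
        apply inv_anti₀ (by positivity)
        linarith [Real.add_one_le_exp (k * t)]
      refine h5.trans ?_
      rw [div_le_iff₀ (by positivity)]
      nlinarith
    have := min_le_right (1 / 2 : ℝ) (k * t / 2)
    linarith
  · have h4 : Real.exp (-(k * t)) ≤ 1 / 2 := by
      have h5 : Real.exp (-(k * t)) ≤ Real.exp (-1) := Real.exp_le_exp.mpr (by linarith)
      have h6 := Real.exp_neg_one_lt_d9
      linarith
    have := min_le_left (1 / 2 : ℝ) (k * t / 2)
    linarith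

end general

/-! ### Null relations -/

theorem mem_tri {n : ℕ} {s : Finset (Fin n)} : s ∈ tri n ↔ s.card = 3 := by
  simp [tri]

/-- an abstract null relation: `R F x y` should be read as: the generator `xy` is trivial in
the group of `F` -/
structure NulRel {n : ℕ} (o : Fin n) (R : Finset (Finset (Fin n)) → Fin n → Fin n → Prop) :
    Prop where
  symm : ∀ F x y, R F x y → R F y x
  mono : ∀ F G x y, F ⊆ G → R F x y → R G x y
  r1 : ∀ F x y, x ≠ y → x ≠ o → y ≠ o → ({o, x, y} : Finset (Fin n)) ∈ F → R F x y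
  r2 : ∀ F x u y, x ≠ o → u ≠ o → y ≠ o → x ≠ u → u ≠ y → x ≠ y → R F x u → R F u y →
    ({x, u, y} : Finset (Fin n)) ∈ F → R F x y

variable {n : ℕ} {o : Fin n} {R : Finset (Finset (Fin n)) → Fin n → Fin n → Prop}

open Classical in
/-- neighbours -/
noncomputable def Nb (o : Fin n) (R : Finset (Finset (Fin n)) → Fin n → Fin n → Prop)
    (F : Finset (Finset (Fin n))) (x : Fin n) : Finset (Fin n) :=
  Finset.univ.filter (fun y => y ≠ o ∧ y ≠ x ∧ R F x y)

theorem mem_Nb {F : Finset (Finset (Fin n))} {x y : Fin n} :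
    y ∈ Nb o R F x ↔ y ≠ o ∧ y ≠ x ∧ R F x y := by
  simp [Nb]

theorem Nb_mono (hR : NulRel o R) {F G : Finset (Finset (Fin n))} (h : F ⊆ G) (x : Fin n) :
    Nb o R F x ⊆ Nb o R G x := by
  intro y hy
  rw [mem_Nb] at hy ⊢
  exact ⟨hy.1, hy.2.1, hR.mono F G x y h hy.2.2⟩

theorem card3 {a b c : Fin n} (hab : a ≠ b) (hac : a ≠ c) (hbc : b ≠ c) :
    ({a, b, c} : Finset (Fin n)) ∈ tri n := by
  rw [mem_tri]
  exact Finset.card_eq_three.mpr ⟨a, b, c, hab, hac, hbc, rfl⟩

/-! ### Round 1 -/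

theorem round1_pair (hR : NulRel o R) {F : Finset (Finset (Fin n))} {x z : Fin n}
    (hx : x ≠ o) {U W : Finset (Fin n)} (hU : U ⊆ Nb o R F x)
    (hW : W ⊆ Nb o R F z) (hUW : Disjoint U W) (hxW : x ∉ W) {p : ℝ} (h0 : 0 ≤ p) (h1 : p ≤ 1) :
    1 - Real.exp (-(min (1 / 2) (U.card * p ^ 2 / 2) * W.card / 8)) ≤
    Pr (tri n) p (fun G => min (1 / 2) (U.card * p ^ 2 / 2) * W.card / 2 <
      ((Nb o R (F ∪ G) x ∩ Nb o R (F ∪ G) z).card : ℝ)) := by
  classical
  set q : ℝ := min (1 / 2) (U.card * p ^ 2 / 2) with hq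
  have hq0 : 0 ≤ q := by positivity
  -- the blocks
  set B : Fin n → Fin n → Finset (Finset (Fin n)) := fun w u => {{o, u, w}, {x, u, w}} with hB
  set T : Fin n → Finset (Finset (Fin n)) := fun w => U.biUnion (B w) with hT
  set A : Fin n → Finset (Finset (Fin n)) → Prop := fun w H =>
    ∃ u ∈ U, ({o, u, w} : Finset (Fin n)) ∈ H ∧ ({x, u, w} : Finset (Fin n)) ∈ H with hA
  have hUo : ∀ u ∈ U, u ≠ o := fun u hu => (mem_Nb.mp (hU hu)).1
  have hUx : ∀ u ∈ U, u ≠ x := fun u hu => (mem_Nb.mp (hU hu)).2.1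
  have hUR : ∀ u ∈ U, R F x u := fun u hu => (mem_Nb.mp (hU hu)).2.2
  have hWo : ∀ w ∈ W, w ≠ o := fun w hw => (mem_Nb.mp (hW hw)).1
  have hWx : ∀ w ∈ W, w ≠ x := fun w hw h => hxW (h ▸ hw)
  have hUWne : ∀ u ∈ U, ∀ w ∈ W, u ≠ w := fun u hu w hw h =>
    Finset.disjoint_left.mp hUW hu (h ▸ hw)
  have hTd : ∀ w ∈ W, ∀ w' ∈ W, w ≠ w' → Disjoint (T w) (T w') := by
    intro w hw w' hw' hne
    rw [Finset.disjoint_left]
    intro s hs hs'
    rw [hT, Finset.mem_biUnion] at hs hs'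
    obtain ⟨u, hu, hs⟩ := hs
    obtain ⟨u', hu', hs'⟩ := hs'
    have hws : w ∈ s := by
      rw [hB, Finset.mem_insert, Finset.mem_singleton] at hs
      rcases hs with rfl | rfl <;> simp
    rw [hB, Finset.mem_insert, Finset.mem_singleton] at hs'
    rcases hs' with rfl | rfl
    · simp only [Finset.mem_insert, Finset.mem_singleton] at hws
      rcases hws with h | h | h
      · exact hWo w hw h
      · exact hUWne u' hu' w hw h.symm
      · exact hne h
    · simp only [Finset.mem_insert, Finset.mem_singleton] at hws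
      rcases hws with h | h | h
      · exact hWx w hw h
      · exact hUWne u' hu' w hw h.symm
      · exact hne h
  have hBd : ∀ w ∈ W, ∀ u ∈ U, ∀ u' ∈ U, u ≠ u' → Disjoint (B w u) (B w u') := by
    intro w hw u hu u' hu' hne
    rw [Finset.disjoint_left]
    intro s hs hs'
    have hus : u ∈ s := by
      rw [hB, Finset.mem_insert, Finset.mem_singleton] at hs
      rcases hs with rfl | rfl <;> simp
    rw [hB, Finset.mem_insert, Finset.mem_singleton] at hs'
    rcases hs' with rfl | rfl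
    · simp only [Finset.mem_insert, Finset.mem_singleton] at hus
      rcases hus with h | h | h
      · exact hUo u hu h
      · exact hne h
      · exact hUWne u hu w hw h
    · simp only [Finset.mem_insert, Finset.mem_singleton] at hus
      rcases hus with h | h | h
      · exact hUx u hu h
      · exact hne h
      · exact hUWne u hu w hw h
  have hTs : ∀ w ∈ W, T w ⊆ tri n := by
    intro w hw s hs
    rw [hT, Finset.mem_biUnion] at hs
    obtain ⟨u, hu, hs⟩ := hs
    rw [hB, Finset.mem_insert, Finset.mem_singleton] at hs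
    rcases hs with rfl | rfl
    · exact card3 (hUo u hu).symm (hWo w hw).symm (hUWne u hu w hw)
    · exact card3 (hUx u hu).symm (hWx w hw).symm (hUWne u hu w hw)
  have hAp : ∀ w ∈ W, q ≤ Pr (T w) p (A w) := by
    intro w hw
    have h2 := Pr_exists_ge U (B w) (T w) (hBd w hw)
      (fun u hu => Finset.subset_biUnion_of_mem (B w) hu) (q := p ^ 2) h0 h1
      (fun u H => B w u ⊆ H) (by
        intro u hu
        rw [Pr_subset (Finset.Subset.refl _)]
        apply le_of_eq
        congr 1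
        rw [hB]
        symm
        apply Finset.card_pair
        intro h
        have : o ∈ ({x, u, w} : Finset (Fin n)) := by
          rw [← h]
          simp
        simp only [Finset.mem_insert, Finset.mem_singleton] at this
        rcases this with h | h | h
        · exact hx h.symm
        · exact hUo u hu h.symm
        · exact hWo w hw h.symm)
    have h3 := one_sub_pow_ge (t := p ^ 2) (by positivity) (by nlinarith) U.card
    rw [hq]
    refine (h3.trans h2).trans (le_of_eq (Pr_congr ?_))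
    intro G _
    rw [hA, hB]
    constructor
    · rintro ⟨u, hu, hs⟩
      refine ⟨u, hu, ?_, ?_⟩
      · have := hs (Finset.mem_insert_self _ _)
        exact (Finset.mem_inter.mp this).1
      · have := hs (Finset.mem_insert_of_mem (Finset.mem_singleton_self _))
        exact (Finset.mem_inter.mp this).1
    · rintro ⟨u, hu, hs1, hs2⟩
      refine ⟨u, hu, ?_⟩
      intro s hs
      rw [Finset.mem_inter]
      refine ⟨?_, hs⟩
      rw [Finset.mem_insert, Finset.mem_singleton] at hs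
      rcases hs with rfl | rfl
      · exact hs1
      · exact hs2
  refine Pr_of_lower_tail W T (tri n) hTd hTs h0 h1 hq0 A hAp _ ?_
  intro G _ X hXW hX hcard
  refine lt_of_lt_of_le hcard ?_
  norm_cast
  apply Finset.card_le_card
  intro w hwX
  have hw := hXW hwX
  obtain ⟨u, hu, hs1, hs2⟩ := hX w hwX
  have hs1' := (Finset.mem_inter.mp hs1).1
  have hs2' := (Finset.mem_inter.mp hs2).1
  rw [Finset.mem_inter, mem_Nb, mem_Nb]
  have hwz := mem_Nb.mp (hW hw)
  have hFG : F ⊆ F ∪ G := Finset.subset_union_left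
  refine ⟨⟨hWo w hw, hWx w hw, ?_⟩, hwz.1, hwz.2.1, hR.mono _ _ _ _ hFG hwz.2.2⟩
  have e1 : R (F ∪ G) u w := hR.r1 _ _ _ (hUWne u hu w hw) (hUo u hu) (hWo w hw)
    (Finset.mem_union_right F hs1')
  exact hR.r2 _ x u w hx (hUo u hu) (hWo w hw) (hUx u hu).symm (hUWne u hu w hw)
    (hWx w hw).symm (hR.mono _ _ _ _ hFG (hUR u hu)) e1 (Finset.mem_union_right F hs2')

/-! ### Doubling rounds -/

theorem Pr_exists_mem {α ι : Type*} [DecidableEq α] [DecidableEq ι] (s : Finset ι) (t : ι → α)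
    (ht : ∀ i ∈ s, ∀ j ∈ s, t i = t j → i = j) {p : ℝ} (h0 : 0 ≤ p) (h1 : p ≤ 1) :
    1 - (1 - p) ^ s.card ≤ Pr (s.image t) p (fun H => ∃ i ∈ s, t i ∈ H) := by
  have h2 := Pr_exists_ge s (fun i => ({t i} : Finset α)) (s.image t)
    (fun i hi j hj hij => by
      rw [Finset.disjoint_singleton]
      exact fun h => hij (ht i hi j hj h))
    (fun i hi => by
      rw [Finset.singleton_subset_iff]
      exact Finset.mem_image_of_mem t hi) (q := p) h0 h1
    (fun i H => t i ∈ H) (fun i _ => le_of_eq (Pr_singleton (t i) p).symm)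
  refine h2.trans (le_of_eq (Pr_congr ?_))
  intro H _
  simp

/-- the direction of a pair of labels -/
def dir {n : ℕ} (i : Bool) (u y : Fin n) : Prop := if i then u < y else y < u

instance {n : ℕ} (i : Bool) (u y : Fin n) : Decidable (dir i u y) := by
  unfold dir
  infer_instance

theorem dir_asymm {n : ℕ} {i : Bool} {u y : Fin n} (h : dir i u y) : ¬ dir i y u := by
  unfold dir at *
  cases i
  · simp at *
    exact h.le
  · simp at *
    exact h.le

theorem exists_dir {n : ℕ} (S : Finset (Fin n)) (y : Fin n) (hy : y ∉ S) :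
    ∃ i : Bool, S.card ≤ 2 * (S.filter (fun u => dir i u y)).card := by
  by_contra hcon
  push Not at hcon
  have h1 := hcon true
  have h2 := hcon false
  have h3 : S = S.filter (fun u => dir true u y) ∪ S.filter (fun u => dir false u y) := by
    ext u
    rw [Finset.mem_union, Finset.mem_filter, Finset.mem_filter]
    constructor
    · intro hu
      have hne : u ≠ y := fun h => hy (h ▸ hu)
      rcases lt_or_gt_of_ne hne with h | h
      · left; exact ⟨hu, by simp [dir, h]⟩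
      · right; exact ⟨hu, by simp [dir, h]⟩
    · rintro (h | h) <;> exact h.1
  have h4 := Finset.card_union_le (S.filter (fun u => dir true u y))
    (S.filter (fun u => dir false u y))
  rw [← h3] at h4
  omega

/-- apexes of the pair `x y`, avoiding `z`, in direction `i` -/
noncomputable def apex (o : Fin n) (R : Finset (Finset (Fin n)) → Fin n → Fin n → Prop)
    (F : Finset (Finset (Fin n))) (x z : Fin n) (i : Bool) (y : Fin n) : Finset (Fin n) :=
  (((Nb o R F x ∩ Nb o R F y).erase z).filter (fun u => dir i u y))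

theorem mem_apex {F : Finset (Finset (Fin n))} {x z y u : Fin n} {i : Bool} :
    u ∈ apex o R F x z i y ↔ u ≠ z ∧ u ∈ Nb o R F x ∧ u ∈ Nb o R F y ∧ dir i u y := by
  simp only [apex, Finset.mem_filter, Finset.mem_erase, Finset.mem_inter]
  tauto

/-- the triples of `y` used for `x` -/
noncomputable def blk (o : Fin n) (R : Finset (Finset (Fin n)) → Fin n → Fin n → Prop)
    (F : Finset (Finset (Fin n))) (x z : Fin n) (i : Bool) (y : Fin n) :
    Finset (Finset (Fin n)) :=
  (apex o R F x z i y).image (fun u => {x, u, y})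

theorem mem_blk {F : Finset (Finset (Fin n))} {x z y : Fin n} {i : Bool} {s : Finset (Fin n)} :
    s ∈ blk o R F x z i y ↔ ∃ u ∈ apex o R F x z i y, ({x, u, y} : Finset (Fin n)) = s := by
  simp [blk]

theorem apex_ne {F : Finset (Finset (Fin n))} {x z y u : Fin n} {i : Bool}
    (h : u ∈ apex o R F x z i y) : u ≠ o ∧ u ≠ x ∧ u ≠ y ∧ u ≠ z := by
  rw [mem_apex, mem_Nb, mem_Nb] at h
  exact ⟨h.2.1.1, h.2.1.2.1, h.2.2.1.2.1, h.1⟩

theorem blk_disjoint {F : Finset (Finset (Fin n))} {x z y y' : Fin n} {i : Bool}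
    (hy : y ≠ x) (hy' : y' ≠ x) (hne : y ≠ y') :
    Disjoint (blk o R F x z i y) (blk o R F x z i y') := by
  rw [Finset.disjoint_left]
  intro s hs hs'
  rw [mem_blk] at hs hs'
  obtain ⟨u, hu, rfl⟩ := hs
  obtain ⟨u', hu', he⟩ := hs'
  have h1 : y = u' := by
    have : y ∈ ({x, u', y'} : Finset (Fin n)) := by rw [he]; simp
    simp only [Finset.mem_insert, Finset.mem_singleton] at this
    rcases this with h | h | h
    · exact absurd h hy
    · exact h
    · exact absurd h hne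
  have h2 : y' = u := by
    have : y' ∈ ({x, u, y} : Finset (Fin n)) := by rw [← he]; simp
    simp only [Finset.mem_insert, Finset.mem_singleton] at this
    rcases this with h | h | h
    · exact absurd h hy'
    · exact h
    · exact absurd h.symm hne
  have h3 := (mem_apex.mp hu).2.2.2
  have h4 := (mem_apex.mp hu').2.2.2
  rw [← h2] at h3
  rw [← h1] at h4
  exact dir_asymm h3 h4

theorem blk_disjoint' {F : Finset (Finset (Fin n))} {x z y y' : Fin n} {i j : Bool}
    (hxz : x ≠ z) (hy : y ≠ z) :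
    Disjoint (blk o R F x z i y) (blk o R F z x j y') := by
  rw [Finset.disjoint_left]
  intro s hs hs'
  rw [mem_blk] at hs hs'
  obtain ⟨u, hu, rfl⟩ := hs
  obtain ⟨u', hu', he⟩ := hs'
  have : z ∈ ({x, u, y} : Finset (Fin n)) := by rw [← he]; simp
  simp only [Finset.mem_insert, Finset.mem_singleton] at this
  rcases this with h | h | h
  · exact hxz h.symm
  · exact (apex_ne hu).2.2.2 h.symm
  · exact hy h.symm

theorem blk_sub {F : Finset (Finset (Fin n))} {x z y : Fin n} {i : Bool} (hy : y ≠ x) :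
    blk o R F x z i y ⊆ tri n := by
  intro s hs
  rw [mem_blk] at hs
  obtain ⟨u, hu, rfl⟩ := hs
  have h := apex_ne hu
  exact card3 h.2.1.symm hy.symm h.2.2.1

theorem Pr_blk {F : Finset (Finset (Fin n))} {x z y : Fin n} {i : Bool} {p : ℝ}
    (h0 : 0 ≤ p) (h1 : p ≤ 1) :
    min (1 / 2) ((apex o R F x z i y).card * p / 2) ≤
      Pr (blk o R F x z i y) p (fun H => ∃ u ∈ apex o R F x z i y,
        ({x, u, y} : Finset (Fin n)) ∈ H) := by
  refine (one_sub_pow_ge h0 h1 _).trans (Pr_exists_mem _ (fun u => ({x, u, y} : Finset (Fin n)))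
    ?_ h0 h1)
  intro u hu u' hu' he
  have hmem : u ∈ ({x, u', y} : Finset (Fin n)) := by
    have : u ∈ ({x, u, y} : Finset (Fin n)) := by simp
    rw [he] at this
    exact this
  simp only [Finset.mem_insert, Finset.mem_singleton] at hmem
  rcases hmem with h | h | h
  · exact absurd h (apex_ne hu).2.1
  · exact h
  · exact absurd h (apex_ne hu).2.2.1

theorem round2_pair (hR : NulRel o R) {F : Finset (Finset (Fin n))} {A : Finset (Fin n)}
    (hAo : o ∉ A) {m : ℝ} (hm : 1 ≤ m)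
    (hA : ∀ x ∈ A, ∀ z ∈ A, x ≠ z → m ≤ ((Nb o R F x ∩ Nb o R F z).card : ℝ))
    {x z : Fin n} (hx : x ∈ A) (hz : z ∈ A) (hxz : x ≠ z) {p : ℝ} (h0 : 0 ≤ p) (h1 : p ≤ 1) :
    1 - Real.exp (-((min (1 / 2) ((m - 1) * p / 4)) ^ 2 * (((A.card : ℝ) - 2) / 4) / 8)) ≤
    Pr (tri n) p (fun G =>
      (min (1 / 2) ((m - 1) * p / 4)) ^ 2 * (((A.card : ℝ) - 2) / 4) / 2 <
      ((Nb o R (F ∪ G) x ∩ Nb o R (F ∪ G) z).card : ℝ)) := by
  classical
  set q : ℝ := min (1 / 2) ((m - 1) * p / 4) with hq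
  have hq0 : 0 ≤ q := by
    rw [hq]
    apply le_min (by norm_num)
    have : 0 ≤ m - 1 := by linarith
    positivity
  have hnb : ∀ {x y z : Fin n}, y ∉ (Nb o R F x ∩ Nb o R F y).erase z := by
    intro x y z h
    rw [Finset.mem_erase, Finset.mem_inter, mem_Nb, mem_Nb] at h
    exact h.2.2.2.1 rfl
  choose d1 hd1 using fun y => exists_dir ((Nb o R F x ∩ Nb o R F y).erase z) y hnb
  choose d2 hd2 using fun y => exists_dir ((Nb o R F z ∩ Nb o R F y).erase x) y hnb
  set A' := (A.erase x).erase z with hA'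
  have hA'c : ((A.card : ℝ) - 2) ≤ A'.card := by
    have h2 : A'.card + 2 = A.card := by
      rw [hA', Finset.card_erase_of_mem (Finset.mem_erase.mpr ⟨hxz.symm, hz⟩),
        Finset.card_erase_of_mem hx]
      have h3 : 1 < A.card := Finset.one_lt_card.mpr ⟨x, hx, z, hz, hxz⟩
      omega
    have : ((A'.card + 2 : ℕ) : ℝ) = A.card := by rw [h2]
    push_cast at this
    linarith
  have hA'm : ∀ y ∈ A', y ∈ A ∧ y ≠ x ∧ y ≠ z := by
    intro y hy
    rw [hA', Finset.mem_erase, Finset.mem_erase] at hy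
    exact ⟨hy.2.2, hy.2.1, hy.1⟩
  -- pigeonhole
  obtain ⟨ij, hij⟩ : ∃ ij : Bool × Bool, A'.card ≤
      4 * (A'.filter (fun y => (d1 y, d2 y) = ij)).card := by
    by_contra hcon
    push Not at hcon
    have h3 := Finset.card_eq_sum_card_fiberwise (s := A') (t := (Finset.univ : Finset (Bool × Bool)))
      (f := fun y => (d1 y, d2 y)) (fun y _ => Finset.mem_coe.mpr (Finset.mem_univ _))
    have h4 : ∑ b ∈ (Finset.univ : Finset (Bool × Bool)),
        4 * (A'.filter (fun y => (d1 y, d2 y) = b)).card <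
        ∑ b ∈ (Finset.univ : Finset (Bool × Bool)), A'.card :=
      Finset.sum_lt_sum_of_nonempty Finset.univ_nonempty (fun b _ => hcon b)
    rw [← Finset.mul_sum, ← h3] at h4
    simp at h4
  set Y := A'.filter (fun y => (d1 y, d2 y) = ij) with hY
  have hYm : ∀ y ∈ Y, (y ∈ A ∧ y ≠ x ∧ y ≠ z) ∧ d1 y = ij.1 ∧ d2 y = ij.2 := by
    intro y hy
    rw [hY, Finset.mem_filter] at hy
    refine ⟨hA'm y hy.1, ?_, ?_⟩
    · rw [← hy.2]
    · rw [← hy.2]
  have hYc : ((A.card : ℝ) - 2) / 4 ≤ Y.card := by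
    have : (A'.card : ℝ) ≤ 4 * Y.card := by exact_mod_cast hij
    linarith
  -- the blocks
  set T : Fin n → Finset (Finset (Fin n)) := fun y =>
    blk o R F x z ij.1 y ∪ blk o R F z x ij.2 y with hT
  set E : Fin n → Finset (Finset (Fin n)) → Prop := fun y H =>
    (∃ u ∈ apex o R F x z ij.1 y, ({x, u, y} : Finset (Fin n)) ∈ H) ∧
    (∃ u ∈ apex o R F z x ij.2 y, ({z, u, y} : Finset (Fin n)) ∈ H) with hE
  have hTd : ∀ y ∈ Y, ∀ y' ∈ Y, y ≠ y' → Disjoint (T y) (T y') := by
    intro y hy y' hy' hne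
    obtain ⟨⟨_, hyx, hyz⟩, _⟩ := hYm y hy
    obtain ⟨⟨_, hyx', hyz'⟩, _⟩ := hYm y' hy'
    rw [hT]
    simp only [Finset.disjoint_union_left, Finset.disjoint_union_right]
    exact ⟨⟨blk_disjoint hyx hyx' hne, blk_disjoint' hxz.symm hyx⟩,
      blk_disjoint' hxz hyz, blk_disjoint hyz hyz' hne⟩
  have hTs : ∀ y ∈ Y, T y ⊆ tri n := by
    intro y hy
    obtain ⟨⟨_, hyx, hyz⟩, _⟩ := hYm y hy
    exact Finset.union_subset (blk_sub hyx) (blk_sub hyz)
  have hsize : ∀ {x z y : Fin n} {d : Bool}, x ∈ A → y ∈ A → x ≠ y →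
      ((Nb o R F x ∩ Nb o R F y).erase z).card ≤
        2 * (((Nb o R F x ∩ Nb o R F y).erase z).filter (fun u => dir d u y)).card →
      q ≤ min (1 / 2) ((apex o R F x z d y).card * p / 2) := by
    intro x z y d hx hy hxy hc
    have h2 := hA x hx y hy hxy
    have h3 : ((Nb o R F x ∩ Nb o R F y).card : ℝ) - 1 ≤
        (((Nb o R F x ∩ Nb o R F y).erase z).card : ℝ) := by
      have := Finset.pred_card_le_card_erase (s := Nb o R F x ∩ Nb o R F y) (a := z)
      have h5 : (Nb o R F x ∩ Nb o R F y).card ≤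
        ((Nb o R F x ∩ Nb o R F y).erase z).card + 1 := by omega
      have h6 : ((Nb o R F x ∩ Nb o R F y).card : ℝ) ≤
        (((Nb o R F x ∩ Nb o R F y).erase z).card : ℝ) + 1 := by exact_mod_cast h5
      linarith
    have h4 : (((Nb o R F x ∩ Nb o R F y).erase z).card : ℝ) ≤
        2 * ((apex o R F x z d y).card : ℝ) := by
      unfold apex
      exact_mod_cast hc
    rw [hq]
    apply min_le_min_left
    have h7 : (m - 1) / 2 ≤ ((apex o R F x z d y).card : ℝ) := by linarith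
    nlinarith
  have hEp : ∀ y ∈ Y, q ^ 2 ≤ Pr (T y) p (E y) := by
    intro y hy
    obtain ⟨⟨hyA, hyx, hyz⟩, he1, he2⟩ := hYm y hy
    have hs1 : q ≤ min (1 / 2) ((apex o R F x z ij.1 y).card * p / 2) := by
      apply hsize hx hyA hyx.symm
      rw [← he1]
      exact hd1 y
    have hs2 : q ≤ min (1 / 2) ((apex o R F z x ij.2 y).card * p / 2) := by
      apply hsize hz hyA hyz.symm
      rw [← he2]
      exact hd2 y
    have hp1 := hs1.trans (Pr_blk (o := o) (R := R) (F := F) h0 h1)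
    have hp2 := hs2.trans (Pr_blk (o := o) (R := R) (F := F) h0 h1)
    have hind := Pr_indep_inter (blk_disjoint' (o := o) (R := R) (F := F) (i := ij.1) (j := ij.2)
      (y' := y) hxz hyz) (W := T y)
      Finset.subset_union_left Finset.subset_union_right p
      (fun H => ∃ u ∈ apex o R F x z ij.1 y, ({x, u, y} : Finset (Fin n)) ∈ H)
      (fun H => ∃ u ∈ apex o R F z x ij.2 y, ({z, u, y} : Finset (Fin n)) ∈ H)
    have hmul := mul_le_mul hp1 hp2 hq0 (hq0.trans hp1)
    rw [← hind] at hmul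
    rw [sq]
    refine hmul.trans (Pr_mono h0 h1 ?_)
    intro H _ hH
    rw [hE]
    obtain ⟨⟨u, hu, h3⟩, ⟨u', hu', h4⟩⟩ := hH
    exact ⟨⟨u, hu, (Finset.mem_inter.mp h3).1⟩, ⟨u', hu', (Finset.mem_inter.mp h4).1⟩⟩
  have key : ∀ (L : ℝ), L ≤ Y.card → q ^ 2 * L ≤ q ^ 2 * Y.card := fun L hL =>
    mul_le_mul_of_nonneg_left hL (by positivity)
  have hk := key _ hYc
  have hfin := Pr_of_lower_tail Y T (tri n) hTd hTs h0 h1 (by positivity) E hEp
    (fun G => q ^ 2 * (((A.card : ℝ) - 2) / 4) / 2 <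
      ((Nb o R (F ∪ G) x ∩ Nb o R (F ∪ G) z).card : ℝ)) (by
    intro G _ X hXY hX hcard
    have h5 : q ^ 2 * (((A.card : ℝ) - 2) / 4) / 2 < X.card := by linarith
    refine lt_of_lt_of_le h5 ?_
    norm_cast
    apply Finset.card_le_card
    intro y hyX
    obtain ⟨⟨hyA, hyx, hyz⟩, _⟩ := hYm y (hXY hyX)
    obtain ⟨⟨u, hu, hs1⟩, ⟨u', hu', hs2⟩⟩ := hX y hyX
    have hs1' := (Finset.mem_inter.mp hs1).1
    have hs2' := (Finset.mem_inter.mp hs2).1
    have hFG : F ⊆ F ∪ G := Finset.subset_union_left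
    have hAne : ∀ {w : Fin n}, w ∈ A → w ≠ o := fun hw h => hAo (h ▸ hw)
    have hne := apex_ne hu
    have hne' := apex_ne hu'
    rw [mem_apex, mem_Nb, mem_Nb] at hu hu'
    rw [Finset.mem_inter, mem_Nb, mem_Nb]
    refine ⟨⟨hAne hyA, hyx, ?_⟩, hAne hyA, hyz, ?_⟩
    · exact hR.r2 _ x u y (hAne hx) hne.1 (hAne hyA) hne.2.1.symm hne.2.2.1 hyx.symm
        (hR.mono _ _ _ _ hFG hu.2.1.2.2)
        (hR.symm _ _ _ (hR.mono _ _ _ _ hFG hu.2.2.1.2.2)) (Finset.mem_union_right F hs1')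
    · exact hR.r2 _ z u' y (hAne hz) hne'.1 (hAne hyA) hne'.2.1.symm hne'.2.2.1 hyz.symm
        (hR.mono _ _ _ _ hFG hu'.2.1.2.2)
        (hR.symm _ _ _ (hR.mono _ _ _ _ hFG hu'.2.2.1.2.2)) (Finset.mem_union_right F hs2'))
  refine le_trans ?_ hfin
  have : Real.exp (-(q ^ 2 * Y.card / 8)) ≤
      Real.exp (-(q ^ 2 * (((A.card : ℝ) - 2) / 4) / 8)) := by
    apply Real.exp_le_exp.mpr
    linarith
  linarith

/-! ### Joining through a common neighbour -/

theorem exp_pow_ge {p : ℝ} (h1 : p ≤ 1) {k : ℕ} {s : ℝ} (hs : s ≤ k) (h0 : 0 ≤ p) :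
    1 - Real.exp (-(p * s)) ≤ 1 - (1 - p) ^ k := by
  have h3 : 1 - p ≤ Real.exp (-p) := by
    have := Real.add_one_le_exp (-p)
    linarith
  have h4 : (1 - p) ^ k ≤ Real.exp (-(p * s)) := by
    calc (1 - p) ^ k ≤ (Real.exp (-p)) ^ k := pow_le_pow_left₀ (by linarith) h3 k
      _ = Real.exp (-(p * k)) := by
        rw [← Real.exp_nat_mul]
        congr 1
        ring
      _ ≤ Real.exp (-(p * s)) := by
        apply Real.exp_le_exp.mpr
        nlinarith
  linarith

theorem join_pair (hR : NulRel o R) {F : Finset (Finset (Fin n))} {x z : Fin n}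
    (hx : x ≠ o) (hz : z ≠ o) (hxz : x ≠ z) {S : Finset (Fin n)}
    (hS : S ⊆ Nb o R F x ∩ Nb o R F z) {p s : ℝ} (h0 : 0 ≤ p) (h1 : p ≤ 1)
    (hs : s ≤ S.card) :
    1 - Real.exp (-(p * s)) ≤ Pr (tri n) p (fun G => R (F ∪ G) x z) := by
  have hne : ∀ u ∈ S, u ≠ o ∧ u ≠ x ∧ u ≠ z ∧ R F x u ∧ R F z u := by
    intro u hu
    have := hS hu
    rw [Finset.mem_inter, mem_Nb, mem_Nb] at this
    exact ⟨this.1.1, this.1.2.1, this.2.2.1, this.1.2.2, this.2.2.2⟩
  have h2 := Pr_exists_mem S (fun u => ({x, u, z} : Finset (Fin n))) (by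
    intro u hu u' hu' he
    have hmem : u ∈ ({x, u', z} : Finset (Fin n)) := by
      have : u ∈ ({x, u, z} : Finset (Fin n)) := by simp
      rw [he] at this
      exact this
    simp only [Finset.mem_insert, Finset.mem_singleton] at hmem
    rcases hmem with h | h | h
    · exact absurd h (hne u hu).2.1
    · exact h
    · exact absurd h (hne u hu).2.2.1) h0 h1
  have hsub : S.image (fun u => ({x, u, z} : Finset (Fin n))) ⊆ tri n := by
    intro s hs
    rw [Finset.mem_image] at hs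
    obtain ⟨u, hu, rfl⟩ := hs
    exact card3 (hne u hu).2.1.symm hxz (hne u hu).2.2.1
  have h3 := Pr_inter hsub p (fun H => ∃ u ∈ S, ({x, u, z} : Finset (Fin n)) ∈ H)
  refine (exp_pow_ge h1 hs h0).trans (h2.trans ?_)
  rw [← h3]
  apply Pr_mono h0 h1
  rintro G _ ⟨u, hu, hG⟩
  have hG' := (Finset.mem_inter.mp hG).1
  have hFG : F ⊆ F ∪ G := Finset.subset_union_left
  obtain ⟨huo, hux, huz, hR1, hR2⟩ := hne u hu
  exact hR.r2 _ x u z hx huo hz hux.symm huz hxz (hR.mono _ _ _ _ hFG hR1)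
    (hR.symm _ _ _ (hR.mono _ _ _ _ hFG hR2)) (Finset.mem_union_right F hG')

/-- union bound -/
theorem Pr_forall_ge {α ι : Type*} [DecidableEq α] {U : Finset α} {p : ℝ} (h0 : 0 ≤ p)
    (h1 : p ≤ 1) (s : Finset ι) (C : ι → Finset α → Prop) {ε : ℝ}
    (hC : ∀ i ∈ s, 1 - ε ≤ Pr U p (C i)) :
    1 - s.card * ε ≤ Pr U p (fun F => ∀ i ∈ s, C i F) := by
  have h2 := Pr_not U p (fun F => ∃ i ∈ s, ¬ C i F)
  have h3 : Pr U p (fun F => ¬ ∃ i ∈ s, ¬ C i F) = Pr U p (fun F => ∀ i ∈ s, C i F) := by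
    apply Pr_congr
    intro F _
    push Not
    rfl
  rw [h3] at h2
  have h4 := Pr_exists_le (U := U) h0 h1 s (fun i F => ¬ C i F)
  have h5 : ∑ i ∈ s, Pr U p (fun F => ¬ C i F) ≤ s.card * ε := by
    rw [← nsmul_eq_mul]
    apply Finset.sum_le_card_nsmul
    intro i hi
    rw [Pr_not]
    linarith [hC i hi]
  linarith

/-! ### The steps -/

/-- one exposure -/
def Step {α : Type*} [DecidableEq α] (U : Finset α) (p ε : ℝ) (P Q : Finset α → Prop) : Prop :=
  ∀ F, F ⊆ U → P F → 1 - ε ≤ Pr U p (fun G => Q (F ∪ G))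

theorem Step.chain {α : Type*} [DecidableEq α] {U : Finset α} {p q ε : ℝ}
    {P Q : Finset α → Prop} (h : Step U q ε P Q) (hp : 0 ≤ p) (hq : 0 ≤ q) (hpq : p + q ≤ 1)
    (hε : 0 ≤ ε) (hQ : ∀ F G, F ⊆ G → G ⊆ U → Q F → Q G) :
    Pr U p P - ε ≤ Pr U (p + q) Q := by
  have h1 := Pr_exposure' hp hq hpq hQ h
  have h2 := Pr_le_one (U := U) hp (by linarith) P
  nlinarith

/-- many vertices of large degree -/
def Q0 (o : Fin n) (R : Finset (Finset (Fin n)) → Fin n → Fin n → Prop) (d : ℝ)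
    (F : Finset (Finset (Fin n))) : Prop :=
  ∃ A : Finset (Fin n), o ∉ A ∧ n ≤ 2 * A.card ∧ ∀ x ∈ A, d ≤ ((Nb o R F x).card : ℝ)

/-- many vertices with many common neighbours -/
def QC (o : Fin n) (R : Finset (Finset (Fin n)) → Fin n → Fin n → Prop) (m : ℝ)
    (F : Finset (Finset (Fin n))) : Prop :=
  ∃ A : Finset (Fin n), o ∉ A ∧ n ≤ 2 * A.card ∧ ∀ x ∈ A, ∀ z ∈ A, x ≠ z →
    m ≤ ((Nb o R F x ∩ Nb o R F z).card : ℝ)

/-- a large clique such that every other vertex has `s` neighbours in it -/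
def QK (o : Fin n) (R : Finset (Finset (Fin n)) → Fin n → Fin n → Prop) (s : ℝ)
    (F : Finset (Finset (Fin n))) : Prop :=
  ∃ A : Finset (Fin n), o ∉ A ∧ n ≤ 2 * A.card ∧ (∀ x ∈ A, ∀ z ∈ A, x ≠ z → R F x z) ∧
    ∀ y, y ≠ o → y ∉ A → s ≤ ((Nb o R F y ∩ A).card : ℝ)

/-- a large clique joined to everything -/
def QJ (o : Fin n) (R : Finset (Finset (Fin n)) → Fin n → Fin n → Prop)
    (F : Finset (Finset (Fin n))) : Prop :=
  ∃ A : Finset (Fin n), o ∉ A ∧ n ≤ 2 * A.card ∧ (∀ x ∈ A, ∀ z ∈ A, x ≠ z → R F x z) ∧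
    ∀ y, y ≠ o → y ∉ A → ∀ z ∈ A, R F y z

/-- complete -/
def Full (o : Fin n) (R : Finset (Finset (Fin n)) → Fin n → Fin n → Prop)
    (F : Finset (Finset (Fin n))) : Prop :=
  ∀ x y, x ≠ o → y ≠ o → x ≠ y → R F x y

theorem QC_mono (hR : NulRel o R) (m : ℝ) {F G : Finset (Finset (Fin n))} (h : F ⊆ G)
    (hF : QC o R m F) : QC o R m G := by
  obtain ⟨A, h1, h2, h3⟩ := hF
  refine ⟨A, h1, h2, fun x hx z hz hxz => (h3 x hx z hz hxz).trans ?_⟩
  norm_cast
  exact Finset.card_le_card (Finset.inter_subset_inter (Nb_mono hR h x) (Nb_mono hR h z))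

theorem QC_anti {m m' : ℝ} (hm : m' ≤ m) {F : Finset (Finset (Fin n))}
    (hF : QC o R m F) : QC o R m' F := by
  obtain ⟨A, h1, h2, h3⟩ := hF
  exact ⟨A, h1, h2, fun x hx z hz hxz => hm.trans (h3 x hx z hz hxz)⟩

theorem QK_mono (hR : NulRel o R) (s : ℝ) {F G : Finset (Finset (Fin n))} (h : F ⊆ G)
    (hF : QK o R s F) : QK o R s G := by
  obtain ⟨A, h1, h2, h3, h4⟩ := hF
  refine ⟨A, h1, h2, fun x hx z hz hxz => hR.mono _ _ _ _ h (h3 x hx z hz hxz),
    fun y hy hyA => (h4 y hy hyA).trans ?_⟩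
  norm_cast
  exact Finset.card_le_card (Finset.inter_subset_inter (Nb_mono hR h y) (Finset.Subset.refl A))

theorem QJ_mono (hR : NulRel o R) {F G : Finset (Finset (Fin n))} (h : F ⊆ G)
    (hF : QJ o R F) : QJ o R G := by
  obtain ⟨A, h1, h2, h3, h4⟩ := hF
  exact ⟨A, h1, h2, fun x hx z hz hxz => hR.mono _ _ _ _ h (h3 x hx z hz hxz),
    fun y hy hyA z hz => hR.mono _ _ _ _ h (h4 y hy hyA z hz)⟩

theorem Full_mono (hR : NulRel o R) {F G : Finset (Finset (Fin n))} (h : F ⊆ G)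
    (hF : Full o R F) : Full o R G :=
  fun x y hx hy hxy => hR.mono _ _ _ _ h (hF x y hx hy hxy)

theorem pairs_bound (A : Finset (Fin n)) {ε : ℝ} (hε : 0 ≤ ε) :
    ((A ×ˢ A).card : ℝ) * ε ≤ (n : ℝ) ^ 2 * ε := by
  apply mul_le_mul_of_nonneg_right _ hε
  rw [Finset.card_product]
  push_cast
  have h : (A.card : ℝ) ≤ n := by
    have := Finset.card_le_univ A
    rw [Fintype.card_fin] at this
    exact_mod_cast this
  have h0 : (0 : ℝ) ≤ A.card := by positivity
  nlinarith

/-- round 1 -/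
theorem step1 (hR : NulRel o R) {p d m ε : ℝ} {k : ℕ} (h0 : 0 ≤ p) (h1 : p ≤ 1) (hε : 0 ≤ ε)
    (hk : 2 * (k : ℝ) + 1 ≤ d)
    (hm : m ≤ min (1 / 2) (k * p ^ 2 / 2) * k / 2)
    (he : Real.exp (-(min (1 / 2) (k * p ^ 2 / 2) * k / 8)) ≤ ε) :
    Step (tri n) p ((n : ℝ) ^ 2 * ε) (Q0 o R d) (QC o R m) := by
  classical
  rintro F _ ⟨A, hAo, hAn, hA⟩
  have key : ∀ xz ∈ A ×ˢ A, 1 - ε ≤ Pr (tri n) p (fun G => xz.1 ≠ xz.2 →
      m ≤ ((Nb o R (F ∪ G) xz.1 ∩ Nb o R (F ∪ G) xz.2).card : ℝ)) := by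
    rintro ⟨x, z⟩ hxz
    rw [Finset.mem_product] at hxz
    obtain ⟨hx, hz⟩ := hxz
    simp only at hx hz ⊢
    by_cases hne : x = z
    · rw [Pr_of_forall (fun G _ h => absurd hne h)]
      linarith
    have hNx : 2 * k + 1 ≤ (Nb o R F x).card := by
      have := hk.trans (hA x hx)
      exact_mod_cast this
    have hNz : 2 * k + 1 ≤ (Nb o R F z).card := by
      have := hk.trans (hA z hz)
      exact_mod_cast this
    obtain ⟨U, hU, hUc⟩ := Finset.exists_subset_card_eq (show k ≤ (Nb o R F x).card by omega)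
    have h2 : k ≤ (((Nb o R F z).erase x) \ U).card := by
      have h3 := Finset.le_card_sdiff U ((Nb o R F z).erase x)
      have h4 := Finset.pred_card_le_card_erase (s := Nb o R F z) (a := x)
      omega
    obtain ⟨W, hW, hWc⟩ := Finset.exists_subset_card_eq h2
    have hW' : W ⊆ Nb o R F z := fun w hw => Finset.mem_of_mem_erase
      (Finset.mem_sdiff.mp (hW hw)).1
    have hxW : x ∉ W := fun h => (Finset.mem_erase.mp (Finset.mem_sdiff.mp (hW h)).1).1 rfl
    have hUW : Disjoint U W := by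
      rw [Finset.disjoint_right]
      intro w hw
      exact (Finset.mem_sdiff.mp (hW hw)).2
    have hxo : x ≠ o := fun h => hAo (h ▸ hx)
    have h5 := round1_pair hR hxo hU hW' hUW hxW h0 h1
    rw [hUc, hWc] at h5
    refine le_trans (by linarith) (h5.trans (Pr_mono h0 h1 ?_))
    intro G _ hG _
    exact hm.trans hG.le
  have h6 := Pr_forall_ge h0 h1 (A ×ˢ A) _ key
  have h7 := pairs_bound A hε
  refine le_trans (by linarith) (h6.trans (Pr_mono h0 h1 ?_))
  intro G _ hG
  exact ⟨A, hAo, hAn, fun x hx z hz hxz => hG (x, z) (Finset.mem_product.mpr ⟨hx, hz⟩) hxz⟩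

/-- doubling round -/
theorem step2 (hR : NulRel o R) {p m m' ε : ℝ} (h0 : 0 ≤ p) (h1 : p ≤ 1) (hε : 0 ≤ ε)
    (hm : 1 ≤ m) (hn : 8 ≤ n)
    (hm' : m' ≤ (min (1 / 2) ((m - 1) * p / 4)) ^ 2 * ((n : ℝ) / 16) / 2)
    (he : Real.exp (-((min (1 / 2) ((m - 1) * p / 4)) ^ 2 * ((n : ℝ) / 16) / 8)) ≤ ε) :
    Step (tri n) p ((n : ℝ) ^ 2 * ε) (QC o R m) (QC o R m') := by
  classical
  rintro F _ ⟨A, hAo, hAn, hA⟩
  have hAn' : (n : ℝ) / 16 ≤ ((A.card : ℝ) - 2) / 4 := by
    have h2 : (n : ℝ) ≤ 2 * A.card := by exact_mod_cast hAn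
    have h3 : (8 : ℝ) ≤ n := by exact_mod_cast hn
    linarith
  have hmul : (min (1 / 2) ((m - 1) * p / 4)) ^ 2 * ((n : ℝ) / 16) ≤
      (min (1 / 2) ((m - 1) * p / 4)) ^ 2 * (((A.card : ℝ) - 2) / 4) :=
    mul_le_mul_of_nonneg_left hAn' (by positivity)
  have key : ∀ xz ∈ A ×ˢ A, 1 - ε ≤ Pr (tri n) p (fun G => xz.1 ≠ xz.2 →
      m' ≤ ((Nb o R (F ∪ G) xz.1 ∩ Nb o R (F ∪ G) xz.2).card : ℝ)) := by
    rintro ⟨x, z⟩ hxz
    rw [Finset.mem_product] at hxz
    obtain ⟨hx, hz⟩ := hxz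
    simp only at hx hz ⊢
    by_cases hne : x = z
    · rw [Pr_of_forall (fun G _ h => absurd hne h)]
      linarith
    have h5 := round2_pair hR hAo hm hA hx hz hne h0 h1
    have h6 : Real.exp (-((min (1 / 2) ((m - 1) * p / 4)) ^ 2 * (((A.card : ℝ) - 2) / 4) / 8)) ≤
        Real.exp (-((min (1 / 2) ((m - 1) * p / 4)) ^ 2 * ((n : ℝ) / 16) / 8)) := by
      apply Real.exp_le_exp.mpr
      linarith
    refine le_trans (by linarith) (h5.trans (Pr_mono h0 h1 ?_))
    intro G _ hG _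
    linarith
  have h6 := Pr_forall_ge h0 h1 (A ×ˢ A) _ key
  have h7 := pairs_bound A hε
  refine le_trans (by linarith) (h6.trans (Pr_mono h0 h1 ?_))
  intro G _ hG
  exact ⟨A, hAo, hAn, fun x hx z hz hxz => hG (x, z) (Finset.mem_product.mpr ⟨hx, hz⟩) hxz⟩

/-- the clique -/
theorem step3 (hR : NulRel o R) {p m ε : ℝ} (h0 : 0 ≤ p) (h1 : p ≤ 1) (hε : 0 ≤ ε)
    (he : Real.exp (-(p * m)) ≤ ε) :
    Step (tri n) p ((n : ℝ) ^ 2 * ε) (QC o R m) (QK o R 0) := by
  classical
  rintro F _ ⟨A, hAo, hAn, hA⟩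
  have key : ∀ xz ∈ A ×ˢ A, 1 - ε ≤ Pr (tri n) p (fun G => xz.1 ≠ xz.2 →
      R (F ∪ G) xz.1 xz.2) := by
    rintro ⟨x, z⟩ hxz
    rw [Finset.mem_product] at hxz
    obtain ⟨hx, hz⟩ := hxz
    simp only at hx hz ⊢
    by_cases hne : x = z
    · rw [Pr_of_forall (fun G _ h => absurd hne h)]
      linarith
    have h5 := join_pair hR (fun h => hAo (h ▸ hx)) (fun h => hAo (h ▸ hz)) hne
      (Finset.Subset.refl _) h0 h1 (hA x hx z hz hne)
    exact le_trans (by linarith) (h5.trans (Pr_mono h0 h1 (fun G _ h _ => h)))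
  have h6 := Pr_forall_ge h0 h1 (A ×ˢ A) _ key
  have h7 := pairs_bound A hε
  refine le_trans (by linarith) (h6.trans (Pr_mono h0 h1 ?_))
  intro G _ hG
  exact ⟨A, hAo, hAn, fun x hx z hz hxz => hG (x, z) (Finset.mem_product.mpr ⟨hx, hz⟩) hxz,
    fun y _ _ => by positivity⟩

theorem vertices_bound {ε : ℝ} (hε : 0 ≤ ε) :
    (((Finset.univ : Finset (Fin n))).card : ℝ) * ε ≤ (n : ℝ) ^ 2 * ε := by
  apply mul_le_mul_of_nonneg_right _ hε
  rw [Finset.card_univ, Fintype.card_fin]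
  norm_cast
  nlinarith [Nat.zero_le n]

theorem step4 (hR : NulRel o R) {p s ε : ℝ} (h0 : 0 ≤ p) (h1 : p ≤ 1) (hε : 0 ≤ ε)
    (hs : s ≤ p * n / 4) (he : Real.exp (-(p * n / 16)) ≤ ε) :
    Step (tri n) p ((n : ℝ) ^ 2 * ε) (QK o R 0) (QK o R s) := by
  classical
  rintro F _ ⟨A, hAo, hAn, hA, _⟩
  have hAn' : (n : ℝ) ≤ 2 * A.card := by exact_mod_cast hAn
  have hAne : ∀ x ∈ A, x ≠ o := fun x hx h => hAo (h ▸ hx)
  have key : ∀ y ∈ (Finset.univ : Finset (Fin n)), 1 - ε ≤ Pr (tri n) p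
      (fun G => y ≠ o → y ∉ A → s ≤ ((Nb o R (F ∪ G) y ∩ A).card : ℝ)) := by
    intro y _
    by_cases hyo : y = o
    · rw [Pr_of_forall (fun G _ h => absurd hyo h)]
      linarith
    by_cases hyA : y ∈ A
    · rw [Pr_of_forall (fun G _ _ h => absurd hyA h)]
      linarith
    have hAy : ∀ x ∈ A, x ≠ y := fun x hx h => hyA (h ▸ hx)
    have hfin := Pr_of_lower_tail A (fun x => ({{o, y, x}} : Finset (Finset (Fin n))))
      (tri n) (by
        intro x hx x' hx' hne
        rw [Finset.disjoint_singleton]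
        intro he
        have : x ∈ ({o, y, x'} : Finset (Fin n)) := by rw [← he]; simp
        simp only [Finset.mem_insert, Finset.mem_singleton] at this
        rcases this with h | h | h
        · exact hAne x hx h
        · exact hAy x hx h
        · exact hne h) (by
        intro x hx
        rw [Finset.singleton_subset_iff]
        exact card3 (Ne.symm hyo) (hAne x hx).symm (hAy x hx).symm) h0 h1 h0
      (fun x H => ({o, y, x} : Finset (Fin n)) ∈ H)
      (fun x _ => le_of_eq (Pr_singleton _ p).symm)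
      (fun G => s ≤ ((Nb o R (F ∪ G) y ∩ A).card : ℝ)) (by
        intro G _ X hXA hX hcard
        have h3 : s ≤ X.card := by
          have : p * n / 4 ≤ p * A.card / 2 := by nlinarith
          linarith
        refine h3.trans ?_
        norm_cast
        apply Finset.card_le_card
        intro x hx
        rw [Finset.mem_inter, mem_Nb]
        have hxA := hXA hx
        refine ⟨⟨hAne x hxA, hAy x hxA, ?_⟩, hxA⟩
        exact hR.r1 _ _ _ (hAy x hxA).symm hyo (hAne x hxA)
          (Finset.mem_union_right F (Finset.mem_inter.mp (hX x hx)).1))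
    have h4 : Real.exp (-(p * A.card / 8)) ≤ Real.exp (-(p * n / 16)) := by
      apply Real.exp_le_exp.mpr
      nlinarith
    exact le_trans (by linarith) (hfin.trans (Pr_mono h0 h1 (fun G _ h _ _ => h)))
  have h6 := Pr_forall_ge h0 h1 (Finset.univ : Finset (Fin n)) _ key
  have h7 := vertices_bound (n := n) hε
  refine le_trans (by linarith) (h6.trans (Pr_mono h0 h1 ?_))
  intro G _ hG
  have hFG : F ⊆ F ∪ G := Finset.subset_union_left
  exact ⟨A, hAo, hAn, fun x hx z hz hxz => hR.mono _ _ _ _ hFG (hA x hx z hz hxz),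
    fun y hyo hyA => hG y (Finset.mem_univ y) hyo hyA⟩

theorem step5 (hR : NulRel o R) {p s s' ε : ℝ} (h0 : 0 ≤ p) (h1 : p ≤ 1) (hε : 0 ≤ ε)
    (hs0 : 0 ≤ s) (hs : s' ≤ min (1 / 2) (s * p / 2) * n / 8)
    (he : Real.exp (-(min (1 / 2) (s * p / 2) * n / 32)) ≤ ε) :
    Step (tri n) p ((n : ℝ) ^ 2 * ε) (QK o R s) (QK o R s') := by
  classical
  rintro F _ ⟨A, hAo, hAn, hA, hA2⟩
  set q : ℝ := min (1 / 2) (s * p / 2) with hq
  have hq0 : 0 ≤ q := by
    rw [hq]
    apply le_min (by norm_num)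
    positivity
  have hq1 : q ≤ 1 / 2 := min_le_left _ _
  have hAn' : (n : ℝ) ≤ 2 * A.card := by exact_mod_cast hAn
  have hn0 : (0 : ℝ) ≤ n := by positivity
  have hAne : ∀ x ∈ A, x ≠ o := fun x hx h => hAo (h ▸ hx)
  have key : ∀ y ∈ (Finset.univ : Finset (Fin n)), 1 - ε ≤ Pr (tri n) p
      (fun G => y ≠ o → y ∉ A → s' ≤ ((Nb o R (F ∪ G) y ∩ A).card : ℝ)) := by
    intro y _
    by_cases hyo : y = o
    · rw [Pr_of_forall (fun G _ h => absurd hyo h)]
      linarith
    by_cases hyA : y ∈ A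
    · rw [Pr_of_forall (fun G _ _ h => absurd hyA h)]
      linarith
    have hAy : ∀ x ∈ A, x ≠ y := fun x hx h => hyA (h ▸ hx)
    set N := Nb o R F y ∩ A with hN
    have hNs : s ≤ N.card := hA2 y hyo hyA
    by_cases hbig : A.card ≤ 2 * N.card
    · have hbig' : (A.card : ℝ) ≤ 2 * N.card := by exact_mod_cast hbig
      rw [Pr_of_forall]
      · linarith
      intro G _ _ _
      have h3 : (N.card : ℝ) ≤ ((Nb o R (F ∪ G) y ∩ A).card : ℝ) := by
        norm_cast
        exact Finset.card_le_card (Finset.inter_subset_inter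
          (Nb_mono hR Finset.subset_union_left y) (Finset.Subset.refl A))
      have h4 : q * n / 8 ≤ n / 16 := by nlinarith
      linarith
    · push Not at hbig
      have hNA : N ⊆ A := Finset.inter_subset_right
      have hYc : (A \ N).card + N.card = A.card := Finset.card_sdiff_add_card_eq_card hNA
      have hYn : (n : ℝ) / 4 ≤ (A \ N).card := by
        have h5 : A.card ≤ 2 * (A \ N).card := by omega
        have h6 : (A.card : ℝ) ≤ 2 * ((A \ N).card : ℝ) := by exact_mod_cast h5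
        linarith
      have hNm : ∀ x ∈ N, x ∈ A ∧ R F y x := by
        intro x hx
        rw [hN, Finset.mem_inter, mem_Nb] at hx
        exact ⟨hx.2, hx.1.2.2⟩
      have hfin := Pr_of_lower_tail (A \ N)
        (fun z => N.image (fun x => ({y, x, z} : Finset (Fin n))))
        (tri n) (by
          intro z hz z' hz' hne
          rw [Finset.disjoint_left]
          intro t ht ht'
          rw [Finset.mem_image] at ht ht'
          obtain ⟨x, hx, rfl⟩ := ht
          obtain ⟨x', hx', he⟩ := ht'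
          have : z ∈ ({y, x', z'} : Finset (Fin n)) := by rw [he]; simp
          simp only [Finset.mem_insert, Finset.mem_singleton] at this
          have hzA := (Finset.mem_sdiff.mp hz)
          rcases this with h | h | h
          · exact hAy z hzA.1 h
          · exact hzA.2 (h ▸ hx')
          · exact hne h) (by
          intro z hz t ht
          rw [Finset.mem_image] at ht
          obtain ⟨x, hx, rfl⟩ := ht
          have hzA := (Finset.mem_sdiff.mp hz)
          exact card3 (hAy x (hNm x hx).1).symm (hAy z hzA.1).symm (fun h => hzA.2 (h ▸ hx)))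
        h0 h1 hq0 (fun z H => ∃ x ∈ N, ({y, x, z} : Finset (Fin n)) ∈ H) (by
          intro z hz
          have hzA := (Finset.mem_sdiff.mp hz)
          refine le_trans ?_ ((one_sub_pow_ge h0 h1 N.card).trans
            (Pr_exists_mem N (fun x => ({y, x, z} : Finset (Fin n))) ?_ h0 h1))
          · rw [hq]
            apply min_le_min_left
            nlinarith
          · intro u hu u' hu' he
            have hmem : u ∈ ({y, u', z} : Finset (Fin n)) := by
              have : u ∈ ({y, u, z} : Finset (Fin n)) := by simp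
              rw [he] at this
              exact this
            simp only [Finset.mem_insert, Finset.mem_singleton] at hmem
            rcases hmem with h | h | h
            · exact absurd h (hAy u (hNm u hu).1)
            · exact h
            · exact absurd (h ▸ hu) hzA.2)
        (fun G => s' ≤ ((Nb o R (F ∪ G) y ∩ A).card : ℝ)) (by
          intro G _ X hXA hX hcard
          have h3 : s' ≤ X.card := by
            have : q * n / 8 ≤ q * (A \ N).card / 2 := by nlinarith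
            linarith
          refine h3.trans ?_
          norm_cast
          apply Finset.card_le_card
          intro z hz
          rw [Finset.mem_inter, mem_Nb]
          have hzA := Finset.mem_sdiff.mp (hXA hz)
          refine ⟨⟨hAne z hzA.1, hAy z hzA.1, ?_⟩, hzA.1⟩
          obtain ⟨x, hx, hG⟩ := hX z hz
          have hFG : F ⊆ F ∪ G := Finset.subset_union_left
          have hxz : x ≠ z := fun h => hzA.2 (h ▸ hx)
          exact hR.r2 _ y x z hyo (hAne x (hNm x hx).1) (hAne z hzA.1)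
            (hAy x (hNm x hx).1).symm hxz (hAy z hzA.1).symm
            (hR.mono _ _ _ _ hFG (hNm x hx).2)
            (hR.mono _ _ _ _ hFG (hA x (hNm x hx).1 z hzA.1 hxz))
            (Finset.mem_union_right F (Finset.mem_inter.mp hG).1))
      have h4 : Real.exp (-(q * (A \ N).card / 8)) ≤ Real.exp (-(q * n / 32)) := by
        apply Real.exp_le_exp.mpr
        nlinarith
      exact le_trans (by linarith) (hfin.trans (Pr_mono h0 h1 (fun G _ h _ _ => h)))
  have h6 := Pr_forall_ge h0 h1 (Finset.univ : Finset (Fin n)) _ key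
  have h7 := vertices_bound (n := n) hε
  refine le_trans (by linarith) (h6.trans (Pr_mono h0 h1 ?_))
  intro G _ hG
  have hFG : F ⊆ F ∪ G := Finset.subset_union_left
  exact ⟨A, hAo, hAn, fun x hx z hz hxz => hR.mono _ _ _ _ hFG (hA x hx z hz hxz),
    fun y hyo hyA => hG y (Finset.mem_univ y) hyo hyA⟩

theorem all_pairs_bound {ε : ℝ} :
    ((((Finset.univ : Finset (Fin n)) ×ˢ (Finset.univ : Finset (Fin n)))).card : ℝ) * ε =
      (n : ℝ) ^ 2 * ε := by
  rw [Finset.card_product, Finset.card_univ, Fintype.card_fin]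
  push_cast
  ring

theorem step6 (hR : NulRel o R) {p s ε : ℝ} (h0 : 0 ≤ p) (h1 : p ≤ 1) (hε : 0 ≤ ε)
    (he : Real.exp (-(p * (s - 1))) ≤ ε) :
    Step (tri n) p ((n : ℝ) ^ 2 * ε) (QK o R s) (QJ o R) := by
  classical
  rintro F _ ⟨A, hAo, hAn, hA, hA2⟩
  have hAne : ∀ x ∈ A, x ≠ o := fun x hx h => hAo (h ▸ hx)
  have key : ∀ yz ∈ (Finset.univ : Finset (Fin n)) ×ˢ (Finset.univ : Finset (Fin n)),
      1 - ε ≤ Pr (tri n) p (fun G => yz.1 ≠ o → yz.1 ∉ A → yz.2 ∈ A →
        R (F ∪ G) yz.1 yz.2) := by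
    rintro ⟨y, z⟩ _
    simp only
    by_cases hyo : y = o
    · rw [Pr_of_forall (fun G _ h => absurd hyo h)]
      linarith
    by_cases hyA : y ∈ A
    · rw [Pr_of_forall (fun G _ _ h => absurd hyA h)]
      linarith
    by_cases hzA : z ∈ A
    swap
    · rw [Pr_of_forall (fun G _ _ _ h => absurd h hzA)]
      linarith
    have hyz : y ≠ z := fun h => hyA (h ▸ hzA)
    have hS : ((Nb o R F y ∩ A).erase z) ⊆ Nb o R F y ∩ Nb o R F z := by
      intro x hx
      rw [Finset.mem_erase, Finset.mem_inter] at hx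
      rw [Finset.mem_inter, mem_Nb (x := z)]
      exact ⟨hx.2.1, hAne x hx.2.2, hx.1, hA z hzA x hx.2.2 (Ne.symm hx.1)⟩
    have hc : s - 1 ≤ (((Nb o R F y ∩ A).erase z).card : ℝ) := by
      have h2 := hA2 y hyo hyA
      have h3 := Finset.pred_card_le_card_erase (s := Nb o R F y ∩ A) (a := z)
      have h5 : (Nb o R F y ∩ A).card ≤ ((Nb o R F y ∩ A).erase z).card + 1 := by omega
      have h6 : ((Nb o R F y ∩ A).card : ℝ) ≤
        (((Nb o R F y ∩ A).erase z).card : ℝ) + 1 := by exact_mod_cast h5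
      linarith
    have h5 := join_pair hR hyo (hAne z hzA) hyz hS h0 h1 hc
    exact le_trans (by linarith) (h5.trans (Pr_mono h0 h1 (fun G _ h _ _ _ => h)))
  have h6 := Pr_forall_ge h0 h1 _ _ key
  rw [all_pairs_bound] at h6
  refine h6.trans (Pr_mono h0 h1 ?_)
  intro G _ hG
  have hFG : F ⊆ F ∪ G := Finset.subset_union_left
  exact ⟨A, hAo, hAn, fun x hx z hz hxz => hR.mono _ _ _ _ hFG (hA x hx z hz hxz),
    fun y hyo hyA z hz => hG (y, z) (Finset.mem_product.mpr
      ⟨Finset.mem_univ y, Finset.mem_univ z⟩) hyo hyA hz⟩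

theorem step7 (hR : NulRel o R) {p ε : ℝ} (h0 : 0 ≤ p) (h1 : p ≤ 1) (hε : 0 ≤ ε)
    (he : Real.exp (-(p * (n / 2))) ≤ ε) :
    Step (tri n) p ((n : ℝ) ^ 2 * ε) (QJ o R) (Full o R) := by
  classical
  rintro F _ ⟨A, hAo, hAn, hA, hA2⟩
  have hAne : ∀ x ∈ A, x ≠ o := fun x hx h => hAo (h ▸ hx)
  have hAn' : (n : ℝ) / 2 ≤ A.card := by
    have : (n : ℝ) ≤ 2 * A.card := by exact_mod_cast hAn
    linarith
  have key : ∀ yz ∈ (Finset.univ : Finset (Fin n)) ×ˢ (Finset.univ : Finset (Fin n)),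
      1 - ε ≤ Pr (tri n) p (fun G => yz.1 ≠ o → yz.2 ≠ o → yz.1 ≠ yz.2 → yz.1 ∉ A →
        yz.2 ∉ A → R (F ∪ G) yz.1 yz.2) := by
    rintro ⟨y, z⟩ _
    simp only
    by_cases hyo : y = o
    · rw [Pr_of_forall (fun G _ h => absurd hyo h)]
      linarith
    by_cases hzo : z = o
    · rw [Pr_of_forall (fun G _ _ h => absurd hzo h)]
      linarith
    by_cases hyz : y = z
    · rw [Pr_of_forall (fun G _ _ _ h => absurd hyz h)]
      linarith
    by_cases hyA : y ∈ A
    · rw [Pr_of_forall (fun G _ _ _ _ h => absurd hyA h)]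
      linarith
    by_cases hzA : z ∈ A
    · rw [Pr_of_forall (fun G _ _ _ _ _ h => absurd hzA h)]
      linarith
    have hS : A ⊆ Nb o R F y ∩ Nb o R F z := by
      intro x hx
      rw [Finset.mem_inter, mem_Nb, mem_Nb]
      exact ⟨⟨hAne x hx, fun h => hyA (h ▸ hx), hA2 y hyo hyA x hx⟩,
        ⟨hAne x hx, fun h => hzA (h ▸ hx), hA2 z hzo hzA x hx⟩⟩
    have h5 := join_pair hR hyo hzo hyz hS h0 h1 hAn'
    exact le_trans (by linarith) (h5.trans (Pr_mono h0 h1 (fun G _ h _ _ _ _ _ => h)))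
  have h6 := Pr_forall_ge h0 h1 _ _ key
  rw [all_pairs_bound] at h6
  refine h6.trans (Pr_mono h0 h1 ?_)
  intro G _ hG
  have hFG : F ⊆ F ∪ G := Finset.subset_union_left
  intro x y hx hy hxy
  by_cases hxA : x ∈ A
  · by_cases hyA : y ∈ A
    · exact hR.mono _ _ _ _ hFG (hA x hxA y hyA hxy)
    · exact hR.mono _ _ _ _ hFG (hR.symm _ _ _ (hA2 y hy hyA x hxA))
  · by_cases hyA : y ∈ A
    · exact hR.mono _ _ _ _ hFG (hA2 x hx hxA y hyA)
    · exact hG (x, y) (Finset.mem_product.mpr ⟨Finset.mem_univ x, Finset.mem_univ y⟩)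
        hx hy hxy hxA hyA

end Pool.Agent.SC.Rnd
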