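import Pool.Agent.Lib.MP_d0323d_co.SecMomB
/-! Module SECMOM (section 11), part C: numerics and `degree_whp`. -/
set_option autoImplicit false
namespace Pool.Agent.SC
open Finset Filter Topology

theorem smG_le {i : ℕ} {C : ℝ} (hC : 1 ≤ C) :
    smG i C ≤ Real.exp ((5 + Real.log C) * (2 * i + 6) ^ 3) := by
  unfold smG
  have hC0 : 0 < C := by linarith
  have hlC : 0 ≤ Real.log C := Real.log_nonneg hC
  set m : ℕ := 2 * i + 6 with hm
  have hmr : (m : ℝ) = 2 * i + 6 := by rw [hm]; push_cast; ring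
  have hm1 : (1 : ℝ) ≤ m := by rw [hmr]; have : (0 : ℝ) ≤ i := Nat.cast_nonneg i; linarith
  have hm6 : (6 : ℝ) ≤ m := by rw [hmr]; have : (0 : ℝ) ≤ i := Nat.cast_nonneg i; linarith
  have hm3 : (m : ℝ) ≤ (m : ℝ) ^ 3 := by
    have : (1 : ℝ) ≤ (m : ℝ) ^ 2 := one_le_pow₀ hm1
    nlinarith
  have hmexp : (m : ℝ) ≤ Real.exp ((m : ℝ) ^ 3) := by
    have := Real.add_one_le_exp ((m : ℝ) ^ 3)
    linarith
  have h1 : (2 * (i : ℝ) + 5) ≤ Real.exp ((m : ℝ) ^ 3) := by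
    have : (2 * (i : ℝ) + 5) ≤ m := by rw [hmr]; linarith
    exact this.trans hmexp
  have h2 : ((2 : ℝ) ^ (m.choose 3)) ≤ Real.exp ((m : ℝ) ^ 3) := by
    have e1 : (2 : ℝ) ^ (m.choose 3) ≤ Real.exp 1 ^ (m.choose 3) :=
      pow_le_pow_left₀ (by norm_num) (by
        have := Real.add_one_le_exp (1 : ℝ); linarith) _
    refine e1.trans ?_
    rw [← Real.exp_nat_mul, mul_one]
    apply Real.exp_le_exp.mpr
    exact_mod_cast Nat.choose_le_pow m 3
  have h3 : ((((m * 2 ^ (m.choose 3)) ^ 2 : ℕ)) : ℝ) ≤ Real.exp ((m : ℝ) ^ 3) ^ 4 := by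
    push_cast
    have e1 : (m : ℝ) * 2 ^ (m.choose 3) ≤ Real.exp ((m : ℝ) ^ 3) * Real.exp ((m : ℝ) ^ 3) :=
      mul_le_mul hmexp h2 (by positivity) (Real.exp_pos _).le
    calc ((m : ℝ) * 2 ^ (m.choose 3)) ^ 2
        ≤ (Real.exp ((m : ℝ) ^ 3) * Real.exp ((m : ℝ) ^ 3)) ^ 2 :=
          pow_le_pow_left₀ (by positivity) e1 2
      _ = Real.exp ((m : ℝ) ^ 3) ^ 4 := by ring
  have h4 : C ^ (4 * i + 2) ≤ Real.exp (Real.log C * (m : ℝ) ^ 3) := by
    have e1 : C ^ (4 * i + 2) = Real.exp (Real.log C * (4 * i + 2)) := by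
      rw [Real.exp_mul, Real.exp_log hC0, ← Real.rpow_natCast]
      congr 1
      push_cast
      ring
    rw [e1]
    apply Real.exp_le_exp.mpr
    refine mul_le_mul_of_nonneg_left ?_ hlC
    have : (4 * (i : ℝ) + 2) ≤ 2 * m := by rw [hmr]; linarith
    have h5 : 2 * (m : ℝ) ≤ (m : ℝ) ^ 3 := by
      have : (2 : ℝ) ≤ (m : ℝ) ^ 2 := by nlinarith
      nlinarith
    linarith
  calc (2 * (i : ℝ) + 5) * ((((m * 2 ^ (m.choose 3)) ^ 2 : ℕ)) : ℝ) * C ^ (4 * i + 2)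
      ≤ Real.exp ((m : ℝ) ^ 3) * Real.exp ((m : ℝ) ^ 3) ^ 4 *
          Real.exp (Real.log C * (m : ℝ) ^ 3) :=
        mul_le_mul (mul_le_mul h1 h3 (Nat.cast_nonneg _) (Real.exp_pos _).le) h4 (by positivity)
          (by positivity)
    _ = Real.exp ((5 + Real.log C) * (m : ℝ) ^ 3) := by
        rw [← Real.exp_nat_mul, ← Real.exp_add, ← Real.exp_add]
        congr 1
        push_cast
        ring
    _ = _ := by rw [hmr]

/-- `(a log log n + b)^3` is small compared with `log n` -/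
theorem loglog_small {K a b δ : ℝ} (hK : 0 < K) (ha : 0 < a) (hb : 0 < b) (hδ : 0 < δ) :
    ∀ᶠ n : ℕ in atTop, K * (a * Real.log (Real.log n) + b) ^ 3 ≤ δ * Real.log n := by
  have hlog : Tendsto (fun n : ℕ => Real.log n) atTop atTop :=
    Real.tendsto_log_atTop.comp tendsto_natCast_atTop_atTop
  have h1 := (Real.isLittleO_pow_log_id_atTop (n := 3)).bound
    (show 0 < δ / (K * (a + b) ^ 3) by positivity)
  have h2 := hlog.eventually h1
  have h3 := (Real.tendsto_log_atTop.comp hlog).eventually (eventually_ge_atTop (1 : ℝ))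
  have h4 := hlog.eventually (eventually_ge_atTop (1 : ℝ))
  filter_upwards [h2, h3, h4] with n h2 h3 h4
  simp only [Function.comp] at h3
  simp only [id, Real.norm_eq_abs] at h2
  set t := Real.log n with ht
  rw [abs_of_nonneg (by positivity : (0 : ℝ) ≤ Real.log t ^ 3), abs_of_nonneg (by linarith)] at h2
  have h5 : a * Real.log t + b ≤ (a + b) * Real.log t := by nlinarith
  have h6 : (a * Real.log t + b) ^ 3 ≤ ((a + b) * Real.log t) ^ 3 :=
    pow_le_pow_left₀ (by positivity) h5 3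
  calc K * (a * Real.log t + b) ^ 3 ≤ K * ((a + b) * Real.log t) ^ 3 :=
        mul_le_mul_of_nonneg_left h6 hK.le
    _ = (K * (a + b) ^ 3) * Real.log t ^ 3 := by ring
    _ ≤ (K * (a + b) ^ 3) * (δ / (K * (a + b) ^ 3) * t) :=
        mul_le_mul_of_nonneg_left h2 (by positivity)
    _ = δ * t := by field_simp

/-- 11.2, 11.3 for one vertex `x` -/
theorem degree_whp {γ : ℝ} (hγ : 1 ≤ γ)
    (hγ2 : ∀ Γ : ℝ, 0 < Γ → Γ < γ → ∃ i0 : ℕ, 1 ≤ i0 ∧ ∀ j : ℕ,
      Γ ^ (2 ^ j * i0) ≤ (dsc (2 ^ j * i0) : ℝ) / ((2 ^ j * i0).factorial : ℝ))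
    {c : ℝ} (hc : 0 < c) (hcγ : 1 < c ^ 2 * γ) : ∃ n0 : ℕ, ∀ n : ℕ, n0 ≤ n → ∀ x : Fin n,
      x.val ≠ 0 → Pr (tri n) (c / Real.sqrt n)
        (fun F => ((nb F x).card : ℝ) < Real.sqrt n * Real.log n ^ 60) ≤ (n : ℝ) ^ (-(3 / 10) : ℝ) := by
  -- choice of Γ
  have hγ0 : 0 < γ := by linarith
  obtain ⟨Γ, hΓ1, hΓ2⟩ : ∃ Γ : ℝ, 1 / c ^ 2 < Γ ∧ Γ < γ := by
    apply _root_.exists_between
    rw [div_lt_iff₀ (by positivity)]
    linarith
  have hΓ0 : 0 < Γ := lt_trans (by positivity) hΓ1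
  have hb : 1 < c ^ 2 * Γ := by
    rw [div_lt_iff₀ (by positivity)] at hΓ1
    linarith
  obtain ⟨i0, hi0, hd⟩ := hγ2 Γ hΓ0 hΓ2
  have hlb : 0 < Real.log (c ^ 2 * Γ) := Real.log_pos hb
  set C2 : ℝ := 80 / Real.log (c ^ 2 * Γ) with hC2
  have hC20 : 0 < C2 := by positivity
  set C : ℝ := max 1 c with hCdef
  have hC1 : 1 ≤ C := le_max_left _ _
  have hcC : c ≤ C := le_max_right _ _
  have hlC : 0 ≤ Real.log C := Real.log_nonneg hC1
  have hlog : Tendsto (fun n : ℕ => Real.log n) atTop atTop :=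
    Real.tendsto_log_atTop.comp tendsto_natCast_atTop_atTop
  have hloglog : Tendsto (fun n : ℕ => Real.log (Real.log n)) atTop atTop :=
    Real.tendsto_log_atTop.comp hlog
  have ev1 := loglog_small (K := 5 + Real.log C) (a := 4 * C2) (b := 6) (δ := 1 / 20)
    (by positivity) (by positivity) (by norm_num) (by norm_num)
  have ev2 := hloglog.eventually (eventually_ge_atTop ((i0 : ℝ) / C2))
  have ev3 := hlog.eventually (eventually_ge_atTop (max 1 (16 / c)))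
  have ev4 := tendsto_natCast_atTop_atTop.eventually
    (eventually_ge_atTop (max (c ^ 2) ((8 : ℝ) ^ (20 : ℕ))))
  have ev5 := loglog_small (K := 1) (a := 4 * C2) (b := 6) (δ := 1)
    (by positivity) (by positivity) (by norm_num) (by norm_num)
  have ev6 : ∀ᶠ n : ℕ in atTop, 4 ≤ n := eventually_ge_atTop 4
  obtain ⟨n0, hn0⟩ := Filter.eventually_atTop.mp
    (ev1.and (ev2.and (ev3.and (ev4.and (ev5.and ev6)))))
  refine ⟨n0, fun n hn x hx => ?_⟩
  obtain ⟨e1, e2, e3, e4, e5, e6⟩ := hn0 n hn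
  set L := Real.log (Real.log n) with hL
  set T := Real.log n with hT
  have hT1 : 1 ≤ T := (le_max_left _ _).trans e3
  have hT2 : 16 / c ≤ T := (le_max_right _ _).trans e3
  have hT0 : 0 < T := by linarith
  have hn0' : 0 < n := by omega
  have hnr : (0 : ℝ) < n := by exact_mod_cast hn0'
  have hn1 : (1 : ℝ) ≤ n := by exact_mod_cast hn0'
  have hsq0 : 0 < Real.sqrt n := Real.sqrt_pos.mpr hnr
  have hsqn : Real.sqrt n ^ 2 = n := Real.sq_sqrt hnr.le
  have hsq1 : 1 ≤ Real.sqrt n := by rw [Real.one_le_sqrt]; exact hn1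
  -- choice of `i`
  have hi0r : (0 : ℝ) < i0 := by exact_mod_cast hi0
  have hx1 : (1 : ℝ) ≤ C2 * L / i0 := by
    rw [le_div_iff₀ hi0r, one_mul]
    rw [div_le_iff₀ hC20] at e2
    linarith
  obtain ⟨j', hj1, hj2⟩ := exists_nat_pow_near hx1 (by norm_num : (1 : ℝ) < 2)
  set i := 2 ^ (j' + 1) * i0 with hi
  have hir : (i : ℝ) = 2 ^ (j' + 1) * (i0 : ℝ) := by rw [hi]; push_cast; ring
  have hi1 : 1 ≤ i := by
    have : 0 < 2 ^ (j' + 1) * i0 := by positivity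
    omega
  have hiL : C2 * L ≤ i := by
    rw [hir]
    rw [div_lt_iff₀ hi0r] at hj2
    exact hj2.le
  have hiU : (i : ℝ) ≤ 2 * (C2 * L) := by
    rw [hir, pow_succ]
    rw [le_div_iff₀ hi0r] at hj1
    nlinarith
  have hL0 : 0 ≤ L := by
    by_contra hneg
    push Not at hneg
    have h1 : C2 * L < 0 := mul_neg_of_pos_of_neg hC20 hneg
    have : (0 : ℝ) ≤ i := Nat.cast_nonneg i
    linarith
  have hdi := hd (j' + 1)
  rw [← hi] at hdi
  -- size conditions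
  have h2i6 : (2 * (i : ℝ) + 6) ≤ 4 * C2 * L + 6 := by nlinarith
  have hTn : T ≤ n := by
    have := Real.log_le_sub_one_of_pos hnr
    linarith
  have hcube : (2 * (i : ℝ) + 6) ^ 3 ≤ n := by
    have h1 : (2 * (i : ℝ) + 6) ^ 3 ≤ (4 * C2 * L + 6) ^ 3 :=
      pow_le_pow_left₀ (by positivity) h2i6 3
    linarith
  have hni : 2 * (i * (i + 2)) ≤ n := by
    have : (2 * ((i : ℝ) * (i + 2))) ≤ n := by
      refine le_trans ?_ hcube
      have : (0 : ℝ) ≤ i := Nat.cast_nonneg i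
      nlinarith [mul_nonneg this this, mul_nonneg (mul_nonneg this this) this]
    exact_mod_cast this
  -- the vertex 0
  obtain ⟨o, ho⟩ : ∃ o : Fin n, o.val = 0 := ⟨⟨0, hn0'⟩, rfl⟩
  have hox : o ≠ x := by
    rintro rfl
    exact hx ho
  set mu : ℝ := ((DX i o x).card : ℝ) * (c / Real.sqrt n) ^ (2 * i + 1) with hmu
  have hmu1 := mu_ge hox hi1 hc hΓ0 hdi e6 hni
  rw [← hmu] at hmu1
  -- (c²Γ)^i ≥ T^80
  have hpow : T ^ 80 ≤ (c ^ 2 * Γ) ^ i := by
    have h1 : (c ^ 2 * Γ) ^ i = Real.exp (Real.log (c ^ 2 * Γ) * i) := by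
      rw [Real.exp_mul, Real.exp_log (by positivity), Real.rpow_natCast]
    have h2 : T ^ 80 = Real.exp (80 * L) := by
      rw [hL, ← Real.exp_log hT0, Real.log_exp, ← Real.exp_nat_mul]
      norm_num
    rw [h1, h2]
    apply Real.exp_le_exp.mpr
    have h3 : Real.log (c ^ 2 * Γ) * (C2 * L) ≤ Real.log (c ^ 2 * Γ) * i :=
      mul_le_mul_of_nonneg_left hiL hlb.le
    have h4 : Real.log (c ^ 2 * Γ) * (C2 * L) = 80 * L := by
      rw [hC2]; field_simp
    linarith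
  have hmu2 : 4 * (Real.sqrt n * T ^ 60) ≤ mu := by
    refine le_trans ?_ hmu1
    have h1 : (16 : ℝ) ≤ c * T ^ 20 := by
      have h2 : T ≤ T ^ 20 := le_self_pow₀ hT1 (by norm_num)
      rw [div_le_iff₀ hc] at hT2
      nlinarith
    have h3 : (0 : ℝ) < T ^ 60 := by positivity
    calc 4 * (Real.sqrt n * T ^ 60) = Real.sqrt n / 4 * (16 * T ^ 60) := by ring
      _ ≤ Real.sqrt n / 4 * (c * T ^ 20 * T ^ 60) := by
          refine mul_le_mul_of_nonneg_left ?_ (by positivity)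
          exact mul_le_mul_of_nonneg_right h1 h3.le
      _ = Real.sqrt n / 4 * c * T ^ 80 := by ring
      _ ≤ Real.sqrt n / 4 * c * (c ^ 2 * Γ) ^ i :=
          mul_le_mul_of_nonneg_left hpow (by positivity)
  have hT60 : (1 : ℝ) ≤ T ^ 60 := one_le_pow₀ hT1
  have hmu3 : Real.sqrt n ≤ mu := by nlinarith
  have hmu0 : 0 < mu := lt_of_lt_of_le hsq0 hmu3
  have hp1 : c / Real.sqrt n ≤ 1 := by
    rw [div_le_one hsq0]
    apply Real.le_sqrt_of_sq_le
    exact (le_max_left _ _).trans e4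
  have hp0 : 0 ≤ c / Real.sqrt n := by positivity
  have hmain := nb_prob (i := i) ho hx hc hC1 hcC hn0' hp1 hmu0 hmu
  have hG0 : 0 ≤ smG i C := smG_nonneg (by linarith)
  -- bound for G
  have hG : smG i C ≤ Real.exp (1 / 20 * T) := by
    refine (smG_le hC1).trans (Real.exp_le_exp.mpr ?_)
    refine le_trans ?_ e1
    exact mul_le_mul_of_nonneg_left (pow_le_pow_left₀ (by positivity) h2i6 3) (by positivity)
  have hG' : smG i C ≤ (n : ℝ) ^ (1 / 20 : ℝ) := by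
    rw [Real.rpow_def_of_pos hnr, mul_comm]
    exact hG
  have h8 : (8 : ℝ) ≤ (n : ℝ) ^ (1 / 20 : ℝ) := by
    have h1 : (8 : ℝ) ^ (20 : ℕ) ≤ n := (le_max_right _ _).trans e4
    calc (8 : ℝ) = ((8 : ℝ) ^ (20 : ℕ)) ^ (1 / 20 : ℝ) := by
          rw [← Real.rpow_natCast, ← Real.rpow_mul (by norm_num)]
          norm_num
      _ ≤ (n : ℝ) ^ (1 / 20 : ℝ) := Real.rpow_le_rpow (by positivity) h1 (by norm_num)
  have hmono : Pr (tri n) (c / Real.sqrt n)
        (fun F => ((nb F x).card : ℝ) < Real.sqrt n * T ^ 60) ≤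
      Pr (tri n) (c / Real.sqrt n) (fun F => ((nb F x).card : ℝ) < mu / 4) := by
    refine Pr_mono hp0 hp1 fun F _ hF => ?_
    linarith
  refine hmono.trans (hmain.trans ?_)
  have t1 : 4 * (Real.sqrt n * smG i C) / mu ^ 2 ≤ 4 * smG i C / Real.sqrt n := by
    rw [div_le_div_iff₀ (by positivity) hsq0]
    have : Real.sqrt n ^ 2 ≤ mu ^ 2 := pow_le_pow_left₀ hsq0.le hmu3 2
    nlinarith
  have t2 : 4 * smG i C / mu ≤ 4 * smG i C / Real.sqrt n :=
    div_le_div_of_nonneg_left (by positivity) hsq0 hmu3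
  have t3 : 4 * (Real.sqrt n * smG i C) / mu ^ 2 + 4 * smG i C / mu ≤
      8 * smG i C / Real.sqrt n := by
    have : 8 * smG i C / Real.sqrt n = 4 * smG i C / Real.sqrt n + 4 * smG i C / Real.sqrt n := by
      ring
    linarith
  refine t3.trans ?_
  have t4 : 8 * smG i C ≤ (n : ℝ) ^ (1 / 20 : ℝ) * (n : ℝ) ^ (1 / 20 : ℝ) :=
    mul_le_mul h8 hG' hG0 (by positivity)
  rw [← Real.rpow_add hnr] at t4
  rw [div_le_iff₀ hsq0, Real.sqrt_eq_rpow, ← Real.rpow_add hnr]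
  refine t4.trans ?_
  exact Real.rpow_le_rpow_of_exponent_le hn1 (by norm_num)

end Pool.Agent.SC
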