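import Pool.Agent.Lib.MP_d0323d_co.Upper
import Pool.Agent.Lib.MP_d0323d_co.Gauge
import Pool.Agent.Lib.MP_d0323d_co.Growth
import Pool.Agent.Lib.MP_d0323d_co.Prob
/-! Module SECMOM (section 11), part A: combinatorics of pairs of discs. -/
set_option autoImplicit false
namespace Pool.Agent.SC
open Finset Filter Topology

section SM
variable {n : ℕ}

/-- boundary triple -/
def smb (o x y : Fin n) : Finset (Fin n) := {o, x, y}

/-- vertex set of the disc -/
def smU (o x : Fin n) (z : Fin n × Finset (Finset (Fin n))) : Finset (Fin n) :=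
  verts (insert (smb o x z.1) z.2)

open Classical in
/-- discs with `i` interior vertices and boundary `{o,x,y}`, together with `y` -/
noncomputable def DX (i : ℕ) (o x : Fin n) : Finset (Fin n × Finset (Finset (Fin n))) :=
  univ.filter fun z => z.1 ≠ o ∧ z.1 ≠ x ∧ IsDisc (smb o x z.1) z.2 ∧ (smU o x z).card = i + 3

variable {i : ℕ} {o x : Fin n} {z z' : Fin n × Finset (Finset (Fin n))}

theorem mem_DX : z ∈ DX i o x ↔
    z.1 ≠ o ∧ z.1 ≠ x ∧ IsDisc (smb o x z.1) z.2 ∧ (smU o x z).card = i + 3 := by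
  classical
  unfold DX
  simp

theorem smb_card (hox : o ≠ x) {y : Fin n} (h1 : y ≠ o) (h2 : y ≠ x) : (smb o x y).card = 3 := by
  unfold smb
  rw [Finset.card_insert_of_notMem, Finset.card_insert_of_notMem, Finset.card_singleton]
  · simpa using h2.symm
  · simp only [Finset.mem_insert, Finset.mem_singleton, not_or]
    exact ⟨hox, h1.symm⟩

theorem smb_sub_smU : smb o x z.1 ⊆ smU o x z := by
  intro v hv
  exact mem_verts.mpr ⟨_, Finset.mem_insert_self _ _, hv⟩

theorem o_mem_smU : o ∈ smU o x z := smb_sub_smU (by simp [smb])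
theorem x_mem_smU : x ∈ smU o x z := smb_sub_smU (by simp [smb])
theorem y_mem_smU : z.1 ∈ smU o x z := smb_sub_smU (by simp [smb])

theorem sub_smU {s : Finset (Fin n)} (hs : s ∈ z.2) : s ⊆ smU o x z := by
  intro v hv
  exact mem_verts.mpr ⟨s, Finset.mem_insert_of_mem hs, hv⟩

theorem DX_fam (hz : z ∈ DX i o x) {s : Finset (Fin n)} (hs : s ∈ z.2) : s.card = 3 :=
  (mem_DX.mp hz).2.2.1.2.1 s (Finset.mem_insert_of_mem hs)

theorem DX_sub_powersetCard (hz : z ∈ DX i o x) : z.2 ⊆ (smU o x z).powersetCard 3 := by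
  intro s hs
  rw [Finset.mem_powersetCard]
  exact ⟨sub_smU hs, DX_fam hz hs⟩

theorem DX_sub_tri (hz : z ∈ DX i o x) : z.2 ⊆ tri n := by
  intro s hs
  unfold tri
  rw [Finset.mem_filter]
  exact ⟨Finset.mem_univ _, DX_fam hz hs⟩

theorem DX_card (hz : z ∈ DX i o x) : z.2.card = 2 * i + 1 := by
  obtain ⟨_, _, h3, h4⟩ := mem_DX.mp hz
  have h5 := disc_card h3
  unfold smU at h4
  rw [h4] at h5
  push_cast at h5
  omega

/-- exponent inequality for pairs sharing a triple -/
theorem DX_pair1 (hz : z ∈ DX i o x) (hz' : z' ∈ DX i o x) (h : (z.2 ∩ z'.2).Nonempty) :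
    2 * (smU o x z ∪ smU o x z').card ≤ (z.2 ∪ z'.2).card + 1 + 4 := by
  obtain ⟨_, _, h3, h4⟩ := mem_DX.mp hz
  obtain ⟨_, _, _, h4'⟩ := mem_DX.mp hz'
  have c1 := DX_card hz
  have c2 := DX_card hz'
  have u1 := Finset.card_union_add_card_inter (smU o x z) (smU o x z')
  have u2 := Finset.card_union_add_card_inter z.2 z'.2
  have hV : verts (z.2 ∩ z'.2) ⊆ smU o x z ∩ smU o x z' := by
    intro v hv
    obtain ⟨s, hs, hvs⟩ := mem_verts.mp hv
    rw [Finset.mem_inter] at hs ⊢
    exact ⟨sub_smU hs.1 hvs, sub_smU hs.2 hvs⟩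
  have h33 : 3 ≤ (smU o x z ∩ smU o x z').card := by
    obtain ⟨s, hs⟩ := h
    have : s ⊆ smU o x z ∩ smU o x z' := fun v hv => hV (mem_verts.mpr ⟨s, hs, hv⟩)
    have h5 := Finset.card_le_card this
    rwa [DX_fam hz (Finset.mem_inter.mp hs).1] at h5
  have h5 := disc_sub5 h3 (Finset.inter_subset_left (s₁ := z.2) (s₂ := z'.2)) hV h33
  omega

/-- exponent inequality for two discs with the same boundary -/
theorem DX_pair2 (hz : z ∈ DX i o x) (hz' : z' ∈ DX i o x) (h1 : z.1 = z'.1) (h2 : z.2 ≠ z'.2) :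
    2 * (smU o x z ∪ smU o x z').card ≤ (z.2 ∪ z'.2).card + 0 + 4 := by
  obtain ⟨_, _, h3, h4⟩ := mem_DX.mp hz
  obtain ⟨_, _, _, h4'⟩ := mem_DX.mp hz'
  have c1 := DX_card hz
  have c2 := DX_card hz'
  have u1 := Finset.card_union_add_card_inter (smU o x z) (smU o x z')
  have u2 := Finset.card_union_add_card_inter z.2 z'.2
  have hV : verts (z.2 ∩ z'.2) ⊆ smU o x z ∩ smU o x z' := by
    intro v hv
    obtain ⟨s, hs, hvs⟩ := mem_verts.mp hv
    rw [Finset.mem_inter] at hs ⊢
    exact ⟨sub_smU hs.1 hvs, sub_smU hs.2 hvs⟩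
  have hb : smb o x z.1 ⊆ smU o x z ∩ smU o x z' := by
    intro v hv
    rw [Finset.mem_inter]
    refine ⟨smb_sub_smU hv, ?_⟩
    rw [h1] at hv
    exact smb_sub_smU hv
  have hne : z.2 ∩ z'.2 ≠ z.2 := by
    intro h
    have hsub : z.2 ⊆ z'.2 := Finset.inter_eq_left.mp h
    exact h2 (Finset.eq_of_subset_of_card_le hsub (by rw [c1, c2]))
  have h5 := disc_sub6 h3 (Finset.inter_subset_left (s₁ := z.2) (s₂ := z'.2)) hV hb hne
  omega

/-- the crude bound -/
noncomputable def smG (i : ℕ) (C : ℝ) : ℝ :=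
  (2 * i + 5) * ((((2 * i + 6) * 2 ^ ((2 * i + 6).choose 3)) ^ 2 : ℕ) : ℝ) * C ^ (4 * i + 2)

theorem smG_nonneg {C : ℝ} (hC : 0 ≤ C) : 0 ≤ smG i C := by
  unfold smG
  positivity

theorem sum_inv_pow (hn : 0 < n) (m : ℕ) :
    ∑ W ∈ (univ : Finset (Finset (Fin n))).filter (fun W => W.card < m), ((n : ℝ) ^ W.card)⁻¹ ≤ m := by
  have hnr : (0 : ℝ) < n := by exact_mod_cast hn
  have hmaps : ∀ W ∈ (univ : Finset (Finset (Fin n))).filter (fun W => W.card < m),
      W.card ∈ range m := by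
    intro W hW
    rw [Finset.mem_filter] at hW
    exact Finset.mem_range.mpr hW.2
  rw [← Finset.sum_fiberwise_of_maps_to hmaps]
  calc ∑ v ∈ range m, ∑ W ∈ ((univ : Finset (Finset (Fin n))).filter (fun W => W.card < m)).filter
        (fun W => W.card = v), ((n : ℝ) ^ W.card)⁻¹
      ≤ ∑ _v ∈ range m, (1 : ℝ) := by
        refine Finset.sum_le_sum fun v _ => ?_
        have e1 : ∑ W ∈ ((univ : Finset (Finset (Fin n))).filter (fun W => W.card < m)).filter
            (fun W => W.card = v), ((n : ℝ) ^ W.card)⁻¹ =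
            ∑ W ∈ ((univ : Finset (Finset (Fin n))).filter (fun W => W.card < m)).filter
            (fun W => W.card = v), ((n : ℝ) ^ v)⁻¹ := by
          refine Finset.sum_congr rfl fun W hW => ?_
          rw [(Finset.mem_filter.mp hW).2]
        rw [e1, Finset.sum_const, nsmul_eq_mul]
        have e2 : (((univ : Finset (Finset (Fin n))).filter (fun W => W.card < m)).filter
            (fun W => W.card = v)).card ≤ n ^ v := by
          calc (((univ : Finset (Finset (Fin n))).filter (fun W => W.card < m)).filter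
            (fun W => W.card = v)).card
              ≤ ((univ : Finset (Fin n)).powersetCard v).card := by
                refine Finset.card_le_card fun W hW => ?_
                rw [Finset.mem_powersetCard]
                exact ⟨Finset.subset_univ _, (Finset.mem_filter.mp hW).2⟩
            _ = n.choose v := by rw [Finset.card_powersetCard, Finset.card_univ, Fintype.card_fin]
            _ ≤ n ^ v := Nat.choose_le_pow n v
        have e3 : ((((univ : Finset (Finset (Fin n))).filter (fun W => W.card < m)).filter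
            (fun W => W.card = v)).card : ℝ) ≤ (n : ℝ) ^ v := by exact_mod_cast e2
        rw [← div_eq_mul_inv, div_le_one (by positivity)]
        exact e3
    _ = m := by simp

open Classical in
/-- all pairs of discs living on the vertex set `W + {o,x}` -/
theorem fiber_card (P : Finset ((Fin n × Finset (Finset (Fin n))) × (Fin n × Finset (Finset (Fin n)))))
    (hP : P ⊆ DX i o x ×ˢ DX i o x) (W : Finset (Fin n)) (hW : W.card < 2 * i + 5) :
    (P.filter (fun z => (smU o x z.1 ∪ smU o x z.2) \ {o, x} = W)).card ≤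
      ((2 * i + 6) * 2 ^ ((2 * i + 6).choose 3)) ^ 2 := by
  set U : Finset (Fin n) := insert o (insert x W) with hU
  have hUc : U.card ≤ 2 * i + 6 := by
    have h1 := Finset.card_insert_le o (insert x W)
    have h2 := Finset.card_insert_le x W
    rw [hU]
    omega
  set B := U ×ˢ (U.powersetCard 3).powerset with hB
  have hBc : B.card ≤ (2 * i + 6) * 2 ^ ((2 * i + 6).choose 3) := by
    rw [hB, Finset.card_product, Finset.card_powerset, Finset.card_powersetCard]
    exact Nat.mul_le_mul hUc (Nat.pow_le_pow_right (by norm_num) (Nat.choose_le_choose 3 hUc))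
  have key : P.filter (fun z => (smU o x z.1 ∪ smU o x z.2) \ {o, x} = W) ⊆ B ×ˢ B := by
    intro z hz
    rw [Finset.mem_filter] at hz
    obtain ⟨hzP, hzW⟩ := hz
    obtain ⟨hz1, hz2⟩ := Finset.mem_product.mp (hP hzP)
    have hsub : smU o x z.1 ∪ smU o x z.2 ⊆ U := by
      intro v hv
      rw [hU, Finset.mem_insert, Finset.mem_insert]
      by_cases h1 : v = o
      · exact Or.inl h1
      by_cases h2 : v = x
      · exact Or.inr (Or.inl h2)
      right; right
      rw [← hzW, Finset.mem_sdiff]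
      exact ⟨hv, by simp [h1, h2]⟩
    have aux : ∀ y : Fin n × Finset (Finset (Fin n)), y ∈ DX i o x → smU o x y ⊆ U → y ∈ B := by
      intro y hy hyU
      rw [hB, Finset.mem_product, Finset.mem_powerset]
      refine ⟨hyU y_mem_smU, fun s hs => ?_⟩
      have := DX_sub_powersetCard hy hs
      rw [Finset.mem_powersetCard] at this ⊢
      exact ⟨this.1.trans hyU, this.2⟩
    rw [Finset.mem_product]
    exact ⟨aux _ hz1 (Finset.subset_union_left.trans hsub),
      aux _ hz2 (Finset.subset_union_right.trans hsub)⟩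
  calc (P.filter (fun z => (smU o x z.1 ∪ smU o x z.2) \ {o, x} = W)).card
      ≤ (B ×ˢ B).card := Finset.card_le_card key
    _ = B.card ^ 2 := by rw [Finset.card_product, sq]
    _ ≤ _ := Nat.pow_le_pow_left hBc 2

open Classical in
theorem pair_sum (hox : o ≠ x) {c C : ℝ} (hc : 0 < c) (hC : 1 ≤ C) (hcC : c ≤ C) (hn : 0 < n)
    (t : ℕ)
    (P : Finset ((Fin n × Finset (Finset (Fin n))) × (Fin n × Finset (Finset (Fin n)))))
    (hP : P ⊆ DX i o x ×ˢ DX i o x)
    (hexp : ∀ z ∈ P, 2 * (smU o x z.1 ∪ smU o x z.2).card ≤ (z.1.2 ∪ z.2.2).card + t + 4) :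
    ∑ z ∈ P, (c / Real.sqrt n) ^ (z.1.2 ∪ z.2.2).card ≤ Real.sqrt n ^ t * smG i C := by
  have hnr : (0 : ℝ) < n := by exact_mod_cast hn
  have hn1 : (1 : ℝ) ≤ n := by exact_mod_cast hn
  have hsq : 1 ≤ Real.sqrt n := by
    rw [Real.one_le_sqrt]; exact hn1
  have hsq0 : 0 < Real.sqrt n := by linarith
  have hsqn : Real.sqrt n ^ 2 = n := Real.sq_sqrt hnr.le
  have hox2 : ({o, x} : Finset (Fin n)).card = 2 := Finset.card_pair hox
  -- one term
  have hterm : ∀ z ∈ P, (c / Real.sqrt n) ^ (z.1.2 ∪ z.2.2).card ≤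
      C ^ (4 * i + 2) * Real.sqrt n ^ t * ((n : ℝ) ^ ((smU o x z.1 ∪ smU o x z.2) \ {o, x}).card)⁻¹ := by
    intro z hz
    obtain ⟨hz1, hz2⟩ := Finset.mem_product.mp (hP hz)
    have hsub : ({o, x} : Finset (Fin n)) ⊆ smU o x z.1 ∪ smU o x z.2 := by
      intro v hv
      rw [Finset.mem_insert, Finset.mem_singleton] at hv
      rw [Finset.mem_union]
      rcases hv with rfl | rfl
      · exact Or.inl o_mem_smU
      · exact Or.inl x_mem_smU
    have hWc := Finset.card_sdiff_add_card_eq_card hsub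
    rw [hox2] at hWc
    set w := ((smU o x z.1 ∪ smU o x z.2) \ {o, x}).card with hw
    set f := (z.1.2 ∪ z.2.2).card with hf
    have h1 : 2 * w ≤ f + t := by
      have := hexp z hz
      omega
    have h2 : f ≤ 4 * i + 2 := by
      have := Finset.card_union_le z.1.2 z.2.2
      rw [DX_card hz1, DX_card hz2] at this
      omega
    have h3 : c ^ f ≤ C ^ (4 * i + 2) :=
      (pow_le_pow_left₀ hc.le hcC f).trans (pow_le_pow_right₀ hC h2)
    have h4 : (n : ℝ) ^ w ≤ Real.sqrt n ^ t * Real.sqrt n ^ f := by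
      rw [← pow_add, ← hsqn, ← pow_mul]
      rw [hsqn]
      exact pow_le_pow_right₀ hsq (by omega)
    rw [div_pow, mul_assoc]
    rw [div_eq_mul_inv]
    refine mul_le_mul h3 ?_ (by positivity) (by positivity)
    rw [← div_eq_mul_inv, inv_eq_one_div, div_le_div_iff₀ (by positivity) (by positivity), one_mul]
    exact h4
  have hmaps : ∀ z ∈ P, (smU o x z.1 ∪ smU o x z.2) \ {o, x} ∈
      (univ : Finset (Finset (Fin n))).filter (fun W => W.card < 2 * i + 5) := by
    intro z hz
    obtain ⟨hz1, hz2⟩ := Finset.mem_product.mp (hP hz)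
    rw [Finset.mem_filter]
    refine ⟨Finset.mem_univ _, ?_⟩
    have hsub : ({o, x} : Finset (Fin n)) ⊆ smU o x z.1 ∪ smU o x z.2 := by
      intro v hv
      rw [Finset.mem_insert, Finset.mem_singleton] at hv
      rw [Finset.mem_union]
      rcases hv with rfl | rfl
      · exact Or.inl o_mem_smU
      · exact Or.inl x_mem_smU
    have hWc := Finset.card_sdiff_add_card_eq_card hsub
    rw [hox2] at hWc
    have h5 := Finset.card_union_le (smU o x z.1) (smU o x z.2)
    rw [(mem_DX.mp hz1).2.2.2, (mem_DX.mp hz2).2.2.2] at h5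
    omega
  have hsum : ∑ z ∈ P, ((n : ℝ) ^ ((smU o x z.1 ∪ smU o x z.2) \ {o, x}).card)⁻¹ ≤
      (2 * i + 5) * ((((2 * i + 6) * 2 ^ ((2 * i + 6).choose 3)) ^ 2 : ℕ) : ℝ) := by
    rw [← Finset.sum_fiberwise_of_maps_to hmaps]
    calc ∑ W ∈ (univ : Finset (Finset (Fin n))).filter (fun W => W.card < 2 * i + 5),
          ∑ z ∈ P.filter (fun z => (smU o x z.1 ∪ smU o x z.2) \ {o, x} = W),
            ((n : ℝ) ^ ((smU o x z.1 ∪ smU o x z.2) \ {o, x}).card)⁻¹
        ≤ ∑ W ∈ (univ : Finset (Finset (Fin n))).filter (fun W => W.card < 2 * i + 5),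
            ((((2 * i + 6) * 2 ^ ((2 * i + 6).choose 3)) ^ 2 : ℕ) : ℝ) * ((n : ℝ) ^ W.card)⁻¹ := by
          refine Finset.sum_le_sum fun W hW => ?_
          have e1 : ∑ z ∈ P.filter (fun z => (smU o x z.1 ∪ smU o x z.2) \ {o, x} = W),
              ((n : ℝ) ^ ((smU o x z.1 ∪ smU o x z.2) \ {o, x}).card)⁻¹ =
              ∑ z ∈ P.filter (fun z => (smU o x z.1 ∪ smU o x z.2) \ {o, x} = W),
              ((n : ℝ) ^ W.card)⁻¹ := by
            refine Finset.sum_congr rfl fun z hz => ?_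
            rw [(Finset.mem_filter.mp hz).2]
          rw [e1, Finset.sum_const, nsmul_eq_mul]
          refine mul_le_mul_of_nonneg_right ?_ (by positivity)
          exact_mod_cast fiber_card P hP W (Finset.mem_filter.mp hW).2
      _ = ((((2 * i + 6) * 2 ^ ((2 * i + 6).choose 3)) ^ 2 : ℕ) : ℝ) *
            ∑ W ∈ (univ : Finset (Finset (Fin n))).filter (fun W => W.card < 2 * i + 5),
              ((n : ℝ) ^ W.card)⁻¹ := by rw [Finset.mul_sum]
      _ ≤ ((((2 * i + 6) * 2 ^ ((2 * i + 6).choose 3)) ^ 2 : ℕ) : ℝ) * ((2 * i + 5 : ℕ) : ℝ) :=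
          mul_le_mul_of_nonneg_left (sum_inv_pow hn _) (Nat.cast_nonneg _)
      _ = _ := by push_cast; ring
  calc ∑ z ∈ P, (c / Real.sqrt n) ^ (z.1.2 ∪ z.2.2).card
      ≤ ∑ z ∈ P, C ^ (4 * i + 2) * Real.sqrt n ^ t *
          ((n : ℝ) ^ ((smU o x z.1 ∪ smU o x z.2) \ {o, x}).card)⁻¹ := Finset.sum_le_sum hterm
    _ = C ^ (4 * i + 2) * Real.sqrt n ^ t *
          ∑ z ∈ P, ((n : ℝ) ^ ((smU o x z.1 ∪ smU o x z.2) \ {o, x}).card)⁻¹ := by
        rw [Finset.mul_sum]
    _ ≤ C ^ (4 * i + 2) * Real.sqrt n ^ t *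
          ((2 * i + 5) * ((((2 * i + 6) * 2 ^ ((2 * i + 6).choose 3)) ^ 2 : ℕ) : ℝ)) :=
        mul_le_mul_of_nonneg_left hsum (by positivity)
    _ = Real.sqrt n ^ t * smG i C := by
        unfold smG
        ring

end SM

end Pool.Agent.SC
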