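import Pool.Agent.Lib.MP_d0323d_co.SecMomA
/-! Module SECMOM (section 11), part B: first and second moment. -/
set_option autoImplicit false
namespace Pool.Agent.SC
open Finset Filter Topology

theorem card_le_image_add {α β : Type*} [DecidableEq α] [DecidableEq β] (A : Finset α) (f : α → β) :
    A.card ≤ (A.image f).card +
      ((A ×ˢ A).filter (fun q => f q.1 = f q.2 ∧ q.1 ≠ q.2)).card := by
  induction A using Finset.induction_on with
  | empty => simp
  | insert a A ha ih =>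
    rw [Finset.card_insert_of_notMem ha, Finset.image_insert]
    have hmono : (A ×ˢ A).filter (fun q => f q.1 = f q.2 ∧ q.1 ≠ q.2) ⊆
        ((insert a A) ×ˢ (insert a A)).filter (fun q => f q.1 = f q.2 ∧ q.1 ≠ q.2) := by
      refine Finset.filter_subset_filter _ ?_
      exact Finset.product_subset_product (Finset.subset_insert _ _) (Finset.subset_insert _ _)
    by_cases h : f a ∈ A.image f
    · obtain ⟨b, hb, hfb⟩ := Finset.mem_image.mp h
      have hab : (a, b) ∉ (A ×ˢ A).filter (fun q => f q.1 = f q.2 ∧ q.1 ≠ q.2) := by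
        intro hh
        rw [Finset.mem_filter, Finset.mem_product] at hh
        exact ha hh.1.1
      have hsub : insert (a, b) ((A ×ˢ A).filter (fun q => f q.1 = f q.2 ∧ q.1 ≠ q.2)) ⊆
          ((insert a A) ×ˢ (insert a A)).filter (fun q => f q.1 = f q.2 ∧ q.1 ≠ q.2) := by
        rw [Finset.insert_subset_iff]
        refine ⟨?_, hmono⟩
        rw [Finset.mem_filter, Finset.mem_product]
        refine ⟨⟨Finset.mem_insert_self _ _, Finset.mem_insert_of_mem hb⟩, hfb.symm, ?_⟩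
        intro hab'
        have hab'' : a = b := hab'
        exact ha (hab'' ▸ hb)
      have h1 := Finset.card_le_card hsub
      rw [Finset.card_insert_of_notMem hab] at h1
      rw [Finset.insert_eq_of_mem h]
      omega
    · rw [Finset.card_insert_of_notMem h]
      have h1 := Finset.card_le_card hmono
      omega

section SM
variable {n : ℕ} {i : ℕ} {o x : Fin n}

open Classical in
/-- number of discs contained in `F` -/
noncomputable def smX (i : ℕ) (o x : Fin n) (F : Finset (Finset (Fin n))) : ℝ :=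
  ∑ z ∈ DX i o x, if z.2 ⊆ F then 1 else 0

open Classical in
/-- pairs of different discs with the same boundary -/
noncomputable def smP2 (i : ℕ) (o x : Fin n) :
    Finset ((Fin n × Finset (Finset (Fin n))) × (Fin n × Finset (Finset (Fin n)))) :=
  (DX i o x ×ˢ DX i o x).filter fun q => q.1.1 = q.2.1 ∧ q.1.2 ≠ q.2.2

open Classical in
/-- pairs of discs with a common member -/
noncomputable def smP1 (i : ℕ) (o x : Fin n) :
    Finset ((Fin n × Finset (Finset (Fin n))) × (Fin n × Finset (Finset (Fin n)))) :=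
  (DX i o x ×ˢ DX i o x).filter fun q => (q.1.2 ∩ q.2.2).Nonempty

open Classical in
noncomputable def smR (i : ℕ) (o x : Fin n) (F : Finset (Finset (Fin n))) : ℝ :=
  ∑ q ∈ smP2 i o x, if q.1.2 ∪ q.2.2 ⊆ F then 1 else 0

theorem Ex_smX (p : ℝ) : Ex (tri n) p (smX i o x) = ((DX i o x).card : ℝ) * p ^ (2 * i + 1) := by
  classical
  have e : Ex (tri n) p (smX i o x) =
      Ex (tri n) p (fun F => ∑ z ∈ DX i o x, if z.2 ⊆ F then (1 : ℝ) else 0) := by
    refine Ex_congr fun F _ => ?_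
    unfold smX
    refine Finset.sum_congr rfl fun z _ => ?_
    congr
  rw [e, Ex_sum]
  have : ∀ z ∈ DX i o x, Ex (tri n) p (fun F => if z.2 ⊆ F then (1 : ℝ) else 0) =
      p ^ (2 * i + 1) := by
    intro z hz
    have h1 := Ex_ind (U := tri n) (p := p) (fun F => z.2 ⊆ F)
    have h2 := Pr_subset (U := tri n) (p := p) (DX_sub_tri hz)
    rw [DX_card hz] at h2
    rw [← h2, ← h1]
    refine Ex_congr fun F _ => ?_
    congr
  rw [Finset.sum_congr rfl this, Finset.sum_const, nsmul_eq_mul]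

theorem Ex_pairs (p : ℝ)
    (P : Finset ((Fin n × Finset (Finset (Fin n))) × (Fin n × Finset (Finset (Fin n)))))
    (hP : P ⊆ DX i o x ×ˢ DX i o x) (g : Finset (Finset (Fin n)) → ℝ)
    (hg : ∀ F, g F = ∑ q ∈ P, (open Classical in if q.1.2 ∪ q.2.2 ⊆ F then (1 : ℝ) else 0)) :
    Ex (tri n) p g = ∑ q ∈ P, p ^ (q.1.2 ∪ q.2.2).card := by
  classical
  have e : Ex (tri n) p g =
      Ex (tri n) p (fun F => ∑ q ∈ P, if q.1.2 ∪ q.2.2 ⊆ F then (1 : ℝ) else 0) := by
    refine Ex_congr fun F _ => ?_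
    rw [hg]
  rw [e, Ex_sum]
  refine Finset.sum_congr rfl fun q hq => ?_
  obtain ⟨h1, h2⟩ := Finset.mem_product.mp (hP hq)
  have h3 := Ex_ind (U := tri n) (p := p) (fun F => q.1.2 ∪ q.2.2 ⊆ F)
  have h4 := Pr_subset (U := tri n) (p := p) (Finset.union_subset (DX_sub_tri h1) (DX_sub_tri h2))
  rw [← h4, ← h3]
  refine Ex_congr fun F _ => ?_
  congr

theorem smX_sq (F : Finset (Finset (Fin n))) : smX i o x F ^ 2 =
    ∑ q ∈ DX i o x ×ˢ DX i o x, (open Classical in if q.1.2 ∪ q.2.2 ⊆ F then (1 : ℝ) else 0) := by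
  classical
  unfold smX
  rw [sq, Finset.sum_mul_sum, ← Finset.sum_product']
  refine Finset.sum_congr rfl fun q _ => ?_
  by_cases h1 : q.1.2 ⊆ F <;> by_cases h2 : q.2.2 ⊆ F <;> simp [h1, h2, Finset.union_subset_iff]

theorem smX_le {F : Finset (Finset (Fin n))} (ho : o.val = 0) (hx : x.val ≠ 0) :
    smX i o x F ≤ ((nb F x).card : ℝ) + smR i o x F := by
  classical
  have hox : o ≠ x := by
    rintro rfl
    exact hx ho
  set A := (DX i o x).filter (fun z => z.2 ⊆ F) with hA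
  have h1 : smX i o x F = (A.card : ℝ) := by
    unfold smX
    rw [hA, Finset.card_filter, Nat.cast_sum]
    refine Finset.sum_congr rfl fun z _ => ?_
    by_cases h : z.2 ⊆ F <;> simp [h]
  have h2 : smR i o x F = (((smP2 i o x).filter (fun q => q.1.2 ∪ q.2.2 ⊆ F)).card : ℝ) := by
    unfold smR
    rw [Finset.card_filter, Nat.cast_sum]
    refine Finset.sum_congr rfl fun z _ => ?_
    by_cases h : z.1.2 ∪ z.2.2 ⊆ F <;> simp [h]
  have h3 := card_le_image_add A Prod.fst
  have h4 : (A.image Prod.fst).card ≤ (nb F x).card := by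
    refine Finset.card_le_card fun y hy => ?_
    obtain ⟨z, hz, rfl⟩ := Finset.mem_image.mp hy
    rw [hA, Finset.mem_filter, mem_DX] at hz
    obtain ⟨⟨hz1, hz2, hz3, _⟩, hzF⟩ := hz
    rw [mem_nb]
    refine ⟨hz2.symm, hx, fun h => hz1 (Fin.ext (h.trans ho.symm)), ?_⟩
    exact gg_one_of_disc ho (smb_card hox hz1 hz2) hz3 hzF
  have h5 : ((A ×ˢ A).filter (fun q => q.1.1 = q.2.1 ∧ q.1 ≠ q.2)).card ≤
      ((smP2 i o x).filter (fun q => q.1.2 ∪ q.2.2 ⊆ F)).card := by
    refine Finset.card_le_card fun q hq => ?_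
    rw [Finset.mem_filter, Finset.mem_product, hA, Finset.mem_filter, Finset.mem_filter] at hq
    obtain ⟨⟨⟨a1, a2⟩, b1, b2⟩, c1, c2⟩ := hq
    unfold smP2
    rw [Finset.mem_filter, Finset.mem_filter, Finset.mem_product]
    exact ⟨⟨⟨a1, b1⟩, c1, fun h => c2 (Prod.ext c1 h)⟩, Finset.union_subset a2 b2⟩
  rw [h1, h2]
  have h6 : A.card ≤ (nb F x).card +
      ((smP2 i o x).filter (fun q => q.1.2 ∪ q.2.2 ⊆ F)).card := by
    refine h3.trans (Nat.add_le_add h4 ?_)
    convert h5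
  exact_mod_cast h6

theorem nb_prob (ho : o.val = 0) (hx : x.val ≠ 0) {c C : ℝ} (hc : 0 < c) (hC : 1 ≤ C)
    (hcC : c ≤ C) (hn : 0 < n) (hp1 : c / Real.sqrt n ≤ 1) {mu : ℝ} (hmu : 0 < mu)
    (hmu2 : mu = ((DX i o x).card : ℝ) * (c / Real.sqrt n) ^ (2 * i + 1)) :
    Pr (tri n) (c / Real.sqrt n) (fun F => ((nb F x).card : ℝ) < mu / 4) ≤
      4 * (Real.sqrt n * smG i C) / mu ^ 2 + 4 * smG i C / mu := by
  classical
  have hox : o ≠ x := by
    rintro rfl
    exact hx ho
  have hnr : (0 : ℝ) < n := by exact_mod_cast hn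
  set p := c / Real.sqrt n with hp
  have hp0 : 0 ≤ p := by positivity
  have hE : Ex (tri n) p (smX i o x) = mu := by rw [Ex_smX, hmu2]
  have hch := Pr_chebyshev hp0 hp1 (smX i o x) hmu hE
  have hR0 : ∀ F, 0 ≤ smR i o x F := by
    intro F
    unfold smR
    refine Finset.sum_nonneg fun q _ => ?_
    split_ifs <;> norm_num
  have hma := Pr_markov (U := tri n) hp0 hp1 (smR i o x) hR0 (a := mu / 4) (by positivity)
  -- second moment
  have hsub1 : smP1 i o x ⊆ DX i o x ×ˢ DX i o x := Finset.filter_subset _ _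
  have hsub2 : smP2 i o x ⊆ DX i o x ×ˢ DX i o x := Finset.filter_subset _ _
  have hE2 : Ex (tri n) p (fun F => smX i o x F ^ 2) =
      ∑ q ∈ DX i o x ×ˢ DX i o x, p ^ (q.1.2 ∪ q.2.2).card :=
    Ex_pairs p _ (Finset.Subset.refl _) _ (fun F => smX_sq F)
  have hE3 : Ex (tri n) p (smR i o x) = ∑ q ∈ smP2 i o x, p ^ (q.1.2 ∪ q.2.2).card :=
    Ex_pairs p _ hsub2 _ (fun F => rfl)
  have hv : Ex (tri n) p (fun F => smX i o x F ^ 2) - mu ^ 2 ≤
      ∑ q ∈ smP1 i o x, p ^ (q.1.2 ∪ q.2.2).card := by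
    have e1 : mu ^ 2 = ∑ _q ∈ DX i o x ×ˢ DX i o x, p ^ (2 * (2 * i + 1)) := by
      rw [hmu2, Finset.sum_const, Finset.card_product, nsmul_eq_mul]
      push_cast
      ring
    rw [hE2, e1, ← Finset.sum_sub_distrib]
    unfold smP1
    rw [Finset.sum_filter]
    refine Finset.sum_le_sum fun q hq => ?_
    obtain ⟨h1, h2⟩ := Finset.mem_product.mp hq
    split_ifs with h
    · have : 0 ≤ p ^ (2 * (2 * i + 1)) := by positivity
      linarith
    · rw [Finset.not_nonempty_iff_eq_empty] at h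
      have h3 : Disjoint q.1.2 q.2.2 := Finset.disjoint_iff_inter_eq_empty.mpr h
      rw [Finset.card_union_of_disjoint h3, DX_card h1, DX_card h2]
      have : 2 * i + 1 + (2 * i + 1) = 2 * (2 * i + 1) := by ring
      rw [this, sub_self]
  have hs1 : ∑ q ∈ smP1 i o x, p ^ (q.1.2 ∪ q.2.2).card ≤ Real.sqrt n ^ 1 * smG i C := by
    refine pair_sum hox hc hC hcC hn 1 _ hsub1 fun z hz => ?_
    unfold smP1 at hz
    rw [Finset.mem_filter, Finset.mem_product] at hz
    exact DX_pair1 hz.1.1 hz.1.2 hz.2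
  have hs2 : ∑ q ∈ smP2 i o x, p ^ (q.1.2 ∪ q.2.2).card ≤ Real.sqrt n ^ 0 * smG i C := by
    refine pair_sum hox hc hC hcC hn 0 _ hsub2 fun z hz => ?_
    unfold smP2 at hz
    rw [Finset.mem_filter, Finset.mem_product] at hz
    exact DX_pair2 hz.1.1 hz.1.2 hz.2.1 hz.2.2
  rw [pow_one] at hs1
  rw [pow_zero, one_mul] at hs2
  have hincl : Pr (tri n) p (fun F => ((nb F x).card : ℝ) < mu / 4) ≤
      Pr (tri n) p (fun F => smX i o x F < mu / 2 ∨ mu / 4 ≤ smR i o x F) := by
    refine Pr_mono hp0 hp1 fun F _ hF => ?_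
    by_contra hcon
    push Not at hcon
    have h1 := smX_le (i := i) (F := F) ho hx
    linarith [hcon.1, hcon.2]
  refine hincl.trans ((Pr_or_le hp0 hp1 _ _).trans (add_le_add ?_ ?_))
  · refine hch.trans ?_
    refine div_le_div_of_nonneg_right ?_ (by positivity)
    linarith
  · refine hma.trans ?_
    rw [hE3, div_div_eq_mul_div, mul_comm]
    exact div_le_div_of_nonneg_right (mul_le_mul_of_nonneg_left hs2 (by norm_num)) hmu.le

/-! ### the number of discs -/

theorem DX_card_ge (hox : o ≠ x) (hi : 1 ≤ i) :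
    (n - 2) * ((n - 3).choose i * dsc i) ≤ (DX i o x).card := by
  classical
  set Y : Finset (Fin n) := univ \ {o, x} with hY
  have hYc : Y.card = n - 2 := by
    rw [hY, Finset.card_univ_sdiff, Fintype.card_fin, Finset.card_pair hox]
  set T : Finset (Σ _ : Fin n, Finset (Fin n)) :=
    Y.sigma (fun y => (univ \ smb o x y).powersetCard i) with hT
  have hTc : T.card = (n - 2) * (n - 3).choose i := by
    rw [hT, Finset.card_sigma]
    have : ∀ y ∈ Y, ((univ \ smb o x y).powersetCard i).card = (n - 3).choose i := by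
      intro y hy
      rw [hY, Finset.mem_sdiff] at hy
      simp only [Finset.mem_univ, true_and, Finset.mem_insert, Finset.mem_singleton, not_or] at hy
      rw [Finset.card_powersetCard, Finset.card_univ_sdiff, Fintype.card_fin,
        smb_card hox hy.1 hy.2]
    rw [Finset.sum_congr rfl this, Finset.sum_const, smul_eq_mul, hYc]
  set g : Fin n × Finset (Finset (Fin n)) → (Σ _ : Fin n, Finset (Fin n)) :=
    fun z => ⟨z.1, smU o x z \ smb o x z.1⟩ with hg
  have hmaps : ∀ z ∈ DX i o x, g z ∈ T := by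
    intro z hz
    obtain ⟨h1, h2, h3, h4⟩ := mem_DX.mp hz
    rw [hT, Finset.mem_sigma]
    refine ⟨?_, ?_⟩
    · rw [hY, Finset.mem_sdiff]
      simp [hg, h1, h2]
    · rw [Finset.mem_powersetCard]
      refine ⟨Finset.sdiff_subset_sdiff (Finset.subset_univ _) (Finset.Subset.refl _), ?_⟩
      have h5 := Finset.card_sdiff_add_card_eq_card (smb_sub_smU (o := o) (x := x) (z := z))
      rw [h4, smb_card hox h1 h2] at h5
      simp only [hg]
      omega
  rw [Finset.card_eq_sum_card_fiberwise hmaps, ← mul_assoc, ← hTc]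
  rw [← smul_eq_mul, ← Finset.sum_const]
  refine Finset.sum_le_sum fun t ht => ?_
  rw [hT, Finset.mem_sigma, hY, Finset.mem_sdiff, Finset.mem_powersetCard] at ht
  simp only [Finset.mem_univ, true_and, Finset.mem_insert, Finset.mem_singleton, not_or] at ht
  obtain ⟨⟨ht1, ht2⟩, ht3, ht4⟩ := ht
  have hb3 := smb_card hox ht1 ht2
  have hdis : Disjoint (smb o x t.1) t.2 := by
    rw [Finset.disjoint_left]
    intro v hv hv2
    exact (Finset.mem_sdiff.mp (ht3 hv2)).2 hv
  have hne : t.2.Nonempty := by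
    rw [← Finset.card_pos, ht4]; omega
  have hcd := card_discs (smb o x t.1) t.2 hb3 hdis hne
  rw [ht4] at hcd
  rw [← hcd]
  rw [Nat.card_eq_fintype_card, Fintype.card_subtype]
  refine Finset.card_le_card_of_injOn (fun D => (t.1, D)) ?_ ?_
  · intro D hD
    rw [Finset.mem_coe, Finset.mem_filter] at hD
    obtain ⟨_, hD1, hD2⟩ := hD
    rw [Finset.mem_coe, Finset.mem_filter, mem_DX]
    have hU : smU o x (t.1, D) = smb o x t.1 ∪ t.2 := hD2
    refine ⟨⟨ht1, ht2, hD1, ?_⟩, ?_⟩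
    · rw [hU, Finset.card_union_of_disjoint hdis, hb3, ht4]; ring
    · simp only [hg]
      rw [hU]
      have : (smb o x t.1 ∪ t.2) \ smb o x t.1 = t.2 := by
        rw [Finset.union_sdiff_left, Finset.sdiff_eq_self_iff_disjoint]
        exact hdis.symm
      rw [this]
  · intro D _ D' _ h
    exact (Prod.ext_iff.mp h).2

theorem mu_ge (hox : o ≠ x) (hi : 1 ≤ i) {c Γ : ℝ} (hc : 0 < c) (hΓ : 0 < Γ)
    (hd : Γ ^ i ≤ (dsc i : ℝ) / (i.factorial : ℝ)) (hn4 : 4 ≤ n)
    (hni : 2 * (i * (i + 2)) ≤ n) :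
    Real.sqrt n / 4 * c * (c ^ 2 * Γ) ^ i ≤
      ((DX i o x).card : ℝ) * (c / Real.sqrt n) ^ (2 * i + 1) := by
  have hnr : (0 : ℝ) < n := by
    have : 0 < n := by omega
    exact_mod_cast this
  have hsq0 : 0 < Real.sqrt n := Real.sqrt_pos.mpr hnr
  have hsqn : Real.sqrt n ^ 2 = n := Real.sq_sqrt hnr.le
  have h1 : (((n - 2) * ((n - 3).choose i * dsc i) : ℕ) : ℝ) ≤ ((DX i o x).card : ℝ) := by
    exact_mod_cast DX_card_ge hox hi
  have hle : i + 2 ≤ n := by nlinarith
  -- descending factorial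
  have h2 : (n - 2 - i) ^ i ≤ (n - 3).choose i * i.factorial := by
    have := Nat.pow_sub_le_descFactorial (n - 3) i
    rw [Nat.descFactorial_eq_factorial_mul_choose] at this
    have e : n - 3 + 1 - i = n - 2 - i := by omega
    rw [e] at this
    rw [mul_comm ((n - 3).choose i)]
    exact this
  have h3 : (n : ℝ) ^ i / 2 ≤ ((n - 2 - i : ℕ) : ℝ) ^ i := by
    have e : ((n - 2 - i : ℕ) : ℝ) = (n : ℝ) * (1 + -((i + 2 : ℝ) / n)) := by
      rw [Nat.cast_sub (by omega), Nat.cast_sub (by omega)]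
      field_simp
      push_cast
      ring
    rw [e, mul_pow]
    have hlt : ((i : ℝ) + 2) / n ≤ 1 := by
      rw [div_le_one hnr]
      exact_mod_cast hle
    have hb := one_add_mul_le_pow (a := -((i + 2 : ℝ) / n)) (by linarith) i
    have h4 : (1 : ℝ) / 2 ≤ 1 + (i : ℝ) * -((i + 2 : ℝ) / n) := by
      have h5 : (i : ℝ) * ((i + 2 : ℝ) / n) ≤ 1 / 2 := by
        rw [← mul_div_assoc, div_le_div_iff₀ hnr (by norm_num)]
        have : (2 * (i * (i + 2)) : ℝ) ≤ n := by exact_mod_cast hni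
        linarith
      linarith
    have h6 : (1 : ℝ) / 2 ≤ (1 + -((i + 2 : ℝ) / n)) ^ i := h4.trans hb
    have h7 : (0 : ℝ) < (n : ℝ) ^ i := by positivity
    nlinarith
  have h4 : (n : ℝ) / 2 ≤ ((n - 2 : ℕ) : ℝ) := by
    rw [Nat.cast_sub (by omega)]
    have : (4 : ℝ) ≤ n := by exact_mod_cast hn4
    push_cast
    linarith
  have hfac : (0 : ℝ) < (i.factorial : ℝ) := by exact_mod_cast Nat.factorial_pos i
  have h5 : (n : ℝ) ^ i / 2 * Γ ^ i ≤ ((n - 3).choose i : ℝ) * (dsc i : ℝ) := by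
    have h6 : (((n - 2 - i) ^ i : ℕ) : ℝ) ≤ ((n - 3).choose i : ℝ) * (i.factorial : ℝ) := by
      exact_mod_cast h2
    push_cast at h6
    calc (n : ℝ) ^ i / 2 * Γ ^ i ≤ ((n - 2 - i : ℕ) : ℝ) ^ i * ((dsc i : ℝ) / (i.factorial : ℝ)) :=
          mul_le_mul h3 hd (by positivity) (by positivity)
      _ ≤ (((n - 3).choose i : ℝ) * (i.factorial : ℝ)) * ((dsc i : ℝ) / (i.factorial : ℝ)) :=
          mul_le_mul_of_nonneg_right h6 (by positivity)
      _ = ((n - 3).choose i : ℝ) * (dsc i : ℝ) := by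
          field_simp
  have h6 : (n : ℝ) / 2 * ((n : ℝ) ^ i / 2 * Γ ^ i) ≤ ((DX i o x).card : ℝ) := by
    refine le_trans ?_ h1
    push_cast
    exact mul_le_mul h4 h5 (by positivity) (by positivity)
  have hpow : (c / Real.sqrt n) ^ (2 * i + 1) = c ^ (2 * i + 1) / ((n : ℝ) ^ i * Real.sqrt n) := by
    rw [div_pow]
    congr 1
    rw [pow_succ, pow_mul, hsqn]
  rw [hpow]
  calc Real.sqrt n / 4 * c * (c ^ 2 * Γ) ^ i
      = ((n : ℝ) / 2 * ((n : ℝ) ^ i / 2 * Γ ^ i)) * (c ^ (2 * i + 1) / ((n : ℝ) ^ i * Real.sqrt n)) := by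
        rw [mul_pow, pow_succ c (2 * i), ← pow_mul]
        have : (n : ℝ) = Real.sqrt n * Real.sqrt n := by rw [← sq, hsqn]
        field_simp
        rw [hsqn]
        ring
    _ ≤ _ := mul_le_mul_of_nonneg_right h6 (by positivity)

end SM

end Pool.Agent.SC
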