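import Pool.Agent.Lib.MP_d0323d_co.SecMom
/-! Module SECMOM, last step: `Q0_whp` from `degree_whp`. -/
set_option autoImplicit false
namespace Pool.Agent.SC
open Finset Filter Topology

open Classical in
/-- if few vertices have small null degree then `Q0` holds -/
theorem Q0_of_few {n : ℕ} (hn : 4 ≤ n) (d : ℝ) (F : Finset (Finset (Fin n)))
    (h : ((univ.filter (fun x : Fin n => x.val ≠ 0 ∧ ((nb F x).card : ℝ) < d)).card : ℝ)
      < (n : ℝ) / 4) : Q0 d F := by
  set B := univ.filter (fun x : Fin n => x.val ≠ 0 ∧ ((nb F x).card : ℝ) < d) with hB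
  refine ⟨univ.filter (fun x : Fin n => x.val ≠ 0 ∧ ¬ ((nb F x).card : ℝ) < d), ?_, ?_, ?_⟩
  · intro x hx
    exact (mem_filter.1 hx).2.1
  · set A := univ.filter (fun x : Fin n => x.val ≠ 0 ∧ ¬ ((nb F x).card : ℝ) < d) with hA
    have h1 : n ≤ A.card + B.card + 1 := by
      have h2 : (univ : Finset (Fin n)) ⊆ A ∪ B ∪ {⟨0, by omega⟩} := by
        intro x _
        simp only [hA, hB, mem_union, mem_filter, mem_univ, true_and, mem_singleton, Fin.ext_iff]
        by_cases hx : x.val = 0
        · right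
          exact hx
        · left
          by_cases hd : ((nb F x).card : ℝ) < d
          · right
            exact ⟨hx, hd⟩
          · left
            exact ⟨hx, hd⟩
      have h3 := card_le_card h2
      rw [card_univ, Fintype.card_fin] at h3
      have h4 := card_union_le (A ∪ B) {(⟨0, by omega⟩ : Fin n)}
      have h5 := card_union_le A B
      rw [card_singleton] at h4
      omega
    have h6 : (n : ℝ) ≤ A.card + B.card + 1 := by exact_mod_cast h1
    have h7 : (4 : ℝ) ≤ n := by exact_mod_cast hn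
    have h8 : (n : ℝ) ≤ 2 * (A.card : ℝ) := by linarith
    exact_mod_cast h8
  · intro x hx
    exact not_lt.1 (mem_filter.1 hx).2.2

theorem Q0_whp {γ : ℝ} (hγ : 1 ≤ γ)
    (hγ2 : ∀ Γ : ℝ, 0 < Γ → Γ < γ → ∃ i0 : ℕ, 1 ≤ i0 ∧ ∀ j : ℕ,
      Γ ^ (2 ^ j * i0) ≤ (dsc (2 ^ j * i0) : ℝ) / ((2 ^ j * i0).factorial : ℝ))
    {c : ℝ} (hc : 0 < c) (hcγ : 1 < c ^ 2 * γ) :
    Tendsto (fun n : ℕ => Pr (tri n) (c / Real.sqrt n) (Q0 (Real.sqrt n * Real.log n ^ 60)))
      atTop (𝓝 1) := by
  classical
  obtain ⟨n0, hdeg⟩ := degree_whp hγ hγ2 hc hcγ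
  have hlim : Tendsto (fun n : ℕ => 1 - 4 * ((n : ℝ) ^ (-(3 / 10) : ℝ))) atTop (𝓝 (1 - 4 * 0)) := by
    refine tendsto_const_nhds.sub (Tendsto.const_mul _ ?_)
    exact (tendsto_rpow_neg_atTop (by norm_num : (0 : ℝ) < 3 / 10)).comp
      tendsto_natCast_atTop_atTop
  rw [mul_zero, sub_zero] at hlim
  have hsqrt : Tendsto (fun n : ℕ => Real.sqrt (n : ℝ)) atTop atTop :=
    Real.tendsto_sqrt_atTop.comp tendsto_natCast_atTop_atTop
  refine tendsto_of_tendsto_of_tendsto_of_le_of_le' hlim tendsto_const_nhds ?_ ?_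
  · filter_upwards [eventually_ge_atTop (max n0 4), hsqrt.eventually_ge_atTop c] with n hn hcn
    have hn0 : n0 ≤ n := le_trans (le_max_left _ _) hn
    have hn4 : 4 ≤ n := le_trans (le_max_right _ _) hn
    have hnpos : (0 : ℝ) < n := by
      have : 0 < n := by omega
      exact_mod_cast this
    have hs0 : 0 < Real.sqrt n := Real.sqrt_pos.2 hnpos
    have hp0 : 0 ≤ c / Real.sqrt n := by positivity
    have hp1 : c / Real.sqrt n ≤ 1 := (div_le_one hs0).2 hcn
    set d := Real.sqrt n * Real.log n ^ 60 with hd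
    set p := c / Real.sqrt n with hp
    set X : Finset (Finset (Fin n)) → ℝ := fun F =>
      ((univ.filter (fun x : Fin n => x.val ≠ 0 ∧ ((nb F x).card : ℝ) < d)).card : ℝ) with hX
    have hEX : Ex (tri n) p X ≤ (n : ℝ) * (n : ℝ) ^ (-(3 / 10) : ℝ) := by
      have h1 : Ex (tri n) p X = ∑ x ∈ (univ : Finset (Fin n)),
          Ex (tri n) p (fun F => if x.val ≠ 0 ∧ ((nb F x).card : ℝ) < d then (1 : ℝ) else 0) := by
        rw [← Ex_sum]
        apply Ex_congr
        intro F _
        simp only [hX, card_filter]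
        push_cast
        rfl
      rw [h1]
      calc ∑ x ∈ (univ : Finset (Fin n)),
          Ex (tri n) p (fun F => if x.val ≠ 0 ∧ ((nb F x).card : ℝ) < d then (1 : ℝ) else 0)
          ≤ ∑ _x ∈ (univ : Finset (Fin n)), (n : ℝ) ^ (-(3 / 10) : ℝ) := by
            apply sum_le_sum
            intro x _
            by_cases hx : x.val = 0
            · have : Ex (tri n) p (fun F => if x.val ≠ 0 ∧ ((nb F x).card : ℝ) < d
                  then (1 : ℝ) else 0) = 0 := by
                have h2 : Ex (tri n) p (fun F => if x.val ≠ 0 ∧ ((nb F x).card : ℝ) < d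
                    then (1 : ℝ) else 0) = Ex (tri n) p (fun _ => 0) := by
                  apply Ex_congr
                  intro F _
                  simp [hx]
                rw [h2, Ex_const]
              rw [this]
              positivity
            · refine le_trans (le_of_eq ?_) (hdeg n hn0 x hx)
              rw [Pr_eq_Ex]
              apply Ex_congr
              intro F _
              simp only [hx, ne_eq, not_false_eq_true, true_and, hd]
        _ = (n : ℝ) * (n : ℝ) ^ (-(3 / 10) : ℝ) := by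
            rw [sum_const, card_univ, Fintype.card_fin, nsmul_eq_mul]
    have hmar := Pr_ge_le (U := tri n) hp0 hp1 (f := X) (fun F _ => by simp only [hX]; positivity)
      (show (0 : ℝ) < (n : ℝ) / 4 by positivity)
    have hnot : Pr (tri n) p (fun F => ¬ Q0 d F) ≤ Pr (tri n) p (fun F => (n : ℝ) / 4 ≤ X F) := by
      apply Pr_mono hp0 hp1
      intro F _ hF
      by_contra hcon
      exact hF (Q0_of_few hn4 d F (not_le.1 hcon))
    rw [Pr_not] at hnot
    have h9 : Ex (tri n) p X / ((n : ℝ) / 4) ≤ 4 * ((n : ℝ) ^ (-(3 / 10) : ℝ)) := by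
      rw [div_le_iff₀ (by positivity)]
      calc Ex (tri n) p X ≤ (n : ℝ) * (n : ℝ) ^ (-(3 / 10) : ℝ) := hEX
        _ = 4 * ((n : ℝ) ^ (-(3 / 10) : ℝ)) * ((n : ℝ) / 4) := by ring
    have hfin : 1 - Pr (tri n) p (fun F => Q0 d F) ≤ 4 * ((n : ℝ) ^ (-(3 / 10) : ℝ)) :=
      hnot.trans (hmar.trans h9)
    show 1 - 4 * ((n : ℝ) ^ (-(3 / 10) : ℝ)) ≤ Pr (tri n) p (fun F => Q0 d F)
    linarith
  · filter_upwards [eventually_ge_atTop 1, hsqrt.eventually_ge_atTop c] with n hn hcn
    have hnpos : (0 : ℝ) < n := by exact_mod_cast hn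
    have hs0 : 0 < Real.sqrt n := Real.sqrt_pos.2 hnpos
    exact Pr_le_one (by positivity) ((div_le_one hs0).2 hcn) _

end Pool.Agent.SC
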